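import Pool.Agent.Lib.ZP3.Defs

/-! Estimates for `j` and the discriminant on the fundamental domain. -/

open UpperHalfPlane Filter Topology Metric
open scoped Real MatrixGroups Manifold

namespace Pool.Agent.Lib.ZP3

open Pool.Agent.Lib.MP_0704bf_ag Pool.Agent.Lib.helper6

namespace JE

theorem bdd_fd {F : ℍ → ℝ} (hc : Continuous F) {B : ℝ} (hb : ∀ᶠ τ in atImInfty, F τ ≤ B) :
    ∃ C, 1 ≤ C ∧ ∀ τ ∈ ModularGroup.fd, F τ ≤ C := by
  obtain ⟨A, hA⟩ := (atImInfty_mem _).1 hb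
  obtain ⟨E, hE⟩ := (ModularGroup.isCompact_truncatedFundamentalDomain A).bddAbove_image
    hc.continuousOn
  refine ⟨max 1 (max B E), le_max_left _ _, fun τ hτ ↦ le_max_of_le_right ?_⟩
  rcases le_total A τ.im with h | h
  · exact le_max_of_le_left (hA τ h)
  · exact le_max_of_le_right (hE ⟨τ, ⟨hτ, h⟩, rfl⟩)

theorem bdd_fd' {F : ℍ → ℝ} (hc : Continuous F) {L : ℝ} (hb : Tendsto F atImInfty (𝓝 L)) :
    ∃ C, 1 ≤ C ∧ ∀ τ ∈ ModularGroup.fd, F τ ≤ C :=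
  bdd_fd hc (B := L + 1) ((hb.eventually (gt_mem_nhds (lt_add_one L))).mono fun _ h ↦ h.le)

theorem cont_j : Continuous jInv := mdiff_jInv.continuous

theorem cont_disc : Continuous (ModularForm.discriminant : ℍ → ℂ) :=
  (ModularFormClass.holo CuspForm.discriminant).continuous

theorem cont_E4 : Continuous (ModularForm.E₄ : ℍ → ℂ) :=
  (ModularFormClass.holo ModularForm.E₄).continuous

theorem tend_qj : Tendsto (fun τ ↦ qq 1 τ * jInv τ) atImInfty (𝓝 1) := by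
  obtain ⟨J, -, hJ0, hJe⟩ := exists_jS
  exact hJ0 ▸ hJe.tendsto one_pos

theorem tend_q1j : Tendsto (fun τ ↦ ‖qq 1 τ‖ * (1 + ‖jInv τ‖)) atImInfty (𝓝 1) := by
  have := (qParam_tendsto_atImInfty one_pos).norm.add tend_qj.norm
  simp only [norm_zero, norm_one, zero_add] at this
  refine this.congr fun τ ↦ ?_
  rw [norm_mul]; ring

theorem tend_G : Tendsto (fun τ ↦ ‖ModularForm.discriminant τ‖ * (1 + ‖jInv τ‖)) atImInfty
    (𝓝 1) := by
  obtain ⟨U, -, hU0, hUe⟩ := exists_unitS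
  have := (hU0 ▸ hUe.tendsto one_pos).norm.mul tend_q1j
  simp only [norm_one, mul_one] at this
  refine this.congr fun τ ↦ ?_
  have : ‖qq 1 τ‖ ≠ 0 := norm_ne_zero_iff.2 (qq_ne_zero 1 τ)
  rw [norm_div]
  field_simp

theorem tend_E : ∃ L, Tendsto (fun τ ↦ ‖ModularForm.E₄ τ ^ 3 - 1‖ * (1 + ‖jInv τ‖)) atImInfty
    (𝓝 L) := by
  have h4 := hasExp_mf ModularForm.E₄
  rw [qE4] at h4
  have h1 := (h4.pow 3).sub (hasExp_one 1)
  obtain ⟨P, hP⟩ : PowerSeries.X ∣ (1 + PowerSeries.C 240 * sigS 3) ^ 3 - 1 := by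
    rw [PowerSeries.X_dvd_iff]
    have : PowerSeries.constantCoeff (sigS 3) = 0 := by
      rw [← PowerSeries.coeff_zero_eq_constantCoeff_apply]
      simp [sigS]
    simp [this]
  have e : (⇑ModularForm.E₄ ^ 3 - 1 : ℍ → ℂ) =
      qq 1 * fun τ ↦ (ModularForm.E₄ τ ^ 3 - 1) / qq 1 τ := by
    funext τ
    have := qq_ne_zero 1 τ
    simp only [Pi.mul_apply, Pi.sub_apply, Pi.pow_apply, Pi.one_apply]
    field_simp
  rw [hP, e] at h1
  refine ⟨_, ((h1.of_X_mul.tendsto one_pos).norm.mul tend_q1j).congr fun τ ↦ ?_⟩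
  have : ‖qq 1 τ‖ ≠ 0 := norm_ne_zero_iff.2 (qq_ne_zero 1 τ)
  rw [norm_div]
  field_simp

theorem log_pos (τ : ℍ) : 0 < 1 + Real.log (1 + ‖jInv τ‖) := by
  have := Real.log_nonneg (show 1 ≤ 1 + ‖jInv τ‖ by simp)
  linarith

theorem ev_im : ∀ᶠ τ in atImInfty, τ.im / (1 + Real.log (1 + ‖jInv τ‖)) ≤ 1 := by
  filter_upwards [tend_q1j.eventually (lt_mem_nhds (show (1 / 2 : ℝ) < 1 by norm_num))] with τ h
  rw [div_le_one (log_pos τ)]
  have hq : ‖qq 1 τ‖ = Real.exp (-2 * π * τ.im) := by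
    rw [Function.Periodic.norm_qParam]; simp
  have hp : 0 < 1 + ‖jInv τ‖ := by positivity
  have h1 := Real.log_lt_log (by norm_num) h
  rw [Real.log_mul (by rw [hq]; exact (Real.exp_pos _).ne') hp.ne', hq, Real.log_exp,
    one_div, Real.log_inv] at h1
  have h2 := Real.log_two_lt_d9
  have h3 := Real.pi_gt_three
  have h4 := τ.im_pos
  nlinarith

theorem del_smul (γ : SL(2, ℤ)) (τ : ℍ) : del (γ • τ) = del τ := by
  have hγ : (γ : GL (Fin 2) ℝ) ∈ 𝒮ℒ := ⟨γ, rfl⟩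
  have h12 := SlashInvariantForm.slash_action_eqn'' CuspForm.discriminant hγ τ
  have hd := denom_ne_zero (γ : GL (Fin 2) ℝ) τ
  rw [CuspForm.coe_discriminant] at h12
  unfold del
  rw [ModularGroup.im_smul_eq_div_normSq, ModularGroup.sl_moeb, h12, norm_mul, norm_zpow,
    Complex.normSq_eq_norm_sq]
  have : ‖denom (γ : GL (Fin 2) ℝ) τ‖ ≠ 0 := norm_ne_zero_iff.2 hd
  field_simp

end JE

open JE

theorem fd_bounds : ∃ C : ℝ, 1 ≤ C ∧ ∀ τ ∈ ModularGroup.fd,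
    τ.im ≤ C * (1 + Real.log (1 + ‖jInv τ‖)) ∧
    1 ≤ C * (‖ModularForm.discriminant τ‖ * (1 + ‖jInv τ‖)) ∧
    ‖ModularForm.discriminant τ‖ ≤ C ∧
    ‖ModularForm.E₄ τ ^ 3 - 1‖ * (1 + ‖jInv τ‖) ≤ C := by
  have c1 : Continuous fun τ : ℍ ↦ 1 + ‖jInv τ‖ := continuous_const.add cont_j.norm
  have p1 : ∀ τ : ℍ, 0 < 1 + ‖jInv τ‖ := fun τ ↦ by positivity
  have pG : ∀ τ : ℍ, 0 < ‖ModularForm.discriminant τ‖ * (1 + ‖jInv τ‖) := fun τ ↦
    mul_pos (norm_pos_iff.2 (ModularForm.discriminant_ne_zero τ)) (p1 τ)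
  obtain ⟨C1, a1, b1⟩ := bdd_fd (continuous_im.div
    (continuous_const.add (c1.log fun τ ↦ (p1 τ).ne')) fun τ ↦ (log_pos τ).ne') ev_im
  obtain ⟨C2, a2, b2⟩ := bdd_fd' ((cont_disc.norm.mul c1).inv₀ fun τ ↦ (pG τ).ne')
    (tend_G.inv₀ one_ne_zero)
  obtain ⟨C3, a3, b3⟩ := bdd_fd' (cont_disc.norm.mul c1) tend_G
  obtain ⟨L, hL⟩ := tend_E
  obtain ⟨C4, a4, b4⟩ := bdd_fd' (((cont_E4.pow 3).sub continuous_const).norm.mul c1) hL
  refine ⟨C1 + C2 + C3 + C4, by linarith, fun τ hτ ↦ ⟨?_, ?_, ?_, ?_⟩⟩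
  · have h1 : τ.im / (1 + Real.log (1 + ‖jInv τ‖)) ≤ C1 := b1 τ hτ
    rw [div_le_iff₀ (log_pos τ)] at h1
    exact h1.trans (mul_le_mul_of_nonneg_right (by linarith) (log_pos τ).le)
  · have h1 : (‖ModularForm.discriminant τ‖ * (1 + ‖jInv τ‖))⁻¹ ≤ C2 := b2 τ hτ
    rw [inv_le_iff_one_le_mul₀ (pG τ)] at h1
    exact h1.trans (mul_le_mul_of_nonneg_right (by linarith) (pG τ).le)
  · have h1 : ‖ModularForm.discriminant τ‖ * (1 + ‖jInv τ‖) ≤ C3 := b3 τ hτ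
    have := mul_nonneg (norm_nonneg (ModularForm.discriminant τ)) (norm_nonneg (jInv τ))
    linarith
  · have h1 : ‖ModularForm.E₄ τ ^ 3 - 1‖ * (1 + ‖jInv τ‖) ≤ C4 := b4 τ hτ
    linarith

theorem del_bounds : ∃ C : ℝ, 1 ≤ C ∧ ∀ τ : ℍ, 1 ≤ C * (del τ * (1 + ‖jInv τ‖)) ∧
    del τ * (1 + ‖jInv τ‖) ≤ C * (1 + Real.log (1 + ‖jInv τ‖)) ^ 6 := by
  obtain ⟨C, hC, h⟩ := fd_bounds
  obtain ⟨C3, a3, b3⟩ := bdd_fd' (cont_disc.norm.mul (continuous_const.add cont_j.norm)) tend_G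
  have h6 : 1 ≤ C ^ 6 * C3 := one_le_mul_of_one_le_of_one_le (one_le_pow₀ hC) a3
  refine ⟨64 * C + C ^ 6 * C3, by linarith, fun τ0 ↦ ?_⟩
  obtain ⟨γ, hγ⟩ := ModularGroup.exists_smul_mem_fd τ0
  rw [← del_smul γ τ0, ← jInv_smul γ τ0]
  generalize γ • τ0 = τ at hγ
  obtain ⟨h1, h2, -, -⟩ := h τ hγ
  have h3 : ‖ModularForm.discriminant τ‖ * (1 + ‖jInv τ‖) ≤ C3 := b3 τ hγ
  have hG : 0 ≤ ‖ModularForm.discriminant τ‖ * (1 + ‖jInv τ‖) := by positivity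
  have him : 1 / 2 ≤ τ.im := by
    have := ModularGroup.three_le_four_mul_im_sq_of_mem_fd hγ
    have := τ.im_pos
    nlinarith
  have e : del τ * (1 + ‖jInv τ‖) =
      τ.im ^ 6 * (‖ModularForm.discriminant τ‖ * (1 + ‖jInv τ‖)) := by
    unfold del; ring
  rw [e]
  set G := ‖ModularForm.discriminant τ‖ * (1 + ‖jInv τ‖)
  have h4 : (1 / 2 : ℝ) ^ 6 ≤ τ.im ^ 6 := pow_le_pow_left₀ (by norm_num) him 6
  have h5 : τ.im ^ 6 ≤ (C * (1 + Real.log (1 + ‖jInv τ‖))) ^ 6 :=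
    pow_le_pow_left₀ τ.im_pos.le h1 6
  have h7 : 0 ≤ (1 + Real.log (1 + ‖jInv τ‖)) ^ 6 := pow_nonneg (log_pos τ).le 6
  constructor
  · have h8 : G ≤ 64 * (τ.im ^ 6 * G) := by nlinarith
    have h9 : 0 ≤ τ.im ^ 6 * G := mul_nonneg (pow_nonneg τ.im_pos.le 6) hG
    calc 1 ≤ C * G := h2
      _ ≤ C * (64 * (τ.im ^ 6 * G)) := mul_le_mul_of_nonneg_left h8 (by linarith)
      _ ≤ _ := by nlinarith
  · calc τ.im ^ 6 * G ≤ (C * (1 + Real.log (1 + ‖jInv τ‖))) ^ 6 * C3 :=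
          mul_le_mul h5 h3 hG (le_trans (pow_nonneg τ.im_pos.le 6) h5)
      _ = C ^ 6 * C3 * (1 + Real.log (1 + ‖jInv τ‖)) ^ 6 := by ring
      _ ≤ _ := mul_le_mul_of_nonneg_right (by linarith) h7

/-- `1 / j` as an analytic function of `q` near the cusp -/
theorem exists_cusp_fun : ∃ (h : ℂ → ℂ) (r : ℝ), 0 < r ∧ AnalyticAt ℂ h 0 ∧ h 0 = 0 ∧
    deriv h 0 ≠ 0 ∧ ∀ z : ℂ, 0 < z.im → ‖Complex.exp (2 * π * Complex.I * z)‖ < r →
      h (Complex.exp (2 * π * Complex.I * z)) * jc z = 1 := by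
  obtain ⟨J, -, hJ0, hJe⟩ := exists_jS
  set s := (FormalMultilinearSeries.ofScalars ℂ (fun m ↦ PowerSeries.coeff m J)).sum with hs
  have h1 := (hJe.summable_ball one_pos).hasFPowerSeriesAt
  have h2 : AnalyticAt ℂ s 0 := h1.analyticAt
  have h3 : s 0 = 1 := by
    have := h1.coeff_zero (fun _ ↦ 1)
    rw [← hJ0, hs, ← this]
    simp
  obtain ⟨r, hr, hb⟩ := Metric.eventually_nhds_iff_ball.1
    (h2.continuousAt.eventually_ne (y := 0) (by rw [h3]; exact one_ne_zero))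
  refine ⟨fun q ↦ q / s q, r, hr, analyticAt_id.div h2 (by rw [h3]; exact one_ne_zero), by simp,
    ?_, fun z hz hq ↦ ?_⟩
  · have := ((hasDerivAt_id (0 : ℂ)).fun_div h2.differentiableAt.hasDerivAt
      (by rw [h3]; exact one_ne_zero)).deriv
    simp only [id] at this
    rw [this, h3]
    simp
  · have e : Complex.exp (2 * π * Complex.I * z) = qq 1 ⟨z, hz⟩ := by
      simp [qq, Function.Periodic.qParam]
    have h4 := hJe.eq_sum one_pos ⟨z, hz⟩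
    rw [← hs] at h4
    have h5 := hb _ (by simpa using hq : Complex.exp (2 * π * Complex.I * z) ∈ ball (0 : ℂ) r)
    rw [e] at h5 ⊢
    simp only [jc, ofComplex_apply_of_im_pos hz]
    rw [div_mul_eq_mul_div, div_eq_one_iff_eq h5]
    exact h4

end Pool.Agent.Lib.ZP3
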