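import Pool.Agent.Lib.ZP3.Defs

/-! Block ARITH, part A: conjugates, degrees, integrality. -/

open UpperHalfPlane Filter Topology Metric
open scoped Real

namespace Pool.Agent.Lib.ZP3

namespace Arith

theorem ext_hom {F K L : Type} [Field F] [Field K] [Field L] [IsAlgClosed K] [IsAlgClosed L]
    (hF : Cardinal.mk F ≤ Cardinal.aleph0) (i : F →+* K) (φ : F →+* L)
    (hK : Cardinal.aleph0 < Cardinal.mk K) (hKL : Cardinal.mk K ≤ Cardinal.mk L) :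
    ∃ σ : K →+* L, ∀ x, σ (i x) = φ x := by
  let : Algebra F K := i.toAlgebra
  let : Algebra F L := φ.toAlgebra
  obtain ⟨s, hs⟩ := exists_isTranscendenceBasis F K
  obtain ⟨t, ht⟩ := exists_isTranscendenceBasis F L
  have h1 := IsAlgClosed.cardinal_eq_cardinal_transcendence_basis_of_aleph0_lt' _ hs hF hK
  have h2 := IsAlgClosed.cardinal_eq_cardinal_transcendence_basis_of_aleph0_lt' _ ht hF
    (hK.trans_le hKL)
  have h3 : Cardinal.mk s ≤ Cardinal.mk t := by rw [← h1, ← h2]; exact hKL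
  obtain ⟨e⟩ := (Cardinal.le_def _ _).1 h3
  have hw : AlgebraicIndependent F (fun x : s ↦ ((e x : t) : L)) := ht.1.comp e e.injective
  let A := Algebra.adjoin F (Set.range ((↑) : s → K))
  let ψ : A →ₐ[F] L := (MvPolynomial.aeval (fun x : s ↦ ((e x : t) : L))).comp
    hs.1.aevalEquiv.symm.toAlgHom
  have hψ : Function.Injective ψ :=
    (algebraicIndependent_iff_injective_aeval.1 hw).comp hs.1.aevalEquiv.symm.injective
  let : Algebra A L := ψ.toRingHom.toAlgebra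
  have : FaithfulSMul A L := (faithfulSMul_iff_algebraMap_injective A L).2 hψ
  have : Algebra.IsAlgebraic A K := hs.isAlgebraic
  let σ : K →ₐ[A] L := IsAlgClosed.lift
  refine ⟨σ.toRingHom, fun x ↦ ?_⟩
  have h4 : i x = algebraMap A K (algebraMap F A x) := rfl
  rw [h4]
  change σ (algebraMap A K (algebraMap F A x)) = _
  rw [σ.commutes]
  exact ψ.commutes x

theorem aleph0_lt_complex : Cardinal.aleph0 < Cardinal.mk ℂ := by
  rw [Cardinal.mk_complex]; exact Cardinal.aleph0_lt_continuum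

theorem aeval_conj {K : Type*} [Field K] [CharZero K] (σ : ℂ →+* K) (p : Polynomial ℚ) (z : ℂ) :
    Polynomial.aeval (σ z) p = σ (Polynomial.aeval z p) := by
  have := Polynomial.aeval_algHom_apply (σ.toRatAlgHom) z p
  simpa using this

theorem isIntegral_conj {K : Type*} [CommRing K] (σ : ℂ →+* K) {z : ℂ} (hz : IsIntegral ℤ z) :
    IsIntegral ℤ (σ z) := by
  have := hz.map (σ.toIntAlgHom)
  simpa using this

end Arith

open Arith

open IntermediateField in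
theorem exists_conj {z w : ℂ} (hz : IsAlgebraic ℚ z) (hw : Polynomial.aeval w (minpoly ℚ z) = 0) :
    ∃ σ : ℂ →+* ℂ, σ z = w := by
  have hi : IsIntegral ℚ z := hz.isIntegral
  have hw' : w ∈ (minpoly ℚ z).aroots ℂ := Polynomial.mem_aroots.2 ⟨minpoly.ne_zero hi, hw⟩
  let φ := (algHomAdjoinIntegralEquiv ℚ (K := ℂ) hi).symm ⟨w, hw'⟩
  have hφ : φ (AdjoinSimple.gen ℚ z) = w := algHomAdjoinIntegralEquiv_symm_apply_gen ℚ hi ⟨w, hw'⟩
  have : FiniteDimensional ℚ ℚ⟮z⟯ := adjoin.finiteDimensional hi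
  have hF : Cardinal.mk ℚ⟮z⟯ ≤ Cardinal.aleph0 := by
    have := Algebra.IsAlgebraic.cardinalMk_le_max ℚ ℚ⟮z⟯
    simpa using this
  obtain ⟨σ, hσ⟩ := ext_hom hF (algebraMap ℚ⟮z⟯ ℂ) φ.toRingHom aleph0_lt_complex le_rfl
  exact ⟨σ, (hσ (AdjoinSimple.gen ℚ z)).trans hφ⟩

theorem exists_hom_padic (p : ℕ) [Fact p.Prime] : Nonempty (ℂ →+* ℂ_[p]) := by
  have h : Cardinal.mk ℂ ≤ Cardinal.mk ℂ_[p] := by
    rw [Cardinal.mk_complex]; exact continuum_le_cardinal_of_nontriviallyNormedField _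
  obtain ⟨σ, -⟩ := ext_hom (F := ℚ) (by simp) (algebraMap ℚ ℂ) (algebraMap ℚ ℂ_[p])
    aleph0_lt_complex h
  exact ⟨σ⟩

theorem deg_of_alg {z : ℂ} (hz : IsAlgebraic ℚ z) : ∃ D, 0 < D ∧ Deg z D := by
  classical
  obtain ⟨p, hp, hpz⟩ := hz
  refine ⟨(p.aroots ℂ).toFinset.card + 1, Nat.succ_pos _, (p.aroots ℂ).toFinset, Nat.le_succ _,
    fun σ ↦ ?_⟩
  rw [Multiset.mem_toFinset, Polynomial.mem_aroots]
  exact ⟨hp, by rw [aeval_conj, hpz, map_zero]⟩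

theorem Deg.mono {z : ℂ} {D D' : ℕ} (h : Deg z D) (h' : D ≤ D') : Deg z D' := by
  obtain ⟨E, hE, h⟩ := h
  exact ⟨E, hE.trans h', h⟩

theorem Deg.conj {z : ℂ} {D : ℕ} (h : Deg z D) (σ : ℂ →+* ℂ) : Deg (σ z) D := by
  obtain ⟨E, hE, h⟩ := h
  exact ⟨E, hE, fun τ ↦ h (τ.comp σ)⟩

theorem Deg.pos {z : ℂ} {D : ℕ} (h : Deg z D) : 0 < D := by
  obtain ⟨E, hE, h⟩ := h
  exact (Finset.card_pos.2 ⟨_, h (RingHom.id ℂ)⟩).trans_le hE

theorem Deg.of_fiber {y z w : ℂ} {D D' n : ℕ} (hy : Deg y D) (hz : Deg z D')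
    (h : ∀ y' z' : ℂ, ∃ E : Finset ℂ, E.card ≤ n ∧ ∀ σ : ℂ →+* ℂ, σ y = y' → σ z = z' → σ w ∈ E) :
    Deg w (D * D' * n) := by
  classical
  obtain ⟨E1, hE1, h1⟩ := hy
  obtain ⟨E2, hE2, h2⟩ := hz
  choose G hG hG' using h
  refine ⟨(E1 ×ˢ E2).biUnion fun q ↦ G q.1 q.2, ?_, fun σ ↦ ?_⟩
  · refine (Finset.card_biUnion_le_card_mul _ _ n fun q _ ↦ hG _ _).trans ?_
    rw [Finset.card_product]
    exact Nat.mul_le_mul_right _ (Nat.mul_le_mul hE1 hE2)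
  · exact Finset.mem_biUnion.2 ⟨(σ y, σ z), Finset.mem_product.2 ⟨h1 σ, h2 σ⟩,
      hG' _ _ σ rfl rfl⟩

theorem Deg.add {y z : ℂ} {D D' : ℕ} (hy : Deg y D) (hz : Deg z D') : Deg (y + z) (D * D') := by
  have := hy.of_fiber (w := y + z) (n := 1) hz fun y' z' ↦
    ⟨{y' + z'}, by simp, fun σ h1 h2 ↦ by simp [h1, h2]⟩
  simpa using this

theorem Deg.mul {y z : ℂ} {D D' : ℕ} (hy : Deg y D) (hz : Deg z D') : Deg (y * z) (D * D') := by
  have := hy.of_fiber (w := y * z) (n := 1) hz fun y' z' ↦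
    ⟨{y' * z'}, by simp, fun σ h1 h2 ↦ by simp [h1, h2]⟩
  simpa using this

/-- a function of `y` commuting with conjugation does not raise the degree -/
theorem Deg.map {y w : ℂ} {D : ℕ} (hy : Deg y D) (f : ℂ → ℂ) (h : ∀ σ : ℂ →+* ℂ, σ w = f (σ y)) :
    Deg w D := by
  classical
  obtain ⟨E, hE, h1⟩ := hy
  exact ⟨E.image f, Finset.card_image_le.trans hE, fun σ ↦
    Finset.mem_image.2 ⟨σ y, h1 σ, (h σ).symm⟩⟩

theorem Deg.inv {y : ℂ} {D : ℕ} (hy : Deg y D) : Deg y⁻¹ D :=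
  hy.map (fun x ↦ x⁻¹) fun σ ↦ map_inv₀ σ y

theorem Deg.neg {y : ℂ} {D : ℕ} (hy : Deg y D) : Deg (-y) D :=
  hy.map (fun x ↦ -x) fun σ ↦ map_neg σ y

theorem Deg.pow {y : ℂ} {D : ℕ} (hy : Deg y D) (n : ℕ) : Deg (y ^ n) D :=
  hy.map (fun x ↦ x ^ n) fun σ ↦ map_pow σ y n

theorem deg_int (n : ℤ) : Deg (n : ℂ) 1 := ⟨{(n : ℂ)}, by simp, fun σ ↦ by simp⟩

theorem deg_nat (n : ℕ) : Deg (n : ℂ) 1 := ⟨{(n : ℂ)}, by simp, fun σ ↦ by simp⟩

theorem Deg.root {y z : ℂ} {D n : ℕ} (hy : Deg y D) (hn : 0 < n) (h : z ^ n = y) :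
    Deg z (D * n) := by
  classical
  have := hy.of_fiber (w := z) (n := n) (deg_int 0) fun y' _ ↦
    ⟨(Polynomial.nthRoots n y').toFinset,
      (Multiset.toFinset_card_le _).trans (Polynomial.card_nthRoots n y'), fun σ h1 _ ↦ by
        rw [Multiset.mem_toFinset, Polynomial.mem_nthRoots hn, ← map_pow, h, h1]⟩
  simpa using this

theorem deg_joint {ι : Type} [Fintype ι] {v : ι → ℂ} {D : ℕ} (h : ∀ i, Deg (v i) D) :
    ∃ E : Finset (ι → ℂ), E.card ≤ D ^ Fintype.card ι ∧ ∀ σ : ℂ →+* ℂ, (fun i ↦ σ (v i)) ∈ E := by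
  classical
  choose E hE h' using h
  refine ⟨Fintype.piFinset E, ?_, fun σ ↦ Fintype.mem_piFinset.2 fun i ↦ h' i σ⟩
  rw [Fintype.card_piFinset]
  have := Finset.prod_le_pow_card Finset.univ (fun i ↦ (E i).card) D fun i _ ↦ hE i
  simpa using this

/-- values of a fixed polynomial with algebraic coefficients -/
theorem deg_eval {p : Polynomial ℂ} (hp : ∀ n, IsAlgebraic ℚ (p.coeff n)) :
    ∃ c : ℕ, 0 < c ∧ ∀ (t : ℂ) (D : ℕ), Deg t D → Deg (p.eval t) (c * D) := by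
  classical
  choose d hd hd' using fun n ↦ deg_of_alg (hp n)
  let N := p.natDegree + 1
  let M := (Finset.range N).sup d
  obtain ⟨E, -, hE⟩ := deg_joint (ι := Fin N) (v := fun i ↦ p.coeff i) (D := M) fun i ↦
    (hd' i).mono (Finset.le_sup (f := d) (Finset.mem_range.2 i.2))
  refine ⟨E.card + 1, Nat.succ_pos _, fun t D ⟨T, hT, hT'⟩ ↦ ?_⟩
  refine ⟨(E ×ˢ T).image fun q ↦ ∑ i : Fin N, q.1 i * q.2 ^ (i : ℕ), ?_, fun σ ↦ ?_⟩
  · refine Finset.card_image_le.trans ?_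
    rw [Finset.card_product]
    exact Nat.mul_le_mul (Nat.le_succ _) hT
  · refine Finset.mem_image.2 ⟨(fun i ↦ σ (p.coeff i), σ t), Finset.mem_product.2 ⟨hE σ, hT' σ⟩, ?_⟩
    rw [Polynomial.eval_eq_sum_range, map_sum, ← Fin.sum_univ_eq_sum_range
      (fun i ↦ σ (p.coeff i * t ^ i)) N]
    simp

theorem AI.mono {z : ℂ} {A A' : ℕ} (h : AI z A) (h' : A ≤ A') : AI z A' :=
  ⟨h.1, h.2.1.mono h', fun σ ↦ (h.2.2 σ).trans (Real.exp_le_exp.2 (by exact_mod_cast h'))⟩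

theorem AI.conj {z : ℂ} {A : ℕ} (h : AI z A) (σ : ℂ →+* ℂ) : AI (σ z) A :=
  ⟨isIntegral_conj σ h.1, h.2.1.conj σ, fun τ ↦ h.2.2 (τ.comp σ)⟩

theorem exists_AI_of_isIntegral {z : ℂ} (hz : IsIntegral ℤ z) : ∃ A : ℕ, AI z A := by
  have ha : IsAlgebraic ℚ z := (hz.tower_top (A := ℚ)).isAlgebraic
  obtain ⟨D, -, E, hE, h⟩ := deg_of_alg ha
  obtain ⟨B, hB⟩ := (E.finite_toSet.image fun x ↦ ‖x‖).bddAbove
  refine ⟨max D ⌈B⌉₊, hz, Deg.mono ⟨E, hE, h⟩ (le_max_left _ _), fun σ ↦ ?_⟩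
  have h1 : ‖σ z‖ ≤ B := hB ⟨σ z, h σ, rfl⟩
  have h2 : B ≤ ((max D ⌈B⌉₊ : ℕ) : ℝ) :=
    (Nat.le_ceil B).trans (by exact_mod_cast le_max_right _ _)
  have h3 := Real.add_one_le_exp ((max D ⌈B⌉₊ : ℕ) : ℝ)
  linarith

/-- a fixed algebraic number becomes an `AI` after clearing its denominator -/
theorem exists_AI {z : ℂ} (hz : IsAlgebraic ℚ z) : ∃ d A : ℕ, 0 < d ∧ AI (d * z) A := by
  have hz' : IsAlgebraic ℤ z := (IsFractionRing.isAlgebraic_iff ℤ ℚ ℂ).2 hz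
  obtain ⟨y, hy, hi⟩ := hz'.exists_integral_multiple
  have hi' : IsIntegral ℤ ((y.natAbs : ℂ) * z) := by
    rw [zsmul_eq_mul] at hi
    rcases Int.natAbs_eq y with h | h
    · have : ((y.natAbs : ℕ) : ℂ) = (y : ℂ) := by
        conv_rhs => rw [h]
        simp
      rwa [this]
    · have : ((y.natAbs : ℕ) : ℂ) = -(y : ℂ) := by
        conv_rhs => rw [h]
        simp
      rw [this, neg_mul]; exact hi.neg
  obtain ⟨A, hA⟩ := exists_AI_of_isIntegral hi'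
  exact ⟨y.natAbs, A, Int.natAbs_pos.2 hy, hA⟩

end Pool.Agent.Lib.ZP3
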