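import Pool.Agent.Lib.ZP3.Defs

/-! The Weierstrass function of the lattice `Ω (ℤ + ℤ τ)` as Weierstrass data. -/

open UpperHalfPlane Filter Topology Metric PeriodPair
open scoped Real

namespace Pool.Agent.Lib.ZP3

open Pool.Agent.Lib.MP_0704bf_ag

namespace WDE

theorem pole_of {X g h : ℂ → ℂ} (hg : ContinuousAt g 0) (hg0 : g 0 ≠ 0) (hh : ContinuousAt h 0)
    (hh0 : h 0 = 0) (he : ∀ᶠ z in 𝓝[≠] (0 : ℂ), h z ≠ 0 ∧ X z = g z / h z) :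
    Tendsto (fun z ↦ ‖X z‖) (𝓝[≠] 0) atTop := by
  have h1 : Tendsto (fun z ↦ ‖g z‖) (𝓝[≠] 0) (𝓝 ‖g 0‖) :=
    hg.norm.tendsto.mono_left nhdsWithin_le_nhds
  have h2 : Tendsto (fun z ↦ ‖h z‖) (𝓝[≠] 0) (𝓝[>] 0) := by
    refine tendsto_nhdsWithin_iff.2 ⟨?_, ?_⟩
    · have := hh.norm.tendsto.mono_left (nhdsWithin_le_nhds (s := {(0 : ℂ)}ᶜ))
      simpa [hh0] using this
    · filter_upwards [he] with z hz
      exact norm_pos_iff.2 hz.1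
  have h3 := (h2.inv_tendsto_nhdsGT_zero).atTop_mul_pos (norm_pos_iff.2 hg0) h1
  refine h3.congr' ?_
  filter_upwards [he] with z hz
  rw [hz.2, norm_div, div_eq_inv_mul]
  rfl

theorem cubic_ne {x a b : ℂ} (h : 1 + ‖a‖ + ‖b‖ ≤ ‖x‖) : 4 * x ^ 3 - a * x - b ≠ 0 := by
  intro h0
  have e : 4 * x ^ 3 = a * x + b := by linear_combination h0
  have h1 : ‖4 * x ^ 3‖ ≤ ‖a‖ * ‖x‖ + ‖b‖ := by
    rw [e]
    exact (norm_add_le _ _).trans (by rw [norm_mul])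
  rw [norm_mul, norm_pow, Complex.norm_ofNat] at h1
  have ha := norm_nonneg a
  have hb := norm_nonneg b
  have hx : 1 ≤ ‖x‖ := by linarith
  have h2 : ‖x‖ * ‖x‖ ≤ ‖x‖ ^ 3 := by nlinarith
  nlinarith

variable (L : PeriodPair)

theorem wp_pole : Tendsto (fun z ↦ ‖℘[L] z‖) (𝓝[≠] 0) atTop := by
  refine pole_of (g := fun z ↦ z ^ 2 * ℘[L - (0 : ℂ)] z + 1) (h := fun z ↦ z ^ 2) ?_ (by simp)
    (by fun_prop) (by simp) ?_
  · have := (L.analyticAt_weierstrassPExcept 0).continuousAt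
    fun_prop
  · filter_upwards [self_mem_nhdsWithin] with z hz
    have hz' : z ≠ 0 := hz
    refine ⟨pow_ne_zero _ hz', ?_⟩
    have := L.weierstrassPExcept_add 0 z
    simp only [ZeroMemClass.coe_zero] at this
    rw [← this]
    field_simp
    ring

theorem lat_countable : (L.lattice : Set ℂ).Countable :=
  Set.countable_coe_iff.1 (countable_of_Lindelof_of_discrete (X := L.lattice))

theorem wp_dX {z : ℂ} (hz : z ∉ L.lattice) : HasDerivAt ℘[L] (℘'[L] z) z := by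
  rw [← L.deriv_weierstrassP]
  exact (L.analyticOnNhd_weierstrassP z hz).differentiableAt.hasDerivAt

theorem wp_dY {z : ℂ} (hz : z ∉ L.lattice) :
    HasDerivAt ℘'[L] (6 * ℘[L] z ^ 2 - L.g₂ / 2) z := by
  have hU : IsPreconnected ((L.lattice : Set ℂ)ᶜ) :=
    ((lat_countable L).isConnected_compl_of_one_lt_rank (by simp)).isPreconnected
  have hY := L.analyticOnNhd_derivWeierstrassP
  have hX := L.analyticOnNhd_weierstrassP
  have hg : AnalyticOnNhd ℂ (fun z ↦ deriv ℘'[L] z - (6 * ℘[L] z ^ 2 - L.g₂ / 2))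
      (L.lattice : Set ℂ)ᶜ := by
    intro w hw
    have h1 := (hY w hw).deriv
    have h2 := hX w hw
    fun_prop
  have hfg : ∀ w ∈ (L.lattice : Set ℂ)ᶜ,
      ℘'[L] w * (deriv ℘'[L] w - (6 * ℘[L] w ^ 2 - L.g₂ / 2)) = 0 := by
    intro w hw
    have d1 := (hY w hw).differentiableAt.hasDerivAt
    have d2 := wp_dX L hw
    have e1 : HasDerivAt (fun z ↦ ℘'[L] z ^ 2) (2 * ℘'[L] w * deriv ℘'[L] w) w := by
      simpa using d1.fun_pow 2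
    have e2 : HasDerivAt (fun z ↦ 4 * ℘[L] z ^ 3 - L.g₂ * ℘[L] z - L.g₃)
        (4 * (3 * ℘[L] w ^ 2 * ℘'[L] w) - L.g₂ * ℘'[L] w) w := by
      simpa using (((d2.fun_pow 3).const_mul 4).fun_sub (d2.const_mul L.g₂)).sub_const L.g₃
    have e3 : (fun z ↦ ℘'[L] z ^ 2) =ᶠ[𝓝 w] fun z ↦ 4 * ℘[L] z ^ 3 - L.g₂ * ℘[L] z - L.g₃ := by
      filter_upwards [L.isClosed_lattice.isOpen_compl.mem_nhds hw] with z hz
      exact L.derivWeierstrassP_sq z hz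
    have := e1.unique (e2.congr_of_eventuallyEq e3)
    linear_combination this / 2
  rcases hY.eq_zero_or_eq_zero_of_mul_eq_zero hg hfg hU with h | h
  · exfalso
    have h1 := (wp_pole L).eventually_ge_atTop (1 + ‖L.g₂‖ + ‖L.g₃‖)
    have h2 : ∀ᶠ w in 𝓝[≠] (0 : ℂ), w ∉ L.lattice := by
      filter_upwards [self_mem_nhdsWithin, mem_nhdsWithin_of_mem_nhds
        (L.compl_lattice_sdiff_singleton_mem_nhds 0)] with w hw hw'
      intro hl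
      exact hw' ⟨hl, hw⟩
    obtain ⟨w, hw1, hw2⟩ := (h1.and h2).exists
    refine cubic_ne hw1 ?_
    rw [← L.derivWeierstrassP_sq w hw2, h w hw2]
    simp
  · have := h z hz
    rw [sub_eq_zero] at this
    rw [← this]
    exact (hY z hz).differentiableAt.hasDerivAt

theorem lat_sep : ∃ ρ : ℝ, 0 < ρ ∧ ∀ l ∈ L.lattice, l ≠ 0 → ρ ≤ ‖l‖ := by
  obtain ⟨ρ, hρ, h⟩ := Metric.mem_nhds_iff.1 (L.compl_lattice_sdiff_singleton_mem_nhds 0)
  refine ⟨ρ, hρ, fun l hl h0 ↦ ?_⟩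
  by_contra hlt
  exact h (by simpa using hlt) ⟨hl, h0⟩

/-- the Weierstrass data of a period pair -/
noncomputable def wdOf : WD where
  Λ := L.lattice.toAddSubgroup
  X := ℘[L]
  Y := ℘'[L]
  g2 := L.g₂
  g3 := L.g₃
  sep := lat_sep L
  dX := fun _ hz ↦ wp_dX L hz
  dY := fun _ hz ↦ wp_dY L hz
  eqn := fun z hz ↦ L.derivWeierstrassP_sq z hz
  perX := fun l hl z ↦ L.weierstrassP_add_coe z ⟨l, hl⟩
  perY := fun l hl z ↦ L.derivWeierstrassP_add_coe z ⟨l, hl⟩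
  even := L.weierstrassP_neg
  odd := L.derivWeierstrassP_neg
  pole := wp_pole L

/-- the period pair `(Ω τ, Ω)` -/
noncomputable def pp (τ : ℍ) {Ω : ℂ} (hΩ : Ω ≠ 0) : PeriodPair where
  ω₁ := Ω * τ
  ω₂ := Ω
  indep := by
    rw [LinearIndependent.pair_iff]
    intro s t h
    have h1 : Ω * ((s : ℂ) * τ + t) = 0 := by
      simp only [Complex.real_smul] at h
      linear_combination h
    have h2 := (mul_eq_zero.1 h1).resolve_left hΩ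
    have h3 := congrArg Complex.im h2
    have h4 := congrArg Complex.re h2
    have hτ := τ.im_pos
    simp at h3 h4
    have hs : s = 0 := h3.resolve_right hτ.ne'
    refine ⟨hs, ?_⟩
    simpa [hs] using h4

/-- coordinates on the lattice -/
noncomputable def latEquiv (τ : ℍ) {Ω : ℂ} (hΩ : Ω ≠ 0) : (Fin 2 → ℤ) ≃ (pp τ hΩ).lattice :=
  (finTwoArrowEquiv ℤ).trans (pp τ hΩ).latticeEquivProd.symm.toEquiv

theorem latEquiv_apply (τ : ℍ) {Ω : ℂ} (hΩ : Ω ≠ 0) (v : Fin 2 → ℤ) :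
    (latEquiv τ hΩ v : ℂ) = Ω * (v 0 * τ + v 1) := by
  have := (pp τ hΩ).latticeEquiv_symm_apply (v 0, v 1)
  refine Eq.trans this ?_
  simp only [pp]
  ring

theorem G_eq (τ : ℍ) {Ω : ℂ} (hΩ : Ω ≠ 0) {k : ℕ} (hk : 3 ≤ k) :
    (pp τ hΩ).G k = 2 * riemannZeta k * ModularForm.E hk τ / Ω ^ k := by
  have h1 := tsum_eisSummand_eq_riemannZeta_mul_eisensteinSeries hk τ
  have h2 : ModularForm.E hk τ = (1 / 2 : ℂ) * eisensteinSeries (N := 1) 0 k τ := rfl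
  rw [PeriodPair.G, ← (latEquiv τ hΩ).tsum_eq, h2]
  have h3 : ∀ v : Fin 2 → ℤ, (((latEquiv τ hΩ v : ℂ)) ^ k)⁻¹ =
      (Ω ^ k)⁻¹ * EisensteinSeries.eisSummand k v τ := by
    intro v
    rw [latEquiv_apply, EisensteinSeries.eisSummand, mul_pow, mul_inv, zpow_neg, zpow_natCast]
  simp_rw [h3, tsum_mul_left, h1]
  ring

theorem zeta_six : riemannZeta 6 = (π : ℂ) ^ 6 / 945 := by
  have h := riemannZeta_two_mul_nat (k := 3) (by norm_num)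
  norm_num [helper6.bern6, Nat.factorial] at h
  rw [h]
  ring

theorem mem_pp (τ : ℍ) {Ω : ℂ} (hΩ : Ω ≠ 0) (z : ℂ) :
    z ∈ (pp τ hΩ).lattice ↔ ∃ m n : ℤ, z = Ω * (m + n * τ) := by
  rw [PeriodPair.mem_lattice]
  constructor
  · rintro ⟨m, n, h⟩
    exact ⟨n, m, by rw [← h]; simp only [pp]; ring⟩
  · rintro ⟨m, n, h⟩
    exact ⟨n, m, by rw [h]; simp only [pp]; ring⟩

theorem isEll_pp (τ : ℍ) {Ω : ℂ} (hΩ : Ω ≠ 0) : (wdOf (pp τ hΩ)).IsEll τ Ω := by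
  refine ⟨mem_pp τ hΩ, ?_, ?_⟩
  · change 60 * (pp τ hΩ).G 4 = _
    rw [G_eq τ hΩ (by norm_num : 3 ≤ 4), Nat.cast_ofNat, riemannZeta_four]
    ring
  · change 140 * (pp τ hΩ).G 6 = _
    rw [G_eq τ hΩ (by norm_num : 3 ≤ 6), Nat.cast_ofNat, zeta_six]
    ring

theorem half_notMem (τ : ℍ) {Ω : ℂ} (hΩ : Ω ≠ 0) : Ω / 2 ∉ (wdOf (pp τ hΩ)).Λ :=
  (pp τ hΩ).ω₂_div_two_notMem_lattice

theorem Y_half (τ : ℍ) {Ω : ℂ} (hΩ : Ω ≠ 0) : (wdOf (pp τ hΩ)).Y (Ω / 2) = 0 := by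
  have h1 := (wdOf (pp τ hΩ)).perY Ω (pp τ hΩ).ω₂_mem_lattice (-(Ω / 2))
  rw [(wdOf (pp τ hΩ)).odd, show -(Ω / 2) + Ω = Ω / 2 by ring] at h1
  linear_combination h1 / 2

end WDE

theorem exists_ell (τ : ℍ) {Ω : ℂ} (hΩ : Ω ≠ 0) : ∃ W : WD, W.IsEll τ Ω ∧ W.Y (Ω / 2) = 0 ∧
    Ω / 2 ∉ W.Λ :=
  ⟨_, WDE.isEll_pp τ hΩ, WDE.Y_half τ hΩ, WDE.half_notMem τ hΩ⟩

end Pool.Agent.Lib.ZP3
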