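import Pool.Agent.Lib.ZP3.HeightFam

/-! Shared definitions for the second stage: all rational curves in a power of the modular curve. -/

open UpperHalfPlane Filter Topology Metric
open scoped Real MatrixGroups ArithmeticFunction.sigma

namespace Pool.Agent.Lib.ZP3

open Pool.Agent.Lib.MP_0704bf_ag

/-! ### curves -/

/-- the coordinate functions `x_i = A_i / B_i` -/
noncomputable def xk {κ : Type} (A B : κ → Polynomial ℂ) (t : ℂ) (i : κ) : ℂ :=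
  (A i).eval t / (B i).eval t

/-- lowest terms, all poles finite, nonconstant -/
def Nice {κ : Type} (A B : κ → Polynomial ℂ) : Prop :=
  ∀ i, (A i).natDegree ≤ (B i).natDegree ∧ 0 < (B i).natDegree ∧ IsCoprime (A i) (B i)

/-- algebraic coefficients -/
def AlgP (p : Polynomial ℂ) : Prop := ∀ n, IsAlgebraic ℚ (p.coeff n)

def AlgK {κ : Type} (A : κ → Polynomial ℂ) : Prop := ∀ i, AlgP (A i)

/-- `t` is not a pole -/
def NPk {κ : Type} (B : κ → Polynomial ℂ) (t : ℂ) : Prop := ∀ i, (B i).eval t ≠ 0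

/-- no modular relation holds identically -/
def NoMod {κ : Type} (A B : κ → Polynomial ℂ) : Prop :=
  ∀ i j, i ≠ j → ∀ n, 0 < n → ∃ t, NPk B t ∧ ¬ Iso n (xk A B t i) (xk A B t j)

/-- value of a source: a coordinate or a constant -/
def sv {κ : Type} (x : κ → ℂ) (s : κ ⊕ ℂ) : ℂ := Sum.elim x id s

/-- the conditions `s1 ~ j1` and `s2 ~ j2` are independent -/
def Two {κ : Type} (s1 : κ ⊕ ℂ) (j1 : κ) (s2 : κ ⊕ ℂ) (j2 : κ) : Prop :=
  j1 ≠ j2 ∧ s1 ≠ Sum.inl j2 ∧ s2 ≠ Sum.inl j1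

/-- a special condition of degree `n`: an isogeny, or an endomorphism of non-square degree -/
def Cnd {κ : Type} (x : κ → ℂ) (s : κ ⊕ ℂ) (j : κ) (n : ℕ) : Prop :=
  0 < n ∧ Iso n (sv x s) (x j) ∧ (s = Sum.inl j → ¬ IsSquare n)

/-- the smallest non-square degree of an endomorphism -/
def MinEnd (n : ℕ) (x : ℂ) : Prop :=
  ¬ IsSquare n ∧ Iso n x x ∧ ∀ n', ¬ IsSquare n' → Iso n' x x → n ≤ n'

/-- two integral fractional linear relations between the numbers `T i` -/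
def Rels {κ : Type} (y : Fin 8 → ℤ) (T : κ → ℂ) (s1 : κ ⊕ ℂ) (j1 : κ) (s2 : κ ⊕ ℂ) (j2 : κ) :
    Prop :=
  Mob (y 0) (y 1) (y 2) (y 3) (sv T s1) (T j1) ∧ Mob (y 4) (y 5) (y 6) (y 7) (sv T s2) (T j2) ∧
    (y 2 : ℂ) * sv T s1 + y 3 ≠ 0 ∧ (y 6 : ℂ) * sv T s2 + y 7 ≠ 0 ∧
    (s1 = Sum.inl j1 → y 2 ≠ 0) ∧ (s2 = Sum.inl j2 → y 6 ≠ 0)

/-! ### small algebraic numbers -/

/-- degree, logarithm of a denominator and logarithm of the house are at most `A` -/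
def Sm (z : ℂ) (A : ℕ) : Prop := ∃ d : ℕ, 0 < d ∧ (d : ℝ) ≤ Real.exp A ∧ AI (d * z) A

/-- a family of algebraic numbers whose size is polynomial in `a` -/
def SF {ι : Type} (a : ι → ℕ) (z : ι → ℂ) : Prop :=
  ∃ D : ι → ℕ, HBF.PN a D ∧ ∀ s, Sm (z s) (D s)

/-! ### charts -/

/-- nondegeneracy of a chart, scale-free form -/
def NDegC {κ : Type} (f : κ → ℂ → ℂ) (Cn : ℕ → ℕ) : Prop :=
  ∀ (e : ℕ) (c : MvPolynomial κ ℂ), c ≠ 0 → c.totalDegree ≤ e →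
    ∃ s0 : ℂ, ‖s0‖ ≤ 2 ∧ MvPolynomial.eval (fun i ↦ f i s0) c ≠ 0 ∧
      ∀ s : ℂ, ‖s‖ ≤ 10 → ‖MvPolynomial.eval (fun i ↦ f i s) c‖ ≤
        2 ^ Cn e * ‖MvPolynomial.eval (fun i ↦ f i s0) c‖

/-- a connected analytic family of lifts to the upper half plane -/
def IsChart {κ : Type} (A B : κ → Polynomial ℂ) (U : Set ℂ) (φ : ℂ → ℂ) (f : κ → ℂ → ℂ) : Prop :=
  IsOpen U ∧ IsPreconnected U ∧ AnalyticOnNhd ℂ φ U ∧ (∃ s ∈ U, ∃ s' ∈ U, φ s ≠ φ s') ∧
    (∀ i, AnalyticOnNhd ℂ (f i) U) ∧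
    ∀ s ∈ U, NPk B (φ s) ∧ ∀ i, 0 < (f i s).im ∧ jc (f i s) = xk A B (φ s) i

/-- the lifts near a pole, in the logarithmic variable -/
noncomputable def cf {κ : Type} (m : κ → ℕ) (g : κ → ℂ → ℂ) (i : κ) (w : ℂ) : ℂ :=
  m i / (2 * π * Complex.I) * w + g i (Complex.exp w)

/-- a chart at the point `P` -/
structure CuspD {κ : Type} (A B : κ → Polynomial ℂ) (P : ℂ) (E : ℕ) (m : κ → ℕ) (r : ℝ)
    (g : κ → ℂ → ℂ) : Prop where
  hE : 0 < E
  hr : 0 < r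
  pole : ∀ i, 0 < m i ↔ (B i).eval P = 0
  an : ∀ i, AnalyticOnNhd ℂ (g i) (ball 0 r)
  fin : ∀ u ∈ ball (0 : ℂ) r, ∀ i, m i = 0 →
    0 < (g i u).im ∧ jc (g i u) = xk A B (P + u ^ E) i
  inf : ∀ w : ℂ, ‖Complex.exp w‖ < r → NPk B (P + Complex.exp w ^ E) ∧
    ∀ i, (0 < m i → 1 ≤ (cf m g i w).im) ∧ jc (cf m g i w) = xk A B (P + Complex.exp w ^ E) i

/-- the discriminant as a function of a complex variable -/
noncomputable def dc (z : ℂ) : ℂ := ModularForm.discriminant (ofComplex z)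

/-- action of the modular group on complex numbers -/
noncomputable def mb (γ : SL(2, ℤ)) (z : ℂ) : ℂ := (γ 0 0 * z + γ 0 1) / (γ 1 0 * z + γ 1 1)

noncomputable def act {κ : Type} (γ : κ → SL(2, ℤ)) (f : κ → ℂ → ℂ) : κ → ℂ → ℂ :=
  fun i s ↦ mb (γ i) (f i s)

/-- the chart lies in `Z` -/
def Zin {κ : Type} (Z : Set (ℂ × (κ → ℂ))) (U : Set ℂ) (φ : ℂ → ℂ) (f : κ → ℂ → ℂ) : Prop :=
  ∀ s ∈ U, (φ s, fun i ↦ f i s) ∈ Z

/-- the identity principle for `Z` -/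
def Rigid {κ : Type} (A B : κ → Polynomial ℂ) (Z : Set (ℂ × (κ → ℂ))) : Prop :=
  ∀ U φ f, IsChart A B U φ f → ¬ {s | s ∈ U ∧ (φ s, fun i ↦ f i s) ∈ Z}.Countable → Zin Z U φ f

/-- monodromy elements of `Z` -/
def Mon {κ : Type} (A B : κ → Polynomial ℂ) (Z : Set (ℂ × (κ → ℂ))) : Set (κ → SL(2, ℤ)) :=
  {γ | ∃ U φ f, IsChart A B U φ f ∧ Zin Z U φ f ∧ Zin Z U φ (act γ f)}

/-! ### the linear action on homogeneous coordinates -/

abbrev M2 := Matrix (Fin 2) (Fin 2) ℂ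

/-- the complex matrix of an element of the modular group -/
def cm (γ : SL(2, ℤ)) : M2 := γ.val.map fun n ↦ (n : ℂ)

/-- linear substitution -/
noncomputable def subst {κ : Type} (M : κ → M2) :
    MvPolynomial (κ × Fin 2) ℂ →ₐ[ℂ] MvPolynomial (κ × Fin 2) ℂ :=
  MvPolynomial.aeval fun v ↦ ∑ b, MvPolynomial.C (M v.1 v.2 b) * MvPolynomial.X (v.1, b)

/-- polynomials vanishing on the cone over `T` -/
def cone {κ : Type} (T : Set (κ → ℂ)) : Set (MvPolynomial (κ × Fin 2) ℂ) :=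
  {c | ∀ τ ∈ T, ∀ l : κ → ℂ, MvPolynomial.eval (fun v ↦ l v.1 * ![τ v.1, 1] v.2) c = 0}

/-- the stabiliser of a set of polynomials -/
def Stab {κ : Type} (J : Set (MvPolynomial (κ × Fin 2) ℂ)) : Set (κ → SL(2, ℤ)) :=
  {γ | ∀ c, c ∈ J ↔ subst (fun i ↦ cm (γ i)) c ∈ J}

/-! ### integral expansions and their values in an ultrametric field -/

noncomputable def sigZ (k : ℕ) : PowerSeries ℤ := PowerSeries.mk fun m ↦ (σ k m : ℤ)

/-- the expansion of the cube of the Eisenstein series of weight four -/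
noncomputable def EZ : PowerSeries ℤ := (1 + 240 * sigZ 3) ^ 3

/-- the expansion of the discriminant -/
noncomputable def DZ : PowerSeries ℤ :=
  (PowerSeries.mk fun m ↦ (((5 * σ 3 m + 7 * σ 5 m) / 12 : ℕ) : ℤ)) + 100 * sigZ 3 ^ 2 +
    8000 * sigZ 3 ^ 3 - 147 * sigZ 5 ^ 2

/-- value of an integral power series -/
noncomputable def psum {K : Type*} [NormedField K] (F : PowerSeries ℤ) (Q : K) : K :=
  ∑' n, ((PowerSeries.coeff n F : ℤ) : K) * Q ^ n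

noncomputable def Dp {K : Type*} [NormedField K] (Q : K) : K := psum DZ Q

noncomputable def Ep {K : Type*} [NormedField K] (Q : K) : K := psum EZ Q

noncomputable def Jp {K : Type*} [NormedField K] (Q : K) : K := Ep Q / Dp Q

end Pool.Agent.Lib.ZP3
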