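import Pool.Agent.Lib.ZP3.Defs
import Pool.Agent.Lib.MP_fb430f_co.Circle

/-! Block TINY, first part: divisor bound, representations by binary forms, and integral matrices
that almost map a given point to a given point. -/

open Filter Topology Metric
open scoped Real

namespace Pool.Agent.Lib.ZP3

open Pool.Agent.Lib.MP_fb430f_co

theorem divisor_bound {ε : ℝ} (hε : 0 < ε) :
    ∃ C : ℝ, ∀ m : ℕ, (m.divisors.card : ℝ) ≤ C * (m : ℝ) ^ ε := by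
  obtain ⟨C, hC, h⟩ := div_bound hε
  refine ⟨C, fun m => ?_⟩
  rcases eq_or_ne m 0 with rfl | hm
  · simp only [Nat.divisors_zero, Finset.card_empty, Nat.cast_zero]
    positivity
  refine le_trans ?_ (h m hm)
  rw [Nat.card_divisors hm]
  exact_mod_cast Finset.prod_le_prod' fun p _ => by omega

theorem rep_count (d m : ℕ) (hd : 0 < d) (hm : 0 < m) (S : Finset (ℤ × ℤ))
    (hS : ∀ x ∈ S, x.1 ^ 2 + d * x.2 ^ 2 = m) : S.card ≤ 10 * m.divisors.card ^ 2 := by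
  refine (form_bound d (by exact_mod_cast hd) m hm.ne' S hS).trans (Nat.mul_le_mul_left _ ?_)
  rw [Nat.card_divisors hm.ne', ← Finset.prod_pow]
  refine Finset.prod_le_prod' fun p hp => ?_
  have he : 1 ≤ m.factorization p :=
    ((Nat.prime_of_mem_primeFactors hp).dvd_iff_one_le_factorization hm.ne').1
      (Nat.dvd_of_mem_primeFactors hp)
  nlinarith

namespace Tiny

lemma lin_zero {z : ℂ} {M : ℝ} (hM : 2 ≤ M) (hy : 1 ≤ 2 * M * z.im) {u v : ℤ}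
    (h : ‖(u : ℂ) * z + v‖ * (2 * M) < 1) : u = 0 ∧ v = 0 := by
  have hz : 0 < z.im := by
    by_contra h0
    nlinarith [not_lt.1 h0]
  have hu : u = 0 := by
    by_contra hu
    have h1 : (1 : ℝ) ≤ |(u : ℝ)| := by exact_mod_cast Int.one_le_abs hu
    have h2 := Complex.abs_im_le_norm ((u : ℂ) * z + v)
    have h3 : ((u : ℂ) * z + v).im = u * z.im := by simp
    rw [h3, abs_mul, abs_of_pos hz] at h2
    have h4 : z.im ≤ ‖(u : ℂ) * z + v‖ := le_trans (by nlinarith) h2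
    nlinarith
  refine ⟨hu, ?_⟩
  by_contra hv
  have h1 : (1 : ℝ) ≤ |(v : ℝ)| := by exact_mod_cast Int.one_le_abs hv
  rw [hu, Int.cast_zero, zero_mul, zero_add, Complex.norm_intCast] at h
  nlinarith

lemma disc_neg {z : ℂ} {M : ℝ} (hy : 1 ≤ 2 * M * z.im) {r u v : ℤ} (hr : r ≠ 0)
    (h : 4 * |(r : ℝ)| * ‖(r : ℂ) * z ^ 2 + u * z + v‖ * M ^ 2 < 1) : u ^ 2 - 4 * r * v < 0 := by
  by_contra hD
  have hD' : (0 : ℝ) ≤ (u : ℝ) ^ 2 - 4 * r * v := by exact_mod_cast not_lt.1 hD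
  have h1 : (1 : ℝ) ≤ (r : ℝ) ^ 2 := by
    have := Int.one_le_abs hr
    have h2 : (1 : ℝ) ≤ |(r : ℝ)| := by exact_mod_cast this
    nlinarith [sq_abs (r : ℝ)]
  set q : ℂ := (r : ℂ) * z ^ 2 + u * z + v with hq
  have e1 : (4 * |(r : ℝ)| * ‖q‖) ^ 2 = 16 * (r : ℝ) ^ 2 * (q.re ^ 2 + q.im ^ 2) := by
    rw [mul_pow, mul_pow, sq_abs, Complex.sq_norm, Complex.normSq_apply]
    ring
  have e2 : q.re = r * (z.re ^ 2 - z.im ^ 2) + u * z.re + v := by simp [hq, pow_two]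
  have e3 : q.im = r * (2 * z.re * z.im) + u * z.im := by simp [hq, pow_two]; left; ring
  set α : ℝ := 2 * r * z.re + u
  set β : ℝ := 2 * r * z.im
  set D : ℝ := (u : ℝ) ^ 2 - 4 * r * v
  have e4 : 16 * (r : ℝ) ^ 2 * (q.re ^ 2 + q.im ^ 2) =
      (α ^ 2 - D) ^ 2 + 2 * β ^ 2 * (α ^ 2 + D) + (β ^ 2) ^ 2 := by
    rw [e2, e3]
    simp only [α, β, D]
    ring
  have h5 : (β ^ 2) ^ 2 ≤ (4 * |(r : ℝ)| * ‖q‖) ^ 2 := by
    rw [e1, e4]
    have : 0 ≤ 2 * β ^ 2 * (α ^ 2 + D) := by positivity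
    nlinarith [sq_nonneg (α ^ 2 - D)]
  have h6 : β ^ 2 ≤ 4 * |(r : ℝ)| * ‖q‖ := (abs_le_of_sq_le_sq' h5 (by positivity)).2
  have h7 : 1 ≤ β ^ 2 * M ^ 2 := by
    have h8 : 1 ≤ (2 * M * z.im) ^ 2 := by nlinarith
    have h9 : β ^ 2 * M ^ 2 = (r : ℝ) ^ 2 * (2 * M * z.im) ^ 2 := by simp only [β]; ring
    rw [h9]
    nlinarith
  nlinarith [mul_le_mul_of_nonneg_right h6 (sq_nonneg M)]

/-- counting integral quadratic polynomials that almost vanish at a point -/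
lemma count_quad {α : Type} {z : ℂ} {M B δ : ℝ} (hM : 2 ≤ M) (hy : 1 ≤ 2 * M * z.im) (hB : 1 ≤ B)
    (hδ : 4 * B * δ * M ^ 2 < 1) {n : ℕ} (hn : 0 < n) (Γ : Finset α) (t r u v : α → ℤ)
    (hinj : ∀ g ∈ Γ, ∀ g' ∈ Γ, t g = t g' → r g = r g' → u g = u g' → v g = v g' → g = g')
    (hdet : ∀ g ∈ Γ, t g ^ 2 - (u g ^ 2 - 4 * r g * v g) = 4 * n ^ 2)
    (hr : ∀ g ∈ Γ, |(r g : ℝ)| ≤ B)
    (hq : ∀ g ∈ Γ, ‖(r g : ℂ) * z ^ 2 + u g * z + v g‖ ≤ δ) :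
    ∃ m : ℕ, (m : ℝ) ≤ 4 * n ^ 2 * B ^ 2 ∧ Γ.card ≤ 10 * m.divisors.card ^ 2 := by
  classical
  rcases Γ.eq_empty_or_nonempty with rfl | ⟨g1, hg1⟩
  · exact ⟨0, by rw [Nat.cast_zero]; positivity, by simp⟩
  have hδ0 : 0 ≤ δ := (norm_nonneg _).trans (hq g1 hg1)
  have comb : ∀ g ∈ Γ, ∀ g' ∈ Γ, ∀ x y : ℤ, |(x : ℝ)| ≤ B → |(y : ℝ)| ≤ B →
      x * r g = y * r g' → x * u g = y * u g' ∧ x * v g = y * v g' := by
    intro g hg g' hg' x y hx hy' h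
    have e : ((x * u g - y * u g' : ℤ) : ℂ) * z + ((x * v g - y * v g' : ℤ) : ℂ) =
        x * ((r g : ℂ) * z ^ 2 + u g * z + v g) - y * ((r g' : ℂ) * z ^ 2 + u g' * z + v g') := by
      have h' : (x : ℂ) * r g = y * r g' := by exact_mod_cast h
      push_cast
      linear_combination (-z ^ 2) * h'
    have h1 : ‖((x * u g - y * u g' : ℤ) : ℂ) * z + ((x * v g - y * v g' : ℤ) : ℂ)‖ ≤
        2 * B * δ := by
      rw [e]
      refine (norm_sub_le _ _).trans ?_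
      rw [norm_mul, norm_mul, Complex.norm_intCast, Complex.norm_intCast]
      have h2 := mul_le_mul hx (hq g hg) (norm_nonneg _) (by linarith)
      have h3 := mul_le_mul hy' (hq g' hg') (norm_nonneg _) (by linarith)
      linarith
    have h2 := lin_zero hM hy (lt_of_le_of_lt (mul_le_mul_of_nonneg_right h1 (by linarith))
      (lt_of_le_of_lt (by
        have : 0 ≤ B * δ * M := by positivity
        nlinarith) hδ))
    exact ⟨by linarith [h2.1], by linarith [h2.2]⟩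
  obtain ⟨r0, d0, h0, hd0, hr0, hall⟩ : ∃ (r0 : ℤ) (d0 : ℕ), r0 ≠ 0 ∧ 0 < d0 ∧ |(r0 : ℝ)| ≤ B ∧
      ∀ g ∈ Γ, (r0 * t g) ^ 2 + d0 * r g ^ 2 = 4 * n ^ 2 * r0 ^ 2 := by
    by_cases h : ∀ g ∈ Γ, r g = 0
    · refine ⟨1, 1, one_ne_zero, one_pos, by simpa using hB, fun g hg => ?_⟩
      have h1 := comb g hg g hg 1 0 (by simpa using hB) (by simp; linarith) (by simp [h g hg])
      have h2 := hdet g hg
      rw [h g hg] at h2 ⊢
      have h3 : u g = 0 := by simpa using h1.1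
      rw [h3] at h2
      push_cast
      linarith
    · push Not at h
      obtain ⟨g0, hg0, h0⟩ := h
      have hD : u g0 ^ 2 - 4 * r g0 * v g0 < 0 := by
        refine disc_neg hy h0 (lt_of_le_of_lt ?_ hδ)
        have := mul_le_mul (hr g0 hg0) (hq g0 hg0) (norm_nonneg _) (by linarith)
        nlinarith [sq_nonneg M]
      refine ⟨r g0, (4 * r g0 * v g0 - u g0 ^ 2).toNat, h0, by omega, hr g0 hg0, fun g hg => ?_⟩
      obtain ⟨h1, h2⟩ := comb g hg g0 hg0 (r g0) (r g) (hr g0 hg0) (hr g hg) (mul_comm _ _)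
      rw [Int.toNat_of_nonneg (by omega)]
      linear_combination (r g0) ^ 2 * hdet g hg + (r g0 * u g + r g * u g0) * h1 -
        4 * r g0 * r g * h2
  refine ⟨4 * n ^ 2 * r0.natAbs ^ 2, ?_, ?_⟩
  · push_cast
    rw [Nat.cast_natAbs, Int.cast_abs]
    gcongr
  · have hm : 0 < 4 * n ^ 2 * r0.natAbs ^ 2 := by positivity
    refine le_trans (Finset.card_le_card_of_injOn (t := Γ.image fun g => (r0 * t g, r g))
      (fun g => (r0 * t g, r g)) (fun g hg => Finset.mem_image_of_mem _ hg)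
      fun g hg g' hg' h => ?_) (rep_count d0 _ hd0 hm _ fun x hx => ?_)
    · simp only [Prod.mk.injEq] at h
      have h1 := comb g hg g' hg' 1 1 (by simpa using hB) (by simpa using hB) (by rw [h.2])
      exact hinj g hg g' hg' (mul_left_cancel₀ h0 h.1) h.2 (by simpa using h1.1)
        (by simpa using h1.2)
    · obtain ⟨g, hg, rfl⟩ := Finset.mem_image.1 hx
      push_cast
      rw [sq_abs]
      exact hall g hg

/-- sizes of the entries of a matrix that maps a point of a box to a point of the box -/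
lemma entries {τ τ' : ℂ} {a b c d : ℤ} {n : ℕ} {M : ℝ} (hm : Mob a b c d τ τ')
    (hn : a * d - b * c = n) (hM : 2 ≤ M) (hnM : (n : ℝ) ≤ M) (h1 : ‖τ‖ ≤ M) (h2 : ‖τ'‖ ≤ M)
    (h3 : 1 ≤ M * τ.im) (h4 : 1 ≤ M * τ'.im) :
    |(a : ℝ)| ≤ M ^ 4 ∧ |(c : ℝ)| ≤ M ^ 4 ∧ ‖(c : ℂ) * τ + d‖ ≤ M ^ 2 := by
  have hn' : (a : ℝ) * d - b * c = n := by exact_mod_cast hn
  have hm' : τ' * (c * τ + d) = a * τ + b := hm
  have e1 := congrArg Complex.re hm'
  have e2 := congrArg Complex.im hm'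
  simp only [Complex.mul_re, Complex.add_re, Complex.intCast_re, Complex.intCast_im, zero_mul,
    sub_zero, Complex.add_im, Complex.mul_im, add_zero] at e1 e2
  have e3 : τ'.im * ‖(c : ℂ) * τ + d‖ ^ 2 = n * τ.im := by
    rw [Complex.sq_norm, Complex.normSq_apply]
    simp only [Complex.mul_re, Complex.add_re, Complex.intCast_re, Complex.intCast_im, zero_mul,
      sub_zero, Complex.add_im, Complex.mul_im, add_zero]
    linear_combination (c * τ.re + d) * e2 - (c * τ.im) * e1 + τ.im * hn'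
  have hτ : 0 < τ.im := by
    by_contra h0
    nlinarith [not_lt.1 h0]
  have h5 : τ.im ≤ M := (le_abs_self _).trans ((Complex.abs_im_le_norm τ).trans h1)
  have h6 : ‖(c : ℂ) * τ + d‖ ≤ M ^ 2 := by
    refine (abs_le_of_sq_le_sq' ?_ (by positivity)).2
    have h7 : (n : ℝ) * τ.im ≤ M * M := mul_le_mul hnM h5 hτ.le (by linarith)
    have h8 : ‖(c : ℂ) * τ + d‖ ^ 2 ≤ M * (M * M) := by
      nlinarith [sq_nonneg ‖(c : ℂ) * τ + d‖]
    nlinarith [mul_pos (by linarith : 0 < M) (by positivity : 0 < M * M)]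
  have key : ∀ (x y : ℤ) (K : ℝ), ‖(x : ℂ) * τ + y‖ ≤ K → |(x : ℝ)| ≤ M * K := by
    intro x y K h
    have h7 := Complex.abs_im_le_norm ((x : ℂ) * τ + y)
    have h8 : ((x : ℂ) * τ + y).im = x * τ.im := by simp
    rw [h8, abs_mul, abs_of_pos hτ] at h7
    nlinarith [abs_nonneg (x : ℝ)]
  have h7 : ‖(a : ℂ) * τ + b‖ ≤ M ^ 3 := by
    rw [← hm', norm_mul]
    exact (mul_le_mul h2 h6 (norm_nonneg _) (by linarith)).trans (le_of_eq (by ring))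
  refine ⟨(key a b _ h7).trans (le_of_eq (by ring)), (key c d _ h6).trans ?_, h6⟩
  nlinarith [pow_pos (by linarith : 0 < M) 3]

/-- the two estimates at the centre -/
lemma centre {τ τ' z z' : ℂ} {a b c d : ℤ} {M η : ℝ} (hm : Mob a b c d τ τ') (hM : 2 ≤ M)
    (hη : η ≤ 1) (h2 : ‖τ'‖ ≤ M) (ha : |(a : ℝ)| ≤ M ^ 4) (hc : |(c : ℝ)| ≤ M ^ 4)
    (hcd : ‖(c : ℂ) * τ + d‖ ≤ M ^ 2) (hz : ‖τ - z‖ ≤ η) (hz' : ‖τ' - z'‖ ≤ η) :
    ‖(c : ℂ) * z + d‖ ≤ M ^ 5 ∧ ‖(a : ℂ) * z + b - z' * (c * z + d)‖ ≤ η * M ^ 7 := by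
  have hm' : τ' * (c * τ + d) = a * τ + b := hm
  have hη0 : 0 ≤ η := (norm_nonneg _).trans hz
  have p2 : M ^ 2 ≤ M ^ 4 := pow_le_pow_right₀ (by linarith) (by norm_num)
  have p4 : 0 < M ^ 4 := by positivity
  have h1 : ‖(c : ℂ) * z + d‖ ≤ M ^ 5 := by
    have e : (c : ℂ) * z + d = (c * τ + d) - c * (τ - z) := by ring
    rw [e]
    refine (norm_sub_le _ _).trans ?_
    rw [norm_mul, Complex.norm_intCast]
    have := mul_le_mul hc (hz.trans hη) (norm_nonneg _) p4.le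
    nlinarith
  refine ⟨h1, ?_⟩
  have e : (a : ℂ) * z + b - z' * (c * z + d) =
      (τ' * c * (τ - z) - a * (τ - z)) + (τ' - z') * (c * z + d) := by
    linear_combination (-1 : ℂ) * hm'
  rw [e]
  refine (norm_add_le _ _).trans ((add_le_add_left (norm_sub_le _ _) _).trans ?_)
  rw [norm_mul, norm_mul, norm_mul, norm_mul, Complex.norm_intCast, Complex.norm_intCast]
  have b1 := mul_le_mul (mul_le_mul h2 hc (abs_nonneg _) (by linarith)) hz (norm_nonneg _)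
    (by positivity)
  have b2 := mul_le_mul ha hz (norm_nonneg _) p4.le
  have b3 := mul_le_mul hz' h1 (norm_nonneg _) hη0
  have b4 : M * M ^ 4 + M ^ 4 + M ^ 5 ≤ M ^ 7 := by
    have : M ^ 7 = M ^ 4 * M ^ 3 := by ring
    have h3 : 2 * M + 1 ≤ M ^ 3 := by nlinarith [mul_self_nonneg (M - 2)]
    nlinarith
  nlinarith

end Tiny

open Tiny in
theorem tiny {ε : ℝ} (hε : 0 < ε) : ∃ C : ℝ, ∀ (M : ℝ) (n : ℕ) (z z' : ℂ)
    (Γ : Finset (ℤ × ℤ × ℤ × ℤ)), 2 ≤ M → 0 < n → (n : ℝ) ≤ M →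
    (∀ g ∈ Γ, g.1 * g.2.2.2 - g.2.1 * g.2.2.1 = n ∧ ∃ τ τ' : ℂ, ‖τ‖ ≤ M ∧ ‖τ'‖ ≤ M ∧
      1 ≤ M * τ.im ∧ 1 ≤ M * τ'.im ∧ ‖τ - z‖ ≤ (M ^ 100)⁻¹ ∧ ‖τ' - z'‖ ≤ (M ^ 100)⁻¹ ∧
      Mob g.1 g.2.1 g.2.2.1 g.2.2.2 τ τ') → (Γ.card : ℝ) ≤ C * M ^ ε := by
  obtain ⟨C, hC⟩ := divisor_bound (ε := ε / 44) (by positivity)
  refine ⟨10 * C ^ 2, fun M n z z' Γ hM hn hnM hΓ => ?_⟩
  have hM0 : 0 < M := by linarith
  have hM1 : 1 ≤ M := by linarith
  rcases Γ.eq_empty_or_nonempty with rfl | ⟨⟨a1, b1, c1, d1⟩, hg1⟩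
  · simp only [Finset.card_empty, Nat.cast_zero]
    positivity
  set η : ℝ := (M ^ 100)⁻¹ with hη
  have hη0 : 0 < η := by positivity
  have hηM : η * M ^ 100 = 1 := inv_mul_cancel₀ (by positivity)
  have hpow : ∀ k : ℕ, k < 100 → 2 * (η * M ^ k) ≤ 1 := by
    intro k hk
    have h1 : M ^ (k + 1) ≤ M ^ 100 := pow_le_pow_right₀ hM1 hk
    have h2 : 2 * M ^ k ≤ M ^ (k + 1) := by
      rw [pow_succ]
      nlinarith [pow_pos hM0 k]
    nlinarith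
  have hη1 : η ≤ 1 := by have := hpow 0 (by norm_num); simp at this; linarith
  have facts : ∀ g ∈ Γ, |(g.1 : ℝ)| ≤ M ^ 4 ∧ |(g.2.2.1 : ℝ)| ≤ M ^ 4 ∧
      ‖(g.2.2.1 : ℂ) * z + g.2.2.2‖ ≤ M ^ 5 ∧
      ‖(g.1 : ℂ) * z + g.2.1 - z' * (g.2.2.1 * z + g.2.2.2)‖ ≤ η * M ^ 7 := by
    intro g hg
    obtain ⟨h0, τ, τ', h1, h2, h3, h4, h5, h6, h7⟩ := hΓ g hg
    obtain ⟨k1, k2, k3⟩ := entries h7 h0 hM hnM h1 h2 h3 h4
    exact ⟨k1, k2, centre h7 hM hη1 h2 k1 k2 k3 h5 h6⟩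
  have hy : 1 ≤ 2 * M * z.im := by
    obtain ⟨-, τ, τ', -, -, h3, -, h5, -⟩ := hΓ _ hg1
    have h6 : (τ - z).im ≤ η := (le_abs_self _).trans ((Complex.abs_im_le_norm _).trans h5)
    rw [Complex.sub_im] at h6
    have h7 := hpow 1 (by norm_num)
    nlinarith
  have hd1 : a1 * d1 - b1 * c1 = n := (hΓ _ hg1).1
  obtain ⟨f1, f2, f3, f4⟩ := facts _ hg1
  simp only at f1 f2 f3 f4
  obtain ⟨m, hm, hcard⟩ := count_quad (B := M ^ 9) (δ := η * M ^ 13) hM hy (one_le_pow₀ hM1)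
    (by
      have h1 := hpow 27 (by norm_num)
      have h2 : 4 * M ^ 9 * (η * M ^ 13) * M ^ 2 = 4 * (η * M ^ 24) := by ring
      have h3 : η * M ^ 27 = (η * M ^ 24) * M ^ 3 := by ring
      have h4 : 8 ≤ M ^ 3 := by nlinarith [mul_self_nonneg (M - 2)]
      have h5 : 0 < η * M ^ 24 := by positivity
      rw [h2]
      nlinarith) hn Γ
    (fun g => d1 * g.1 - b1 * g.2.2.1 - c1 * g.2.1 + a1 * g.2.2.2)
    (fun g => a1 * g.2.2.1 - c1 * g.1)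
    (fun g => a1 * g.2.2.2 - c1 * g.2.1 - d1 * g.1 + b1 * g.2.2.1)
    (fun g => b1 * g.2.2.2 - d1 * g.2.1)
    (fun g _ g' _ h1 h2 h3 h4 => by
      have hn0 : (2 * n : ℤ) ≠ 0 := by omega
      rw [← hd1] at hn0
      refine Prod.ext ?_ (Prod.ext ?_ (Prod.ext ?_ ?_)) <;> refine mul_left_cancel₀ hn0 ?_
      · linear_combination a1 * h1 - a1 * h3 + 2 * b1 * h2
      · linear_combination b1 * h1 + b1 * h3 - 2 * a1 * h4
      · linear_combination c1 * h1 - c1 * h3 + 2 * d1 * h2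
      · linear_combination d1 * h1 + d1 * h3 - 2 * c1 * h4)
    (fun g hg => by
      have h1 := (hΓ g hg).1
      linear_combination 4 * (g.1 * g.2.2.2 - g.2.1 * g.2.2.1) * hd1 + 4 * (n : ℤ) * h1)
    (fun g hg => by
      obtain ⟨k1, k2, -, -⟩ := facts g hg
      push_cast
      refine (abs_sub _ _).trans ?_
      rw [abs_mul, abs_mul]
      have b1 := mul_le_mul f1 k2 (abs_nonneg _) (by positivity)
      have b2 := mul_le_mul f2 k1 (abs_nonneg _) (by positivity)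
      nlinarith [pow_pos hM0 8])
    (fun g hg => by
      obtain ⟨-, -, k3, k4⟩ := facts g hg
      have e : ((a1 * g.2.2.1 - c1 * g.1 : ℤ) : ℂ) * z ^ 2 +
          ((a1 * g.2.2.2 - c1 * g.2.1 - d1 * g.1 + b1 * g.2.2.1 : ℤ) : ℂ) * z +
          ((b1 * g.2.2.2 - d1 * g.2.1 : ℤ) : ℂ) =
          ((a1 : ℂ) * z + b1 - z' * (c1 * z + d1)) * (g.2.2.1 * z + g.2.2.2) -
            (c1 * z + d1) * ((g.1 : ℂ) * z + g.2.1 - z' * (g.2.2.1 * z + g.2.2.2)) := by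
        push_cast
        ring
      rw [e]
      refine (norm_sub_le _ _).trans ?_
      rw [norm_mul, norm_mul]
      have b1 := mul_le_mul f4 k3 (norm_nonneg _) (by positivity)
      have b2 := mul_le_mul f3 k4 (norm_nonneg _) (by positivity)
      have h5 : 0 < η * M ^ 12 := by positivity
      nlinarith)
  have hm' : (m : ℝ) ≤ M ^ 22 := by
    refine hm.trans ?_
    have h1 : (n : ℝ) ^ 2 ≤ M ^ 2 := by gcongr
    have h2 : (4 : ℝ) ≤ M ^ 2 := by nlinarith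
    calc 4 * (n : ℝ) ^ 2 * (M ^ 9) ^ 2 ≤ M ^ 2 * M ^ 2 * (M ^ 9) ^ 2 := by gcongr
      _ = M ^ 22 := by ring
  have h1 : ((m : ℝ) ^ (ε / 44)) ^ 2 ≤ M ^ ε := by
    calc ((m : ℝ) ^ (ε / 44)) ^ 2 ≤ ((M ^ 22) ^ (ε / 44)) ^ 2 := by gcongr
      _ = M ^ ε := by
        rw [← Real.rpow_natCast, ← Real.rpow_natCast, ← Real.rpow_mul hM0.le,
          ← Real.rpow_mul hM0.le]
        congr 1
        push_cast
        ring
  calc (Γ.card : ℝ) ≤ 10 * (m.divisors.card : ℝ) ^ 2 := by exact_mod_cast hcard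
    _ ≤ 10 * (C * (m : ℝ) ^ (ε / 44)) ^ 2 := by gcongr; exact hC m
    _ = 10 * C ^ 2 * ((m : ℝ) ^ (ε / 44)) ^ 2 := by ring
    _ ≤ 10 * C ^ 2 * M ^ ε := by gcongr

end Pool.Agent.Lib.ZP3
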