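import Pool.Agent.Lib.ZP3.ArithA

/-! Block ARITH, part B: Liouville inequality, p-adic integrality, pigeonhole lemmas. -/

open UpperHalfPlane Filter Topology Metric
open scoped Real

namespace Pool.Agent.Lib.ZP3

open Arith

namespace Arith

theorem root_conj {z w : ℂ} (hz : IsAlgebraic ℚ z)
    (hw : w ∈ ((minpoly ℚ z).map (algebraMap ℚ ℂ)).roots) : ∃ σ : ℂ →+* ℂ, σ z = w :=
  exists_conj hz (Polynomial.mem_aroots.1 hw).2

theorem prod_norm_le (s : Multiset ℂ) {B : ℝ} (h : ∀ x ∈ s, ‖x‖ ≤ B) :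
    ‖s.prod‖ ≤ B ^ Multiset.card s := by
  induction s using Multiset.induction_on with
  | empty => simp
  | cons a s ih =>
    rw [Multiset.prod_cons, Multiset.card_cons, norm_mul, pow_succ']
    have h1 := h a (Multiset.mem_cons_self _ _)
    exact mul_le_mul h1 (ih fun x hx ↦ h x (Multiset.mem_cons_of_mem hx)) (norm_nonneg _)
      ((norm_nonneg _).trans h1)

/-- the closed unit ball of `ℂ_p` as a subring -/
def ball1 (p : ℕ) [Fact p.Prime] : Subring ℂ_[p] where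
  carrier := {x | ‖x‖ ≤ 1}
  mul_mem' := fun {a b} ha hb ↦ by
    change ‖a * b‖ ≤ 1
    rw [norm_mul]; exact mul_le_one₀ ha (norm_nonneg _) hb
  one_mem' := by simp
  add_mem' := fun {a b} ha hb ↦ (IsUltrametricDist.norm_add_le_max a b).trans (max_le ha hb)
  zero_mem' := by simp
  neg_mem' := fun {a} ha ↦ by simpa using ha

theorem den_eq_one {c : ℚ} (h : ∀ (p : ℕ) [Fact p.Prime], ‖(c : ℂ_[p])‖ ≤ 1) : c.den = 1 := by
  by_contra hne
  obtain ⟨p, hp, hd⟩ := Nat.exists_prime_and_dvd hne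
  have : Fact p.Prime := ⟨hp⟩
  have h1 := h p
  have h2 : ‖(c : ℂ_[p])‖ = padicNorm p c := by
    rw [← Padic.eq_padicNorm, ← map_ratCast (algebraMap ℚ_[p] ℂ_[p]), norm_algebraMap']
  rw [h2] at h1
  have h3 : padicNorm p c ≤ 1 := by exact_mod_cast h1
  have h4 : padicNorm p (c.den : ℚ) < 1 := (padicNorm.nat_lt_one_iff _).2 hd
  have h5 : padicNorm p (c.num : ℚ) = 1 := by
    rw [padicNorm.int_eq_one_iff]
    intro h6
    have h7 : p ∣ c.num.natAbs := Int.natCast_dvd.1 h6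
    have h8 := Nat.dvd_gcd h7 hd
    rw [c.reduced] at h8
    exact hp.one_lt.ne' (Nat.dvd_one.1 h8)
  have h6 : padicNorm p c * padicNorm p (c.den : ℚ) = 1 := by
    rw [← padicNorm.mul, Rat.mul_den_eq_num, h5]
  have h7 := padicNorm.nonneg (p := p) (c.den : ℚ)
  nlinarith

theorem floor_close {x y e : ℝ} (he : 0 < e) (h : ⌊2 * x / e⌋ = ⌊2 * y / e⌋) :
    |x - y| < e / 2 := by
  have h1 := Int.abs_sub_lt_one_of_floor_eq_floor h
  have h2 : x - y = (2 * x / e - 2 * y / e) * (e / 2) := by field_simp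
  rw [h2, abs_mul, abs_of_pos (by positivity : 0 < e / 2)]
  nlinarith

theorem cell_close {x y : ℂ} {e : ℝ} (he : 0 < e) (h1 : ⌊2 * x.re / e⌋ = ⌊2 * y.re / e⌋)
    (h2 : ⌊2 * x.im / e⌋ = ⌊2 * y.im / e⌋) : ‖x - y‖ < e := by
  have h3 := floor_close he h1
  have h4 := floor_close he h2
  have h5 := Complex.norm_le_abs_re_add_abs_im (x - y)
  rw [Complex.sub_re, Complex.sub_im] at h5
  linarith

theorem floor_mem {x R e : ℝ} (he : 0 < e) (h : |x| ≤ R) :
    ⌊2 * x / e⌋ ∈ Finset.Icc ⌊-(2 * R / e)⌋ ⌊2 * R / e⌋ := by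
  obtain ⟨h1, h2⟩ := abs_le.1 h
  refine Finset.mem_Icc.2 ⟨Int.floor_le_floor ?_, Int.floor_le_floor ?_⟩
  · rw [← neg_div]; gcongr; linarith
  · gcongr

theorem card_cells {R e : ℝ} (hR : 0 ≤ R) (he : 0 < e) :
    ((Finset.Icc ⌊-(2 * R / e)⌋ ⌊2 * R / e⌋).card : ℝ) ≤ 4 * R / e + 2 := by
  have h0 : 0 ≤ 2 * R / e := by positivity
  have h1 := Int.floor_le (2 * R / e)
  have h2 := Int.lt_floor_add_one (-(2 * R / e))
  have h3 : ⌊-(2 * R / e)⌋ ≤ ⌊2 * R / e⌋ + 1 :=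
    (Int.floor_le_floor (by linarith)).trans (le_add_of_nonneg_right zero_le_one)
  have h4 := Int.card_Icc_of_le _ _ h3
  have h5 : ((Finset.Icc ⌊-(2 * R / e)⌋ ⌊2 * R / e⌋).card : ℝ) =
      (⌊2 * R / e⌋ : ℝ) + 1 - (⌊-(2 * R / e)⌋ : ℝ) := by exact_mod_cast h4
  have h6 : 4 * R / e = 2 * R / e + 2 * R / e := by ring
  linarith

end Arith

theorem liouville {z : ℂ} {D : ℕ} {B : ℝ} (hi : IsIntegral ℤ z) (h0 : z ≠ 0) (hD : Deg z D)
    (hB : 1 ≤ B) (hb : ∀ σ : ℂ →+* ℂ, ‖σ z‖ ≤ B) : 1 ≤ ‖z‖ * B ^ D := by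
  classical
  have hq : IsIntegral ℚ z := hi.tower_top
  set P := (minpoly ℚ z).map (algebraMap ℚ ℂ) with hP
  have hm : P.Monic := (minpoly.monic hq).map _
  have hnd : P.roots.Nodup := Polynomial.nodup_roots (minpoly.irreducible hq).separable.map
  obtain ⟨E, hE, hE'⟩ := hD
  have hcard : Multiset.card P.roots ≤ D := by
    rw [← Multiset.toFinset_card_of_nodup hnd]
    refine (Finset.card_le_card fun w hw ↦ ?_).trans hE
    obtain ⟨σ, rfl⟩ := root_conj hq.isAlgebraic (Multiset.mem_toFinset.1 hw)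
    exact hE' σ
  have hz : z ∈ P.roots := Polynomial.mem_aroots.2 ⟨minpoly.ne_zero hq, minpoly.aeval ℚ z⟩
  have h1 : ‖P.coeff 0‖ = ‖z‖ * ‖(P.roots.erase z).prod‖ := by
    rw [(IsAlgClosed.splits P).coeff_zero_eq_prod_roots_of_monic hm, ← Multiset.prod_erase hz]
    simp
  have h2 : 1 ≤ ‖P.coeff 0‖ := by
    have h3 : (minpoly ℚ z).coeff 0 ≠ 0 := minpoly.coeff_zero_ne_zero hq h0
    rw [hP, Polynomial.coeff_map]
    rw [minpoly.isIntegrallyClosed_eq_field_fractions' ℚ hi, Polynomial.coeff_map] at h3 ⊢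
    have h4 : (minpoly ℤ z).coeff 0 ≠ 0 := fun h ↦ h3 (by rw [h, map_zero])
    have h5 := Int.one_le_abs h4
    simp only [eq_intCast, map_intCast, Complex.norm_intCast]
    exact_mod_cast h5
  have h3 : ‖(P.roots.erase z).prod‖ ≤ B ^ D := by
    refine (prod_norm_le _ (B := B) fun w hw ↦ ?_).trans (pow_le_pow_right₀ hB ?_)
    · obtain ⟨σ, rfl⟩ := root_conj hq.isAlgebraic (Multiset.mem_of_mem_erase hw)
      exact hb σ
    · exact (Multiset.card_le_card (Multiset.erase_le _ _)).trans hcard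
  rw [h1] at h2
  exact h2.trans (mul_le_mul_of_nonneg_left h3 (norm_nonneg _))

theorem isIntegral_of_padic {z : ℂ} (hz : IsAlgebraic ℚ z)
    (h : ∀ (p : ℕ) [Fact p.Prime] (ι : ℂ →+* ℂ_[p]), ‖ι z‖ ≤ 1) : IsIntegral ℤ z := by
  have hq : IsIntegral ℚ z := hz.isIntegral
  set P := (minpoly ℚ z).map (algebraMap ℚ ℂ) with hP
  have hm : P.Monic := (minpoly.monic hq).map _
  have hc : ∀ n, ((minpoly ℚ z).coeff n).den = 1 := fun n ↦ den_eq_one fun p _ ↦ by
    obtain ⟨ι⟩ := exists_hom_padic p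
    let T : Subring ℂ := (ball1 p).comap ι
    have h1 : P ∈ Polynomial.liftsRing T.subtype := by
      rw [(IsAlgClosed.splits P).eq_prod_roots_of_monic hm]
      refine Subring.multiset_prod_mem _ _ fun q hq ↦ ?_
      obtain ⟨w, hw, rfl⟩ := Multiset.mem_map.1 hq
      obtain ⟨σ, rfl⟩ := root_conj hz hw
      exact ⟨Polynomial.X - Polynomial.C ⟨σ z, h p (ι.comp σ)⟩, by simp⟩
    obtain ⟨x, hx⟩ := (Polynomial.lifts_iff_coeff_lifts _).1
      ((Polynomial.lifts_iff_liftsRing _ _).2 h1) n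
    have h2 : ‖ι (P.coeff n)‖ ≤ 1 := by rw [← hx]; exact x.2
    rw [hP, Polynomial.coeff_map] at h2
    simpa using h2
  have hl : minpoly ℚ z ∈ Polynomial.lifts (algebraMap ℤ ℚ) :=
    (Polynomial.lifts_iff_coeff_lifts _).2 fun n ↦
      ⟨((minpoly ℚ z).coeff n).num, Rat.coe_int_num_of_den_eq_one (hc n)⟩
  obtain ⟨q, hq1, -, hq2⟩ := Polynomial.lifts_and_degree_eq_and_monic hl (minpoly.monic hq)
  refine ⟨q, hq2, ?_⟩
  have h3 := minpoly.aeval ℚ z
  rw [← hq1, Polynomial.aeval_map_algebraMap] at h3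
  exact h3

theorem norm_le_one_of_isIntegral {p : ℕ} [Fact p.Prime] {z : ℂ_[p]} (hz : IsIntegral ℤ z) :
    ‖z‖ ≤ 1 := by
  by_contra hlt
  push Not at hlt
  obtain ⟨q, hq, hz⟩ := hz
  rw [Polynomial.eval₂_eq_sum_range, Finset.sum_range_succ] at hz
  have h1 : q.coeff q.natDegree = 1 := hq
  rw [h1, map_one, one_mul] at hz
  have h0 : 0 < ‖z‖ := zero_lt_one.trans hlt
  have h2 : ‖∑ i ∈ Finset.range q.natDegree, algebraMap ℤ ℂ_[p] (q.coeff i) * z ^ i‖ ≤
      ‖z‖ ^ q.natDegree / ‖z‖ := by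
    refine IsUltrametricDist.norm_sum_le_of_forall_le_of_nonneg (by positivity) fun i hi ↦ ?_
    rw [norm_mul, norm_pow, le_div_iff₀ h0]
    have h3 : ‖algebraMap ℤ ℂ_[p] (q.coeff i)‖ ≤ 1 := by
      simpa using IsUltrametricDist.norm_intCast_le_one ℂ_[p] (q.coeff i)
    have h4 : ‖z‖ ^ (i + 1) ≤ ‖z‖ ^ q.natDegree :=
      pow_le_pow_right₀ hlt.le (Finset.mem_range.1 hi)
    rw [pow_succ] at h4
    have h5 : 0 ≤ ‖z‖ ^ i * ‖z‖ := by positivity
    nlinarith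
  rw [eq_neg_of_add_eq_zero_left hz, norm_neg, norm_pow, le_div_iff₀ h0] at h2
  have h6 : 0 < ‖z‖ ^ q.natDegree := by positivity
  nlinarith

/-- an algebraic integer fixed by every conjugation is a rational integer -/
theorem exists_int_of_fixed {z : ℂ} (hz : IsIntegral ℤ z) (h : ∀ σ : ℂ →+* ℂ, σ z = z) :
    ∃ n : ℤ, z = n := by
  classical
  have hq : IsIntegral ℚ z := hz.tower_top
  set P := (minpoly ℚ z).map (algebraMap ℚ ℂ) with hP
  have hm : P.Monic := (minpoly.monic hq).map _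
  have hnd : P.roots.Nodup := Polynomial.nodup_roots (minpoly.irreducible hq).separable.map
  have hz' : z ∈ P.roots := Polynomial.mem_aroots.2 ⟨minpoly.ne_zero hq, minpoly.aeval ℚ z⟩
  have h1 : P.roots = {z} := by
    rw [← Multiset.Nodup.ext hnd (Multiset.nodup_singleton z) |>.2]
    intro w
    rw [Multiset.mem_singleton]
    refine ⟨fun hw ↦ ?_, fun hw ↦ hw ▸ hz'⟩
    obtain ⟨σ, rfl⟩ := root_conj hq.isAlgebraic hw
    exact h σ
  have h2 := (IsAlgClosed.splits P).eq_prod_roots_of_monic hm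
  rw [h1] at h2
  have h3 := congrArg (fun q ↦ Polynomial.coeff q 0) h2
  simp only [hP, minpoly.isIntegrallyClosed_eq_field_fractions' ℚ hz, Polynomial.coeff_map] at h3
  refine ⟨-(minpoly ℤ z).coeff 0, ?_⟩
  simp at h3
  simp [h3]

/-- pigeonhole form of Siegel's lemma for complex linear forms -/
theorem pigeon {n r : Type} [Fintype n] [Fintype r] (a : r → n → ℂ) {K ε : ℝ} (hK : 1 ≤ K)
    (hε : 0 < ε) (hε1 : ε ≤ 1) (ha : ∀ i j, ‖a i j‖ ≤ K) (hn : 0 < Fintype.card n)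
    (h : 4 * Fintype.card r ≤ Fintype.card n) :
    ∃ p : n → ℤ, p ≠ 0 ∧ (∀ j, |(p j : ℝ)| ≤ 7 * Fintype.card n * K / ε) ∧
      ∀ i, ‖∑ j, (p j : ℂ) * a i j‖ < ε := by
  classical
  set N := Fintype.card n with hN
  have hN1 : (1 : ℝ) ≤ N := by exact_mod_cast hn
  set x : ℝ := N * K / ε with hx
  have hx1 : 1 ≤ x := by
    rw [hx, le_div_iff₀ hε]; nlinarith
  set B := ⌈6 * x⌉₊ with hB
  have hB1 : 6 * x ≤ B := Nat.le_ceil _
  have hB2 : (B : ℝ) ≤ 7 * x := by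
    have := Nat.ceil_lt_add_one (a := 6 * x) (by linarith)
    linarith
  have hB3 : 1 ≤ B := by
    have : (1 : ℝ) ≤ B := by linarith
    exact_mod_cast this
  set R : ℝ := N * B * K with hR
  have hR0 : 0 ≤ R := by positivity
  let I := Finset.Icc ⌊-(2 * R / ε)⌋ ⌊2 * R / ε⌋
  have hI : I.card ≤ B ^ 2 := by
    have h1 : (I.card : ℝ) ≤ 4 * R / ε + 2 := card_cells hR0 hε
    have h2 : 4 * R / ε = 4 * x * B := by rw [hR, hx]; ring
    have h3 : (I.card : ℝ) ≤ (B : ℝ) ^ 2 := by nlinarith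
    exact_mod_cast h3
  let s := Fintype.piFinset fun _ : n ↦ Finset.Icc (0 : ℤ) B
  let t := Fintype.piFinset fun _ : r ↦ I ×ˢ I
  let F : (n → ℤ) → r → ℂ := fun p i ↦ ∑ j, (p j : ℂ) * a i j
  let f : (n → ℤ) → r → ℤ × ℤ := fun p i ↦ (⌊2 * (F p i).re / ε⌋, ⌊2 * (F p i).im / ε⌋)
  have hlt : t.card < s.card := by
    rw [Fintype.card_piFinset, Fintype.card_piFinset]
    simp only [Finset.card_product, Finset.prod_const, Finset.card_univ, Int.card_Icc, sub_zero]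
    have h1 : ((B : ℤ) + 1).toNat = B + 1 := by omega
    rw [h1]
    calc (I.card * I.card) ^ Fintype.card r ≤ (B ^ 2 * B ^ 2) ^ Fintype.card r :=
          Nat.pow_le_pow_left (Nat.mul_le_mul hI hI) _
      _ = B ^ (4 * Fintype.card r) := by ring
      _ ≤ B ^ N := Nat.pow_le_pow_right hB3 h
      _ < (B + 1) ^ N := Nat.pow_lt_pow_left (Nat.lt_succ_self _) hn.ne'
  have hmap : Set.MapsTo f s t := fun p hp ↦ by
    have hp' : ∀ j, 0 ≤ p j ∧ p j ≤ B := fun j ↦ Finset.mem_Icc.1 (Fintype.mem_piFinset.1 hp j)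
    refine Fintype.mem_piFinset.2 fun i ↦ ?_
    have h1 : ‖F p i‖ ≤ R := by
      refine (norm_sum_le _ _).trans ?_
      have h2 : ∀ j ∈ (Finset.univ : Finset n), ‖(p j : ℂ) * a i j‖ ≤ B * K := fun j _ ↦ by
        rw [norm_mul, Complex.norm_intCast]
        have h3 : |(p j : ℝ)| ≤ B := by
          rw [abs_of_nonneg (by exact_mod_cast (hp' j).1)]; exact_mod_cast (hp' j).2
        exact mul_le_mul h3 (ha i j) (norm_nonneg _) (Nat.cast_nonneg _)
      refine (Finset.sum_le_card_nsmul _ _ _ h2).trans ?_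
      rw [Finset.card_univ, nsmul_eq_mul, hR, mul_assoc]
    exact Finset.mem_product.2 ⟨floor_mem hε ((Complex.abs_re_le_norm _).trans h1),
      floor_mem hε ((Complex.abs_im_le_norm _).trans h1)⟩
  obtain ⟨p, hp, q, hq, hne, hpq⟩ := Finset.exists_ne_map_eq_of_card_lt_of_maps_to hlt hmap
  have hp' : ∀ j, 0 ≤ p j ∧ p j ≤ B := fun j ↦ Finset.mem_Icc.1 (Fintype.mem_piFinset.1 hp j)
  have hq' : ∀ j, 0 ≤ q j ∧ q j ≤ B := fun j ↦ Finset.mem_Icc.1 (Fintype.mem_piFinset.1 hq j)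
  refine ⟨p - q, sub_ne_zero.2 hne, fun j ↦ ?_, fun i ↦ ?_⟩
  · have h1 : |(p - q) j| ≤ B := by
      rw [Pi.sub_apply, abs_le]
      have := hp' j
      have := hq' j
      constructor <;> omega
    have h2 : |(((p - q) j : ℤ) : ℝ)| ≤ B := by exact_mod_cast h1
    have h3 : 7 * (N : ℝ) * K / ε = 7 * x := by rw [hx]; ring
    rw [h3]; linarith
  · have h1 := congrFun hpq i
    have h2 := cell_close hε (congrArg Prod.fst h1) (congrArg Prod.snd h1)
    have h3 : ∑ j, (((p - q) j : ℤ) : ℂ) * a i j = F p i - F q i := by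
      simp only [F, ← Finset.sum_sub_distrib, Pi.sub_apply, Int.cast_sub, sub_mul]
    rw [h3]; exact h2

/-- subdivision of a disc into small squares -/
theorem grid (S : Finset ℂ) (z : ℂ) {R r Q : ℝ} (hR : 0 ≤ R) (hr : 0 < r)
    (hS : ∀ s ∈ S, ‖s - z‖ ≤ R)
    (hQ : ∀ S' ⊆ S, (∀ s ∈ S', ∀ s' ∈ S', ‖s - s'‖ < r) → (S'.card : ℝ) ≤ Q) :
    (S.card : ℝ) ≤ (4 * R / r + 2) ^ 2 * Q := by
  classical
  have hQ0 : 0 ≤ Q := by simpa using hQ ∅ (Finset.empty_subset _) (by simp)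
  let I := Finset.Icc ⌊-(2 * R / r)⌋ ⌊2 * R / r⌋
  let f : ℂ → ℤ × ℤ := fun s ↦ (⌊2 * (s - z).re / r⌋, ⌊2 * (s - z).im / r⌋)
  have hmap : Set.MapsTo f S (I ×ˢ I : Finset (ℤ × ℤ)) := fun s hs ↦
    Finset.mem_product.2 ⟨floor_mem hr ((Complex.abs_re_le_norm _).trans (hS s hs)),
      floor_mem hr ((Complex.abs_im_le_norm _).trans (hS s hs))⟩
  rw [Finset.card_eq_sum_card_fiberwise hmap, Nat.cast_sum]
  have h1 : ∀ c ∈ I ×ˢ I, ((S.filter fun s ↦ f s = c).card : ℝ) ≤ Q := fun c _ ↦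
    hQ _ (Finset.filter_subset _ _) fun s hs s' hs' ↦ by
      have h2 := (Finset.mem_filter.1 hs).2.trans (Finset.mem_filter.1 hs').2.symm
      have h3 := cell_close hr (congrArg Prod.fst h2) (congrArg Prod.snd h2)
      rwa [sub_sub_sub_cancel_right] at h3
  refine (Finset.sum_le_card_nsmul _ _ _ h1).trans ?_
  rw [nsmul_eq_mul, Finset.card_product, Nat.cast_mul, sq]
  have h4 : (I.card : ℝ) ≤ 4 * R / r + 2 := card_cells hR hr
  gcongr

/-- bootstrap lemmas -/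
theorem boot_log (C k : ℕ) : ∃ C' : ℕ, ∀ (x : ℝ) (a : ℕ), 0 ≤ x → 1 ≤ a →
    x ≤ C * (a + Real.log (1 + x) + 1) ^ k → x ≤ C' * (a : ℝ) ^ k := by
  set G : ℝ := C * 2 ^ k * Real.exp 1 with hG
  have hG0 : 0 ≤ G := by positivity
  have h1 := (Real.isLittleO_pow_log_id_atTop (n := k)).def (c := (2 * G + 1)⁻¹) (by positivity)
  obtain ⟨y0, hy0⟩ := eventually_atTop.1 h1
  refine ⟨C * 2 ^ k + ⌈y0⌉₊ + 1, fun x a hx ha h ↦ ?_⟩
  have ha' : (1 : ℝ) ≤ a := by exact_mod_cast ha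
  have hak : (1 : ℝ) ≤ (a : ℝ) ^ k := one_le_pow₀ ha'
  have hl : 0 ≤ Real.log (1 + x) := Real.log_nonneg (by linarith)
  have hc0 : (0 : ℝ) ≤ ⌈y0⌉₊ := Nat.cast_nonneg _
  have hc1 : (0 : ℝ) ≤ C * 2 ^ k := by positivity
  push_cast
  rcases le_total (Real.log (1 + x) + 1) a with h2 | h2
  · have h3 : (a + Real.log (1 + x) + 1) ^ k ≤ (2 * a) ^ k := by
      gcongr; linarith
    rw [mul_pow] at h3
    have h4 : x ≤ C * (2 ^ k * (a : ℝ) ^ k) := h.trans (by gcongr)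
    nlinarith
  · have he : 1 ≤ Real.exp 1 := Real.one_le_exp zero_le_one
    have h3 : x ≤ ⌈y0⌉₊ + 1 := by
      rcases le_total y0 (Real.exp 1 * (1 + x)) with h4 | h4
      · have h5 := hy0 _ h4
        have h6 : Real.log (Real.exp 1 * (1 + x)) = Real.log (1 + x) + 1 := by
          rw [Real.log_mul (by positivity) (by positivity), Real.log_exp, add_comm]
        rw [h6, id, Real.norm_of_nonneg (by positivity), Real.norm_of_nonneg (by positivity)] at h5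
        have h7 : (a + Real.log (1 + x) + 1) ^ k ≤ (2 * (Real.log (1 + x) + 1)) ^ k := by
          gcongr; linarith
        rw [mul_pow] at h7
        have h8 : x ≤ C * (2 ^ k * ((2 * G + 1)⁻¹ * (Real.exp 1 * (1 + x)))) :=
          h.trans ((mul_le_mul_of_nonneg_left h7 (Nat.cast_nonneg _)).trans (by gcongr))
        have h9 : C * (2 ^ k * ((2 * G + 1)⁻¹ * (Real.exp 1 * (1 + x)))) =
            G / (2 * G + 1) * (1 + x) := by rw [hG]; field_simp
        have h10 : G / (2 * G + 1) ≤ 1 / 2 := by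
          rw [div_le_iff₀ (by positivity)]; linarith
        rw [h9] at h8
        nlinarith
      · have := Nat.le_ceil y0
        nlinarith
    nlinarith

end Pool.Agent.Lib.ZP3
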