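import Pool.Agent.Lib.ZP3.Defs2
import Pool.Agent.Lib.ZP3.Arith

/-! Block SM1: arithmetic of small algebraic numbers. -/

open UpperHalfPlane Filter Topology Metric
open scoped Real MatrixGroups

namespace Pool.Agent.Lib.ZP3

open Pool.Agent.Lib.MP_0704bf_ag Pool.Agent.Lib.helper6

namespace SM1

open Arith

theorem deg_natMul {z : ℂ} {D : ℕ} (h : Deg z D) (d : ℕ) : Deg (d * z) D :=
  h.map (fun x ↦ d * x) fun σ ↦ by simp

theorem isIntegral_nat (d : ℕ) : IsIntegral ℤ (d : ℂ) := by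
  have := isIntegral_algebraMap (R := ℤ) (A := ℂ) (x := (d : ℤ))
  simpa using this

theorem exp_le_exp_nat {a b : ℕ} (h : a ≤ b) : Real.exp a ≤ Real.exp b :=
  Real.exp_le_exp.2 (by exact_mod_cast h)

theorem one_le_cast {d : ℕ} (hd : 0 < d) : (1 : ℝ) ≤ d := by exact_mod_cast hd

/-- a nonzero algebraic integer divides a small positive integer, with a small cofactor -/
theorem cofactor {z : ℂ} {D : ℕ} {B : ℝ} (hi : IsIntegral ℤ z) (h0 : z ≠ 0) (hD : Deg z D)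
    (hB : 1 ≤ B) (hb : ∀ σ : ℂ →+* ℂ, ‖σ z‖ ≤ B) :
    ∃ (N : ℕ) (u : ℂ), 0 < N ∧ (N : ℝ) ≤ B ^ D ∧ IsIntegral ℤ u ∧ u * z = N ∧
      ∀ σ : ℂ →+* ℂ, ‖σ u‖ ≤ B ^ D := by
  classical
  have hq : IsIntegral ℚ z := hi.tower_top
  set P := (minpoly ℚ z).map (algebraMap ℚ ℂ) with hP
  have hm : P.Monic := (minpoly.monic hq).map _
  have hnd : P.roots.Nodup := Polynomial.nodup_roots (minpoly.irreducible hq).separable.map
  obtain ⟨E, hE, hE'⟩ := hD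
  have hcard : Multiset.card P.roots ≤ D := by
    rw [← Multiset.toFinset_card_of_nodup hnd]
    refine (Finset.card_le_card fun w hw ↦ ?_).trans hE
    obtain ⟨σ, rfl⟩ := root_conj hq.isAlgebraic (Multiset.mem_toFinset.1 hw)
    exact hE' σ
  have hz : ∀ σ : ℂ →+* ℂ, σ z ∈ P.roots := fun σ ↦ Polynomial.mem_aroots.2
    ⟨minpoly.ne_zero hq, by rw [aeval_conj, minpoly.aeval, map_zero]⟩
  set c : ℤ := (minpoly ℤ z).coeff 0 with hc
  have hc1 : P.coeff 0 = c := by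
    rw [hP, Polynomial.coeff_map, minpoly.isIntegrallyClosed_eq_field_fractions' ℚ hi,
      Polynomial.coeff_map]
    simp [hc]
  have hc0 : c ≠ 0 := by
    have h3 : (minpoly ℚ z).coeff 0 ≠ 0 := minpoly.coeff_zero_ne_zero hq h0
    rw [minpoly.isIntegrallyClosed_eq_field_fractions' ℚ hi, Polynomial.coeff_map] at h3
    exact fun h ↦ h3 (by rw [← hc, h, map_zero])
  have hroot : ∀ w ∈ P.roots, ‖w‖ ≤ B := fun w hw ↦ by
    obtain ⟨σ, rfl⟩ := root_conj hq.isAlgebraic hw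
    exact hb σ
  have h1 : ∀ w ∈ P.roots, (-1) ^ P.natDegree * (P.roots.erase w).prod * w = c := fun w hw ↦ by
    rw [← hc1, (IsAlgClosed.splits P).coeff_zero_eq_prod_roots_of_monic hm,
      ← Multiset.prod_erase hw]
    ring
  have h3 : ∀ w, ‖(P.roots.erase w).prod‖ ≤ B ^ D := fun w ↦
    (prod_norm_le _ (B := B) fun x hx ↦ hroot x (Multiset.mem_of_mem_erase hx)).trans
      (pow_le_pow_right₀ hB ((Multiset.card_le_card (Multiset.erase_le _ _)).trans hcard))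
  have hcB : |(c : ℝ)| ≤ B ^ D := by
    have h4 : ‖(c : ℂ)‖ = ‖P.roots.prod‖ := by
      rw [← hc1, (IsAlgClosed.splits P).coeff_zero_eq_prod_roots_of_monic hm]
      simp
    rw [← Complex.norm_intCast, h4]
    exact (prod_norm_le _ hroot).trans (pow_le_pow_right₀ hB hcard)
  set u0 : ℂ := (-1) ^ P.natDegree * (P.roots.erase z).prod with hu0
  have hu0z : u0 * z = c := h1 z (hz (RingHom.id ℂ))
  have hu0i : IsIntegral ℤ u0 := by
    refine ((isIntegral_one.neg).pow _).mul ?_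
    refine Subalgebra.multiset_prod_mem (integralClosure ℤ ℂ) fun w hw ↦ ?_
    obtain ⟨σ, rfl⟩ := root_conj hq.isAlgebraic (Multiset.mem_of_mem_erase hw)
    exact isIntegral_conj σ hi
  have hu0b : ∀ σ : ℂ →+* ℂ, ‖σ u0‖ ≤ B ^ D := fun σ ↦ by
    have h5 : σ u0 * σ z = c := by rw [← map_mul, hu0z, map_intCast]
    have h6 := h1 _ (hz σ)
    have h7 : σ z ≠ 0 := (map_ne_zero σ).2 h0
    have h8 : σ u0 = (-1) ^ P.natDegree * (P.roots.erase (σ z)).prod :=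
      mul_right_cancel₀ h7 (h5.trans h6.symm)
    rw [h8, norm_mul]
    simpa using h3 (σ z)
  have hN : ((c.natAbs : ℕ) : ℝ) ≤ B ^ D := by
    rw [Nat.cast_natAbs]; exact_mod_cast hcB
  rcases Int.natAbs_eq c with h | h
  · refine ⟨c.natAbs, u0, Int.natAbs_pos.2 hc0, hN, hu0i, ?_, hu0b⟩
    rw [hu0z]
    conv_lhs => rw [h]
    simp
  · refine ⟨c.natAbs, -u0, Int.natAbs_pos.2 hc0, hN, hu0i.neg, ?_, fun σ ↦ by
      simpa using hu0b σ⟩
    rw [neg_mul, hu0z]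
    conv_lhs => rw [h]
    simp

theorem norm_natCast (p : ℕ) [Fact p.Prime] (n : ℕ) : ‖(n : ℂ_[p])‖ = ‖(n : ℚ_[p])‖ := by
  rw [← map_natCast (algebraMap ℚ_[p] ℂ_[p]), norm_algebraMap']

theorem norm_hom_le_one {p : ℕ} [Fact p.Prime] (ι : ℂ →+* ℂ_[p]) {z : ℂ} (hz : IsIntegral ℤ z) :
    ‖ι z‖ ≤ 1 :=
  norm_le_one_of_isIntegral (by
    convert isIntegral_conj ι hz
    exacts [rfl, Subsingleton.elim _ _])

end SM1

open SM1

section SM1
variable {y z : ℂ} {A A' : ℕ}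

theorem Sm.mono (h : Sm z A) (h' : A ≤ A') : Sm z A' := by
  obtain ⟨d, hd, hd', h⟩ := h
  exact ⟨d, hd, hd'.trans (exp_le_exp_nat h'), h.mono h'⟩

theorem Sm.one_le (h : Sm z A) : 1 ≤ A := by
  obtain ⟨d, -, -, h⟩ := h
  exact h.2.1.pos

theorem AI.sm (h : AI z A) : Sm z A :=
  ⟨1, one_pos, by simp, by simpa using h⟩

theorem sm_of_alg (h : IsAlgebraic ℚ z) : ∃ A, Sm z A := by
  obtain ⟨d, A, hd, h⟩ := exists_AI h
  refine ⟨max A d, d, hd, ?_, h.mono (le_max_left _ _)⟩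
  have h1 := Real.add_one_le_exp ((max A d : ℕ) : ℝ)
  have h2 : (d : ℝ) ≤ ((max A d : ℕ) : ℝ) := by exact_mod_cast le_max_right _ _
  linarith

theorem sm_int (n : ℤ) (hA : 1 ≤ A) (h : |(n : ℝ)| ≤ Real.exp A) : Sm n A := by
  refine AI.sm ⟨?_, (deg_int n).mono hA, fun σ ↦ by simpa using h⟩
  have := isIntegral_algebraMap (R := ℤ) (A := ℂ) (x := n)
  simpa using this

theorem Sm.deg (h : Sm z A) : Deg z A := by
  obtain ⟨d, hd, -, h⟩ := h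
  have hd0 : (d : ℂ) ≠ 0 := by exact_mod_cast hd.ne'
  exact h.2.1.map (fun x ↦ x / d) fun σ ↦ by
    rw [map_mul, map_natCast]; field_simp

theorem Sm.alg (h : Sm z A) : IsAlgebraic ℚ z := by
  obtain ⟨d, hd, -, h⟩ := h
  have hd0 : (d : ℂ) ≠ 0 := by exact_mod_cast hd.ne'
  have h1 : IsIntegral ℚ ((d : ℂ) * z) := h.1.tower_top
  have h2 : IsIntegral ℚ (algebraMap ℚ ℂ (d : ℚ)⁻¹) := isIntegral_algebraMap
  have h3 := h2.mul h1
  have h4 : algebraMap ℚ ℂ (d : ℚ)⁻¹ * ((d : ℂ) * z) = z := by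
    simp only [map_inv₀, map_natCast]; field_simp
  rw [h4] at h3
  exact h3.isAlgebraic

theorem Sm.conj (h : Sm z A) (σ : ℂ →+* ℂ) : Sm (σ z) A := by
  obtain ⟨d, hd, hd', h⟩ := h
  exact ⟨d, hd, hd', by simpa using h.conj σ⟩

theorem Sm.norm_le (h : Sm z A) : ‖z‖ ≤ Real.exp A := by
  obtain ⟨d, hd, -, h⟩ := h
  have h1 := h.2.2 (RingHom.id ℂ)
  rw [RingHom.id_apply, norm_mul, Complex.norm_natCast] at h1
  have h2 := one_le_cast hd
  nlinarith [norm_nonneg z]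

theorem Sm.neg (h : Sm z A) : Sm (-z) A := by
  obtain ⟨d, hd, hd', h⟩ := h
  refine ⟨d, hd, hd', ?_⟩
  rw [mul_neg]
  exact ⟨h.1.neg, h.2.1.neg, fun σ ↦ by simpa using h.2.2 σ⟩

theorem Sm.add (hy : Sm y A) (hz : Sm z A) : Sm (y + z) (3 * A ^ 2) := by
  have hA := hy.one_le
  have hdeg := hy.deg.add hz.deg
  obtain ⟨d1, hd1, hd1', h1⟩ := hy
  obtain ⟨d2, hd2, hd2', h2⟩ := hz
  have hA' : (1 : ℝ) ≤ A := by exact_mod_cast hA
  have e0 := Real.exp_pos (A : ℝ)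
  have e2 : 2 ≤ Real.exp A := by linarith [Real.add_one_le_exp (A : ℝ)]
  have e3 : Real.exp A * Real.exp A * Real.exp A ≤ Real.exp ((3 * A ^ 2 : ℕ) : ℝ) := by
    rw [← Real.exp_add, ← Real.exp_add, Real.exp_le_exp]
    push_cast
    nlinarith
  have e : ((d1 * d2 : ℕ) : ℂ) * (y + z) = d2 * (d1 * y) + d1 * (d2 * z) := by
    push_cast; ring
  refine ⟨d1 * d2, Nat.mul_pos hd1 hd2, ?_, ?_, (deg_natMul hdeg _).mono (by nlinarith),
    fun σ ↦ ?_⟩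
  · have : ((d1 * d2 : ℕ) : ℝ) ≤ Real.exp A * Real.exp A := by
      push_cast; gcongr
    nlinarith [mul_pos e0 e0]
  · rw [e]
    exact ((isIntegral_nat d2).mul h1.1).add ((isIntegral_nat d1).mul h2.1)
  · rw [e, map_add, map_mul σ (d2 : ℂ), map_mul σ (d1 : ℂ) (d2 * z), map_natCast, map_natCast]
    refine (norm_add_le _ _).trans ?_
    rw [norm_mul, norm_mul, Complex.norm_natCast, Complex.norm_natCast]
    have h3 : (d2 : ℝ) * ‖σ (d1 * y)‖ ≤ Real.exp A * Real.exp A := by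
      have := h1.2.2 σ
      gcongr
    have h4 : (d1 : ℝ) * ‖σ (d2 * z)‖ ≤ Real.exp A * Real.exp A := by
      have := h2.2.2 σ
      gcongr
    nlinarith [mul_pos e0 e0]

theorem Sm.sub (hy : Sm y A) (hz : Sm z A) : Sm (y - z) (3 * A ^ 2) := by
  rw [sub_eq_add_neg]; exact hy.add hz.neg

theorem Sm.mul (hy : Sm y A) (hz : Sm z A) : Sm (y * z) (2 * A ^ 2) := by
  have hA := hy.one_le
  obtain ⟨d1, hd1, hd1', h1⟩ := hy
  obtain ⟨d2, hd2, hd2', h2⟩ := hz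
  have hA' : (1 : ℝ) ≤ A := by exact_mod_cast hA
  have e0 := Real.exp_pos (A : ℝ)
  have e3 : Real.exp A * Real.exp A ≤ Real.exp ((2 * A ^ 2 : ℕ) : ℝ) := by
    rw [← Real.exp_add, Real.exp_le_exp]
    push_cast
    nlinarith
  have e : ((d1 * d2 : ℕ) : ℂ) * (y * z) = (d1 * y) * (d2 * z) := by
    push_cast; ring
  refine ⟨d1 * d2, Nat.mul_pos hd1 hd2, ?_, ?_⟩
  · refine le_trans ?_ e3
    push_cast; gcongr
  · rw [e]
    refine ⟨h1.1.mul h2.1, (h1.2.1.mul h2.2.1).mono (by nlinarith), fun σ ↦ le_trans ?_ e3⟩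
    rw [map_mul, norm_mul]
    have := h1.2.2 σ
    have := h2.2.2 σ
    gcongr

theorem Sm.inv (h : Sm z A) : Sm z⁻¹ (2 * A ^ 2) := by
  have hA := h.one_le
  have hA' : (1 : ℝ) ≤ A := by exact_mod_cast hA
  rcases eq_or_ne z 0 with rfl | h0
  · have := sm_int (A := 2 * A ^ 2) 0 (by nlinarith) (by simpa using (Real.exp_pos _).le)
    simpa using this
  have hdeg := h.deg.inv
  obtain ⟨d, hd, hd', h⟩ := h
  have hd0 : (d : ℂ) ≠ 0 := by exact_mod_cast hd.ne'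
  have e0 := Real.exp_pos (A : ℝ)
  have e1 : 1 ≤ Real.exp A := Real.one_le_exp (Nat.cast_nonneg A)
  obtain ⟨N, u, hN, hN', hu, huz, hub⟩ := cofactor h.1 (mul_ne_zero hd0 h0) h.2.1 e1 h.2.2
  have e3 : Real.exp A * Real.exp A ^ A ≤ Real.exp ((2 * A ^ 2 : ℕ) : ℝ) := by
    rw [← Real.exp_nat_mul, ← Real.exp_add, Real.exp_le_exp]
    push_cast
    nlinarith
  have e4 : 0 < Real.exp A ^ A := by positivity
  have e : (N : ℂ) * z⁻¹ = d * u := by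
    rw [← huz]; field_simp
  refine ⟨N, hN, by nlinarith, ?_, (deg_natMul hdeg _).mono (by nlinarith), fun σ ↦ ?_⟩
  · rw [e]; exact (isIntegral_nat d).mul hu
  · rw [e, map_mul, map_natCast, norm_mul, Complex.norm_natCast]
    refine le_trans ?_ e3
    have := hub σ
    gcongr

theorem Sm.div (hy : Sm y A) (hz : Sm z A) : Sm (y / z) (8 * A ^ 4) := by
  have hA := hy.one_le
  have := (hy.mono (A' := 2 * A ^ 2) (by nlinarith)).mul hz.inv
  rw [div_eq_mul_inv]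
  exact this.mono (le_of_eq (by ring))

theorem Sm.pow (h : Sm z A) {n : ℕ} (hn : 0 < n) : Sm (z ^ n) (n * A) := by
  obtain ⟨d, hd, hd', h⟩ := h
  have e3 : Real.exp A ^ n = Real.exp ((n * A : ℕ) : ℝ) := by
    rw [← Real.exp_nat_mul]; push_cast; rfl
  have e : ((d ^ n : ℕ) : ℂ) * z ^ n = (d * z) ^ n := by
    push_cast; ring
  refine ⟨d ^ n, by positivity, ?_, ?_⟩
  · rw [← e3]; push_cast; gcongr
  · rw [e]
    refine ⟨h.1.pow n, (h.2.1.pow n).mono (Nat.le_mul_of_pos_left _ hn), fun σ ↦ ?_⟩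
    rw [← e3, map_pow, norm_pow]
    have := h.2.2 σ
    gcongr

theorem Sm.root (h : Sm y A) {n : ℕ} (hn : 0 < n) (e : z ^ n = y) : Sm z (n * A) := by
  have hdeg := h.deg.root hn e
  obtain ⟨d, hd, hd', h⟩ := h
  obtain ⟨m, rfl⟩ : ∃ m, n = m + 1 := ⟨n - 1, by omega⟩
  have e1 : ((d : ℂ) * z) ^ (m + 1) = (d : ℂ) ^ m * (d * y) := by rw [← e]; ring
  have e2 : Real.exp A ≤ Real.exp (((m + 1) * A : ℕ) : ℝ) :=
    exp_le_exp_nat (Nat.le_mul_of_pos_left _ hn)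
  refine ⟨d, hd, hd'.trans e2, ?_, (deg_natMul hdeg _).mono (le_of_eq (mul_comm _ _)),
    fun σ ↦ le_trans ?_ e2⟩
  · refine IsIntegral.of_pow hn ?_
    rw [e1]; exact ((isIntegral_nat d).pow m).mul h.1
  · refine le_of_pow_le_pow_left₀ hn.ne' (Real.exp_pos _).le ?_
    rw [← norm_pow, ← map_pow, e1, map_mul, map_pow, map_natCast, norm_mul, norm_pow,
      Complex.norm_natCast, pow_succ]
    have := h.2.2 σ
    gcongr

theorem Sm.liouville (h : Sm z A) (h0 : z ≠ 0) : Real.exp (-(2 * (A : ℝ) ^ 2)) ≤ ‖z‖ := by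
  have h1 := h.inv.norm_le
  have h2 : 0 < ‖z‖ := norm_pos_iff.2 h0
  rw [norm_inv] at h1
  push_cast at h1
  rw [Real.exp_neg]
  exact inv_le_of_inv_le₀ h2 h1

theorem padic_liouville {D : ℕ} {B : ℝ} (hi : IsIntegral ℤ z) (h0 : z ≠ 0) (hD : Deg z D)
    (hB : 1 ≤ B) (hb : ∀ σ : ℂ →+* ℂ, ‖σ z‖ ≤ B) : ∃ d : ℕ, 0 < d ∧ (d : ℝ) ≤ B ^ D ∧
      ∀ (p : ℕ) [Fact p.Prime] (ι : ℂ →+* ℂ_[p]), ‖(d : ℂ_[p])‖ ≤ ‖ι z‖ := by
  obtain ⟨N, u, hN, hN', hu, huz, -⟩ := cofactor hi h0 hD hB hb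
  refine ⟨N, hN, hN', fun p _ ι ↦ ?_⟩
  have h1 : ‖ι u‖ ≤ 1 := norm_hom_le_one ι hu
  rw [← map_natCast ι, ← huz, map_mul, norm_mul]
  exact mul_le_of_le_one_left (norm_nonneg _) h1

theorem Sm.padic (h : Sm z A) (h0 : z ≠ 0) : ∃ d : ℕ, 0 < d ∧ (d : ℝ) ≤ Real.exp (2 * A ^ 2) ∧
    ∀ (p : ℕ) [Fact p.Prime] (ι : ℂ →+* ℂ_[p]), ‖(d : ℂ_[p])‖ ≤ ‖ι z‖ := by
  obtain ⟨d, hd, hd', h⟩ := h.inv
  refine ⟨d, hd, by simpa using hd', fun p _ ι ↦ ?_⟩
  have h1 : ‖ι (d * z⁻¹)‖ ≤ 1 := norm_hom_le_one ι h.1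
  have h2 : 0 < ‖ι z‖ := norm_pos_iff.2 ((map_ne_zero ι).2 h0)
  rwa [map_mul, map_natCast, map_inv₀, norm_mul, norm_inv, ← div_eq_mul_inv, div_le_one h2] at h1

theorem norm_natCast_ge (p : ℕ) [Fact p.Prime] {d : ℕ} (hd : 0 < d) :
    (d : ℝ)⁻¹ ≤ ‖(d : ℂ_[p])‖ := by
  have hp : p.Prime := Fact.out
  obtain ⟨k, m, hm, rfl⟩ := Nat.exists_eq_pow_mul_and_not_dvd hd.ne' p hp.one_lt.ne'
  have hm0 : 0 < m := Nat.pos_of_mul_pos_left hd
  have h1 : ‖(m : ℚ_[p])‖ = 1 := by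
    rw [Padic.norm_natCast_eq_one_iff]
    exact (Nat.Prime.coprime_iff_not_dvd hp).2 hm
  rw [SM1.norm_natCast]
  push_cast
  rw [norm_mul, norm_pow, Padic.norm_p, h1, mul_one, mul_inv, inv_pow]
  have h2 : ((m : ℝ))⁻¹ ≤ 1 := inv_le_one_of_one_le₀ (one_le_cast hm0)
  exact mul_le_of_le_one_right (by positivity) h2

theorem norm_natCast_le_half {p : ℕ} [Fact p.Prime] {d : ℕ} (h : ‖(d : ℂ_[p])‖ < 1) :
    p ∣ d ∧ ‖(d : ℂ_[p])‖ ≤ 1 / 2 := by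
  have hp : p.Prime := Fact.out
  rw [SM1.norm_natCast] at h ⊢
  have h1 : p ∣ d := Padic.norm_natCast_lt_one_iff.1 h
  refine ⟨h1, ?_⟩
  obtain ⟨m, rfl⟩ := h1
  push_cast
  rw [norm_mul, Padic.norm_p]
  have h2 : ‖(m : ℚ_[p])‖ ≤ 1 := IsUltrametricDist.norm_natCast_le_one _ _
  have h3 : (2 : ℝ) ≤ p := by exact_mod_cast hp.two_le
  have h4 : (p : ℝ)⁻¹ ≤ 1 / 2 := by
    rw [one_div]; exact inv_anti₀ two_pos h3
  exact (mul_le_of_le_one_right (by positivity) h2).trans h4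

theorem Sm.padic_le (h : Sm z A) {p : ℕ} [Fact p.Prime] (ι : ℂ →+* ℂ_[p]) :
    ‖ι z‖ ≤ Real.exp A := by
  obtain ⟨d, hd, hd', h⟩ := h
  have h1 : ‖ι (d * z)‖ ≤ 1 := norm_hom_le_one ι h.1
  rw [map_mul, map_natCast, norm_mul] at h1
  have h2 := norm_natCast_ge p hd
  have h3 : (0 : ℝ) < d := by exact_mod_cast hd
  have h4 : (d : ℝ)⁻¹ * ‖ι z‖ ≤ 1 := (mul_le_mul_of_nonneg_right h2 (norm_nonneg _)).trans h1
  rw [inv_mul_le_iff₀ h3, mul_one] at h4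
  exact h4.trans hd'

theorem sm_of_bounds {d : ℕ} (hz : IsAlgebraic ℚ z) (hD : Deg z A) (hd : 0 < d)
    (hd' : (d : ℝ) ≤ Real.exp A)
    (hp : ∀ (p : ℕ) [Fact p.Prime] (ι : ℂ →+* ℂ_[p]), ‖(d : ℂ_[p])‖ * ‖ι z‖ ≤ 1)
    (hb : ∀ σ : ℂ →+* ℂ, ‖σ z‖ ≤ Real.exp A) : Sm z (2 * A) := by
  have e3 : Real.exp A * Real.exp A = Real.exp ((2 * A : ℕ) : ℝ) := by
    rw [← Real.exp_add]; push_cast; ring_nf
  refine ⟨d, hd, hd'.trans (exp_le_exp_nat (by omega)), ?_, (deg_natMul hD _).mono (by omega),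
    fun σ ↦ ?_⟩
  · refine isIntegral_of_padic ?_ fun p _ ι ↦ ?_
    · exact (((isIntegral_nat d).tower_top (A := ℚ)).mul hz.isIntegral).isAlgebraic
    · rw [map_mul, map_natCast, norm_mul]; exact hp p ι
  · rw [← e3, map_mul, map_natCast, norm_mul, Complex.norm_natCast]
    have := hb σ
    gcongr

end SM1

end Pool.Agent.Lib.ZP3
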