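import Mathlib

/-! Block BAN, part 1: Taylor coefficients, two-variable analyticity, periodic approximation. -/

open Filter Topology Metric
open scoped Real

namespace Pool.Agent.Lib.ZP3.BAN

/-- normalised Taylor coefficient at the origin -/
noncomputable def tc (f : ℂ → ℂ) (j : ℕ) : ℂ := iteratedDeriv j f 0 / j.factorial

lemma tc_congr {f g : ℂ → ℂ} (h : f =ᶠ[𝓝 0] g) (n : ℕ) : tc f n = tc g n := by
  unfold tc
  rw [h.iteratedDeriv_eq n]

lemma tc_mul {f g : ℂ → ℂ} (hf : AnalyticAt ℂ f 0) (hg : AnalyticAt ℂ g 0) (n : ℕ) :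
    tc (fun y ↦ f y * g y) n = ∑ i ∈ Finset.range (n + 1), tc f i * tc g (n - i) := by
  unfold tc
  rw [iteratedDeriv_fun_mul hf.contDiffAt hg.contDiffAt, Finset.sum_div]
  refine Finset.sum_congr rfl fun i hi ↦ ?_
  have hi' : i ≤ n := Nat.lt_succ_iff.1 (Finset.mem_range.1 hi)
  have h1 : ((n.choose i : ℕ) : ℂ) * i.factorial * (n - i).factorial = n.factorial := by
    exact_mod_cast Nat.choose_mul_factorial_mul_factorial hi'
  have h2 : (i.factorial : ℂ) ≠ 0 := by exact_mod_cast i.factorial_ne_zero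
  have h3 : ((n - i).factorial : ℂ) ≠ 0 := by exact_mod_cast (n - i).factorial_ne_zero
  have h4 : ((n.choose i : ℕ) : ℂ) ≠ 0 := by exact_mod_cast (Nat.choose_pos hi').ne'
  rw [← h1]
  field_simp

lemma cauchy {f : ℂ → ℂ} {r C : ℝ} (hr : 0 < r) (hf : ∀ y, ‖y‖ ≤ r → AnalyticAt ℂ f y)
    (hC : ∀ y, ‖y‖ ≤ r → ‖f y‖ ≤ C) (n : ℕ) :
    ‖iteratedDeriv n f 0‖ ≤ n.factorial * C / r ^ n := by
  refine Complex.norm_iteratedDeriv_le_of_forall_mem_sphere_norm_le n hr ?_ ?_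
  · refine DifferentiableOn.diffContOnCl ?_
    rw [closure_ball _ hr.ne']
    intro y hy
    exact (hf y (by simpa using hy)).differentiableAt.differentiableWithinAt
  · intro y hy
    exact hC y (by simpa using (mem_sphere_iff_norm.1 hy).le)

lemma tc_bound {f : ℂ → ℂ} {r C : ℝ} (hr : 0 < r) (hf : ∀ y, ‖y‖ ≤ r → AnalyticAt ℂ f y)
    (hC : ∀ y, ‖y‖ ≤ r → ‖f y‖ ≤ C) (n : ℕ) : ‖tc f n‖ ≤ C / r ^ n := by
  have h := cauchy hr hf hC n
  have h2 : (0 : ℝ) < n.factorial := by exact_mod_cast n.factorial_pos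
  unfold tc
  rw [norm_div, Complex.norm_natCast, div_le_iff₀ h2]
  calc _ ≤ _ := h
    _ = _ := by ring

lemma analytic_iter {H : ℂ × ℂ → ℂ} (j : ℕ) : ∀ {q0 : ℂ × ℂ}, AnalyticAt ℂ H q0 →
    AnalyticAt ℂ (fun q : ℂ × ℂ ↦ iteratedDeriv j (fun y ↦ H (q.1, y)) q.2) q0 := by
  induction j with
  | zero => intro q0 h; simpa using h
  | succ j ih =>
    intro q0 h
    have h1 := ih h
    set Hj : ℂ × ℂ → ℂ := fun q ↦ iteratedDeriv j (fun y ↦ H (q.1, y)) q.2 with hHj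
    have h2 : AnalyticAt ℂ (fun q ↦ fderiv ℂ Hj q (0, 1)) q0 :=
      (ContinuousLinearMap.apply ℂ ℂ ((0 : ℂ), (1 : ℂ))).analyticAt _ |>.comp h1.fderiv
    refine h2.congr ?_
    filter_upwards [h1.eventually_analyticAt] with q hq
    rw [iteratedDeriv_succ]
    have h3 : HasDerivAt (fun y : ℂ ↦ (q.1, y)) ((0 : ℂ), (1 : ℂ)) q.2 :=
      (hasDerivAt_const _ _).prodMk (hasDerivAt_id _)
    have h4 : HasFDerivAt Hj (fderiv ℂ Hj q) (q.1, q.2) := hq.differentiableAt.hasFDerivAt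
    have h5 := h4.comp_hasDerivAt q.2 h3
    exact h5.deriv.symm

lemma analytic_tc {H : ℂ × ℂ → ℂ} {s0 : ℂ} (hH : AnalyticAt ℂ H (s0, 0)) (j : ℕ) :
    AnalyticAt ℂ (fun s ↦ tc (fun y ↦ H (s, y)) j) s0 := by
  have h1 := analytic_iter j hH
  have h2 : AnalyticAt ℂ (fun s : ℂ ↦ (s, (0 : ℂ))) s0 := analyticAt_id.prod analyticAt_const
  have h3 := AnalyticAt.comp (g := fun q : ℂ × ℂ ↦ iteratedDeriv j (fun y ↦ H (q.1, y)) q.2)
    (f := fun s : ℂ ↦ (s, (0 : ℂ))) (x := s0) h1 h2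
  unfold tc
  exact h3.div_const

lemma analytic_slice {H : ℂ × ℂ → ℂ} {s y : ℂ} (hH : AnalyticAt ℂ H (s, y)) :
    AnalyticAt ℂ (fun y ↦ H (s, y)) y :=
  AnalyticAt.comp (g := H) (f := fun y : ℂ ↦ (s, y)) (x := y) hH
    (analyticAt_const.prod analyticAt_id)

lemma tc_pow_mul {g : ℂ → ℂ} (hg : AnalyticAt ℂ g 0) (n : ℕ) :
    tc (fun s ↦ s ^ n * g s) n = g 0 := by
  rw [tc_mul (by fun_prop) hg, Finset.sum_eq_single n]
  · have h2 : (n.factorial : ℂ) ≠ 0 := by exact_mod_cast n.factorial_ne_zero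
    simp [tc, Nat.descFactorial_self, h2]
  · intro i _ hi
    simp only [tc]
    rw [iteratedDeriv_fun_pow_zero, if_neg hi]
    simp
  · intro h
    simp at h

/-- the periodic local parameter -/
noncomputable def E (s : ℂ) : ℂ := (Complex.exp (2 * π * Complex.I * s) - 1) / (2 * π * Complex.I)

lemma E_analytic (s : ℂ) : AnalyticAt ℂ E s := by
  unfold E
  fun_prop

lemma E_per (s : ℂ) : E (s + 1) = E s := by
  unfold E
  rw [mul_add, mul_one, Complex.exp_add, Complex.exp_two_pi_mul_I, mul_one]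

lemma E_bound {s : ℂ} {ρ : ℝ} (hs : ‖s‖ ≤ ρ) : ‖E s‖ ≤ Real.exp (7 * ρ) := by
  have hρ : 0 ≤ ρ := (norm_nonneg _).trans hs
  have hπ : π < 3.15 := Real.pi_lt_d2
  have hπ' : 3 < π := Real.pi_gt_three
  have hn : ‖(2 * π * Complex.I : ℂ)‖ = 2 * π := by
    simp [abs_of_pos Real.pi_pos]
  have h1 : ‖Complex.exp (2 * π * Complex.I * s)‖ ≤ Real.exp (7 * ρ) := by
    refine (Complex.norm_exp_le_exp_norm _).trans (Real.exp_le_exp.2 ?_)
    rw [norm_mul, hn]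
    nlinarith [norm_nonneg s]
  have h2 : 1 ≤ Real.exp (7 * ρ) := Real.one_le_exp (by positivity)
  unfold E
  rw [norm_div, hn, div_le_iff₀ (by positivity)]
  calc _ ≤ ‖Complex.exp (2 * π * Complex.I * s)‖ + ‖(1 : ℂ)‖ := norm_sub_le _ _
    _ ≤ Real.exp (7 * ρ) + Real.exp (7 * ρ) := by
      rw [norm_one]; linarith
    _ ≤ _ := by nlinarith

lemma E_fac : ∃ E1 : ℂ → ℂ, AnalyticAt ℂ E1 0 ∧ E1 0 = 1 ∧ ∀ s, E s = s * E1 s := by
  obtain ⟨p, hp⟩ := E_analytic 0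
  refine ⟨dslope E 0, hp.has_fpower_series_dslope_fslope.analyticAt, ?_, fun s ↦ ?_⟩
  · rw [dslope_same]
    have hne : (2 * π * Complex.I : ℂ) ≠ 0 := Complex.two_pi_I_ne_zero
    have h1 : HasDerivAt (fun s : ℂ ↦ 2 * π * Complex.I * s) (2 * π * Complex.I * 1) 0 :=
      (hasDerivAt_id (0 : ℂ)).const_mul _
    have h2 := ((h1.cexp).sub_const 1).div_const (2 * π * Complex.I)
    have h3 : HasDerivAt E _ 0 := h2
    rw [h3.deriv]
    simp only [mul_zero, Complex.exp_zero, one_mul, mul_one]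
    exact div_self hne
  · have h := sub_smul_dslope E 0 s
    have h0 : E 0 = 0 := by simp [E]
    rw [h0] at h
    simpa using h.symm

lemma approx {φ : ℂ → ℂ} (hφ : AnalyticAt ℂ φ 0) {η : ℝ} (hη : 0 ≤ η) (T : ℕ)
    (h : ∀ k < T, ‖tc φ k‖ ≤ η) :
    ∃ ψ : ℂ → ℂ, (∀ s, AnalyticAt ℂ ψ s) ∧ (∀ s, ψ (s + 1) = ψ s) ∧
      (∃ g, AnalyticAt ℂ g 0 ∧ ∀ᶠ s in 𝓝 0, φ s - ψ s = s ^ T * g s) ∧
      ∀ ρ : ℝ, ∀ s, ‖s‖ ≤ ρ → ‖ψ s‖ ≤ η * Real.exp (4 * T ^ 2) * Real.exp (7 * T * ρ) := by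
  induction T with
  | zero =>
    refine ⟨fun _ ↦ 0, fun _ ↦ analyticAt_const, fun _ ↦ rfl, ⟨φ, hφ, by simp⟩, ?_⟩
    intro ρ s _
    simp [hη]
  | succ T ih =>
    obtain ⟨ψ, hψ, hper, ⟨g, hg, hfac⟩, hb⟩ := ih fun k hk ↦ h k (by omega)
    obtain ⟨E1, hE1, hE10, hE⟩ := E_fac
    have ha : g 0 = tc φ T - tc ψ T := by
      rw [← tc_pow_mul hg T, ← tc_congr hfac T]
      unfold tc
      rw [iteratedDeriv_fun_sub hφ.contDiffAt (hψ 0).contDiffAt, sub_div]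
    have hψT : ‖tc ψ T‖ ≤ η * Real.exp (4 * T ^ 2) * Real.exp (7 * T) := by
      have := tc_bound one_pos (fun y _ ↦ hψ y) (fun y hy ↦ hb 1 y hy) T
      simpa using this
    have hga : ‖g 0‖ ≤ η + η * Real.exp (4 * T ^ 2) * Real.exp (7 * T) := by
      rw [ha]
      exact (norm_sub_le _ _).trans (add_le_add (h T (by omega)) hψT)
    refine ⟨fun s ↦ ψ s + g 0 * E s ^ T, fun s ↦ ?_, fun s ↦ ?_, ?_, ?_⟩
    · exact (hψ s).add (analyticAt_const.mul ((E_analytic s).pow T))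
    · simp only [hper, E_per]
    · have hg2 : AnalyticAt ℂ (fun s ↦ g s - g 0 * E1 s ^ T) 0 :=
        hg.sub (analyticAt_const.mul (hE1.pow T))
      obtain ⟨q, hq⟩ := hg2
      refine ⟨dslope (fun s ↦ g s - g 0 * E1 s ^ T) 0,
        hq.has_fpower_series_dslope_fslope.analyticAt, ?_⟩
      filter_upwards [hfac] with s hs
      have h1 := sub_smul_dslope (fun s ↦ g s - g 0 * E1 s ^ T) 0 s
      simp only [hE10, one_pow, mul_one, sub_self, sub_zero, smul_eq_mul] at h1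
      rw [pow_succ, mul_assoc, h1, hE s, mul_pow]
      linear_combination hs
    · intro ρ s hs
      have hρ : 0 ≤ ρ := (norm_nonneg _).trans hs
      have hT : (0 : ℝ) ≤ T := Nat.cast_nonneg T
      have h1 : ‖E s ^ T‖ ≤ Real.exp (7 * T * ρ) := by
        rw [norm_pow]
        calc _ ≤ Real.exp (7 * ρ) ^ T := pow_le_pow_left₀ (norm_nonneg _) (E_bound hs) T
          _ = _ := by rw [← Real.exp_nat_mul]; congr 1; ring
      have h2 : Real.exp (7 * T * ρ) ≤ Real.exp (7 * ((T + 1 : ℕ) : ℝ) * ρ) := by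
        refine Real.exp_le_exp.2 ?_
        push_cast
        nlinarith
      have h3 : Real.exp (4 * T ^ 2) + (1 + Real.exp (4 * T ^ 2) * Real.exp (7 * T)) ≤
          Real.exp (4 * ((T + 1 : ℕ) : ℝ) ^ 2) := by
        have e1 : 1 ≤ Real.exp (4 * (T : ℝ) ^ 2) := Real.one_le_exp (by positivity)
        have e2 : 1 ≤ Real.exp (7 * (T : ℝ)) := Real.one_le_exp (by positivity)
        have e3 : Real.exp (4 * ((T + 1 : ℕ) : ℝ) ^ 2) =
            Real.exp (4 * T ^ 2) * Real.exp (7 * T) * Real.exp (T + 4) := by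
          rw [← Real.exp_add, ← Real.exp_add]
          congr 1
          push_cast
          ring
        have e4 : 3 ≤ Real.exp ((T : ℝ) + 4) := by
          have := Real.add_one_le_exp ((T : ℝ) + 4)
          linarith
        rw [e3]
        have e5 : 1 ≤ Real.exp (4 * (T : ℝ) ^ 2) * Real.exp (7 * T) := by nlinarith
        nlinarith
      calc ‖ψ s + g 0 * E s ^ T‖ ≤ ‖ψ s‖ + ‖g 0‖ * ‖E s ^ T‖ := by
            rw [← norm_mul]; exact norm_add_le _ _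
        _ ≤ η * Real.exp (4 * T ^ 2) * Real.exp (7 * T * ρ) +
            (η + η * Real.exp (4 * T ^ 2) * Real.exp (7 * T)) * Real.exp (7 * T * ρ) := by
            gcongr
            exact hb ρ s hs
        _ = η * (Real.exp (4 * T ^ 2) + (1 + Real.exp (4 * T ^ 2) * Real.exp (7 * T))) *
            Real.exp (7 * T * ρ) := by ring
        _ ≤ _ := by gcongr

end Pool.Agent.Lib.ZP3.BAN
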