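import Pool.Agent.Lib.ZP3.Defs2

/-! Linear algebra in the Lie algebra of traceless two by two matrices. -/

namespace Pool.Agent.Lib.ZP3

namespace AXG

open Matrix

theorem tr_zero {W : M2} (h : W.trace = 0) : W 1 1 = -W 0 0 := by
  rw [Matrix.trace_fin_two] at h
  linear_combination h

/-- the Gram identity -/
theorem gram {X Y W : M2} (hX : X.trace = 0) (hY : Y.trace = 0) (hW : W.trace = 0) :
    (2 * ((X * Y).trace ^ 2 - (X * X).trace * (Y * Y).trace)) • W =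
      (W * (X * Y - Y * X)).trace • (X * Y - Y * X) -
        (2 * ((Y * Y).trace * (X * W).trace - (X * Y).trace * (Y * W).trace)) • X -
        (2 * ((X * X).trace * (Y * W).trace - (X * Y).trace * (X * W).trace)) • Y := by
  have h1 := tr_zero hX
  have h2 := tr_zero hY
  have h3 := tr_zero hW
  ext i j
  fin_cases i <;> fin_cases j <;>
    simp [Matrix.trace_fin_two, Matrix.mul_apply, Fin.sum_univ_two, h1, h2, h3] <;> ring

/-- the double bracket -/
theorem dbl {U V W : M2} (hU : U.trace = 0) (hV : V.trace = 0) (hW : W.trace = 0) :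
    U * (V * W - W * V) - (V * W - W * V) * U =
      (2 * (U * V).trace) • W - (2 * (U * W).trace) • V := by
  have h1 := tr_zero hU
  have h2 := tr_zero hV
  have h3 := tr_zero hW
  ext i j
  fin_cases i <;> fin_cases j <;>
    simp [Matrix.trace_fin_two, Matrix.mul_apply, Fin.sum_univ_two, h1, h2, h3] <;> ring

theorem sq_zero {X : M2} (h : X * X = 0) : X.trace = 0 ∧ X 0 0 ^ 2 + X 0 1 * X 1 0 = 0 := by
  have h00 := congrFun (congrFun h 0) 0
  have h01 := congrFun (congrFun h 0) 1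
  have h10 := congrFun (congrFun h 1) 0
  have h11 := congrFun (congrFun h 1) 1
  simp only [Matrix.mul_apply, Fin.sum_univ_two, Matrix.zero_apply] at h00 h01 h10 h11
  refine ⟨?_, by linear_combination h00⟩
  rw [Matrix.trace_fin_two]
  have h3 : (X 0 0 + X 1 1) ^ 3 = 0 := by
    linear_combination (X 0 0 + 3 * X 1 1) * h00 + (3 * X 0 0 + X 1 1) * h11 - 4 * X 1 0 * h01
  exact pow_eq_zero_iff (by norm_num) |>.1 h3

theorem tr_ne {X Y : M2} (hX : X * X = 0) (hY : Y * Y = 0) (h : X * Y ≠ 0) : (X * Y).trace ≠ 0 := by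
  obtain ⟨h1, h2⟩ := sq_zero hX
  obtain ⟨h3, h4⟩ := sq_zero hY
  have h5 := tr_zero h1
  have h6 := tr_zero h3
  intro t
  apply h
  simp only [Matrix.trace_fin_two, Matrix.mul_apply, Fin.sum_univ_two, h5, h6] at t
  have e0 : X 0 0 * Y 0 0 + X 0 1 * Y 1 0 = 0 := by
    refine pow_eq_zero_iff (n := 2) (by norm_num) |>.1 ?_
    linear_combination (X 0 1 * Y 1 0) * t + (Y 0 0 ^ 2) * h2 - (X 0 1 * X 1 0) * h4
  ext i j
  fin_cases i <;> fin_cases j <;>
    simp only [Matrix.mul_apply, Fin.sum_univ_two, Matrix.zero_apply, h5, h6, Fin.zero_eta,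
      Fin.mk_one, Fin.isValue]
  · exact e0
  · refine pow_eq_zero_iff (n := 2) (by norm_num) |>.1 ?_
    linear_combination -(X 0 1 * Y 0 1) * t + (Y 0 1 ^ 2) * h2 + (X 0 1 ^ 2) * h4
  · refine pow_eq_zero_iff (n := 2) (by norm_num) |>.1 ?_
    linear_combination -(X 1 0 * Y 1 0) * t + (Y 1 0 ^ 2) * h2 + (X 1 0 ^ 2) * h4
  · linear_combination t - e0

/-- the standard basis -/
def eE : M2 := !![0, 1; 0, 0]
def eF : M2 := !![0, 0; 1, 0]
def eH : M2 := !![1, 0; 0, -1]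

theorem tr_eE : eE.trace = 0 := by simp [eE, Matrix.trace_fin_two]
theorem tr_eF : eF.trace = 0 := by simp [eF, Matrix.trace_fin_two]
theorem tr_eH : eH.trace = 0 := by simp [eH, Matrix.trace_fin_two]

theorem br_EF : eE * eF - eF * eE = eH := by
  ext i j; fin_cases i <;> fin_cases j <;> simp [eE, eF, eH]

theorem br_HE : eH * eE - eE * eH = (2 : ℂ) • eE := by
  ext i j
  fin_cases i <;> fin_cases j <;> simp [eE, eH]
  norm_num

theorem br_HF : eH * eF - eF * eH = (-2 : ℂ) • eF := by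
  ext i j
  fin_cases i <;> fin_cases j <;> simp [eF, eH]
  norm_num

theorem decomp {W : M2} (h : W.trace = 0) : W = W 0 1 • eE + W 1 0 • eF + W 0 0 • eH := by
  have h1 := tr_zero h
  ext i j
  fin_cases i <;> fin_cases j <;> simp [eE, eF, eH, h1]

theorem exists_tr {W : M2} (h : W.trace = 0) (h0 : W ≠ 0) :
    ∃ U : M2, U.trace = 0 ∧ (U * W).trace ≠ 0 := by
  by_contra hc
  push Not at hc
  have a1 := hc _ tr_eE
  have a2 := hc _ tr_eF
  have a3 := hc _ tr_eH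
  have h1 := tr_zero h
  simp only [Matrix.trace_fin_two, Matrix.mul_apply, Fin.sum_univ_two] at a1 a2 a3
  simp [eE, eF, eH, h1] at a1 a2 a3
  apply h0
  rw [decomp h, a1, a2, a3]
  simp

theorem tr_br (X Y : M2) : (X * Y - Y * X).trace = 0 := by
  rw [Matrix.trace_sub, Matrix.trace_mul_comm, sub_self]

/-- a triple is conjugate to the standard one -/
theorem inner {e f : M2} (he : e.trace = 0) (hf : f.trace = 0) (h0 : e ≠ 0)
    (h1 : (e * f - f * e) * e - e * (e * f - f * e) = (2 : ℂ) • e)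
    (h2 : (e * f - f * e) * f - f * (e * f - f * e) = (-2 : ℂ) • f) :
    ∃ g : M2, g.det ≠ 0 ∧ e * g = g * eE ∧ f * g = g * eF := by
  have d1 := dbl he he hf
  have d2 := dbl hf he hf
  have t1 : (e * e).trace = 0 := by
    have : ((2 : ℂ) • e * e).trace = 0 := by
      rw [← h1, sub_mul, Matrix.trace_sub, Matrix.trace_mul_comm (e * (e * f - f * e)) e,
        Matrix.mul_assoc, Matrix.trace_mul_comm, Matrix.mul_assoc, sub_self]
    simpa using this
  have t2 : (f * f).trace = 0 := by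
    have : ((-2 : ℂ) • f * f).trace = 0 := by
      rw [← h2, sub_mul, Matrix.trace_sub, Matrix.trace_mul_comm (f * (e * f - f * e)) f,
        Matrix.mul_assoc, Matrix.trace_mul_comm, Matrix.mul_assoc, sub_self]
    simpa using this
  have t3 : (e * f).trace = 1 := by
    rw [t1, ← neg_sub, h1] at d1
    have : (2 * (e * f).trace - 2) • e = 0 := by
      rw [sub_smul]
      simp only [mul_zero, zero_smul, zero_sub, neg_inj] at d1
      rw [d1, sub_self]
    rcases smul_eq_zero.1 this with h | h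
    · linear_combination h / 2
    · exact absurd h h0
  have a1 := tr_zero he
  have a2 := tr_zero hf
  simp only [Matrix.trace_fin_two, Matrix.mul_apply, Fin.sum_univ_two, a1, a2] at t1 t2 t3
  by_cases hc : e 1 0 = 0
  · have ha : e 0 0 = 0 := by
      refine pow_eq_zero_iff (n := 2) (by norm_num) |>.1 ?_
      linear_combination t1 / 2 - e 0 1 * hc
    have hb : e 0 1 ≠ 0 := by
      intro hb
      rw [ha, hb, hc] at t3
      simp at t3
    refine ⟨!![e 0 1, f 0 0 * e 0 1; 0, f 1 0 * e 0 1], ?_, ?_, ?_⟩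
    · rw [Matrix.det_fin_two_of]
      have : e 0 1 * (f 1 0 * e 0 1) - f 0 0 * e 0 1 * 0 = e 0 1 := by
        rw [ha, hc] at t3
        linear_combination e 0 1 * t3
      rw [this]
      exact hb
    · rw [ha, hc] at t3
      ext i j
      fin_cases i <;> fin_cases j <;>
        simp [eE, Matrix.mul_apply, Fin.sum_univ_two, a1, ha, hc]
      linear_combination e 0 1 * t3
    · ext i j
      fin_cases i <;> fin_cases j <;>
        simp [eF, Matrix.mul_apply, Fin.sum_univ_two, a2]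
      · linear_combination e 0 1 * t2 / 2
      · ring
  · refine ⟨!![e 0 0, f 0 0 * e 0 0 + f 0 1 * e 1 0; e 1 0, f 1 0 * e 0 0 - f 0 0 * e 1 0],
      ?_, ?_, ?_⟩
    · rw [Matrix.det_fin_two_of]
      have : e 0 0 * (f 1 0 * e 0 0 - f 0 0 * e 1 0) - (f 0 0 * e 0 0 + f 0 1 * e 1 0) * e 1 0 =
          -e 1 0 := by
        linear_combination f 1 0 * t1 / 2 - e 1 0 * t3
      rw [this]
      exact neg_ne_zero.2 hc
    · ext i j
      fin_cases i <;> fin_cases j <;>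
        simp [eE, Matrix.mul_apply, Fin.sum_univ_two, a1]
      · linear_combination t1 / 2
      · linear_combination e 0 0 * t3 - f 0 0 * t1 / 2
      · ring
      · linear_combination e 1 0 * t3 - f 1 0 * t1 / 2
    · ext i j
      fin_cases i <;> fin_cases j <;>
        simp [eF, Matrix.mul_apply, Fin.sum_univ_two, a2]
      · linear_combination e 0 0 * t2 / 2
      · ring
      · linear_combination e 1 0 * t2 / 2

end AXG

open AXG

theorem sl2_gen (𝔤 : Submodule ℂ M2) (hb : ∀ X ∈ 𝔤, ∀ Y ∈ 𝔤, X * Y - Y * X ∈ 𝔤) {X Y : M2}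
    (hX : X ∈ 𝔤) (hY : Y ∈ 𝔤) (hX2 : X * X = 0) (hY2 : Y * Y = 0) (hXY : X * Y ≠ 0) (W : M2)
    (hW : W.trace = 0) : W ∈ 𝔤 := by
  have h := gram (sq_zero hX2).1 (sq_zero hY2).1 hW
  have ht := tr_ne hX2 hY2 hXY
  have hne : 2 * ((X * Y).trace ^ 2 - (X * X).trace * (Y * Y).trace) ≠ 0 := by
    rw [hX2, Matrix.trace_zero, zero_mul, sub_zero]
    exact mul_ne_zero two_ne_zero (pow_ne_zero _ ht)
  rw [← 𝔤.smul_mem_iff hne, h]
  exact 𝔤.sub_mem (𝔤.sub_mem (𝔤.smul_mem _ (hb X hX Y hY)) (𝔤.smul_mem _ hX)) (𝔤.smul_mem _ hY)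

theorem comm_sl2 {g : M2} (h : ∀ W : M2, W.trace = 0 → W * g = g * W) : ∃ c : ℂ, g = c • 1 := by
  have h1 := h _ tr_eE
  have h2 := h _ tr_eF
  have a1 := congrFun (congrFun h1 0) 0
  have a2 := congrFun (congrFun h1 0) 1
  have a3 := congrFun (congrFun h2 0) 0
  simp [eE, eF, Matrix.mul_apply, Fin.sum_univ_two] at a1 a2 a3
  refine ⟨g 0 0, ?_⟩
  ext i j
  fin_cases i <;> fin_cases j <;> simp [a1, a2, ← a3]

namespace AXG

theorem comm_of {g D : M2} (hg : g.det ≠ 0) {P : M2 → Prop}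
    (hP : ∀ W : M2, W.trace = 0 → P W) (h : ∀ W, P W → ∃ W' : M2, W' * g = g * W ∧ W' * D = D * W) :
    ∃ c : ℂ, D = c • g := by
  have hu : IsUnit g.det := isUnit_iff_ne_zero.2 hg
  obtain ⟨c, hc⟩ := comm_sl2 (g := g⁻¹ * D) fun W hW ↦ by
    obtain ⟨W', h1, h2⟩ := h W (hP W hW)
    have h3 : W * g⁻¹ = g⁻¹ * W' := by
      calc W * g⁻¹ = g⁻¹ * (g * W) * g⁻¹ := by
            rw [← Matrix.mul_assoc, Matrix.nonsing_inv_mul _ hu, Matrix.one_mul]
        _ = g⁻¹ * W' := by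
            rw [← h1, Matrix.mul_assoc, Matrix.mul_assoc, Matrix.mul_nonsing_inv _ hu,
              Matrix.mul_one]
    rw [← Matrix.mul_assoc, h3, Matrix.mul_assoc, h2, Matrix.mul_assoc]
  refine ⟨c, ?_⟩
  calc D = g * (g⁻¹ * D) := by
        rw [← Matrix.mul_assoc, Matrix.mul_nonsing_inv _ hu, Matrix.one_mul]
    _ = c • g := by rw [hc, Matrix.mul_smul, Matrix.mul_one]

variable {κ : Type} {𝔤 : Submodule ℂ (κ → M2)}

theorem proj_full (hb : ∀ X ∈ 𝔤, ∀ Y ∈ 𝔤, X * Y - Y * X ∈ 𝔤) (ht : ∀ X ∈ 𝔤, ∀ i, (X i).trace = 0)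
    (hs : ∀ (i : κ) (W : M2), W.trace = 0 → ∃ X ∈ 𝔤, X i = W) {X0 : κ → M2} (h0 : X0 ∈ 𝔤)
    {l : κ} (hl : X0 l ≠ 0) {W : M2} (hW : W.trace = 0) :
    ∃ Y ∈ 𝔤, (∀ k, X0 k = 0 → Y k = 0) ∧ Y l = W := by
  obtain ⟨U, hU, hτ⟩ := exists_tr (ht X0 h0 l) hl
  obtain ⟨ZU, hZU, eU⟩ := hs l U hU
  obtain ⟨ZW, hZW, eW⟩ := hs l W hW
  refine ⟨(2 * (U * X0 l).trace)⁻¹ • ((2 * (U * W).trace) • X0 -
    (ZU * (ZW * X0 - X0 * ZW) - (ZW * X0 - X0 * ZW) * ZU)),
    𝔤.smul_mem _ (𝔤.sub_mem (𝔤.smul_mem _ h0) (hb _ hZU _ (hb _ hZW _ h0))), ?_, ?_⟩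
  · intro k hk
    simp [hk]
  · simp only [Pi.smul_apply, Pi.sub_apply, Pi.mul_apply, eU, eW]
    rw [dbl hU hW (ht X0 h0 l), sub_sub_cancel, smul_smul,
      inv_mul_cancel₀ (mul_ne_zero two_ne_zero hτ), one_smul]

theorem link (hb : ∀ X ∈ 𝔤, ∀ Y ∈ 𝔤, X * Y - Y * X ∈ 𝔤) (ht : ∀ X ∈ 𝔤, ∀ i, (X i).trace = 0)
    (hs : ∀ (i : κ) (W : M2), W.trace = 0 → ∃ X ∈ 𝔤, X i = W) {X0 : κ → M2} (h0 : X0 ∈ 𝔤)
    {i j : κ} (hi : X0 i ≠ 0) (hj : X0 j ≠ 0)
    (hmin : ∀ Y ∈ 𝔤, (∀ k, X0 k = 0 → Y k = 0) → Y j = 0 → Y i = 0) :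
    ∃ g : M2, g.det ≠ 0 ∧ ∀ X ∈ 𝔤, X i * g = g * X j := by
  obtain ⟨E, hE, sE, eE'⟩ := proj_full hb ht hs h0 hj tr_eE
  obtain ⟨F, hF, sF, eF'⟩ := proj_full hb ht hs h0 hj tr_eF
  have hH := hb _ hE _ hF
  have sH : ∀ k, X0 k = 0 → (E * F - F * E) k = 0 := fun k hk ↦ by simp [sE k hk]
  have eH' : (E * F - F * E) j = eH := by simp [eE', eF', br_EF]
  have key : ∀ Y ∈ 𝔤, (∀ k, X0 k = 0 → Y k = 0) →
      Y i = Y j 0 1 • E i + Y j 1 0 • F i + Y j 0 0 • (E i * F i - F i * E i) := by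
    intro Y hY sY
    have := hmin (Y - (Y j 0 1 • E + Y j 1 0 • F + Y j 0 0 • (E * F - F * E)))
      (𝔤.sub_mem hY (𝔤.add_mem (𝔤.add_mem (𝔤.smul_mem _ hE) (𝔤.smul_mem _ hF)) (𝔤.smul_mem _ hH)))
      (fun k hk ↦ by simp [sE k hk, sF k hk, sY k hk])
      (by
        rw [Pi.sub_apply, Pi.add_apply, Pi.add_apply, Pi.smul_apply, Pi.smul_apply, Pi.smul_apply,
          eE', eF', eH']
        exact sub_eq_zero.2 (decomp (ht Y hY j)))
    exact sub_eq_zero.1 this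
  have r1 : (E i * F i - F i * E i) * E i - E i * (E i * F i - F i * E i) = (2 : ℂ) • E i := by
    have := hmin ((E * F - F * E) * E - E * (E * F - F * E) - (2 : ℂ) • E)
      (𝔤.sub_mem (hb _ hH _ hE) (𝔤.smul_mem _ hE)) (fun k hk ↦ by simp [sE k hk])
      (by
        simp only [Pi.sub_apply, Pi.mul_apply, Pi.smul_apply, eE', eF', br_EF, br_HE, sub_self])
    exact sub_eq_zero.1 this
  have r2 : (E i * F i - F i * E i) * F i - F i * (E i * F i - F i * E i) = (-2 : ℂ) • F i := by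
    have := hmin ((E * F - F * E) * F - F * (E * F - F * E) - (-2 : ℂ) • F)
      (𝔤.sub_mem (hb _ hH _ hF) (𝔤.smul_mem _ hF)) (fun k hk ↦ by simp [sF k hk])
      (by
        simp only [Pi.sub_apply, Pi.mul_apply, Pi.smul_apply, eE', eF', br_EF, br_HF, sub_self])
    exact sub_eq_zero.1 this
  have hE0 : E i ≠ 0 := by
    intro h
    have hF0 : F i = 0 := by
      rw [h] at r2
      simpa using r2.symm
    apply hi
    rw [key X0 h0 fun _ h ↦ h, h, hF0]
    simp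
  obtain ⟨g, hg, g1, g2⟩ := inner (ht E hE i) (ht F hF i) hE0 r1 r2
  have g3 : (E i * F i - F i * E i) * g = g * eH := by
    rw [← br_EF, sub_mul, mul_sub, mul_assoc, g2, ← mul_assoc, g1, mul_assoc, mul_assoc, g1,
      ← mul_assoc (F i), g2, mul_assoc]
  have conj : ∀ Y ∈ 𝔤, (∀ k, X0 k = 0 → Y k = 0) → Y i * g = g * Y j := by
    intro Y hY sY
    rw [key Y hY sY]
    conv_rhs => rw [decomp (ht Y hY j)]
    simp only [add_mul, mul_add, Matrix.smul_mul, Matrix.mul_smul, g1, g2, g3]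
  refine ⟨g, hg, fun X hX ↦ ?_⟩
  obtain ⟨c, hc⟩ := comm_of (D := X i * g - g * X j) hg (P := fun W ↦ W.trace = 0) (fun _ h ↦ h)
    fun W hW ↦ by
      obtain ⟨Y, hY, sY, rfl⟩ := proj_full hb ht hs h0 hj hW
      refine ⟨Y i, conj Y hY sY, ?_⟩
      have c1 := conj Y hY sY
      have c2 := conj _ (hb _ hX _ hY) fun k hk ↦ by simp [sY k hk]
      simp only [Pi.sub_apply, Pi.mul_apply] at c2
      have a1 : X i * g * Y j = X i * Y i * g := by rw [mul_assoc, ← c1, mul_assoc]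
      have a2 : Y i * (g * X j) = g * (Y j * X j) := by rw [← mul_assoc, c1, mul_assoc]
      rw [mul_sub, sub_mul, a1, a2, mul_assoc g, ← mul_assoc (Y i)]
      rw [sub_mul, mul_sub] at c2
      rw [sub_eq_sub_iff_sub_eq_sub, ← neg_sub, c2, neg_sub]
  have hu : IsUnit g.det := isUnit_iff_ne_zero.2 hg
  have t : ((X i * g - g * X j) * g⁻¹).trace = (c • g * g⁻¹).trace := by rw [hc]
  rw [sub_mul, Matrix.trace_sub, mul_assoc, Matrix.mul_nonsing_inv _ hu, mul_one, ht X hX,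
    Matrix.trace_mul_comm, ← mul_assoc, Matrix.nonsing_inv_mul _ hu, one_mul, ht X hX,
    Matrix.smul_mul, Matrix.mul_nonsing_inv _ hu] at t
  have hc0 : c = 0 := by simpa using t.symm
  rw [hc0, zero_smul] at hc
  exact sub_eq_zero.1 hc

end AXG

theorem goursat {κ : Type} [Fintype κ] [DecidableEq κ] (𝔤 : Submodule ℂ (κ → M2))
    (hb : ∀ X ∈ 𝔤, ∀ Y ∈ 𝔤, X * Y - Y * X ∈ 𝔤) (ht : ∀ X ∈ 𝔤, ∀ i, (X i).trace = 0)
    (hs : ∀ (i : κ) (W : M2), W.trace = 0 → ∃ X ∈ 𝔤, X i = W) :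
    (∀ X : κ → M2, (∀ i, (X i).trace = 0) → X ∈ 𝔤) ∨
      ∃ i j : κ, i ≠ j ∧ ∃ g : M2, g.det ≠ 0 ∧ ∀ X ∈ 𝔤, X j * g = g * X i := by
  classical
  by_contra hc
  rw [not_or] at hc
  obtain ⟨hc1, hc2⟩ := hc
  apply hc1
  have hsing : ∀ (i : κ) (W : M2), W.trace = 0 → Pi.single i W ∈ 𝔤 := by
    intro i W hW
    have hex : ∃ n, ∃ X ∈ 𝔤, X i ≠ 0 ∧ (Finset.univ.filter fun k ↦ X k ≠ 0).card = n := by
      obtain ⟨X, hX, e⟩ := hs i eE tr_eE
      refine ⟨_, X, hX, ?_, rfl⟩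
      rw [e]
      intro h
      simpa [eE] using congrFun (congrFun h 0) 1
    obtain ⟨X0, h0, hi, hn⟩ := Nat.find_spec hex
    have hj : ∀ j, j ≠ i → X0 j = 0 := by
      intro j hji
      by_contra hj
      refine hc2 ⟨j, i, hji, link hb ht hs h0 hi hj fun Y hY sY hYj ↦ ?_⟩
      by_contra hYi
      have h1 := Nat.find_min' hex ⟨Y, hY, hYi, rfl⟩
      rw [← hn] at h1
      refine absurd h1 (not_le.2 (Finset.card_lt_card ⟨fun k hk ↦ ?_, fun h ↦ ?_⟩))
      · simp only [Finset.mem_filter, Finset.mem_univ, true_and] at hk ⊢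
        exact fun h ↦ hk (sY k h)
      · have := h (Finset.mem_filter.2 ⟨Finset.mem_univ j, hj⟩)
        exact (Finset.mem_filter.1 this).2 hYj
    obtain ⟨Y, hY, sY, e⟩ := proj_full hb ht hs h0 hi hW
    have : Pi.single i W = Y := by
      funext k
      by_cases hk : k = i
      · rw [hk, Pi.single_eq_same, e]
      · rw [Pi.single_eq_of_ne hk, sY k (hj k hk)]
    rwa [this]
  intro X hX
  rw [← Finset.univ_sum_single X]
  exact 𝔤.sum_mem fun i _ ↦ hsing i _ (hX i)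

theorem rat_conj {X Y X' Y' : Matrix (Fin 2) (Fin 2) ℤ} {g : M2} (hg : g.det ≠ 0)
    (hX : X * X = 0) (hY : Y * Y = 0) (hXY : X * Y ≠ 0)
    (h1 : X'.map (fun n ↦ (n : ℂ)) * g = g * X.map (fun n ↦ (n : ℂ)))
    (h2 : Y'.map (fun n ↦ (n : ℂ)) * g = g * Y.map (fun n ↦ (n : ℂ))) :
    ∃ (h : Matrix (Fin 2) (Fin 2) ℤ) (c : ℂ), c ≠ 0 ∧ h.map (fun n ↦ (n : ℂ)) = c • g := by
  have hg0 : g ≠ 0 := fun h ↦ hg (by simp [h])
  obtain ⟨a, b, hab⟩ : ∃ a b, g a b ≠ 0 := by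
    by_contra hc
    push Not at hc
    exact hg0 (Matrix.ext hc)
  obtain ⟨φ, hφ⟩ := Module.Projective.exists_dual_ne_zero ℚ hab
  obtain ⟨d, hd⟩ := IsLocalization.exist_integer_multiples_of_finite (nonZeroDivisors ℤ)
    fun v : Fin 2 × Fin 2 ↦ φ (g v.1 v.2)
  choose n hn using hd
  have hd0 : (d : ℤ) ≠ 0 := nonZeroDivisors.coe_ne_zero d
  have hn' : ∀ a b, ((n (a, b) : ℤ) : ℚ) = d * φ (g a b) := fun a b ↦ by
    simpa using hn (a, b)
  have hφz : ∀ (k : ℤ) (z : ℂ), φ (k * z) = k * φ z := fun k z ↦ by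
    simpa using map_zsmul φ k z
  have tr : ∀ Z Z' : Matrix (Fin 2) (Fin 2) ℤ,
      Z'.map (fun n ↦ (n : ℂ)) * g = g * Z.map (fun n ↦ (n : ℂ)) →
      Z' * (Matrix.of fun a b ↦ n (a, b)) = (Matrix.of fun a b ↦ n (a, b)) * Z := by
    intro Z Z' h
    ext a b
    have := congrArg φ (congrFun (congrFun h a) b)
    simp only [Matrix.mul_apply, Fin.sum_univ_two, Matrix.map_apply, map_add,
      mul_comm (g _ _), hφz] at this
    apply Int.cast_injective (α := ℚ)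
    simp only [Matrix.mul_apply, Fin.sum_univ_two, Matrix.of_apply]
    push_cast
    simp only [hn']
    linear_combination (d : ℤ) * this
  have mm : ∀ Z Z' : Matrix (Fin 2) (Fin 2) ℤ, (Z * Z').map (fun n ↦ (n : ℂ)) =
      Z.map (fun n ↦ (n : ℂ)) * Z'.map (fun n ↦ (n : ℂ)) := fun Z Z' ↦
    Matrix.map_mul (f := Int.castRingHom ℂ)
  set D : M2 := (Matrix.of fun a b ↦ n (a, b)).map (fun n ↦ (n : ℂ)) with hD
  let 𝔤 : Submodule ℂ M2 :=
    { carrier := {W | ∃ W' : M2, W' * g = g * W ∧ W' * D = D * W}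
      add_mem' := by
        rintro U V ⟨U', a1, a2⟩ ⟨V', b1, b2⟩
        exact ⟨U' + V', by rw [add_mul, mul_add, a1, b1], by rw [add_mul, mul_add, a2, b2]⟩
      zero_mem' := ⟨0, by simp, by simp⟩
      smul_mem' := by
        rintro c U ⟨U', a1, a2⟩
        exact ⟨c • U', by rw [Matrix.smul_mul, Matrix.mul_smul, a1],
          by rw [Matrix.smul_mul, Matrix.mul_smul, a2]⟩ }
  have br : ∀ {U V U' V' K : M2}, U' * K = K * U → V' * K = K * V →
      (U' * V' - V' * U') * K = K * (U * V - V * U) := by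
    intro U V U' V' K a1 a2
    rw [sub_mul, mul_sub, mul_assoc, a2, ← mul_assoc, a1, mul_assoc, mul_assoc, a1,
      ← mul_assoc V', a2, mul_assoc]
  obtain ⟨c, hc⟩ := comm_of (D := D) hg (P := fun W ↦ W ∈ 𝔤)
    (sl2_gen 𝔤 (by
        rintro U ⟨U', a1, a2⟩ V ⟨V', b1, b2⟩
        exact ⟨_, br a1 b1, br a2 b2⟩)
      ⟨_, h1, by rw [hD, ← mm, ← mm, tr _ _ h1]⟩ ⟨_, h2, by rw [hD, ← mm, ← mm, tr _ _ h2]⟩
      (by rw [← mm, hX]; simp) (by rw [← mm, hY]; simp)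
      (by
        rw [← mm]
        intro h
        apply hXY
        ext a b
        simpa using congrFun (congrFun h a) b))
    fun _ h ↦ h
  refine ⟨_, c, ?_, hc⟩
  rintro rfl
  have h3 := congrFun (congrFun hc a) b
  have h4 : n (a, b) = 0 := by simpa [hD] using h3
  have h5 := hn' a b
  rw [h4] at h5
  exact mul_ne_zero (Int.cast_ne_zero.2 hd0) hφ (by simpa using h5.symm)

end Pool.Agent.Lib.ZP3
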