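import Pool.Agent.Lib.ZP3.Defs

/-! Block WDL: basic properties of Weierstrass data. -/

open UpperHalfPlane Filter Topology Metric
open scoped Real

namespace Pool.Agent.Lib.ZP3

open Pool.Agent.Lib.MP_0704bf_ag Pool.Agent.Lib.helper6

namespace WDL

/-- complements of countable sets of complex numbers are preconnected -/
theorem preconn {s : Set ℂ} (hs : s.Countable) : IsPreconnected sᶜ :=
  (Set.Countable.isConnected_compl_of_one_lt_rank (by simp) hs).2

/-- local uniqueness for the linear system `u' = v`, `v' = a u` -/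
theorem lin_uniq {u v a : ℂ → ℂ} {z : ℂ} (hu : AnalyticAt ℂ u z) (hv : AnalyticAt ℂ v z)
    (ha : AnalyticAt ℂ a z) (h1 : ∀ᶠ w in 𝓝 z, HasDerivAt u (v w) w)
    (h2 : ∀ᶠ w in 𝓝 z, HasDerivAt v (a w * u w) w) (hu0 : u z = 0) (hv0 : v z = 0) :
    ∀ᶠ w in 𝓝 z, u w = 0 := by
  have e1 := hu.analyticOrderAt_deriv_add_one
  have e2 := hv.analyticOrderAt_deriv_add_one
  simp only [hu0, hv0, sub_zero] at e1 e2
  have c1 : deriv u =ᶠ[𝓝 z] v := h1.mono fun w hw ↦ hw.deriv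
  have c2 : deriv v =ᶠ[𝓝 z] a * u := h2.mono fun w hw ↦ hw.deriv
  rw [analyticOrderAt_congr c1] at e1
  rw [analyticOrderAt_congr c2, analyticOrderAt_mul ha hu] at e2
  rw [← analyticOrderAt_eq_top]
  change analyticOrderAt v z + 1 = analyticOrderAt u z at e1
  change _ = analyticOrderAt v z at e2
  rw [← e2] at e1
  generalize analyticOrderAt u z = n at e1
  generalize analyticOrderAt a z = m at e1
  cases n with
  | top => rfl
  | coe n =>
    cases m with
    | top => simp at e1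
    | coe m =>
      norm_cast at e1
      omega

/-- the zeros of a nonzero analytic function are countable -/
theorem countable_zeros {f : ℂ → ℂ} {U : Set ℂ} (hf : AnalyticOnNhd ℂ f U)
    (hU : IsPreconnected U) (h : ¬ Set.EqOn f 0 U) : {z | z ∈ U ∧ f z = 0}.Countable := by
  have hd : IsDiscrete {z | z ∈ U ∧ f z = 0} := by
    rw [isDiscrete_iff_nhdsNE]
    intro x hx
    rw [Filter.inf_principal_eq_bot]
    by_contra hc
    apply h
    refine hf.eqOn_zero_of_preconnected_of_frequently_eq_zero hU hx.1 ?_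
    have : ∃ᶠ z in 𝓝[≠] x, z ∈ {z | z ∈ U ∧ f z = 0} := by
      rw [Filter.Frequently]
      exact hc
    exact this.mono fun z hz ↦ hz.2
  have := hd.to_subtype
  exact Set.countable_coe_iff.mp countable_of_Lindelof_of_discrete

end WDL

open WDL

section WDL
variable (W : WD)

theorem WD.isDiscrete : IsDiscrete (W.Λ : Set ℂ) := by
  obtain ⟨ρ, hρ, h⟩ := W.sep
  rw [isDiscrete_iff_forall_mem_exists_isOpen]
  intro y hy
  refine ⟨ball y ρ, isOpen_ball, ?_⟩
  ext x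
  simp only [Set.mem_inter_iff, mem_ball, SetLike.mem_coe, Set.mem_singleton_iff]
  constructor
  · rintro ⟨h1, h2⟩
    by_contra hne
    have := h (x - y) (W.Λ.sub_mem h2 hy) (sub_ne_zero.mpr hne)
    rw [dist_eq_norm] at h1
    linarith
  · rintro rfl
    exact ⟨by simpa using hρ, hy⟩

theorem WD.countable : (W.Λ : Set ℂ).Countable := by
  have := W.isDiscrete.to_subtype
  exact Set.countable_coe_iff.mp countable_of_Lindelof_of_discrete

theorem WD.isClosed : IsClosed (W.Λ : Set ℂ) := by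
  have : DiscreteTopology W.Λ := W.isDiscrete.to_subtype
  exact AddSubgroup.isClosed_of_discrete

theorem WD.finite_inter (z : ℂ) (r : ℝ) : {l : ℂ | l ∈ W.Λ ∧ ‖l - z‖ ≤ r}.Finite := by
  refine (Metric.finite_isBounded_inter_isClosed W.isDiscrete
    (isBounded_closedBall (x := z) (r := r)) W.isClosed).subset ?_
  rintro l ⟨h1, h2⟩
  exact ⟨by rwa [mem_closedBall, dist_eq_norm], h1⟩

theorem WD.ev_notMem {z : ℂ} (hz : z ∉ W.Λ) : ∀ᶠ w in 𝓝 z, w ∉ W.Λ :=
  W.isClosed.isOpen_compl.mem_nhds hz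

theorem WD.ev_notMem_zero : ∀ᶠ w in 𝓝[≠] (0 : ℂ), w ∉ W.Λ := by
  obtain ⟨ρ, hρ, h⟩ := W.sep
  have h1 : ∀ᶠ w in 𝓝[≠] (0 : ℂ), w ∈ ball (0 : ℂ) ρ :=
    mem_nhdsWithin_of_mem_nhds (ball_mem_nhds 0 hρ)
  filter_upwards [h1, self_mem_nhdsWithin] with w hw hw0 hm
  have := h w hm hw0
  rw [mem_ball_zero_iff] at hw
  linarith

theorem WD.analytic_X {z : ℂ} (hz : z ∉ W.Λ) : AnalyticAt ℂ W.X z := by
  have : DifferentiableOn ℂ W.X (W.Λ : Set ℂ)ᶜ := fun w hw ↦
    (W.dX w hw).differentiableAt.differentiableWithinAt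
  exact this.analyticAt (W.ev_notMem hz)

theorem WD.analytic_Y {z : ℂ} (hz : z ∉ W.Λ) : AnalyticAt ℂ W.Y z := by
  have : DifferentiableOn ℂ W.Y (W.Λ : Set ℂ)ᶜ := fun w hw ↦
    (W.dY w hw).differentiableAt.differentiableWithinAt
  exact this.analyticAt (W.ev_notMem hz)

/-- `X` does not agree near the pole with a function having a finite limit -/
theorem WD.not_ev_eq {h : ℂ → ℂ} (hh : ContinuousAt h 0) :
    ¬ ∀ᶠ t in 𝓝[≠] (0 : ℂ), W.X t = h t := by
  intro he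
  have h1 : Tendsto (fun t ↦ ‖h t‖) (𝓝[≠] (0 : ℂ)) (𝓝 ‖h 0‖) :=
    (hh.norm.tendsto).mono_left nhdsWithin_le_nhds
  have h2 : Tendsto (fun t ↦ ‖h t‖) (𝓝[≠] (0 : ℂ)) atTop :=
    W.pole.congr' (he.mono fun t ht ↦ by simp [ht])
  exact not_tendsto_atTop_of_tendsto_nhds h1 h2

theorem WD.not_const {z : ℂ} (hz : z ∉ W.Λ) (c : ℂ) : ¬ ∀ᶠ w in 𝓝 z, W.X w = c := by
  intro h
  have hA : AnalyticOnNhd ℂ W.X (W.Λ : Set ℂ)ᶜ := fun w hw ↦ W.analytic_X hw
  have := hA.eqOn_of_preconnected_of_eventuallyEq (analyticOnNhd_const (v := c))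
    (preconn W.countable) hz h
  exact W.not_ev_eq (h := fun _ ↦ c) continuousAt_const
    (W.ev_notMem_zero.mono fun t ht ↦ this ht)

theorem WD.nonsing {z : ℂ} (hz : z ∉ W.Λ) : W.Y z ≠ 0 ∨ 6 * W.X z ^ 2 - W.g2 / 2 ≠ 0 := by
  by_contra hc
  push Not at hc
  obtain ⟨h1, h2⟩ := hc
  have hX := W.analytic_X hz
  have := lin_uniq (u := fun w ↦ W.X w - W.X z) (v := W.Y) (a := fun w ↦ 6 * (W.X w + W.X z))
    (z := z) (hX.sub analyticAt_const) (W.analytic_Y hz)
    (analyticAt_const.mul (hX.add analyticAt_const))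
    ((W.ev_notMem hz).mono fun w hw ↦ (W.dX w hw).sub_const _)
    ((W.ev_notMem hz).mono fun w hw ↦ (W.dY w hw).congr_deriv (by linear_combination h2))
    (sub_self _) h1
  exact W.not_const hz (W.X z) (this.mono fun w hw ↦ sub_eq_zero.mp hw)

theorem WDL.countable_shift (W : WD) (a : ℂ) : {s : ℂ | s + a ∈ W.Λ}.Countable :=
  W.countable.preimage_of_injOn (f := fun s ↦ s + a) (add_left_injective a).injOn

theorem WDL.countable_refl (W : WD) (a : ℂ) : {s : ℂ | a - s ∈ W.Λ}.Countable :=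
  W.countable.preimage_of_injOn (f := fun s ↦ a - s) sub_right_injective.injOn

/-- two data with the same `g2` and a common point agree after translation -/
theorem WDL.agree (W W' : WD) (h2 : W.g2 = W'.g2) {a b : ℂ} (ha : a ∉ W.Λ) (hb : b ∉ W'.Λ)
    (hX : W.X a = W'.X b) (hY : W.Y a = W'.Y b) {s : ℂ} (hs : s + a ∉ W.Λ)
    (hs' : s + b ∉ W'.Λ) : W.X (s + a) = W'.X (s + b) := by
  have an : ∀ (V : WD) (c s : ℂ), s + c ∉ V.Λ → AnalyticAt ℂ (fun s ↦ V.X (s + c)) s ∧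
      AnalyticAt ℂ (fun s ↦ V.Y (s + c)) s := fun V c s h ↦
    ⟨(V.analytic_X h).comp_of_eq (analyticAt_id.add analyticAt_const) rfl,
      (V.analytic_Y h).comp_of_eq (analyticAt_id.add analyticAt_const) rfl⟩
  have ha0 : (0 : ℂ) + a ∉ W.Λ := by simpa using ha
  have hb0 : (0 : ℂ) + b ∉ W'.Λ := by simpa using hb
  have e1 : ∀ᶠ s in 𝓝 (0 : ℂ), s + a ∉ W.Λ :=
    (continuous_id.add continuous_const).continuousAt.eventually (W.ev_notMem ha0)
  have e2 : ∀ᶠ s in 𝓝 (0 : ℂ), s + b ∉ W'.Λ :=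
    (continuous_id.add continuous_const).continuousAt.eventually (W'.ev_notMem hb0)
  have := lin_uniq (u := fun s ↦ W.X (s + a) - W'.X (s + b))
    (v := fun s ↦ W.Y (s + a) - W'.Y (s + b)) (a := fun s ↦ 6 * (W.X (s + a) + W'.X (s + b)))
    (z := 0) ((an W a 0 ha0).1.sub (an W' b 0 hb0).1) ((an W a 0 ha0).2.sub (an W' b 0 hb0).2)
    (analyticAt_const.mul ((an W a 0 ha0).1.add (an W' b 0 hb0).1))
    (by
      filter_upwards [e1, e2] with w hw hw'
      exact ((W.dX _ hw).comp_add_const w a).sub ((W'.dX _ hw').comp_add_const w b))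
    (by
      filter_upwards [e1, e2] with w hw hw'
      refine (((W.dY _ hw).comp_add_const w a).sub
        ((W'.dY _ hw').comp_add_const w b)).congr_deriv ?_
      rw [h2]; ring)
    (by simp [hX]) (by simp [hY])
  have hU : IsPreconnected ({s : ℂ | s + a ∈ W.Λ} ∪ {s : ℂ | s + b ∈ W'.Λ})ᶜ :=
    preconn ((countable_shift W a).union (countable_shift W' b))
  have hA : AnalyticOnNhd ℂ (fun s ↦ W.X (s + a) - W'.X (s + b))
      ({s : ℂ | s + a ∈ W.Λ} ∪ {s : ℂ | s + b ∈ W'.Λ})ᶜ := by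
    intro w hw
    simp only [Set.compl_union, Set.mem_inter_iff, Set.mem_compl_iff, Set.mem_ofPred_eq] at hw
    exact (an W a w hw.1).1.sub (an W' b w hw.2).1
  have h := hA.eqOn_zero_of_preconnected_of_eventuallyEq_zero hU (z₀ := 0)
    (by simp [ha, hb]) this (x := s) (by simp [hs, hs'])
  exact sub_eq_zero.mp h

/-- the poles match after the translation -/
theorem WDL.poles (W W' : WD) (h2 : W.g2 = W'.g2) {a b : ℂ} (ha : a ∉ W.Λ) (hb : b ∉ W'.Λ)
    (hX : W.X a = W'.X b) (hY : W.Y a = W'.Y b) {s : ℂ} (hs : s + a ∈ W.Λ) :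
    s + b ∈ W'.Λ := by
  by_contra hs'
  have hc : ContinuousAt (fun t ↦ W'.X (t + (s + b))) 0 :=
    ContinuousAt.comp_of_eq (W'.analytic_X hs').continuousAt
      (continuous_id.add continuous_const).continuousAt (by simp)
  apply W.not_ev_eq hc
  have e2 : ∀ᶠ t in 𝓝 (0 : ℂ), t + (s + b) ∉ W'.Λ :=
    (continuous_id.add continuous_const).continuousAt.eventually
      (W'.ev_notMem (by simpa using hs'))
  filter_upwards [W.ev_notMem_zero, mem_nhdsWithin_of_mem_nhds e2] with t ht ht'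
  have := agree W W' h2 ha hb hX hY (s := t + s)
    (by
      intro h
      apply ht
      have := W.Λ.sub_mem h hs
      rwa [show t + s + a - (s + a) = t by ring] at this)
    (by rwa [add_assoc])
  rw [add_assoc, add_assoc, W.perX _ hs] at this
  exact this

theorem WD.inj {a b : ℂ} (ha : a ∉ W.Λ) (hb : b ∉ W.Λ) (hX : W.X a = W.X b) (hY : W.Y a = W.Y b) :
    a - b ∈ W.Λ := by
  have := poles W W rfl hb ha hX.symm hY.symm (s := -b) (by simp)
  rwa [show -b + a = a - b by ring] at this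

/-- `X` takes all large values -/
theorem WD.large : ∀ᶠ y in 𝓝 (0 : ℂ), y ≠ 0 → ∃ z, z ∉ W.Λ ∧ W.X z = y⁻¹ := by
  classical
  set f : ℂ → ℂ := Function.update (fun z ↦ (W.X z)⁻¹) 0 0 with hf
  have hne : ∀ᶠ z in 𝓝[≠] (0 : ℂ), W.X z ≠ 0 := by
    filter_upwards [W.pole.eventually_gt_atTop 0] with z hz
    exact norm_pos_iff.mp hz
  have hfe : ∀ z, z ≠ 0 → f z = (W.X z)⁻¹ := fun z hz ↦ by simp [hf, Function.update_of_ne hz]
  have hf0 : f 0 = 0 := by simp [hf]
  have hc : ContinuousAt f 0 := by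
    rw [hf, continuousAt_update_same]
    exact tendsto_inv₀_cobounded.comp (tendsto_norm_atTop_iff_cobounded.mp W.pole)
  have hd : ∀ᶠ z in 𝓝[≠] (0 : ℂ), DifferentiableAt ℂ f z := by
    filter_upwards [hne, W.ev_notMem_zero, self_mem_nhdsWithin] with z h1 h2 h3
    have : f =ᶠ[𝓝 z] fun z ↦ (W.X z)⁻¹ := by
      filter_upwards [isOpen_ne.mem_nhds h3] with w hw using hfe w hw
    rw [this.differentiableAt_iff]
    exact (W.dX z h2).differentiableAt.inv h1
  have ha := Complex.analyticAt_of_differentiable_on_punctured_nhds_of_continuousAt hd hc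
  rcases ha.eventually_constant_or_nhds_le_map_nhds with h | h
  · exfalso
    have h' : ∀ᶠ z in 𝓝[≠] (0 : ℂ), False := by
      filter_upwards [hne, self_mem_nhdsWithin, mem_nhdsWithin_of_mem_nhds h] with z h1 h2 h3
      rw [hf0, hfe z h2] at h3
      exact h1 (inv_eq_zero.mp h3)
    exact h'.exists.elim fun _ h ↦ h
  · rw [hf0] at h
    have hS : ∀ᶠ z in 𝓝 (0 : ℂ), z ≠ 0 → z ∉ W.Λ := by
      simpa [eventually_nhdsWithin_iff] using W.ev_notMem_zero
    have := h (image_mem_map hS)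
    filter_upwards [this] with y hy hy0
    obtain ⟨z, hz, rfl⟩ := hy
    have hz0 : z ≠ 0 := by
      rintro rfl
      exact hy0 hf0
    exact ⟨z, hz hz0, by rw [hfe z hz0, inv_inv]⟩

theorem WD.neg_notMem {z : ℂ} (hz : z ∉ W.Λ) : -z ∉ W.Λ := fun h ↦ hz (by simpa using h)

theorem WD.uniq (W' : WD) (h2 : W.g2 = W'.g2) (h3 : W.g3 = W'.g3) : W.Λ = W'.Λ := by
  have h1 : ∀ᶠ y in 𝓝[≠] (0 : ℂ), (y ≠ 0 → ∃ z, z ∉ W.Λ ∧ W.X z = y⁻¹) ∧
      (y ≠ 0 → ∃ z, z ∉ W'.Λ ∧ W'.X z = y⁻¹) :=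
    mem_nhdsWithin_of_mem_nhds (W.large.and W'.large)
  obtain ⟨y, ⟨hy1, hy2⟩, hy0⟩ := (h1.and self_mem_nhdsWithin).exists
  obtain ⟨a, ha, hXa⟩ := hy1 hy0
  obtain ⟨b, hb, hXb⟩ := hy2 hy0
  have hX : W.X a = W'.X b := hXa.trans hXb.symm
  have hY : W.Y a ^ 2 = W'.Y b ^ 2 := by rw [W.eqn a ha, W'.eqn b hb, hX, h2, h3]
  obtain ⟨b, hb, hX, hY⟩ : ∃ b, b ∉ W'.Λ ∧ W.X a = W'.X b ∧ W.Y a = W'.Y b := by
    rcases sq_eq_sq_iff_eq_or_eq_neg.mp hY with h | h
    · exact ⟨b, hb, hX, h⟩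
    · exact ⟨-b, W'.neg_notMem hb, by rw [W'.even, hX], by rw [W'.odd, h]⟩
  have key : ∀ (V V' : WD), V.g2 = V'.g2 → ∀ a b, a ∉ V.Λ → b ∉ V'.Λ → V.X a = V'.X b →
      V.Y a = V'.Y b → V.Λ ≤ V'.Λ := by
    intro V V' h a b ha hb hX hY l hl
    have e1 := poles V V' h ha hb hX hY (s := -a) (by simp)
    have e2 := poles V V' h ha hb hX hY (s := l - a) (by simpa using hl)
    have := V'.Λ.sub_mem e2 e1
    rwa [show l - a + b - (-a + b) = l by ring] at this
  exact le_antisymm (key W W' h2 a b ha hb hX hY) (key W' W h2.symm b a hb ha hX.symm hY.symm)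

theorem WD.locinj {z : ℂ} (hz : z ∉ W.Λ) (hY : W.Y z ≠ 0) :
    ∀ᶠ z' in 𝓝 z, W.X z' = W.X z → z' = z := by
  have := (W.dX z hz).eventually_ne (c := W.X z) hY
  rw [eventually_nhdsWithin_iff] at this
  filter_upwards [this] with w hw he
  by_contra hne
  exact hw hne he

theorem WD.countable_Y : {z : ℂ | z ∉ W.Λ ∧ W.Y z = 0}.Countable := by
  have hA : AnalyticOnNhd ℂ W.Y (W.Λ : Set ℂ)ᶜ := fun w hw ↦ W.analytic_Y hw
  refine countable_zeros hA (preconn W.countable) fun h ↦ ?_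
  obtain ⟨z, hz⟩ := W.ev_notMem_zero.exists
  have h1 : W.Y =ᶠ[𝓝 z] fun _ ↦ 0 := (W.ev_notMem hz).mono fun w hw ↦ h hw
  have h2 : HasDerivAt W.Y 0 z := (hasDerivAt_const z (0 : ℂ)).congr_of_eventuallyEq h1
  rcases W.nonsing hz with h3 | h3
  · exact h3 (h hz)
  · exact h3 ((W.dY z hz).unique h2)

theorem WD.countable_eq {a b : ℂ} (h : a + b ∉ W.Λ) :
    {q : ℂ | q + a ∉ W.Λ ∧ b - q ∉ W.Λ ∧ W.X (q + a) = W.X (b - q)}.Countable := by
  have hU : IsPreconnected ({s : ℂ | s + a ∈ W.Λ} ∪ {s : ℂ | b - s ∈ W.Λ})ᶜ :=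
    preconn ((countable_shift W a).union (countable_refl W b))
  have hA : AnalyticOnNhd ℂ (fun s ↦ W.X (s + a) - W.X (b - s))
      ({s : ℂ | s + a ∈ W.Λ} ∪ {s : ℂ | b - s ∈ W.Λ})ᶜ := by
    intro w hw
    simp only [Set.compl_union, Set.mem_inter_iff, Set.mem_compl_iff, Set.mem_ofPred_eq] at hw
    exact ((W.analytic_X hw.1).comp_of_eq (analyticAt_id.add analyticAt_const) rfl).sub
      ((W.analytic_X hw.2).comp_of_eq (analyticAt_const.sub analyticAt_id) rfl)
  refine (countable_zeros hA hU fun he ↦ ?_).mono ?_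
  · have hcont : Continuous fun t : ℂ ↦ a + b - t := by fun_prop
    have hc : ContinuousAt (fun t ↦ W.X (a + b - t)) 0 :=
      ContinuousAt.comp_of_eq (W.analytic_X h).continuousAt hcont.continuousAt (by simp)
    apply W.not_ev_eq hc
    have e2 : ∀ᶠ t in 𝓝 (0 : ℂ), a + b - t ∉ W.Λ :=
      hcont.continuousAt.eventually (W.ev_notMem (by simpa using h))
    filter_upwards [W.ev_notMem_zero, mem_nhdsWithin_of_mem_nhds e2] with t ht ht'
    have e3 : b - (t - a) = a + b - t := by ring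
    have := he (x := t - a) (by
      simp only [Set.compl_union, Set.mem_inter_iff, Set.mem_compl_iff, Set.mem_ofPred_eq]
      exact ⟨by simpa using ht, by rwa [e3]⟩)
    simp only [sub_add_cancel, e3, Pi.zero_apply] at this
    exact sub_eq_zero.mp this
  · rintro q ⟨h1, h2, h3⟩
    exact ⟨by simp [h1, h2], sub_eq_zero.mpr h3⟩

theorem WD.infinite_X : (W.X '' {z | z ∉ W.Λ}).Infinite := by
  intro hf
  obtain ⟨C, hC⟩ := hf.isBounded.exists_norm_le
  obtain ⟨z, hz1, hz2⟩ := (W.ev_notMem_zero.and (W.pole.eventually_gt_atTop C)).exists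
  have := hC _ ⟨z, hz1, rfl⟩
  linarith

theorem WD.Size.mono {W : WD} {p u : ℂ} {A A' : ℕ} (h : W.Size p u A) (h' : A ≤ A') :
    W.Size p u A' := by
  obtain ⟨ρ, h1, h2, h3, h4, h5, h6, h7, h8⟩ := h
  have hA : (A : ℝ) ≤ A' := by exact_mod_cast h'
  have hρ : 0 ≤ ρ := (Real.exp_pos _).le.trans h1
  refine ⟨ρ, (Real.exp_le_exp.mpr (by linarith)).trans h1, h2.trans (Real.exp_le_exp.mpr hA),
    h3, h4, h5, h6, h7.trans (mul_le_mul_of_nonneg_right hA hρ), fun z r hr hr' hz ↦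
      (h8 z r hr hr' hz).trans (Real.exp_le_exp.mpr hA)⟩

/-- the addition quotient has zero derivative along `s ↦ (w - s, s)` -/
theorem WDL.add_deriv (W : WD) {w s : ℂ} (h1 : s ∉ W.Λ) (h2 : w - s ∉ W.Λ)
    (h3 : W.X (w - s) ≠ W.X s) :
    HasDerivAt (fun s ↦ ((W.Y (w - s) - W.Y s) / (W.X (w - s) - W.X s)) ^ 2 / 4
      - W.X (w - s) - W.X s) 0 s := by
  have hd : W.X (w - s) - W.X s ≠ 0 := sub_ne_zero.mpr h3
  have a1 := (W.dX _ h2).comp_const_sub w s
  have a2 := (W.dY _ h2).comp_const_sub w s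
  have a3 := W.dX _ h1
  have a4 := W.dY _ h1
  have q := (a2.sub a4).div (a1.sub a3) hd
  have e1 := W.eqn _ h1
  have e2 := W.eqn _ h2
  have q' : HasDerivAt (fun s ↦ (W.Y (w - s) - W.Y s) / (W.X (w - s) - W.X s))
      (-2 * (W.X (w - s) - W.X s)) s := by
    refine HasDerivAt.congr_deriv q ?_
    simp only [Pi.sub_apply]
    rw [div_eq_iff (pow_ne_zero 2 hd)]
    linear_combination e2 - e1
  refine HasDerivAt.congr_deriv ((((q'.pow 2).div_const 4).sub a1).sub a3) ?_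
  simp only [Nat.cast_ofNat, Nat.add_one_sub_one, pow_one]
  field_simp
  ring

theorem WD.add {g η : ℂ} (hg : g ∉ W.Λ) (hη : η ∉ W.Λ) (h : g + η ∉ W.Λ) :
    W.X (g + η) * (W.X g - W.X η) ^ 2 =
      (W.Y g - W.Y η) ^ 2 / 4 - (W.X g + W.X η) * (W.X g - W.X η) ^ 2 := by
  set w := g + η with hw
  have hcont : Continuous fun t : ℂ ↦ w - t := by fun_prop
  set B : Set ℂ := ((W.Λ : Set ℂ) ∪ {s : ℂ | w - s ∈ W.Λ}) ∪
    {q : ℂ | q + 0 ∉ W.Λ ∧ w - q ∉ W.Λ ∧ W.X (q + 0) = W.X (w - q)} with hB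
  have hBc : B.Countable :=
    (W.countable.union (countable_refl W w)).union (W.countable_eq (by simpa using h))
  have hmem : ∀ s, s ∈ Bᶜ ↔ s ∉ W.Λ ∧ w - s ∉ W.Λ ∧ W.X (w - s) ≠ W.X s := by
    intro s
    simp only [hB, add_zero, Set.mem_compl_iff, Set.mem_union, SetLike.mem_coe,
      Set.mem_ofPred_eq, ne_eq]
    constructor
    · intro hs
      push Not at hs
      exact ⟨hs.1.1, hs.1.2, fun e ↦ hs.2 hs.1.1 hs.1.2 e.symm⟩
    · rintro ⟨s1, s2, s3⟩
      push Not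
      exact ⟨⟨s1, s2⟩, fun _ _ e ↦ s3 e.symm⟩
  have cX : ∀ s, w - s ∉ W.Λ → ContinuousAt (fun s ↦ W.X (w - s)) s := fun s hs ↦
    ((W.dX _ hs).comp_const_sub w s).continuousAt
  have cY : ∀ s, w - s ∉ W.Λ → ContinuousAt (fun s ↦ W.Y (w - s)) s := fun s hs ↦
    ((W.dY _ hs).comp_const_sub w s).continuousAt
  have hBo : IsOpen Bᶜ := by
    rw [isOpen_iff_mem_nhds]
    intro s hs
    obtain ⟨s1, s2, s3⟩ := (hmem s).1 hs
    have := ((cX s s2).sub (W.dX s s1).continuousAt).eventually_ne (sub_ne_zero.mpr s3)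
    filter_upwards [W.ev_notMem s1, hcont.continuousAt.eventually (W.ev_notMem s2), this]
      with t t1 t2 t3
    exact (hmem t).2 ⟨t1, t2, sub_ne_zero.mp t3⟩
  obtain ⟨c, hc⟩ := hBo.exists_is_const_of_deriv_eq_zero (preconn hBc)
    (f := fun s ↦ ((W.Y (w - s) - W.Y s) / (W.X (w - s) - W.X s)) ^ 2 / 4
      - W.X (w - s) - W.X s)
    (fun s hs ↦ by
      obtain ⟨s1, s2, s3⟩ := (hmem s).1 hs
      exact (add_deriv W s1 s2 s3).differentiableAt.differentiableWithinAt)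
    (fun s hs ↦ by
      obtain ⟨s1, s2, s3⟩ := (hmem s).1 hs
      exact (add_deriv W s1 s2 s3).deriv)
  have hc' : ∀ s ∈ Bᶜ, c * (W.X (w - s) - W.X s) ^ 2 = (W.Y (w - s) - W.Y s) ^ 2 / 4 -
      (W.X (w - s) + W.X s) * (W.X (w - s) - W.X s) ^ 2 := by
    intro s hs
    obtain ⟨s1, s2, s3⟩ := (hmem s).1 hs
    have hd : W.X (w - s) - W.X s ≠ 0 := sub_ne_zero.mpr s3
    rw [← hc s hs]
    field_simp
    ring
  -- the constant is `X w`
  have hcw : c = W.X w := by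
    have hw0 : w - 0 ∉ W.Λ := by simpa using h
    have t0 : Tendsto (fun s ↦ (W.X s)⁻¹) (𝓝[≠] (0 : ℂ)) (𝓝 0) :=
      tendsto_inv₀_cobounded.comp (tendsto_norm_atTop_iff_cobounded.mp W.pole)
    have t1 : Tendsto (fun s ↦ W.X (w - s)) (𝓝[≠] (0 : ℂ)) (𝓝 (W.X w)) := by
      simpa using ((cX 0 hw0).tendsto).mono_left (nhdsWithin_le_nhds (s := {0}ᶜ))
    have t2 : Tendsto (fun s ↦ W.Y (w - s)) (𝓝[≠] (0 : ℂ)) (𝓝 (W.Y w)) := by
      simpa using ((cY 0 hw0).tendsto).mono_left (nhdsWithin_le_nhds (s := {0}ᶜ))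
    have hF : Continuous fun p : ℂ × ℂ × ℂ ↦
        (c * (p.1 * p.2.2 - 1) ^ 2 - p.1 * (p.1 * p.2.2 + 1) + W.g2 / 4 * (p.1 * p.2.2 ^ 2 + p.2.2)
          + W.g3 / 2 * p.2.2 ^ 2) ^ 2 -
        p.2.1 ^ 2 * (4 * p.2.2 - W.g2 * p.2.2 ^ 3 - W.g3 * p.2.2 ^ 4) / 4 := by fun_prop
    have t3 := (hF.tendsto _).comp (t1.prodMk_nhds (t2.prodMk_nhds t0))
    have hne : ∀ᶠ z in 𝓝[≠] (0 : ℂ), W.X z ≠ 0 := by
      filter_upwards [W.pole.eventually_gt_atTop 0] with z hz
      exact norm_pos_iff.mp hz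
    have hne2 : ∀ᶠ s in 𝓝[≠] (0 : ℂ), W.X (w - s) ≠ W.X s := by
      have b1 : ∀ᶠ s in 𝓝[≠] (0 : ℂ), ‖W.X (w - s)‖ < ‖W.X w‖ + 1 :=
        t1.norm.eventually_lt_const (by linarith)
      filter_upwards [b1, W.pole.eventually_gt_atTop (‖W.X w‖ + 1)] with s s1 s2 e
      rw [e] at s1
      linarith
    have t4 := t3.congr' (f₂ := fun _ ↦ 0) (by
      filter_upwards [hne, hne2, W.ev_notMem_zero, mem_nhdsWithin_of_mem_nhds
        (hcont.continuousAt.eventually (W.ev_notMem hw0))] with s s0 s3 s1 s2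
      have k := hc' s ((hmem s).2 ⟨s1, s2, s3⟩)
      have e1 := W.eqn _ s1
      have e2 := W.eqn _ s2
      simp only [Function.comp_apply]
      have k1 : c * (W.X (w - s) * (W.X s)⁻¹ - 1) ^ 2 - W.X (w - s) * (W.X (w - s) * (W.X s)⁻¹ + 1)
          + W.g2 / 4 * (W.X (w - s) * (W.X s)⁻¹ ^ 2 + (W.X s)⁻¹) + W.g3 / 2 * (W.X s)⁻¹ ^ 2 =
          -(W.Y (w - s) * W.Y s / 2) * (W.X s)⁻¹ ^ 2 := by
        field_simp
        linear_combination 8 * k + 2 * e1 + 2 * e2
      have k2 : 4 * (W.X s)⁻¹ - W.g2 * (W.X s)⁻¹ ^ 3 - W.g3 * (W.X s)⁻¹ ^ 4 =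
          W.Y s ^ 2 * (W.X s)⁻¹ ^ 4 := by
        rw [e1]
        field_simp
      rw [k1, k2]
      ring)
    have := tendsto_nhds_unique t4 tendsto_const_nhds
    simp only [mul_zero, zero_sub, even_two, Even.neg_pow, one_pow, mul_one, zero_add, ne_eq,
      OfNat.ofNat_ne_zero, not_false_eq_true, zero_pow, add_zero, sub_self, zero_div, sub_zero,
      pow_eq_zero_iff] at this
    exact sub_eq_zero.mp this
  have hwη : w - η = g := by rw [hw]; ring
  have hg' : w - η ∉ W.Λ := by rwa [hwη]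
  have hF : ContinuousAt (fun s ↦ c * (W.X (w - s) - W.X s) ^ 2 - ((W.Y (w - s) - W.Y s) ^ 2 / 4 -
      (W.X (w - s) + W.X s) * (W.X (w - s) - W.X s) ^ 2)) η := by
    have c1 := cX η hg'
    have c2 := cY η hg'
    have c3 := (W.dX η hη).continuousAt
    have c4 := (W.dY η hη).continuousAt
    exact (continuousAt_const.mul ((c1.sub c3).pow 2)).sub
      ((((c2.sub c4).pow 2).div_const 4).sub ((c1.add c3).mul ((c1.sub c3).pow 2)))
  have hfr : ∃ᶠ s in 𝓝 η, s ∈ Bᶜ :=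
    mem_closure_iff_frequently.mp (hBc.dense_compl ℝ η)
  have := tendsto_nhds_unique_of_frequently_eq hF.tendsto tendsto_const_nhds
    (hfr.mono fun s hs ↦ sub_eq_zero.mpr (hc' s hs))
  rw [hwη, hcw] at this
  exact sub_eq_zero.mp this

theorem WD.locsurj {z : ℂ} (hz : z ∉ W.Λ) {ε : ℝ} (hε : 0 < ε) : ∃ δ : ℝ, 0 < δ ∧ ∀ x y : ℂ,
    y ^ 2 = 4 * x ^ 3 - W.g2 * x - W.g3 → ‖x - W.X z‖ < δ → ‖y - W.Y z‖ < δ →
    ∃ z', ‖z' - z‖ < ε ∧ z' ∉ W.Λ ∧ W.X z' = x ∧ W.Y z' = y := by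
  have hb : ∀ᶠ w in 𝓝 z, ‖w - z‖ < ε := by
    filter_upwards [ball_mem_nhds z hε] with w hw
    rwa [mem_ball, dist_eq_norm] at hw
  by_cases hY : W.Y z = 0
  · have hD : 6 * W.X z ^ 2 - W.g2 / 2 ≠ 0 := (W.nonsing hz).resolve_left (by simpa using hY)
    have hs : HasStrictDerivAt W.Y (6 * W.X z ^ 2 - W.g2 / 2) z := by
      have := (W.analytic_Y hz).hasStrictDerivAt
      rwa [(W.dY z hz).deriv] at this
    have hP : Continuous fun p : ℂ × ℂ ↦ 4 * (p.1 ^ 2 + p.1 * p.2 + p.2 ^ 2) - W.g2 := by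
      fun_prop
    have hP' := (hP.continuousAt (x := (W.X z, W.X z))).eventually_ne (y := 0) (by
      intro h
      apply hD
      linear_combination h / 2)
    obtain ⟨δ2, hδ2, h2⟩ := Metric.eventually_nhds_iff.mp hP'
    have hc : ∀ᶠ w in 𝓝 z, dist (W.X w) (W.X z) < δ2 :=
      (W.dX z hz).continuousAt.eventually (ball_mem_nhds _ hδ2)
    have him := image_mem_map (m := W.Y) (hb.and ((W.ev_notMem hz).and hc))
    rw [hs.map_nhds_eq hD] at him
    obtain ⟨δ1, hδ1, h1⟩ := Metric.mem_nhds_iff.mp him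
    refine ⟨min δ1 δ2, lt_min hδ1 hδ2, fun x y he hx hy ↦ ?_⟩
    obtain ⟨w, ⟨w1, w2, w3⟩, w4⟩ := h1 (show y ∈ ball (W.Y z) δ1 by
      rw [mem_ball, dist_eq_norm]; exact hy.trans_le (min_le_left _ _))
    refine ⟨w, w1, w2, ?_, w4⟩
    have k := h2 (y := (W.X w, x)) (by
      rw [Prod.dist_eq, max_lt_iff]
      exact ⟨w3, by rw [dist_eq_norm]; exact hx.trans_le (min_le_right _ _)⟩)
    have e := W.eqn w w2
    rw [w4, he] at e
    have : (W.X w - x) * (4 * (W.X w ^ 2 + W.X w * x + x ^ 2) - W.g2) = 0 := by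
      linear_combination -e
    exact sub_eq_zero.mp ((mul_eq_zero.mp this).resolve_right k)
  · have hs : HasStrictDerivAt W.X (W.Y z) z := by
      have := (W.analytic_X hz).hasStrictDerivAt
      rwa [(W.dX z hz).deriv] at this
    have hn : 0 < ‖W.Y z‖ := norm_pos_iff.mpr hY
    have hc : ∀ᶠ w in 𝓝 z, dist (W.Y w) (W.Y z) < ‖W.Y z‖ :=
      (W.dY z hz).continuousAt.eventually (ball_mem_nhds _ hn)
    have him := image_mem_map (m := W.X) (hb.and ((W.ev_notMem hz).and hc))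
    rw [hs.map_nhds_eq hY] at him
    obtain ⟨δ1, hδ1, h1⟩ := Metric.mem_nhds_iff.mp him
    refine ⟨min δ1 ‖W.Y z‖, lt_min hδ1 hn, fun x y he hx hy ↦ ?_⟩
    obtain ⟨w, ⟨w1, w2, w3⟩, w4⟩ := h1 (show x ∈ ball (W.X z) δ1 by
      rw [mem_ball, dist_eq_norm]; exact hx.trans_le (min_le_left _ _))
    refine ⟨w, w1, w2, w4, ?_⟩
    have e := W.eqn w w2
    rw [w4, ← he] at e
    rcases sq_eq_sq_iff_eq_or_eq_neg.mp e with h | h
    · exact h
    · exfalso
      rw [dist_eq_norm, h] at w3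
      have hy' := hy.trans_le (min_le_right _ _)
      have k : ‖(2 : ℂ) * W.Y z‖ ≤ ‖-y - W.Y z‖ + ‖y - W.Y z‖ := by
        rw [show (2 : ℂ) * W.Y z = -((-y - W.Y z) + (y - W.Y z)) by ring, norm_neg]
        exact norm_add_le _ _
      rw [norm_mul, Complex.norm_ofNat] at k
      linarith

theorem der0_inl (G v : Fin 3 → ℂ) (i : Fin 3) : der0 G v (MvPolynomial.X (Sum.inl i)) =
    MvPolynomial.C (v i) * MvPolynomial.X (Sum.inr i) := by
  simp [der0, MvPolynomial.mkDerivation_X]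

theorem der0_inr (G v : Fin 3 → ℂ) (i : Fin 3) : der0 G v (MvPolynomial.X (Sum.inr i)) =
    MvPolynomial.C (v i) * (6 * MvPolynomial.X (Sum.inl i) ^ 2 - MvPolynomial.C (G i)) := by
  simp [der0, MvPolynomial.mkDerivation_X]

theorem der0_C (G v : Fin 3 → ℂ) (c : ℂ) : der0 G v (MvPolynomial.C c) = 0 :=
  MvPolynomial.derivation_C _ _

theorem der0_mul (G v : Fin 3 → ℂ) (f g : R) :
    der0 G v (f * g) = f * der0 G v g + g * der0 G v f := by
  simp [Derivation.leibniz]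

theorem der0_ofNat (G v : Fin 3 → ℂ) (n : ℕ) [n.AtLeastTwo] :
    der0 G v (ofNat(n) : R) = 0 := by
  rw [← Nat.cast_ofNat]
  exact Derivation.map_natCast _ _

theorem der0_add (G v v' : Fin 3 → ℂ) (f : R) : der0 G (v + v') f = der0 G v f + der0 G v' f := by
  have : der0 G (v + v') = der0 G v + der0 G v' := by
    apply MvPolynomial.derivation_ext
    rintro (i | i)
    · simp only [Derivation.add_apply, der0_inl, Pi.add_apply, map_add]; ring
    · simp only [Derivation.add_apply, der0_inr, Pi.add_apply, map_add]; ring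
  rw [this, Derivation.add_apply]

theorem der0_smul (G v : Fin 3 → ℂ) (c : ℂ) (f : R) : der0 G (c • v) f = c • der0 G v f := by
  have : der0 G (c • v) = c • der0 G v := by
    apply MvPolynomial.derivation_ext
    rintro (i | i)
    · simp only [Derivation.smul_apply, der0_inl, Pi.smul_apply, smul_eq_mul, map_mul,
        MvPolynomial.smul_eq_C_mul]; ring
    · simp only [Derivation.smul_apply, der0_inr, Pi.smul_apply, smul_eq_mul, map_mul,
        MvPolynomial.smul_eq_C_mul]; ring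
  rw [this, Derivation.smul_apply]

theorem der0_comm (G v v' : Fin 3 → ℂ) (f : R) :
    der0 G v (der0 G v' f) = der0 G v' (der0 G v f) := by
  have : ⁅der0 G v, der0 G v'⁆ = 0 := by
    apply MvPolynomial.derivation_ext
    rintro (i | i)
    · simp only [Derivation.commutator_apply, der0_inl, der0_mul, der0_inr, der0_C,
        Derivation.zero_apply]
      ring
    · simp only [Derivation.commutator_apply, der0_inl, der0_mul, der0_inr, der0_C,
        Derivation.zero_apply, map_sub, pow_two, der0_ofNat]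
      ring
  have h := Derivation.commutator_apply (D1 := der0 G v) (D2 := der0 G v') f
  rw [this, Derivation.zero_apply] at h
  exact (sub_eq_zero.mp h.symm)

theorem der_cub (W : Fin 3 → WD) (v : Fin 3 → ℂ) (i : Fin 3) : der W v (cub W i) = 0 := by
  have h : (MvPolynomial.C (W i).g2 : R) = 2 * MvPolynomial.C ((W i).g2 / 2) := by
    rw [show (2 : R) = MvPolynomial.C 2 from rfl, ← map_mul]
    congr 1
    ring
  simp only [der, cub, map_sub, pow_succ, pow_zero, one_mul, der0_mul, der0_inl, der0_inr, der0_C,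
    der0_ofNat]
  rw [h]
  ring

theorem ev_inl (W : Fin 3 → WD) (z : Fin 3 → ℂ) (i : Fin 3) :
    ev W z (MvPolynomial.X (Sum.inl i)) = (W i).X (z i) := by
  simp [ev, pt]

theorem ev_inr (W : Fin 3 → WD) (z : Fin 3 → ℂ) (i : Fin 3) :
    ev W z (MvPolynomial.X (Sum.inr i)) = (W i).Y (z i) := by
  simp [ev, pt]

theorem ev_C (W : Fin 3 → WD) (z : Fin 3 → ℂ) (c : ℂ) : ev W z (MvPolynomial.C c) = c := by
  simp [ev]

theorem ev_cub {W : Fin 3 → WD} {z : Fin 3 → ℂ} (hz : Reg W z) (i : Fin 3) :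
    ev W z (cub W i) = 0 := by
  simp only [cub, map_sub, map_mul, map_pow, ev_inl, ev_inr, ev_C, map_ofNat]
  exact sub_eq_zero.mpr ((W i).eqn _ (hz i))

theorem isOpen_reg (W : Fin 3 → WD) : IsOpen {z | Reg W z} := by
  have : {z | Reg W z} = ⋂ i, (fun z : Fin 3 → ℂ ↦ z i) ⁻¹' ((W i).Λ : Set ℂ)ᶜ := by
    ext z
    simp [Reg]
  rw [this]
  exact isOpen_iInter_of_finite fun i ↦
    (W i).isClosed.isOpen_compl.preimage (continuous_apply i)

theorem analyticAt_ev {W : Fin 3 → WD} {z : Fin 3 → ℂ} (hz : Reg W z) (f : R) :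
    AnalyticAt ℂ (fun z ↦ ev W z f) z := by
  have hp : ∀ i : Fin 3, AnalyticAt ℂ (fun z : Fin 3 → ℂ ↦ z i) z := fun i ↦
    (ContinuousLinearMap.proj (R := ℂ) (φ := fun _ : Fin 3 ↦ ℂ) i).analyticAt z
  refine AnalyticAt.aeval_mvPolynomial (f := fun z ↦ pt W z) ?_ f
  rintro (i | i)
  · exact ((W i).analytic_X (hz i)).comp_of_eq (hp i) rfl
  · exact ((W i).analytic_Y (hz i)).comp_of_eq (hp i) rfl

theorem hasDerivAt_ev {W : Fin 3 → WD} {z v : Fin 3 → ℂ} {s : ℂ} (hz : Reg W (z + s • v)) (f : R) :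
    HasDerivAt (fun s : ℂ ↦ ev W (z + s • v) f) (ev W (z + s • v) (der W v f)) s := by
  have hl : ∀ i, HasDerivAt (fun s : ℂ ↦ (z + s • v) i) (v i) s := fun i ↦ by
    simpa using ((hasDerivAt_id s).mul_const (v i)).const_add (z i)
  induction f using MvPolynomial.induction_on with
  | C a =>
    simp only [ev_C, der, der0_C, map_zero]
    exact hasDerivAt_const _ _
  | add p q hp hq =>
    simp only [map_add]
    exact hp.add hq
  | mul_X p n hp =>
    have hn : HasDerivAt (fun s : ℂ ↦ ev W (z + s • v) (MvPolynomial.X n))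
        (ev W (z + s • v) (der W v (MvPolynomial.X n))) s := by
      rcases n with i | i
      · simp only [der, der0_inl, map_mul, ev_C, ev_inl, ev_inr]
        exact (((W i).dX _ (hz i)).comp s (hl i)).congr_deriv (mul_comm _ _)
      · simp only [der, der0_inr, map_mul, map_sub, map_pow, map_ofNat, ev_C, ev_inl, ev_inr]
        exact (((W i).dY _ (hz i)).comp s (hl i)).congr_deriv (mul_comm _ _)
    simp only [map_mul]
    refine (hp.mul hn).congr_deriv ?_
    simp only [der, der0_mul, map_add, map_mul]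
    ring

theorem fderiv_ev {W : Fin 3 → WD} {z : Fin 3 → ℂ} (hz : Reg W z) (f : R) (v : Fin 3 → ℂ) :
    fderiv ℂ (fun z ↦ ev W z f) z v = ev W z (der W v f) := by
  have h0 : z + (0 : ℂ) • v = z := by simp
  have h1 := hasDerivAt_ev (W := W) (z := z) (v := v) (s := 0) (by rwa [h0]) f
  rw [h0] at h1
  have hl : HasDerivAt (fun s : ℂ ↦ z + s • v) v 0 := by
    simpa using ((hasDerivAt_id (0 : ℂ)).smul_const v).const_add z
  have h2 := (analyticAt_ev hz f).differentiableAt.hasFDerivAt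
  rw [← h0] at h2
  have h3 := h2.comp_hasDerivAt (0 : ℂ) hl
  rw [h0] at h3
  exact h3.unique h1

theorem ev_add_period {W : Fin 3 → WD} (z : Fin 3 → ℂ) {l : Fin 3 → ℂ} (hl : ∀ i, l i ∈ (W i).Λ)
    (f : R) : ev W (z + l) f = ev W z f := by
  have : pt W (z + l) = pt W z := by
    funext n
    rcases n with i | i
    · exact (W i).perX _ (hl i) _
    · exact (W i).perY _ (hl i) _
  simp only [ev, this]

end WDL

end Pool.Agent.Lib.ZP3
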