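import Pool.Agent.Lib.ZP3.JBasic0
import Pool.Agent.Lib.ZP3.WdLem
import Pool.Agent.Lib.ZP3.WdExA
import Pool.Agent.Lib.ZP3.Arith

/-! Block JB: injectivity of `j` modulo the modular group and its consequences. -/

open UpperHalfPlane Filter Topology Metric
open scoped Real MatrixGroups Manifold

namespace Pool.Agent.Lib.ZP3

open Pool.Agent.Lib.MP_0704bf_ag Pool.Agent.Lib.helper6

theorem JB.exists_scale {a b a' b' l : ℂ} (hl : l ≠ 0) (ha : a' ^ 3 = l * a ^ 3)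
    (hb : b' ^ 2 = l * b ^ 2) : ∃ Ω : ℂ, Ω ≠ 0 ∧ a' = Ω ^ 4 * a ∧ b' = Ω ^ 6 * b := by
  by_cases ha0 : a = 0
  · have ha' : a' = 0 := by
      rw [ha0] at ha
      exact pow_eq_zero_iff (n := 3) (by norm_num) |>.mp (by rw [ha]; ring)
    by_cases hb0 : b = 0
    · have hb' : b' = 0 := by
        rw [hb0] at hb
        exact pow_eq_zero_iff (n := 2) (by norm_num) |>.mp (by rw [hb]; ring)
      exact ⟨1, one_ne_zero, by simp [ha0, ha'], by simp [hb0, hb']⟩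
    · have hb' : b' ≠ 0 := by
        intro h
        rw [h] at hb
        exact mul_ne_zero hl (pow_ne_zero 2 hb0) (by rw [← hb]; ring)
      obtain ⟨Ω, hΩ⟩ := IsAlgClosed.exists_pow_nat_eq (b' / b) (n := 6) (by norm_num)
      refine ⟨Ω, ?_, by simp [ha0, ha'], by rw [hΩ]; field_simp⟩
      rintro rfl
      exact div_ne_zero hb' hb0 (by rw [← hΩ]; ring)
  · have ha' : a' ≠ 0 := by
      intro h
      rw [h] at ha
      exact mul_ne_zero hl (pow_ne_zero 3 ha0) (by rw [← ha]; ring)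
    by_cases hb0 : b = 0
    · have hb' : b' = 0 := by
        rw [hb0] at hb
        exact pow_eq_zero_iff (n := 2) (by norm_num) |>.mp (by rw [hb]; ring)
      obtain ⟨Ω, hΩ⟩ := IsAlgClosed.exists_pow_nat_eq (a' / a) (n := 4) (by norm_num)
      refine ⟨Ω, ?_, by rw [hΩ]; field_simp, by simp [hb0, hb']⟩
      rintro rfl
      exact div_ne_zero ha' ha0 (by rw [← hΩ]; ring)
    · have hb' : b' ≠ 0 := by
        intro h
        rw [h] at hb
        exact mul_ne_zero hl (pow_ne_zero 2 hb0) (by rw [← hb]; ring)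
      obtain ⟨Ω, hΩ⟩ := IsAlgClosed.exists_pow_nat_eq (b' * a / (b * a')) (n := 2) (by norm_num)
      have key : b' ^ 2 * a ^ 3 = b ^ 2 * a' ^ 3 := by rw [ha, hb]; ring
      refine ⟨Ω, ?_, ?_, ?_⟩
      · rintro rfl
        exact div_ne_zero (mul_ne_zero hb' ha0) (mul_ne_zero hb0 ha') (by rw [← hΩ]; ring)
      · rw [show Ω ^ 4 = (Ω ^ 2) ^ 2 by ring, hΩ]
        field_simp
        linear_combination -key
      · rw [show Ω ^ 6 = (Ω ^ 2) ^ 3 by ring, hΩ]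
        field_simp
        linear_combination -key

theorem JB.int_indep {τ : ℂ} (hτ : 0 < τ.im) {m n m' n' : ℤ}
    (h : (m : ℂ) + n * τ = m' + n' * τ) : m = m' ∧ n = n' := by
  have h1 := congrArg Complex.im h
  simp only [Complex.add_im, Complex.intCast_im, Complex.mul_im, Complex.intCast_re, zero_mul,
    add_zero, zero_add] at h1
  have h2 : n = n' := by exact_mod_cast mul_right_cancel₀ hτ.ne' h1
  subst h2
  exact ⟨by exact_mod_cast add_right_cancel h, rfl⟩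

theorem mob_det_nonneg {τ τ' : ℂ} (h1 : 0 < τ.im) (h2 : 0 < τ'.im) {a b c d : ℤ}
    (hm : Mob a b c d τ τ') : 0 ≤ a * d - b * c := by
  have h := mob_normSq hm
  have h3 : (0 : ℝ) ≤ ((a * d - b * c : ℤ) : ℝ) * τ'.im := by rw [← h]; positivity
  exact_mod_cast nonneg_of_mul_nonneg_left h3 h2

theorem j_inj {τ τ' : ℍ} (h : jInv τ = jInv τ') : Rel 1 τ τ' := by
  have hΔ := ModularForm.discriminant_ne_zero τ
  have hΔ' := ModularForm.discriminant_ne_zero τ'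
  have e := ModularForm.discriminant_eq_E₄_cube_sub_E₆_sq τ
  have e' := ModularForm.discriminant_eq_E₄_cube_sub_E₆_sq τ'
  unfold jInv at h
  rw [div_eq_div_iff hΔ hΔ'] at h
  have ha : ModularForm.E₄ τ' ^ 3 =
      ModularForm.discriminant τ' / ModularForm.discriminant τ * ModularForm.E₄ τ ^ 3 := by
    field_simp
    linear_combination -h
  have hb : ModularForm.E₆ τ' ^ 2 =
      ModularForm.discriminant τ' / ModularForm.discriminant τ * ModularForm.E₆ τ ^ 2 := by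
    field_simp
    linear_combination -h - 1728 * ModularForm.discriminant τ' * e +
      1728 * ModularForm.discriminant τ * e'
  obtain ⟨Ω, hΩ, h4, h6⟩ := JB.exists_scale (div_ne_zero hΔ' hΔ) ha hb
  obtain ⟨W, ⟨hW, hW2, hW3⟩, -⟩ := exists_ell τ (Ω := 1) one_ne_zero
  obtain ⟨W', ⟨hW', hW2', hW3'⟩, -⟩ := exists_ell τ' hΩ
  have hΛ : W.Λ = W'.Λ := by
    refine W.uniq W' ?_ ?_
    · rw [hW2, hW2', h4]
      field_simp
    · rw [hW3, hW3', h6]
      field_simp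
  have f1 : ∀ m n : ℤ, ∃ m' n' : ℤ, Ω * (m + n * τ') = m' + n' * τ := by
    intro m n
    obtain ⟨m', n', h'⟩ := (hW _).mp (hΛ ▸ (hW' _).mpr ⟨m, n, rfl⟩)
    exact ⟨m', n', by rw [h', one_mul]⟩
  have f2 : ∀ m n : ℤ, ∃ m' n' : ℤ, (m + n * τ : ℂ) = Ω * (m' + n' * τ') := by
    intro m n
    obtain ⟨m', n', h'⟩ := (hW' _).mp (hΛ ▸ (hW _).mpr ⟨m, n, rfl⟩)
    exact ⟨m', n', by rw [← h', one_mul]⟩
  obtain ⟨d, c, h1⟩ := f1 1 0
  obtain ⟨b, a, h2⟩ := f1 0 1
  obtain ⟨m1, n1, h3⟩ := f2 1 0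
  obtain ⟨m2, n2, h5⟩ := f2 0 1
  push_cast at h1 h2 h3 h5
  have hm : Mob a b c d τ τ' := by
    unfold Mob
    linear_combination h2 - τ' * h1
  obtain ⟨k1, k2⟩ := JB.int_indep τ.im_pos (m := 1) (n := 0) (m' := m1 * d + n1 * b)
    (n' := m1 * c + n1 * a) (by push_cast; linear_combination h3 + m1 * h1 + n1 * h2)
  obtain ⟨k3, k4⟩ := JB.int_indep τ.im_pos (m := 0) (n := 1) (m' := m2 * d + n2 * b)
    (n' := m2 * c + n2 * a) (by push_cast; linear_combination h5 + m2 * h1 + n2 * h2)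
  have hdet : (a * d - b * c) * (m1 * n2 - m2 * n1) = 1 := by
    have : (m1 * d + n1 * b) * (m2 * c + n2 * a) - (m1 * c + n1 * a) * (m2 * d + n2 * b) = 1 := by
      rw [← k1, ← k2, ← k3, ← k4]
      norm_num
    linear_combination this
  exact ⟨a, b, c, d, by
    exact_mod_cast Int.eq_one_of_mul_eq_one_right (mob_det_nonneg τ.im_pos τ'.im_pos hm) hdet, hm⟩

theorem Isog.lift {N : ℕ} {x y U : ℂ} (h : Isog N x y U) {τ τ' : ℍ} (hx : jInv τ = x)
    (hy : jInv τ' = y) : ∃ a b c d : ℤ, a * d - b * c = N ∧ Mob a b c d τ τ' ∧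
      U * ModularForm.discriminant τ = (a - c * τ') ^ 12 * ModularForm.discriminant τ' := by
  obtain ⟨τ0, τ1, a, b, c, d, hd, h0, h1, hm, hU⟩ := h
  obtain ⟨a0, b0, c0, d0, hd0, hm0⟩ := j_inj (hx.trans h0.symm)
  obtain ⟨a1, b1, c1, d1, hd1, hm1⟩ := j_inj (h1.trans hy.symm)
  have hd0' : a0 * d0 - b0 * c0 = 1 := by exact_mod_cast hd0
  have hd1' : a1 * d1 - b1 * c1 = 1 := by exact_mod_cast hd1
  refine ⟨_, _, _, _, ?_, (hm0.comp hm).comp hm1, ?_⟩
  · have : (a1 * d1 - b1 * c1) * (a * d - b * c) * (a0 * d0 - b0 * c0) = N := by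
      rw [hd0', hd1', hd]
      ring
    linear_combination this
  · rw [Mob.comp_mult _ _ hm1, Mob.comp_mult _ _ hm, ← disc_mob hd0' hm0, mul_pow, mul_pow,
      mul_assoc, disc_mob hd1' hm1, mul_left_comm, hU, mul_assoc]

theorem Iso.rel {N : ℕ} {x y : ℂ} (h : Iso N x y) {τ τ' : ℍ} (hx : jInv τ = x)
    (hy : jInv τ' = y) : Rel N τ τ' := by
  obtain ⟨U, hU⟩ := h
  obtain ⟨a, b, c, d, hd, hm, -⟩ := hU.lift hx hy
  exact ⟨a, b, c, d, hd, hm⟩

theorem Iso.trans {N N' : ℕ} {x y z : ℂ} (h : Iso N x y) (h' : Iso N' y z) :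
    Iso (N * N') x z := by
  obtain ⟨τ, -, rfl⟩ := j_surj x
  obtain ⟨τ', -, rfl⟩ := j_surj y
  obtain ⟨τ'', -, rfl⟩ := j_surj z
  exact iso_of_rel ((h.rel rfl rfl).trans (h'.rel rfl rfl))

theorem Isog.norm {N : ℕ} {x y U : ℂ} (h : Isog N x y U) {τ τ' : ℍ} (hx : jInv τ = x)
    (hy : jInv τ' = y) : ‖U‖ * del τ = (N : ℝ) ^ 6 * del τ' := by
  obtain ⟨a, b, c, d, hd, hm, hU⟩ := h.lift hx hy
  have h1 := mob_normSq hm
  rw [hd] at h1
  have h2 := congrArg Norm.norm hU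
  rw [norm_mul, norm_mul, norm_pow] at h2
  push_cast at h1
  simp only [coe_im] at h1
  unfold del
  calc ‖U‖ * (τ.im ^ 6 * ‖ModularForm.discriminant τ‖)
      = τ.im ^ 6 * (‖U‖ * ‖ModularForm.discriminant τ‖) := by ring
    _ = (‖(a : ℂ) - c * τ'‖ ^ 2 * τ.im) ^ 6 * ‖ModularForm.discriminant τ'‖ := by
      rw [h2]; ring
    _ = _ := by rw [h1]; ring

theorem MinIso.few {N : ℕ} {x y : ℂ} (h : MinIso N x y) :
    ∃ E : Finset ℂ, E.card ≤ 36 ∧ ∀ U, Isog N x y U → U ∈ E := by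
  classical
  obtain ⟨hN, -, hmin⟩ := h
  obtain ⟨τ, -, rfl⟩ := j_surj x
  obtain ⟨τ', -, rfl⟩ := j_surj y
  have hi := τ.im_pos
  have hi' := τ'.im_pos
  have hN' : (0 : ℝ) < N := by exact_mod_cast hN
  set ρ : ℝ := √(N * τ'.im / τ.im) with hρ
  have hρ0 : 0 < ρ := Real.sqrt_pos.mpr (by positivity)
  have hρ2 : ρ ^ 2 * τ.im = N * τ'.im := by
    rw [hρ, Real.sq_sqrt (by positivity)]
    field_simp
  let L : Set ℂ := {l | ∃ a b c d : ℤ, a * d - b * c = N ∧ Mob a b c d τ τ' ∧ l = a - c * τ'}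
  have hL1 : ∀ l ∈ L, ‖l - 0‖ ≤ ρ := by
    rintro l ⟨a, b, c, d, hd, hm, rfl⟩
    have h1 := mob_normSq hm
    rw [hd] at h1
    push_cast at h1
    simp only [coe_im] at h1
    rw [← hρ2] at h1
    rw [sub_zero]
    exact (abs_le_of_sq_le_sq' (mul_right_cancel₀ hi.ne' h1).le hρ0.le).2
  have hL2 : ∀ l ∈ L, ∀ l' ∈ L, ‖l - l'‖ < ρ → l = l' := by
    rintro l ⟨a, b, c, d, hd, hm, rfl⟩ l' ⟨a', b', c', d', hd', hm', rfl⟩ hlt
    have hs := hm.sub hm'
    have h0 := mob_det_nonneg τ.im_pos τ'.im_pos hs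
    have h1 := mob_normSq hs
    have e : (((a - a' : ℤ) : ℂ) - ((c - c' : ℤ) : ℂ) * τ') =
        (a - c * τ') - (a' - c' * τ') := by push_cast; ring
    rw [e] at h1
    simp only [coe_im] at h1
    obtain ⟨n, hn⟩ := Int.eq_ofNat_of_zero_le h0
    rw [hn] at h1
    push_cast at h1
    rcases Nat.eq_zero_or_pos n with hn0 | hn0
    · rw [hn0] at h1
      simp only [Nat.cast_zero, zero_mul, mul_eq_zero, hi.ne', or_false] at h1
      exact sub_eq_zero.mp (norm_eq_zero.mp (pow_eq_zero_iff (n := 2) (by norm_num) |>.mp h1))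
    · exfalso
      have h2 : N ≤ n := hmin n hn0 (iso_of_rel ⟨_, _, _, _, hn, hs⟩)
      have h3 : (N : ℝ) ≤ n := by exact_mod_cast h2
      have h4 : ‖((a : ℂ) - c * τ') - (a' - c' * τ')‖ ^ 2 < ρ ^ 2 :=
        pow_lt_pow_left₀ hlt (norm_nonneg _) (by norm_num)
      have h5 := mul_lt_mul_of_pos_right h4 hi
      have h6 := mul_le_mul_of_nonneg_right h3 hi'.le
      linarith
  have hcard : ∀ S : Finset ℂ, (∀ l ∈ S, l ∈ L) → S.card ≤ 36 := by
    intro S hS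
    have h1 := grid S 0 (R := ρ) (r := ρ) (Q := 1) hρ0.le hρ0 (fun s hs ↦ hL1 s (hS s hs)) (by
      intro S' hS' hd
      exact_mod_cast Finset.card_le_one.mpr fun l hl l' hl' ↦
        hL2 l (hS l (hS' hl)) l' (hS l' (hS' hl')) (hd l hl l' hl'))
    rw [mul_div_assoc, div_self hρ0.ne'] at h1
    norm_num at h1
    exact_mod_cast h1
  have hfin : L.Finite := by
    by_contra hinf
    obtain ⟨S, hS, hc⟩ := Set.Infinite.exists_subset_card_eq hinf 37
    have := hcard S fun l hl ↦ hS hl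
    omega
  refine ⟨hfin.toFinset.image fun l ↦
    l ^ 12 * ModularForm.discriminant τ' / ModularForm.discriminant τ, ?_, ?_⟩
  · exact Finset.card_image_le.trans (hcard _ fun l hl ↦ hfin.mem_toFinset.mp hl)
  · intro U hU
    obtain ⟨a, b, c, d, hd, hm, hU'⟩ := hU.lift rfl rfl
    refine Finset.mem_image.mpr ⟨a - c * τ', hfin.mem_toFinset.mpr ⟨a, b, c, d, hd, hm, rfl⟩, ?_⟩
    rw [← hU', mul_div_cancel_right₀ _ (ModularForm.discriminant_ne_zero τ)]

end Pool.Agent.Lib.ZP3
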