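import Pool.Agent.Lib.ZP3.Defs

open UpperHalfPlane Filter Topology Metric
open scoped Real

namespace Pool.Agent.Lib.ZP3

open Pool.Agent.Lib.MP_0704bf_ag Pool.Agent.Lib.helper6

/-- extension of a complex point along an integral map -/
theorem dens_ext {B S : Type} [CommRing B] [CommRing S] (ι : B →+* S) (hι : ι.IsIntegral)
    (τ : B →+* ℂ) (hk : RingHom.ker ι ≤ RingHom.ker τ) : ∃ χ : S →+* ℂ, ∀ b, χ (ι b) = τ b := by
  algebraize [ι]
  have : (RingHom.ker τ).IsPrime := RingHom.ker_isPrime τ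
  obtain ⟨Q, -, hQ, hQc⟩ := Ideal.exists_ideal_over_prime_of_isIntegral (S := S) (RingHom.ker τ) ⊥
    (by rw [← RingHom.ker_eq_comap_bot]; exact hk)
  have hle : ∀ a ∈ Q.comap (algebraMap B S), τ a = 0 := by
    intro a ha; rw [hQc] at ha; exact ha
  let : Algebra (B ⧸ Q.comap (algebraMap B S)) ℂ := (Ideal.Quotient.lift _ τ hle).toAlgebra
  have : (Q.comap (algebraMap B S)).IsPrime := Ideal.comap_isPrime _ _
  have : FaithfulSMul (B ⧸ Q.comap (algebraMap B S)) ℂ := by
    rw [faithfulSMul_iff_algebraMap_injective]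
    rw [injective_iff_map_eq_zero]
    intro a ha
    obtain ⟨a, rfl⟩ := Ideal.Quotient.mk_surjective a
    rw [Ideal.Quotient.eq_zero_iff_mem, hQc]
    exact ha
  have : FaithfulSMul (B ⧸ Q.comap (algebraMap B S)) (S ⧸ Q) := by
    rw [faithfulSMul_iff_algebraMap_injective]
    exact Ideal.algebraMap_quotient_injective
  let ψ : (S ⧸ Q) →ₐ[B ⧸ Q.comap (algebraMap B S)] ℂ := IsAlgClosed.lift
  refine ⟨ψ.toRingHom.comp (Ideal.Quotient.mk Q), fun b ↦ ?_⟩
  exact ψ.commutes (Ideal.Quotient.mk _ b)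

/-- algebraic part: a finite projection of the zero set of a prime -/
theorem dens_alg {σ : Type} [Fintype σ] (P : Ideal (MvPolynomial σ ℂ)) (hP : P.IsPrime) :
    ∃ (s : ℕ) (G : Fin s → MvPolynomial σ ℂ),
      (∀ h ∉ P, ∃ a : MvPolynomial (Fin s) ℂ, a ≠ 0 ∧ ∀ x : σ → ℂ,
        (∀ f ∈ P, MvPolynomial.eval x f = 0) → MvPolynomial.eval x h = 0 →
          MvPolynomial.eval (fun j ↦ MvPolynomial.eval x (G j)) a = 0) ∧
      ∀ φ : MvPolynomial σ ℂ, ∃ m : Polynomial (MvPolynomial (Fin s) ℂ), m.Monic ∧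
        (∀ x : σ → ℂ, (∀ f ∈ P, MvPolynomial.eval x f = 0) →
          m.eval₂ (MvPolynomial.eval fun j ↦ MvPolynomial.eval x (G j))
            (MvPolynomial.eval x φ) = 0) ∧
        ∀ (y : Fin s → ℂ) (T : ℂ), m.eval₂ (MvPolynomial.eval y) T = 0 →
          ∃ x : σ → ℂ, (∀ f ∈ P, MvPolynomial.eval x f = 0) ∧
            (fun j ↦ MvPolynomial.eval x (G j)) = y ∧ MvPolynomial.eval x φ = T := by
  obtain ⟨s, g, ginj, gint⟩ := exists_integral_inj_algHom_of_fg ℂ (MvPolynomial σ ℂ ⧸ P)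
  choose G hG using fun j ↦ Ideal.Quotient.mk_surjective (I := P) (g (MvPolynomial.X j))
  have key : ∀ (x : σ → ℂ) (hx : ∀ f ∈ P, MvPolynomial.eval x f = 0),
      (Ideal.Quotient.lift P (MvPolynomial.eval x) hx).comp g.toRingHom =
        MvPolynomial.eval fun j ↦ MvPolynomial.eval x (G j) := by
    intro x hx
    apply MvPolynomial.ringHom_ext
    · intro c
      have : g (MvPolynomial.C c) = Ideal.Quotient.mk P (MvPolynomial.C c) := g.commutes c
      simp [this]
    · intro j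
      simp [← hG j]
  let : Algebra (MvPolynomial (Fin s) ℂ) (MvPolynomial σ ℂ ⧸ P) := g.toRingHom.toAlgebra
  have : Algebra.IsIntegral (MvPolynomial (Fin s) ℂ) (MvPolynomial σ ℂ ⧸ P) := ⟨gint⟩
  have : FaithfulSMul (MvPolynomial (Fin s) ℂ) (MvPolynomial σ ℂ ⧸ P) := by
    rw [faithfulSMul_iff_algebraMap_injective]
    exact ginj
  refine ⟨s, G, fun h hh ↦ ?_, fun φ ↦ ?_⟩
  · have h0 : Ideal.Quotient.mk P h ≠ 0 := by rwa [Ne, Ideal.Quotient.eq_zero_iff_mem]
    have := Ideal.comap_ne_bot_of_integral_mem (R := MvPolynomial (Fin s) ℂ)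
      (I := Ideal.span {Ideal.Quotient.mk P h}) h0 (Ideal.mem_span_singleton_self _)
      (Algebra.IsIntegral.isIntegral _)
    obtain ⟨a, ha, ha0⟩ := Submodule.exists_mem_ne_zero_of_ne_bot this
    refine ⟨a, ha0, fun x hx hxh ↦ ?_⟩
    rw [Ideal.mem_comap, Ideal.mem_span_singleton] at ha
    obtain ⟨c, hc⟩ := ha
    rw [← key x hx]
    change Ideal.Quotient.lift P (MvPolynomial.eval x) hx (algebraMap _ _ a) = 0
    rw [hc, map_mul, Ideal.Quotient.lift_mk, hxh, zero_mul]
  · have hi : IsIntegral (MvPolynomial (Fin s) ℂ) (Ideal.Quotient.mk P φ) :=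
      Algebra.IsIntegral.isIntegral _
    refine ⟨minpoly _ (Ideal.Quotient.mk P φ), minpoly.monic hi, fun x hx ↦ ?_, fun y T hT ↦ ?_⟩
    · have h1 := minpoly.aeval (MvPolynomial (Fin s) ℂ) (Ideal.Quotient.mk P φ)
      have h2 := congrArg (Ideal.Quotient.lift P (MvPolynomial.eval x) hx) h1
      rw [Polynomial.aeval_def, Polynomial.hom_eval₂, map_zero, Ideal.Quotient.lift_mk] at h2
      rw [← key x hx]
      exact h2
    · obtain ⟨χ, hχ⟩ := dens_ext
        (Polynomial.aeval (R := MvPolynomial (Fin s) ℂ) (Ideal.Quotient.mk P φ)).toRingHom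
        (by
          apply RingHom.IsIntegral.tower_top Polynomial.C
          intro z
          have : (Polynomial.aeval (R := MvPolynomial (Fin s) ℂ)
              (Ideal.Quotient.mk P φ)).toRingHom.comp Polynomial.C = g.toRingHom := by
            refine RingHom.ext fun a ↦ ?_
            simp [RingHom.algebraMap_toAlgebra]
          rw [this]
          exact gint z)
        (Polynomial.eval₂RingHom (MvPolynomial.eval y) T)
        (by
          rw [minpoly.ker_eval hi, Ideal.span_le, Set.singleton_subset_iff]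
          exact hT)
      have hg : ∀ a, χ (g a) = MvPolynomial.eval y a := by
        intro a
        have := hχ (Polynomial.C a)
        simpa [RingHom.algebraMap_toAlgebra] using this
      have hev : ∀ f, MvPolynomial.eval (fun i ↦ χ (Ideal.Quotient.mk P (MvPolynomial.X i))) f =
          χ (Ideal.Quotient.mk P f) := by
        intro f
        have : MvPolynomial.eval (fun i ↦ χ (Ideal.Quotient.mk P (MvPolynomial.X i))) =
            χ.comp (Ideal.Quotient.mk P) := by
          apply MvPolynomial.ringHom_ext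
          · intro c
            have h1 : g (MvPolynomial.C c) = Ideal.Quotient.mk P (MvPolynomial.C c) :=
              g.commutes c
            rw [RingHom.comp_apply, ← h1, hg, MvPolynomial.eval_C, MvPolynomial.eval_C]
          · intro i
            simp
        rw [this]; rfl
      refine ⟨fun i ↦ χ (Ideal.Quotient.mk P (MvPolynomial.X i)), fun f hf ↦ ?_, ?_, ?_⟩
      · rw [hev, Ideal.Quotient.eq_zero_iff_mem.mpr hf, map_zero]
      · funext j
        rw [hev, hG, hg, MvPolynomial.eval_X]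
      · rw [hev]
        simpa using hχ Polynomial.X

theorem dens_sep {σ : Type} {F : Set (σ → ℂ)} (hF : F.Finite) (x : σ → ℂ) :
    ∃ ψ : MvPolynomial σ ℂ, MvPolynomial.eval x ψ ≠ 0 ∧
      ∀ z ∈ F, z ≠ x → MvPolynomial.eval z ψ = 0 := by
  classical
  have : ∀ z : σ → ℂ, ∃ l : MvPolynomial σ ℂ, MvPolynomial.eval x l ≠ 0 ∧
      (z ≠ x → MvPolynomial.eval z l = 0) := by
    intro z
    by_cases h : z = x
    · exact ⟨1, by simp, fun h' ↦ absurd h h'⟩
    · obtain ⟨i, hi⟩ := Function.ne_iff.mp h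
      refine ⟨MvPolynomial.X i - MvPolynomial.C (z i), ?_, fun _ ↦ by simp⟩
      simpa [sub_eq_zero] using hi.symm
  choose l hl hl' using this
  refine ⟨∏ z ∈ hF.toFinset, l z, ?_, fun z hz hzx ↦ ?_⟩
  · rw [map_prod]
    exact Finset.prod_ne_zero_iff.mpr fun z _ ↦ hl z
  · rw [map_prod]
    exact Finset.prod_eq_zero (hF.mem_toFinset.mpr hz) (hl' z hzx)

/-- a monic polynomial with a small value at `t` has a root near `t` -/
theorem dens_root {q : Polynomial ℂ} (hq : q.Monic) {t : ℂ} {δ : ℝ} (hδ : 0 < δ)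
    (h : ‖q.eval t‖ < δ ^ q.natDegree) : ∃ r, q.eval r = 0 ∧ ‖r - t‖ < δ := by
  by_contra hcon
  push Not at hcon
  have hs := IsAlgClosed.splits q
  have hc : q.roots.card = q.natDegree := hs.natDegree_eq_card_roots.symm
  have he := hs.eval_eq_prod_roots_of_monic hq t
  have : ∀ s : Multiset ℂ, (∀ r ∈ s, δ ≤ ‖r - t‖) →
      δ ^ s.card ≤ ‖(s.map fun r ↦ t - r).prod‖ := by
    intro s
    induction s using Multiset.induction_on with
    | empty => simp
    | cons a s ih =>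
      intro hs
      rw [Multiset.card_cons, Multiset.map_cons, Multiset.prod_cons, norm_mul, pow_succ',
        norm_sub_rev]
      exact mul_le_mul (hs a (Multiset.mem_cons_self _ _))
        (ih fun r hr ↦ hs r (Multiset.mem_cons_of_mem hr)) (by positivity) (norm_nonneg _)
  have h1 := this q.roots fun r hr ↦ hcon r (Polynomial.isRoot_of_mem_roots hr)
  rw [hc, ← he] at h1
  linarith

theorem dens_cont {s : ℕ} (m : Polynomial (MvPolynomial (Fin s) ℂ)) (t : ℂ) :
    Continuous fun y : Fin s → ℂ ↦ m.eval₂ (MvPolynomial.eval y) t := by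
  simp only [Polynomial.eval₂_eq_sum_range]
  exact continuous_finsetSum _ fun i _ ↦
    (MvPolynomial.continuous_eval (m.coeff i)).mul continuous_const

/-- roots are locally bounded -/
theorem dens_bdd {s : ℕ} {m : Polynomial (MvPolynomial (Fin s) ℂ)} (hm : m.Monic)
    (y0 : Fin s → ℂ) : ∃ M : ℝ, ∀ y, ‖y - y0‖ ≤ 1 → ∀ t : ℂ,
      m.eval₂ (MvPolynomial.eval y) t = 0 → ‖t‖ ≤ M := by
  have : ∀ i, ∃ M : ℝ, ∀ y ∈ closedBall y0 1, ‖MvPolynomial.eval y (m.coeff i)‖ ≤ M := fun i ↦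
    (isCompact_closedBall y0 1).exists_bound_of_continuousOn
      (MvPolynomial.continuous_eval (m.coeff i)).continuousOn
  choose M hM using this
  refine ⟨∑ i ∈ Finset.range m.natDegree, |M i| + 1, fun y hy t ht ↦ ?_⟩
  have hq := hm.map (MvPolynomial.eval y)
  have hr : (m.map (MvPolynomial.eval y)).IsRoot t := by
    rw [Polynomial.IsRoot, Polynomial.eval_map, ht]
  have h1 := hr.norm_lt_cauchyBound hq.ne_zero
  rw [Polynomial.cauchyBound, hq.leadingCoeff, hm.natDegree_map, nnnorm_one, div_one] at h1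
  have h2 : ((Finset.range m.natDegree).sup fun i ↦ ‖(m.map (MvPolynomial.eval y)).coeff i‖₊) ≤
      ⟨∑ i ∈ Finset.range m.natDegree, |M i|, by positivity⟩ := by
    refine Finset.sup_le fun i hi ↦ ?_
    rw [← NNReal.coe_le_coe, Polynomial.coeff_map]
    exact ((hM i y (by rwa [mem_closedBall, dist_eq_norm])).trans (le_abs_self _)).trans
      (Finset.single_le_sum (f := fun i ↦ |M i|) (fun _ _ ↦ abs_nonneg _) hi)
  have h3 := h1.le.trans (add_le_add_left h2 1)
  rw [← NNReal.coe_le_coe] at h3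
  exact h3

theorem dens_gen {s : ℕ} {a : MvPolynomial (Fin s) ℂ} (ha : a ≠ 0) (y0 : Fin s → ℂ) {η : ℝ}
    (hη : 0 < η) : ∃ y, ‖y - y0‖ < η ∧ MvPolynomial.eval y a ≠ 0 := by
  by_contra hcon
  push Not at hcon
  apply ha
  refine MvPolynomial.funext_set (fun j ↦ ball (y0 j) η)
    (fun j ↦ infinite_of_mem_nhds (y0 j) (ball_mem_nhds _ hη)) fun y hy ↦ ?_
  rw [map_zero]
  apply hcon
  rw [pi_norm_lt_iff hη]
  intro j
  simpa [dist_eq_norm] using hy j (Set.mem_univ _)

theorem dens {σ : Type} [Fintype σ] (P : Ideal (MvPolynomial σ ℂ)) (hP : P.IsPrime) {x : σ → ℂ}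
    (hx : ∀ f ∈ P, MvPolynomial.eval x f = 0) {h : MvPolynomial σ ℂ} (hh : h ∉ P) {ε : ℝ}
    (hε : 0 < ε) : ∃ x' : σ → ℂ, ‖x' - x‖ < ε ∧ (∀ f ∈ P, MvPolynomial.eval x' f = 0) ∧
      MvPolynomial.eval x' h ≠ 0 := by
  obtain ⟨s, G, hG1, hG2⟩ := dens_alg P hP
  obtain ⟨a, ha, ha'⟩ := hG1 h hh
  choose m hm hm1 hm2 using hG2
  set y0 : Fin s → ℂ := fun j ↦ MvPolynomial.eval x (G j) with hy0
  have hF : (Set.pi Set.univ fun i : σ ↦
      {t : ℂ | ((m (MvPolynomial.X i)).map (MvPolynomial.eval y0)).IsRoot t}).Finite :=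
    Set.Finite.pi fun i ↦ Polynomial.finite_setOfPred_isRoot ((hm _).map _).ne_zero
  obtain ⟨ψ, hψ, hψ'⟩ := dens_sep hF x
  have step : ∀ n : ℕ, ∃ z : σ → ℂ, (∀ f ∈ P, MvPolynomial.eval z f = 0) ∧
      MvPolynomial.eval z h ≠ 0 ∧
      ‖(fun j ↦ MvPolynomial.eval z (G j)) - y0‖ < 1 / ((n : ℝ) + 1) ∧
      ‖MvPolynomial.eval z ψ - MvPolynomial.eval x ψ‖ < ‖MvPolynomial.eval x ψ‖ / 2 := by
    intro n
    have hδ : 0 < ‖MvPolynomial.eval x ψ‖ / 2 := by positivity
    have hc := (dens_cont (m ψ) (MvPolynomial.eval x ψ)).continuousAt (x := y0)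
    rw [Metric.continuousAt_iff] at hc
    obtain ⟨η, hη, hη'⟩ := hc _ (pow_pos hδ (m ψ).natDegree)
    obtain ⟨y, hy, hya⟩ := dens_gen ha y0 (lt_min hη (Nat.one_div_pos_of_nat (n := n)))
    have h1 := hη' (x := y) (by rw [dist_eq_norm]; exact hy.trans_le (min_le_left _ _))
    rw [hm1 ψ x hx, dist_zero_right, ← Polynomial.eval_map, 
      ← (hm ψ).natDegree_map (MvPolynomial.eval y)] at h1
    obtain ⟨r, hr, hr'⟩ := dens_root ((hm ψ).map _) hδ h1
    rw [Polynomial.eval_map] at hr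
    obtain ⟨z, hz, hzy, hzr⟩ := hm2 ψ y r hr
    refine ⟨z, hz, fun h0 ↦ hya ?_, ?_, by rwa [hzr]⟩
    · rw [← hzy]; exact ha' z hz h0
    · rw [hzy]; exact hy.trans_le (min_le_right _ _)
  choose z hz hzh hzy hzψ using step
  choose M hM using fun i : σ ↦ dens_bdd (hm (MvPolynomial.X i)) y0
  have hb : ∀ n, z n ∈ closedBall (0 : σ → ℂ) (∑ i, |M i|) := by
    intro n
    rw [mem_closedBall_zero_iff, pi_norm_le_iff_of_nonneg (by positivity)]
    intro i
    have h1 := hm1 (MvPolynomial.X i) (z n) (hz n)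
    rw [MvPolynomial.eval_X] at h1
    have h2 : 1 / ((n : ℝ) + 1) ≤ 1 := by
      rw [div_le_one (by positivity)]; linarith [Nat.cast_nonneg (α := ℝ) n]
    exact ((hM i _ ((hzy n).le.trans h2) _ h1).trans (le_abs_self _)).trans
      (Finset.single_le_sum (f := fun i ↦ |M i|) (fun _ _ ↦ abs_nonneg _) (Finset.mem_univ i))
  obtain ⟨w, -, φ, hφ, hlim⟩ := (isCompact_closedBall (0 : σ → ℂ) (∑ i, |M i|)).tendsto_subseq hb
  have hev : ∀ f : MvPolynomial σ ℂ, Tendsto (fun n ↦ MvPolynomial.eval (z (φ n)) f) atTop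
      (𝓝 (MvPolynomial.eval w f)) := fun f ↦
    ((MvPolynomial.continuous_eval f).tendsto w).comp hlim
  have hw : ∀ f ∈ P, MvPolynomial.eval w f = 0 := by
    intro f hf
    refine tendsto_nhds_unique (hev f) ?_
    simp only [hz _ f hf]
    exact tendsto_const_nhds
  have hwy : (fun j ↦ MvPolynomial.eval w (G j)) = y0 := by
    have h1 : Tendsto (fun n ↦ fun j ↦ MvPolynomial.eval (z (φ n)) (G j)) atTop
        (𝓝 fun j ↦ MvPolynomial.eval w (G j)) := tendsto_pi_nhds.mpr fun j ↦ hev (G j)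
    refine tendsto_nhds_unique h1 ?_
    have h2 : Tendsto (fun n ↦ fun j ↦ MvPolynomial.eval (z n) (G j)) atTop (𝓝 y0) := by
      rw [tendsto_iff_norm_sub_tendsto_zero]
      exact squeeze_zero (fun _ ↦ norm_nonneg _) (fun n ↦ (hzy n).le)
        tendsto_one_div_add_atTop_nhds_zero_nat
    exact h2.comp hφ.tendsto_atTop
  have hwx : w = x := by
    by_contra hne
    have h1 : MvPolynomial.eval w ψ = 0 := by
      refine hψ' w (fun i _ ↦ ?_) hne
      have := hm1 (MvPolynomial.X i) w hw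
      rw [hwy, MvPolynomial.eval_X] at this
      simpa [Polynomial.eval_map] using this
    have h2 := ((hev ψ).sub_const (MvPolynomial.eval x ψ)).norm
    have h3 := le_of_tendsto' h2 fun n ↦ (hzψ (φ n)).le
    rw [h1, zero_sub, norm_neg] at h3
    have := norm_pos_iff.mpr hψ
    linarith
  rw [hwx, Metric.tendsto_atTop] at hlim
  obtain ⟨N, hN⟩ := hlim ε hε
  exact ⟨z (φ N), by simpa [dist_eq_norm] using hN N le_rfl, hz _, hzh _⟩

theorem isolated {σ : Type} [Fintype σ] (I : Ideal (MvPolynomial σ ℂ)) {x : σ → ℂ}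
    (hx : ∀ f ∈ I, MvPolynomial.eval x f = 0)
    (hiso : ∀ᶠ x' in 𝓝 x, (∀ f ∈ I, MvPolynomial.eval x' f = 0) → x' = x) :
    ∃ (s : MvPolynomial σ ℂ) (k : ℕ), MvPolynomial.eval x s ≠ 0 ∧
      ∀ f ∈ (RingHom.ker (MvPolynomial.eval x)) ^ k, s * f ∈ I := by
  classical
  obtain ⟨ε, hε, hiso'⟩ := Metric.eventually_nhds_iff.mp hiso
  have h1 : ∀ Q ∈ I.minimalPrimes, ∃ t : MvPolynomial σ ℂ, MvPolynomial.eval x t ≠ 0 ∧
      ∀ f ∈ RingHom.ker (MvPolynomial.eval x), t * f ∈ Q := by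
    intro Q hQ
    by_cases hle : ∀ f ∈ Q, MvPolynomial.eval x f = 0
    · refine ⟨1, by simp, fun f hf ↦ ?_⟩
      rw [one_mul]
      by_contra hfQ
      obtain ⟨z, hz, hzQ, hzf⟩ := dens Q hQ.1.1 hle hfQ hε
      have := hiso' (y := z) (by rwa [dist_eq_norm]) fun g hg ↦ hzQ g (hQ.1.2 hg)
      rw [this] at hzf
      exact hzf hf
    · push Not at hle
      obtain ⟨t, ht, ht'⟩ := hle
      exact ⟨t, ht', fun f _ ↦ Q.mul_mem_right f ht⟩
  choose! t ht ht' using h1
  have hfin := Ideal.finite_minimalPrimes_of_isNoetherianRing _ I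
  obtain ⟨k, hk⟩ := I.exists_radical_pow_le_of_fg I.radical.fg_of_isNoetherianRing
  set s0 := ∏ Q ∈ hfin.toFinset, t Q with hs0
  have h2 : Ideal.span {s0} * RingHom.ker (MvPolynomial.eval x) ≤ I.radical := by
    rw [← I.sInf_minimalPrimes, Ideal.span_singleton_mul_le_iff]
    intro f hf
    rw [Ideal.mem_sInf]
    intro Q hQ
    rw [hs0, ← Finset.prod_erase_mul _ _ (hfin.mem_toFinset.mpr hQ), mul_assoc]
    exact Q.mul_mem_left _ (ht' Q hQ f hf)
  refine ⟨s0 ^ k, k, ?_, fun f hf ↦ hk ?_⟩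
  · rw [map_pow, hs0, map_prod]
    exact pow_ne_zero _ (Finset.prod_ne_zero_iff.mpr fun Q hQ ↦ ht Q (hfin.mem_toFinset.mp hQ))
  · refine Ideal.pow_right_mono h2 k ?_
    rw [mul_pow]
    exact Ideal.mul_mem_mul (Ideal.pow_mem_pow (Ideal.mem_span_singleton_self s0) k) hf

theorem dens_int (W : Fin 3 → WD) (Q : Ideal R) (hc : ∀ i, cub W i ∈ Q) :
    ((Ideal.Quotient.mk Q).comp
      (MvPolynomial.rename (R := ℂ) (Sum.inl : Fin 3 → Var)).toRingHom).IsIntegral := by
  intro r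
  obtain ⟨r, rfl⟩ := Ideal.Quotient.mk_surjective r
  have hX : ∀ v : Var, ((Ideal.Quotient.mk Q).comp
      (MvPolynomial.rename (R := ℂ) (Sum.inl : Fin 3 → Var)).toRingHom).IsIntegralElem
        (Ideal.Quotient.mk Q (MvPolynomial.X v)) := by
    rintro (i | i)
    · have := RingHom.isIntegralElem_map ((Ideal.Quotient.mk Q).comp
        (MvPolynomial.rename (R := ℂ) (Sum.inl : Fin 3 → Var)).toRingHom) (x := MvPolynomial.X i)
      simpa using this
    · refine ⟨Polynomial.X ^ 2 - Polynomial.C (4 * MvPolynomial.X i ^ 3 -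
        MvPolynomial.C (W i).g2 * MvPolynomial.X i - MvPolynomial.C (W i).g3),
        Polynomial.monic_X_pow_sub_C _ two_ne_zero, ?_⟩
      have := Ideal.Quotient.eq_zero_iff_mem.mpr (hc i)
      rw [Polynomial.eval₂_sub, Polynomial.eval₂_X_pow, Polynomial.eval₂_C, ← this, cub]
      simp [map_ofNat]
  induction r using MvPolynomial.induction_on with
  | C c =>
    have := RingHom.isIntegralElem_map ((Ideal.Quotient.mk Q).comp
      (MvPolynomial.rename (R := ℂ) (Sum.inl : Fin 3 → Var)).toRingHom) (x := MvPolynomial.C c)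
    simpa using this
  | add p q hp hq => rw [map_add]; exact hp.add _ hq
  | mul_X p v hp => rw [map_mul]; exact hp.mul _ (hX v)

/-- a chain of four primes above the three cubics and a nonzero polynomial in the `X_i` stalls -/
theorem chain_stalls (W : Fin 3 → WD) (P : Fin 4 → Ideal R) (hP : ∀ k, (P k).IsPrime)
    (hmono : Monotone P) (hc : ∀ i, cub W i ∈ P 0) {F : MvPolynomial (Fin 3) ℂ} (hF : F ≠ 0)
    (hF' : MvPolynomial.rename Sum.inl F ∈ P 0) :
    ∃ k : Fin 3, P k.castSucc = P k.succ := by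
  by_contra hcon
  push Not at hcon
  let f : MvPolynomial (Fin 3) ℂ →+* R :=
    (MvPolynomial.rename (R := ℂ) (Sum.inl : Fin 3 → Var)).toRingHom
  have hlt : ∀ k : Fin 3, (P k.castSucc).comap f < (P k.succ).comap f := by
    intro k
    have hle : P k.castSucc ≤ P k.succ := hmono k.castSucc_lt_succ.le
    obtain ⟨r, hr1, hr2⟩ := SetLike.exists_of_lt (lt_of_le_of_ne hle (hcon k))
    obtain ⟨p, hp, hp'⟩ := dens_int W (P k.castSucc) (fun i ↦ hmono (Fin.zero_le _) (hc i))
      (Ideal.Quotient.mk _ r)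
    have := hP k.castSucc
    have : ((P k.castSucc).comap f).IsPrime := Ideal.comap_isPrime _ _
    refine Ideal.comap_lt_comap_of_root_mem_sdiff hle ⟨hr1, hr2⟩
      (Polynomial.map_monic_ne_zero hp) ?_
    rw [← Ideal.Quotient.eq_zero_iff_mem, Polynomial.hom_eval₂]
    exact hp'
  let q : Fin 4 → PrimeSpectrum (MvPolynomial (Fin 3) ℂ) := fun k ↦
    ⟨(P k).comap f, by have := hP k; exact Ideal.comap_isPrime _ _⟩
  have hq : StrictMono q := Fin.strictMono_iff_lt_succ.mpr fun k ↦ hlt k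
  have h0 : (⟨⊥, Ideal.isPrime_bot⟩ : PrimeSpectrum (MvPolynomial (Fin 3) ℂ)) < q 0 := by
    change (⊥ : Ideal (MvPolynomial (Fin 3) ℂ)) < (P 0).comap f
    rw [bot_lt_iff_ne_bot]
    intro h
    have : F ∈ (P 0).comap f := hF'
    rw [h] at this
    exact hF this
  let l : LTSeries (PrimeSpectrum (MvPolynomial (Fin 3) ℂ)) := (LTSeries.mk 3 q hq).cons _ h0
  have h1 := Order.LTSeries.length_le_krullDim l
  have h2 : ringKrullDim (MvPolynomial (Fin 3) ℂ) = 3 := by
    rw [MvPolynomial.ringKrullDim_of_isNoetherianRing, ringKrullDim_eq_zero_of_field]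
    simp
  rw [ringKrullDim] at h2
  rw [h2] at h1
  have h3 : l.length = 4 := rfl
  rw [h3] at h1
  exact absurd h1 (by decide)

end Pool.Agent.Lib.ZP3
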