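import Pool.Agent.Lib.ZP3.Zero1

open Filter Topology Metric

namespace Pool.Agent.Lib.ZP3

namespace Zero

variable {W : Fin 3 → WD}

/-- vanishing on the coset `x + H` near `x` -/
def Zc (W : Fin 3 → WD) (H : Submodule ℂ (Fin 3 → ℂ)) (x : Fin 3 → ℂ) (f : R) : Prop :=
  ∀ᶠ h : H in 𝓝 0, ev W (x + h) f = 0

lemma Zc.der {H : Submodule ℂ (Fin 3 → ℂ)} {x : Fin 3 → ℂ} (hx : Reg W x) {f : R}
    (hf : Zc W H x f) {v : Fin 3 → ℂ} (hv : v ∈ H) : Zc W H x (der W v f) := by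
  have hr : ∀ᶠ h : H in 𝓝 0, Reg W (x + h) :=
    reg_eventually (g := fun h : H ↦ x + (h : Fin 3 → ℂ)) (by fun_prop) (by simpa using hx)
  filter_upwards [hr, hf.eventually_nhds] with h h1 h2
  have hc : Tendsto (fun s : ℂ ↦ h + s • (⟨v, hv⟩ : H)) (𝓝 0) (𝓝 h) := by
    have : Continuous (fun s : ℂ ↦ h + s • (⟨v, hv⟩ : H)) := by fun_prop
    simpa using this.tendsto 0
  have h3 : (fun s : ℂ ↦ ev W (x + h + s • v) f) =ᶠ[𝓝 0] fun _ ↦ 0 := by
    filter_upwards [hc.eventually h2] with s hs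
    simpa [add_assoc] using hs
  have h4 := hasDerivAt_ev (z := x + h) (v := v) (s := 0) (by simpa using h1) f
  have h5 := h4.unique ((hasDerivAt_const (0 : ℂ) (0 : ℂ)).congr_of_eventuallyEq h3)
  simpa using h5

/-- vanishing on the coset to order `n` along `V` -/
def ZZ (W : Fin 3 → WD) (V H : Submodule ℂ (Fin 3 → ℂ)) (x : Fin 3 → ℂ) (n : ℕ) (f : R) : Prop :=
  ∀ m : List (Fin 3 → ℂ), (∀ v ∈ m, v ∈ V) → m.length < n → Zc W H x (wd W m f)

lemma ZZ.der_H {V H : Submodule ℂ (Fin 3 → ℂ)} {x : Fin 3 → ℂ} (hx : Reg W x) {n : ℕ} {f : R}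
    (hf : ZZ W V H x n f) {v : Fin 3 → ℂ} (hv : v ∈ H) : ZZ W V H x n (der W v f) := by
  intro m hm hn
  rw [wd_der]
  exact (hf m hm hn).der hx hv

lemma ZZ.der_sup {V H : Submodule ℂ (Fin 3 → ℂ)} {x : Fin 3 → ℂ} (hx : Reg W x) {n : ℕ} {f : R}
    (hf : ZZ W V H x (n + 1) f) {v : Fin 3 → ℂ} (hv : v ∈ V ⊔ H) :
    ZZ W V H x n (der W v f) := by
  obtain ⟨a, ha, b, hb, rfl⟩ := Submodule.mem_sup.mp hv
  intro m hm hn
  have h1 := hf (a :: m) (by simpa [ha] using hm) (by simpa using hn)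
  have h2 := hf.der_H hx hb m hm (by omega)
  rw [der_add, wd_add]
  filter_upwards [h1, h2] with h g1 g2
  rw [map_add, g2, add_zero]
  exact g1

lemma ZZ.van {V H : Submodule ℂ (Fin 3 → ℂ)} {x : Fin 3 → ℂ} (hx : Reg W x)
    {b : Fin 3 → Fin 3 → ℂ} {w : Fin 3 → ℕ} {L T : ℕ}
    (hb : ∀ i, b i ∈ H ∨ (b i ∈ V ⊔ H ∧ w i = L) ∨ w i = L * T) {f : R}
    (hf : ZZ W V H x T f) : Van W b w x (L * T) f := by
  suffices ∀ (l : List (Fin 3)) (f : R) (n : ℕ), n ≤ T → ZZ W V H x n f →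
      (l.map w).sum < L * n → ev W x (word W b l f) = 0 from fun l hl ↦ this l f T le_rfl hf hl
  intro l
  induction l with
  | nil =>
    intro f n _ hf hl
    have := (hf [] (by simp) (Nat.pos_of_mul_pos_left (by simpa using hl))).self_of_nhds
    simpa [word] using this
  | cons i l ih =>
    intro f n hn hf hl
    rw [List.map_cons, List.sum_cons] at hl
    change ev W x (word W b l (der W (b i) f)) = 0
    rcases hb i with h | ⟨h, h'⟩ | h
    · exact ih _ n hn (hf.der_H hx h) (by omega)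
    · obtain ⟨n, rfl⟩ : ∃ k, n = k + 1 := ⟨n - 1, by
        rcases n with _ | n
        · simp at hl
        · rfl⟩
      refine ih _ n (by omega) (hf.der_sup hx h) ?_
      rw [h', mul_add] at hl
      omega
    · have := Nat.mul_le_mul_left L hn
      omega

lemma word_zero (b : Fin 3 → Fin 3 → ℂ) (l : List (Fin 3)) : word W b l 0 = 0 := by
  induction l with
  | nil => rfl
  | cons i l ih =>
    change word W b l (der W (b i) 0) = 0
    rw [map_zero, ih]

lemma van_slice {x : Fin 3 → ℂ} {b : Fin 3 → Fin 3 → ℂ} {w : Fin 3 → ℕ} {T : ℕ} {j : Fin 3}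
    (hb : ∀ i, w i = T ∨ b i j = 0) :
    Van W b w x T (MvPolynomial.X (Sum.inl j) - MvPolynomial.C ((W j).X (x j))) := by
  intro l hl
  rcases l with _ | ⟨i, l⟩
  · simp [word, ev, pt]
  · rw [List.map_cons, List.sum_cons] at hl
    rcases hb i with h | h
    · omega
    · change ev W x (word W b l (der W (b i) _)) = 0
      have : der W (b i) (MvPolynomial.X (Sum.inl j) - MvPolynomial.C ((W j).X (x j))) = 0 := by
        simp [der, der0, h]
      rw [this, word_zero, map_zero]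

lemma C_mem_Md (a : ℂ) (d : ℕ) : MvPolynomial.C a ∈ Md d := by
  intro m hm
  have : m = 0 := by simpa using MvPolynomial.support_monomial_subset hm
  simp [this]

lemma slice_mem_Md (j : Fin 3) (a : ℂ) (L : ℕ) :
    (MvPolynomial.X (Sum.inl j) - MvPolynomial.C a : R) ^ L ∈ Md (6 * L) := by
  have h1 : (MvPolynomial.X (Sum.inl j) - MvPolynomial.C a : R) ∈ Md 6 := by
    refine sub_mem ?_ (C_mem_Md a 6)
    intro m hm
    have : m = Finsupp.single (Sum.inl j) 1 := by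
      simpa using MvPolynomial.support_monomial_subset hm
    intro i
    rw [this, Finsupp.single_apply, Finsupp.single_apply]
    split_ifs <;> simp_all
  induction L with
  | zero => simpa using C_mem_Md 1 0
  | succ L ih => simpa [pow_succ, mul_add] using Md_mul ih h1

/-- the ideals generated by the derivatives along the hyperplane -/
noncomputable def II (W : Fin 3 → WD) (β : Fin 3 → ℂ) (f : R) (n : ℕ) : Ideal R :=
  Ideal.span (Set.range (cub W) ∪
    {g | ∃ m : List (Fin 3 → ℂ), (∀ v ∈ m, v ∈ hyp β) ∧ m.length ≤ n ∧ g = wd W m f})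

lemma II_mono {β : Fin 3 → ℂ} {f : R} {n n' : ℕ} (h : n ≤ n') : II W β f n ≤ II W β f n' :=
  Ideal.span_mono (Set.union_subset_union_right _ fun _ ⟨m, h1, h2, h3⟩ ↦
    ⟨m, h1, h2.trans h, h3⟩)

lemma wd_mem_II {β : Fin 3 → ℂ} {f : R} {n : ℕ} {m : List (Fin 3 → ℂ)} (h1 : ∀ v ∈ m, v ∈ hyp β)
    (h2 : m.length ≤ n) : wd W m f ∈ II W β f n :=
  Ideal.subset_span (Or.inr ⟨m, h1, h2, rfl⟩)

lemma cub_mem_II {β : Fin 3 → ℂ} {f : R} {n : ℕ} (i : Fin 3) : cub W i ∈ II W β f n :=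
  Ideal.subset_span (Or.inl ⟨i, rfl⟩)

lemma II_le_ker {β z : Fin 3 → ℂ} {f : R} {n : ℕ} (hz : Reg W z)
    (h : ∀ m : List (Fin 3 → ℂ), (∀ v ∈ m, v ∈ hyp β) → m.length ≤ n → ev W z (wd W m f) = 0) :
    II W β f n ≤ RingHom.ker (ev W z) := by
  rw [II, Ideal.span_le]
  rintro _ (⟨i, rfl⟩ | ⟨m, h1, h2, rfl⟩)
  · exact ev_cub hz i
  · exact h m h1 h2

lemma exists_sep {I P : Ideal R} (hP : P ∈ I.minimalPrimes) : ∃ f0, f0 ∉ P ∧
    ∀ z : Fin 3 → ℂ, I ≤ RingHom.ker (ev W z) → ev W z f0 ≠ 0 → ∀ f ∈ P, ev W z f = 0 := by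
  classical
  have hfin := Ideal.finite_minimalPrimes_of_isNoetherianRing R I
  have hex : ∀ Q ∈ hfin.toFinset.erase P, ∃ g, g ∈ Q ∧ g ∉ P := by
    intro Q hQ
    rw [Finset.mem_erase, Set.Finite.mem_toFinset] at hQ
    by_contra hcon
    push Not at hcon
    exact hQ.1 (le_antisymm hcon (hP.2 hQ.2.1 hcon))
  choose! g hg hg' using hex
  have hprime := hP.1.1
  refine ⟨∏ Q ∈ hfin.toFinset.erase P, g Q, ?_, fun z hz h0 f hf ↦ ?_⟩
  · rw [Ideal.IsPrime.prod_mem_iff]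
    rintro ⟨Q, hQ, h⟩
    exact hg' Q hQ h
  · have := RingHom.ker_isPrime (ev W z)
    obtain ⟨Q, hQ, hQ'⟩ := Ideal.exists_minimalPrimes_le hz
    by_cases hQP : Q = P
    · exact hQ' (hQP ▸ hf)
    · have hm : Q ∈ hfin.toFinset.erase P := by simp [hQP, hQ]
      refine absurd ?_ h0
      rw [map_prod]
      exact Finset.prod_eq_zero hm (hQ' (hg Q hm))

lemma key {β p : Fin 3 → ℂ} {F : MvPolynomial (Fin 3) ℂ} {L T n0 : ℕ} (hL : 1 ≤ L)
    (hdeg : ∀ i, F.degreeOf i ≤ L) {P : Ideal R}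
    (hP : P ∈ (II W β (MvPolynomial.rename Sum.inl F) n0).minimalPrimes)
    (hP' : II W β (MvPolynomial.rename Sum.inl F) (n0 + T) ≤ P) (hp : p ∈ VV W P)
    {J : Finset (Fin 3)} (hJ : ∀ v ∈ stab W P, (∀ j ∈ J, v j = 0) → v = 0)
    {g0 : Fin 3 → ℂ} (hg0 : g0 ∈ stab W P) (hg0' : ∀ j ∈ J, g0 j ∈ (W j).Λ) {s : ℕ}
    (hs : ∀ n : ℕ, 0 < n → n < s → ∃ i, (n : ℂ) * g0 i ∉ (W i).Λ)
    {b : Fin 3 → Fin 3 → ℂ} (hb : LinearIndependent ℂ b) {w e : Fin 3 → ℕ}
    (hw : ∀ i, 0 < w i) (hwe : ∀ i, w i * e i ≤ L * T)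
    (hty : ∀ i, (b i ∈ stab W P ∧ w i = T) ∨ ((∀ j ∈ J, b i j = 0) ∧
      ((b i ∈ hyp β ⊔ stab W P ∧ w i = L) ∨ w i = L * T))) :
    s * (e 0 * e 1 * e 2) ≤ 46656 * L ^ 3 := by
  classical
  set F0 : R := MvPolynomial.rename Sum.inl F with hF0
  have hprime : P.IsPrime := hP.1.1
  have hcub : ∀ i, cub W i ∈ P := fun i ↦ hP' (cub_mem_II i)
  obtain ⟨G, hG1, hG2⟩ := translated W F L hdeg
  obtain ⟨f0, hf0, hf0'⟩ := exists_sep (W := W) hP
  obtain ⟨η1, hη1, hη1'⟩ := (VV.dense hprime hcub hp hf0).exists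
  -- a generic parameter on the line
  obtain ⟨c, hc1, hc2⟩ : ∃ c : ℂ, (∀ m : ℤ, Reg W (η1 + (m : ℂ) • g0 + c • g0)) ∧
      ev W (η1 + c • g0) f0 ≠ 0 := by
    have h1 : (⋃ m : ℤ, {c : ℂ | ¬ Reg W (η1 + (m : ℂ) • g0 + c • g0)}).Countable :=
      Set.countable_iUnion fun m ↦ countable_line hη1.1 g0 _ fun i hi ↦ by simp [hi]
    have h2 : ∀ᶠ c : ℂ in 𝓝 0, ev W (η1 + c • g0) f0 ≠ 0 := by
      have : ContinuousAt (fun c : ℂ ↦ ev W (η1 + c • g0) f0) 0 :=
        (hasDerivAt_ev (z := η1) (v := g0) (s := 0) (by simpa using hη1.1) f0).continuousAt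
      exact this.eventually_ne (by simpa using hη1')
    obtain ⟨c, hc, hc'⟩ := ((mem_closure_iff_frequently.mp (h1.dense_compl ℂ 0)).and_eventually
      h2).exists
    exact ⟨c, by simpa using hc, hc'⟩
  set y0 := η1 + c • g0 with hy0
  have hreg : ∀ m : ℤ, Reg W (y0 + (m : ℂ) • g0) := fun m ↦ by
    rw [hy0, add_right_comm]
    exact hc1 m
  have hy0V : y0 ∈ VV W P := VV.add hη1 ((stab W P).smul_mem _ hg0) (by simpa using hreg 0)
  -- a generic base point
  obtain ⟨q, hq⟩ : ∃ q : Fin 3 → ℂ, ∀ i, (q i ∉ (W i).Λ ∧ (W i).Y (q i) ≠ 0) ∧ ∀ n : ℕ,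
      q i + n * g0 i ∉ (W i).Λ ∧ y0 i - n * g0 i - q i ∉ (W i).Λ ∧
        (W i).X (q i + n * g0 i) ≠ (W i).X (y0 i - n * g0 i - q i) := by
    have : ∀ i, ∃ q : ℂ, (q ∉ (W i).Λ ∧ (W i).Y q ≠ 0) ∧ ∀ n : ℕ,
        q + n * g0 i ∉ (W i).Λ ∧ y0 i - n * g0 i - q ∉ (W i).Λ ∧
          (W i).X (q + n * g0 i) ≠ (W i).X (y0 i - n * g0 i - q) := by
      intro i
      have h1 : ∀ a : ℂ, {q : ℂ | q + a ∈ (W i).Λ}.Countable := fun a ↦
        (W i).countable.preimage_of_injOn (f := fun q : ℂ ↦ q + a) (add_left_injective a).injOn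
      have h2 : ∀ a : ℂ, {q : ℂ | a - q ∈ (W i).Λ}.Countable := fun a ↦
        (W i).countable.preimage_of_injOn (f := fun q : ℂ ↦ a - q) sub_right_injective.injOn
      have h3 := ((W i).countable.union (W i).countable_Y).union
        (Set.countable_iUnion fun n : ℕ ↦ ((h1 (n * g0 i)).union (h2 (y0 i - n * g0 i))).union
          ((W i).countable_eq (a := n * g0 i) (b := y0 i - n * g0 i) (by simpa using hy0V.1 i)))
      obtain ⟨q, hq⟩ := (h3.dense_compl ℂ).nonempty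
      simp only [Set.mem_compl_iff, Set.mem_union, SetLike.mem_coe, Set.mem_setOf_eq,
        Set.mem_iUnion, not_or, not_and, not_exists] at hq
      exact ⟨q, ⟨hq.1.1, hq.1.2 hq.1.1⟩, fun n ↦ ⟨(hq.2 n).1.1, (hq.2 n).1.2,
        (hq.2 n).2 (hq.2 n).1.1 (hq.2 n).1.2⟩⟩
    choose q hq using this
    exact ⟨q, hq⟩
  let x : ℕ → Fin 3 → ℂ := fun n ↦ q + (n : ℂ) • g0
  have hxr : ∀ n, Reg W (x n) := fun n i ↦ ((hq i).2 n).1
  have hxd : ∀ n n', n' < n → n < s → ∃ i, x n i - x n' i ∉ (W i).Λ := by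
    intro n n' h1 h2
    obtain ⟨i, hi⟩ := hs (n - n') (by omega) (by omega)
    refine ⟨i, ?_⟩
    rw [Nat.cast_sub h1.le] at hi
    convert hi using 2
    simp only [x, Pi.add_apply, Pi.smul_apply, smul_eq_mul]
    ring
  have hxd' : ∀ n n', n < s → n' < s → n ≠ n' → ∃ i, x n i - x n' i ∉ (W i).Λ := by
    intro n n' h1 h2 h3
    rcases lt_or_gt_of_ne h3 with h | h
    · obtain ⟨i, hi⟩ := hxd n' n h h2
      exact ⟨i, fun h ↦ hi (by simpa using neg_mem h)⟩
    · exact hxd n n' h h1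
  have hinj : Set.InjOn x (Finset.range s) := by
    intro n hn n' hn' h
    by_contra hne
    obtain ⟨i, hi⟩ := hxd' n n' (by simpa using hn) (by simpa using hn') hne
    exact hi (by simp [h])
  have hxJ : ∀ n, ∀ j ∈ J, (W j).X (x n j) = (W j).X (q j) ∧ (W j).Y (x n j) = (W j).Y (q j) := by
    intro n j hj
    have : (n : ℂ) * g0 j ∈ (W j).Λ := by simpa using nsmul_mem (hg0' j hj) n
    exact ⟨(W j).perX _ this _, (W j).perY _ this _⟩
  let 𝒢 : Set R := {g | ∃ (η : Fin 3 → ℂ) (l : List (Fin 3 → ℂ)), η ∈ VV W P ∧ Reg W (η - q) ∧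
      (∀ n : ℕ, n < s → Reg W (η + (n : ℂ) • g0)) ∧ (∀ v ∈ l, v ∈ hyp β) ∧ l.length ≤ n0 ∧
      g = G l (η - q)} ∪
    {g | ∃ j ∈ J, g = (MvPolynomial.X (Sum.inl j) - MvPolynomial.C ((W j).X (q j))) ^ L}
  have hz := zcount W b hb w e (L * T) (6 * L) hw hwe ((Finset.range s).image x)
    (fun z hz ↦ by
      obtain ⟨n, -, rfl⟩ := Finset.mem_image.mp hz
      exact hxr n)
    (fun z hz z' hz' hne ↦ by
      obtain ⟨n, hn, rfl⟩ := Finset.mem_image.mp hz
      obtain ⟨n', hn', rfl⟩ := Finset.mem_image.mp hz'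
      exact hxd' n n' (by simpa using hn) (by simpa using hn') fun h ↦ hne (by rw [h]))
    𝒢 (by
      rintro _ (⟨η, l, -, -, -, -, -, rfl⟩ | ⟨j, -, rfl⟩)
      · exact hG1 _ _
      · exact slice_mem_Md _ _ _) ?_ ?_
  · rw [Finset.card_image_of_injOn hinj, Finset.card_range] at hz
    exact hz.trans (le_of_eq (by ring))
  · -- vanishing
    rintro _ (⟨η, l, h1, h2, h3, h4, h5, rfl⟩ | ⟨j, hj, rfl⟩) z hz
    · obtain ⟨n, hn, rfl⟩ := Finset.mem_image.mp hz
      refine ZZ.van (V := hyp β) (H := stab W P) (hxr n) (fun i ↦ ?_) fun m hm hm' ↦ ?_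
      · rcases hty i with h | ⟨-, h | h⟩
        · exact Or.inl h.1
        · exact Or.inr (Or.inl h)
        · exact Or.inr (Or.inr h)
      · have r1 : ∀ᶠ h : stab W P in 𝓝 0, Reg W (x n + h) :=
          reg_eventually (g := fun h : stab W P ↦ x n + (h : Fin 3 → ℂ)) (by fun_prop)
            (by simpa using hxr n)
        have r2 : ∀ᶠ h : stab W P in 𝓝 0, Reg W (η + ((n : ℂ) • g0 + h)) :=
          reg_eventually (g := fun h : stab W P ↦ η + ((n : ℂ) • g0 + (h : Fin 3 → ℂ)))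
            (by fun_prop) (by simpa using h3 n (by simpa using hn))
        filter_upwards [r1, r2] with h g1 g2
        have e : x n + h + (η - q) = η + ((n : ℂ) • g0 + h) := by simp only [x]; abel
        refine (hG2 (hyp β) (x n + h) (η - q) g1 h2 (e ▸ g2)).1 l m h4 hm fun m' k1 k2 ↦ ?_
        rw [e]
        exact (VV.add h1 (add_mem ((stab W P).smul_mem _ hg0) h.2) g2).2 _
          (hP' (wd_mem_II k1 (by omega)))
    · obtain ⟨n, hn, rfl⟩ := Finset.mem_image.mp hz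
      rw [← (hxJ n j hj).1]
      refine Van.pow hw (van_slice fun i ↦ ?_) L
      rcases hty i with h | h
      · exact Or.inl h.2
      · exact Or.inr (h.1 j hj)
  · -- isolation
    intro z hz
    obtain ⟨n, hn, rfl⟩ := Finset.mem_image.mp hz
    set ηn := y0 - (n : ℂ) • g0 with hηn
    have hprod : ∀ᶠ u : (Fin 3 → ℂ) × (Fin 3 → ℂ) in 𝓝 (x n, ηn), Reg W u.1 ∧ Reg W (u.2 - q) ∧
        (∀ n' : ℕ, n' < s → Reg W (u.2 + (n' : ℂ) • g0)) ∧ Reg W (u.1 + (u.2 - q)) ∧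
        (∀ i, (W i).X (u.1 i) ≠ (W i).X ((u.2 - q) i)) ∧ ev W (u.1 + (u.2 - q)) f0 ≠ 0 := by
      have e : x n + (ηn - q) = y0 := by simp only [x, hηn]; abel
      have r0 : Reg W (ηn - q) := fun i ↦ ((hq i).2 n).2.1
      refine (reg_eventually (g := fun u : (Fin 3 → ℂ) × (Fin 3 → ℂ) ↦ u.1) (by fun_prop)
        (hxr n)).and ((reg_eventually (g := fun u : (Fin 3 → ℂ) × (Fin 3 → ℂ) ↦ u.2 - q)
        (by fun_prop) r0).and (Eventually.and ?_ ((reg_eventually
        (g := fun u : (Fin 3 → ℂ) × (Fin 3 → ℂ) ↦ u.1 + (u.2 - q)) (by fun_prop)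
        (e ▸ hy0V.1)).and (Eventually.and ?_ ?_))))
      · refine ((Set.finite_lt_nat s).eventually_all (p := fun n' u ↦
          Reg W ((u : (Fin 3 → ℂ) × (Fin 3 → ℂ)).2 + (n' : ℂ) • g0))).mpr fun n' _ ↦ ?_
        refine reg_eventually (g := fun u : (Fin 3 → ℂ) × (Fin 3 → ℂ) ↦ u.2 + (n' : ℂ) • g0)
          (by fun_prop) ?_
        convert hreg (n' - n) using 1
        simp only [hηn]
        push_cast
        rw [sub_smul]
        abel
      · rw [eventually_all]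
        intro i
        have c1 : ContinuousAt (fun u : (Fin 3 → ℂ) × (Fin 3 → ℂ) ↦ (W i).X (u.1 i)) (x n, ηn) :=
          ContinuousAt.comp (f := fun u : (Fin 3 → ℂ) × (Fin 3 → ℂ) ↦ u.1 i)
            ((W i).analytic_X (hxr n i)).continuousAt (by fun_prop)
        have c2 : ContinuousAt (fun u : (Fin 3 → ℂ) × (Fin 3 → ℂ) ↦ (W i).X ((u.2 - q) i))
            (x n, ηn) :=
          ContinuousAt.comp (f := fun u : (Fin 3 → ℂ) × (Fin 3 → ℂ) ↦ (u.2 - q) i)
            ((W i).analytic_X (r0 i)).continuousAt (by fun_prop)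
        have := (c1.sub c2).eventually_ne (y := 0) (sub_ne_zero.mpr ((hq i).2 n).2.2)
        exact this.mono fun u hu ↦ sub_ne_zero.mp hu
      · have c1 : ContinuousAt (fun u : (Fin 3 → ℂ) × (Fin 3 → ℂ) ↦ ev W (u.1 + (u.2 - q)) f0)
            (x n, ηn) :=
          ContinuousAt.comp (f := fun u : (Fin 3 → ℂ) × (Fin 3 → ℂ) ↦ u.1 + (u.2 - q))
            (g := fun z ↦ ev W z f0) (analyticAt_ev (e ▸ hy0V.1) f0).continuousAt (by fun_prop)
        exact c1.eventually_ne (by rw [e]; exact hc2)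
    rw [nhds_prod_eq, eventually_prod_iff] at hprod
    obtain ⟨pa, hpa, pb, hpb, hab⟩ := hprod
    have hloc : ∀ᶠ z' : Fin 3 → ℂ in 𝓝 (x n), ∀ j ∈ J,
        (W j).X (z' j) = (W j).X (x n j) → z' j = x n j := by
      rw [Finset.eventually_all]
      intro j hj
      exact (continuous_apply j).continuousAt.eventually
        ((W j).locinj (hxr n j) (by rw [(hxJ n j hj).2]; exact (hq j).1.2))
    let C : Set (Fin 3 → ℂ) := {c | (∀ j ∈ J, c j = 0) ∧
      ∀ η ∈ VV W P, pb η → η + (n : ℂ) • g0 + c ∈ VV W P}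
    have hC : ∀ᶠ z' in 𝓝 (x n), (∀ g ∈ 𝒢, ev W z' g = 0) → z' - x n ∈ C := by
      filter_upwards [hpa, hloc] with z' k1 k2 k3
      refine ⟨fun j hj ↦ ?_, fun η hη hη' ↦ ?_⟩
      · have := k3 _ (Or.inr ⟨j, hj, rfl⟩)
        rw [map_pow, pow_eq_zero_iff (by omega)] at this
        simp only [ev, pt, map_sub, MvPolynomial.eval_X, MvPolynomial.eval_C, Sum.elim_inl] at this
        rw [Pi.sub_apply, k2 j hj (by rw [(hxJ n j hj).1]; exact sub_eq_zero.mp this), sub_self]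
      · obtain ⟨a1, a2, a3, a4, a5, a6⟩ := hab k1 hη'
        have e : η + (n : ℂ) • g0 + (z' - x n) = z' + (η - q) := by simp only [x]; abel
        rw [e]
        refine ⟨a4, hf0' _ (II_le_ker a4 ?_) a6⟩
        exact (hG2 (hyp β) z' (η - q) a1 a2 a4).2 n0 a5 fun l l1 l2 ↦
          k3 _ (Or.inl ⟨η, l, hη, a2, a3, l1, l2, rfl⟩)
    by_contra hcon
    have hfr : ∃ᶠ c in 𝓝 (0 : Fin 3 → ℂ), c ∈ C ∧ c ≠ 0 := by
      have ht : Tendsto (fun z' ↦ z' - x n) (𝓝 (x n)) (𝓝 0) := by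
        have : Continuous fun z' : Fin 3 → ℂ ↦ z' - x n := by fun_prop
        simpa using this.tendsto (x n)
      refine ht.frequently (((not_eventually.mp hcon).and_eventually hC).mono ?_)
      rintro z' ⟨k1, k2⟩
      push Not at k1
      exact ⟨k2 k1.1, sub_ne_zero.mpr k1.2⟩
    obtain ⟨c, hc0, hc⟩ := tangent hfr
    refine hc0 (hJ c (fun f hf ↦ ?_) fun j hj ↦ ?_)
    · by_contra hf'
      have ht : Tendsto (fun y ↦ y - (n : ℂ) • g0) (𝓝 y0) (𝓝 ηn) :=
        (by fun_prop : Continuous fun y : Fin 3 → ℂ ↦ y - (n : ℂ) • g0).tendsto y0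
      have r1 : ∀ᶠ y in 𝓝 y0, Reg W (y - (n : ℂ) • g0) :=
        reg_eventually (g := fun y : Fin 3 → ℂ ↦ y - (n : ℂ) • g0) (by fun_prop) (by
          convert hreg (-n) using 1
          push_cast
          rw [neg_smul, sub_eq_add_neg])
      obtain ⟨y, ⟨k1, k2⟩, k3, k4⟩ := ((VV.dense hprime hcub hy0V hf').and_eventually
        (r1.and (ht.eventually hpb))).exists
      have k5 : y - (n : ℂ) • g0 ∈ VV W P := by
        rw [sub_eq_add_neg] at k3 ⊢
        exact VV.add k1 (neg_mem ((stab W P).smul_mem _ hg0)) k3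
      refine k2 ?_
      rw [← fderiv_ev k1.1]
      refine hc (fun c' ↦ ev W (y + c') f) _ ?_ (by simpa using k1.2 f hf) fun c' hc' ↦ ?_
      · rw [hasFDerivAt_comp_add_left (f := fun z ↦ ev W z f), add_zero]
        exact (analyticAt_ev k1.1 f).differentiableAt.hasFDerivAt
      · simpa using (hc'.2 _ k5 k4).2 f hf
    · exact hc (fun c' ↦ c' j) (ContinuousLinearMap.proj j) (hasFDerivAt_apply j 0) rfl
        fun c' hc' ↦ hc'.1 j hj

end Zero

open Zero in
theorem zero_lemma (W : Fin 3 → WD) (β : Fin 3 → ℂ) (hβ : β 0 ≠ 0) (p : Fin 3 → ℂ) (hp : Reg W p)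
    (F : MvPolynomial (Fin 3) ℂ) (hF : F ≠ 0) (L T : ℕ) (hL : 1 ≤ L)
    (hdeg : ∀ i, F.degreeOf i ≤ L) (hT : 50000 * L ^ 3 < T ^ 2) (hT' : 50000 * L < T)
    (hv : ∀ a b : ℕ, a + b ≤ 3 * T → ev W p ((der W ![β 1, β 0, 0])^[a]
      ((der W ![β 2, 0, β 0])^[b] (MvPolynomial.rename Sum.inl F))) = 0) :
    Obs W β (50000 * L ^ 2) := by
  classical
  set F0 : R := MvPolynomial.rename Sum.inl F with hF0
  have hker := RingHom.ker_isPrime (ev W p)
  obtain ⟨P3, hP3, hP3'⟩ := Ideal.exists_minimalPrimes_le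
    (II_le_ker (β := β) (f := F0) (n := 3 * T) hp (words_vanish hβ hv))
  have := hP3.1.1
  obtain ⟨P2, hP2, hP2'⟩ := Ideal.exists_minimalPrimes_le
    ((II_mono (n := 2 * T) (by omega)).trans hP3.1.2)
  have := hP2.1.1
  obtain ⟨P1, hP1, hP1'⟩ := Ideal.exists_minimalPrimes_le
    ((II_mono (n := T) (by omega)).trans hP2.1.2)
  have := hP1.1.1
  obtain ⟨P0, hP0, hP0'⟩ := Ideal.exists_minimalPrimes_le
    ((II_mono (n := 0) (by omega)).trans hP1.1.2)
  have hF0m : F0 ∈ P0 := hP0.1.2 (wd_mem_II (m := []) (by simp) le_rfl)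
  obtain ⟨n0, P, hP, hP', hPp⟩ : ∃ n0 P, P ∈ (II W β F0 n0).minimalPrimes ∧
      II W β F0 (n0 + T) ≤ P ∧ P ≤ RingHom.ker (ev W p) := by
    obtain ⟨k, hk⟩ := chain_stalls W ![P0, P1, P2, P3] (fun k ↦ by
      fin_cases k
      exacts [hP0.1.1, hP1.1.1, hP2.1.1, hP3.1.1]) (by
        rw [Fin.monotone_iff_le_succ]
        intro k
        fin_cases k
        exacts [hP0', hP1', hP2']) (fun i ↦ hP0.1.2 (cub_mem_II i)) hF hF0m
    fin_cases k
    · have e : P0 = P1 := hk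
      exact ⟨0, P0, hP0, by rw [zero_add, e]; exact hP1.1.2,
        hP0'.trans (hP1'.trans (hP2'.trans hP3'))⟩
    · have e : P1 = P2 := hk
      exact ⟨T, P1, hP1, by rw [← two_mul, e]; exact hP2.1.2, hP1'.trans (hP2'.trans hP3')⟩
    · have e : P2 = P3 := hk
      exact ⟨2 * T, P2, hP2, by rw [show 2 * T + T = 3 * T by ring, e]; exact hP3.1.2,
        hP2'.trans hP3'⟩
  have hpV : p ∈ VV W P := ⟨hp, fun f hf ↦ hPp hf⟩
  have hT0 : 0 < T := by omega
  have hLT : 0 < L * T := Nat.mul_pos hL hT0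
  have hne := stab_ne_top hpV hF (hP' (wd_mem_II (m := []) (by simp) (by simp)))
  have hbot : stab W P ≠ ⊥ := by
    intro h0
    have := key (J := ∅) (g0 := 0) (s := 1) (b := ![![β 1, β 0, 0], ![β 2, 0, β 0], ![1, 0, 0]])
      (w := ![L, L, L * T]) (e := ![T, T, 1]) hL hdeg hP hP' hpV
      (fun v hv _ ↦ by simpa [h0] using hv) (zero_mem _) (by simp) (by omega) (by
        rw [Fintype.linearIndependent_iff]
        intro c hc
        have h0 := congrFun hc 0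
        have h1 := congrFun hc 1
        have h2 := congrFun hc 2
        simp [Fin.sum_univ_three, hβ] at h0 h1 h2
        intro i
        fin_cases i
        · exact h1
        · exact h2
        · simpa [h1, h2] using h0)
      (fun i ↦ by fin_cases i <;> simp <;> omega) (fun i ↦ by fin_cases i <;> simp)
      (fun i ↦ by
        refine Or.inr ⟨by simp, ?_⟩
        fin_cases i
        · exact Or.inl ⟨Submodule.mem_sup_left (by simp [mem_hyp, mul_comm]), rfl⟩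
        · exact Or.inl ⟨Submodule.mem_sup_left (by simp [mem_hyp, mul_comm]), rfl⟩
        · exact Or.inr rfl)
    simp at this
    nlinarith
  have hle : ∀ v ∈ stab W P, v ∈ hyp β := by
    intro h hh
    by_contra hh'
    have htop : ∀ v, v ∈ hyp β ⊔ stab W P := by
      intro v
      have hd : β 0 * h 0 - β 1 * h 1 - β 2 * h 2 ≠ 0 := fun e ↦ hh' (by
        rw [mem_hyp]; linear_combination e)
      refine Submodule.mem_sup.mpr ⟨v - ((β 0 * v 0 - β 1 * v 1 - β 2 * v 2) /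
        (β 0 * h 0 - β 1 * h 1 - β 2 * h 2)) • h, ?_, _, (stab W P).smul_mem _ hh,
        sub_add_cancel _ _⟩
      rw [mem_hyp]
      simp only [Pi.sub_apply, Pi.smul_apply, smul_eq_mul]
      field_simp
      ring
    obtain ⟨J, hJ1, hJ2⟩ := exists_valid (stab W P)
    obtain ⟨b, hb1, hb2, hb3⟩ := exists_basis hJ2
    obtain ⟨i0, hi0⟩ : ∃ i, i ∉ J := by
      by_contra hcon
      push Not at hcon
      refine hne (Submodule.eq_top_iff'.mpr fun v ↦ ?_)
      obtain ⟨u, hu, hu'⟩ := hJ2 v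
      exact (funext fun j ↦ hu' j (hcon j) : u = v) ▸ hu
    have := key (g0 := 0) (s := 1) (w := fun i ↦ if i ∈ J then T else L)
      (e := fun i ↦ if i ∈ J then L else T) hL hdeg hP hP' hpV hJ1 (zero_mem _) (by simp)
      (by omega) hb1 (fun i ↦ by split_ifs <;> omega)
      (fun i ↦ by split_ifs <;> simp [mul_comm]) (fun i ↦ by
        by_cases hi : i ∈ J
        · exact Or.inl ⟨hb2 i hi, by simp [hi]⟩
        · exact Or.inr ⟨hb3 i hi, Or.inl ⟨htop _, by simp [hi]⟩⟩)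
    have hge : ∀ i, L ≤ if i ∈ J then L else T := fun i ↦ by split_ifs <;> omega
    have h3 : L * L * T ≤ (if 0 ∈ J then L else T) * (if 1 ∈ J then L else T) *
        (if 2 ∈ J then L else T) := by
      have g0 := hge 0
      have g1 := hge 1
      have g2 := hge 2
      fin_cases i0
      · have : (0 : Fin 3) ∉ J := hi0
        rw [if_neg this]
        calc L * L * T = T * L * L := by ring
          _ ≤ _ := by gcongr
      · have : (1 : Fin 3) ∉ J := hi0
        rw [if_neg this]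
        calc L * L * T = L * T * L := by ring
          _ ≤ _ := by gcongr
      · have : (2 : Fin 3) ∉ J := hi0
        rw [if_neg this]
        gcongr
    have h4 : L * L * (50000 * L) < L * L * T := Nat.mul_lt_mul_of_pos_left hT' (by positivity)
    nlinarith
  refine ⟨stab W P, hbot, hle, fun J hJ1 hJ2 g hg hg' ↦ ?_⟩
  by_contra hcon
  push Not at hcon
  obtain ⟨b, hb1, hb2, hb3⟩ := exists_basis hJ2
  obtain ⟨i0, hi0⟩ : ∃ i, i ∈ J := by
    by_contra h0
    push Not at h0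
    exact hbot (Submodule.eq_bot_iff _ |>.mpr fun v hv ↦ hJ1 v hv fun j hj ↦ absurd hj (h0 j))
  have := key (s := 50000 * L ^ 2 + 1) (w := fun i ↦ if i ∈ J then T else L * T)
    (e := fun i ↦ if i ∈ J then L else 1) hL hdeg hP hP' hpV hJ1 hg hg'
    (fun n h1 h2 ↦ hcon n h1 (by omega)) hb1 (fun i ↦ by split_ifs <;> omega)
    (fun i ↦ by split_ifs <;> simp [mul_comm]) (fun i ↦ by
      by_cases hi : i ∈ J
      · exact Or.inl ⟨hb2 i hi, by simp [hi]⟩
      · exact Or.inr ⟨hb3 i hi, Or.inr (by simp [hi])⟩)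
  have hge : ∀ i, 1 ≤ if i ∈ J then L else 1 := fun i ↦ by split_ifs <;> omega
  have h3 : L ≤ (if 0 ∈ J then L else 1) * (if 1 ∈ J then L else 1) *
      (if 2 ∈ J then L else 1) := by
    have g0 := hge 0
    have g1 := hge 1
    have g2 := hge 2
    fin_cases i0
    · have : (0 : Fin 3) ∈ J := hi0
      rw [if_pos this]
      calc L = L * 1 * 1 := by ring
        _ ≤ _ := by gcongr
    · have : (1 : Fin 3) ∈ J := hi0
      rw [if_pos this]
      calc L = 1 * L * 1 := by ring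
        _ ≤ _ := by gcongr
    · have : (2 : Fin 3) ∈ J := hi0
      rw [if_pos this]
      calc L = 1 * 1 * L := by ring
        _ ≤ _ := by gcongr
  have h4 := Nat.mul_le_mul_left (50000 * L ^ 2 + 1) h3
  nlinarith [pow_pos (show 0 < L from hL) 3]

end Pool.Agent.Lib.ZP3
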