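import Pool.Agent.Lib.ZP3.BakerCore
import Pool.Agent.Lib.ZP3.Zero

/-! Baker's method for a linear form in three periods (block BAR). -/

namespace Pool.Agent.Lib.ZP3

theorem baker : ∃ k A0 : ℕ, ∀ (A : ℕ) (W : Fin 3 → WD) (β p u : Fin 3 → ℂ), A0 ≤ A → β 0 ≠ 0 →
    (∀ i, (W i).Size (p i) (u i) A) → (∀ i, (W i).Ar (p i) A) → (∀ i, AI (β i) A) →
    ‖β 0 * u 0 - β 1 * u 1 - β 2 * u 2‖ ≤ Real.exp (-(A : ℝ) ^ k) → Obs W β (A ^ k) :=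
  Bar.baker_core zero_lemma

end Pool.Agent.Lib.ZP3
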