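import Pool.Agent.Lib.ZP3.HeckeB
import Pool.Agent.Lib.ZP3.JBasic

/-! Modular polynomials, conjugation and integrality of isogenies. -/

open UpperHalfPlane Filter Topology Metric
open scoped Real

namespace Pool.Agent.Lib.ZP3

open Pool.Agent.Lib.MP_0704bf_ag Pool.Agent.Lib.helper6

theorem isog_tri {N : ℕ} (hN : 0 < N) (τ : ℍ) (y U : ℂ) : Isog N (jInv τ) y U ↔
    ∃ g ∈ tris N, y = jInv (tr g τ) ∧
      U * ModularForm.discriminant τ = (g.1 : ℂ) ^ 12 * ModularForm.discriminant (tr g τ) := by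
  constructor
  · intro h
    obtain ⟨_, τ', _, _, _, _, -, -, hy, -⟩ := id h
    obtain ⟨a, b, c, d, h1, h2, h3⟩ := h.lift rfl hy
    obtain ⟨g, hg, h4⟩ := Hk.exists_herm hN h1
    obtain ⟨ha, hd⟩ := Hk.pos_of_mem hN hg
    obtain ⟨h5, h6⟩ := h4.val ha hd h2
    exact ⟨g, hg, hy ▸ h5, h3.trans h6⟩
  · rintro ⟨g, hg, rfl, h⟩
    obtain ⟨ha, hd⟩ := Hk.pos_of_mem hN hg
    refine ⟨τ, tr g τ, g.1, g.2.1, 0, g.2.2, ?_, rfl, rfl, Hk.mob_tr ha hd τ, by simpa using h⟩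
    rw [← ((Hk.mem_tris hN).mp hg).1]
    push_cast
    ring

theorem Hk.isog_tri' {N : ℕ} (hN : 0 < N) (τ : ℍ) (y U : ℂ) : Isog N (jInv τ) y U ↔
    ∃ g ∈ tris N, y = jInv (tr g τ) ∧ U = Hk.Ug g τ := by
  simp only [isog_tri hN, Hk.Ug, eq_div_iff (ModularForm.discriminant_ne_zero τ)]

theorem hecke_poly {N : ℕ} (hN : 0 < N) : ∃ Φ : Polynomial (Polynomial ℤ), Φ.Monic ∧
    (∀ τ : ℍ, Φ.map (Polynomial.aeval (jInv τ)).toRingHom =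
      ∏ g ∈ tris N, (Polynomial.X - Polynomial.C (jInv (tr g τ)))) ∧
    ∀ x y : ℂ, Iso N x y ↔ ev2 Φ x y = 0 := by
  obtain ⟨Φ, h1, h2⟩ := Hk.poly_W hN 0
  simp only [Nat.cast_zero, zero_mul, add_zero] at h2
  refine ⟨Φ, h1, h2, fun x y ↦ ?_⟩
  obtain ⟨τ, -, rfl⟩ := j_surj x
  rw [Hk.ev2_eq_zero (h2 τ)]
  constructor
  · rintro ⟨U, hU⟩
    obtain ⟨g, hg, h3, -⟩ := (Hk.isog_tri' hN τ y U).mp hU
    exact ⟨g, hg, h3⟩
  · rintro ⟨g, hg, h3⟩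
    exact ⟨_, (Hk.isog_tri' hN τ y _).mpr ⟨g, hg, h3, rfl⟩⟩

theorem Isog.conj {N : ℕ} (hN : 0 < N) {x y U : ℂ} (h : Isog N x y U) (σ : ℂ →+* ℂ) :
    Isog N (σ x) (σ y) (σ U) := by
  obtain ⟨τ, -, rfl⟩ := j_surj x
  obtain ⟨τ', -, hτ'⟩ := j_surj (σ (jInv τ))
  obtain ⟨g0, hg0, h1, h2⟩ := (Hk.isog_tri' hN τ y U).mp h
  have key : ∀ W : ℕ, ∃ g ∈ tris N, σ y + W * σ U = jInv (tr g τ') + W * Hk.Ug g τ' := by
    intro W
    obtain ⟨Φ, -, h3⟩ := Hk.poly_W hN W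
    have h4 : ev2 Φ (jInv τ) (y + W * U) = 0 :=
      (Hk.ev2_eq_zero (h3 τ)).mpr ⟨g0, hg0, by rw [h1, h2]⟩
    have h5 := ev2_map σ Φ (jInv τ) (y + W * U)
    rw [h4, map_zero, ← hτ', map_add, map_mul, map_natCast] at h5
    exact (Hk.ev2_eq_zero (h3 τ')).mp h5.symm
  choose g hg hg' using key
  obtain ⟨W, W', hne, he⟩ := Finite.exists_ne_map_eq_of_infinite
    (fun W ↦ (⟨g W, hg W⟩ : tris N))
  have he' : g W = g W' := congrArg Subtype.val he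
  have e1 := hg' W
  have e2 := hg' W'
  rw [← he'] at e2
  have hW : (W : ℂ) - W' ≠ 0 := sub_ne_zero.mpr (by exact_mod_cast hne)
  have e3 : σ U = Hk.Ug (g W) τ' := by
    apply mul_left_cancel₀ hW
    linear_combination e1 - e2
  rw [← hτ']
  refine (Hk.isog_tri' hN τ' _ _).mpr ⟨g W, hg W, ?_, e3⟩
  linear_combination e1 - W * e3

theorem iso_conj_iff {N : ℕ} (hN : 0 < N) (x y : ℂ) (σ : ℂ →+* ℂ) :
    Iso N (σ x) (σ y) ↔ Iso N x y := by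
  obtain ⟨Φ, -, -, h⟩ := hecke_poly hN
  rw [h, h, ← ev2_map, map_eq_zero_iff σ σ.injective]

theorem MinIso.conj {N : ℕ} {x y : ℂ} (h : MinIso N x y) (σ : ℂ →+* ℂ) :
    MinIso N (σ x) (σ y) :=
  ⟨h.1, (iso_conj_iff h.1 x y σ).mpr h.2.1, fun n hn h' ↦
    h.2.2 n hn ((iso_conj_iff hn x y σ).mp h')⟩

theorem Isog.integral {N : ℕ} (hN : 0 < N) {x y U : ℂ} (h : Isog N x y U) {d : ℕ}
    (hd : IsIntegral ℤ (d * x)) : IsIntegral ℤ (d * U) := by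
  obtain ⟨τ, -, rfl⟩ := j_surj x
  obtain ⟨g0, hg0, -, h2⟩ := (Hk.isog_tri' hN τ y U).mp h
  obtain ⟨Φ, hm, hn, hc, hp⟩ := Hk.poly_U hN
  have h4 : ev2 Φ (jInv τ) U = 0 := (Hk.ev2_eq_zero (hp τ)).mpr ⟨g0, hg0, h2⟩
  have hm' := hm.map (Polynomial.aeval (jInv τ)).toRingHom
  have hn' := hm.natDegree_map (Polynomial.aeval (jInv τ)).toRingHom
  set Ψ := Φ.map (Polynomial.aeval (jInv τ)).toRingHom with hΨ
  have hmon : (Ψ.scaleRoots d).Monic := (Polynomial.monic_scaleRoots_iff _).mpr hm'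
  have hl : Ψ.scaleRoots d ∈ Polynomial.lifts (algebraMap (integralClosure ℤ ℂ) ℂ) := by
    rw [Polynomial.lifts_iff_coeff_lifts]
    intro k
    refine ⟨⟨(Ψ.scaleRoots d).coeff k, ?_⟩, rfl⟩
    rw [Polynomial.coeff_scaleRoots, hn', hn, hΨ, Polynomial.coeff_map]
    change IsIntegral ℤ (Polynomial.aeval (jInv τ) (Φ.coeff k) * _)
    rw [Polynomial.aeval_eq_sum_range' (Nat.lt_succ_of_le (hc k)), Finset.sum_mul]
    refine IsIntegral.sum _ fun i hi ↦ ?_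
    obtain ⟨e, he⟩ : ∃ e, (tris N).card - k = i + e :=
      ⟨(tris N).card - k - i, by have := Finset.mem_range.mp hi; omega⟩
    rw [he, show (Φ.coeff k).coeff i • jInv τ ^ i * (d : ℂ) ^ (i + e) =
      ((Φ.coeff k).coeff i : ℂ) * ((d * jInv τ) ^ i * (d : ℂ) ^ e) by
        rw [zsmul_eq_mul]; ring]
    exact (isIntegral_intCast _).mul ((hd.pow _).mul ((isIntegral_natCast _).pow _))
  obtain ⟨r, hr1, -, hr3⟩ := Polynomial.lifts_and_degree_eq_and_monic hl hmon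
  have : IsIntegral (integralClosure ℤ ℂ) (d * U) := by
    refine ⟨r, hr3, ?_⟩
    rw [Polynomial.eval₂_eq_eval_map, hr1, Polynomial.scaleRoots_eval_mul]
    rw [ev2] at h4
    rw [h4, mul_zero]
  exact isIntegral_trans _ this

theorem MinIso.deg {N : ℕ} {x y U : ℂ} (h : MinIso N x y) (hU : Isog N x y U) {D D' : ℕ}
    (hx : Deg x D) (hy : Deg y D') : Deg U (D * D' * 36) := by
  refine Deg.of_fiber hx hy fun y' z' ↦ ?_
  by_cases h0 : ∃ σ : ℂ →+* ℂ, σ x = y' ∧ σ y = z'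
  · obtain ⟨σ0, rfl, rfl⟩ := h0
    obtain ⟨E, h1, h2⟩ := (h.conj σ0).few
    exact ⟨E, h1, fun σ h3 h4 ↦ h2 _ (h3 ▸ h4 ▸ hU.conj h.1 σ)⟩
  · exact ⟨∅, by simp, fun σ h3 h4 ↦ absurd ⟨σ, h3, h4⟩ h0⟩

end Pool.Agent.Lib.ZP3
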