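import Pool.Agent.Lib.ZP3.Defs

/-! Block OBS, first part: the possible obstruction subgroups. -/

open Filter Topology Metric
open scoped Real

namespace Pool.Agent.Lib.ZP3

namespace ObsAux

lemma dvd_of_mem {W : WD} {τ Ω : ℂ} (h : W.IsLat τ Ω) (hτ : 0 < τ.im) (hΩ : Ω ≠ 0) {a b : ℤ}
    (hb : b ≠ 0) (hab : IsCoprime b a) {n K : ℕ} (hn : 0 < n) (hK : n ≤ K) {x : ℂ}
    (hx : x * b = Ω * a) (hm : (n : ℂ) * x ∈ W.Λ) : |b| ≤ K := by
  obtain ⟨p, q, hpq⟩ := (h _).1 hm
  have e : (n : ℂ) * a = b * (p + q * τ) :=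
    mul_left_cancel₀ hΩ (by linear_combination b * hpq - n * hx)
  have e1 := congrArg Complex.im e
  have hb' : (b : ℝ) ≠ 0 := by exact_mod_cast hb
  have hq : (q : ℝ) = 0 := by simpa [hb', hτ.ne'] using e1
  have hq' : q = 0 := by exact_mod_cast hq
  rw [hq'] at e
  have e2 : (n : ℤ) * a = b * p := by exact_mod_cast (by simpa using e : (n : ℂ) * a = b * p)
  have h1 : b ∣ (n : ℤ) := hab.dvd_of_dvd_mul_right ⟨p, e2⟩
  have h2 := Int.le_of_dvd (by exact_mod_cast hn) ((abs_dvd _ _).2 h1)
  omega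

end ObsAux

open ObsAux in
theorem obs_cases {W : Fin 3 → WD} {β : Fin 3 → ℂ} {K : ℕ} {τ Ω θ : ℂ} {m1 m2 : ℤ}
    (h1 : (W 1).IsLat τ Ω) (h2 : (W 2).IsLat τ Ω) (hτ : 0 < τ.im) (hΩ : Ω ≠ 0) (hθ : θ ≠ 0)
    (hm : IsCoprime m1 m2) (hβ0 : β 0 ≠ 0) (hβ1 : β 1 = θ * m1) (hβ2 : β 2 = θ * m2)
    (h : Obs W β K) : (|m1| ≤ K ∧ |m2| ≤ K) ∨
      ∃ μ : ℂ, μ ≠ 0 ∧ Few μ (W 0).Λ (W 1).Λ K ∧ Few μ⁻¹ (W 1).Λ (W 0).Λ K := by
  obtain ⟨H, hH0, hH, hJ⟩ := h
  rw [hβ1, hβ2] at hH
  obtain ⟨v, hv, hv0⟩ := (Submodule.ne_bot_iff H).1 hH0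
  have h21 : ∀ z, z ∈ (W 2).Λ ↔ z ∈ (W 1).Λ := fun z => (h2 z).trans (h1 z).symm
  have hΩ1 : Ω ∈ (W 1).Λ := (h1 _).2 ⟨1, 0, by simp⟩
  obtain ⟨a, b, hab⟩ := id hm
  have hab' : (a : ℂ) * m1 + b * m2 = 1 := by exact_mod_cast hab
  have ext0 : ∀ w ∈ H, w 1 = 0 → w 2 = 0 → w = 0 := by
    intro w hw k1 k2
    have := hH w hw
    rw [k1, k2, mul_zero, mul_zero, add_zero, mul_eq_zero] at this
    funext i
    fin_cases i
    exacts [this.resolve_left hβ0, k1, k2]
  by_cases hl : ∀ w ∈ H, v 1 * w 2 = v 2 * w 1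
  · -- a line
    have line : ∀ i, v i ≠ 0 → ∀ l ∈ (W i).Λ, ∃ n : ℕ, 0 < n ∧ n ≤ K ∧
        ∀ j, (n : ℂ) * (l / v i * v j) ∈ (W j).Λ := by
      intro i hi l hl'
      refine hJ {i} (fun w hw hw0 => ?_) (fun w => ⟨(w i / v i) • v, H.smul_mem _ hv, ?_⟩)
        ((l / v i) • v) (H.smul_mem _ hv) ?_
      · have hwi : w i = 0 := hw0 i (Finset.mem_singleton_self i)
        have k1 := hH w hw
        have k2 := hH v hv
        have k3 := hl w hw
        have k4 : β 0 * (v 0 * w 1 - v 1 * w 0) = 0 := by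
          linear_combination w 1 * k2 - v 1 * k1 - θ * m2 * k3
        have k5 : β 0 * (v 0 * w 2 - v 2 * w 0) = 0 := by
          linear_combination w 2 * k2 - v 2 * k1 + θ * m1 * k3
        rw [mul_eq_zero, sub_eq_zero] at k4 k5
        replace k4 := k4.resolve_left hβ0
        replace k5 := k5.resolve_left hβ0
        refine ext0 w hw ?_ ?_
        · fin_cases i
          · simp only [Fin.zero_eta] at hi hwi
            rw [hwi, mul_zero] at k4
            exact (mul_eq_zero.1 k4).resolve_left hi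
          · exact hwi
          · simp only [Fin.reduceFinMk] at hi hwi
            rw [hwi, mul_zero] at k3
            exact (mul_eq_zero.1 k3.symm).resolve_left hi
        · fin_cases i
          · simp only [Fin.zero_eta] at hi hwi
            rw [hwi, mul_zero] at k5
            exact (mul_eq_zero.1 k5).resolve_left hi
          · simp only [Fin.mk_one] at hi hwi
            rw [hwi, mul_zero] at k3
            exact (mul_eq_zero.1 k3).resolve_left hi
          · exact hwi
      · intro j hj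
        rw [Finset.mem_singleton.1 hj]
        simp [hi]
      · intro j hj
        rw [Finset.mem_singleton.1 hj]
        simpa [hi] using hl'
    by_cases h0 : v 0 = 0
    · left
      have k1 : (m1 : ℂ) * v 1 + m2 * v 2 = 0 := by
        have := hH v hv
        rw [h0] at this
        exact mul_left_cancel₀ hθ (by linear_combination -this)
      constructor
      · rcases eq_or_ne m1 0 with rfl | hm1
        · simp
        have hm1' : (m1 : ℂ) ≠ 0 := by exact_mod_cast hm1
        have hv2 : v 2 ≠ 0 := fun h3 => hv0 (ext0 v hv (by simpa [h3, hm1'] using k1) h3)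
        obtain ⟨n, hn, hK, hn'⟩ := line 2 hv2 Ω ((h21 _).2 hΩ1)
        refine dvd_of_mem h1 hτ hΩ hm1 hm.neg_right hn hK ?_ (hn' 1)
        push_cast
        field_simp
        linear_combination k1
      · rcases eq_or_ne m2 0 with rfl | hm2
        · simp
        have hm2' : (m2 : ℂ) ≠ 0 := by exact_mod_cast hm2
        have hv1 : v 1 ≠ 0 := fun h3 => hv0 (ext0 v hv h3 (by simpa [h3, hm2'] using k1))
        obtain ⟨n, hn, hK, hn'⟩ := line 1 hv1 Ω hΩ1
        refine dvd_of_mem h2 hτ hΩ hm2 hm.symm.neg_right hn hK ?_ (hn' 2)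
        push_cast
        field_simp
        linear_combination k1
    · right
      obtain ⟨i, hi, hiΛ⟩ : ∃ i, v i ≠ 0 ∧ ∀ z, z ∈ (W i).Λ ↔ z ∈ (W 1).Λ := by
        by_cases h3 : v 1 = 0
        · exact ⟨2, fun h4 => hv0 (ext0 v hv h3 h4), h21⟩
        · exact ⟨1, h3, fun _ => Iff.rfl⟩
      refine ⟨v i / v 0, div_ne_zero hi h0, fun l hl' => ?_, fun l hl' => ?_⟩
      · obtain ⟨n, hn, hK, hn'⟩ := line 0 h0 l hl'
        refine ⟨n, hn, hK, (hiΛ _).1 ?_⟩
        convert hn' i using 1
        ring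
      · obtain ⟨n, hn, hK, hn'⟩ := line i hi l ((hiΛ _).2 hl')
        refine ⟨n, hn, hK, ?_⟩
        convert hn' 0 using 1
        rw [inv_div]
        ring
  · -- the whole hyperplane
    right
    push Not at hl
    obtain ⟨w, hw, hvw⟩ := hl
    obtain ⟨e, he⟩ : ∃ e, e * (v 1 * w 2 - v 2 * w 1) = 1 :=
      ⟨_, inv_mul_cancel₀ (sub_ne_zero.2 hvw)⟩
    have full : ∀ x y z : ℂ, β 0 * x = θ * m1 * y + θ * m2 * z → ![x, y, z] ∈ H := by
      intro x y z hxyz
      have k1 := hH w hw
      have k2 := hH v hv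
      have : ![x, y, z] = (e * (y * w 2 - z * w 1)) • v + (e * (z * v 1 - y * v 2)) • w := by
        funext i
        fin_cases i
        · refine mul_left_cancel₀ hβ0 ?_
          simp only [Fin.zero_eta, Matrix.cons_val_zero, Pi.add_apply, Pi.smul_apply, smul_eq_mul]
          linear_combination hxyz - e * (y * w 2 - z * w 1) * k2 -
            e * (z * v 1 - y * v 2) * k1 - (θ * m1 * y + θ * m2 * z) * he
        · simp only [Fin.mk_one, Matrix.cons_val_one, Matrix.cons_val_zero, Pi.add_apply,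
            Pi.smul_apply, smul_eq_mul]
          linear_combination (-y) * he
        · simp only [Fin.reduceFinMk, Matrix.cons_val, Pi.add_apply, Pi.smul_apply, smul_eq_mul]
          linear_combination (-z) * he
      rw [this]
      exact H.add_mem (H.smul_mem _ hv) (H.smul_mem _ hw)
    refine ⟨β 0 / θ, div_ne_zero hβ0 hθ, fun l hl' => ?_, fun l hl' => ?_⟩
    · by_cases hm2 : m2 = 0
      · have hm1 : (m1 : ℂ) ≠ 0 := fun h3 => by simp [h3, hm2] at hab'
        obtain ⟨n, hn, hK, hn'⟩ := hJ {0, 2} (fun u hu hu0 => by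
            have k1 := hH u hu
            have k2 := hu0 0 (by simp)
            have k3 := hu0 2 (by simp)
            exact ext0 u hu (by simpa [k2, k3, hθ, hm1] using k1) k3)
          (fun u => ⟨![u 0, (β 0 * u 0 - θ * m2 * u 2) / (θ * m1), u 2],
            full _ _ _ (by field_simp; ring), fun j hj => by
              rcases Finset.mem_insert.1 hj with rfl | hj
              · rfl
              · rw [Finset.mem_singleton.1 hj]; rfl⟩)
          ![l, β 0 * l / (θ * m1), 0] (full _ _ _ (by field_simp; ring)) (fun j hj => by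
              rcases Finset.mem_insert.1 hj with rfl | hj
              · exact hl'
              · rw [Finset.mem_singleton.1 hj]; exact (W 2).Λ.zero_mem)
        refine ⟨n, hn, hK, ?_⟩
        convert (W 1).Λ.zsmul_mem (hn' 1) m1 using 1
        simp only [Matrix.cons_val_one, Matrix.cons_val_zero, zsmul_eq_mul]
        field_simp
      · have hm2' : (m2 : ℂ) ≠ 0 := by exact_mod_cast hm2
        obtain ⟨n, hn, hK, hn'⟩ := hJ {0, 1} (fun u hu hu0 => by
            have k1 := hH u hu
            have k2 := hu0 0 (by simp)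
            have k3 := hu0 1 (by simp)
            exact ext0 u hu k3 (by simpa [k2, k3, hθ, hm2'] using k1))
          (fun u => ⟨![u 0, u 1, (β 0 * u 0 - θ * m1 * u 1) / (θ * m2)],
            full _ _ _ (by field_simp; ring), fun j hj => by
              rcases Finset.mem_insert.1 hj with rfl | hj
              · rfl
              · rw [Finset.mem_singleton.1 hj]; rfl⟩)
          ![l, 0, β 0 * l / (θ * m2)] (full _ _ _ (by field_simp; ring)) (fun j hj => by
              rcases Finset.mem_insert.1 hj with rfl | hj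
              · exact hl'
              · rw [Finset.mem_singleton.1 hj]; exact (W 1).Λ.zero_mem)
        refine ⟨n, hn, hK, (h21 _).1 ?_⟩
        convert (W 2).Λ.zsmul_mem (hn' 2) m2 using 1
        simp only [Matrix.cons_val, zsmul_eq_mul]
        field_simp
    · obtain ⟨n, hn, hK, hn'⟩ := hJ {1, 2}
        (fun u hu hu0 => ext0 u hu (hu0 1 (by simp)) (hu0 2 (by simp)))
        (fun u => ⟨![(θ * m1 * u 1 + θ * m2 * u 2) / β 0, u 1, u 2],
          full _ _ _ (by field_simp), fun j hj => by
            rcases Finset.mem_insert.1 hj with rfl | hj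
            · rfl
            · rw [Finset.mem_singleton.1 hj]; rfl⟩)
        ![θ * l / β 0, a * l, b * l]
        (full _ _ _ (by field_simp; linear_combination (-l) * hab')) (fun j hj => by
            rcases Finset.mem_insert.1 hj with rfl | hj
            · simpa using (W 1).Λ.zsmul_mem hl' a
            · rw [Finset.mem_singleton.1 hj]
              simpa using (W 2).Λ.zsmul_mem ((h21 _).2 hl') b)
      refine ⟨n, hn, hK, ?_⟩
      convert hn' 0 using 1
      simp only [Matrix.cons_val_zero, inv_div]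
      ring

end Pool.Agent.Lib.ZP3
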