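import Pool.Agent.Lib.ZP3.WdExA

/-! The multiplicative group as degenerate Weierstrass data. -/

open UpperHalfPlane Filter Topology Metric
open scoped Real

namespace Pool.Agent.Lib.ZP3

namespace WDE

/-- the period of the degenerate function -/
noncomputable def gmP : ℂ := (π : ℂ) * Complex.I / 3

theorem norm_gmP : ‖gmP‖ = π / 3 := by
  simp [gmP, abs_of_pos Real.pi_pos]

theorem mem_gm (z : ℂ) : z ∈ AddSubgroup.zmultiples gmP ↔ ∃ k : ℤ, z = k * gmP := by
  rw [AddSubgroup.mem_zmultiples_iff]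
  simp only [zsmul_eq_mul]
  exact ⟨fun ⟨k, h⟩ ↦ ⟨k, h.symm⟩, fun ⟨k, h⟩ ↦ ⟨k, h.symm⟩⟩

theorem exp_eq_one_gm (z : ℂ) : Complex.exp (6 * z) = 1 ↔ z ∈ AddSubgroup.zmultiples gmP := by
  rw [mem_gm, Complex.exp_eq_one_iff]
  refine exists_congr fun k ↦ ⟨fun h ↦ ?_, fun h ↦ ?_⟩
  · rw [gmP]; linear_combination h / 6
  · rw [h, gmP]; ring

/-- the degenerate Weierstrass function -/
noncomputable def gmX (z : ℂ) : ℂ :=
  36 * (Complex.exp (6 * z) / (Complex.exp (6 * z) - 1) ^ 2) + 3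

/-- its derivative -/
noncomputable def gmY (z : ℂ) : ℂ :=
  -216 * (Complex.exp (6 * z) * (Complex.exp (6 * z) + 1) / (Complex.exp (6 * z) - 1) ^ 3)

theorem hasDerivAt_e6 (z : ℂ) :
    HasDerivAt (fun z ↦ Complex.exp (6 * z)) (Complex.exp (6 * z) * 6) z := by
  simpa using ((hasDerivAt_id z).const_mul 6).cexp

theorem gm_sep : ∀ l ∈ AddSubgroup.zmultiples gmP, l ≠ 0 → 1 ≤ ‖l‖ := by
  intro l hl h0
  obtain ⟨k, rfl⟩ := (mem_gm l).1 hl
  have hk : k ≠ 0 := by rintro rfl; simp at h0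
  have h1 : (1 : ℝ) ≤ |(k : ℝ)| := by exact_mod_cast Int.one_le_abs hk
  rw [norm_mul, norm_gmP, Complex.norm_intCast]
  nlinarith [Real.pi_gt_three]

theorem gm_per {l : ℂ} (hl : l ∈ AddSubgroup.zmultiples gmP) (z : ℂ) :
    Complex.exp (6 * (z + l)) = Complex.exp (6 * z) := by
  rw [mul_add, Complex.exp_add, (exp_eq_one_gm l).2 hl, mul_one]

/-- the multiplicative group -/
noncomputable def gm : WD where
  Λ := AddSubgroup.zmultiples gmP
  X := gmX
  Y := gmY
  g2 := 108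
  g3 := -216
  sep := ⟨1, one_pos, gm_sep⟩
  dX := by
    intro z hz
    have h : Complex.exp (6 * z) - 1 ≠ 0 := sub_ne_zero.2 (mt (exp_eq_one_gm z).1 hz)
    have d := hasDerivAt_e6 z
    have := ((d.fun_div ((d.sub_const 1).fun_pow 2) (pow_ne_zero 2 h)).const_mul 36).add_const 3
    refine this.congr_deriv ?_
    simp only [gmY]
    field_simp
    ring
  dY := by
    intro z hz
    have h : Complex.exp (6 * z) - 1 ≠ 0 := sub_ne_zero.2 (mt (exp_eq_one_gm z).1 hz)
    have d := hasDerivAt_e6 z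
    have := ((d.fun_mul (d.add_const 1)).fun_div ((d.sub_const 1).fun_pow 3)
      (pow_ne_zero 3 h)).const_mul (-216)
    refine this.congr_deriv ?_
    simp only [gmX]
    field_simp
    ring
  eqn := by
    intro z hz
    have h : Complex.exp (6 * z) - 1 ≠ 0 := sub_ne_zero.2 (mt (exp_eq_one_gm z).1 hz)
    simp only [gmX, gmY]
    field_simp
    ring
  perX := fun l hl z ↦ by simp only [gmX, gm_per hl]
  perY := fun l hl z ↦ by simp only [gmY, gm_per hl]
  even := by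
    intro z
    have h0 := Complex.exp_ne_zero (6 * z)
    simp only [gmX, mul_neg, Complex.exp_neg]
    by_cases h : Complex.exp (6 * z) = 1
    · simp [h]
    · have h1 : Complex.exp (6 * z) - 1 ≠ 0 := sub_ne_zero.2 h
      have h2 : 1 - Complex.exp (6 * z) ≠ 0 := sub_ne_zero.2 (Ne.symm h)
      field_simp
      ring
  odd := by
    intro z
    have h0 := Complex.exp_ne_zero (6 * z)
    simp only [gmY, mul_neg, Complex.exp_neg]
    by_cases h : Complex.exp (6 * z) = 1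
    · simp [h]
    · have h1 : Complex.exp (6 * z) - 1 ≠ 0 := sub_ne_zero.2 h
      have h2 : 1 - Complex.exp (6 * z) ≠ 0 := sub_ne_zero.2 (Ne.symm h)
      field_simp
      ring
  pole := by
    refine pole_of (g := fun z ↦ 36 * Complex.exp (6 * z) + 3 * (Complex.exp (6 * z) - 1) ^ 2)
      (h := fun z ↦ (Complex.exp (6 * z) - 1) ^ 2) (by fun_prop) (by simp) (by fun_prop)
      (by simp) ?_
    filter_upwards [self_mem_nhdsWithin, mem_nhdsWithin_of_mem_nhds (ball_mem_nhds 0 one_pos)]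
      with z hz hz'
    have hn : z ∉ AddSubgroup.zmultiples gmP := by
      intro hl
      have := gm_sep z hl hz
      rw [mem_ball_zero_iff] at hz'
      linarith
    have h : Complex.exp (6 * z) - 1 ≠ 0 := sub_ne_zero.2 (mt (exp_eq_one_gm z).1 hn)
    refine ⟨pow_ne_zero 2 h, ?_⟩
    simp only [gmX]
    field_simp

theorem exp_sub_one_lower {w : ℂ} (hw : |w.im| ≤ π) :
    ‖w‖ ^ 2 * ‖Complex.exp w‖ ≤ 4 * ‖Complex.exp w - 1‖ ^ 2 := by
  have h1 : ‖Complex.exp w - 1‖ ^ 2 =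
      Real.exp w.re ^ 2 - 2 * Real.exp w.re * Real.cos w.im + 1 := by
    rw [Complex.sq_norm, Complex.normSq_apply, Complex.sub_re, Complex.sub_im, Complex.exp_re,
      Complex.exp_im, Complex.one_re, Complex.one_im]
    linear_combination Real.exp w.re ^ 2 * Real.cos_sq_add_sin_sq w.im
  have h2 : ‖w‖ ^ 2 = w.re ^ 2 + w.im ^ 2 := by
    rw [Complex.sq_norm, Complex.normSq_apply]; ring
  rw [h1, h2, Complex.norm_exp]
  set a := w.re
  set b := w.im
  have h3 := Real.cos_le_one_sub_mul_cos_sq hw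
  have h4 : 1 / 8 ≤ 2 / π ^ 2 := by
    rw [div_le_div_iff₀ (by norm_num) (by positivity)]
    nlinarith [Real.pi_le_four, Real.pi_pos]
  have h5 : Real.cos b ≤ 1 - b ^ 2 / 8 := by nlinarith [sq_nonneg b]
  have h6 : 2 + a ^ 2 / 2 ≤ Real.exp a + Real.exp (-a) := by
    rcases le_total 0 a with h | h
    · linarith [Real.quadratic_le_exp_of_nonneg h, Real.add_one_le_exp (-a)]
    · have := Real.quadratic_le_exp_of_nonneg (neg_nonneg.2 h)
      rw [neg_sq] at this
      linarith [Real.add_one_le_exp a]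
  have h7 : Real.exp a * Real.exp (-a) = 1 := by rw [← Real.exp_add]; simp
  have h8 := Real.exp_pos a
  nlinarith [mul_le_mul_of_nonneg_left h6 h8.le, mul_le_mul_of_nonneg_left h5 h8.le,
    mul_nonneg h8.le (sq_nonneg a)]

theorem gm_bound (z : ℂ) {r : ℝ} (hr : 0 < r) (hr1 : r ≤ 1)
    (hz : ∀ l ∈ AddSubgroup.zmultiples gmP, r ≤ ‖z - l‖) : ‖gmX z‖ * r ^ 2 ≤ 7 := by
  set k : ℤ := round (z.im / (π / 3)) with hk
  have hl : (k : ℂ) * gmP ∈ AddSubgroup.zmultiples gmP := (mem_gm _).2 ⟨k, rfl⟩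
  set z0 := z - k * gmP with hz0
  have h1 : r ≤ ‖z0‖ := hz _ hl
  have e : Complex.exp (6 * z) = Complex.exp (6 * z0) := by
    rw [← gm_per hl z0, hz0, sub_add_cancel]
  have him : |(6 * z0).im| ≤ π := by
    have h2 : |z.im / (π / 3) - k| ≤ 1 / 2 := abs_sub_round (z.im / (π / 3))
    have hp := Real.pi_pos
    have e2 : (6 * z0).im = 2 * π * (z.im / (π / 3) - k) := by
      simp [hz0, gmP]
      field_simp
      ring
    rw [e2, abs_mul, abs_of_pos (by positivity : 0 < 2 * π)]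
    nlinarith
  have h3 := exp_sub_one_lower him
  rw [norm_mul, Complex.norm_ofNat] at h3
  rw [gmX, e]
  set t := Complex.exp (6 * z0)
  have ht : 0 < ‖t‖ := norm_pos_iff.2 (Complex.exp_ne_zero _)
  have h4 : 36 * r ^ 2 * ‖t‖ ≤ 4 * ‖t - 1‖ ^ 2 := by
    refine le_trans ?_ h3
    have : r ^ 2 ≤ ‖z0‖ ^ 2 := pow_le_pow_left₀ hr.le h1 2
    nlinarith
  have h5 : 0 < ‖t - 1‖ ^ 2 := by
    have : 0 < 36 * r ^ 2 * ‖t‖ := by positivity
    linarith
  have h6 : ‖36 * (t / (t - 1) ^ 2)‖ * r ^ 2 ≤ 4 := by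
    rw [norm_mul, norm_div, norm_pow, Complex.norm_ofNat, ← mul_div_assoc, div_mul_eq_mul_div,
      div_le_iff₀ h5]
    linarith
  have h7 := norm_add_le (36 * (t / (t - 1) ^ 2)) 3
  rw [Complex.norm_ofNat] at h7
  have h8 : r ^ 2 ≤ 1 := pow_le_one₀ hr.le hr1
  have h9 : 0 ≤ r ^ 2 := by positivity
  nlinarith

theorem AI_int (n : ℤ) {A : ℕ} (hA : 1 ≤ A) (h : |(n : ℝ)| ≤ A) : AI (n : ℂ) A := by
  refine ⟨isIntegral_intCast n, ⟨{(n : ℂ)}, by simpa using hA, fun σ ↦ by simp⟩, fun σ ↦ ?_⟩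
  rw [map_intCast, Complex.norm_intCast]
  linarith [Real.add_one_le_exp (A : ℝ)]

end WDE

open WDE in
/-- the multiplicative group as a degenerate Weierstrass function -/
theorem exists_gm : ∃ (W : WD) (p : ℂ) (A : ℕ),
    (∀ z, z ∈ W.Λ ↔ ∃ k : ℤ, z = k * ((π : ℂ) * Complex.I / 3)) ∧
    W.Size p (2 * π * Complex.I) A ∧ W.Ar p A := by
  have hp : Complex.exp (6 * (gmP / 2)) = -1 := by
    rw [show 6 * (gmP / 2) = π * Complex.I by rw [gmP]; ring, Complex.exp_pi_mul_I]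
  refine ⟨gm, gmP / 2, 54, mem_gm, ⟨1, ?_, ?_, gm_sep, ?_, ?_, ?_, ?_, ?_⟩, ?_, ?_, ?_⟩
  · exact Real.exp_le_one_iff.2 (by norm_num)
  · exact Real.one_le_exp (by norm_num)
  · intro l hl
    obtain ⟨k, rfl⟩ := (mem_gm l).1 hl
    have h := gm_sep (((1 - 2 * k : ℤ) : ℂ) * gmP) ((mem_gm _).2 ⟨_, rfl⟩) (mul_ne_zero
      (Int.cast_ne_zero.2 (by omega)) (norm_pos_iff.1 (by rw [norm_gmP]; positivity)))
    rwa [show ((1 - 2 * k : ℤ) : ℂ) * gmP = 2 * (gmP / 2 - k * gmP) by push_cast; ring, norm_mul,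
      Complex.norm_ofNat] at h
  · exact (mem_gm _).2 ⟨6, by rw [gmP]; push_cast; ring⟩
  · exact Complex.two_pi_I_ne_zero
  · simp only [norm_mul, Complex.norm_ofNat, Complex.norm_real, Complex.norm_I, Real.norm_eq_abs,
      abs_of_pos Real.pi_pos]
    push_cast
    linarith [Real.pi_le_four]
  · intro z r hr hr1 hz
    refine (gm_bound z hr hr1 hz).trans ?_
    have := Real.add_one_le_exp ((54 : ℕ) : ℝ)
    push_cast at this ⊢
    linarith
  · have : gm.X (gmP / 2) = ((-6 : ℤ) : ℂ) := by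
      change gmX _ = _
      rw [gmX, hp]
      norm_num
    rw [this]
    exact AI_int _ (by norm_num) (by norm_num)
  · have : gm.Y (gmP / 2) = ((0 : ℤ) : ℂ) := by
      change gmY _ = _
      rw [gmY, hp]
      norm_num
    rw [this]
    exact AI_int _ (by norm_num) (by norm_num)
  · have : gm.g2 / 2 = ((54 : ℤ) : ℂ) := by
      change (108 : ℂ) / 2 = _
      norm_num
    rw [this]
    exact AI_int _ (by norm_num) (by norm_num)

end Pool.Agent.Lib.ZP3
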