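import Pool.Agent.Lib.ZP3.WdExB
import Pool.Agent.Lib.ZP3.WdExC
import Pool.Agent.Lib.ZP3.ArithA

/-! Block WDE: existence of Weierstrass data, sizes and arithmetic of the algebraic model. -/

open UpperHalfPlane Filter Topology Metric
open scoped Real

namespace Pool.Agent.Lib.ZP3

open Pool.Agent.Lib.MP_0704bf_ag

namespace WDE

theorem le_of_pow_le {x M : ℝ} {n : ℕ} (hn : n ≠ 0) (hM : 1 ≤ M) (h : x ^ n ≤ M) : x ≤ M := by
  by_contra hlt
  push Not at hlt
  have := le_self_pow₀ (hM.trans hlt.le) hn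
  linarith

theorem cubic_monic (a b : ℂ) :
    (Polynomial.X ^ 3 - (Polynomial.C a * Polynomial.X + Polynomial.C b)).Monic ∧
    (Polynomial.X ^ 3 - (Polynomial.C a * Polynomial.X + Polynomial.C b)).natDegree = 3 := by
  constructor
  · monicity!
  · compute_degree!

theorem cubic_integral {e a b : ℂ} (ha : IsIntegral ℤ a) (hb : IsIntegral ℤ b)
    (h : e ^ 3 = a * e + b) : IsIntegral ℤ e := by
  let a' : integralClosure ℤ ℂ := ⟨a, ha⟩
  let b' : integralClosure ℤ ℂ := ⟨b, hb⟩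
  refine isIntegral_trans (A := integralClosure ℤ ℂ) e
    ⟨Polynomial.X ^ 3 - (Polynomial.C a' * Polynomial.X + Polynomial.C b'), by monicity!, ?_⟩
  simp only [Polynomial.eval₂_sub, Polynomial.eval₂_add, Polynomial.eval₂_mul,
    Polynomial.eval₂_X_pow, Polynomial.eval₂_C, Polynomial.eval₂_X]
  exact sub_eq_zero.2 h

theorem cubic_deg {e a b : ℂ} {D D' : ℕ} (ha : Deg a D) (hb : Deg b D')
    (h : e ^ 3 = a * e + b) : Deg e (D * D' * 3) := by
  classical
  refine ha.of_fiber hb fun a' b' ↦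
    ⟨(Polynomial.X ^ 3 - (Polynomial.C a' * Polynomial.X + Polynomial.C b')).roots.toFinset,
      ?_, fun σ h1 h2 ↦ ?_⟩
  · refine (Multiset.toFinset_card_le _).trans ((Polynomial.card_roots' _).trans ?_)
    exact (cubic_monic a' b').2.le
  · rw [Multiset.mem_toFinset, Polynomial.mem_roots (cubic_monic a' b').1.ne_zero]
    have := congrArg σ h
    rw [map_pow, map_add, map_mul, h1, h2] at this
    simp [this]

theorem cubic_norm {e a b : ℂ} (h : e ^ 3 = a * e + b) : ‖e‖ ≤ 1 + 4 * ‖a‖ + 4 * ‖b‖ := by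
  by_contra hlt
  push Not at hlt
  refine cubic_ne (x := e) (a := 4 * a) (b := 4 * b) ?_ (by linear_combination 4 * h)
  simpa using hlt.le

end WDE

open WDE in
/-- the algebraic model with discriminant `(12 d)^6` -/
theorem ell_ar (d : ℕ) (hd : 0 < d) : ∃ c : ℕ, 0 < c ∧ ∀ (W : WD) (τ : ℍ) (Ω : ℂ) (A : ℕ),
    W.IsEll τ Ω → W.Y (Ω / 2) = 0 → Ω / 2 ∉ W.Λ →
    Ω ^ 12 * (12 * d) ^ 6 = (2 * π) ^ 12 * ModularForm.discriminant τ → 1 ≤ A →
    AI (d * jInv τ) A → W.Ar (Ω / 2) (c * A ^ 2) := by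
  refine ⟨100000 * d ^ 6, by positivity, fun W τ Ω A hW hY hp hΩ hA hj ↦ ?_⟩
  have hΔ := ModularForm.discriminant_ne_zero τ
  have hπ : (π : ℂ) ≠ 0 := Complex.ofReal_ne_zero.2 Real.pi_ne_zero
  have hd' : (d : ℂ) ≠ 0 := Nat.cast_ne_zero.2 hd.ne'
  have hΩ0 : Ω ≠ 0 := by
    rintro rfl
    have : (2 * π : ℂ) ^ 12 * ModularForm.discriminant τ ≠ 0 :=
      mul_ne_zero (pow_ne_zero _ (mul_ne_zero two_ne_zero hπ)) hΔ
    exact this (by rw [← hΩ]; simp)
  set y : ℂ := d * jInv τ with hy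
  set a : ℂ := W.g2 / 4 with ha
  set b : ℂ := W.g3 / 4 with hb
  set e : ℂ := W.X (Ω / 2) with he
  have hE := ModularForm.discriminant_eq_E₄_cube_sub_E₆_sq τ
  have ha3 : a ^ 3 = 27 * d ^ 5 * y := by
    rw [ha, hW.2.1, hy, jInv]
    field_simp
    linear_combination (-(ModularForm.E₄ τ) ^ 3 / 4096) * hΩ
  have hb2 : b ^ 2 = 4 * d ^ 5 * y - 6912 * d ^ 6 := by
    have h6 : ModularForm.E₆ τ ^ 2 = ModularForm.E₄ τ ^ 3 - 1728 * ModularForm.discriminant τ := by
      rw [hE]; ring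
    rw [hb, hW.2.2, hy, jInv]
    field_simp
    rw [h6]
    linear_combination (-(ModularForm.E₄ τ ^ 3 - 1728 * ModularForm.discriminant τ) / 64) * hΩ
  have he3 : e ^ 3 = a * e + b := by
    have := W.eqn _ hp
    rw [hY] at this
    rw [ha, hb, he]
    linear_combination (-1 / 4) * this
  obtain ⟨hyi, hyd, hyn⟩ := hj
  have hdi : IsIntegral ℤ (d : ℂ) := isIntegral_natCast d
  have hai : IsIntegral ℤ a := by
    refine IsIntegral.of_pow (n := 3) (by norm_num) ?_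
    rw [ha3]
    exact ((isIntegral_natCast 27).mul (hdi.pow 5)).mul hyi
  have hbi : IsIntegral ℤ b := by
    refine IsIntegral.of_pow (n := 2) (by norm_num) ?_
    rw [hb2]
    exact (((isIntegral_natCast 4).mul (hdi.pow 5)).mul hyi).sub
      ((isIntegral_natCast 6912).mul (hdi.pow 6))
  have had : Deg a (A * 3) :=
    (hyd.map (fun x ↦ 27 * d ^ 5 * x) (fun σ ↦ by simp [map_ofNat])).root (by norm_num) ha3
  have hbd : Deg b (A * 2) :=
    (hyd.map (fun x ↦ 4 * d ^ 5 * x - 6912 * d ^ 6) (fun σ ↦ by simp [map_ofNat])).root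
      (by norm_num) hb2
  have hd1 : (1 : ℝ) ≤ d := by exact_mod_cast hd
  have hA' : (1 : ℝ) ≤ A := by exact_mod_cast hA
  have hd6 : (1 : ℝ) ≤ (d : ℝ) ^ 6 := one_le_pow₀ hd1
  have hd5 : (d : ℝ) ^ 5 ≤ (d : ℝ) ^ 6 := pow_le_pow_right₀ hd1 (by norm_num)
  have hd50 : (0 : ℝ) ≤ (d : ℝ) ^ 5 := by positivity
  have hE1 : 1 ≤ Real.exp A := Real.one_le_exp (by positivity)
  set M : ℝ := (d : ℝ) ^ 6 * Real.exp A with hM
  have hM1 : 1 ≤ M := by nlinarith
  have hM5 (σ : ℂ →+* ℂ) : (d : ℝ) ^ 5 * ‖σ y‖ ≤ M := by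
    rw [hM]
    exact mul_le_mul hd5 (hyn σ) (norm_nonneg _) (by positivity)
  have hM6 : (d : ℝ) ^ 6 ≤ M := by nlinarith
  have han (σ : ℂ →+* ℂ) : ‖σ a‖ ≤ 27 * M := by
    refine le_of_pow_le (n := 3) (by norm_num) (by linarith) ?_
    rw [← norm_pow, ← map_pow, ha3]
    simp only [map_mul, map_pow, map_natCast, map_ofNat, norm_mul, norm_pow, Complex.norm_ofNat,
      Complex.norm_natCast]
    linarith [hM5 σ]
  have hbn (σ : ℂ →+* ℂ) : ‖σ b‖ ≤ 6916 * M := by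
    refine le_of_pow_le (n := 2) (by norm_num) (by linarith) ?_
    rw [← norm_pow, ← map_pow, hb2, map_sub]
    refine (norm_sub_le _ _).trans ?_
    simp only [map_mul, map_pow, map_natCast, map_ofNat, norm_mul, norm_pow, Complex.norm_ofNat,
      Complex.norm_natCast]
    linarith [hM5 σ]
  have hfin : 30000 * M ≤ Real.exp ((100000 * d ^ 6 * A ^ 2 : ℕ) : ℝ) := by
    have h1 : 30000 * (d : ℝ) ^ 6 ≤ Real.exp (30000 * (d : ℝ) ^ 6) := by
      linarith [Real.add_one_le_exp (30000 * (d : ℝ) ^ 6)]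
    calc 30000 * M = 30000 * (d : ℝ) ^ 6 * Real.exp A := by rw [hM]; ring
      _ ≤ Real.exp (30000 * (d : ℝ) ^ 6) * Real.exp A := by gcongr
      _ ≤ _ := by
        rw [← Real.exp_add]
        apply Real.exp_le_exp.2
        push_cast
        have h2 : (A : ℝ) ≤ A ^ 2 := by nlinarith
        nlinarith
  have hd6' : 1 ≤ d ^ 6 := Nat.one_le_pow _ _ hd
  have hA2 : A ≤ A ^ 2 := by nlinarith
  refine ⟨⟨cubic_integral hai hbi he3, (cubic_deg had hbd he3).mono (by nlinarith), fun σ ↦ ?_⟩,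
    ?_, ?_⟩
  · have h1 := congrArg σ he3
    rw [map_pow, map_add, map_mul] at h1
    have h2 := cubic_norm h1
    linarith [han σ, hbn σ]
  · rw [hY]
    simpa using AI_int 0 (A := 100000 * d ^ 6 * A ^ 2) (by nlinarith) (by simp; positivity)
  · have e2 : W.g2 / 2 = 2 * a := by rw [ha]; ring
    rw [e2]
    refine ⟨(isIntegral_natCast 2).mul hai,
      (had.map (fun x ↦ 2 * x) (fun σ ↦ by simp [map_ofNat])).mono (by nlinarith), fun σ ↦ ?_⟩
    rw [map_mul, map_ofNat, norm_mul, Complex.norm_ofNat]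
    linarith [han σ]

end Pool.Agent.Lib.ZP3
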