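import Pool.Agent.Lib.ZP3.Arith
import Pool.Agent.Lib.ZP3.WdLem
import Pool.Agent.Lib.ZP3.WdEx
import Pool.Agent.Lib.ZP3.JBasic
import Pool.Agent.Lib.ZP3.JEst
import Pool.Agent.Lib.ZP3.Hecke
import Pool.Agent.Lib.ZP3.Baker
import Pool.Agent.Lib.ZP3.ObsCases

/-! Block IE: the isogeny estimate. -/

open UpperHalfPlane Filter Topology Metric
open scoped Real

namespace Pool.Agent.Lib.ZP3

open Pool.Agent.Lib.MP_0704bf_ag Pool.Agent.Lib.helper6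

namespace IE

theorem Ar_mono {W : WD} {p : ℂ} {A A' : ℕ} (h : W.Ar p A) (h' : A ≤ A') : W.Ar p A' :=
  ⟨h.1.mono h', h.2.1.mono h', h.2.2.mono h'⟩

theorem log_le {x : ℝ} {a : ℕ} (ha : 1 ≤ a) (h0 : 0 ≤ x) (hx : x ≤ Real.exp a) :
    1 + Real.log (1 + x) ≤ 3 * a := by
  have h1 : (1 : ℝ) ≤ a := by exact_mod_cast ha
  have h2 : 1 + x ≤ Real.exp (a + 1) := by
    rw [Real.exp_add]
    have h3 : (1 : ℝ) ≤ Real.exp a := Real.one_le_exp (by positivity)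
    have h4 : (2 : ℝ) ≤ Real.exp 1 := by
      have := Real.add_one_le_exp (1 : ℝ); linarith
    nlinarith
  have h5 : Real.log (1 + x) ≤ a + 1 := by
    rw [Real.log_le_iff_le_exp (by positivity)]; exact h2
  linarith

theorem one_add_le {x : ℝ} {a : ℕ} (ha : 1 ≤ a) (hx : x ≤ Real.exp a) :
    1 + x ≤ Real.exp (2 * a) := by
  have h1 : (1 : ℝ) ≤ a := by exact_mod_cast ha
  have h3 : (a : ℝ) + 1 ≤ Real.exp a := Real.add_one_le_exp _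
  have : Real.exp (2 * a) = Real.exp a * Real.exp a := by rw [← Real.exp_add]; ring_nf
  rw [this]; nlinarith

theorem exists_le_exp (C : ℝ) : ∃ c : ℕ, ∀ a : ℕ, 1 ≤ a → C ≤ Real.exp (c * a) := by
  refine ⟨⌈C⌉₊, fun a ha ↦ ?_⟩
  have h1 : (1 : ℝ) ≤ a := by exact_mod_cast ha
  have h2 := Nat.le_ceil C
  have h3 := Real.add_one_le_exp ((⌈C⌉₊ : ℝ) * a)
  have h4 : (0 : ℝ) ≤ ⌈C⌉₊ := by positivity
  nlinarith

theorem norm_le_of_AI {d : ℕ} (hd : 0 < d) {x : ℂ} {a : ℕ} (h : AI (d * x) a) (σ : ℂ →+* ℂ) :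
    ‖σ x‖ ≤ Real.exp a := by
  have h1 := h.2.2 σ
  rw [map_mul, map_natCast, norm_mul, Complex.norm_natCast] at h1
  have h2 : (1 : ℝ) ≤ d := by exact_mod_cast hd
  nlinarith [norm_nonneg (σ x)]

theorem deg_of_AI {d : ℕ} (hd : 0 < d) {x : ℂ} {a : ℕ} (h : AI (d * x) a) : Deg x a := by
  have h1 : Deg ((d : ℤ) : ℂ)⁻¹ 1 := (deg_int d).inv
  have h2 := h1.mul h.2.1
  have hd' : (d : ℂ) ≠ 0 := by exact_mod_cast hd.ne'
  rw [one_mul] at h2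
  convert h2 using 1
  push_cast
  field_simp

/-- a period lattice with controlled size for a given invariant -/
theorem model (d : ℕ) (hd : 0 < d) : ∃ c : ℕ, 0 < c ∧ ∀ (x : ℂ) (a : ℕ), 1 ≤ a → AI (d * x) a →
    ∃ (τ : ℍ) (Ω : ℂ) (W : WD), jInv τ = x ∧ Ω ≠ 0 ∧
      Ω ^ 12 * (12 * d) ^ 6 = (2 * π) ^ 12 * ModularForm.discriminant τ ∧ W.IsLat τ Ω ∧
      ‖(τ : ℂ)‖ ≤ c * a ∧ 1 ≤ 2 * τ.im ∧ W.Ar (Ω / 2) (c * a ^ 2) ∧
      ∀ m n : ℤ, (m ≠ 0 ∨ n ≠ 0) → |m| ≤ 1 → |n| ≤ 1 →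
        W.Size (Ω / 2) (Ω * (m + n * τ)) (c * a ^ 2) := by
  obtain ⟨C, hC1, hC⟩ := fd_bounds
  obtain ⟨c1, hc1, hs⟩ := exists_ell_size 2
  obtain ⟨c2, hc2, har⟩ := ell_ar d hd
  obtain ⟨c3, hc3⟩ := exists_le_exp ((2 * π) ^ 12 * C)
  obtain ⟨c4, hc4⟩ := exists_le_exp (C * (12 * d) ^ 6)
  set c0 : ℕ := ⌈3 * C⌉₊ + c3 + c4 + 3 with hc0
  refine ⟨c1 * c0 ^ 2 + c2 + c0, by positivity, fun x a ha hx ↦ ?_⟩
  obtain ⟨τ, hτ, hj⟩ := j_surj x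
  obtain ⟨h1, h2, h3, -⟩ := hC τ hτ
  have hxn : ‖x‖ ≤ Real.exp a := by simpa using norm_le_of_AI hd hx (RingHom.id ℂ)
  rw [hj] at h1 h2
  have ha1 : (1 : ℝ) ≤ a := by exact_mod_cast ha
  have hd' : (12 * d : ℂ) ^ 6 ≠ 0 := by
    have : (d : ℂ) ≠ 0 := by exact_mod_cast hd.ne'
    exact pow_ne_zero _ (mul_ne_zero (by norm_num) this)
  obtain ⟨Ω, hΩ⟩ := IsAlgClosed.exists_pow_nat_eq
    ((2 * π : ℂ) ^ 12 * ModularForm.discriminant τ / (12 * d) ^ 6) (n := 12) (by norm_num)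
  have hΩ' : Ω ^ 12 * (12 * d) ^ 6 = (2 * π) ^ 12 * ModularForm.discriminant τ := by
    rw [hΩ, div_mul_cancel₀ _ hd']
  have hΔ := ModularForm.discriminant_ne_zero τ
  have hπ : (2 * π : ℂ) ≠ 0 := by
    have : (π : ℂ) ≠ 0 := by exact_mod_cast Real.pi_ne_zero
    exact mul_ne_zero (by norm_num) this
  have hΩ0 : Ω ≠ 0 := by
    rintro rfl
    have : (2 * π : ℂ) ^ 12 * ModularForm.discriminant τ ≠ 0 := mul_ne_zero (pow_ne_zero _ hπ) hΔ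
    apply this; rw [← hΩ']; simp
  have him : 1 ≤ 2 * τ.im := by
    have := ModularGroup.three_le_four_mul_im_sq_of_mem_fd hτ
    nlinarith [τ.im_pos]
  have hre : |τ.re| ≤ 1 / 2 := hτ.2
  obtain ⟨W, hW, hY, hΛ, hsz⟩ := hs τ Ω hΩ0 (by linarith) him
  have hlog := log_le ha (norm_nonneg x) hxn
  have hceil := Nat.le_ceil (3 * C)
  have him2 : τ.im ≤ (⌈3 * C⌉₊ : ℝ) * a := by
    calc τ.im ≤ C * (1 + Real.log (1 + ‖x‖)) := h1
      _ ≤ C * (3 * a) := by gcongr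
      _ = 3 * C * a := by ring
      _ ≤ _ := by gcongr
  have hc0' : (c0 : ℝ) = ⌈3 * C⌉₊ + c3 + c4 + 3 := by rw [hc0]; push_cast; ring
  have hn : ‖Ω‖ ^ 12 * (12 * d) ^ 6 = (2 * π) ^ 12 * ‖ModularForm.discriminant τ‖ := by
    have := congrArg norm hΩ'
    simpa [norm_mul, norm_pow, abs_of_pos Real.pi_pos] using this
  have hd1 : (1 : ℝ) ≤ (12 * d) ^ 6 := by
    have : (1 : ℝ) ≤ d := by exact_mod_cast hd
    exact one_le_pow₀ (by linarith)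
  have hp1 : (1 : ℝ) ≤ (2 * π) ^ 12 := one_le_pow₀ (by linarith [Real.pi_gt_three])
  have hA : ((c0 * a : ℕ) : ℝ) = c0 * a := by push_cast; ring
  have hup : ‖Ω‖ ≤ Real.exp ((c0 * a : ℕ) : ℝ) := by
    have e1 : ‖Ω‖ ^ 12 ≤ Real.exp (c3 * a) := by
      calc ‖Ω‖ ^ 12 ≤ ‖Ω‖ ^ 12 * (12 * d) ^ 6 := le_mul_of_one_le_right (by positivity) hd1
        _ = _ := hn
        _ ≤ (2 * π) ^ 12 * C := by gcongr
        _ ≤ _ := hc3 a ha
    have e2 : Real.exp (c3 * a) ≤ Real.exp ((c0 * a : ℕ) : ℝ) ^ 12 := by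
      rw [← Real.exp_nat_mul, hA, hc0']
      apply Real.exp_le_exp.2
      have : (0 : ℝ) ≤ ⌈3 * C⌉₊ := by positivity
      have : (0 : ℝ) ≤ c3 := by positivity
      have : (0 : ℝ) ≤ c4 := by positivity
      push_cast
      nlinarith
    exact le_of_pow_le_pow_left₀ (by norm_num) (by positivity) (e1.trans e2)
  have hlow : Real.exp (-((c0 * a : ℕ) : ℝ)) ≤ ‖Ω‖ := by
    have e0 := one_add_le ha hxn
    have e1 : 1 ≤ ‖Ω‖ ^ 12 * Real.exp ((c4 + 2) * a) := by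
      calc (1 : ℝ) ≤ C * (‖ModularForm.discriminant τ‖ * (1 + ‖x‖)) := h2
        _ ≤ C * (((2 * π) ^ 12 * ‖ModularForm.discriminant τ‖) * Real.exp (2 * a)) := by
          gcongr
          exact le_mul_of_one_le_left (norm_nonneg _) hp1
        _ = ‖Ω‖ ^ 12 * ((C * (12 * d) ^ 6) * Real.exp (2 * a)) := by rw [← hn]; ring
        _ ≤ ‖Ω‖ ^ 12 * (Real.exp (c4 * a) * Real.exp (2 * a)) := by
          gcongr; exact hc4 a ha
        _ = _ := by rw [← Real.exp_add]; ring_nf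
    have e2 : Real.exp (-((c0 * a : ℕ) : ℝ)) ^ 12 * Real.exp ((c4 + 2) * a) ≤ 1 := by
      rw [← Real.exp_nat_mul, ← Real.exp_add, hA, hc0']
      apply Real.exp_le_one_iff.2
      have : (0 : ℝ) ≤ ⌈3 * C⌉₊ := by positivity
      have : (0 : ℝ) ≤ c3 := by positivity
      have : (0 : ℝ) ≤ c4 := by positivity
      push_cast
      nlinarith
    have e3 : Real.exp (-((c0 * a : ℕ) : ℝ)) ^ 12 ≤ ‖Ω‖ ^ 12 :=
      le_of_mul_le_mul_right (e2.trans e1) (Real.exp_pos _)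
    exact le_of_pow_le_pow_left₀ (by norm_num) (by positivity) e3
  have hc0pos : 1 ≤ c0 := by omega
  have hA1 : 1 ≤ c0 * a := Nat.mul_pos hc0pos ha
  refine ⟨τ, Ω, W, hj, hΩ0, hΩ', hW.1, ?_, him, ?_, fun m n hmn hm hn' ↦ ?_⟩
  · have e1 : ‖(τ : ℂ)‖ ≤ |τ.re| + |τ.im| := Complex.norm_le_abs_re_add_abs_im _
    rw [abs_of_pos τ.im_pos] at e1
    have : (0 : ℝ) ≤ c1 * c0 ^ 2 + c2 := by positivity
    have : (0 : ℝ) ≤ c3 := by positivity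
    have : (0 : ℝ) ≤ c4 := by positivity
    push_cast
    rw [hc0'] at *
    nlinarith
  · exact Ar_mono (har W τ Ω a hW hY hΛ hΩ' ha (hj ▸ hx)) (Nat.mul_le_mul_right _ (by omega))
  · have hA' : (1 : ℤ) ≤ ((c0 * a : ℕ) : ℤ) := by exact_mod_cast hA1
    refine (hsz (c0 * a) m n hA1 ?_ hlow hup hmn (hm.trans hA') (hn'.trans hA')).mono ?_
    · rw [hA, hc0']
      have : (0 : ℝ) ≤ c3 := by positivity
      have : (0 : ℝ) ≤ c4 := by positivity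
      nlinarith
    · rw [mul_pow, ← mul_assoc]
      exact Nat.mul_le_mul_right _ (by omega)

/-- size of the multiplier -/
theorem house : ∃ c : ℕ, ∀ (N : ℕ) (x y U : ℂ) (a : ℕ), 1 ≤ a → Isog N x y U →
    ‖x‖ ≤ Real.exp a → ‖y‖ ≤ Real.exp a → (N : ℝ) ≤ Real.exp a → ‖U‖ ≤ Real.exp (c * a) := by
  obtain ⟨C, hC1, hC⟩ := del_bounds
  obtain ⟨c1, hc1⟩ := exists_le_exp (C ^ 2 * 3 ^ 6)
  refine ⟨c1 + 14, fun N x y U a ha h hx hy hN ↦ ?_⟩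
  obtain ⟨τ, -, hτ⟩ := j_surj x
  obtain ⟨τ', -, hτ'⟩ := j_surj y
  have h1 := h.norm hτ hτ'
  have h2 := (hC τ).1
  have h3 := (hC τ').2
  rw [hτ] at h2
  rw [hτ'] at h3
  have hdel : 0 ≤ del τ' := by unfold del; have := τ'.im_pos; positivity
  have h4 : del τ' ≤ C * (3 * a) ^ 6 := by
    have e0 : 0 ≤ 1 + Real.log (1 + ‖y‖) := by
      have := Real.log_nonneg (x := 1 + ‖y‖) (by linarith [norm_nonneg y]); linarith
    calc del τ' ≤ del τ' * (1 + ‖y‖) := le_mul_of_one_le_right hdel (by linarith [norm_nonneg y])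
      _ ≤ _ := h3
      _ ≤ _ := by gcongr; exact log_le ha (norm_nonneg y) hy
  have h5 : (a : ℝ) ≤ Real.exp a := by linarith [Real.add_one_le_exp (a : ℝ)]
  calc ‖U‖ ≤ ‖U‖ * (C * (del τ * (1 + ‖x‖))) := le_mul_of_one_le_right (norm_nonneg _) h2
    _ = C * (‖U‖ * del τ) * (1 + ‖x‖) := by ring
    _ = C * ((N : ℝ) ^ 6 * del τ') * (1 + ‖x‖) := by rw [h1]
    _ ≤ C * (Real.exp a ^ 6 * (C * (3 * Real.exp a) ^ 6)) * Real.exp (2 * a) := by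
      gcongr
      · exact h4.trans (by gcongr)
      · exact one_add_le ha hx
    _ = (C ^ 2 * 3 ^ 6) * (Real.exp a ^ 12 * Real.exp (2 * a)) := by ring
    _ ≤ Real.exp (c1 * a) * (Real.exp a ^ 12 * Real.exp (2 * a)) := by
      gcongr; exact hc1 a ha
    _ = _ := by
      rw [← Real.exp_nat_mul, ← Real.exp_add, ← Real.exp_add]; push_cast; ring_nf

theorem lam_AI (d : ℕ) (hd : 0 < d) : ∃ c : ℕ, ∀ (N : ℕ) (x y U l : ℂ) (a : ℕ), 1 ≤ a →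
    AI (d * x) a → AI (d * y) a → MinIso N x y → (N : ℝ) ≤ Real.exp a → Isog N x y U →
    l ^ 12 = U → AI (d * l) (c * a ^ 2) := by
  obtain ⟨c1, hc1⟩ := house
  refine ⟨432 + c1 + d, fun N x y U l a ha hx hy hm hN hU hl ↦ ⟨?_, ?_, fun σ ↦ ?_⟩⟩
  · have h1 := hU.integral hm.1 hx.1
    have h2 : IsIntegral ℤ ((d : ℂ) ^ 11 * (d * U)) :=
      ((isIntegral_algebraMap (R := ℤ) (x := (d : ℤ))).pow 11 |>.mul h1 : _)
    refine IsIntegral.of_pow (n := 12) (by norm_num) ?_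
    convert h2 using 1
    rw [mul_pow, hl]; ring
  · have h1 := (hm.deg hU (deg_of_AI hd hx) (deg_of_AI hd hy)).root (by norm_num) hl
    have h2 := (deg_int d).mul h1
    push_cast at h2
    refine h2.mono ?_
    nlinarith
  · have h1 := hc1 N _ _ _ a ha (hU.conj hm.1 σ) (norm_le_of_AI hd hx σ) (norm_le_of_AI hd hy σ) hN
    rw [← hl, map_pow, norm_pow] at h1
    have ha1 : (1 : ℝ) ≤ a := by exact_mod_cast ha
    have h2 : ‖σ l‖ ≤ Real.exp (c1 * a) := by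
      refine le_of_pow_le_pow_left₀ (n := 12) (by norm_num) (by positivity) (h1.trans ?_)
      exact le_self_pow₀ (Real.one_le_exp (by positivity)) (by norm_num)
    have h3 : (d : ℝ) ≤ Real.exp d := by linarith [Real.add_one_le_exp (d : ℝ)]
    rw [map_mul, map_natCast, norm_mul, Complex.norm_natCast]
    calc (d : ℝ) * ‖σ l‖ ≤ Real.exp d * Real.exp (c1 * a) := by gcongr
      _ = Real.exp (d + c1 * a) := by rw [← Real.exp_add]
      _ ≤ _ := by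
        apply Real.exp_le_exp.2
        push_cast
        have : (0 : ℝ) ≤ c1 := by positivity
        have : (0 : ℝ) ≤ d := by positivity
        have : (a : ℝ) ≤ a ^ 2 := by nlinarith
        have : (1 : ℝ) ≤ a ^ 2 := by nlinarith
        nlinarith

theorem int_AI (r : ℤ) {A : ℕ} (hA : 1 ≤ A) (h : |(r : ℝ)| ≤ Real.exp A) : AI (r : ℂ) A := by
  refine ⟨isIntegral_algebraMap (R := ℤ) (x := r), (deg_int r).mono hA, fun σ ↦ ?_⟩
  rw [map_intCast, Complex.norm_intCast]; exact h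

/-- a multiplier gives an integral matrix -/
theorem rel_of_few {W W' : WD} {τ τ' : ℍ} {Ω Ω' μ : ℂ} {K : ℕ} (h : W.IsLat τ Ω)
    (h' : W'.IsLat τ' Ω') (hΩ' : Ω' ≠ 0) (hf : Few μ W.Λ W'.Λ K) :
    ∃ (n : ℕ) (a b c d : ℤ), 0 < n ∧ n ≤ K ^ 2 ∧ Mob a b c d τ τ' ∧
      (a : ℂ) - c * τ' = n * μ * Ω / Ω' := by
  obtain ⟨n1, hn1, hk1, e1⟩ := hf Ω ((h Ω).2 ⟨1, 0, by simp⟩)
  obtain ⟨n2, hn2, hk2, e2⟩ := hf (Ω * τ) ((h _).2 ⟨0, 1, by simp⟩)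
  obtain ⟨p1, q1, e1⟩ := (h' _).1 e1
  obtain ⟨p2, q2, e2⟩ := (h' _).1 e2
  refine ⟨n1 * n2, n2 * p1, -(n1 * p2), -(n2 * q1), n1 * q2, by positivity, ?_, ?_, ?_⟩
  · rw [sq]; exact Nat.mul_le_mul hk1 hk2
  · unfold Mob
    apply mul_left_cancel₀ hΩ'
    push_cast
    linear_combination (n2 : ℂ) * τ * e1 - (n1 : ℂ) * e2
  · rw [eq_div_iff hΩ']
    push_cast
    linear_combination (-(n2 : ℂ)) * e1

theorem mult_case {W W' : WD} {τ τ' : ℍ} {Ω Ω' μ : ℂ} {K N : ℕ} (h : W.IsLat τ Ω)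
    (h' : W'.IsLat τ' Ω') (hΩ : Ω ≠ 0) (hΩ' : Ω' ≠ 0) (hμ : μ ≠ 0) (hf : Few μ W.Λ W'.Λ K)
    (hf' : Few μ⁻¹ W'.Λ W.Λ K) (hm : MinIso N (jInv τ) (jInv τ')) : N ≤ K ^ 8 := by
  obtain ⟨n, a, b, c, d, hn, hk, hM, e⟩ := rel_of_few h h' hΩ' hf
  obtain ⟨n', a', b', c', d', hn', hk', hM', e'⟩ := rel_of_few h' h hΩ hf'
  have s1 := mob_normSq hM
  have s2 := mob_normSq hM'
  rw [e] at s1
  rw [e'] at s2
  have hi : 0 < (τ : ℂ).im := τ.im_pos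
  have hi' : 0 < (τ' : ℂ).im := τ'.im_pos
  have hn0 : (n : ℂ) ≠ 0 := by exact_mod_cast hn.ne'
  have hn0' : (n' : ℂ) ≠ 0 := by exact_mod_cast hn'.ne'
  have p1 : 0 < ‖n * μ * Ω / Ω'‖ := norm_pos_iff.2 (div_ne_zero (by simp [hn0, hμ, hΩ]) hΩ')
  have p2 : 0 < ‖n' * μ⁻¹ * Ω' / Ω‖ := norm_pos_iff.2 (div_ne_zero (by simp [hn0', hμ, hΩ']) hΩ)
  have hprod : ‖n * μ * Ω / Ω'‖ * ‖n' * μ⁻¹ * Ω' / Ω‖ = n * n' := by
    rw [← norm_mul]
    have : (n * μ * Ω / Ω') * (n' * μ⁻¹ * Ω' / Ω) = ((n * n' : ℕ) : ℂ) := by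
      push_cast; field_simp
    rw [this, Complex.norm_natCast]; push_cast; ring
  have d1 : (0 : ℝ) < ((a * d - b * c : ℤ) : ℝ) := by
    by_contra hc
    have := mul_nonpos_of_nonpos_of_nonneg (not_lt.1 hc) hi'.le
    have : 0 < ‖n * μ * Ω / Ω'‖ ^ 2 * (τ : ℂ).im := by positivity
    linarith
  have d2 : (0 : ℝ) < ((a' * d' - b' * c' : ℤ) : ℝ) := by
    by_contra hc
    have := mul_nonpos_of_nonpos_of_nonneg (not_lt.1 hc) hi.le
    have : 0 < ‖n' * μ⁻¹ * Ω' / Ω‖ ^ 2 * (τ' : ℂ).im := by positivity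
    linarith
  have d3 : ((a * d - b * c : ℤ) : ℝ) * ((a' * d' - b' * c' : ℤ) : ℝ) = ((n : ℝ) * n') ^ 2 := by
    apply mul_right_cancel₀ (mul_pos hi hi').ne'
    rw [← hprod]
    linear_combination (-((a' * d' - b' * c' : ℤ) : ℝ) * (τ : ℂ).im) * s1 -
      (‖n * μ * Ω / Ω'‖ ^ 2 * (τ : ℂ).im) * s2
  have d1' : 0 < a * d - b * c := by exact_mod_cast d1
  have d2' : 0 < a' * d' - b' * c' := by exact_mod_cast d2
  have d3' : (a * d - b * c) * (a' * d' - b' * c') = ((n : ℤ) * n') ^ 2 := by exact_mod_cast d3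
  obtain ⟨N', hN'⟩ := Int.eq_ofNat_of_zero_le d1'.le
  have hiso : Iso N' (jInv τ) (jInv τ') := iso_of_rel ⟨a, b, c, d, hN', hM⟩
  have h1 := hm.2.2 N' (by omega) hiso
  have h2 : (N' : ℤ) ≤ ((n : ℤ) * n') ^ 2 := by
    rw [← d3', hN']; exact le_mul_of_one_le_right (by positivity) (by omega)
  have h3 : N' ≤ (n * n') ^ 2 := by exact_mod_cast h2
  calc N ≤ (n * n') ^ 2 := h1.trans h3
    _ ≤ (K ^ 2 * K ^ 2) ^ 2 := by gcongr
    _ = K ^ 8 := by ring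

/-- a minimal isogeny has a primitive matrix -/
theorem prim {τ τ' : ℍ} {N : ℕ} (hm : MinIso N (jInv τ) (jInv τ')) {a b c d : ℤ}
    (hdet : a * d - b * c = N) (hM : Mob a b c d τ τ') {g : ℤ} (ha : g ∣ a) (hb : g ∣ b)
    (hc : g ∣ c) (hd : g ∣ d) : IsUnit g := by
  obtain ⟨a, rfl⟩ := ha
  obtain ⟨b, rfl⟩ := hb
  obtain ⟨c, rfl⟩ := hc
  obtain ⟨d, rfl⟩ := hd
  have hN : (0 : ℤ) < N := by exact_mod_cast hm.1
  have e : g ^ 2 * (a * d - b * c) = N := by rw [← hdet]; ring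
  have hg : g ≠ 0 := by
    rintro rfl
    simp at e; omega
  have hg2 : 0 < g ^ 2 := by positivity
  have hp : 0 < a * d - b * c := by
    by_contra hc
    have := mul_nonpos_of_nonneg_of_nonpos hg2.le (not_lt.1 hc)
    omega
  obtain ⟨N', hN'⟩ := Int.eq_ofNat_of_zero_le hp.le
  have hM' : Mob a b c d τ τ' := by
    unfold Mob at hM ⊢
    have hg' : (g : ℂ) ≠ 0 := by exact_mod_cast hg
    apply mul_left_cancel₀ hg'
    push_cast at hM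
    linear_combination hM
  have h1 := hm.2.2 N' (by omega) (iso_of_rel ⟨a, b, c, d, hN', hM'⟩)
  have h2 : (N : ℤ) ≤ N' := by exact_mod_cast h1
  rw [hN'] at e hp
  have h3 : g ^ 2 ≤ 1 := by
    by_contra hc
    nlinarith
  have h4 : g ^ 2 = 1 := by omega
  exact IsUnit.of_pow_eq_one h4 (by norm_num)

theorem wedge_le {K : ℕ} {p q r s : ℤ} (hp : |p| ≤ K) (hq : |q| ≤ K) (hr : |r| ≤ K)
    (hs : |s| ≤ K) : |p * q - r * s| ≤ 2 * (K : ℤ) ^ 2 := by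
  have h1 : |p * q| ≤ K * K := by rw [abs_mul]; gcongr
  have h2 : |r * s| ≤ K * K := by rw [abs_mul]; gcongr
  have := abs_sub (p * q) (r * s)
  nlinarith

theorem small_case {K N : ℕ} {g1 g2 g3 p1 q1 p2 q2 p3 q3 : ℤ} (hN : 0 < N)
    (hdet : g1 * p1 * (g2 * q2) - g2 * p2 * (g1 * q1) = N) (hco : IsCoprime g1 g2)
    (e1 : g1 * p1 + g2 * p2 = g3 * p3) (e2 : g1 * q1 + g2 * q2 = g3 * q3)
    (hp1 : |p1| ≤ K) (hq1 : |q1| ≤ K) (hp2 : |p2| ≤ K) (hq2 : |q2| ≤ K) (hp3 : |p3| ≤ K)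
    (hq3 : |q3| ≤ K) : N ≤ 8 * K ^ 6 := by
  have hN' : (0 : ℤ) < N := by exact_mod_cast hN
  have k0 : g1 * (p1 * q3 - p3 * q1) = g2 * -(p2 * q3 - p3 * q2) := by
    linear_combination q3 * e1 - p3 * e2
  have k1 : g1 * g3 * (p1 * q3 - p3 * q1) = N := by
    linear_combination hdet - g1 * p1 * e2 + g1 * q1 * e1
  have k2 : g2 * g3 * -(p2 * q3 - p3 * q2) = N := by
    linear_combination hdet + g2 * p2 * e2 - g2 * q2 * e1
  have n1 : p1 * q3 - p3 * q1 ≠ 0 := by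
    intro h; rw [h] at k1; omega
  have n2 : -(p2 * q3 - p3 * q2) ≠ 0 := by
    intro h; rw [h] at k2; omega
  have v1 : g1 ∣ -(p2 * q3 - p3 * q2) := hco.dvd_of_dvd_mul_left ⟨_, k0.symm⟩
  have v2 : g2 ∣ p1 * q3 - p3 * q1 := hco.symm.dvd_of_dvd_mul_left ⟨_, k0⟩
  have b1 : |g1| ≤ 2 * (K : ℤ) ^ 2 := by
    have := Int.le_abs_of_dvd n2 ((abs_dvd _ _).2 v1)
    rw [abs_neg] at this
    exact this.trans (wedge_le hp2 hq3 hp3 hq2)
  have b2 : |g2| ≤ 2 * (K : ℤ) ^ 2 :=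
    (Int.le_abs_of_dvd n1 ((abs_dvd _ _).2 v2)).trans (wedge_le hp1 hq3 hp3 hq1)
  have b3 := wedge_le hp1 hq2 hp2 hq1
  have k3 : (N : ℤ) = |g1| * |g2| * |p1 * q2 - p2 * q1| := by
    rw [← abs_mul, ← abs_mul, ← abs_of_pos hN', ← hdet]; congr 1; ring
  have : (N : ℤ) ≤ 8 * (K : ℤ) ^ 6 := by
    rw [k3]
    calc |g1| * |g2| * |p1 * q2 - p2 * q1|
        ≤ (2 * (K : ℤ) ^ 2) * (2 * (K : ℤ) ^ 2) * (2 * (K : ℤ) ^ 2) := by gcongr
      _ = _ := by ring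
  exact_mod_cast this

/-- one application of the Baker type theorem -/
theorem row : ∃ k A0 : ℕ, ∀ (A d : ℕ) (W W' : WD) (τ' : ℍ) (p u Ω' l : ℂ) (r s : ℤ), A0 ≤ A →
    0 < d → l ≠ 0 → Ω' ≠ 0 → W'.IsLat τ' Ω' → W.Size p u A → W.Ar p A →
    W'.Size (Ω' / 2) (Ω' * ((1 : ℤ) + (0 : ℤ) * τ')) A →
    W'.Size (Ω' / 2) (Ω' * ((0 : ℤ) + (1 : ℤ) * τ')) A → W'.Ar (Ω' / 2) A →
    AI (d * l) A → AI ((d * r : ℤ) : ℂ) A → AI ((d * s : ℤ) : ℂ) A → (r ≠ 0 ∨ s ≠ 0) →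
    l * u = Ω' * (r + s * τ') →
    (∃ g p q : ℤ, r = g * p ∧ s = g * q ∧ |p| ≤ (A ^ k : ℕ) ∧ |q| ≤ (A ^ k : ℕ)) ∨
      ∃ μ : ℂ, μ ≠ 0 ∧ Few μ W.Λ W'.Λ (A ^ k) ∧ Few μ⁻¹ W'.Λ W.Λ (A ^ k) := by
  obtain ⟨k, A0, hb⟩ := baker
  refine ⟨k, A0, fun A d W W' τ' p u Ω' l r s hA hd hl hΩ hlat s0 a0 s1 s2 a1 i0 i1 i2 hrs e ↦ ?_⟩
  have hd' : (d : ℂ) ≠ 0 := by exact_mod_cast hd.ne'
  have hobs := hb A ![W, W', W'] ![d * l, ((d * r : ℤ) : ℂ), ((d * s : ℤ) : ℂ)]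
    ![p, Ω' / 2, Ω' / 2] ![u, Ω' * ((1 : ℤ) + (0 : ℤ) * τ'), Ω' * ((0 : ℤ) + (1 : ℤ) * τ')] hA
    (by simp [hd', hl]) (fun i ↦ by fin_cases i <;> assumption)
    (fun i ↦ by fin_cases i <;> assumption) (fun i ↦ by fin_cases i <;> assumption) (by
      have : (d * l) * u - ((d * r : ℤ) : ℂ) * (Ω' * ((1 : ℤ) + (0 : ℤ) * τ')) -
          ((d * s : ℤ) : ℂ) * (Ω' * ((0 : ℤ) + (1 : ℤ) * τ')) = 0 := by
        push_cast
        linear_combination (d : ℂ) * e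
      simp only [Matrix.cons_val_zero, Matrix.cons_val_one, Matrix.cons_val]
      rw [this, norm_zero]; positivity)
  have hg : 0 < Int.gcd r s := Int.gcd_pos_iff.2 hrs
  obtain ⟨g, p', q', hg0, hco, hr, hs⟩ := Int.exists_gcd_one' hg
  have hg' : (g : ℂ) ≠ 0 := by exact_mod_cast hg0.ne'
  have := obs_cases (W := ![W, W', W']) (θ := d * g) (m1 := p') (m2 := q') (τ := τ') (Ω := Ω')
    hlat hlat τ'.im_pos hΩ (mul_ne_zero hd' hg') (Int.isCoprime_iff_gcd_eq_one.2 hco)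
    (by simp [hd', hl]) (by simp [hr]; ring) (by simp [hs]; ring) hobs
  rcases this with h | h
  · exact Or.inl ⟨g, p', q', by rw [hr]; ring, by rw [hs]; ring, h.1, h.2⟩
  · exact Or.inr h

end IE

open IE in
theorem isogeny_estimate (d : ℕ) (hd : 0 < d) : ∃ C k : ℕ, ∀ (x y : ℂ) (N a : ℕ), 1 ≤ a →
    AI (d * x) a → AI (d * y) a → MinIso N x y → (N : ℝ) ≤ Real.exp a → N ≤ C * a ^ k := by
  obtain ⟨c1, hc1, hmod⟩ := model d hd
  obtain ⟨c2, hlam⟩ := lam_AI d hd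
  obtain ⟨k, A0, hrow⟩ := row
  obtain ⟨c3, hc3⟩ := exists_le_exp (6 * d * (2 * c1) ^ 4)
  set c : ℕ := c1 + c2 + c3 + A0 + 5 with hc
  refine ⟨8 * c ^ (8 * k), 16 * k, fun x y N a ha hx hy hm hN ↦ ?_⟩
  obtain ⟨τ, Ω, W, hj, hΩ, hΩe, hlat, hτ, him, har, hsz⟩ := hmod x a ha hx
  obtain ⟨τ', Ω', W', hj', hΩ', hΩe', hlat', hτ', him', har', hsz'⟩ := hmod y a ha hy
  obtain ⟨U, hU⟩ := hm.2.1
  obtain ⟨p, q, r, s, hdet, hM, hUe⟩ := hU.lift hj hj'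
  have ha1 : (1 : ℝ) ≤ a := by exact_mod_cast ha
  have hc11 : (1 : ℝ) ≤ c1 := by exact_mod_cast hc1
  have hB : (1 : ℝ) ≤ 2 * c1 * a := by nlinarith
  have hB2 : (2 : ℝ) ≤ 2 * c1 * a := by nlinarith
  have hc1a : (0 : ℝ) ≤ c1 * a := by positivity
  obtain ⟨b1, b2, b3, b4⟩ := mob_entries (B := 2 * c1 * a) hM hdet hm.1 hB (by linarith)
    (by linarith) (him.trans (mul_le_mul_of_nonneg_right hB2 τ.im_pos.le))
    (him'.trans (mul_le_mul_of_nonneg_right hB2 τ'.im_pos.le))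
  set l : ℂ := (p - r * τ') * Ω' / Ω with hl
  have hΔ := ModularForm.discriminant_ne_zero τ
  have hd' : (12 * d : ℂ) ^ 6 ≠ 0 := by
    have : (d : ℂ) ≠ 0 := by exact_mod_cast hd.ne'
    exact pow_ne_zero _ (mul_ne_zero (by norm_num) this)
  have hπ : (2 * π : ℂ) ^ 12 ≠ 0 := by
    have : (π : ℂ) ≠ 0 := by exact_mod_cast Real.pi_ne_zero
    exact pow_ne_zero _ (mul_ne_zero (by norm_num) this)
  have hl12 : l ^ 12 = U := by
    rw [hl, div_pow, div_eq_iff (pow_ne_zero _ hΩ), mul_pow]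
    apply mul_right_cancel₀ hd'
    rw [mul_assoc, hΩe', mul_assoc, hΩe]
    linear_combination (-(2 * π : ℂ) ^ 12) * hUe
  have hN0 : (0 : ℤ) < N := by exact_mod_cast hm.1
  have hl0 : l ≠ 0 := by
    have s1 := mob_normSq hM
    rw [hdet] at s1
    refine div_ne_zero (mul_ne_zero (fun h ↦ ?_) hΩ') hΩ
    rw [h] at s1
    have h1 : (0 : ℝ) < ((N : ℤ) : ℝ) := by exact_mod_cast hN0
    have h2 : 0 < (τ' : ℂ).im := τ'.im_pos
    have := mul_pos h1 h2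
    simp at s1 this
    rcases s1 with s1 | s1
    · exact hm.1.ne' s1
    · exact τ'.im_pos.ne' s1
  set A : ℕ := c * a ^ 2 with hA
  have ha2 : 1 ≤ a ^ 2 := Nat.one_le_pow _ _ ha
  have m1 : c1 * a ^ 2 ≤ A := Nat.mul_le_mul_right _ (by omega)
  have m2 : c2 * a ^ 2 ≤ A := Nat.mul_le_mul_right _ (by omega)
  have m3 : A0 ≤ A := le_trans (by omega) (Nat.le_mul_of_pos_right c ha2)
  have m4 : 1 ≤ A := le_trans (by omega) (Nat.le_mul_of_pos_right c ha2)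
  have hAI := (hlam N x y U l a ha hx hy hm hN hU hl12).mono m2
  have hint : ∀ t : ℤ, |(t : ℝ)| ≤ 6 * N * (2 * c1 * a) ^ 4 → AI ((d * t : ℤ) : ℂ) A := by
    intro t ht
    refine int_AI _ m4 ?_
    have h5 : (a : ℝ) ≤ Real.exp a := by linarith [Real.add_one_le_exp (a : ℝ)]
    push_cast
    rw [abs_mul, abs_of_nonneg (Nat.cast_nonneg d)]
    calc (d : ℝ) * |(t : ℝ)| ≤ d * (6 * N * (2 * c1 * a) ^ 4) := by gcongr
      _ ≤ d * (6 * Real.exp a * (2 * c1 * Real.exp a) ^ 4) := by gcongr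
      _ = (6 * d * (2 * c1) ^ 4) * Real.exp a ^ 5 := by ring
      _ ≤ Real.exp (c3 * a) * Real.exp a ^ 5 := by gcongr; exact hc3 a ha
      _ = Real.exp ((c3 + 5) * a) := by
        rw [← Real.exp_nat_mul, ← Real.exp_add]; push_cast; ring_nf
      _ ≤ _ := by
        apply Real.exp_le_exp.2
        rw [hA, hc]
        push_cast
        have : (0 : ℝ) ≤ c2 := by positivity
        have : (0 : ℝ) ≤ c3 := by positivity
        have : (0 : ℝ) ≤ A0 := by positivity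
        have : (a : ℝ) ≤ a ^ 2 := by nlinarith
        nlinarith
  have hpos : (0 : ℝ) ≤ 3 * N * (2 * c1 * a) ^ 4 := by positivity
  have key : ∀ (m n t t' : ℤ), (m ≠ 0 ∨ n ≠ 0) → |m| ≤ 1 → |n| ≤ 1 →
      |(t : ℝ)| ≤ 6 * N * (2 * c1 * a) ^ 4 → |(t' : ℝ)| ≤ 6 * N * (2 * c1 * a) ^ 4 →
      (t ≠ 0 ∨ t' ≠ 0) → (p - r * τ' : ℂ) * (m + n * τ) = t + t' * τ' →
      (∃ g p q : ℤ, t = g * p ∧ t' = g * q ∧ |p| ≤ (A ^ k : ℕ) ∧ |q| ≤ (A ^ k : ℕ)) ∨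
        N ≤ (A ^ k) ^ 8 := by
    intro m n t t' hmn hm1 hn1 ht ht' htt e
    have := hrow A d W W' τ' (Ω / 2) (Ω * (m + n * τ)) Ω' l t t' m3 hd hl0 hΩ' hlat'
      ((hsz m n hmn hm1 hn1).mono m1) (Ar_mono har m1)
      ((hsz' 1 0 (by simp) (by simp) (by simp)).mono m1)
      ((hsz' 0 1 (by simp) (by simp) (by simp)).mono m1) (Ar_mono har' m1) hAI (hint t ht)
      (hint t' ht') htt (by rw [hl, ← e]; field_simp)
    rcases this with h | ⟨μ, hμ, f1, f2⟩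
    · exact Or.inl h
    · exact Or.inr (mult_case hlat hlat' hΩ hΩ' hμ f1 f2 (by rw [hj, hj']; exact hm))
  have hM' := hM
  unfold Mob at hM'
  have k1 := key 1 0 p (-r) (by simp) (by simp) (by simp) (by linarith)
    (by push_cast; rw [abs_neg]; linarith)
    (by by_contra h; push Not at h; obtain ⟨h1, h2⟩ := h
        rw [h1, neg_eq_zero.1 h2] at hdet; omega)
    (by push_cast; ring)
  have k2 := key 0 1 (-q) s (by simp) (by simp) (by simp)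
    (by push_cast; rw [abs_neg]; linarith) (by linarith)
    (by by_contra h; push Not at h; obtain ⟨h1, h2⟩ := h
        rw [h2, neg_eq_zero.1 h1] at hdet; omega)
    (by push_cast; linear_combination (-1 : ℂ) * hM')
  have k3 := key 1 1 (p - q) (s - r) (by simp) (by simp) (by simp)
    (by push_cast; linarith [abs_sub (p : ℝ) q]) (by push_cast; linarith [abs_sub (s : ℝ) r])
    (by by_contra h; push Not at h; obtain ⟨h1, h2⟩ := h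
        rw [sub_eq_zero.1 h1, sub_eq_zero.1 h2] at hdet; omega)
    (by push_cast; linear_combination (-1 : ℂ) * hM')
  have hK : 1 ≤ A ^ k := Nat.one_le_pow _ _ m4
  have fin : N ≤ 8 * (A ^ k) ^ 8 := by
    rcases k1 with ⟨g1, p1, q1, e1, e1', u1, v1⟩ | k1
    swap; · omega
    rcases k2 with ⟨g2, p2, q2, e2, e2', u2, v2⟩ | k2
    swap; · omega
    rcases k3 with ⟨g3, p3, q3, e3, e3', u3, v3⟩ | k3
    swap; · omega
    have hco : IsCoprime g1 g2 := by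
      rw [Int.isCoprime_iff_gcd_eq_one]
      have w1 : ((Int.gcd g1 g2 : ℕ) : ℤ) ∣ g1 := Int.gcd_dvd_left _ _
      have w2 : ((Int.gcd g1 g2 : ℕ) : ℤ) ∣ g2 := Int.gcd_dvd_right _ _
      have := prim (by rw [hj, hj']; exact hm) hdet hM (g := (Int.gcd g1 g2 : ℕ))
        (e1 ▸ w1.mul_right _) ((dvd_neg).1 (e2 ▸ w2.mul_right _))
        ((dvd_neg).1 (e1' ▸ w1.mul_right _)) (e2' ▸ w2.mul_right _)
      rcases Int.isUnit_iff.1 this with h | h <;> omega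
    have := small_case (K := A ^ k) (g3 := g3) (p3 := p3) (q3 := q3) hm.1
      (by rw [← e1, ← e1', ← e2, ← e2', ← hdet]; ring) hco
      (by rw [← e1, ← e2, ← e3]; ring) (by rw [← e1', ← e2', ← e3']; ring) u1 v1 u2 v2 u3 v3
    refine this.trans (Nat.mul_le_mul_left _ (Nat.pow_le_pow_right hK (by norm_num)))
  refine fin.trans (le_of_eq ?_)
  rw [hA]; ring_nf

end Pool.Agent.Lib.ZP3
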