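import Pool.Agent.Lib.ZP3.Defs

/-! Block AN: complex analytic lemmas. -/

open UpperHalfPlane Filter Topology Metric
open scoped Real

namespace Pool.Agent.Lib.ZP3

open Pool.Agent.Lib.MP_0704bf_ag

namespace AN

/-- a zero of order at least `T` can be factored out locally -/
theorem local_factor {f : ℂ → ℂ} {z : ℂ} (hf : AnalyticAt ℂ f z) {T : ℕ}
    (h : f =O[𝓝 z] fun s ↦ (s - z) ^ T) :
    ∃ g : ℂ → ℂ, AnalyticAt ℂ g z ∧ ∀ᶠ s in 𝓝 z, f s = (s - z) ^ T * g s := by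
  by_cases h0 : ∀ᶠ s in 𝓝 z, f s = 0
  · exact ⟨fun _ ↦ 0, analyticAt_const, h0.mono fun s hs ↦ by simp [hs]⟩
  obtain ⟨k, g, hg, hg0, he⟩ := hf.exists_eventuallyEq_pow_smul_nonzero_iff.2 h0
  have hk : T ≤ k := by
    by_contra hk
    obtain ⟨j, rfl⟩ : ∃ j, T = k + (j + 1) := ⟨T - k - 1, by omega⟩
    obtain ⟨C, hC⟩ := h.bound
    have h1 : ∀ᶠ s in 𝓝[≠] z, ‖g s‖ ≤ C * ‖(s - z) ^ (j + 1)‖ := by
      filter_upwards [nhdsWithin_le_nhds he, nhdsWithin_le_nhds hC, self_mem_nhdsWithin]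
        with s h1 h2 h3
      have h4 : 0 < ‖(s - z) ^ k‖ := norm_pos_iff.2 (pow_ne_zero _ (sub_ne_zero.2 h3))
      rw [h1, smul_eq_mul, pow_add, norm_mul, norm_mul, mul_left_comm] at h2
      exact le_of_mul_le_mul_left h2 h4
    have h2 : Tendsto (fun s ↦ ‖g s‖) (𝓝[≠] z) (𝓝 ‖g z‖) :=
      hg.continuousAt.norm.tendsto.mono_left nhdsWithin_le_nhds
    have h3 : Tendsto (fun s ↦ C * ‖(s - z) ^ (j + 1)‖) (𝓝[≠] z) (𝓝 (C * ‖(z - z) ^ (j + 1)‖)) :=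
      (Continuous.tendsto (by fun_prop) z).mono_left nhdsWithin_le_nhds
    have := le_of_tendsto_of_tendsto h2 h3 h1
    simp [hg0] at this
  obtain ⟨j, rfl⟩ := Nat.exists_eq_add_of_le hk
  refine ⟨fun s ↦ (s - z) ^ j * g s, by fun_prop, he.mono fun s hs ↦ ?_⟩
  rw [hs, smul_eq_mul, pow_add, mul_assoc]

/-- finitely many zeros can be factored out globally -/
theorem global_factor {f : ℂ → ℂ} {U : Set ℂ} (hf : AnalyticOnNhd ℂ f U) (Z : Finset ℂ) (T : ℕ)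
    (hZ : ∀ z ∈ Z, z ∈ U ∧ f =O[𝓝 z] fun s ↦ (s - z) ^ T) :
    ∃ h : ℂ → ℂ, AnalyticOnNhd ℂ h U ∧ ∀ s, f s = (∏ z ∈ Z, (s - z) ^ T) * h s := by
  classical
  choose! g hg he using fun z (hz : z ∈ Z) ↦ local_factor (hf z (hZ z hz).1) (hZ z hz).2
  have hne : ∀ (s : ℂ) (Y : Finset ℂ), s ∉ Y → ∏ z ∈ Y, (s - z) ^ T ≠ 0 := fun s Y hs ↦
    Finset.prod_ne_zero_iff.2 fun z hz ↦ pow_ne_zero _ (sub_ne_zero.2 fun e ↦ hs (e ▸ hz))
  have hP : ∀ (Y : Finset ℂ) (s : ℂ), AnalyticAt ℂ (fun s ↦ ∏ z ∈ Y, (s - z) ^ T) s :=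
    fun Y s ↦ Finset.analyticAt_fun_prod _ fun z _ ↦ by fun_prop
  have hev : ∀ (s : ℂ) (Y : Finset ℂ), s ∉ Y → ∀ᶠ w in 𝓝 s, w ∉ Y := fun s Y hs ↦
    Y.finite_toSet.isClosed.isOpen_compl.mem_nhds hs
  refine ⟨fun s ↦ if s ∈ Z then g s s / ∏ z ∈ Z.erase s, (s - z) ^ T
    else f s / ∏ z ∈ Z, (s - z) ^ T, fun s hs ↦ ?_, fun s ↦ ?_⟩
  · by_cases hsZ : s ∈ Z
    · refine ((hg s hsZ).div (hP (Z.erase s) s) (hne s _ (Finset.notMem_erase s Z))).congr ?_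
      filter_upwards [he s hsZ, hev s _ (Finset.notMem_erase s Z)] with w h1 h2
      by_cases hw : w = s
      · simp [hw, hsZ]
      · have hwZ : w ∉ Z := fun e ↦ h2 (Finset.mem_erase.2 ⟨hw, e⟩)
        simp only [hwZ, if_false, Pi.div_apply]
        rw [h1, ← Finset.mul_prod_erase Z _ hsZ,
          mul_div_mul_left _ _ (pow_ne_zero _ (sub_ne_zero.2 hw))]
    · refine ((hf s hs).div (hP Z s) (hne s _ hsZ)).congr ?_
      filter_upwards [hev s _ hsZ] with w h2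
      simp [h2]
  · by_cases hsZ : s ∈ Z
    · simp only [hsZ, if_true]
      rw [(he s hsZ).self_of_nhds, ← Finset.mul_prod_erase Z _ hsZ, mul_assoc,
        mul_div_cancel₀ _ (hne s _ (Finset.notMem_erase s Z))]
    · simp only [hsZ, if_false]
      rw [mul_div_cancel₀ _ (hne s _ hsZ)]

theorem isBigO_of_zero {f : ℂ → ℂ} {z : ℂ} (hf : AnalyticAt ℂ f z) (h : f z = 0) :
    f =O[𝓝 z] fun s ↦ (s - z) ^ 1 := by
  simpa [h] using hf.differentiableAt.isBigO_sub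

/-- finite dimensional comparison of norms -/
theorem FD {V : Type*} [NormedAddCommGroup V] [NormedSpace ℂ V] [FiniteDimensional ℂ V]
    (Θ : V →ₗ[ℂ] (ℂ → ℂ)) (hc : ∀ v, ContinuousOn (Θ v) (closedBall 0 10))
    (hi : ∀ v, (∀ s : ℂ, ‖s‖ ≤ 2 → Θ v s = 0) → v = 0) :
    ∃ C : ℝ, 0 < C ∧ ∀ v, ∃ s0 : ℂ, ‖s0‖ ≤ 2 ∧ ‖v‖ ≤ C * ‖Θ v s0‖ ∧
      ∀ s : ℂ, ‖s‖ ≤ 10 → ‖Θ v s‖ ≤ C * ‖v‖ := by
  let Φ : ∀ ρ : ℝ, ρ ≤ 10 → V →ₗ[ℂ] C(closedBall (0 : ℂ) ρ, ℂ) := fun ρ hρ ↦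
    { toFun := fun v ↦ ⟨fun s ↦ Θ v s, ((hc v).mono (closedBall_subset_closedBall hρ)).domRestrict⟩
      map_add' := fun v w ↦ by ext s; simp
      map_smul' := fun a v ↦ by ext s; simp }
  obtain ⟨K, hK0, hK⟩ := (Φ 2 (by norm_num)).exists_antilipschitzWith
    (LinearMap.ker_eq_bot'.2 fun v hv ↦ hi v fun s hs ↦
      DFunLike.congr_fun hv ⟨s, mem_closedBall_zero_iff.2 hs⟩)
  let Ψ := LinearMap.toContinuousLinearMap (Φ 10 le_rfl)
  refine ⟨K + ‖Ψ‖, by positivity, fun v ↦ ?_⟩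
  obtain ⟨s0, hs0, hmax⟩ := (isCompact_closedBall (0 : ℂ) 2).exists_isMaxOn
    ⟨0, by simp⟩ ((hc v).mono (closedBall_subset_closedBall (by norm_num))).norm
  refine ⟨s0, mem_closedBall_zero_iff.1 hs0, ?_, fun s hs ↦ ?_⟩
  · have h1 : ‖v‖ ≤ K * ‖Φ 2 (by norm_num) v‖ := by
      simpa using hK.le_mul_dist v 0
    have h2 : ‖Φ 2 (by norm_num) v‖ ≤ ‖Θ v s0‖ :=
      (ContinuousMap.norm_le _ (norm_nonneg _)).2 fun s ↦ hmax s.2
    calc ‖v‖ ≤ K * ‖Θ v s0‖ := h1.trans (by gcongr)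
      _ ≤ _ := by gcongr; linarith [norm_nonneg Ψ]
  · calc ‖Θ v s‖ ≤ ‖Ψ v‖ := (Ψ v).norm_coe_le_norm ⟨s, mem_closedBall_zero_iff.2 hs⟩
      _ ≤ ‖Ψ‖ * ‖v‖ := Ψ.le_opNorm v
      _ ≤ _ := by gcongr; simp

/-- local analytic roots -/
theorem exists_root {g : ℂ → ℂ} {z : ℂ} (hg : AnalyticAt ℂ g z) (h0 : g z ≠ 0) {e : ℕ}
    (he : 0 < e) : ∃ r : ℂ → ℂ, AnalyticAt ℂ r z ∧ r z ≠ 0 ∧ ∀ᶠ s in 𝓝 z, r s ^ e = g s := by
  obtain ⟨c, hc⟩ := IsAlgClosed.exists_pow_nat_eq (g z) he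
  have hc0 : c ≠ 0 := by
    rintro rfl
    exact h0 (by rw [← hc, zero_pow he.ne'])
  have he' : (e : ℂ) ≠ 0 := by exact_mod_cast he.ne'
  refine ⟨fun s ↦ c * Complex.exp (Complex.log (g s / g z) / e), ?_,
    mul_ne_zero hc0 (Complex.exp_ne_zero _), ?_⟩
  · have h1 : AnalyticAt ℂ (fun s ↦ Complex.log (g s / g z)) z :=
      (hg.div_const (c := g z)).clog (by simp [div_self h0])
    fun_prop
  · filter_upwards [hg.continuousAt.eventually_ne h0] with s hs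
    rw [mul_pow, hc, ← Complex.exp_nat_mul, mul_div_cancel₀ _ he',
      Complex.exp_log (div_ne_zero hs h0), mul_div_cancel₀ _ h0]

end AN

open AN

/-- Schwarz lemma with many multiple zeros -/
theorem schwarz {f : ℂ → ℂ} {R r r1 M : ℝ} (hr : 0 ≤ r) (hR : r < R) (hr1 : r1 ≤ R)
    (hf : AnalyticOnNhd ℂ f (closedBall 0 R)) (hM : ∀ s, ‖s‖ ≤ R → ‖f s‖ ≤ M)
    (Z : Finset ℂ) (T : ℕ) (hZ : ∀ z ∈ Z, ‖z‖ ≤ r ∧ f =O[𝓝 z] fun s ↦ (s - z) ^ T)
    {s : ℂ} (hs : ‖s‖ ≤ r1) : ‖f s‖ ≤ M * ((r1 + r) / (R - r)) ^ (Z.card * T) := by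
  have hR0 : 0 < R := hr.trans_lt hR
  have hRr : 0 < R - r := sub_pos.2 hR
  obtain ⟨h, hh, he⟩ := global_factor hf Z T fun z hz ↦
    ⟨mem_closedBall_zero_iff.2 ((hZ z hz).1.trans hR.le), (hZ z hz).2⟩
  have h1 : ‖h s‖ ≤ M / (R - r) ^ (Z.card * T) := by
    refine Complex.norm_le_of_forall_mem_frontier_norm_le (U := ball 0 R) isBounded_ball
      (DifferentiableOn.diffContOnCl (by rw [closure_ball _ hR0.ne']; exact hh.differentiableOn))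
      (fun w hw ↦ ?_) (by rw [closure_ball _ hR0.ne']; exact mem_closedBall_zero_iff.2 (hs.trans hr1))
    rw [frontier_ball _ hR0.ne', mem_sphere_zero_iff_norm] at hw
    have h2 := hM w hw.le
    rw [he w, norm_mul, norm_prod] at h2
    rw [le_div_iff₀' (by positivity)]
    refine le_trans (mul_le_mul_of_nonneg_right ?_ (norm_nonneg _)) h2
    rw [mul_comm, pow_mul, ← Finset.prod_const]
    refine Finset.prod_le_prod (fun _ _ ↦ by positivity) fun z hz ↦ ?_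
    rw [norm_pow]
    gcongr
    linarith [norm_sub_norm_le w z, (hZ z hz).1]
  have h3 : ‖∏ z ∈ Z, (s - z) ^ T‖ ≤ (r1 + r) ^ (Z.card * T) := by
    rw [norm_prod, mul_comm, pow_mul, ← Finset.prod_const]
    refine Finset.prod_le_prod (fun _ _ ↦ by positivity) fun z hz ↦ ?_
    rw [norm_pow]
    gcongr
    linarith [norm_sub_le s z, (hZ z hz).1]
  rw [he s, norm_mul, div_pow]
  calc _ ≤ (r1 + r) ^ (Z.card * T) * (M / (R - r) ^ (Z.card * T)) :=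
        mul_le_mul h3 h1 (norm_nonneg _) ((norm_nonneg _).trans h3)
    _ = _ := by ring

/-- covering of sublevel sets -/
theorem cover {g : ℂ → ℂ} (hg : AnalyticOnNhd ℂ g (closedBall 0 10)) {s0 : ℂ} (hs0 : ‖s0‖ ≤ 2)
    {C : ℕ} (hC : ∀ s, ‖s‖ ≤ 10 → ‖g s‖ ≤ 2 ^ C * ‖g s0‖) {δ : ℝ} (hδ : 0 < δ) (hδ1 : δ ≤ 1) :
    ∃ Z : Finset ℂ, Z.card ≤ C + 1 ∧ ∀ s, ‖s‖ ≤ 2 → (∀ z ∈ Z, δ < ‖s - z‖) →
      ‖g s0‖ * (δ / 100) ^ (C + 2) ≤ ‖g s‖ := by
  classical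
  by_contra hcon
  push Not at hcon
  set G := ‖g s0‖ with hG
  set θ := G * (δ / 100) ^ (C + 2) with hθ
  have hbuild : ∀ k ≤ C + 2, ∃ Z : Finset ℂ, Z.card = k ∧ (∀ z ∈ Z, ‖z‖ ≤ 2 ∧ ‖g z‖ < θ) ∧
      ∀ z ∈ Z, ∀ z' ∈ Z, z ≠ z' → δ < ‖z - z'‖ := by
    intro k hk
    induction k with
    | zero => exact ⟨∅, rfl, by simp, by simp⟩
    | succ k ih =>
      obtain ⟨Z, h1, h2, h3⟩ := ih (by omega)
      obtain ⟨s, a1, a2, a3⟩ := hcon Z (by omega)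
      have hs : s ∉ Z := fun h ↦ by have := a2 s h; simp at this; linarith
      refine ⟨insert s Z, by rw [Finset.card_insert_of_notMem hs, h1], fun z hz ↦ ?_,
        fun z hz z' hz' hne ↦ ?_⟩
      · rcases Finset.mem_insert.1 hz with rfl | hz
        · exact ⟨a1, a3⟩
        · exact h2 z hz
      · rcases Finset.mem_insert.1 hz with e | hz1 <;>
          rcases Finset.mem_insert.1 hz' with e' | hz2
        · exact absurd (e.trans e'.symm) hne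
        · rw [e]; exact a2 z' hz2
        · rw [norm_sub_rev, e']; exact a2 z hz1
        · exact h3 z hz1 z' hz2 hne
  obtain ⟨Z, h1, h2, h3⟩ := hbuild (C + 2) le_rfl
  have hG0 : 0 < G := by
    obtain ⟨z, hz⟩ := Finset.card_pos.1 (by omega : 0 < Z.card)
    exact (mul_pos_iff_of_pos_right (by positivity)).1 ((norm_nonneg _).trans_lt (h2 z hz).2)
  let L : ℂ → ℂ := fun s ↦ ∑ z ∈ Z, g z * ∏ z' ∈ Z.erase z, (s - z') / (z - z')
  have hLa : ∀ s, AnalyticAt ℂ L s := fun s ↦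
    Finset.analyticAt_fun_sum _ fun z _ ↦ analyticAt_const.mul
      (Finset.analyticAt_fun_prod _ fun z' _ ↦ by fun_prop)
  have hLz : ∀ z ∈ Z, L z = g z := by
    intro z hz
    simp only [L]
    rw [Finset.sum_eq_single_of_mem z hz, Finset.prod_eq_one, mul_one]
    · intro z' hz'
      exact div_self (sub_ne_zero.2 (Finset.mem_erase.1 hz').1.symm)
    · intro y _ hy
      rw [Finset.prod_eq_zero (Finset.mem_erase.2 ⟨hy.symm, hz⟩) (by simp), mul_zero]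
  have hL : ∀ s : ℂ, ‖s‖ ≤ 10 → ‖L s‖ ≤ G / 4 := by
    intro s hs
    have a1 : ‖L s‖ ≤ ∑ _z ∈ Z, θ * (12 / δ) ^ (C + 1) := by
      refine norm_sum_le_of_le _ fun z hz ↦ ?_
      rw [norm_mul, norm_prod]
      refine mul_le_mul (h2 z hz).2.le ?_ (by positivity) (by positivity)
      have : (Z.erase z).card = C + 1 := by rw [Finset.card_erase_of_mem hz]; omega
      rw [← this, ← Finset.prod_const]
      refine Finset.prod_le_prod (fun _ _ ↦ norm_nonneg _) fun z' hz' ↦ ?_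
      obtain ⟨b1, b2⟩ := Finset.mem_erase.1 hz'
      rw [norm_div]
      gcongr
      · linarith [norm_sub_le s z', (h2 z' b2).1]
      · exact (h3 z hz z' b2 b1.symm).le
    rw [Finset.sum_const, h1, nsmul_eq_mul] at a1
    refine a1.trans ?_
    have a2 : θ * (12 / δ) ^ (C + 1) = G * (δ / 100) * (12 / 100) ^ (C + 1) := by
      rw [hθ, pow_succ (δ / 100), mul_assoc, mul_assoc, mul_assoc, mul_left_comm _ (δ / 100),
        ← mul_pow]
      congr 3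
      field_simp
    have a3 : ((C + 2 : ℕ) : ℝ) * (12 / 100) ^ (C + 1) ≤ 1 := by
      have b1 : ((C + 2 : ℕ) : ℝ) ≤ 2 ^ (C + 1) := by
        exact_mod_cast Nat.lt_two_pow_self
      calc _ ≤ (2 : ℝ) ^ (C + 1) * (12 / 100) ^ (C + 1) := by gcongr
        _ ≤ 1 := by
          rw [← mul_pow]
          exact pow_le_one₀ (by norm_num) (by norm_num)
    rw [a2]
    nlinarith [mul_le_mul_of_nonneg_left a3 (mul_pos hG0 hδ).le, mul_le_mul_of_nonneg_left hδ1 hG0.le]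
  have hS := schwarz (f := fun s ↦ g s - L s) (R := 10) (r := 2) (r1 := 2)
    (M := 2 ^ C * G + G / 4) (by norm_num) (by norm_num) (by norm_num)
    (fun s hs ↦ (hg s hs).sub (hLa s))
    (fun s hs ↦ (norm_sub_le _ _).trans (add_le_add (hC s hs) (hL s hs))) Z 1
    (fun z hz ↦ ⟨(h2 z hz).1, isBigO_of_zero ((hg z (mem_closedBall_zero_iff.2
      ((h2 z hz).1.trans (by norm_num)))).sub (hLa z)) (by simp [hLz z hz])⟩) hs0
  have a1 := hL s0 (hs0.trans (by norm_num))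
  have a2 := norm_sub_norm_le (g s0) (L s0)
  have a3 : ((2 + 2 : ℝ) / (10 - 2)) ^ (Z.card * 1) = 1 / (4 * 2 ^ C) := by
    rw [h1, mul_one, pow_add, show ((2 + 2 : ℝ) / (10 - 2)) = 1 / 2 by norm_num, one_div_pow]
    field_simp
    norm_num
  rw [a3] at hS
  have a4 : (1 : ℝ) ≤ 2 ^ C := one_le_pow₀ (by norm_num)
  have a5 : (2 ^ C * G + G / 4) * (1 / (4 * 2 ^ C)) ≤ G / 2 := by
    rw [mul_one_div, div_le_iff₀ (by positivity)]
    nlinarith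
  linarith

theorem zero_count {κ : Type} {f : κ → ℂ → ℂ} {Cn : ℕ → ℕ} {M : ℝ}
    (hf : ∀ i, AnalyticOnNhd ℂ (f i) (closedBall 0 10)) (h : NDeg f Cn M) {e : ℕ}
    {c : MvPolynomial κ ℤ} (hc : c ≠ 0) (he : c.totalDegree ≤ e) (S : Finset ℂ)
    (hS : ∀ s ∈ S, ‖s‖ ≤ 2 ∧ MvPolynomial.aeval (fun i ↦ f i s) c = 0) : S.card ≤ Cn e + 1 := by
  obtain ⟨s0, h1, h2, h3⟩ := h e c hc he
  have hg : AnalyticOnNhd ℂ (fun s ↦ MvPolynomial.aeval (fun i ↦ f i s) c) (closedBall 0 10) :=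
    AnalyticOnNhd.aeval_mvPolynomial (f := fun s i ↦ f i s) hf c
  have h4 := schwarz (R := 10) (r := 2) (r1 := 2) (by norm_num) (by norm_num) (by norm_num) hg h3
    S 1 (fun z hz ↦ ⟨(hS z hz).1, isBigO_of_zero (hg z (mem_closedBall_zero_iff.2
      ((hS z hz).1.trans (by norm_num)))) (hS z hz).2⟩) h1
  set G := ‖MvPolynomial.aeval (fun i ↦ f i s0) c‖
  have hG : 0 < G := by
    refine lt_of_le_of_ne (norm_nonneg _) fun e ↦ ?_
    rw [← e] at h2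
    norm_num at h2
  rw [mul_one, show ((2 + 2 : ℝ) / (10 - 2)) = 1 / 2 by norm_num, one_div_pow, mul_one_div,
    le_div_iff₀ (by positivity), mul_comm] at h4
  have h5 : (2 : ℝ) ^ S.card ≤ 2 ^ Cn e := le_of_mul_le_mul_right h4 hG
  have := (pow_le_pow_iff_right₀ (by norm_num : (1 : ℝ) < 2)).1 h5
  omega

theorem NDeg.mono {κ : Type} {f : κ → ℂ → ℂ} {Cn Cn' : ℕ → ℕ} {M M' : ℝ} (h : NDeg f Cn M)
    (h1 : 1 ≤ M) (hM : M ≤ M') (hC : ∀ e, Cn e ≤ Cn' e) : NDeg f Cn' M' := by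
  intro e c hc he
  obtain ⟨s0, a1, a2, a3⟩ := h e c hc he
  refine ⟨s0, a1, a2.trans ?_, fun s hs ↦ (a3 s hs).trans ?_⟩
  · gcongr
    exact (pow_le_pow_left₀ (by linarith) hM _).trans (pow_le_pow_right₀ (h1.trans hM) (hC e))
  · gcongr
    · norm_num
    · exact hC e

theorem nd_compact {κ : Type} [Fintype κ] {f : κ → ℂ → ℂ}
    (hf : ∀ i, AnalyticOnNhd ℂ (f i) (closedBall 0 10))
    (hind : ∀ c : MvPolynomial κ ℂ,
      (∀ s : ℂ, ‖s‖ ≤ 2 → MvPolynomial.eval (fun i ↦ f i s) c = 0) → c = 0) :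
    ∃ Cn : ℕ → ℕ, NDeg f Cn 2 := by
  classical
  have key : ∀ e : ℕ, ∃ n : ℕ, ∀ c : MvPolynomial κ ℤ, c ≠ 0 → c.totalDegree ≤ e →
      ∃ s0 : ℂ, ‖s0‖ ≤ 2 ∧ 1 ≤ (2 : ℝ) ^ n * ‖MvPolynomial.aeval (fun i ↦ f i s0) c‖ ∧
        ∀ s : ℂ, ‖s‖ ≤ 10 → ‖MvPolynomial.aeval (fun i ↦ f i s) c‖ ≤
          2 ^ n * ‖MvPolynomial.aeval (fun i ↦ f i s0) c‖ := by
    intro e
    let I : Finset (κ →₀ ℕ) := (Finsupp.finite_of_degree_le (σ := κ) e).toFinset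
    let pol : (I → ℂ) →ₗ[ℂ] MvPolynomial κ ℂ :=
      ∑ m : I, (MvPolynomial.monomial m.1).comp (LinearMap.proj m)
    have hpol : ∀ v, pol v = ∑ m : I, MvPolynomial.monomial m.1 (v m) := fun v ↦ by simp [pol]
    have hco : ∀ v (m : I), (pol v).coeff m.1 = v m := by
      intro v m
      rw [hpol, MvPolynomial.coeff_sum, Finset.sum_eq_single m]
      · simp
      · intro m' _ hm'
        rw [MvPolynomial.coeff_monomial, if_neg fun e ↦ hm' (Subtype.ext e)]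
      · simp
    let Θ : (I → ℂ) →ₗ[ℂ] (ℂ → ℂ) :=
      LinearMap.pi fun s ↦ (MvPolynomial.aeval (fun i ↦ f i s)).toLinearMap.comp pol
    obtain ⟨C, hC0, hC⟩ := FD Θ
      (fun v ↦ (AnalyticOnNhd.aeval_mvPolynomial (f := fun s i ↦ f i s) hf (pol v)).continuousOn)
      (fun v hv ↦ by
        have := hind (pol v) hv
        funext m
        rw [← hco v m, this]
        simp)
    obtain ⟨n, hn⟩ := pow_unbounded_of_one_lt (max C (C * C)) (by norm_num : (1 : ℝ) < 2)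
    refine ⟨n, fun c hc he ↦ ?_⟩
    let v : I → ℂ := fun m ↦ (c.coeff m.1 : ℤ)
    have hsup : ∀ m ∈ c.support, m ∈ I := fun m hm ↦ by
      simp only [I, Set.Finite.mem_toFinset, Set.mem_ofPred_eq]
      exact (MvPolynomial.le_totalDegree hm).trans he
    have hv : pol v = c.map (algebraMap ℤ ℂ) := by
      ext m
      rw [MvPolynomial.coeff_map]
      by_cases hm : m ∈ I
      · exact hco v ⟨m, hm⟩
      · rw [MvPolynomial.notMem_support_iff.1 fun h ↦ hm (hsup m h), hpol,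
          MvPolynomial.coeff_sum, map_zero]
        refine Finset.sum_eq_zero fun m' _ ↦ ?_
        rw [MvPolynomial.coeff_monomial, if_neg fun e : m'.1 = m ↦ hm (e ▸ m'.2)]
    have hΘ : ∀ s, Θ v s = MvPolynomial.aeval (fun i ↦ f i s) c := fun s ↦ by
      simp only [Θ, LinearMap.pi_apply, LinearMap.comp_apply, hv, AlgHom.toLinearMap_apply,
        MvPolynomial.aeval_map_algebraMap]
    obtain ⟨s0, a1, a2, a3⟩ := hC v
    simp only [hΘ] at a2 a3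
    obtain ⟨m, hm⟩ := MvPolynomial.support_nonempty.2 hc
    have b1 : 1 ≤ ‖v‖ := by
      refine le_trans ?_ (norm_le_pi_norm v ⟨m, hsup m hm⟩)
      simp only [v, Complex.norm_intCast]
      exact_mod_cast Int.one_le_abs (MvPolynomial.mem_support_iff.1 hm)
    refine ⟨s0, a1, (b1.trans a2).trans ?_, fun s hs ↦ (a3 s hs).trans ?_⟩
    · gcongr
      exact (le_max_left _ _).trans hn.le
    · calc _ ≤ C * (C * ‖MvPolynomial.aeval (fun i ↦ f i s0) c‖) := by gcongr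
        _ ≤ _ := by
          rw [← mul_assoc]
          gcongr
          exact (le_max_right _ _).trans hn.le
  choose Cn hCn using key
  exact ⟨Cn, hCn⟩

/-- local lifting through a nonconstant analytic map -/
theorem lift {g : ℂ → ℂ} {z0 : ℂ} (hg : AnalyticAt ℂ g z0) (hnc : ¬ ∀ᶠ z in 𝓝 z0, g z = g z0) :
    ∃ e : ℕ, 0 < e ∧ (deriv g z0 ≠ 0 → e = 1) ∧ ∀ (h : ℂ → ℂ) (E : ℕ), AnalyticAt ℂ h 0 →
      h 0 = g z0 → 0 < E → e ∣ E →
      ∃ τ : ℂ → ℂ, AnalyticAt ℂ τ 0 ∧ τ 0 = z0 ∧ ∀ᶠ u in 𝓝 0, g (τ u) = h (u ^ E) := by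
  obtain ⟨e, g1, hg1, hg10, he⟩ :=
    (hg.sub (analyticAt_const (v := g z0))).exists_eventuallyEq_pow_smul_nonzero_iff.2
      (by simpa [sub_eq_zero] using hnc)
  have he0 : 0 < e := by
    rcases Nat.eq_zero_or_pos e with rfl | h
    · exact absurd (by simpa using he.self_of_nhds.symm) hg10
    · exact h
  refine ⟨e, he0, fun hd ↦ ?_, fun h E hh h0 hE hdvd ↦ ?_⟩
  · by_contra hne
    obtain ⟨j, rfl⟩ : ∃ j, e = j + 2 := ⟨e - 2, by omega⟩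
    have h1 : g =ᶠ[𝓝 z0] fun z ↦ g z0 + (z - z0) ^ (j + 2) * g1 z :=
      he.mono fun z hz ↦ by simp only [Pi.sub_apply, smul_eq_mul] at hz ⊢; rw [← hz]; ring
    have h2 := ((((hasDerivAt_id z0).sub_const z0).pow (j + 2)).mul
      hg1.differentiableAt.hasDerivAt).const_add (g z0)
    refine hd (h1.deriv_eq.trans (h2.deriv.trans ?_))
    simp
  obtain ⟨g2, hg2, hg20, hg2e⟩ := exists_root hg1 hg10 he0
  have hφ : AnalyticAt ℂ (fun z ↦ (z - z0) * g2 z) z0 := by fun_prop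
  have hφ' : deriv (fun z ↦ (z - z0) * g2 z) z0 ≠ 0 := by
    have := (((hasDerivAt_id z0).sub_const z0).mul hg2.differentiableAt.hasDerivAt).deriv
    simp only [id, sub_self, zero_mul, one_mul, add_zero] at this
    exact this ▸ hg20
  obtain ⟨ψ, hψ, hψ0, hψe⟩ : ∃ ψ : ℂ → ℂ, AnalyticAt ℂ ψ 0 ∧ ψ 0 = z0 ∧
      ∀ᶠ w in 𝓝 0, (ψ w - z0) * g2 (ψ w) = w := by
    have a1 := hφ.analyticAt_localInverse hφ'
    have a2 : (hφ.hasStrictDerivAt.localInverse _ _ _ hφ') ((z0 - z0) * g2 z0) = z0 :=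
      HasStrictFDerivAt.localInverse_apply_image ..
    have a3 := hφ.hasStrictDerivAt.eventually_right_inverse hφ'
    simp only [sub_self, zero_mul] at a1 a2 a3
    exact ⟨_, a1, a2, a3⟩
  have hpow : Tendsto (fun u : ℂ ↦ u ^ E) (𝓝 0) (𝓝 0) := by
    simpa [hE.ne'] using (continuous_pow E).tendsto (0 : ℂ)
  by_cases hc : ∀ᶠ v in 𝓝 (0 : ℂ), (h - (fun _ ↦ h 0 : ℂ → ℂ)) v = 0
  · refine ⟨fun _ ↦ z0, analyticAt_const, rfl, (hpow.eventually hc).mono fun u hu ↦ ?_⟩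
    rw [← h0]
    exact (sub_eq_zero.1 hu).symm
  obtain ⟨k, h1, hh1, hh10, hk⟩ :=
    (hh.sub (analyticAt_const (v := h 0))).exists_eventuallyEq_pow_smul_nonzero_iff.2 hc
  have hk0 : 0 < k := by
    rcases Nat.eq_zero_or_pos k with rfl | h
    · exact absurd (by simpa using hk.self_of_nhds.symm) hh10
    · exact h
  obtain ⟨h2, hh2, -, hh2e⟩ := exists_root hh1 hh10 he0
  obtain ⟨q, rfl⟩ := hdvd
  have hq0 : q ≠ 0 := by rintro rfl; simp at hE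
  have hw : AnalyticAt ℂ (fun u : ℂ ↦ u ^ (q * k) * h2 (u ^ (e * q))) 0 :=
    (analyticAt_id.pow _).mul (hh2.comp_of_eq (analyticAt_id.pow _) (by simp [hE.ne']))
  have hw0 : (0 : ℂ) ^ (q * k) * h2 (0 ^ (e * q)) = 0 := by simp [hq0, hk0.ne']
  have hwt : Tendsto (fun u : ℂ ↦ u ^ (q * k) * h2 (u ^ (e * q))) (𝓝 0) (𝓝 0) := by
    have := hw.continuousAt.tendsto
    rwa [hw0] at this
  have hτt : Tendsto (fun u : ℂ ↦ ψ (u ^ (q * k) * h2 (u ^ (e * q)))) (𝓝 0) (𝓝 z0) :=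
    (hψ0 ▸ hψ.continuousAt.tendsto).comp hwt
  refine ⟨fun u ↦ ψ (u ^ (q * k) * h2 (u ^ (e * q))), hψ.comp_of_eq hw hw0, by
    simp only [hw0, hψ0], ?_⟩
  filter_upwards [hτt.eventually he, hτt.eventually hg2e, hwt.eventually hψe, hpow.eventually hk,
    hpow.eventually hh2e] with u a1 a2 a3 a4 a5
  simp only [Pi.sub_apply, smul_eq_mul, sub_zero] at a1 a4
  rw [← a2, ← mul_pow, a3, ← h0] at a1
  rw [← a5] at a4
  have : (u ^ (q * k) * h2 (u ^ (e * q))) ^ e = (u ^ (e * q)) ^ k * h2 (u ^ (e * q)) ^ e := by ring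
  rw [this, ← a4] at a1
  exact sub_left_injective a1

end Pool.Agent.Lib.ZP3
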