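import Pool.Agent.Lib.ZP3.An
import Pool.Agent.Lib.ZP3.Arith
import Pool.Agent.Lib.ZP3.WdLem
import Pool.Agent.Lib.ZP3.BakerAn1

/-! Block BAN: the analytic extrapolation step. -/

open UpperHalfPlane Filter Topology Metric
open scoped Real

namespace Pool.Agent.Lib.ZP3.BAN

lemma per_nat {α : Type*} {f : ℂ → α} (h : ∀ s, f (s + 1) = f s) (n : ℕ) (s : ℂ) :
    f (s + n) = f s := by
  induction n with
  | zero => simp
  | succ n ih => rw [Nat.cast_succ, ← add_assoc, h, ih]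

lemma core {Θ Φ : ℂ × ℂ → ℂ} {r r0 M BF η : ℝ} {S T0 T1 : ℕ} (hr : 0 < r) (hr1 : r ≤ 1)
    (hr0 : 0 < r0) (hr01 : r0 ≤ 1) (hM : 0 < M) (hBF : 0 ≤ BF) (hη : 0 ≤ η)
    (h1 : ∀ s y : ℂ, ‖s‖ ≤ 3 * S + 2 → ‖y‖ ≤ r → AnalyticAt ℂ Θ (s, y) ∧
      AnalyticAt ℂ (fun q ↦ Θ q * Φ q) (s, y) ∧ ‖Θ (s, y)‖ ≤ M ∧ ‖Θ (s, y) * Φ (s, y)‖ ≤ BF * M)
    (h2 : ∀ s y : ℂ, ‖s‖ ≤ r0 → ‖y‖ ≤ r → M⁻¹ ≤ ‖Θ (s, y)‖ ∧ AnalyticAt ℂ Φ (s, y))
    (h3 : ∀ s y, Φ (s + 1, y) = Φ (s, y))
    (h4 : ∀ k < T0, ∀ b < T1,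
      ‖iteratedDeriv k (fun s ↦ iteratedDeriv b (fun y ↦ Φ (s, y)) 0) 0‖ ≤ η)
    (k b : ℕ) (hb : b < T1) :
    ‖iteratedDeriv k (fun s ↦ iteratedDeriv b (fun y ↦ Φ (s, y)) 0) 0‖ ≤
      k.factorial * b.factorial * ((b + 1) * M ^ 2 / (r0 ^ k * r ^ b)) *
        (BF / 2 ^ (S * T0) +
          2 * (b + 1) * (η * Real.exp (4 * T0 ^ 2) * Real.exp (7 * T0 * (3 * S + 2)))) := by
  have hS0 : (0 : ℝ) ≤ S := Nat.cast_nonneg S
  have h0r : ‖(0 : ℂ)‖ ≤ r := by simpa using hr.le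
  have h0r0 : ‖(0 : ℂ)‖ ≤ r0 := by simpa using hr0.le
  set K : ℝ := η * Real.exp (4 * T0 ^ 2) * Real.exp (7 * T0 * (3 * S + 2)) with hK
  have hK0 : 0 ≤ K := by positivity
  set φ : ℕ → ℂ → ℂ := fun b s ↦ tc (fun y ↦ Φ (s, y)) b with hφ
  have hφa : ∀ b s, ‖s‖ ≤ r0 → AnalyticAt ℂ (φ b) s := fun b s hs ↦
    analytic_tc (h2 s 0 hs h0r).2 b
  have hφe : ∀ k b : ℕ, iteratedDeriv k (fun s ↦ iteratedDeriv b (fun y ↦ Φ (s, y)) 0) 0 =
      b.factorial * iteratedDeriv k (φ b) 0 := by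
    intro k b
    rw [← iteratedDeriv_const_mul_field]
    congr 1
    funext s
    have h2 : (b.factorial : ℂ) ≠ 0 := by exact_mod_cast b.factorial_ne_zero
    simp only [hφ, tc]
    field_simp
  have hφper : ∀ b s, φ b (s + 1) = φ b s := by
    intro b s
    simp only [hφ, h3]
  have hφη : ∀ b < T1, ∀ k < T0, ‖tc (φ b) k‖ ≤ η := by
    intro b hb k hk
    have h := h4 k hk b hb
    rw [hφe, norm_mul, Complex.norm_natCast] at h
    have e1 : (1 : ℝ) ≤ b.factorial := by exact_mod_cast b.factorial_pos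
    have e2 : (1 : ℝ) ≤ k.factorial := by exact_mod_cast k.factorial_pos
    unfold tc
    rw [norm_div, Complex.norm_natCast, div_le_iff₀ (by linarith)]
    nlinarith [norm_nonneg (iteratedDeriv k (φ b) 0)]
  have hex : ∀ b, b < T1 → _ := fun b hb ↦ approx (hφa b 0 h0r0) hη T0 (hφη b hb)
  choose! ψ hψa hψper hψfac hψb using hex
  choose! gg hgga hggf using hψfac
  set θ : ℕ → ℂ → ℂ := fun j s ↦ tc (fun y ↦ Θ (s, y)) j with hθ
  set θ' : ℕ → ℂ → ℂ := fun j s ↦ tc (fun y ↦ Θ (s, y) * Φ (s, y)) j with hθ'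
  have hθa : ∀ j s, ‖s‖ ≤ 3 * S + 2 → AnalyticAt ℂ (θ j) s := fun j s hs ↦
    analytic_tc (h1 s 0 hs h0r).1 j
  have hθ'a : ∀ j s, ‖s‖ ≤ 3 * S + 2 → AnalyticAt ℂ (θ' j) s := fun j s hs ↦
    analytic_tc (H := fun q ↦ Θ q * Φ q) (h1 s 0 hs h0r).2.1 j
  have hθb : ∀ j s, ‖s‖ ≤ 3 * S + 2 → ‖θ j s‖ ≤ M / r ^ j := fun j s hs ↦
    tc_bound hr (fun y hy ↦ analytic_slice (h1 s y hs hy).1) (fun y hy ↦ (h1 s y hs hy).2.2.1) j
  have hθ'b : ∀ j s, ‖s‖ ≤ 3 * S + 2 → ‖θ' j s‖ ≤ BF * M / r ^ j := fun j s hs ↦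
    tc_bound hr (fun y hy ↦ analytic_slice (H := fun q ↦ Θ q * Φ q) (h1 s y hs hy).2.1)
      (fun y hy ↦ (h1 s y hs hy).2.2.2) j
  have hsum : ∀ b < T1, ∀ s, ‖s‖ ≤ 3 * S + 2 →
      ‖∑ j ∈ Finset.range (b + 1), θ j s * ψ (b - j) s‖ ≤ (b + 1) * (M / r ^ b * K) := by
    intro b hb s hs
    refine (norm_sum_le _ _).trans ?_
    have : ∀ j ∈ Finset.range (b + 1), ‖θ j s * ψ (b - j) s‖ ≤ M / r ^ b * K := by
      intro j hj
      have hj' : j ≤ b := Nat.lt_succ_iff.1 (Finset.mem_range.1 hj)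
      rw [norm_mul]
      have e1 : M / r ^ j ≤ M / r ^ b :=
        div_le_div_of_nonneg_left hM.le (by positivity) (pow_le_pow_of_le_one hr.le hr1 hj')
      exact mul_le_mul ((hθb j s hs).trans e1) (hψb (b - j) (by omega) _ s hs) (norm_nonneg _)
        (by positivity)
    refine (Finset.sum_le_card_nsmul _ _ _ this).trans ?_
    simp
  have hkey : ∀ b < T1, ∀ s, ‖s‖ ≤ 1 →
      ‖θ' b s‖ ≤ M / r ^ b * (BF / 2 ^ (S * T0) + 2 * (b + 1) * K) := by
    intro b hb s hs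
    set g : ℂ → ℂ := fun s ↦ θ' b s - ∑ j ∈ Finset.range (b + 1), θ j s * ψ (b - j) s with hg
    have hga : AnalyticOnNhd ℂ g (closedBall 0 (3 * S + 2)) := by
      intro s hs
      have hs' : ‖s‖ ≤ 3 * S + 2 := by simpa using hs
      refine (hθ'a b s hs').sub (Finset.analyticAt_fun_sum _ fun j hj ↦ ?_)
      exact (hθa j s hs').mul (hψa (b - j) (by omega) s)
    have hgb : ∀ s, ‖s‖ ≤ 3 * S + 2 → ‖g s‖ ≤ BF * M / r ^ b + (b + 1) * (M / r ^ b * K) :=
      fun s hs ↦ (norm_sub_le _ _).trans (add_le_add (hθ'b b s hs) (hsum b hb s hs))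
    have hZ : ∀ z ∈ (Finset.range S).image (fun n : ℕ ↦ (n : ℂ)),
        ‖z‖ ≤ S ∧ g =O[𝓝 z] fun s ↦ (s - z) ^ T0 := by
      intro z hz
      obtain ⟨n, hn, rfl⟩ := Finset.mem_image.1 hz
      have hn' : (n : ℝ) ≤ S := by exact_mod_cast (Finset.mem_range.1 hn).le
      have hn1 : ‖(n : ℂ)‖ ≤ S := by simpa using hn'
      refine ⟨hn1, ?_⟩
      have hsub : Tendsto (fun s : ℂ ↦ s - n) (𝓝 n) (𝓝 0) := by
        have : Continuous fun s : ℂ ↦ s - n := by fun_prop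
        simpa using this.tendsto n
      set G : ℂ → ℂ := fun s ↦ ∑ j ∈ Finset.range (b + 1), θ j s * gg (b - j) (s - n) with hG
      have hGc : ContinuousAt G n := by
        refine tendsto_finsetSum _ fun j hj ↦ ?_
        refine (hθa j n (by linarith)).continuousAt.mul ?_
        have := (hgga (b - j) (by omega)).continuousAt.tendsto.comp hsub
        simpa [ContinuousAt, Function.comp_def] using this
      have hev : ∀ᶠ s in 𝓝 (n : ℂ), g s = (s - n) ^ T0 * G s := by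
        have e1 : ∀ᶠ s in 𝓝 (n : ℂ), ∀ j ∈ Finset.range (b + 1),
            φ (b - j) (s - n) - ψ (b - j) (s - n) = (s - n) ^ T0 * gg (b - j) (s - n) :=
          (Finset.eventually_all _).2 fun j _ ↦ hsub.eventually (hggf (b - j) (by omega))
        have e2 : ∀ᶠ s : ℂ in 𝓝 (n : ℂ), ‖s - (n : ℂ)‖ ≤ r0 := by
          filter_upwards [closedBall_mem_nhds (n : ℂ) hr0] with s hs
          simpa [dist_eq_norm] using hs
        filter_upwards [e1, e2] with s e1 e2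
        have hs : ‖s‖ ≤ 3 * S + 2 := by
          calc ‖s‖ = ‖(s - n) + n‖ := by simp
            _ ≤ ‖s - n‖ + ‖(n : ℂ)‖ := norm_add_le _ _
            _ ≤ _ := by linarith
        have hΦs : (fun y ↦ Φ (s, y)) = fun y ↦ Φ (s - n, y) := by
          funext y
          have := per_nat (f := fun s ↦ Φ (s, y)) (fun s ↦ h3 s y) n (s - n)
          simpa using this
        have hΦa : AnalyticAt ℂ (fun y ↦ Φ (s, y)) 0 := by
          rw [hΦs]
          exact analytic_slice (h2 _ 0 e2 h0r).2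
        have e3 : θ' b s = ∑ j ∈ Finset.range (b + 1), θ j s * φ (b - j) s :=
          tc_mul (analytic_slice (h1 s 0 hs h0r).1) hΦa b
        simp only [hg, hG]
        rw [e3, ← Finset.sum_sub_distrib, Finset.mul_sum]
        refine Finset.sum_congr rfl fun j hj ↦ ?_
        have e4 : φ (b - j) s = φ (b - j) (s - n) := by
          simpa using per_nat (hφper (b - j)) n (s - n)
        have e5 : ψ (b - j) s = ψ (b - j) (s - n) := by
          simpa using per_nat (hψper (b - j) (by omega)) n (s - n)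
        rw [e4, e5, ← mul_sub, e1 j hj]
        ring
      refine Asymptotics.IsBigO.congr' ?_ (EventuallyEq.symm hev) EventuallyEq.rfl
      simpa using (Asymptotics.isBigO_refl (fun s : ℂ ↦ (s - n) ^ T0) (𝓝 n)).mul
        (hGc.tendsto.isBigO_one ℂ)
    have hsch := schwarz (r := S) (r1 := 1) hS0 (by linarith) (by linarith) hga hgb _ T0 hZ hs
    rw [Finset.card_image_of_injective _ Nat.cast_injective, Finset.card_range] at hsch
    have e1 : (1 + (S : ℝ)) / (3 * S + 2 - S) = 1 / 2 := by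
      rw [div_eq_div_iff (by linarith) (by norm_num)]
      ring
    rw [e1, one_div, inv_pow] at hsch
    have e2 := hsum b hb s (by linarith)
    have e3 : θ' b s = g s + ∑ j ∈ Finset.range (b + 1), θ j s * ψ (b - j) s := by
      simp [hg]
    have e4 : ((2 : ℝ) ^ (S * T0))⁻¹ ≤ 1 := inv_le_one_of_one_le₀ (one_le_pow₀ (by norm_num))
    have e5 : (0 : ℝ) ≤ (b + 1) * (M / r ^ b * K) := by positivity
    rw [e3]
    refine (norm_add_le _ _).trans ?_
    calc _ ≤ (BF * M / r ^ b + (b + 1) * (M / r ^ b * K)) * (2 ^ (S * T0))⁻¹ +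
          (b + 1) * (M / r ^ b * K) := add_le_add hsch e2
      _ = BF * M / r ^ b * (2 ^ (S * T0))⁻¹ + (b + 1) * (M / r ^ b * K) * (2 ^ (S * T0))⁻¹ +
          (b + 1) * (M / r ^ b * K) := by ring
      _ ≤ BF * M / r ^ b * (2 ^ (S * T0))⁻¹ + (b + 1) * (M / r ^ b * K) * 1 +
          (b + 1) * (M / r ^ b * K) := by gcongr
      _ = _ := by ring
  set Q : ℝ := BF / 2 ^ (S * T0) + 2 * (b + 1) * K with hQ
  have hQ0 : 0 ≤ Q := by positivity
  have hφb : ∀ s, ‖s‖ ≤ r0 → ‖φ b s‖ ≤ (b + 1) * (M ^ 2 / r ^ b * Q) := by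
    intro s hs
    have hs' : ‖s‖ ≤ 3 * S + 2 := by linarith
    have hne : ∀ y, ‖y‖ ≤ r → Θ (s, y) ≠ 0 := by
      intro y hy h
      have := (h2 s y hs hy).1
      rw [h, norm_zero] at this
      exact absurd this (not_le.2 (inv_pos.2 hM))
    have hia : ∀ y, ‖y‖ ≤ r → AnalyticAt ℂ (fun y ↦ (Θ (s, y))⁻¹) y := fun y hy ↦
      (analytic_slice (h1 s y hs' hy).1).inv (hne y hy)
    have hib : ∀ y, ‖y‖ ≤ r → ‖(Θ (s, y))⁻¹‖ ≤ M := by
      intro y hy
      rw [norm_inv]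
      exact inv_le_of_inv_le₀ hM (h2 s y hs hy).1
    have e1 : φ b s = tc (fun y ↦ (Θ (s, y))⁻¹ * (Θ (s, y) * Φ (s, y))) b := by
      refine tc_congr ?_ b
      filter_upwards [closedBall_mem_nhds (0 : ℂ) hr] with y hy
      rw [← mul_assoc, inv_mul_cancel₀ (hne y (by simpa using hy)), one_mul]
    rw [e1, tc_mul (hia 0 h0r) (analytic_slice (H := fun q ↦ Θ q * Φ q) (h1 s 0 hs' h0r).2.1)]
    refine (norm_sum_le _ _).trans ?_
    have : ∀ j ∈ Finset.range (b + 1), ‖tc (fun y ↦ (Θ (s, y))⁻¹) j *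
        tc (fun y ↦ Θ (s, y) * Φ (s, y)) (b - j)‖ ≤ M ^ 2 / r ^ b * Q := by
      intro j hj
      have hj' : j ≤ b := Nat.lt_succ_iff.1 (Finset.mem_range.1 hj)
      rw [norm_mul]
      have e2 := tc_bound hr hia hib j
      have e3 := hkey (b - j) (by omega) s (hs.trans hr01)
      have e4 : BF / 2 ^ (S * T0) + 2 * (((b - j : ℕ) : ℝ) + 1) * K ≤ Q := by
        have : ((b - j : ℕ) : ℝ) ≤ b := by exact_mod_cast Nat.sub_le b j
        rw [hQ]
        gcongr
      have e5 : r ^ b = r ^ j * r ^ (b - j) := by rw [← pow_add, Nat.add_sub_cancel' hj']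
      calc _ ≤ M / r ^ j * (M / r ^ (b - j) * Q) :=
            mul_le_mul e2 (e3.trans (by gcongr)) (norm_nonneg _) (by positivity)
        _ = _ := by rw [e5]; field_simp
    refine (Finset.sum_le_card_nsmul _ _ _ this).trans ?_
    simp
  rw [hφe, norm_mul, Complex.norm_natCast]
  have hc := cauchy hr0 (hφa b) hφb k
  calc _ ≤ b.factorial * (k.factorial * ((b + 1) * (M ^ 2 / r ^ b * Q)) / r0 ^ k) := by gcongr
    _ = _ := by field_simp

end Pool.Agent.Lib.ZP3.BAN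

namespace Pool.Agent.Lib.ZP3.BAN

lemma mult {W : WD} {p u : ℂ} {A S : ℕ} (hA : 1 ≤ A) (hS : 1 ≤ S) (h : W.Size p u A) :
    ∃ (ρ : ℝ) (b : ℂ → ℂ), Real.exp (-A) ≤ ρ ∧ ‖u‖ ≤ A * ρ ∧ u ∈ W.Λ ∧
      (∀ z, ‖z - p‖ ≤ 6 * (S * A) * ρ → AnalyticAt ℂ b z ∧
        AnalyticAt ℂ (fun z ↦ b z * W.X z) z ∧ ‖b z‖ ≤ Real.exp (40000 * (S * A) ^ 3) ∧
        ‖b z * W.X z‖ ≤ Real.exp (40000 * (S * A) ^ 3)) ∧
      ∀ z, ‖z - p‖ ≤ ρ / 4 → z ∉ W.Λ ∧ (Real.exp (40000 * (S * A) ^ 3))⁻¹ ≤ ‖b z‖ := by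
  classical
  obtain ⟨ρ, hρ1, -, hsep, hp, hu, -, hu2, hX⟩ := h
  have hρ : 0 < ρ := (Real.exp_pos _).trans_le hρ1
  have hA' : (1 : ℝ) ≤ A := by exact_mod_cast hA
  have hS' : (1 : ℝ) ≤ S := by exact_mod_cast hS
  set x : ℝ := S * A with hx
  have hx1 : 1 ≤ x := by nlinarith
  have hxA : (A : ℝ) ≤ x := by nlinarith
  set 𝓛 : Finset ℂ := (W.finite_inter p (7 * x * ρ)).toFinset with h𝓛
  have hmem : ∀ l, l ∈ 𝓛 ↔ l ∈ W.Λ ∧ ‖l - p‖ ≤ 7 * x * ρ := by
    intro l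
    simp [h𝓛]
  have hcard : (𝓛.card : ℝ) ≤ 900 * x ^ 2 := by
    have h1 := grid 𝓛 p (R := 7 * x * ρ) (r := ρ) (Q := 1) (by positivity) hρ
      (fun s hs ↦ ((hmem s).1 hs).2) (by
        intro S' hS' hd
        have : S'.card ≤ 1 := by
          refine Finset.card_le_one.2 fun a ha c hc ↦ ?_
          by_contra hne
          have := hsep (a - c) (W.Λ.sub_mem ((hmem a).1 (hS' ha)).1 ((hmem c).1 (hS' hc)).1)
            (sub_ne_zero.2 hne)
          exact absurd (hd a ha c hc) (not_lt.2 this)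
        exact_mod_cast this)
    have h2 : 4 * (7 * x * ρ) / ρ + 2 = 28 * x + 2 := by
      field_simp
      ring
    rw [h2] at h1
    nlinarith
  have hN1 : (64 : ℝ) ≤ (13 * x) ^ 3 := by
    have : (13 : ℝ) ^ 3 ≤ (13 * x) ^ 3 := by gcongr; linarith
    linarith
  have hP : ((13 * x) ^ 3) ^ 𝓛.card ≤ Real.exp (35100 * x ^ 3) := by
    have e1 : 13 * x ≤ Real.exp (13 * x) := by
      have := Real.add_one_le_exp (13 * x)
      linarith
    calc ((13 * x) ^ 3) ^ 𝓛.card ≤ (Real.exp (13 * x) ^ 3) ^ 𝓛.card := by gcongr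
      _ = Real.exp (39 * x * 𝓛.card) := by
          rw [← pow_mul, ← Real.exp_nat_mul]
          congr 1
          push_cast
          ring
      _ ≤ _ := by
          refine Real.exp_le_exp.2 ?_
          nlinarith
  have hprod : ∀ z, ‖z - p‖ ≤ 6 * x * ρ → ∀ T ⊆ 𝓛,
      ‖∏ l ∈ T, ((z - l) / ρ) ^ 3‖ ≤ Real.exp (35100 * x ^ 3) := by
    intro z hz T hT
    rw [norm_prod]
    refine le_trans ?_ hP
    calc ∏ l ∈ T, ‖((z - l) / ρ) ^ 3‖ ≤ ∏ _l ∈ T, (13 * x) ^ 3 := by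
          refine Finset.prod_le_prod (fun _ _ ↦ norm_nonneg _) fun l hl ↦ ?_
          rw [norm_pow, norm_div, Complex.norm_real, Real.norm_of_nonneg hρ.le]
          gcongr
          rw [div_le_iff₀ hρ]
          have e1 := ((hmem l).1 (hT hl)).2
          calc ‖z - l‖ = ‖(z - p) - (l - p)‖ := by congr 1; ring
            _ ≤ ‖z - p‖ + ‖l - p‖ := norm_sub_le _ _
            _ ≤ _ := by linarith
      _ = ((13 * x) ^ 3) ^ T.card := by simp
      _ ≤ _ := pow_le_pow_right₀ (by linarith) (Finset.card_le_card hT)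
  have hnear : ∀ l0 ∈ W.Λ, ∀ z, ‖z - l0‖ ≤ ρ / 2 → ‖W.X z‖ * ‖z - l0‖ ^ 2 ≤ Real.exp A := by
    intro l0 hl0 z hz
    rcases eq_or_ne z l0 with rfl | hne
    · simpa using (Real.exp_pos _).le
    refine hX z _ (norm_pos_iff.2 (sub_ne_zero.2 hne)) (by linarith) fun l hl ↦ ?_
    rcases eq_or_ne l l0 with rfl | hne'
    · exact le_rfl
    have e1 := hsep (l - l0) (W.Λ.sub_mem hl hl0) (sub_ne_zero.2 hne')
    have e2 : ‖l - l0‖ ≤ ‖z - l0‖ + ‖z - l‖ := by
      calc ‖l - l0‖ = ‖(z - l0) - (z - l)‖ := by congr 1; ring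
        _ ≤ _ := norm_sub_le _ _
    linarith
  have hnear2 : ∀ l0 ∈ 𝓛, ∀ z, ‖z - l0‖ ≤ ρ / 2 →
      ‖(∏ l ∈ 𝓛, ((z - l) / ρ) ^ 3) * W.X z‖ ≤
        ‖∏ l ∈ 𝓛.erase l0, ((z - l) / ρ) ^ 3‖ * (‖z - l0‖ * (Real.exp A / ρ ^ 3)) := by
    intro l0 hl0 z hz
    rw [← Finset.prod_erase_mul _ _ hl0, mul_assoc, norm_mul]
    gcongr
    have e1 := hnear l0 ((hmem l0).1 hl0).1 z hz
    rw [norm_mul, norm_pow, norm_div, Complex.norm_real, Real.norm_of_nonneg hρ.le]
    calc _ = ‖z - l0‖ * (‖W.X z‖ * ‖z - l0‖ ^ 2 / ρ ^ 3) := by ring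
      _ ≤ _ := by gcongr
  have hba : ∀ (T : Finset ℂ) (z : ℂ), AnalyticAt ℂ (fun z ↦ ∏ l ∈ T, ((z - l) / ρ) ^ 3) z :=
    fun T z ↦ Finset.analyticAt_fun_prod _ fun l _ ↦ by fun_prop
  have hρi : ρ⁻¹ ≤ Real.exp A := by
    rw [Real.exp_neg] at hρ1
    exact inv_le_of_inv_le₀ (Real.exp_pos _) hρ1
  have h4e : Real.exp A / (ρ / 2) ^ 2 ≤ Real.exp (5 * x ^ 3) := by
    have e1 : (4 : ℝ) ≤ Real.exp 2 := by
      have := Real.add_one_le_exp (1 : ℝ)
      rw [show (2 : ℝ) = 1 + 1 by norm_num, Real.exp_add]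
      nlinarith
    have e2 : x ≤ x ^ 3 := le_self_pow₀ hx1 (by norm_num)
    calc Real.exp A / (ρ / 2) ^ 2 = 4 * Real.exp A * ρ⁻¹ * ρ⁻¹ := by field_simp; norm_num
      _ ≤ Real.exp 2 * Real.exp A * Real.exp A * Real.exp A := by gcongr
      _ = Real.exp (2 + 3 * A) := by
          rw [← Real.exp_add, ← Real.exp_add, ← Real.exp_add]; congr 1; ring
      _ ≤ _ := Real.exp_le_exp.2 (by linarith)
  have hx3 : 0 ≤ x ^ 3 := by positivity
  have hfin : Real.exp (35100 * x ^ 3) * Real.exp (5 * x ^ 3) ≤ Real.exp (40000 * x ^ 3) := by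
    rw [← Real.exp_add]
    exact Real.exp_le_exp.2 (by linarith)
  refine ⟨ρ, fun z ↦ ∏ l ∈ 𝓛, ((z - l) / ρ) ^ 3, hρ1, hu2, hu, fun z hz ↦ ⟨hba _ z, ?_, ?_, ?_⟩,
    fun z hz ↦ ?_⟩
  · by_cases hzΛ : z ∈ W.Λ
    · have hz𝓛 : z ∈ 𝓛 := (hmem z).2 ⟨hzΛ, by nlinarith⟩
      have hball : ∀ᶠ z' in 𝓝 z, ‖z' - z‖ ≤ ρ / 2 := by
        filter_upwards [closedBall_mem_nhds z (half_pos hρ)] with z' hz'
        simpa [dist_eq_norm] using hz'
      refine Complex.analyticAt_of_differentiable_on_punctured_nhds_of_continuousAt ?_ ?_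
      · filter_upwards [nhdsWithin_le_nhds hball, self_mem_nhdsWithin] with z' h1 h2
        have h3 : z' ∉ W.Λ := by
          intro h3
          have := hsep (z' - z) (W.Λ.sub_mem h3 hzΛ) (sub_ne_zero.2 h2)
          have h1' : ‖z' - z‖ ≤ ρ / 2 := h1
          linarith
        exact ((hba _ z').mul (W.analytic_X h3)).differentiableAt
      · have h0 : (∏ l ∈ 𝓛, ((z - l) / ρ) ^ 3) * W.X z = 0 := by
          rw [Finset.prod_eq_zero hz𝓛 (by simp), zero_mul]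
        unfold ContinuousAt
        simp only [h0]
        refine squeeze_zero_norm' (hball.mono fun z' hz' ↦ hnear2 z hz𝓛 z' hz') ?_
        have h1 : ContinuousAt (fun z' : ℂ ↦ ‖∏ l ∈ 𝓛.erase z, ((z' - l) / ρ) ^ 3‖ *
            (‖z' - z‖ * (Real.exp A / ρ ^ 3))) z :=
          (hba _ z).continuousAt.norm.mul (by fun_prop)
        simpa [ContinuousAt] using h1
    · exact (hba _ z).mul (W.analytic_X hzΛ)
  · exact (hprod z hz _ subset_rfl).trans (Real.exp_le_exp.2 (by linarith))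
  · refine le_trans ?_ hfin
    by_cases hc : ∃ l0 ∈ W.Λ, ‖z - l0‖ ≤ ρ / 2
    · obtain ⟨l0, hl0, hc⟩ := hc
      have hl : l0 ∈ 𝓛 := by
        refine (hmem l0).2 ⟨hl0, ?_⟩
        calc ‖l0 - p‖ = ‖(z - p) - (z - l0)‖ := by congr 1; ring
          _ ≤ ‖z - p‖ + ‖z - l0‖ := norm_sub_le _ _
          _ ≤ _ := by nlinarith
      refine (hnear2 l0 hl z hc).trans (mul_le_mul (hprod z hz _ (Finset.erase_subset _ _))
        (le_trans ?_ h4e) (by positivity) (by positivity))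
      calc ‖z - l0‖ * (Real.exp A / ρ ^ 3) ≤ (4 * ρ) * (Real.exp A / ρ ^ 3) := by
            gcongr; linarith
        _ = _ := by field_simp; norm_num
    · push Not at hc
      have e1 := hX z (ρ / 2) (half_pos hρ) (by linarith) fun l hl ↦ (hc l hl).le
      rw [norm_mul]
      refine mul_le_mul (hprod z hz _ subset_rfl) (le_trans ?_ h4e) (norm_nonneg _)
        (by positivity)
      rw [le_div_iff₀ (by positivity)]
      exact e1
  · have hfar : ∀ l ∈ W.Λ, ρ / 4 ≤ ‖z - l‖ := by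
      intro l hl
      have e1 := hp l hl
      have e2 : ‖p - l‖ ≤ ‖z - l‖ + ‖z - p‖ := by
        calc ‖p - l‖ = ‖(z - l) - (z - p)‖ := by congr 1; ring
          _ ≤ _ := norm_sub_le _ _
      linarith
    refine ⟨fun hzΛ ↦ ?_, ?_⟩
    · have := hfar z hzΛ
      simp only [sub_self, norm_zero] at this
      linarith
    · rw [norm_prod]
      calc (Real.exp (40000 * x ^ 3))⁻¹ ≤ (((13 * x) ^ 3) ^ 𝓛.card)⁻¹ := by
            refine inv_anti₀ (by positivity) (hP.trans (Real.exp_le_exp.2 (by linarith)))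
        _ = ∏ _l ∈ 𝓛, ((13 * x) ^ 3)⁻¹ := by simp
        _ ≤ _ := by
            refine Finset.prod_le_prod (fun _ _ ↦ by positivity) fun l hl ↦ ?_
            rw [norm_pow, norm_div, Complex.norm_real, Real.norm_of_nonneg hρ.le]
            have e1 : 1 / 4 ≤ ‖z - l‖ / ρ := by
              rw [le_div_iff₀ hρ]
              have := hfar l ((hmem l).1 hl).1
              linarith
            calc ((13 * x) ^ 3)⁻¹ ≤ (64 : ℝ)⁻¹ := inv_anti₀ (by norm_num) hN1
              _ = (1 / 4) ^ 3 := by norm_num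
              _ ≤ _ := by gcongr

lemma iter_ev {W : Fin 3 → WD} {z v : Fin 3 → ℂ} (k : ℕ) : ∀ (f : R) (s : ℂ),
    Reg W (z + s • v) → iteratedDeriv k (fun s : ℂ ↦ ev W (z + s • v) f) s =
      ev W (z + s • v) ((der W v)^[k] f) := by
  induction k with
  | zero => intro f s _; simp
  | succ k ih =>
    intro f s hs
    rw [iteratedDeriv_succ', Function.iterate_succ_apply, ← ih _ s hs]
    refine Filter.EventuallyEq.iteratedDeriv_eq k ?_
    have hc : Continuous fun s : ℂ ↦ z + s • v := by fun_prop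
    filter_upwards [((isOpen_reg W).preimage hc).mem_nhds hs] with t ht
    exact (hasDerivAt_ev ht f).deriv

lemma iter_ev2 {W : Fin 3 → WD} {p : Fin 3 → ℂ} (hp : Reg W p) (u w : Fin 3 → ℂ) (f : R)
    (k b : ℕ) :
    iteratedDeriv k (fun s : ℂ ↦ iteratedDeriv b (fun y : ℂ ↦ ev W (p + s • u + y • w) f) 0) 0 =
      ev W p ((der W u)^[k] ((der W w)^[b] f)) := by
  have h0 : Reg W (p + (0 : ℂ) • u) := by simpa using hp
  have h1 := iter_ev k ((der W w)^[b] f) 0 h0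
  simp only [zero_smul, add_zero] at h1
  rw [← h1]
  refine Filter.EventuallyEq.iteratedDeriv_eq k ?_
  have hc : Continuous fun s : ℂ ↦ p + s • u := by fun_prop
  filter_upwards [((isOpen_reg W).preimage hc).mem_nhds h0] with t ht
  have h2 : Reg W (p + t • u + (0 : ℂ) • w) := by simpa using ht
  simpa using iter_ev b f 0 h2

end Pool.Agent.Lib.ZP3.BAN

namespace Pool.Agent.Lib.ZP3

open BAN

theorem extrapolate : ∃ c : ℕ, ∀ (A L T0 T1 S : ℕ) (W : Fin 3 → WD) (p u w : Fin 3 → ℂ)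
    (F : MvPolynomial (Fin 3) ℂ) (BF η : ℝ), 1 ≤ A → 1 ≤ S →
    (∀ i, (W i).Size (p i) (u i) A) → (∀ i, ‖w i‖ ≤ Real.exp A) → (∀ i, F.degreeOf i ≤ L) →
    (∑ m ∈ F.support, ‖F.coeff m‖ ≤ BF) → 0 ≤ η →
    (∀ k b : ℕ, k < T0 → b < T1 →
      ‖ev W p ((der W u)^[k] ((der W w)^[b] (MvPolynomial.rename Sum.inl F)))‖ ≤ η) →
    ∀ k b : ℕ, b < T1 →
      ‖ev W p ((der W u)^[k] ((der W w)^[b] (MvPolynomial.rename Sum.inl F)))‖ ≤
        k.factorial * b.factorial * Real.exp (c * (A * (k + b + 1) + L * A ^ 3 * S ^ 3)) *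
          (BF / 2 ^ (S * T0) + η * Real.exp (c * A * (T0 + T1 + S + 1) ^ 3)) := by
  refine ⟨240000, fun A L T0 T1 S W p u w F BF η hA hS hsz hw hdeg hBF hη hsm k b hb ↦ ?_⟩
  choose ρ bb hρ1 hu huΛ hbig hsmall using fun i ↦ mult hA hS (hsz i)
  have hA' : (1 : ℝ) ≤ A := by exact_mod_cast hA
  have hS' : (1 : ℝ) ≤ S := by exact_mod_cast hS
  have hρ : ∀ i, 0 < ρ i := fun i ↦ (Real.exp_pos _).trans_le (hρ1 i)
  have hBF0 : 0 ≤ BF := (Finset.sum_nonneg fun _ _ ↦ norm_nonneg _).trans hBF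
  set M : ℝ := Real.exp (40000 * (S * A) ^ 3) with hM
  have hM1 : 1 ≤ M := Real.one_le_exp (by positivity)
  set r : ℝ := Real.exp (-(2 * A)) / 16 with hr
  have hr0 : 0 < r := by positivity
  have hr1 : r ≤ 1 := by
    have : Real.exp (-(2 * (A : ℝ))) ≤ 1 := Real.exp_le_one_iff.2 (by linarith)
    rw [hr]
    linarith
  set f : R := MvPolynomial.rename Sum.inl F with hf
  set z : ℂ × ℂ → Fin 3 → ℂ := fun q ↦ p + q.1 • u + q.2 • w with hz
  have hzi : ∀ q i, z q i = p i + q.1 * u i + q.2 * w i := fun q i ↦ by simp [hz]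
  have hza : ∀ q, AnalyticAt ℂ z q := fun q ↦ by
    rw [hz]
    exact (analyticAt_const.add (analyticAt_fst.smul analyticAt_const)).add
      (analyticAt_snd.smul analyticAt_const)
  have hzia : ∀ q i, AnalyticAt ℂ (fun q ↦ z q i) q := fun q i ↦ by
    simp only [hzi]
    exact (analyticAt_const.add (analyticAt_fst.mul analyticAt_const)).add
      (analyticAt_snd.mul analyticAt_const)
  have hzn : ∀ (s y : ℂ) (i : Fin 3) (t : ℝ), ‖s‖ ≤ t → ‖y‖ ≤ r →
      ‖z (s, y) i - p i‖ ≤ t * (A * ρ i) + ρ i / 16 := by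
    intro s y i t hs hy
    have e1 : z (s, y) i - p i = s * u i + y * w i := by rw [hzi]; ring
    rw [e1]
    refine (norm_add_le _ _).trans (add_le_add ?_ ?_)
    · rw [norm_mul]
      exact mul_le_mul hs (hu i) (norm_nonneg _) ((norm_nonneg _).trans hs)
    · rw [norm_mul]
      calc ‖y‖ * ‖w i‖ ≤ r * Real.exp A := mul_le_mul hy (hw i) (norm_nonneg _) hr0.le
        _ = Real.exp (-(A : ℝ)) / 16 := by
          rw [hr, div_mul_eq_mul_div, ← Real.exp_add]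
          congr 2
          ring
        _ ≤ _ := by have := hρ1 i; linarith
  set Θ : ℂ × ℂ → ℂ := fun q ↦ ∏ i, bb i (z q i) ^ L with hΘ
  set Φ : ℂ × ℂ → ℂ := fun q ↦ ev W (z q) f with hΦ
  have hΘΦ : ∀ q, Θ q * Φ q = ∑ m ∈ F.support, F.coeff m *
      ∏ i, (bb i (z q i) * (W i).X (z q i)) ^ m i * bb i (z q i) ^ (L - m i) := by
    intro q
    simp only [hΘ, hΦ, hf, ev, MvPolynomial.eval_rename]
    rw [MvPolynomial.eval_eq', Finset.mul_sum]
    refine Finset.sum_congr rfl fun m hm ↦ ?_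
    rw [mul_left_comm, ← Finset.prod_mul_distrib]
    congr 1
    refine Finset.prod_congr rfl fun i _ ↦ ?_
    have e1 : m i ≤ L := (MvPolynomial.monomial_le_degreeOf i hm).trans (hdeg i)
    have e2 : bb i (z q i) ^ L = bb i (z q i) ^ m i * bb i (z q i) ^ (L - m i) := by
      rw [← pow_add, Nat.add_sub_cancel' e1]
    simp only [Function.comp_apply, pt, Sum.elim_inl]
    rw [e2]
    ring
  have hreg : ∀ s y : ℂ, ‖s‖ ≤ 1 / (8 * A) → ‖y‖ ≤ r → ∀ i, ‖z (s, y) i - p i‖ ≤ ρ i / 4 := by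
    intro s y hs hy i
    refine (hzn s y i _ hs hy).trans ?_
    have e1 : 1 / (8 * (A : ℝ)) * (A * ρ i) = ρ i / 8 := by field_simp
    have := hρ i
    rw [e1]
    linarith
  have hp : Reg W p := fun i ↦ (hsmall i (p i) (by simpa using by have := hρ i; linarith)).1
  have hcore := core (Θ := Θ) (Φ := Φ) (r := r) (r0 := 1 / (8 * A)) (M := M ^ (3 * L)) (BF := BF)
    (η := η) (S := S) (T0 := T0) (T1 := T1) hr0 hr1 (by positivity)
    (by rw [div_le_one (by positivity)]; linarith) (by positivity) hBF0 hη ?_ ?_ ?_ ?_ k b hb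
  rotate_left
  · intro s y hs hy
    have hin : ∀ i, ‖z (s, y) i - p i‖ ≤ 6 * (S * A) * ρ i := by
      intro i
      refine (hzn s y i _ hs hy).trans ?_
      have e0 := hρ i
      have e1 : ρ i ≤ A * ρ i := by nlinarith
      have e2 : A * ρ i ≤ S * (A * ρ i) := by nlinarith
      nlinarith
    have ha1 : ∀ i, AnalyticAt ℂ (fun q ↦ bb i (z q i)) (s, y) := fun i ↦
      AnalyticAt.comp (g := bb i) (f := fun q ↦ z q i) (x := (s, y)) (hbig i _ (hin i)).1
        (hzia _ i)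
    have ha2 : ∀ i, AnalyticAt ℂ (fun q ↦ bb i (z q i) * (W i).X (z q i)) (s, y) := fun i ↦
      AnalyticAt.comp (g := fun z ↦ bb i z * (W i).X z) (f := fun q ↦ z q i) (x := (s, y))
        (hbig i _ (hin i)).2.1 (hzia _ i)
    have hM3 : M ^ (3 * L) = ∏ _i : Fin 3, M ^ L := by
      simp only [Finset.prod_const, Finset.card_univ, Fintype.card_fin]
      rw [← pow_mul, mul_comm]
    refine ⟨Finset.analyticAt_fun_prod _ fun i _ ↦ (ha1 i).pow L, ?_, ?_, ?_⟩
    · simp only [hΘΦ]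
      refine Finset.analyticAt_fun_sum _ fun m _ ↦ analyticAt_const.mul ?_
      exact Finset.analyticAt_fun_prod _ fun i _ ↦ ((ha2 i).pow _).mul ((ha1 i).pow _)
    · simp only [hΘ]
      rw [norm_prod, hM3]
      refine Finset.prod_le_prod (fun _ _ ↦ norm_nonneg _) fun i _ ↦ ?_
      rw [norm_pow]
      exact pow_le_pow_left₀ (norm_nonneg _) (hbig i _ (hin i)).2.2.1 L
    · rw [hΘΦ]
      refine (norm_sum_le _ _).trans ?_
      calc _ ≤ ∑ m ∈ F.support, ‖F.coeff m‖ * M ^ (3 * L) := by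
            refine Finset.sum_le_sum fun m hm ↦ ?_
            rw [norm_mul]
            refine mul_le_mul_of_nonneg_left ?_ (norm_nonneg _)
            rw [norm_prod, hM3]
            refine Finset.prod_le_prod (fun _ _ ↦ norm_nonneg _) fun i _ ↦ ?_
            have e1 : m i ≤ L := (MvPolynomial.monomial_le_degreeOf i hm).trans (hdeg i)
            have e2 : M ^ L = M ^ m i * M ^ (L - m i) := by
              rw [← pow_add, Nat.add_sub_cancel' e1]
            rw [norm_mul, norm_pow, norm_pow, e2]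
            exact mul_le_mul (pow_le_pow_left₀ (norm_nonneg _) (hbig i _ (hin i)).2.2.2 _)
              (pow_le_pow_left₀ (norm_nonneg _) (hbig i _ (hin i)).2.2.1 _) (by positivity)
              (by positivity)
        _ ≤ _ := by
            rw [← Finset.sum_mul]
            gcongr
  · intro s y hs hy
    have hin := hreg s y hs hy
    refine ⟨?_, ?_⟩
    · simp only [hΘ]
      have hM3 : (M ^ (3 * L))⁻¹ = ∏ _i : Fin 3, M⁻¹ ^ L := by
        simp only [Finset.prod_const, Finset.card_univ, Fintype.card_fin]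
        rw [← pow_mul, mul_comm, inv_pow]
      rw [norm_prod, hM3]
      refine Finset.prod_le_prod (fun _ _ ↦ by positivity) fun i _ ↦ ?_
      rw [norm_pow]
      exact pow_le_pow_left₀ (by positivity) (hsmall i _ (hin i)).2 L
    · exact AnalyticAt.comp (g := fun z ↦ ev W z f) (f := z) (x := (s, y))
        (analyticAt_ev (fun i ↦ (hsmall i _ (hin i)).1) f) (hza _)
  · intro s y
    simp only [hΦ, hz]
    rw [← ev_add_period (p + s • u + y • w) huΛ f]
    congr 2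
    rw [add_smul, one_smul]
    abel
  · intro k hk b hb
    simp only [hΦ, hz]
    rw [iter_ev2 hp]
    exact hsm k b hk hb
  simp only [hΦ, hz] at hcore
  rw [iter_ev2 hp] at hcore
  refine hcore.trans ?_
  have hk0 : (0 : ℝ) ≤ k := Nat.cast_nonneg k
  have hb0 : (0 : ℝ) ≤ b := Nat.cast_nonneg b
  have hL0 : (0 : ℝ) ≤ L := Nat.cast_nonneg L
  have hT0 : (0 : ℝ) ≤ T0 := Nat.cast_nonneg T0
  have hT1 : (b : ℝ) + 1 ≤ T1 := by exact_mod_cast hb
  have e1 : ((b : ℝ) + 1) * (M ^ (3 * L)) ^ 2 / ((1 / (8 * A)) ^ k * r ^ b) ≤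
      Real.exp (((240000 : ℕ) : ℝ) * (A * (k + b + 1) + L * A ^ 3 * S ^ 3)) := by
    have a1 : (b : ℝ) + 1 ≤ Real.exp b := Real.add_one_le_exp _
    have a2 : (M ^ (3 * L)) ^ 2 = Real.exp (240000 * (L * A ^ 3 * S ^ 3)) := by
      rw [hM, ← pow_mul, ← Real.exp_nat_mul]
      congr 1
      push_cast
      ring
    have a3 : Real.exp (-(8 * A)) ≤ 1 / (8 * (A : ℝ)) := by
      rw [Real.exp_neg, one_div]
      refine inv_anti₀ (by positivity) ?_
      have := Real.add_one_le_exp (8 * (A : ℝ))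
      linarith
    have a4 : Real.exp (-(18 * A)) ≤ r := by
      rw [hr, le_div_iff₀ (by norm_num)]
      have b1 : 16 ≤ Real.exp (16 * (A : ℝ)) := by
        have := Real.add_one_le_exp (16 * (A : ℝ))
        linarith
      calc Real.exp (-(18 * A)) * 16 ≤ Real.exp (-(18 * A)) * Real.exp (16 * A) := by gcongr
        _ = _ := by rw [← Real.exp_add]; congr 1; ring
    rw [a2]
    calc _ ≤ Real.exp b * Real.exp (240000 * (L * A ^ 3 * S ^ 3)) /
          (Real.exp (-(8 * A)) ^ k * Real.exp (-(18 * A)) ^ b) := by gcongr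
      _ = Real.exp (b + 240000 * (L * A ^ 3 * S ^ 3) + 8 * A * k + 18 * A * b) := by
          rw [← Real.exp_nat_mul, ← Real.exp_nat_mul, ← Real.exp_add, ← Real.exp_add,
            ← Real.exp_sub]
          congr 1
          ring
      _ ≤ _ := by
          refine Real.exp_le_exp.2 ?_
          push_cast
          nlinarith [mul_nonneg (by linarith : (0 : ℝ) ≤ A) hk0,
            mul_nonneg (by linarith : (0 : ℝ) ≤ A - 1) hb0]
  have e2 : 2 * ((b : ℝ) + 1) *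
      (η * Real.exp (4 * T0 ^ 2) * Real.exp (7 * T0 * (3 * S + 2))) ≤
      η * Real.exp (((240000 : ℕ) : ℝ) * A * (T0 + T1 + S + 1) ^ 3) := by
    set N : ℝ := T0 + T1 + S + 1 with hN
    have hN1 : 1 ≤ N := by linarith
    have a1 : 2 * ((b : ℝ) + 1) ≤ Real.exp (2 * N) := by
      have := Real.add_one_le_exp (2 * N)
      linarith
    have a2 : N ≤ N ^ 2 := by nlinarith
    have a3 : N ^ 2 ≤ N ^ 3 := pow_le_pow_right₀ hN1 (by norm_num)
    have a4 : N ^ 3 ≤ A * N ^ 3 := le_mul_of_one_le_left (by positivity) hA'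
    have a5 : (T0 : ℝ) ^ 2 ≤ N ^ 2 := pow_le_pow_left₀ hT0 (by linarith) 2
    have a6 : T0 * (3 * (S : ℝ) + 2) ≤ N * (3 * N) :=
      mul_le_mul (by linarith) (by linarith) (by positivity) (by positivity)
    calc _ ≤ Real.exp (2 * N) * (η * Real.exp (4 * T0 ^ 2) * Real.exp (7 * T0 * (3 * S + 2))) := by
          gcongr
      _ = η * Real.exp (2 * N + 4 * T0 ^ 2 + 7 * T0 * (3 * S + 2)) := by
          rw [Real.exp_add, Real.exp_add]
          ring
      _ ≤ _ := by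
          refine mul_le_mul_of_nonneg_left (Real.exp_le_exp.2 ?_) hη
          push_cast
          nlinarith
  gcongr

end Pool.Agent.Lib.ZP3
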