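import Pool.Agent.Lib.ZP3.Tiny
import Pool.Agent.Lib.ZP3.Defs2

/-! Block TINY2: special points in a very small disc, general conditions. -/

open Filter Topology Metric
open scoped Real

namespace Pool.Agent.Lib.ZP3

namespace Tiny2

/-- the source as a polynomial -/
noncomputable def sp {κ : Type} (s : κ ⊕ ℂ) : MvPolynomial κ ℂ :=
  Sum.elim MvPolynomial.X MvPolynomial.C s

lemma eval_sp {κ : Type} (T : κ → ℂ) (s : κ ⊕ ℂ) : MvPolynomial.eval T (sp s) = sv T s := by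
  cases s <;> simp [sp, sv]

lemma sp_deg {κ : Type} (s : κ ⊕ ℂ) : (sp s).totalDegree ≤ 1 := by
  cases s with
  | inl i => exact (MvPolynomial.totalDegree_X i).le
  | inr c => exact (MvPolynomial.totalDegree_C c).le.trans zero_le_one

/-- the relation attached to a matrix -/
noncomputable def rel {κ : Type} (s : κ ⊕ ℂ) (j : κ) (g : ℤ × ℤ × ℤ × ℤ) : MvPolynomial κ ℂ :=
  MvPolynomial.X j * (MvPolynomial.C (g.2.2.1 : ℂ) * sp s + MvPolynomial.C (g.2.2.2 : ℂ)) -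
    (MvPolynomial.C (g.1 : ℂ) * sp s + MvPolynomial.C (g.2.1 : ℂ))

lemma eval_rel {κ : Type} (T : κ → ℂ) (s : κ ⊕ ℂ) (j : κ) (g : ℤ × ℤ × ℤ × ℤ) :
    MvPolynomial.eval T (rel s j g) =
      T j * (g.2.2.1 * sv T s + g.2.2.2) - (g.1 * sv T s + g.2.1) := by
  simp [rel, eval_sp]

lemma rel_deg {κ : Type} (s : κ ⊕ ℂ) (j : κ) (g : ℤ × ℤ × ℤ × ℤ) :
    (rel s j g).totalDegree ≤ 2 := by
  have h : ∀ x y : ℂ, (MvPolynomial.C x * sp s + MvPolynomial.C y :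
      MvPolynomial κ ℂ).totalDegree ≤ 1 := fun x y =>
    (MvPolynomial.totalDegree_add _ _).trans (max_le
      ((MvPolynomial.totalDegree_mul _ _).trans
        (by rw [MvPolynomial.totalDegree_C, zero_add]; exact sp_deg s))
      (by rw [MvPolynomial.totalDegree_C]; exact zero_le_one))
  refine (MvPolynomial.totalDegree_sub _ _).trans (max_le
    ((MvPolynomial.totalDegree_mul _ _).trans ?_) ((h _ _).trans one_le_two))
  have := h g.2.2.1 g.2.2.2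
  rw [MvPolynomial.totalDegree_X]
  omega

lemma rel_ne {κ : Type} {s : κ ⊕ ℂ} {j : κ} {n : ℕ} (hn : 0 < n)
    (hs : s = Sum.inl j → ¬ IsSquare n) {g : ℤ × ℤ × ℤ × ℤ}
    (hg : g.1 * g.2.2.2 - g.2.1 * g.2.2.1 = n) : rel s j g ≠ 0 := by
  classical
  intro h
  obtain ⟨a, b, c, d⟩ := g
  have key : ∀ T : κ → ℂ, T j * (c * sv T s + d) - (a * sv T s + b) = 0 := fun T => by
    have := eval_rel T s j (a, b, c, d)
    rw [h, map_zero] at this
    exact this.symm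
  have hg' : (a : ℂ) * d - b * c = n := by exact_mod_cast hg
  have hn' : (n : ℂ) ≠ 0 := by exact_mod_cast hn.ne'
  cases s with
  | inr z =>
    have h0 := key fun _ => 0
    have h1 := key fun _ => 1
    simp only [sv, Sum.elim_inr, id] at h0 h1
    exact hn' (by linear_combination -hg' + a * h1 - a * h0 + c * h0)
  | inl i =>
    by_cases hij : i = j
    · subst hij
      have h0 := key fun _ => 0
      have h1 := key fun _ => 1
      have h2 := key fun _ => -1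
      simp only [sv, Sum.elim_inl] at h0 h1 h2
      have e : (n : ℂ) = a * a := by
        linear_combination -hg' + (c : ℂ) * h0 + (a : ℂ) / 2 * h1 - (a : ℂ) / 2 * h2
      have e' : (n : ℤ) = a * a := by exact_mod_cast e
      exact hs rfl (Int.isSquare_natCast_iff.1 ⟨a, e'⟩)
    · have h0 := key fun _ => 0
      have h1 := key fun k => if k = i then 1 else 0
      simp only [sv, Sum.elim_inl, if_neg (Ne.symm hij), if_true] at h0 h1
      exact hn' (by linear_combination -hg' - (d : ℂ) * h1 + (d : ℂ) * h0 + (c : ℂ) * h0)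

end Tiny2

theorem zero_countC {κ : Type} {f : κ → ℂ → ℂ} {Cn : ℕ → ℕ}
    (hf : ∀ i, AnalyticOnNhd ℂ (f i) (closedBall 0 10)) (h : NDegC f Cn) {e : ℕ}
    {c : MvPolynomial κ ℂ} (hc : c ≠ 0) (he : c.totalDegree ≤ e) (S : Finset ℂ)
    (hS : ∀ s ∈ S, ‖s‖ ≤ 2 ∧ MvPolynomial.eval (fun i ↦ f i s) c = 0) : S.card ≤ Cn e + 1 := by
  obtain ⟨s0, h1, h2, h3⟩ := h e c hc he
  have hg : AnalyticOnNhd ℂ (fun s ↦ MvPolynomial.eval (fun i ↦ f i s) c) (closedBall 0 10) :=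
    AnalyticOnNhd.aeval_mvPolynomial (f := fun s i ↦ f i s) hf c
  have h4 := schwarz (R := 10) (r := 2) (r1 := 2) (by norm_num) (by norm_num) (by norm_num) hg h3
    S 1 (fun z hz ↦ ⟨(hS z hz).1, AN.isBigO_of_zero (hg z (mem_closedBall_zero_iff.2
      ((hS z hz).1.trans (by norm_num)))) (hS z hz).2⟩) h1
  set G := ‖MvPolynomial.eval (fun i ↦ f i s0) c‖
  have hG : 0 < G := norm_pos_iff.2 h2
  rw [mul_one, show ((2 + 2 : ℝ) / (10 - 2)) = 1 / 2 by norm_num, one_div_pow, mul_one_div,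
    le_div_iff₀ (by positivity), mul_comm] at h4
  have h5 : (2 : ℝ) ^ S.card ≤ 2 ^ Cn e := le_of_mul_le_mul_right h4 hG
  have := (pow_le_pow_iff_right₀ (by norm_num : (1 : ℝ) < 2)).1 h5
  omega

open Tiny2 in
theorem tiny_disc2 (Cn : ℕ → ℕ) {ε : ℝ} (hε : 0 < ε) : ∃ C : ℝ, ∀ {κ : Type} (M : ℝ)
    (f : κ → ℂ → ℂ) (s : κ ⊕ ℂ) (j : κ) (n : ℕ) (z : ℂ) (S : Finset ℂ),
    (s = Sum.inl j → ¬ IsSquare n) → 2 ≤ M →
    (∀ i, AnalyticOnNhd ℂ (f i) (closedBall 0 10)) →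
    (∀ i u, ‖u‖ ≤ 10 → ‖f i u‖ ≤ M ∧ 1 ≤ M * (f i u).im) →
    (∀ c, s = Sum.inr c → ‖c‖ ≤ M ∧ 1 ≤ M * c.im) → NDegC f Cn → 0 < n → (n : ℝ) ≤ M →
    (∀ u ∈ S, ‖u‖ ≤ 1 ∧ ‖u - z‖ ≤ (M ^ 102)⁻¹ ∧ Rel n (sv (fun i ↦ f i u) s) (f j u)) →
    (S.card : ℝ) ≤ C * M ^ ε := by
  classical
  obtain ⟨C, hC⟩ := tiny hε
  refine ⟨(Cn 2 + 1) * |C|, fun {κ} M f s j n z S hsq hM hf hb hcs hnd hn hnM hS => ?_⟩
  have hM0 : 0 < M := by linarith
  rcases S.eq_empty_or_nonempty with rfl | ⟨s0, hs0⟩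
  · simp only [Finset.card_empty, Nat.cast_zero]
    positivity
  have hex : ∀ u ∈ S, ∃ g : ℤ × ℤ × ℤ × ℤ, g.1 * g.2.2.2 - g.2.1 * g.2.2.1 = n ∧
      Mob g.1 g.2.1 g.2.2.1 g.2.2.2 (sv (fun i ↦ f i u) s) (f j u) := fun u hu => by
    obtain ⟨a, b, c, d, h1, h2⟩ := (hS u hu).2.2
    exact ⟨(a, b, c, d), h1, h2⟩
  choose! G hG1 hG2 using hex
  have hnear : ∀ k, ∀ u ∈ S, ‖f k u - f k s0‖ ≤ (M ^ 100)⁻¹ := by
    intro k u hu
    refine (Tiny.lip (hf k) (fun w hw => (hb k w hw).1) (hS u hu).1 (hS s0 hs0).1).trans ?_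
    have h1 : ‖u - s0‖ ≤ (M ^ 102)⁻¹ + (M ^ 102)⁻¹ := by
      have e : u - s0 = (u - z) - (s0 - z) := by ring
      rw [e]
      exact (norm_sub_le _ _).trans (add_le_add (hS u hu).2.1 (hS s0 hs0).2.1)
    refine (mul_le_mul_of_nonneg_left h1 hM0.le).trans ?_
    have e : M * ((M ^ 102)⁻¹ + (M ^ 102)⁻¹) = (M ^ 100)⁻¹ * (2 / M) := by
      field_simp
      ring
    rw [e]
    exact mul_le_of_le_one_right (by positivity) ((div_le_one hM0).2 hM)
  have hsrc : ∀ u ∈ S, ‖sv (fun i ↦ f i u) s‖ ≤ M ∧ 1 ≤ M * (sv (fun i ↦ f i u) s).im ∧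
      ‖sv (fun i ↦ f i u) s - sv (fun i ↦ f i s0) s‖ ≤ (M ^ 100)⁻¹ := by
    intro u hu
    have h10 : ‖u‖ ≤ 10 := by linarith [(hS u hu).1]
    cases s with
    | inl i => exact ⟨(hb i u h10).1, (hb i u h10).2, hnear i u hu⟩
    | inr c =>
      refine ⟨(hcs c rfl).1, (hcs c rfl).2, ?_⟩
      simp only [sv, Sum.elim_inr, sub_self, norm_zero]
      positivity
  have h1 := hC M n (sv (fun i ↦ f i s0) s) (f j s0) (S.image G) hM hn hnM fun g hg => by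
    obtain ⟨u, hu, rfl⟩ := Finset.mem_image.1 hg
    have h10 : ‖u‖ ≤ 10 := by linarith [(hS u hu).1]
    exact ⟨hG1 u hu, _, f j u, (hsrc u hu).1, (hb j u h10).1, (hsrc u hu).2.1, (hb j u h10).2,
      (hsrc u hu).2.2, hnear j u hu, hG2 u hu⟩
  have h2 : S.card ≤ (Cn 2 + 1) * (S.image G).card := by
    refine Finset.card_le_mul_card_image _ _ fun g hg => ?_
    obtain ⟨u, hu, rfl⟩ := Finset.mem_image.1 hg
    refine zero_countC hf hnd (rel_ne hn hsq (hG1 u hu)) (rel_deg s j _) _ fun t ht => ?_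
    obtain ⟨ht, hts⟩ := Finset.mem_filter.1 ht
    refine ⟨by linarith [(hS t ht).1], ?_⟩
    rw [← hts, eval_rel, sub_eq_zero]
    exact hG2 t ht
  calc (S.card : ℝ) ≤ (Cn 2 + 1) * ((S.image G).card : ℝ) := by exact_mod_cast h2
    _ ≤ (Cn 2 + 1) * (|C| * M ^ ε) := by
      gcongr
      exact h1.trans (mul_le_mul_of_nonneg_right (le_abs_self C) (by positivity))
    _ = (Cn 2 + 1) * |C| * M ^ ε := by ring

end Pool.Agent.Lib.ZP3
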