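import Pool.Agent.Lib.ZP3.An

/-! Counting special points on a rational curve: reduction to charts.  The statements of the
other blocks enter as the hypothesis `CNT.Facts`. -/

open UpperHalfPlane Filter Topology Metric
open scoped Real

namespace Pool.Agent.Lib.ZP3

open Pool.Agent.Lib.MP_0704bf_ag

namespace CNT

/-- the inputs from the other blocks -/
structure Facts : Prop where
  nd_cusp : ∀ (g : Fin 3 → ℂ → ℂ) (m : Fin 3 → ℂ) (r : ℝ), 0 < r →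
    (∀ i, AnalyticOnNhd ℂ (g i) (ball 0 r)) →
    (∀ c : MvPolynomial (Fin 3) ℂ, (∀ w : ℂ, ‖Complex.exp w‖ < r →
      MvPolynomial.eval (fun i ↦ m i * w + g i (Complex.exp w)) c = 0) → c = 0) →
    ∃ Cn : ℕ → ℕ, ∀ (k : ℕ) (l : ℤ), |l| ≤ 4 →
      NDeg (fun i s ↦ m i * ((Real.log r - 11 - k : ℝ) + l * Complex.I + s) +
        g i (Complex.exp ((Real.log r - 11 - k : ℝ) + l * Complex.I + s))) Cn
        (Real.exp (k + 1))
  lift : ∀ (N : ℕ) (x y U : ℂ), Isog N x y U → ∀ τ τ' : ℍ, jInv τ = x → jInv τ' = y →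
    ∃ a b c d : ℤ, a * d - b * c = N ∧ Mob a b c d τ τ' ∧
      U * ModularForm.discriminant τ = (a - c * τ') ^ 12 * ModularForm.discriminant τ'
  symm : ∀ (N : ℕ) (x y : ℂ), Iso N x y → Iso N y x
  trans : ∀ (N N' : ℕ) (x y z : ℂ), Iso N x y → Iso N' y z → Iso (N * N') x z
  chart_reg : ∀ (A B : Fin 3 → Polynomial ℂ), Adm A B → ∀ t0 : ℂ, NP B t0 →
    ∃ (E : ℕ) (r : ℝ) (f : Fin 3 → ℂ → ℂ),
    0 < E ∧ 0 < r ∧ (∀ i, AnalyticOnNhd ℂ (f i) (ball 0 r)) ∧ ∀ u ∈ ball (0 : ℂ) r,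
      NP B (t0 + u ^ E) ∧ ∀ i, 0 < (f i u).im ∧ jc (f i u) = xv A B i (t0 + u ^ E)
  chart_cusp : ∀ (A B : Fin 3 → Polynomial ℂ), Adm A B → ∀ (P : ℂ) (k : Fin 3),
    (B k).eval P = 0 →
    ∃ (E m : ℕ) (r : ℝ) (g : Fin 3 → ℂ → ℂ), 0 < E ∧ 0 < m ∧ 0 < r ∧
      (∀ i, AnalyticOnNhd ℂ (g i) (ball 0 r)) ∧
      (∀ u ∈ ball (0 : ℂ) r, ∀ i, i ≠ k → 0 < (g i u).im ∧ jc (g i u) = xv A B i (P + u ^ E)) ∧
      ∀ w : ℂ, ‖Complex.exp w‖ < r → NP B (P + Complex.exp w ^ E) ∧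
        1 ≤ (m / (2 * π * Complex.I) * w + g k (Complex.exp w)).im ∧
        jc (m / (2 * π * Complex.I) * w + g k (Complex.exp w)) =
          xv A B k (P + Complex.exp w ^ E)
  ax_log : ∀ (A B : Fin 3 → Polynomial ℂ), Adm A B → ∀ (U : Set ℂ), IsOpen U →
    IsPreconnected U → ∀ (φ : ℂ → ℂ) (f : Fin 3 → ℂ → ℂ), AnalyticOnNhd ℂ φ U →
    (∃ s ∈ U, ∃ s' ∈ U, φ s ≠ φ s') → (∀ i, AnalyticOnNhd ℂ (f i) U) →
    (∀ s ∈ U, NP B (φ s) ∧ ∀ i, 0 < (f i s).im ∧ jc (f i s) = xv A B i (φ s)) →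
    ∀ c : MvPolynomial (Fin 3) ℂ, (∀ s ∈ U, MvPolynomial.eval (fun i ↦ f i s) c = 0) → c = 0
  normalize : ∀ A B : Fin 3 → Polynomial ℂ, Adm A B →
    ∃ (t0 : ℂ) (A' B' : Fin 3 → Polynomial ℂ), Adm A' B' ∧
      ∀ t, t ≠ t0 → NP B t → NP B' (t - t0)⁻¹ ∧ ∀ i, xv A' B' i (t - t0)⁻¹ = xv A B i t
  tiny_disc : ∀ (Cn : ℕ → ℕ) (ε : ℝ), 0 < ε → ∃ C : ℝ, ∀ (M : ℝ)
    (f : Fin 2 → ℂ → ℂ) (i j : Fin 2) (n : ℕ) (z : ℂ) (S : Finset ℂ), i ≠ j → 2 ≤ M →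
    (∀ i, AnalyticOnNhd ℂ (f i) (closedBall 0 10)) →
    (∀ i s, ‖s‖ ≤ 10 → ‖f i s‖ ≤ M ∧ 1 ≤ M * (f i s).im) → NDeg f Cn M → 0 < n → (n : ℝ) ≤ M →
    (∀ s ∈ S, ‖s‖ ≤ 1 ∧ ‖s - z‖ ≤ (M ^ 102)⁻¹ ∧ Rel n (f i s) (f j s)) →
    (S.card : ℝ) ≤ C * M ^ ε
  count_core : ∀ (Cn : ℕ → ℕ) (ε : ℝ), 0 < ε → ∃ C : ℝ, ∀ (M : ℝ) (f : Fin 3 → ℂ → ℂ)
    (n1 n2 : ℕ) (S : Finset ℂ), 2 ≤ M → (∀ i, AnalyticOnNhd ℂ (f i) (closedBall 0 10)) →
    (∀ i s, ‖s‖ ≤ 10 → ‖f i s‖ ≤ M ∧ 1 ≤ M * (f i s).im) → NDeg f Cn M →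
    0 < n1 → (n1 : ℝ) ≤ M → 0 < n2 → (n2 : ℝ) ≤ M →
    (∀ s ∈ S, ‖s‖ ≤ 1 ∧ Rel n1 (f 0 s) (f 1 s) ∧ Rel n2 (f 0 s) (f 2 s)) →
    (S.card : ℝ) ≤ C * M ^ ε

variable {A B : Fin 3 → Polynomial ℂ}

/-- special parameters -/
def Sp (A B : Fin 3 → Polynomial ℂ) (n1 n2 : ℕ) (t : ℂ) : Prop :=
  NP B t ∧ Iso n1 (xv A B 0 t) (xv A B 1 t) ∧ Iso n2 (xv A B 0 t) (xv A B 2 t)

/-- the counting bound for special parameters inside `U` -/
def Bd (A B : Fin 3 → Polynomial ℂ) (ε : ℝ) (U : Set ℂ) : Prop :=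
  ∃ C : ℝ, ∀ (M : ℝ) (n1 n2 : ℕ) (S : Finset ℂ), 2 ≤ M → 0 < n1 → (n1 : ℝ) ≤ M → 0 < n2 →
    (n2 : ℝ) ≤ M → (∀ t ∈ S, t ∈ U ∧ Sp A B n1 n2 t) → (S.card : ℝ) ≤ C * M ^ ε

theorem Bd.empty (ε : ℝ) : Bd A B ε ∅ := by
  refine ⟨0, fun M n1 n2 S _ _ _ _ _ h ↦ ?_⟩
  have : S = ∅ := Finset.eq_empty_of_forall_notMem fun t ht ↦ (h t ht).1
  simp [this]

theorem Bd.mono {ε : ℝ} {U V : Set ℂ} (hUV : U ⊆ V) (h : Bd A B ε V) : Bd A B ε U := by
  obtain ⟨C, hC⟩ := h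
  exact ⟨C, fun M n1 n2 S a b c d e f ↦ hC M n1 n2 S a b c d e
    fun t ht ↦ ⟨hUV (f t ht).1, (f t ht).2⟩⟩

theorem Bd.union {ε : ℝ} {U V : Set ℂ} (h : Bd A B ε U) (h' : Bd A B ε V) :
    Bd A B ε (U ∪ V) := by
  classical
  obtain ⟨C, hC⟩ := h
  obtain ⟨C', hC'⟩ := h'
  refine ⟨C + C', fun M n1 n2 S a b c d e f ↦ ?_⟩
  have h1 := hC M n1 n2 (S.filter (· ∈ U)) a b c d e fun t ht ↦
    ⟨(Finset.mem_filter.1 ht).2, (f t (Finset.mem_filter.1 ht).1).2⟩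
  have h2 := hC' M n1 n2 (S.filter fun t ↦ ¬ t ∈ U) a b c d e fun t ht ↦
    ⟨(f t (Finset.mem_filter.1 ht).1).1.resolve_left (Finset.mem_filter.1 ht).2,
      (f t (Finset.mem_filter.1 ht).1).2⟩
  have h3 := Finset.card_filter_add_card_filter_not (s := S) (· ∈ U)
  have h4 : (S.card : ℝ) = (S.filter (· ∈ U)).card + (S.filter fun t ↦ ¬ t ∈ U).card := by
    exact_mod_cast h3.symm
  rw [h4, add_mul]
  exact add_le_add h1 h2

theorem card_le_of_param (S : Finset ℂ) (φ : ℂ → ℂ) (q : ℂ → Prop) {Q : ℝ}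
    (hS : ∀ t ∈ S, ∃ s, q s ∧ φ s = t)
    (hQ : ∀ S' : Finset ℂ, (∀ s ∈ S', q s ∧ φ s ∈ S) → (S'.card : ℝ) ≤ Q) :
    (S.card : ℝ) ≤ Q := by
  classical
  choose! σ h1 h2 using hS
  have hinj : Set.InjOn σ S := fun t ht t' ht' h ↦ by
    rw [← h2 t ht, ← h2 t' ht', h]
  rw [← Finset.card_image_of_injOn hinj]
  refine hQ _ fun s hs ↦ ?_
  obtain ⟨t, ht, rfl⟩ := Finset.mem_image.1 hs
  exact ⟨h1 t ht, by rw [h2 t ht]; exact ht⟩

theorem card_le_of_cover {ι : Type} (S : Finset ℂ) (I : Finset ι) (p : ι → ℂ → Prop) {Q : ℝ}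
    (hcov : ∀ t ∈ S, ∃ i ∈ I, p i t)
    (hQ : ∀ i ∈ I, ∀ S' : Finset ℂ, (∀ t ∈ S', t ∈ S ∧ p i t) → (S'.card : ℝ) ≤ Q) :
    (S.card : ℝ) ≤ I.card * Q := by
  classical
  have h1 : S ⊆ I.biUnion fun i ↦ S.filter (p i) := fun t ht ↦ by
    obtain ⟨i, hi, h⟩ := hcov t ht
    exact Finset.mem_biUnion.2 ⟨i, hi, Finset.mem_filter.2 ⟨ht, h⟩⟩
  have h2 := (Finset.card_le_card h1).trans Finset.card_biUnion_le
  have h3 : (S.card : ℝ) ≤ ∑ i ∈ I, ((S.filter (p i)).card : ℝ) := by exact_mod_cast h2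
  refine h3.trans ?_
  have := Finset.sum_le_card_nsmul I (fun i ↦ ((S.filter (p i)).card : ℝ)) Q fun i hi ↦
    hQ i hi _ fun t ht ↦ Finset.mem_filter.1 ht
  simpa using this

theorem rel_of_iso (F : Facts) {n : ℕ} {z z' x y : ℂ} (hz : 0 < z.im) (hz' : 0 < z'.im)
    (hx : jc z = x) (hy : jc z' = y) (h : Iso n x y) : Rel n z z' := by
  obtain ⟨U, hU⟩ := h
  obtain ⟨a, b, c, d, h1, h2, -⟩ := F.lift n x y U hU (ofComplex z) (ofComplex z') hx hy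
  refine ⟨a, b, c, d, h1, ?_⟩
  rwa [ofComplex_apply_of_im_pos hz, ofComplex_apply_of_im_pos hz'] at h2

/-- bounds on a compact set -/
theorem exists_bound {κ : Type} [Fintype κ] {K : Set ℂ} (hK : IsCompact K) {f : κ → ℂ → ℂ}
    (p : κ → Prop) (hf : ∀ i, ContinuousOn (f i) K) (hp : ∀ i, p i → ∀ s ∈ K, 0 < (f i s).im) :
    ∃ B0 : ℝ, 1 ≤ B0 ∧ ∀ i, ∀ s ∈ K, ‖f i s‖ ≤ B0 ∧ (p i → 1 ≤ B0 * (f i s).im) := by
  have h1 : ∀ i, ∃ b : ℝ, ∀ s ∈ K, ‖f i s‖ ≤ b ∧ (p i → ((f i s).im)⁻¹ ≤ b) := by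
    intro i
    obtain ⟨b, hb⟩ := hK.exists_bound_of_continuousOn (hf i)
    by_cases hi : p i
    · have hc : ContinuousOn (fun s ↦ ((f i s).im)⁻¹) K :=
        (Complex.continuous_im.comp_continuousOn (hf i)).inv₀ fun s hs ↦ (hp i hi s hs).ne'
      obtain ⟨b', hb'⟩ := hK.exists_bound_of_continuousOn hc
      exact ⟨max b b', fun s hs ↦ ⟨(hb s hs).trans (le_max_left _ _), fun _ ↦
        ((le_abs_self _).trans (hb' s hs)).trans (le_max_right _ _)⟩⟩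
    · exact ⟨b, fun s hs ↦ ⟨hb s hs, fun h ↦ absurd h hi⟩⟩
  choose b hb using h1
  refine ⟨1 + ∑ i, |b i|, by simp; positivity, fun i s hs ↦ ?_⟩
  have h2 : b i ≤ 1 + ∑ i, |b i| := by
    have := Finset.single_le_sum (f := fun i ↦ |b i|) (fun i _ ↦ abs_nonneg _) (Finset.mem_univ i)
    have := le_abs_self (b i)
    linarith
  refine ⟨(hb i s hs).1.trans h2, fun hi ↦ ?_⟩
  have h3 := hp i hi s hs
  have h4 := ((hb i s hs).2 hi).trans h2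
  calc (1 : ℝ) = ((f i s).im)⁻¹ * (f i s).im := (inv_mul_cancel₀ h3.ne').symm
    _ ≤ _ := mul_le_mul_of_nonneg_right h4 h3.le

theorem exists_root_le (z : ℂ) {E : ℕ} (hE : 0 < E) {ρ : ℝ} (hρ : 0 ≤ ρ) (hz : ‖z‖ ≤ ρ ^ E) :
    ∃ u : ℂ, ‖u‖ ≤ ρ ∧ u ^ E = z := by
  obtain ⟨u, hu⟩ := IsAlgClosed.exists_pow_nat_eq z hE
  refine ⟨u, ?_, hu⟩
  rw [← hu, norm_pow] at hz
  exact (pow_le_pow_iff_left₀ (norm_nonneg _) hρ hE.ne').1 hz

theorem norm_scale {r : ℝ} (hr : 0 < r) {s : ℂ} (hs : ‖s‖ ≤ 10) :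
    ((r / 11 : ℝ) : ℂ) * s ∈ ball (0 : ℂ) r := by
  rw [mem_ball_zero_iff, norm_mul, Complex.norm_real, Real.norm_eq_abs,
    abs_of_pos (by positivity)]
  nlinarith

theorem analytic_scale {r : ℝ} (hr : 0 < r) {f : ℂ → ℂ} (hf : AnalyticOnNhd ℂ f (ball 0 r)) :
    AnalyticOnNhd ℂ (fun s ↦ f (((r / 11 : ℝ) : ℂ) * s)) (closedBall 0 10) := fun _ hs ↦
  (hf _ (norm_scale hr (mem_closedBall_zero_iff.1 hs))).fun_comp
    (f := fun s ↦ ((r / 11 : ℝ) : ℂ) * s) (analyticAt_const.mul analyticAt_id)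

/-- the bound near a point that is not a pole -/
theorem loc_reg (F : Facts) (h : Adm A B) {ε : ℝ} (hε : 0 < ε) {t0 : ℂ} (ht : NP B t0) :
    ∃ U ∈ 𝓝 t0, Bd A B ε U := by
  obtain ⟨E, r, f, hE, hr, hf, hj⟩ := F.chart_reg A B h t0 ht
  have hr' : 0 < r / 11 := by positivity
  set c : ℂ := ((r / 11 : ℝ) : ℂ) with hc
  have hc0 : c ≠ 0 := by rw [hc]; exact_mod_cast hr'.ne'
  set G : Fin 3 → ℂ → ℂ := fun i s ↦ f i (c * s) with hG
  have hGa : ∀ i, AnalyticOnNhd ℂ (G i) (closedBall 0 10) := fun i ↦ analytic_scale hr (hf i)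
  have hGj : ∀ s : ℂ, ‖s‖ ≤ 10 → NP B (t0 + (c * s) ^ E) ∧
      ∀ i, 0 < (G i s).im ∧ jc (G i s) = xv A B i (t0 + (c * s) ^ E) := fun s hs ↦
    hj _ (norm_scale hr hs)
  have hsub : ball (0 : ℂ) 2 ⊆ closedBall 0 10 :=
    ball_subset_closedBall.trans (closedBall_subset_closedBall (by norm_num))
  obtain ⟨Cn, hCn⟩ := nd_compact hGa fun p hp ↦ by
    refine F.ax_log A B h (ball 0 2) isOpen_ball (convex_ball _ _).isPreconnected
      (fun s ↦ t0 + (c * s) ^ E) G (fun s _ ↦ by fun_prop) ⟨0, by simp, 1, by simp, ?_⟩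
      (fun i ↦ (hGa i).mono hsub) (fun s hs ↦ hGj s (mem_closedBall_zero_iff.1 (hsub hs))) p
      fun s hs ↦ hp s (mem_ball_zero_iff.1 hs).le
    simpa [hE.ne'] using hc0
  obtain ⟨B0, hB0, hb⟩ := exists_bound (isCompact_closedBall (0 : ℂ) 10) (fun _ ↦ True)
    (fun i ↦ (hGa i).continuousOn) fun i _ s hs ↦ ((hGj s (mem_closedBall_zero_iff.1 hs)).2 i).1
  obtain ⟨C, hC⟩ := F.count_core Cn ε hε
  refine ⟨closedBall t0 ((r / 11) ^ E), closedBall_mem_nhds _ (by positivity), C * B0 ^ ε,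
    fun M n1 n2 S hM h1 h1' h2 h2' hS ↦ ?_⟩
  have hMM : M ≤ B0 * M := le_mul_of_one_le_left (by linarith) hB0
  have hBM : B0 ≤ B0 * M := le_mul_of_one_le_right (by linarith) (by linarith)
  rw [mul_assoc, ← Real.mul_rpow (by linarith) (by linarith)]
  refine card_le_of_param S (fun s ↦ t0 + (c * s) ^ E) (fun s ↦ ‖s‖ ≤ 1) (fun t ht ↦ ?_)
    fun S' hS' ↦ ?_
  · obtain ⟨u, hu, hu'⟩ := exists_root_le (t - t0) hE hr'.le (mem_closedBall_iff_norm.1 (hS t ht).1)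
    refine ⟨c⁻¹ * u, ?_, by simp [hc0, hu']⟩
    rw [norm_mul, norm_inv, hc, Complex.norm_real, Real.norm_eq_abs, abs_of_pos hr',
      inv_mul_le_iff₀ hr']
    linarith
  · refine hC (B0 * M) G n1 n2 S' (by linarith) hGa (fun i s hs ↦ ?_)
      (hCn.mono (by norm_num) (by linarith) fun _ ↦ le_rfl) h1 (by linarith) h2 (by linarith)
      fun s hs ↦ ?_
    · obtain ⟨b1, b2⟩ := hb i s (mem_closedBall_zero_iff.2 hs)
      have b3 := ((hGj s hs).2 i).1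
      exact ⟨by linarith, (b2 trivial).trans (mul_le_mul_of_nonneg_right hBM b3.le)⟩
    · obtain ⟨b1, b2⟩ := hS' s hs
      obtain ⟨-, -, b3, b4⟩ := hS _ b2
      have b5 := (hGj s (by linarith)).2
      exact ⟨b1, rel_of_iso F (b5 0).1 (b5 1).1 (b5 0).2 (b5 1).2 b3,
        rel_of_iso F (b5 0).1 (b5 2).1 (b5 0).2 (b5 2).2 b4⟩

/-- a fixed determinant for the two coordinates different from `k` -/
theorem pair_iso (F : Facts) (k : Fin 3) {M : ℝ} {n1 n2 : ℕ} (hM : 2 ≤ M) (h1 : 0 < n1)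
    (h1' : (n1 : ℝ) ≤ M) (h2 : 0 < n2) (h2' : (n2 : ℝ) ≤ M) : ∃ n : ℕ, 0 < n ∧ (n : ℝ) ≤ M ^ 2 ∧
      ∀ t, Sp A B n1 n2 t → Iso n (xv A B (k.succAbove 0) t) (xv A B (k.succAbove 1) t) := by
  have hMM : M ≤ M ^ 2 := by nlinarith
  fin_cases k
  · refine ⟨n1 * n2, Nat.mul_pos h1 h2, ?_, fun t ht ↦
      F.trans _ _ _ _ _ (F.symm _ _ _ ht.2.1) ht.2.2⟩
    push_cast
    rw [sq]
    exact mul_le_mul h1' h2' (Nat.cast_nonneg _) (by linarith)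
  · exact ⟨n2, h2, h2'.trans hMM, fun t ht ↦ ht.2.2⟩
  · exact ⟨n1, h1, h1'.trans hMM, fun t ht ↦ ht.2.1⟩

/-- slopes of the chart at a pole of the coordinate `k` -/
noncomputable def sl (k : Fin 3) (m : ℕ) (i : Fin 3) : ℂ :=
  if i = k then m / (2 * π * Complex.I) else 0

/-- a chart at a pole `P` of the coordinate `k` -/
structure Cusp (A B : Fin 3 → Polynomial ℂ) (P : ℂ) (k : Fin 3) (E m : ℕ) (r : ℝ)
    (g : Fin 3 → ℂ → ℂ) : Prop where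
  hE : 0 < E
  hr : 0 < r
  an : ∀ i, AnalyticOnNhd ℂ (g i) (ball 0 r)
  fin : ∀ u ∈ ball (0 : ℂ) r, ∀ i, i ≠ k → 0 < (g i u).im ∧ jc (g i u) = xv A B i (P + u ^ E)
  inf : ∀ w : ℂ, ‖Complex.exp w‖ < r → NP B (P + Complex.exp w ^ E) ∧
    1 ≤ (m / (2 * π * Complex.I) * w + g k (Complex.exp w)).im ∧
    jc (m / (2 * π * Complex.I) * w + g k (Complex.exp w)) = xv A B k (P + Complex.exp w ^ E)

variable {P : ℂ} {k : Fin 3} {E m : ℕ} {r : ℝ} {g : Fin 3 → ℂ → ℂ}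

theorem Cusp.val (c : Cusp A B P k E m r g) {w : ℂ} (hw : ‖Complex.exp w‖ < r) (i : Fin 3) :
    0 < (sl k m i * w + g i (Complex.exp w)).im ∧
      jc (sl k m i * w + g i (Complex.exp w)) = xv A B i (P + Complex.exp w ^ E) := by
  by_cases hi : i = k
  · subst hi
    obtain ⟨-, h1, h2⟩ := c.inf w hw
    simp only [sl, if_true]
    exact ⟨by linarith, h2⟩
  · simp only [sl, if_neg hi, zero_mul, zero_add]
    exact c.fin _ (mem_ball_zero_iff.2 hw) i hi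

theorem Cusp.analytic (c : Cusp A B P k E m r g) {w : ℂ} (hw : ‖Complex.exp w‖ < r) (i : Fin 3) :
    AnalyticAt ℂ (fun w ↦ sl k m i * w + g i (Complex.exp w)) w :=
  (analyticAt_const.mul analyticAt_id).add
    ((c.an i _ (mem_ball_zero_iff.2 hw)).fun_comp (f := Complex.exp) analyticAt_cexp)

theorem Cusp.ind (F : Facts) (h : Adm A B) (c : Cusp A B P k E m r g) {r' : ℝ} (h0 : 0 < r')
    (h1 : r' ≤ r) (p : MvPolynomial (Fin 3) ℂ) (hp : ∀ w : ℂ, ‖Complex.exp w‖ < r' →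
      MvPolynomial.eval (fun i ↦ sl k m i * w + g i (Complex.exp w)) p = 0) : p = 0 := by
  have hU : ∀ w : ℂ, w ∈ {w : ℂ | w.re < Real.log r'} ↔ ‖Complex.exp w‖ < r' := fun w ↦ by
    rw [Complex.norm_exp, Set.mem_ofPred_eq, Real.lt_log_iff_exp_lt h0]
  refine F.ax_log A B h {w : ℂ | w.re < Real.log r'}
    (isOpen_lt Complex.continuous_re continuous_const)
    (convex_halfSpace_re_lt _).isPreconnected (fun w ↦ P + Complex.exp w ^ E)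
    (fun i w ↦ sl k m i * w + g i (Complex.exp w)) (fun s _ ↦ by fun_prop)
    ⟨(Real.log r' - 1 : ℝ), by simp, (Real.log r' - 2 : ℝ), by simp, ?_⟩
    (fun i w hw ↦ c.analytic (((hU w).1 hw).trans_le h1) i)
    (fun w hw ↦ ⟨(c.inf w (((hU w).1 hw).trans_le h1)).1, c.val (((hU w).1 hw).trans_le h1)⟩) p
    fun w hw ↦ hp w ((hU w).1 hw)
  intro he
  have h2 := congrArg norm (add_left_cancel he)
  rw [norm_pow, norm_pow, Complex.norm_exp, Complex.norm_exp, Complex.ofReal_re,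
    Complex.ofReal_re, pow_left_inj₀ (Real.exp_pos _).le (Real.exp_pos _).le c.hE.ne',
    Real.exp_eq_exp] at h2
  linarith

/-- the part very close to the pole -/
theorem Cusp.deep (F : Facts) (h : Adm A B) (c : Cusp A B P k E m r g) {ε : ℝ} (hε : 0 < ε) :
    ∃ B0 C : ℝ, 1 ≤ B0 ∧ ∀ (N : ℝ) (n : ℕ) (S : Finset ℂ), 2 ≤ N → B0 ≤ N → 0 < n →
      (n : ℝ) ≤ N → (∀ u ∈ S, ‖u‖ ≤ r / 11 * (N ^ 102)⁻¹ ∧
        Iso n (xv A B (k.succAbove 0) (P + u ^ E)) (xv A B (k.succAbove 1) (P + u ^ E))) →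
      (S.card : ℝ) ≤ C * N ^ ε := by
  have hr := c.hr
  have hr' : 0 < r / 11 := by positivity
  set a : ℂ := ((r / 11 : ℝ) : ℂ) with ha
  have ha0 : a ≠ 0 := by rw [ha]; exact_mod_cast hr'.ne'
  have hna : ∀ u : ℂ, ‖a⁻¹ * u‖ = (r / 11)⁻¹ * ‖u‖ := fun u ↦ by
    rw [norm_mul, norm_inv, ha, Complex.norm_real, Real.norm_eq_abs, abs_of_pos hr']
  set G : Fin 2 → ℂ → ℂ := fun i s ↦ g (k.succAbove i) (a * s) with hG
  have hGa : ∀ i, AnalyticOnNhd ℂ (G i) (closedBall 0 10) := fun i ↦ analytic_scale hr (c.an _)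
  have hGj : ∀ s : ℂ, ‖s‖ ≤ 10 → ∀ i, 0 < (G i s).im ∧
      jc (G i s) = xv A B (k.succAbove i) (P + (a * s) ^ E) := fun s hs i ↦
    c.fin _ (norm_scale hr hs) _ (Fin.succAbove_ne k i)
  obtain ⟨Cn, hCn⟩ := nd_compact hGa fun p hp ↦ by
    refine MvPolynomial.rename_injective k.succAbove Fin.succAbove_right_injective ?_
    rw [map_zero]
    refine c.ind F h (r' := 2 * (r / 11)) (by positivity) (by linarith) _ fun w hw ↦ ?_
    rw [MvPolynomial.eval_rename, ← hp (a⁻¹ * Complex.exp w)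
      (by rw [hna, inv_mul_le_iff₀ hr']; linarith)]
    congr 2
    funext i
    simp [hG, sl, Fin.succAbove_ne, ha0]
  obtain ⟨B0, hB0, hb⟩ := exists_bound (isCompact_closedBall (0 : ℂ) 10) (fun _ ↦ True)
    (fun i ↦ (hGa i).continuousOn) fun i _ s hs ↦ (hGj s (mem_closedBall_zero_iff.1 hs) i).1
  obtain ⟨C, hC⟩ := F.tiny_disc Cn ε hε
  refine ⟨B0, C, hB0, fun N n S hN hBN h1 h1' hS ↦ ?_⟩
  have hN1 : (N ^ 102)⁻¹ ≤ 1 := inv_le_one_of_one_le₀ (one_le_pow₀ (by linarith))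
  refine card_le_of_param S (fun s ↦ a * s) (fun s ↦ ‖s‖ ≤ (N ^ 102)⁻¹) (fun u hu ↦ ?_)
    fun S' hS' ↦ ?_
  · refine ⟨a⁻¹ * u, ?_, by simp [ha0]⟩
    rw [hna, inv_mul_le_iff₀ hr']
    exact (hS u hu).1
  · refine hC N G 0 1 n 0 S' (by decide) hN hGa (fun i s hs ↦ ?_)
      (hCn.mono (by norm_num) hN fun _ ↦ le_rfl) h1 h1' fun s hs ↦ ?_
    · obtain ⟨b1, b2⟩ := hb i s (mem_closedBall_zero_iff.2 hs)
      exact ⟨by linarith, (b2 trivial).trans (mul_le_mul_of_nonneg_right hBN (hGj s hs i).1.le)⟩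
    · obtain ⟨b1, b2⟩ := hS' s hs
      have b5 := hGj s (by linarith)
      exact ⟨b1.trans hN1, by simpa using b1,
        rel_of_iso F (b5 0).1 (b5 1).1 (b5 0).2 (b5 1).2 (hS _ b2).2⟩

/-- centres of the logarithmic charts -/
noncomputable def ctr (r : ℝ) (j : ℕ) (l : ℤ) : ℂ := (Real.log r - 11 - j : ℝ) + l * Complex.I

theorem norm_exp_ctr {r : ℝ} (hr : 0 < r) (j : ℕ) (l : ℤ) {s : ℂ} (hs : ‖s‖ ≤ 10) :
    ‖Complex.exp (ctr r j l + s)‖ ≤ r / 2 := by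
  have h1 : (ctr r j l + s).re ≤ Real.log r + -1 := by
    have := (Complex.re_le_norm s).trans hs
    have h2 : (0 : ℝ) ≤ j := Nat.cast_nonneg j
    simp [ctr]
    linarith
  rw [Complex.norm_exp]
  refine (Real.exp_le_exp.2 h1).trans ?_
  rw [Real.exp_add, Real.exp_log hr, Real.exp_neg, div_eq_mul_inv]
  refine mul_le_mul_of_nonneg_left (inv_anti₀ (by norm_num) ?_) hr.le
  have := Real.add_one_le_exp (1 : ℝ)
  linarith

theorem norm_ctr (r : ℝ) (j : ℕ) {l : ℤ} (hl : |l| ≤ 4) {s : ℂ} (hs : ‖s‖ ≤ 10) :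
    ‖ctr r j l + s‖ ≤ (|Real.log r| + 26) * Real.exp (j + 1) := by
  have h1 : ‖((Real.log r - 11 - j : ℝ) : ℂ)‖ ≤ |Real.log r| + 11 + j := by
    rw [Complex.norm_real, Real.norm_eq_abs, abs_le]
    have := le_abs_self (Real.log r)
    have := neg_abs_le (Real.log r)
    have h2 : (0 : ℝ) ≤ j := Nat.cast_nonneg j
    constructor <;> linarith
  have h2 : ‖(l : ℂ) * Complex.I‖ ≤ 4 := by
    rw [norm_mul, Complex.norm_I, mul_one, Complex.norm_intCast]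
    exact_mod_cast hl
  have h3 := (norm_add_le (ctr r j l) s).trans (add_le_add (norm_add_le _ _) hs)
  have h4 := Real.add_one_le_exp ((j : ℝ) + 1)
  have h5 : (0 : ℝ) ≤ j := Nat.cast_nonneg j
  have h6 := abs_nonneg (Real.log r)
  nlinarith

/-- every point of a punctured disc lies in a logarithmic chart -/
theorem exists_ctr {r : ℝ} (hr : 0 < r) {u : ℂ} (hu0 : u ≠ 0) (hu : ‖u‖ ≤ r * Real.exp (-11))
    {T : ℝ} (hT : 0 < T) (hu' : r / 11 * T⁻¹ ≤ ‖u‖) : ∃ (j : ℕ) (l : ℤ) (s : ℂ), |l| ≤ 4 ∧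
      Real.exp (j + 1) ≤ T ∧ ‖s‖ ≤ 1 ∧ Complex.exp (ctr r j l + s) = u := by
  have hn : 0 < ‖u‖ := norm_pos_iff.2 hu0
  set x : ℝ := Real.log r - 11 - Real.log ‖u‖ with hx
  have hx0 : 0 ≤ x := by
    have := Real.log_le_log hn hu
    rw [Real.log_mul hr.ne' (Real.exp_pos _).ne', Real.log_exp] at this
    linarith
  have j1 := Nat.floor_le (a := x + 1 / 2) (by linarith)
  have j2 := Nat.lt_floor_add_one (x + 1 / 2)
  have l1 := abs_sub_round (Complex.arg u)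
  have l2 := Complex.abs_arg_le_pi u
  refine ⟨⌊x + 1 / 2⌋₊, round (Complex.arg u),
    Complex.log u - ctr r ⌊x + 1 / 2⌋₊ (round (Complex.arg u)), ?_, ?_, ?_, ?_⟩
  · have h1 : |((round (Complex.arg u) : ℤ) : ℝ)| < 5 := by
      have := Real.pi_lt_four
      rw [abs_le] at l1 l2
      rw [abs_lt]
      constructor <;> linarith [l1.1, l1.2, l2.1, l2.2]
    have h2 : |round (Complex.arg u)| < 5 := by exact_mod_cast h1
    omega
  · have h1 : Real.log (r / 11 * T⁻¹) ≤ Real.log ‖u‖ := Real.log_le_log (by positivity) hu'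
    rw [Real.log_mul (by positivity) (by positivity), Real.log_div hr.ne' (by norm_num),
      Real.log_inv] at h1
    have h2 : Real.log 11 ≤ 9 := by
      rw [Real.log_le_iff_le_exp (by norm_num)]
      have := Real.quadratic_le_exp_of_nonneg (x := 9) (by norm_num)
      linarith
    rw [← Real.le_log_iff_exp_le hT]
    linarith
  · refine (Complex.norm_le_abs_re_add_abs_im _).trans ?_
    have h1 : |(Complex.log u - ctr r ⌊x + 1 / 2⌋₊ (round (Complex.arg u))).re| ≤ 1 / 2 := by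
      have : (Complex.log u - ctr r ⌊x + 1 / 2⌋₊ (round (Complex.arg u))).re =
          (⌊x + 1 / 2⌋₊ : ℝ) - x := by
        simp [ctr, Complex.log_re, hx]
        ring
      rw [this, abs_le]
      constructor <;> linarith
    have h2 : |(Complex.log u - ctr r ⌊x + 1 / 2⌋₊ (round (Complex.arg u))).im| ≤ 1 / 2 := by
      have : (Complex.log u - ctr r ⌊x + 1 / 2⌋₊ (round (Complex.arg u))).im =
          Complex.arg u - round (Complex.arg u) := by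
        simp [ctr, Complex.log_im]
      rw [this]
      exact l1
    linarith
  · rw [add_sub_cancel, Complex.exp_log hu0]

/-- one logarithmic chart -/
theorem Cusp.chart (F : Facts) (h : Adm A B) (c : Cusp A B P k E m r g) {ε : ℝ} (hε : 0 < ε) :
    ∃ B0 C : ℝ, 1 ≤ B0 ∧ 0 ≤ C ∧ ∀ (N : ℝ) (n1 n2 j : ℕ) (l : ℤ) (S : Finset ℂ), 2 ≤ N →
      B0 * Real.exp (j + 1) ≤ N → |l| ≤ 4 → 0 < n1 → (n1 : ℝ) ≤ N → 0 < n2 → (n2 : ℝ) ≤ N →
      (∀ u ∈ S, Sp A B n1 n2 (P + u ^ E) ∧ ∃ s, ‖s‖ ≤ 1 ∧ Complex.exp (ctr r j l + s) = u) →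
      (S.card : ℝ) ≤ C * N ^ ε := by
  have hr := c.hr
  obtain ⟨Cn, hCn⟩ := F.nd_cusp g (sl k m) r hr c.an (c.ind F h hr le_rfl)
  have hsub : closedBall (0 : ℂ) (r / 2) ⊆ ball 0 r := closedBall_subset_ball (by linarith)
  obtain ⟨B1, hB1, hb⟩ := exists_bound (isCompact_closedBall (0 : ℂ) (r / 2)) (fun i ↦ i ≠ k)
    (fun i ↦ (c.an i).continuousOn.mono hsub) fun i hi s hs ↦ (c.fin s (hsub hs) i hi).1
  obtain ⟨C, hC⟩ := F.count_core Cn ε hε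
  set μ : ℝ := ‖(m : ℂ) / (2 * π * Complex.I)‖ with hμ
  have hμ0 : 0 ≤ μ := norm_nonneg _
  have hsl : ∀ i, ‖sl k m i‖ ≤ μ := fun i ↦ by
    unfold sl
    split_ifs
    · exact le_rfl
    · simpa using hμ0
  have hL : 0 ≤ μ * (|Real.log r| + 26) := by positivity
  refine ⟨μ * (|Real.log r| + 26) + B1, |C|, by linarith, abs_nonneg _,
    fun N n1 n2 j l S hN hBN hl h1 h1' h2 h2' hS ↦ ?_⟩
  have hX : 1 ≤ Real.exp (j + 1) := Real.one_le_exp (by positivity)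
  have hB1N : B1 ≤ N := by nlinarith
  have hXN : Real.exp (j + 1) ≤ N := by nlinarith
  have hw : ∀ s : ℂ, ‖s‖ ≤ 10 → ‖Complex.exp (ctr r j l + s)‖ < r := fun s hs ↦
    (norm_exp_ctr hr j l hs).trans_lt (by linarith)
  refine le_trans ?_ (mul_le_mul_of_nonneg_right (le_abs_self C) (by positivity))
  refine card_le_of_param S (fun s ↦ Complex.exp (ctr r j l + s)) (fun s ↦ ‖s‖ ≤ 1)
    (fun u hu ↦ (hS u hu).2) fun S' hS' ↦ ?_
  refine hC N (fun i s ↦ sl k m i * (ctr r j l + s) + g i (Complex.exp (ctr r j l + s))) n1 n2 S'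
    hN (fun i s hs ↦ ?_) (fun i s hs ↦ ⟨?_, ?_⟩) ((hCn j l hl).mono hX hXN fun _ ↦ le_rfl)
    h1 h1' h2 h2' fun s hs ↦ ?_
  · exact (c.analytic (hw s (mem_closedBall_zero_iff.1 hs)) i).fun_comp
      (f := fun s ↦ ctr r j l + s) (analyticAt_const.add analyticAt_id)
  · have b1 := (hb i _ (mem_closedBall_zero_iff.2 (norm_exp_ctr hr j l hs))).1
    have b2 := mul_le_mul (hsl i) (norm_ctr r j hl hs) (norm_nonneg _) hμ0
    refine (norm_add_le _ _).trans ?_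
    rw [norm_mul]
    nlinarith
  · by_cases hi : i = k
    · subst hi
      have b1 := (c.inf _ (hw s hs)).2.1
      simp only [sl, if_true]
      nlinarith
    · have b1 := (hb i _ (mem_closedBall_zero_iff.2 (norm_exp_ctr hr j l hs))).2 hi
      have b2 := (c.fin _ (mem_ball_zero_iff.2 (hw s hs)) i hi).1
      simp only [sl, if_neg hi, zero_mul, zero_add]
      exact b1.trans (mul_le_mul_of_nonneg_right hB1N b2.le)
  · obtain ⟨b1, b2⟩ := hS' s hs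
    obtain ⟨⟨-, b3, b4⟩, -⟩ := hS _ b2
    have b5 := c.val (hw s (by linarith))
    exact ⟨b1, rel_of_iso F (b5 0).1 (b5 1).1 (b5 0).2 (b5 1).2 b3,
      rel_of_iso F (b5 0).1 (b5 2).1 (b5 0).2 (b5 2).2 b4⟩

/-- the bound near a pole -/
theorem loc_cusp (F : Facts) (h : Adm A B) {ε : ℝ} (hε : 0 < ε) (hP : (B k).eval P = 0) :
    ∃ U ∈ 𝓝 P, Bd A B ε U := by
  classical
  obtain ⟨E, m, r, g, hE, -, hr, a1, a2, a3⟩ := F.chart_cusp A B h P k hP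
  have c : Cusp A B P k E m r g := ⟨hE, hr, a1, a2, a3⟩
  obtain ⟨B1, C1, hB1, h1⟩ := c.deep F h (ε := ε / 2) (by positivity)
  obtain ⟨B2, C2, hB2, hC2, h2⟩ := c.chart F h (ε := ε / 4 / 103) (by positivity)
  refine ⟨closedBall P ((r * Real.exp (-11)) ^ E), closedBall_mem_nhds _ (by positivity),
    (C1 + 9 * (102 / (ε / 4) + 1) * C2) * (B1 * B2) ^ (ε / 2),
    fun M n1 n2 S hM d1 d1' d2 d2' hS ↦ ?_⟩
  obtain ⟨n, hn, hn', hpair⟩ := pair_iso (A := A) (B := B) F k hM d1 d1' d2 d2'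
  set N : ℝ := B1 * B2 * M ^ 2 with hN
  have hB : 1 ≤ B1 * B2 := one_le_mul_of_one_le_of_one_le hB1 hB2
  have hM2 : 4 ≤ M ^ 2 := by nlinarith
  have hMN : M ^ 2 ≤ N := le_mul_of_one_le_left (by positivity) hB
  have hBN : B1 * B2 ≤ N := le_mul_of_one_le_right (by positivity) (by linarith)
  have hB1N : B1 ≤ N := (le_mul_of_one_le_right (by linarith) hB2).trans hBN
  have hB2N : B2 ≤ N := (le_mul_of_one_le_left (by linarith) hB1).trans hBN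
  have hMN' : M ≤ N := le_trans (by nlinarith) hMN
  have hN1 : 1 ≤ N := by linarith
  have hNN : N ≤ N ^ 103 := le_self_pow₀ hN1 (by norm_num)
  have e1 : N ^ (ε / 2) = (B1 * B2) ^ (ε / 2) * M ^ ε := by
    rw [hN, Real.mul_rpow (by positivity) (by positivity), ← Real.rpow_natCast M 2,
      ← Real.rpow_mul (by linarith)]
    congr 2
    push_cast
    ring
  have e2 : (N ^ 103) ^ (ε / 4 / 103) = N ^ (ε / 4) := by
    rw [← Real.rpow_natCast N 103, ← Real.rpow_mul (by linarith)]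
    congr 1
    push_cast
    ring
  have e3 : N ^ (ε / 4) * N ^ (ε / 4) = N ^ (ε / 2) := by
    rw [← Real.rpow_add (by linarith)]
    congr 1
    ring
  rw [mul_assoc, ← e1]
  refine card_le_of_param S (fun u ↦ P + u ^ E) (fun u ↦ ‖u‖ ≤ r * Real.exp (-11))
    (fun t ht ↦ ?_) fun S' hS' ↦ ?_
  · obtain ⟨u, hu, hu'⟩ := exists_root_le (t - P) hE (by positivity)
      (mem_closedBall_iff_norm.1 (hS t ht).1)
    exact ⟨u, hu, by simp [hu']⟩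
  have s1 := h1 N n (S'.filter fun u ↦ ‖u‖ ≤ r / 11 * (N ^ 102)⁻¹) (by linarith) hB1N hn
    (hn'.trans hMN) fun u hu ↦ ⟨(Finset.mem_filter.1 hu).2,
      hpair _ (hS _ (hS' u (Finset.mem_filter.1 hu).1).2).2⟩
  have s2 := card_le_of_cover (S'.filter fun u ↦ ¬ ‖u‖ ≤ r / 11 * (N ^ 102)⁻¹)
    (Finset.range ⌈102 * Real.log N⌉₊ ×ˢ Finset.Icc (-4 : ℤ) 4)
    (fun q u ↦ Real.exp (q.1 + 1) ≤ N ^ 102 ∧
      ∃ s, ‖s‖ ≤ 1 ∧ Complex.exp (ctr r q.1 q.2 + s) = u) (Q := C2 * N ^ (ε / 4))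
    (fun u hu ↦ by
      obtain ⟨b1, b2⟩ := Finset.mem_filter.1 hu
      have b3 : u ≠ 0 := by
        rintro rfl
        exact b2 (by rw [norm_zero]; positivity)
      obtain ⟨j, l, s, c1, c2, c3, c4⟩ := exists_ctr hr b3 (hS' u b1).1 (T := N ^ 102)
        (by positivity) (not_le.1 b2).le
      refine ⟨(j, l), Finset.mem_product.2 ⟨Finset.mem_range.2 ?_, Finset.mem_Icc.2 (abs_le.1 c1)⟩,
        c2, s, c3, c4⟩
      rw [← Real.le_log_iff_exp_le (by positivity), Real.log_pow] at c2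
      rw [Nat.lt_ceil]
      push_cast at c2
      linarith)
    fun q hq S'' hS'' ↦ by
      rcases S''.eq_empty_or_nonempty with rfl | ⟨u0, hu0⟩
      · simp only [Finset.card_empty, Nat.cast_zero]
        positivity
      rw [← e2]
      refine h2 (N ^ 103) n1 n2 q.1 q.2 S'' (by linarith) ?_
        (abs_le.2 (Finset.mem_Icc.1 (Finset.mem_product.1 hq).2)) d1 (by linarith) d2
        (by linarith) fun u hu ↦ ⟨(hS _ (hS' u (Finset.mem_filter.1 (hS'' u hu).1).1).2).2,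
          (hS'' u hu).2.2⟩
      rw [pow_succ' N 102]
      exact mul_le_mul hB2N (hS'' u0 hu0).2.1 (Real.exp_pos _).le (by linarith)
  have s3 : ((Finset.range ⌈102 * Real.log N⌉₊ ×ˢ Finset.Icc (-4 : ℤ) 4).card : ℝ) ≤
      9 * (102 / (ε / 4) + 1) * N ^ (ε / 4) := by
    rw [Finset.card_product, Finset.card_range]
    have t1 : (Finset.Icc (-4 : ℤ) 4).card = 9 := by simp
    have t2 := (Nat.ceil_lt_add_one (a := 102 * Real.log N)
      (mul_nonneg (by norm_num) (Real.log_nonneg hN1))).le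
    have t3 := Real.log_le_rpow_div (x := N) (ε := ε / 4) (by linarith) (by positivity)
    have t4 : 1 ≤ N ^ (ε / 4) := Real.one_le_rpow hN1 (by positivity)
    have t5 : 102 / (ε / 4) * N ^ (ε / 4) = 102 * (N ^ (ε / 4) / (ε / 4)) := by ring
    rw [t1]
    push_cast
    nlinarith
  have s4 := s2.trans (mul_le_mul_of_nonneg_right s3 (by positivity))
  have s5 := Finset.card_filter_add_card_filter_not (s := S')
    fun u ↦ ‖u‖ ≤ r / 11 * (N ^ 102)⁻¹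
  have s6 : (S'.card : ℝ) = (S'.filter fun u ↦ ‖u‖ ≤ r / 11 * (N ^ 102)⁻¹).card +
      (S'.filter fun u ↦ ¬ ‖u‖ ≤ r / 11 * (N ^ 102)⁻¹).card := by exact_mod_cast s5.symm
  rw [s6, add_mul]
  refine add_le_add s1 (s4.trans (le_of_eq ?_))
  rw [← e3]
  ring

theorem loc (F : Facts) (h : Adm A B) {ε : ℝ} (hε : 0 < ε) (t0 : ℂ) :
    ∃ U ∈ 𝓝 t0, Bd A B ε U := by
  by_cases ht : NP B t0
  · exact loc_reg F h hε ht
  · obtain ⟨k, hk⟩ := not_forall.1 ht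
    exact loc_cusp F h hε (not_not.1 hk)

theorem bd_univ (F : Facts) (h : Adm A B) {ε : ℝ} (hε : 0 < ε) : Bd A B ε Set.univ := by
  classical
  obtain ⟨t0, A', B', h', hn⟩ := F.normalize A B h
  obtain ⟨U, hU, C, hC⟩ := loc F h' hε 0
  obtain ⟨ρ, hρ, hball⟩ := Metric.mem_nhds_iff.1 hU
  have h1 : Bd A B ε (closedBall t0 ρ⁻¹) :=
    (isCompact_closedBall t0 ρ⁻¹).induction_on (Bd.empty ε) (fun _ _ a b ↦ b.mono a)
      (fun _ _ a b ↦ a.union b) fun x _ ↦ by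
        obtain ⟨V, hV, hb⟩ := loc F h hε x
        exact ⟨V, mem_nhdsWithin_of_mem_nhds hV, hb⟩
  have h2 : Bd A B ε (closedBall t0 ρ⁻¹)ᶜ := by
    refine ⟨C, fun M n1 n2 S hM d1 d1' d2 d2' hS ↦ ?_⟩
    have hinj : Function.Injective fun t : ℂ ↦ (t - t0)⁻¹ := fun t t' htt ↦
      sub_left_injective (inv_injective htt)
    rw [← Finset.card_image_of_injective S hinj]
    refine hC M n1 n2 _ hM d1 d1' d2 d2' fun s hs ↦ ?_
    obtain ⟨t, ht, rfl⟩ := Finset.mem_image.1 hs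
    obtain ⟨b1, b2, b3, b4⟩ := hS t ht
    have b5 : ρ⁻¹ < ‖t - t0‖ := not_le.1 fun hh ↦ b1 (mem_closedBall_iff_norm.2 hh)
    have b6 : t ≠ t0 := by
      rintro rfl
      rw [sub_self, norm_zero] at b5
      exact absurd b5 (not_lt.2 (by positivity))
    obtain ⟨b7, b8⟩ := hn t b6 b2
    refine ⟨hball ?_, b7, ?_, ?_⟩
    · rw [mem_ball_zero_iff, norm_inv]
      exact inv_lt_of_inv_lt₀ hρ b5
    · rw [b8, b8]
      exact b3
    · rw [b8, b8]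
      exact b4
  exact (h1.union h2).mono (by simp)

theorem count (F : Facts) (h : Adm A B) {ε : ℝ} (hε : 0 < ε) :
    ∃ C : ℝ, ∀ (M : ℝ) (n1 n2 : ℕ) (S : Finset ℂ), 2 ≤ M → 0 < n1 → (n1 : ℝ) ≤ M → 0 < n2 →
      (n2 : ℝ) ≤ M → (∀ t ∈ S, NP B t ∧ Iso n1 (xv A B 0 t) (xv A B 1 t) ∧
        Iso n2 (xv A B 0 t) (xv A B 2 t)) → (S.card : ℝ) ≤ C * M ^ ε := by
  obtain ⟨C, hC⟩ := bd_univ F h hε
  exact ⟨C, fun M n1 n2 S a b c d e f ↦ hC M n1 n2 S a b c d e fun t ht ↦ ⟨trivial, f t ht⟩⟩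

end CNT

end Pool.Agent.Lib.ZP3
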