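import Pool.Agent.Lib.ZP3.NdCusp
import Pool.Agent.Lib.ZP3.Defs2

/-! Block ND2: scale-free nondegeneracy of compact charts and of cusp charts. -/

open Filter Topology Metric Finset
open scoped Real

namespace Pool.Agent.Lib.ZP3

section ND2
variable {κ : Type} [Fintype κ]

omit [Fintype κ] in
theorem NDegC.mono {f : κ → ℂ → ℂ} {Cn Cn' : ℕ → ℕ} (h : NDegC f Cn) (hC : ∀ e, Cn e ≤ Cn' e) :
    NDegC f Cn' := by
  intro e c hc he
  obtain ⟨s0, a1, a2, a3⟩ := h e c hc he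
  refine ⟨s0, a1, a2, fun s hs ↦ (a3 s hs).trans ?_⟩
  gcongr
  · norm_num
  · exact hC e

theorem nd_compactC {f : κ → ℂ → ℂ} (hf : ∀ i, AnalyticOnNhd ℂ (f i) (closedBall 0 10))
    (hind : ∀ c : MvPolynomial κ ℂ,
      (∀ s : ℂ, ‖s‖ ≤ 2 → MvPolynomial.eval (fun i ↦ f i s) c = 0) → c = 0) :
    ∃ Cn : ℕ → ℕ, NDegC f Cn := by
  classical
  have key : ∀ e : ℕ, ∃ n : ℕ, ∀ c : MvPolynomial κ ℂ, c ≠ 0 → c.totalDegree ≤ e →
      ∃ s0 : ℂ, ‖s0‖ ≤ 2 ∧ MvPolynomial.eval (fun i ↦ f i s0) c ≠ 0 ∧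
        ∀ s : ℂ, ‖s‖ ≤ 10 → ‖MvPolynomial.eval (fun i ↦ f i s) c‖ ≤
          2 ^ n * ‖MvPolynomial.eval (fun i ↦ f i s0) c‖ := by
    intro e
    let I : Finset (κ →₀ ℕ) := (Finsupp.finite_of_degree_le (σ := κ) e).toFinset
    let pol : (I → ℂ) →ₗ[ℂ] MvPolynomial κ ℂ :=
      ∑ m : I, (MvPolynomial.monomial m.1).comp (LinearMap.proj m)
    have hpol : ∀ v, pol v = ∑ m : I, MvPolynomial.monomial m.1 (v m) := fun v ↦ by simp [pol]
    have hco : ∀ v (m : I), (pol v).coeff m.1 = v m := by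
      intro v m
      rw [hpol, MvPolynomial.coeff_sum, Finset.sum_eq_single m]
      · simp
      · intro m' _ hm'
        rw [MvPolynomial.coeff_monomial, if_neg fun e ↦ hm' (Subtype.ext e)]
      · simp
    let Θ : (I → ℂ) →ₗ[ℂ] (ℂ → ℂ) :=
      LinearMap.pi fun s ↦ (MvPolynomial.aeval (fun i ↦ f i s)).toLinearMap.comp pol
    obtain ⟨C, hC0, hC⟩ := AN.FD Θ
      (fun v ↦ (AnalyticOnNhd.aeval_mvPolynomial (f := fun s i ↦ f i s) hf (pol v)).continuousOn)
      (fun v hv ↦ by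
        have := hind (pol v) hv
        funext m
        rw [← hco v m, this]
        simp)
    obtain ⟨n, hn⟩ := pow_unbounded_of_one_lt (C * C) (by norm_num : (1 : ℝ) < 2)
    refine ⟨n, fun c hc he ↦ ?_⟩
    let v : I → ℂ := fun m ↦ c.coeff m.1
    have hsup : ∀ m ∈ c.support, m ∈ I := fun m hm ↦ by
      simp only [I, Set.Finite.mem_toFinset, Set.mem_ofPred_eq]
      exact (MvPolynomial.le_totalDegree hm).trans he
    have hv : pol v = c := by
      ext m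
      by_cases hm : m ∈ I
      · exact hco v ⟨m, hm⟩
      · rw [MvPolynomial.notMem_support_iff.1 fun h ↦ hm (hsup m h), hpol,
          MvPolynomial.coeff_sum]
        refine Finset.sum_eq_zero fun m' _ ↦ ?_
        rw [MvPolynomial.coeff_monomial, if_neg fun e : m'.1 = m ↦ hm (e ▸ m'.2)]
    have hΘ : ∀ s, Θ v s = MvPolynomial.eval (fun i ↦ f i s) c := fun s ↦ by
      simp only [Θ, LinearMap.pi_apply, LinearMap.comp_apply, hv, AlgHom.toLinearMap_apply]
      rfl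
    obtain ⟨s0, a1, a2, a3⟩ := hC v
    simp only [hΘ] at a2 a3
    obtain ⟨m, hm⟩ := MvPolynomial.support_nonempty.2 hc
    have b1 : 0 < ‖v‖ :=
      lt_of_lt_of_le (norm_pos_iff.mpr (MvPolynomial.mem_support_iff.1 hm))
        (norm_le_pi_norm v ⟨m, hsup m hm⟩)
    refine ⟨s0, a1, fun h0 ↦ ?_, fun s hs ↦ (a3 s hs).trans ?_⟩
    · rw [h0, norm_zero, mul_zero] at a2
      linarith
    · calc _ ≤ C * (C * ‖MvPolynomial.eval (fun i ↦ f i s0) c‖) := by gcongr
        _ ≤ _ := by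
          rw [← mul_assoc]
          gcongr
  choose Cn hCn using key
  exact ⟨Cn, fun e c hc he ↦ hCn e c hc he⟩

theorem nd_cuspC (g : κ → ℂ → ℂ) (m : κ → ℂ) {r : ℝ} (hr : 0 < r)
    (hg : ∀ i, AnalyticOnNhd ℂ (g i) (ball 0 r))
    (hind : ∀ c : MvPolynomial κ ℂ, (∀ w : ℂ, ‖Complex.exp w‖ < r →
      MvPolynomial.eval (fun i ↦ m i * w + g i (Complex.exp w)) c = 0) → c = 0) :
    ∃ Cn : ℕ → ℕ, ∀ (k : ℕ) (l : ℤ), |l| ≤ 4 →
      NDegC (fun i s ↦ m i * ((Real.log r - 11 - k : ℝ) + l * Complex.I + s) +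
        g i (Complex.exp ((Real.log r - 11 - k : ℝ) + l * Complex.I + s))) Cn := by
  classical
  have key : ∀ e : ℕ, ∃ N : ℕ, ∀ (k : ℕ) (l : ℤ), |l| ≤ 4 → ∀ c : MvPolynomial κ ℂ, c ≠ 0 →
      c.totalDegree ≤ e → ∃ s0 : ℂ, ‖s0‖ ≤ 2 ∧
        MvPolynomial.eval (fun i ↦ m i * ((Real.log r - 11 - k : ℝ) + l * Complex.I + s0) +
          g i (Complex.exp ((Real.log r - 11 - k : ℝ) + l * Complex.I + s0))) c ≠ 0 ∧
        ∀ s : ℂ, ‖s‖ ≤ 10 →
          ‖MvPolynomial.eval (fun i ↦ m i * ((Real.log r - 11 - k : ℝ) + l * Complex.I + s) +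
            g i (Complex.exp ((Real.log r - 11 - k : ℝ) + l * Complex.I + s))) c‖ ≤ 2 ^ N *
          ‖MvPolynomial.eval (fun i ↦ m i * ((Real.log r - 11 - k : ℝ) + l * Complex.I + s0) +
            g i (Complex.exp ((Real.log r - 11 - k : ℝ) + l * Complex.I + s0))) c‖ := by
    intro e
    let I : Finset (κ →₀ ℕ) := (Finsupp.finite_of_degree_le (σ := κ) e).toFinset
    have hI : ∀ d : I, ∑ i, d.1 i ≤ e := fun d ↦ by
      have := d.2
      simp only [I, Set.Finite.mem_toFinset, Set.mem_ofPred_eq] at this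
      rwa [Finsupp.degree_eq_sum] at this
    choose γ hγ1 hγ2 using fun d : I ↦ NDC.decomp g m hg e d.1 (hI d)
    have hF : ∀ (v : I → ℂ) (w : ℂ), NDC.FF γ v w =
        ∑ d : I, v d * ∏ i, (m i * w + g i (Complex.exp w)) ^ d.1 i := fun v w ↦ by
      unfold NDC.FF
      simp only [hγ2]
    obtain ⟨N, hN⟩ := NDC.all hr hγ1 fun v hv ↦ by
      have h1 := hind (∑ d : I, MvPolynomial.monomial d.1 (v d)) fun w hw ↦ by
        rw [← hv w hw, hF, map_sum]
        refine sum_congr rfl fun d _ ↦ ?_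
        rw [MvPolynomial.eval_monomial, Finsupp.prod_fintype _ _ (by simp)]
      funext d
      have h2 := congrArg (MvPolynomial.coeff d.1) h1
      rw [MvPolynomial.coeff_sum, Finset.sum_eq_single d] at h2
      · simpa using h2
      · intro d' _ hd'
        rw [MvPolynomial.coeff_monomial, if_neg fun e ↦ hd' (Subtype.ext e)]
      · simp
    refine ⟨N, fun k l hl c hc he ↦ ?_⟩
    let v : I → ℂ := fun d ↦ c.coeff d.1
    have hsup : c.support ⊆ I := fun d hd ↦ by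
      simp only [I, Set.Finite.mem_toFinset, Set.mem_ofPred_eq]
      exact (MvPolynomial.le_totalDegree hd).trans he
    have hv : ∀ w : ℂ, NDC.FF γ v w =
        MvPolynomial.eval (fun i ↦ m i * w + g i (Complex.exp w)) c := fun w ↦ by
      rw [hF, MvPolynomial.eval_eq', sum_coe_sort I
        (fun d ↦ c.coeff d * ∏ i, (m i * w + g i (Complex.exp w)) ^ d i)]
      refine (sum_subset hsup fun d _ hd ↦ ?_).symm
      rw [MvPolynomial.notMem_support_iff.1 hd]; simp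
    obtain ⟨s0, a1, a2, a3⟩ := hN k l hl v
    simp only [hv] at a2 a3
    obtain ⟨d, hd⟩ := MvPolynomial.support_nonempty.2 hc
    have b1 : 0 < ‖v‖ :=
      lt_of_lt_of_le (norm_pos_iff.mpr (MvPolynomial.mem_support_iff.1 hd))
        (norm_le_pi_norm v ⟨d, hsup hd⟩)
    refine ⟨s0, a1, fun h0 ↦ ?_, a3⟩
    rw [h0, norm_zero, mul_zero] at a2
    linarith
  choose Cn hCn using key
  exact ⟨Cn, fun k l hl e c hc he ↦ hCn e k l hl c hc he⟩

end ND2

end Pool.Agent.Lib.ZP3
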