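import Pool.Agent.Lib.ZP3.Reduce
import Pool.Agent.Lib.ZP3.Defs2

/-! Block RED2: reduction of monomials with an error term, and relations by a dimension count. -/

open Finset

namespace Pool.Agent.Lib.ZP3

open Red

namespace RED2

theorem norm_mon_le {y : Fin 8 → ℂ} {Y : ℝ} (hY : 1 ≤ Y) (hy : ∀ i, ‖y i‖ ≤ Y) (e : ℕ)
    (γ : Fin 8 →₀ ℕ) : ‖∏ i, y i ^ γ i‖ ≤ Y ^ wt e γ := by
  refine le_trans ?_ (pow_le_pow_right₀ hY (sum_le_wt e γ))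
  rw [norm_prod, ← prod_pow_eq_pow_sum]
  exact prod_le_prod (fun _ _ ↦ norm_nonneg _) fun i _ ↦
    (norm_pow _ _).trans_le (pow_le_pow_left₀ (norm_nonneg _) (hy i) _)

theorem step {K Y : ℝ} (hK : 1 ≤ K) (hY : 1 ≤ Y) {v w : ℕ} (h : v < w) :
    K * (2 * K * Y) ^ v ≤ (2 * K * Y) ^ w - Y ^ w := by
  obtain ⟨w, rfl⟩ : ∃ u, w = u + 1 := ⟨w - 1, by omega⟩
  have h1 : 1 ≤ K * Y := one_le_mul_of_one_le_of_one_le hK hY
  have a1 : (2 * K * Y) ^ v ≤ (2 * K * Y) ^ w := pow_le_pow_right₀ (by linarith) (by omega)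
  have a2 : Y ^ w ≤ (2 * K * Y) ^ w := pow_le_pow_left₀ (by linarith) (by nlinarith) _
  have a3 : K + Y ≤ 2 * K * Y := by nlinarith
  have a4 : 0 ≤ (2 * K * Y) ^ w := by positivity
  rw [pow_succ, pow_succ]
  nlinarith [mul_le_mul_of_nonneg_left a3 a4]

theorem aux (m e W : ℕ) (𝒜 : Subring (ℂ → ℂ)) (D : Set ℂ) (S : Finset ℂ)
    (y : ℂ → Fin 8 → ℂ) (K θ Y : ℝ) (hK : 1 ≤ K) (hθ : 0 ≤ θ) (hY : 1 ≤ Y)
    (hy : ∀ s ∈ S, s ∈ D ∧ ∀ i, ‖y s i‖ ≤ Y)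
    (h : ∀ I : Finset (Fin 8), I.card = m + 1 → ∃ (l : Fin 8 →₀ ℕ) (T : Finset (Fin 8 →₀ ℕ))
      (ρ : (Fin 8 →₀ ℕ) → ℂ → ℂ), l.support ⊆ I ∧ (∀ i, l i ≤ e) ∧
      (∀ α ∈ T, ρ α ∈ 𝒜 ∧ wt e α < wt e l) ∧ (∀ s ∈ D, ∑ α ∈ T, ‖ρ α s‖ ≤ K) ∧
      ∀ s ∈ S, ‖∏ i, y s i ^ l i - ∑ α ∈ T, ρ α s * ∏ i, y s i ^ α i‖ ≤ θ) :
    ∀ (w : ℕ) (γ : Fin 8 →₀ ℕ), wt e γ = w → w ≤ W →
      ∃ a : (Fin 8 →₀ ℕ) → ℂ → ℂ, (∀ β, a β ∈ 𝒜) ∧
        (∀ s ∈ D, ∑ β ∈ std m e W, ‖a β s‖ ≤ K ^ w) ∧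
        ∀ s ∈ S, ‖∏ i, y s i ^ γ i - ∑ β ∈ std m e W, a β s * ∏ i, y s i ^ β i‖ ≤
          θ * (2 * K * Y) ^ w := by
  classical
  intro w
  induction w using Nat.strong_induction_on with
  | _ w ih =>
  intro γ hγ hW
  have hK0 : 0 < K := by linarith
  by_cases hs : (univ.filter fun i ↦ e ≤ γ i).card ≤ m
  · have hmem : γ ∈ std m e W := mem_std.2 ⟨hγ ▸ hW, hs⟩
    refine ⟨fun β ↦ if β = γ then 1 else 0, fun β ↦ ?_, fun s _ ↦ ?_, fun s _ ↦ ?_⟩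
    · dsimp only
      split_ifs
      exacts [𝒜.one_mem, 𝒜.zero_mem]
    · rw [sum_eq_single_of_mem γ hmem fun β _ hβ ↦ by simp [hβ]]
      simpa using one_le_pow₀ hK
    · rw [sum_eq_single_of_mem γ hmem fun β _ hβ ↦ by simp [hβ]]
      simpa using (by positivity : 0 ≤ θ * (2 * K * Y) ^ w)
  · obtain ⟨I, hI, hIc⟩ := exists_subset_card_eq (s := univ.filter fun i ↦ e ≤ γ i)
      (n := m + 1) (by omega)
    obtain ⟨l, T, ρ, hl, hle, hT, hD, hS⟩ := h I hIc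
    have hlγ : l ≤ γ := fun i ↦ by
      by_cases hi : l i = 0
      · simp [hi]
      · exact (hle i).trans (mem_filter.1 (hI (hl (Finsupp.mem_support_iff.2 hi)))).2
    obtain ⟨γ', rfl⟩ := exists_add_of_le hlγ
    have hlt : ∀ α ∈ T, wt e (α + γ') < w := fun α hα ↦ by
      have := (hT α hα).2
      rw [← hγ, wt_add, wt_add]
      omega
    choose! a ha using fun α (hα : α ∈ T) ↦
      ih _ (hlt α hα) (α + γ') rfl ((hlt α hα).le.trans hW)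
    have key : ∀ s ∈ D, ∀ (g : (Fin 8 →₀ ℕ) → ℝ) (c : ℝ), 0 ≤ c → (∀ α ∈ T, K * g α ≤ c) →
        ∑ α ∈ T, ‖ρ α s‖ * g α ≤ c := fun s hs g c hc hg ↦ by
      refine le_of_mul_le_mul_left ?_ hK0
      calc _ = ∑ α ∈ T, ‖ρ α s‖ * (K * g α) := by
            rw [mul_sum]; exact sum_congr rfl fun α _ ↦ by ring
        _ ≤ ∑ α ∈ T, ‖ρ α s‖ * c :=
            sum_le_sum fun α hα ↦ mul_le_mul_of_nonneg_left (hg α hα) (norm_nonneg _)
        _ ≤ K * c := by rw [← sum_mul]; exact mul_le_mul_of_nonneg_right (hD s hs) hc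
    refine ⟨fun β ↦ ∑ α ∈ T, ρ α * a α β, fun β ↦ ?_, fun s hs ↦ ?_, fun s hs ↦ ?_⟩
    · exact 𝒜.sum_mem fun α hα ↦ 𝒜.mul_mem (hT α hα).1 ((ha α hα).1 β)
    · refine le_trans ?_ (key s hs (fun α ↦ ∑ β ∈ std m e W, ‖a α β s‖) _ (by positivity)
        fun α hα ↦ ?_)
      · simp only [mul_sum]
        rw [sum_comm]
        refine sum_le_sum fun β _ ↦ ?_
        rw [Finset.sum_apply]
        exact (norm_sum_le _ _).trans (by simp)
      · refine (mul_le_mul_of_nonneg_left ((ha α hα).2.1 s hs) hK0.le).trans ?_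
        rw [← pow_succ']
        exact pow_le_pow_right₀ hK (hlt α hα)
    · have e1 : ∏ i, y s i ^ (l + γ') i - ∑ β ∈ std m e W, (∑ α ∈ T, ρ α * a α β) s *
          ∏ i, y s i ^ β i = (∏ i, y s i ^ l i - ∑ α ∈ T, ρ α s * ∏ i, y s i ^ α i) *
          ∏ i, y s i ^ γ' i + ∑ α ∈ T, ρ α s * (∏ i, y s i ^ (α + γ') i -
            ∑ β ∈ std m e W, a α β s * ∏ i, y s i ^ β i) := by
        simp only [prod_pow_add, Finset.sum_apply, Pi.mul_apply, sum_mul, mul_sub, sub_mul,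
          sum_sub_distrib, mul_sum, mul_assoc]
        rw [sum_comm]
        ring
      have a1 : Y ^ wt e γ' ≤ Y ^ w := pow_le_pow_right₀ hY (by rw [← hγ, wt_add]; omega)
      have a2 : Y ^ w ≤ (2 * K * Y) ^ w := pow_le_pow_left₀ (by linarith) (by nlinarith) _
      have a3 := key s (hy s hs).1 (fun α ↦ ‖∏ i, y s i ^ (α + γ') i -
        ∑ β ∈ std m e W, a α β s * ∏ i, y s i ^ β i‖) (θ * ((2 * K * Y) ^ w - Y ^ w))
        (mul_nonneg hθ (by linarith)) fun α hα ↦ by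
          refine (mul_le_mul_of_nonneg_left ((ha α hα).2.2 s hs) hK0.le).trans ?_
          rw [mul_left_comm]
          exact mul_le_mul_of_nonneg_left (step hK hY (hlt α hα)) hθ
      have a4 := mul_le_mul (hS s hs) ((norm_mon_le hY (hy s hs).2 e γ').trans a1)
        (norm_nonneg _) hθ
      rw [e1]
      refine (norm_add_le _ _).trans ((add_le_add (norm_mul_le _ _)
        (norm_sum_le_of_le _ fun α _ ↦ norm_mul_le _ _)).trans ?_)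
      linarith

section span

open Submodule
open scoped Pointwise

variable {A : Type} [CommRing A] [Algebra ℂ A] {ι : Type} [Fintype ι]

/-- the span of the monomials of degree at most `n` -/
def M (x : ι → A) (n : ℕ) : Submodule ℂ A :=
  span ℂ {a | ∃ γ : ι → ℕ, ∑ i, γ i ≤ n ∧ a = ∏ i, x i ^ γ i}

theorem mon_mem (x : ι → A) {n : ℕ} {γ : ι → ℕ} (h : ∑ i, γ i ≤ n) : ∏ i, x i ^ γ i ∈ M x n :=
  subset_span ⟨γ, h, rfl⟩

theorem one_mem_M (x : ι → A) (n : ℕ) : 1 ∈ M x n := by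
  simpa using mon_mem x (n := n) (γ := 0) (by simp)

theorem x_mem (x : ι → A) (i : ι) : x i ∈ M x 1 := by
  classical
  simpa [Pi.single_apply, apply_ite] using mon_mem x (n := 1) (γ := Pi.single i 1) (by simp)

theorem M_mul (x : ι → A) (a b : ℕ) : M x a * M x b ≤ M x (a + b) := by
  rw [M, M, span_mul_span]
  refine span_mono ?_
  rintro _ ⟨_, ⟨γ, h, rfl⟩, _, ⟨γ', h', rfl⟩, rfl⟩
  refine ⟨γ + γ', ?_, by simp [pow_add, prod_mul_distrib]⟩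
  simpa [sum_add_distrib] using add_le_add h h'

/-- `V` lies in the span of at most `n` vectors -/
def Sp (V : Submodule ℂ A) (n : ℕ) : Prop := ∃ G : Finset A, G.card ≤ n ∧ V ≤ span ℂ (G : Set A)

theorem Sp.mul {V V' : Submodule ℂ A} {n n' : ℕ} (h : Sp V n) (h' : Sp V' n') :
    Sp (V * V') (n * n') := by
  classical
  obtain ⟨G, h1, h2⟩ := h
  obtain ⟨G', h1', h2'⟩ := h'
  refine ⟨G * G', card_mul_le.trans (Nat.mul_le_mul h1 h1'), ?_⟩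
  rw [coe_mul, ← span_mul_span]
  exact mul_le_mul' h2 h2'

theorem sp_M (x : ι → A) (n : ℕ) : Sp (M x n) ((n + 1) ^ Fintype.card ι) := by
  classical
  refine ⟨(Fintype.piFinset fun _ ↦ range (n + 1)).image fun γ : ι → ℕ ↦ ∏ i, x i ^ γ i,
    card_image_le.trans (by simp), span_mono ?_⟩
  rintro _ ⟨γ, h, rfl⟩
  exact mem_coe.2 (mem_image_of_mem _ (Fintype.mem_piFinset.2 fun i ↦ mem_range.2
    (Nat.lt_succ_of_le ((single_le_sum (fun _ _ ↦ Nat.zero_le _) (mem_univ i)).trans h))))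

theorem sp_pair (t : A) : Sp (span ℂ {1, t}) 2 := by
  classical
  exact ⟨{1, t}, card_le_two, by simp⟩

theorem Sp.rel {V : Submodule ℂ A} {n : ℕ} (h : Sp V n) {X : Type} [Fintype X] (v : X → A)
    (hv : ∀ x, v x ∈ V) (hn : n < Fintype.card X) :
    ∃ p : X → ℂ, ∑ x, p x • v x = 0 ∧ ∃ x, p x ≠ 0 := by
  obtain ⟨G, h1, h2⟩ := h
  obtain ⟨p, hp, h0⟩ := Fintype.not_linearIndependent_iff.1
    fun hl : LinearIndependent ℂ fun x ↦ (⟨v x, h2 (hv x)⟩ : span ℂ (G : Set A)) ↦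
      absurd (hl.fintype_card_le_finrank.trans ((finrank_span_finset_le_card G).trans h1))
        hn.not_ge
  exact ⟨p, by simpa using congrArg Subtype.val hp, h0⟩

theorem clear (U : ℕ → Submodule ℂ A) (hU : ∀ a b, U a * U b ≤ U (a + b)) (h1 : 1 ∈ U 0)
    {D t : A} (hD : D ∈ U 1) (ht : D * t ∈ U 1 * span ℂ {1, t})
    (ht2 : D * t * t ∈ U 1 * span ℂ {1, t}) {b k : ℕ} (hb : b ≤ k) :
    D ^ k * t ^ b ∈ U k * span ℂ {1, t} := by
  have a0 : ∀ (a b : ℕ) (u z : A), u ∈ U a → z ∈ U b * span ℂ {1, t} →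
      u * z ∈ U (a + b) * span ℂ {1, t} := fun a b u z hu hz ↦ by
    have := mul_mem_mul hu hz
    rw [← mul_assoc] at this
    exact mul_le_mul' (hU a b) le_rfl this
  have a1 : ∀ b : ℕ, (D * t) ^ b ∈ U b * span ℂ {1, t} := fun b ↦ by
    induction b with
    | zero => simpa using mul_mem_mul h1 (subset_span (R := ℂ) (Set.mem_insert (1 : A) {t}))
    | succ b ih =>
      rw [pow_succ]
      refine Submodule.mul_induction_on (C := fun z ↦ z * (D * t) ∈ U (b + 1) * span ℂ {1, t}) ih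
        (fun u hu q hq ↦ ?_) fun z z' hz hz' ↦ add_mul z z' _ ▸ add_mem hz hz'
      obtain ⟨c, d, rfl⟩ := mem_span_pair.1 hq
      rw [mul_assoc]
      refine a0 b 1 _ _ hu ?_
      rw [add_mul, smul_mul_assoc, smul_mul_assoc, one_mul, mul_comm t]
      exact add_mem (smul_mem _ _ ht) (smul_mem _ _ ht2)
  have a2 : ∀ c : ℕ, D ^ c ∈ U c := fun c ↦ by
    induction c with
    | zero => simpa using h1
    | succ c ih => exact pow_succ D c ▸ hU _ _ (mul_mem_mul ih hD)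
  obtain ⟨c, rfl⟩ := Nat.exists_eq_add_of_le' hb
  rw [pow_add, mul_assoc, ← mul_pow]
  exact a0 _ _ _ _ (a2 c) (a1 b)

end span

theorem sp_Y (m e : ℕ) : ∃ c : ℕ, ∀ (y : ℂ → Fin 8 → ℤ) (S : Finset ℂ), Hyp y S m e → ∀ n : ℕ,
    Sp (M (fun i (s : S) ↦ (y s i : ℂ)) n) (c * (n + 1) ^ m) := by
  classical
  obtain ⟨c, -, hred⟩ := reduce m e
  refine ⟨c, fun y S hH n ↦ ?_⟩
  obtain ⟨Bs, hcard, -, hB⟩ := hred (Pi.constRingHom ℂ ℂ).range ∅ S (fun s i ↦ (y s i : ℂ)) 1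
    le_rfl (fun I hI ↦ by
      obtain ⟨Q, hQ0, hQv, hQd, hQS⟩ := hH I hI
      have hle : ∀ α ∈ Q.support, ∀ i, α i ≤ e := fun α hα i ↦
        (single_le_sum (f := fun i ↦ α i) (fun _ _ ↦ Nat.zero_le _)
          (mem_univ i)).trans ((sum_le_totalDegree hα).trans hQd)
      obtain ⟨l, hl, hmax⟩ := exists_lead e Q.support (MvPolynomial.support_nonempty.2 hQ0) hle
      have hl0 : ((Q.coeff l : ℤ) : ℂ) ≠ 0 := by
        exact_mod_cast MvPolynomial.mem_support_iff.1 hl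
      refine ⟨l, Q.support.erase l, fun α _ ↦ -((Q.coeff l : ℤ) : ℂ)⁻¹ * ((Q.coeff α : ℤ) : ℂ),
        fun i hi ↦ hQv ((MvPolynomial.mem_vars_iff_mem_support i).2 ⟨l, hl, hi⟩), hle l hl,
        fun α hα ↦ ⟨⟨_, rfl⟩, hmax α (mem_of_mem_erase hα) (ne_of_mem_erase hα)⟩,
        fun s hs ↦ absurd hs (Set.notMem_empty s), fun s hs ↦ ?_⟩
      have h1 := cast_eval (y s) Q
      rw [hQS s hs, ← add_sum_erase _ _ hl, Int.cast_zero] at h1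
      simp only [mul_assoc, ← mul_sum]
      field_simp
      linear_combination -h1) n
  refine ⟨Bs.image fun β (s : S) ↦ ∏ i, (y s i : ℂ) ^ β i, card_image_le.trans hcard,
    Submodule.span_le.2 ?_⟩
  rintro _ ⟨γ, hγ, rfl⟩
  obtain ⟨a, ha, -, ha'⟩ := hB (Finsupp.equivFunOnFinite.symm γ) hγ
  choose a0 ha0 using ha
  have : (∏ i, (fun (s : S) ↦ (y s i : ℂ)) ^ γ i) =
      ∑ β ∈ Bs, a0 β • fun s : S ↦ ∏ i, (y s i : ℂ) ^ β i := funext fun s ↦ by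
    simpa [← ha0] using ha' s s.2
  rw [this]
  exact sum_mem fun β hβ ↦ Submodule.smul_mem _ _
    (Submodule.subset_span (mem_coe.2 (mem_image_of_mem _ hβ)))

theorem exists_D {κ : Type} [DecidableEq κ] {S : Type} (T : S → κ → ℂ) (a b c d : S → ℤ)
    (s : κ ⊕ ℂ) (j : κ) (V W : Submodule ℂ (S → ℂ)) (ha : (fun x ↦ (a x : ℂ)) ∈ V)
    (hb : (fun x ↦ (b x : ℂ)) ∈ V) (hc : (fun x ↦ (c x : ℂ)) ∈ V) (hd : (fun x ↦ (d x : ℂ)) ∈ V)
    (h1 : 1 ∈ W) (hs : s ≠ Sum.inl j → (fun x ↦ sv (T x) s) ∈ W)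
    (hm : ∀ x, Mob (a x) (b x) (c x) (d x) (sv (T x) s) (T x j))
    (h2 : ∀ x, (c x : ℂ) * sv (T x) s + d x ≠ 0) (h3 : ∀ x, s = Sum.inl j → c x ≠ 0) :
    ∃ D : S → ℂ, (∀ x, D x ≠ 0) ∧ D ∈ V * W ∧
      D * (fun x ↦ T x j) ∈ V * W * Submodule.span ℂ {1, fun x ↦ T x j} ∧
      D * (fun x ↦ T x j) * (fun x ↦ T x j) ∈ V * W * Submodule.span ℂ {1, fun x ↦ T x j} := by
  have q1 : (1 : S → ℂ) ∈ Submodule.span ℂ {1, fun x ↦ T x j} :=
    Submodule.subset_span (Set.mem_insert _ _)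
  have q2 : (fun x ↦ T x j) ∈ Submodule.span ℂ {1, fun x ↦ T x j} :=
    Submodule.subset_span (Set.mem_insert_of_mem _ rfl)
  have v1 : ∀ {v}, v ∈ V → v ∈ V * W := fun hv ↦ by simpa using Submodule.mul_mem_mul hv h1
  by_cases h : s = Sum.inl j
  · refine ⟨fun x ↦ c x, fun x ↦ Int.cast_ne_zero.2 (h3 x h), v1 hc,
      Submodule.mul_mem_mul (v1 hc) q2, ?_⟩
    convert add_mem (Submodule.mul_mem_mul (v1 (sub_mem ha hd)) q2)
      (Submodule.mul_mem_mul (v1 hb) q1) using 1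
    funext x
    have := hm x
    simp only [h, Mob, sv, Sum.elim_inl] at this
    simp only [Pi.mul_apply, Pi.add_apply, Pi.sub_apply, Pi.one_apply]
    linear_combination this
  · have e : ((fun x ↦ (c x : ℂ)) * (fun x ↦ sv (T x) s) + fun x ↦ (d x : ℂ)) * (fun x ↦ T x j) =
        (fun x ↦ (a x : ℂ)) * (fun x ↦ sv (T x) s) + fun x ↦ (b x : ℂ) :=
      funext fun x ↦ (mul_comm _ _).trans (hm x)
    have w1 := add_mem (Submodule.mul_mem_mul hc (hs h)) (v1 hd)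
    refine ⟨_, h2, w1, Submodule.mul_mem_mul w1 q2, Submodule.mul_mem_mul ?_ q2⟩
    exact e ▸ add_mem (Submodule.mul_mem_mul ha (hs h)) (v1 hb)

end RED2

open RED2

theorem reduce2 (m e : ℕ) : ∃ c : ℕ, 0 < c ∧ ∀ (𝒜 : Subring (ℂ → ℂ)) (D : Set ℂ) (S : Finset ℂ)
    (y : ℂ → Fin 8 → ℂ) (K θ Y : ℝ), 1 ≤ K → 0 ≤ θ → 1 ≤ Y →
    (∀ s ∈ S, s ∈ D ∧ ∀ i, ‖y s i‖ ≤ Y) →
    (∀ I : Finset (Fin 8), I.card = m + 1 → ∃ (l : Fin 8 →₀ ℕ) (T : Finset (Fin 8 →₀ ℕ))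
      (ρ : (Fin 8 →₀ ℕ) → ℂ → ℂ), l.support ⊆ I ∧ (∀ i, l i ≤ e) ∧
      (∀ α ∈ T, ρ α ∈ 𝒜 ∧
        ∑ i : Fin 8, (e + 1) ^ (i : ℕ) * α i < ∑ i : Fin 8, (e + 1) ^ (i : ℕ) * l i) ∧
      (∀ s ∈ D, ∑ α ∈ T, ‖ρ α s‖ ≤ K) ∧
      ∀ s ∈ S, ‖∏ i, y s i ^ l i - ∑ α ∈ T, ρ α s * ∏ i, y s i ^ α i‖ ≤ θ) →
    ∀ n : ℕ, ∃ (Bs : Finset (Fin 8 →₀ ℕ)), Bs.card ≤ c * (n + 1) ^ m ∧
      (∀ β ∈ Bs, ∑ i, β i ≤ c * n) ∧ ∀ γ : Fin 8 →₀ ℕ, ∑ i, γ i ≤ n →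
        ∃ a : (Fin 8 →₀ ℕ) → ℂ → ℂ, (∀ β, a β ∈ 𝒜) ∧
          (∀ s ∈ D, ∑ β ∈ Bs, ‖a β s‖ ≤ K ^ (c * n)) ∧
          ∀ s ∈ S, ‖∏ i, y s i ^ γ i - ∑ β ∈ Bs, a β s * ∏ i, y s i ^ β i‖ ≤
            θ * (2 * K * Y) ^ (c * n) := by
  refine ⟨2 ^ 8 * (((e + 1) ^ 7) ^ m * (e + 1) ^ 8), by positivity, ?_⟩
  intro 𝒜 D S y K θ Y hK hθ hY hy h n
  have hc : (e + 1) ^ 7 ≤ 2 ^ 8 * (((e + 1) ^ 7) ^ m * (e + 1) ^ 8) :=
    calc (e + 1) ^ 7 ≤ (e + 1) ^ 8 := Nat.pow_le_pow_right (by omega) (by omega)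
      _ ≤ ((e + 1) ^ 7) ^ m * (e + 1) ^ 8 := Nat.le_mul_of_pos_left _ (by positivity)
      _ ≤ _ := Nat.le_mul_of_pos_left _ (by positivity)
  have hW := Nat.mul_le_mul_right n hc
  refine ⟨std m e ((e + 1) ^ 7 * n), (card_std _ _ _).trans ?_,
    fun β hβ ↦ (sum_le_wt e β).trans ((mem_std.1 hβ).1.trans hW), fun γ hγ ↦ ?_⟩
  · have h1 : (e + 1) ^ 7 * n + 1 ≤ (e + 1) ^ 7 * (n + 1) := by
      have : 0 < (e + 1) ^ 7 := by positivity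
      nlinarith
    calc 2 ^ 8 * (((e + 1) ^ 7 * n + 1) ^ m * (e + 1) ^ 8)
        ≤ 2 ^ 8 * (((e + 1) ^ 7 * (n + 1)) ^ m * (e + 1) ^ 8) := by gcongr
      _ = _ := by rw [mul_pow]; ring
  · have h1 : wt e γ ≤ (e + 1) ^ 7 * n := (wt_le e γ).trans (Nat.mul_le_mul_left _ hγ)
    obtain ⟨a, ha1, ha2, ha3⟩ := aux m e _ 𝒜 D S y K θ Y hK hθ hY hy h _ γ rfl h1
    exact ⟨a, ha1, fun s hs ↦ (ha2 s hs).trans (pow_le_pow_right₀ hK (h1.trans hW)),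
      fun s hs ↦ (ha3 s hs).trans (mul_le_mul_of_nonneg_left
        (pow_le_pow_right₀ (by nlinarith) (h1.trans hW)) hθ)⟩

theorem relations2 {κ : Type} [Fintype κ] [DecidableEq κ] {s1 s2 : κ ⊕ ℂ} {j1 j2 : κ}
    (h2 : Two s1 j1 s2 j2) (m e : ℕ) : ∃ e' : ℕ, ∀ (y : ℂ → Fin 8 → ℤ) (T : ℂ → κ → ℂ)
    (S : Finset ℂ), (∀ s ∈ S, Rels (y s) (T s) s1 j1 s2 j2) → Hyp y S (m + 1) e →
    ∀ I : Finset (Fin 8), I.card = m →
    ∃ F : MvPolynomial (Fin 8) (MvPolynomial κ ℂ), F ≠ 0 ∧ F.vars ⊆ I ∧ F.totalDegree ≤ e' ∧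
      (∀ α, (F.coeff α).totalDegree ≤ e') ∧
      ∀ s ∈ S, MvPolynomial.eval₂ (MvPolynomial.eval (T s)) (fun i ↦ (y s i : ℂ)) F = 0 := by
  classical
  obtain ⟨c, hspan⟩ := sp_Y (m + 1) e
  set Fr : Finset κ := (univ.erase j1).erase j2 with hFr
  have hj : j2 ∈ univ.erase j1 := mem_erase.2 ⟨h2.1.symm, mem_univ _⟩
  have hr : Fintype.card κ = Fr.card + 2 := by
    rw [hFr, add_assoc _ 1 1 |>.symm, card_erase_add_one hj, card_erase_add_one (mem_univ _),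
      card_univ]
  obtain ⟨k, hk⟩ : ∃ k, k = 4 * c * (Fr.card + 10) ^ (m + 1 + Fr.card) := ⟨_, rfl⟩
  refine ⟨(Fr.card + 8) * k, fun y T S hT hH I hI ↦ ?_⟩
  set U : ℕ → Submodule ℂ (S → ℂ) := fun n ↦
    M (fun i (s : S) ↦ (y s i : ℂ)) n * M (fun (l : Fr) (s : S) ↦ T s l) n with hU
  have U1 : ∀ a b, U a * U b ≤ U (a + b) := fun a b ↦
    (mul_mul_mul_comm _ _ _ _).trans_le (mul_le_mul' (M_mul _ a b) (M_mul _ a b))
  have U0 : 1 ∈ U 0 := by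
    rw [← mul_one 1]
    exact Submodule.mul_mem_mul (one_mem_M _ 0) (one_mem_M _ 0)
  have hsv : ∀ s : κ ⊕ ℂ, s ≠ Sum.inl j1 → s ≠ Sum.inl j2 →
      (fun x : S ↦ sv (T x) s) ∈ M (fun (l : Fr) (s : S) ↦ T s l) 1 := by
    rintro (i | z) a1 a2
    · exact x_mem (fun (l : Fr) (s : S) ↦ T s l) ⟨i, by simpa [hFr] using And.intro a2 a1⟩
    · convert Submodule.smul_mem _ z (one_mem_M (fun (l : Fr) (s : S) ↦ T s l) 1) using 1
      exact funext fun _ ↦ (mul_one z).symm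
  have hx := x_mem fun i (s : S) ↦ (y s i : ℂ)
  obtain ⟨D1, d1, d2, d3, d4⟩ := exists_D (fun s : S ↦ T s) _ _ _ _ s1 j1 _ _ (hx 0) (hx 1) (hx 2)
    (hx 3) (one_mem_M _ 1) (fun a ↦ hsv s1 a h2.2.1) (fun s ↦ (hT s s.2).1)
    (fun s ↦ (hT s s.2).2.2.1) fun s ↦ (hT s s.2).2.2.2.2.1
  obtain ⟨D2, d1', d2', d3', d4'⟩ := exists_D (fun s : S ↦ T s) _ _ _ _ s2 j2 _ _ (hx 4) (hx 5)
    (hx 6) (hx 7) (one_mem_M _ 1) (fun a ↦ hsv s2 h2.2.2 a) (fun s ↦ (hT s s.2).2.1)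
    (fun s ↦ (hT s s.2).2.2.2.1) fun s ↦ (hT s s.2).2.2.2.2.2
  set f : κ →₀ ℕ := Finsupp.equivFunOnFinite.symm fun _ ↦ k with hf
  have b1 : ∀ α : Iic (box I k 0), (∀ i, α.1 i ≤ k) ∧ α.1.support ⊆ I := fun α ↦ by
    have := mem_Iic.1 α.2
    refine ⟨fun i ↦ (this i).trans ?_, fun i hi ↦ by_contra fun hn ↦ ?_⟩
    · rw [box_apply]; split_ifs <;> omega
    · exact Finsupp.mem_support_iff.1 hi (by simpa [box_apply, hn] using this i)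
  have b2 : ∀ (β : Iic f) l, β.1 l ≤ k := fun β l ↦ mem_Iic.1 β.2 l
  have b3 : ∀ α : Iic (box I k 0), ∑ i, α.1 i ≤ (Fr.card + 8) * k := fun α ↦
    (sum_le_card_nsmul _ _ k fun i _ ↦ (b1 α).1 i).trans (Nat.mul_le_mul_right k (by simp))
  obtain ⟨p, hp, x0, hx0⟩ := (((((hspan y S hH ((Fr.card + 10) * k)).mul
    (sp_M (fun (l : Fr) (s : S) ↦ T s l) ((Fr.card + 10) * k))).mul
    ((sp_pair fun s : S ↦ T s j1).mul (sp_pair fun s : S ↦ T s j2))))).rel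
    (fun (x : Iic (box I k 0) × Iic f) (s : S) ↦ D1 s ^ k * D2 s ^ k *
      ((∏ l, T s l ^ x.2.1 l) * ∏ i, (y s i : ℂ) ^ x.1.1 i)) (fun x ↦ by
      have a1 := clear U U1 U0 d2 d3 d4 (b2 x.2 j1)
      have a2 := clear U U1 U0 d2' d3' d4' (b2 x.2 j2)
      have a3 : _ ∈ U ((Fr.card + 8) * k) := Submodule.mul_mem_mul (mon_mem _ (b3 x.1))
        (mon_mem (γ := fun l : Fr ↦ x.2.1 l) _ ((sum_le_card_nsmul _ _ k fun i _ ↦ b2 _ _).trans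
          (Nat.mul_le_mul_right k (by simp))))
      have a4 := Submodule.mul_mem_mul a3 (Submodule.mul_mem_mul a1 a2)
      rw [mul_mul_mul_comm (U k), ← mul_assoc] at a4
      have a5 : U ((Fr.card + 8) * k) * (U k * U k) ≤ U ((Fr.card + 10) * k) :=
        (mul_le_mul' le_rfl (U1 k k)).trans ((U1 _ _).trans_eq (by congr 1; ring))
      convert mul_le_mul' a5 le_rfl a4 using 1
      funext s
      simp only [Pi.mul_apply, Pi.pow_apply, Finset.prod_apply]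
      rw [prod_coe_sort Fr fun l ↦ T s l ^ x.2.1 l, ← mul_prod_erase _ _ (mem_univ j1),
        ← mul_prod_erase _ _ hj]
      ring) (by
      have a1 : (Fr.card + 10) * k + 1 ≤ (Fr.card + 10) * (k + 1) := by nlinarith
      rw [Fintype.card_prod, Fintype.card_coe, Fintype.card_coe, Fintype.card_coe, card_box,
        card_Iic_le, hI]
      calc _ ≤ c * ((Fr.card + 10) * (k + 1)) ^ (m + 1) * ((Fr.card + 10) * (k + 1)) ^ Fr.card *
            (2 * 2) := by gcongr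
        _ = k * (k + 1) ^ (m + 1 + Fr.card) := by
            rw [mul_pow, mul_pow]
            generalize k + 1 = z
            rw [hk]
            ring
        _ < (k + 1) * (k + 1) ^ (m + 1 + Fr.card) := by gcongr; omega
        _ = _ := by
            simp only [hf, Finsupp.coe_equivFunOnFinite_symm, prod_const, card_univ, hr]
            ring)
  have hco : ∀ α, (∑ x : Iic (box I k 0) × Iic f, MvPolynomial.monomial x.1.1
      (MvPolynomial.monomial x.2.1 (p x))).coeff α =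
      ∑ x, if x.1.1 = α then MvPolynomial.monomial x.2.1 (p x) else 0 := fun α ↦ by
    simp only [MvPolynomial.coeff_sum, MvPolynomial.coeff_monomial]
  have hsu : ∀ α ∈ (∑ x : Iic (box I k 0) × Iic f, MvPolynomial.monomial x.1.1
      (MvPolynomial.monomial x.2.1 (p x))).support, α ∈ Iic (box I k 0) := fun α hα ↦ by
    obtain ⟨x, -, hx⟩ := exists_ne_zero_of_sum_ne_zero
      (hco α ▸ MvPolynomial.mem_support_iff.1 hα)
    exact (ite_ne_right_iff.1 hx).1 ▸ x.1.2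
  refine ⟨∑ x : Iic (box I k 0) × Iic f, MvPolynomial.monomial x.1.1
    (MvPolynomial.monomial x.2.1 (p x)), fun h ↦ hx0 ?_, fun i hi ↦ ?_,
    Finset.sup_le fun α hα ↦ ?_, fun α ↦ ?_, fun s hs ↦ ?_⟩
  · have := congrArg (MvPolynomial.coeff x0.2.1) (hco x0.1.1)
    rw [h, MvPolynomial.coeff_sum, sum_eq_single_of_mem x0 (mem_univ _) fun x _ hne ↦ ?_] at this
    · simpa using this.symm
    · split_ifs with a1
      · rw [MvPolynomial.coeff_monomial, if_neg]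
        exact fun a2 ↦ hne (Prod.ext (Subtype.ext a1) (Subtype.ext a2))
      · rfl
  · obtain ⟨α, hα, hi'⟩ := (MvPolynomial.mem_vars_iff_mem_support i).1 hi
    exact (b1 ⟨α, hsu α hα⟩).2 hi'
  · rw [Finsupp.sum_fintype _ _ fun _ ↦ rfl]
    exact b3 ⟨α, hsu α hα⟩
  · rw [hco]
    refine MvPolynomial.totalDegree_finsetSum_le fun x _ ↦ ?_
    split_ifs
    · refine (MvPolynomial.totalDegree_monomial_le _ _).trans ?_
      rw [Finsupp.sum_fintype _ _ fun _ ↦ rfl]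
      exact (sum_le_card_nsmul _ _ k fun i _ ↦ b2 _ _).trans
        (Nat.mul_le_mul_right k (by simp [hr]))
    · simp
  · refine (mul_eq_zero.1 (?_ : D1 ⟨s, hs⟩ ^ k * D2 ⟨s, hs⟩ ^ k * _ = 0)).resolve_left
      (mul_ne_zero (pow_ne_zero _ (d1 _)) (pow_ne_zero _ (d1' _)))
    refine Eq.trans ?_ (congrFun hp ⟨s, hs⟩)
    rw [MvPolynomial.eval₂_sum, mul_sum, Finset.sum_apply]
    refine sum_congr rfl fun x _ ↦ ?_
    rw [MvPolynomial.eval₂_monomial, MvPolynomial.eval_monomial,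
      Finsupp.prod_fintype _ _ fun _ ↦ pow_zero _, Finsupp.prod_fintype _ _ fun _ ↦ pow_zero _,
      Pi.smul_apply, smul_eq_mul]
    ring

end Pool.Agent.Lib.ZP3
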