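import Pool.Agent.Lib.ZP3.Sm1

/-! Block SM2: small algebraic numbers under polynomial operations, and families of them. -/

open UpperHalfPlane Filter Topology Metric
open scoped Real MatrixGroups

namespace Pool.Agent.Lib.ZP3

open Pool.Agent.Lib.MP_0704bf_ag Pool.Agent.Lib.helper6

namespace SM2

/-- denominator and house only -/
def W (z : ℂ) (A : ℕ) : Prop := ∃ d : ℕ, 0 < d ∧ (d : ℝ) ≤ Real.exp A ∧ IsIntegral ℤ (d * z) ∧
  ∀ σ : ℂ →+* ℂ, ‖σ (d * z)‖ ≤ Real.exp A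

theorem W.of_sm {z : ℂ} {A : ℕ} (h : Sm z A) : W z A := by
  obtain ⟨d, h1, h2, h3, -, h4⟩ := h
  exact ⟨d, h1, h2, h3, h4⟩

theorem W.sm {z : ℂ} {A : ℕ} (h : W z A) (hD : Deg z A) : Sm z A := by
  obtain ⟨d, h1, h2, h3, h4⟩ := h
  exact ⟨d, h1, h2, h3, hD.map (fun x ↦ d * x) fun σ ↦ by simp, h4⟩

theorem W.mono {z : ℂ} {A A' : ℕ} (h : W z A) (h' : A ≤ A') : W z A' := by
  obtain ⟨d, h1, h2, h3, h4⟩ := h
  have e : Real.exp A ≤ Real.exp A' := Real.exp_le_exp.2 (by exact_mod_cast h')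
  exact ⟨d, h1, h2.trans e, h3, fun σ ↦ (h4 σ).trans e⟩

theorem int_nat (d : ℕ) : IsIntegral ℤ (d : ℂ) := by
  simpa using isIntegral_algebraMap (R := ℤ) (A := ℂ) (x := (d : ℤ))

theorem W.mul {y z : ℂ} {A B : ℕ} (hy : W y A) (hz : W z B) : W (y * z) (A + B) := by
  obtain ⟨d, h1, h2, h3, h4⟩ := hy
  obtain ⟨d', h1', h2', h3', h4'⟩ := hz
  have e : ((d * d' : ℕ) : ℂ) * (y * z) = (d * y) * (d' * z) := by push_cast; ring
  refine ⟨d * d', Nat.mul_pos h1 h1', ?_, e ▸ h3.mul h3', fun σ ↦ ?_⟩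
  · push_cast
    rw [Real.exp_add]
    exact mul_le_mul h2 h2' (Nat.cast_nonneg _) (Real.exp_pos _).le
  · rw [e, map_mul, norm_mul]
    push_cast
    rw [Real.exp_add]
    exact mul_le_mul (h4 σ) (h4' σ) (norm_nonneg _) (Real.exp_pos _).le

theorem W.add {y z : ℂ} {A B : ℕ} (hy : W y A) (hz : W z B) : W (y + z) (A + B + 1) := by
  obtain ⟨d, h1, h2, h3, h4⟩ := hy
  obtain ⟨d', h1', h2', h3', h4'⟩ := hz
  have e : ((d * d' : ℕ) : ℂ) * (y + z) = d' * (d * y) + d * (d' * z) := by push_cast; ring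
  have h5 : (2 : ℝ) ≤ Real.exp 1 := by linarith [Real.add_one_le_exp (1 : ℝ)]
  have h6 : 0 < Real.exp A * Real.exp B := by positivity
  refine ⟨d * d', Nat.mul_pos h1 h1', ?_,
    e ▸ ((int_nat d').mul h3).add ((int_nat d).mul h3'), fun σ ↦ ?_⟩
  · push_cast
    rw [Real.exp_add, Real.exp_add]
    nlinarith [mul_le_mul h2 h2' (Nat.cast_nonneg _) (Real.exp_pos _).le]
  · rw [e, map_add, map_mul σ (d' : ℂ), map_mul σ (d : ℂ) (d' * z), map_natCast, map_natCast]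
    refine (norm_add_le _ _).trans ?_
    rw [norm_mul, norm_mul, Complex.norm_natCast, Complex.norm_natCast]
    push_cast
    rw [Real.exp_add, Real.exp_add]
    nlinarith [mul_le_mul h2' (h4 σ) (norm_nonneg _) (Real.exp_pos _).le,
      mul_le_mul h2 (h4' σ) (norm_nonneg _) (Real.exp_pos _).le]

theorem sm_zero {A : ℕ} (hA : 1 ≤ A) : Sm 0 A := by
  simpa using sm_int 0 hA (by simpa using (Real.exp_pos _).le)

theorem sm_one {A : ℕ} (hA : 1 ≤ A) : Sm 1 A := by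
  simpa using sm_int 1 hA (by simpa using Real.one_le_exp (Nat.cast_nonneg _))

theorem W.pow {z : ℂ} {A : ℕ} (h : W z A) (n : ℕ) : W (z ^ n) (n * A) := by
  induction n with
  | zero => exact ⟨1, one_pos, by simp, by simpa using isIntegral_one, fun σ ↦ by simp⟩
  | succ n ih => simpa only [pow_succ, add_mul, one_mul] using ih.mul h

theorem unif {p : Polynomial ℂ} (hp : AlgP p) : ∃ c : ℕ, ∀ n, Sm (p.coeff n) c := by
  choose c hc using fun n ↦ sm_of_alg (hp n)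
  refine ⟨∑ n ∈ p.support, c n + 1, fun n ↦ ?_⟩
  by_cases h : n ∈ p.support
  · exact (hc n).mono ((Finset.single_le_sum (fun _ _ ↦ Nat.zero_le _) h).trans (Nat.le_succ _))
  · rw [Polynomial.notMem_support_iff.1 h]
    exact sm_zero (Nat.le_add_left _ _)

theorem deg_root {q : Polynomial ℂ} {n a : ℕ} {t : ℂ} (h0 : q ≠ 0) (hn : q.natDegree ≤ n)
    (hc : ∀ i, Deg (q.coeff i) a) (ht : q.eval t = 0) : Deg t (a ^ (n + 1) * n) := by
  classical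
  obtain ⟨E, hE, h⟩ := deg_joint (v := fun i : Fin (n + 1) ↦ q.coeff i) fun i ↦ hc i
  let P : (Fin (n + 1) → ℂ) → Polynomial ℂ := fun v ↦
    ∑ i : Fin (n + 1), Polynomial.monomial (i : ℕ) (v i)
  have hP : ∀ v, (P v).natDegree ≤ n := fun v ↦
    Polynomial.natDegree_sum_le_of_forall_le _ _ fun i _ ↦
      (Polynomial.natDegree_monomial_le _).trans (Nat.lt_succ_iff.1 i.2)
  refine ⟨E.biUnion fun v ↦ (P v).roots.toFinset, ?_, fun σ ↦ ?_⟩
  · refine (Finset.card_biUnion_le_card_mul _ _ n fun v _ ↦ ?_).trans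
      (Nat.mul_le_mul_right _ (by simpa using hE))
    exact (Multiset.toFinset_card_le _).trans ((Polynomial.card_roots' _).trans (hP v))
  · refine Finset.mem_biUnion.2 ⟨_, h σ, ?_⟩
    have e : P (fun i ↦ σ (q.coeff i)) = q.map σ := by
      rw [(q.map σ).as_sum_range' (n + 1)
        (Nat.lt_succ_of_le (Polynomial.natDegree_map_le.trans hn)), Finset.sum_range]
      simp only [P, Polynomial.coeff_map]
    rw [e, Multiset.mem_toFinset, Polynomial.mem_roots (Polynomial.map_ne_zero h0),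
      Polynomial.IsRoot.def, Polynomial.eval_map_apply, ht, map_zero]

theorem house_root {q : Polynomial ℂ} {R : ℝ} {t : ℂ} (h0 : q ≠ 0) (hc : ∀ i, ‖q.coeff i‖ ≤ R)
    (ht : q.eval t = 0) : ‖q.leadingCoeff * t‖ ≤ 2 * R := by
  have h1 := Polynomial.IsRoot.norm_lt_cauchyBound h0 ht
  have hR : 0 ≤ R := (norm_nonneg _).trans (hc 0)
  have hl : 0 < ‖q.leadingCoeff‖ := norm_pos_iff.2 (Polynomial.leadingCoeff_ne_zero.2 h0)
  have h2 : (Finset.range q.natDegree).sup (fun i ↦ ‖q.coeff i‖₊) ≤ ⟨R, hR⟩ :=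
    Finset.sup_le fun i _ ↦ hc i
  have h3 : ‖t‖ ≤ R / ‖q.leadingCoeff‖ + 1 := by
    have h4 : (‖t‖₊ : ℝ) ≤ q.cauchyBound := h1.le
    refine h4.trans ?_
    rw [Polynomial.cauchyBound]
    push_cast
    gcongr
    exact h2
  rw [norm_mul]
  refine (mul_le_mul_of_nonneg_left h3 hl.le).trans ?_
  rw [mul_add, mul_div_cancel₀ _ hl.ne', mul_one]
  linarith [hc q.natDegree, show ‖q.leadingCoeff‖ = ‖q.coeff q.natDegree‖ from rfl]

theorem int_root {q : Polynomial ℂ} {t : ℂ} (hc : ∀ i, IsIntegral ℤ (q.coeff i))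
    (ht : q.eval t = 0) : IsIntegral ℤ (q.leadingCoeff * t) := by
  obtain ⟨r, rfl⟩ := (Polynomial.lifts_iff_coeff_lifts
    (f := algebraMap (integralClosure ℤ ℂ) ℂ) q).2 fun n ↦ ⟨⟨_, hc n⟩, rfl⟩
  have h1 := isIntegral_leadingCoeff_smul r t (by
    rw [Polynomial.aeval_def, Polynomial.eval₂_eq_eval_map]; exact ht)
  have h2 := isIntegral_trans (R := ℤ) _ h1
  rw [Algebra.smul_def] at h2
  erw [Polynomial.leadingCoeff_map_of_injective Subtype.val_injective]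
  exact h2

theorem w_root {q : Polynomial ℂ} {n a : ℕ} {t : ℂ} (h0 : q ≠ 0) (hn : q.natDegree ≤ n)
    (hc : ∀ i, Sm (q.coeff i) a) (ht : q.eval t = 0) :
    W (q.leadingCoeff * t) ((n + 2) * a + 1) := by
  choose d h1 h2 h3 using hc
  have hD : ((∏ i ∈ Finset.range (n + 1), d i : ℕ) : ℝ) ≤ Real.exp ((n + 1) * a) := by
    push_cast
    refine (Finset.prod_le_prod (fun _ _ ↦ Nat.cast_nonneg _) fun i _ ↦ h2 i).trans (le_of_eq ?_)
    rw [Finset.prod_const, Finset.card_range, ← Real.exp_nat_mul]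
    push_cast
    rfl
  have hp : 0 < ∏ i ∈ Finset.range (n + 1), d i := Finset.prod_pos fun i _ ↦ h1 i
  refine ⟨_, hp, hD.trans (Real.exp_le_exp.2 ?_), ?_, fun σ ↦ ?_⟩
  · push_cast
    nlinarith [Nat.cast_nonneg (α := ℝ) a]
  · have := int_root (q := Polynomial.C ((∏ i ∈ Finset.range (n + 1), d i : ℕ) : ℂ) * q) (t := t)
      (fun i ↦ ?_) (by simp [ht])
    · rwa [Polynomial.leadingCoeff_mul, Polynomial.leadingCoeff_C, mul_assoc] at this
    rw [Polynomial.coeff_C_mul]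
    by_cases hi : i ∈ Finset.range (n + 1)
    · rw [← Finset.prod_erase_mul _ _ hi, Nat.cast_mul, mul_assoc]
      exact (int_nat _).mul (h3 i).1
    · rw [Polynomial.coeff_eq_zero_of_natDegree_lt (by simp at hi; omega), mul_zero]
      exact isIntegral_zero
  · have h4 := house_root (q := q.map σ) (t := σ t) (R := Real.exp a) (Polynomial.map_ne_zero h0)
      (fun i ↦ by
        rw [Polynomial.coeff_map]
        exact (Sm.conj ⟨d i, h1 i, h2 i, h3 i⟩ σ).norm_le)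
      (by rw [Polynomial.eval_map_apply, ht, map_zero])
    rw [Polynomial.leadingCoeff_map, ← map_mul] at h4
    have h5 : (2 : ℝ) ≤ Real.exp 1 := by linarith [Real.add_one_le_exp (1 : ℝ)]
    rw [map_mul, norm_mul, map_natCast, Complex.norm_natCast]
    refine (mul_le_mul hD h4 (norm_nonneg _) (Real.exp_pos _).le).trans ?_
    have e : (((n + 2) * a + 1 : ℕ) : ℝ) = (n + 1) * a + (1 + a) := by push_cast; ring
    rw [e, Real.exp_add, Real.exp_add]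
    gcongr

end SM2

open SM2

section SM2
variable {κ : Type} [Fintype κ] [DecidableEq κ] {A B : κ → Polynomial ℂ}

theorem AlgP.sm_eval {p : Polynomial ℂ} (hp : AlgP p) :
    ∃ c : ℕ, ∀ (t : ℂ) (a : ℕ), Sm t a → Sm (p.eval t) (c * a) := by
  obtain ⟨c0, h0⟩ := unif hp
  obtain ⟨c1, -, h1⟩ := deg_eval hp
  have key : ∀ n : ℕ, ∃ c : ℕ, ∀ (t : ℂ) (a : ℕ), Sm t a →
      W (∑ i ∈ Finset.range n, p.coeff i * t ^ i) (c * a) := by
    intro n
    induction n with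
    | zero => exact ⟨1, fun t a h ↦ by simpa using W.of_sm (sm_zero h.one_le)⟩
    | succ n ih =>
      obtain ⟨c, hc⟩ := ih
      refine ⟨c + c0 + n + 1, fun t a h ↦ ?_⟩
      rw [Finset.sum_range_succ]
      refine ((hc t a h).add ((W.of_sm (h0 n)).mul ((W.of_sm h).pow n))).mono ?_
      nlinarith [h.one_le]
  obtain ⟨c, hc⟩ := key (p.natDegree + 1)
  refine ⟨c + c1, fun t a h ↦ W.sm ?_ ((h1 t a h.deg).mono (by nlinarith))⟩
  rw [Polynomial.eval_eq_sum_range]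
  exact (hc t a h).mono (by nlinarith)

theorem AlgP.alg_eval {p : Polynomial ℂ} (hp : AlgP p) {t : ℂ} (ht : IsAlgebraic ℚ t) :
    IsAlgebraic ℚ (p.eval t) := by
  obtain ⟨c, hc⟩ := hp.sm_eval
  obtain ⟨a, ha⟩ := sm_of_alg ht
  exact (hc t a ha).alg

theorem sm_xk (hA : AlgK A) (hB : AlgK B) :
    ∃ C : ℕ, ∀ (t : ℂ) (a : ℕ) (i : κ), Sm t a → Sm (xk A B t i) (C * a ^ 4) := by
  choose c hc using fun i ↦ (hA i).sm_eval
  choose c' hc' using fun i ↦ (hB i).sm_eval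
  refine ⟨8 * (∑ i, (c i + c' i)) ^ 4, fun t a i h ↦ ?_⟩
  have h1 : c i + c' i ≤ ∑ i, (c i + c' i) :=
    Finset.single_le_sum (f := fun i ↦ c i + c' i) (fun _ _ ↦ Nat.zero_le _) (Finset.mem_univ i)
  have := ((hc i t a h).mono (Nat.mul_le_mul_right a ((Nat.le_add_right _ _).trans h1))).div
    ((hc' i t a h).mono (Nat.mul_le_mul_right a ((Nat.le_add_left _ _).trans h1)))
  rwa [mul_pow, ← mul_assoc] at this

theorem sm_of_close {P : ℂ} (hP : IsAlgebraic ℚ P) : ∃ C : ℕ, ∀ (t : ℂ) (a d : ℕ),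
    IsAlgebraic ℚ t → Deg t a → 0 < d → (d : ℝ) ≤ Real.exp a →
    (∀ (p : ℕ) [Fact p.Prime] (ι : ℂ →+* ℂ_[p]), ‖(d : ℂ_[p])‖ ≤ ‖ι (t - P)‖) →
    (∀ σ : ℂ →+* ℂ, Real.exp (-(a : ℝ)) ≤ ‖σ (t - P)‖) → Sm t (C * a ^ 4) := by
  obtain ⟨D, hD⟩ := sm_of_alg hP
  refine ⟨3 * (8 * D ^ 2 + D) ^ 2, fun t a d ht hd d0 d1 hp hσ ↦ ?_⟩
  have ha : 1 ≤ a := hd.pos
  have e : Real.exp a ≤ Real.exp (a * D : ℕ) :=
    Real.exp_le_exp.2 (by exact_mod_cast Nat.le_mul_of_pos_right a hD.one_le)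
  have h1 : Sm (t - P)⁻¹ (2 * (a * D)) := by
    refine sm_of_bounds (ht.sub hP).inv ?_ d0 (d1.trans e) (fun p _ ι ↦ ?_) fun σ ↦ ?_
    · rw [sub_eq_add_neg]
      exact (hd.add hD.deg.neg).inv
    · rw [map_inv₀, norm_inv]
      exact mul_inv_le_one_of_le₀ (hp p ι) (norm_nonneg _)
    · rw [map_inv₀, norm_inv]
      refine le_trans ?_ e
      have := inv_anti₀ (Real.exp_pos _) (hσ σ)
      rwa [Real.exp_neg, inv_inv] at this
  have h2 := h1.inv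
  rw [inv_inv] at h2
  have h3 : 1 ≤ a ^ 2 := Nat.one_le_pow _ _ ha
  have h4 := (h2.mono (A' := (8 * D ^ 2 + D) * a ^ 2) (by nlinarith)).add
    (hD.mono (A' := (8 * D ^ 2 + D) * a ^ 2) (by nlinarith))
  rw [sub_add_cancel] at h4
  exact h4.mono (le_of_eq (by ring))

theorem sm_root_poly (n : ℕ) : ∃ C k : ℕ, ∀ (q : Polynomial ℂ) (a : ℕ) (t : ℂ), q ≠ 0 →
    q.natDegree ≤ n → (∀ i, Sm (q.coeff i) a) → q.eval t = 0 → Sm t (C * a ^ k) := by
  refine ⟨8 * (n + 3) ^ 4, (n + 2) * 4, fun q a t h0 hn hc ht ↦ ?_⟩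
  have ha : 1 ≤ a := (hc 0).one_le
  have h1 : a ≤ a ^ (n + 2) := Nat.le_self_pow (by omega) a
  have h2 : Sm (q.leadingCoeff * t) ((n + 3) * a ^ (n + 2)) :=
    ((w_root h0 hn hc ht).mono (by nlinarith)).sm
      (((hc _).deg.mul (deg_root h0 hn (fun i ↦ (hc i).deg) ht)).mono (by
        rw [pow_succ a (n + 1)]
        nlinarith [Nat.zero_le (a ^ (n + 1) * a)]))
  have h3 := h2.div ((hc q.natDegree).mono (A' := (n + 3) * a ^ (n + 2)) (by nlinarith))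
  rw [Polynomial.coeff_natDegree, mul_div_cancel_left₀ _ (Polynomial.leadingCoeff_ne_zero.2 h0)]
    at h3
  exact h3.mono (le_of_eq (by ring))

theorem AlgP.alg_root {p : Polynomial ℂ} (hp : AlgP p) (h0 : p ≠ 0) {t : ℂ} (ht : p.eval t = 0) :
    IsAlgebraic ℚ t := by
  obtain ⟨c, hc⟩ := unif hp
  obtain ⟨C, k, h⟩ := sm_root_poly p.natDegree
  exact (h p c t h0 le_rfl hc ht).alg

theorem sm_of_xk (h : Nice A B) (hA : AlgK A) (hB : AlgK B) (i : κ) : ∃ C k : ℕ, ∀ (t : ℂ) (a : ℕ),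
    (B i).eval t ≠ 0 → Sm (xk A B t i) a → Sm t (C * a ^ k) := by
  obtain ⟨c, hc⟩ := unif (hA i)
  obtain ⟨c', hc'⟩ := unif (hB i)
  obtain ⟨C, k, hC⟩ := sm_root_poly (B i).natDegree
  refine ⟨C * (12 * (c + c' + 1) ^ 4) ^ k, 4 * k, fun t a h0 hx ↦ ?_⟩
  have ha := hx.one_le
  obtain ⟨h1, h2, h3⟩ := h i
  have := hC (A i - Polynomial.C (xk A B t i) * B i) (3 * (2 * ((c + c' + 1) * a) ^ 2) ^ 2) t
    (fun e ↦ ?_) ?_ (fun j ↦ ?_) ?_
  · refine this.mono (le_of_eq ?_)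
    rw [pow_mul, mul_assoc, ← mul_pow]
    congr 2
    ring
  · have := Polynomial.natDegree_eq_zero_of_isUnit
      (h3.isUnit_of_dvd' (sub_eq_zero.1 e ▸ dvd_mul_left _ _) dvd_rfl)
    omega
  · exact (Polynomial.natDegree_sub_le _ _).trans
      (max_le h1 (Polynomial.natDegree_C_mul_le _ _))
  · rw [Polynomial.coeff_sub, Polynomial.coeff_C_mul]
    refine ((hc j).mono ?_).sub ((hx.mono (by nlinarith)).mul ((hc' j).mono (by nlinarith)))
    have : c ≤ (c + c' + 1) * a := by nlinarith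
    nlinarith
  · rw [Polynomial.eval_sub, Polynomial.eval_mul, Polynomial.eval_C, xk, div_mul_cancel₀ _ h0,
      sub_self]

variable {ι : Type} {a : ι → ℕ} {y z : ι → ℂ}

open HBF

theorem SF.self (h : ∀ s, Sm (z s) (a s)) : SF a z := ⟨a, PN.self, h⟩

theorem SF.exists (h : SF a z) : ∃ C k : ℕ, ∀ s, Sm (z s) (C * a s ^ k) := by
  obtain ⟨D, ⟨C, k, hD⟩, h⟩ := h
  exact ⟨C, k, fun s ↦ (h s).mono (hD s)⟩

theorem SF.of_exists {C k : ℕ} (h : ∀ s, Sm (z s) (C * a s ^ k)) : SF a z :=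
  ⟨_, ⟨C, k, fun _ ↦ le_rfl⟩, h⟩

theorem SF.const {c : ℂ} (hc : IsAlgebraic ℚ c) : SF a fun _ ↦ c := by
  obtain ⟨D, hD⟩ := sm_of_alg hc
  exact ⟨_, PN.const D, fun _ ↦ hD⟩

theorem SF.int (ha : ∀ s, 1 ≤ a s) {n : ι → ℤ} (h : HBF.EB a fun s ↦ |(n s : ℝ)|) :
    SF a fun s ↦ (n s : ℂ) := by
  obtain ⟨D, hD, h⟩ := h
  exact ⟨_, hD.add ha (PN.const 1), fun s ↦ sm_int _ (Nat.le_add_left _ _)
    ((h s).trans (Real.exp_le_exp.2 (by exact_mod_cast Nat.le_succ _)))⟩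

theorem SF.neg (h : SF a z) : SF a fun s ↦ -z s := by
  obtain ⟨D, hD, h⟩ := h
  exact ⟨D, hD, fun s ↦ (h s).neg⟩

theorem SF.both (ha : ∀ s, 1 ≤ a s) (hy : SF a y) (hz : SF a z) :
    ∃ D, PN a D ∧ ∀ s, Sm (y s) (D s) ∧ Sm (z s) (D s) := by
  obtain ⟨D, hD, h⟩ := hy
  obtain ⟨D', hD', h'⟩ := hz
  exact ⟨_, hD.add ha hD', fun s ↦
    ⟨(h s).mono (Nat.le_add_right _ _), (h' s).mono (Nat.le_add_left _ _)⟩⟩

theorem SF.add (ha : ∀ s, 1 ≤ a s) (hy : SF a y) (hz : SF a z) : SF a fun s ↦ y s + z s := by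
  obtain ⟨D, hD, h⟩ := SF.both ha hy hz
  exact ⟨_, (PN.const 3).mul (hD.pow 2), fun s ↦ (h s).1.add (h s).2⟩

theorem SF.sub (ha : ∀ s, 1 ≤ a s) (hy : SF a y) (hz : SF a z) : SF a fun s ↦ y s - z s := by
  obtain ⟨D, hD, h⟩ := SF.both ha hy hz
  exact ⟨_, (PN.const 3).mul (hD.pow 2), fun s ↦ (h s).1.sub (h s).2⟩

theorem SF.mul (ha : ∀ s, 1 ≤ a s) (hy : SF a y) (hz : SF a z) : SF a fun s ↦ y s * z s := by
  obtain ⟨D, hD, h⟩ := SF.both ha hy hz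
  exact ⟨_, (PN.const 2).mul (hD.pow 2), fun s ↦ (h s).1.mul (h s).2⟩

theorem SF.inv (h : SF a z) : SF a fun s ↦ (z s)⁻¹ := by
  obtain ⟨D, hD, h⟩ := h
  exact ⟨_, (PN.const 2).mul (hD.pow 2), fun s ↦ (h s).inv⟩

theorem SF.div (ha : ∀ s, 1 ≤ a s) (hy : SF a y) (hz : SF a z) : SF a fun s ↦ y s / z s := by
  obtain ⟨D, hD, h⟩ := SF.both ha hy hz
  exact ⟨_, (PN.const 8).mul (hD.pow 4), fun s ↦ (h s).1.div (h s).2⟩

theorem SF.pow (h : SF a z) (n : ℕ) : SF a fun s ↦ z s ^ n := by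
  rcases n.eq_zero_or_pos with rfl | hn
  · simpa using SF.const (a := a) isAlgebraic_one
  · obtain ⟨D, hD, h⟩ := h
    exact ⟨_, (PN.const n).mul hD, fun s ↦ (h s).pow hn⟩

theorem SF.root (h : SF a y) {n : ℕ} (hn : 0 < n) (e : ∀ s, z s ^ n = y s) : SF a z := by
  obtain ⟨D, hD, h⟩ := h
  exact ⟨_, (PN.const n).mul hD, fun s ↦ (h s).root hn (e s)⟩

theorem SF.eval (h : SF a z) {p : Polynomial ℂ} (hp : AlgP p) :
    SF a fun s ↦ p.eval (z s) := by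
  obtain ⟨D, hD, h⟩ := h
  obtain ⟨c, hc⟩ := hp.sm_eval
  exact ⟨_, (PN.const c).mul hD, fun s ↦ hc _ _ (h s)⟩

theorem SF.bd (h : SF a z) : HBF.BD a z := by
  obtain ⟨D, hD, h⟩ := h
  exact ⟨D, hD, fun s ↦ (h s).norm_le⟩

theorem SF.lb (h : SF a z) (h0 : ∀ s, z s ≠ 0) : HBF.LB a fun s ↦ ‖z s‖ := by
  obtain ⟨D, hD, h⟩ := h
  exact ⟨_, (PN.const 2).mul (hD.pow 2), fun s ↦ by exact_mod_cast (h s).liouville (h0 s)⟩

theorem SF.comp (h : SF a z) {ι' : Type} (e : ι' → ι) :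
    SF (fun s ↦ a (e s)) fun s ↦ z (e s) := by
  obtain ⟨C, k, h⟩ := h.exists
  exact SF.of_exists fun s ↦ h (e s)

/-- transfer of a measure of the shape `exp (-C A ^ k)` to families -/
theorem SF.measure {F : ℂ → ℝ} {C k : ℕ} {G : ℂ → Prop}
    (hF : ∀ (θ : ℂ) (A : ℕ), G θ → Sm θ A → Real.exp (-(C * (A : ℝ) ^ k)) ≤ F θ) (h : SF a z)
    (hG : ∀ s, G (z s)) : HBF.LB a fun s ↦ F (z s) := by
  obtain ⟨D, hD, h⟩ := h
  exact ⟨_, (PN.const C).mul (hD.pow k), fun s ↦ by exact_mod_cast hF _ _ (hG s) (h s)⟩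

theorem HBF.LB.exists {f : ι → ℝ} (h : HBF.LB a f) :
    ∃ C k : ℕ, ∀ s, Real.exp (-(C * (a s : ℝ) ^ k)) ≤ f s := by
  obtain ⟨D, ⟨C, k, hD⟩, h⟩ := h
  exact ⟨C, k, fun s ↦ (Real.exp_le_exp.2 (neg_le_neg (by exact_mod_cast hD s))).trans (h s)⟩

theorem HBF.LB.split (ha : ∀ s, 1 ≤ a s) {f : ι → ℝ} (p : ι → Prop)
    (h1 : HBF.LB (fun s : {s // p s} ↦ a s.1) fun s ↦ f s.1)
    (h2 : HBF.LB (fun s : {s // ¬ p s} ↦ a s.1) fun s ↦ f s.1) : HBF.LB a f := by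
  obtain ⟨C, k, h1⟩ := h1.exists
  obtain ⟨C', k', h2⟩ := h2.exists
  refine ⟨_, ((PN.const C).mul (PN.self.pow k)).add ha ((PN.const C').mul (PN.self.pow k')),
    fun s ↦ ?_⟩
  have p1 : 0 ≤ C * (a s : ℝ) ^ k := by positivity
  have p2 : 0 ≤ C' * (a s : ℝ) ^ k' := by positivity
  by_cases hs : p s
  · exact (Real.exp_le_exp.2 (by push_cast; linarith)).trans (h1 ⟨s, hs⟩)
  · exact (Real.exp_le_exp.2 (by push_cast; linarith)).trans (h2 ⟨s, hs⟩)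

end SM2

end Pool.Agent.Lib.ZP3
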