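import Pool.Agent.Lib.ZP3.JBasic
import Pool.Agent.Lib.ZP3.Defs2

/-! Block ENT: entries of integral Moebius relations, endomorphisms of non-square degree. -/

open UpperHalfPlane Filter Topology Metric
open scoped Real MatrixGroups

namespace Pool.Agent.Lib.ZP3

open Pool.Agent.Lib.MP_0704bf_ag Pool.Agent.Lib.helper6

namespace ENT

lemma im_pos {z : ℂ} {B : ℝ} (hB : 1 ≤ B) (h : 1 ≤ B * z.im) : 0 < z.im := by
  by_contra hc
  push Not at hc
  nlinarith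

lemma disc_neg {τ : ℂ} {a b c d : ℤ} (hm : Mob a b c d τ τ) (hc : c ≠ 0) (h : 0 < τ.im) :
    (d - a) ^ 2 + 4 * (b * c) < 0 := by
  unfold Mob at hm
  have h1 := congrArg Complex.re hm
  have h2 := congrArg Complex.im hm
  simp only [Complex.mul_re, Complex.mul_im, Complex.add_re, Complex.add_im, Complex.intCast_re,
    Complex.intCast_im, zero_mul, sub_zero, add_zero] at h1 h2
  have h3 : (d : ℝ) - a = -2 * c * τ.re := by
    have : (2 * c * τ.re + (d - a)) * τ.im = 0 := by linear_combination h2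
    rcases mul_eq_zero.mp this with h3 | h3
    · linarith
    · exact absurd h3 h.ne'
  have h4 : ((d : ℝ) - a) ^ 2 + 4 * (b * c) = -4 * (c * τ.im) ^ 2 := by
    linear_combination ((d : ℝ) - a + 2 * c * τ.re) * h3 - 4 * c * h1
  have hc' : (c : ℝ) ≠ 0 := by exact_mod_cast hc
  have h5 : 0 < ((c : ℝ) * τ.im) ^ 2 := by positivity
  have : ((d : ℝ) - a) ^ 2 + 4 * (b * c) < 0 := by linarith
  exact_mod_cast this

lemma norm_root {z : ℂ} {s r : ℤ} (h : s ^ 2 < 4 * r) (e : z ^ 2 + s * z + r = 0) :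
    ‖z‖ ^ 2 = r := by
  have h1 := congrArg Complex.re e
  have h2 := congrArg Complex.im e
  simp only [pow_two, Complex.mul_re, Complex.mul_im, Complex.add_re, Complex.add_im,
    Complex.intCast_re, Complex.intCast_im, zero_mul, sub_zero, add_zero, Complex.zero_re,
    Complex.zero_im] at h1 h2
  have h' : (s : ℝ) ^ 2 < 4 * r := by exact_mod_cast h
  rw [Complex.sq_norm, Complex.normSq_apply]
  have : (2 * z.re + s) * z.im = 0 := by linear_combination h2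
  rcases mul_eq_zero.mp this with h3 | h3
  · linear_combination z.re * h3 - h1
  · rw [h3] at h1
    nlinarith [sq_nonneg (2 * z.re + s)]

lemma ai_quad {w : ℂ} {s r : ℤ} {A : ℕ} (h : s ^ 2 < 4 * r) (e : w ^ 2 + s * w + r = 0)
    (hA : 2 ≤ A) (hr : (r : ℝ) ≤ Real.exp A ^ 2) : AI w A := by
  have hσ : ∀ σ : ℂ →+* ℂ, σ w ^ 2 + s * σ w + r = 0 := fun σ => by
    have := congrArg σ e
    simpa using this
  refine ⟨⟨Polynomial.X ^ 2 + Polynomial.C s * Polynomial.X + Polynomial.C r, ?_, ?_⟩,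
    ⟨{w, -s - w}, (Finset.card_le_two).trans hA, fun σ => ?_⟩, fun σ => ?_⟩
  · monicity!
  · rw [Polynomial.eval₂_add, Polynomial.eval₂_add, Polynomial.eval₂_mul, Polynomial.eval₂_pow,
      Polynomial.eval₂_X, Polynomial.eval₂_C, Polynomial.eval₂_C]
    simpa using e
  · have : (σ w - w) * (σ w - (-s - w)) = 0 := by linear_combination hσ σ - e
    rcases mul_eq_zero.mp this with h1 | h1
    · simp [sub_eq_zero.1 h1]
    · simp [sub_eq_zero.1 h1]
  · have := norm_root h (hσ σ)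
    exact le_of_sq_le_sq (by linarith) (Real.exp_pos _).le

end ENT

theorem mob_c {τ τ' : ℂ} {a b c d : ℤ} {n : ℕ} (hm : Mob a b c d τ τ') (hn : a * d - b * c = n)
    (h : 0 < τ'.im) : (c : ℝ) ^ 2 * (τ.im * τ'.im) ≤ n := by
  have h1 := mob_normSq hm
  rw [hn, Int.cast_natCast] at h1
  have h2 : ((c : ℝ) * τ'.im) ^ 2 ≤ ‖a - c * τ'‖ ^ 2 := by
    have := Complex.abs_im_le_norm ((a : ℂ) - c * τ')
    have e : ((a : ℂ) - c * τ').im = -(c * τ'.im) := by simp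
    rw [e, abs_neg] at this
    rw [← sq_abs]
    exact pow_le_pow_left₀ (abs_nonneg _) this 2
  rcases le_total 0 τ.im with h0 | h0
  · refine le_of_mul_le_mul_right ?_ h
    rw [← h1]
    nlinarith [mul_le_mul_of_nonneg_right h2 h0]
  · have : τ.im * τ'.im ≤ 0 := mul_nonpos_of_nonpos_of_nonneg h0 h.le
    have h3 : (0 : ℝ) ≤ n := Nat.cast_nonneg n
    nlinarith [sq_nonneg (c : ℝ)]

theorem mob_entries2 {τ τ' : ℂ} {a b c d : ℤ} {n : ℕ} {B : ℝ} (hm : Mob a b c d τ τ')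
    (hn : a * d - b * c = n) (h0 : 0 < n) (hB : 1 ≤ B) (h1 : |τ.re| ≤ B) (h2 : |τ'.re| ≤ B)
    (h3 : 1 ≤ B * τ.im) (h4 : 1 ≤ B * τ'.im) :
    |(a : ℝ)| ≤ 48 * n ^ 5 * B ^ 4 ∧ |(b : ℝ)| ≤ 48 * n ^ 5 * B ^ 4 ∧
      |(c : ℝ)| ≤ 48 * n ^ 5 * B ^ 4 ∧ |(d : ℝ)| ≤ 48 * n ^ 5 * B ^ 4 := by
  have hn1 : (1 : ℝ) ≤ n := by exact_mod_cast h0
  have hi := ENT.im_pos hB h3
  have hi' := ENT.im_pos hB h4
  have hnB : B ≤ n * B := by nlinarith
  by_cases hc : c = 0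
  · subst hc
    have had : a * d = n := by linarith
    have ha : |a| ≤ n := Int.le_of_dvd (by exact_mod_cast h0) ((abs_dvd _ _).2 ⟨d, had.symm⟩)
    have hd : |d| ≤ n :=
      Int.le_of_dvd (by exact_mod_cast h0) ((abs_dvd _ _).2 ⟨a, by rw [← had, mul_comm]⟩)
    have ha' : |(a : ℝ)| ≤ n := by exact_mod_cast ha
    have hd' : |(d : ℝ)| ≤ n := by exact_mod_cast hd
    have hb : (b : ℝ) = d * τ'.re - a * τ.re := by
      unfold Mob at hm
      have := congrArg Complex.re hm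
      simp only [Complex.mul_re, Complex.add_re, Complex.intCast_re, Complex.intCast_im, zero_mul,
        sub_zero, Int.cast_zero, zero_add, mul_zero] at this
      linarith
    have hb' : |(b : ℝ)| ≤ 2 * (n * B) := by
      rw [hb]
      refine (abs_sub _ _).trans ?_
      rw [abs_mul, abs_mul]
      have := mul_le_mul hd' h2 (abs_nonneg _) (by positivity)
      have := mul_le_mul ha' h1 (abs_nonneg _) (by positivity)
      linarith
    have e1 : (n : ℝ) ≤ n ^ 5 := le_self_pow₀ hn1 (by norm_num)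
    have e2 : B ≤ B ^ 4 := le_self_pow₀ hB (by norm_num)
    have e3 : (n : ℝ) * B ≤ n ^ 5 * B ^ 4 := mul_le_mul e1 e2 (by linarith) (by positivity)
    have e4 : (n : ℝ) ≤ n * B := by nlinarith
    rw [mul_assoc]
    refine ⟨by linarith, by linarith, ?_, by linarith⟩
    simp only [Int.cast_zero, abs_zero]
    positivity
  · have hc1 : (1 : ℝ) ≤ (c : ℝ) ^ 2 := by
      have : 1 ≤ c ^ 2 := by nlinarith [Int.one_le_abs hc, sq_abs c]
      exact_mod_cast this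
    have h5 := mob_c hm hn hi'
    have h6 : τ.im * τ'.im ≤ n := by nlinarith [mul_pos hi hi']
    have h7 : τ.im ≤ n * B := by nlinarith
    have h8 : τ'.im ≤ n * B := by nlinarith
    have key := mob_entries (B := 2 * (n * B)) hm hn h0 (by linarith)
      ((Complex.norm_le_abs_re_add_abs_im _).trans (by rw [abs_of_pos hi]; linarith))
      ((Complex.norm_le_abs_re_add_abs_im _).trans (by rw [abs_of_pos hi']; linarith))
      (by nlinarith) (by nlinarith)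
    have e : 3 * (n : ℝ) * (2 * (n * B)) ^ 4 = 48 * n ^ 5 * B ^ 4 := by ring
    rwa [e] at key

theorem mob_den_ne {τ τ' : ℂ} {a b c d : ℤ} (hm : Mob a b c d τ τ') (hn : a * d - b * c ≠ 0) :
    (c : ℂ) * τ + d ≠ 0 := by
  intro h
  have := hm.mul_den
  rw [h, mul_zero] at this
  exact hn (by exact_mod_cast this.symm)

theorem mob_c_ne {τ : ℂ} {a b c d : ℤ} {n : ℕ} (hm : Mob a b c d τ τ) (hn : a * d - b * c = n)
    (hs : ¬ IsSquare n) (h : 0 < τ.im) : c ≠ 0 := by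
  rintro rfl
  unfold Mob at hm
  have h1 : (0 : ℤ) + d * τ = b + a * τ := by
    push_cast at hm ⊢
    linear_combination hm
  obtain ⟨-, rfl⟩ := JB.int_indep h h1
  refine hs ⟨d.natAbs, ?_⟩
  have : (n : ℤ) = d.natAbs * d.natAbs := by
    rw [Int.natAbs_mul_self']
    linarith
  exact_mod_cast this

theorem Rel.im_le {n : ℕ} {τ τ' : ℂ} (h : Rel n τ τ') (hn : 0 < n) (h0 : 0 < τ.im) :
    τ'.im ≤ n * max τ.im τ.im⁻¹ := by
  obtain ⟨a, b, c, d, hd, hm⟩ := h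
  have hn1 : (1 : ℝ) ≤ n := by exact_mod_cast hn
  have hd' : d * a - -b * -c = n := by linarith
  rcases le_total τ'.im 0 with h1 | h1
  · exact h1.trans (mul_nonneg (by linarith) (h0.le.trans (le_max_left _ _)))
  by_cases hc : c = 0
  · subst hc
    have h2 := mob_normSq hm.symm
    rw [hd', Int.cast_natCast] at h2
    have hd0 : d ≠ 0 := by
      rintro rfl
      omega
    have h3 : (1 : ℝ) ≤ |(d : ℝ)| := by exact_mod_cast Int.one_le_abs hd0
    simp only [neg_zero, Int.cast_zero, zero_mul, sub_zero, Complex.norm_intCast] at h2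
    have h4 : (1 : ℝ) ≤ |(d : ℝ)| ^ 2 := one_le_pow₀ h3
    have h5 : τ'.im ≤ n * τ.im := by nlinarith
    exact h5.trans (mul_le_mul_of_nonneg_left (le_max_left _ _) (by linarith))
  · have h2 := mob_c hm.symm hd' h0
    have hc1 : (1 : ℝ) ≤ ((-c : ℤ) : ℝ) ^ 2 := by
      have : 1 ≤ (-c) ^ 2 := by nlinarith [Int.one_le_abs hc, sq_abs c]
      exact_mod_cast this
    have h5 : τ'.im * τ.im ≤ n := by nlinarith [mul_nonneg h1 h0.le]
    have h6 : τ'.im ≤ n * τ.im⁻¹ := by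
      rw [← div_eq_mul_inv, le_div_iff₀ h0]
      exact h5
    exact h6.trans (mul_le_mul_of_nonneg_left (le_max_right _ _) (by linarith))

theorem exists_nonsq_end {τ : ℂ} {a b c d : ℤ} {n : ℕ} (hm : Mob a b c d τ τ)
    (hn : a * d - b * c = n) (hc : c ≠ 0) (h : 0 < τ.im) :
    ∃ m : ℕ, ¬ IsSquare m ∧ m ≤ 8 * n ^ 2 ∧ Rel m τ τ := by
  have h1 := ENT.disc_neg hm hc h
  have h2 : (a + d) ^ 2 < 4 * (n : ℤ) := by nlinarith
  have hn1 : (1 : ℤ) ≤ n := by nlinarith [sq_nonneg (a + d)]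
  obtain ⟨k, z, hz, hz1, hz2⟩ : ∃ k z : ℤ, z = 2 * k + (a + d) ∧ 2 * n ≤ z ∧ z ≤ 2 * n + 1 :=
    ⟨(2 * n + 1 - (a + d)) / 2, _, rfl, by omega, by omega⟩
  have h4 : 4 * ((a + k) * (d + k) - b * c) = z ^ 2 + (4 * n - (a + d) ^ 2) := by
    rw [hz, ← hn]
    ring
  obtain ⟨m, hm'⟩ : ∃ m : ℕ, (m : ℤ) = (a + k) * (d + k) - b * c :=
    ⟨_, Int.toNat_of_nonneg (by nlinarith [sq_nonneg z])⟩
  rw [← hm'] at h4
  have h5 := sq_nonneg (a + d)
  refine ⟨m, ?_, ?_, a + k, b, c, d + k, hm'.symm, ?_⟩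
  · rintro ⟨s, hs⟩
    have hs' : (m : ℤ) = s * s := by exact_mod_cast hs
    have hs0 : (0 : ℤ) ≤ s := Int.natCast_nonneg s
    rcases le_or_gt (2 * (s : ℤ)) z with h6 | h6
    · nlinarith
    · have h7 : z + 1 ≤ 2 * s := h6
      nlinarith
  · have : (m : ℤ) ≤ 8 * n ^ 2 := by nlinarith
    exact_mod_cast this
  · unfold Mob at hm ⊢
    push_cast
    linear_combination hm

theorem cm_cnd {τ : ℍ} (h : IsCM τ) : ∃ m : ℕ, ¬ IsSquare m ∧ Iso m (jInv τ) (jInv τ) := by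
  obtain ⟨a, b, c, ha, h⟩ := h
  have hm : Mob 0 (-c) a b τ τ := by
    unfold Mob
    push_cast
    linear_combination h
  obtain ⟨m, h1, -, h2⟩ := exists_nonsq_end hm
    (Int.toNat_of_nonneg (mob_det_nonneg τ.im_pos τ.im_pos hm)).symm ha τ.im_pos
  exact ⟨m, h1, iso_of_rel h2⟩

theorem isCM_of_end {n : ℕ} (hn : ¬ IsSquare n) {τ : ℍ} (h : Iso n (jInv τ) (jInv τ)) :
    IsCM τ := by
  obtain ⟨a, b, c, d, hd, hm⟩ := h.rel rfl rfl
  refine ⟨c, d - a, -b, mob_c_ne hm hd hn τ.im_pos, ?_⟩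
  unfold Mob at hm
  push_cast
  linear_combination hm

theorem isIntegral_of_end {n : ℕ} (hn : ¬ IsSquare n) {x : ℂ} (h : Iso n x x) :
    IsIntegral ℤ x := by
  obtain ⟨τ, -, rfl⟩ := j_surj x
  exact IsCM.isIntegral (isCM_of_end hn h)

theorem quad_sm {τ : ℂ} {n a : ℕ} {B : ℝ} (h : Rel n τ τ) (hn : ¬ IsSquare n) (hB : 1 ≤ B)
    (h1 : |τ.re| ≤ B) (h2 : 1 ≤ B * τ.im) (ha : 1 ≤ a) (hna : (n : ℝ) ≤ Real.exp a)
    (hBa : B ≤ Real.exp a) : Sm τ (20 * a) := by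
  obtain ⟨a', b, c, d, hd, hm⟩ := h
  have hi := ENT.im_pos hB h2
  have hn0 : 0 < n := Nat.pos_of_ne_zero (by rintro rfl; exact hn ⟨0, rfl⟩)
  have hc := mob_c_ne hm hd hn hi
  have hD := ENT.disc_neg hm hc hi
  obtain ⟨-, hb, hc', -⟩ := mob_entries2 hm hd hn0 hB h1 h1 h2 h2
  have ha' : (1 : ℝ) ≤ a := by exact_mod_cast ha
  have hE : 48 * (n : ℝ) ^ 5 * B ^ 4 ≤ Real.exp ((20 * a : ℕ) : ℝ) := by
    have e1 : (48 : ℝ) ≤ Real.exp a ^ 11 := by
      have : (2 : ℝ) ≤ Real.exp a := by linarith [Real.add_one_le_exp (a : ℝ)]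
      refine le_trans (by norm_num) (pow_le_pow_left₀ (by norm_num) this 11)
    have e2 : Real.exp ((20 * a : ℕ) : ℝ) = Real.exp a ^ 11 * Real.exp a ^ 5 * Real.exp a ^ 4 := by
      push_cast
      rw [← pow_add, ← pow_add, ← Real.exp_nat_mul]
      norm_num
    rw [e2]
    gcongr
  have hr : ((-(b * c) : ℤ) : ℝ) ≤ Real.exp ((20 * a : ℕ) : ℝ) ^ 2 := by
    push_cast [Int.cast_neg, Int.cast_mul] at hE ⊢
    refine (neg_le_abs _).trans ?_
    rw [abs_mul, sq]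
    exact mul_le_mul (hb.trans hE) (hc'.trans hE) (abs_nonneg _) (Real.exp_pos _).le
  refine ⟨c.natAbs, Int.natAbs_pos.2 hc, ?_, ?_⟩
  · rw [Nat.cast_natAbs, Int.cast_abs]
    exact hc'.trans hE
  · unfold Mob at hm
    rcases Int.natAbs_eq c with e | e
    · refine ENT.ai_quad (s := d - a') (r := -(b * c)) (by linarith) ?_ (by omega) hr
      have e' : ((c.natAbs : ℕ) : ℂ) = c := by rw [← Int.cast_natCast, ← e]
      rw [e']
      push_cast
      linear_combination (c : ℂ) * hm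
    · refine ENT.ai_quad (s := a' - d) (r := -(b * c)) (by nlinarith) ?_ (by omega) hr
      have e' : ((c.natAbs : ℕ) : ℂ) = -c := by
        have : ((c.natAbs : ℕ) : ℤ) = -c := by omega
        rw [← Int.cast_natCast, this, Int.cast_neg]
      rw [e']
      push_cast
      linear_combination (c : ℂ) * hm

theorem exists_minEnd {x : ℂ} {n : ℕ} (hn : ¬ IsSquare n) (h : Iso n x x) :
    ∃ m, MinEnd m x := by
  classical
  have hex : ∃ m, ¬ IsSquare m ∧ Iso m x x := ⟨n, hn, h⟩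
  exact ⟨Nat.find hex, (Nat.find_spec hex).1, (Nat.find_spec hex).2,
    fun n' h1 h2 ↦ Nat.find_min' hex ⟨h1, h2⟩⟩

theorem MinIso.symm {N : ℕ} {x y : ℂ} (h : MinIso N x y) : MinIso N y x :=
  ⟨h.1, h.2.1.symm, fun n h1 h2 ↦ h.2.2 n h1 h2.symm⟩

theorem exists_rels {κ : Type} {T : κ → ℂ} {s1 s2 : κ ⊕ ℂ} {j1 j2 : κ} {n1 n2 : ℕ} {M B : ℝ}
    (hB : 1 ≤ B) (hT : ∀ z ∈ ({sv T s1, T j1, sv T s2, T j2} : Set ℂ), |z.re| ≤ B ∧ 1 ≤ B * z.im)
    (h1 : 0 < n1) (h1' : (n1 : ℝ) ≤ M) (h2 : 0 < n2) (h2' : (n2 : ℝ) ≤ M)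
    (q1 : s1 = Sum.inl j1 → ¬ IsSquare n1) (q2 : s2 = Sum.inl j2 → ¬ IsSquare n2)
    (r1 : Rel n1 (sv T s1) (T j1)) (r2 : Rel n2 (sv T s2) (T j2)) :
    ∃ y : Fin 8 → ℤ, Rels y T s1 j1 s2 j2 ∧ ∀ i, |(y i : ℝ)| ≤ 48 * M ^ 5 * B ^ 4 := by
  obtain ⟨a, b, c, d, hd, hm⟩ := r1
  obtain ⟨a', b', c', d', hd', hm'⟩ := r2
  have t1 := hT (sv T s1) (by simp)
  have t2 := hT (T j1) (by simp)
  have t3 := hT (sv T s2) (by simp)
  have t4 := hT (T j2) (by simp)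
  obtain ⟨k1, k2, k3, k4⟩ := mob_entries2 hm hd h1 hB t1.1 t2.1 t1.2 t2.2
  obtain ⟨k5, k6, k7, k8⟩ := mob_entries2 hm' hd' h2 hB t3.1 t4.1 t3.2 t4.2
  have e1 : 48 * (n1 : ℝ) ^ 5 * B ^ 4 ≤ 48 * M ^ 5 * B ^ 4 := by gcongr
  have e2 : 48 * (n2 : ℝ) ^ 5 * B ^ 4 ≤ 48 * M ^ 5 * B ^ 4 := by gcongr
  have d1 := mob_den_ne hm (by omega)
  have d2 := mob_den_ne hm' (by omega)
  refine ⟨![a, b, c, d, a', b', c', d'], ⟨hm, hm', d1, d2, fun e ↦ ?_, fun e ↦ ?_⟩, fun i ↦ ?_⟩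
  · subst e
    exact mob_c_ne hm hd (q1 rfl) (ENT.im_pos hB t2.2)
  · subst e
    exact mob_c_ne hm' hd' (q2 rfl) (ENT.im_pos hB t4.2)
  · fin_cases i
    exacts [k1.trans e1, k2.trans e1, k3.trans e1, k4.trans e1, k5.trans e2, k6.trans e2,
      k7.trans e2, k8.trans e2]

end Pool.Agent.Lib.ZP3
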