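import Pool.Agent.Lib.ZP3.Curve
import Pool.Agent.Lib.ZP3.Defs2

/-! Rational curves with arbitrarily many coordinates. -/

set_option linter.unusedSectionVars false

open UpperHalfPlane Filter Topology Metric Polynomial
open scoped Real

namespace Pool.Agent.Lib.ZP3

open CURVE Pool.Agent.Lib.MP_0704bf_ag

namespace CV2

/-- functions which are quotients by a power of `D` of an element of `S` -/
def RF (S : Subring ℂ[X]) (D : ℂ[X]) (hD : D ∈ S) : Subring (ℂ → ℂ) where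
  carrier := {F | ∃ Ξ ∈ S, ∃ M : ℕ, ∀ t, D.eval t ≠ 0 → Ξ.eval t = D.eval t ^ M * F t}
  one_mem' := ⟨1, S.one_mem, 0, fun t _ => by simp⟩
  zero_mem' := ⟨0, S.zero_mem, 0, fun t _ => by simp⟩
  mul_mem' := by
    rintro F G ⟨p, hp, M, h⟩ ⟨q, hq, N, h'⟩
    refine ⟨p * q, S.mul_mem hp hq, M + N, fun t ht => ?_⟩
    rw [eval_mul, h t ht, h' t ht, Pi.mul_apply]; ring
  add_mem' := by
    rintro F G ⟨p, hp, M, h⟩ ⟨q, hq, N, h'⟩
    refine ⟨p * D ^ N + q * D ^ M, S.add_mem (S.mul_mem hp (S.pow_mem hD _))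
      (S.mul_mem hq (S.pow_mem hD _)), M + N, fun t ht => ?_⟩
    rw [eval_add, eval_mul, eval_mul, eval_pow, eval_pow, h t ht, h' t ht, Pi.add_apply]; ring
  neg_mem' := by
    rintro F ⟨p, hp, M, h⟩
    refine ⟨-p, S.neg_mem hp, M, fun t ht => ?_⟩
    rw [eval_neg, h t ht, Pi.neg_apply]; ring

lemma Xi (S : Subring ℂ[X]) {a b a' b' : ℂ[X]} (ha : a ∈ S) (hb : b ∈ S) (ha' : a' ∈ S)
    (hb' : b' ∈ S) {n : ℕ} (hn : 0 < n) : ∃ Ξ ∈ S, ∀ t, b.eval t ≠ 0 → b'.eval t ≠ 0 →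
      (Ξ.eval t = 0 ↔ Iso n (a.eval t / b.eval t) (a'.eval t / b'.eval t)) := by
  obtain ⟨Φ, -, -, hI⟩ := hecke_poly hn
  have hD := S.mul_mem hb hb'
  let F : RF S (b * b') hD := ⟨fun t => a.eval t / b.eval t, a * b', S.mul_mem ha hb', 1,
    fun t ht => by
      rw [eval_mul] at ht
      have := left_ne_zero_of_mul ht
      simp only [eval_mul]; field_simp⟩
  let G : RF S (b * b') hD := ⟨fun t => a'.eval t / b'.eval t, a' * b, S.mul_mem ha' hb, 1,
    fun t ht => by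
      rw [eval_mul] at ht
      have := right_ne_zero_of_mul ht
      simp only [eval_mul]; field_simp⟩
  obtain ⟨Ξ, h1, M, h2⟩ := (ev2 Φ F G).2
  refine ⟨Ξ, h1, fun t ht ht' => ?_⟩
  have h3 : (b * b').eval t ≠ 0 := by rw [eval_mul]; exact mul_ne_zero ht ht'
  have h4 := ev2_map ((Pi.evalRingHom (fun _ : ℂ => ℂ) t).comp (RF S (b * b') hD).subtype) Φ F G
  rw [h2 t h3, hI, mul_eq_zero, or_iff_right (pow_ne_zero _ h3)]
  exact Eq.congr_left h4

lemma fiber {n : ℕ} (hn : 0 < n) (x : ℂ) : {y | Iso n x y}.Finite := by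
  obtain ⟨Φ, hΦ, -, hI⟩ := hecke_poly hn
  exact (finite_setOfPred_isRoot (hΦ.map (aeval x).toRingHom).ne_zero).subset
    fun y hy => (hI x y).1 hy

lemma int_of_end {n : ℕ} (hn : ¬ IsSquare n) {x : ℂ} (h : Iso n x x) : IsIntegral ℤ x := by
  obtain ⟨τ, -, rfl⟩ := j_surj x
  obtain ⟨U, hU⟩ := h
  obtain ⟨a, b, c, d, h1, h2, -⟩ := hU.lift rfl rfl
  refine helper6.IsCM.isIntegral ⟨c, d - a, -b, ?_, ?_⟩
  · rintro rfl
    have h3 := congrArg Complex.im h2
    simp only [Int.cast_zero, zero_mul, zero_add, Complex.mul_im, Complex.intCast_im,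
      Complex.intCast_re, mul_zero, Complex.add_im, add_zero, coe_im] at h3
    have h4 : (d : ℝ) = a := mul_left_cancel₀ τ.im_pos.ne' (by linarith)
    have h5 : d = a := by exact_mod_cast h4
    refine hn ⟨a.natAbs, ?_⟩
    zify
    rw [← h1, h5, abs_mul_abs_self]; ring
  · unfold Mob at h2
    push_cast
    linear_combination h2

end CV2

open CV2

variable {κ : Type} [Fintype κ] [DecidableEq κ] {A B : κ → Polynomial ℂ}

theorem Nice.ne_zero (h : Nice A B) (i : κ) : B i ≠ 0 := ne_zero_of_natDegree_gt (h i).2.1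

theorem Nice.exists_pole (h : Nice A B) (i : κ) : ∃ P, (B i).eval P = 0 :=
  IsAlgClosed.exists_root (B i) (natDegree_pos_iff_degree_pos.1 (h i).2.1).ne'

theorem Nice.eval_ne (h : Nice A B) {i : κ} {P : ℂ} (hP : (B i).eval P = 0) :
    (A i).eval P ≠ 0 := by
  simpa [hP] using aeval_ne_zero_of_isCoprime (h i).2.2 P

theorem Nice.fiber (h : Nice A B) (i : κ) (x : ℂ) :
    {t | (B i).eval t ≠ 0 ∧ xk A B t i = x}.Finite := by
  have h0 : A i - C x * B i ≠ 0 := fun e => by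
    obtain ⟨P, hP⟩ := h.exists_pole i
    have := congrArg (eval P) e
    simp only [eval_sub, eval_mul, hP, mul_zero, sub_zero, eval_zero] at this
    exact h.eval_ne hP this
  refine (finite_setOfPred_isRoot h0).subset fun t ht => ?_
  have := ht.2
  rw [xk, div_eq_iff ht.1] at this
  simp [this]

theorem npk_cofinite (h : ∀ i, B i ≠ 0) : {t | ¬ NPk B t}.Finite :=
  (Set.finite_iUnion fun i => finite_setOfPred_isRoot (h i)).subset fun t ht => by
    simpa [NPk] using ht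

theorem Nice.conj (h : Nice A B) (σ : ℂ →+* ℂ) :
    Nice (fun i ↦ (A i).map σ) (fun i ↦ (B i).map σ) := fun i => by
  simp only [natDegree_map_eq_of_injective σ.injective]
  exact ⟨(h i).1, (h i).2.1, (h i).2.2.map (mapRingHom σ)⟩

theorem AlgK.conj (h : AlgK A) (σ : ℂ →+* ℂ) : AlgK (fun i ↦ (A i).map σ) := by
  intro i n
  rw [coeff_map]
  exact (h i n).algHom σ.toRatAlgHom

theorem xk_conj (σ : ℂ →+* ℂ) (t : ℂ) (i : κ) :
    xk (fun i ↦ (A i).map σ) (fun i ↦ (B i).map σ) (σ t) i = σ (xk A B t i) := by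
  simp only [xk, eval_map, eval₂_at_apply, map_div₀]

theorem NPk.conj {t : ℂ} (h : NPk B t) (σ : ℂ →+* ℂ) : NPk (fun i ↦ (B i).map σ) (σ t) := by
  intro i
  simp only [eval_map, eval₂_at_apply]
  exact (_root_.map_ne_zero σ).2 (h i)

theorem NoMod.conj (h : NoMod A B) (σ : ℂ →+* ℂ) :
    NoMod (fun i ↦ (A i).map σ) (fun i ↦ (B i).map σ) := fun i j hij n hn => by
  obtain ⟨t, ht, h'⟩ := h i j hij n hn
  exact ⟨σ t, ht.conj σ, by rwa [xk_conj, xk_conj, iso_conj_iff hn]⟩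

theorem Cnd.conj {x : κ → ℂ} {s : κ ⊕ ℂ} {j : κ} {n : ℕ} (h : Cnd x s j n) (σ : ℂ →+* ℂ) :
    Cnd (fun i ↦ σ (x i)) (s.map id σ) j n := by
  refine ⟨h.1, ?_, fun e => h.2.2 ?_⟩
  · have := (iso_conj_iff h.1 _ _ σ).2 h.2.1
    cases s <;> exact this
  · cases s <;> simp_all

theorem AlgK.finite (h : AlgK A) :
    (Set.range fun σ : ℂ →+* ℂ ↦ fun i ↦ (A i).map σ).Finite := by
  refine (Set.Finite.pi' fun i => map_finite (h i)).subset ?_
  rintro _ ⟨σ, rfl⟩ i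
  exact ⟨σ, rfl⟩

theorem two_sided2 (h : Nice A B) (hA : AlgK A) (hB : AlgK B) : ∃ C : ℝ, 1 ≤ C ∧
    ∀ (σ : ℂ →+* ℂ) (i : κ) (z : ℂ),
      (1 + ‖z‖) ^ (B i).natDegree ≤ C * (‖((A i).map σ).eval z‖ + ‖((B i).map σ).eval z‖) ∧
      ‖((A i).map σ).eval z‖ + ‖((B i).map σ).eval z‖ ≤ C * (1 + ‖z‖) ^ (B i).natDegree := by
  have key : ∀ i, ∃ C : ℝ, ∀ (σ : ℂ →+* ℂ) (z : ℂ),
      (1 + ‖z‖) ^ (B i).natDegree ≤ C * (‖((A i).map σ).eval z‖ + ‖((B i).map σ).eval z‖) ∧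
      ‖((A i).map σ).eval z‖ + ‖((B i).map σ).eval z‖ ≤ C * (1 + ‖z‖) ^ (B i).natDegree := by
    intro i
    have k1 : ∀ p : ℂ[X] × ℂ[X], ∃ C : ℝ, p.2 ≠ 0 → IsCoprime p.1 p.2 →
        p.1.natDegree ≤ p.2.natDegree → ∀ z : ℂ,
          (1 + ‖z‖) ^ p.2.natDegree ≤ C * (‖p.1.eval z‖ + ‖p.2.eval z‖) ∧
          ‖p.1.eval z‖ + ‖p.2.eval z‖ ≤ C * (1 + ‖z‖) ^ p.2.natDegree := by
      rintro ⟨a, b⟩
      by_cases hh : b ≠ 0 ∧ IsCoprime a b ∧ a.natDegree ≤ b.natDegree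
      · obtain ⟨C1, h1, h1'⟩ := lower hh.1 hh.2.1
        obtain ⟨C2, h2, h2'⟩ := upper a hh.2.2
        obtain ⟨C3, h3, h3'⟩ := upper b le_rfl
        refine ⟨C1 + C2 + C3, fun _ _ _ z => ⟨(h1' z).trans ?_, ?_⟩⟩
        · exact mul_le_mul_of_nonneg_right (by linarith) (by positivity)
        · have := h2' z
          have := h3' z
          have : 0 ≤ C1 * (1 + ‖z‖) ^ b.natDegree := by positivity
          simp only
          linarith
      · exact ⟨0, fun a1 a2 a3 => (hh ⟨a1, a2, a3⟩).elim⟩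
    choose Cf hCf using k1
    obtain ⟨C0, hC0⟩ := (((map_finite (hA i)).prod (map_finite (hB i))).image Cf).bddAbove
    refine ⟨C0, fun σ z => ?_⟩
    have hle : Cf ((A i).map σ, (B i).map σ) ≤ C0 := hC0 ⟨_, ⟨⟨σ, rfl⟩, ⟨σ, rfl⟩⟩, rfl⟩
    have h' := h.conj σ i
    have := hCf ((A i).map σ, (B i).map σ) (ne_zero_of_natDegree_gt h'.2.1) h'.2.2 h'.1 z
    simp only [natDegree_map_eq_of_injective σ.injective] at this
    exact ⟨this.1.trans (mul_le_mul_of_nonneg_right hle (by positivity)),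
      this.2.trans (mul_le_mul_of_nonneg_right hle (by positivity))⟩
  choose Cf hCf using key
  obtain ⟨C0, hC0⟩ := (Set.finite_range Cf).bddAbove
  refine ⟨max C0 1, le_max_right _ _, fun σ i z => ?_⟩
  have hle : Cf i ≤ max C0 1 := (hC0 ⟨i, rfl⟩).trans (le_max_left _ _)
  exact ⟨(hCf i σ z).1.trans (mul_le_mul_of_nonneg_right hle (by positivity)),
    (hCf i σ z).2.trans (mul_le_mul_of_nonneg_right hle (by positivity))⟩

theorem iso_cofinite {i j : κ} {n : ℕ} (hn : 0 < n)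
    (h : {t | NPk B t ∧ Iso n (xk A B t i) (xk A B t j)}.Infinite) (t : ℂ) (ht : NPk B t) :
    Iso n (xk A B t i) (xk A B t j) := by
  obtain ⟨Ξ, -, h1⟩ := Xi ⊤ (a := A i) (b := B i) (a' := A j) (b' := B j) trivial trivial trivial
    trivial hn
  have h2 : Ξ = 0 := eq_zero_of_infinite_isRoot _
    (h.mono fun s hs => (h1 s (hs.1 i) (hs.1 j)).2 hs.2)
  exact (h1 t (ht i) (ht j)).1 (by rw [h2, eval_zero])

theorem cnd_finite (h : Nice A B) (hN : NoMod A B) (s : κ ⊕ ℂ) (j : κ) (n : ℕ) :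
    {t | NPk B t ∧ Cnd (xk A B t) s j n}.Finite := by
  rcases Nat.eq_zero_or_pos n with rfl | hn
  · exact Set.finite_empty.subset fun t ht => (lt_irrefl 0 ht.2.1).elim
  cases s with
  | inl i =>
    by_contra hf
    have h1 := iso_cofinite (A := A) (B := B) (i := i) (j := j) hn
      (Set.Infinite.mono (fun t ht => ⟨ht.1, ht.2.2.1⟩) hf)
    by_cases hij : i = j
    · subst hij
      obtain ⟨t0, ht0⟩ := Set.Infinite.nonempty hf
      have h2 := ht0.2.2.2 rfl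
      refine not_countable_complex (((npk_cofinite h.ne_zero).countable.union
        ((Algebraic.countable ℤ ℂ).biUnion fun x _ => (h.fiber i x).countable)).mono fun t _ => ?_)
      by_cases ht : NPk B t
      · exact Or.inr (Set.mem_biUnion (int_of_end h2 (h1 t ht)).isAlgebraic ⟨ht i, rfl⟩)
      · exact Or.inl ht
    · obtain ⟨t, ht, h2⟩ := hN i j hij n hn
      exact h2 (h1 t ht)
  | inr c =>
    exact ((CV2.fiber hn c).biUnion fun x _ => h.fiber j x).subset fun t ht =>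
      Set.mem_biUnion ht.2.2.1 ⟨ht.1 j, rfl⟩

theorem cnd_algebraic (h : Nice A B) (hN : NoMod A B) (hA : AlgK A) (hB : AlgK B) {s : κ ⊕ ℂ}
    (hs : ∀ c, s = Sum.inr c → IsAlgebraic ℚ c) {j : κ} {n : ℕ} {t : ℂ} (ht : NPk B t)
    (hc : Cnd (xk A B t) s j n) : IsAlgebraic ℚ t := by
  have m : ∀ p : ℂ[X], AlgP p → p ∈ liftsRing (algebraMap K ℂ) := fun p hp =>
    (lifts_iff_liftsRing _ _).1 ((alg_iff p).1 hp)
  obtain ⟨a, b, ha, hb, e⟩ : ∃ a b : ℂ[X], a ∈ liftsRing (algebraMap K ℂ) ∧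
      b ∈ liftsRing (algebraMap K ℂ) ∧ ∀ u, NPk B u →
        b.eval u ≠ 0 ∧ sv (xk A B u) s = a.eval u / b.eval u := by
    cases s with
    | inl i => exact ⟨A i, B i, m _ (hA i), m _ (hB i), fun u hu => ⟨hu i, rfl⟩⟩
    | inr c =>
      exact ⟨C c, 1, ⟨C ⟨c, mem_algebraicClosure_iff.2 (hs c rfl)⟩, by simp⟩, one_mem _,
        fun u _ => by simp [sv]⟩
  obtain ⟨Ξ, h1, h2⟩ := Xi _ ha hb (m _ (hA j)) (m _ (hB j)) hc.1
  refine alg_root ((lifts_iff_liftsRing _ _).2 h1) ?_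
    ((h2 t (e t ht).1 (ht j)).2 ((e t ht).2 ▸ hc.2.1))
  rintro rfl
  refine Set.infinite_univ (((npk_cofinite h.ne_zero).union (cnd_finite h hN s j n)).subset
    fun u _ => ?_)
  by_cases hu : NPk B u
  · exact Or.inr ⟨hu, hc.1, (e u hu).2 ▸ (h2 u (e u hu).1 (hu j)).1 eval_zero, hc.2.2⟩
  · exact Or.inl hu

/-- the substitution `t = t0 + 1 / s` -/
theorem normalize2 (A B : κ → Polynomial ℂ) (hc : ∀ i, IsCoprime (A i) (B i))
    (hn : ∀ i, 0 < (A i).natDegree ∨ 0 < (B i).natDegree) (hB0 : ∀ i, B i ≠ 0) :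
    ∃ (t0 : ℂ) (A' B' : κ → Polynomial ℂ), NPk B t0 ∧ Nice A' B' ∧
      (AlgK A → AlgK B → AlgK A' ∧ AlgK B') ∧ (NoMod A B → NoMod A' B') ∧
      (Nice A B → NPk B' 0) ∧
      ∀ t, t ≠ t0 → (NPk B t ↔ NPk B' (t - t0)⁻¹) ∧
        ∀ i, xk A' B' (t - t0)⁻¹ i = xk A B t i := by
  obtain ⟨m, hm⟩ : ∃ m : ℕ, NPk B (m : ℂ) := by
    obtain ⟨x, ⟨m, rfl⟩, hx⟩ := (Set.infinite_range_of_injective
      (Nat.cast_injective (R := ℂ))).exists_notMem_finite (npk_cofinite hB0)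
    exact ⟨m, not_not.1 hx⟩
  let n : κ → ℕ := fun i => max (A i).natDegree (B i).natDegree
  have hnA : ∀ i, (A i).natDegree ≤ n i := fun i => le_max_left _ _
  have hnB : ∀ i, (B i).natDegree ≤ n i := fun i => le_max_right _ _
  have hle : ∀ (p : ℂ[X]) (k : ℕ), p.natDegree ≤ k →
      (reflect k (taylor (m : ℂ) p)).natDegree ≤ k := fun p k hk =>
    natDegree_reflect_le.trans (max_le le_rfl (by rwa [natDegree_taylor]))
  have hdB : ∀ i, (reflect (n i) (taylor (m : ℂ) (B i))).natDegree = n i := by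
    intro i
    refine le_antisymm (hle _ _ (hnB i)) (le_natDegree_of_ne_zero ?_)
    rw [coeff_reflect, revAt_le le_rfl, Nat.sub_self, taylor_coeff_zero]
    exact hm i
  have hz : ∀ i, (A i).natDegree ≤ (B i).natDegree →
      (reflect (n i) (taylor (m : ℂ) (B i))).eval 0 ≠ 0 := by
    intro i hi
    have : n i = (B i).natDegree := max_eq_right hi
    rw [this]
    exact reflect_ne (hB0 i) _
  have halg : ∀ (p : ℂ[X]) (k : ℕ), AlgP p → AlgP (reflect k (taylor (m : ℂ) p)) := by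
    intro p k hp l
    rw [coeff_reflect]
    obtain ⟨p', rfl⟩ := (mem_lifts _).1 ((alg_iff _).1 hp)
    exact (alg_iff _).2 ⟨taylor (m : K) p', by simp⟩ _
  have key : ∀ t : ℂ, t ≠ m →
      (NPk B t ↔ NPk (fun i => reflect (n i) (taylor (m : ℂ) (B i))) (t - m)⁻¹) ∧
      ∀ i, xk (fun i => reflect (n i) (taylor (m : ℂ) (A i)))
        (fun i => reflect (n i) (taylor (m : ℂ) (B i))) (t - m)⁻¹ i = xk A B t i := by
    intro t ht
    have hs : t - m ≠ 0 := sub_ne_zero.2 ht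
    have h1 := fun i => eval_reflect (A i) m (hnA i) hs
    have h2 := fun i => eval_reflect (B i) m (hnB i) hs
    simp only [sub_add_cancel] at h1 h2
    refine ⟨forall_congr' fun i => ?_, fun i => ?_⟩
    · rw [← h2 i, mul_ne_zero_iff, and_iff_left (pow_ne_zero _ hs)]
    · simp only [xk]
      rw [← h1 i, ← h2 i, mul_div_mul_right _ _ (pow_ne_zero _ hs)]
  refine ⟨m, fun i => reflect (n i) (taylor (m : ℂ) (A i)),
    fun i => reflect (n i) (taylor (m : ℂ) (B i)), hm, fun i => ⟨?_, ?_, ?_⟩,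
    fun h1 h2 => ⟨fun i => halg _ _ (h1 i), fun i => halg _ _ (h2 i)⟩,
    fun hN i j hij k hk => ?_, fun h i => hz i (h i).1, key⟩
  · rw [hdB]; exact hle _ _ (hnA i)
  · rw [hdB]; exact lt_max_iff.2 (hn i)
  · refine coprime_reflect (hc i) _ (hnA i) (hnB i) ?_
    rcases le_or_gt (A i).natDegree (B i).natDegree with h | h
    · exact Or.inr (hz i h)
    · left
      have : n i = (A i).natDegree := max_eq_left h.le
      rw [this]
      exact reflect_ne (ne_zero_of_natDegree_gt h) _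
  · by_contra hf
    push Not at hf
    obtain ⟨t, ht, h2⟩ := hN i j hij k hk
    refine h2 (iso_cofinite hk (fun hfin => Set.infinite_univ
      ((((npk_cofinite hB0).union hfin).insert (m : ℂ)).subset fun u _ => ?_)) t ht)
    by_cases hu : u = m
    · exact Or.inl hu
    by_cases hu' : NPk B u
    · have := hf _ ((key u hu).1.1 hu')
      rw [(key u hu).2, (key u hu).2] at this
      exact Or.inr (Or.inr ⟨hu', this⟩)
    · exact Or.inr (Or.inl hu')

end Pool.Agent.Lib.ZP3
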