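import Pool.Agent.Lib.ZP3.CurveA
import Pool.Agent.Lib.ZP3.Hecke

open UpperHalfPlane Filter Topology Metric Polynomial
open scoped Real

namespace Pool.Agent.Lib.ZP3

open CURVE

variable {A B : Fin 3 → Polynomial ℂ}

theorem iso_finite (h : Adm A B) {i j : Fin 3} (hij : i ≠ j) {n : ℕ} (hn : 0 < n) :
    {t : ℂ | NP B t ∧ Iso n (xv A B i t) (xv A B j t)}.Finite := by
  obtain ⟨Φ, hΦ, -, hI⟩ := hecke_poly hn
  obtain ⟨Ξ, h0, h1, -⟩ := exists_Xi' h hij hΦ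
  exact (finite_setOfPred_isRoot h0).subset fun t ht => h1 t ht.1 ((hI _ _).1 ht.2)

theorem iso_algebraic (h : Adm A B) (hA : Alg A) (hB : Alg B) {i j : Fin 3} (hij : i ≠ j) {n : ℕ}
    (hn : 0 < n) {t : ℂ} (ht : NP B t) (hI : Iso n (xv A B i t) (xv A B j t)) :
    IsAlgebraic ℚ t := by
  obtain ⟨Φ, hΦ, -, hI'⟩ := hecke_poly hn
  obtain ⟨Ξ, h0, h1, h2⟩ := exists_Xi' h hij hΦ
  exact alg_root (h2 hA hB) h0 (h1 t ht ((hI' _ _).1 hI))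

end Pool.Agent.Lib.ZP3
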