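import Pool.Agent.Lib.ZP3.TateCore
import Pool.Agent.Lib.ZP3.Hecke

/-! Block TATE. -/

open UpperHalfPlane Filter Topology Metric
open scoped Real

namespace Pool.Agent.Lib.ZP3

open Pool.Agent.Lib.MP_0704bf_ag Pool.Agent.Lib.helper6

variable {p : ℕ} [Fact p.Prime]

/-- Tate parameters: a function `J` on the punctured unit disc of `ℂ_p` -/
theorem exists_tate (p : ℕ) [Fact p.Prime] : ∃ J : ℂ_[p] → ℂ_[p],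
    (∀ x : ℂ_[p], 1 < ‖x‖ → ∃ Q, Q ≠ 0 ∧ ‖Q‖ < 1 ∧ J Q = x) ∧
    (∀ Q, Q ≠ 0 → ‖Q‖ < 1 → ‖J Q‖ = ‖Q‖⁻¹) ∧
    (∀ Q Q', Q ≠ 0 → ‖Q‖ < 1 → Q' ≠ 0 → ‖Q'‖ < 1 → ‖(J Q)⁻¹ - (J Q')⁻¹‖ = ‖Q - Q'‖) ∧
    ∀ (ι : ℂ →+* ℂ_[p]) (x y : ℂ) (Q Q' : ℂ_[p]), Q ≠ 0 → ‖Q‖ < 1 → Q' ≠ 0 → ‖Q'‖ < 1 →
      J Q = ι x → J Q' = ι y →
      ∀ N : ℕ, 0 < N → (Iso N x y ↔ ∃ a d : ℕ, a * d = N ∧ Q' ^ d = Q ^ a) := by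
  obtain ⟨Jc, h0, hJ⟩ := exists_Jc
  exact TATE.exists_tate_of h0 hJ fun N hN ↦ hecke_poly hN

theorem Iso.norm_le_one {N : ℕ} (hN : 0 < N) {x y : ℂ} (h : Iso N x y) (ι : ℂ →+* ℂ_[p])
    (hx : ‖ι x‖ ≤ 1) : ‖ι y‖ ≤ 1 := by
  obtain ⟨Φ, hΦ, -, hI⟩ := hecke_poly hN
  refine TATE.norm_le_one_of_ev2 hΦ hx ?_
  rw [← TATE.map_ev2, (hI x y).mp h, map_zero]

theorem root_of_unity_eq_one {ξ : ℂ_[p]} {n : ℕ} (hn : 0 < n) (h : ξ ^ n = 1)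
    (h1 : ‖ξ - 1‖ < (p : ℝ)⁻¹) : ξ = 1 :=
  TATE.root_eq_one (fun _ hl ↦ TATE.norm_prime hl) n hn ξ h h1

end Pool.Agent.Lib.ZP3
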