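import Pool.Agent.Lib.ZP3.Arith
import Pool.Agent.Lib.ZP3.Curve
import Pool.Agent.Lib.ZP3.Tate

/-! Block INT: special points are almost integral with respect to the poles. -/

open Filter Topology Metric Polynomial

namespace Pool.Agent.Lib.ZP3

namespace IntPts

section ultra

variable {K : Type*} [NormedField K] [IsUltrametricDist K]

theorem norm_sub_le_max (a b : K) : ‖a - b‖ ≤ max ‖a‖ ‖b‖ := by
  simpa [sub_eq_add_neg] using IsUltrametricDist.norm_add_le_max a (-b)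

theorem norm_eq_of_lt {a b : K} (h : ‖a - b‖ < ‖b‖) : ‖a‖ = ‖b‖ := by
  have h1 := IsUltrametricDist.norm_add_le_max (a - b) b
  have h2 := norm_sub_le_max a (a - b)
  rw [sub_add_cancel, max_eq_right h.le] at h1
  rw [sub_sub_cancel] at h2
  exact le_antisymm h1 ((le_max_iff.1 h2).resolve_right (not_le.2 h))

theorem norm_le_one_of_sub {a b : K} (h : ‖a - b‖ ≤ 1) (hb : ‖b‖ ≤ 1) : ‖a‖ ≤ 1 := by
  have h1 := IsUltrametricDist.norm_add_le_max (a - b) b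
  rw [sub_add_cancel] at h1
  exact h1.trans (max_le h hb)

theorem norm_pow_sub_pow {a b : K} (ha : ‖a‖ ≤ 1) (hb : ‖b‖ ≤ 1) (n : ℕ) :
    ‖a ^ n - b ^ n‖ ≤ ‖a - b‖ := by
  induction n with
  | zero => simp
  | succ n ih =>
    have : a ^ (n + 1) - b ^ (n + 1) = a * (a ^ n - b ^ n) + (a - b) * b ^ n := by ring
    rw [this]
    refine (IsUltrametricDist.norm_add_le_max _ _).trans (max_le ?_ ?_)
    · rw [norm_mul]; exact (mul_le_of_le_one_left (norm_nonneg _) ha).trans ih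
    · rw [norm_mul, norm_pow]
      exact mul_le_of_le_one_right (norm_nonneg _) (pow_le_one₀ (norm_nonneg _) hb)

theorem norm_sum_le {s : Finset ℕ} {f : ℕ → K} {C : ℝ} (hC : 0 ≤ C) (h : ∀ i ∈ s, ‖f i‖ ≤ C) :
    ‖∑ i ∈ s, f i‖ ≤ C := by
  induction s using Finset.induction_on with
  | empty => simpa using hC
  | insert a s ha ih =>
    rw [Finset.sum_insert ha]
    exact (IsUltrametricDist.norm_add_le_max _ _).trans (max_le (h a (by simp))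
      (ih fun i hi => h i (by simp [hi])))

theorem norm_eval_le {f : K[X]} (hf : ∀ n, ‖f.coeff n‖ ≤ 1) {a : K} (ha : ‖a‖ ≤ 1) :
    ‖f.eval a‖ ≤ 1 := by
  rw [eval_eq_sum_range]
  refine norm_sum_le zero_le_one fun i _ => ?_
  rw [norm_mul, norm_pow]
  exact mul_le_one₀ (hf i) (by positivity) (pow_le_one₀ (norm_nonneg _) ha)

theorem norm_eval_sub {f : K[X]} (hf : ∀ n, ‖f.coeff n‖ ≤ 1) {a b : K} (ha : ‖a‖ ≤ 1)
    (hb : ‖b‖ ≤ 1) : ‖f.eval a - f.eval b‖ ≤ ‖a - b‖ := by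
  rw [eval_eq_sum_range, eval_eq_sum_range, ← Finset.sum_sub_distrib]
  refine norm_sum_le (norm_nonneg _) fun i _ => ?_
  rw [← mul_sub, norm_mul]
  exact (mul_le_of_le_one_left (norm_nonneg _) (hf i)).trans (norm_pow_sub_pow ha hb i)

/-- quotients of powers of elements close to given ones -/
theorem close_quot {x x0 y y0 : K} {r : ℝ} (hr : r ≤ 1) (hx0 : x0 ≠ 0) (hy0 : y0 ≠ 0)
    (hx : ‖x - x0‖ < ‖x0‖ * r) (hy : ‖y - y0‖ < ‖y0‖ * r) {a d : ℕ} (h : y0 ^ d = x0 ^ a) :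
    ‖x ^ a / y ^ d - 1‖ < r := by
  have key : ∀ {x x0 : K}, x0 ≠ 0 → ‖x - x0‖ < ‖x0‖ * r → ‖x / x0 - 1‖ < r := fun {x x0} h0 h => by
    rw [div_sub_one h0, norm_div, div_lt_iff₀ (norm_pos_iff.2 h0), mul_comm]; exact h
  have hu := key hx0 hx
  have hv := key hy0 hy
  have nu : ‖x / x0‖ = 1 := by simpa using norm_eq_of_lt (a := x / x0) (b := (1 : K)) (by simpa using hu.trans_le hr)
  have nv : ‖y / y0‖ = 1 := by simpa using norm_eq_of_lt (a := y / y0) (b := (1 : K)) (by simpa using hv.trans_le hr)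
  have hy' : y ≠ 0 := by rintro rfl; simp at nv
  have e : x ^ a / y ^ d - 1 = (((x / x0) ^ a - 1 ^ a) - ((y / y0) ^ d - 1 ^ d)) / (y / y0) ^ d := by
    rw [div_pow, div_pow, h]; field_simp; ring
  rw [e, norm_div, norm_pow, nv, one_pow (M := ℝ), div_one]
  exact (norm_sub_le_max _ _).trans_lt (max_lt
    ((norm_pow_sub_pow nu.le (by simp) a).trans_lt hu)
    ((norm_pow_sub_pow nv.le (by simp) d).trans_lt hv))

end ultra

theorem finite_hom {K : Type*} [Field K] [CharZero K] {z : ℂ} (hz : IsAlgebraic ℚ z) :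
    (Set.range fun ι : ℂ →+* K ↦ ι z).Finite := by
  obtain ⟨f, hf, hz⟩ := hz
  refine (f.rootSet_finite K).subset ?_
  rintro _ ⟨ι, rfl⟩
  rw [mem_rootSet]
  refine ⟨hf, ?_⟩
  have := aeval_algHom_apply ι.toRatAlgHom z f
  rw [hz, map_zero] at this
  exact this

theorem finite_map {K : Type*} [Field K] [CharZero K] {f : ℂ[X]}
    (hf : ∀ n, IsAlgebraic ℚ (f.coeff n)) : (Set.range fun ι : ℂ →+* K ↦ f.map ι).Finite := by
  have h1 : {c : Fin (f.natDegree + 1) → K | ∀ n : Fin (f.natDegree + 1), c n ∈ Set.range fun ι : ℂ →+* K ↦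
      ι (f.coeff n)}.Finite := Set.Finite.pi' fun n => finite_hom (hf n)
  refine (h1.image fun c => ∑ n : Fin (f.natDegree + 1), monomial n (c n)).subset ?_
  rintro _ ⟨ι, rfl⟩
  refine ⟨fun n => ι (f.coeff n), fun n => ⟨ι, rfl⟩, ?_⟩
  conv_rhs => rw [f.as_sum_range]
  simp only [Polynomial.map_sum, Polynomial.map_monomial]
  exact Fin.sum_univ_eq_sum_range (fun n => monomial n (ι (f.coeff n))) _

theorem alg_eval {f : ℂ[X]} (hf : ∀ n, IsAlgebraic ℚ (f.coeff n)) {z : ℂ} (hz : IsAlgebraic ℚ z) :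
    IsAlgebraic ℚ (f.eval z) := by
  rw [eval_eq_sum_range, isAlgebraic_iff_isIntegral]
  exact IsIntegral.sum _ fun i _ => (hf i).isIntegral.mul (hz.isIntegral.pow i)

theorem alg_root {f : ℂ[X]} (hf : ∀ n, IsAlgebraic ℚ (f.coeff n)) (h0 : f ≠ 0) {z : ℂ}
    (hz : f.eval z = 0) : IsAlgebraic ℚ z := by
  let F := algebraicClosure ℚ ℂ
  have hl : f ∈ lifts (algebraMap F ℂ) := by
    rw [lifts_iff_coeff_lifts]
    exact fun n => ⟨⟨f.coeff n, mem_algebraicClosure_iff.2 (hf n)⟩, rfl⟩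
  obtain ⟨g, hg⟩ := hl
  have hg' : g.map (algebraMap F ℂ) = f := hg
  have h1 : IsAlgebraic F z := ⟨g, by rintro rfl; exact h0 (by simpa using hg'.symm),
    by rw [aeval_def, eval₂_eq_eval_map, hg', hz]⟩
  have : Algebra.IsAlgebraic ℚ F := algebraicClosure.isAlgebraic ℚ ℂ
  exact h1.restrictScalars ℚ

theorem common_den (S : Set ℂ) (hS : S.Finite) (h : ∀ z ∈ S, IsAlgebraic ℚ z) :
    ∃ d : ℕ, 0 < d ∧ ∀ z ∈ S, IsIntegral ℤ (d * z) := by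
  induction S, hS using Set.Finite.induction_on with
  | empty => exact ⟨1, one_pos, by simp⟩
  | @insert a S _ _ ih =>
    obtain ⟨d, hd, h1⟩ := ih fun z hz => h z (Or.inr hz)
    obtain ⟨e, _, he, h2, -⟩ := exists_AI (h a (Or.inl rfl))
    refine ⟨d * e, Nat.mul_pos hd he, ?_⟩
    rintro z (rfl | hz)
    · simpa [mul_assoc] using (isIntegral_natCast (B := ℂ) d).mul h2
    · have := (isIntegral_natCast (B := ℂ) e).mul (h1 z hz)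
      rwa [← mul_assoc, mul_comm (e : ℂ), ← Nat.cast_mul] at this

variable {p : ℕ} [Fact p.Prime]

theorem norm_natCast (n : ℕ) : ‖(n : ℂ_[p])‖ = ‖(n : ℚ_[p])‖ := by
  rw [← PadicComplex.norm_extends' p (n : ℚ_[p])]; simp

theorem eval_ne_of_coprime {f g : ℂ[X]} (h : IsCoprime f g) {z : ℂ} (hz : g.eval z = 0) :
    f.eval z ≠ 0 := fun hf => by
  obtain ⟨a, b, e⟩ := h
  have := congrArg (eval z) e
  simp [hf, hz] at this

theorem map_xv (A B : Fin 3 → ℂ[X]) (ι : ℂ →+* ℂ_[p]) (l : Fin 3) (t : ℂ) :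
    ι (xv A B l t) = ((A l).map ι).eval (ι t) / ((B l).map ι).eval (ι t) := by
  simp [xv]

/-- special points -/
def Sp (A B : Fin 3 → ℂ[X]) (t : ℂ) : Prop :=
  NP B t ∧ ∀ i j, ∃ n, 0 < n ∧ Iso n (xv A B i t) (xv A B j t)

theorem good_primes {A B : Fin 3 → ℂ[X]} (h : Adm A B) (hA : Alg A) (hB : Alg B) {i k : Fin 3}
    (hik : i ≠ k) {P : ℂ} (hP : (B k).eval P = 0) :
    ∃ d : ℕ, 0 < d ∧ ∀ (p : ℕ) [Fact p.Prime], ¬ p ∣ d → ∀ (ι : ℂ →+* ℂ_[p]) t, Sp A B t →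
      1 ≤ ‖ι t - ι P‖ := by
  have hB0 : B k ≠ 0 := fun e => by have := (h.1 k).2.1; simp [e] at this
  have hPa := alg_root (hB k) hB0 hP
  have fin : ∀ f : ℂ[X], (Set.range f.coeff).Finite := fun f =>
    ((f.support.finite_toSet.image f.coeff).insert 0).subset (by
      rintro _ ⟨n, rfl⟩
      by_cases hn : n ∈ f.support
      · exact Or.inr ⟨n, hn, rfl⟩
      · exact Or.inl (notMem_support_iff.1 hn))
  obtain ⟨d, hd, hint⟩ := common_den ((⋃ l, Set.range (A l).coeff) ∪ (⋃ l, Set.range (B l).coeff) ∪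
      {P, ((B i).eval P)⁻¹, ((A k).eval P)⁻¹})
    (((Set.finite_iUnion fun l => fin _).union (Set.finite_iUnion fun l => fin _)).union
      (Set.toFinite _)) (by
      rintro z ((hz | hz) | rfl | rfl | rfl)
      · obtain ⟨l, n, rfl⟩ := Set.mem_iUnion.1 hz; exact hA l n
      · obtain ⟨l, n, rfl⟩ := Set.mem_iUnion.1 hz; exact hB l n
      · exact hPa
      · exact (alg_eval (hB i) hPa).inv
      · exact (alg_eval (hA k) hPa).inv)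
  refine ⟨d, hd, fun p _ hp ι t ht => ?_⟩
  have hd1 : ‖(d : ℂ_[p])‖ = 1 := by
    rw [norm_natCast, Padic.norm_natCast_eq_one_iff]
    exact ((Nat.Prime.coprime_iff_not_dvd Fact.out).2 hp)
  have hn : ∀ z, IsIntegral ℤ (d * z : ℂ) → ‖ι z‖ ≤ 1 := fun z hz => by
    have := norm_le_one_of_isIntegral (p := p) (z := ι (d * z))
      (by convert map_isIntegral_int ι hz; exact Subsingleton.elim _ _)
    simpa [hd1] using this
  have cA : ∀ l n, ‖((A l).map ι).coeff n‖ ≤ 1 := fun l n => by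
    rw [coeff_map]; exact hn _ (hint _ (Or.inl (Or.inl (Set.mem_iUnion.2 ⟨l, n, rfl⟩))))
  have cB : ∀ l n, ‖((B l).map ι).coeff n‖ ≤ 1 := fun l n => by
    rw [coeff_map]; exact hn _ (hint _ (Or.inl (Or.inr (Set.mem_iUnion.2 ⟨l, n, rfl⟩))))
  have nP : ‖ι P‖ ≤ 1 := hn _ (hint _ (Or.inr (by simp)))
  by_contra hlt
  rw [not_le] at hlt
  have nt : ‖ι t‖ ≤ 1 := norm_le_one_of_sub hlt.le nP
  have unit : ∀ f : ℂ[X], (∀ n, ‖(f.map ι).coeff n‖ ≤ 1) → f.eval P ≠ 0 → ‖ι (f.eval P)⁻¹‖ ≤ 1 →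
      ‖(f.map ι).eval (ι t)‖ = 1 := fun f hf h0 h1 => by
    have e1 := norm_eval_le hf nP
    rw [map_inv₀, norm_inv, ← eval_map_apply,
      inv_le_one₀ (by rw [eval_map_apply]; simpa using h0)] at h1
    have e2 := le_antisymm e1 h1
    rw [← e2]
    exact norm_eq_of_lt (by rw [e2]; exact (norm_eval_sub hf nt nP).trans_lt hlt)
  have e1 := unit (B i) (cB i) (eval_ne_of_coprime (h.2 i k hik) hP)
    (hn _ (hint _ (Or.inr (by simp))))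
  have e2 := unit (A k) (cA k) (eval_ne_of_coprime (h.1 k).2.2 hP)
    (hn _ (hint _ (Or.inr (by simp))))
  obtain ⟨n, hn0, hI⟩ := ht.2 i k
  have e3 := hI.norm_le_one hn0 ι (by
    rw [map_xv, norm_div, e1, div_one]; exact norm_eval_le (cA i) nt)
  have e4 := (norm_eval_sub (cB k) nt nP).trans_lt hlt
  rw [eval_map_apply ι P, hP, map_zero, sub_zero] at e4
  rw [map_xv, norm_div, e2, div_le_one (by
    rw [eval_map_apply]; simpa using ht.1 k)] at e3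
  linarith

theorem bad_prime_data {A B : Fin 3 → ℂ[X]} (h : Adm A B) {i j k : Fin 3} (hij : i ≠ j)
    (hik : i ≠ k) (hjk : j ≠ k) {P : ℂ} (hP : (B k).eval P = 0) (ι1 : ℂ →+* ℂ_[p]) :
    ∃ (ρ : ℝ) (Z : Set ℂ), 0 < ρ ∧ Z.Finite ∧ ∀ ι : ℂ →+* ℂ_[p],
      (∀ l, (A l).map ι = (A l).map ι1) → (∀ l, (B l).map ι = (B l).map ι1) → ι P = ι1 P →
      ∀ t, t ∉ Z → Sp A B t → ρ ≤ ‖ι t - ι P‖ := by
  set π := ι1 P with hπ
  let x : Fin 3 → ℂ_[p] → ℂ_[p] := fun l s => ((A l).map ι1).eval s / ((B l).map ι1).eval s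
  have hp1 : (1 : ℝ) < p := by exact_mod_cast (Fact.out : p.Prime).one_lt
  have ne : ∀ {f : ℂ[X]}, IsCoprime f (B k) → (f.map ι1).eval π ≠ 0 := fun hf => by
    rw [hπ, eval_map_apply]; simpa using eval_ne_of_coprime hf hP
  have ek : ∀ᶠ s in 𝓝 π, ‖((B k).map ι1).eval s‖ < ‖((A k).map ι1).eval s‖ := by
    refine ContinuousAt.eventually_lt (by fun_prop) (by fun_prop) ?_
    rw [hπ, eval_map_apply ι1 P, hP, map_zero, norm_zero, ← hπ]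
    exact norm_pos_iff.2 (ne (h.1 k).2.2)
  have el : ∀ l, l ≠ k → ∀ᶠ s in 𝓝 π, (‖x l π‖ ≤ 1 → ‖x l s‖ ≤ 1) ∧
      (1 < ‖x l π‖ → ‖(x l s)⁻¹ - (x l π)⁻¹‖ < ‖(x l π)⁻¹‖ * (p : ℝ)⁻¹) := fun l hl => by
    have hc : ContinuousAt (x l) π := ContinuousAt.div (by fun_prop) (by fun_prop) (ne (h.2 l k hl))
    rcases le_or_gt ‖x l π‖ 1 with e | e
    · filter_upwards [Metric.continuousAt_iff'.1 hc 1 one_pos] with s hs
      exact ⟨fun _ => norm_le_one_of_sub (by rw [← dist_eq_norm]; exact hs.le) e,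
        fun e' => absurd e (not_le.2 e')⟩
    · have h0 : x l π ≠ 0 := norm_pos_iff.1 (by linarith)
      filter_upwards [Metric.continuousAt_iff'.1 (hc.inv₀ h0) (‖(x l π)⁻¹‖ * (p : ℝ)⁻¹)
        (mul_pos (norm_pos_iff.2 (inv_ne_zero h0)) (by positivity))] with s hs
      exact ⟨fun e' => absurd e' (not_le.2 e), fun _ => by rw [← dist_eq_norm]; exact hs⟩
  obtain ⟨ρ, hρ, hball⟩ := Metric.eventually_nhds_iff.1 (ek.and ((el i hik).and (el j hjk)))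
  obtain ⟨J, J1, J2, J3, J4⟩ := exists_tate p
  -- data attached to a special point in the ball
  have data : ∀ (ι : ℂ →+* ℂ_[p]) (t : ℂ), (∀ l, (A l).map ι = (A l).map ι1) →
      (∀ l, (B l).map ι = (B l).map ι1) → Sp A B t → ‖ι t - π‖ < ρ →
      ∃ Qi Qj : ℂ_[p], (Qi ≠ 0 ∧ ‖Qi‖ < 1 ∧ J Qi = ι (xv A B i t) ∧ ‖Qi‖ = ‖(x i π)⁻¹‖ ∧
        ‖(J Qi)⁻¹ - (x i π)⁻¹‖ < ‖(x i π)⁻¹‖ * (p : ℝ)⁻¹) ∧
        (Qj ≠ 0 ∧ ‖Qj‖ < 1 ∧ J Qj = ι (xv A B j t) ∧ ‖Qj‖ = ‖(x j π)⁻¹‖ ∧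
        ‖(J Qj)⁻¹ - (x j π)⁻¹‖ < ‖(x j π)⁻¹‖ * (p : ℝ)⁻¹) ∧
        ∃ a d : ℕ, 0 < a ∧ 0 < d ∧ Qj ^ d = Qi ^ a := by
    intro ι t eA eB ht hlt
    have hx : ∀ l, ι (xv A B l t) = x l (ι t) := fun l => by rw [map_xv, eA, eB]
    obtain ⟨b1, b2, b3⟩ := hball (y := ι t) (by rwa [dist_eq_norm])
    have hk : 1 < ‖ι (xv A B k t)‖ := by
      rw [hx, norm_div, one_lt_div (by
        rw [← eB, eval_map_apply]; simpa using ht.1 k)]
      exact b1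
    have one : ∀ l, ((‖x l π‖ ≤ 1 → ‖x l (ι t)‖ ≤ 1) ∧ (1 < ‖x l π‖ →
        ‖(x l (ι t))⁻¹ - (x l π)⁻¹‖ < ‖(x l π)⁻¹‖ * (p : ℝ)⁻¹)) →
        ∃ Q : ℂ_[p], Q ≠ 0 ∧ ‖Q‖ < 1 ∧ J Q = ι (xv A B l t) ∧ ‖Q‖ = ‖(x l π)⁻¹‖ ∧
          ‖(J Q)⁻¹ - (x l π)⁻¹‖ < ‖(x l π)⁻¹‖ * (p : ℝ)⁻¹ := fun l hl => by
      obtain ⟨n, hn, hI⟩ := ht.2 l k
      have e1 : 1 < ‖ι (xv A B l t)‖ := not_le.1 fun e => absurd (hI.norm_le_one hn ι e) (not_le.2 hk)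
      have e2 : 1 < ‖x l π‖ := not_le.1 fun e => absurd (hl.1 e) (by rw [← hx]; exact not_le.2 e1)
      obtain ⟨Q, q1, q2, q3⟩ := J1 _ e1
      have e3 := hl.2 e2
      rw [← hx, ← q3] at e3
      refine ⟨Q, q1, q2, q3, ?_, e3⟩
      rw [← norm_eq_of_lt (e3.trans_le (mul_le_of_le_one_right (norm_nonneg _)
        (inv_le_one_of_one_le₀ hp1.le))), norm_inv, J2 Q q1 q2, inv_inv]
    obtain ⟨Qi, hi⟩ := one i b2
    obtain ⟨Qj, hj⟩ := one j b3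
    obtain ⟨n, hn, hI⟩ := ht.2 i j
    obtain ⟨a, d, e1, e2⟩ := (J4 ι _ _ Qi Qj hi.1 hi.2.1 hj.1 hj.2.1 hi.2.2.1 hj.2.2.1 n hn).1 hI
    exact ⟨Qi, Qj, hi, hj, a, d, Nat.pos_of_mul_pos_right (e1 ▸ hn),
      Nat.pos_of_mul_pos_left (e1 ▸ hn), e2⟩
  by_cases hex : ∃ (ι : ℂ →+* ℂ_[p]) (t : ℂ), (∀ l, (A l).map ι = (A l).map ι1) ∧
      (∀ l, (B l).map ι = (B l).map ι1) ∧ Sp A B t ∧ ‖ι t - π‖ < ρ
  swap
  · exact ⟨ρ, ∅, hρ, Set.finite_empty, fun ι eA eB eP t _ ht => not_lt.1 fun hlt =>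
      hex ⟨ι, t, eA, eB, ht, eP ▸ hlt⟩⟩
  obtain ⟨ι0, t0, eA0, eB0, ht0, hlt0⟩ := hex
  obtain ⟨Ri, Rj, ri, rj, a0, d0, ha0, hd0, e0⟩ := data ι0 t0 eA0 eB0 ht0 hlt0
  refine ⟨ρ, _, hρ, iso_finite h hij (Nat.mul_pos ha0 hd0), fun ι eA eB eP t htZ ht =>
    not_lt.1 fun hlt => htZ ⟨ht.1, ?_⟩⟩
  obtain ⟨Qi, Qj, qi, qj, a, d, ha, hd, e1⟩ := data ι t eA eB ht (eP ▸ hlt)
  refine (J4 ι _ _ Qi Qj qi.1 qi.2.1 qj.1 qj.2.1 qi.2.2.1 qj.2.2.1 _ (Nat.mul_pos ha0 hd0)).2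
    ⟨a0, d0, rfl, ?_⟩
  have close : ∀ {Q R y : ℂ_[p]}, Q ≠ 0 → ‖Q‖ < 1 → R ≠ 0 → ‖R‖ < 1 → ‖R‖ = ‖y‖ →
      ‖(J Q)⁻¹ - y‖ < ‖y‖ * (p : ℝ)⁻¹ → ‖(J R)⁻¹ - y‖ < ‖y‖ * (p : ℝ)⁻¹ →
      ‖Q - R‖ < ‖R‖ * (p : ℝ)⁻¹ := fun {Q R y} q1 q2 r1 r2 e h1 h2 => by
    rw [← J3 Q R q1 q2 r1 r2, e, ← sub_sub_sub_cancel_right _ _ y]
    exact (norm_sub_le_max _ _).trans_lt (max_lt h1 h2)
  have c1 := close qi.1 qi.2.1 ri.1 ri.2.1 ri.2.2.2.1 qi.2.2.2.2 ri.2.2.2.2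
  have c2 := close qj.1 qj.2.1 rj.1 rj.2.1 rj.2.2.2.1 qj.2.2.2.2 rj.2.2.2.2
  have c3 := close_quot (inv_le_one_of_one_le₀ hp1.le) ri.1 rj.1 c1 c2 e0
  have n1 := congrArg norm e1
  have n0 := congrArg norm e0
  rw [norm_pow, norm_pow, qi.2.2.2.1, qj.2.2.2.1, ← ri.2.2.2.1, ← rj.2.2.2.1] at n1
  rw [norm_pow, norm_pow] at n0
  have hexp : a * d0 = a0 * d := by
    refine pow_right_injective₀ (norm_pos_iff.2 ri.1) ri.2.1.ne ?_
    change ‖Ri‖ ^ (a * d0) = ‖Ri‖ ^ (a0 * d)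
    rw [pow_mul, pow_mul, ← n1, ← n0, ← pow_mul, ← pow_mul, mul_comm]
  have hξ : (Qi ^ a0 / Qj ^ d0) ^ d = 1 := by
    rw [div_pow, ← pow_mul, ← pow_mul, ← hexp, mul_comm d0 d, pow_mul Qj, e1, ← pow_mul,
      div_self (pow_ne_zero _ qi.1)]
  have := root_of_unity_eq_one hd hξ c3
  rw [div_eq_one_iff_eq (pow_ne_zero _ qj.1)] at this
  exact this.symm

theorem bad_prime {A B : Fin 3 → ℂ[X]} (h : Adm A B) (hA : Alg A) (hB : Alg B) {i j k : Fin 3}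
    (hij : i ≠ j) (hik : i ≠ k) (hjk : j ≠ k) {P : ℂ} (hP : (B k).eval P = 0) (p : ℕ)
    [Fact p.Prime] : ∃ (e : ℕ) (Z : Set ℂ), Z.Finite ∧ ∀ (ι : ℂ →+* ℂ_[p]) t, t ∉ Z → Sp A B t →
      ((p : ℝ)⁻¹) ^ e ≤ ‖ι t - ι P‖ := by
  have hB0 : B k ≠ 0 := fun e => by have := (h.1 k).2.1; simp [e] at this
  let D : (ℂ →+* ℂ_[p]) → (Fin 3 → ℂ_[p][X]) × (Fin 3 → ℂ_[p][X]) × ℂ_[p] :=
    fun ι => (fun l => (A l).map ι, fun l => (B l).map ι, ι P)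
  have hD : (Set.range D).Finite :=
    ((Set.Finite.pi' fun l => finite_map (K := ℂ_[p]) (hA l)).prod
      ((Set.Finite.pi' fun l => finite_map (K := ℂ_[p]) (hB l)).prod
        (finite_hom (K := ℂ_[p]) (alg_root (hB k) hB0 hP)))).subset (by
      rintro _ ⟨ι, rfl⟩
      exact ⟨fun l => ⟨ι, rfl⟩, fun l => ⟨ι, rfl⟩, ι, rfl⟩)
  have hp1 : (1 : ℝ) < p := by exact_mod_cast (Fact.out : p.Prime).one_lt
  have key : ∀ δ : Set.range D, ∃ (e : ℕ) (Z : Set ℂ), Z.Finite ∧ ∀ ι : ℂ →+* ℂ_[p], D ι = δ →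
      ∀ t, t ∉ Z → Sp A B t → ((p : ℝ)⁻¹) ^ e ≤ ‖ι t - ι P‖ := by
    rintro ⟨_, ι1, rfl⟩
    obtain ⟨ρ, Z, h1, h2, h3⟩ := bad_prime_data h hij hik hjk hP ι1
    obtain ⟨e, he⟩ := exists_pow_lt_of_lt_one h1 (inv_lt_one_of_one_lt₀ hp1)
    refine ⟨e, Z, h2, fun ι hι t ht hs => he.le.trans (h3 ι (congrFun (congrArg Prod.fst hι))
      (congrFun (congrArg (fun x => x.2.1) hι)) (congrArg (fun x => x.2.2) hι) t ht hs)⟩
  choose e Z h1 h2 using key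
  have := hD.to_subtype
  obtain ⟨E, hE⟩ := (Set.finite_range e).bddAbove
  refine ⟨E, ⋃ δ, Z δ, Set.finite_iUnion h1, fun ι t ht hs => le_trans ?_
    (h2 ⟨D ι, ι, rfl⟩ ι rfl t (fun h' => ht (Set.mem_iUnion.2 ⟨_, h'⟩)) hs)⟩
  exact pow_le_pow_of_le_one (by positivity) (inv_le_one_of_one_le₀ hp1.le) (hE ⟨_, rfl⟩)

theorem one_pole {A B : Fin 3 → ℂ[X]} (h : Adm A B) (hA : Alg A) (hB : Alg B) (k : Fin 3) {P : ℂ}
    (hP : (B k).eval P = 0) : ∃ (d0 : ℕ) (Z : Set ℂ), 0 < d0 ∧ Z.Finite ∧ ∀ t, t ∉ Z → Sp A B t →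
      IsIntegral ℤ ((d0 : ℂ) / (t - P)) := by
  classical
  obtain ⟨i, j, hij, hik, hjk⟩ : ∃ i j : Fin 3, i ≠ j ∧ i ≠ k ∧ j ≠ k := by clear hP; revert k; decide
  have hB0 : B k ≠ 0 := fun e => by have := (h.1 k).2.1; simp [e] at this
  obtain ⟨d, hd, h1⟩ := good_primes h hA hB hik hP
  have key : ∀ p : ℕ, ∃ (e : ℕ) (Z : Set ℂ), Z.Finite ∧ ∀ [Fact p.Prime] (ι : ℂ →+* ℂ_[p]) t,
      t ∉ Z → Sp A B t → ((p : ℝ)⁻¹) ^ e ≤ ‖ι t - ι P‖ := fun p => by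
    by_cases hp : p.Prime
    · have := Fact.mk hp
      obtain ⟨e, Z, h2, h3⟩ := bad_prime h hA hB hij hik hjk hP p
      exact ⟨e, Z, h2, fun ι => h3 ι⟩
    · exact ⟨0, ∅, Set.finite_empty, fun {hp'} => absurd hp'.out hp⟩
  choose e Z h2 h3 using key
  refine ⟨∏ q ∈ d.primeFactors, q ^ e q, ⋃ q ∈ d.primeFactors, Z q,
    Finset.prod_pos fun q hq => pow_pos (Nat.prime_of_mem_primeFactors hq).pos _,
    d.primeFactors.finite_toSet.biUnion fun q _ => h2 q, fun t ht hs => ?_⟩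
  obtain ⟨n, hn, hI⟩ := hs.2 i j
  have hta := iso_algebraic h hA hB hij hn hs.1 hI
  have htP : t - P ≠ 0 := sub_ne_zero.2 fun e => hs.1 k (e ▸ hP)
  refine isIntegral_of_padic ?_ fun p _ ι => ?_
  · rw [div_eq_mul_inv]
    exact (isAlgebraic_natCast _).mul (hta.sub (alg_root (hB k) hB0 hP)).inv
  rw [map_div₀, norm_div, map_natCast, div_le_one (norm_pos_iff.2 ((map_ne_zero ι).2 htP)), map_sub]
  by_cases hp : p ∣ d
  · have hm : p ∈ d.primeFactors := Nat.mem_primeFactors.2 ⟨Fact.out, hp, hd.ne'⟩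
    refine le_trans ?_ (h3 p ι t (fun h' => ht (Set.mem_biUnion hm h')) hs)
    rw [← Finset.mul_prod_erase _ _ hm, Nat.cast_mul, norm_mul, Nat.cast_pow, norm_pow,
      norm_natCast p, Padic.norm_p]
    exact mul_le_of_le_one_right (by positivity) (IsUltrametricDist.norm_natCast_le_one _ _)
  · exact (IsUltrametricDist.norm_natCast_le_one _ _).trans (h1 p hp ι t hs)

end IntPts

theorem integral_points {A B : Fin 3 → Polynomial ℂ} (h : Adm A B) (hA : Alg A) (hB : Alg B) :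
    ∃ (d0 : ℕ) (Z : Set ℂ), 0 < d0 ∧ Z.Finite ∧ ∀ t, t ∉ Z → NP B t →
      (∀ i j, ∃ n, 0 < n ∧ Iso n (xv A B i t) (xv A B j t)) →
      ∀ i P, (B i).eval P = 0 → IsIntegral ℤ ((d0 : ℂ) / (t - P)) := by
  classical
  have hB0 : ∀ k, B k ≠ 0 := fun k e => by have := (h.1 k).2.1; simp [e] at this
  have key : ∀ P : ℂ, ∃ (d0 : ℕ) (Z : Set ℂ), 0 < d0 ∧ Z.Finite ∧ ((∃ k, (B k).eval P = 0) →
      ∀ t, t ∉ Z → IntPts.Sp A B t → IsIntegral ℤ ((d0 : ℂ) / (t - P))) := fun P => by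
    by_cases hP : ∃ k, (B k).eval P = 0
    · obtain ⟨k, hk⟩ := hP
      obtain ⟨d, Z, h1, h2, h3⟩ := IntPts.one_pole h hA hB k hk
      exact ⟨d, Z, h1, h2, fun _ => h3⟩
    · exact ⟨1, ∅, one_pos, Set.finite_empty, fun h' => absurd h' hP⟩
  choose d Z h1 h2 h3 using key
  let S : Finset ℂ := Finset.univ.biUnion fun k => (B k).roots.toFinset
  refine ⟨∏ P ∈ S, d P, ⋃ P ∈ S, Z P, Finset.prod_pos fun P _ => h1 P,
    S.finite_toSet.biUnion fun P _ => h2 P, fun t ht hn hs k P hP => ?_⟩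
  have hm : P ∈ S := Finset.mem_biUnion.2 ⟨k, Finset.mem_univ _,
    Multiset.mem_toFinset.2 ((mem_roots (hB0 k)).2 hP)⟩
  rw [← Finset.prod_erase_mul _ _ hm, Nat.cast_mul, mul_div_assoc]
  exact (isIntegral_natCast _).mul (h3 P ⟨k, hP⟩ t (fun h' => ht (Set.mem_biUnion hm h')) ⟨hn, hs⟩)

end Pool.Agent.Lib.ZP3
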