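import Pool.Agent.Lib.ZP3.Defs2
import Pool.Agent.Lib.ZP3.IntPts

/-! Block CVP: ultrametric estimates for rational functions with algebraic coefficients. -/

open Polynomial

namespace Pool.Agent.Lib.ZP3

namespace CVP

section padic

variable {p : ℕ} [Fact p.Prime]

lemma nle (d : ℕ) : ‖(d : ℂ_[p])‖ ≤ 1 := IsUltrametricDist.norm_natCast_le_one _ d

lemma npos {d : ℕ} (hd : 0 < d) : 0 < ‖(d : ℂ_[p])‖ :=
  norm_pos_iff.2 (by exact_mod_cast hd.ne')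

lemma nmul (d e : ℕ) : ‖((d * e : ℕ) : ℂ_[p])‖ = ‖(d : ℂ_[p])‖ * ‖(e : ℂ_[p])‖ := by
  rw [Nat.cast_mul, norm_mul]

lemma npow (d k : ℕ) : ‖((d ^ k : ℕ) : ℂ_[p])‖ = ‖(d : ℂ_[p])‖ ^ k := by
  rw [Nat.cast_pow, norm_pow]

lemma ndvd {d e : ℕ} (h : d ∣ e) : ‖(e : ℂ_[p])‖ ≤ ‖(d : ℂ_[p])‖ := by
  obtain ⟨k, rfl⟩ := h
  rw [nmul]
  exact mul_le_of_le_one_right (norm_nonneg _) (nle k)

lemma int_le (ι : ℂ →+* ℂ_[p]) {d : ℕ} {z : ℂ} (h : IsIntegral ℤ (d * z)) :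
    ‖(d : ℂ_[p])‖ * ‖ι z‖ ≤ 1 := by
  have := norm_le_one_of_isIntegral (p := p) (z := ι (d * z))
    (by convert map_isIntegral_int ι h; exact Subsingleton.elim _ _)
  rwa [map_mul, map_natCast, norm_mul] at this

lemma ev_le (ι : ℂ →+* ℂ_[p]) {R : ℂ[X]} {δ : ℝ} (hδ : 0 ≤ δ) (h : ∀ n, δ * ‖ι (R.coeff n)‖ ≤ 1)
    {N : ℕ} (hN : R.natDegree ≤ N) (z : ℂ) : δ * ‖ι (R.eval z)‖ ≤ max 1 ‖ι z‖ ^ N := by
  rcases hδ.eq_or_lt with rfl | hδ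
  · rw [zero_mul]
    positivity
  rw [← le_div_iff₀' hδ, eval_eq_sum_range, map_sum]
  refine IntPts.norm_sum_le (by positivity) fun i hi => ?_
  rw [le_div_iff₀' hδ, map_mul, map_pow, norm_mul, norm_pow, ← mul_assoc]
  have hi' : i ≤ N := by
    have := Finset.mem_range.1 hi
    omega
  calc δ * ‖ι (R.coeff i)‖ * ‖ι z‖ ^ i ≤ 1 * max 1 ‖ι z‖ ^ i := by
        gcongr
        · exact h i
        · exact le_max_right _ _
    _ ≤ max 1 ‖ι z‖ ^ N := by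
        rw [one_mul]
        exact pow_le_pow_right₀ (le_max_left _ _) hi'

end padic

lemma den_set (S : Set ℂ) (hS : S.Finite) (h : ∀ z ∈ S, IsAlgebraic ℚ z) : ∃ d : ℕ, 0 < d ∧
    ∀ (p : ℕ) [Fact p.Prime] (ι : ℂ →+* ℂ_[p]), ∀ z ∈ S, ‖(d : ℂ_[p])‖ * ‖ι z‖ ≤ 1 ∧
      (z ≠ 0 → ‖(d : ℂ_[p])‖ ≤ ‖ι z‖) := by
  obtain ⟨d, hd, h1⟩ := IntPts.common_den (S ∪ (fun z => z⁻¹) '' S) (hS.union (hS.image _)) (by
    rintro z (hz | ⟨w, hw, rfl⟩)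
    · exact h z hz
    · exact (h w hw).inv)
  refine ⟨d, hd, fun p _ ι z hz => ⟨int_le ι (h1 z (Or.inl hz)), fun h0 => ?_⟩⟩
  have h2 := int_le ι (h1 z⁻¹ (Or.inr ⟨z, hz, rfl⟩))
  have h3 : 0 < ‖ι z‖ := norm_pos_iff.2 ((map_ne_zero ι).2 h0)
  rwa [map_inv₀, norm_inv, ← div_eq_mul_inv, div_le_one h3] at h2

lemma den_poly {R : ℂ[X]} (hR : AlgP R) : ∃ d : ℕ, 0 < d ∧
    ∀ (p : ℕ) [Fact p.Prime] (ι : ℂ →+* ℂ_[p]) (n : ℕ), ‖(d : ℂ_[p])‖ * ‖ι (R.coeff n)‖ ≤ 1 ∧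
      (R.coeff n ≠ 0 → ‖(d : ℂ_[p])‖ ≤ ‖ι (R.coeff n)‖) := by
  obtain ⟨d, hd, h⟩ := den_set (R.coeff '' R.support) (R.support.finite_toSet.image _) (by
    rintro _ ⟨n, -, rfl⟩
    exact hR n)
  refine ⟨d, hd, fun p _ ι n => ?_⟩
  by_cases h0 : R.coeff n = 0
  · simp [h0]
  · exact h p ι _ ⟨n, by simpa using h0, rfl⟩

lemma alg_taylor {R : ℂ[X]} (hR : AlgP R) {P : ℂ} (hP : IsAlgebraic ℚ P) : AlgP (taylor P R) := by
  intro n
  rw [taylor_coeff]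
  refine IntPts.alg_eval (fun k => ?_) hP
  rw [hasseDeriv_coeff]
  exact (isAlgebraic_natCast _).mul (hR _)

lemma bezout {A B : ℂ[X]} (hA : AlgP A) (hB : AlgP B) (h : IsCoprime A B) :
    ∃ U V : ℂ[X], AlgP U ∧ AlgP V ∧ U * A + V * B = 1 := by
  obtain ⟨a, rfl⟩ := (mem_lifts _).1 ((CURVE.alg_iff A).1 hA)
  obtain ⟨b, rfl⟩ := (mem_lifts _).1 ((CURVE.alg_iff B).1 hB)
  obtain ⟨u, v, e⟩ := (isCoprime_map _).1 h
  refine ⟨u.map (algebraMap CURVE.K ℂ), v.map (algebraMap CURVE.K ℂ),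
    (CURVE.alg_iff _).2 ((mem_lifts _).2 ⟨u, rfl⟩), (CURVE.alg_iff _).2 ((mem_lifts _).2 ⟨v, rfl⟩),
    ?_⟩
  rw [← Polynomial.map_mul, ← Polynomial.map_mul, ← Polynomial.map_add, e, Polynomial.map_one]

lemma two_one {A B : ℂ[X]} (hd : A.natDegree ≤ B.natDegree) (h0 : 0 < B.natDegree)
    (h : IsCoprime A B) (hA : AlgP A) (hB : AlgP B) : ∃ d : ℕ, 0 < d ∧
    ∀ (p : ℕ) [Fact p.Prime] (ι : ℂ →+* ℂ_[p]) (z : ℂ),
      ‖(d : ℂ_[p])‖ * max 1 ‖ι z‖ ^ B.natDegree ≤ max ‖ι (A.eval z)‖ ‖ι (B.eval z)‖ ∧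
      ‖(d : ℂ_[p])‖ * max ‖ι (A.eval z)‖ ‖ι (B.eval z)‖ ≤ max 1 ‖ι z‖ ^ B.natDegree := by
  obtain ⟨U, V, hU, hV, e⟩ := bezout hA hB h
  obtain ⟨d1, p1, h1⟩ := den_poly hA
  obtain ⟨d2, p2, h2⟩ := den_poly hB
  obtain ⟨d3, p3, h3⟩ := den_poly hU
  obtain ⟨d4, p4, h4⟩ := den_poly hV
  set N := max U.natDegree V.natDegree + B.natDegree with hN
  have pd : 0 < d1 * d2 * d3 * d4 := by positivity
  refine ⟨(d1 * d2 * d3 * d4) ^ (2 * N + 1), by positivity, fun p _ ι z => ?_⟩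
  rw [npow]
  set δ := ‖((d1 * d2 * d3 * d4 : ℕ) : ℂ_[p])‖ with hδ
  have δ0 : 0 < δ := npos pd
  have δ1 : δ ≤ 1 := nle _
  have key : ∀ {R : ℂ[X]} {d : ℕ}, d ∣ d1 * d2 * d3 * d4 →
      (∀ n, ‖(d : ℂ_[p])‖ * ‖ι (R.coeff n)‖ ≤ 1) → ∀ n, δ * ‖ι (R.coeff n)‖ ≤ 1 :=
    fun hd hR n => (mul_le_mul_of_nonneg_right (ndvd hd) (norm_nonneg _)).trans (hR n)
  have k1 := key (R := A) ⟨d2 * d3 * d4, by ring⟩ fun n => (h1 p ι n).1
  have k2 := key (R := B) ⟨d1 * d3 * d4, by ring⟩ fun n => (h2 p ι n).1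
  have k3 := key (R := U) ⟨d1 * d2 * d4, by ring⟩ fun n => (h3 p ι n).1
  have k4 := key (R := V) ⟨d1 * d2 * d3, by ring⟩ fun n => (h4 p ι n).1
  have δk : δ ^ (2 * N + 1) ≤ δ := pow_le_of_le_one δ0.le δ1 (by omega)
  set M := max ‖ι (A.eval z)‖ ‖ι (B.eval z)‖ with hM
  have M0 : 0 ≤ M := le_max_of_le_left (norm_nonneg _)
  set Z := max 1 ‖ι z‖ with hZ
  have Z1 : 1 ≤ Z := le_max_left _ _
  constructor
  · by_cases hz : δ ^ 2 * Z ≤ 1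
    · have e1 : ι (U.eval z) * ι (A.eval z) + ι (V.eval z) * ι (B.eval z) = 1 := by
        have := congrArg (fun q => ι (eval z q)) e
        simpa using this
      have e2 := IsUltrametricDist.norm_add_le_max (ι (U.eval z) * ι (A.eval z))
        (ι (V.eval z) * ι (B.eval z))
      rw [e1, norm_one, norm_mul, norm_mul] at e2
      have u1 := ev_le ι δ0.le k3 (le_max_left _ V.natDegree) z
      have u2 := ev_le ι δ0.le k4 (le_max_right U.natDegree _) z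
      rw [← hZ] at u1 u2
      have e3 : δ ≤ Z ^ max U.natDegree V.natDegree * M := by
        rcases le_max_iff.1 e2 with e4 | e4
        · calc δ ≤ δ * (‖ι (U.eval z)‖ * ‖ι (A.eval z)‖) := le_mul_of_one_le_right δ0.le e4
            _ = δ * ‖ι (U.eval z)‖ * ‖ι (A.eval z)‖ := by ring
            _ ≤ _ := by gcongr; exact le_max_left _ _
        · calc δ ≤ δ * (‖ι (V.eval z)‖ * ‖ι (B.eval z)‖) := le_mul_of_one_le_right δ0.le e4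
            _ = δ * ‖ι (V.eval z)‖ * ‖ι (B.eval z)‖ := by ring
            _ ≤ _ := by gcongr; exact le_max_right _ _
      calc δ ^ (2 * N + 1) * Z ^ B.natDegree = δ ^ (2 * N) * Z ^ B.natDegree * δ := by ring
        _ ≤ δ ^ (2 * N) * Z ^ B.natDegree * (Z ^ max U.natDegree V.natDegree * M) := by gcongr
        _ = (δ ^ 2 * Z) ^ N * M := by rw [mul_pow, ← pow_mul, hN, pow_add Z]; ring
        _ ≤ 1 * M := by
            gcongr
            exact pow_le_one₀ (by positivity) hz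
        _ = M := one_mul M
    · push Not at hz
      have Z2 : 1 < Z := by nlinarith [pow_le_one₀ δ0.le δ1 (n := 2)]
      have hZ' : Z = ‖ι z‖ := by
        rcases max_cases 1 ‖ι z‖ with h5 | h5
        · rw [hZ, h5.1] at Z2
          exact absurd Z2 (lt_irrefl _)
        · exact h5.1
      have hB0 : B ≠ 0 := by
        rintro rfl
        simp at h0
      have l1 : δ ≤ ‖ι B.leadingCoeff‖ :=
        (ndvd ⟨d1 * d3 * d4, by ring⟩).trans ((h2 p ι B.natDegree).2 (leadingCoeff_ne_zero.2 hB0))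
      have l2 := ev_le ι (R := B.eraseLead) δ0.le (fun n => by
        rw [eraseLead_coeff]
        split_ifs
        · simp
        · exact k2 n) (eraseLead_natDegree_le B) z
      rw [← hZ] at l2
      have l3 : ι (B.eval z) - ι B.leadingCoeff * ι z ^ B.natDegree = ι (B.eraseLead.eval z) := by
        have := congrArg (fun q => ι (eval z q)) (eraseLead_add_C_mul_X_pow B)
        simp only [eval_add, eval_mul, eval_C, eval_pow, eval_X, map_add, map_mul, map_pow] at this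
        linear_combination -this
      have l4 : δ * Z ^ B.natDegree ≤ ‖ι B.leadingCoeff * ι z ^ B.natDegree‖ := by
        rw [norm_mul, norm_pow, ← hZ']
        gcongr
      have l5 : ‖ι (B.eraseLead.eval z)‖ < δ * Z ^ B.natDegree := by
        refine lt_of_mul_lt_mul_left (l2.trans_lt ?_) δ0.le
        obtain ⟨k, hk⟩ := Nat.exists_eq_succ_of_ne_zero h0.ne'
        rw [hk, Nat.succ_sub_one, pow_succ]
        have : 0 < Z ^ k := by positivity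
        nlinarith
      have l6 := IntPts.norm_eq_of_lt (l3 ▸ l5.trans_le l4)
      calc δ ^ (2 * N + 1) * Z ^ B.natDegree ≤ δ * Z ^ B.natDegree := by gcongr
        _ ≤ ‖ι (B.eval z)‖ := l6 ▸ l4
        _ ≤ M := le_max_right _ _
  · calc δ ^ (2 * N + 1) * M ≤ δ * M := by gcongr
      _ ≤ Z ^ B.natDegree := by
        rw [hM, mul_max_of_nonneg _ _ δ0.le]
        exact max_le (ev_le ι δ0.le k1 hd z) (ev_le ι δ0.le k2 le_rfl z)

end CVP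

open CVP

section CVP
variable {κ : Type} [Fintype κ] [DecidableEq κ] {A B : κ → Polynomial ℂ}

theorem exists_den {z : ℂ} (hz : IsAlgebraic ℚ z) : ∃ d : ℕ, 0 < d ∧
    ∀ (p : ℕ) [Fact p.Prime] (ι : ℂ →+* ℂ_[p]), ‖(d : ℂ_[p])‖ * ‖ι z‖ ≤ 1 ∧
      (z ≠ 0 → ‖(d : ℂ_[p])‖ ≤ ‖ι z‖) := by
  obtain ⟨d, hd, h⟩ := den_set {z} (Set.finite_singleton z) (by simpa using hz)
  exact ⟨d, hd, fun p _ ι => h p ι z rfl⟩

omit [DecidableEq κ] in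
theorem two_sided_p (h : Nice A B) (hA : AlgK A) (hB : AlgK B) : ∃ d : ℕ, 0 < d ∧
    ∀ (p : ℕ) [Fact p.Prime] (ι : ℂ →+* ℂ_[p]) (i : κ) (z : ℂ),
      ‖(d : ℂ_[p])‖ * max 1 ‖ι z‖ ^ (B i).natDegree ≤
        max ‖ι ((A i).eval z)‖ ‖ι ((B i).eval z)‖ ∧
      ‖(d : ℂ_[p])‖ * max ‖ι ((A i).eval z)‖ ‖ι ((B i).eval z)‖ ≤
        max 1 ‖ι z‖ ^ (B i).natDegree := by
  choose d hd H using fun i => two_one (h i).1 (h i).2.1 (h i).2.2 (hA i) (hB i)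
  refine ⟨∏ i, d i, Finset.prod_pos fun i _ => hd i, fun p _ ι i z => ?_⟩
  have h1 : ‖((∏ i, d i : ℕ) : ℂ_[p])‖ ≤ ‖(d i : ℂ_[p])‖ :=
    ndvd (Finset.dvd_prod_of_mem d (Finset.mem_univ i))
  exact ⟨(mul_le_mul_of_nonneg_right h1 (by positivity)).trans (H i p ι z).1,
    (mul_le_mul_of_nonneg_right h1 (by positivity)).trans (H i p ι z).2⟩

theorem plip {R : Polynomial ℂ} (hR : AlgP R) {P : ℂ} (hP : IsAlgebraic ℚ P) :
    ∃ d : ℕ, 0 < d ∧ ∀ (p : ℕ) [Fact p.Prime] (ι : ℂ →+* ℂ_[p]) (t : ℂ), ‖ι (t - P)‖ ≤ 1 →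
      ‖(d : ℂ_[p])‖ * ‖ι (R.eval t) - ι (R.eval P)‖ ≤ ‖ι (t - P)‖ := by
  obtain ⟨d, hd, h⟩ := den_poly (alg_taylor hR hP)
  refine ⟨d, hd, fun p _ ι t ht => ?_⟩
  have e : R.eval t - R.eval P = (t - P) * (taylor P R).divX.eval (t - P) := by
    have e1 := congrArg (eval (t - P)) (X_mul_divX_add (taylor P R))
    rw [eval_add, eval_mul, eval_X, eval_C, taylor_coeff_zero, taylor_eval_sub] at e1
    linear_combination -e1
  have h1 := ev_le ι (R := (taylor P R).divX) (norm_nonneg (d : ℂ_[p]))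
    (fun n => by rw [coeff_divX]; exact (h p ι _).1) le_rfl (t - P)
  rw [max_eq_left ht, one_pow] at h1
  rw [← map_sub, e, map_mul, norm_mul, mul_left_comm]
  exact mul_le_of_le_one_right (norm_nonneg _) h1

theorem CVP.near {R : Polynomial ℂ} (hR : AlgP R) {P : ℂ} (hP : IsAlgebraic ℚ P)
    (h0 : R.eval P ≠ 0) : ∃ d : ℕ, 0 < d ∧ ∀ (p : ℕ) [Fact p.Prime] (ι : ℂ →+* ℂ_[p]) (t : ℂ),
      ‖ι (t - P)‖ < ‖(d : ℂ_[p])‖ → ‖ι (R.eval t)‖ = ‖ι (R.eval P)‖ ∧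
        ‖(d : ℂ_[p])‖ ≤ ‖ι (R.eval P)‖ ∧ ‖(d : ℂ_[p])‖ * ‖ι (R.eval P)‖ ≤ 1 := by
  obtain ⟨d1, p1, h1⟩ := plip hR hP
  obtain ⟨d2, p2, h2⟩ := exists_den (IntPts.alg_eval hR hP)
  refine ⟨d1 * d2, by positivity, fun p _ ι t ht => ?_⟩
  have a1 : ‖((d1 * d2 : ℕ) : ℂ_[p])‖ ≤ ‖(d2 : ℂ_[p])‖ := ndvd ⟨d1, mul_comm _ _⟩
  refine ⟨IntPts.norm_eq_of_lt ?_, a1.trans ((h2 p ι).2 h0),
    (mul_le_mul_of_nonneg_right a1 (norm_nonneg _)).trans (h2 p ι).1⟩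
  have a2 := (h1 p ι t (ht.le.trans (nle _))).trans_lt ht
  rw [nmul] at a2
  exact (lt_of_mul_lt_mul_left a2 (norm_nonneg _)).trans_le ((h2 p ι).2 h0)

theorem ploc {R : Polynomial ℂ} (hR : AlgP R) (h0 : R ≠ 0) {P : ℂ} (hP : IsAlgebraic ℚ P) :
    ∃ d : ℕ, 0 < d ∧ ∀ (p : ℕ) [Fact p.Prime] (ι : ℂ →+* ℂ_[p]) (t : ℂ),
      ‖ι (t - P)‖ < ‖(d : ℂ_[p])‖ →
      ‖(d : ℂ_[p])‖ * ‖ι (t - P)‖ ^ R.rootMultiplicity P ≤ ‖ι (R.eval t)‖ ∧
      ‖(d : ℂ_[p])‖ * ‖ι (R.eval t)‖ ≤ ‖ι (t - P)‖ ^ R.rootMultiplicity P := by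
  obtain ⟨S, hS, hn⟩ := exists_eq_pow_rootMultiplicity_mul_and_not_dvd R h0 P
  set m := R.rootMultiplicity P
  have a1 : taylor P R = X ^ m * taylor P S := by
    rw [hS, taylor_mul, taylor_pow]
    simp
  have a2 : AlgP (taylor P S) := fun n => by
    have := alg_taylor hR hP (n + m)
    rwa [a1, coeff_X_pow_mul] at this
  have a3 : AlgP S := by
    have := alg_taylor a2 hP.neg
    rwa [taylor_taylor, neg_add_cancel, taylor_zero] at this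
  obtain ⟨d, hd, h⟩ := CVP.near a3 hP fun hh => hn (dvd_iff_isRoot.2 hh)
  refine ⟨d, hd, fun p _ ι t ht => ?_⟩
  obtain ⟨b1, b2, b3⟩ := h p ι t ht
  have b4 : ‖ι (R.eval t)‖ = ‖ι (t - P)‖ ^ m * ‖ι (S.eval P)‖ := by
    rw [hS, eval_mul, eval_pow, eval_sub, eval_X, eval_C, map_mul, map_pow, norm_mul, norm_pow, b1]
  rw [b4]
  constructor
  · rw [mul_comm]
    gcongr
  · rw [mul_left_comm]
    exact mul_le_of_le_one_right (by positivity) b3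

/-- Lipschitz bound for a quotient whose denominator does not vanish at `P` -/
theorem plip_div {R S : Polynomial ℂ} (hR : AlgP R) (hS : AlgP S) {P : ℂ} (hP : IsAlgebraic ℚ P)
    (h0 : S.eval P ≠ 0) : ∃ d : ℕ, 0 < d ∧
      ∀ (p : ℕ) [Fact p.Prime] (ι : ℂ →+* ℂ_[p]) (t : ℂ), ‖ι (t - P)‖ < ‖(d : ℂ_[p])‖ →
        S.eval t ≠ 0 ∧ ‖(d : ℂ_[p])‖ * ‖ι (R.eval t / S.eval t) - ι (R.eval P / S.eval P)‖ ≤
          ‖ι (t - P)‖ := by
  have hN : AlgP (R * C (S.eval P) - C (R.eval P) * S) := fun n => by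
    rw [coeff_sub, coeff_mul_C, coeff_C_mul]
    exact ((hR n).mul (IntPts.alg_eval hS hP)).sub ((IntPts.alg_eval hR hP).mul (hS n))
  obtain ⟨d1, p1, h1⟩ := plip hN hP
  obtain ⟨d2, p2, h2⟩ := CVP.near hS hP h0
  refine ⟨d1 * d2 ^ 2, by positivity, fun p _ ι t ht => ?_⟩
  obtain ⟨b1, b2, -⟩ := h2 p ι t (ht.trans_le (ndvd ⟨d1 * d2, by ring⟩))
  have b3 : 0 < ‖ι (S.eval P)‖ := (npos p2).trans_le b2
  have b4 : S.eval t ≠ 0 := fun hh => by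
    rw [hh, map_zero, norm_zero] at b1
    exact b3.ne b1
  refine ⟨b4, le_trans ?_ (h1 p ι t (ht.le.trans (nle _)))⟩
  have e : R.eval t / S.eval t - R.eval P / S.eval P =
      ((R * C (S.eval P) - C (R.eval P) * S).eval t -
        (R * C (S.eval P) - C (R.eval P) * S).eval P) / (S.eval t * S.eval P) := by
    simp only [eval_sub, eval_mul, eval_C]
    field_simp
    ring
  rw [← map_sub, ← map_sub, e, map_div₀, norm_div, map_mul, norm_mul, b1, nmul, npow, mul_assoc]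
  refine mul_le_mul_of_nonneg_left ?_ (norm_nonneg _)
  rw [mul_comm, div_mul_eq_mul_div, mul_div_assoc]
  refine mul_le_of_le_one_right (norm_nonneg _) ?_
  rw [div_le_one (by positivity), sq]
  gcongr

omit [Fintype κ] [DecidableEq κ] in
theorem pole_near (h : Nice A B) (hA : AlgK A) (hB : AlgK B) {i : κ} {P : ℂ}
    (hP : (B i).eval P = 0) : ∃ d : ℕ, 0 < d ∧
      ∀ (p : ℕ) [Fact p.Prime] (ι : ℂ →+* ℂ_[p]) (t : ℂ), (B i).eval t ≠ 0 →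
        ‖ι (t - P)‖ < ‖(d : ℂ_[p])‖ → (A i).eval t ≠ 0 ∧ 1 < ‖ι (xk A B t i)‖ ∧
          ‖(d : ℂ_[p])‖ * ‖ι (xk A B t i)‖⁻¹ ≤ ‖ι (t - P)‖ := by
  have hB0 : B i ≠ 0 := fun hh => by simpa [hh] using (h i).2.1
  obtain ⟨d, hd, H⟩ := plip_div (hB i) (hA i) (IntPts.alg_root (hB i) hB0 hP)
    (IntPts.eval_ne_of_coprime (h i).2.2 hP)
  refine ⟨d, hd, fun p _ ι t ht hn => ?_⟩
  obtain ⟨h1, h2⟩ := H p ι t hn
  rw [hP, zero_div, map_zero, sub_zero] at h2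
  have e : ‖ι (xk A B t i)‖⁻¹ = ‖ι ((B i).eval t / (A i).eval t)‖ := by
    rw [← norm_inv, ← map_inv₀, xk, inv_div]
  have h3 : 0 < ‖ι (xk A B t i)‖ := norm_pos_iff.2 ((map_ne_zero ι).2 (div_ne_zero h1 ht))
  refine ⟨h1, ?_, e ▸ h2⟩
  rw [← inv_lt_one₀ h3, e]
  have h4 := h2.trans_lt hn
  exact (mul_lt_iff_lt_one_right (npos hd)).1 h4

end CVP

end Pool.Agent.Lib.ZP3
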