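import Pool.Agent.Lib.ZP3.Hecke
import Pool.Agent.Lib.ZP3.JEst
import Pool.Agent.Lib.ZP3.Defs2

/-! Sizes of isogeny multipliers at all places. -/

open UpperHalfPlane Filter Topology Metric
open scoped Real MatrixGroups

namespace Pool.Agent.Lib.ZP3

open Pool.Agent.Lib.MP_0704bf_ag Pool.Agent.Lib.helper6

namespace HK2

open PowerSeries in
/-- the polynomial of the products `U y` -/
theorem poly_Uy {N : ℕ} (hN : 0 < N) : ∃ Φ : Polynomial (Polynomial ℤ), Φ.Monic ∧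
    (∀ k, (Φ.coeff k).natDegree ≤ Φ.natDegree - k) ∧
    ∀ τ : ℍ, Φ.map (Polynomial.aeval (jInv τ)).toRingHom =
      ∏ g ∈ tris N, (Polynomial.X - Polynomial.C (Hk.Ug g τ * jInv (tr g τ))) := by
  obtain ⟨V, hV1, hV2, hV3⟩ := Hk.exists_V
  have h4 := hasExp_mf ModularForm.E₄
  rw [qE4] at h4
  obtain ⟨Φ, h1, h2, h3, h5⟩ := Hk.master hN (fun y U ↦ U * y) 1
    (fun a z ↦ C ((a : ℂ) ^ 12) * (dil z (a ^ 2) ((1 + C 240 * sigS 3) ^ 3) * dil 1 N V))
    (fun g hg ↦ by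
      have k1 := (h4.pow 3).comp (h' := N) (tr g) (Hk.zt N g)
        (pow_pos (Hk.pos_of_mem hN hg).1 2) (Hk.qq_tr hN hg)
      convert (hasExp_const N ((g.1 : ℂ) ^ 12)).mul (k1.mul (Hk.hasExp_level hN hV3)) using 1
      funext τ
      have := ModularForm.discriminant_ne_zero (tr g τ)
      simp only [Pi.mul_apply, Pi.pow_apply, Hk.Ug, Function.comp_apply, qq_one_eq hN τ, jInv,
        mul_one]
      field_simp)
    (fun g _ ↦ (intS_C ((isIntegral_natCast _).pow _)).mul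
      ((((intS_one.add ((intS_C (by exact_mod_cast isIntegral_natCast (R := ℤ) (B := ℂ) 240)).mul
        (intS_sigS 3))).pow 3).dil (Hk.zt_int hN g) _).mul (hV1.dil isIntegral_one _)))
    (fun σ a z ↦ by
      simp only [map_mul, Hk.map_dil, map_pow, map_natCast, map_one, map_add, map_ofNat,
        Hk.fix_sigS 3 σ, hV2 σ])
  exact ⟨Φ, h1, by simpa [h2] using h3, h5⟩

theorem roots {N : ℕ} (hN : 0 < N) {x y U : ℂ} (h : Isog N x y U) : ∀ z ∈ ({U, U * y} : Set ℂ),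
    ∃ Φ : Polynomial (Polynomial ℤ), Φ.Monic ∧ (∀ k, (Φ.coeff k).natDegree ≤ Φ.natDegree - k) ∧
      ev2 Φ x z = 0 := by
  obtain ⟨τ, -, rfl⟩ := j_surj x
  obtain ⟨g0, hg0, h1, h2⟩ := (Hk.isog_tri' hN τ y U).mp h
  rintro z (rfl | rfl)
  · obtain ⟨Φ, hm, hn, hc, hp⟩ := Hk.poly_U hN
    exact ⟨Φ, hm, hn ▸ hc, (Hk.ev2_eq_zero (hp τ)).mpr ⟨g0, hg0, h2⟩⟩
  · obtain ⟨Φ, hm, hc, hp⟩ := poly_Uy hN
    exact ⟨Φ, hm, hc, (Hk.ev2_eq_zero (hp τ)).mpr ⟨g0, hg0, by rw [h1, h2]⟩⟩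

theorem norm_root {K : Type} [NormedField K] [IsUltrametricDist K]
    {Φ : Polynomial (Polynomial ℤ)} (hm : Φ.Monic)
    (hc : ∀ k, (Φ.coeff k).natDegree ≤ Φ.natDegree - k) {x z : K} (h : ev2 Φ x z = 0) :
    ‖z‖ ≤ max 1 ‖x‖ := by
  set R := max 1 ‖x‖ with hR
  have hR1 : 1 ≤ R := le_max_left _ _
  by_contra hz
  push Not at hz
  have hm' := hm.map (Polynomial.aeval x).toRingHom
  have hn' := hm.natDegree_map (Polynomial.aeval x).toRingHom
  rw [ev2, hm'.as_sum, hn'] at h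
  simp only [Polynomial.eval_add, Polynomial.eval_pow, Polynomial.eval_X, Polynomial.eval_finsetSum,
    Polynomial.eval_mul, Polynomial.eval_C, Polynomial.coeff_map] at h
  have hb : ∀ k, ‖Polynomial.aeval x (Φ.coeff k)‖ ≤ R ^ (Φ.natDegree - k) := by
    intro k
    rw [Polynomial.aeval_eq_sum_range' (Nat.lt_succ_of_le (hc k))]
    refine IsUltrametricDist.norm_sum_le_of_forall_le_of_nonneg (by positivity) fun i hi ↦ ?_
    rw [zsmul_eq_mul, norm_mul, norm_pow]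
    have h1 := IsUltrametricDist.norm_intCast_le_one K ((Φ.coeff k).coeff i)
    calc _ ≤ 1 * R ^ i := by gcongr; exact le_max_right _ _
      _ ≤ _ := by
        rw [one_mul]
        exact pow_le_pow_right₀ hR1 (Nat.le_of_lt_succ (Finset.mem_range.mp hi))
  generalize Φ.natDegree = n at h hb
  rcases n with _ | n
  · simp at h
  have h2 : ‖z ^ (n + 1)‖ ≤ R * ‖z‖ ^ n := by
    rw [eq_neg_of_add_eq_zero_left h, norm_neg]
    refine IsUltrametricDist.norm_sum_le_of_forall_le_of_nonneg (by positivity) fun k hk ↦ ?_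
    obtain ⟨e, rfl⟩ : ∃ e, n = k + e := ⟨n - k, by have := Finset.mem_range.mp hk; omega⟩
    have h3 := hb k
    rw [show k + e + 1 - k = e + 1 by omega] at h3
    rw [norm_mul, norm_pow]
    calc _ ≤ R ^ (e + 1) * ‖z‖ ^ k := mul_le_mul_of_nonneg_right h3 (by positivity)
      _ = R * (R ^ e * ‖z‖ ^ k) := by ring
      _ ≤ R * (‖z‖ ^ e * ‖z‖ ^ k) := by gcongr
      _ = _ := by ring
  rw [norm_pow, pow_succ'] at h2
  exact absurd (le_of_mul_le_mul_right h2 (pow_pos (by linarith) n)) (not_le.2 hz)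

theorem int_root {Φ : Polynomial (Polynomial ℤ)} (hm : Φ.Monic)
    (hc : ∀ k, (Φ.coeff k).natDegree ≤ Φ.natDegree - k) {x z : ℂ} (h4 : ev2 Φ x z = 0) {d : ℕ}
    (hd : IsIntegral ℤ (d * x)) : IsIntegral ℤ (d * z) := by
  have hm' := hm.map (Polynomial.aeval x).toRingHom
  have hn' := hm.natDegree_map (Polynomial.aeval x).toRingHom
  set Ψ := Φ.map (Polynomial.aeval x).toRingHom with hΨ
  have hmon : (Ψ.scaleRoots d).Monic := (Polynomial.monic_scaleRoots_iff _).mpr hm'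
  have hl : Ψ.scaleRoots d ∈ Polynomial.lifts (algebraMap (integralClosure ℤ ℂ) ℂ) := by
    rw [Polynomial.lifts_iff_coeff_lifts]
    intro k
    refine ⟨⟨(Ψ.scaleRoots d).coeff k, ?_⟩, rfl⟩
    rw [Polynomial.coeff_scaleRoots, hn', hΨ, Polynomial.coeff_map]
    change IsIntegral ℤ (Polynomial.aeval x (Φ.coeff k) * _)
    rw [Polynomial.aeval_eq_sum_range' (Nat.lt_succ_of_le (hc k)), Finset.sum_mul]
    refine IsIntegral.sum _ fun i hi ↦ ?_
    obtain ⟨e, he⟩ : ∃ e, Φ.natDegree - k = i + e :=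
      ⟨Φ.natDegree - k - i, by have := Finset.mem_range.mp hi; omega⟩
    rw [he, show (Φ.coeff k).coeff i • x ^ i * (d : ℂ) ^ (i + e) =
      ((Φ.coeff k).coeff i : ℂ) * ((d * x) ^ i * (d : ℂ) ^ e) by
        rw [zsmul_eq_mul]; ring]
    exact (isIntegral_intCast _).mul ((hd.pow _).mul ((isIntegral_natCast _).pow _))
  obtain ⟨r, hr1, -, hr3⟩ := Polynomial.lifts_and_degree_eq_and_monic hl hmon
  have : IsIntegral (integralClosure ℤ ℂ) (d * z) := by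
    refine ⟨r, hr3, ?_⟩
    rw [Polynomial.eval₂_eq_eval_map, hr1, Polynomial.scaleRoots_eval_mul]
    rw [ev2] at h4
    rw [h4, mul_zero]
  exact isIntegral_trans _ this

theorem im_le {n : ℕ} {τ τ' : ℂ} (h : Rel n τ τ') (hn : 0 < n) (h0 : 1 ≤ 2 * τ.im)
    (h0' : 0 < τ'.im) : τ'.im ≤ 4 * n * τ.im := by
  obtain ⟨a, b, c, d, hd, hm⟩ := h.symm
  have h1 := mob_normSq hm
  rw [hd, Int.cast_natCast] at h1
  have h2 : 1 ≤ 4 * ‖a - c * τ‖ ^ 2 := by
    rcases eq_or_ne c 0 with rfl | hc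
    · have ha : a ≠ 0 := by rintro rfl; simp at hd; omega
      have : (1 : ℝ) ≤ |(a : ℝ)| := by exact_mod_cast Int.one_le_abs ha
      simp only [Int.cast_zero, zero_mul, sub_zero, Complex.norm_intCast]
      nlinarith
    · have h3 : (1 : ℝ) ≤ |(c : ℝ)| := by exact_mod_cast Int.one_le_abs hc
      have h4 := Complex.abs_im_le_norm (a - c * τ)
      simp only [Complex.sub_im, Complex.intCast_im, Complex.mul_im, Complex.intCast_re, zero_mul,
        add_zero, zero_sub, abs_neg, abs_mul, abs_of_pos (show 0 < τ.im by linarith)] at h4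
      have h5 : 1 ≤ 2 * ‖a - c * τ‖ := by nlinarith
      nlinarith
  nlinarith

end HK2

variable {N : ℕ} {x y U : ℂ}

theorem Isog.ne_zero (hN : 0 < N) (h : Isog N x y U) : U ≠ 0 := by
  obtain ⟨τ, -, rfl⟩ := j_surj x
  obtain ⟨g, hg, -, rfl⟩ := (Hk.isog_tri' hN τ y U).mp h
  exact div_ne_zero (mul_ne_zero (pow_ne_zero _ (Nat.cast_ne_zero.2 (Hk.pos_of_mem hN hg).1.ne'))
    (ModularForm.discriminant_ne_zero _)) (ModularForm.discriminant_ne_zero _)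

theorem Isog.padic_le (hN : 0 < N) (h : Isog N x y U) {p : ℕ} [Fact p.Prime] (ι : ℂ →+* ℂ_[p]) :
    ‖ι U‖ * max 1 ‖ι y‖ ≤ max 1 ‖ι x‖ := by
  have key : ∀ z ∈ ({U, U * y} : Set ℂ), ‖ι z‖ ≤ max 1 ‖ι x‖ := fun z hz ↦ by
    obtain ⟨Φ, h1, h2, h3⟩ := HK2.roots hN h z hz
    exact HK2.norm_root h1 h2 (by rw [← ev2_map, h3, map_zero])
  rw [mul_max_of_nonneg _ _ (norm_nonneg _), mul_one, ← norm_mul, ← map_mul]
  exact max_le (key _ (by simp)) (key _ (by simp))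

theorem Isog.integral2 (hN : 0 < N) (h : Isog N x y U) {d : ℕ} (hd : IsIntegral ℤ (d * x)) :
    IsIntegral ℤ (d * (U * y)) := by
  obtain ⟨Φ, h1, h2, h3⟩ := HK2.roots hN h (U * y) (by simp)
  exact HK2.int_root h1 h2 h3 hd

theorem Isog.alg (hN : 0 < N) (h : Isog N x y U) (hx : IsAlgebraic ℚ x) :
    IsAlgebraic ℚ y ∧ IsAlgebraic ℚ U := by
  obtain ⟨d, hd0, hd⟩ := ((IsFractionRing.isAlgebraic_iff ℤ ℚ ℂ).mpr hx).exists_integral_multiple
  have hd' : IsIntegral ℤ ((d.natAbs : ℂ) * x) := by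
    rw [zsmul_eq_mul] at hd
    rcases Int.natAbs_eq d with e | e
    · rwa [e, Int.cast_natCast] at hd
    · rw [e, Int.cast_neg, Int.cast_natCast, neg_mul] at hd
      simpa using hd.neg
  have h0 : (d.natAbs : ℂ) ≠ 0 := Nat.cast_ne_zero.2 (Int.natAbs_ne_zero.2 hd0)
  have h1 : IsAlgebraic ℚ ((d.natAbs : ℂ) * U) := ((h.integral hN hd').tower_top).isAlgebraic
  have h2 : IsAlgebraic ℚ ((d.natAbs : ℂ) * (U * y)) := ((h.integral2 hN hd').tower_top).isAlgebraic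
  have hU := h.ne_zero hN
  constructor
  · have := h2.mul h1.inv
    rwa [← mul_assoc, mul_comm, inv_mul_cancel_left₀ (mul_ne_zero h0 hU)] at this
  · have := (isAlgebraic_nat (R := ℚ) (A := ℂ) d.natAbs).inv.mul h1
    rwa [inv_mul_cancel_left₀ h0] at this

theorem Isog.pairs (hN : 0 < N) (h : Isog N x y U) {D : ℕ} (hD : Deg x D) :
    ∃ E : Finset (ℂ × ℂ), E.card ≤ D * (tris N).card ∧ ∀ σ : ℂ →+* ℂ, (σ y, σ U) ∈ E := by
  classical
  obtain ⟨E, hE, hE'⟩ := hD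
  choose τ _ hτ using j_surj
  refine ⟨(E ×ˢ tris N).image fun q ↦ (jInv (tr q.2 (τ q.1)), Hk.Ug q.2 (τ q.1)),
    Finset.card_image_le.trans (by rw [Finset.card_product]; gcongr), fun σ ↦ ?_⟩
  have h1 := h.conj hN σ
  rw [← hτ (σ x)] at h1
  obtain ⟨g, hg, h2, h3⟩ := (Hk.isog_tri' hN _ _ _).mp h1
  exact Finset.mem_image.2 ⟨(σ x, g), Finset.mem_product.2 ⟨hE' σ, hg⟩, by rw [h2, h3]⟩

theorem card_tris (N : ℕ) : (tris N).card ≤ N * N.divisors.card := by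
  rcases Nat.eq_zero_or_pos N with rfl | hN
  · decide
  rw [← Finset.card_range N, ← Finset.card_product, Finset.card_range]
  refine Finset.card_le_card_of_injOn (fun g ↦ g.2) (fun g hg ↦ ?_) fun g hg g' hg' e ↦ ?_
  · obtain ⟨h1, h2⟩ := (Hk.mem_tris hN).mp hg
    have h3 : g.2.2 ∣ N := Dvd.intro_left _ h1
    simp only [Finset.coe_product, Set.mem_prod, Finset.mem_coe, Finset.mem_range, Nat.mem_divisors]
    exact ⟨h2.trans_le (Nat.le_of_dvd hN h3), h3, hN.ne'⟩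
  · have h1 := ((Hk.mem_tris hN).mp hg).1
    have h2 := ((Hk.mem_tris hN).mp hg').1
    have e' : g.2 = g'.2 := e
    rw [← e', ← h1] at h2
    exact Prod.ext (Nat.eq_of_mul_eq_mul_right (Hk.pos_of_mem hN hg).2 h2).symm e'

theorem iso_finite_fiber (hN : 0 < N) (x : ℂ) : {y | Iso N x y}.Finite := by
  obtain ⟨τ, -, rfl⟩ := j_surj x
  refine ((tris N).finite_toSet.image fun g ↦ jInv (tr g τ)).subset ?_
  rintro y ⟨U, hU⟩
  obtain ⟨g, hg, h, -⟩ := (Hk.isog_tri' hN τ y U).mp hU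
  exact ⟨g, hg, h.symm⟩

theorem isog_house : ∃ C : ℝ, 1 ≤ C ∧ ∀ (N : ℕ) (x y U : ℂ), Isog N x y U →
    ‖U‖ * (1 + ‖y‖) ≤ C * N ^ 6 * (1 + ‖x‖) * (1 + Real.log (1 + ‖y‖)) ^ 6 := by
  obtain ⟨C, hC1, hC⟩ := del_bounds
  refine ⟨C * C, one_le_mul_of_one_le_of_one_le hC1 hC1, fun N x y U h ↦ ?_⟩
  obtain ⟨τ, τ', _, _, _, _, -, hx, hy, -⟩ := id h
  have h1 := h.norm hx hy
  have h2 := (hC τ).1
  have h3 := (hC τ').2
  rw [hx] at h2
  rw [hy] at h3
  calc ‖U‖ * (1 + ‖y‖) ≤ ‖U‖ * (1 + ‖y‖) * (C * (del τ * (1 + ‖x‖))) :=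
        le_mul_of_one_le_right (by positivity) h2
    _ = C * (‖U‖ * del τ) * (1 + ‖y‖) * (1 + ‖x‖) := by ring
    _ = C * (N : ℝ) ^ 6 * (del τ' * (1 + ‖y‖)) * (1 + ‖x‖) := by rw [h1]; ring
    _ ≤ C * (N : ℝ) ^ 6 * (C * (1 + Real.log (1 + ‖y‖)) ^ 6) * (1 + ‖x‖) := by gcongr
    _ = _ := by ring

theorem log_j_le : ∃ C : ℝ, 1 ≤ C ∧ ∀ τ : ℍ, 1 ≤ 2 * τ.im →
    1 + Real.log (1 + ‖jInv τ‖) ≤ C * τ.im := by
  obtain ⟨J, -, -, hJ⟩ := exists_jS
  have hc := (hJ.summable_ball one_pos).continuousOn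
  have hr : Real.exp (-π) < 1 := Real.exp_lt_one_iff.2 (neg_lt_zero.2 Real.pi_pos)
  obtain ⟨B, hB⟩ := (isCompact_closedBall (0 : ℂ) (Real.exp (-π))).exists_bound_of_continuousOn
    (hc.mono fun z hz ↦ enorm_lt_one_of ((mem_closedBall_zero_iff.1 hz).trans_lt hr))
  have hB0 : 0 ≤ B := (norm_nonneg _).trans (hB 0 (mem_closedBall_self (Real.exp_pos _).le))
  have hL : 0 ≤ Real.log (1 + B) := Real.log_nonneg (by linarith)
  refine ⟨2 * (1 + Real.log (1 + B)) + 2 * π, by linarith [Real.pi_pos], fun τ hτ ↦ ?_⟩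
  have hq : ‖qq 1 τ‖ = Real.exp (-2 * π * τ.im) := by
    rw [Function.Periodic.norm_qParam]; simp
  have h1 := hB (qq 1 τ) (mem_closedBall_zero_iff.2 (by
    rw [hq]; exact Real.exp_le_exp.2 (by nlinarith [Real.pi_pos])))
  rw [← hJ.eq_sum one_pos τ, Pi.mul_apply, norm_mul, hq] at h1
  have h2 : 1 + ‖jInv τ‖ ≤ (1 + B) * Real.exp (2 * π * τ.im) := by
    have h3 : Real.exp (-2 * π * τ.im) * Real.exp (2 * π * τ.im) = 1 := by
      rw [← Real.exp_add]; simp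
    have h4 : 1 ≤ Real.exp (2 * π * τ.im) := Real.one_le_exp (by positivity)
    have h5 := mul_le_mul_of_nonneg_right h1 (Real.exp_pos (2 * π * τ.im)).le
    rw [mul_right_comm, h3, one_mul] at h5
    linarith
  have h6 := Real.log_le_log (by positivity) h2
  rw [Real.log_mul (by positivity) (Real.exp_pos _).ne', Real.log_exp] at h6
  nlinarith

theorem iso_log_le : ∃ C : ℝ, 1 ≤ C ∧ ∀ (N : ℕ) (x y : ℂ), 0 < N → Iso N x y →
    1 + Real.log (1 + ‖y‖) ≤ C * N * (1 + Real.log (1 + ‖x‖)) := by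
  obtain ⟨C, hC1, hC⟩ := log_j_le
  obtain ⟨C', hC1', hC'⟩ := fd_bounds
  refine ⟨C * 4 * C', by nlinarith, fun N x y hN h ↦ ?_⟩
  obtain ⟨τ, hτ, rfl⟩ := j_surj x
  obtain ⟨τ', hτ', rfl⟩ := j_surj y
  have him : ∀ s ∈ ModularGroup.fd, 1 ≤ 2 * s.im := fun s hs ↦ by
    have := ModularGroup.three_le_four_mul_im_sq_of_mem_fd hs
    have := s.im_pos
    nlinarith
  have h1 : τ'.im ≤ 4 * N * τ.im := HK2.im_le (h.rel rfl rfl) hN (him τ hτ) τ'.im_pos
  calc _ ≤ C * τ'.im := hC τ' (him τ' hτ')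
    _ ≤ C * (4 * N * (C' * (1 + Real.log (1 + ‖jInv τ‖)))) := by
        gcongr
        exact h1.trans (by gcongr; exact (hC' τ hτ).1)
    _ = _ := by ring

end Pool.Agent.Lib.ZP3
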