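import Pool.Agent.Lib.ZP3.Sm2
import Pool.Agent.Lib.ZP3.Hecke2
import Pool.Agent.Lib.ZP3.Curve2
import Pool.Agent.Lib.ZP3.CurveP

/-! Block BETA: the normalised multiplier of an isogeny between two coordinates is small. -/

set_option linter.unusedSectionVars false

open UpperHalfPlane Filter Topology Metric
open scoped Real

namespace Pool.Agent.Lib.ZP3

open HBF

namespace BETA

variable {ι : Type} {a : ι → ℕ}

theorem sf_of (ha : ∀ s, 1 ≤ a s) {z : ι → ℂ} (h0 : ∀ s, IsAlgebraic ℚ (z s)) (h1 : DB a z)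
    (h2 : HS a z) {d : ℕ} (hd : 0 < d)
    (h3 : ∀ s (p : ℕ) [Fact p.Prime] (ι : ℂ →+* ℂ_[p]), ‖(d : ℂ_[p])‖ * ‖ι (z s)‖ ≤ 1) :
    SF a z := by
  obtain ⟨D1, p1, h1⟩ := h1
  obtain ⟨G, ⟨D2, p2, g2⟩, h2⟩ := h2
  obtain ⟨D3, p3, g3⟩ := EB.const (a := a) (d : ℝ)
  refine ⟨_, (PN.const 2).mul ((p1.add ha p2).add ha p3), fun s ↦ sm_of_bounds (h0 s)
    ((h1 s).mono (by omega)) hd ((g3 s).trans ?_) (h3 s) fun σ ↦ ((h2 s σ).trans (g2 s)).trans ?_⟩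
  all_goals exact Real.exp_le_exp.2 (Nat.cast_le.2 (by omega))

theorem db_pow {z : ι → ℂ} (h : DB a z) (n : ℕ) : DB a fun s ↦ z s ^ n := by
  obtain ⟨D, hD, h⟩ := h
  exact ⟨D, hD, fun s ↦ (h s).pow n⟩

theorem db_iso {x y U : ι → ℂ} {N : ι → ℕ} (hx : DB a x) (hy : DB a y)
    (h : ∀ s, MinIso (N s) (x s) (y s)) (hU : ∀ s, Isog (N s) (x s) (y s) (U s)) : DB a U := by
  obtain ⟨D, hD, hx⟩ := hx
  obtain ⟨D', hD', hy⟩ := hy
  exact ⟨_, (hD.mul hD').mul (PN.const 36), fun s ↦ (h s).deg (hU s) (hx s) (hy s)⟩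

/-- the archimedean bound for the multiplier -/
theorem house (ha : ∀ s, 1 ≤ a s) {x y U : ι → ℂ} {N : ι → ℕ} (h0 : ∀ s, 0 < N s)
    (hU : ∀ s, Isog (N s) (x s) (y s) (U s)) (hN : ∀ s, (N s : ℝ) ≤ Real.exp (a s))
    (hy : ∀ s (σ : ℂ →+* ℂ), Real.log (1 + ‖σ (y s)‖) ≤ Real.exp (a s)) :
    ∃ K : ι → ℝ, EB a K ∧ ∀ s, 0 ≤ K s ∧ ∀ σ : ℂ →+* ℂ,
      ‖σ (U s)‖ * (1 + ‖σ (y s)‖) ≤ K s * (1 + ‖σ (x s)‖) := by
  obtain ⟨C, hC, h⟩ := isog_house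
  refine ⟨fun s ↦ C * Real.exp (a s) ^ 6 * (1 + Real.exp (a s)) ^ 6,
    ((EB.const C).mul ha (EB.exp_self.pow (fun _ ↦ by positivity) 6) fun _ ↦ by positivity).mul ha
      (((EB.const 1).add ha EB.exp_self).pow (fun _ ↦ by positivity) 6) fun _ ↦ by positivity,
    fun s ↦ ⟨by positivity, fun σ ↦ (h _ _ _ _ ((hU s).conj (h0 s) σ)).trans ?_⟩⟩
  have := Real.log_nonneg (x := 1 + ‖σ (y s)‖) (by linarith [norm_nonneg (σ (y s))])
  rw [mul_right_comm]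
  dsimp only
  gcongr
  exacts [hN s, hy s σ]

theorem real_step {δ β w τ K mi mj : ℝ} {ni nj e : ℕ} (hδ : 0 ≤ δ) (hβ : 0 ≤ β) (hw : 1 ≤ w)
    (hτ0 : 0 ≤ τ) (hτ : τ ≤ w) (hK : 0 ≤ K) (h1 : δ * w ^ nj ≤ mj) (h2 : δ * mi ≤ w ^ ni)
    (h3 : β * mj ≤ K * mi) (he : ni + e ≤ nj) : δ * δ * (β * τ ^ e) ≤ K := by
  have w0 : 0 < w := by linarith
  refine le_of_mul_le_mul_right ?_ (pow_pos w0 nj)
  calc _ = δ * (β * (δ * w ^ nj)) * τ ^ e := by ring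
    _ ≤ δ * (K * mi) * w ^ e := by
        gcongr δ * ?_ * ?_
        · exact mul_nonneg hδ (le_trans (mul_nonneg hβ (le_trans (by positivity) h1)) h3)
        · exact (mul_le_mul_of_nonneg_left h1 hβ).trans h3
        · gcongr
    _ = K * (δ * mi * w ^ e) := by ring
    _ ≤ K * (w ^ ni * w ^ e) := by gcongr
    _ ≤ _ := by rw [← pow_add]; gcongr

theorem norm_num_eq {K : Type*} [NormedField K] (φ : ℂ →+* K) (x : ℂ) {b : ℂ} (hb : b ≠ 0) :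
    ‖φ x‖ = ‖φ b‖ * ‖φ (x / b)‖ := by
  rw [← norm_mul, ← map_mul, mul_div_cancel₀ _ hb]

theorem sf_xk {κ : Type} [Fintype κ] [DecidableEq κ] {A B : κ → Polynomial ℂ} (h : Nice A B)
    (hA : AlgK A) (hB : AlgK B) (i : κ) {t : ι → ℂ} (ht : ∀ s, (B i).eval (t s) ≠ 0)
    (hx : SF a fun s ↦ xk A B (t s) i) : SF a t := by
  obtain ⟨C, k, hC⟩ := sm_of_xk h hA hB i
  obtain ⟨D, hD, hx⟩ := hx
  exact ⟨_, (PN.const C).mul (hD.pow k), fun s ↦ hC _ _ (ht s) (hx s)⟩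

end BETA

open BETA

variable {κ : Type} [Fintype κ] [DecidableEq κ] {A B : κ → Polynomial ℂ}

theorem beta_sm (h : Nice A B) (hA : AlgK A) (hB : AlgK B) {i j : κ}
    (hdeg : (B i).natDegree ≤ (B j).natDegree) : ∃ C k : ℕ, ∀ (t U : ℂ) (a N : ℕ), NPk B t →
      IsAlgebraic ℚ t → Deg t a → MinIso N (xk A B t i) (xk A B t j) →
      Isog N (xk A B t i) (xk A B t j) U → (N : ℝ) ≤ Real.exp a →
      (∀ σ : ℂ →+* ℂ, Real.log (1 + ‖σ (xk A B t j)‖) ≤ Real.exp a) →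
      Sm (U * (B i).eval t / (B j).eval t) (C * a ^ k) ∧
        ((B i).natDegree < (B j).natDegree → Sm t (C * a ^ k)) := by
  let I := {q : (ℂ × ℂ) × ℕ × ℕ // NPk B q.1.1 ∧ IsAlgebraic ℚ q.1.1 ∧ Deg q.1.1 q.2.1 ∧
    MinIso q.2.2 (xk A B q.1.1 i) (xk A B q.1.1 j) ∧
    Isog q.2.2 (xk A B q.1.1 i) (xk A B q.1.1 j) q.1.2 ∧ (q.2.2 : ℝ) ≤ Real.exp q.2.1 ∧
    ∀ σ : ℂ →+* ℂ, Real.log (1 + ‖σ (xk A B q.1.1 j)‖) ≤ Real.exp q.2.1}
  let a : I → ℕ := fun s ↦ s.1.2.1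
  let t : I → ℂ := fun s ↦ s.1.1.1
  let U : I → ℂ := fun s ↦ s.1.1.2
  let β : I → ℂ := fun s ↦ U s * (B i).eval (t s) / (B j).eval (t s)
  have ha : ∀ s, 1 ≤ a s := fun s ↦ s.2.2.2.1.pos
  have hb : ∀ s l, (B l).eval (t s) ≠ 0 := fun s ↦ s.2.1
  have ht : ∀ s, IsAlgebraic ℚ (t s) := fun s ↦ s.2.2.1
  have hN : ∀ s : I, 0 < s.1.2.2 := fun s ↦ s.2.2.2.2.1.1
  have hU : ∀ s : I, Isog s.1.2.2 (xk A B (t s) i) (xk A B (t s) j) (U s) := fun s ↦ s.2.2.2.2.2.1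
  have dt : DB a t := ⟨a, PN.self, fun s ↦ s.2.2.2.1⟩
  have dx : ∀ l, DB a fun s ↦ xk A B (t s) l := fun l ↦ (dt.eval (hA l)).div (dt.eval (hB l))
  have dβ : DB a β := ((db_iso (dx i) (dx j) (fun s ↦ s.2.2.2.2.1) hU).mul (dt.eval (hB i))).div
    (dt.eval (hB j))
  have aβ : ∀ s, IsAlgebraic ℚ (β s) := fun s ↦ by
    have e := fun l ↦ (hB l).alg_eval (ht s)
    simp only [β, div_eq_mul_inv]
    exact (((hU s).alg (hN s) (by
      simp only [xk, div_eq_mul_inv]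
      exact ((hA i).alg_eval (ht s)).mul (e i).inv)).2.mul (e i)).mul (e j).inv
  obtain ⟨K, hK, hK'⟩ := house ha hN hU (fun s ↦ s.2.2.2.2.2.2.1) fun s ↦ s.2.2.2.2.2.2.2
  obtain ⟨C, hC, h2⟩ := two_sided2 h hA hB
  obtain ⟨d, hd, hp⟩ := two_sided_p h hA hB
  have C0 : 0 < C := by linarith
  have key : ∀ e : ℕ, (B i).natDegree + e ≤ (B j).natDegree → SF a fun s ↦ β s * t s ^ e := by
    intro e he
    refine sf_of ha (fun s ↦ (aβ s).mul ((ht s).pow e)) (dβ.mul (db_pow dt e))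
      ⟨_, (EB.const (C * C)).mul ha hK fun s ↦ (hK' s).1, fun s σ ↦ ?_⟩ (Nat.mul_pos hd hd)
      fun s p _ φ ↦ ?_
    · have a1 := (h2 σ j (σ (t s))).1
      have a2 := (h2 σ i (σ (t s))).2
      simp only [Polynomial.eval_map, Polynomial.eval₂_hom] at a1 a2
      rw [← inv_mul_le_iff₀ C0] at a1 a2
      have a3 := real_step (β := ‖σ (β s)‖) (e := e) (inv_pos.2 C0).le (norm_nonneg _)
        (le_add_of_nonneg_right (norm_nonneg _)) (norm_nonneg (σ (t s)))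
        (le_add_of_nonneg_left zero_le_one) (hK' s).1 a1 a2 ?_ he
      · rw [← mul_inv, inv_mul_le_iff₀ (mul_pos C0 C0)] at a3
        rwa [map_mul, map_pow, norm_mul, norm_pow]
      · have b1 := mul_le_mul_of_nonneg_left ((hK' s).2 σ) (norm_nonneg (σ ((B i).eval (t s))))
        have b2 := norm_num_eq σ (U s * (B i).eval (t s)) (hb s j)
        rw [norm_num_eq σ ((A j).eval _) (hb s j), norm_num_eq σ ((A i).eval _) (hb s i)]
        rw [map_mul, norm_mul] at b2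
        calc _ = ‖σ ((B j).eval (t s))‖ * ‖σ (β s)‖ * (1 + ‖σ (xk A B (t s) j)‖) := by
              simp only [xk]; ring
          _ ≤ _ := by rw [← b2]; simp only [xk] at b1 ⊢; linarith
    · have a3 := real_step (β := ‖φ (β s)‖) (e := e) (K := 1) (norm_nonneg _) (norm_nonneg _)
        (le_max_left _ _) (norm_nonneg (φ (t s))) (le_max_right _ _) zero_le_one
        (hp p φ j (t s)).1 (hp p φ i (t s)).2 ?_ he
      · rwa [Nat.cast_mul, norm_mul, map_mul, map_pow, norm_mul, norm_pow]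
      · have b1 := mul_le_mul_of_nonneg_left ((hU s).padic_le (hN s) φ)
          (norm_nonneg (φ ((B i).eval (t s))))
        have b2 := norm_num_eq φ (U s * (B i).eval (t s)) (hb s j)
        have b3 : ∀ l, max ‖φ ((A l).eval (t s))‖ ‖φ ((B l).eval (t s))‖ =
            ‖φ ((B l).eval (t s))‖ * max 1 ‖φ (xk A B (t s) l)‖ := fun l ↦ by
          rw [mul_max_of_nonneg _ _ (norm_nonneg _), mul_one, max_comm,
            norm_num_eq φ ((A l).eval _) (hb s l), xk]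
        rw [map_mul, norm_mul] at b2
        rw [b3, b3, ← mul_assoc, mul_comm ‖φ (β s)‖, ← b2]
        linarith
  have k0 : SF a β := by simpa using key 0 hdeg
  obtain ⟨C1, k1, g1⟩ := k0.exists
  by_cases hlt : (B i).natDegree < (B j).natDegree
  · have kt : SF a t := by
      convert (key 1 hlt).div ha k0 using 2 with s
      rw [pow_one, mul_div_cancel_left₀]
      exact div_ne_zero (mul_ne_zero ((hU s).ne_zero (hN s)) (hb s i)) (hb s j)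
    obtain ⟨C2, k2, g2⟩ := kt.exists
    refine ⟨C1 + C2, k1 + k2, fun t U a N q1 q2 q3 q4 q5 q6 q7 ↦
      ⟨(g1 ⟨((t, U), a, N), q1, q2, q3, q4, q5, q6, q7⟩).mono ?_,
        fun _ ↦ (g2 ⟨((t, U), a, N), q1, q2, q3, q4, q5, q6, q7⟩).mono ?_⟩⟩
    all_goals exact Nat.mul_le_mul (by omega) (Nat.pow_le_pow_right q3.pos (by omega))
  · exact ⟨C1, k1, fun t U a N q1 q2 q3 q4 q5 q6 q7 ↦
      ⟨g1 ⟨((t, U), a, N), q1, q2, q3, q4, q5, q6, q7⟩, fun e ↦ absurd e hlt⟩⟩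

theorem height_const (h : Nice A B) (hA : AlgK A) (hB : AlgK B) {c : ℂ} (hc : IsAlgebraic ℚ c)
    (j : κ) : ∃ C k : ℕ, ∀ (t : ℂ) (a N : ℕ), NPk B t → IsAlgebraic ℚ t → Deg t a →
      MinIso N c (xk A B t j) → (N : ℝ) ≤ Real.exp a →
      (∀ σ : ℂ →+* ℂ, Real.log (1 + ‖σ (xk A B t j)‖) ≤ Real.exp a) → Sm t (C * a ^ k) := by
  let I := {q : (ℂ × ℂ) × ℕ × ℕ // NPk B q.1.1 ∧ Deg q.1.1 q.2.1 ∧
    MinIso q.2.2 c (xk A B q.1.1 j) ∧ Isog q.2.2 c (xk A B q.1.1 j) q.1.2 ∧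
    (q.2.2 : ℝ) ≤ Real.exp q.2.1 ∧
    ∀ σ : ℂ →+* ℂ, Real.log (1 + ‖σ (xk A B q.1.1 j)‖) ≤ Real.exp q.2.1}
  let a : I → ℕ := fun s ↦ s.1.2.1
  let t : I → ℂ := fun s ↦ s.1.1.1
  let U : I → ℂ := fun s ↦ s.1.1.2
  have ha : ∀ s, 1 ≤ a s := fun s ↦ s.2.2.1.pos
  have hN : ∀ s : I, 0 < s.1.2.2 := fun s ↦ s.2.2.2.1.1
  have hU : ∀ s : I, Isog s.1.2.2 c (xk A B (t s) j) (U s) := fun s ↦ s.2.2.2.2.1
  have dt : DB a t := ⟨a, PN.self, fun s ↦ s.2.2.1⟩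
  have dx : DB a fun s ↦ xk A B (t s) j := (dt.eval (hA j)).div (dt.eval (hB j))
  have dU : DB a U := db_iso (DB.const hc) dx (fun s ↦ s.2.2.2.1) hU
  obtain ⟨K, hK, hK'⟩ := house (x := fun _ ↦ c) ha hN hU (fun s ↦ s.2.2.2.2.2.1)
    fun s ↦ s.2.2.2.2.2.2
  obtain ⟨H, hH⟩ := exists_house hc
  obtain ⟨d, hd, hp⟩ := exists_den hc
  have key : ∀ e : ℕ, e ≤ 1 → SF a fun s ↦ U s * xk A B (t s) j ^ e := by
    intro e he
    have pw : ∀ x w : ℝ, 0 ≤ x → x ≤ w → 1 ≤ w → x ^ e ≤ w := fun x w h0 h1 h2 ↦ by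
      interval_cases e <;> simpa
    refine sf_of ha (fun s ↦ ((hU s).alg (hN s) hc).2.mul (((hU s).alg (hN s) hc).1.pow e))
      (dU.mul (db_pow dx e)) ⟨_, (EB.const (1 + H)).mul ha hK fun s ↦ (hK' s).1, fun s σ ↦ ?_⟩ hd
      fun s p _ φ ↦ ?_
    · rw [map_mul, map_pow, norm_mul, norm_pow, mul_comm (1 + H)]
      have := (hK' s).1
      refine le_trans ?_ (((hK' s).2 σ).trans (by gcongr; exact hH σ))
      gcongr
      exact pw _ _ (norm_nonneg _) (le_add_of_nonneg_left zero_le_one)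
        (le_add_of_nonneg_right (norm_nonneg _))
    · rw [map_mul, map_pow, norm_mul, norm_pow]
      calc _ ≤ ‖(d : ℂ_[p])‖ * (‖φ (U s)‖ * max 1 ‖φ (xk A B (t s) j)‖) := by
            gcongr
            exact pw _ _ (norm_nonneg _) (le_max_right _ _) (le_max_left _ _)
        _ ≤ ‖(d : ℂ_[p])‖ * max 1 ‖φ c‖ := by
            gcongr
            exact (hU s).padic_le (hN s) φ
        _ ≤ 1 := by
            rw [mul_max_of_nonneg _ _ (norm_nonneg _), mul_one]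
            exact max_le (IsUltrametricDist.norm_natCast_le_one _ _) (hp p φ).1
  have k1 : SF a fun s ↦ xk A B (t s) j := by
    convert (key 1 le_rfl).div ha (key 0 zero_le_one) using 2 with s
    rw [pow_one, pow_zero, mul_one, mul_div_cancel_left₀ _ ((hU s).ne_zero (hN s))]
  obtain ⟨C, k, g⟩ := (sf_xk h hA hB j (fun s ↦ s.2.1 j) k1).exists
  refine ⟨C, k, fun t a N q1 _ q3 q4 q6 q7 ↦ ?_⟩
  obtain ⟨U, q5⟩ := q4.2.1
  exact g ⟨((t, U), a, N), q1, q3, q4, q5, q6, q7⟩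

end Pool.Agent.Lib.ZP3
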