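import Pool.Agent.Lib.ZP3.CountCusp
import Pool.Agent.Lib.ZP3.Curve2

/-! Counting parameters with two independent special conditions. -/

open UpperHalfPlane Filter Topology Metric
open scoped Real MatrixGroups

namespace Pool.Agent.Lib.ZP3

namespace CNT2

variable {κ : Type} [Fintype κ] [DecidableEq κ] {A B : κ → Polynomial ℂ} {s1 s2 : κ ⊕ ℂ}
  {j1 j2 : κ} {ε : ℝ}

/-- the counting bound inside `U` -/
def Bd (A B : κ → Polynomial ℂ) (s1 s2 : κ ⊕ ℂ) (j1 j2 : κ) (ε : ℝ) (U : Set ℂ) : Prop :=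
  ∃ C : ℝ, ∀ (M : ℝ) (n1 n2 : ℕ) (S : Finset ℂ), 2 ≤ M → (n1 : ℝ) ≤ M → (n2 : ℝ) ≤ M →
    (∀ t ∈ S, t ∈ U ∧ NPk B t ∧ Cnd (xk A B t) s1 j1 n1 ∧ Cnd (xk A B t) s2 j2 n2) →
    (S.card : ℝ) ≤ C * M ^ ε

omit [Fintype κ] [DecidableEq κ] in
theorem Bd.mono {U V : Set ℂ} (hUV : U ⊆ V) (h : Bd A B s1 s2 j1 j2 ε V) :
    Bd A B s1 s2 j1 j2 ε U := by
  obtain ⟨C, hC⟩ := h
  exact ⟨C, fun M n1 n2 S a b c f ↦ hC M n1 n2 S a b c fun t ht ↦ ⟨hUV (f t ht).1, (f t ht).2⟩⟩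

omit [Fintype κ] [DecidableEq κ] in
theorem Bd.union {U V : Set ℂ} (h : Bd A B s1 s2 j1 j2 ε U) (h' : Bd A B s1 s2 j1 j2 ε V) :
    Bd A B s1 s2 j1 j2 ε (U ∪ V) := by
  classical
  obtain ⟨C, hC⟩ := h
  obtain ⟨C', hC'⟩ := h'
  refine ⟨C + C', fun M n1 n2 S a b c f ↦ ?_⟩
  have h1 := hC M n1 n2 (S.filter (· ∈ U)) a b c fun t ht ↦
    ⟨(Finset.mem_filter.1 ht).2, (f t (Finset.mem_filter.1 ht).1).2⟩
  have h2 := hC' M n1 n2 (S.filter fun t ↦ ¬ t ∈ U) a b c fun t ht ↦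
    ⟨(f t (Finset.mem_filter.1 ht).1).1.resolve_left (Finset.mem_filter.1 ht).2,
      (f t (Finset.mem_filter.1 ht).1).2⟩
  rw [← Finset.card_filter_add_card_filter_not (s := S) (· ∈ U), Nat.cast_add, add_mul]
  exact add_le_add h1 h2

omit [Fintype κ] [DecidableEq κ] in
theorem Bd.single (hε : 0 < ε) (P : ℂ) : Bd A B s1 s2 j1 j2 ε {P} := by
  refine ⟨1, fun M n1 n2 S a _ _ f ↦ ?_⟩
  have h1 : S.card ≤ 1 := Finset.card_le_one.2 fun t ht t' ht' ↦ (f t ht).1.trans (f t' ht').1.symm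
  rw [one_mul]
  exact (Nat.cast_le_one.2 h1).trans (Real.one_le_rpow (by linarith) hε.le)

omit [Fintype κ] [DecidableEq κ] in
theorem map_eq {s : κ ⊕ ℂ} {j : κ} (L : ℂ → ℂ) : s.map id L = Sum.inl j ↔ s = Sum.inl j := by
  cases s <;> simp

theorem loc (h : Nice A B) (hN : NoMod A B) (h2 : Two s1 j1 s2 j2) (hε : 0 < ε) (P : ℂ) :
    ∃ U ∈ 𝓝 P, Bd A B s1 s2 j1 j2 ε U := by
  choose L hL hL' using exists_jc
  obtain ⟨E, m, r, g, c⟩ := exists_cuspD h P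
  have hr := c.hr
  obtain ⟨C, hC⟩ := count_cusp h hN c (s1 := s1.map id L) (s2 := s2.map id L) (j1 := j1) (j2 := j2)
    ⟨h2.1, fun e ↦ h2.2.1 ((map_eq L).1 e), fun e ↦ h2.2.2 ((map_eq L).1 e)⟩ (fun z hz ↦ by
      rcases hz with hz | hz
      · cases s1 <;> simp only [Sum.map_inl, Sum.map_inr, reduceCtorEq, Sum.inr.injEq] at hz
        exact hz ▸ hL _
      · cases s2 <;> simp only [Sum.map_inl, Sum.map_inr, reduceCtorEq, Sum.inr.injEq] at hz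
        exact hz ▸ hL _) hε
  refine ⟨closedBall P ((r * Real.exp (-11)) ^ E), closedBall_mem_nhds _ (by positivity),
    (Bd.union (U := closedBall P ((r * Real.exp (-11)) ^ E) \ {P}) ⟨max C 0, ?_⟩
      (Bd.single hε P)).mono (by simp)⟩
  intro M n1 n2 S hM d1 d2 hS
  rcases S.eq_empty_or_nonempty with rfl | ⟨t0, ht0⟩
  · simp only [Finset.card_empty, Nat.cast_zero]
    positivity
  obtain ⟨-, -, c1, c2⟩ := hS t0 ht0
  refine le_trans ?_ (mul_le_mul_of_nonneg_right (le_max_left C 0) (by positivity))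
  refine CNT.card_le_of_param S (fun w ↦ P + Complex.exp w ^ E)
    (fun w ↦ w.re ≤ Real.log r - 11 ∧ |w.im| ≤ π) (fun t ht ↦ ?_) fun S' hS' ↦
    hC M n1 n2 S' hM c1.1 d1 c2.1 d2 (fun e ↦ c1.2.2 ((map_eq L).1 e))
      (fun e ↦ c2.2.2 ((map_eq L).1 e)) fun w hw ↦ ?_
  · obtain ⟨w, h1, h3, h4⟩ := exists_w c.hE (hS t ht).1.2
    refine ⟨w, ⟨?_, h1⟩, h3⟩
    have h5 := le_of_pow_le_pow_left₀ c.hE.ne' (by positivity)
      (h4.trans_le (mem_closedBall_iff_norm.1 (hS t ht).1.1))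
    rwa [Complex.norm_exp, ← Real.exp_log hr, ← Real.exp_add, Real.exp_le_exp,
      ← sub_eq_add_neg] at h5
  · obtain ⟨b1, b2⟩ := hS' w hw
    obtain ⟨-, -, b3, b4⟩ := hS _ b2
    have b5 := (c.isChart.2.2.2.2.2 w (by
      rw [Set.mem_ofPred_eq, Complex.norm_exp, ← Real.lt_log_iff_exp_lt hr]
      linarith [b1.1])).2
    have b6 : ∀ (s : κ ⊕ ℂ) (j : κ) (n : ℕ), Cnd (xk A B (P + Complex.exp w ^ E)) s j n →
        Rel n (sv (fun i ↦ cf m g i w) (s.map id L)) (cf m g j w) := fun s j n hc ↦ by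
      cases s with
      | inl i =>
        refine (iso_iff_rel (b5 i).1 (b5 j).1).1 ?_
        rw [(b5 i).2, (b5 j).2]
        exact hc.2.1
      | inr z =>
        refine (iso_iff_rel (hL z) (b5 j).1).1 ?_
        rw [hL', (b5 j).2]
        exact hc.2.1
    exact ⟨b1.1, b1.2, b6 _ _ _ b3, b6 _ _ _ b4⟩

end CNT2

open CNT2 in
theorem count2 {κ : Type} [Fintype κ] [DecidableEq κ] {A B : κ → Polynomial ℂ} (h : Nice A B)
    (hN : NoMod A B) {s1 s2 : κ ⊕ ℂ} {j1 j2 : κ} (h2 : Two s1 j1 s2 j2) {ε : ℝ} (hε : 0 < ε) :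
    ∃ C : ℝ, ∀ (M : ℝ) (n1 n2 : ℕ) (S : Finset ℂ), 2 ≤ M → (n1 : ℝ) ≤ M → (n2 : ℝ) ≤ M →
      (∀ t ∈ S, NPk B t ∧ Cnd (xk A B t) s1 j1 n1 ∧ Cnd (xk A B t) s2 j2 n2) →
      (S.card : ℝ) ≤ C * M ^ ε := by
  classical
  obtain ⟨t0, A', B', -, h', -, hN', -, hn⟩ := normalize2 A B (fun i ↦ (h i).2.2)
    (fun i ↦ Or.inr (h i).2.1) h.ne_zero
  obtain ⟨U, hU, C, hC⟩ := loc h' (hN' hN) h2 hε 0
  obtain ⟨ρ, hρ, hball⟩ := Metric.mem_nhds_iff.1 hU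
  have h1 : Bd A B s1 s2 j1 j2 ε (closedBall t0 ρ⁻¹) :=
    (isCompact_closedBall t0 ρ⁻¹).induction_on ((Bd.single hε 0).mono (Set.empty_subset _))
      (fun _ _ a b ↦ b.mono a) (fun _ _ a b ↦ a.union b) fun x _ ↦ by
        obtain ⟨V, hV, hb⟩ := loc h hN h2 hε x
        exact ⟨V, mem_nhdsWithin_of_mem_nhds hV, hb⟩
  have h3 : Bd A B s1 s2 j1 j2 ε (closedBall t0 ρ⁻¹)ᶜ := by
    refine ⟨C, fun M n1 n2 S hM d1 d2 hS ↦ ?_⟩
    have hinj : Function.Injective fun t : ℂ ↦ (t - t0)⁻¹ := fun t t' htt ↦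
      sub_left_injective (inv_injective htt)
    rw [← Finset.card_image_of_injective S hinj]
    refine hC M n1 n2 _ hM d1 d2 fun s hs ↦ ?_
    obtain ⟨t, ht, rfl⟩ := Finset.mem_image.1 hs
    obtain ⟨b1, b2, b3⟩ := hS t ht
    have b5 : ρ⁻¹ < ‖t - t0‖ := not_le.1 fun hh ↦ b1 (mem_closedBall_iff_norm.2 hh)
    have b6 : t ≠ t0 := by
      rintro rfl
      rw [sub_self, norm_zero] at b5
      exact absurd b5 (not_lt.2 (by positivity))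
    obtain ⟨b7, b8⟩ := hn t b6
    refine ⟨hball ?_, b7.1 b2, funext b8 ▸ b3⟩
    rw [mem_ball_zero_iff, norm_inv]
    exact inv_lt_of_inv_lt₀ hρ b5
  obtain ⟨C', hC'⟩ := h1.union h3
  exact ⟨C', fun M n1 n2 S a b c f ↦ hC' M n1 n2 S a b c fun t ht ↦ ⟨by simp, f t ht⟩⟩

end Pool.Agent.Lib.ZP3
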