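import Pool.Agent.Lib.ZP3.Ell2
import Pool.Agent.Lib.ZP3.Ent
import Pool.Agent.Lib.ZP3.Defs2

/-! Block ENDO: the smallest non-square degree of an endomorphism. -/

open UpperHalfPlane Filter Topology Metric
open scoped Real

namespace Pool.Agent.Lib.ZP3

open Pool.Agent.Lib.MP_0704bf_ag Pool.Agent.Lib.helper6 IE

namespace ENDO

theorem normSq {τ : ℍ} {a b c d : ℤ} (h : Mob a b c d τ τ) :
    ‖(a : ℂ) - c * τ‖ ^ 2 = (a * d - b * c : ℤ) :=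
  mul_right_cancel₀ τ.im_pos.ne' (mob_normSq h)

theorem lam {τ : ℍ} {a b c d : ℤ} {n A : ℕ} (h : Mob a b c d τ τ) (hd : a * d - b * c = n)
    (hn : 0 < n) (hA : 2 ≤ A) (hb : (n : ℝ) ≤ Real.exp A) : AI (a - c * τ) A := by
  classical
  have e : ((a : ℂ) - c * τ) ^ 2 - (a + d : ℤ) * (a - c * τ) + (a * d - b * c : ℤ) = 0 := by
    rw [← h.mul_den]; push_cast; ring
  have c2 : ∀ σ : ℂ →+* ℂ, σ (a - c * τ) = a - c * τ ∨ σ (a - c * τ) = d + c * τ := fun σ ↦ by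
    have := congrArg σ e
    rw [map_add, map_sub σ (_ ^ 2), map_pow, map_mul σ ((a + d : ℤ) : ℂ), map_intCast, map_intCast,
      map_zero, ← h.mul_den] at this
    rw [← sub_eq_zero, ← sub_eq_zero (b := d + c * (τ : ℂ)), ← mul_eq_zero, ← this]
    push_cast; ring
  have bd : ∀ z : ℂ, ‖z‖ ^ 2 = n → ‖z‖ ≤ Real.exp A := fun z hz ↦ by
    have : (1 : ℝ) ≤ n := by exact_mod_cast hn
    refine (abs_le_of_sq_le_sq' (hz.trans_le ?_) (by positivity)).2.trans hb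
    nlinarith
  refine ⟨⟨Polynomial.X ^ 2 - Polynomial.C (a + d) * Polynomial.X + Polynomial.C (a * d - b * c),
    by monicity!, by
      simp only [Polynomial.eval₂_add, Polynomial.eval₂_sub, Polynomial.eval₂_mul,
        Polynomial.eval₂_X_pow, Polynomial.eval₂_C, Polynomial.eval₂_X]
      exact e⟩,
    ⟨{a - c * (τ : ℂ), d + c * (τ : ℂ)}, Finset.card_le_two.trans hA,
      fun σ ↦ by simpa only [Finset.mem_insert, Finset.mem_singleton] using c2 σ⟩, fun σ ↦ ?_⟩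
  rcases c2 σ with h1 | h1 <;> rw [h1] <;> refine bd _ ?_
  · rw [normSq h, hd, Int.cast_natCast]
  · have := normSq h.symm
    rw [show d * a - -b * -c = n by rw [← hd]; ring, Int.cast_natCast] at this
    simpa using this

theorem mult {W : WD} {τ : ℍ} {Ω μ : ℂ} {K N : ℕ} (h : W.IsLat τ Ω) (hΩ : Ω ≠ 0) (hμ : μ.im ≠ 0)
    (hf : Few μ W.Λ W.Λ K) (hf' : Few μ⁻¹ W.Λ W.Λ K) (hm : MinEnd N (jInv τ)) :
    N ≤ 8 * K ^ 16 := by
  obtain ⟨n, a, b, c, d, hn, hk, hM, e⟩ := rel_of_few h h hΩ hf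
  obtain ⟨n', a', b', c', d', hn', hk', hM', e'⟩ := rel_of_few h h hΩ hf'
  rw [mul_div_cancel_right₀ _ hΩ] at e e'
  have h0 : μ ≠ 0 := by rintro rfl; simp at hμ
  have s1 := normSq hM
  have s2 := normSq hM'
  rw [e] at s1
  rw [e'] at s2
  have d2 : 0 < a' * d' - b' * c' := by
    have : 0 < ‖n' * μ⁻¹‖ ^ 2 := pow_pos (norm_pos_iff.2 (by simp [hn'.ne', h0])) 2
    rw [s2] at this
    exact_mod_cast this
  obtain ⟨D, hD⟩ := Int.eq_ofNat_of_zero_le (mob_det_nonneg τ.im_pos τ.im_pos hM)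
  have d3 : (D : ℤ) * (a' * d' - b' * c') = ((n : ℤ) * n') ^ 2 := by
    have : ((a * d - b * c : ℤ) : ℝ) * (a' * d' - b' * c' : ℤ) = ((n : ℝ) * n') ^ 2 := by
      rw [← s1, ← s2, ← mul_pow, ← norm_mul, mul_mul_mul_comm, mul_inv_cancel₀ h0]; simp
    rw [← hD]
    exact_mod_cast this
  have h3 : D ≤ (n * n') ^ 2 := by
    have : (D : ℤ) ≤ ((n : ℤ) * n') ^ 2 := d3 ▸ le_mul_of_one_le_right (by positivity) d2
    exact_mod_cast this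
  obtain ⟨m, m1, m2, m3⟩ := exists_nonsq_end hM hD (by
    rintro rfl
    have := congrArg Complex.im e
    simp [hn.ne', hμ] at this) τ.im_pos
  calc N ≤ 8 * D ^ 2 := (hm.2.2 m m1 (iso_of_rel m3)).trans m2
    _ ≤ 8 * ((K ^ 2 * K ^ 2) ^ 2) ^ 2 := by gcongr; exact h3.trans (by gcongr)
    _ = _ := by ring

theorem prim {τ : ℍ} {N : ℕ} (hm : MinEnd N (jInv τ)) {a b c d : ℤ} (hdet : a * d - b * c = N)
    (hM : Mob a b c d τ τ) {g : ℕ} (ha : (g : ℤ) ∣ a) (hb : (g : ℤ) ∣ b) (hc : (g : ℤ) ∣ c)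
    (hd : (g : ℤ) ∣ d) : g = 1 := by
  obtain ⟨a, rfl⟩ := ha
  obtain ⟨b, rfl⟩ := hb
  obtain ⟨c, rfl⟩ := hc
  obtain ⟨d, rfl⟩ := hd
  have hg : g ≠ 0 := by
    rintro rfl
    exact hm.1 ⟨0, by simpa using hdet.symm⟩
  have hM' : Mob a b c d τ τ := by
    unfold Mob at hM ⊢
    apply mul_left_cancel₀ (Nat.cast_ne_zero.2 hg : (g : ℂ) ≠ 0)
    push_cast at hM
    linear_combination hM
  obtain ⟨D, hD⟩ := Int.eq_ofNat_of_zero_le (mob_det_nonneg τ.im_pos τ.im_pos hM')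
  have e : N = g * g * D := by zify; rw [← hdet, ← hD]; ring
  have hs : ¬ IsSquare D := fun h ↦ hm.1 (e ▸ (IsSquare.mul_self g).mul h)
  have h1 := hm.2.2 D hs (iso_of_rel ⟨a, b, c, d, hD, hM'⟩)
  have h2 : 0 < D := Nat.pos_of_ne_zero fun h ↦ hs (h ▸ IsSquare.zero)
  have h3 : g * g ≤ 1 := Nat.le_of_mul_le_mul_right (by rwa [← e, one_mul]) h2
  nlinarith [Nat.pos_of_ne_zero hg]

theorem row : ∃ k A0 : ℕ, ∀ (A : ℕ) (W : WD) (τ : ℍ) (u Ω l : ℂ) (r s : ℤ), A0 ≤ A →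
    l.im ≠ 0 → Ω ≠ 0 → W.IsLat τ Ω → W.Size (Ω / 2) u A →
    W.Size (Ω / 2) (Ω * ((1 : ℤ) + (0 : ℤ) * τ)) A →
    W.Size (Ω / 2) (Ω * ((0 : ℤ) + (1 : ℤ) * τ)) A → W.Ar (Ω / 2) A →
    AI l A → AI (r : ℂ) A → AI (s : ℂ) A → (r ≠ 0 ∨ s ≠ 0) → l * u = Ω * (r + s * τ) →
    (∃ g p q : ℤ, r = g * p ∧ s = g * q ∧ |p| ≤ (A ^ k : ℕ) ∧ |q| ≤ (A ^ k : ℕ)) ∨
      ∃ μ : ℂ, μ.im ≠ 0 ∧ Few μ W.Λ W.Λ (A ^ k) ∧ Few μ⁻¹ W.Λ W.Λ (A ^ k) := by
  obtain ⟨k, A0, hb⟩ := baker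
  refine ⟨k, A0, fun A W τ u Ω l r s hA hl hΩ hlat s0 s1 s2 a1 i0 i1 i2 hrs e ↦ ?_⟩
  have h0 : l ≠ 0 := by rintro rfl; simp at hl
  have hobs := hb A ![W, W, W] ![l, r, s] ![Ω / 2, Ω / 2, Ω / 2]
    ![u, Ω * ((1 : ℤ) + (0 : ℤ) * τ), Ω * ((0 : ℤ) + (1 : ℤ) * τ)] hA h0
    (fun i ↦ by fin_cases i <;> assumption) (fun i ↦ by fin_cases i <;> assumption)
    (fun i ↦ by fin_cases i <;> assumption) (by
      have : l * u - r * (Ω * ((1 : ℤ) + (0 : ℤ) * τ)) - s * (Ω * ((0 : ℤ) + (1 : ℤ) * τ)) = 0 := by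
        push_cast
        linear_combination e
      simp only [Matrix.cons_val_zero, Matrix.cons_val_one, Matrix.cons_val]
      rw [this, norm_zero]; positivity)
  obtain ⟨g, p', q', hg0, hco, hr, hs⟩ := Int.exists_gcd_one' (Int.gcd_pos_iff.2 hrs)
  rcases obs_cases2 (W := ![W, W, W]) (θ := g) (m1 := p') (m2 := q') hlat hlat τ.im_pos hΩ
    (Nat.cast_ne_zero.2 hg0.ne') (Int.isCoprime_iff_gcd_eq_one.2 hco) h0 (by simp [hr]; ring)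
    (by simp [hs]; ring) hobs with h | ⟨μ, -, f1, f2, f3⟩
  · exact Or.inl ⟨g, p', q', by rw [hr]; ring, by rw [hs]; ring, h.1, h.2⟩
  · exact Or.inr ⟨μ, f3 (by simp [hl, hg0.ne']), f1, f2⟩

end ENDO

theorem endo_estimate : ∃ C k : ℕ, ∀ (x : ℂ) (n a : ℕ), Sm x a → MinEnd n x →
    (n : ℝ) ≤ Real.exp a → n ≤ C * a ^ k := by
  obtain ⟨c1, hc1, hmod⟩ := model2
  obtain ⟨k, A0, hrow⟩ := ENDO.row
  obtain ⟨c3, hc3⟩ := exists_le_exp (6 * (2 * c1) ^ 4)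
  set c : ℕ := c1 + c3 + A0 + 5 with hc
  refine ⟨8 * c ^ (16 * k), 32 * k, fun x N a ⟨d, hd, hda, hx⟩ hm hN ↦ ?_⟩
  have ha : 1 ≤ a := hx.2.1.pos
  obtain ⟨τ, Ω, W, rfl, hΩ, -, hlat, hτ, him, har, hsz⟩ := hmod d x a hd hda ha hx
  obtain ⟨p, q, r, s, hdet, hM⟩ := hm.2.1.rel rfl rfl
  have hN0 : 0 < N := Nat.pos_of_ne_zero fun h ↦ hm.1 (h ▸ IsSquare.zero)
  have ha1 : (1 : ℝ) ≤ a := by exact_mod_cast ha
  have hc11 : (1 : ℝ) ≤ c1 := by exact_mod_cast hc1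
  have hB2 : (2 : ℝ) ≤ 2 * c1 * a := by nlinarith
  have hi := him.trans (mul_le_mul_of_nonneg_right hB2 τ.im_pos.le)
  obtain ⟨b1, b2, b3, b4⟩ := mob_entries (B := 2 * c1 * a) hM hdet hN0 (by linarith) (by linarith)
    (by linarith) hi hi
  have hl : ((p : ℂ) - r * τ).im ≠ 0 := by
    simpa using ⟨mob_c_ne hM hdet hm.1 τ.im_pos, τ.im_pos.ne'⟩
  set A : ℕ := c * a ^ 2 with hA
  have ha2 : a ≤ a ^ 2 := Nat.le_self_pow two_ne_zero a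
  have m0 : c ≤ A := Nat.le_mul_of_pos_right c (ha.trans ha2)
  have m1 : c1 * a ^ 2 ≤ A := Nat.mul_le_mul_right _ (by omega)
  have m2 : ((c3 + 5) * a : ℝ) ≤ A := by exact_mod_cast Nat.mul_le_mul (by omega) ha2
  have hAI := ENDO.lam (A := A) hM hdet hN0 (by omega) (hN.trans (Real.exp_le_exp.2 (by
    nlinarith [(Nat.cast_nonneg c3 : (0 : ℝ) ≤ c3)])))
  have hint : ∀ t : ℤ, |(t : ℝ)| ≤ 6 * N * (2 * c1 * a) ^ 4 → AI (t : ℂ) A := by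
    intro t ht
    refine int_AI _ (by omega) ?_
    have h5 : (a : ℝ) ≤ Real.exp a := by linarith [Real.add_one_le_exp (a : ℝ)]
    calc |(t : ℝ)| ≤ 6 * Real.exp a * (2 * c1 * Real.exp a) ^ 4 := ht.trans (by gcongr)
      _ = (6 * (2 * c1) ^ 4) * Real.exp a ^ 5 := by ring
      _ ≤ Real.exp (c3 * a) * Real.exp a ^ 5 := by gcongr; exact hc3 a ha
      _ = Real.exp ((c3 + 5) * a) := by
        rw [← Real.exp_nat_mul, ← Real.exp_add]; push_cast; ring_nf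
      _ ≤ _ := Real.exp_le_exp.2 m2
  have hpos : (0 : ℝ) ≤ 3 * N * (2 * c1 * a) ^ 4 := by positivity
  have key : ∀ (m n t t' : ℤ), (m ≠ 0 ∨ n ≠ 0) → |m| ≤ 1 → |n| ≤ 1 →
      |(t : ℝ)| ≤ 6 * N * (2 * c1 * a) ^ 4 → |(t' : ℝ)| ≤ 6 * N * (2 * c1 * a) ^ 4 →
      (t ≠ 0 ∨ t' ≠ 0) → (p - r * τ : ℂ) * (m + n * τ) = t + t' * τ →
      (∃ g p q : ℤ, t = g * p ∧ t' = g * q ∧ |p| ≤ (A ^ k : ℕ) ∧ |q| ≤ (A ^ k : ℕ)) ∨
        N ≤ 8 * (A ^ k) ^ 16 := fun m n t t' hmn hm1 hn1 ht ht' htt e ↦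
    (hrow A W τ (Ω * (m + n * τ)) Ω _ t t' (by omega) hl hΩ hlat
      ((hsz m n hmn hm1 hn1).mono m1) ((hsz 1 0 (by simp) (by simp) (by simp)).mono m1)
      ((hsz 0 1 (by simp) (by simp) (by simp)).mono m1) (Ar_mono har m1) hAI (hint t ht)
      (hint t' ht') htt (by rw [← e]; ring)).imp_right
        fun ⟨μ, hμ, f1, f2⟩ ↦ ENDO.mult hlat hΩ hμ f1 f2 hm
  have hM' := hM
  unfold Mob at hM'
  have k1 := key 1 0 p (-r) (by simp) (by simp) (by simp) (by linarith)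
    (by push_cast; rw [abs_neg]; linarith)
    (by by_contra h; push Not at h; obtain ⟨h1, h2⟩ := h
        rw [h1, neg_eq_zero.1 h2] at hdet; omega)
    (by push_cast; ring)
  have k2 := key 0 1 (-q) s (by simp) (by simp) (by simp)
    (by push_cast; rw [abs_neg]; linarith) (by linarith)
    (by by_contra h; push Not at h; obtain ⟨h1, h2⟩ := h
        rw [h2, neg_eq_zero.1 h1] at hdet; omega)
    (by push_cast; linear_combination (-1 : ℂ) * hM')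
  have k3 := key 1 1 (p - q) (s - r) (by simp) (by simp) (by simp)
    (by push_cast; linarith [abs_sub (p : ℝ) q]) (by push_cast; linarith [abs_sub (s : ℝ) r])
    (by by_contra h; push Not at h; obtain ⟨h1, h2⟩ := h
        rw [sub_eq_zero.1 h1, sub_eq_zero.1 h2] at hdet; omega)
    (by push_cast; linear_combination (-1 : ℂ) * hM')
  have hK : 1 ≤ A ^ k := Nat.one_le_pow _ _ (by omega)
  have fin : N ≤ 8 * (A ^ k) ^ 16 := by
    rcases k1 with ⟨g1, p1, q1, e1, e1', u1, v1⟩ | k1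
    swap; · exact k1
    rcases k2 with ⟨g2, p2, q2, e2, e2', u2, v2⟩ | k2
    swap; · exact k2
    rcases k3 with ⟨g3, p3, q3, e3, e3', u3, v3⟩ | k3
    swap; · exact k3
    have w1 : ((Int.gcd g1 g2 : ℕ) : ℤ) ∣ g1 := Int.gcd_dvd_left _ _
    have w2 : ((Int.gcd g1 g2 : ℕ) : ℤ) ∣ g2 := Int.gcd_dvd_right _ _
    have := small_case (K := A ^ k) (g3 := g3) (p3 := p3) (q3 := q3) hN0
      (by rw [← e1, ← e1', ← e2, ← e2', ← hdet]; ring) (Int.isCoprime_iff_gcd_eq_one.2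
        (ENDO.prim hm hdet hM (e1 ▸ w1.mul_right _) ((dvd_neg).1 (e2 ▸ w2.mul_right _))
          ((dvd_neg).1 (e1' ▸ w1.mul_right _)) (e2' ▸ w2.mul_right _)))
      (by rw [← e1, ← e2, ← e3]; ring) (by rw [← e1', ← e2', ← e3']; ring) u1 v1 u2 v2 u3 v3
    exact this.trans (Nat.mul_le_mul_left _ (Nat.pow_le_pow_right hK (by norm_num)))
  refine fin.trans (le_of_eq ?_)
  rw [hA]; ring_nf

end Pool.Agent.Lib.ZP3
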