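import Pool.Agent.Lib.ZP3.Height
import Pool.Agent.Lib.ZP3.Defs2

/-! Block ARCHA: archimedean distance to a pole of exactly one of two isogenous coordinates. -/

open UpperHalfPlane Filter Topology Metric
open scoped Real MatrixGroups

namespace Pool.Agent.Lib.ZP3

open Pool.Agent.Lib.MP_0704bf_ag Pool.Agent.Lib.helper6

namespace ArchA

open HBF

/-- the first column of an integral matrix between a high point and a bounded point -/
theorem entries {τ τ' : ℂ} {a b c d : ℤ} {n : ℕ} {M : ℝ} (hm : Mob a b c d τ τ')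
    (hn : a * d - b * c = n) (h1 : 1 / 2 ≤ τ.im) (h2 : ‖τ'‖ ≤ M) (h3 : 1 ≤ M * τ'.im) :
    |(a : ℝ)| ≤ (1 + 2 * n * M) * (1 + M ^ 2) ∧ |(c : ℝ)| ≤ (1 + 2 * n * M) * (1 + M ^ 2) := by
  have hM : 0 ≤ M := (norm_nonneg _).trans h2
  have e := mob_normSq hm
  rw [hn] at e
  push_cast at e
  set X := ‖(a : ℂ) - c * τ'‖ with hX
  have hX0 : 0 ≤ X := norm_nonneg _
  have hi : τ'.im ≤ M := ((le_abs_self _).trans (Complex.abs_im_le_norm _)).trans h2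
  have hn0 : (0 : ℝ) ≤ n := Nat.cast_nonneg n
  have hi0 : 0 < τ'.im := by
    by_contra hc
    have := mul_nonpos_of_nonneg_of_nonpos hM (not_lt.1 hc)
    linarith
  have p1 : X ^ 2 ≤ 2 * n * M := by
    have q1 : X ^ 2 * (1 / 2) ≤ X ^ 2 * τ.im := mul_le_mul_of_nonneg_left h1 (sq_nonneg _)
    have q2 : (n : ℝ) * τ'.im ≤ n * M := mul_le_mul_of_nonneg_left hi hn0
    linarith
  have p2 : X ≤ 1 + 2 * n * M := by nlinarith [sq_nonneg (X - 1)]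
  have p3 : |(c : ℝ)| * τ'.im ≤ X := by
    have := Complex.abs_im_le_norm ((a : ℂ) - c * τ')
    simpa [abs_mul, abs_of_pos hi0] using this
  have p4 : |(c : ℝ)| ≤ M * X := by
    have q1 : |(c : ℝ)| * 1 ≤ |(c : ℝ)| * (M * τ'.im) := mul_le_mul_of_nonneg_left h3 (abs_nonneg _)
    have q2 : M * (|(c : ℝ)| * τ'.im) ≤ M * X := mul_le_mul_of_nonneg_left p3 hM
    linarith
  have p5 : |(a : ℝ)| ≤ X + |(c : ℝ)| * M := by
    have q1 := norm_add_le ((a : ℂ) - c * τ') (c * τ')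
    rw [sub_add_cancel, norm_mul, Complex.norm_intCast, Complex.norm_intCast] at q1
    have q2 : |(c : ℝ)| * ‖τ'‖ ≤ |(c : ℝ)| * M := mul_le_mul_of_nonneg_left h2 (abs_nonneg _)
    linarith
  have p6 : X * (1 + M ^ 2) ≤ (1 + 2 * n * M) * (1 + M ^ 2) :=
    mul_le_mul_of_nonneg_right p2 (by positivity)
  have p7 : |(c : ℝ)| * M ≤ M * X * M := mul_le_mul_of_nonneg_right p4 hM
  have p8 : M * X ≤ X * (1 + M ^ 2) := by nlinarith [mul_nonneg hX0 (sq_nonneg (M - 1))]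
  constructor <;> nlinarith

/-- local data at a point `P` which is a pole of `Ai / Bi` and not of `Aj / Bj` -/
theorem local_data {Ai Bi Aj Bj : Polynomial ℂ} {P : ℂ} (hA0 : Ai.eval P ≠ 0)
    (hP : Bi.eval P = 0) (hj : Bj.eval P ≠ 0) :
    ∃ (E : ℕ) (r K : ℝ) (g : ℂ → ℂ), 0 < E ∧ 0 < r ∧ 0 < (g 0).im ∧
      jc (g 0) = Aj.eval P / Bj.eval P ∧
      ∀ u : ℂ, ‖u‖ < r → ‖u‖ ≤ 1 ∧ (g 0).im / 2 ≤ (g u).im ∧ ‖g u‖ ≤ ‖g 0‖ + 1 ∧
        jc (g u) = Aj.eval (P + u ^ E) / Bj.eval (P + u ^ E) ∧ ‖g u - g 0‖ ≤ K * ‖u‖ ∧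
        ‖ModularForm.eta (g u) ^ 24 - ModularForm.eta (g 0) ^ 24‖ ≤ K * ‖u‖ ∧
        Ai.eval (P + u ^ E) ≠ 0 ∧
        ‖Bj.eval (P + u ^ E) / Ai.eval (P + u ^ E) - Bj.eval P / Ai.eval P‖ ≤ K * ‖u‖ ∧
        ‖Bi.eval (P + u ^ E) / Ai.eval (P + u ^ E)‖ ≤ K * ‖u‖ := by
  obtain ⟨E, hE, hl⟩ := CH.lift_coord (A := fun _ ↦ Aj) (B := fun _ ↦ Bj) CH.facts 0 hj
  obtain ⟨g, e1⟩ := hl E hE dvd_rfl
  have h0 := e1.self_of_nhds
  have hz : P + (0 : ℂ) ^ E = P := by rw [zero_pow hE.ne', add_zero]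
  have hgd : DifferentiableAt ℂ g 0 := h0.1.differentiableAt
  have hev : ∀ p : Polynomial ℂ, DifferentiableAt ℂ (fun u : ℂ ↦ p.eval (P + u ^ E)) 0 :=
    fun p ↦ p.differentiableAt.comp (0 : ℂ) (f := fun u : ℂ ↦ P + u ^ E) (by fun_prop)
  have hA0' : Ai.eval (P + (0 : ℂ) ^ E) ≠ 0 := by rwa [hz]
  obtain ⟨K1, hK1⟩ := lip_of_differentiableAt hgd
  obtain ⟨K2, hK2⟩ := lip_of_differentiableAt (φ := fun u ↦ ModularForm.eta (g u) ^ 24)
    (((ModularForm.differentiableAt_eta_of_mem_upperHalfPlaneSet h0.2.1).comp 0 hgd).pow 24)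
  obtain ⟨K3, hK3⟩ := lip_of_differentiableAt
    (φ := fun u ↦ Bj.eval (P + u ^ E) / Ai.eval (P + u ^ E)) ((hev _).div (hev _) hA0')
  obtain ⟨K4, hK4⟩ := lip_of_differentiableAt
    (φ := fun u ↦ Bi.eval (P + u ^ E) / Ai.eval (P + u ^ E)) ((hev _).div (hev _) hA0')
  have e2 : ∀ᶠ u in 𝓝 (0 : ℂ), u ∈ ball (0 : ℂ) 1 := ball_mem_nhds _ one_pos
  have e3 : ∀ᶠ u in 𝓝 (0 : ℂ), (g 0).im / 2 < (g u).im :=
    (Complex.continuous_im.continuousAt.comp hgd.continuousAt).eventually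
      (lt_mem_nhds (by have := h0.2.1; simp only [Function.comp]; linarith))
  have e4 : ∀ᶠ u in 𝓝 (0 : ℂ), ‖g u‖ < ‖g 0‖ + 1 :=
    hgd.continuousAt.norm.eventually (gt_mem_nhds (by linarith))
  have e5 : ∀ᶠ u in 𝓝 (0 : ℂ), Ai.eval (P + u ^ E) ≠ 0 :=
    (hev _).continuousAt.eventually_ne hA0'
  obtain ⟨r1, hr1, hall⟩ := Metric.eventually_nhds_iff.1
    (e1.and (e2.and (e3.and (e4.and (e5.and (hK1.and (hK2.and (hK3.and hK4))))))))
  refine ⟨E, r1, |K1| + |K2| + |K3| + |K4|, g, hE, hr1, h0.2.1, by rw [h0.2.2, xv, hz],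
    fun u hu ↦ ?_⟩
  obtain ⟨f1, f2, f3, f4, f5, f6, f7, f8, f9⟩ := hall (y := u) (by simpa using hu)
  have a1 := abs_nonneg K1
  have a2 := abs_nonneg K2
  have a3 := abs_nonneg K3
  have a4 := abs_nonneg K4
  have key : ∀ K : ℝ, |K| ≤ |K1| + |K2| + |K3| + |K4| →
      K * ‖u‖ ≤ (|K1| + |K2| + |K3| + |K4|) * ‖u‖ := fun K hK ↦
    mul_le_mul_of_nonneg_right ((le_abs_self K).trans hK) (norm_nonneg _)
  rw [hz] at f8 f9
  rw [hP, zero_div, sub_zero] at f9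
  exact ⟨(mem_ball_zero_iff.1 f2).le, f3.le, f4.le, f1.2.2,
    f6.trans (key _ (by linarith)), f7.trans (key _ (by linarith)), f5,
    f8.trans (key _ (by linarith)), f9.trans (key _ (by linarith))⟩

variable {ι : Type} {a : ι → ℕ}

theorem an_nat {e : ι → ℕ} (he : ∀ s, (e s : ℝ) ≤ Real.exp (a s)) : AN a fun s ↦ (e s : ℂ) :=
  ⟨⟨1, one_pos, fun s ↦ by
      have : IsIntegral ℤ (e s : ℂ) := by exact_mod_cast isIntegral_algebraMap (x := (e s : ℤ))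
      simpa using this⟩,
    ⟨fun _ ↦ 1, PN.const 1, fun s ↦ deg_nat _⟩,
    ⟨_, EB.exp_self, fun s σ ↦ by simpa using he s⟩⟩

theorem an_of_AI {z : ι → ℂ} (h : ∀ s, AI (z s) (a s)) : AN a z :=
  ⟨⟨1, one_pos, fun s ↦ by simpa using (h s).1⟩, ⟨a, PN.self, fun s ↦ (h s).2.1⟩,
    ⟨_, EB.exp_self, fun s ↦ (h s).2.2⟩⟩

theorem an_pow (ha : ∀ s, 1 ≤ a s) {z : ι → ℂ} (h : AN a z) (n : ℕ) : AN a fun s ↦ z s ^ n := by
  induction n with
  | zero => simpa using AN.const isAlgebraic_one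
  | succ n ih => simpa [pow_succ] using ih.mul ha h

theorem family {Ai Bi Aj Bj : Polynomial ℂ} {P : ℂ} (hAi : AlgP Ai) (hAj : AlgP Aj) (hBj : AlgP Bj)
    (hPa : IsAlgebraic ℚ P) (hA0 : Ai.eval P ≠ 0) (hP : Bi.eval P = 0) (hj : Bj.eval P ≠ 0) :
    ∃ r0 : ℝ, 0 < r0 ∧ ∀ (ι : Type) (t U : ι → ℂ) (a n : ι → ℕ), (∀ s, Bi.eval (t s) ≠ 0) →
      (∀ s, Bj.eval (t s) ≠ 0) → (∀ s, 0 < n s) →
      (∀ s, Isog (n s) (Ai.eval (t s) / Bi.eval (t s)) (Aj.eval (t s) / Bj.eval (t s)) (U s)) →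
      (∀ s, (n s : ℝ) ≤ Real.exp (a s)) →
      (∀ s, Sm (U s * Bi.eval (t s) / Bj.eval (t s)) (a s)) →
      (∀ s, ‖t s - P‖ < r0) → LB a fun s ↦ ‖t s - P‖ := by
  obtain ⟨E, r, K, g, hE, hr, hg0, hj0, hloc⟩ := local_data hA0 hP hj
  refine ⟨r ^ E, by positivity, fun ι t U a n hBi hBj' hn hU hna hsm hr0 ↦ ?_⟩
  choose e he0 hea hAI0 using hsm
  have ha : ∀ s, 1 ≤ a s := fun s ↦ (hAI0 s).2.1.pos
  -- the fixed elliptic curve
  set τb : ℍ := ⟨g 0, hg0⟩ with hτb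
  have hjb : jInv τb = Aj.eval P / Bj.eval P := by
    rw [← hj0, jc, ofComplex_apply_of_im_pos hg0]
  obtain ⟨d, A0, hd, hAI⟩ := exists_AI (alg_div (alg_eval hAj hPa) (alg_eval hBj hPa))
  have hdC : (12 * d : ℂ) ^ 6 ≠ 0 := by
    have : (d : ℂ) ≠ 0 := by exact_mod_cast hd.ne'
    exact pow_ne_zero _ (mul_ne_zero (by norm_num) this)
  obtain ⟨Ω, hΩ⟩ := IsAlgClosed.exists_pow_nat_eq
    ((2 * π) ^ 12 * ModularForm.discriminant τb / (12 * d : ℂ) ^ 6) (by norm_num : 0 < 12)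
  have hΩ' : Ω ^ 12 * (12 * d) ^ 6 = (2 * π) ^ 12 * ModularForm.discriminant τb := by
    rw [hΩ, div_mul_cancel₀ _ hdC]
  -- the local parameter
  choose u hu using fun s ↦ IsAlgClosed.exists_pow_nat_eq (t s - P) hE
  have hur : ∀ s, ‖u s‖ < r := fun s ↦
    lt_of_pow_lt_pow_left₀ E hr.le (by rw [← norm_pow, hu]; exact hr0 s)
  have htu : ∀ s, P + u s ^ E = t s := fun s ↦ by rw [hu]; ring
  choose f1 f2 f3 f4 f5 f6 f7 f8 f9 using fun s ↦ hloc (u s) (hur s)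
  simp only [htu] at f4 f7 f8 f9
  have hε : ∀ s, 0 ≤ ‖u s‖ ∧ ‖u s‖ ≤ 1 := fun s ↦ ⟨norm_nonneg _, f1 s⟩
  have him : ∀ s, 0 < (g (u s)).im := fun s ↦ by linarith [f2 s]
  set τi : ι → ℍ := fun s ↦ ⟨g (u s), him s⟩ with hτi
  have hji : ∀ s, jInv (τi s) = Aj.eval (t s) / Bj.eval (t s) := fun s ↦ by
    rw [← f4, jc, ofComplex_apply_of_im_pos (him s)]
  choose τl hfd hjl using fun s ↦ j_surj (Ai.eval (t s) / Bi.eval (t s))
  -- the isogeny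
  choose a' b' c' d' hdet hmob hid using fun s ↦ (hU s).lift (hjl s) (hji s)
  set β : ι → ℂ := fun s ↦ U s * Bi.eval (t s) / Bj.eval (t s) with hβ
  have hean : AN a fun s ↦ (e s : ℂ) := an_nat hea
  have hβan : AN a fun s ↦ (e s : ℂ) ^ 12 * β s := by
    have := (an_pow ha hean 11).mul ha (an_of_AI hAI0)
    refine (congrArg (AN a) ?_).mp this
    funext s
    simp only [hβ]
    ring
  -- size of the matrix entries
  obtain ⟨C, hC1, hC⟩ := fd_bounds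
  have hent : (EB a fun s ↦ |(a' s : ℝ)|) ∧ EB a fun s ↦ |(c' s : ℝ)| := by
    set M : ℝ := ‖g 0‖ + 2 / (g 0).im + 1 with hM
    have p2 : 0 < 2 / (g 0).im := by positivity
    have p3 := norm_nonneg (g 0)
    have hM0 : 0 ≤ M := by positivity
    have h3 : EB a fun s ↦ (1 + 2 * Real.exp (a s) * M) * (1 + M ^ 2) :=
      ((EB.const 1).add ha (((EB.const 2).mul ha EB.exp_self fun _ ↦ by positivity).mul ha
        (EB.const M) fun _ ↦ hM0)).mul ha (EB.const _) fun _ ↦ by positivity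
    have h4 : ∀ s, |(a' s : ℝ)| ≤ (1 + 2 * n s * M) * (1 + M ^ 2) ∧
        |(c' s : ℝ)| ≤ (1 + 2 * n s * M) * (1 + M ^ 2) := by
      intro s
      have p4 : 1 / 2 ≤ (τl s).im := by
        have := ModularGroup.three_le_four_mul_im_sq_of_mem_fd (hfd s)
        have h5 := (τl s).im_pos
        nlinarith
      refine entries (hmob s) (hdet s) p4 ?_ ?_
      · have := f3 s
        simp only [hM, hτi]
        linarith
      · have h5 : 2 / (g 0).im ≤ M := by simp only [hM]; linarith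
        have h6 : 2 / (g 0).im * ((g 0).im / 2) = 1 := by field_simp
        rw [← h6]
        exact mul_le_mul h5 (f2 s) (by positivity) hM0
    have h5 : ∀ s, (1 + 2 * n s * M) * (1 + M ^ 2) ≤
        (1 + 2 * Real.exp (a s) * M) * (1 + M ^ 2) := fun s ↦ by
      have := hna s
      gcongr
    exact ⟨h3.mono fun s ↦ (h4 s).1.trans (h5 s), h3.mono fun s ↦ (h4 s).2.trans (h5 s)⟩
  have hba : BD a fun s ↦ (a' s : ℂ) := by simpa [BD] using hent.1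
  have hbc : BD a fun s ↦ (c' s : ℂ) := by simpa [BD] using hent.2
  have heb : EB a fun s ↦ (e s : ℝ) := EB.exp_self.mono hea
  -- the approximate identity
  set κ : ℂ := Bj.eval P / Ai.eval P with hκ
  have hκa : IsAlgebraic ℚ κ := alg_div (alg_eval hBj hPa) (alg_eval hAi hPa)
  have hE4 : Cl a (fun s ↦ ‖u s‖) (fun s ↦ ModularForm.E₄ (τl s) ^ 3) fun _ ↦ 1 := by
    refine Cl.of_le (C * K) fun s ↦ ?_
    have h1 := (hC _ (hfd s)).2.2.2
    rw [hjl] at h1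
    have h2 : ‖Ai.eval (t s) / Bi.eval (t s)‖ * ‖Bi.eval (t s) / Ai.eval (t s)‖ = 1 := by
      have := f7 s
      have := hBi s
      rw [← norm_mul]
      field_simp
      simp
    have h3 := norm_nonneg (ModularForm.E₄ (τl s) ^ 3 - 1)
    calc ‖ModularForm.E₄ (τl s) ^ 3 - 1‖
        = ‖ModularForm.E₄ (τl s) ^ 3 - 1‖ * ‖Ai.eval (t s) / Bi.eval (t s)‖ *
          ‖Bi.eval (t s) / Ai.eval (t s)‖ := by rw [mul_assoc, h2, mul_one]
      _ ≤ C * (K * ‖u s‖) :=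
          mul_le_mul (by nlinarith) (f9 s) (norm_nonneg _) (by linarith)
      _ = _ := by ring
  have hR : Cl a (fun s ↦ ‖u s‖)
      (fun s ↦ (e s : ℂ) ^ 12 * β s * (Bj.eval (t s) / Ai.eval (t s)) * ModularForm.E₄ (τl s) ^ 3)
      fun s ↦ (e s : ℂ) ^ 12 * β s * κ * 1 :=
    ((Cl.refl _).mul ha hε (Cl.of_le K f8) hβan.hs.bd (BD.const _)).mul ha hε hE4
      (hβan.hs.bd.mul ha (BD.const _)) (BD.const _)
  have hbd : BD a fun s ↦ (e s : ℂ) * ((a' s : ℂ) - c' s * g 0) :=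
    hean.hs.bd.mul ha (hba.sub ha (hbc.mul ha (BD.const _)))
  have hL : Cl a (fun s ↦ ‖u s‖)
      (fun s ↦ ((e s : ℂ) * ((a' s : ℂ) - c' s * g (u s))) ^ 12 * ModularForm.eta (g (u s)) ^ 24)
      fun s ↦ ((e s : ℂ) * ((a' s : ℂ) - c' s * g 0)) ^ 12 * ModularForm.eta (g 0) ^ 24 :=
    (((Cl.refl _).mul ha hε
      ((Cl.refl _).sub ha ((Cl.refl _).mul ha hε (Cl.of_le K f5) hbc (BD.const _))) hean.hs.bd
      (hba.sub ha (hbc.mul ha (BD.const _)))).pow ha hε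
      hbd 12).mul ha hε (Cl.of_le K f6) (hbd.pow 12) (BD.const _)
  have hLR : (fun s ↦ ((e s : ℂ) * ((a' s : ℂ) - c' s * g (u s))) ^ 12 *
      ModularForm.eta (g (u s)) ^ 24) = fun s ↦
      (e s : ℂ) ^ 12 * β s * (Bj.eval (t s) / Ai.eval (t s)) * ModularForm.E₄ (τl s) ^ 3 := by
    funext s
    have h1 : U s * ModularForm.discriminant (τl s) =
        ((a' s : ℂ) - c' s * g (u s)) ^ 12 * ModularForm.eta (g (u s)) ^ 24 := hid s
    have h2 := hjl s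
    have h3 := ModularForm.discriminant_ne_zero (τl s)
    have h4 := f7 s
    have h5 := hBi s
    have h6 := hBj' s
    rw [jInv, div_eq_div_iff h3 h5] at h2
    rw [mul_pow, mul_assoc, ← h1]
    simp only [hβ]
    field_simp
    linear_combination (-U s * (e s : ℂ) ^ 12) * h2
  rw [hLR] at hL
  have hZ := (hL.symm.trans ha hR).mul ha hε (Cl.refl fun _ ↦ ((12 * d : ℂ) ^ 6)⁻¹)
    ((hβan.hs.bd.mul ha (BD.const _)).mul ha (BD.const _)) (BD.const _)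
  -- the nearest twelfth root
  have h2pi : (2 * π * Complex.I : ℂ) ≠ 0 := Complex.two_pi_I_ne_zero
  set z : ι → ℂ := fun s ↦ Ω * ((e s : ℂ) * ((a' s : ℂ) - c' s * g 0)) / (2 * π * Complex.I)
    with hz
  have hz12 : ∀ s, z s ^ 12 = ((e s : ℂ) * ((a' s : ℂ) - c' s * g 0)) ^ 12 *
      ModularForm.eta (g 0) ^ 24 * ((12 * d : ℂ) ^ 6)⁻¹ := by
    intro s
    have h1 : ModularForm.discriminant τb = ModularForm.eta (g 0) ^ 24 := rfl
    have h2 : (2 * π * Complex.I : ℂ) ^ 12 = (2 * π) ^ 12 := by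
      rw [mul_pow, show (12 : ℕ) = 4 * 3 by norm_num, pow_mul Complex.I, Complex.I_pow_four]
      simp
    have h3 : (2 * π : ℂ) ^ 12 ≠ 0 := by rw [← h2]; exact pow_ne_zero _ h2pi
    simp only [hz]
    rw [div_pow, mul_pow Ω, hΩ, h1, h2]
    field_simp
  choose α hα hnear using fun s ↦ exists_near_root (z s)
    ((e s : ℂ) ^ 12 * β s * κ * 1 * ((12 * d : ℂ) ^ 6)⁻¹) (by norm_num : 0 < 12)
  have hca : IsAlgebraic ℚ ((12 * d : ℂ) ^ 6)⁻¹ := by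
    have : IsAlgebraic ℚ (((12 * d) ^ 6 : ℕ) : ℂ) := isAlgebraic_natCast _
    push_cast at this
    exact this.inv
  have hαan : AN a α := AN.root (by norm_num : 0 < 12)
    (((hβan.mul ha (AN.const hκa)).mul ha (AN.const isAlgebraic_one)).mul ha (AN.const hca)) hα
  have hper := period_fam ha τb Ω d hd (by rw [hjb]; exact hAI.1) hΩ' (m := fun s ↦ e s * a' s)
    (n := fun s ↦ -(e s * c' s)) hαan
    (fun s ↦ by
      by_contra hcon
      push Not at hcon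
      have h1 := hdet s
      have h2 := hn s
      have h3 : (e s : ℤ) ≠ 0 := by exact_mod_cast (he0 s).ne'
      rw [(mul_eq_zero.1 hcon.1).resolve_left h3,
        (mul_eq_zero.1 (neg_eq_zero.1 hcon.2)).resolve_left h3] at h1
      omega)
    (by simpa [abs_mul] using heb.mul ha hent.1 fun _ ↦ abs_nonneg _)
    (by simpa [abs_mul] using heb.mul ha hent.2 fun _ ↦ abs_nonneg _)
  have hlb : LB a fun s ↦ ‖z s - α s‖ := by
    refine hper.of_le_mul ha (EB.const ‖(2 * π * Complex.I : ℂ)‖) (fun _ ↦ norm_nonneg _)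
      fun s ↦ le_of_eq ?_
    rw [← norm_mul, norm_sub_rev]
    congr 1
    have h1 : (τb : ℂ) = g 0 := rfl
    simp only [hz, h1]
    push_cast
    field_simp
    ring
  obtain ⟨G1, hG1, hZ⟩ := hZ
  have hu' : LB a fun s ↦ ‖u s‖ :=
    (hlb.pow 12).of_le_mul ha hG1 (fun _ ↦ norm_nonneg _) fun s ↦ by
      refine (hnear s).trans ?_
      rw [hz12]
      exact hZ s
  exact (hu'.pow E).mono fun s ↦ by rw [← norm_pow, hu]

end ArchA

variable {κ : Type} [Fintype κ] [DecidableEq κ] {A B : κ → Polynomial ℂ} {P : ℂ} {i j : κ}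

omit [Fintype κ] [DecidableEq κ] in
theorem arch_A (h : Nice A B) (hA : AlgK A) (hB : AlgK B) (hi : (B i).eval P = 0)
    (hj : (B j).eval P ≠ 0) : ∃ C k : ℕ, ∀ (t U : ℂ) (a N : ℕ), NPk B t → 0 < N →
      Isog N (xk A B t i) (xk A B t j) U → (N : ℝ) ≤ Real.exp a →
      Sm (U * (B i).eval t / (B j).eval t) a → Real.exp (-(C * (a : ℝ) ^ k)) ≤ ‖t - P‖ := by
  have hB0 : B i ≠ 0 := by
    intro h0
    have := (h i).2.1
    simp [h0] at this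
  obtain ⟨r0, hr0, hf⟩ := ArchA.family (hA i) (hA j) (hB j) (HBF.alg_root (hB i) hB0 hi)
    (HBF.eval_ne_zero_of_coprime (h i).2.2 hi) hi hj
  let ι := {q : ℂ × ℂ × ℕ × ℕ // NPk B q.1 ∧ 0 < q.2.2.2 ∧
    Isog q.2.2.2 (xk A B q.1 i) (xk A B q.1 j) q.2.1 ∧ (q.2.2.2 : ℝ) ≤ Real.exp q.2.2.1 ∧
    Sm (q.2.1 * (B i).eval q.1 / (B j).eval q.1) q.2.2.1}
  have hlb : HBF.LB (fun s : ι ↦ s.1.2.2.1) fun s ↦ ‖s.1.1 - P‖ := by
    refine HBF.LB.of_small (fun s ↦ ?_) hr0 ?_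
    · obtain ⟨d, -, -, hd⟩ := s.2.2.2.2.2
      exact hd.2.1.pos
    · exact hf {s : ι // ‖s.1.1 - P‖ < r0} (fun s ↦ s.1.1.1) (fun s ↦ s.1.1.2.1) (fun s ↦ s.1.1.2.2.1)
        (fun s ↦ s.1.1.2.2.2) (fun s ↦ s.1.2.1 i) (fun s ↦ s.1.2.1 j) (fun s ↦ s.1.2.2.1)
        (fun s ↦ s.1.2.2.2.1) (fun s ↦ s.1.2.2.2.2.1) (fun s ↦ s.1.2.2.2.2.2) fun s ↦ s.2
  obtain ⟨D, ⟨C, k, hC⟩, hD⟩ := hlb
  refine ⟨C, k, fun t U a N h1 h2 h3 h4 h5 ↦ ?_⟩
  refine le_trans (Real.exp_le_exp.2 ?_) (hD ⟨(t, U, a, N), h1, h2, h3, h4, h5⟩)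
  have := hC ⟨(t, U, a, N), h1, h2, h3, h4, h5⟩
  rw [neg_le_neg_iff]
  exact_mod_cast this

end Pool.Agent.Lib.ZP3
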