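import Pool.Agent.Lib.ZP3.Defs

/-! Hermite forms and the action of the modular group on the triples `tris N`. -/

open UpperHalfPlane Filter Topology ModularForm
open scoped Real MatrixGroups

namespace Pool.Agent.Lib.ZP3.Hk

open Pool.Agent.Lib.MP_0704bf_ag Pool.Agent.Lib.helper6

lemma mem_tris {N : ℕ} (hN : 0 < N) {g : ℕ × ℕ × ℕ} :
    g ∈ tris N ↔ g.1 * g.2.2 = N ∧ g.2.1 < g.2.2 := by
  obtain ⟨a, b, d⟩ := g
  simp only [tris, Finset.mem_filter, Finset.mem_product, Finset.mem_range, and_iff_right_iff_imp]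
  rintro ⟨h1, h2⟩
  have ha : 0 < a := by
    rcases Nat.eq_zero_or_pos a with rfl | h
    · simp at h1; omega
    · exact h
  have h3 : a ≤ N := h1 ▸ Nat.le_mul_of_pos_right a (by omega)
  have h4 : d ≤ N := h1 ▸ Nat.le_mul_of_pos_left d ha
  omega

lemma pos_of_mem {N : ℕ} (hN : 0 < N) {g : ℕ × ℕ × ℕ} (hg : g ∈ tris N) :
    0 < g.1 ∧ 0 < g.2.2 := by
  obtain ⟨h1, h2⟩ := (mem_tris hN).mp hg
  refine ⟨?_, by omega⟩
  rcases Nat.eq_zero_or_pos g.1 with h | h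
  · rw [h] at h1; omega
  · exact h

lemma coe_tr {g : ℕ × ℕ × ℕ} (ha : 0 < g.1) (hd : 0 < g.2.2) (τ : ℍ) :
    (tr g τ : ℂ) = ((g.1 : ℂ) * τ + g.2.1) / g.2.2 := by
  have h : 0 < (((g.1 : ℂ) * τ + g.2.1) / g.2.2).im := by
    have h1 : (0 : ℝ) < g.1 := by exact_mod_cast ha
    have h2 : (0 : ℝ) < g.2.2 := by exact_mod_cast hd
    have h3 := τ.im_pos
    rw [show (g.2.2 : ℂ) = ((g.2.2 : ℝ) : ℂ) by simp, Complex.div_ofReal_im]
    simp only [Complex.add_im, Complex.mul_im, Complex.natCast_re, Complex.natCast_im, coe_im,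
      zero_mul, add_zero]
    positivity
  rw [tr, ofComplex_apply_of_im_pos h]

lemma mob_tr {g : ℕ × ℕ × ℕ} (ha : 0 < g.1) (hd : 0 < g.2.2) (τ : ℍ) :
    Mob g.1 g.2.1 0 g.2.2 τ (tr g τ) := by
  have : (g.2.2 : ℂ) ≠ 0 := by exact_mod_cast hd.ne'
  rw [Mob, coe_tr ha hd]
  push_cast
  field_simp
  ring

lemma mob_SL (γ : SL(2, ℤ)) (τ : ℍ) :
    Mob (γ 0 0) (γ 0 1) (γ 1 0) (γ 1 1) τ (γ • τ : ℍ) := by
  have hd := denom_ne_zero (γ : GL (Fin 2) ℝ) τ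
  rw [ModularGroup.denom_apply] at hd
  rw [Mob, coe_specialLinearGroup_apply]
  simp only [algebraMap_int_eq, eq_intCast, Complex.ofReal_intCast]
  exact div_mul_cancel₀ _ hd

lemma det_SL (γ : SL(2, ℤ)) : γ 0 0 * γ 1 1 - γ 0 1 * γ 1 0 = 1 := by
  have := γ.det_coe
  rwa [Matrix.det_fin_two] at this

lemma exists_SL {τ τ' : ℍ} {a b c d : ℤ} (h : a * d - b * c = 1) (hm : Mob a b c d τ τ') :
    ∃ γ : SL(2, ℤ), τ' = γ • τ ∧ (a - c * τ' : ℂ) * denom γ τ = 1 := by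
  let γ : SL(2, ℤ) := ⟨!![a, b; c, d], by rw [Matrix.det_fin_two_of]; exact h⟩
  have hd := denom_ne_zero (γ : GL (Fin 2) ℝ) τ
  have h1 := mob_SL γ τ
  have h2 : ((a : ℂ) * d - b * c) = 1 := by exact_mod_cast h
  rw [ModularGroup.denom_apply] at hd
  refine ⟨γ, ?_, ?_⟩
  · ext
    apply mul_right_cancel₀ hd
    exact hm.trans h1.symm
  · rw [ModularGroup.denom_apply]
    change (a - c * τ' : ℂ) * (c * τ + d) = 1
    rw [Mob] at hm
    linear_combination h2 - c * hm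

lemma j_mob {τ τ' : ℍ} {a b c d : ℤ} (h : a * d - b * c = 1) (hm : Mob a b c d τ τ') :
    jInv τ' = jInv τ := by
  obtain ⟨γ, rfl, -⟩ := exists_SL h hm
  exact jInv_smul γ τ

lemma disc_mob {τ τ' : ℍ} {a b c d : ℤ} (h : a * d - b * c = 1) (hm : Mob a b c d τ τ') :
    ((a : ℂ) - c * τ') ^ 12 * discriminant τ' = discriminant τ := by
  obtain ⟨γ, h1, h2⟩ := exists_SL h hm
  have hγ : (γ : GL (Fin 2) ℝ) ∈ 𝒮ℒ := ⟨γ, rfl⟩
  have h12 := SlashInvariantForm.slash_action_eqn'' CuspForm.discriminant hγ τ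
  rw [CuspForm.coe_discriminant, ← ModularGroup.sl_moeb, ← h1] at h12
  rw [h12, zpow_ofNat, ← mul_assoc, ← mul_pow, h2, one_pow, one_mul]

/-- `(a b; c d) = (p q; r s) (g1 g2; 0 g3)` with `(p q; r s)` unimodular -/
def Herm (a b c d : ℤ) (g : ℕ × ℕ × ℕ) : Prop :=
  ∃ p q r s : ℤ, p * s - q * r = 1 ∧ a = p * g.1 ∧ b = p * g.2.1 + q * g.2.2 ∧ c = r * g.1 ∧
    d = r * g.2.1 + s * g.2.2

lemma exists_herm {N : ℕ} (hN : 0 < N) {a b c d : ℤ} (h : a * d - b * c = N) :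
    ∃ g ∈ tris N, Herm a b c d g := by
  have hN' : (0 : ℤ) < N := by exact_mod_cast hN
  have hg : 0 < Int.gcd a c := by
    rw [Int.gcd_pos_iff]
    by_contra! h0
    rw [h0.1, h0.2] at h
    omega
  obtain ⟨p, hp⟩ := Int.gcd_dvd_left a c
  obtain ⟨r, hr⟩ := Int.gcd_dvd_right a c
  have hb := Int.gcd_eq_gcd_ab a c
  generalize Int.gcd a c = e at hg hp hr hb
  generalize Int.gcdA a c = u at hb
  generalize Int.gcdB a c = v at hb
  subst hp hr
  have he0 : (0 : ℤ) < e := by exact_mod_cast hg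
  have h1 : p * u + r * v = 1 := by
    apply mul_left_cancel₀ he0.ne'
    linear_combination -hb
  have h2 : e * (p * d - r * b) = N := by
    rw [← h]; ring
  have h3 : 0 < p * d - r * b := by
    rw [← h2] at hN'
    exact (pos_iff_pos_of_mul_pos hN').mp he0
  obtain ⟨d', hd'⟩ := Int.eq_ofNat_of_zero_le h3.le
  have h4 := Int.emod_nonneg (u * b + v * d) h3.ne'
  have h5 := Int.emod_lt_of_pos (u * b + v * d) h3
  have h6 := Int.emod_add_mul_ediv (u * b + v * d) (p * d - r * b)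
  obtain ⟨b', hb'⟩ := Int.eq_ofNat_of_zero_le h4
  generalize (u * b + v * d) / (p * d - r * b) = k at h6
  rw [hb'] at h5 h6
  refine ⟨(e, b', d'), (mem_tris hN).mpr ⟨?_, by simp only; omega⟩,
    p, -v + k * p, r, u + k * r, by linear_combination h1, ?_, ?_, ?_, ?_⟩
  · have : (e : ℤ) * d' = N := by rw [← hd', h2]
    exact_mod_cast this
  · simp only; ring
  · simp only; rw [← hd']; linear_combination -p * h6 - b * h1
  · simp only; ring
  · simp only; rw [← hd']; linear_combination -r * h6 - d * h1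

lemma Herm.val {a b c d : ℤ} {g : ℕ × ℕ × ℕ} (h : Herm a b c d g) (ha : 0 < g.1)
    (hd : 0 < g.2.2) {τ τ' : ℍ} (hm : Mob a b c d τ τ') : jInv τ' = jInv (tr g τ) ∧
      ((a : ℂ) - c * τ') ^ 12 * discriminant τ' = (g.1 : ℂ) ^ 12 * discriminant (tr g τ) := by
  obtain ⟨p, q, r, s, h1, rfl, rfl, rfl, rfl⟩ := h
  have hd0 : (g.2.2 : ℂ) ≠ 0 := by exact_mod_cast hd.ne'
  have h2 : Mob p q r s (tr g τ) τ' := by
    rw [Mob, coe_tr ha hd]
    rw [Mob] at hm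
    push_cast at hm
    field_simp
    linear_combination hm
  refine ⟨j_mob h1 h2, ?_⟩
  rw [← disc_mob h1 h2]
  push_cast
  ring

lemma herm_inj {N : ℕ} (hN : 0 < N) {g1 g2 g : ℕ × ℕ × ℕ} (h1 : g1 ∈ tris N) (h2 : g2 ∈ tris N)
    {a b c d : ℤ} (h : a * d - b * c = 1)
    (k1 : Herm (g1.1 * a + g1.2.1 * c) (g1.1 * b + g1.2.1 * d) (g1.2.2 * c) (g1.2.2 * d) g)
    (k2 : Herm (g2.1 * a + g2.2.1 * c) (g2.1 * b + g2.2.1 * d) (g2.2.2 * c) (g2.2.2 * d) g) :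
    g1 = g2 := by
  obtain ⟨ha1, hd1⟩ := pos_of_mem hN h1
  obtain ⟨ha2, hd2⟩ := pos_of_mem hN h2
  have hb1 := ((mem_tris hN).mp h1).2
  have hb2 := ((mem_tris hN).mp h2).2
  obtain ⟨a1, b1, d1⟩ := g1
  obtain ⟨a2, b2, d2⟩ := g2
  obtain ⟨p, q, r, s, e0, e1, e2, e3, e4⟩ := k1
  obtain ⟨p', q', r', s', f0, f1, f2, f3, f4⟩ := k2
  simp only at *
  set P := p * s' - q * r' with hP
  set Q := q * p' - p * q' with hQ
  set R := r * s' - s * r' with hR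
  set S := s * p' - r * q' with hS
  have t1 : (a1 : ℤ) = P * a2 := by
    linear_combination d * e1 - c * e2 - P * d * f1 + P * c * f2 - Q * d * f3 + Q * c * f4 -
      (a1 - P * a2) * h - (p * g.1 * d - p * g.2.1 * c - q * g.2.2 * c) * f0
  have t2 : (b1 : ℤ) = P * b2 + Q * d2 := by
    linear_combination -b * e1 + a * e2 + P * b * f1 - P * a * f2 + Q * b * f3 - Q * a * f4 -
      (b1 - P * b2 - Q * d2) * h - (-p * g.1 * b + p * g.2.1 * a + q * g.2.2 * a) * f0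
  have t3 : (0 : ℤ) = R * a2 := by
    linear_combination d * e3 - c * e4 - R * d * f1 + R * c * f2 - S * d * f3 + S * c * f4 -
      (- R * a2) * h - (r * g.1 * d - r * g.2.1 * c - s * g.2.2 * c) * f0
  have t4 : (d1 : ℤ) = R * b2 + S * d2 := by
    linear_combination -b * e3 + a * e4 + R * b * f1 - R * a * f2 + S * b * f3 - S * a * f4 -
      (d1 - R * b2 - S * d2) * h - (-r * g.1 * b + r * g.2.1 * a + s * g.2.2 * a) * f0
  have t5 : P * S - Q * R = 1 := by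
    linear_combination (p' * s' - q' * r') * e0 + f0
  have hR0 : R = 0 := by
    rcases mul_eq_zero.mp t3.symm with h | h
    · exact h
    · omega
  clear_value P Q R S
  subst hR0
  have hP1 : P = 1 := by
    have h0 : 0 < P := by
      have : (0 : ℤ) < P * a2 := by omega
      exact (pos_iff_pos_of_mul_pos this).mpr (by omega)
    exact Int.eq_one_of_mul_eq_one_right (b := S) h0.le (by linear_combination t5)
  subst hP1
  have hS1 : S = 1 := by linear_combination t5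
  subst hS1
  have hQ0 : Q = 0 := by
    rcases lt_trichotomy Q 0 with h0 | h0 | h0
    · nlinarith
    · exact h0
    · nlinarith
  subst hQ0
  simp only [Prod.mk.injEq]
  omega

/-- the multiplier invariant of a triple -/
noncomputable def Ug (g : ℕ × ℕ × ℕ) (τ : ℍ) : ℂ :=
  (g.1 : ℂ) ^ 12 * discriminant (tr g τ) / discriminant τ

lemma prod_inv {N : ℕ} (hN : 0 < N) {M : Type*} [CommMonoid M] (F : ℂ → ℂ → M) (γ : SL(2, ℤ))
    (τ : ℍ) : ∏ g ∈ tris N, F (jInv (tr g (γ • τ))) (Ug g (γ • τ)) =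
      ∏ g ∈ tris N, F (jInv (tr g τ)) (Ug g τ) := by
  have hγ := det_SL γ
  have key : ∀ g : ℕ × ℕ × ℕ, ∃ g', g ∈ tris N → g' ∈ tris N ∧
      Herm (g.1 * γ 0 0 + g.2.1 * γ 1 0) (g.1 * γ 0 1 + g.2.1 * γ 1 1) (g.2.2 * γ 1 0)
        (g.2.2 * γ 1 1) g' := by
    intro g
    by_cases hg : g ∈ tris N
    · have h1 : (g.1 : ℤ) * g.2.2 = N := by exact_mod_cast ((mem_tris hN).mp hg).1
      obtain ⟨g', h2, h3⟩ := exists_herm hN (a := g.1 * γ 0 0 + g.2.1 * γ 1 0)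
        (b := g.1 * γ 0 1 + g.2.1 * γ 1 1) (c := g.2.2 * γ 1 0) (d := g.2.2 * γ 1 1)
        (by linear_combination (g.1 * g.2.2 : ℤ) * hγ + h1)
      exact ⟨g', fun _ ↦ ⟨h2, h3⟩⟩
    · exact ⟨g, fun h ↦ absurd h hg⟩
  choose w hw using key
  have hinj : (tris N : Set (ℕ × ℕ × ℕ)).InjOn w := fun g1 h1 g2 h2 he ↦
    herm_inj hN h1 h2 hγ (hw g1 h1).2 (he ▸ (hw g2 h2).2)
  refine Finset.prod_nbij w (fun g hg ↦ (hw g hg).1) hinj
    (Finset.surjOn_of_injOn_of_card_le w (fun g hg ↦ (hw g hg).1) hinj le_rfl) fun g hg ↦ ?_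
  obtain ⟨ha, hd⟩ := pos_of_mem hN hg
  obtain ⟨ha', hd'⟩ := pos_of_mem hN (hw g hg).1
  have m1 := mob_SL γ τ
  have m2 := mob_tr ha hd (γ • τ)
  have m3 : Mob (g.1 * γ 0 0 + g.2.1 * γ 1 0) (g.1 * γ 0 1 + g.2.1 * γ 1 1) (g.2.2 * γ 1 0)
      (g.2.2 * γ 1 1) τ (tr g (γ • τ)) := by
    rw [Mob] at m1 m2 ⊢
    push_cast at m1 m2 ⊢
    linear_combination ((γ 1 0 : ℂ) * τ + γ 1 1) * m2 + (g.1 : ℂ) * m1
  obtain ⟨v1, v2⟩ := (hw g hg).2.val ha' hd' m3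
  have v3 := disc_mob hγ m1
  have v4 : ((g.1 * γ 0 0 + g.2.1 * γ 1 0 : ℤ) : ℂ) - (g.2.2 * γ 1 0 : ℤ) * (tr g (γ • τ) : ℂ) =
      g.1 * (γ 0 0 - γ 1 0 * (γ • τ : ℍ)) := by
    rw [Mob] at m2
    push_cast at m2 ⊢
    linear_combination -(γ 1 0 : ℂ) * m2
  rw [v1]
  congr 1
  rw [Ug, Ug, ← v2, v4, ← v3]
  have h0 := discriminant_ne_zero τ
  rw [← v3] at h0
  have h1 := left_ne_zero_of_mul h0
  have h2 := right_ne_zero_of_mul h0
  have h3 : ((γ 0 0 : ℂ) - γ 1 0 * (γ • τ : ℍ)) ≠ 0 := fun h ↦ h1 (by rw [h]; norm_num)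
  field_simp

end Pool.Agent.Lib.ZP3.Hk
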