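import Pool.Agent.Lib.ZP3.Chart
import Pool.Agent.Lib.ZP3.HeckeA
import Pool.Agent.Lib.ZP3.Defs2

/-! Block CH2: the modular group on complex numbers and charts on a rational curve. -/

open UpperHalfPlane Filter Topology Metric
open scoped Real MatrixGroups

set_option linter.unusedSectionVars false

namespace Pool.Agent.Lib.ZP3

open Pool.Agent.Lib.MP_0704bf_ag Pool.Agent.Lib.helper6

section CH2
variable {κ : Type} [Fintype κ] [DecidableEq κ] {A B : κ → Polynomial ℂ}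

theorem CH2.den (γ : SL(2, ℤ)) (τ : ℍ) :
    ((γ 0 0 : ℂ) - γ 1 0 * (γ • τ : ℍ)) * (γ 1 0 * τ + γ 1 1) = 1 := by
  rw [(Hk.mob_SL γ τ).mul_den, Hk.det_SL, Int.cast_one]

theorem mb_den_ne (γ : SL(2, ℤ)) {z : ℂ} (hz : 0 < z.im) : (γ 1 0 : ℂ) * z + γ 1 1 ≠ 0 :=
  right_ne_zero_of_mul_eq_one (CH2.den γ ⟨z, hz⟩)

theorem CH2.mb_coe (γ : SL(2, ℤ)) (τ : ℍ) : mb γ τ = (γ • τ : ℍ) :=
  (div_eq_iff (mb_den_ne γ τ.im_pos)).2 (Eq.symm (Hk.mob_SL γ τ))

theorem CH2.dc_coe (τ : ℍ) : dc τ = ModularForm.discriminant τ := by rw [dc, ofComplex_apply]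

open CH2

theorem mb_im_pos (γ : SL(2, ℤ)) {z : ℂ} (hz : 0 < z.im) : 0 < (mb γ z).im := by
  lift z to ℍ using hz
  rw [mb_coe]; exact (γ • z).im_pos

theorem mb_one (z : ℂ) : mb 1 z = z := by simp [mb]

theorem mb_mul (γ γ' : SL(2, ℤ)) {z : ℂ} (hz : 0 < z.im) : mb (γ * γ') z = mb γ (mb γ' z) := by
  lift z to ℍ using hz
  simp only [mb_coe, mul_smul]

theorem mb_T_pow (m : ℕ) (z : ℂ) : mb (ModularGroup.T ^ m) z = z + m := by
  have := ModularGroup.coe_T_zpow m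
  rw [zpow_natCast] at this
  simp [mb, this]

theorem analyticAt_mb (γ : SL(2, ℤ)) {z : ℂ} (hz : 0 < z.im) : AnalyticAt ℂ (mb γ) z :=
  AnalyticAt.div (by fun_prop) (by fun_prop) (mb_den_ne γ hz)

theorem jc_mb (γ : SL(2, ℤ)) {z : ℂ} (hz : 0 < z.im) : jc (mb γ z) = jc z := by
  lift z to ℍ using hz
  rw [mb_coe, jc_coe, jc_coe, Hk.j_mob (Hk.det_SL γ) (Hk.mob_SL γ z)]

theorem exists_mb {z z' : ℂ} (hz : 0 < z.im) (hz' : 0 < z'.im) (h : jc z = jc z') :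
    ∃ γ : SL(2, ℤ), z' = mb γ z := by
  lift z to ℍ using hz
  lift z' to ℍ using hz'
  rw [jc_coe, jc_coe] at h
  obtain ⟨a, b, c, d, hd, hm⟩ := j_inj h
  obtain ⟨γ, rfl, -⟩ := JB.exists_sl hd hm
  exact ⟨γ, (mb_coe γ z).symm⟩

theorem dc_mb (γ : SL(2, ℤ)) {z : ℂ} (hz : 0 < z.im) :
    dc (mb γ z) = ((γ 1 0 : ℂ) * z + γ 1 1) ^ 12 * dc z := by
  lift z to ℍ using hz
  rw [mb_coe, dc_coe, dc_coe, ← disc_mob (Hk.det_SL γ) (Hk.mob_SL γ z), ← mul_assoc, ← mul_pow,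
    mul_comm _ (_ - _), den, one_pow, one_mul]

theorem dc_ne_zero (z : ℂ) : dc z ≠ 0 := ModularForm.discriminant_ne_zero _

theorem analyticAt_dc {z : ℂ} (hz : 0 < z.im) : AnalyticAt ℂ dc z :=
  (UpperHalfPlane.mdifferentiable_iff.1 (ModularFormClass.holo CuspForm.discriminant)).analyticAt
    (isOpen_upperHalfPlaneSet.mem_nhds hz)

theorem dc_mul_jc (z : ℂ) : dc z * jc z = ModularForm.E₄ (ofComplex z) ^ 3 :=
  mul_div_cancel₀ _ (dc_ne_zero z)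

theorem norm_dc_le : ∃ C : ℝ, ∀ z : ℂ, 1 ≤ z.im → ‖dc z‖ ≤ C * Real.exp (-(2 * π * z.im)) := by
  obtain ⟨U, -, -, hU⟩ := exists_unitS
  have hq : ∀ τ : ℍ, ‖qq 1 τ‖ = Real.exp (-(2 * π * τ.im)) := fun τ ↦ by
    rw [Function.Periodic.norm_qParam]; simp
  obtain ⟨C, -, hC⟩ := JE.bdd_fd' (F := fun τ ↦ ‖ModularForm.discriminant τ / qq 1 τ‖)
    (by
      simp only [norm_div, hq]
      exact JE.cont_disc.norm.div (by fun_prop) fun _ ↦ (Real.exp_pos _).ne')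
    (hU.tendsto one_pos).norm
  refine ⟨C, fun z hz ↦ ?_⟩
  let τ : ℍ := ⟨z - round z.re, by simpa using zero_lt_one.trans_le hz⟩
  have h1 : τ.im = z.im := by simp [τ, UpperHalfPlane.im]
  have h2 := hC τ ⟨?_, by simpa [τ, UpperHalfPlane.re] using abs_sub_round z.re⟩
  · have h3 := disc_mob (τ := ⟨z, zero_lt_one.trans_le hz⟩) (τ' := τ) (a := 1) (b := -round z.re)
      (c := 0) (d := 1) (by ring) (by simp [Mob, τ, sub_eq_add_neg])
    rw [norm_div, hq, h1, div_le_iff₀ (Real.exp_pos _)] at h2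
    rw [dc, ofComplex_apply_of_im_pos (zero_lt_one.trans_le hz), ← h3]
    simpa using h2
  · rw [Complex.normSq_apply, coe_im, h1]
    nlinarith [mul_self_nonneg (τ : ℂ).re]

theorem exists_jc (x : ℂ) : ∃ z : ℂ, 0 < z.im ∧ jc z = x := by
  obtain ⟨τ, -, h⟩ := j_surj x
  exact ⟨τ, τ.im_pos, (jc_coe τ).trans h⟩

theorem Isog.lift_c {N : ℕ} {U z z' : ℂ} (hz : 0 < z.im) (hz' : 0 < z'.im)
    (h : Isog N (jc z) (jc z') U) : ∃ a b c d : ℤ, a * d - b * c = N ∧ Mob a b c d z z' ∧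
      U * dc z = (a - c * z') ^ 12 * dc z' := by
  lift z to ℍ using hz
  lift z' to ℍ using hz'
  rw [dc_coe, dc_coe]
  exact h.lift (jc_coe z).symm (jc_coe z').symm

theorem iso_iff_rel {N : ℕ} {z z' : ℂ} (hz : 0 < z.im) (hz' : 0 < z'.im) :
    Iso N (jc z) (jc z') ↔ Rel N z z' := by
  lift z to ℍ using hz
  lift z' to ℍ using hz'
  rw [jc_coe, jc_coe]
  exact ⟨fun h ↦ h.rel rfl rfl, iso_of_rel⟩

theorem exists_reg {t0 : ℂ} (ht : NPk B t0) : ∃ (E : ℕ) (r : ℝ) (f : κ → ℂ → ℂ), 0 < E ∧ 0 < r ∧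
    IsChart A B (ball 0 r) (fun u ↦ t0 + u ^ E) f := by
  choose e he hl using fun i ↦
    CH.lift_coord (A := fun _ ↦ A i) (B := fun _ ↦ B i) CH.facts 0 (ht i)
  have hE : 0 < ∏ i, e i := Finset.prod_pos fun i _ ↦ he i
  choose f hf using fun i ↦ hl i _ hE (Finset.dvd_prod_of_mem e (Finset.mem_univ i))
  obtain ⟨r, hr, h⟩ := Metric.eventually_nhds_iff_ball.1
    ((eventually_all.2 hf).and (eventually_all.2 fun i ↦ CH.ev_ne (B i) (ht i) hE))
  refine ⟨_, r, f, hE, hr, isOpen_ball, (convex_ball 0 r).isPreconnected, fun _ _ ↦ by fun_prop,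
    ⟨0, mem_ball_self hr, (r / 2 : ℝ), ?_, ?_⟩, fun i u hu ↦ ((h u hu).1 i).1,
    fun u hu ↦ ⟨(h u hu).2, fun i ↦ ((h u hu).1 i).2⟩⟩
  · rw [mem_ball_zero_iff, Complex.norm_real, Real.norm_of_nonneg (half_pos hr).le]
    exact half_lt_self hr
  · simp only [zero_pow hE.ne', Ne, add_right_inj]
    exact (pow_ne_zero _ (Complex.ofReal_ne_zero.2 (half_pos hr).ne')).symm

theorem CH2.adm {p q : Polynomial ℂ} (h1 : p.natDegree ≤ q.natDegree) (h2 : 0 < q.natDegree)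
    (h3 : IsCoprime p q) : Adm ![p, 1, 1] ![q, q + 1, q - 1] := by
  have a1 : IsCoprime q (q + 1) := ⟨-1, 1, by ring⟩
  have a2 : IsCoprime q (q - 1) := ⟨1, -1, by ring⟩
  have a3 : IsCoprime (q + 1) (q - 1) := ⟨.C 2⁻¹, -.C 2⁻¹, by
    have : Polynomial.C (2⁻¹ : ℂ) * Polynomial.C 2 = 1 := by
      rw [← Polynomial.C_mul, inv_mul_cancel₀ two_ne_zero, Polynomial.C_1]
    rw [map_ofNat] at this
    linear_combination this⟩
  refine ⟨fun i ↦ ?_, fun i j hij ↦ ?_⟩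
  · fin_cases i
    · exact ⟨h1, h2, h3⟩
    · exact ⟨by simp, by rwa [← Polynomial.natDegree_add_C (a := 1)] at h2, isCoprime_one_left⟩
    · exact ⟨by simp, by rwa [← Polynomial.natDegree_sub_C (a := 1)] at h2, isCoprime_one_left⟩
  · fin_cases i <;> fin_cases j <;> first
      | exact absurd rfl hij
      | assumption
      | exact IsCoprime.symm (by assumption)

theorem exists_cuspD (h : Nice A B) (P : ℂ) : ∃ E m r g, CuspD A B P E m r g := by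
  have hex : ∀ i, ∃ e : ℕ, 0 < e ∧ ∀ E : ℕ, 0 < E → e ∣ E → ∃ (m : ℕ) (g : ℂ → ℂ),
      (0 < m ↔ (B i).eval P = 0) ∧ ∀ᶠ u in 𝓝 (0 : ℂ), AnalyticAt ℂ g u ∧
        (m = 0 → 0 < (g u).im ∧ jc (g u) = xk A B (P + u ^ E) i) ∧
        ∀ w : ℂ, Complex.exp w = u → (B i).eval (P + u ^ E) ≠ 0 ∧
          (0 < m → 1 ≤ (m / (2 * π * Complex.I) * w + g u).im) ∧
          jc (m / (2 * π * Complex.I) * w + g u) = xk A B (P + u ^ E) i := by
    intro i
    by_cases hi : (B i).eval P = 0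
    · obtain ⟨e, he, hl⟩ := CH.lift_cusp CH.facts (adm (h i).1 (h i).2.1 (h i).2.2) (k := 0) hi
      refine ⟨e, he, fun E hE hd ↦ ?_⟩
      obtain ⟨m, g, hm, hg⟩ := hl E hE hd
      exact ⟨m, g, iff_of_true hm hi, hg.mono fun u hu ↦ ⟨hu.1, fun h0 ↦ absurd h0 hm.ne',
        fun w hw ↦ ⟨(hu.2 w hw).1, fun _ ↦ (hu.2 w hw).2.1, (hu.2 w hw).2.2⟩⟩⟩
    · obtain ⟨e, he, hl⟩ := CH.lift_coord (A := fun _ ↦ A i) (B := fun _ ↦ B i) CH.facts 0 hi
      refine ⟨e, he, fun E hE hd ↦ ?_⟩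
      obtain ⟨g, hg⟩ := hl E hE hd
      exact ⟨0, g, iff_of_false (lt_irrefl 0) hi, (hg.and (CH.ev_ne _ hi hE)).mono fun u hu ↦
        ⟨hu.1.1, fun _ ↦ hu.1.2, fun w _ ↦ ⟨hu.2, fun h0 ↦ absurd h0 (lt_irrefl 0), by
          rw [Nat.cast_zero, zero_div, zero_mul, zero_add]; exact hu.1.2.2⟩⟩⟩
  choose e he hl using hex
  have hE : 0 < ∏ i, e i := Finset.prod_pos fun i _ ↦ he i
  choose m g hm hg using fun i ↦ hl i _ hE (Finset.dvd_prod_of_mem e (Finset.mem_univ i))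
  obtain ⟨r, hr, hb⟩ := Metric.eventually_nhds_iff_ball.1 (eventually_all.2 hg)
  exact ⟨_, m, r, g, hE, hr, hm, fun i u hu ↦ (hb u hu i).1, fun u hu i ↦ (hb u hu i).2.1,
    fun w hw ↦ ⟨fun i ↦ ((hb _ (mem_ball_zero_iff.2 hw) i).2.2 w rfl).1,
      fun i ↦ ((hb _ (mem_ball_zero_iff.2 hw) i).2.2 w rfl).2⟩⟩

theorem CH2.pre_half {r : ℝ} (hr : 0 < r) : IsPreconnected {w : ℂ | ‖Complex.exp w‖ < r} := by
  simp only [Complex.norm_exp, ← Real.lt_log_iff_exp_lt hr]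
  exact (convex_halfSpace_re_lt _).isPreconnected

theorem chart_inf (h : Nice A B) : ∃ (t0 : ℂ) (E : ℕ) (r : ℝ) (f : κ → ℂ → ℂ), 0 < E ∧ 0 < r ∧
    (∀ i, AnalyticOnNhd ℂ (f i) (ball 0 r)) ∧ (∀ u ∈ ball (0 : ℂ) r, ∀ i, 0 < (f i u).im) ∧
    IsChart A B (ball 0 r \ {0}) (fun u ↦ t0 + (u ^ E)⁻¹) f := by
  have ev : ∀ (p : Polynomial ℂ) (n : ℕ) (s : ℂ), p.natDegree ≤ n → s ≠ 0 →
      p.eval (0 + s⁻¹) = (p.reflect n).eval (0 + s) * s⁻¹ ^ n := fun p n s hn hs ↦ by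
    let _ := invertibleOfNonzero (inv_ne_zero hs)
    have := Polynomial.eval₂_reflect_mul_pow (RingHom.id ℂ) s⁻¹ n p hn
    rw [invOf_eq_inv, inv_inv, Polynomial.eval₂_id, Polynomial.eval₂_id] at this
    rw [zero_add, zero_add, this]
  obtain ⟨E, r, f, hE, hr, -, -, -, -, h1, h2⟩ := exists_reg
    (A := fun i ↦ (A i).reflect (B i).natDegree) (B := fun i ↦ (B i).reflect (B i).natDegree)
    (t0 := 0) fun i ↦ by
      rw [← Polynomial.coeff_zero_eq_eval_zero, Polynomial.coeff_reflect, Polynomial.revAt_zero]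
      exact Polynomial.leadingCoeff_ne_zero.2 (Polynomial.ne_zero_of_natDegree_gt (h i).2.1)
  have hm : ∀ x : ℝ, 0 < x → x < r → (x : ℂ) ∈ ball (0 : ℂ) r \ {0} := fun x h1 h2 ↦
    ⟨by rwa [mem_ball_zero_iff, Complex.norm_real, Real.norm_of_nonneg h1.le],
      Complex.ofReal_ne_zero.2 h1.ne'⟩
  refine ⟨0, E, r, f, hE, hr, h1, fun u hu i ↦ ((h2 u hu).2 i).1,
    isOpen_ball.sdiff isClosed_singleton, ?_, fun u hu ↦ analyticAt_const.add ((analyticAt_id.pow E).inv (pow_ne_zero _ hu.2)),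
    ⟨_, hm (r / 2) (by positivity) (by linarith), _, hm (r / 3) (by positivity) (by linarith),
      fun e ↦ ?_⟩, fun i u hu ↦ h1 i u hu.1, fun u hu ↦ ?_⟩
  · convert (pre_half hr).image _ Complex.continuous_exp.continuousOn
    ext u
    exact ⟨fun hu ↦ ⟨Complex.log u, by simpa [Complex.exp_log hu.2] using hu.1,
      Complex.exp_log hu.2⟩, by
        rintro ⟨w, hw, rfl⟩; exact ⟨mem_ball_zero_iff.2 hw, Complex.exp_ne_zero w⟩⟩
  · have e' : (r / 2) ^ E = (r / 3) ^ E := by exact_mod_cast inv_injective (add_left_cancel e)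
    linarith [(pow_left_inj₀ (by positivity) (by positivity) hE.ne').1 e']
  · have hs : u ^ E ≠ 0 := pow_ne_zero _ hu.2
    have hs' : ∀ n, (u ^ E)⁻¹ ^ n ≠ 0 := fun n ↦ pow_ne_zero _ (inv_ne_zero hs)
    refine ⟨fun i ↦ ?_, fun i ↦ ⟨((h2 u hu.1).2 i).1, ((h2 u hu.1).2 i).2.trans ?_⟩⟩
    · rw [ev _ _ _ le_rfl hs]
      exact mul_ne_zero ((h2 u hu.1).1 i) (hs' _)
    · simp only [xk]
      rw [ev _ _ _ (h i).1 hs, ev _ _ _ le_rfl hs, mul_div_mul_right _ _ (hs' _)]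

variable {P : ℂ} {E : ℕ} {m : κ → ℕ} {r : ℝ} {g : κ → ℂ → ℂ}

theorem CuspD.mono (h : CuspD A B P E m r g) {r' : ℝ} (h0 : 0 < r') (h1 : r' ≤ r) :
    CuspD A B P E m r' g :=
  ⟨h.hE, h0, h.pole, fun i ↦ (h.an i).mono (ball_subset_ball h1),
    fun u hu ↦ h.fin u (ball_subset_ball h1 hu), fun w hw ↦ h.inf w (hw.trans_le h1)⟩

theorem CH2.cf_zero {i : κ} (h : m i = 0) (w : ℂ) : cf m g i w = g i (Complex.exp w) := by
  simp [cf, h]

theorem CuspD.isChart (h : CuspD A B P E m r g) :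
    IsChart A B {w | ‖Complex.exp w‖ < r} (fun w ↦ P + Complex.exp w ^ E) (cf m g) := by
  have hm : ∀ x : ℝ, 0 < x → ‖Complex.exp (Real.log r - x : ℝ)‖ < r := fun x hx ↦ by
    rw [Complex.norm_exp, ← Real.lt_log_iff_exp_lt h.hr, Complex.ofReal_re]; linarith
  refine ⟨isOpen_lt Complex.continuous_exp.norm continuous_const, pre_half h.hr,
    fun _ _ ↦ by fun_prop, ⟨_, hm 1 one_pos, _, hm 2 two_pos, fun e ↦ ?_⟩,
    fun i w hw ↦ AnalyticAt.add (by fun_prop)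
      ((h.an i _ (mem_ball_zero_iff.2 hw)).comp analyticAt_cexp),
    fun w hw ↦ ⟨(h.inf w hw).1, fun i ↦ ⟨?_, ((h.inf w hw).2 i).2⟩⟩⟩
  · have h2 := congrArg norm (add_left_cancel e)
    simp only [norm_pow, Complex.norm_exp, Complex.ofReal_re] at h2
    linarith [Real.exp_injective ((pow_left_inj₀ (Real.exp_pos _).le (Real.exp_pos _).le
      h.hE.ne').1 h2)]
  · rcases (m i).eq_zero_or_pos with h0 | h0
    · rw [cf_zero h0]; exact (h.fin _ (mem_ball_zero_iff.2 hw) i h0).1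
    · exact zero_lt_one.trans_le (((h.inf w hw).2 i).1 h0)

theorem CuspD.bounds (h : CuspD A B P E m r g) : ∃ K : ℝ, 1 ≤ K ∧ ∀ w : ℂ,
    ‖Complex.exp w‖ ≤ r / 2 → |w.im| ≤ 15 → ∀ i, |(cf m g i w).re| ≤ K ∧
      1 ≤ K * (cf m g i w).im ∧ |(cf m g i w).im + m i * w.re / (2 * π)| ≤ K ∧
      ‖cf m g i w‖ ≤ K * (1 + |w.re|) := by
  have hs : closedBall (0 : ℂ) (r / 2) ⊆ ball 0 r := closedBall_subset_ball (half_lt_self h.hr)
  have hc := fun i ↦ (h.an i).continuousOn.mono hs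
  choose K1 h1 using fun i ↦ (isCompact_closedBall _ _).exists_bound_of_continuousOn (hc i)
  have hex : ∀ i, ∃ c : ℝ, 0 < c ∧ (m i = 0 → ∀ u ∈ closedBall (0 : ℂ) (r / 2), c ≤ (g i u).im) := by
    intro i
    by_cases h0 : m i = 0
    · obtain ⟨c, c1, c2⟩ := (isCompact_closedBall _ _).exists_forall_le'
        (Complex.continuous_im.comp_continuousOn (hc i)) fun u hu ↦ (h.fin u (hs hu) i h0).1
      exact ⟨c, c1, fun _ ↦ c2⟩
    · exact ⟨1, one_pos, fun h ↦ absurd h h0⟩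
  choose c c1 c2 using hex
  obtain ⟨K, hK⟩ := Finite.exists_le fun i ↦ max (K1 i + 15 * m i) (c i)⁻¹
  refine ⟨max 1 K, le_max_left _ _, fun w hw hw' i ↦ ?_⟩
  have hu : Complex.exp w ∈ closedBall (0 : ℂ) (r / 2) := mem_closedBall_zero_iff.2 hw
  have k1 : K1 i + 15 * m i ≤ max 1 K := le_max_of_le_right ((le_max_left _ _).trans (hK i))
  have k2 : (c i)⁻¹ ≤ max 1 K := le_max_of_le_right ((le_max_right _ _).trans (hK i))
  have g1 := h1 i _ hu
  have g2 := (Complex.abs_re_le_norm _).trans g1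
  have g3 := (Complex.abs_im_le_norm _).trans g1
  have hp : 1 ≤ 2 * π := by linarith [Real.pi_gt_three]
  have e : (m i : ℂ) / (2 * π * Complex.I) * w = ((m i / (2 * π) : ℝ) : ℂ) * (-Complex.I * w) := by
    push_cast; field_simp; rw [Complex.I_sq]; ring
  have m0 : (0 : ℝ) ≤ m i := Nat.cast_nonneg _
  have m1 : (0 : ℝ) ≤ m i / (2 * π) := by positivity
  have m2 : m i / (2 * π) ≤ m i := div_le_self m0 hp
  have e1 : (cf m g i w).re = m i / (2 * π) * w.im + (g i (Complex.exp w)).re := by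
    rw [cf, e, Complex.add_re, Complex.re_ofReal_mul]; simp
  have e2 : (cf m g i w).im + m i * w.re / (2 * π) = (g i (Complex.exp w)).im := by
    rw [cf, e, Complex.add_im, Complex.im_ofReal_mul]; simp; ring
  refine ⟨?_, ?_, by rw [e2]; linarith, ?_⟩
  · rw [e1]
    refine (abs_add_le _ _).trans ?_
    rw [abs_mul, abs_of_nonneg m1]
    nlinarith [mul_le_mul m2 hw' (abs_nonneg _) m0]
  · rcases (m i).eq_zero_or_pos with h0 | h0
    · rw [cf_zero h0]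
      exact (inv_mul_cancel₀ (c1 i).ne').ge.trans
        (mul_le_mul k2 (c2 i h0 _ hu) (c1 i).le (zero_le_one.trans (le_max_left _ _)))
    · exact one_le_mul_of_one_le_of_one_le (le_max_left _ _)
        (((h.inf w (hw.trans_lt (half_lt_self h.hr))).2 i).1 h0)
  · rw [cf, e]
    refine (norm_add_le _ _).trans ?_
    rw [norm_mul, norm_mul, norm_neg, Complex.norm_I, one_mul, Complex.norm_real,
      Real.norm_of_nonneg m1]
    have a1 := mul_le_mul m2 ((Complex.norm_le_abs_re_add_abs_im w).trans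
      (add_le_add_right hw' _)) (norm_nonneg _) m0
    have a2 := mul_le_mul_of_nonneg_right k1 (abs_nonneg w.re)
    nlinarith [mul_nonneg ((norm_nonneg _).trans g1) (abs_nonneg w.re),
      mul_nonneg m0 (abs_nonneg w.re)]

theorem exists_w {P t : ℂ} {E : ℕ} (hE : 0 < E) (ht : t ≠ P) : ∃ w : ℂ, |w.im| ≤ π ∧
    P + Complex.exp w ^ E = t ∧ ‖Complex.exp w‖ ^ E = ‖t - P‖ := by
  have e : Complex.exp (Complex.log (t - P) / E) ^ E = t - P := by
    rw [← Complex.exp_nat_mul, mul_div_cancel₀ _ (Nat.cast_ne_zero.2 hE.ne'),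
      Complex.exp_log (sub_ne_zero.2 ht)]
  refine ⟨Complex.log (t - P) / E, ?_, by rw [e, add_sub_cancel], by rw [← norm_pow, e]⟩
  rw [Complex.div_natCast_im, Complex.log_im, abs_div, Nat.abs_cast]
  exact (div_le_self (abs_nonneg _) (by exact_mod_cast hE)).trans (Complex.abs_arg_le_pi _)

end CH2

end Pool.Agent.Lib.ZP3
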