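import Pool.Agent.Lib.ZP3.An

/-! Block AZ2: approximate Schwarz lemma and zeros of exponential polynomials. -/

open Filter Topology Metric

namespace Pool.Agent.Lib.ZP3

namespace AZ2

theorem analyticAt_iter {g : ℂ → ℂ} {w : ℂ} (hg : AnalyticAt ℂ g w) (k : ℕ) :
    AnalyticAt ℂ (iteratedDeriv k g) w := by
  induction k with
  | zero => simpa using hg
  | succ k ih => rw [iteratedDeriv_succ]; exact ih.deriv

theorem iter_lin (g : ℂ → ℂ) (c z0 : ℂ) (k : ℕ) : ∀ w, AnalyticAt ℂ g w →
    iteratedDeriv (k + 1) (fun s ↦ c + (s - z0) * g s) w =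
      (w - z0) * iteratedDeriv (k + 1) g w + (k + 1) * iteratedDeriv k g w := by
  have key : ∀ (j : ℕ) (w : ℂ), AnalyticAt ℂ g w → HasDerivAt
      (fun s ↦ (s - z0) * iteratedDeriv j g s)
      (1 * iteratedDeriv j g w + (w - z0) * iteratedDeriv (j + 1) g w) w := fun j w hg ↦ by
    rw [iteratedDeriv_succ]
    exact ((hasDerivAt_id w).sub_const z0).mul (analyticAt_iter hg j).differentiableAt.hasDerivAt
  induction k with
  | zero =>
    intro w hg
    have := ((key 0 w hg).const_add c).deriv
    simp only [iteratedDeriv_zero] at this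
    rw [iteratedDeriv_succ, iteratedDeriv_zero, this, iteratedDeriv_zero]
    push_cast
    ring
  | succ k ih =>
    intro w hg
    rw [iteratedDeriv_succ, EventuallyEq.deriv_eq (hg.eventually_analyticAt.mono ih),
      ((key (k + 1) w hg).fun_add
        ((analyticAt_iter hg k).differentiableAt.hasDerivAt.const_mul ((k : ℂ) + 1))).deriv,
      ← iteratedDeriv_succ]
    push_cast
    ring

theorem main {R r r1 c : ℝ} {T : ℕ} (hr : 0 ≤ r) (hr1 : 0 ≤ r1) (hR : 1 ≤ R)
    (hrR : r < R) (hρ : r1 + r ≤ R - r) (hc : 3 * (R * (T + 1)) ≤ c) {s : ℂ} (hs : ‖s‖ ≤ r1)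
    (l : Multiset ℂ) : ∀ (f : ℂ → ℂ) (M η : ℝ), AnalyticOnNhd ℂ f (closedBall 0 R) →
      (∀ w, ‖w‖ = R → ‖f w‖ ≤ M) → (∀ z ∈ l, ‖z‖ ≤ r) →
      (∀ z ∈ l, ∀ z' ∈ l, z ≠ z' → 1 ≤ ‖z - z'‖) → (∀ z, l.count z ≤ T) → 0 ≤ η →
      (∀ z, ∀ k < l.count z, ‖iteratedDeriv k f z‖ ≤ η * k.factorial) →
      ‖f s‖ ≤ M * ((r1 + r) / (R - r)) ^ l.card + η * c ^ l.card := by
  have hR0 : 0 < R := by linarith
  have hRr : 0 < R - r := sub_pos.2 hrR
  induction l using Multiset.induction_on with
  | empty =>
    intro f M η hf hM _ _ _ hη _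
    have h1 : ‖f s‖ ≤ M :=
      Complex.norm_le_of_forall_mem_frontier_norm_le (U := ball 0 R) isBounded_ball
        (DifferentiableOn.diffContOnCl (by rw [closure_ball _ hR0.ne']; exact hf.differentiableOn))
        (fun w hw ↦ hM w (by rwa [frontier_ball _ hR0.ne', mem_sphere_zero_iff_norm] at hw))
        (by rw [closure_ball _ hR0.ne']; exact mem_closedBall_zero_iff.2 (by linarith))
    simp only [Multiset.card_zero, pow_zero]
    linarith
  | cons z0 l ih =>
    intro f M η hf hM hZ hsep hT hη h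
    have hz0 := hZ z0 (Multiset.mem_cons_self _ _)
    have hb : ∀ z ∈ z0 ::ₘ l, z ∈ closedBall (0 : ℂ) R := fun z hz ↦
      mem_closedBall_zero_iff.2 ((hZ z hz).trans hrR.le)
    have hb0 := hb z0 (Multiset.mem_cons_self _ _)
    obtain ⟨g, hg, he⟩ := AN.global_factor (f := fun w ↦ f w - f z0) (U := closedBall 0 R)
      (fun w hw ↦ (hf w hw).sub analyticAt_const) {z0} 1 fun z hz ↦ by
        rw [Finset.mem_singleton.1 hz]
        exact ⟨hb0, AN.isBigO_of_zero ((hf z0 hb0).sub analyticAt_const) (sub_self _)⟩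
    simp only [Finset.prod_singleton, pow_one] at he
    have he' : f = fun w ↦ f z0 + (w - z0) * g w := funext fun w ↦ by rw [← he]; ring
    have hrec : ∀ z ∈ l, ∀ k, iteratedDeriv (k + 1) f z =
        (z - z0) * iteratedDeriv (k + 1) g z + (k + 1) * iteratedDeriv k g z := fun z hz k ↦ by
      rw [← iter_lin g (f z0) z0 k z (hg z (hb z (Multiset.mem_cons_of_mem hz))), ← he']
    have h0 : ‖f z0‖ ≤ η := by simpa using h z0 0 (by simp)
    have hT1 : (1 : ℝ) ≤ T + 1 := by linarith [(Nat.cast_nonneg T : (0 : ℝ) ≤ T)]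
    have key := ih g ((M + η) / (R - r)) ((T + 1) * η) hg (fun w hw ↦ ?_)
      (fun z hz ↦ hZ z (Multiset.mem_cons_of_mem hz))
      (fun z hz z' hz' ↦ hsep z (Multiset.mem_cons_of_mem hz) z' (Multiset.mem_cons_of_mem hz'))
      (fun z ↦ (Multiset.count_le_count_cons z z0 l).trans (hT z)) (by positivity) fun z k hk ↦ ?_
    · set ρ := (r1 + r) / (R - r) with hρ'
      have ρ0 : 0 ≤ ρ := by positivity
      have ρ1 : ρ ^ (l.card + 1) ≤ 1 := pow_le_one₀ ρ0 ((div_le_one hRr).2 hρ)
      have X1 : 1 ≤ R * (T + 1) := by nlinarith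
      have c1 : 1 ≤ c ^ l.card := one_le_pow₀ (by linarith)
      have e1 : ‖f s‖ ≤ η + (r1 + r) * ‖g s‖ := by
        rw [he']
        refine (norm_add_le _ _).trans (add_le_add h0 ?_)
        rw [norm_mul]
        gcongr
        linarith [norm_sub_le s z0]
      rw [Multiset.card_cons]
      calc _ ≤ η + (r1 + r) * ((M + η) / (R - r) * ρ ^ l.card + (T + 1) * η * c ^ l.card) :=
            e1.trans (by gcongr)
        _ = M * ρ ^ (l.card + 1) +
            η * (1 + ρ ^ (l.card + 1) + (r1 + r) * (T + 1) * c ^ l.card) := by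
            rw [pow_succ, hρ']; field_simp; ring
        _ ≤ M * ρ ^ (l.card + 1) + η * (1 + 1 + R * (T + 1) * c ^ l.card) := by
            gcongr; linarith
        _ ≤ _ := by
            gcongr
            rw [pow_succ]
            nlinarith [mul_le_mul_of_nonneg_left hc (zero_le_one.trans c1)]
    · have h1 : ‖w - z0‖ * ‖g w‖ ≤ M + η := by
        rw [← norm_mul, ← he]
        exact (norm_sub_le _ _).trans (add_le_add (hM w hw) h0)
      rw [le_div_iff₀' hRr]
      refine le_trans ?_ h1
      gcongr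
      linarith [norm_sub_norm_le w z0]
    · have hz : z ∈ l := Multiset.count_pos.1 (by omega)
      by_cases e : z = z0
      · have h1 := h z (k + 1) (by rw [e, Multiset.count_cons_self, ← e]; omega)
        rw [hrec z hz, e, sub_self, zero_mul, zero_add, norm_mul, ← e, Nat.factorial_succ,
          ← Nat.cast_succ, Complex.norm_natCast, Nat.cast_mul, mul_left_comm] at h1
        refine (le_of_mul_le_mul_left h1 (by positivity)).trans ?_
        gcongr
        nlinarith
      · have h1 := hsep z (Multiset.mem_cons_of_mem hz) z0 (Multiset.mem_cons_self _ _) e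
        have h2 := hT z
        have h3 := h z
        rw [Multiset.count_cons_of_ne e] at h2 h3
        have h4 : ∀ k < l.count z, ‖iteratedDeriv k g z‖ ≤ (k + 2) * η * k.factorial := by
          intro k hk
          refine (le_mul_of_one_le_left (norm_nonneg _) h1).trans ?_
          rw [← norm_mul]
          induction k with
          | zero =>
            have := h3 0 hk
            simp only [iteratedDeriv_zero, Nat.factorial_zero, Nat.cast_one, mul_one] at this
            rw [iteratedDeriv_zero, ← he]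
            refine (norm_sub_le _ _).trans ?_
            simp only [Nat.factorial_zero, Nat.cast_one, Nat.cast_zero]
            linarith
          | succ k ih =>
            have a1 := (le_mul_of_one_le_left (norm_nonneg _) h1).trans
              ((norm_mul _ _).symm.trans_le (ih (by omega)))
            rw [← sub_eq_of_eq_add (hrec z hz k)]
            refine (norm_sub_le _ _).trans ?_
            rw [norm_mul, ← Nat.cast_succ, Complex.norm_natCast]
            calc _ ≤ η * (k + 1).factorial + (k.succ : ℝ) * ((k + 2) * η * k.factorial) := by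
                  gcongr
                  exact h3 _ hk
              _ = _ := by rw [Nat.factorial_succ]; push_cast; ring
        refine (h4 k hk).trans ?_
        gcongr ?_ * _ * _
        exact_mod_cast (by omega : k + 2 ≤ T + 1)

theorem eq_zero_of_deriv {P : Polynomial ℂ} {c : ℂ} (hc : c ≠ 0)
    (h : Polynomial.derivative P + Polynomial.C c * P = 0) : P = 0 := by
  by_contra h0
  have := Polynomial.degree_derivative_lt h0
  rw [eq_neg_of_add_eq_zero_left h, Polynomial.degree_neg, Polynomial.degree_C_mul hc] at this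
  exact lt_irrefl _ this

open Classical in
theorem exp_main {ι : Type} (s : Finset ι) (ω : ι → ℂ) (hω : Set.InjOn ω s) (l : Multiset ι) :
    ∀ P : ι → Polynomial ℂ, (∀ i ∈ l, i ∈ s) → (∀ i ∈ s, (P i).degree < l.count i) →
      (∀ k < l.card,
        iteratedDeriv k (fun z ↦ ∑ i ∈ s, (P i).eval z * Complex.exp (ω i * z)) 0 = 0) →
      ∀ i ∈ s, P i = 0 := by
  induction l using Multiset.induction_on with
  | empty =>
    intro P _ hP _ i hi
    simpa using hP i hi
  | cons i0 l ih =>
    intro P hl hP h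
    have hi0 := hl i0 (Multiset.mem_cons_self _ _)
    set F := fun z ↦ ∑ i ∈ s, (P i).eval z * Complex.exp (ω i * z) with hF
    have hFa : ∀ z, AnalyticAt ℂ F z := fun z ↦ Finset.analyticAt_fun_sum _ fun i _ ↦
      ((P i).differentiable.analyticAt z).mul (by fun_prop)
    let Q : ι → Polynomial ℂ := fun i ↦ Polynomial.derivative (P i) + Polynomial.C (ω i - ω i0) * P i
    have hG : (fun z ↦ ∑ i ∈ s, (Q i).eval z * Complex.exp (ω i * z)) =
        fun z ↦ deriv F z - ω i0 * F z := funext fun z ↦ by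
      rw [hF, (HasDerivAt.fun_sum fun i _ ↦ ((P i).hasDerivAt z).fun_mul
        ((hasDerivAt_id' z).const_mul (ω i)).cexp).deriv, Finset.mul_sum, ← Finset.sum_sub_distrib]
      refine Finset.sum_congr rfl fun i _ ↦ ?_
      simp only [Q, Polynomial.eval_add, Polynomial.eval_mul, Polynomial.eval_C]
      ring
    have key := ih Q (fun i hi ↦ hl i (Multiset.mem_cons_of_mem hi)) (fun i hi ↦ ?_) fun k hk ↦ ?_
    · have h1 : ∀ i ∈ s, i ≠ i0 → P i = 0 := fun i hi e ↦
        eq_zero_of_deriv (sub_ne_zero.2 fun e' ↦ e (hω hi hi0 e')) (key i hi)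
      intro i hi
      by_cases e : i = i0
      · have h2 := key i0 hi0
        simp only [Q, sub_self, map_zero, zero_mul, add_zero] at h2
        have h3 := h 0 (by simp)
        rw [iteratedDeriv_zero, hF] at h3
        simp only at h3
        rw [Finset.sum_eq_single i0 (fun j hj e ↦ by simp [h1 j hj e]) (fun e ↦ absurd hi0 e),
          Polynomial.eq_C_of_derivative_eq_zero h2] at h3
        rw [e, Polynomial.eq_C_of_derivative_eq_zero h2]
        simpa using h3
      · exact h1 i hi e
    · have h1 := hP i hi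
      by_cases e : i = i0
      · rw [e, Multiset.count_cons_self] at h1
        simp only [Q, e, sub_self, map_zero, zero_mul, add_zero]
        rw [Polynomial.degree_lt_iff_coeff_zero] at h1 ⊢
        intro m hm
        rw [Polynomial.coeff_derivative, h1 _ (by omega), zero_mul]
      · rw [Multiset.count_cons_of_ne e] at h1
        exact (Polynomial.degree_add_le _ _).trans_lt (max_lt
          ((Polynomial.degree_derivative_le).trans_lt h1)
          (by rw [← Polynomial.smul_eq_C_mul]; exact (Polynomial.degree_smul_le _ _).trans_lt h1))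
    · rw [Multiset.card_cons] at h
      rw [hG, iteratedDeriv_fun_sub (hFa 0).deriv.contDiffAt
        (analyticAt_const.fun_mul (hFa 0)).contDiffAt, iteratedDeriv_const_mul_field,
        ← iteratedDeriv_succ', h _ (by omega), h _ (by omega), mul_zero, sub_zero]

end AZ2

theorem schwarz_approx {f : ℂ → ℂ} {R r r1 M η : ℝ} (hr : 0 ≤ r) (hr1 : 0 ≤ r1) (hR : 1 ≤ R)
    (hrR : r < R) (hρ : r1 + r ≤ R - r) (hf : AnalyticOnNhd ℂ f (closedBall 0 R))
    (hM : ∀ s, ‖s‖ ≤ R → ‖f s‖ ≤ M) (Z : Finset ℂ) (T : ℕ) (hZ : ∀ z ∈ Z, ‖z‖ ≤ r)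
    (hsep : ∀ z ∈ Z, ∀ z' ∈ Z, z ≠ z' → 1 ≤ ‖z - z'‖) (hη : 0 ≤ η)
    (h : ∀ z ∈ Z, ∀ k < T, ‖iteratedDeriv k f z‖ ≤ η) {s : ℂ} (hs : ‖s‖ ≤ r1) :
    ‖f s‖ ≤ M * ((r1 + r) / (R - r)) ^ (Z.card * T) +
      η * (16 * R * (T + 1)) ^ (2 * (Z.card * T)) := by
  have X1 : 1 ≤ R * (T + 1) := by nlinarith [(Nat.cast_nonneg T : (0 : ℝ) ≤ T)]
  have hc : ∀ z, (T • Z.val).count z = if z ∈ Z then T else 0 := fun z ↦ by
    rw [Multiset.count_nsmul, Multiset.count_eq_of_nodup Z.nodup]
    simp
  have := AZ2.main (c := (16 * R * (T + 1)) ^ 2) (T := T) hr hr1 hR hrR hρ (by nlinarith) hs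
    (T • Z.val) f M η hf (fun w hw ↦ hM w hw.le) (fun z hz ↦ hZ z (Multiset.mem_of_mem_nsmul hz))
    (fun z hz z' hz' ↦ hsep z (Multiset.mem_of_mem_nsmul hz) z' (Multiset.mem_of_mem_nsmul hz'))
    (fun z ↦ by rw [hc]; split_ifs <;> omega) hη fun z k hk ↦ by
      rw [hc] at hk
      split_ifs at hk with e
      · exact (h z e k hk).trans (le_mul_of_one_le_right hη (by exact_mod_cast k.factorial_pos))
      · omega
  rwa [Multiset.card_nsmul, Finset.card_val, mul_comm T, ← pow_mul] at this

theorem exp_poly_zero {ι : Type} (s : Finset ι) (ω : ι → ℂ) (hω : Set.InjOn ω s)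
    (P : ι → Polynomial ℂ) (n : ℕ) (hP : ∀ i ∈ s, (P i).degree < n)
    (h : ∀ k < s.card * n,
      iteratedDeriv k (fun z ↦ ∑ i ∈ s, (P i).eval z * Complex.exp (ω i * z)) 0 = 0) :
    ∀ i ∈ s, P i = 0 := by
  classical
  refine AZ2.exp_main s ω hω (n • s.val) P (fun i hi ↦ Multiset.mem_of_mem_nsmul hi)
    (fun i hi ↦ ?_) fun k hk ↦ h k ?_
  · rw [Multiset.count_nsmul, Multiset.count_eq_one_of_mem s.nodup hi, mul_one]
    exact hP i hi
  · rwa [Multiset.card_nsmul, Finset.card_val, mul_comm] at hk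

end Pool.Agent.Lib.ZP3
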