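import Pool.Agent.Lib.ZP3.AxConeA
import Pool.Agent.Lib.ZP3.AxLie

/-! Block AXD: the alternative for the stabiliser of a cone. -/

open scoped MatrixGroups

namespace Pool.Agent.Lib.ZP3

namespace AXD

/-- integral nilpotent matrices -/
def nil (δ : SL(2, ℤ)) (m : ℕ) : Matrix (Fin 2) (Fin 2) ℤ :=
  δ.val * !![0, (m : ℤ); 0, 0] * (δ⁻¹).val

/-- complexification -/
def cz (A : Matrix (Fin 2) (Fin 2) ℤ) : M2 := A.map fun n ↦ (n : ℂ)

lemma cz_mul (A B : Matrix (Fin 2) (Fin 2) ℤ) : cz (A * B) = cz A * cz B := by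
  ext a b
  simp [cz, Matrix.mul_apply]

lemma cz_neg (A : Matrix (Fin 2) (Fin 2) ℤ) : cz (-A) = -cz A := by
  ext a b
  simp [cz]

lemma cz_zero : cz 0 = 0 := by
  ext a b
  simp [cz]

lemma cz_one_add (A : Matrix (Fin 2) (Fin 2) ℤ) : cz (1 + A) = 1 + cz A := by
  ext a b
  fin_cases a <;> fin_cases b <;> simp [cz]

lemma cz_inj {A B : Matrix (Fin 2) (Fin 2) ℤ} (h : cz A = cz B) : A = B := by
  ext a b
  have := congrFun (congrFun h a) b
  simpa [cz] using this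

lemma det_cz (A : Matrix (Fin 2) (Fin 2) ℤ) : (cz A).det = A.det := by
  simp [cz, Matrix.det_fin_two]

lemma trace_cz (A : Matrix (Fin 2) (Fin 2) ℤ) : (cz A).trace = A.trace := by
  simp [cz, Matrix.trace_fin_two]

lemma cm_eq (γ : SL(2, ℤ)) : cm γ = cz γ.val := rfl

lemma inv_val_mul (δ : SL(2, ℤ)) : (δ⁻¹).val * δ.val = 1 := by
  rw [← Matrix.SpecialLinearGroup.coe_mul, inv_mul_cancel, Matrix.SpecialLinearGroup.coe_one]

lemma val_mul_inv (δ : SL(2, ℤ)) : δ.val * (δ⁻¹).val = 1 := by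
  rw [← Matrix.SpecialLinearGroup.coe_mul, mul_inv_cancel, Matrix.SpecialLinearGroup.coe_one]

lemma nil_sq (δ : SL(2, ℤ)) (m : ℕ) : nil δ m * nil δ m = 0 := by
  have h : (!![0, (m : ℤ); 0, 0] : Matrix (Fin 2) (Fin 2) ℤ) * !![0, (m : ℤ); 0, 0] = 0 := by
    ext a b
    fin_cases a <;> fin_cases b <;> simp
  calc nil δ m * nil δ m = δ.val * (!![0, (m : ℤ); 0, 0] * ((δ⁻¹).val * δ.val) *
        !![0, (m : ℤ); 0, 0]) * (δ⁻¹).val := by simp only [nil, mul_assoc]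
    _ = 0 := by rw [inv_val_mul, mul_one, h, mul_zero, zero_mul]

lemma nil_trace (δ : SL(2, ℤ)) (m : ℕ) : (nil δ m).trace = 0 := by
  rw [nil, Matrix.trace_mul_cycle, inv_val_mul, one_mul]
  simp

lemma nil_unip (δ : SL(2, ℤ)) (m : ℕ) :
    (δ * ModularGroup.T ^ m * δ⁻¹).val = 1 + nil δ m := by
  have h : (ModularGroup.T ^ m).val = 1 + !![0, (m : ℤ); 0, 0] := by
    rw [← zpow_natCast, ModularGroup.coe_T_zpow]
    ext a b
    fin_cases a <;> fin_cases b <;> simp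
  rw [Matrix.SpecialLinearGroup.coe_mul, Matrix.SpecialLinearGroup.coe_mul, h, mul_add, add_mul,
    mul_one, val_mul_inv, nil]

lemma nil_conj (γ δ : SL(2, ℤ)) (m : ℕ) : nil (γ * δ) m = γ.val * nil δ m * (γ⁻¹).val := by
  simp only [nil, mul_inv_rev, Matrix.SpecialLinearGroup.coe_mul, mul_assoc]

lemma nil_mul_ne {γ δ : SL(2, ℤ)} {m : ℕ} (hm : 0 < m) (h : (δ⁻¹ * γ * δ⁻¹⁻¹) 1 0 ≠ 0) :
    nil δ m * nil (γ * δ) m ≠ 0 := by
  intro h0
  rw [inv_inv] at h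
  have h1 : (δ⁻¹).val * (nil δ m * nil (γ * δ) m) * (γ * δ).val =
      !![0, (m : ℤ); 0, 0] * (δ⁻¹ * γ * δ).val * !![0, (m : ℤ); 0, 0] := by
    calc _ = ((δ⁻¹).val * δ.val) * (!![0, (m : ℤ); 0, 0] * ((δ⁻¹).val * (γ * δ).val) *
          !![0, (m : ℤ); 0, 0]) * (((γ * δ)⁻¹).val * (γ * δ).val) := by
          simp only [nil, mul_assoc]
      _ = _ := by
          rw [inv_val_mul, inv_val_mul, one_mul, mul_one, ← Matrix.SpecialLinearGroup.coe_mul,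
            mul_assoc δ⁻¹]
  rw [h0, mul_zero, zero_mul] at h1
  have h2 := congrFun (congrFun h1 0) 1
  generalize δ⁻¹ * γ * δ = g at h h2
  simp [Matrix.mul_apply, Matrix.vecMul, dotProduct, Fin.sum_univ_two] at h2
  omega

variable {κ : Type}

/-- two nilpotent integral elements of the Lie algebra -/
lemma exists_pair {T : Set (κ → ℂ)} {i : κ}
    (h1 : ∃ (δ : κ → SL(2, ℤ)) (m : κ → ℕ), 0 < m i ∧
      (fun l ↦ δ l * ModularGroup.T ^ m l * (δ l)⁻¹) ∈ Stab (cone T))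
    (h2 : ∀ δ : SL(2, ℤ), ∃ γ ∈ Stab (cone T), (δ * γ i * δ⁻¹) 1 0 ≠ 0) :
    ∃ X Y : κ → Matrix (Fin 2) (Fin 2) ℤ, (fun l ↦ cz (X l)) ∈ lie T ∧ (fun l ↦ cz (Y l)) ∈ lie T ∧
      X i * X i = 0 ∧ Y i * Y i = 0 ∧ X i * Y i ≠ 0 := by
  obtain ⟨δ, m, hm, hu⟩ := h1
  obtain ⟨γ, hγ, hne⟩ := h2 (δ i)⁻¹
  have hX : (fun l ↦ cz (nil (δ l) (m l))) ∈ lie T := by
    refine lie_of_unip hu ?_ (fun l ↦ ?_) ?_
    · funext l
      simp only [Pi.mul_apply, Pi.zero_apply]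
      rw [← cz_mul, nil_sq, cz_zero]
    · rw [trace_cz, nil_trace, Int.cast_zero]
    · funext l
      simp only [Pi.add_apply, Pi.one_apply]
      rw [cm_eq, nil_unip, cz_one_add]
  refine ⟨fun l ↦ nil (δ l) (m l), fun l ↦ nil (γ l * δ l) (m l), hX, ?_, nil_sq _ _, nil_sq _ _,
    nil_mul_ne hm hne⟩
  have := lie_conj hγ hX
  simpa only [nil_conj, cz_mul, cm_eq] using this

lemma sign_case {g a a' b b' : M2} (hg : g.det ≠ 0) (ha : a * a' = 1) (hb : b' * b = 1)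
    (da : a.det = 1) (db : b.det = 1)
    (h : ∀ W : M2, W.trace = 0 → ∃ V : M2, V * g = g * W ∧ b * V * b' * g = g * (a * W * a')) :
    b * g = g * a ∨ b * g = -(g * a) := by
  have hu : IsUnit g.det := isUnit_iff_ne_zero.2 hg
  have g1 : g⁻¹ * g = 1 := Matrix.nonsing_inv_mul g hu
  have g2 : g * g⁻¹ = 1 := Matrix.mul_nonsing_inv g hu
  have ha' : a' * a = 1 := mul_eq_one_comm.1 ha
  obtain ⟨c, hc⟩ := comm_sl2 (g := a' * g⁻¹ * b * g) fun W hW ↦ by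
    obtain ⟨V, e1, e2⟩ := h W hW
    have e3 : b * V * b' = g * (a * W * a') * g⁻¹ := by rw [← e2, mul_assoc _ g, g2, mul_one]
    have e4 : b * V = g * (a * W * a') * g⁻¹ * b := by rw [← e3, mul_assoc _ b', hb, mul_one]
    calc W * (a' * g⁻¹ * b * g) = (a' * ((g⁻¹ * g) * a)) * W * (a' * g⁻¹ * b * g) := by
          rw [g1, one_mul, ha', one_mul]
      _ = a' * g⁻¹ * (g * (a * W * a') * g⁻¹ * b) * g := by simp only [mul_assoc]
      _ = a' * g⁻¹ * b * (V * g) := by rw [← e4]; simp only [mul_assoc]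
      _ = _ := by rw [e1]; simp only [mul_assoc]
  have e5 : b * g = c • (g * a) := by
    calc b * g = g * ((a * a') * g⁻¹) * b * g := by rw [ha, one_mul, g2, one_mul]
      _ = g * a * (a' * g⁻¹ * b * g) := by simp only [mul_assoc]
      _ = _ := by rw [hc, mul_smul_comm, mul_one]
  have e6 := congrArg Matrix.det e5
  rw [Matrix.det_smul, Matrix.det_mul, Matrix.det_mul, da, db, Fintype.card_fin] at e6
  have e7 : (c - 1) * (c + 1) = 0 := by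
    apply mul_right_cancel₀ hg
    linear_combination -e6
  rcases mul_eq_zero.1 e7 with e | e
  · left
    rw [e5, sub_eq_zero.1 e, one_smul]
  · right
    rw [e5, eq_neg_of_add_eq_zero_left e, neg_smul, one_smul]

end AXD

open AXD

variable {κ : Type} [Fintype κ] [DecidableEq κ]

theorem lie_alt {T : Set (κ → ℂ)} (hT : T.Nonempty)
    (h1 : ∀ i, ∃ (δ : κ → SL(2, ℤ)) (m : κ → ℕ), 0 < m i ∧
      (fun l ↦ δ l * ModularGroup.T ^ m l * (δ l)⁻¹) ∈ Stab (cone T))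
    (h2 : ∀ (i : κ) (δ : SL(2, ℤ)), ∃ γ ∈ Stab (cone T), (δ * γ i * δ⁻¹) 1 0 ≠ 0) :
    (∀ c ∈ cone T, c = 0) ∨ ∃ i j : κ, i ≠ j ∧ ∃ g : Matrix (Fin 2) (Fin 2) ℤ, g.det ≠ 0 ∧
      ∀ γ ∈ Stab (cone T), (γ j).val * g = g * (γ i).val ∨ (γ j).val * g = -(g * (γ i).val) := by
  have hs : ∀ (i : κ) (W : M2), W.trace = 0 → ∃ X ∈ lie T, X i = W := by
    intro i W hW
    obtain ⟨X, Y, hX, hY, e1, e2, e3⟩ := exists_pair (h1 i) (h2 i)
    refine sl2_gen ((lie T).map (LinearMap.proj i)) ?_ (X := cz (X i)) (Y := cz (Y i))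
      ⟨_, hX, rfl⟩ ⟨_, hY, rfl⟩ ?_ ?_ ?_ W hW
    · rintro _ ⟨A, hA, rfl⟩ _ ⟨B, hB, rfl⟩
      exact ⟨_, lie_br hA hB, rfl⟩
    · rw [← cz_mul, e1, cz_zero]
    · rw [← cz_mul, e2, cz_zero]
    · rw [← cz_mul, ← cz_zero]
      exact fun e ↦ e3 (cz_inj e)
  rcases goursat (lie T) (fun _ hX _ hY ↦ lie_br hX hY) (fun _ hX ↦ hX.1) hs with h | h
  · exact Or.inl (full_case hT h)
  obtain ⟨i, j, hij, g, hg, h⟩ := h
  obtain ⟨X, Y, hX, hY, e1, e2, e3⟩ := exists_pair (h1 i) (h2 i)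
  obtain ⟨g', c, hc, e⟩ := rat_conj (X' := X j) (Y' := Y j) hg e1 e2 e3 (h _ hX) (h _ hY)
  have e' : cz g' = c • g := e
  refine Or.inr ⟨i, j, hij, g', fun h0 ↦ ?_, fun γ hγ ↦ ?_⟩
  · have := det_cz g'
    rw [h0, e', Matrix.det_smul, Int.cast_zero] at this
    exact mul_ne_zero (pow_ne_zero _ hc) hg this
  · have := sign_case hg (cm_mul_inv (γ i)) (cm_inv_mul (γ j)) (det_cm _) (det_cm _) fun W hW ↦ by
      obtain ⟨V, hV, rfl⟩ := hs i W hW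
      exact ⟨V j, h V hV, h _ (lie_conj hγ hV)⟩
    refine this.imp (fun e ↦ cz_inj ?_) fun e ↦ cz_inj ?_
    · rw [cz_mul, cz_mul, e', ← cm_eq, ← cm_eq, mul_smul_comm, e, smul_mul_assoc]
    · rw [cz_neg, cz_mul, cz_mul, e', ← cm_eq, ← cm_eq, mul_smul_comm, e, smul_mul_assoc, smul_neg]

end Pool.Agent.Lib.ZP3
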