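import Pool.Agent.Lib.ZP3.AxSpread
import Pool.Agent.Lib.ZP3.Chart2
import Pool.Agent.Lib.ZP3.Curve2
import Pool.Agent.Lib.ZP3.An
import Pool.Agent.Lib.ZP3.HeckeA

/-! Block AXE: descent of invariant functions to the projective line. -/

open UpperHalfPlane Filter Topology Metric
open scoped Real MatrixGroups

namespace Pool.Agent.Lib.ZP3

open Pool.Agent.Lib.MP_0704bf_ag Pool.Agent.Lib.helper6

variable {κ : Type} [Fintype κ] [DecidableEq κ] {A B : κ → Polynomial ℂ} {Z : Set (ℂ × (κ → ℂ))}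
  {U U' : Set ℂ} {φ φ' : ℂ → ℂ} {f f' : κ → ℂ → ℂ}

namespace AXE

omit [Fintype κ] [DecidableEq κ] in
lemma nonconst (h : IsChart A B U φ f) {s : ℂ} (hs : s ∈ U) : ¬ ∀ᶠ z in 𝓝 s, φ z = φ s := by
  intro H
  obtain ⟨a, ha, b, hb, hab⟩ := h.2.2.2.1
  have := h.2.2.1.eqOn_of_preconnected_of_eventuallyEq (g := fun _ ↦ φ s) analyticOnNhd_const
    h.2.1 hs H
  exact hab ((this ha).trans (this hb).symm)

lemma pow_ne {t0 : ℂ} {E : ℕ} (hE : 0 < E) {r : ℝ} (hr : 0 < r) :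
    ∃ s ∈ ball (0 : ℂ) r, ∃ s' ∈ ball (0 : ℂ) r, t0 + s ^ E ≠ t0 + s' ^ E := by
  refine ⟨0, mem_ball_self hr, ((r / 2 : ℝ) : ℂ), ?_, ?_⟩
  · rw [mem_ball_zero_iff, Complex.norm_real, Real.norm_eq_abs, abs_of_pos (by linarith)]
    linarith
  · rw [zero_pow hE.ne']
    intro e
    have h1 : ((r / 2 : ℝ) : ℂ) ≠ 0 := by exact_mod_cast (by linarith : r / 2 ≠ 0)
    exact pow_ne_zero E h1 (add_left_cancel e).symm

omit [Fintype κ] [DecidableEq κ] in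
/-- pull a chart back along a local lifting -/
lemma pull (h : IsChart A B U φ f) (hz : Zin Z U φ f) {ψ : ℂ → ℂ} {t0 : ℂ} {E : ℕ} (hE : 0 < E)
    {r : ℝ} (hr : 0 < r)
    (H : ∀ u ∈ ball (0 : ℂ) r, AnalyticAt ℂ ψ u ∧ ψ u ∈ U ∧ φ (ψ u) = t0 + u ^ E) :
    IsChart A B (ball 0 r) (fun u ↦ t0 + u ^ E) (fun i u ↦ f i (ψ u)) ∧
      Zin Z (ball 0 r) (fun u ↦ t0 + u ^ E) (fun i u ↦ f i (ψ u)) := by
  refine ⟨⟨isOpen_ball, (convex_ball _ _).isPreconnected, fun u _ ↦ by fun_prop, pow_ne hE hr,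
    fun i u hu ↦ (h.2.2.2.2.1 i _ (H u hu).2.1).comp (H u hu).1, fun u hu ↦ ?_⟩, fun u hu ↦ ?_⟩
  · have := h.2.2.2.2.2 _ (H u hu).2.1
    rwa [(H u hu).2.2] at this
  · have := hz _ (H u hu).2.1
    rwa [(H u hu).2.2] at this

omit [Fintype κ] [DecidableEq κ] in
lemma ev_pull (h : IsChart A B U φ f) {s : ℂ} (hs : s ∈ U) : ∃ e : ℕ, 0 < e ∧
    (deriv φ s ≠ 0 → e = 1) ∧ ∀ E : ℕ, 0 < E → e ∣ E → ∃ ψ : ℂ → ℂ, ψ 0 = s ∧
      ∀ᶠ u in 𝓝 (0 : ℂ), AnalyticAt ℂ ψ u ∧ ψ u ∈ U ∧ φ (ψ u) = φ s + u ^ E := by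
  obtain ⟨e, he, he1, H⟩ := lift (h.2.2.1 s hs) (nonconst h hs)
  refine ⟨e, he, he1, fun E hE hd ↦ ?_⟩
  obtain ⟨ψ, h1, h2, h3⟩ := H (fun u ↦ φ s + u) E (by fun_prop) (by simp) hE hd
  refine ⟨ψ, h2, h1.eventually_analyticAt.and (Eventually.and ?_ h3)⟩
  exact h1.continuousAt.eventually (h2 ▸ h.1.mem_nhds hs)

variable {Θ : (κ → ℂ) → ℂ}

lemma well_def (hinv : ∀ γ ∈ Mon A B Z, ∀ τ : κ → ℂ, (∀ i, 0 < (τ i).im) →
      Θ (fun i ↦ mb (γ i) (τ i)) = Θ τ) (h : IsChart A B U φ f) (hz : Zin Z U φ f)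
    (h' : IsChart A B U' φ' f') (hz' : Zin Z U' φ' f') {s s' : ℂ} (hs : s ∈ U) (hs' : s' ∈ U')
    (e : φ s = φ' s') : Θ (fun i ↦ f i s) = Θ (fun i ↦ f' i s') := by
  obtain ⟨e1, he1, -, H1⟩ := ev_pull h hs
  obtain ⟨e2, he2, -, H2⟩ := ev_pull h' hs'
  have hE : 0 < e1 * e2 := Nat.mul_pos he1 he2
  obtain ⟨ψ, h1, h2⟩ := H1 _ hE (dvd_mul_right _ _)
  obtain ⟨ψ', h1', h2'⟩ := H2 _ hE (dvd_mul_left _ _)
  obtain ⟨r, hr, H⟩ := Metric.eventually_nhds_iff_ball.1 (h2.and h2')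
  obtain ⟨c1, z1⟩ := pull h hz hE hr fun u hu ↦ (H u hu).1
  obtain ⟨c2, z2⟩ := pull h' hz' hE hr fun u hu ↦ (H u hu).2
  rw [← e] at c2 z2
  obtain ⟨γ, hγ⟩ := c1.exists_act c2
  have hm : γ ∈ Mon A B Z := ⟨_, _, _, c1, z1, fun u hu ↦ by
    have := z2 u hu
    simpa only [hγ u hu] using this⟩
  have h3 := hinv γ hm (fun i ↦ f i s) fun i ↦ ((h.2.2.2.2.2 s hs).2 i).1
  rw [← h3]
  congr 1
  funext i
  have := hγ 0 (mem_ball_self hr) i
  simp only [act, h1, h1'] at this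
  exact this.symm

omit [DecidableEq κ] in
lemma analytic_comp (hΘ : AnalyticOnNhd ℂ Θ {τ | ∀ i, 0 < (τ i).im}) {s : ℂ}
    (h1 : ∀ i, AnalyticAt ℂ (f i) s) (h2 : ∀ i, 0 < (f i s).im) :
    AnalyticAt ℂ (fun u ↦ Θ fun i ↦ f i u) s :=
  AnalyticAt.comp (g := Θ) (f := fun u i ↦ f i u) (hΘ _ h2) (analyticAt_pi_iff.2 h1)

variable {θ : ℂ → ℂ}

omit [DecidableEq κ] in
lemma diff_at (hΘ : AnalyticOnNhd ℂ Θ {τ | ∀ i, 0 < (τ i).im})
    (hθ : ∀ U φ f, IsChart A B U φ f → Zin Z U φ f → ∀ s ∈ U, θ (φ s) = Θ fun i ↦ f i s)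
    (h : IsChart A B U φ f) (hz : Zin Z U φ f) {s : ℂ} (hs : s ∈ U) (hd : deriv φ s ≠ 0) :
    DifferentiableAt ℂ θ (φ s) := by
  obtain ⟨e, -, he, H⟩ := ev_pull h hs
  obtain ⟨ψ, h1, h2⟩ := H 1 one_pos (he hd).dvd
  have h0 := h2.self_of_nhds
  have h3 : AnalyticAt ℂ (fun u ↦ Θ fun i ↦ f i (ψ u)) 0 :=
    analytic_comp (f := fun i u ↦ f i (ψ u)) hΘ
      (fun i ↦ (h.2.2.2.2.1 i _ h0.2.1).comp h0.1) fun i ↦ ((h.2.2.2.2.2 _ h0.2.1).2 i).1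
  have h4 : (fun u ↦ θ (φ s + u)) =ᶠ[𝓝 0] fun u ↦ Θ fun i ↦ f i (ψ u) := by
    filter_upwards [h2] with u hu
    rw [← hθ U φ f h hz _ hu.2.1, hu.2.2, pow_one]
  have h5 : DifferentiableAt ℂ (fun u ↦ θ (φ s + u)) (φ s - φ s) := by
    rw [sub_self]
    exact h3.differentiableAt.congr_of_eventuallyEq h4
  have h6 := h5.comp (φ s) (f := fun t ↦ t - φ s) (by fun_prop)
  refine h6.congr_of_eventuallyEq (Eventually.of_forall fun t ↦ ?_)
  simp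

lemma exists_root (E : ℕ) (hE : 0 < E) (t0 : ℂ) : ∃ ρ : ℂ → ℂ, (∀ t, t0 + ρ t ^ E = t) ∧
    ∀ (t : ℂ) (r : ℝ), 0 < r → ‖t - t0‖ < r ^ E → ‖ρ t‖ < r := by
  choose ρ hρ using fun t ↦ IsAlgClosed.exists_pow_nat_eq (t - t0) hE
  refine ⟨ρ, fun t ↦ by rw [hρ]; ring, fun t r hr h ↦ ?_⟩
  rw [← hρ, norm_pow] at h
  exact lt_of_pow_lt_pow_left₀ E hr.le h

lemma an_reg (hZ : Rigid A B Z) (h0 : IsChart A B U φ f) (hz : Zin Z U φ f)
    (hΘ : AnalyticOnNhd ℂ Θ {τ | ∀ i, 0 < (τ i).im})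
    (hθ : ∀ U φ f, IsChart A B U φ f → Zin Z U φ f → ∀ s ∈ U, θ (φ s) = Θ fun i ↦ f i s)
    {t0 : ℂ} (ht : NPk B t0) : DifferentiableAt ℂ θ t0 := by
  obtain ⟨E, r, g, hE, hr, hc⟩ := exists_reg (A := A) ht
  obtain ⟨γ, hγ⟩ := spread hZ h0 hz hc
  have hc' := hc.actC γ
  obtain ⟨ρ, h1, h2⟩ := exists_root E hE t0
  have hb : ∀ᶠ t in 𝓝 t0, ρ t ∈ ball (0 : ℂ) r := by
    filter_upwards [ball_mem_nhds t0 (pow_pos hr E)] with t ht'
    exact mem_ball_zero_iff.2 (h2 t r hr (by rwa [mem_ball, dist_eq_norm] at ht'))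
  refine (Complex.analyticAt_of_differentiable_on_punctured_nhds_of_continuousAt ?_
    ?_).differentiableAt
  · filter_upwards [nhdsWithin_le_nhds hb, self_mem_nhdsWithin] with t ht1 ht2
    have h3 : ρ t ≠ 0 := by
      intro e
      have := h1 t
      rw [e, zero_pow hE.ne', add_zero] at this
      exact ht2 this.symm
    have h4 := diff_at hΘ hθ hc' hγ ht1 (by
      have : HasDerivAt (fun u : ℂ ↦ t0 + u ^ E) (E * ρ t ^ (E - 1)) (ρ t) := by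
        simpa using (hasDerivAt_pow E (ρ t)).const_add t0
      rw [this.deriv]
      exact mul_ne_zero (by exact_mod_cast hE.ne') (pow_ne_zero _ h3))
    rwa [h1] at h4
  · have hρ : Tendsto ρ (𝓝 t0) (𝓝 0) := by
      rw [Metric.tendsto_nhds]
      intro ε hε
      filter_upwards [ball_mem_nhds t0 (pow_pos hε E)] with t ht'
      rw [dist_zero_right]
      exact h2 t ε hε (by rwa [mem_ball, dist_eq_norm] at ht')
    have h0' := mem_ball_self (x := (0 : ℂ)) hr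
    have h3 := (analytic_comp hΘ (fun i ↦ hc'.2.2.2.2.1 i 0 h0')
      fun i ↦ ((hc'.2.2.2.2.2 0 h0').2 i).1).continuousAt.tendsto.comp hρ
    have h4 := hθ _ _ _ hc' hγ 0 h0'
    simp only [zero_pow hE.ne', add_zero] at h4
    rw [ContinuousAt, h4]
    refine h3.congr' ?_
    filter_upwards [hb] with t ht'
    have := hθ _ _ _ hc' hγ _ ht'
    simp only [h1] at this
    exact this.symm

end AXE

open AXE in
theorem descent (h : Nice A B) (hZ : Rigid A B Z) (h0 : IsChart A B U φ f) (hz : Zin Z U φ f)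
    (Θ : (κ → ℂ) → ℂ) (hΘ : AnalyticOnNhd ℂ Θ {τ | ∀ i, 0 < (τ i).im})
    (hinv : ∀ γ ∈ Mon A B Z, ∀ τ : κ → ℂ, (∀ i, 0 < (τ i).im) →
      Θ (fun i ↦ mb (γ i) (τ i)) = Θ τ)
    (hbd : ∀ P E m r g (γ : κ → SL(2, ℤ)), CuspD A B P E m r g → ∃ C r' : ℝ, 0 < r' ∧ ∀ w : ℂ,
      ‖Complex.exp w‖ < r' → |w.im| ≤ 4 → ‖Θ (fun i ↦ mb (γ i) (cf m g i w))‖ ≤ C) :
    ∃ c, ∀ U φ f, IsChart A B U φ f → Zin Z U φ f → ∀ s ∈ U, Θ (fun i ↦ f i s) = c := by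
  classical
  obtain ⟨θ, hθ⟩ : ∃ θ : ℂ → ℂ, ∀ U φ f, IsChart A B U φ f → Zin Z U φ f → ∀ s ∈ U,
      θ (φ s) = Θ fun i ↦ f i s := by
    have : ∀ t : ℂ, ∃ v : ℂ, ∀ U φ f, IsChart A B U φ f → Zin Z U φ f → ∀ s ∈ U, φ s = t →
        v = Θ fun i ↦ f i s := by
      intro t
      by_cases H : ∃ U φ f, IsChart A B U φ f ∧ Zin Z U φ f ∧ ∃ s ∈ U, φ s = t
      · obtain ⟨U, φ, f, h1, h2, s, hs, e⟩ := H
        exact ⟨_, fun U' φ' f' h1' h2' s' hs' e' ↦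
          well_def hinv h1 h2 h1' h2' hs hs' (e.trans e'.symm)⟩
      · exact ⟨0, fun U φ f h1 h2 s hs e ↦ (H ⟨U, φ, f, h1, h2, s, hs, e⟩).elim⟩
    choose θ hθ using this
    exact ⟨θ, fun U φ f h1 h2 s hs ↦ hθ _ U φ f h1 h2 s hs rfl⟩
  have hfin := npk_cofinite h.ne_zero
  let θ' : ℂ → ℂ := fun t ↦ if NPk B t then θ t else limUnder (𝓝[≠] t) θ
  have hdiff : Differentiable ℂ θ' := by
    intro t
    by_cases ht : NPk B t
    · refine (an_reg hZ h0 hz hΘ hθ ht).congr_of_eventuallyEq ?_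
      filter_upwards [hfin.isClosed.isOpen_compl.mem_nhds (show t ∈ {t | ¬ NPk B t}ᶜ from
        fun e ↦ e ht)] with y hy
      exact if_pos (not_not.1 hy)
    · obtain ⟨E, m, r, g, hc⟩ := exists_cuspD h t
      obtain ⟨γ, hγ⟩ := spread hZ h0 hz hc.isChart
      obtain ⟨C, r', hr', hC⟩ := hbd t E m r g γ hc
      have hm : 0 < min r r' := lt_min hc.hr hr'
      have key : ∀ y ∈ ball t (min r r' ^ E) \ {t}, NPk B y ∧ ‖θ y‖ ≤ C := by
        intro y hy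
        obtain ⟨w, w1, w2, w3⟩ := exists_w (P := t) hc.hE hy.2
        have w4 : ‖Complex.exp w‖ < min r r' := by
          refine lt_of_pow_lt_pow_left₀ E hm.le ?_
          rw [w3, ← dist_eq_norm]
          exact hy.1
        have w5 : ‖Complex.exp w‖ < r := w4.trans_le (min_le_left _ _)
        refine ⟨w2 ▸ (hc.inf w w5).1, ?_⟩
        have := hθ _ _ _ (hc.isChart.actC γ) hγ w w5
        simp only [w2] at this
        rw [this]
        exact hC w (w4.trans_le (min_le_right _ _)) (w1.trans Real.pi_le_four)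
      have hb := ball_mem_nhds t (pow_pos hm E)
      have := Complex.differentiableOn_update_limUnder_of_bddAbove hb
        (fun y hy ↦ (an_reg hZ h0 hz hΘ hθ (key y hy).1).differentiableWithinAt)
        ⟨C, by rintro _ ⟨y, hy, rfl⟩; exact (key y hy).2⟩
      refine (this.differentiableAt hb).congr_of_eventuallyEq ?_
      filter_upwards [hb] with y hy
      by_cases e : y = t
      · rw [e, Function.update_self]
        exact if_neg ht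
      · rw [Function.update_of_ne e]
        exact if_pos (key y ⟨hy, e⟩).1
  have hbound : Bornology.IsBounded (Set.range θ') := by
    obtain ⟨t0, E, r, g, hE, hr, g1, g2, hc⟩ := chart_inf h
    obtain ⟨γ, hγ⟩ := spread hZ h0 hz hc
    have h0' := mem_ball_self (x := (0 : ℂ)) hr
    have h3 := (analytic_comp (f := act γ g) hΘ
      (fun i ↦ (analyticAt_mb (γ i) (g2 0 h0' i)).comp (g1 i 0 h0'))
      fun i ↦ mb_im_pos _ (g2 0 h0' i)).continuousAt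
    obtain ⟨δ, hδ, H⟩ := Metric.eventually_nhds_iff_ball.1
      ((h3.eventually (ball_mem_nhds _ one_pos)).and (ball_mem_nhds 0 hr))
    refine (((isCompact_closedBall t0 (δ ^ E)⁻¹).image hdiff.continuous).isBounded.union
      (isBounded_ball (x := Θ fun i ↦ act γ g i 0) (r := 1))).subset ?_
    rintro _ ⟨t, rfl⟩
    by_cases ht : t ∈ closedBall t0 (δ ^ E)⁻¹
    · exact Or.inl ⟨t, ht, rfl⟩
    right
    rw [mem_closedBall, dist_eq_norm, not_le] at ht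
    have hp : 0 < (δ ^ E)⁻¹ := by positivity
    have ht0 : t - t0 ≠ 0 := norm_pos_iff.1 (hp.trans ht)
    obtain ⟨u, hu⟩ := IsAlgClosed.exists_pow_nat_eq (t - t0)⁻¹ hE
    have hu0 : u ≠ 0 := by
      rintro rfl
      rw [zero_pow hE.ne'] at hu
      exact inv_ne_zero ht0 hu.symm
    have hu1 : u ∈ ball (0 : ℂ) δ := by
      rw [mem_ball_zero_iff]
      refine lt_of_pow_lt_pow_left₀ E hδ.le ?_
      rw [← norm_pow, hu, norm_inv]
      exact inv_lt_of_inv_lt₀ (by positivity) ht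
    have hu2 : u ∈ ball (0 : ℂ) r \ {0} := ⟨(H u hu1).2, hu0⟩
    have e : t0 + (u ^ E)⁻¹ = t := by rw [hu, inv_inv]; ring
    have h4 := hθ _ _ _ (hc.actC γ) hγ u hu2
    have h5 := (hc.2.2.2.2.2 u hu2).1
    simp only [e] at h4 h5
    simp only [θ', if_pos h5, h4]
    exact (H u hu1).1
  refine ⟨θ' 0, fun U φ f h1 h2 s hs ↦ ?_⟩
  rw [← hθ U φ f h1 h2 s hs, hdiff.apply_eq_apply_of_bounded hbound 0 (φ s)]
  exact (if_pos (h1.2.2.2.2.2 s hs).1).symm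

namespace AXE

lemma mb_upper {γ : SL(2, ℤ)} (h : γ 1 0 = 0) : ∃ k : ℤ, ∀ z : ℂ, mb γ z = z + k := by
  have hd := Hk.det_SL γ
  rw [h, mul_zero, sub_zero] at hd
  rcases Int.eq_one_or_neg_one_of_mul_eq_one' hd with ⟨h1, h2⟩ | ⟨h1, h2⟩
  · exact ⟨γ 0 1, fun z ↦ by simp [mb, h, h1, h2]⟩
  · refine ⟨-γ 0 1, fun z ↦ ?_⟩
    simp only [mb, h, h1, h2]
    push_cast
    ring

end AXE

open AXE in
theorem mon_big (h : Nice A B) (hZ : Rigid A B Z) (h0 : IsChart A B U φ f) (hz : Zin Z U φ f)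
    (i : κ) (δ : SL(2, ℤ)) : ∃ γ ∈ Mon A B Z, (δ * γ i * δ⁻¹) 1 0 ≠ 0 := by
  by_contra hcon
  push Not at hcon
  obtain ⟨c, hc⟩ := descent h hZ h0 hz
    (fun τ ↦ Complex.exp (2 * π * Complex.I * mb δ (τ i)))
    (fun τ hτ ↦ by
      have h1 : AnalyticAt ℂ (fun τ : κ → ℂ ↦ mb δ (τ i)) τ :=
        AnalyticAt.comp (g := mb δ) (f := fun τ : κ → ℂ ↦ τ i) (analyticAt_mb δ (hτ i))
          ((ContinuousLinearMap.proj (R := ℂ) (φ := fun _ : κ ↦ ℂ) i).analyticAt τ)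
      exact (analyticAt_const.mul h1).cexp)
    (fun γ hγ τ hτ ↦ by
      obtain ⟨k, hk⟩ := mb_upper (hcon γ hγ)
      have e : mb δ (mb (γ i) (τ i)) = mb δ (τ i) + k := by
        rw [← hk, ← mb_mul _ _ (hτ i), ← mb_mul _ _ (hτ i), inv_mul_cancel_right]
      simp only [e]
      rw [mul_add, Complex.exp_add, mul_comm _ (k : ℂ), Complex.exp_int_mul_two_pi_mul_I, mul_one])
    (fun P E m r g γ hc ↦ ⟨1, r, hc.hr, fun w hw _ ↦ by
      have h1 := mb_im_pos δ (mb_im_pos (γ i) ((hc.isChart.2.2.2.2.2 w hw).2 i).1)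
      rw [Complex.norm_exp, Real.exp_le_one_iff]
      simp only [Complex.mul_re, Complex.mul_im, Complex.re_ofNat, Complex.im_ofNat,
        Complex.ofReal_re, Complex.ofReal_im, Complex.I_re, Complex.I_im]
      nlinarith [Real.pi_pos]⟩)
  obtain ⟨s0, hs0, -⟩ := h0.2.2.2.1
  refine h0.not_countable ((Set.countable_iUnion fun k : ℤ ↦
    (h.fiber i (jc (mb δ (f i s0) + k))).countable).mono ?_)
  rintro _ ⟨s, hs, rfl⟩
  have e := (hc U φ f h0 hz s hs).trans (hc U φ f h0 hz s0 hs0).symm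
  obtain ⟨k, hk⟩ := Complex.exp_eq_exp_iff_exists_int.1 e
  have e2 : mb δ (f i s) = mb δ (f i s0) + k :=
    mul_left_cancel₀ Complex.two_pi_I_ne_zero (by rw [hk]; ring)
  obtain ⟨h1, h2⟩ := h0.2.2.2.2.2 s hs
  exact Set.mem_iUnion.2 ⟨k, h1 i, by rw [← e2, jc_mb δ (h2 i).1, (h2 i).2]⟩

end Pool.Agent.Lib.ZP3
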