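import Pool.Agent.Lib.ZP3.AxSpread
import Pool.Agent.Lib.ZP3.AxDesc
import Pool.Agent.Lib.ZP3.AxLie
import Pool.Agent.Lib.ZP3.AxCone
import Pool.Agent.Lib.ZP3.Curve2
import Pool.Agent.Lib.ZP3.Chart2
import Pool.Agent.Lib.ZP3.An2
import Pool.Agent.Lib.ZP3.Ent

/-! Algebraic independence of the lifts of a curve which satisfies no modular relation. -/

set_option linter.unusedSectionVars false

open UpperHalfPlane Filter Topology Metric
open scoped Real MatrixGroups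

namespace Pool.Agent.Lib.ZP3

open Pool.Agent.Lib.MP_0704bf_ag Pool.Agent.Lib.helper6

namespace AXF

/-- the wedge of `g (x, 1)` and `(y, 1)` -/
def wd (g : Matrix (Fin 2) (Fin 2) ℤ) (x y : ℂ) : ℂ :=
  g 0 0 * x + g 0 1 - y * (g 1 0 * x + g 1 1)

/-- the invariant function -/
noncomputable def Th (g : Matrix (Fin 2) (Fin 2) ℤ) (x y : ℂ) : ℂ := wd g x y ^ 12 * dc x * dc y

lemma Th_mb (g : Matrix (Fin 2) (Fin 2) ℤ) (a b : SL(2, ℤ)) {x y : ℂ} (hx : 0 < x.im)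
    (hy : 0 < y.im) : Th g (mb a x) (mb b y) = Th (b.val.adjugate * g * a.val) x y := by
  have h1 := mb_den_ne a hx
  have h2 := mb_den_ne b hy
  have h3 : wd g (mb a x) (mb b y) * ((a 1 0 : ℂ) * x + a 1 1) * ((b 1 0 : ℂ) * y + b 1 1) =
      wd (b.val.adjugate * g * a.val) x y := by
    have e1 : mb a x * ((a 1 0 : ℂ) * x + a 1 1) = a 0 0 * x + a 0 1 := div_mul_cancel₀ _ h1
    have e2 : mb b y * ((b 1 0 : ℂ) * y + b 1 1) = b 0 0 * y + b 0 1 := div_mul_cancel₀ _ h2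
    simp only [wd, Matrix.adjugate_fin_two, Matrix.mul_apply, Fin.sum_univ_two, Matrix.of_apply,
      Matrix.cons_val', Matrix.cons_val_zero, Matrix.cons_val_one, Matrix.cons_val_fin_one]
    push_cast
    linear_combination ((g 0 0 : ℂ) - mb b y * g 1 0) * ((b 1 0 : ℂ) * y + b 1 1) * e1 -
      ((g 1 0 : ℂ) * (a 0 0 * x + a 0 1) + g 1 1 * ((a 1 0 : ℂ) * x + a 1 1)) * e2
  rw [Th, Th, dc_mb a hx, dc_mb b hy, ← h3]
  ring

lemma Th_neg (g : Matrix (Fin 2) (Fin 2) ℤ) (x y : ℂ) : Th (-g) x y = Th g x y := by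
  have : wd (-g) x y = -wd g x y := by
    simp only [wd, Matrix.neg_apply]; push_cast; ring
  rw [Th, Th, this]; ring

lemma Th_inv {g : Matrix (Fin 2) (Fin 2) ℤ} {a b : SL(2, ℤ)}
    (h : b.val * g = g * a.val ∨ b.val * g = -(g * a.val)) {x y : ℂ} (hx : 0 < x.im)
    (hy : 0 < y.im) : Th g (mb a x) (mb b y) = Th g x y := by
  have h1 : b.val.adjugate * (b.val * g) = g := by
    rw [← Matrix.mul_assoc, Matrix.adjugate_mul, b.det_coe, one_smul, Matrix.one_mul]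
  rw [Th_mb g a b hx hy, Matrix.mul_assoc]
  rcases h with h | h
  · rw [← h, h1]
  · rw [← neg_neg (g * a.val), ← h, Matrix.mul_neg, h1, Th_neg]

lemma wd_le (g : Matrix (Fin 2) (Fin 2) ℤ) : ∃ C : ℝ, 0 ≤ C ∧ ∀ x y : ℂ,
    ‖wd g x y‖ ≤ C * ((1 + ‖x‖) * (1 + ‖y‖)) := by
  refine ⟨‖(g 0 0 : ℂ)‖ + ‖(g 0 1 : ℂ)‖ + ‖(g 1 0 : ℂ)‖ + ‖(g 1 1 : ℂ)‖, by positivity,
    fun x y => ?_⟩
  have h1 : ‖wd g x y‖ ≤ ‖(g 0 0 : ℂ)‖ * ‖x‖ + ‖(g 0 1 : ℂ)‖ +
      ‖y‖ * (‖(g 1 0 : ℂ)‖ * ‖x‖ + ‖(g 1 1 : ℂ)‖) := by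
    refine (norm_sub_le _ _).trans (add_le_add ((norm_add_le _ _).trans ?_) ?_)
    · rw [norm_mul]
    · rw [norm_mul]
      gcongr
      exact (norm_add_le _ _).trans (by rw [norm_mul])
  refine h1.trans ?_
  have := norm_nonneg x
  have := norm_nonneg y
  have := norm_nonneg (g 0 0 : ℂ)
  have := norm_nonneg (g 0 1 : ℂ)
  have := norm_nonneg (g 1 0 : ℂ)
  have := norm_nonneg (g 1 1 : ℂ)
  have := mul_nonneg (norm_nonneg x) (norm_nonneg y)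
  nlinarith

lemma dc_decay {K : ℝ} (hK : 1 ≤ K) : ∃ C : ℝ, 0 ≤ C ∧ ∀ z : ℂ, |z.re| ≤ K → 1 ≤ K * z.im →
    (1 + ‖z‖) ^ 12 * ‖dc z‖ ≤ C * Real.exp (-z.im) := by
  obtain ⟨C1, h1⟩ := norm_dc_le
  have hS : IsCompact (Set.Icc (-K) K ×ℂ Set.Icc K⁻¹ 1) := isCompact_Icc.reProdIm isCompact_Icc
  have hc : ContinuousOn (fun z : ℂ => (1 + ‖z‖) ^ 12 * ‖dc z‖ * Real.exp z.im)
      (Set.Icc (-K) K ×ℂ Set.Icc K⁻¹ 1) := fun z hz => by
    have := (analyticAt_dc (lt_of_lt_of_le (by positivity) hz.2.1)).continuousAt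
    exact ContinuousAt.continuousWithinAt (by fun_prop)
  obtain ⟨C2, h2⟩ := hS.bddAbove_image hc
  refine ⟨max (max C2 0) ((12 * (1 + K)) ^ 12 * C1),
    (le_max_right _ _).trans (le_max_left _ _), fun z hz hz' => ?_⟩
  rcases le_total z.im 1 with h | h
  · have h3 := h2 ⟨z, ⟨abs_le.1 hz, by rwa [inv_le_iff_one_le_mul₀' (by positivity)], h⟩, rfl⟩
    rw [Real.exp_neg, ← div_eq_mul_inv, le_div_iff₀ (Real.exp_pos _)]
    exact h3.trans ((le_max_left _ _).trans (le_max_left _ _))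
  · have h3 : 1 + ‖z‖ ≤ 12 * (1 + K) * Real.exp (z.im / 12) := by
      have a1 := Complex.norm_le_abs_re_add_abs_im z
      have a2 := Real.add_one_le_exp (z.im / 12)
      rw [abs_of_nonneg (by linarith : 0 ≤ z.im)] at a1
      nlinarith
    have h4 : (1 + ‖z‖) ^ 12 ≤ (12 * (1 + K)) ^ 12 * Real.exp z.im := by
      refine (pow_le_pow_left₀ (by positivity) h3 12).trans (le_of_eq ?_)
      rw [mul_pow, ← Real.exp_nat_mul]
      congr 2
      push_cast; ring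
    have h5 := h1 z h
    have h6 : 0 ≤ C1 := nonneg_of_mul_nonneg_left ((norm_nonneg _).trans h5) (Real.exp_pos _)
    calc (1 + ‖z‖) ^ 12 * ‖dc z‖
        ≤ (12 * (1 + K)) ^ 12 * Real.exp z.im * (C1 * Real.exp (-(2 * π * z.im))) := by gcongr
      _ = (12 * (1 + K)) ^ 12 * C1 * Real.exp (z.im - 2 * π * z.im) := by
          rw [sub_eq_add_neg, Real.exp_add]; ring
      _ ≤ _ := by
          gcongr
          · exact le_max_right _ _
          · nlinarith [Real.two_le_pi]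

lemma Th_le (g : Matrix (Fin 2) (Fin 2) ℤ) {K : ℝ} (hK : 1 ≤ K) : ∃ C : ℝ, 0 ≤ C ∧ ∀ x y : ℂ,
    |x.re| ≤ K → 1 ≤ K * x.im → |y.re| ≤ K → 1 ≤ K * y.im →
      ‖Th g x y‖ ≤ C * Real.exp (-x.im) := by
  obtain ⟨C1, h0, h1⟩ := wd_le g
  obtain ⟨C2, h0', h2⟩ := dc_decay hK
  refine ⟨C1 ^ 12 * C2 * C2, by positivity, fun x y a1 a2 a3 a4 => ?_⟩
  have h3 : Real.exp (-y.im) ≤ 1 := Real.exp_le_one_iff.2 (by nlinarith)
  calc ‖Th g x y‖ ≤ (C1 * ((1 + ‖x‖) * (1 + ‖y‖))) ^ 12 * ‖dc x‖ * ‖dc y‖ := by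
        rw [Th, norm_mul, norm_mul, norm_pow]
        gcongr
        exact h1 x y
    _ = C1 ^ 12 * ((1 + ‖x‖) ^ 12 * ‖dc x‖) * ((1 + ‖y‖) ^ 12 * ‖dc y‖) := by ring
    _ ≤ C1 ^ 12 * (C2 * Real.exp (-x.im)) * (C2 * 1) :=
        mul_le_mul (mul_le_mul_of_nonneg_left (h2 x a1 a2) (by positivity))
          ((h2 y a3 a4).trans (by gcongr)) (by positivity) (by positivity)
    _ = _ := by ring

variable {κ : Type} [Fintype κ] [DecidableEq κ] {A B : κ → Polynomial ℂ}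

lemma cusp_le {P : ℂ} {E : ℕ} {m : κ → ℕ} {r : ℝ} {G : κ → ℂ → ℂ} (h : CuspD A B P E m r G)
    (g : Matrix (Fin 2) (Fin 2) ℤ) (γ : κ → SL(2, ℤ)) (i j : κ) : ∃ C : ℝ, 0 ≤ C ∧ ∀ w : ℂ,
      ‖Complex.exp w‖ < r / 2 → |w.im| ≤ 4 →
      ‖Th g (mb (γ i) (cf m G i w)) (mb (γ j) (cf m G j w))‖ ≤ C ∧
      ‖Th g (mb (γ i) (cf m G i w)) (mb (γ j) (cf m G j w))‖ ≤
        C * Real.exp (m i * w.re / (2 * π)) := by
  obtain ⟨K, hK, hb⟩ := h.bounds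
  obtain ⟨C, h0, hC⟩ := Th_le ((γ j).val.adjugate * g * (γ i).val) hK
  refine ⟨C * Real.exp K, by positivity, fun w hw hw' => ?_⟩
  obtain ⟨a1, a2, a3, -⟩ := hb w hw.le (by linarith) i
  obtain ⟨b1, b2, -, -⟩ := hb w hw.le (by linarith) j
  have hi : 0 < (cf m G i w).im := by nlinarith
  have hj : 0 < (cf m G j w).im := by nlinarith
  rw [Th_mb g _ _ hi hj]
  refine ⟨(hC _ _ a1 a2 b1 b2).trans ?_, (hC _ _ a1 a2 b1 b2).trans ?_⟩
  · gcongr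
    linarith
  · rw [mul_assoc, ← Real.exp_add]
    gcongr
    linarith [(abs_le.1 a3).1]

lemma analytic_Th (g : Matrix (Fin 2) (Fin 2) ℤ) (i j : κ) :
    AnalyticOnNhd ℂ (fun τ : κ → ℂ => Th g (τ i) (τ j)) {τ | ∀ i, 0 < (τ i).im} := fun τ hτ => by
  have p : ∀ l, AnalyticAt ℂ (fun τ : κ → ℂ => τ l) τ := fun l =>
    (ContinuousLinearMap.proj (R := ℂ) (φ := fun _ : κ => ℂ) l).analyticAt τ
  have d : ∀ l, AnalyticAt ℂ (fun τ : κ → ℂ => dc (τ l)) τ := fun l =>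
    (analyticAt_dc (hτ l)).comp (f := fun τ : κ → ℂ => τ l) (p l)
  unfold Th wd
  exact ((((analyticAt_const.mul (p i)).add analyticAt_const).sub ((p j).mul
    ((analyticAt_const.mul (p i)).add analyticAt_const))).pow 12 |>.mul (d i)).mul (d j)

/-- an invariant integral correspondence gives a modular relation -/
lemma no_corr (h : Nice A B) (hN : NoMod A B) {Z : Set (ℂ × (κ → ℂ))} (hZ : Rigid A B Z)
    {U : Set ℂ} {φ : ℂ → ℂ} {f : κ → ℂ → ℂ} (hc : IsChart A B U φ f) (hz : Zin Z U φ f) {i j : κ}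
    (hij : i ≠ j) {g : Matrix (Fin 2) (Fin 2) ℤ} (hg : g.det ≠ 0)
    (hm : ∀ γ ∈ Mon A B Z,
      (γ j).val * g = g * (γ i).val ∨ (γ j).val * g = -(g * (γ i).val)) : False := by
  obtain ⟨c, hc0⟩ := descent h hZ hc hz _ (analytic_Th g i j)
    (fun γ hγ τ hτ => Th_inv (hm γ hγ) (hτ i) (hτ j)) fun P E m r G γ hD => by
      obtain ⟨C, -, hC⟩ := cusp_le hD g γ i j
      exact ⟨C, r / 2, half_pos hD.hr, fun w hw hw' => (hC w hw hw').1⟩
  have h0 : c = 0 := by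
    obtain ⟨P, hP⟩ := h.exists_pole i
    obtain ⟨E, m, r, G, hD⟩ := exists_cuspD h P
    obtain ⟨γ, hγ⟩ := spread hZ hc hz hD.isChart
    obtain ⟨C, hC0, hC⟩ := cusp_le hD g γ i j
    have hm' : (0 : ℝ) < m i := by exact_mod_cast (hD.pole i).2 hP
    have t1 : Tendsto (fun t : ℝ => C * Real.exp (m i * t / (2 * π))) atBot (𝓝 (C * 0)) :=
      (Real.tendsto_exp_atBot.comp ((tendsto_id.const_mul_atBot hm').atBot_div_const
        (by positivity))).const_mul C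
    have t2 := Real.tendsto_exp_atBot.eventually (gt_mem_nhds (half_pos hD.hr))
    rw [mul_zero] at t1
    refine norm_le_zero_iff.1 (ge_of_tendsto t1 (t2.mono fun t ht => ?_))
    have e : ‖Complex.exp (t : ℂ)‖ = Real.exp t := by simp [Complex.norm_exp]
    have := (hC t (e ▸ ht) (by simp)).2
    rw [← hc0 _ _ _ (hD.isChart.actC γ) hγ (t : ℂ)
      (show ‖Complex.exp (t : ℂ)‖ < r by rw [e]; linarith [hD.hr])]
    exact this
  subst h0
  have hM : ∀ s ∈ U, Mob (g 0 0) (g 0 1) (g 1 0) (g 1 1) (f i s) (f j s) := fun s hs => by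
    have := hc0 U φ f hc hz s hs
    simp only [Th, mul_eq_zero, dc_ne_zero, or_false, pow_eq_zero_iff (by norm_num : 12 ≠ 0),
      wd] at this
    unfold Mob
    linear_combination -this
  obtain ⟨s0, hs0, -⟩ := hc.2.2.2.1
  have hd := mob_det_nonneg ((hc.2.2.2.2.2 s0 hs0).2 i).1 ((hc.2.2.2.2.2 s0 hs0).2 j).1 (hM s0 hs0)
  rw [Matrix.det_fin_two] at hg
  obtain ⟨N, hN'⟩ := Int.eq_ofNat_of_zero_le hd
  have hN0 : 0 < N := Nat.pos_of_ne_zero fun e => hg (by rw [hN', e]; rfl)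
  obtain ⟨t, ht, h2⟩ := hN i j hij N hN0
  refine h2 (iso_cofinite hN0 (fun hf => hc.not_countable (hf.countable.mono ?_)) t ht)
  rintro _ ⟨s, hs, rfl⟩
  obtain ⟨k1, k2⟩ := hc.2.2.2.2.2 s hs
  refine ⟨k1, ?_⟩
  rw [← (k2 i).2, ← (k2 j).2]
  exact (iso_iff_rel (k2 i).1 (k2 j).1).2 ⟨_, _, _, _, hN', hM s hs⟩

end AXF

open AXF

variable {κ : Type} [Fintype κ] [DecidableEq κ] {A B : κ → Polynomial ℂ}
  {U : Set ℂ} {φ : ℂ → ℂ} {f : κ → ℂ → ℂ}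

theorem ax_indep (h : Nice A B) (hN : NoMod A B) (hc : IsChart A B U φ f) (c : MvPolynomial κ ℂ)
    (h0 : ∀ s ∈ U, MvPolynomial.eval (fun i ↦ f i s) c = 0) : c = 0 := by
  by_contra hne
  obtain ⟨c', hc', hne'⟩ := cone_ne (T := (fun s i => f i s) '' U) hne (by
    rintro _ ⟨s, hs, rfl⟩
    exact h0 s hs)
  obtain ⟨_, ⟨U0, φ0, f0, hc0, rfl⟩, hsub, hmax⟩ := exists_max_cone
    {T | ∃ U φ f, IsChart A B U φ f ∧ T = (fun s i => f i s) '' U} ⟨U, φ, f, hc, rfl⟩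
  set J := cone ((fun s i => f0 i s) '' U0) with hJ
  let G : J × (κ → ℂ) → ℂ × (κ → ℂ) → ℂ := fun k q =>
    MvPolynomial.eval (fun v : κ × Fin 2 => k.2 v.1 * ![q.2 v.1, 1] v.2) k.1.1
  have hZ : Rigid A B {q | ∀ k, G k q = 0} := rigid_of_analytic G fun k q _ => by
    suffices hv : ∀ v : κ × Fin 2, AnalyticAt ℂ
        (fun q : ℂ × (κ → ℂ) => k.2 v.1 * ![q.2 v.1, 1] v.2) q by
      have := AnalyticAt.aeval_mvPolynomial (f := fun (q : ℂ × (κ → ℂ)) (v : κ × Fin 2) =>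
        k.2 v.1 * ![q.2 v.1, 1] v.2) hv k.1.1
      exact this
    rintro ⟨l, b⟩
    have p : AnalyticAt ℂ (fun q : ℂ × (κ → ℂ) => q.2 l) q :=
      ((ContinuousLinearMap.proj (R := ℂ) (φ := fun _ : κ => ℂ) l).comp
        (ContinuousLinearMap.snd ℂ ℂ (κ → ℂ))).analyticAt q
    fin_cases b
    · exact analyticAt_const.mul p
    · exact analyticAt_const (v := k.2 l * 1)
  have hin : ∀ U φ f, Zin {q | ∀ k, G k q = 0} U φ f ↔ J ⊆ cone ((fun s i => f i s) '' U) :=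
    fun U φ f => ⟨fun hz c hc => by
      rintro _ ⟨s, hs, rfl⟩ l
      exact hz s hs (⟨c, hc⟩, l), fun hz s hs k => hz k.1.2 _ ⟨s, hs, rfl⟩ k.2⟩
  have hz0 := (hin U0 φ0 f0).2 subset_rfl
  have hst : Mon A B {q | ∀ k, G k q = 0} ⊆ Stab J := by
    rintro γ ⟨U1, φ1, f1, k1, k2, k3⟩ c
    have e1 := hmax _ ⟨U1, φ1, f1, k1, rfl⟩ ((hin _ _ _).1 k2)
    have e2 := hmax _ ⟨U1, φ1, act γ f1, k1.actC γ, rfl⟩ ((hin _ _ _).1 k3)
    have e3 := cone_act (T := (fun s i => f1 i s) '' U1) (by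
      rintro _ ⟨s, hs, rfl⟩ i
      exact ((k1.2.2.2.2.2 s hs).2 i).1) γ c
    rw [Set.image_image, e1] at e3
    rw [← e3, ← e2]
    rfl
  obtain ⟨s0, hs0, -⟩ := hc0.2.2.2.1
  rcases lie_alt (T := (fun s i => f0 i s) '' U0) ⟨_, s0, hs0, rfl⟩
    (fun i => by
      obtain ⟨δ, m, k1, k2⟩ := mon_cusp h hZ hc0 hz0 i
      exact ⟨δ, m, k1, hst k2⟩)
    (fun i δ => by
      obtain ⟨γ, k1, k2⟩ := mon_big h hZ hc0 hz0 i δ
      exact ⟨γ, hst k1, k2⟩) with h1 | ⟨i, j, hij, g, hg, h1⟩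
  · exact hne' (h1 c' (hsub hc'))
  · exact no_corr h hN hZ hc0 hz0 hij hg fun γ hγ => h1 γ (hst hγ)

theorem ax_disc (h : Nice A B) (hN : NoMod A B) (hc : IsChart A B U φ f) {i j : κ} (hij : i ≠ j)
    (k0 : ℂ) : ¬ ∀ s ∈ U, dc (f j s) * (B i).eval (φ s) = k0 * (dc (f i s) * (B j).eval (φ s)) := by
  intro h0
  let G : Unit → ℂ × (κ → ℂ) → ℂ := fun _ q =>
    dc (q.2 j) * (B i).eval q.1 - k0 * (dc (q.2 i) * (B j).eval q.1)
  have hZ : Rigid A B {q | ∀ k, G k q = 0} := rigid_of_analytic G fun k q hq => by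
    have d : ∀ l, AnalyticAt ℂ (fun q : ℂ × (κ → ℂ) => dc (q.2 l)) q := fun l =>
      (analyticAt_dc (hq l)).comp (f := fun q : ℂ × (κ → ℂ) => q.2 l)
        (((ContinuousLinearMap.proj (R := ℂ) (φ := fun _ : κ => ℂ) l).comp
          (ContinuousLinearMap.snd ℂ ℂ (κ → ℂ))).analyticAt q)
    have p : ∀ l, AnalyticAt ℂ (fun q : ℂ × (κ → ℂ) => (B l).eval q.1) q := fun l =>
      analyticAt_fst.aeval_polynomial (B l)
    exact ((d j).mul (p i)).sub (analyticAt_const.mul ((d i).mul (p j)))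
  obtain ⟨γ, ⟨U1, φ1, f1, k1, k2, k3⟩, hγ⟩ := mon_big h hZ hc
    (fun s hs _ => sub_eq_zero.2 (h0 s hs)) i 1
  rw [one_mul, inv_one, mul_one] at hγ
  have e := ax_indep h hN k1
    ((MvPolynomial.C (γ j 1 0 : ℂ) * MvPolynomial.X j + MvPolynomial.C (γ j 1 1 : ℂ)) ^ 12 -
      (MvPolynomial.C (γ i 1 0 : ℂ) * MvPolynomial.X i + MvPolynomial.C (γ i 1 1 : ℂ)) ^ 12)
    fun s hs => by
      obtain ⟨n1, n2⟩ := k1.2.2.2.2.2 s hs
      have a1 := k2 s hs ()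
      have a2 := k3 s hs ()
      simp only [G, act, dc_mb _ (n2 _).1] at a1 a2
      simp only [map_sub, map_pow, map_add, map_mul, MvPolynomial.eval_C, MvPolynomial.eval_X]
      refine mul_right_cancel₀ (mul_ne_zero (dc_ne_zero (f1 j s)) (n1 i)) ?_
      linear_combination a2 - ((γ i 1 0 : ℂ) * f1 i s + γ i 1 1) ^ 12 * a1
  have e2 := congrArg (MvPolynomial.eval
    (Function.update (fun _ => Complex.I) i (-(γ i 1 1 : ℂ) / (γ i 1 0 : ℂ)))) e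
  have hγ' : (γ i 1 0 : ℂ) ≠ 0 := by exact_mod_cast hγ
  simp only [map_sub, map_pow, map_add, map_mul, MvPolynomial.eval_C, MvPolynomial.eval_X,
    Function.update_self, Function.update_of_ne hij.symm, map_zero, mul_div_cancel₀ _ hγ',
    neg_add_cancel] at e2
  exact pow_ne_zero 12 (mb_den_ne (γ j) (z := Complex.I) (by simp)) (by simpa using e2)

end Pool.Agent.Lib.ZP3
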