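import Pool.Agent.Lib.ZP3.HeightFam
import Pool.Agent.Lib.ZP3.JBasic
import Pool.Agent.Lib.ZP3.JEst
import Pool.Agent.Lib.ZP3.Hecke
import Pool.Agent.Lib.ZP3.Curve

/-! Block HB, part 2: the multiplier of the isogeny at a special point; unequal degrees. -/

open UpperHalfPlane Filter Topology Metric
open scoped Real

namespace Pool.Agent.Lib.ZP3.HBF

open Pool.Agent.Lib.MP_0704bf_ag Pool.Agent.Lib.helper6

variable {ι : Type} {a : ι → ℕ} {A B : Fin 3 → Polynomial ℂ} {d0 : ℕ} {t : ι → ℂ}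

/-! ### polynomials with algebraic coefficients -/

theorem alg_root {p : Polynomial ℂ} (hp : ∀ n, IsAlgebraic ℚ (p.coeff n)) (h0 : p ≠ 0) {P : ℂ}
    (hP : p.eval P = 0) : IsAlgebraic ℚ P := by
  have h1 : p ∈ Polynomial.lifts (algebraMap (algebraicClosure ℚ ℂ) ℂ) :=
    (Polynomial.lifts_iff_coeff_lifts _).2 fun n ↦
      ⟨⟨p.coeff n, mem_algebraicClosure_iff.2 (hp n)⟩, rfl⟩
  obtain ⟨q, rfl⟩ := h1
  have hq : IsAlgebraic (algebraicClosure ℚ ℂ) P :=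
    ⟨q, fun h ↦ h0 (by simp [h]), by simpa [Polynomial.aeval_def, Polynomial.eval_map] using hP⟩
  have : Algebra.IsAlgebraic ℚ (algebraicClosure ℚ ℂ) := algebraicClosure.isAlgebraic ℚ ℂ
  exact hq.restrictScalars ℚ

theorem alg_eval {p : Polynomial ℂ} (hp : ∀ n, IsAlgebraic ℚ (p.coeff n)) {P : ℂ}
    (hP : IsAlgebraic ℚ P) : IsAlgebraic ℚ (p.eval P) := by
  rw [Polynomial.eval_eq_sum_range, ← mem_algebraicClosure_iff]
  exact sum_mem fun n _ ↦ mul_mem (mem_algebraicClosure_iff.2 (hp n))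
    (pow_mem (mem_algebraicClosure_iff.2 hP) n)

theorem alg_div {x y : ℂ} (hx : IsAlgebraic ℚ x) (hy : IsAlgebraic ℚ y) :
    IsAlgebraic ℚ (x / y) :=
  mem_algebraicClosure_iff.1
    (div_mem (mem_algebraicClosure_iff.2 hx) (mem_algebraicClosure_iff.2 hy))

theorem alg_coeff_mul {p q : Polynomial ℂ} (hp : ∀ n, IsAlgebraic ℚ (p.coeff n))
    (hq : ∀ n, IsAlgebraic ℚ (q.coeff n)) (n : ℕ) : IsAlgebraic ℚ ((p * q).coeff n) := by
  rw [Polynomial.coeff_mul, ← mem_algebraicClosure_iff]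
  exact sum_mem fun n _ ↦ mul_mem (mem_algebraicClosure_iff.2 (hp _))
    (mem_algebraicClosure_iff.2 (hq _))

theorem alg_coeff_pow {P : ℂ} (hP : IsAlgebraic ℚ P) (m : ℕ) :
    ∀ n, IsAlgebraic ℚ (((Polynomial.X - Polynomial.C P) ^ m).coeff n) := by
  induction m with
  | zero =>
    intro n
    rw [pow_zero, Polynomial.coeff_one]
    split_ifs
    exacts [isAlgebraic_one, isAlgebraic_zero]
  | succ m ih =>
    rw [pow_succ]
    refine alg_coeff_mul ih fun n ↦ ?_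
    rw [Polynomial.coeff_sub, Polynomial.coeff_X, Polynomial.coeff_C, ← mem_algebraicClosure_iff]
    refine sub_mem ?_ ?_
    · split_ifs
      exacts [one_mem _, zero_mem _]
    · split_ifs
      exacts [mem_algebraicClosure_iff.2 hP, zero_mem _]

theorem map_eval (σ : ℂ →+* ℂ) (p : Polynomial ℂ) (z : ℂ) :
    (p.map σ).eval (σ z) = σ (p.eval z) := by
  rw [Polynomial.eval_map, Polynomial.eval₂_at_apply]

theorem B_ne_zero (h : Adm A B) (i : Fin 3) : B i ≠ 0 := by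
  intro h0
  have := (h.1 i).2.1
  simp [h0] at this

theorem eval_ne_zero_of_coprime {p q : Polynomial ℂ} (h : IsCoprime p q) {P : ℂ}
    (hP : q.eval P = 0) : p.eval P ≠ 0 := by
  intro h0
  obtain ⟨u, v, huv⟩ := h
  have := congrArg (Polynomial.eval P) huv
  simp [h0, hP] at this

/-! ### size of the multiplier -/

theorem isog_ne_zero {N : ℕ} (hN : 0 < N) {x y U : ℂ} (h : Isog N x y U) : U ≠ 0 := by
  obtain ⟨C, -, hC⟩ := del_bounds
  obtain ⟨τ, τ', _, _, _, _, -, hx, hy, -⟩ := id h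
  intro h0
  have h1 := h.norm hx hy
  rw [h0, norm_zero, zero_mul] at h1
  have h2 : del τ' = 0 := by
    rcases mul_eq_zero.1 h1.symm with h3 | h3
    · exact absurd h3 (by positivity)
    · exact h3
  have := (hC τ').1
  rw [h2] at this
  norm_num at this

theorem isog_bound : ∃ C : ℝ, 0 ≤ C ∧ ∀ (N : ℕ) (x y U : ℂ) (H : ℝ), Isog N x y U →
    Real.log (1 + ‖y‖) ≤ H → ‖U‖ * (1 + ‖y‖) ≤ C * (N : ℝ) ^ 6 * (1 + H) ^ 6 * (1 + ‖x‖) := by
  obtain ⟨C, hC1, hC⟩ := del_bounds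
  refine ⟨C * C, by positivity, fun N x y U H h hH ↦ ?_⟩
  obtain ⟨τ, τ', _, _, _, _, -, hx, hy, -⟩ := id h
  have h1 := h.norm hx hy
  have h2 := (hC τ).1
  have h3 := (hC τ').2
  rw [hx] at h2
  rw [hy] at h3
  have h4 : 0 ≤ Real.log (1 + ‖y‖) := Real.log_nonneg (by linarith [norm_nonneg y])
  have h5 : (1 + Real.log (1 + ‖y‖)) ^ 6 ≤ (1 + H) ^ 6 :=
    pow_le_pow_left₀ (by linarith) (by linarith) 6
  have h6 : del τ' * (1 + ‖y‖) ≤ C * (1 + H) ^ 6 :=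
    h3.trans (mul_le_mul_of_nonneg_left h5 (by linarith))
  calc ‖U‖ * (1 + ‖y‖) ≤ ‖U‖ * (1 + ‖y‖) * (C * (del τ * (1 + ‖x‖))) :=
        le_mul_of_one_le_right (by positivity) h2
    _ = C * (‖U‖ * del τ) * (1 + ‖y‖) * (1 + ‖x‖) := by ring
    _ = C * (N : ℝ) ^ 6 * (del τ' * (1 + ‖y‖)) * (1 + ‖x‖) := by rw [h1]; ring
    _ ≤ C * (N : ℝ) ^ 6 * (C * (1 + H) ^ 6) * (1 + ‖x‖) := by gcongr
    _ = _ := by ring

theorem one_add_norm_div {x y : ℂ} (hy : y ≠ 0) : (1 + ‖x / y‖) * ‖y‖ = ‖x‖ + ‖y‖ := by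
  have : ‖y‖ ≠ 0 := norm_ne_zero_iff.2 hy
  rw [norm_div]
  field_simp
  ring

/-- a family of special points with size parameter `a` -/
structure Fam (A B : Fin 3 → Polynomial ℂ) (d0 : ℕ) (t : ι → ℂ) (a : ι → ℕ) : Prop where
  one : ∀ s, 1 ≤ a s
  np : ∀ s, NP B (t s)
  int : ∀ s i P, (B i).eval P = 0 → IsIntegral ℤ ((d0 : ℂ) / (t s - P))
  deg : ∀ s, Deg (t s) (a s)
  iso : ∀ s i j, ∃ n, MinIso n (xv A B i (t s)) (xv A B j (t s)) ∧ (n : ℝ) ≤ Real.exp (a s)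
  ht : ∀ s (σ : ℂ →+* ℂ) i, Real.log (1 + ‖σ (xv A B i (t s))‖) ≤ Real.exp (a s)

theorem Fam.restrict (F : Fam A B d0 t a) (p : ι → Prop) :
    Fam A B d0 (fun s : {s // p s} ↦ t s.1) fun s ↦ a s.1 :=
  ⟨fun s ↦ F.one s, fun s ↦ F.np s, fun s ↦ F.int s, fun s ↦ F.deg s, fun s ↦ F.iso s,
    fun s ↦ F.ht s⟩

theorem Fam.db (F : Fam A B d0 t a) : DB a t := ⟨a, PN.self, F.deg⟩

theorem Fam.ib_div (F : Fam A B d0 t a) (h : Adm A B) (hB : Alg B) (hd0 : 0 < d0)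
    {p : Polynomial ℂ} (hp : ∀ n, IsAlgebraic ℚ (p.coeff n)) (j : Fin 3)
    (hpj : p.natDegree ≤ (B j).natDegree) : IB fun s ↦ p.eval (t s) / (B j).eval (t s) := by
  obtain ⟨d, hd, h1⟩ := integral_div hp (hB j) (B_ne_zero h j) hpj hd0
  exact ⟨d, hd, fun s ↦ h1 _ (F.np s j) (F.int s j)⟩

theorem Fam.db_xv (F : Fam A B d0 t a) (hA : Alg A) (hB : Alg B) (i : Fin 3) :
    DB a fun s ↦ xv A B i (t s) := (F.db.eval (hA i)).div (F.db.eval (hB i))

theorem Fam.exists_isog (F : Fam A B d0 t a) (h : Adm A B) (hA : Alg A) (hB : Alg B)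
    (hd0 : 0 < d0) (i j : Fin 3) : ∃ (n : ι → ℕ) (U : ι → ℂ),
      (∀ s, 0 < n s ∧ (n s : ℝ) ≤ Real.exp (a s) ∧
        Isog (n s) (xv A B i (t s)) (xv A B j (t s)) (U s)) ∧ IB U ∧ DB a U ∧
      ∃ G : ι → ℝ, EB a G ∧ ∀ s (σ : ℂ →+* ℂ),
        ‖σ (U s * ((B i).eval (t s) / (B j).eval (t s)))‖ * (1 + ‖σ (t s)‖) ^ (B j).natDegree ≤
          G s * (1 + ‖σ (t s)‖) ^ (B i).natDegree := by
  choose n hn hle using fun s ↦ F.iso s i j
  choose U hU using fun s ↦ (hn s).2.1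
  refine ⟨n, U, fun s ↦ ⟨(hn s).1, hle s, hU s⟩, ?_, ?_, ?_⟩
  · obtain ⟨d, hd, h1⟩ := F.ib_div h hB hd0 (hA i) i (h.1 i).1
    exact ⟨d, hd, fun s ↦ (hU s).integral (hn s).1 (h1 s)⟩
  · obtain ⟨D, hD, h1⟩ := F.db_xv hA hB i
    obtain ⟨D', hD', h2⟩ := F.db_xv hA hB j
    exact ⟨_, (hD.mul hD').mul (PN.const 36), fun s ↦ (hn s).deg (hU s) (h1 s) (h2 s)⟩
  · obtain ⟨C, hC0, hC⟩ := isog_bound
    obtain ⟨C', hC1', hC'⟩ := two_sided h hA hB
    have hG : EB a fun s ↦ C' * C' * C * Real.exp (a s) ^ 6 * (1 + Real.exp (a s)) ^ 6 :=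
      ((EB.const _).mul F.one (EB.exp_self.pow (fun _ ↦ by positivity) 6)
        fun _ ↦ by positivity).mul F.one
        (((EB.const 1).add F.one EB.exp_self).pow (fun _ ↦ by positivity) 6)
        fun _ ↦ by positivity
    refine ⟨_, hG, fun s σ ↦ ?_⟩
    have h1 := hC _ _ _ _ _ ((hU s).conj (hn s).1 σ) (F.ht s σ j)
    have h2 := (hC' σ j (σ (t s))).1
    have h3 := (hC' σ i (σ (t s))).2
    simp only [map_eval] at h2 h3
    simp only [xv, map_div₀] at h1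
    have hi : σ ((B i).eval (t s)) ≠ 0 := (map_ne_zero σ).2 (F.np s i)
    have hj : σ ((B j).eval (t s)) ≠ 0 := (map_ne_zero σ).2 (F.np s j)
    have e1 := one_add_norm_div (x := σ ((A i).eval (t s))) hi
    have e2 := one_add_norm_div (x := σ ((A j).eval (t s))) hj
    rw [map_mul, map_div₀, norm_mul, norm_div]
    set bi := ‖σ ((B i).eval (t s))‖
    set bj := ‖σ ((B j).eval (t s))‖
    set xi := 1 + ‖σ ((A i).eval (t s)) / σ ((B i).eval (t s))‖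
    set xj := 1 + ‖σ ((A j).eval (t s)) / σ ((B j).eval (t s))‖
    rw [← e1] at h3
    rw [← e2] at h2
    have hbi : 0 < bi := norm_pos_iff.2 hi
    have hbj : 0 < bj := norm_pos_iff.2 hj
    have hxi : 0 ≤ xi := by positivity
    have h4 : (n s : ℝ) ^ 6 ≤ Real.exp (a s) ^ 6 := pow_le_pow_left₀ (by positivity) (hle s) 6
    calc ‖σ (U s)‖ * (bi / bj) * (1 + ‖σ (t s)‖) ^ (B j).natDegree
        ≤ ‖σ (U s)‖ * (bi / bj) * (C' * (xj * bj)) := by gcongr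
      _ = C' * (‖σ (U s)‖ * xj) * bi := by field_simp
      _ ≤ C' * (C * (n s : ℝ) ^ 6 * (1 + Real.exp (a s)) ^ 6 * xi) * bi := by gcongr
      _ = C' * C * (n s : ℝ) ^ 6 * (1 + Real.exp (a s)) ^ 6 * (xi * bi) := by ring
      _ ≤ C' * C * Real.exp (a s) ^ 6 * (1 + Real.exp (a s)) ^ 6 *
          (C' * (1 + ‖σ (t s)‖) ^ (B i).natDegree) := by gcongr
      _ = _ := by ring

/-- unequal degrees: Liouville's inequality -/
theorem Fam.case_lt (F : Fam A B d0 t a) (h : Adm A B) (hA : Alg A) (hB : Alg B)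
    (hd0 : 0 < d0) {i j : Fin 3} (hij : (B i).natDegree < (B j).natDegree) {l : Fin 3} {P : ℂ}
    (hP : (B l).eval P = 0) : LB a fun s ↦ ‖t s - P‖ := by
  obtain ⟨n, U, hU, hi, hd, G, hG, hb⟩ := F.exists_isog h hA hB hd0 i j
  obtain ⟨m, hm⟩ : ∃ m, (B j).natDegree = (B i).natDegree + m := ⟨_, (Nat.add_sub_of_le hij.le).symm⟩
  have hm0 : 0 < m := by omega
  have hPa := alg_root (hB l) (B_ne_zero h l) hP
  obtain ⟨K, hK⟩ := exists_house hPa
  have hK0 : 0 ≤ K := (norm_nonneg _).trans (hK (RingHom.id ℂ))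
  have hp := alg_coeff_mul (hB i) (alg_coeff_pow hPa m)
  have hdeg : (B i * (Polynomial.X - Polynomial.C P) ^ m).natDegree ≤ (B j).natDegree := by
    refine Polynomial.natDegree_mul_le.trans ?_
    rw [Polynomial.natDegree_pow, Polynomial.natDegree_X_sub_C, hm, mul_one]
  have hb' : ∀ s (σ : ℂ →+* ℂ),
      ‖σ (U s * ((B i).eval (t s) / (B j).eval (t s)))‖ * (1 + ‖σ (t s)‖) ^ m ≤ G s := by
    intro s σ
    have h1 := hb s σ
    rw [hm, pow_add, mul_comm ((1 + ‖σ (t s)‖) ^ (B i).natDegree), ← mul_assoc] at h1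
    exact le_of_mul_le_mul_right h1 (by positivity)
  have e : ∀ s, U s * ((B i * (Polynomial.X - Polynomial.C P) ^ m).eval (t s) / (B j).eval (t s)) =
      U s * ((B i).eval (t s) / (B j).eval (t s)) * (t s - P) ^ m := by
    intro s
    simp only [Polynomial.eval_mul, Polynomial.eval_pow, Polynomial.eval_sub, Polynomial.eval_X,
      Polynomial.eval_C]
    ring
  have han : AN a fun s ↦
      U s * ((B i * (Polynomial.X - Polynomial.C P) ^ m).eval (t s) / (B j).eval (t s)) := by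
    refine ⟨hi.mul (F.ib_div h hB hd0 hp j hdeg), hd.mul ((F.db.eval hp).div (F.db.eval (hB j))),
      fun s ↦ G s * (1 + K) ^ m, hG.mul F.one (EB.const _) fun _ ↦ by positivity, fun s σ ↦ ?_⟩
    beta_reduce
    rw [e, map_mul, norm_mul, map_pow, norm_pow, map_sub]
    have h1 : ‖σ (t s) - σ P‖ ≤ (1 + ‖σ (t s)‖) * (1 + K) := by
      have := norm_sub_le (σ (t s)) (σ P)
      nlinarith [hK σ, norm_nonneg (σ (t s))]
    calc ‖σ (U s * ((B i).eval (t s) / (B j).eval (t s)))‖ * ‖σ (t s) - σ P‖ ^ m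
        ≤ ‖σ (U s * ((B i).eval (t s) / (B j).eval (t s)))‖ *
          ((1 + ‖σ (t s)‖) * (1 + K)) ^ m := by gcongr
      _ = ‖σ (U s * ((B i).eval (t s) / (B j).eval (t s)))‖ * (1 + ‖σ (t s)‖) ^ m *
          (1 + K) ^ m := by rw [mul_pow, mul_assoc]
      _ ≤ _ := by gcongr; exact hb' s σ
  have hne : ∀ s, t s - P ≠ 0 := by
    intro s h0
    exact F.np s l (by rw [sub_eq_zero.1 h0]; exact hP)
  have hlb := han.lb F.one fun s ↦ by
    rw [e]
    exact mul_ne_zero (mul_ne_zero (isog_ne_zero (hU s).1 (hU s).2.2)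
      (div_ne_zero (F.np s i) (F.np s j))) (pow_ne_zero _ (hne s))
  refine LB.of_pow hm0 (hlb.of_le_mul F.one hG (fun _ ↦ by positivity) fun s ↦ ?_)
    fun _ ↦ norm_nonneg _
  rw [e, norm_mul, norm_pow]
  have h1 := hb' s (RingHom.id ℂ)
  simp only [RingHom.id_apply] at h1
  have h2 : (1 : ℝ) ≤ (1 + ‖t s‖) ^ m := one_le_pow₀ (by linarith [norm_nonneg (t s)])
  gcongr
  exact (le_mul_of_one_le_right (norm_nonneg _) h2).trans h1

end Pool.Agent.Lib.ZP3.HBF
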