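import Pool.Agent.Lib.ZP3.Defs

/-! Tate parameters: the part independent of the modular polynomial. -/

open UpperHalfPlane Filter Topology Metric PowerSeries
open scoped Real NNReal

namespace Pool.Agent.Lib.ZP3.TATE

open Pool.Agent.Lib.MP_0704bf_ag Pool.Agent.Lib.helper6

section ultra
variable {K : Type*} [NormedField K] [IsUltrametricDist K]

lemma norm_pow_sub_pow_le {a b : K} (ha : ‖a‖ ≤ 1) (hb : ‖b‖ ≤ 1) (n : ℕ) :
    ‖a ^ n - b ^ n‖ ≤ ‖a - b‖ := by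
  induction n with
  | zero => simp
  | succ n ih =>
    have e : a ^ (n + 1) - b ^ (n + 1) = a * (a ^ n - b ^ n) + (a - b) * b ^ n := by ring
    rw [e]
    refine (IsUltrametricDist.norm_add_le_max _ _).trans (max_le ?_ ?_)
    · rw [norm_mul]
      exact (mul_le_of_le_one_left (norm_nonneg _) ha).trans ih
    · rw [norm_mul, norm_pow]
      exact mul_le_of_le_one_right (norm_nonneg _) (pow_le_one₀ (norm_nonneg _) hb)

lemma norm_add_eq_left {a b : K} (h : ‖b‖ < ‖a‖) : ‖a + b‖ = ‖a‖ := by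
  rw [IsUltrametricDist.norm_add_eq_max_of_norm_ne_norm h.ne', max_eq_left h.le]

/-- the valuation ring -/
noncomputable abbrev O (K : Type*) [NormedField K] [IsUltrametricDist K] : Subring K :=
  (NormedField.valuation (K := K)).integer

lemma mem_O {z : K} : z ∈ O K ↔ ‖z‖ ≤ 1 := by
  rw [Valuation.mem_integer_iff, NormedField.valuation_apply, ← NNReal.coe_le_coe]
  simp

lemma norm_le_one_of_O {z : K} (hz : IsIntegral (O K) z) : ‖z‖ ≤ 1 :=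
  mem_O.mp ((Valuation.integer.integers _).mem_of_integral hz)

lemma norm_le_one_int {z : K} (hz : IsIntegral ℤ z) : ‖z‖ ≤ 1 :=
  norm_le_one_of_O hz.tower_top

lemma comp_aeval {A B : Type*} [CommRing A] [CommRing B] (f : A →+* B) (x : A) :
    f.comp (Polynomial.aeval x : Polynomial ℤ →ₐ[ℤ] A).toRingHom =
      (Polynomial.aeval (f x) : Polynomial ℤ →ₐ[ℤ] B).toRingHom := by
  refine Polynomial.ringHom_ext' (RingHom.ext_int _ _) ?_
  simp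

lemma map_ev2 {A B : Type*} [CommRing A] [CommRing B] (f : A →+* B)
    (Φ : Polynomial (Polynomial ℤ)) (x y : A) : f (ev2 Φ x y) = ev2 Φ (f x) (f y) := by
  rw [ev2, ev2, ← comp_aeval, ← Polynomial.map_map, Polynomial.eval_map_apply]

lemma norm_le_one_of_ev2 {Φ : Polynomial (Polynomial ℤ)} (hΦ : Φ.Monic) {x y : K}
    (hx : ‖x‖ ≤ 1) (h : ev2 Φ x y = 0) : ‖y‖ ≤ 1 := by
  refine norm_le_one_of_O ⟨Φ.map (Polynomial.aeval (⟨x, mem_O.mpr hx⟩ : O K)).toRingHom,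
    hΦ.map _, ?_⟩
  rw [← Polynomial.eval_map, Polynomial.map_map, comp_aeval]
  exact h

lemma prime_root {ξ : K} {l : ℕ} (h : ξ ^ l = 1) (h1 : ‖ξ - 1‖ < ‖(l : K)‖) : ξ = 1 := by
  by_contra hne
  have hl1 : ‖(l : K)‖ ≤ 1 := IsUltrametricDist.norm_natCast_le_one K l
  have hξ : ‖ξ‖ ≤ 1 := by
    have := IsUltrametricDist.norm_add_le_max (ξ - 1) 1
    rw [sub_add_cancel, norm_one] at this
    exact this.trans (max_le (h1.le.trans hl1) le_rfl)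
  have hs : ∑ i ∈ Finset.range l, ξ ^ i = 0 := by
    have := geom_sum_mul ξ l
    rw [h, sub_self] at this
    exact (mul_eq_zero.mp this).resolve_right (sub_ne_zero.mpr hne)
  have e : (l : K) = ∑ i ∈ Finset.range l, (1 ^ i - ξ ^ i) := by
    rw [Finset.sum_sub_distrib, hs]
    simp
  have : ‖(l : K)‖ ≤ ‖ξ - 1‖ := by
    rw [e]
    refine IsUltrametricDist.norm_sum_le_of_forall_le_of_nonneg (norm_nonneg _) fun i _ ↦ ?_
    rw [norm_sub_rev ξ 1]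
    exact norm_pow_sub_pow_le (by simp) hξ i
  linarith

lemma root_eq_one {r : ℝ} (hr : ∀ l : ℕ, l.Prime → r ≤ ‖(l : K)‖) (n : ℕ) :
    0 < n → ∀ ξ : K, ξ ^ n = 1 → ‖ξ - 1‖ < r → ξ = 1 := by
  induction n using induction_on_primes with
  | zero => intro h; omega
  | one => intro _ ξ h _; simpa using h
  | prime_mul l m hl ih =>
    intro hn ξ h h1
    have hm : 0 < m := Nat.pos_of_mul_pos_left hn
    have hl1 : ‖(l : K)‖ ≤ 1 := IsUltrametricDist.norm_natCast_le_one K l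
    have hξ : ‖ξ‖ ≤ 1 := by
      have := IsUltrametricDist.norm_add_le_max (ξ - 1) 1
      rw [sub_add_cancel, norm_one] at this
      exact this.trans (max_le (h1.le.trans ((hr l hl).trans hl1)) le_rfl)
    refine ih hm ξ (prime_root (l := l) (by rw [← pow_mul, mul_comm, h]) ?_) h1
    have := norm_pow_sub_pow_le hξ (b := 1) (by simp) m
    rw [one_pow] at this
    exact this.trans_lt (h1.trans_le (hr l hl))

omit [IsUltrametricDist K] in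
lemma hasSum_cg' {u v : ℕ → K} {a : K} (H : HasSum u a) (h1 : ∀ m, v m = u m) : HasSum v a := by
  rw [funext h1]
  exact H

variable [CompleteSpace K]

omit [IsUltrametricDist K] [CompleteSpace K] in
lemma summ {c : ℕ → K} (hc : ∀ n, ‖c n‖ ≤ 1) {Q : K} (hQ : ‖Q‖ < 1) :
    Summable fun n ↦ ‖c n * Q ^ n‖ := by
  refine Summable.of_nonneg_of_le (fun _ ↦ norm_nonneg _) (fun n ↦ ?_)
    (summable_geometric_of_lt_one (norm_nonneg Q) hQ)
  rw [norm_mul, norm_pow]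
  exact mul_le_of_le_one_left (by positivity) (hc n)

/-- the sum of an integral power series -/
noncomputable def S (c : ℕ → K) (Q : K) : K := ∑' n, c n * Q ^ n

lemma norm_S_sub {c : ℕ → K} (hc : ∀ n, ‖c n‖ ≤ 1) {Q Q' : K} (hQ : ‖Q‖ < 1) (hQ' : ‖Q'‖ < 1) :
    ‖S c Q - S c Q'‖ ≤ ‖Q - Q'‖ := by
  rw [S, S, ← (summ hc hQ).of_norm.tsum_sub (summ hc hQ').of_norm]
  refine IsUltrametricDist.norm_tsum_le_of_forall_le fun n ↦ ?_
  rw [← mul_sub, norm_mul]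
  exact (mul_le_of_le_one_left (norm_nonneg _) (hc n)).trans (norm_pow_sub_pow_le hQ.le hQ'.le n)

omit [IsUltrametricDist K] [CompleteSpace K] in
lemma S_zero (c : ℕ → K) : S c 0 = c 0 := by
  rw [S, tsum_eq_single 0]
  · simp
  · intro n hn
    simp [hn]

lemma norm_S {c : ℕ → K} (hc : ∀ n, ‖c n‖ ≤ 1) (h0 : c 0 = 1) {Q : K} (hQ : ‖Q‖ < 1) :
    ‖S c Q‖ = 1 := by
  have h := norm_S_sub hc hQ (Q' := 0) (by simp)
  rw [S_zero, h0, sub_zero] at h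
  have := norm_add_eq_left (a := (1 : K)) (b := S c Q - 1) (by simpa using h.trans_lt hQ)
  simpa using this

lemma J_iso {c : ℕ → K} (hc : ∀ n, ‖c n‖ ≤ 1) (h0 : c 0 = 1) {Q Q' : K} (hQ : ‖Q‖ < 1)
    (hQ' : ‖Q'‖ < 1) : ‖(S c Q / Q)⁻¹ - (S c Q' / Q')⁻¹‖ = ‖Q - Q'‖ := by
  have h1 := norm_S hc h0 hQ
  have h2 := norm_S hc h0 hQ'
  have h3 : S c Q ≠ 0 := by
    intro h
    simp [h] at h1
  have h4 : S c Q' ≠ 0 := by
    intro h
    simp [h] at h2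
  rcases eq_or_ne Q Q' with rfl | hne
  · simp
  have e : (S c Q / Q)⁻¹ - (S c Q' / Q')⁻¹ =
      ((Q - Q') * S c Q' + Q' * (S c Q' - S c Q)) / (S c Q * S c Q') := by
    rw [inv_div, inv_div]
    field_simp
    ring
  have hpos : 0 < ‖Q - Q'‖ := norm_pos_iff.mpr (sub_ne_zero.mpr hne)
  rw [e, norm_div, norm_mul, h1, h2, mul_one, div_one, norm_add_eq_left, norm_mul, h2, mul_one]
  rw [norm_mul, norm_mul, h2, mul_one]
  have h5 := norm_S_sub hc hQ' hQ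
  rw [norm_sub_rev Q' Q] at h5
  calc ‖Q'‖ * ‖S c Q' - S c Q‖ ≤ ‖Q'‖ * ‖Q - Q'‖ := by gcongr
    _ < 1 * ‖Q - Q'‖ := by gcongr
    _ = _ := one_mul _

lemma J_surj {c : ℕ → K} (hc : ∀ n, ‖c n‖ ≤ 1) (h0 : c 0 = 1) {x : K} (hx : 1 < ‖x‖) :
    ∃ Q : K, Q ≠ 0 ∧ ‖Q‖ < 1 ∧ S c Q / Q = x := by
  have hx0 : x ≠ 0 := by
    rintro rfl
    simp at hx
    linarith
  have hy : ‖x⁻¹‖ < 1 := by
    rw [norm_inv]
    exact inv_lt_one_of_one_lt₀ hx
  have hmem : ∀ Q ∈ closedBall (0 : K) ‖x⁻¹‖, ‖Q‖ < 1 := fun Q hQ ↦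
    (mem_closedBall_zero_iff.mp hQ).trans_lt hy
  have hmap : Set.MapsTo (fun Q ↦ x⁻¹ * S c Q) (closedBall (0 : K) ‖x⁻¹‖)
      (closedBall (0 : K) ‖x⁻¹‖) := by
    intro Q hQ
    rw [mem_closedBall_zero_iff, norm_mul, norm_S hc h0 (hmem Q hQ), mul_one]
  have hcon : ContractingWith ‖x⁻¹‖₊ (hmap.restrict _ _ _) := by
    refine ⟨by exact_mod_cast hy, LipschitzWith.of_dist_le_mul fun a b ↦ ?_⟩
    rw [Subtype.dist_eq, Subtype.dist_eq, dist_eq_norm, dist_eq_norm]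
    simp only [Set.MapsTo.val_restrict_apply, ← mul_sub, norm_mul, coe_nnnorm]
    exact mul_le_mul_of_nonneg_left (norm_S_sub hc (hmem _ a.2) (hmem _ b.2)) (norm_nonneg _)
  obtain ⟨Q, hQ, hfix, -⟩ := hcon.exists_fixedPoint' isClosed_closedBall.isComplete hmap
    (x := 0) (mem_closedBall_self (norm_nonneg _)) (edist_ne_top _ _)
  have h1 := norm_S hc h0 (hmem Q hQ)
  have h3 : S c Q ≠ 0 := by
    intro h
    simp [h] at h1
  have h4 : x⁻¹ * S c Q = Q := hfix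
  have h5 : Q ≠ 0 := by
    rw [← h4]
    exact mul_ne_zero (inv_ne_zero hx0) h3
  refine ⟨Q, h5, hmem Q hQ, ?_⟩
  rw [div_eq_iff h5, ← h4, ← mul_assoc, mul_inv_cancel₀ hx0, one_mul, h4]

/-- the series `P`, transported by `ι`, converges to `v` at `Q` -/
def PS (ι : ℂ →+* K) (Q : K) (P : ℂ⟦X⟧) (v : K) : Prop :=
  HasSum (fun n ↦ ι (coeff n P) * Q ^ n) v

variable {ι : ℂ →+* K} {Q : K} {P P' : ℂ⟦X⟧} {v v' : K}

omit [IsUltrametricDist K] [CompleteSpace K] in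
lemma PS.add (h : PS ι Q P v) (h' : PS ι Q P' v') : PS ι Q (P + P') (v + v') := by
  simpa [PS, add_mul] using HasSum.add h h'

omit [IsUltrametricDist K] [CompleteSpace K] in
lemma PS.neg (h : PS ι Q P v) : PS ι Q (-P) (-v) := by
  simpa [PS] using HasSum.neg h

omit [IsUltrametricDist K] [CompleteSpace K] in
lemma PS_C (ι : ℂ →+* K) (Q : K) (c : ℂ) : PS ι Q (C c) (ι c) := by
  have := hasSum_single (f := fun m : ℕ ↦ ι (coeff m (C c)) * Q ^ m) 0 (by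
    intro b hb
    simp [coeff_C, hb])
  simpa [PS] using this

omit [IsUltrametricDist K] [CompleteSpace K] in
lemma PS_X_pow (ι : ℂ →+* K) (Q : K) (k : ℕ) : PS ι Q (X ^ k) (Q ^ k) := by
  have := hasSum_single (f := fun m : ℕ ↦ ι (coeff m (X ^ k : ℂ⟦X⟧)) * Q ^ m) k (by
    intro b hb
    simp [coeff_X_pow, hb])
  simpa [PS] using this

omit [CompleteSpace K] in
lemma intS_norm (ι : ℂ →+* K) (hP : IntS P) (n : ℕ) : ‖ι (coeff n P)‖ ≤ 1 :=
  norm_le_one_int (map_isIntegral_int ι (hP n))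

lemma PS.mul (hQ : ‖Q‖ < 1) (hP : IntS P) (hP' : IntS P') (h : PS ι Q P v) (h' : PS ι Q P' v') :
    PS ι Q (P * P') (v * v') := by
  have h1 := summ (intS_norm ι hP) hQ
  have h2 := summ (intS_norm ι hP') hQ
  have h3 := (summable_norm_sum_mul_antidiagonal_of_summable_norm h1 h2).of_norm.hasSum
  rw [← tsum_mul_tsum_eq_tsum_sum_antidiagonal_of_summable_norm h1 h2, HasSum.tsum_eq h,
    HasSum.tsum_eq h'] at h3
  refine hasSum_cg' h3 fun m ↦ ?_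
  rw [coeff_mul, map_sum, Finset.sum_mul]
  refine Finset.sum_congr rfl fun x hx ↦ ?_
  rw [← Finset.HasAntidiagonal.mem_antidiagonal.mp hx, pow_add, map_mul]
  ring

omit [IsUltrametricDist K] [CompleteSpace K] in
lemma PS.dil {ζ : ℂ} {k : ℕ} (hk : 0 < k) (h : PS ι (ι ζ * Q ^ k) P v) :
    PS ι Q (dil ζ k P) v := by
  have hinj : Function.Injective fun m : ℕ ↦ k * m := mul_right_injective₀ hk.ne'
  unfold PS
  rw [← hinj.hasSum_iff]
  · refine hasSum_cg' h fun m ↦ ?_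
    simp only [Function.comp_apply, coeff_dil_mul ζ hk, mul_pow, ← pow_mul, map_mul, map_pow]
    ring
  · intro m hm
    have : ¬ k ∣ m := by
      rintro ⟨c, rfl⟩
      exact hm ⟨c, rfl⟩
    simp [Pool.Agent.Lib.helper6.dil, this]

/-- pairs of a function and the value of its transported expansion -/
def Gam (h : ℝ) (ι : ℂ →+* K) {Q : K} (hQ : ‖Q‖ < 1) : Subring ((ℍ → ℂ) × K) where
  carrier := {w | ∃ (M : ℕ) (P : ℂ⟦X⟧), HasExp h (qq h ^ M * w.1) P ∧ IntS P ∧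
    PS ι Q P (Q ^ M * w.2)}
  mul_mem' := by
    rintro ⟨φ, v⟩ ⟨ψ, w⟩ ⟨M, P, h1, h2, h3⟩ ⟨M', P', h1', h2', h3'⟩
    refine ⟨M + M', P * P', ?_, h2.mul h2', ?_⟩
    · have := h1.mul h1'
      rwa [show qq h ^ M * φ * (qq h ^ M' * ψ) = qq h ^ (M + M') * (φ * ψ) by ring] at this
    · have := PS.mul hQ h2 h2' h3 h3'
      rwa [show Q ^ M * v * (Q ^ M' * w) = Q ^ (M + M') * (v * w) by ring] at this
  one_mem' := ⟨0, 1, by simpa using hasExp_one h, intS_one, by simpa using PS_C ι Q 1⟩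
  add_mem' := by
    rintro ⟨φ, v⟩ ⟨ψ, w⟩ ⟨M, P, h1, h2, h3⟩ ⟨M', P', h1', h2', h3'⟩
    refine ⟨M + M', X ^ M' * P + X ^ M * P', ?_,
      ((intS_X.pow _).mul h2).add ((intS_X.pow _).mul h2'), ?_⟩
    · have := (h1.shift M').add (h1'.shift M)
      rwa [show qq h ^ (M' + M) * φ + qq h ^ (M + M') * ψ = qq h ^ (M + M') * (φ + ψ) by ring]
        at this
    · have := (PS.mul hQ (intS_X.pow M') h2 (PS_X_pow ι Q M') h3).add
        (PS.mul hQ (intS_X.pow M) h2' (PS_X_pow ι Q M) h3')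
      rwa [show Q ^ M' * (Q ^ M * v) + Q ^ M * (Q ^ M' * w) = Q ^ (M + M') * (v + w) by ring]
        at this
  zero_mem' := ⟨0, 0, by simpa using hasExp_zero h, intS_zero, by simpa using PS_C ι Q 0⟩
  neg_mem' := by
    rintro ⟨φ, v⟩ ⟨M, P, h1, h2, h3⟩
    exact ⟨M, -P, by simpa using h1.neg, h2.neg, by simpa using h3.neg⟩

lemma Gam_inj {h : ℝ} (hh : 0 < h) (ι : ℂ →+* K) (hQ : ‖Q‖ < 1) (hQ0 : Q ≠ 0) :
    Function.Injective ((RingHom.fst _ _).comp (Gam h ι hQ).subtype) := by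
  rw [injective_iff_map_eq_zero]
  rintro ⟨⟨φ, v⟩, M, P, h1, h2, h3⟩ h0
  have h4 : φ = 0 := h0
  subst h4
  have h5 : P = 0 := HasExp.eq_zero hh (by simpa using h1)
  subst h5
  have h6 : Q ^ M * v = 0 := by
    have := PS_C ι Q 0
    rw [map_zero, map_zero] at this
    exact HasSum.unique h3 this
  have h7 : v = 0 := (mul_eq_zero.mp h6).resolve_left (pow_ne_zero _ hQ0)
  subst h7
  rfl

lemma Gam_mem {h : ℝ} (ι : ℂ →+* K) (hQ : ‖Q‖ < 1) (hQ0 : Q ≠ 0) {Jc : ℕ → ℤ}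
    (hJ : HasExp 1 (qq 1 * jInv) (PowerSeries.mk fun n ↦ (Jc n : ℂ))) (s : ℍ → ℍ) {ζ : ℂ}
    {d : ℕ} (hd : 0 < d) (hζ : ζ ^ d = 1) {k : ℕ} (hk : 0 < k)
    (hs : ∀ τ, qq 1 (s τ) = ζ * qq h τ ^ k) :
    (jInv ∘ s, S (fun n ↦ (Jc n : K)) (ι ζ * Q ^ k) / (ι ζ * Q ^ k)) ∈ Gam h ι hQ := by
  have hζi : IsIntegral ℤ ζ := IsIntegral.of_pow hd (hζ ▸ isIntegral_one)
  have hJi : IntS (PowerSeries.mk fun n ↦ (Jc n : ℂ)) := by
    intro m
    rw [coeff_mk]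
    exact isIntegral_algebraMap (R := ℤ)
  obtain ⟨e, rfl⟩ : ∃ e, d = e + 1 := ⟨d - 1, by omega⟩
  have h1 := (hasExp_const h (ζ ^ e)).mul (hJ.comp s ζ hk hs)
  have hζ' : ι ζ ^ (e + 1) = 1 := by rw [← map_pow, hζ, map_one]
  have hζ0 : ι ζ ≠ 0 := by
    intro h0
    simp [h0] at hζ'
  have hn : ‖ι ζ * Q ^ k‖ < 1 := by
    rw [norm_mul, norm_pow]
    exact (mul_le_of_le_one_left (by positivity)
      (norm_le_one_int (map_isIntegral_int ι hζi))).trans_lt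
        (pow_lt_one₀ (norm_nonneg _) hQ hk.ne')
  refine ⟨k, C (ζ ^ e) * dil ζ k (PowerSeries.mk fun n ↦ (Jc n : ℂ)), ?_,
    (intS_C (hζi.pow _)).mul (hJi.dil hζi k), ?_⟩
  · convert h1 using 1
    funext τ
    simp only [Pi.mul_apply, Pi.pow_apply, Function.comp_apply, hs]
    linear_combination (-(qq h τ ^ k * jInv (s τ))) * hζ
  · have h2 : PS ι (ι ζ * Q ^ k) (PowerSeries.mk fun n ↦ (Jc n : ℂ))
        (S (fun n ↦ (Jc n : K)) (ι ζ * Q ^ k)) := by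
      have := (summ (c := fun n ↦ (Jc n : K))
        (fun n ↦ IsUltrametricDist.norm_intCast_le_one K _) hn).of_norm.hasSum
      simpa [PS, S] using this
    have h3 := PS.mul hQ (intS_C (hζi.pow e)) (hJi.dil hζi k) (PS_C ι Q (ζ ^ e)) (h2.dil hk)
    convert h3 using 1
    have hQk : Q ^ k ≠ 0 := pow_ne_zero _ hQ0
    rw [map_pow]
    generalize S (fun n ↦ (Jc n : K)) (ι ζ * Q ^ k) = w
    field_simp
    linear_combination (-w) * hζ'

lemma mem_tris {N : ℕ} (hN : 0 < N) {g : ℕ × ℕ × ℕ} :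
    g ∈ tris N ↔ g.1 * g.2.2 = N ∧ g.2.1 < g.2.2 := by
  simp only [tris, Finset.mem_filter, Finset.mem_product, Finset.mem_range, and_iff_right_iff_imp]
  rintro ⟨h1, h2⟩
  have h3 : g.1 ≤ N := Nat.le_of_dvd hN ⟨_, h1.symm⟩
  have h4 : g.2.2 ≤ N := Nat.le_of_dvd hN ⟨_, by rw [mul_comm]; exact h1.symm⟩
  omega

lemma qq_tr {N : ℕ} (hN : 0 < N) {g : ℕ × ℕ × ℕ} (hg : g.1 * g.2.2 = N) (τ : ℍ) :
    qq 1 (tr g τ) = Complex.exp (2 * π * Complex.I / g.2.2) ^ g.2.1 * qq N τ ^ (g.1 ^ 2) := by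
  obtain ⟨a, b, d⟩ := g
  simp only at hg ⊢
  have ha : 0 < a := Nat.pos_of_mul_pos_right (hg ▸ hN)
  have hd : 0 < d := Nat.pos_of_mul_pos_left (hg ▸ hN)
  have hd0 : (d : ℂ) ≠ 0 := by exact_mod_cast hd.ne'
  have ha0 : (a : ℂ) ≠ 0 := by exact_mod_cast ha.ne'
  have hN' : (N : ℂ) = a * d := by exact_mod_cast hg.symm
  have him : 0 < (((a : ℂ) * τ + b) / d).im := by
    have h1 : (0 : ℝ) < a := by exact_mod_cast ha
    have h2 : (0 : ℝ) < d := by exact_mod_cast hd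
    have h3 := τ.im_pos
    rw [show (d : ℂ) = ((d : ℝ) : ℂ) by simp, Complex.div_ofReal_im]
    simp only [Complex.add_im, Complex.mul_im, Complex.natCast_re, Complex.natCast_im, coe_im,
      zero_mul, add_zero]
    positivity
  simp only [qq, Function.Periodic.qParam, tr, ofComplex_apply_of_im_pos him,
    ← Complex.exp_nat_mul, ← Complex.exp_add]
  congr 1
  push_cast
  rw [hN']
  field_simp
  ring

lemma transfer {N : ℕ} (hN : 0 < N) (ι : ℂ →+* K) (hQ : ‖Q‖ < 1) (hQ0 : Q ≠ 0) {Jc : ℕ → ℤ}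
    (hJ : HasExp 1 (qq 1 * jInv) (PowerSeries.mk fun n ↦ (Jc n : ℂ)))
    {Φ : Polynomial (Polynomial ℤ)}
    (hΦ : ∀ τ : ℍ, Φ.map (Polynomial.aeval (jInv τ)).toRingHom =
      ∏ g ∈ tris N, (Polynomial.X - Polynomial.C (jInv (tr g τ)))) :
    Φ.map (Polynomial.aeval (S (fun n ↦ (Jc n : K)) (Q ^ N) / Q ^ N)).toRingHom =
      ∏ g ∈ tris N, (Polynomial.X - Polynomial.C
        (S (fun n ↦ (Jc n : K))
          (ι (Complex.exp (2 * π * Complex.I / g.2.2) ^ g.2.1) * Q ^ (g.1 ^ 2)) /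
          (ι (Complex.exp (2 * π * Complex.I / g.2.2) ^ g.2.1) * Q ^ (g.1 ^ 2)))) := by
  have hN' : (0 : ℝ) < N := by exact_mod_cast hN
  let j0 : Gam N ι hQ := ⟨_, Gam_mem ι hQ hQ0 hJ id one_pos (one_pow 1) hN (qq_one_eq hN)⟩
  have hmem : ∀ g ∈ tris N, (jInv ∘ tr g, S (fun n ↦ (Jc n : K))
      (ι (Complex.exp (2 * π * Complex.I / g.2.2) ^ g.2.1) * Q ^ (g.1 ^ 2)) /
      (ι (Complex.exp (2 * π * Complex.I / g.2.2) ^ g.2.1) * Q ^ (g.1 ^ 2))) ∈ Gam N ι hQ := by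
    intro g hg
    obtain ⟨h1, h2⟩ := (mem_tris hN).mp hg
    have ha : 0 < g.1 := Nat.pos_of_mul_pos_right (h1 ▸ hN)
    have hd : 0 < g.2.2 := by omega
    refine Gam_mem ι hQ hQ0 hJ (tr g) hd ?_ (pow_pos ha 2) (qq_tr hN h1)
    rw [← pow_mul, mul_comm g.2.1, pow_mul, (Complex.isPrimitiveRoot_exp _ hd.ne').pow_eq_one,
      one_pow]
  let jg : tris N → Gam N ι hQ := fun g ↦ ⟨_, hmem g.1 g.2⟩
  have key : Φ.map (Polynomial.aeval j0).toRingHom =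
      ∏ g : tris N, (Polynomial.X - Polynomial.C (jg g)) := by
    refine Polynomial.map_injective _ (Gam_inj hN' ι hQ hQ0) ?_
    ext k τ
    have h1 := congrArg (Polynomial.coeff · k) (hΦ τ)
    have e : ∀ p : Polynomial (ℍ → ℂ), p.coeff k τ =
        (p.map (Pi.evalRingHom (fun _ ↦ ℂ) τ)).coeff k := by
      intro p
      rw [Polynomial.coeff_map]
      rfl
    rw [e, e, Polynomial.map_map, Polynomial.map_map, Polynomial.map_map, comp_aeval,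
      Polynomial.map_prod]
    refine h1.trans ?_
    rw [← Finset.prod_coe_sort (tris N)]
    simp [jg]
  have h2 := congrArg (Polynomial.map ((RingHom.snd _ _).comp (Gam N ι hQ).subtype)) key
  rw [Polynomial.map_map, comp_aeval, Polynomial.map_prod] at h2
  rw [← Finset.prod_coe_sort (tris N)]
  simpa [j0, jg] using h2

theorem exists_tate_of [IsAlgClosed K] {Jc : ℕ → ℤ} (hJ0 : Jc 0 = 1)
    (hJ : HasExp 1 (qq 1 * jInv) (PowerSeries.mk fun n ↦ (Jc n : ℂ)))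
    (hecke : ∀ N : ℕ, 0 < N → ∃ Φ : Polynomial (Polynomial ℤ), Φ.Monic ∧
      (∀ τ : ℍ, Φ.map (Polynomial.aeval (jInv τ)).toRingHom =
        ∏ g ∈ tris N, (Polynomial.X - Polynomial.C (jInv (tr g τ)))) ∧
      ∀ x y : ℂ, Iso N x y ↔ ev2 Φ x y = 0) : ∃ J : K → K,
    (∀ x : K, 1 < ‖x‖ → ∃ Q, Q ≠ 0 ∧ ‖Q‖ < 1 ∧ J Q = x) ∧
    (∀ Q, Q ≠ 0 → ‖Q‖ < 1 → ‖J Q‖ = ‖Q‖⁻¹) ∧
    (∀ Q Q', Q ≠ 0 → ‖Q‖ < 1 → Q' ≠ 0 → ‖Q'‖ < 1 → ‖(J Q)⁻¹ - (J Q')⁻¹‖ = ‖Q - Q'‖) ∧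
    ∀ (ι : ℂ →+* K) (x y : ℂ) (Q Q' : K), Q ≠ 0 → ‖Q‖ < 1 → Q' ≠ 0 → ‖Q'‖ < 1 →
      J Q = ι x → J Q' = ι y →
      ∀ N : ℕ, 0 < N → (Iso N x y ↔ ∃ a d : ℕ, a * d = N ∧ Q' ^ d = Q ^ a) := by
  have hc : ∀ n, ‖(fun n ↦ (Jc n : K)) n‖ ≤ 1 := fun n ↦
    IsUltrametricDist.norm_intCast_le_one K _
  have h0 : (fun n ↦ (Jc n : K)) 0 = 1 := by simp [hJ0]
  refine ⟨fun Q ↦ S (fun n ↦ (Jc n : K)) Q / Q, fun x hx ↦ J_surj hc h0 hx, fun Q _ hQ ↦ ?_,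
    fun Q Q' _ hQ _ hQ' ↦ J_iso hc h0 hQ hQ', ?_⟩
  · rw [norm_div, norm_S hc h0 hQ, one_div]
  intro ι x y Q Q' hQ0 hQ hQ0' hQ' hx hy N hN
  obtain ⟨Φ, -, hΦ, hI⟩ := hecke N hN
  obtain ⟨Q1, rfl⟩ := IsAlgClosed.exists_pow_nat_eq Q hN
  have h1 : ‖Q1‖ < 1 := by
    rw [norm_pow] at hQ
    exact lt_of_pow_lt_pow_left₀ N zero_le_one (by simpa using hQ)
  have h10 : Q1 ≠ 0 := by
    rintro rfl
    exact hQ0 (zero_pow hN.ne')
  have ht := transfer hN ι h1 h10 hJ hΦ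
  rw [hI, ← map_eq_zero_iff ι ι.injective, map_ev2, ← hx, ← hy, ev2, ht, Polynomial.eval_prod,
    Finset.prod_eq_zero_iff]
  have hprim : ∀ d : ℕ, 0 < d → IsPrimitiveRoot (ι (Complex.exp (2 * π * Complex.I / d))) d :=
    fun d hd ↦ (Complex.isPrimitiveRoot_exp _ hd.ne').map_of_injective ι.injective
  constructor
  · rintro ⟨g, hg, h2⟩
    obtain ⟨h3, h4⟩ := (mem_tris hN).mp hg
    have ha : 0 < g.1 := Nat.pos_of_mul_pos_right (h3 ▸ hN)
    have hd : 0 < g.2.2 := by omega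
    have h5 : ι (Complex.exp (2 * π * Complex.I / g.2.2) ^ g.2.1) ^ g.2.2 = 1 := by
      rw [map_pow, ← pow_mul, mul_comm g.2.1, pow_mul, (hprim _ hd).pow_eq_one, one_pow]
    have hn : ‖ι (Complex.exp (2 * π * Complex.I / g.2.2) ^ g.2.1) * Q1 ^ (g.1 ^ 2)‖ < 1 := by
      rw [norm_mul, norm_pow]
      exact (mul_le_of_le_one_left (by positivity)
        (norm_le_one_int (IsIntegral.of_pow hd (h5 ▸ isIntegral_one)))).trans_lt
          (pow_lt_one₀ (norm_nonneg _) h1 (pow_pos ha 2).ne')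
    have h6 := J_iso hc h0 hQ' hn
    simp only [Polynomial.eval_sub, Polynomial.eval_X, Polynomial.eval_C, sub_eq_zero] at h2
    rw [h2, sub_self, norm_zero, eq_comm, norm_eq_zero, sub_eq_zero] at h6
    refine ⟨g.1, g.2.2, h3, ?_⟩
    rw [h6, mul_pow, h5, one_mul, ← pow_mul, ← pow_mul, ← h3]
    congr 1
    ring
  · rintro ⟨a, d, h3, h4⟩
    have hd : 0 < d := Nat.pos_of_mul_pos_left (h3 ▸ hN)
    have h5 : (Q' / Q1 ^ (a ^ 2)) ^ d = 1 := by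
      rw [div_pow, h4, ← pow_mul, ← pow_mul, ← h3, div_eq_one_iff_eq (pow_ne_zero _ h10)]
      congr 1
      ring
    have : NeZero d := ⟨hd.ne'⟩
    obtain ⟨b, hb, h6⟩ := (hprim d hd).eq_pow_of_pow_eq_one h5
    refine ⟨(a, b, d), (mem_tris hN).mpr ⟨h3, hb⟩, ?_⟩
    have h7 : ι (Complex.exp (2 * π * Complex.I / d) ^ b) * Q1 ^ (a ^ 2) = Q' := by
      rw [map_pow, h6, div_mul_cancel₀ _ (pow_ne_zero _ h10)]
    simp only [h7]
    simp

end ultra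

lemma norm_prime {p : ℕ} [Fact p.Prime] {l : ℕ} (hl : l.Prime) :
    (p : ℝ)⁻¹ ≤ ‖(l : ℂ_[p])‖ := by
  have e : ‖(l : ℂ_[p])‖ = ‖(l : ℚ_[p])‖ := by
    rw [← norm_algebraMap' ℂ_[p] (l : ℚ_[p]), map_natCast]
  rw [e]
  rcases eq_or_ne l p with rfl | hne
  · rw [Padic.norm_p]
  · rw [Padic.norm_natCast_eq_one_iff.mpr ((Nat.coprime_primes Fact.out hl).mpr hne.symm)]
    exact inv_le_one_of_one_le₀ (by exact_mod_cast (Fact.out : p.Prime).one_le)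

end Pool.Agent.Lib.ZP3.TATE
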