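import Pool.Agent.Lib.ZP3.Defs2
import Pool.Agent.Lib.ZP3.TateCore

/-! Values of integral power series in the open unit disc of `ℂ_[p]`. -/

open UpperHalfPlane Filter Topology Metric
open scoped Real MatrixGroups ArithmeticFunction.sigma

namespace Pool.Agent.Lib.ZP3

open Pool.Agent.Lib.MP_0704bf_ag Pool.Agent.Lib.helper6

section PSUM
variable {p : ℕ} [Fact p.Prime] {Q Q' : ℂ_[p]}

lemma PSUM.map_sig (k : ℕ) : PowerSeries.map (Int.castRingHom ℂ) (sigZ k) = sigS k := by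
  ext m
  simp [sigZ, sigS]

theorem map_DZ : PowerSeries.map (Int.castRingHom ℂ) DZ = delS := by
  have h : PowerSeries.map (Int.castRingHom ℂ)
      (PowerSeries.mk fun m ↦ (((5 * σ 3 m + 7 * σ 5 m) / 12 : ℕ) : ℤ)) = twS := by
    ext m
    simp only [twS, PowerSeries.coeff_map, PowerSeries.coeff_mk, eq_intCast, Int.cast_natCast]
  unfold DZ delS
  simp only [map_add, map_sub, map_mul, map_pow, map_ofNat, PSUM.map_sig, h]

theorem hasExp_DZ : HasExp 1 ModularForm.discriminant (PowerSeries.map (Int.castRingHom ℂ) DZ) :=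
  map_DZ ▸ hasExp_disc

theorem hasExp_EZ :
    HasExp 1 (fun τ ↦ ModularForm.E₄ τ ^ 3) (PowerSeries.map (Int.castRingHom ℂ) EZ) := by
  have h4 := hasExp_mf ModularForm.E₄
  rw [qE4] at h4
  have e : PowerSeries.map (Int.castRingHom ℂ) EZ = (1 + PowerSeries.C 240 * sigS 3) ^ 3 := by
    unfold EZ
    simp only [map_add, map_mul, map_pow, map_ofNat, map_one, PSUM.map_sig]
  rw [e]
  exact h4.pow 3

theorem coeff_EZ : PowerSeries.coeff 0 EZ = 1 := by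
  simp [EZ, sigZ]

theorem coeff_DZ : PowerSeries.coeff 0 DZ = 0 ∧ PowerSeries.coeff 1 DZ = 1 := by
  have h0 : PowerSeries.coeff 0 delS = 0 := by
    rw [delS_eq]
    exact CuspFormClass.qExpansion_coeff_zero CuspForm.discriminant one_pos
      one_mem_strictPeriods_SL
  have h1 := ModularForm.discriminant_qExpansion_coeff_one
  rw [← delS_eq] at h1
  rw [← map_DZ, PowerSeries.coeff_map, eq_intCast] at h0 h1
  exact ⟨by exact_mod_cast h0, by exact_mod_cast h1⟩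

lemma PSUM.cle (F : PowerSeries ℤ) (n : ℕ) : ‖((PowerSeries.coeff n F : ℤ) : ℂ_[p])‖ ≤ 1 :=
  IsUltrametricDist.norm_intCast_le_one _ _

lemma PSUM.eqS (F : PowerSeries ℤ) (Q : ℂ_[p]) :
    psum F Q = TATE.S (fun n ↦ ((PowerSeries.coeff n F : ℤ) : ℂ_[p])) Q := rfl

theorem exists_psumHom (hQ : ‖Q‖ < 1) : ∃ φ : PowerSeries ℤ →+* ℂ_[p],
    (∀ F, φ F = psum F Q) ∧ φ PowerSeries.X = Q := by
  have hs : ∀ F : PowerSeries ℤ,
      Summable fun n ↦ ‖((PowerSeries.coeff n F : ℤ) : ℂ_[p]) * Q ^ n‖ :=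
    fun F ↦ TATE.summ (PSUM.cle F) hQ
  refine ⟨⟨⟨⟨fun F ↦ psum F Q, ?_⟩, ?_⟩, ?_, ?_⟩, fun F ↦ rfl, ?_⟩
  · unfold psum
    rw [tsum_eq_single 0]
    · simp
    · intro n hn
      simp [PowerSeries.coeff_one, hn]
  · intro F G
    unfold psum
    rw [tsum_mul_tsum_eq_tsum_sum_antidiagonal_of_summable_norm (hs F) (hs G)]
    refine tsum_congr fun m ↦ ?_
    rw [PowerSeries.coeff_mul, Int.cast_sum, Finset.sum_mul]
    refine Finset.sum_congr rfl fun x hx ↦ ?_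
    rw [← Finset.HasAntidiagonal.mem_antidiagonal.mp hx, pow_add, Int.cast_mul]
    ring
  · simp [psum]
  · intro F G
    unfold psum
    rw [← (hs F).of_norm.tsum_add (hs G).of_norm]
    refine tsum_congr fun m ↦ ?_
    simp [add_mul]
  · change psum PowerSeries.X Q = Q
    unfold psum
    rw [tsum_eq_single 1]
    · simp
    · intro n hn
      simp [PowerSeries.coeff_X, hn]

lemma PSUM.S_le {c : ℕ → ℂ_[p]} (hc : ∀ n, ‖c n‖ ≤ 1) (hQ : ‖Q‖ < 1) : ‖TATE.S c Q‖ ≤ 1 := by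
  refine IsUltrametricDist.norm_tsum_le_of_forall_le fun n ↦ ?_
  rw [norm_mul, norm_pow]
  exact mul_le_one₀ (hc n) (by positivity) (pow_le_one₀ (norm_nonneg _) hQ.le)

theorem norm_psum_le (hQ : ‖Q‖ < 1) {F : PowerSeries ℤ} {M : ℕ} (h : PowerSeries.X ^ M ∣ F) :
    ‖psum F Q‖ ≤ ‖Q‖ ^ M := by
  obtain ⟨φ, h1, h2⟩ := exists_psumHom hQ
  obtain ⟨G, rfl⟩ := h
  rw [← h1, map_mul, map_pow, h2, norm_mul, norm_pow, h1]
  exact mul_le_of_le_one_right (by positivity) (PSUM.S_le (PSUM.cle G) hQ)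

theorem norm_psum_sub (hQ : ‖Q‖ < 1) (hQ' : ‖Q'‖ < 1) (F : PowerSeries ℤ) :
    ‖psum F Q - psum F Q'‖ ≤ ‖Q - Q'‖ :=
  TATE.norm_S_sub (PSUM.cle F) hQ hQ'

lemma PSUM.norm_unit (hQ : ‖Q‖ < 1) {F : PowerSeries ℤ} (h : PowerSeries.coeff 0 F = 1) :
    ‖psum F Q‖ = 1 :=
  TATE.norm_S (PSUM.cle F) (by simp only [h, Int.cast_one]) hQ

lemma PSUM.exists_V : ∃ V : PowerSeries ℤ, DZ = PowerSeries.X * V ∧ PowerSeries.coeff 0 V = 1 := by
  obtain ⟨V, hV⟩ : PowerSeries.X ∣ DZ := by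
    rw [PowerSeries.X_dvd_iff]
    simpa using coeff_DZ.1
  refine ⟨V, hV, ?_⟩
  have := coeff_DZ.2
  rwa [hV, PowerSeries.coeff_succ_X_mul] at this

lemma PSUM.exists_inv {F : PowerSeries ℤ} (h : PowerSeries.coeff 0 F = 1) :
    ∃ W : PowerSeries ℤ, F * W = 1 ∧ PowerSeries.coeff 0 W = 1 := by
  have h' : PowerSeries.constantCoeff F = ((1 : ℤˣ) : ℤ) := by simpa using h
  refine ⟨_, PowerSeries.mul_invOfUnit F 1 h', ?_⟩
  simp

theorem norm_Dp (hQ : ‖Q‖ < 1) : ‖Dp Q‖ = ‖Q‖ := by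
  obtain ⟨φ, h1, h2⟩ := exists_psumHom hQ
  obtain ⟨V, hV, hV0⟩ := PSUM.exists_V
  rw [Dp, ← h1, hV, map_mul, h2, norm_mul, h1, PSUM.norm_unit hQ hV0, mul_one]

theorem norm_Ep_sub (hQ : ‖Q‖ < 1) : ‖Ep Q - 1‖ ≤ ‖Q‖ := by
  have h := TATE.norm_S_sub (PSUM.cle (p := p) EZ) hQ (Q' := 0) (by simp)
  rw [TATE.S_zero, coeff_EZ, Int.cast_one, sub_zero] at h
  exact h

theorem norm_Ep (hQ : ‖Q‖ < 1) : ‖Ep Q‖ = 1 := PSUM.norm_unit hQ coeff_EZ

theorem norm_Jp (hQ : ‖Q‖ < 1) : ‖Jp Q‖ = ‖Q‖⁻¹ := by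
  rw [Jp, norm_div, norm_Ep hQ, norm_Dp hQ, one_div]

lemma PSUM.exists_J : ∃ J : PowerSeries ℤ, PowerSeries.coeff 0 J = 1 ∧
    ∀ (p : ℕ) [Fact p.Prime] (Q : ℂ_[p]), ‖Q‖ < 1 → Jp Q = psum J Q / Q := by
  obtain ⟨V, hV, hV0⟩ := PSUM.exists_V
  obtain ⟨W, hW, hW0⟩ := PSUM.exists_inv hV0
  refine ⟨EZ * W, ?_, fun p _ Q hQ ↦ ?_⟩
  · have := coeff_EZ
    simp only [PowerSeries.coeff_zero_eq_constantCoeff, map_mul] at this hW0 ⊢
    rw [this, hW0, mul_one]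
  · obtain ⟨φ, h1, h2⟩ := exists_psumHom hQ
    have h3 : φ V * φ W = 1 := by rw [← map_mul, hW, map_one]
    rw [Jp, Ep, Dp, ← h1, ← h1, ← h1, hV, map_mul, map_mul, h2, eq_inv_of_mul_eq_one_right h3,
      div_eq_mul_inv, div_eq_mul_inv, mul_inv]
    ring

theorem Jp_isom (hQ : ‖Q‖ < 1) (hQ' : ‖Q'‖ < 1) : ‖(Jp Q)⁻¹ - (Jp Q')⁻¹‖ = ‖Q - Q'‖ := by
  obtain ⟨J, h0, hJ⟩ := PSUM.exists_J
  rw [hJ p Q hQ, hJ p Q' hQ']
  exact TATE.J_iso (PSUM.cle J) (by simp only [h0, Int.cast_one]) hQ hQ'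

theorem Jp_surj {x : ℂ_[p]} (hx : 1 < ‖x‖) : ∃ Q, Q ≠ 0 ∧ ‖Q‖ < 1 ∧ Jp Q = x := by
  obtain ⟨J, h0, hJ⟩ := PSUM.exists_J
  obtain ⟨Q, h1, h2, h3⟩ := TATE.J_surj (PSUM.cle (p := p) J) (by simp only [h0, Int.cast_one]) hx
  exact ⟨Q, h1, h2, (hJ p Q h2).trans h3⟩

lemma PSUM.trunc (F u : PowerSeries ℤ) (hu : PowerSeries.coeff 0 u = 1) (K : ℕ) :
    ∃ 𝓕 : Polynomial ℤ, 𝓕.natDegree ≤ K ∧
      PowerSeries.X ^ (K + 1) ∣ F - Polynomial.aeval (PowerSeries.X * u) 𝓕 := by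
  induction K with
  | zero =>
    refine ⟨Polynomial.C (PowerSeries.coeff 0 F), by simp, ?_⟩
    rw [zero_add, pow_one, PowerSeries.X_dvd_iff]
    simp
  | succ K ih =>
    obtain ⟨𝓕, h1, G, hG⟩ := ih
    refine ⟨𝓕 + Polynomial.C (PowerSeries.coeff 0 G) * Polynomial.X ^ (K + 1), ?_, ?_⟩
    · refine (Polynomial.natDegree_add_le _ _).trans (max_le (by omega) ?_)
      exact (Polynomial.natDegree_C_mul_le _ _).trans (by simp)
    · have e : F - Polynomial.aeval (PowerSeries.X * u)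
          (𝓕 + Polynomial.C (PowerSeries.coeff 0 G) * Polynomial.X ^ (K + 1)) =
          PowerSeries.X ^ (K + 1) *
            (G - algebraMap ℤ (PowerSeries ℤ) (PowerSeries.coeff 0 G) * u ^ (K + 1)) := by
        rw [map_add, map_mul, map_pow, Polynomial.aeval_C, Polynomial.aeval_X, ← sub_sub, hG]
        ring
      rw [e, pow_succ _ (K + 1)]
      refine mul_dvd_mul_left _ ?_
      rw [PowerSeries.X_dvd_iff]
      simp only [PowerSeries.coeff_zero_eq_constantCoeff] at hu ⊢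
      simp [hu]

lemma PSUM.peel {f : ℍ → ℂ} {P : PowerSeries ℂ} (M : ℕ)
    (h : HasExp 1 (qq 1 ^ M * f) (PowerSeries.X ^ M * P)) : HasExp 1 f P := by
  induction M with
  | zero => simpa using h
  | succ M ih =>
    refine ih (HasExp.of_X_mul ?_)
    rwa [← mul_assoc, ← mul_assoc, ← pow_succ', ← pow_succ']

lemma PSUM.hasExp_sum {ι : Type*} (s : Finset ι) (f : ι → ℍ → ℂ) (P : ι → PowerSeries ℂ)
    (h : ∀ i ∈ s, HasExp 1 (f i) (P i)) : HasExp 1 (∑ i ∈ s, f i) (∑ i ∈ s, P i) := by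
  classical
  induction s using Finset.induction_on with
  | empty => simpa using hasExp_zero 1
  | insert a s ha ih =>
    rw [Finset.sum_insert ha, Finset.sum_insert ha]
    exact (h a (Finset.mem_insert_self _ _)).add
      (ih fun i hi ↦ h i (Finset.mem_insert_of_mem hi))

lemma PSUM.hom_sum {R : Type*} [CommRing R] [Algebra ℤ R] {𝓕 : Polynomial ℤ} {K : ℕ} (h : 𝓕.natDegree ≤ K)
    {x D E : R} (hx : x * E = D) : E ^ K * Polynomial.aeval x 𝓕 =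
      ∑ k ∈ Finset.range (K + 1), (𝓕.coeff k : R) * D ^ k * E ^ (K - k) := by
  rw [Polynomial.aeval_eq_sum_range' (Nat.lt_succ_of_le h), Finset.mul_sum]
  refine Finset.sum_congr rfl fun k hk ↦ ?_
  have hk' : k ≤ K := Nat.lt_succ_iff.mp (Finset.mem_range.mp hk)
  obtain ⟨m, rfl⟩ := Nat.exists_eq_add_of_le hk'
  rw [Nat.add_sub_cancel_left, ← hx, Algebra.smul_def, eq_intCast]
  ring

/-- an integral series is, up to high order, an integer polynomial in `1 / j` -/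
theorem exists_trunc (F : PowerSeries ℤ) (K : ℕ) : ∃ 𝓕 : Polynomial ℤ, 𝓕.natDegree ≤ K ∧
    (∀ φ : ℍ → ℂ, HasExp 1 φ (PowerSeries.map (Int.castRingHom ℂ) F) → ∃ C y0 : ℝ, ∀ τ : ℍ,
      y0 ≤ τ.im → jInv τ ≠ 0 ∧
        ‖φ τ - Polynomial.aeval (jInv τ)⁻¹ 𝓕‖ ≤ C * ‖qq 1 τ‖ ^ (K + 1)) ∧
    ∀ (p : ℕ) [Fact p.Prime] (Q : ℂ_[p]), ‖Q‖ < 1 →
      ‖psum F Q - Polynomial.aeval (Jp Q)⁻¹ 𝓕‖ ≤ ‖Q‖ ^ (K + 1) := by
  obtain ⟨V, hV, hV0⟩ := PSUM.exists_V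
  obtain ⟨W, hW, hW0⟩ := PSUM.exists_inv coeff_EZ
  have hu : PowerSeries.coeff 0 (V * W) = 1 := by
    simp only [PowerSeries.coeff_zero_eq_constantCoeff, map_mul] at hV0 hW0 ⊢
    rw [hV0, hW0, mul_one]
  have hx : PowerSeries.X * (V * W) * EZ = DZ := by
    rw [hV]
    linear_combination (PowerSeries.X * V) * hW
  obtain ⟨𝓕, h1, G, hG⟩ := PSUM.trunc F (V * W) hu K
  refine ⟨𝓕, h1, fun φ hφ ↦ ?_, fun p _ Q hQ ↦ ?_⟩
  · set m := PowerSeries.map (Int.castRingHom ℂ) with hm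
    set E : ℍ → ℂ := fun τ ↦ ModularForm.E₄ τ ^ 3 with hE
    have e1 : m EZ ^ K * m F - ∑ k ∈ Finset.range (K + 1),
        PowerSeries.C (𝓕.coeff k : ℂ) * m DZ ^ k * m EZ ^ (K - k) =
        PowerSeries.X ^ (K + 1) * m (EZ ^ K * G) := by
      have h2 := PSUM.hom_sum h1 hx
      have h3 : EZ ^ K * F - ∑ k ∈ Finset.range (K + 1),
          (𝓕.coeff k : PowerSeries ℤ) * DZ ^ k * EZ ^ (K - k) =
          PowerSeries.X ^ (K + 1) * (EZ ^ K * G) := by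
        rw [← h2, ← mul_sub, hG]
        ring
      have h4 := congrArg m h3
      simp only [map_sub, map_mul, map_pow, map_sum, map_intCast, hm, PowerSeries.map_X] at h4 ⊢
      exact h4
    have h5 := ((hasExp_EZ.pow K).mul hφ).sub (PSUM.hasExp_sum (Finset.range (K + 1))
      (fun k ↦ (fun _ ↦ (𝓕.coeff k : ℂ)) * ModularForm.discriminant ^ k * E ^ (K - k))
      (fun k ↦ PowerSeries.C (𝓕.coeff k : ℂ) * m DZ ^ k * m EZ ^ (K - k))
      fun k _ ↦ ((hasExp_const 1 _).mul (hasExp_DZ.pow k)).mul (hasExp_EZ.pow (K - k)))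
    rw [e1] at h5
    set ψ : ℍ → ℂ := E ^ K * φ - ∑ k ∈ Finset.range (K + 1),
      (fun _ ↦ (𝓕.coeff k : ℂ)) * ModularForm.discriminant ^ k * E ^ (K - k) with hψ
    have e2 : ψ = qq 1 ^ (K + 1) * fun τ ↦ ψ τ / qq 1 τ ^ (K + 1) := by
      funext τ
      have := qq_ne_zero 1 τ
      simp only [Pi.mul_apply, Pi.pow_apply]
      field_simp
    rw [e2] at h5
    obtain ⟨M, A, hM⟩ := isBoundedAtImInfty_iff.mp ((PSUM.peel _ h5).bdd one_pos)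
    have h6 := hasExp_EZ.tendsto one_pos
    rw [PowerSeries.coeff_map, coeff_EZ, map_one] at h6
    have h7 : ∀ᶠ τ in atImInfty, (1 / 2 : ℝ) < ‖E τ‖ :=
      (h6.norm).eventually (lt_mem_nhds (by norm_num))
    obtain ⟨A', hA'⟩ := (atImInfty_mem _).mp h7
    refine ⟨M * 2 ^ K, max A A', fun τ hτ ↦ ?_⟩
    have h8 : (1 / 2 : ℝ) < ‖E τ‖ := hA' τ ((le_max_right _ _).trans hτ)
    have h9 := hM τ ((le_max_left _ _).trans hτ)
    have hE0 : E τ ≠ 0 := norm_pos_iff.mp (by linarith)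
    have hD := ModularForm.discriminant_ne_zero τ
    have hq : 0 < ‖qq 1 τ‖ ^ (K + 1) := pow_pos (norm_pos_iff.mpr (qq_ne_zero 1 τ)) _
    refine ⟨div_ne_zero hE0 hD, ?_⟩
    have hx' : (jInv τ)⁻¹ * E τ = ModularForm.discriminant τ := by
      rw [jInv, inv_div]
      exact div_mul_cancel₀ _ hE0
    have e3 : E τ ^ K * (φ τ - Polynomial.aeval (jInv τ)⁻¹ 𝓕) = ψ τ := by
      rw [mul_sub, PSUM.hom_sum h1 hx', hψ]
      simp [Finset.sum_apply]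
    rw [norm_div, norm_pow, div_le_iff₀ hq, ← e3, norm_mul, norm_pow] at h9
    have h10 : (1 : ℝ) ≤ ‖E τ‖ ^ K * 2 ^ K := by
      rw [← mul_pow]
      exact one_le_pow₀ (by linarith)
    calc ‖φ τ - Polynomial.aeval (jInv τ)⁻¹ 𝓕‖
        ≤ ‖E τ‖ ^ K * 2 ^ K * ‖φ τ - Polynomial.aeval (jInv τ)⁻¹ 𝓕‖ :=
          le_mul_of_one_le_left (norm_nonneg _) h10
      _ = ‖E τ‖ ^ K * ‖φ τ - Polynomial.aeval (jInv τ)⁻¹ 𝓕‖ * 2 ^ K := by ring
      _ ≤ M * ‖qq 1 τ‖ ^ (K + 1) * 2 ^ K := by gcongr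
      _ = _ := by ring
  · obtain ⟨φ, h2, h3⟩ := exists_psumHom hQ
    have hE : Ep Q ≠ 0 := norm_pos_iff.mp (by rw [norm_Ep hQ]; exact one_pos)
    have h4 : φ (PowerSeries.X * (V * W)) = (Jp Q)⁻¹ := by
      rw [Jp, inv_div, eq_div_iff hE, Ep, Dp, ← h2, ← h2, ← map_mul, hx]
    have h5 : φ (Polynomial.aeval (PowerSeries.X * (V * W)) 𝓕) =
        Polynomial.aeval (Jp Q)⁻¹ 𝓕 := by
      rw [← h4, Polynomial.aeval_def, Polynomial.aeval_def, Polynomial.hom_eval₂]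
      congr 1
      exact RingHom.ext_int _ _
    rw [← h5, ← h2, ← map_sub, h2]
    exact norm_psum_le hQ ⟨G, hG⟩

lemma PSUM.S_succ {c : ℕ → ℂ_[p]} (hc : ∀ n, ‖c n‖ ≤ 1) (hQ : ‖Q‖ < 1) :
    TATE.S c Q = c 0 + Q * TATE.S (fun n ↦ c (n + 1)) Q := by
  unfold TATE.S
  rw [(TATE.summ hc hQ).of_norm.tsum_eq_zero_add, ← tsum_mul_left]
  congr 1
  · simp
  · exact tsum_congr fun n ↦ by ring

lemma PSUM.divide {c : ℕ → ℂ_[p]} (hc : ∀ n, ‖c n‖ ≤ 1) {a : ℂ_[p]} (ha : ‖a‖ < 1) :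
    ∃ c' : ℕ → ℂ_[p], (∀ n, ‖c' n‖ ≤ 1) ∧ TATE.S c a = c 0 + a * c' 0 ∧
      ∀ x, ‖x‖ < 1 → TATE.S c x - TATE.S c a = (x - a) * TATE.S c' x := by
  set c' : ℕ → ℂ_[p] := fun n ↦ TATE.S (fun k ↦ c (k + (n + 1))) a with hc'
  have h1 : ∀ n, ‖c' n‖ ≤ 1 := fun n ↦ PSUM.S_le (fun k ↦ hc _) ha
  have h2 : TATE.S c a = c 0 + a * c' 0 := PSUM.S_succ hc ha
  have h3 : ∀ n, c' n = c (n + 1) + a * c' (n + 1) := by
    intro n
    have := PSUM.S_succ (c := fun k ↦ c (k + (n + 1))) (fun k ↦ hc _) ha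
    simp only [zero_add] at this
    simp only [hc']
    rw [this]
    congr 3
    funext k
    congr 1
    ring
  refine ⟨c', h1, h2, fun x hx ↦ ?_⟩
  have h4 := PSUM.S_succ hc hx
  have h5 := PSUM.S_succ h1 hx
  have h6 : TATE.S c' x = TATE.S (fun n ↦ c (n + 1)) x + a * TATE.S (fun n ↦ c' (n + 1)) x := by
    unfold TATE.S
    rw [← tsum_mul_left, ← (TATE.summ (fun n ↦ hc (n + 1)) hx).of_norm.tsum_add
      ((TATE.summ (fun n ↦ h1 (n + 1)) hx).of_norm.mul_left a)]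
    refine tsum_congr fun n ↦ ?_
    rw [h3 n]
    ring
  linear_combination h4 - h2 + a * h5 - x * h6

lemma PSUM.interp (hQ0 : Q ≠ 0) (hQ : ‖Q‖ < 1) (S : ℕ) : ∀ (c : ℕ → ℂ_[p]) (ε : ℝ),
    (∀ n, ‖c n‖ ≤ 1) → 0 ≤ ε → (∀ n, 1 ≤ n → n ≤ S → ‖TATE.S c (Q ^ n)‖ ≤ ε) →
    ‖c 0‖ ≤ max (ε / ‖Q‖ ^ (S ^ 2)) (‖Q‖ ^ (S * (S + 1) / 2)) := by
  have hq : 0 < ‖Q‖ := norm_pos_iff.mpr hQ0
  have hpow : ∀ n, 1 ≤ n → ‖Q ^ n‖ < 1 := fun n hn ↦ by
    rw [norm_pow]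
    exact pow_lt_one₀ hq.le hQ (by omega)
  induction S with
  | zero => exact fun c ε hc _ _ ↦ (hc 0).trans (le_max_of_le_right (by simp))
  | succ S ih =>
    intro c ε hc hε h
    obtain ⟨c', h1, h2, h3⟩ := PSUM.divide hc (hpow (S + 1) (by omega))
    have ha := h (S + 1) (by omega) le_rfl
    have h4 := ih c' (ε / ‖Q‖ ^ S) h1 (by positivity) fun n hn hn' ↦ by
      have h5 := h3 _ (hpow n hn)
      have h6 : ‖Q ^ n - Q ^ (S + 1)‖ = ‖Q‖ ^ n := by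
        rw [sub_eq_add_neg, TATE.norm_add_eq_left, norm_pow]
        rw [norm_neg, norm_pow, norm_pow]
        exact pow_lt_pow_right_of_lt_one₀ hq hQ (by omega)
      have h7 : ‖Q‖ ^ n * ‖TATE.S c' (Q ^ n)‖ ≤ ε := by
        rw [← h6, ← norm_mul, ← h5, sub_eq_add_neg]
        refine (IsUltrametricDist.norm_add_le_max _ _).trans (max_le (h n hn (by omega)) ?_)
        rwa [norm_neg]
      rw [le_div_iff₀ (by positivity)]
      refine le_trans ?_ h7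
      rw [mul_comm]
      exact mul_le_mul_of_nonneg_right (pow_le_pow_of_le_one hq.le hQ.le hn') (norm_nonneg _)
    have e : c 0 = TATE.S c (Q ^ (S + 1)) + -(Q ^ (S + 1) * c' 0) := by
      rw [h2]
      ring
    have h8 : ∀ m, ε ≤ ε / ‖Q‖ ^ m := fun m ↦
      le_div_self hε (by positivity) (pow_le_one₀ hq.le hQ.le)
    rw [e]
    refine (IsUltrametricDist.norm_add_le_max _ _).trans (max_le
      (le_max_of_le_left (ha.trans (h8 _))) ?_)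
    rw [norm_neg, norm_mul, norm_pow]
    rcases le_max_iff.mp h4 with h9 | h9
    · refine le_max_of_le_left ?_
      refine (mul_le_of_le_one_left (norm_nonneg _) (pow_le_one₀ hq.le hQ.le)).trans
        (h9.trans ?_)
      rw [div_div, ← pow_add]
      exact div_le_div_of_nonneg_left hε (pow_pos hq _)
        (pow_le_pow_of_le_one hq.le hQ.le (by nlinarith))
    · refine le_max_of_le_right ?_
      have e2 : (S + 1) * (S + 1 + 1) / 2 = (S + 1) + S * (S + 1) / 2 := by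
        rw [show (S + 1) * (S + 1 + 1) = S * (S + 1) + (S + 1) * 2 by ring,
          Nat.add_mul_div_right _ _ two_pos, add_comm]
      rw [e2, pow_add ‖Q‖ (S + 1) (S * (S + 1) / 2)]
      exact mul_le_mul_of_nonneg_left h9 (pow_pos hq _).le

/-- ultrametric Schwarz lemma with approximate zeros at `Q, Q^2, ..., Q^S` -/
theorem padic_interp (G : PowerSeries ℤ) (hQ0 : Q ≠ 0) (hQ : ‖Q‖ < 1) (S : ℕ) {ε : ℝ}
    (hε : 0 ≤ ε) (h : ∀ n, 1 ≤ n → n ≤ S → ‖psum G (Q ^ n)‖ ≤ ε) :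
    ‖((PowerSeries.coeff 0 G : ℤ) : ℂ_[p])‖ ≤
      max (ε / ‖Q‖ ^ (S ^ 2)) (‖Q‖ ^ (S * (S + 1) / 2)) :=
  PSUM.interp hQ0 hQ S _ ε (PSUM.cle G) hε h

end PSUM

end Pool.Agent.Lib.ZP3
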