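import Pool.Agent.Lib.ZP3.TaylorA
import Pool.Agent.Lib.ZP3.HeightIso
import Pool.Agent.Lib.ZP3.Chart2
import Pool.Agent.Lib.ZP3.Curve2
import Pool.Agent.Lib.ZP3.Psum
import Pool.Agent.Lib.ZP3.AxFinal

/-! Taylor expansions at a common pole have algebraic coefficients. -/

set_option linter.unusedSectionVars false

open UpperHalfPlane Filter Topology Metric Asymptotics
open scoped Real MatrixGroups

namespace Pool.Agent.Lib.ZP3

open Pool.Agent.Lib.MP_0704bf_ag Pool.Agent.Lib.helper6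

variable {κ : Type} [Fintype κ] [DecidableEq κ] {A B : κ → Polynomial ℂ}
  {P : ℂ} {E : ℕ} {m : κ → ℕ} {r : ℝ} {g : κ → ℂ → ℂ} {i j : κ}

namespace TAY

/-- the local parameter at the cusp as a function of `u` -/
noncomputable def qf (m : κ → ℕ) (g : κ → ℂ → ℂ) (i : κ) (u : ℂ) : ℂ :=
  u ^ m i * Complex.exp (2 * π * Complex.I * g i u)

theorem qq_cf (hc : CuspD A B P E m r g) (hi : 0 < m i) {w : ℂ} (hw : ‖Complex.exp w‖ < r) :
    qq 1 (ofComplex (cf m g i w)) = qf m g i (Complex.exp w) := by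
  have h : 0 < (cf m g i w).im := one_pos.trans_le (((hc.inf w hw).2 i).1 hi)
  have h2 := Complex.two_pi_I_ne_zero
  rw [ofComplex_apply_of_im_pos h, qf, ← Complex.exp_nat_mul, ← Complex.exp_add]
  simp only [qq, Function.Periodic.qParam, coe_mk, cf]
  congr 1
  push_cast
  field_simp

theorem an_eps (hc : CuspD A B P E m r g) (i : κ) :
    AnalyticAt ℂ (fun u ↦ Complex.exp (2 * π * Complex.I * g i u)) 0 :=
  (analyticAt_const.mul (hc.an i 0 (mem_ball_self hc.hr))).cexp'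

theorem an_qf (hc : CuspD A B P E m r g) (i : κ) : AnalyticAt ℂ (qf m g i) 0 :=
  (analyticAt_id.pow _).mul (an_eps hc i)

theorem qf_zero (hi : 0 < m i) : qf m g i 0 = 0 := by simp [qf, hi.ne']

theorem ap_arg (h : Nice A B) (hB : AlgK B) (hc : CuspD A B P E m r g) (hi : 0 < m i) {K : ℕ} :
    AP K fun u ↦ P + u ^ E :=
  (ap_const (HBF.alg_root (hB i) (h.ne_zero i) ((hc.pole i).1 hi))).add (ap_id.pow E)

theorem ap_approx (h : Nice A B) (hA : AlgK A) (hB : AlgK B) (hc : CuspD A B P E m r g)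
    (hi : 0 < m i) {F : PowerSeries ℤ} {φ : ℍ → ℂ}
    (hφ : HasExp 1 φ (PowerSeries.map (Int.castRingHom ℂ) F)) {Φ : ℂ → ℂ} (hΦ : AnalyticAt ℂ Φ 0)
    (e : ∀ w, ‖Complex.exp w‖ < r → Φ (Complex.exp w) = φ (ofComplex (cf m g i w))) (K : ℕ) :
    AP K Φ := by
  obtain ⟨𝓕, -, h1, -⟩ := exists_trunc F K
  obtain ⟨C, y0, h2⟩ := h1 φ hφ
  have h3 : AP (K + 1) fun u ↦ (B i).eval (P + u ^ E) * ((A i).eval (P + u ^ E))⁻¹ :=
    ((ap_arg h hB hc hi).eval (hB i)).mul (((ap_arg h hB hc hi).eval (hA i)).inv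
      (by simpa [hc.hE.ne'] using h.eval_ne ((hc.pole i).1 hi)))
  refine ((h3.aeval 𝓕).approx hΦ ?_).mono
  have h4 : qf m g i =O[𝓝 0] fun u : ℂ ↦ u := by
    simpa [qf_zero hi] using (an_qf hc i).differentiableAt.isBigO_sub
  refine IsBigO.trans (IsBigO.of_bound C ?_) ((h4.pow (K + 1)).mono nhdsWithin_le_nhds)
  have h5 : ∀ᶠ u in 𝓝 (0 : ℂ), ‖qf m g i u‖ < Real.exp (-2 * π * y0) :=
    (an_qf hc i).continuousAt.norm.eventually_lt continuousAt_const
      (by simpa [qf_zero hi] using Real.exp_pos _)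
  filter_upwards [self_mem_nhdsWithin, nhdsWithin_le_nhds (ball_mem_nhds 0 hc.hr),
    nhdsWithin_le_nhds h5] with u hu0 hu hq
  obtain ⟨w, rfl⟩ : ∃ w, Complex.exp w = u := ⟨_, Complex.exp_log hu0⟩
  rw [mem_ball_zero_iff] at hu
  have h6 := qq_cf hc hi hu
  have h7 : y0 ≤ (ofComplex (cf m g i w)).im := by
    change ‖qf m g i (Complex.exp w)‖ < _ at hq
    rw [← h6, Function.Periodic.norm_qParam, Real.exp_lt_exp, coe_im] at hq
    nlinarith [Real.pi_pos]
  have h8 := (h2 _ h7).2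
  rw [h6, ← e w hu, show jInv (ofComplex (cf m g i w)) = _ from ((hc.inf w hu).2 i).2, xk,
    inv_div, div_eq_mul_inv] at h8
  rwa [norm_pow]

theorem ap_eps (h : Nice A B) (hA : AlgK A) (hB : AlgK B) (hc : CuspD A B P E m r g)
    (hi : 0 < m i) (K : ℕ) : AP K fun u ↦ Complex.exp (2 * π * Complex.I * g i u) :=
  (ap_approx h hA hB hc hi (F := PowerSeries.X) (by simpa using hasExp_qq 1) (an_qf hc i)
    (fun w hw ↦ (qq_cf hc hi hw).symm) (K + m i)).div (an_eps hc i) .rfl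

theorem exists_E (h : Nice A B) (hA : AlgK A) (hB : AlgK B) (hc : CuspD A B P E m r g)
    (hi : 0 < m i) : ∃ Φ : ℂ → ℂ, (∀ K, AP K Φ) ∧ Φ 0 = 1 ∧ ∀ w, ‖Complex.exp w‖ < r →
      dc (cf m g i w) * (A i).eval (P + Complex.exp w ^ E) =
        Φ (Complex.exp w) * (B i).eval (P + Complex.exp w ^ E) := by
  have h1 := (hasExp_EZ.summable_ball one_pos).hasFPowerSeriesAt
  set S := (FormalMultilinearSeries.ofScalars ℂ fun n ↦
    PowerSeries.coeff n (PowerSeries.map (Int.castRingHom ℂ) EZ)).sum with hS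
  have e (w : ℂ) (hw : ‖Complex.exp w‖ < r) : S (qf m g i (Complex.exp w)) =
      ModularForm.E₄ (ofComplex (cf m g i w)) ^ 3 := by
    rw [← qq_cf hc hi hw, hS, ← hasExp_EZ.eq_sum one_pos]
  refine ⟨fun u ↦ S (qf m g i u), ap_approx h hA hB hc hi hasExp_EZ
    (h1.analyticAt.fun_comp_of_eq (an_qf hc i) (qf_zero hi)) e, ?_, fun w hw ↦ ?_⟩
  · have := h1.coeff_zero fun _ ↦ 1
    simp only [qf_zero hi, ← this]
    simp [coeff_EZ, -PowerSeries.coeff_zero_eq_constantCoeff]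
  · simp only [e w hw, ← dc_mul_jc, ((hc.inf w hw).2 i).2, xk]
    rw [mul_assoc, div_mul_cancel₀ _ ((hc.inf w hw).1 i)]

end TAY

open TAY

theorem cusp_G (h : Nice A B) (hA : AlgK A) (hB : AlgK B) (hN : NoMod A B)
    (hc : CuspD A B P E m r g) (hij : i ≠ j) (hi : 0 < m i) (hj : 0 < m j) :
    ∃ (e : ℕ) (r' : ℝ) (ρ : ℂ → ℂ), 0 < e ∧ 0 < r' ∧ r' ≤ r ∧ AnalyticOnNhd ℂ ρ (ball 0 r') ∧
      ρ 0 ≠ 0 ∧ IsAlgebraic ℚ (ρ 0) ∧ ∀ w : ℂ, ‖Complex.exp w‖ < r' →
        dc (cf m g j w) * (B i).eval (P + Complex.exp w ^ E) =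
          (A i).eval P / (A j).eval P * (1 + Complex.exp w ^ e * ρ (Complex.exp w)) ^ 12 *
            (dc (cf m g i w) * (B j).eval (P + Complex.exp w ^ E)) := by
  obtain ⟨Φ, a1, a2, a3⟩ := exists_E h hA hB hc hi
  obtain ⟨Ψ, b1, b2, b3⟩ := exists_E h hA hB hc hj
  have hAi := h.eval_ne ((hc.pole i).1 hi)
  have hAj := h.eval_ne ((hc.pole j).1 hj)
  have hE := hc.hE.ne'
  have c1 (l : κ) (K : ℕ) : AP K fun u ↦ (A l).eval (P + u ^ E) := (ap_arg h hB hc hi).eval (hA l)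
  have c2 (l : κ) : IsAlgebraic ℚ ((A l).eval P) := by simpa [hE] using (c1 l 1).val
  set D : ℂ → ℂ := fun u ↦ Φ u * (A j).eval (P + u ^ E) * (A i).eval P with hD
  have hD1 (K : ℕ) : AP K D := ((a1 K).mul (c1 j K)).mul (ap_const (c2 i))
  have hD0 : D 0 ≠ 0 := by simp [hD, hE, a2, hAi, hAj]
  set H : ℂ → ℂ := fun u ↦ Ψ u * (A i).eval (P + u ^ E) * (A j).eval P * (D u)⁻¹ with hH
  have hH1 (K : ℕ) : AP K H := (((b1 K).mul (c1 i K)).mul (ap_const (c2 j))).mul ((hD1 K).inv hD0)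
  have hH0 : H 0 = 1 := by
    simp only [hH, hD, a2, b2, zero_pow hE, add_zero]
    field_simp
  have ev : ∀ᶠ u in 𝓝 (0 : ℂ), u ∈ ball 0 r ∧ AnalyticAt ℂ H u ∧ H u ∈ Complex.slitPlane ∧
      D u ≠ 0 ∧ (A i).eval (P + u ^ E) ≠ 0 :=
    Eventually.and (ball_mem_nhds 0 hc.hr) ((hH1 0).an.eventually_analyticAt.and
      (Eventually.and ((hH1 0).an.continuousAt.preimage_mem_nhds
        (Complex.isOpen_slitPlane.mem_nhds (hH0 ▸ Complex.one_mem_slitPlane)))
      (((hD1 0).an.continuousAt.eventually_ne hD0).and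
        ((c1 i 0).an.continuousAt.eventually_ne (by simpa [hE] using hAi)))))
  obtain ⟨s, hs, hev⟩ := eventually_nhds_iff_ball.1 ev
  have hs' : 0 < min s r := lt_min hs hc.hr
  replace hev (u : ℂ) (hu : u ∈ ball (0 : ℂ) (min s r)) :=
    (hev u (ball_subset_ball (min_le_left _ _) hu)).2
  have hpow (u : ℂ) (hu : u ∈ ball (0 : ℂ) (min s r)) :
      Complex.exp (Complex.log (H u) / 12) ^ 12 = H u := by
    rw [← Complex.exp_nat_mul, Nat.cast_ofNat, mul_div_cancel₀ _ (by norm_num),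
      Complex.exp_log (Complex.slitPlane_ne_zero (hev u hu).2.1)]
  have key (w : ℂ) (hw : ‖Complex.exp w‖ < min s r) :
      dc (cf m g j w) * (B i).eval (P + Complex.exp w ^ E) =
        (A i).eval P / (A j).eval P * H (Complex.exp w) *
          (dc (cf m g i w) * (B j).eval (P + Complex.exp w ^ E)) := by
    obtain ⟨-, -, h1, h2⟩ := hev _ (mem_ball_zero_iff.2 hw)
    have h3 := a3 w (hw.trans_le (min_le_right _ _))
    have h4 := b3 w (hw.trans_le (min_le_right _ _))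
    simp only [hD, mul_ne_zero_iff] at h1
    obtain ⟨⟨h5, h6⟩, -⟩ := h1
    simp only [hH, hD]
    rw [← eq_div_iff h2] at h3
    rw [← eq_div_iff h6] at h4
    rw [h3, h4]
    field_simp
  obtain ⟨e, ρ, he, hρ, hρ0, hf⟩ := factor (f := fun u ↦ Complex.exp (Complex.log (H u) / 12) - 1)
    hs' (fun u hu ↦ ((((hev u hu).1.clog (hev u hu).2.1).div_const).cexp').sub analyticAt_const)
    (by simp [hH0]) fun hz ↦ ax_disc h hN (hc.mono hs' (min_le_right _ _)).isChart hij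
      ((A i).eval P / (A j).eval P) fun w hw ↦ by
        have hu := mem_ball_zero_iff.2 (show ‖Complex.exp w‖ < min s r from hw)
        rw [key w hw, ← hpow _ hu, sub_eq_zero.1 (hz _ hu), one_pow, mul_one]
  have hH2 (u : ℂ) (hu : u ∈ ball (0 : ℂ) (min s r)) : H u = (1 + u ^ e * ρ u) ^ 12 := by
    rw [← hpow u hu, ← hf u hu, add_sub_cancel]
  have hρa := hρ 0 (mem_ball_self hs')
  refine ⟨e, min s r, ρ, he, hs', min_le_right _ _, hρ, hρ0, ?_, fun w hw ↦ by
    rw [key w hw, hH2 _ (mem_ball_zero_iff.2 hw)]⟩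
  have := (((hH1 (1 + e)).sub (ap_const isAlgebraic_one)).div
    (ψ := fun u ↦ ρ u * ∑ k ∈ Finset.range 12, (1 + u ^ e * ρ u) ^ k)
    (hρa.mul (Finset.analyticAt_fun_sum _ fun k _ ↦
      (analyticAt_const.add ((analyticAt_id.pow e).mul hρa)).pow k)) (by
      filter_upwards [ball_mem_nhds 0 hs'] with u hu
      rw [hH2 u hu, ← mul_geom_sum]
      ring)).val
  have h12 : IsAlgebraic ℚ (12 : ℂ)⁻¹ := (isAlgebraic_natCast 12).inv
  simpa [he.ne'] using this.mul h12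

theorem cusp_g (h : Nice A B) (hA : AlgK A) (hB : AlgK B) (hN : NoMod A B)
    (hc : CuspD A B P E m r g) (hij : i ≠ j) (hi : 0 < m i) (hj : 0 < m j) :
    ∃ (l : ℂ) (e : ℕ) (g1 : ℂ → ℂ), 0 < e ∧ AnalyticOnNhd ℂ g1 (ball 0 r) ∧ g1 0 ≠ 0 ∧
      IsAlgebraic ℚ (Complex.exp (2 * π * Complex.I * l)) ∧
      IsAlgebraic ℚ (2 * π * Complex.I * g1 0) ∧
      ∀ u ∈ ball (0 : ℂ) r, m i * g j u - m j * g i u = l + u ^ e * g1 u := by
  set l : ℂ := m i * g j 0 - m j * g i 0 with hl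
  obtain ⟨e, g1, he, h1, h2, h3⟩ := factor (f := fun u ↦ m i * g j u - m j * g i u - l) hc.hr
    (fun u hu ↦ ((analyticAt_const.mul (hc.an j u hu)).sub
      (analyticAt_const.mul (hc.an i u hu))).sub analyticAt_const) (by simp [hl]) fun hz ↦ by
      have := ax_indep h hN hc.isChart (MvPolynomial.C (m i : ℂ) * MvPolynomial.X j -
        MvPolynomial.C (m j : ℂ) * MvPolynomial.X i - MvPolynomial.C l) fun w hw ↦ by
        have := hz _ (mem_ball_zero_iff.2 (show ‖Complex.exp w‖ < r from hw))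
        simp only [map_sub, map_mul, MvPolynomial.eval_C, MvPolynomial.eval_X, cf]
        linear_combination this
      have e0 := congrArg (MvPolynomial.eval (0 : κ → ℂ)) this
      have e1 := congrArg (MvPolynomial.eval (Pi.single j 1 : κ → ℂ)) this
      simp [hij] at e0 e1
      simp [e0, hi.ne'] at e1
  have h4 (u : ℂ) (hu : u ∈ ball (0 : ℂ) r) : m i * g j u - m j * g i u = l + u ^ e * g1 u := by
    linear_combination h3 u hu
  have h5 (K : ℕ) : AP K fun u ↦ Complex.exp (2 * π * Complex.I * (m i * g j u - m j * g i u)) := by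
    refine (((ap_eps h hA hB hc hj K).pow (m i)).mul (((ap_eps h hA hB hc hi K).pow (m j)).inv
      (pow_ne_zero _ (Complex.exp_ne_zero _)))).congr (.of_forall fun u ↦ ?_)
    simp only [← Complex.exp_nat_mul, ← Complex.exp_neg, ← Complex.exp_add]
    congr 1
    ring
  have h6 : IsAlgebraic ℚ (Complex.exp (2 * π * Complex.I * l)) := (h5 1).val
  have h7 := h1 0 (mem_ball_self hc.hr)
  refine ⟨l, e, g1, he, h1, h2, h6, ?_, h4⟩
  have := ((((h5 (1 + e)).mul (ap_const h6.inv)).sub (ap_const isAlgebraic_one)).div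
    (ψ := fun u ↦ 2 * π * Complex.I * g1 u *
      dslope Complex.exp 0 (u ^ e * (2 * π * Complex.I * g1 u)))
    ((analyticAt_const.mul h7).mul ((an_dslope analyticAt_cexp).fun_comp_of_eq
      ((analyticAt_id.pow e).mul (analyticAt_const.mul h7)) (by simp [he.ne']))) (by
      filter_upwards [ball_mem_nhds 0 hc.hr] with u hu
      have := sub_smul_dslope Complex.exp 0 (u ^ e * (2 * π * Complex.I * g1 u))
      rw [sub_zero, smul_eq_mul, Complex.exp_zero] at this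
      rw [← mul_assoc, this, h4 u hu, ← Complex.exp_neg, ← Complex.exp_add]
      congr 2
      ring)).val
  simpa [he.ne'] using this

end Pool.Agent.Lib.ZP3
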