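import Pool.Agent.Lib.ZP3.ArchBA
import Pool.Agent.Lib.ZP3.Ent
import Pool.Agent.Lib.ZP3.Curve2
import Pool.Agent.Lib.ZP3.Chart2
import Pool.Agent.Lib.ZP3.Taylor

/-! Block ARCHB: archimedean distance to a common pole. -/

open UpperHalfPlane Filter Topology Metric
open scoped Real MatrixGroups

namespace Pool.Agent.Lib.ZP3

open Pool.Agent.Lib.MP_0704bf_ag Pool.Agent.Lib.helper6 HBF

namespace ARCHB

theorem exists_radius {ρ γ : ℂ → ℂ} (hρ : AnalyticAt ℂ ρ 0) (hγ : AnalyticAt ℂ γ 0)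
    (ρ0 : ρ 0 ≠ 0) (γ0 : γ 0 ≠ 0) {e : ℕ} (he : 0 < e) {r : ℝ} (hr : 0 < r) :
    ∃ r0 K : ℝ, 0 < r0 ∧ ∀ u : ℂ, ‖u‖ < r0 → ‖u‖ < r ∧ ‖u‖ ≤ 1 ∧ ‖ρ u - ρ 0‖ ≤ K * ‖u‖ ∧
      ‖ρ u - ρ 0‖ ≤ ‖ρ 0‖ / 2 ∧ ‖γ u - γ 0‖ ≤ K * ‖u‖ ∧ ‖γ u - γ 0‖ ≤ ‖γ 0‖ / 2 ∧
      ‖u ^ e * ρ u‖ ≤ 1 / 2 := by
  obtain ⟨K1, h1⟩ := lip_of_differentiableAt hρ.differentiableAt
  obtain ⟨K2, h2⟩ := lip_of_differentiableAt hγ.differentiableAt
  have h3 := hρ.continuousAt.eventually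
    (closedBall_mem_nhds (ρ 0) (half_pos (norm_pos_iff.2 ρ0)))
  have h4 := hγ.continuousAt.eventually
    (closedBall_mem_nhds (γ 0) (half_pos (norm_pos_iff.2 γ0)))
  have c5 : ContinuousAt (fun u : ℂ ↦ u ^ e * ρ u) 0 :=
    (continuousAt_id.pow e).mul hρ.continuousAt
  have h5 := c5.eventually (closedBall_mem_nhds _ (show (0 : ℝ) < 1 / 2 by norm_num))
  have h6 : ∀ᶠ u in 𝓝 (0 : ℂ), u ∈ ball (0 : ℂ) (min r 1) :=
    ball_mem_nhds _ (lt_min hr one_pos)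
  obtain ⟨r0, h0, h⟩ := Metric.eventually_nhds_iff.1 (h1.and (h2.and (h3.and (h4.and (h5.and h6)))))
  refine ⟨r0, max K1 K2, h0, fun u hu ↦ ?_⟩
  obtain ⟨a1, a2, a3, a4, a5, a6⟩ := h (show dist u 0 < r0 by simpa using hu)
  rw [mem_ball_zero_iff, lt_min_iff] at a6
  refine ⟨a6.1, a6.2.le, a1.trans (mul_le_mul_of_nonneg_right (le_max_left _ _) (norm_nonneg _)),
    by simpa [dist_eq_norm] using a3,
    a2.trans (mul_le_mul_of_nonneg_right (le_max_right _ _) (norm_nonneg _)),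
    by simpa [dist_eq_norm] using a4, ?_⟩
  simpa [dist_eq_norm, he.ne'] using a5

variable {κ : Type} [Fintype κ] [DecidableEq κ] {A B : κ → Polynomial ℂ} {P : ℂ} {i j : κ}

theorem family (h : Nice A B) (hA : AlgK A) (hB : AlgK B) (hN : NoMod A B) (hij : i ≠ j)
    (hi : (B i).eval P = 0) (hj : (B j).eval P = 0) {ι : Type} (t U : ι → ℂ) (a N : ι → ℕ)
    (h1 : ∀ s, NPk B (t s)) (h2 : ∀ s, 0 < N s)
    (h3 : ∀ s, Isog (N s) (xk A B (t s) i) (xk A B (t s) j) (U s))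
    (h4 : ∀ s, (N s : ℝ) ≤ Real.exp (a s))
    (h5 : ∀ s, Sm (U s * (B i).eval (t s) / (B j).eval (t s)) (a s)) :
    LB a fun s ↦ ‖t s - P‖ := by
  obtain ⟨E, m, r, g, hc⟩ := exists_cuspD h P
  have mi : 0 < m i := (hc.pole i).2 hi
  have mj : 0 < m j := (hc.pole j).2 hj
  obtain ⟨e, r', ρ, he, hr', hr'r, aρ, ρ0, algρ, hG⟩ := cusp_G h hA hB hN hc hij mi mj
  obtain ⟨l, e', γ, he', aγ, γ0, hl, algγ, hg⟩ := cusp_g h hA hB hN hc hij mi mj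
  obtain ⟨K0, hK0, hb⟩ := hc.bounds
  obtain ⟨r0, K, hr0, hrad⟩ := exists_radius (aρ 0 (mem_ball_self hr')) (aγ 0 (mem_ball_self hc.hr))
    ρ0 γ0 he (lt_min hr' (half_pos hc.hr))
  have ha : ∀ s, 1 ≤ a s := fun s ↦ (h5 s).one_le
  have hne : ∀ s, t s ≠ P := fun s e ↦ h1 s i (by rw [e, hi])
  choose w hw1 hw2 hw3 using fun s ↦ exists_w hc.hE (hne s)
  suffices H : LB a fun s ↦ ‖Complex.exp (w s)‖ from (H.pow E).mono fun s ↦ (hw3 s).le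
  refine LB.of_small ha hr0 ?_
  set J := {s // ‖Complex.exp (w s)‖ < r0}
  have hs := fun s : J ↦ hrad _ s.2
  have hs1 : ∀ s : J, ‖Complex.exp (w s.1)‖ < r' := fun s ↦ (lt_min_iff.1 (hs s).1).1
  have hs2 : ∀ s : J, ‖Complex.exp (w s.1)‖ ≤ r / 2 := fun s ↦ (lt_min_iff.1 (hs s).1).2.le
  have hs3 : ∀ s : J, ‖Complex.exp (w s.1)‖ < r := fun s ↦ (hs1 s).trans_le hr'r
  have im : ∀ (s : J) (k : κ), 0 < m k → 1 ≤ (cf m g k (w s.1)).im :=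
    fun s k hk ↦ ((hc.inf _ (hs3 s)).2 k).1 hk
  have jj : ∀ (s : J) (k : κ), jc (cf m g k (w s.1)) = xk A B (t s.1) k := fun s k ↦ by
    rw [((hc.inf _ (hs3 s)).2 k).2, hw2]
  have lift : ∀ s : J, ∃ p b c d : ℤ, p * d - b * c = N s.1 ∧
      Mob p b c d (cf m g i (w s.1)) (cf m g j (w s.1)) ∧
      U s.1 * dc (cf m g i (w s.1)) =
        (p - c * cf m g j (w s.1)) ^ 12 * dc (cf m g j (w s.1)) := fun s ↦
    Isog.lift_c (by linarith [im s i mi]) (by linarith [im s j mj]) (by rw [jj, jj]; exact h3 s.1)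
  choose p b c d hd hm hU using lift
  have haJ : ∀ s : J, 1 ≤ a s.1 := fun s ↦ ha s.1
  have bnd := fun s : J ↦ hb (w s.1) (hs2 s) ((hw1 s.1).trans (by linarith [Real.pi_le_four]))
  have ent := fun s : J ↦ mob_entries2 (hm s) (hd s) (h2 s.1) hK0 (bnd s i).1 (bnd s j).1
    (bnd s i).2.1 (bnd s j).2.1
  have eN : EB (fun s : J ↦ a s.1) fun s ↦ (N s.1 : ℝ) := EB.exp_self.mono fun s ↦ h4 s.1
  have eE : EB (fun s : J ↦ a s.1) fun s ↦ 48 * (N s.1 : ℝ) ^ 5 * K0 ^ 4 :=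
    ((EB.const 48).mul haJ (eN.pow (fun _ ↦ Nat.cast_nonneg _) 5) fun _ ↦ by positivity).mul haJ
      (EB.const _) fun _ ↦ by positivity
  have algP : IsAlgebraic ℚ P := (hB i).alg_root (h.ne_zero i) hi
  have Ai := h.eval_ne hi
  have Aj := h.eval_ne hj
  have sf : SF (fun s : J ↦ a s.1) fun s ↦
      (p s - c s * cf m g j (w s.1)) * (1 + Complex.exp (w s.1) ^ e * ρ (Complex.exp (w s.1))) := by
    refine SF.root (SF.mul haJ (SF.self fun s : J ↦ h5 s.1)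
      (SF.const (((hA j).alg_eval algP).mul ((hA i).alg_eval algP).inv))) (n := 12) (by norm_num)
      fun s ↦ ?_
    have e1 := hG _ (hs1 s)
    rw [hw2] at e1
    have e2 := hU s
    have n1 := dc_ne_zero (cf m g i (w s.1))
    have n2 := h1 s.1 j
    rw [mul_pow]
    field_simp
    field_simp at e1
    apply mul_left_cancel₀ n1
    linear_combination (-(p s - c s * cf m g j (w s.1)) ^ 12) * e1 -
      ((B i).eval (t s.1) * (A j).eval P) * e2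
  let D : Data J (m i) (m j) e e' l (ρ 0) (γ 0) K :=
    { a := fun s ↦ a s.1
      u := fun s ↦ Complex.exp (w s.1)
      ρ := fun s ↦ ρ (Complex.exp (w s.1))
      γ := fun s ↦ γ (Complex.exp (w s.1))
      lam := fun s ↦ (p s - c s * cf m g j (w s.1)) *
        (1 + Complex.exp (w s.1) ^ e * ρ (Complex.exp (w s.1)))
      fi := fun s ↦ cf m g i (w s.1)
      fj := fun s ↦ cf m g j (w s.1)
      p := p
      c := c
      d := d
      N := fun s ↦ N s.1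
      ha := haJ
      hu0 := fun _ ↦ Complex.exp_ne_zero _
      hu1 := fun s ↦ (hs s).2.1
      hρ := fun s ↦ (hs s).2.2.1
      hρ' := fun s ↦ (hs s).2.2.2.1
      hγ := fun s ↦ (hs s).2.2.2.2.1
      hγ' := fun s ↦ (hs s).2.2.2.2.2.1
      hR := fun s ↦ (hs s).2.2.2.2.2.2
      hlam := fun _ ↦ rfl
      sf := sf
      ep := eE.mono fun s ↦ (ent s).1
      ec := eE.mono fun s ↦ (ent s).2.2.1
      ed := eE.mono fun s ↦ (ent s).2.2.2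
      eN := eN.mono fun s ↦ by simp
      hN := fun s ↦ h2 s.1
      hdet := fun s ↦ by
        have e1 : ((p s : ℂ) * d s - b s * c s) = N s.1 := by exact_mod_cast hd s
        have e2 := hm s
        unfold Mob at e2
        linear_combination e1 - c s * e2
      him := fun s ↦ im s j mj
      hg := fun s ↦ by
        rw [← hg _ (mem_ball_zero_iff.2 (hs3 s))]
        unfold cf
        ring }
  exact D.lb mi he he' ρ0 γ0 algρ algγ hl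

end ARCHB

section DIST
variable {κ : Type} [Fintype κ] [DecidableEq κ] {A B : κ → Polynomial ℂ} {P : ℂ} {i j : κ}

theorem arch_B (h : Nice A B) (hA : AlgK A) (hB : AlgK B) (hN : NoMod A B) (hij : i ≠ j)
    (hi : (B i).eval P = 0) (hj : (B j).eval P = 0) : ∃ C k : ℕ, ∀ (t U : ℂ) (a N : ℕ), NPk B t →
      0 < N → Isog N (xk A B t i) (xk A B t j) U → (N : ℝ) ≤ Real.exp a →
      Sm (U * (B i).eval t / (B j).eval t) a → Real.exp (-(C * (a : ℝ) ^ k)) ≤ ‖t - P‖ := by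
  obtain ⟨C, k, H⟩ := (ARCHB.family h hA hB hN hij hi hj
    (ι := {x : ℂ × ℂ × ℕ × ℕ // NPk B x.1 ∧ 0 < x.2.2.2 ∧
      Isog x.2.2.2 (xk A B x.1 i) (xk A B x.1 j) x.2.1 ∧ (x.2.2.2 : ℝ) ≤ Real.exp x.2.2.1 ∧
      Sm (x.2.1 * (B i).eval x.1 / (B j).eval x.1) x.2.2.1})
    (fun s ↦ s.1.1) (fun s ↦ s.1.2.1) (fun s ↦ s.1.2.2.1) (fun s ↦ s.1.2.2.2)
    (fun s ↦ s.2.1) (fun s ↦ s.2.2.1) (fun s ↦ s.2.2.2.1) (fun s ↦ s.2.2.2.2.1)
    fun s ↦ s.2.2.2.2.2).exists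
  exact ⟨C, k, fun t U a N h1 h2 h3 h4 h5 ↦ H ⟨(t, U, a, N), h1, h2, h3, h4, h5⟩⟩

end DIST

end Pool.Agent.Lib.ZP3
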