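import Pool.Agent.Lib.ZP3.Defs2
import Pool.Agent.Lib.ZP3.An2

/-! Block GEL: the auxiliary function and the extrapolation step. -/

open Filter Topology Metric MvPolynomial

namespace Pool.Agent.Lib.ZP3

namespace GEL

lemma aeval_eq (v : Fin 2 → ℂ) (V : MvPolynomial (Fin 2) ℤ) :
    aeval v V = ∑ m ∈ V.support, ((V.coeff m : ℤ) : ℂ) * ∏ i, v i ^ m i := by
  rw [aeval_def, eval₂_eq']; rfl

lemma deg_le {V : MvPolynomial (Fin 2) ℤ} {n : ℕ} (hV : V.totalDegree ≤ n) {m : Fin 2 →₀ ℕ}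
    (hm : m ∈ V.support) : ∑ i, m i ≤ n := by
  have := (le_totalDegree hm).trans hV
  rwa [Finsupp.sum_fintype _ _ fun _ ↦ rfl] at this

lemma int_aeval {v : Fin 2 → ℂ} {d n : ℕ} (h : ∀ i, IsIntegral ℤ (d * v i))
    {V : MvPolynomial (Fin 2) ℤ} (hV : V.totalDegree ≤ n) :
    IsIntegral ℤ ((d : ℂ) ^ n * aeval v V) := by
  rw [aeval_eq, Finset.mul_sum]
  refine IsIntegral.sum _ fun m hm ↦ ?_
  obtain ⟨j, rfl⟩ := Nat.exists_eq_add_of_le (deg_le hV hm)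
  have : (d : ℂ) ^ (∑ i, m i + j) * (((V.coeff m : ℤ) : ℂ) * ∏ i, v i ^ m i) =
      ((V.coeff m : ℤ) : ℂ) * ((d : ℤ) : ℂ) ^ j * ∏ i, (d * v i) ^ m i := by
    simp only [Fin.sum_univ_two, Fin.prod_univ_two, Int.cast_natCast]; ring
  rw [this]
  exact ((isIntegral_intCast _).mul ((isIntegral_intCast _).pow _)).mul
    (IsIntegral.prod _ fun i _ ↦ (h i).pow _)

lemma norm_aeval {v : Fin 2 → ℂ} {M H : ℝ} {n : ℕ} (hM : 1 ≤ M) (h : ∀ i, ‖v i‖ ≤ M)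
    {V : MvPolynomial (Fin 2) ℤ} (hV : V.totalDegree ≤ n)
    (hH : ((∑ m ∈ V.support, |V.coeff m| : ℤ) : ℝ) ≤ H) : ‖aeval v V‖ ≤ H * M ^ n := by
  rw [aeval_eq]
  refine (norm_sum_le _ _).trans (le_trans ?_ (mul_le_mul_of_nonneg_right hH (by positivity)))
  push_cast
  rw [Finset.sum_mul]
  refine Finset.sum_le_sum fun m hm ↦ ?_
  rw [norm_mul, Complex.norm_intCast, norm_prod]
  gcongr
  refine le_trans ?_ (pow_le_pow_right₀ hM (deg_le hV hm))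
  rw [← Finset.prod_pow_eq_pow_sum]
  refine Finset.prod_le_prod (fun _ _ ↦ norm_nonneg _) fun i _ ↦ ?_
  rw [norm_pow]
  gcongr
  exact h i

lemma liou {J : Type} [Fintype J] {v : Fin 2 → ℂ} {d n A : ℕ} (hi : ∀ i, IsIntegral ℤ (d * v i))
    (hD : ∀ i, Deg (v i) A) (q : J → ℤ) {V : J → MvPolynomial (Fin 2) ℤ}
    (hV : ∀ j, (V j).totalDegree ≤ n) {B : ℝ} (hB : 1 ≤ B)
    (hb : ∀ σ : ℂ →+* ℂ, ‖∑ j, (q j : ℂ) * ((d : ℂ) ^ n * aeval (fun i ↦ σ (v i)) (V j))‖ ≤ B)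
    (h0 : ∑ j, (q j : ℂ) * ((d : ℂ) ^ n * aeval v (V j)) ≠ 0) :
    1 ≤ ‖∑ j, (q j : ℂ) * ((d : ℂ) ^ n * aeval v (V j))‖ * B ^ A ^ 2 := by
  classical
  obtain ⟨E, hE, hE'⟩ := deg_joint hD
  have e : ∀ σ : ℂ →+* ℂ, σ (∑ j, (q j : ℂ) * ((d : ℂ) ^ n * aeval v (V j))) =
      ∑ j, (q j : ℂ) * ((d : ℂ) ^ n * aeval (fun i ↦ σ (v i)) (V j)) := fun σ ↦ by
    simp [aeval_eq]
  refine liouville (IsIntegral.sum _ fun j _ ↦ (isIntegral_intCast _).mul (int_aeval hi (hV j))) h0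
    ⟨E.image fun e ↦ ∑ j, (q j : ℂ) * ((d : ℂ) ^ n * aeval e (V j)),
      Finset.card_image_le.trans (by simpa using hE), fun σ ↦ ?_⟩ hB fun σ ↦ e σ ▸ hb σ
  rw [e]
  exact Finset.mem_image_of_mem _ (hE' σ)

lemma extra {F : ℂ → ℂ} (hF : Differentiable ℂ F) {ν : ℂ} (h1 : 1 ≤ ‖ν‖) (h7 : ‖ν‖ ≤ 7) {S T : ℕ}
    {M η : ℝ} (hM : ∀ z, ‖z‖ ≤ 35 * S + 2 → ‖F z‖ ≤ M) (hη : 0 ≤ η)
    (h : ∀ s < S, ∀ k < T, ‖iteratedDeriv k F (ν * s)‖ ≤ η) {s : ℕ} (hs : s < S) :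
    ‖iteratedDeriv T F (ν * s)‖ ≤ T.factorial *
      (M * (1 / 2) ^ (S * T) + η * (16 * (35 * S + 2) * (T + 1)) ^ (2 * (S * T))) := by
  classical
  have ν0 : ν ≠ 0 := norm_pos_iff.1 (by linarith)
  have S0 : (0 : ℝ) ≤ S := S.cast_nonneg
  have hn : ∀ s < S, ‖ν * s‖ ≤ 7 * S := fun s hs ↦ by
    rw [norm_mul, Complex.norm_natCast]
    gcongr
  have hc : ((Finset.range S).image fun s : ℕ ↦ ν * s).card = S := by
    rw [Finset.card_image_of_injective _ fun a b e ↦ by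
      exact_mod_cast mul_left_cancel₀ ν0 e, Finset.card_range]
  have key : ∀ z : ℂ, ‖z‖ ≤ 7 * S + 1 → ‖F z‖ ≤
      M * (1 / 2) ^ (S * T) + η * (16 * (35 * S + 2) * (T + 1)) ^ (2 * (S * T)) := fun z hz ↦ by
    have := schwarz_approx (R := 35 * S + 2) (r := 7 * S) (by positivity) (by positivity)
      (by linarith) (by linarith) (by linarith) (fun z _ ↦ hF.analyticAt z) hM
      ((Finset.range S).image fun s : ℕ ↦ ν * s) T (fun z hz ↦ by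
        obtain ⟨s, hs, rfl⟩ := Finset.mem_image.1 hz
        exact hn s (Finset.mem_range.1 hs)) (fun z hz z' hz' e ↦ by
        obtain ⟨s, -, rfl⟩ := Finset.mem_image.1 hz
        obtain ⟨s', -, rfl⟩ := Finset.mem_image.1 hz'
        have e' : (s : ℤ) - s' ≠ 0 := fun h ↦ e (by rw [show s = s' by omega])
        have := Int.one_le_abs e'
        rw [← mul_sub, norm_mul, show (s : ℂ) - s' = ((s : ℤ) - s' : ℤ) by push_cast; rfl,
          Complex.norm_intCast]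
        exact one_le_mul_of_one_le_of_one_le h1 (by exact_mod_cast this)) hη (fun z hz ↦ by
        obtain ⟨s, hs, rfl⟩ := Finset.mem_image.1 hz
        exact h s (Finset.mem_range.1 hs)) hz
    rwa [hc, show (7 * S + 1 + 7 * S : ℝ) / (35 * S + 2 - 7 * S) = 1 / 2 by
      rw [div_eq_iff (by linarith)]; ring] at this
  have := Complex.norm_iteratedDeriv_le_of_forall_mem_sphere_norm_le (c := ν * s) T one_pos
    hF.diffContOnCl fun z hz ↦ key z (by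
      have := norm_add_le (ν * s) (z - ν * s)
      rw [mem_sphere_iff_norm.1 hz, add_sub_cancel] at this
      linarith [hn s hs])
  simpa using this

lemma num {x t u D f M h η W B : ℝ} (hx : 600 ≤ x) (ht : 1 ≤ t) (ht' : t ≤ x ^ 24) (u0 : 0 ≤ u)
    (hu : u ≤ x ^ 2 * t) (hD : D ≤ Real.exp (12 * u)) (f0 : 0 ≤ f) (hf : f ≤ Real.exp (24 * u))
    (M0 : 0 ≤ M) (hM : M ≤ Real.exp (211 * u)) (h0 : 0 ≤ h)
    (hh : h ≤ Real.exp (-(x ^ 5 * t / 2))) (η0 : 0 ≤ η) (hη : η ≤ Real.exp (21 * u - x ^ 40))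
    (W0 : 0 ≤ W) (hW : W ≤ Real.exp (60 * x ^ 30)) (B0 : 0 ≤ B)
    (hB : B ≤ Real.exp (x ^ 2 * (39 * u))) : D * (f * (M * h + η * W) + η) * B < 1 := by
  have x1 : 1 ≤ x := by linarith
  have e2 : Real.exp (-2) < 1 / 3 := by
    rw [Real.exp_neg, one_div]
    exact inv_strictAnti₀ (by norm_num) (by linarith [Real.add_one_lt_exp two_ne_zero])
  have a1 : u ≤ x ^ 2 * u := le_mul_of_one_le_left u0 (one_le_pow₀ x1)
  have a2 : x ^ 2 * u ≤ x ^ 4 * t := by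
    calc _ ≤ x ^ 2 * (x ^ 2 * t) := by gcongr
      _ = _ := by ring
  have a3 : 600 * (x ^ 4 * t) ≤ x ^ 5 * t := by
    calc _ ≤ x * (x ^ 4 * t) := by gcongr
      _ = _ := by ring
  have a4 : 1 ≤ x ^ 4 * t := one_le_mul_of_one_le_of_one_le (one_le_pow₀ x1) ht
  have a5 : x ^ 4 * t ≤ x ^ 30 := by
    calc _ ≤ x ^ 6 * x ^ 24 := by gcongr; norm_num
      _ = _ := by ring
  have a6 : 600 * x ^ 30 ≤ x ^ 40 := by
    calc _ ≤ x * x ^ 39 := by gcongr; norm_num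
      _ = _ := by ring
  calc _ ≤ Real.exp (12 * u) * (Real.exp (24 * u) * (Real.exp (211 * u) *
        Real.exp (-(x ^ 5 * t / 2)) + Real.exp (21 * u - x ^ 40) * Real.exp (60 * x ^ 30)) +
        Real.exp (21 * u - x ^ 40)) * Real.exp (x ^ 2 * (39 * u)) := by gcongr
    _ ≤ Real.exp (-2) + Real.exp (-2) + Real.exp (-2) := by
      simp only [mul_add, add_mul, ← Real.exp_add]
      gcongr <;> linarith
    _ < 1 := by linarith

lemma data {v : Fin 2 → ℂ} {A : ℕ} (hv : ∀ i, Sm (v i) A) : ∃ d : ℕ, 0 < d ∧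
    (d : ℝ) ≤ Real.exp (2 * A) ∧ (∀ i, IsIntegral ℤ (d * v i)) ∧ (∀ i, Deg (v i) A) ∧
    ∀ (σ : ℂ →+* ℂ) i, ‖σ (v i)‖ ≤ Real.exp A := by
  choose d d0 d1 d2 using hv
  refine ⟨d 0 * d 1, Nat.mul_pos (d0 0) (d0 1), ?_, fun i ↦ ?_, fun i ↦ ?_, fun σ i ↦ ?_⟩
  · rw [two_mul, Real.exp_add, Nat.cast_mul]
    exact mul_le_mul (d1 0) (d1 1) (by positivity) (by positivity)
  · fin_cases i
    · simpa [mul_assoc, mul_left_comm] using (isIntegral_intCast (B := ℂ) (d 1 : ℤ)).mul (d2 0).1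
    · simpa [mul_assoc] using (isIntegral_intCast (B := ℂ) (d 0 : ℤ)).mul (d2 1).1
  · refine (d2 i).2.1.map (fun x ↦ x / d i) fun σ ↦ ?_
    have : (d i : ℂ) ≠ 0 := by exact_mod_cast (d0 i).ne'
    simp [this]
  · have := (d2 i).2.2 σ
    rw [map_mul, map_natCast, norm_mul, Complex.norm_natCast] at this
    exact (le_mul_of_one_le_left (norm_nonneg _) (by exact_mod_cast d0 i)).trans this

lemma core (c : ℕ) {A : ℕ} (hA : 600 * (c + 1) ≤ A) {J : Type} [Fintype J]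
    (hJ : Fintype.card J = A ^ 24) {ν : ℂ} (h1 : 1 ≤ ‖ν‖) (h7 : ‖ν‖ ≤ 7) {v : Fin 2 → ℂ}
    (hv : ∀ i, Sm (v i) A) (φ : J → ℂ → ℂ) (V : J → ℕ → ℕ → MvPolynomial (Fin 2) ℤ)
    (hφ : ∀ j, Differentiable ℂ (φ j))
    (hb : ∀ j z, ‖φ j z‖ ≤ Real.exp (c * (A : ℝ) ^ 12 * (1 + ‖z‖)))
    (hV : ∀ j k s, k ≤ A ^ 24 → s < A ^ 5 → (V j k s).totalDegree ≤ k + A ^ 17 ∧
      ((∑ m ∈ (V j k s).support, |(V j k s).coeff m| : ℤ) : ℝ) ≤
        Real.exp (c * (A : ℝ) * (k + (A : ℝ) ^ 17)) ∧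
      ‖iteratedDeriv k (φ j) (ν * s) - aeval v (V j k s)‖ ≤ Real.exp (-(A : ℝ) ^ 40)) :
    ∃ q : J → ℤ, q ≠ 0 ∧ ∀ k < A ^ 24, ∑ j, (q j : ℂ) * aeval v (V j k 0) = 0 := by
  classical
  obtain ⟨d, d0, d1, d2, d3, d4⟩ := data hv
  obtain ⟨E, hE, hE'⟩ := deg_joint d3
  have A1 : 1 ≤ A := by omega
  have x0 : (600 : ℝ) * (c + 1) ≤ A := by exact_mod_cast hA
  have c0 : (0 : ℝ) ≤ c := c.cast_nonneg
  have x1 : (600 : ℝ) ≤ A := by linarith
  have x2 : (1 : ℝ) ≤ A := by linarith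
  have hd : ∀ n : ℕ, (d : ℝ) ^ n ≤ Real.exp (2 * A * n) := fun n ↦ by
    rw [mul_comm, Real.exp_nat_mul]; gcongr
  have hG : ∀ e : Fin 2 → ℂ, (∀ i, ‖e i‖ ≤ Real.exp A) → ∀ k s j, k ≤ A ^ 24 → s < A ^ 5 →
      ‖(d : ℂ) ^ (k + A ^ 17) * aeval e (V j k s)‖ ≤
        Real.exp ((c + 3) * A * (k + (A : ℝ) ^ 17)) := fun e he k s j hk hs ↦ by
    rw [norm_mul, norm_pow, Complex.norm_natCast]
    refine (mul_le_mul (hd _) (norm_aeval (Real.one_le_exp (by positivity)) he (hV j k s hk hs).1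
      (hV j k s hk hs).2.1) (norm_nonneg _) (by positivity)).trans (le_of_eq ?_)
    rw [← Real.exp_nat_mul, ← Real.exp_add, ← Real.exp_add]
    congr 1; push_cast; ring
  obtain ⟨T0, hT0⟩ : ∃ T0, T0 = A ^ 17 / 4 := ⟨_, rfl⟩
  have a17 : A ≤ A ^ 17 := Nat.le_self_pow (by norm_num) A
  have a24 : A ^ 17 ≤ A ^ 24 := Nat.pow_le_pow_right A1 (by norm_num)
  obtain ⟨q, q0, q1, q2⟩ := pigeon
    (r := (E.filter fun e ↦ ∀ i, ‖e i‖ ≤ Real.exp A) × Fin T0 × Fin (A ^ 5))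
    (fun r j ↦ (d : ℂ) ^ ((r.2.1 : ℕ) + A ^ 17) * aeval r.1.1 (V j r.2.1 r.2.2))
    (K := Real.exp ((c + 3) * A * (T0 + (A : ℝ) ^ 17))) (Real.one_le_exp (by positivity)) one_pos
    le_rfl (fun r j ↦ (hG _ (Finset.mem_filter.1 r.1.2).2 _ _ j (by omega) r.2.2.2).trans (by
      gcongr; exact r.2.1.2.le)) (by rw [hJ]; positivity) (by
      simp only [Fintype.card_prod, Fintype.card_coe, Fintype.card_fin, hJ]
      have := (Finset.card_filter_le E fun e ↦ ∀ i, ‖e i‖ ≤ Real.exp A).trans hE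
      rw [Fintype.card_fin] at this
      calc _ ≤ 4 * (A ^ 2 * (T0 * A ^ 5)) := by gcongr
        _ = A ^ 7 * (4 * T0) := by ring
        _ ≤ A ^ 7 * A ^ 17 := by gcongr; omega
        _ = _ := by ring)
  obtain ⟨P, hP⟩ : ∃ P : ℝ, P = 7 * A ^ 24 * Real.exp ((c + 3) * A * (T0 + (A : ℝ) ^ 17)) :=
    ⟨_, rfl⟩
  have P0 : 0 ≤ P := by rw [hP]; positivity
  have hs : ∀ (g : J → ℂ) (b : ℝ), (∀ j, ‖g j‖ ≤ b) →
      ‖∑ j, (q j : ℂ) * g j‖ ≤ A ^ 24 * P * b := fun g b h ↦ by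
    refine (norm_sum_le _ _).trans ((Finset.sum_le_card_nsmul _ _ (P * b) fun j _ ↦ ?_).trans ?_)
    · rw [norm_mul, Complex.norm_intCast]
      exact mul_le_mul (by simpa [hJ, hP] using q1 j) (h j) (norm_nonneg _) P0
    · simp [hJ, mul_assoc]
  have dn : ∀ n : ℕ, (d : ℂ) ^ n ≠ 0 := fun n ↦ pow_ne_zero _ (by exact_mod_cast d0.ne')
  have fac : ∀ (n : ℕ) (g : J → ℂ), ∑ j, (q j : ℂ) * ((d : ℂ) ^ n * g j) =
      (d : ℂ) ^ n * ∑ j, (q j : ℂ) * g j := fun n g ↦ by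
    simp only [Finset.mul_sum, mul_left_comm]
  have app : ∀ k s, k ≤ A ^ 24 → s < A ^ 5 → ‖iteratedDeriv k (fun z ↦ ∑ j, (q j : ℂ) * φ j z)
      (ν * s) - ∑ j, (q j : ℂ) * aeval v (V j k s)‖ ≤ A ^ 24 * P * Real.exp (-(A : ℝ) ^ 40) := by
    intro k s hk hs'
    rw [iteratedDeriv_fun_sum fun j _ ↦ contDiffAt_const.mul (hφ j).contDiff.contDiffAt,
      ← Finset.sum_sub_distrib]
    simp only [iteratedDeriv_const_mul_field, ← mul_sub]
    exact hs _ _ fun j ↦ (hV j k s hk hs').2.2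
  have main : ∀ T, T < A ^ 24 → ∀ s < A ^ 5, ∑ j, (q j : ℂ) * aeval v (V j T s) = 0 := by
    intro T
    induction T using Nat.strong_induction_on with
    | _ T ih =>
    intro hT s hs'
    by_contra h0
    have L := fun B hB hb ↦ liou (B := B) d2 d3 q (fun j ↦ (hV j T s hT.le hs').1) hB hb
      (by rw [fac]; exact mul_ne_zero (dn _) h0)
    rcases lt_or_ge T T0 with h | h
    · have key := fun σ : ℂ →+* ℂ ↦
        q2 ⟨⟨_, Finset.mem_filter.2 ⟨hE' σ, d4 σ⟩⟩, ⟨T, h⟩, ⟨s, hs'⟩⟩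
      have := L 1 le_rfl fun σ ↦ (key σ).le
      rw [one_pow, mul_one] at this
      exact absurd (key (RingHom.id ℂ)) (not_lt.2 this)
    have t1 : (A : ℝ) ^ 17 ≤ 5 * T := by exact_mod_cast (by omega : A ^ 17 ≤ 5 * T)
    have t2 : (T : ℝ) + 1 ≤ A ^ 24 := by exact_mod_cast hT
    have t3 : (24 : ℝ) ≤ T := by exact_mod_cast (by omega : 24 ≤ T)
    have t4 : (T0 : ℝ) ≤ T := by exact_mod_cast h
    obtain ⟨u, hu⟩ : ∃ u : ℝ, u = (c + 1) * A * T := ⟨_, rfl⟩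
    have u1 : (A : ℝ) * T ≤ u := by
      rw [hu, mul_assoc]; exact le_mul_of_one_le_left (by positivity) (by linarith)
    have u0 : 0 ≤ u := le_trans (by positivity) u1
    have xe : ∀ n : ℕ, (A : ℝ) ^ n ≤ Real.exp (n * A) := fun n ↦ by
      rw [Real.exp_nat_mul]; gcongr; linarith [Real.add_one_le_exp (A : ℝ)]
    have b1 : (A : ℝ) ^ 24 ≤ Real.exp u := (xe 24).trans (by
      gcongr; push_cast; nlinarith)
    have b2 : ∀ k : ℕ, (k : ℝ) ≤ T → Real.exp ((c + 3) * A * (k + (A : ℝ) ^ 17)) ≤ Real.exp (18 * u) :=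
      fun k hk ↦ by
        refine Real.exp_le_exp.2 ?_
        calc _ ≤ (3 * (c + 1) : ℝ) * A * (6 * T) := by gcongr <;> linarith
          _ = _ := by rw [hu]; ring
    have b3 : A ^ 24 * P ≤ Real.exp (21 * u) := by
      have : (7 : ℝ) ≤ A ^ 24 := by linarith
      calc _ ≤ Real.exp u * (Real.exp u * Real.exp u * Real.exp (18 * u)) := by
            rw [hP]; gcongr ?_ * (?_ * ?_ * ?_)
            exacts [this.trans b1, b2 _ t4]
        _ = _ := by simp only [← Real.exp_add]; congr 1; ring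
    have l1 := L (Real.exp (39 * u)) (Real.one_le_exp (by positivity)) fun σ ↦
      (hs _ _ fun j ↦ hG _ (d4 σ) T s j hT.le hs').trans (by
        rw [show 39 * u = 21 * u + 18 * u by ring, Real.exp_add]
        gcongr ?_ * ?_; exact b2 _ le_rfl)
    have l2 := extra (F := fun z ↦ ∑ j, (q j : ℂ) * φ j z) (by fun_prop) h1 h7 (S := A ^ 5) (T := T)
      (M := Real.exp (211 * u)) (η := A ^ 24 * P * Real.exp (-(A : ℝ) ^ 40)) (fun z hz ↦ by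
        refine (hs _ _ fun j ↦ hb j z).trans ?_
        rw [show 211 * u = 21 * u + 190 * u by ring, Real.exp_add]
        gcongr ?_ * Real.exp ?_
        have : (1 : ℝ) ≤ A ^ 5 := one_le_pow₀ x2
        push_cast at hz
        calc _ ≤ c * (A : ℝ) ^ 12 * (38 * A ^ 5) := by gcongr; linarith
          _ = 38 * c * A ^ 17 * 1 := by ring
          _ ≤ 38 * (c + 1) * (5 * T) * A := by gcongr; linarith
          _ = _ := by rw [hu]; ring) (by positivity) (fun s hs k hk ↦ by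
        simpa [ih k hk (hk.trans hT) s hs] using app k s (hk.trans hT).le hs) hs'
    have l3 := app T s hT.le hs'
    rw [fac, norm_mul, norm_pow, Complex.norm_natCast] at l1
    refine absurd (num (x := A) (t := T) (u := u) (D := (d : ℝ) ^ (T + A ^ 17)) (f := T.factorial)
      (h := (1 / 2) ^ (A ^ 5 * T)) (η := A ^ 24 * P * Real.exp (-(A : ℝ) ^ 40))
      (W := (16 * (35 * (A ^ 5 : ℕ) + 2) * (T + 1)) ^ (2 * (A ^ 5 * T)))
      (B := Real.exp (39 * u) ^ A ^ 2) x1 (by linarith) (by linarith) u0 ?_ ?_ (by positivity) ?_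
      (by positivity) le_rfl (by positivity) ?_ (by positivity) ?_ (by positivity) ?_
      (by positivity) ?_) (not_lt.2 (l1.trans ?_))
    · rw [hu, sq]; gcongr; linarith
    · refine (hd _).trans (Real.exp_le_exp.2 ?_)
      push_cast; nlinarith
    · calc (T.factorial : ℝ) ≤ (T : ℝ) ^ T := by exact_mod_cast T.factorial_le_pow
        _ ≤ Real.exp ((24 : ℕ) * A) ^ T := by gcongr; linarith [xe 24]
        _ ≤ _ := by rw [← Real.exp_nat_mul, Real.exp_le_exp]; push_cast; linarith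
    · calc _ ≤ Real.exp (-(1 / 2)) ^ (A ^ 5 * T) := by
            gcongr; linarith [Real.add_one_le_exp (-(1 / 2) : ℝ)]
        _ = _ := by rw [← Real.exp_nat_mul]; congr 1; push_cast; ring
    · rw [sub_eq_add_neg, Real.exp_add]; gcongr
    · have : (1 : ℝ) ≤ A ^ 5 := one_le_pow₀ x2
      calc _ ≤ Real.exp ((30 : ℕ) * A) ^ (2 * (A ^ 5 * T)) := by
            gcongr
            push_cast
            calc _ ≤ (A : ℝ) * A ^ 5 * A ^ 24 := by gcongr ?_ * ?_; nlinarith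
              _ = A ^ 30 := by ring
              _ ≤ _ := by simpa using xe 30
        _ = Real.exp (60 * A ^ 6 * T) := by rw [← Real.exp_nat_mul]; congr 1; push_cast; ring
        _ ≤ Real.exp (60 * A ^ 6 * A ^ 24) := by gcongr; linarith
        _ = _ := by congr 1; ring
    · rw [← Real.exp_nat_mul]; push_cast; rfl
    · gcongr
      have := norm_sub_norm_le (∑ j, (q j : ℂ) * aeval v (V j T s))
        (iteratedDeriv T (fun z ↦ ∑ j, (q j : ℂ) * φ j z) (ν * s))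
      rw [norm_sub_rev] at this
      linarith
  exact ⟨q, q0, fun k hk ↦ main k hk 0 (by positivity)⟩

end GEL

theorem gelfond (c : ℕ) : ∃ A0 : ℕ, ∀ (A : ℕ) (ν θ α : ℂ) (φ : ℕ → ℕ → ℂ → ℂ)
    (V : ℕ → ℕ → ℕ → ℕ → MvPolynomial (Fin 2) ℤ), A0 ≤ A → 1 ≤ ‖ν‖ → ‖ν‖ ≤ 7 → Sm θ A → Sm α A →
    (∀ a b, Differentiable ℂ (φ a b)) →
    (∀ a b z, a < A ^ 12 → b < A ^ 12 → ‖φ a b z‖ ≤ Real.exp (c * (A : ℝ) ^ 12 * (1 + ‖z‖))) →
    (∀ a b k s, a < A ^ 12 → b < A ^ 12 → k ≤ A ^ 24 → s < A ^ 5 →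
      (V a b k s).totalDegree ≤ k + A ^ 17 ∧
      ((∑ m ∈ (V a b k s).support, |(V a b k s).coeff m| : ℤ) : ℝ) ≤
        Real.exp (c * (A : ℝ) * (k + (A : ℝ) ^ 17)) ∧
      ‖iteratedDeriv k (φ a b) (ν * s) - MvPolynomial.aeval ![θ, α] (V a b k s)‖ ≤
        Real.exp (-(A : ℝ) ^ 40)) →
    ∃ p : ℕ → ℕ → ℤ, (∃ a b, a < A ^ 12 ∧ b < A ^ 12 ∧ p a b ≠ 0) ∧ ∀ k < A ^ 24,
      ∑ a ∈ Finset.range (A ^ 12), ∑ b ∈ Finset.range (A ^ 12),
        (p a b : ℂ) * MvPolynomial.aeval ![θ, α] (V a b k 0) = 0 := by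
  refine ⟨600 * (c + 1), fun A ν θ α φ V hA h1 h7 hθ hα hφ hb hV ↦ ?_⟩
  obtain ⟨q, q0, hq⟩ := GEL.core c hA (J := Fin (A ^ 12) × Fin (A ^ 12)) (by simp; ring) h1 h7
    (v := ![θ, α]) (fun i ↦ by fin_cases i; exacts [hθ, hα]) (fun j ↦ φ j.1 j.2)
    (fun j ↦ V j.1 j.2) (fun j ↦ hφ _ _) (fun j z ↦ hb _ _ z j.1.2 j.2.2)
    fun j k s ↦ hV _ _ k s j.1.2 j.2.2
  obtain ⟨j, hj⟩ := Function.ne_iff.1 q0
  refine ⟨fun a b ↦ if h : a < A ^ 12 ∧ b < A ^ 12 then q (⟨a, h.1⟩, ⟨b, h.2⟩) else 0,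
    ⟨j.1, j.2, j.1.2, j.2.2, by simpa using hj⟩, fun k hk ↦ ?_⟩
  rw [← hq k hk, Fintype.sum_prod_type, Finset.sum_range]
  refine Finset.sum_congr rfl fun a _ ↦ ?_
  rw [Finset.sum_range]
  simp

end Pool.Agent.Lib.ZP3
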