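import Pool.Agent.Lib.ZP3.GshlA
import Pool.Agent.Lib.ZP3.Sm1
import Pool.Agent.Lib.ZP3.An2
import Pool.Agent.Lib.ZP3.Gelfond

/-! Measures of approximation of logarithms of algebraic numbers by algebraic numbers. -/

open Finset
open scoped Real

namespace Pool.Agent.Lib.ZP3

namespace GSHL

lemma sm_one {A : ℕ} (hA : 1 ≤ A) : Sm 1 A := by
  have := sm_int (A := A) 1 hA (by
    simp only [Int.cast_one, abs_one]
    exact Real.one_le_exp (Nat.cast_nonneg _))
  simpa using this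

lemma delta_le {A : ℕ} {δ : ℝ} (hδ : δ < Real.exp (-(A : ℝ) ^ 60)) : δ < 1 :=
  hδ.trans_le (Real.exp_le_one_iff.2 (by
    have : (0 : ℝ) ≤ (A : ℝ) ^ 60 := by positivity
    linarith))

/-- the degenerate case: a rational approximation with a small denominator -/
lemma gs_rat {l θ : ℂ} (hl : ∀ q : ℚ, l ≠ q) {A q : ℕ} (hA : 100 ≤ A)
    (hα : Sm (Complex.exp (2 * π * Complex.I * l)) A) (hq : 0 < q) (hq' : q < A ^ 12) {u : ℤ}
    (hu : (q : ℂ) * θ = u) : Real.exp (-(A : ℝ) ^ 60) ≤ ‖l - θ‖ := by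
  by_contra hc
  rw [not_le] at hc
  have hA' : (100 : ℝ) ≤ A := by exact_mod_cast hA
  have h1 : (1 : ℝ) ≤ A := by linarith
  set α := Complex.exp (2 * π * Complex.I * l) with hαd
  have hne : α ^ q - 1 ≠ 0 := by
    intro h
    rw [sub_eq_zero, hαd, ← Complex.exp_nat_mul, Complex.exp_eq_one_iff] at h
    obtain ⟨n, hn⟩ := h
    have hq0 : (q : ℂ) ≠ 0 := by exact_mod_cast hq.ne'
    have h2 : (2 * π * Complex.I : ℂ) ≠ 0 := Complex.two_pi_I_ne_zero
    refine hl ((n : ℚ) / q) ?_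
    push_cast
    rw [eq_div_iff hq0]
    refine mul_left_cancel₀ h2 ?_
    linear_combination hn
  have hS : Sm (α ^ q - 1) (3 * (q * A) ^ 2) :=
    (hα.pow hq).sub (sm_one (Nat.mul_pos hq (by omega)))
  have hL := hS.liouville hne
  have e : α ^ q - 1 = Complex.exp (2 * π * Complex.I * q * (l - θ)) - 1 := by
    have : 2 * π * Complex.I * q * (l - θ) =
        q * (2 * π * Complex.I * l) + ((-u : ℤ) : ℂ) * (2 * π * Complex.I) := by
      push_cast
      linear_combination (-(2 * π * Complex.I)) * hu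
    rw [this, Complex.exp_add, Complex.exp_int_mul_two_pi_mul_I, mul_one, Complex.exp_nat_mul]
  have hq2 : (q : ℝ) ≤ (A : ℝ) ^ 12 := by exact_mod_cast hq'.le
  have hx : ‖2 * π * Complex.I * q * (l - θ)‖ ≤ 7 * (A : ℝ) ^ 17 * ‖l - θ‖ := by
    rw [norm_mul, norm_mul, Complex.norm_natCast]
    have : (q : ℝ) ≤ (A : ℝ) ^ 17 := hq2.trans (pow_le_pow_right₀ h1 (by norm_num))
    gcongr
    exact norm_nu.2
  have h3 := err hA hc hx
  rw [← e] at h3
  have h4 := Real.exp_le_exp.1 (hL.trans h3)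
  push_cast at h4
  have h5 : 2 * (3 * ((q : ℝ) * A) ^ 2) ^ 2 ≤ 18 * (A : ℝ) ^ 52 := by
    calc 2 * (3 * ((q : ℝ) * A) ^ 2) ^ 2 ≤ 2 * (3 * ((A : ℝ) ^ 12 * A) ^ 2) ^ 2 := by gcongr
      _ = _ := by ring
  have h6 : 19 * (A : ℝ) ^ 52 ≤ (A : ℝ) ^ 59 := cmp h1 (by linarith) (by norm_num)
  have h7 : (0 : ℝ) < (A : ℝ) ^ 52 := by positivity
  linarith

lemma gs_core {l : ℂ} (hα : IsAlgebraic ℚ (Complex.exp (2 * π * Complex.I * l)))
    (hl : ∀ q : ℚ, l ≠ q) : ∃ K : ℕ, ∀ (θ : ℂ) (A : ℕ), K ≤ A → Sm θ A →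
      Real.exp (-(A : ℝ) ^ 60) ≤ ‖l - θ‖ := by
  obtain ⟨Aα, hAα⟩ := sm_of_alg hα
  obtain ⟨c, hc1, hc2⟩ : ∃ c : ℕ, ‖l‖ + 2 ≤ c ∧ 13 ≤ c := by
    refine ⟨⌈‖l‖⌉₊ + 13, ?_, by omega⟩
    push_cast
    linarith [Nat.le_ceil ‖l‖]
  obtain ⟨A0, hA0⟩ := gelfond c
  refine ⟨A0 + Aα + 10 * c, fun θ A hK hθ ↦ ?_⟩
  by_contra hδ
  rw [not_le] at hδ
  have hA : 100 ≤ A := by omega
  have hA' : (100 : ℝ) ≤ A := by exact_mod_cast hA
  have h1 : (1 : ℝ) ≤ A := by linarith
  have hcA : 10 * (c : ℝ) ≤ A := by exact_mod_cast (by omega : 10 * c ≤ A)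
  have hc0 : (0 : ℝ) ≤ c := Nat.cast_nonneg _
  have hc13 : (13 : ℝ) ≤ c := by exact_mod_cast hc2
  set α := Complex.exp (2 * π * Complex.I * l) with hαd
  have hαA : Sm α A := hAα.mono (by omega)
  have hθn : ‖θ‖ ≤ c - 1 := by
    have : θ = l - (l - θ) := by ring
    have h2 := norm_sub_le l (l - θ)
    rw [← this] at h2
    linarith [delta_le hδ]
  have hw : ∀ a b : ℕ, a < A ^ 12 → b < A ^ 12 → ‖(b : ℂ) * θ + a‖ ≤ c * (A : ℝ) ^ 12 := by
    intro a b ha hb
    have ha' : (a : ℝ) ≤ (A : ℝ) ^ 12 := by exact_mod_cast ha.le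
    have hb' : (b : ℝ) ≤ (A : ℝ) ^ 12 := by exact_mod_cast hb.le
    calc ‖(b : ℂ) * θ + a‖ ≤ ‖(b : ℂ) * θ‖ + ‖(a : ℂ)‖ := norm_add_le _ _
      _ = b * ‖θ‖ + a := by simp
      _ ≤ (A : ℝ) ^ 12 * (c - 1) + (A : ℝ) ^ 12 := by gcongr
      _ = _ := by ring
  have hV : ∀ a b k s : ℕ, MvPolynomial.aeval ![θ, α]
      (ms k (fun j ↦ j) (fun _ ↦ b * s) fun j ↦ b ^ j * a ^ (k - j) * k.choose j) =
        ((b : ℂ) * θ + a) ^ k * α ^ (b * s) := by
    intro a b k s
    rw [ms_aeval, add_pow, Finset.sum_mul]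
    refine Finset.sum_congr rfl fun j _ ↦ ?_
    push_cast
    ring
  obtain ⟨p, ⟨a0, b0, ha0, hb0, hp0⟩, hp⟩ := hA0 A (2 * π * Complex.I) θ α
    (fun a b z ↦ Complex.exp (((b : ℂ) * θ + a) * z))
    (fun a b k s ↦ ms k (fun j ↦ j) (fun _ ↦ b * s) fun j ↦ b ^ j * a ^ (k - j) * k.choose j)
    (by omega) norm_nu.1 norm_nu.2 hθ hαA (fun a b ↦ by fun_prop)
    (fun a b z ha hb ↦ by
      refine (Complex.norm_exp_le_exp_norm _).trans (Real.exp_le_exp.2 ?_)
      rw [norm_mul]
      have := hw a b ha hb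
      gcongr
      linarith)
    (fun a b k s ha hb hk hs ↦ by
      have hbs := mul_lt17 hb hs
      have hbs' : ((b * s : ℕ) : ℝ) ≤ (A : ℝ) ^ 17 := by exact_mod_cast hbs
      have hk' : (k : ℝ) ≤ (A : ℝ) ^ 24 := by exact_mod_cast hk
      refine ⟨ms_deg _ fun j hj ↦ by omega, ?_, ?_⟩
      · refine (ms_l1 _ _ _ _).trans ?_
        have e : ∑ j ∈ range (k + 1), b ^ j * a ^ (k - j) * k.choose j = (b + a) ^ k := by
          rw [add_pow]
          simp
        rw [e]
        refine (add_pow_le (by omega) hb ha k).trans (Real.exp_le_exp.2 ?_)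
        have : (0 : ℝ) ≤ (A : ℝ) ^ 17 := by positivity
        gcongr
        linarith
      · rw [hV, iteratedDeriv_cexp_const_mul]
        have e : Complex.exp (((b : ℂ) * θ + a) * (2 * π * Complex.I * s)) =
            α ^ (b * s) * Complex.exp (2 * π * Complex.I * (b * s : ℕ) * (θ - l)) := by
          rw [hαd, ← Complex.exp_nat_mul, ← Complex.exp_add]
          have : ((b : ℂ) * θ + a) * (2 * π * Complex.I * s) =
              ((b * s : ℕ) * (2 * π * Complex.I * l) + 2 * π * Complex.I * (b * s : ℕ) * (θ - l)) +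
                ((a * s : ℕ) : ℂ) * (2 * π * Complex.I) := by
            push_cast
            ring
          rw [this, Complex.exp_add _ (((a * s : ℕ) : ℂ) * _), Complex.exp_nat_mul_two_pi_mul_I,
            mul_one]
        have e2 : ((b : ℂ) * θ + a) ^ k *
            Complex.exp (((b : ℂ) * θ + a) * (2 * π * Complex.I * s)) -
              ((b : ℂ) * θ + a) ^ k * α ^ (b * s) = (((b : ℂ) * θ + a) ^ k * α ^ (b * s)) *
                (Complex.exp (2 * π * Complex.I * (b * s : ℕ) * (θ - l)) - 1) := by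
          rw [e]
          ring
        simp only []
        rw [e2, norm_mul]
        refine err2 hA (norm_nonneg _) ?_ (err hA hδ ?_)
        · rw [norm_mul, norm_pow, norm_pow]
          have f1 : ‖(b : ℂ) * θ + a‖ ^ k ≤ Real.exp (13 * (A : ℝ) ^ 25) := by
            have g1 : ‖(b : ℂ) * θ + a‖ ≤ Real.exp (13 * A) := by
              have := pow_le_exp A 13
              push_cast at this
              exact (hw a b ha hb).trans ((cmp h1 (by linarith) le_rfl).trans this)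
            calc ‖(b : ℂ) * θ + a‖ ^ k ≤ Real.exp (13 * A) ^ k := by gcongr
              _ = Real.exp (k * (13 * A)) := (Real.exp_nat_mul _ _).symm
              _ ≤ Real.exp ((A : ℝ) ^ 24 * (13 * A)) := by gcongr
              _ = _ := by ring_nf
          have f2 : ‖α‖ ^ (b * s) ≤ Real.exp ((A : ℝ) ^ 25) := by
            have g1 : ‖α‖ ≤ Real.exp A := by
              refine (Complex.norm_exp_le_exp_norm _).trans (Real.exp_le_exp.2 ?_)
              rw [norm_mul]
              have := norm_nu.2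
              have h3 : ‖(2 * π * Complex.I : ℂ)‖ * ‖l‖ ≤ 7 * c := by
                gcongr
                linarith
              linarith
            calc ‖α‖ ^ (b * s) ≤ Real.exp A ^ (b * s) := by gcongr
              _ = Real.exp ((b * s : ℕ) * A) := (Real.exp_nat_mul _ _).symm
              _ ≤ Real.exp ((A : ℝ) ^ 17 * A) := by gcongr
              _ ≤ _ := by
                refine Real.exp_le_exp.2 ?_
                rw [← pow_succ]
                exact pow_le_pow_right₀ h1 (by norm_num)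
          calc _ ≤ Real.exp (13 * (A : ℝ) ^ 25) * Real.exp ((A : ℝ) ^ 25) := by gcongr
            _ ≤ _ := by
              rw [← Real.exp_add]
              refine Real.exp_le_exp.2 ?_
              have : (0 : ℝ) ≤ (A : ℝ) ^ 25 := by positivity
              linarith
        · rw [norm_mul, norm_mul, Complex.norm_natCast, norm_sub_rev]
          gcongr
          exact norm_nu.2)
  by_cases hinj : Set.InjOn (fun x : ℕ × ℕ ↦ (x.2 : ℂ) * θ + x.1)
      (range (A ^ 12) ×ˢ range (A ^ 12) : Finset (ℕ × ℕ))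
  · have := vander _ _ hinj (fun x ↦ (p x.1 x.2 : ℂ)) (fun k hk ↦ by
      rw [Finset.card_product, card_range, ← pow_add] at hk
      have := hp k hk
      simp only [hV] at this
      rw [Finset.sum_product]
      simpa using this) (a0, b0) (by simp [ha0, hb0])
    exact hp0 (by exact_mod_cast this)
  · have key : ∀ x y : ℕ × ℕ, y.2 < A ^ 12 → x.2 < y.2 →
        (x.2 : ℂ) * θ + x.1 ≠ (y.2 : ℂ) * θ + y.1 := by
      intro x y hy hxy e
      have := gs_rat (θ := θ) hl hA hαA (q := y.2 - x.2) (by omega) (by omega)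
        (u := (x.1 : ℤ) - y.1) (by
          rw [Nat.cast_sub hxy.le]
          push_cast
          linear_combination -e)
      linarith
    refine hinj fun x hx y hy e ↦ ?_
    simp only [coe_product, coe_range, Set.mem_prod, Set.mem_Iio] at hx hy
    rcases lt_trichotomy x.2 y.2 with h | h | h
    · exact absurd e (key x y hy.2 h)
    · refine Prod.ext ?_ h
      simp only [h, add_right_inj] at e
      exact_mod_cast e
    · exact absurd e.symm (key y x hx.2 h)

lemma hl_core : ∃ K : ℕ, ∀ (θ : ℂ) (A : ℕ), K ≤ A → Sm θ A →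
    Real.exp (-(A : ℝ) ^ 60) ≤ ‖2 * π * Complex.I - θ‖ := by
  obtain ⟨A0, hA0⟩ := gelfond 20
  refine ⟨A0 + 100, fun θ A hK hθ ↦ ?_⟩
  by_contra hδ
  rw [not_le] at hδ
  have hA : 100 ≤ A := by omega
  have hA' : (100 : ℝ) ≤ A := by exact_mod_cast hA
  have h1 : (1 : ℝ) ≤ A := by linarith
  have hθn : ‖θ‖ ≤ 8 := by
    have : θ = 2 * π * Complex.I - (2 * π * Complex.I - θ) := by ring
    have h2 := norm_sub_le (2 * π * Complex.I : ℂ) (2 * π * Complex.I - θ)
    rw [← this] at h2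
    linarith [delta_le hδ, norm_nu.2]
  have hθ0 : θ ≠ 0 := by
    intro h
    rw [h, sub_zero] at hδ
    linarith [delta_le hδ, norm_nu.1]
  have hV : ∀ a b k s : ℕ, MvPolynomial.aeval ![θ, 1]
      (ms k (fun j ↦ k - j) (fun _ ↦ 0)
        fun j ↦ k.choose j * (a.descFactorial j * s ^ (a - j)) * b ^ (k - j)) =
      ∑ j ∈ range (k + 1), (k.choose j : ℂ) * (a.descFactorial j * (s : ℂ) ^ (a - j)) *
        ((b : ℂ) * θ) ^ (k - j) := by
    intro a b k s
    rw [ms_aeval]
    refine Finset.sum_congr rfl fun j _ ↦ ?_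
    push_cast
    ring
  have hsum : ∀ a b k s : ℕ, a < A ^ 12 → b < A ^ 12 → s < A ^ 5 →
      ((∑ j ∈ range (k + 1), k.choose j * (a.descFactorial j * s ^ (a - j)) * b ^ (k - j) : ℕ) : ℝ)
        ≤ Real.exp (13 * A * (k + (A : ℝ) ^ 17)) := by
    intro a b k s ha hb hs
    have e : ∑ j ∈ range (k + 1), k.choose j * (a.descFactorial j * s ^ (a - j)) * b ^ (k - j) ≤
        (a + b) ^ k * A ^ (5 * A ^ 12) := by
      rw [add_pow, Finset.sum_mul]
      refine Finset.sum_le_sum fun j _ ↦ ?_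
      have g1 : a.descFactorial j ≤ a ^ j := Nat.descFactorial_le_pow a j
      have g2 : s ^ (a - j) ≤ A ^ (5 * A ^ 12) := by
        rw [pow_mul]
        calc s ^ (a - j) ≤ (A ^ 5) ^ (a - j) := Nat.pow_le_pow_left hs.le _
          _ ≤ _ := Nat.pow_le_pow_right (by positivity) (by omega)
      calc k.choose j * (a.descFactorial j * s ^ (a - j)) * b ^ (k - j) ≤
            k.choose j * (a ^ j * A ^ (5 * A ^ 12)) * b ^ (k - j) := by gcongr
        _ = _ := by
          simp only [Nat.cast_id]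
          ring
    have e' : ((∑ j ∈ range (k + 1), k.choose j * (a.descFactorial j * s ^ (a - j)) * b ^ (k - j) :
        ℕ) : ℝ) ≤ (((a + b) ^ k : ℕ) : ℝ) * (A : ℝ) ^ (5 * A ^ 12) := by exact_mod_cast e
    refine e'.trans ?_
    have f1 := add_pow_le (by omega) ha hb k
    have f2 := pow_le_exp A (5 * A ^ 12)
    push_cast at f2
    calc _ ≤ Real.exp (13 * A * k) * Real.exp (5 * (A : ℝ) ^ 12 * A) := by gcongr
      _ ≤ _ := by
        rw [← Real.exp_add]
        refine Real.exp_le_exp.2 ?_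
        have g : (A : ℝ) ^ 12 ≤ (A : ℝ) ^ 17 := pow_le_pow_right₀ h1 (by norm_num)
        have g0 : (0 : ℝ) ≤ (A : ℝ) ^ 12 := by positivity
        nlinarith
  obtain ⟨p, ⟨a0, b0, ha0, hb0, hp0⟩, hp⟩ := hA0 A 1 θ 1
    (fun a b z ↦ z ^ a * Complex.exp (((b : ℂ) * θ) * z))
    (fun a b k s ↦ ms k (fun j ↦ k - j) (fun _ ↦ 0)
        fun j ↦ k.choose j * (a.descFactorial j * s ^ (a - j)) * b ^ (k - j))
    (by omega) (by simp) (by simp) hθ (sm_one (by omega)) (fun a b ↦ by fun_prop)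
    (fun a b z ha hb ↦ by
      have ha' : (a : ℝ) ≤ (A : ℝ) ^ 12 := by exact_mod_cast ha.le
      have hb' : (b : ℝ) ≤ (A : ℝ) ^ 12 := by exact_mod_cast hb.le
      have f1 : ‖z‖ ^ a ≤ Real.exp ((A : ℝ) ^ 12 * ‖z‖) := by
        have g : ‖z‖ ≤ Real.exp ‖z‖ := by linarith [Real.add_one_le_exp ‖z‖]
        calc ‖z‖ ^ a ≤ Real.exp ‖z‖ ^ a := by gcongr
          _ = Real.exp (a * ‖z‖) := (Real.exp_nat_mul _ _).symm
          _ ≤ _ := by gcongr
      have f2 : ‖Complex.exp (((b : ℂ) * θ) * z)‖ ≤ Real.exp ((A : ℝ) ^ 12 * 8 * ‖z‖) := by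
        refine (Complex.norm_exp_le_exp_norm _).trans (Real.exp_le_exp.2 ?_)
        rw [norm_mul, norm_mul, Complex.norm_natCast]
        gcongr
      rw [norm_mul, norm_pow]
      calc _ ≤ Real.exp ((A : ℝ) ^ 12 * ‖z‖) * Real.exp ((A : ℝ) ^ 12 * 8 * ‖z‖) := by gcongr
        _ ≤ _ := by
          rw [← Real.exp_add]
          refine Real.exp_le_exp.2 ?_
          have g0 : (0 : ℝ) ≤ (A : ℝ) ^ 12 := by positivity
          have g1 := mul_nonneg g0 (norm_nonneg z)
          push_cast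
          nlinarith)
    (fun a b k s ha hb hk hs ↦ by
      have hbs := mul_lt17 hb hs
      have hbs' : ((b * s : ℕ) : ℝ) ≤ (A : ℝ) ^ 17 := by exact_mod_cast hbs
      have hk' : (k : ℝ) ≤ (A : ℝ) ^ 24 := by exact_mod_cast hk
      have hS := hsum a b k s ha hb hs
      refine ⟨ms_deg _ fun j hj ↦ by omega, ?_, ?_⟩
      · refine (ms_l1 _ _ _ _).trans (hS.trans (Real.exp_le_exp.2 ?_))
        push_cast
        gcongr
        norm_num
      · rw [hV, deriv_hl, one_mul]
        set W := ∑ j ∈ range (k + 1), (k.choose j : ℂ) * (a.descFactorial j * (s : ℂ) ^ (a - j)) *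
          ((b : ℂ) * θ) ^ (k - j) with hW
        have e : Complex.exp ((b : ℂ) * θ * s) =
            Complex.exp ((b * s : ℕ) * (θ - 2 * π * Complex.I)) := by
          have : (b : ℂ) * θ * s = (b * s : ℕ) * (θ - 2 * π * Complex.I) +
              ((b * s : ℕ) : ℂ) * (2 * π * Complex.I) := by
            push_cast
            ring
          rw [this, Complex.exp_add, Complex.exp_nat_mul_two_pi_mul_I, mul_one]
        rw [e, ← mul_sub_one, norm_mul]
        refine err2 hA (norm_nonneg _) ?_ (err hA hδ ?_)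
        · have f1 : ‖W‖ ≤ ((∑ j ∈ range (k + 1),
              k.choose j * (a.descFactorial j * s ^ (a - j)) * b ^ (k - j) : ℕ) : ℝ) * 8 ^ k := by
            rw [hW]
            push_cast
            rw [Finset.sum_mul]
            refine (norm_sum_le _ _).trans (Finset.sum_le_sum fun j _ ↦ ?_)
            simp only [norm_mul, norm_pow, Complex.norm_natCast, mul_pow]
            have g : ‖θ‖ ^ (k - j) ≤ 8 ^ k := by
              calc ‖θ‖ ^ (k - j) ≤ 8 ^ (k - j) := by gcongr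
                _ ≤ _ := pow_le_pow_right₀ (by norm_num) (by omega)
            calc _ ≤ (k.choose j : ℝ) * (a.descFactorial j * (s : ℝ) ^ (a - j)) *
                  ((b : ℝ) ^ (k - j) * 8 ^ k) := by gcongr
              _ = _ := by ring
          have f2 : (8 : ℝ) ^ k ≤ Real.exp ((A : ℝ) ^ 25) := by
            have g : (8 : ℝ) ≤ Real.exp A := le_trans (by linarith) (nat_le_exp A)
            calc (8 : ℝ) ^ k ≤ Real.exp A ^ k := by gcongr
              _ = Real.exp (k * A) := (Real.exp_nat_mul _ _).symm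
              _ ≤ Real.exp ((A : ℝ) ^ 24 * A) := by gcongr
              _ = _ := by ring_nf
          have f3 : 13 * A * (k + (A : ℝ) ^ 17) ≤ 26 * (A : ℝ) ^ 25 := by
            have g : (A : ℝ) ^ 17 ≤ (A : ℝ) ^ 24 := pow_le_pow_right₀ h1 (by norm_num)
            calc 13 * A * (k + (A : ℝ) ^ 17) ≤ 13 * A * ((A : ℝ) ^ 24 + (A : ℝ) ^ 24) := by gcongr
              _ = _ := by ring
          calc ‖W‖ ≤ _ := f1
            _ ≤ Real.exp (26 * (A : ℝ) ^ 25) * Real.exp ((A : ℝ) ^ 25) := by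
              gcongr
              exact hS.trans (Real.exp_le_exp.2 f3)
            _ ≤ _ := by
              rw [← Real.exp_add]
              refine Real.exp_le_exp.2 ?_
              have : (0 : ℝ) ≤ (A : ℝ) ^ 25 := by positivity
              linarith
        · rw [norm_mul, Complex.norm_natCast, norm_sub_rev]
          have : (0 : ℝ) ≤ (A : ℝ) ^ 17 := by positivity
          gcongr
          linarith)
  have hz := exp_poly_zero (range (A ^ 12)) (fun b ↦ (b : ℂ) * θ)
    (fun x _ y _ e ↦ by exact_mod_cast mul_right_cancel₀ hθ0 e)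
    (fun b ↦ ∑ a ∈ range (A ^ 12), Polynomial.monomial a (p a b : ℂ)) (A ^ 12)
    (fun b _ ↦ by
      refine (Polynomial.degree_sum_le _ _).trans_lt ?_
      refine (Finset.sup_lt_iff (WithBot.bot_lt_coe _)).2 fun a ha ↦ ?_
      refine (Polynomial.degree_monomial_le _ _).trans_lt ?_
      exact_mod_cast mem_range.1 ha)
    (fun k hk ↦ by
      rw [card_range, ← pow_add] at hk
      have h2 := hp k hk
      simp only [hV] at h2
      have e : (fun z : ℂ ↦ ∑ b ∈ range (A ^ 12),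
          (∑ a ∈ range (A ^ 12), Polynomial.monomial a (p a b : ℂ)).eval z *
            Complex.exp ((b : ℂ) * θ * z)) = fun z ↦ ∑ a ∈ range (A ^ 12), ∑ b ∈ range (A ^ 12),
              (p a b : ℂ) * (z ^ a * Complex.exp ((b : ℂ) * θ * z)) := by
        funext z
        rw [Finset.sum_comm]
        refine Finset.sum_congr rfl fun b _ ↦ ?_
        rw [Polynomial.eval_finsetSum, Finset.sum_mul]
        refine Finset.sum_congr rfl fun a _ ↦ ?_
        rw [Polynomial.eval_monomial]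
        ring
      rw [e, iteratedDeriv_fun_sum fun a _ ↦ by fun_prop]
      refine Eq.trans (Finset.sum_congr rfl fun a _ ↦ ?_) h2
      rw [iteratedDeriv_fun_sum fun b _ ↦ by fun_prop]
      refine Finset.sum_congr rfl fun b _ ↦ ?_
      rw [iteratedDeriv_const_mul_field, deriv_hl]
      simp)
    b0 (mem_range.2 hb0)
  have h3 := congrArg (fun P : Polynomial ℂ ↦ P.coeff a0) hz
  simp only [Polynomial.finsetSum_coeff, Polynomial.coeff_monomial, Finset.sum_ite_eq', mem_range,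
    ha0, if_true, Polynomial.coeff_zero] at h3
  exact hp0 (by exact_mod_cast h3)

end GSHL

theorem gs_measure {l : ℂ} (hα : IsAlgebraic ℚ (Complex.exp (2 * π * Complex.I * l)))
    (hl : ∀ q : ℚ, l ≠ q) : ∃ C k : ℕ, ∀ (θ : ℂ) (A : ℕ), Sm θ A →
      Real.exp (-(C * (A : ℝ) ^ k)) ≤ ‖l - θ‖ := by
  obtain ⟨K, hK⟩ := GSHL.gs_core hα hl
  exact ⟨(1 + K) ^ 60, 60, fun θ A h ↦ (GSHL.rescale h.one_le).trans
    (hK θ (A + K) (by omega) (h.mono (by omega)))⟩

theorem hl_measure : ∃ C k : ℕ, ∀ (θ : ℂ) (A : ℕ), Sm θ A →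
    Real.exp (-(C * (A : ℝ) ^ k)) ≤ ‖2 * π * Complex.I - θ‖ := by
  obtain ⟨K, hK⟩ := GSHL.hl_core
  exact ⟨(1 + K) ^ 60, 60, fun θ A h ↦ (GSHL.rescale h.one_le).trans
    (hK θ (A + K) (by omega) (h.mono (by omega)))⟩

/-- both cases (rational or not) together -/
theorem log_measure {l : ℂ} (hα : IsAlgebraic ℚ (Complex.exp (2 * π * Complex.I * l))) :
    ∃ C k : ℕ, ∀ (θ : ℂ) (A : ℕ), θ ≠ l → Sm θ A → Real.exp (-(C * (A : ℝ) ^ k)) ≤ ‖l - θ‖ := by
  by_cases hl : ∀ q : ℚ, l ≠ q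
  · obtain ⟨C, k, h⟩ := gs_measure hα hl
    exact ⟨C, k, fun θ A _ hθ ↦ h θ A hθ⟩
  · push Not at hl
    obtain ⟨q, rfl⟩ := hl
    obtain ⟨K, hK⟩ := sm_of_alg (z := (q : ℂ)) (isAlgebraic_algebraMap q)
    refine ⟨18 * (1 + K) ^ 4, 4, fun θ A hne hθ ↦ ?_⟩
    have h1 := ((hK.mono (by omega : K ≤ A + K)).sub (hθ.mono (by omega))).liouville
      (sub_ne_zero.2 hne.symm)
    refine le_trans (Real.exp_le_exp.2 (neg_le_neg ?_)) h1
    have hA := hθ.one_le
    have h : 2 * (3 * (A + K) ^ 2) ^ 2 ≤ 18 * (1 + K) ^ 4 * A ^ 4 := by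
      have : A + K ≤ (1 + K) * A := by nlinarith
      calc 2 * (3 * (A + K) ^ 2) ^ 2 ≤ 2 * (3 * ((1 + K) * A) ^ 2) ^ 2 := by gcongr
        _ = _ := by ring
    exact_mod_cast h

end Pool.Agent.Lib.ZP3
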