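import Pool.Agent.Lib.ZP3.ObsCases

/-! Block OBS, second part: the lower bound for a linear form in two periods, deduced from the
statement of the Baker type estimate (taken as a hypothesis). -/

open Filter Topology Metric
open scoped Real

namespace Pool.Agent.Lib.ZP3

namespace ObsAux

lemma exp_mono {A A' : ℕ} (h : A ≤ A') : Real.exp A ≤ Real.exp A' :=
  Real.exp_le_exp.2 (by exact_mod_cast h)

lemma ai_mono {z : ℂ} {A A' : ℕ} (h : AI z A) (h' : A ≤ A') : AI z A' := by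
  obtain ⟨h1, ⟨E, hE, h2⟩, h3⟩ := h
  exact ⟨h1, ⟨E, hE.trans h', h2⟩, fun σ => (h3 σ).trans (exp_mono h')⟩

lemma ai_int {z : ℤ} {A : ℕ} (hA : 1 ≤ A) (h : |(z : ℝ)| ≤ Real.exp A) : AI z A :=
  ⟨isIntegral_algebraMap (R := ℤ) (x := z), ⟨{(z : ℂ)}, by simpa using hA, fun σ => by simp⟩,
    fun σ => by rwa [map_intCast, Complex.norm_intCast]⟩

lemma ai_mul_int {α : ℂ} {z : ℤ} {A A' : ℕ} (hα : AI α A) (hA : A ≤ A')
    (h : Real.exp A * |(z : ℝ)| ≤ Real.exp A') : AI (α * z) A' := by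
  classical
  obtain ⟨h1, ⟨E, hE, h2⟩, h3⟩ := hα
  refine ⟨h1.mul (isIntegral_algebraMap (R := ℤ) (x := z)),
    ⟨E.image (· * (z : ℂ)), Finset.card_image_le.trans (hE.trans hA), fun σ => ?_⟩, fun σ => ?_⟩
  · rw [map_mul, map_intCast]
    exact Finset.mem_image_of_mem _ (h2 σ)
  · rw [map_mul, map_intCast, norm_mul, Complex.norm_intCast]
    exact (mul_le_mul_of_nonneg_right (h3 σ) (abs_nonneg _)).trans h

lemma ar_mono {W : WD} {p : ℂ} {A A' : ℕ} (h : W.Ar p A) (h' : A ≤ A') : W.Ar p A' :=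
  ⟨ai_mono h.1 h', ai_mono h.2.1 h', ai_mono h.2.2 h'⟩

lemma size_mono {W : WD} {p u : ℂ} {A A' : ℕ} (h : W.Size p u A) (h' : A ≤ A') :
    W.Size p u A' := by
  obtain ⟨ρ, h1, h2, h3, h4, h5, h6, h7, h8⟩ := h
  have hA : (A : ℝ) ≤ A' := by exact_mod_cast h'
  have hρ : 0 ≤ ρ := (Real.exp_pos _).le.trans h1
  exact ⟨ρ, (Real.exp_le_exp.2 (neg_le_neg hA)).trans h1, h2.trans (exp_mono h'), h3, h4, h5, h6,
    h7.trans (mul_le_mul_of_nonneg_right hA hρ),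
    fun z r a b c => (h8 z r a b c).trans (exp_mono h')⟩

lemma not_few {W0 W : WD} {τ Ω μ : ℂ} {K : ℕ} (hτ : 0 < τ.im) (hΩ : Ω ≠ 0) (hμ : μ ≠ 0)
    (h0 : ∀ z, z ∈ W0.Λ ↔ ∃ k : ℤ, z = k * ((π : ℂ) * Complex.I / 3)) (hL : W.IsLat τ Ω) :
    ¬ Few μ W.Λ W0.Λ K := by
  intro h
  obtain ⟨n1, hn1, -, h1⟩ := h Ω ((hL _).2 ⟨1, 0, by simp⟩)
  obtain ⟨n2, hn2, -, h2⟩ := h (Ω * τ) ((hL _).2 ⟨0, 1, by simp⟩)
  obtain ⟨k1, hk1⟩ := (h0 _).1 h1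
  obtain ⟨k2, hk2⟩ := (h0 _).1 h2
  have hπ : (π : ℂ) * Complex.I / 3 ≠ 0 := by simp [Real.pi_ne_zero]
  have e : (n2 : ℂ) * k1 * τ = n1 * k2 :=
    mul_right_cancel₀ hπ (by linear_combination n1 * hk2 - n2 * τ * hk1)
  have e1 := congrArg Complex.im e
  have hk : (k1 : ℝ) = 0 := by simpa [hn2.ne', hτ.ne'] using e1
  have hk' : k1 = 0 := by exact_mod_cast hk
  rw [hk'] at hk1
  simp [hn1.ne', hμ, hΩ] at hk1

lemma poly_le_exp (k : ℕ) : ∃ x0 : ℕ, ∀ x : ℕ, x0 ≤ x → 2 * (x : ℝ) ^ k + 3 ≤ Real.exp (x / 2) := by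
  refine ⟨5 * 2 ^ (k + 1) * (k + 1).factorial, fun x hx => ?_⟩
  have hx' : (5 : ℝ) * 2 ^ (k + 1) * (k + 1).factorial ≤ x := by exact_mod_cast hx
  have hf : (0 : ℝ) < (k + 1).factorial := by exact_mod_cast (k + 1).factorial_pos
  have hx1 : 1 ≤ x := le_trans (Nat.succ_le_of_lt (by positivity)) hx
  have h1 : (1 : ℝ) ≤ (x : ℝ) ^ k := one_le_pow₀ (by exact_mod_cast hx1)
  refine le_trans ?_ (Real.pow_div_factorial_le_exp _ (by positivity) (k + 1))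
  rw [le_div_iff₀ hf, div_pow, le_div_iff₀ (by positivity), pow_succ (x : ℝ)]
  have h2 := mul_le_mul_of_nonneg_left hx' (zero_le_one.trans h1)
  have h3 : (0 : ℝ) < 2 ^ (k + 1) * (k + 1).factorial := by positivity
  nlinarith

theorem period_core {k A0 : ℕ}
    (hb : ∀ (A : ℕ) (W : Fin 3 → WD) (β p u : Fin 3 → ℂ), A0 ≤ A → β 0 ≠ 0 →
      (∀ i, (W i).Size (p i) (u i) A) → (∀ i, (W i).Ar (p i) A) → (∀ i, AI (β i) A) →
      ‖β 0 * u 0 - β 1 * u 1 - β 2 * u 2‖ ≤ Real.exp (-(A : ℝ) ^ k) → Obs W β (A ^ k))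
    {W0 W : WD} {p0 τ Ω : ℂ} (hτ : 0 < τ.im) (hΩ : Ω ≠ 0)
    (h0 : ∀ z, z ∈ W0.Λ ↔ ∃ k : ℤ, z = k * ((π : ℂ) * Complex.I / 3)) {a c : ℕ} (ha : 1 ≤ a)
    (hs0 : W0.Size p0 (2 * π * Complex.I) a) (ha0 : W0.Ar p0 a) (hL : W.IsLat τ Ω)
    (hAr : W.Ar (Ω / 2) a)
    (hs : ∀ (A : ℕ) (m n : ℤ), a ≤ A → (m ≠ 0 ∨ n ≠ 0) → |m| ≤ A → |n| ≤ A →
      W.Size (Ω / 2) (Ω * (m + n * τ)) (c * A ^ 2)) :
    ∃ C k : ℕ, ∀ (A : ℕ) (α : ℂ) (m n : ℤ), 1 ≤ A → AI α A → (m ≠ 0 ∨ n ≠ 0) →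
      |(m : ℝ)| ≤ Real.exp A → |(n : ℝ)| ≤ Real.exp A →
      Real.exp (-(C * (A : ℝ) ^ k)) ≤ ‖α * (2 * π * Complex.I) - Ω * (m + n * τ)‖ := by
  obtain ⟨x0, hx0⟩ := poly_le_exp k
  obtain ⟨ρ, hρ, hsep⟩ := W.sep
  obtain ⟨C0, hC0⟩ := exists_nat_ge (-Real.log ρ)
  obtain ⟨c1, hc1⟩ : ∃ c1, c1 = A0 + a + c * a ^ 2 := ⟨_, rfl⟩
  obtain ⟨c2, hc2⟩ : ∃ c2, c2 = 2 + c1 + x0 + c * (a * c1 ^ k) ^ 2 := ⟨_, rfl⟩
  refine ⟨2 * c2 ^ (k + 1) + C0, (2 * k + 1) * (k + 1), fun A α m n hA hα hmn hm hn => ?_⟩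
  have key : ∀ (B : ℕ) (β0 θ : ℂ) (m1 m2 : ℤ) (u1 u2 : ℂ), c1 ≤ B → β0 ≠ 0 → θ ≠ 0 →
      IsCoprime m1 m2 → W.Size (Ω / 2) u1 B → W.Size (Ω / 2) u2 B → AI β0 B → AI (θ * m1) B →
      AI (θ * m2) B → ‖β0 * (2 * π * Complex.I) - θ * m1 * u1 - θ * m2 * u2‖ ≤
        Real.exp (-(B : ℝ) ^ k) → |m1| ≤ (B ^ k : ℕ) ∧ |m2| ≤ (B ^ k : ℕ) := by
    intro B β0 θ m1 m2 u1 u2 hB hβ hθ hcop s1 s2 a0 a1 a2 hN
    have hO := hb B ![W0, W, W] ![β0, θ * m1, θ * m2] ![p0, Ω / 2, Ω / 2]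
      ![2 * π * Complex.I, u1, u2] (by omega) hβ
      (fun i => by
        fin_cases i
        exacts [size_mono hs0 (by omega), s1, s2])
      (fun i => by
        fin_cases i
        exacts [ar_mono ha0 (by omega), ar_mono hAr (by omega), ar_mono hAr (by omega)])
      (fun i => by
        fin_cases i
        exacts [a0, a1, a2]) hN
    rcases obs_cases (W := ![W0, W, W]) hL hL hτ hΩ hθ hcop hβ rfl rfl hO with h | ⟨μ, hμ, -, h⟩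
    · exact h
    · exact absurd h (not_few hτ hΩ (inv_ne_zero hμ) h0 hL)
  have hA' : (1 : ℝ) ≤ A := by exact_mod_cast hA
  have hP : (1 : ℝ) ≤ (A : ℝ) ^ ((2 * k + 1) * (k + 1)) := one_le_pow₀ hA'
  by_contra hcon
  push Not at hcon
  by_cases hα0 : α = 0
  · have hne : Ω * (m + n * τ) ≠ 0 := by
      refine mul_ne_zero hΩ fun h => ?_
      have e1 := congrArg Complex.im h
      have hn0 : (n : ℝ) = 0 := by simpa [hτ.ne'] using e1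
      have hn0' : n = 0 := by exact_mod_cast hn0
      have hm0 : m = 0 := by simpa [hn0'] using h
      omega
    have h1 := hsep _ ((hL _).2 ⟨m, n, rfl⟩) hne
    rw [hα0, zero_mul, zero_sub, norm_neg] at hcon
    have h2 := h1.trans_lt hcon
    rw [← Real.exp_log hρ, Real.exp_lt_exp] at h2
    push_cast at h2
    have h3 : (0 : ℝ) ≤ 2 * (c2 : ℝ) ^ (k + 1) := by positivity
    nlinarith [(Nat.cast_nonneg C0 : (0 : ℝ) ≤ C0)]
  -- the two levels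
  obtain ⟨A1, hA1⟩ : ∃ A1, A1 = c1 * A := ⟨_, rfl⟩
  obtain ⟨A2, hA2⟩ : ∃ A2, A2 = c2 * A ^ (2 * k + 1) := ⟨_, rfl⟩
  have hc1A : c1 ≤ A1 := hA1 ▸ Nat.le_mul_of_pos_right _ hA
  have hAA1 : A ≤ A1 := hA1 ▸ Nat.le_mul_of_pos_left _ (by omega)
  have hAp : A ≤ A ^ (2 * k + 1) := Nat.le_self_pow (by omega) A
  have hA12 : A1 ≤ A2 := by rw [hA1, hA2]; exact Nat.mul_le_mul (by omega) hAp
  have h2A : 2 * A ≤ A2 := by rw [hA2]; exact Nat.mul_le_mul (by omega) hAp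
  have hxA : x0 ≤ A2 := by
    rw [hA2]
    exact le_trans (by omega) (Nat.le_mul_of_pos_right c2 (by omega))
  have hcA : c * (a * A1 ^ k) ^ 2 ≤ A2 := by
    have e : c * (a * A1 ^ k) ^ 2 = c * (a * c1 ^ k) ^ 2 * A ^ (2 * k) := by rw [hA1]; ring
    rw [e, hA2]
    exact Nat.mul_le_mul (by omega) (Nat.pow_le_pow_right hA (by omega))
  have hA2r : (1 : ℝ) ≤ A2 := by exact_mod_cast (by omega : 1 ≤ A2)
  have hsm : ‖α * (2 * π * Complex.I) - Ω * (m + n * τ)‖ ≤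
      Real.exp (-((A2 : ℝ) ^ k + A2)) := by
    refine hcon.le.trans (Real.exp_le_exp.2 (neg_le_neg ?_))
    have h1 : (A2 : ℝ) ^ k ≤ (A2 : ℝ) ^ (k + 1) := pow_le_pow_right₀ hA2r (by omega)
    have h2 : (A2 : ℝ) ≤ (A2 : ℝ) ^ (k + 1) := le_self_pow₀ hA2r (by omega)
    have h3 : (A2 : ℝ) ^ (k + 1) = (c2 : ℝ) ^ (k + 1) * (A : ℝ) ^ ((2 * k + 1) * (k + 1)) := by
      rw [hA2]
      push_cast
      rw [mul_pow, ← pow_mul]
    push_cast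
    nlinarith [(Nat.cast_nonneg C0 : (0 : ℝ) ≤ C0)]
  obtain ⟨g, m1, m2, hg, hcop, rfl, rfl⟩ : ∃ (g : ℕ) (m1 m2 : ℤ), 0 < g ∧ IsCoprime m1 m2 ∧
      m = g * m1 ∧ n = g * m2 := by
    have hg : 0 < Int.gcd m n := Int.gcd_pos_iff.2 hmn
    obtain ⟨m1, m2, h1, h2, h3⟩ := Int.exists_gcd_one hg
    exact ⟨_, m1, m2, hg, Int.isCoprime_iff_gcd_eq_one.2 h1, by rw [mul_comm]; exact h2,
      by rw [mul_comm]; exact h3⟩
  have hg' : (g : ℂ) ≠ 0 := by exact_mod_cast hg.ne'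
  have hm12 : m1 ≠ 0 ∨ m2 ≠ 0 := hmn.imp right_ne_zero_of_mul right_ne_zero_of_mul
  have hcast : ∀ x : ℤ, (g : ℂ) * x = ((g * x : ℤ) : ℂ) := fun x => by push_cast; ring
  have hgA : (g : ℝ) ≤ Real.exp A := by
    have aux : ∀ x : ℤ, x ≠ 0 → |((g * x : ℤ) : ℝ)| ≤ Real.exp A → (g : ℝ) ≤ Real.exp A := by
      intro x hx h
      have h1 : (1 : ℝ) ≤ |(x : ℝ)| := by exact_mod_cast Int.one_le_abs hx
      push_cast at h
      rw [abs_mul, Nat.abs_cast] at h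
      nlinarith [(Nat.cast_nonneg g : (0 : ℝ) ≤ g)]
    exact hm12.elim (fun h => aux _ h hm) fun h => aux _ h hn
  obtain ⟨hK1, hK2⟩ := key A1 α g m1 m2 (Ω * ((1 : ℤ) + (0 : ℤ) * τ)) (Ω * ((0 : ℤ) + (1 : ℤ) * τ))
    hc1A hα0 hg' hcop
    (size_mono (hs a 1 0 le_rfl (by simp) (by simpa using ha) (by simp)) (by omega))
    (size_mono (hs a 0 1 le_rfl (by simp) (by simp) (by simpa using ha)) (by omega))
    (ai_mono hα hAA1) (hcast m1 ▸ ai_mono (ai_int hA hm) hAA1)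
    (hcast m2 ▸ ai_mono (ai_int hA hn) hAA1)
    (by
      have e : α * (2 * π * Complex.I) - g * m1 * (Ω * ((1 : ℤ) + (0 : ℤ) * τ)) -
          g * m2 * (Ω * ((0 : ℤ) + (1 : ℤ) * τ)) = α * (2 * π * Complex.I) -
            Ω * (((g * m1 : ℤ) : ℂ) + ((g * m2 : ℤ) : ℂ) * τ) := by push_cast; ring
      rw [e]
      refine hsm.trans (Real.exp_le_exp.2 (neg_le_neg ?_))
      have : (A1 : ℝ) ^ k ≤ (A2 : ℝ) ^ k := by gcongr
      linarith)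
  have hKpos : 0 < A1 ^ k := Nat.pow_pos (by omega)
  have haK : A1 ^ k ≤ a * A1 ^ k := Nat.le_mul_of_pos_left _ ha
  have hsz : W.Size (Ω / 2) (Ω * (m1 + m2 * τ)) A2 :=
    size_mono (hs (a * A1 ^ k) m1 m2 (Nat.le_mul_of_pos_right _ hKpos) hm12
      (hK1.trans (by exact_mod_cast haK)) (hK2.trans (by exact_mod_cast haK))) hcA
  obtain ⟨M, hM⟩ : ∃ M : ℕ, M = A2 ^ k + 1 := ⟨_, rfl⟩
  have hM1 : 2 * (M : ℝ) + 1 ≤ Real.exp (A2 / 2) := by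
    have := hx0 A2 hxA
    rw [hM]
    push_cast
    linarith
  have hM2 : ∀ x : ℝ, 0 ≤ x → x ≤ 2 * M + 1 → Real.exp A * x ≤ Real.exp A2 := by
    intro x hx hx'
    have h1 : (A : ℝ) + A2 / 2 ≤ A2 := by
      have : (2 : ℝ) * A ≤ A2 := by exact_mod_cast h2A
      linarith
    refine le_trans ?_ (Real.exp_le_exp.2 h1)
    rw [Real.exp_add]
    exact mul_le_mul_of_nonneg_left (hx'.trans hM1) (Real.exp_pos _).le
  have hM0 : (0 : ℝ) ≤ M := Nat.cast_nonneg M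
  have hgi : AI ((g : ℤ) : ℂ) A := ai_int hA (by simpa using hgA)
  have hfin := key A2 (α * ((2 * M + 1 : ℤ) : ℂ)) ((g : ℤ) : ℂ) M (M + 1) _ _ (by omega)
    (mul_ne_zero hα0 (by exact_mod_cast (by omega : (2 * M + 1 : ℤ) ≠ 0))) (by simpa using hg')
    ⟨-1, 1, by ring⟩ hsz hsz
    (ai_mul_int hα (by omega) (hM2 _ (abs_nonneg _) (by
      push_cast
      rw [abs_of_nonneg (by positivity)])))
    (ai_mul_int hgi (by omega) (hM2 _ (abs_nonneg _) (by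
      push_cast
      rw [abs_of_nonneg (by positivity)]
      linarith)))
    (ai_mul_int hgi (by omega) (hM2 _ (abs_nonneg _) (by
      push_cast
      rw [abs_of_nonneg (by positivity)]
      linarith)))
    (by
      have e : α * ((2 * M + 1 : ℤ) : ℂ) * (2 * π * Complex.I) -
          ((g : ℤ) : ℂ) * ((M : ℤ) : ℂ) * (Ω * (m1 + m2 * τ)) -
          ((g : ℤ) : ℂ) * ((M + 1 : ℤ) : ℂ) * (Ω * (m1 + m2 * τ)) =
          ((2 * M + 1 : ℕ) : ℂ) * (α * (2 * π * Complex.I) -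
            Ω * (((g * m1 : ℤ) : ℂ) + ((g * m2 : ℤ) : ℂ) * τ)) := by push_cast; ring
      rw [e, norm_mul, Complex.norm_natCast]
      have h1 : ((2 * M + 1 : ℕ) : ℝ) ≤ Real.exp A2 := by
        push_cast
        exact hM1.trans (Real.exp_le_exp.2 (by linarith))
      refine (mul_le_mul h1 hsm (norm_nonneg _) (Real.exp_pos _).le).trans (le_of_eq ?_)
      rw [← Real.exp_add]
      congr 1
      ring)
  have := hfin.1
  rw [Nat.abs_cast] at this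
  omega

end ObsAux

end Pool.Agent.Lib.ZP3
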