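import Pool.Agent.Lib.ZP3.Ell2
import Pool.Agent.Lib.ZP3.ObsCore
import Pool.Agent.Lib.ZP3.Defs2

/-! Block TM: an approximation measure for a period ratio with algebraic invariant. -/

open UpperHalfPlane Filter Topology Metric
open scoped Real

namespace Pool.Agent.Lib.ZP3

open Pool.Agent.Lib.MP_0704bf_ag Pool.Agent.Lib.helper6

namespace TM

/-- Liouville's inequality -/
theorem alg_case {τ : ℂ} (h : IsAlgebraic ℚ τ) : ∃ C k : ℕ, ∀ (θ : ℂ) (A : ℕ),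
    θ ≠ τ → Sm θ A → Real.exp (-(C * (A : ℝ) ^ k)) ≤ ‖θ - τ‖ := by
  obtain ⟨d, a, hd, hi, hdeg, hn⟩ := exists_AI h
  refine ⟨d + 1 + (1 + d + a) * a, 2, fun θ A hne ⟨r, hr, hrA, ki, kdeg, kn⟩ ↦ ?_⟩
  have hA : (1 : ℝ) ≤ A := by exact_mod_cast kdeg.pos
  have hd' : (d : ℂ) ≠ 0 := by exact_mod_cast hd.ne'
  have hr' : (r : ℂ) ≠ 0 := by exact_mod_cast hr.ne'
  have hd0 : (0 : ℝ) ≤ d := Nat.cast_nonneg d
  have ha0 : (0 : ℝ) ≤ a := Nat.cast_nonneg a
  have hde : (d : ℝ) + 1 ≤ Real.exp d := Real.add_one_le_exp _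
  have hae : 1 ≤ Real.exp a := Real.one_le_exp ha0
  have e : (d : ℂ) * (r * θ) + -(r * (d * τ)) = d * r * (θ - τ) := by ring
  have hl := liouville (z := (d : ℂ) * (r * θ) + -(r * (d * τ))) (D := A * a)
    (B := Real.exp (A + d + a))
    (((isIntegral_natCast d).mul ki).add ((isIntegral_natCast r).mul hi).neg)
    (by rw [e]; exact mul_ne_zero (mul_ne_zero hd' hr') (sub_ne_zero.2 hne))
    ((kdeg.map (fun x ↦ d * x) (fun σ ↦ by simp)).add
      (hdeg.map (fun x ↦ -(r * x)) (fun σ ↦ by simp)))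
    (Real.one_le_exp (by positivity)) (fun σ ↦ by
      rw [map_add, map_neg, map_mul σ (d : ℂ), map_mul σ (r : ℂ) (d * τ), map_natCast, map_natCast]
      refine (norm_add_le _ _).trans ?_
      rw [norm_neg, norm_mul (d : ℂ), norm_mul (r : ℂ), Complex.norm_natCast, Complex.norm_natCast,
        Real.exp_add, Real.exp_add]
      have h1 : (d : ℝ) * ‖σ (r * θ)‖ ≤ d * Real.exp A := by gcongr; exact kn σ
      have h2 : (r : ℝ) * ‖σ (d * τ)‖ ≤ Real.exp A * Real.exp a :=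
        mul_le_mul hrA (hn σ) (norm_nonneg _) (Real.exp_pos _).le
      have h3 : (d : ℝ) + Real.exp a ≤ Real.exp d * Real.exp a := by nlinarith
      have h4 := mul_le_mul_of_nonneg_left h3 (Real.exp_pos A).le
      linarith)
  rw [e, norm_mul, norm_mul, Complex.norm_natCast, Complex.norm_natCast, ← Real.exp_nat_mul] at hl
  have h1 : (d : ℝ) * r ≤ Real.exp d * Real.exp A :=
    mul_le_mul (by linarith) hrA (Nat.cast_nonneg r) (Real.exp_pos _).le
  have h2 : 1 ≤ ‖θ - τ‖ * Real.exp (d + A + ((A * a : ℕ) : ℝ) * (A + d + a)) := by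
    refine hl.trans ?_
    rw [Real.exp_add, Real.exp_add (d : ℝ)]
    calc _ ≤ Real.exp d * Real.exp A * ‖θ - τ‖ * Real.exp (((A * a : ℕ) : ℝ) * (A + d + a)) := by
          gcongr
      _ = _ := by ring
  rw [Real.exp_neg, inv_le_iff_one_le_mul₀ (Real.exp_pos _)]
  refine h2.trans (mul_le_mul_of_nonneg_left (Real.exp_le_exp.2 ?_) (norm_nonneg _))
  push_cast
  have h3 : (A : ℝ) ≤ A ^ 2 := by nlinarith
  have h4 : (d : ℝ) ≤ d * A ^ 2 := by nlinarith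
  have h5 : (d + a : ℝ) * a * A ≤ (d + a) * a * A ^ 2 := by gcongr
  nlinarith

/-- a non-real multiplier makes the period ratio algebraic -/
theorem alg_of_few {W : WD} {τ : ℍ} {Ω μ : ℂ} {K : ℕ} (hL : W.IsLat τ Ω) (hΩ : Ω ≠ 0)
    (hf : Few μ W.Λ W.Λ K) (hμ : μ.im ≠ 0) : IsAlgebraic ℚ (τ : ℂ) := by
  obtain ⟨n, a, b, c, d, hn, -, hM, e⟩ := IE.rel_of_few hL hL hΩ hf
  have hc : c ≠ 0 := by
    rintro rfl
    rw [mul_div_cancel_right₀ _ hΩ] at e
    have := congrArg Complex.im e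
    simp [hn.ne', hμ] at this
  refine ⟨Polynomial.C (c : ℚ) * Polynomial.X ^ 2 + Polynomial.C ((d : ℚ) - a) * Polynomial.X +
    Polynomial.C (-(b : ℚ)), fun h0 ↦ hc ?_, ?_⟩
  · have := congrArg (fun p ↦ Polynomial.coeff p 2) h0
    simp only [Polynomial.coeff_add, Polynomial.coeff_C_mul, Polynomial.coeff_X_pow,
      Polynomial.coeff_X, Polynomial.coeff_C, Polynomial.coeff_zero] at this
    simpa using this
  · unfold Mob at hM
    simp only [map_add, map_mul, map_pow, Polynomial.aeval_C, Polynomial.aeval_X, map_sub, map_neg,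
      eq_ratCast, Rat.cast_intCast]
    linear_combination hM

open ObsAux in
theorem core {W : WD} {τ : ℍ} {Ω : ℂ} {a : ℕ} (hτ : ¬ IsAlgebraic ℚ (τ : ℂ)) (hL : W.IsLat τ Ω)
    (hΩ : Ω ≠ 0) (hAr : W.Ar (Ω / 2) a) (s0 : W.Size (Ω / 2) (Ω * τ) a)
    (s1 : W.Size (Ω / 2) Ω a) (hΩa : ‖Ω‖ ≤ Real.exp a) (hτa : Real.exp (-a) ≤ τ.im) :
    ∃ C k : ℕ, ∀ (θ : ℂ) (A : ℕ), Sm θ A → Real.exp (-(C * (A : ℝ) ^ k)) ≤ ‖θ - τ‖ := by
  obtain ⟨k, A0, hb⟩ := baker
  obtain ⟨x0, hx0⟩ := poly_le_exp k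
  obtain ⟨c, hc⟩ : ∃ c, c = 2 + a + A0 + x0 := ⟨_, rfl⟩
  refine ⟨3 * c ^ (k + 1), k + 1, fun θ A ⟨r, hr, hrA, hθ⟩ ↦ ?_⟩
  have hA : 1 ≤ A := hθ.2.1.pos
  by_contra hcon
  push Not at hcon
  obtain ⟨B, hB⟩ : ∃ B, B = c * A := ⟨_, rfl⟩
  have hcB : c ≤ B := hB ▸ Nat.le_mul_of_pos_right _ hA
  have h2A : 2 * A ≤ B := by rw [hB]; exact Nat.mul_le_mul_right _ (by omega)
  have hB1 : (1 : ℝ) ≤ B := by exact_mod_cast (by omega : 1 ≤ B)
  have haB : (a : ℝ) ≤ B := by exact_mod_cast (by omega : a ≤ B)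
  have hsm : ‖θ - τ‖ < Real.exp (-((B : ℝ) ^ k + B + B)) := by
    refine hcon.trans_le (Real.exp_le_exp.2 (neg_le_neg ?_))
    have h1 : (B : ℝ) ^ k ≤ (B : ℝ) ^ (k + 1) := pow_le_pow_right₀ hB1 (by omega)
    have h2 : (B : ℝ) ≤ (B : ℝ) ^ (k + 1) := le_self_pow₀ hB1 (by omega)
    have h3 : (B : ℝ) ^ (k + 1) = (c : ℝ) ^ (k + 1) * (A : ℝ) ^ (k + 1) := by
      rw [hB]
      push_cast
      rw [mul_pow]
    push_cast
    linarith
  have him : θ.im ≠ 0 := by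
    intro h0
    have h1 := Complex.abs_im_le_norm (θ - τ)
    rw [Complex.sub_im, h0, zero_sub, abs_neg, coe_im, abs_of_pos τ.im_pos] at h1
    have h2 : Real.exp (-((B : ℝ) ^ k + B + B)) ≤ Real.exp (-a) :=
      Real.exp_le_exp.2 (neg_le_neg (by linarith [pow_nonneg (zero_le_one.trans hB1) k]))
    linarith
  have hθ0 : θ ≠ 0 := fun h ↦ him (by simp [h])
  have hr' : (r : ℂ) ≠ 0 := by exact_mod_cast hr.ne'
  obtain ⟨M, hM⟩ : ∃ M : ℕ, M = B ^ k + 1 := ⟨_, rfl⟩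
  have hM1 : 2 * (M : ℝ) + 1 ≤ Real.exp (B / 2) := by
    have := hx0 B (by omega)
    rw [hM]
    push_cast
    linarith
  have hM2 : ∀ x : ℝ, 0 ≤ x → x ≤ 2 * M + 1 → Real.exp A * x ≤ Real.exp B := by
    intro x hx hx'
    have h1 : (A : ℝ) + B / 2 ≤ B := by
      have : (2 : ℝ) * A ≤ B := by exact_mod_cast h2A
      linarith
    refine le_trans ?_ (Real.exp_le_exp.2 h1)
    rw [Real.exp_add]
    exact mul_le_mul_of_nonneg_left (hx'.trans hM1) (Real.exp_pos _).le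
  have hM0 : (0 : ℝ) ≤ M := Nat.cast_nonneg M
  have hri : AI ((r : ℤ) : ℂ) A := ai_int hA (by simpa using hrA)
  have hM3 : ((2 * M + 1 : ℤ) : ℂ) ≠ 0 := by exact_mod_cast (by omega : (2 * M + 1 : ℤ) ≠ 0)
  have hβ : ((r : ℤ) : ℂ) * ((2 * M + 1 : ℤ) : ℂ) ≠ 0 := mul_ne_zero (by simpa using hr') hM3
  have hO := hb B ![W, W, W]
    ![((r : ℤ) : ℂ) * ((2 * M + 1 : ℤ) : ℂ), r * θ * ((M : ℤ) : ℂ), r * θ * ((M + 1 : ℤ) : ℂ)]
    ![Ω / 2, Ω / 2, Ω / 2] ![Ω * τ, Ω, Ω] (by omega) hβ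
    (fun i ↦ by
      fin_cases i
      exacts [size_mono s0 (by omega), size_mono s1 (by omega), size_mono s1 (by omega)])
    (fun i ↦ by
      fin_cases i
      exacts [ar_mono hAr (by omega), ar_mono hAr (by omega), ar_mono hAr (by omega)])
    (fun i ↦ by
      fin_cases i
      · exact ai_mul_int hri (by omega) (hM2 _ (abs_nonneg _) (by
          push_cast
          rw [abs_of_nonneg (by positivity)]))
      · exact ai_mul_int hθ (by omega) (hM2 _ (abs_nonneg _) (by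
          push_cast
          rw [abs_of_nonneg (by positivity)]
          linarith))
      · exact ai_mul_int hθ (by omega) (hM2 _ (abs_nonneg _) (by
          push_cast
          rw [abs_of_nonneg (by positivity)]
          linarith)))
    (by
      have e : ((r : ℤ) : ℂ) * ((2 * M + 1 : ℤ) : ℂ) * (Ω * τ) - r * θ * ((M : ℤ) : ℂ) * Ω -
          r * θ * ((M + 1 : ℤ) : ℂ) * Ω = -((r : ℂ) * ((2 * M + 1 : ℕ) : ℂ) * Ω * (θ - τ)) := by
        push_cast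
        ring
      refine (congrArg norm e).le.trans ?_
      rw [norm_neg, norm_mul, norm_mul, norm_mul, Complex.norm_natCast, Complex.norm_natCast]
      have h1 : (r : ℝ) * ((2 * M + 1 : ℕ) : ℝ) ≤ Real.exp B := by
        push_cast
        exact (mul_le_mul_of_nonneg_right hrA (by positivity)).trans
          (hM2 _ (by positivity) le_rfl)
      have h2 : ‖Ω‖ ≤ Real.exp B := hΩa.trans (Real.exp_le_exp.2 haB)
      calc _ ≤ Real.exp B * Real.exp B * Real.exp (-((B : ℝ) ^ k + B + B)) := by gcongr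
        _ = _ := by
          rw [← Real.exp_add, ← Real.exp_add]
          congr 1
          ring)
  rcases obs_cases2 (W := ![W, W, W]) (m1 := M) (m2 := M + 1) hL hL τ.im_pos hΩ
    (mul_ne_zero hr' hθ0) ⟨-1, 1, by ring⟩ hβ rfl rfl hO with h | ⟨μ, -, hf, -, hμ⟩
  · have := h.1
    rw [Nat.abs_cast] at this
    omega
  · refine hτ (alg_of_few hL hΩ hf (hμ ?_))
    have e : ((r : ℤ) : ℂ) * ((2 * M + 1 : ℤ) : ℂ) / (r * θ) = ((2 * M + 1 : ℝ) : ℂ) * θ⁻¹ := by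
      push_cast
      field_simp
    refine fun h0 ↦ him ?_
    have h1 : (((2 * M + 1 : ℝ) : ℂ) * θ⁻¹).im = 0 := e ▸ h0
    rw [Complex.im_ofReal_mul, Complex.inv_im, mul_eq_zero, div_eq_zero_iff, neg_eq_zero,
      Complex.normSq_eq_zero] at h1
    rcases h1 with h1 | h1 | h1
    · linarith
    · exact h1
    · exact absurd h1 hθ0

end TM

open ObsAux in
theorem tau_measure (τ : ℍ) (h : IsAlgebraic ℚ (jInv τ)) : ∃ C k : ℕ, ∀ (θ : ℂ) (A : ℕ),
    θ ≠ τ → Sm θ A → Real.exp (-(C * (A : ℝ) ^ k)) ≤ ‖θ - τ‖ := by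
  by_cases hτa : IsAlgebraic ℚ (τ : ℂ)
  · exact TM.alg_case hτa
  obtain ⟨d, a1, hd, ha1⟩ := exists_AI h
  have hd' : (12 * d : ℂ) ^ 6 ≠ 0 := by
    have : (d : ℂ) ≠ 0 := by exact_mod_cast hd.ne'
    exact pow_ne_zero _ (mul_ne_zero (by norm_num) this)
  obtain ⟨Ω, hΩ'⟩ := IsAlgClosed.exists_pow_nat_eq
    ((2 * π : ℂ) ^ 12 * ModularForm.discriminant τ / (12 * d) ^ 6) (n := 12) (by norm_num)
  have hΩ : Ω ^ 12 * (12 * d) ^ 6 = (2 * π) ^ 12 * ModularForm.discriminant τ := by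
    rw [hΩ', div_mul_cancel₀ _ hd']
  have hΩ0 : Ω ≠ 0 := by
    rintro rfl
    have h1 := ModularForm.discriminant_ne_zero τ
    simp [h1, Real.pi_ne_zero] at hΩ
  have hτ : 0 < τ.im := τ.im_pos
  obtain ⟨c, -, hc⟩ := exists_ell_size (|τ.re| + 1 / τ.im)
  obtain ⟨W, hE, hY, hL, hs⟩ := hc τ Ω hΩ0 (le_add_of_nonneg_right (by positivity)) (by
    rw [add_mul, one_div_mul_cancel hτ.ne']
    exact le_add_of_nonneg_left (by positivity))
  obtain ⟨c', -, hc'⟩ := ell_ar d hd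
  have hAr := hc' W τ Ω (a1 + 1) hE hY hL hΩ (by omega) (ai_mono ha1 (by omega))
  obtain ⟨a2, ha2⟩ := exists_nat_ge (τ.im + |Real.log ‖Ω‖| + |Real.log τ.im| + 1)
  have hn : 0 < ‖Ω‖ := norm_pos_iff.2 hΩ0
  have h2 := abs_le.1 (le_refl |Real.log ‖Ω‖|)
  have h3 := abs_le.1 (le_refl |Real.log τ.im|)
  have h4 := abs_nonneg (Real.log ‖Ω‖)
  have h5 := abs_nonneg (Real.log τ.im)
  have h6 : 1 ≤ a2 := by exact_mod_cast (by linarith : (1 : ℝ) ≤ a2)
  have hup : ‖Ω‖ ≤ Real.exp a2 := by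
    rw [← Real.exp_log hn]
    exact Real.exp_le_exp.2 (by linarith [h2.2])
  have hlow : Real.exp (-a2) ≤ ‖Ω‖ := by
    rw [← Real.exp_log hn]
    exact Real.exp_le_exp.2 (by linarith [h2.1])
  have s0 := hs a2 0 1 h6 (by linarith) hlow hup (by simp) (by simp) (by simpa using h6)
  have s1 := hs a2 1 0 h6 (by linarith) hlow hup (by simp) (by simpa using h6) (by simp)
  simp only [Int.cast_zero, Int.cast_one, zero_add, one_mul, zero_mul, add_zero, mul_one] at s0 s1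
  obtain ⟨C, k, hC⟩ := TM.core (a := c' * (a1 + 1) ^ 2 + c * a2 ^ 2 + a2) hτa hE.1 hΩ0
    (ar_mono hAr (by omega)) (size_mono s0 (by omega)) (size_mono s1 (by omega))
    (hup.trans (exp_mono (by omega))) (by
      rw [← Real.exp_log hτ]
      refine Real.exp_le_exp.2 ?_
      have : (a2 : ℝ) ≤ ((c' * (a1 + 1) ^ 2 + c * a2 ^ 2 + a2 : ℕ) : ℝ) := by
        exact_mod_cast (by omega)
      linarith [h3.1])
  exact ⟨C, k, fun θ A _ hθ ↦ hC θ A hθ⟩

end Pool.Agent.Lib.ZP3
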