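import Pool.Agent.Lib.ZP3.Sm2
import Pool.Agent.Lib.ZP3.Ent
import Pool.Agent.Lib.ZP3.Gshl
import Pool.Agent.Lib.ZP3.TauMeas
import Pool.Agent.Lib.ZP3.Curve2
import Pool.Agent.Lib.ZP3.Chart2
import Pool.Agent.Lib.ZP3.Taylor

/-! Archimedean distance bound at a pole for two complex multiplication conditions. -/


open UpperHalfPlane Filter Topology Metric
open scoped Real MatrixGroups

namespace Pool.Agent.Lib.ZP3

open Pool.Agent.Lib.MP_0704bf_ag Pool.Agent.Lib.helper6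

namespace ARCHC

variable {κ : Type} [Fintype κ] [DecidableEq κ] {A B : κ → Polynomial ℂ}
  {P : ℂ} {E : ℕ} {m : κ → ℕ} {r : ℝ} {g : κ → ℂ → ℂ} {i j : κ}

/-- If both lifts are small algebraic numbers, the local parameter is not too small. -/
theorem key (h : Nice A B) (hA : AlgK A) (hB : AlgK B) (hN : NoMod A B)
    (hc : CuspD A B P E m r g) (hij : i ≠ j) (hi : 0 < m i) : ∃ r0 : ℝ, 0 < r0 ∧
    ∀ (ι : Type) (a : ι → ℕ) (w : ι → ℂ), (∀ s, 1 ≤ a s) → (∀ s, ‖Complex.exp (w s)‖ < r0) →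
      (SF a fun s ↦ cf m g i (w s)) → (SF a fun s ↦ cf m g j (w s)) →
      HBF.LB a fun s ↦ ‖Complex.exp (w s)‖ := by
  have hball : ∀ᶠ u in 𝓝 (0 : ℂ), u ∈ ball (0 : ℂ) r := ball_mem_nhds _ hc.hr
  rcases Nat.eq_zero_or_pos (m j) with hj | hj
  · have hP : IsAlgebraic ℚ P := (hB i).alg_root (h.ne_zero i) ((hc.pole i).1 hi)
    obtain ⟨h0, h1⟩ := hc.fin 0 (mem_ball_self hc.hr) j hj
    rw [zero_pow hc.hE.ne', add_zero] at h1
    have h2 : IsAlgebraic ℚ (jInv ⟨g j 0, h0⟩) := by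
      rw [← ofComplex_apply_of_im_pos h0]
      change IsAlgebraic ℚ (jc (g j 0))
      rw [h1, xk, div_eq_mul_inv]
      exact ((hA j).alg_eval hP).mul ((hB j).alg_eval hP).inv
    obtain ⟨C, k, hC⟩ := tau_measure _ h2
    obtain ⟨K, hK⟩ := HBF.lip_of_differentiableAt
      (hc.an j 0 (mem_ball_self hc.hr)).differentiableAt
    have h3 : ∀ᶠ u in 𝓝 (0 : ℂ),
        P + u ^ E ∉ {t | (B j).eval t ≠ 0 ∧ xk A B t j = xk A B P j} \ {P} := by
      have h4 : ContinuousAt (fun u : ℂ ↦ P + u ^ E) 0 := by fun_prop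
      refine h4.eventually_mem
        (((h.fiber j (xk A B P j)).subset Set.sdiff_subset).isClosed.isOpen_compl.mem_nhds ?_)
      simp [hc.hE.ne']
    obtain ⟨r0, hr0, hr⟩ := Metric.eventually_nhds_iff.1 (hball.and (hK.and h3))
    refine ⟨r0, hr0, fun ι a w ha hw _ hf ↦ ?_⟩
    have hw' := fun s ↦ hr (y := Complex.exp (w s)) (by simpa using hw s)
    have e : ∀ s, cf m g j (w s) = g j (Complex.exp (w s)) := fun s ↦ by simp [cf, hj]
    refine (hf.measure hC fun s hs ↦ (hw' s).2.2 ⟨⟨?_, ?_⟩, ?_⟩).of_le_mul ha (HBF.EB.const K)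
      (fun _ ↦ norm_nonneg _) fun s ↦ ?_
    · exact (hc.inf (w s) (by simpa using (hw' s).1)).1 j
    · rw [← (hc.fin _ (hw' s).1 j hj).2, ← e s, hs, ← h1]
    · simp
    · rw [e s]
      exact (hw' s).2.1
  · obtain ⟨l, e, g1, he, hg, hg0, hl, -, hu⟩ := cusp_g h hA hB hN hc hij hi hj
    obtain ⟨C, k, hC⟩ := log_measure hl
    have h1 : ContinuousAt g1 0 := (hg 0 (mem_ball_self hc.hr)).continuousAt
    have h2 : ∀ᶠ u in 𝓝 (0 : ℂ), g1 u ≠ 0 := h1.eventually_ne hg0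
    have h3 : ∀ᶠ u in 𝓝 (0 : ℂ), ‖g1 u‖ < ‖g1 0‖ + 1 :=
      h1.norm.eventually_lt continuousAt_const (lt_add_one _)
    have h4 : ∀ᶠ u in 𝓝 (0 : ℂ), u ∈ ball (0 : ℂ) 1 := ball_mem_nhds _ one_pos
    obtain ⟨r0, hr0, hr⟩ := Metric.eventually_nhds_iff.1 (hball.and (h2.and (h3.and h4)))
    refine ⟨r0, hr0, fun ι a w ha hw hfi hfj ↦ ?_⟩
    have hw' := fun s ↦ hr (y := Complex.exp (w s)) (by simpa using hw s)
    have e1 : ∀ s, (m i : ℂ) * cf m g j (w s) - m j * cf m g i (w s) =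
        l + Complex.exp (w s) ^ e * g1 (Complex.exp (w s)) := fun s ↦ by
      rw [← hu _ (hw' s).1, cf, cf]
      ring
    have h5 := ((SF.const (isAlgebraic_natCast (m i))).mul ha hfj).sub ha
      ((SF.const (isAlgebraic_natCast (m j))).mul ha hfi)
    refine (h5.measure hC fun s ↦ ?_).of_le_mul ha (HBF.EB.const (‖g1 0‖ + 1))
      (fun _ ↦ norm_nonneg _) fun s ↦ ?_
    · rw [e1 s]
      simpa using (hw' s).2.1
    · rw [e1 s, sub_add_cancel_left, norm_neg, norm_mul, norm_pow, mul_comm]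
      refine mul_le_mul (hw' s).2.2.1.le ?_ (by positivity) (by positivity)
      exact pow_le_of_le_one (norm_nonneg _) (mem_ball_zero_iff.1 (hw' s).2.2.2).le he.ne'

end ARCHC

section DIST
variable {κ : Type} [Fintype κ] [DecidableEq κ] {A B : κ → Polynomial ℂ} {P : ℂ} {i j : κ}

theorem arch_cm (h : Nice A B) (hA : AlgK A) (hB : AlgK B) (hN : NoMod A B) (hij : i ≠ j)
    (hi : (B i).eval P = 0) : ∃ C k : ℕ, ∀ (t : ℂ) (a n1 n2 : ℕ), 1 ≤ a → NPk B t →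
      ¬ IsSquare n1 → Iso n1 (xk A B t i) (xk A B t i) → ¬ IsSquare n2 →
      Iso n2 (xk A B t j) (xk A B t j) → (n1 : ℝ) ≤ Real.exp a → (n2 : ℝ) ≤ Real.exp a →
      Real.exp (-(C * (a : ℝ) ^ k)) ≤ ‖t - P‖ := by
  obtain ⟨E, m, r, g, hc⟩ := exists_cuspD h P
  obtain ⟨r0, hr0, hkey⟩ := ARCHC.key h hA hB hN hc hij ((hc.pole i).2 hi)
  obtain ⟨K, hK1, hK⟩ := hc.bounds
  let ι := {s : ℂ × ℕ // 1 ≤ s.2 ∧ NPk B s.1 ∧ ∀ l ∈ ({i, j} : Set κ), ∃ n : ℕ, ¬ IsSquare n ∧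
    Iso n (xk A B s.1 l) (xk A B s.1 l) ∧ (n : ℝ) ≤ Real.exp s.2}
  have hne : ∀ s : ι, s.1.1 ≠ P := fun s e ↦ s.2.2.1 i (e ▸ hi)
  choose w hw1 hw2 hw3 using fun s : ι ↦ exists_w hc.hE (hne s)
  have hr := hc.hr
  have main : HBF.LB (fun s : ι ↦ s.1.2) fun s ↦ ‖Complex.exp (w s)‖ := by
    refine HBF.LB.of_small (fun s ↦ s.2.1) (lt_min hr0 (half_pos hr)) ?_
    have hsf : ∀ l ∈ ({i, j} : Set κ),
        SF (fun s : {s : ι // ‖Complex.exp (w s)‖ < min r0 (r / 2)} ↦ s.1.1.2)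
          fun s ↦ cf m g l (w s.1) := by
      intro l hl
      refine ⟨fun s ↦ 20 * (s.1.1.2 + ⌈K⌉₊), (HBF.PN.const 20).mul
        (HBF.PN.self.add (fun s ↦ s.1.2.1) (HBF.PN.const _)), fun s ↦ ?_⟩
      obtain ⟨n, hn1, hn2, hn3⟩ := s.1.2.2.2 l hl
      have h1 : ‖Complex.exp (w s.1)‖ < r / 2 := s.2.trans_le (min_le_right _ _)
      obtain ⟨h2, h3, -, -⟩ := hK (w s.1) h1.le ((hw1 s.1).trans (by linarith [Real.pi_lt_four])) l
      have h4 : 0 < (cf m g l (w s.1)).im := by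
        by_contra h5
        nlinarith [not_lt.1 h5]
      have h5 := ((hc.inf (w s.1) (by linarith)).2 l).2
      rw [hw2 s.1] at h5
      rw [← h5] at hn2
      refine quad_sm ((iso_iff_rel h4 h4).1 hn2) hn1 hK1 h2 h3
        (s.1.2.1.trans (Nat.le_add_right _ _)) (hn3.trans (Real.exp_le_exp.2 ?_)) ?_
      · exact_mod_cast Nat.le_add_right _ _
      · have h6 := Real.add_one_le_exp ((s.1.1.2 + ⌈K⌉₊ : ℕ) : ℝ)
        have h7 := Nat.le_ceil K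
        have h8 : (0 : ℝ) ≤ s.1.1.2 := Nat.cast_nonneg _
        push_cast at h6 ⊢
        linarith
    exact hkey {s : ι // ‖Complex.exp (w s)‖ < min r0 (r / 2)} (fun s ↦ s.1.1.2) (fun s ↦ w s.1)
      (fun s ↦ s.1.2.1) (fun s ↦ s.2.trans_le (min_le_left _ _))
      (hsf i (by simp)) (hsf j (by simp))
  obtain ⟨C, k, hC⟩ := (main.pow E).exists
  refine ⟨C, k, fun t a n1 n2 ha ht h1 h2 h3 h4 h5 h6 ↦ ?_⟩
  have := hC ⟨(t, a), ha, ht, by
    rintro l (rfl | rfl)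
    · exact ⟨n1, h1, h2, h5⟩
    · exact ⟨n2, h3, h4, h6⟩⟩
  rwa [hw3] at this

end DIST

end Pool.Agent.Lib.ZP3
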