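import Pool.Agent.Lib.ZP3.MultA
import Pool.Agent.Lib.ZP3.Defs2

/-! The multiplicity estimate at the cusp for polynomials in the cube of the Eisenstein series of
weight four and the discriminant. -/

open UpperHalfPlane Filter Topology Metric
open scoped Real MatrixGroups Manifold

namespace Pool.Agent.Lib.ZP3

open Pool.Agent.Lib.MP_0704bf_ag Pool.Agent.Lib.helper6

namespace MULT

theorem hasExp_T {f : ℍ → ℂ} {P : PowerSeries ℂ} (h : HasExp 1 f P) (τ : ℍ) :
    f ((1 : ℝ) +ᵥ τ) = f τ := by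
  have h1 := h ((1 : ℝ) +ᵥ τ)
  rw [qq_vadd] at h1
  exact h1.unique (h τ)

theorem inv_of_ST {φ : ℍ → ℂ} (hS : ∀ τ, φ (ModularGroup.S • τ) = φ τ)
    (hT : ∀ τ, φ ((1 : ℝ) +ᵥ τ) = φ τ) : Inv φ := by
  intro γ τ
  have := SlashInvariantForm.slash_action_generators_SL2Z (f := φ) (k := 0)
    (by funext z; rw [ModularForm.SL_slash_apply, hS]; simp)
    (by funext z; rw [ModularForm.SL_slash_apply, modular_T_smul, hT]; simp) γ
  have h2 := congrFun this τ
  rw [ModularForm.SL_slash_apply] at h2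
  simpa using h2

theorem mf_S {k : ℤ} {F : Type*} [FunLike F ℍ ℂ] [ModularFormClass F 𝒮ℒ k] (f : F) (τ : ℍ) :
    f (ModularGroup.S • τ) = (τ : ℂ) ^ k * f τ := by
  have hγ : ((ModularGroup.S : SL(2, ℤ)) : GL (Fin 2) ℝ) ∈ 𝒮ℒ := ⟨ModularGroup.S, rfl⟩
  have h := SlashInvariantForm.slash_action_eqn'' f hγ τ
  rw [ModularGroup.denom_S] at h
  exact h

theorem disc_S (τ : ℍ) : ModularForm.discriminant (ModularGroup.S • τ) =
    (τ : ℂ) ^ 12 * ModularForm.discriminant τ := by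
  have := mf_S CuspForm.discriminant τ
  rw [CuspForm.coe_discriminant] at this
  exact_mod_cast this

theorem E4_S (τ : ℍ) : ModularForm.E₄ (ModularGroup.S • τ) ^ 3 =
    (τ : ℂ) ^ 12 * ModularForm.E₄ τ ^ 3 := by
  have := mf_S ModularForm.E₄ τ
  rw [this, mul_pow, zpow_ofNat, ← pow_mul]

theorem core {K : Finset ℕ} {r M k0 : ℕ} (e : Fin r ≃ Ix K) (f : ℕ → ℍ → ℂ) (hk0 : k0 ∈ K)
    (he : ∀ k, ∃ P, HasExp 1 (f k) P)
    (hS : ∀ k τ, f k (ModularGroup.S • τ) = (τ : ℂ) ^ (12 * k) * f k τ)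
    (hne : ∀ k ∈ K, ∃ τ, f k τ ≠ 0) {φ : ℍ → ℂ} {Q : PowerSeries ℂ} (hφ : HasExp 1 φ Q)
    (hM : ∀ τ, ∑ k ∈ K, f k τ = qq 1 τ ^ M * φ τ) : 12 * M ≤ r * (r - 1) := by
  by_contra hlt
  rw [not_le] at hlt
  choose P hP using he
  let F : ℕ → ℂ → ℂ := fun k ↦ f k ∘ ofComplex
  have hFz : ∀ k z (hz : 0 < z.im), F k z = f k ⟨z, hz⟩ := by
    intro k z hz
    simp [F, ofComplex_apply_of_im_pos hz]
  have hF : ∀ k z, 0 < z.im → AnalyticAt ℂ (F k) z := fun k z hz ↦
    (UpperHalfPlane.mdifferentiable_iff.1 ((hP k).mdiff one_pos)).analyticAt (ev_im hz)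
  have hFT : ∀ k z, 0 < z.im → F k (z + 1) = F k z := by
    intro k z hz
    rw [hFz k z hz, ← hasExp_T (hP k), hFz k _ (by simpa using hz)]
    congr 1
    ext
    simp [add_comm]
  have hFS : ∀ k z, 0 < z.im → F k (-z)⁻¹ = z ^ (12 * k) * F k z := by
    intro k z hz
    rw [hFz k z hz, hFz k _ (im_S hz)]
    have := hS k ⟨z, hz⟩
    rwa [modular_S_smul] at this
  obtain ⟨z0, hz0, hW0⟩ := Wr_ne e hF hFT hFS fun k hk ↦ by
    obtain ⟨τ, hτ⟩ := hne k hk
    exact ⟨τ, τ.im_pos, by rwa [hFz k _ τ.im_pos]⟩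
  set W := Wr e (fam K F 0) with hW
  set N := r * (r - 1) with hN
  let Ψ : ℍ → ℂ := fun τ ↦ W τ ^ 12 / ModularForm.discriminant τ ^ N
  have hΨT : ∀ τ, Ψ ((1 : ℝ) +ᵥ τ) = Ψ τ := by
    intro τ
    simp only [Ψ, hasExp_T hasExp_disc, coe_vadd]
    rw [Complex.ofReal_one, add_comm, hW, Wr_T e hF hFT τ.im_pos]
  have hΨS : ∀ τ, Ψ (ModularGroup.S • τ) = Ψ τ := by
    intro τ
    have h1 := Wr_S e hF hFS τ.im_pos
    have h2 : ((ModularGroup.S • τ : ℍ) : ℂ) = (-(τ : ℂ))⁻¹ := by rw [modular_S_smul]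
    have h3 := pow_ne_zero (12 * N) τ.ne_zero
    simp only [Ψ, disc_S, h2]
    rw [show 12 = 2 * 6 from rfl, pow_mul, h1, mul_pow, mul_pow, ← pow_mul, ← pow_mul, ← pow_mul,
      ← hN, show 2 * N * 6 = 12 * N by ring, show 2 * 6 * N = 12 * N by ring,
      mul_div_mul_left _ _ h3]
  have hWd : MDiff fun τ : ℍ ↦ W τ := by
    rw [UpperHalfPlane.mdifferentiable_iff]
    refine DifferentiableOn.congr (f := W) (fun z hz ↦ ?_) fun z hz ↦ ?_
    · exact (Wr_analytic e (fam_analytic (fun k ↦ hF k z hz) 0)).differentiableAt.differentiableWithinAt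
    · simp [ofComplex_apply_of_im_pos hz]
  have hΨd : MDiff Ψ := (hWd.pow 12).div ((hasExp_disc.mdiff one_pos).pow N)
    fun τ ↦ pow_ne_zero _ (ModularForm.discriminant_ne_zero τ)
  have hb : ∀ {g : ℍ → ℂ} {R : PowerSeries ℂ}, HasExp 1 g R →
      ∀ᶠ τ in atImInfty, ‖g τ‖ ≤ ‖PowerSeries.coeff 0 R‖ + 1 := fun h ↦
    (h.tendsto one_pos).norm.eventually (Iic_mem_nhds (lt_add_one _))
  obtain ⟨A, hA⟩ := (atImInfty_mem _).1
    (((eventually_all_finset K).2 fun k _ ↦ hb (hP k)).and (hb hφ))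
  let C : ℝ := 1 + ∑ k ∈ K, ‖PowerSeries.coeff 0 (P k)‖
  have hC : 1 ≤ C := le_add_of_nonneg_right (Finset.sum_nonneg fun _ _ ↦ norm_nonneg _)
  have hWO : (fun τ : ℍ ↦ W τ / qq 1 τ ^ M) =O[atImInfty] fun _ ↦ (1 : ℂ) := by
    refine Asymptotics.IsBigO.of_bound ((r.factorial : ℝ) ^ (r + 1) * C ^ r *
      (Real.exp (2 * π) ^ M * (‖PowerSeries.coeff 0 Q‖ + 1))) ?_
    refine (atImInfty_mem _).2 ⟨max (A + 1) 2, fun τ hτ ↦ ?_⟩
    have hτ1 : A + 1 ≤ τ.im := (le_max_left _ _).trans hτ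
    have hτ2 : 2 ≤ τ.im := (le_max_right _ _).trans hτ
    have him : ∀ w ∈ sphere (τ : ℂ) 1, τ.im - 1 ≤ w.im := by
      intro w hw
      have h1 := Complex.abs_im_le_norm (w - τ)
      have h2 : ‖w - τ‖ = 1 := by simpa [dist_eq_norm] using hw
      have h3 := neg_le_of_abs_le (h1.trans h2.le)
      rw [Complex.sub_im, coe_im] at h3
      linarith
    have hpos : ∀ w ∈ sphere (τ : ℂ) 1, 0 < w.im := fun w hw ↦ by linarith [him w hw]
    have hq0 : 0 < ‖qq 1 τ‖ ^ M := pow_pos (norm_pos_iff.2 (qq_ne_zero 1 τ)) M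
    have h1 := Wr_bound e hk0 hF (z := τ) (C := C)
      (ε := (Real.exp (2 * π) * ‖qq 1 τ‖) ^ M * (‖PowerSeries.coeff 0 Q‖ + 1))
      (by rw [coe_im]; linarith) (fun k hk w hw ↦ by
        rw [hFz k w (hpos w hw)]
        refine ((hA ⟨w, hpos w hw⟩ ?_).1 k hk).trans ?_
        · change A ≤ w.im
          linarith [him w hw]
        · rw [add_comm]
          exact add_le_add_right (Finset.single_le_sum
            (f := fun k ↦ ‖PowerSeries.coeff 0 (P k)‖) (fun _ _ ↦ norm_nonneg _) hk) _) hC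
      (fun w hw ↦ by
        simp only [hFz _ w (hpos w hw)]
        rw [hM, norm_mul, norm_pow]
        refine mul_le_mul (pow_le_pow_left₀ (norm_nonneg _) ?_ M) (hA ⟨w, hpos w hw⟩ ?_).2
          (norm_nonneg _) (by positivity)
        · rw [qq, qq, Function.Periodic.norm_qParam, Function.Periodic.norm_qParam, ← Real.exp_add,
            Real.exp_le_exp]
          change -2 * π * w.im / 1 ≤ 2 * π + -2 * π * τ.im / 1
          nlinarith [him w hw, Real.pi_pos]
        · change A ≤ w.im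
          linarith [him w hw])
    change ‖W τ / qq 1 τ ^ M‖ ≤ _
    rw [norm_div, norm_pow, norm_one, mul_one, div_le_iff₀ hq0]
    refine h1.trans (le_of_eq ?_)
    ring
  obtain ⟨V, -, hV0, hV⟩ := exists_unitS
  have hV1 := ((hV.tendsto one_pos).inv₀ (by rw [hV0]; exact one_ne_zero)).pow N
  have hq : Tendsto (fun τ : ℍ ↦ qq 1 τ ^ (12 * M - N)) atImInfty (𝓝 0) := by
    have := (qParam_tendsto_atImInfty one_pos).pow (12 * M - N)
    rwa [zero_pow (by omega)] at this
  have hΨ0 : Tendsto Ψ atImInfty (𝓝 0) := by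
    have h1 := hV1.mul hq
    rw [mul_zero] at h1
    have h2 := (hWO.pow 12).mul_isLittleO ((Asymptotics.isLittleO_one_iff ℂ).2 h1)
    simp only [one_pow, mul_one] at h2
    refine ((Asymptotics.isLittleO_one_iff ℂ).1 h2).congr fun τ ↦ ?_
    have h3 := qq_ne_zero 1 τ
    have h4 := ModularForm.discriminant_ne_zero τ
    simp only [Ψ]
    rw [pow_sub₀ _ h3 hlt.le, div_pow, inv_div, div_pow, ← pow_mul, mul_comm M 12]
    field_simp
  have hexp := hasExp_qExpansion one_pos (periodic_of_T hΨT) hΨd (hΨ0.isBigO_one ℝ)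
  have h0 := (inv_of_ST hΨS hΨT).const hexp ⟨z0, hz0⟩
  rw [tendsto_nhds_unique (hexp.tendsto one_pos) hΨ0] at h0
  exact div_ne_zero (pow_ne_zero _ hW0) (pow_ne_zero _ (ModularForm.discriminant_ne_zero _)) h0

theorem hasExp_sum {α : Type*} (s : Finset α) (f : α → ℍ → ℂ) (P : α → PowerSeries ℂ)
    (h : ∀ a, HasExp 1 (f a) (P a)) : HasExp 1 (fun τ ↦ ∑ a ∈ s, f a τ) (∑ a ∈ s, P a) := by
  classical
  induction s using Finset.induction_on with
  | empty => simpa using hasExp_const 1 0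
  | insert a s ha ih =>
    simp only [Finset.sum_insert ha]
    exact (h a).add ih

theorem of_X_pow (M : ℕ) {φ : ℍ → ℂ} {Q : PowerSeries ℂ}
    (h : HasExp 1 (qq 1 ^ M * φ) (PowerSeries.X ^ M * Q)) : HasExp 1 φ Q := by
  induction M with
  | zero => simpa using h
  | succ M ih =>
    refine ih (HasExp.of_X_mul ?_)
    rwa [← mul_assoc, ← mul_assoc, ← pow_succ', ← pow_succ']

theorem map_sigZ (k : ℕ) : PowerSeries.map (Int.castRingHom ℂ) (sigZ k) = sigS k := by
  ext m
  simp [sigZ, sigS]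

theorem hasD : HasExp 1 ModularForm.discriminant (PowerSeries.map (Int.castRingHom ℂ) DZ) := by
  have : PowerSeries.map (Int.castRingHom ℂ) DZ = delS := by
    have h : PowerSeries.map (Int.castRingHom ℂ) (PowerSeries.mk fun m ↦
        (((5 * ArithmeticFunction.sigma 3 m + 7 * ArithmeticFunction.sigma 5 m) / 12 : ℕ) : ℤ)) =
        twS := by
      ext m
      simp only [twS, PowerSeries.coeff_map, PowerSeries.coeff_mk, eq_intCast, Int.cast_natCast]
    simp only [DZ, delS, map_sub, map_add, map_mul, map_pow, map_sigZ, h, map_ofNat]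
  rw [this]
  exact hasExp_disc

theorem hasE :
    HasExp 1 (fun τ ↦ ModularForm.E₄ τ ^ 3) (PowerSeries.map (Int.castRingHom ℂ) EZ) := by
  have h4 := hasExp_mf ModularForm.E₄
  rw [qE4] at h4
  have : PowerSeries.map (Int.castRingHom ℂ) EZ = (1 + PowerSeries.C 240 * sigS 3) ^ 3 := by
    simp only [EZ, map_add, map_mul, map_pow, map_sigZ, map_ofNat, map_one]
  rw [this]
  exact h4.pow 3

end MULT

open MULT in
theorem mult_estimate : ∃ c : ℕ, ∀ (L M : ℕ) (P : MvPolynomial (Fin 2) ℤ), 1 ≤ L → P ≠ 0 →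
    (∀ i, P.degreeOf i ≤ L) → PowerSeries.X ^ M ∣ MvPolynomial.aeval ![EZ, DZ] P →
    M ≤ c * L ^ 4 := by
  classical
  refine ⟨5625, fun L M P hL hP hd ⟨G, hG⟩ ↦ ?_⟩
  let dg : (Fin 2 →₀ ℕ) → ℕ := fun m ↦ m 0 + m 1
  let K : Finset ℕ := P.support.image dg
  let t : (Fin 2 →₀ ℕ) → ℍ → ℂ := fun m τ ↦
    ((P.coeff m : ℤ) : ℂ) * ((ModularForm.E₄ τ ^ 3) ^ m 0 * ModularForm.discriminant τ ^ m 1)
  let s : (Fin 2 →₀ ℕ) → PowerSeries ℂ := fun m ↦ PowerSeries.C ((P.coeff m : ℤ) : ℂ) *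
    (PowerSeries.map (Int.castRingHom ℂ) EZ ^ m 0 * PowerSeries.map (Int.castRingHom ℂ) DZ ^ m 1)
  have hts : ∀ m, HasExp 1 (t m) (s m) := fun m ↦
    (hasExp_const 1 _).mul ((hasE.pow _).mul (hasD.pow _))
  let f : ℕ → ℍ → ℂ := fun k τ ↦ ∑ m ∈ P.support.filter fun m ↦ dg m = k, t m τ
  obtain ⟨m0, hm0⟩ := MvPolynomial.support_nonempty.2 hP
  have htot : HasExp 1 (qq 1 ^ M * fun τ ↦ (∑ m ∈ P.support, t m τ) / qq 1 τ ^ M)
      (PowerSeries.X ^ M * PowerSeries.map (Int.castRingHom ℂ) G) := by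
    have h1 := hasExp_sum P.support t s hts
    have h2 : ∑ m ∈ P.support, s m = PowerSeries.X ^ M * PowerSeries.map (Int.castRingHom ℂ) G := by
      have h3 := congrArg (PowerSeries.map (Int.castRingHom ℂ)) hG
      rw [map_mul, map_pow, PowerSeries.map_X] at h3
      rw [← h3, MvPolynomial.aeval_def, MvPolynomial.eval₂_eq', map_sum]
      refine Finset.sum_congr rfl fun m _ ↦ ?_
      simp [s, Fin.prod_univ_two]
    rw [h2] at h1
    convert h1 using 1
    funext τ
    have := qq_ne_zero 1 τ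
    simp only [Pi.mul_apply, Pi.pow_apply]
    field_simp
  have key := core (K := K) (M := M) (Fintype.equivFin (Ix K)).symm f
    (Finset.mem_image_of_mem dg hm0) (fun k ↦ ⟨_, hasExp_sum _ t s hts⟩) (fun k τ ↦ by
      simp only [f, Finset.mul_sum]
      refine Finset.sum_congr rfl fun m hm ↦ ?_
      rw [← (Finset.mem_filter.1 hm).2]
      simp only [t, dg, E4_S, disc_S]
      ring) (fun k hk ↦ by
      obtain ⟨m1, hm1, rfl⟩ := Finset.mem_image.1 hk
      let p : Polynomial ℂ := ∑ m ∈ P.support.filter fun m ↦ dg m = dg m1,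
        Polynomial.monomial (m 0) ((P.coeff m : ℤ) : ℂ)
      have hp : p ≠ 0 := by
        intro h
        have h1 := congrArg (fun q ↦ Polynomial.coeff q (m1 0)) h
        simp only [p, Polynomial.finsetSum_coeff, Polynomial.coeff_monomial,
          Polynomial.coeff_zero] at h1
        rw [Finset.sum_eq_single m1] at h1
        · exact MvPolynomial.mem_support_iff.1 hm1 (by simpa using h1)
        · intro m hm hne
          rw [if_neg]
          intro h2
          have h3 := (Finset.mem_filter.1 hm).2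
          simp only [dg] at h3
          refine hne (Finsupp.ext fun i ↦ ?_)
          fin_cases i
          · exact h2
          · change m 1 = m1 1
            omega
        · intro h2
          exact (h2 (Finset.mem_filter.2 ⟨hm1, rfl⟩)).elim
      by_contra hall
      push Not at hall
      refine hp (Polynomial.eq_zero_of_infinite_isRoot _ (range_jInv_infinite.mono ?_))
      rintro _ ⟨τ, rfl⟩
      have hΔ := ModularForm.discriminant_ne_zero τ
      have h1 : f (dg m1) τ = ModularForm.discriminant τ ^ dg m1 * p.eval (jInv τ) := by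
        simp only [f, p, Polynomial.eval_finsetSum, Finset.mul_sum, Polynomial.eval_monomial]
        refine Finset.sum_congr rfl fun m hm ↦ ?_
        rw [← (Finset.mem_filter.1 hm).2]
        simp only [t, dg, jInv, div_pow]
        field_simp
        ring
      rw [hall] at h1
      exact (mul_eq_zero.1 h1.symm).resolve_left (pow_ne_zero _ hΔ)) (of_X_pow M htot) (fun τ ↦ by
      have := qq_ne_zero 1 τ
      rw [Finset.sum_fiberwise_of_maps_to fun m hm ↦ Finset.mem_image_of_mem dg hm]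
      field_simp)
  have hK : ∀ k ∈ K, k ≤ 2 * L := by
    intro k hk
    obtain ⟨m, hm, rfl⟩ := Finset.mem_image.1 hk
    have h0 := (MvPolynomial.monomial_le_degreeOf 0 hm).trans (hd 0)
    have h1 := (MvPolynomial.monomial_le_degreeOf 1 hm).trans (hd 1)
    simp only [dg]
    omega
  have hr : Fintype.card (Ix K) ≤ 75 * L ^ 2 := by
    rw [Fintype.card_sigma]
    simp only [Fintype.card_fin]
    refine (Finset.sum_le_card_nsmul _ _ (25 * L) fun k _ ↦ ?_).trans ?_
    · have := hK k k.2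
      omega
    · have h1 : K.card ≤ 2 * L + 1 := by
        simpa using Finset.card_le_card (s := K) (t := Finset.range (2 * L + 1))
          fun k hk ↦ Finset.mem_range.2 (Nat.lt_succ_of_le (hK k hk))
      rw [Finset.card_univ, Fintype.card_coe, smul_eq_mul]
      nlinarith
  have h2 : Fintype.card (Ix K) * (Fintype.card (Ix K) - 1) ≤ (75 * L ^ 2) * (75 * L ^ 2) :=
    Nat.mul_le_mul hr ((Nat.sub_le _ _).trans hr)
  nlinarith

end Pool.Agent.Lib.ZP3
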