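import Pool.Agent.Lib.ZP3.Defs2

/-! Block PBS: an auxiliary polynomial in the two integral expansions. -/

open scoped ArithmeticFunction.sigma

namespace Pool.Agent.Lib.ZP3

namespace PBS

open PowerSeries Finset

/-- polynomial growth of the coefficients, with exponent `e` -/
def G (F : PowerSeries ℤ) (e : ℕ) : Prop := ∀ m : ℕ, |coeff m F| ≤ ((m : ℤ) + 2) ^ e

variable {F F' : PowerSeries ℤ} {e e' : ℕ}

theorem G.mono (h : G F e) (h' : e ≤ e') : G F e' := fun m ↦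
  (h m).trans (pow_le_pow_right₀ (by omega) h')

theorem G.mul (h : G F e) (h' : G F' e') : G (F * F') (e + e' + 1) := fun m ↦ by
  rw [coeff_mul]
  refine (abs_sum_le_sum_abs _ _).trans ((sum_le_card_nsmul _ _ (((m : ℤ) + 2) ^ (e + e'))
    fun p hp ↦ ?_).trans ?_)
  · have := mem_antidiagonal.1 hp
    rw [abs_mul, pow_add]
    exact mul_le_mul ((h _).trans (pow_le_pow_left₀ (by omega) (by omega) _))
      ((h' _).trans (pow_le_pow_left₀ (by omega) (by omega) _)) (abs_nonneg _) (by positivity)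
  · rw [Nat.card_antidiagonal, nsmul_eq_mul, pow_succ']
    exact mul_le_mul_of_nonneg_right (by omega) (by positivity)

theorem G_one : G 1 0 := fun m ↦ by
  rw [coeff_one]
  split_ifs <;> simp

theorem G.pow (h : G F e) (a : ℕ) : G (F ^ a) (a * (e + 1)) := by
  induction a with
  | zero => simpa using G_one
  | succ a ih => exact pow_succ F a ▸ (ih.mul h).mono (by nlinarith)

/-- the series with polynomially bounded coefficients -/
def S : Subring (PowerSeries ℤ) where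
  carrier := {F | ∃ e, G F e}
  mul_mem' := fun ⟨_, h⟩ ⟨_, h'⟩ ↦ ⟨_, h.mul h'⟩
  one_mem' := ⟨0, G_one⟩
  add_mem' := fun ⟨e, h⟩ ⟨e', h'⟩ ↦ ⟨e + e' + 1, fun m ↦ by
    have a1 := h.mono (Nat.le_add_right e e') m
    have a2 := h'.mono (Nat.le_add_left e' e) m
    have a3 : (0 : ℤ) ≤ ((m : ℤ) + 2) ^ (e + e') := by positivity
    rw [map_add, pow_succ]
    refine (abs_add_le _ _).trans ?_
    nlinarith⟩
  zero_mem' := ⟨0, fun m ↦ by simp⟩
  neg_mem' := fun ⟨e, h⟩ ↦ ⟨e, fun m ↦ by simpa using h m⟩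

theorem sig_le (k m : ℕ) : σ k m ≤ (m + 2) ^ (k + 1) :=
  (ArithmeticFunction.sigma_le_pow_succ k m).trans (Nat.pow_le_pow_left (by omega) _)

theorem sig_mem (k : ℕ) : sigZ k ∈ S := ⟨k + 1, fun m ↦ by
  rw [sigZ, coeff_mk, Nat.abs_cast]
  exact_mod_cast sig_le k m⟩

theorem EZ_mem : EZ ∈ S :=
  pow_mem (add_mem (one_mem _) (mul_mem (ofNat_mem _ _) (sig_mem 3))) 3

theorem DZ_mem : DZ ∈ S := by
  refine sub_mem (add_mem (add_mem ⟨6, fun m ↦ ?_⟩
    (mul_mem (ofNat_mem _ _) (pow_mem (sig_mem 3) 2)))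
    (mul_mem (ofNat_mem _ _) (pow_mem (sig_mem 3) 3)))
    (mul_mem (ofNat_mem _ _) (pow_mem (sig_mem 5) 2))
  have a1 := (sig_le 3 m).trans (Nat.pow_le_pow_right (by omega) (by omega : 3 + 1 ≤ 5 + 1))
  have a2 := sig_le 5 m
  rw [coeff_mk, Nat.abs_cast]
  exact_mod_cast (by omega : (5 * σ 3 m + 7 * σ 5 m) / 12 ≤ (m + 2) ^ (5 + 1))

theorem exists_c : ∃ c : ℕ, ∀ L a b : ℕ, 1 ≤ L → a ≤ L → b ≤ L → G (EZ ^ a * DZ ^ b) (c * L) := by
  obtain ⟨e, he⟩ := EZ_mem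
  obtain ⟨e', he'⟩ := DZ_mem
  refine ⟨e + e' + 3, fun L a b hL ha hb ↦ ((he.pow a).mul (he'.pow b)).mono ?_⟩
  nlinarith [Nat.mul_le_mul_right (e + 1) ha, Nat.mul_le_mul_right (e' + 1) hb]

attribute [local instance] Matrix.seminormedAddCommGroup in
theorem siegel {α β : Type} [Fintype α] [Fintype β] (A : Matrix α β ℤ) {H : ℤ} (hH : 1 ≤ H)
    (hA : ∀ i j, |A i j| ≤ H) (h0 : 0 < Fintype.card α)
    (h : 2 * Fintype.card α ≤ Fintype.card β) :
    ∃ t : β → ℤ, t ≠ 0 ∧ A.mulVec t = 0 ∧ ∀ j, |t j| ≤ Fintype.card β * H := by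
  obtain ⟨t, t0, t1, t2⟩ := Int.Matrix.exists_ne_zero_int_vec_norm_le A (by omega) h0
  refine ⟨t, t0, t1, fun j ↦ ?_⟩
  have a0 : (1 : ℝ) ≤ H := by exact_mod_cast hH
  have a1 : ‖A‖ ≤ H := (Matrix.norm_le_iff (by linarith)).2 fun i j ↦ by
    rw [Int.norm_eq_abs]; exact_mod_cast hA i j
  have a2 : (1 : ℝ) ≤ Fintype.card α := by exact_mod_cast h0
  have a3 : (2 : ℝ) * Fintype.card α ≤ Fintype.card β := by exact_mod_cast h
  have a4 := ((norm_le_pi_norm t j).trans t2).trans (Real.rpow_le_rpow_of_exponent_le (z := 1)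
    (by nlinarith [le_max_left 1 ‖A‖]) ((div_le_one (by linarith)).2 (by linarith)))
  rw [Real.rpow_one, Int.norm_eq_abs] at a4
  exact_mod_cast a4.trans (mul_le_mul_of_nonneg_left (max_le a0 a1) (by linarith))

end PBS

open PBS Finset in
theorem pb_siegel : ∃ C : ℕ, ∀ L : ℕ, 1 ≤ L → ∃ P : MvPolynomial (Fin 2) ℤ, P ≠ 0 ∧
    (∀ i, P.degreeOf i ≤ L) ∧ ∑ m ∈ P.support, |P.coeff m| ≤ ((L : ℤ) + 2) ^ (C * L) ∧
    PowerSeries.X ^ ((L + 1) ^ 2 / 4) ∣ MvPolynomial.aeval ![EZ, DZ] P ∧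
    ∀ m : ℕ, |PowerSeries.coeff m (MvPolynomial.aeval ![EZ, DZ] P)| ≤
      (((L : ℤ) + 2) * (m + 2)) ^ (C * L) := by
  classical
  obtain ⟨c, hc⟩ := exists_c
  refine ⟨2 * c + 4, fun L hL ↦ ?_⟩
  have hG : ∀ x : Fin (L + 1) × Fin (L + 1), G (EZ ^ x.1.val * DZ ^ x.2.val) (c * L) := fun x ↦
    hc L _ _ hL (by omega) (by omega)
  have n1 : 4 ≤ (L + 1) ^ 2 := by nlinarith
  have n2 : (L + 1) ^ 2 + 2 ≤ (L + 2) ^ 2 := by nlinarith
  have n3 : ((Fintype.card (Fin (L + 1) × Fin (L + 1)) : ℕ) : ℤ) ≤ ((L : ℤ) + 2) ^ 2 := by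
    simp only [Fintype.card_prod, Fintype.card_fin]
    push_cast
    nlinarith
  obtain ⟨t, t0, t1, t2⟩ := siegel (Matrix.of fun (m : Fin ((L + 1) ^ 2 / 4))
    (x : Fin (L + 1) × Fin (L + 1)) ↦ PowerSeries.coeff m (EZ ^ x.1.val * DZ ^ x.2.val))
    (H := (((L : ℤ) + 2) ^ 2) ^ (c * L)) (one_le_pow₀ (one_le_pow₀ (by omega)))
    (fun m x ↦ (hG x m).trans (pow_le_pow_left₀ (by positivity)
      (by exact_mod_cast (by omega : m.val + 2 ≤ (L + 2) ^ 2)) _))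
    (by rw [Fintype.card_fin]; omega)
    (by simp only [Fintype.card_prod, Fintype.card_fin, ← sq]; omega)
  have t3 : ∑ x, |t x| ≤ ((L : ℤ) + 2) ^ ((2 * c + 4) * L) := by
    refine (sum_le_card_nsmul _ _ _ fun x _ ↦ t2 x).trans ?_
    rw [nsmul_eq_mul, card_univ]
    calc _ ≤ ((L : ℤ) + 2) ^ 2 * (((L : ℤ) + 2) ^ 2 * (((L : ℤ) + 2) ^ 2) ^ (c * L)) := by gcongr
      _ = ((L : ℤ) + 2) ^ (2 * c * L + 4) := by generalize (L : ℤ) + 2 = z; ring
      _ ≤ _ := pow_le_pow_right₀ (by omega) (by nlinarith)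
  set d : Fin (L + 1) × Fin (L + 1) → Fin 2 →₀ ℕ :=
    fun x ↦ Finsupp.single 0 x.1.val + Finsupp.single 1 x.2.val with hd
  have d0 : ∀ x, d x 0 = x.1 := fun x ↦ by simp [hd]
  have d1 : ∀ x, d x 1 = x.2 := fun x ↦ by simp [hd]
  have di : ∀ x y, d x = d y ↔ x = y := fun x y ↦
    ⟨fun h ↦ Prod.ext (Fin.ext (by rw [← d0, h, d0])) (Fin.ext (by rw [← d1, h, d1])), congrArg d⟩
  have hco : ∀ m, (∑ x, MvPolynomial.monomial (d x) (t x)).coeff m =
      ∑ x, if d x = m then t x else 0 := fun m ↦ by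
    simp only [MvPolynomial.coeff_sum, MvPolynomial.coeff_monomial]
  have hev : ∀ m, PowerSeries.coeff m (MvPolynomial.aeval ![EZ, DZ]
      (∑ x, MvPolynomial.monomial (d x) (t x))) =
      ∑ x, PowerSeries.coeff m (EZ ^ x.1.val * DZ ^ x.2.val) * t x := fun m ↦ by
    rw [map_sum, map_sum]
    refine sum_congr rfl fun x _ ↦ ?_
    rw [MvPolynomial.aeval_monomial, Finsupp.prod_fintype _ _ (fun _ ↦ pow_zero _),
      Fin.prod_univ_two, d0, d1, ← Algebra.smul_def, map_smul, smul_eq_mul, mul_comm]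
    rfl
  refine ⟨∑ x, MvPolynomial.monomial (d x) (t x), fun h ↦ t0 (funext fun x ↦ ?_), fun i ↦ ?_,
    le_trans ?_ t3, PowerSeries.X_pow_dvd_iff.2 fun m hm ↦ ?_, fun m ↦ ?_⟩
  · simpa [h, di] using (hco (d x)).symm
  · refine MvPolynomial.degreeOf_le_iff.2 fun m hm ↦ ?_
    obtain ⟨x, -, hx⟩ := exists_ne_zero_of_sum_ne_zero
      (hco m ▸ MvPolynomial.mem_support_iff.1 hm)
    obtain rfl : d x = m := by
      by_contra e
      exact hx (if_neg e)
    fin_cases i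
    · exact (d0 x).trans_le (by omega)
    · exact (d1 x).trans_le (by omega)
  · simp only [hco]
    refine (sum_le_sum fun m _ ↦ abs_sum_le_sum_abs _ _).trans ?_
    rw [sum_comm]
    refine sum_le_sum fun x _ ↦ ?_
    simp only [apply_ite abs, abs_zero, sum_ite_eq]
    split_ifs
    exacts [le_rfl, abs_nonneg _]
  · rw [hev]
    exact congrFun t1 ⟨m, hm⟩
  · rw [hev, mul_pow]
    calc _ ≤ ∑ x, |t x| * ((m : ℤ) + 2) ^ ((2 * c + 4) * L) := by
          refine (abs_sum_le_sum_abs _ _).trans (sum_le_sum fun x _ ↦ ?_)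
          rw [abs_mul, mul_comm]
          exact mul_le_mul_of_nonneg_left ((hG x).mono (by nlinarith) m) (abs_nonneg _)
      _ ≤ _ := by
          rw [← sum_mul]
          exact mul_le_mul_of_nonneg_right t3 (by positivity)

end Pool.Agent.Lib.ZP3
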