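import Pool.Agent.Lib.ZP3.Psum
import Pool.Agent.Lib.ZP3.Tate

/-! Block TATE2: isogenies and their multipliers in terms of Tate parameters. -/

open UpperHalfPlane Filter Topology Metric
open scoped Real MatrixGroups

namespace Pool.Agent.Lib.ZP3

open Pool.Agent.Lib.MP_0704bf_ag Pool.Agent.Lib.helper6

namespace TATE2

open TATE

section gen
variable {K : Type*} [NormedField K] [IsUltrametricDist K] [CompleteSpace K] {Q : K}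

lemma intS_map (F : PowerSeries ℤ) : IntS (PowerSeries.map (Int.castRingHom ℂ) F) := by
  intro m
  rw [PowerSeries.coeff_map]
  exact isIntegral_algebraMap (R := ℤ)

lemma PS_psum (ι : ℂ →+* K) (hQ : ‖Q‖ < 1) (F : PowerSeries ℤ) :
    PS ι Q (PowerSeries.map (Int.castRingHom ℂ) F) (psum F Q) := by
  have := (summ (c := fun n ↦ ((PowerSeries.coeff n F : ℤ) : K))
    (fun n ↦ IsUltrametricDist.norm_intCast_le_one K _) hQ).of_norm.hasSum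
  simpa [PS, psum] using this

omit [CompleteSpace K] in
lemma norm_lt (ι : ℂ →+* K) (hQ : ‖Q‖ < 1) {ζ : ℂ} (hζ : IsIntegral ℤ ζ) {k : ℕ} (hk : 0 < k) :
    ‖ι ζ * Q ^ k‖ < 1 := by
  rw [norm_mul, norm_pow]
  exact (mul_le_of_le_one_left (by positivity)
    (norm_le_one_int (map_isIntegral_int ι hζ))).trans_lt
      (pow_lt_one₀ (norm_nonneg _) hQ hk.ne')

lemma Gam_ser {h : ℝ} (ι : ℂ →+* K) (hQ : ‖Q‖ < 1) {φ : ℍ → ℂ} {F : PowerSeries ℤ}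
    (hφ : HasExp 1 φ (PowerSeries.map (Int.castRingHom ℂ) F)) (s : ℍ → ℍ) {ζ : ℂ}
    (hζ : IsIntegral ℤ ζ) {k : ℕ} (hk : 0 < k) (hs : ∀ τ, qq 1 (s τ) = ζ * qq h τ ^ k) :
    (φ ∘ s, psum F (ι ζ * Q ^ k)) ∈ Gam h ι hQ :=
  ⟨0, dil ζ k (PowerSeries.map (Int.castRingHom ℂ) F), by simpa using hφ.comp s ζ hk hs,
    (intS_map F).dil hζ k, by simpa using (PS_psum ι (norm_lt ι hQ hζ hk) F).dil hk⟩

lemma Gam_ex {h : ℝ} (ι : ℂ →+* K) (hQ : ‖Q‖ < 1) (hQ0 : Q ≠ 0) {φ : ℍ → ℂ} {M : ℕ}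
    {P : PowerSeries ℂ} (h1 : HasExp h (qq h ^ M * φ) P) (h2 : IntS P) :
    ∃ v, (φ, v) ∈ Gam h ι hQ := by
  refine ⟨(∑' n, ι (PowerSeries.coeff n P) * Q ^ n) / Q ^ M, M, P, h1, h2, ?_⟩
  rw [mul_div_cancel₀ _ (pow_ne_zero _ hQ0)]
  exact (summ (intS_norm ι h2) hQ).of_norm.hasSum

lemma Gam_eq {h : ℝ} (hh : 0 < h) (ι : ℂ →+* K) (hQ : ‖Q‖ < 1) (hQ0 : Q ≠ 0) {φ ψ : ℍ → ℂ}
    {v w : K} (h1 : (φ, v) ∈ Gam h ι hQ) (h2 : (ψ, w) ∈ Gam h ι hQ) (e : φ = ψ) : v = w := by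
  have := Gam_inj hh ι hQ hQ0 (a₁ := ⟨_, h1⟩) (a₂ := ⟨_, h2⟩) e
  exact congrArg (fun z : Gam h ι hQ ↦ z.1.2) this

lemma Gam_mul {h : ℝ} {ι : ℂ →+* K} {hQ : ‖Q‖ < 1} {φ ψ : ℍ → ℂ} {v w : K}
    (h1 : (φ, v) ∈ Gam h ι hQ) (h2 : (ψ, w) ∈ Gam h ι hQ) :
    (fun τ ↦ φ τ * ψ τ, v * w) ∈ Gam h ι hQ := mul_mem h1 h2

lemma Gam_add {h : ℝ} {ι : ℂ →+* K} {hQ : ‖Q‖ < 1} {φ ψ : ℍ → ℂ} {v w : K}
    (h1 : (φ, v) ∈ Gam h ι hQ) (h2 : (ψ, w) ∈ Gam h ι hQ) :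
    (fun τ ↦ φ τ + ψ τ, v + w) ∈ Gam h ι hQ := add_mem h1 h2

lemma Gam_nat (h : ℝ) (ι : ℂ →+* K) (hQ : ‖Q‖ < 1) (n : ℕ) :
    (fun _ ↦ (n : ℂ), (n : K)) ∈ Gam h ι hQ := natCast_mem _ n

lemma transfer' {N : ℕ} (hN : 0 < N) (ι : ℂ →+* K) (hQ : ‖Q‖ < 1) (hQ0 : Q ≠ 0)
    {Φ : Polynomial (Polynomial ℤ)} {κ : Type*} {s : Finset κ} {f : κ → ℍ → ℂ} {v : κ → K}
    {x0 : K} (h0 : (jInv, x0) ∈ Gam N ι hQ) (hm : ∀ g ∈ s, (f g, v g) ∈ Gam N ι hQ)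
    (hΦ : ∀ τ : ℍ, Φ.map (Polynomial.aeval (jInv τ)).toRingHom =
      ∏ g ∈ s, (Polynomial.X - Polynomial.C (f g τ))) :
    Φ.map (Polynomial.aeval x0).toRingHom = ∏ g ∈ s, (Polynomial.X - Polynomial.C (v g)) := by
  have hN' : (0 : ℝ) < N := by exact_mod_cast hN
  let j0 : Gam N ι hQ := ⟨_, h0⟩
  let jg : s → Gam N ι hQ := fun g ↦ ⟨_, hm g.1 g.2⟩
  have key : Φ.map (Polynomial.aeval j0).toRingHom =
      ∏ g : s, (Polynomial.X - Polynomial.C (jg g)) := by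
    refine Polynomial.map_injective _ (Gam_inj hN' ι hQ hQ0) ?_
    ext k τ
    have h1 := congrArg (Polynomial.coeff · k) (hΦ τ)
    have e : ∀ p : Polynomial (ℍ → ℂ), p.coeff k τ =
        (p.map (Pi.evalRingHom (fun _ ↦ ℂ) τ)).coeff k := by
      intro p
      rw [Polynomial.coeff_map]
      rfl
    rw [e, e, Polynomial.map_map, Polynomial.map_map, Polynomial.map_map, comp_aeval,
      Polynomial.map_prod]
    refine h1.trans ?_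
    rw [← Finset.prod_coe_sort s]
    simp [jg]
  have h2 := congrArg (Polynomial.map ((RingHom.snd _ _).comp (Gam N ι hQ).subtype)) key
  rw [Polynomial.map_map, comp_aeval, Polynomial.map_prod] at h2
  rw [← Finset.prod_coe_sort s]
  simpa [j0, jg] using h2

lemma ev2_zero {L : Type*} [Field L] {Φ : Polynomial (Polynomial ℤ)} {x y : L} {κ : Type*}
    {s : Finset κ} {f : κ → L} (h : Φ.map (Polynomial.aeval x).toRingHom =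
      ∏ g ∈ s, (Polynomial.X - Polynomial.C (f g))) : ev2 Φ x y = 0 ↔ ∃ g ∈ s, y = f g := by
  simp only [ev2, h, Polynomial.eval_prod, Finset.prod_eq_zero_iff, Polynomial.eval_sub,
    Polynomial.eval_X, Polynomial.eval_C, sub_eq_zero]

lemma ev2_zero_map {L : Type*} [Field L] (ι : ℂ →+* L) {Φ : Polynomial (Polynomial ℤ)} {x : ℂ}
    {y : L} {κ : Type*} {s : Finset κ} {f : κ → ℂ}
    (h : Φ.map (Polynomial.aeval x).toRingHom =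
      ∏ g ∈ s, (Polynomial.X - Polynomial.C (f g))) :
    ev2 Φ (ι x) y = 0 ↔ ∃ g ∈ s, y = ι (f g) := by
  have k4 := congrArg (Polynomial.map ι) h
  rw [Polynomial.map_map, comp_aeval, Polynomial.map_prod] at k4
  simp only [Polynomial.map_sub, Polynomial.map_X, Polynomial.map_C] at k4
  exact ev2_zero k4

lemma pigeon2 {L : Type*} [Field L] [CharZero L] {κ : Type*} {s : Finset κ} {a b : κ → L}
    {y u : L} (h : ∀ W : ℕ, ∃ g ∈ s, y + W * u = a g + W * b g) :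
    ∃ g ∈ s, y = a g ∧ u = b g := by
  choose g hg hg' using h
  obtain ⟨W, W', hne, he⟩ := Finite.exists_ne_map_eq_of_infinite (fun W ↦ (⟨g W, hg W⟩ : s))
  have he' : g W = g W' := congrArg Subtype.val he
  have e1 := hg' W
  have e2 := hg' W'
  rw [← he'] at e2
  have hW : (W : L) - W' ≠ 0 := sub_ne_zero.mpr (by exact_mod_cast hne)
  have e3 : u = b (g W) := by
    apply mul_left_cancel₀ hW
    linear_combination e1 - e2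
  exact ⟨g W, hg W, by linear_combination e1 - W * e3, e3⟩

end gen

variable {p : ℕ} [Fact p.Prime] {Q : ℂ_[p]}

lemma Dp_ne (hQ : ‖Q‖ < 1) (h0 : Q ≠ 0) : Dp Q ≠ 0 := by
  rw [← norm_ne_zero_iff, norm_Dp hQ]
  exact norm_ne_zero_iff.mpr h0

lemma Gam_j {h : ℝ} (hh : 0 < h) (ι : ℂ →+* ℂ_[p]) (hQ : ‖Q‖ < 1) (hQ0 : Q ≠ 0) (s : ℍ → ℍ)
    {ζ : ℂ} {d : ℕ} (hd : 0 < d) (hζ : ζ ^ d = 1) {k : ℕ} (hk : 0 < k)
    (hs : ∀ τ, qq 1 (s τ) = ζ * qq h τ ^ k) :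
    (jInv ∘ s, Jp (ι ζ * Q ^ k)) ∈ Gam h ι hQ := by
  obtain ⟨Jc, -, hJ⟩ := exists_Jc
  have hζi : IsIntegral ℤ ζ := IsIntegral.of_pow hd (hζ ▸ isIntegral_one)
  have hζ0 : ι ζ ≠ 0 := by
    rw [map_ne_zero]
    rintro rfl
    simp [hd.ne'] at hζ
  have h1 := Gam_mem ι hQ hQ0 hJ s hd hζ hk hs
  have h2 := Gam_ser ι hQ hasExp_DZ s hζi hk hs
  have h3 := Gam_ser ι hQ hasExp_EZ s hζi hk hs
  have h4 := Gam_eq hh ι hQ hQ0 (Gam_mul h1 h2) h3 (by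
    funext τ
    have := ModularForm.discriminant_ne_zero (s τ)
    simp only [Function.comp_apply, jInv]
    field_simp)
  have h5 := Dp_ne (norm_lt ι hQ hζi hk) (mul_ne_zero hζ0 (pow_ne_zero _ hQ0))
  rw [Dp] at h5
  rw [Jp, Ep, Dp, ← h4, mul_div_cancel_right₀ _ h5]
  exact h1

/-- the Tate parameter attached to a triple -/
noncomputable def Qg (ι : ℂ →+* ℂ_[p]) (Q : ℂ_[p]) (N : ℕ) (g : ℕ × ℕ × ℕ) : ℂ_[p] :=
  ι (Hk.zt N g) * Q ^ (g.1 ^ 2)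

lemma Gam_U {N : ℕ} (hN : 0 < N) (ι : ℂ →+* ℂ_[p]) (hQ : ‖Q‖ < 1) (hQ0 : Q ≠ 0)
    {g : ℕ × ℕ × ℕ} (hg : g ∈ tris N) :
    (Hk.Ug g, (g.1 : ℂ_[p]) ^ 12 * Dp (Qg ι Q N g) / Dp (Q ^ N)) ∈ Gam N ι hQ := by
  have hN' : (0 : ℝ) < N := by exact_mod_cast hN
  obtain ⟨V, hV1, -, hV3⟩ := Hk.exists_V
  obtain ⟨v, hv⟩ := Gam_ex ι hQ hQ0 (Hk.hasExp_U hN hV3 hg)
    ((intS_C ((isIntegral_natCast _).pow _)).mul
      ((intS_delS.dil (Hk.zt_int hN g) _).mul (hV1.dil isIntegral_one _)))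
  have h1 := Gam_ser ι hQ hasExp_DZ id isIntegral_one hN (qq_one_eq hN)
  have h2 := Gam_ser ι hQ hasExp_DZ (tr g) (Hk.zt_int hN g) (pow_pos (Hk.pos_of_mem hN hg).1 2)
    (Hk.qq_tr hN hg)
  have h4 := Gam_eq hN' ι hQ hQ0 (Gam_mul hv h1) (Gam_mul (Gam_nat N ι hQ (g.1 ^ 12)) h2) (by
    funext τ
    have := ModularForm.discriminant_ne_zero τ
    simp only [Function.comp_apply, Hk.Ug, id, Nat.cast_pow]
    field_simp)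
  have h5 : Dp (Q ^ N) ≠ 0 :=
    Dp_ne (by rw [norm_pow]; exact pow_lt_one₀ (norm_nonneg _) hQ hN.ne') (pow_ne_zero _ hQ0)
  have h6 : v * Dp (Q ^ N) = (g.1 : ℂ_[p]) ^ 12 * Dp (Qg ι Q N g) := by
    rw [map_one, one_mul, Nat.cast_pow] at h4
    exact h4
  rw [← h6, mul_div_cancel_right₀ _ h5]
  exact hv

lemma roots {N : ℕ} (hN : 0 < N) (ι : ℂ →+* ℂ_[p]) (hQ : ‖Q‖ < 1) (hQ0 : Q ≠ 0) (W : ℕ) :
    ∃ Φ : Polynomial (Polynomial ℤ),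
      (∀ τ : ℍ, Φ.map (Polynomial.aeval (jInv τ)).toRingHom =
        ∏ g ∈ tris N, (Polynomial.X - Polynomial.C (jInv (tr g τ) + W * Hk.Ug g τ))) ∧
      ∀ y, ev2 Φ (Jp (Q ^ N)) y = 0 ↔ ∃ g ∈ tris N, y = Jp (Qg ι Q N g) +
          W * ((g.1 : ℂ_[p]) ^ 12 * Dp (Qg ι Q N g) / Dp (Q ^ N)) := by
  have hN' : (0 : ℝ) < N := by exact_mod_cast hN
  obtain ⟨Φ, -, hΦ⟩ := Hk.poly_W hN W
  refine ⟨Φ, hΦ, fun y ↦ ev2_zero (transfer' hN ι hQ hQ0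
    (f := fun g τ ↦ jInv (tr g τ) + W * Hk.Ug g τ) ?_ (fun g hg ↦ ?_) hΦ)⟩
  · have := Gam_j hN' ι hQ hQ0 id one_pos (one_pow 1) hN (qq_one_eq hN)
    rwa [map_one, one_mul] at this
  · have h1 := Gam_j hN' ι hQ hQ0 (tr g) hN (Hk.zt_pow hN g) (pow_pos (Hk.pos_of_mem hN hg).1 2)
      (Hk.qq_tr hN hg)
    exact Gam_add h1 (Gam_mul (Gam_nat N ι hQ W) (Gam_U hN ι hQ hQ0 hg))

lemma exists_root {N : ℕ} (hN : 0 < N) (h0 : Q ≠ 0) (hQ : ‖Q‖ < 1) :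
    ∃ Q1 : ℂ_[p], Q1 ≠ 0 ∧ ‖Q1‖ < 1 ∧ Q1 ^ N = Q := by
  obtain ⟨Q1, rfl⟩ := IsAlgClosed.exists_pow_nat_eq Q hN
  refine ⟨Q1, ?_, ?_, rfl⟩
  · rintro rfl
    exact h0 (zero_pow hN.ne')
  · rw [norm_pow] at hQ
    exact lt_of_pow_lt_pow_left₀ N zero_le_one (by simpa using hQ)

end TATE2

section TATE2
variable {p : ℕ} [Fact p.Prime] {Q Q' : ℂ_[p]}

theorem isog_tate {N : ℕ} (hN : 0 < N) {x y U : ℂ} (h : Isog N x y U) (ι : ℂ →+* ℂ_[p])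
    (h0 : Q ≠ 0) (hQ : ‖Q‖ < 1) (h0' : Q' ≠ 0) (hQ' : ‖Q'‖ < 1) (hx : Jp Q = ι x)
    (hy : Jp Q' = ι y) : ∃ a d : ℕ, a * d = N ∧ Q' ^ d = Q ^ a ∧
      ι U * Dp Q = (a : ℂ_[p]) ^ 12 * Dp Q' := by
  have _ := h0'
  have hD := TATE2.Dp_ne hQ h0
  obtain ⟨Q1, h10, h1, rfl⟩ := TATE2.exists_root hN h0 hQ
  obtain ⟨τ, -, rfl⟩ := j_surj x
  obtain ⟨g0, hg0, e1, e2⟩ := (Hk.isog_tri' hN τ y U).mp h
  obtain ⟨g, hg, e3, e4⟩ := TATE2.pigeon2 (s := tris N) (y := ι y) (u := ι U)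
    (a := fun g ↦ Jp (TATE2.Qg ι Q1 N g))
    (b := fun g ↦ (g.1 : ℂ_[p]) ^ 12 * Dp (TATE2.Qg ι Q1 N g) / Dp (Q1 ^ N)) fun W ↦ by
      obtain ⟨Φ, k1, k2⟩ := TATE2.roots hN ι h1 h10 W
      have k3 : ev2 Φ (jInv τ) (y + W * U) = 0 :=
        (Hk.ev2_eq_zero (k1 τ)).mpr ⟨g0, hg0, by rw [e1, e2]⟩
      have k4 := ev2_map ι Φ (jInv τ) (y + W * U)
      rw [k3, map_zero, ← hx, map_add, map_mul, map_natCast] at k4
      exact (k2 _).mp k4.symm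
  obtain ⟨ha, hd⟩ := Hk.pos_of_mem hN hg
  have had := ((Hk.mem_tris hN).mp hg).1
  have hn : ‖TATE2.Qg ι Q1 N g‖ < 1 := TATE2.norm_lt ι h1 (Hk.zt_int hN g) (pow_pos ha 2)
  have h6 := Jp_isom hQ' hn
  rw [hy, e3, sub_self, norm_zero, eq_comm, norm_eq_zero, sub_eq_zero] at h6
  refine ⟨g.1, g.2.2, had, ?_, ?_⟩
  · have h5 : Hk.zt N g ^ g.2.2 = 1 := by
      rw [Hk.zt, ← pow_mul, show g.1 * g.2.1 * g.2.2 = N * g.2.1 by rw [← had]; ring, pow_mul,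
        (Complex.isPrimitiveRoot_exp N hN.ne').pow_eq_one, one_pow]
    rw [h6, TATE2.Qg, mul_pow, ← map_pow, h5, map_one, one_mul, ← pow_mul, ← pow_mul, ← had]
    congr 1
    ring
  · rw [e4, h6, div_mul_cancel₀ _ hD]

theorem exists_isog_pow {n : ℕ} (hn : 0 < n) {x : ℂ} (ι : ℂ →+* ℂ_[p]) (h0 : Q ≠ 0) (hQ : ‖Q‖ < 1)
    (hx : Jp Q = ι x) : ∃ y U : ℂ, Isog n x y U ∧ ι y = Jp (Q ^ n) ∧
      ι U * Dp Q = (n : ℂ_[p]) ^ 12 * Dp (Q ^ n) := by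
  have hD := TATE2.Dp_ne hQ h0
  obtain ⟨Q1, h10, h1, rfl⟩ := TATE2.exists_root hn h0 hQ
  obtain ⟨τ, -, rfl⟩ := j_surj x
  have hg0 : (n, 0, 1) ∈ tris n := (Hk.mem_tris hn).mpr ⟨mul_one n, one_pos⟩
  have e0 : TATE2.Qg ι Q1 n (n, 0, 1) = (Q1 ^ n) ^ n := by
    simp [TATE2.Qg, Hk.zt, ← pow_mul, sq]
  obtain ⟨g, hg, e3, e4⟩ := TATE2.pigeon2 (s := tris n) (y := Jp ((Q1 ^ n) ^ n))
    (u := (n : ℂ_[p]) ^ 12 * Dp ((Q1 ^ n) ^ n) / Dp (Q1 ^ n))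
    (a := fun g ↦ ι (jInv (tr g τ))) (b := fun g ↦ ι (Hk.Ug g τ)) fun W ↦ by
      obtain ⟨Φ, k1, k2⟩ := TATE2.roots hn ι h1 h10 W
      have k3 := (k2 _).mpr ⟨_, hg0, rfl⟩
      rw [e0] at k3
      nth_rw 1 [hx] at k3
      have k4 := (TATE2.ev2_zero_map ι (k1 τ)).mp k3
      simpa only [map_add, map_mul, map_natCast] using k4
  refine ⟨_, _, (Hk.isog_tri' hn τ _ _).mpr ⟨g, hg, rfl, rfl⟩, e3.symm, ?_⟩
  rw [← e4, div_mul_cancel₀ _ hD]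

end TATE2

end Pool.Agent.Lib.ZP3
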