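import Pool.Agent.Lib.ZP3.Sm1
import Pool.Agent.Lib.ZP3.Hecke2
import Pool.Agent.Lib.ZP3.Psum
import Pool.Agent.Lib.ZP3.Tate2
import Pool.Agent.Lib.ZP3.Mult
import Pool.Agent.Lib.ZP3.PbSiegel
import Pool.Agent.Lib.ZP3.IntPts
import Pool.Agent.Lib.ZP3.Tiny0

/-! Block PB: a measure of approximation for the ultrametric period. -/

open UpperHalfPlane Filter Topology Metric
open scoped Real MatrixGroups

namespace Pool.Agent.Lib.ZP3

open Pool.Agent.Lib.MP_0704bf_ag Pool.Agent.Lib.helper6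

namespace PB

theorem fin_bounds {S : Set ℝ} (hS : S.Finite) : ∃ (l : ℝ) (Λ : ℕ), 0 < l ∧
    ∀ r ∈ S, 0 < r → r < 1 → Real.exp (-(Λ : ℝ)) ≤ r ∧ r ≤ Real.exp (-l) := by
  induction S, hS using Set.Finite.induction_on with
  | empty => exact ⟨1, 0, one_pos, by simp⟩
  | @insert a S _ _ ih =>
    obtain ⟨l, Λ, hl, h⟩ := ih
    by_cases ha : 0 < a ∧ a < 1
    · obtain ⟨n, hn⟩ := exists_nat_ge (-Real.log a)
      have h1 : 0 < -Real.log a := by have := Real.log_neg ha.1 ha.2; linarith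
      refine ⟨min l (-Real.log a), Λ + n, lt_min hl h1, ?_⟩
      have e1 : (0 : ℝ) ≤ Λ := Nat.cast_nonneg _
      have e2 : (0 : ℝ) ≤ n := Nat.cast_nonneg _
      rintro r (rfl | hr) h0 h2
      · constructor
        · rw [← Real.le_log_iff_exp_le h0]; push_cast; linarith
        · rw [← Real.log_le_iff_le_exp h0]; linarith [min_le_right l (-Real.log r)]
      · obtain ⟨k1, k2⟩ := h r hr h0 h2
        constructor
        · refine le_trans (Real.exp_le_exp.2 ?_) k1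
          push_cast; linarith
        · refine k2.trans (Real.exp_le_exp.2 ?_)
          linarith [min_le_left l (-Real.log a)]
    · refine ⟨l, Λ, hl, ?_⟩
      rintro r (rfl | hr) h0 h2
      · exact absurd ⟨h0, h2⟩ ha
      · exact h r hr h0 h2

section ultra
variable {p : ℕ} [Fact p.Prime]

theorem norm_int_le (n : ℤ) : ‖(n : ℂ_[p])‖ ≤ 1 :=
  norm_le_one_of_isIntegral (isIntegral_intCast n)

theorem plip {u v : Fin 2 → ℂ_[p]} {ε : ℝ} (hε : 0 ≤ ε) (hu : ∀ i, ‖u i‖ ≤ 1)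
    (hv : ∀ i, ‖v i‖ ≤ 1) (h : ∀ i, ‖u i - v i‖ ≤ ε) (P : MvPolynomial (Fin 2) ℤ) :
    ‖MvPolynomial.aeval v P‖ ≤ 1 ∧ ‖MvPolynomial.aeval u P - MvPolynomial.aeval v P‖ ≤ ε := by
  induction P using MvPolynomial.induction_on with
  | C a => simpa [hε] using norm_int_le (p := p) a
  | add P P' h1 h2 =>
    rw [map_add, map_add]
    refine ⟨(IsUltrametricDist.norm_add_le_max _ _).trans (max_le h1.1 h2.1), ?_⟩
    rw [add_sub_add_comm]
    exact (IsUltrametricDist.norm_add_le_max _ _).trans (max_le h1.2 h2.2)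
  | mul_X P i h1 =>
    simp only [map_mul, MvPolynomial.aeval_X]
    constructor
    · rw [norm_mul]; exact mul_le_one₀ h1.1 (norm_nonneg _) (hv i)
    · have e : MvPolynomial.aeval u P * u i - MvPolynomial.aeval v P * v i =
          (MvPolynomial.aeval u P - MvPolynomial.aeval v P) * u i +
            MvPolynomial.aeval v P * (u i - v i) := by ring
      rw [e]
      refine (IsUltrametricDist.norm_add_le_max _ _).trans (max_le ?_ ?_)
      · rw [norm_mul]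
        calc _ ≤ ε * 1 := mul_le_mul h1.2 (hu i) (norm_nonneg _) hε
          _ = ε := mul_one ε
      · rw [norm_mul]
        calc _ ≤ 1 * ε := mul_le_mul h1.1 (h i) (norm_nonneg _) zero_le_one
          _ = ε := one_mul ε

theorem norm_int_ge {c : ℤ} (hc : c ≠ 0) {B : ℝ} (h : |(c : ℝ)| ≤ B) : B⁻¹ ≤ ‖(c : ℂ_[p])‖ := by
  have h1 := norm_natCast_ge p (Int.natAbs_pos.2 hc)
  have h2 : ‖((c.natAbs : ℕ) : ℂ_[p])‖ = ‖(c : ℂ_[p])‖ := by
    rcases Int.natAbs_eq c with e | e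
    · conv_rhs => rw [e]
      simp
    · conv_rhs => rw [e]
      simp
  have h3 : ((c.natAbs : ℕ) : ℝ) = |(c : ℝ)| := by
    rw [Nat.cast_natAbs, Int.cast_abs]
  rw [h2, h3] at h1
  refine le_trans (inv_anti₀ ?_ h) h1
  exact abs_pos.2 (by exact_mod_cast hc)

theorem psum_aeval {Q : ℂ_[p]} (hQ : ‖Q‖ < 1) (P : MvPolynomial (Fin 2) ℤ) :
    psum (MvPolynomial.aeval ![EZ, DZ] P) Q = MvPolynomial.aeval ![Ep Q, Dp Q] P := by
  obtain ⟨φ, hφ, -⟩ := exists_psumHom hQ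
  rw [← hφ]
  induction P using MvPolynomial.induction_on with
  | C a => simp
  | add P P' h1 h2 => rw [map_add, map_add, map_add, h1, h2]
  | mul_X P i h1 =>
    rw [map_mul, map_mul, map_mul, h1, MvPolynomial.aeval_X, MvPolynomial.aeval_X]
    congr 1
    fin_cases i
    · exact hφ EZ
    · exact hφ DZ

theorem psum_X_pow {Q : ℂ_[p]} (hQ : ‖Q‖ < 1) (M : ℕ) (G : PowerSeries ℤ) :
    psum (PowerSeries.X ^ M * G) Q = Q ^ M * psum G Q := by
  obtain ⟨φ, hφ, hX⟩ := exists_psumHom hQ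
  rw [← hφ, ← hφ, map_mul, map_pow, hX]

end ultra

theorem homog {L : ℕ} {P : MvPolynomial (Fin 2) ℤ} (hP : ∀ i, P.degreeOf i ≤ L) (D : ℂ)
    (u : Fin 2 → ℂ) : D ^ (2 * L) * MvPolynomial.aeval u P =
      ∑ m ∈ P.support, ((P.coeff m : ℤ) : ℂ) * ∏ i, (D ^ (L - m i) * (D * u i) ^ m i) := by
  rw [MvPolynomial.aeval_def, MvPolynomial.eval₂_eq', Finset.mul_sum]
  refine Finset.sum_congr rfl fun m hm ↦ ?_
  have h : ∀ i, D ^ (L - m i) * (D * u i) ^ m i = D ^ L * u i ^ m i := by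
    intro i
    have : m i ≤ L := (MvPolynomial.monomial_le_degreeOf i hm).trans (hP i)
    rw [mul_pow, ← mul_assoc, ← pow_add, Nat.sub_add_cancel this]
  simp only [h, Fin.prod_univ_two, algebraMap_int_eq, eq_intCast]
  ring

theorem homog_int {L : ℕ} {P : MvPolynomial (Fin 2) ℤ} (hP : ∀ i, P.degreeOf i ≤ L) (D : ℕ)
    (u : Fin 2 → ℂ) (hu : ∀ i, IsIntegral ℤ (D * u i)) :
    IsIntegral ℤ ((D : ℂ) ^ (2 * L) * MvPolynomial.aeval u P) := by
  rw [homog hP]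
  have hD : IsIntegral ℤ (D : ℂ) := by exact_mod_cast isIntegral_algebraMap (x := (D : ℤ))
  refine IsIntegral.sum _ fun m _ ↦ IsIntegral.mul ?_ (IsIntegral.prod _ fun i _ ↦ ?_)
  · exact isIntegral_algebraMap (R := ℤ) (A := ℂ) (x := P.coeff m)
  · exact (hD.pow _).mul ((hu i).pow _)

theorem homog_norm {L : ℕ} {P : MvPolynomial (Fin 2) ℤ} (hP : ∀ i, P.degreeOf i ≤ L) (D : ℂ)
    (u : Fin 2 → ℂ) {H S : ℝ} (hD : ‖D‖ ≤ H) (hu : ∀ i, ‖D * u i‖ ≤ H)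
    (hS : ((∑ m ∈ P.support, |P.coeff m| : ℤ) : ℝ) ≤ S) :
    ‖D ^ (2 * L) * MvPolynomial.aeval u P‖ ≤ S * H ^ (2 * L) := by
  have hH : 0 ≤ H := (norm_nonneg _).trans hD
  rw [homog hP]
  refine (norm_sum_le _ _).trans (le_trans ?_ (mul_le_mul_of_nonneg_right hS (by positivity)))
  push_cast
  rw [Finset.sum_mul]
  refine Finset.sum_le_sum fun m hm ↦ ?_
  rw [norm_mul, Complex.norm_intCast, norm_prod]
  refine mul_le_mul_of_nonneg_left ?_ (abs_nonneg _)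
  have h : ∀ i, ‖D ^ (L - m i) * (D * u i) ^ m i‖ ≤ H ^ L := by
    intro i
    have : m i ≤ L := (MvPolynomial.monomial_le_degreeOf i hm).trans (hP i)
    rw [norm_mul, norm_pow, norm_pow]
    calc _ ≤ H ^ (L - m i) * H ^ m i := by gcongr; exact hu i
      _ = H ^ L := by rw [← pow_add, Nat.sub_add_cancel this]
  rw [Fin.prod_univ_two, two_mul, pow_add]
  exact mul_le_mul (h 0) (h 1) (norm_nonneg _) (by positivity)

theorem map_aeval {K : Type*} [Field K] [Algebra ℤ K] (σ : ℂ →+* K) (u : Fin 2 → ℂ)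
    (P : MvPolynomial (Fin 2) ℤ) :
    σ (MvPolynomial.aeval u P) = MvPolynomial.aeval (fun i ↦ σ (u i)) P := by
  induction P using MvPolynomial.induction_on with
  | C a => rw [MvPolynomial.aeval_C, MvPolynomial.aeval_C, eq_intCast, eq_intCast, map_intCast]
  | add P P' h1 h2 => rw [map_add, map_add, map_add, h1, h2]
  | mul_X P i h1 =>
    rw [map_mul, map_mul, map_mul, h1, MvPolynomial.aeval_X, MvPolynomial.aeval_X]

theorem nat_le_exp (n : ℕ) : (n : ℝ) ≤ Real.exp n := by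
  have := Real.add_one_le_exp (n : ℝ); linarith

theorem pow_le_exp (n k : ℕ) : (n : ℝ) ^ k ≤ Real.exp (k * n) := by
  rw [Real.exp_nat_mul]; gcongr; exact nat_le_exp n

/-- uniform archimedean bound for all conjugates of an isogeny -/
theorem house {x : ℂ} (hx : IsAlgebraic ℚ x) : ∃ C : ℕ, ∀ (n : ℕ) (y U : ℂ), 0 < n →
    Isog n x y U → ∀ σ : ℂ →+* ℂ, ‖σ U‖ * (1 + ‖σ y‖) ≤ C * (n : ℝ) ^ 12 := by
  obtain ⟨K, hK⟩ := HBF.exists_house hx
  obtain ⟨C1, h1, H1⟩ := isog_house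
  obtain ⟨C2, h2, H2⟩ := iso_log_le
  have hK0 : 0 ≤ K := (norm_nonneg _).trans (hK (RingHom.id ℂ))
  obtain ⟨C, hC⟩ := exists_nat_ge (C1 * (1 + K) * (C2 * (1 + Real.log (1 + K))) ^ 6)
  refine ⟨C, fun n y U hn h σ ↦ ?_⟩
  have k0 := h.conj hn σ
  have k1 := H1 _ _ _ _ k0
  have k2 := H2 _ _ _ hn ⟨_, k0⟩
  have k3 : Real.log (1 + ‖σ x‖) ≤ Real.log (1 + K) :=
    Real.log_le_log (by positivity) (by linarith [hK σ])
  have k4 : 0 ≤ Real.log (1 + ‖σ y‖) := Real.log_nonneg (by linarith [norm_nonneg (σ y)])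
  have k5 : 0 ≤ Real.log (1 + K) := Real.log_nonneg (by linarith)
  have k6 : 1 + Real.log (1 + ‖σ y‖) ≤ C2 * n * (1 + Real.log (1 + K)) :=
    k2.trans (by gcongr)
  calc _ ≤ C1 * (n : ℝ) ^ 6 * (1 + ‖σ x‖) * (1 + Real.log (1 + ‖σ y‖)) ^ 6 := k1
    _ ≤ C1 * (n : ℝ) ^ 6 * (1 + K) * (C2 * n * (1 + Real.log (1 + K))) ^ 6 := by
        gcongr; exact hK σ
    _ = C1 * (1 + K) * (C2 * (1 + Real.log (1 + K))) ^ 6 * (n : ℝ) ^ 12 := by ring
    _ ≤ _ := by gcongr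

/-- Liouville's inequality for the auxiliary values -/
theorem arith {x : ℂ} (hx : IsAlgebraic ℚ x) (C : ℕ) : ∃ c A0 : ℕ, ∀ (A n : ℕ) (y U η : ℂ)
    (P : MvPolynomial (Fin 2) ℤ), A0 ≤ A → 0 < n → n ≤ A ^ 6 → Isog n x y U → Sm η A →
    (∀ i, P.degreeOf i ≤ A ^ 6) →
    ∑ m ∈ P.support, |P.coeff m| ≤ (((A ^ 6 : ℕ) : ℤ) + 2) ^ (C * A ^ 6) →
    MvPolynomial.aeval ![U * y * η / n ^ 12, U * η / n ^ 12] P ≠ 0 →
    ∀ (p : ℕ) [Fact p.Prime] (ι : ℂ →+* ℂ_[p]), Real.exp (-(c * n * (A : ℝ) ^ 11)) ≤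
      ‖ι (MvPolynomial.aeval ![U * y * η / n ^ 12, U * η / n ^ 12] P)‖ := by
  obtain ⟨C3, hC3⟩ := house hx
  obtain ⟨dx, Ax, hdx, hAx⟩ := exists_AI hx
  obtain ⟨Dx, -, hDx⟩ := deg_of_alg hx
  obtain ⟨C5, hC5⟩ := divisor_bound (ε := 1 / 2) (by norm_num)
  obtain ⟨c5, hc5⟩ := exists_nat_ge C5
  refine ⟨(8 * C + 148) * (Dx * c5), dx * (C3 + 1) + 1, ?_⟩
  intro A n y U η P hA hn hnA h hη hP hS hne p _ ι
  obtain ⟨dη, hd0, hd1, hi, ⟨Eη, hE1, hE2⟩, hh⟩ := hη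
  have hA1 : 1 ≤ A := by omega
  have hA1' : (1 : ℝ) ≤ A := by exact_mod_cast hA1
  have hnC : (n : ℂ) ≠ 0 := by exact_mod_cast hn.ne'
  have hdC : (dη : ℂ) ≠ 0 := by exact_mod_cast hd0.ne'
  set u : Fin 2 → ℂ := ![U * y * η / n ^ 12, U * η / n ^ 12] with hu
  set D : ℕ := dx * dη * n ^ 12 with hD
  have hD0 : 0 < D := by positivity
  have hDC : (D : ℂ) ≠ 0 := by exact_mod_cast hD0.ne'
  have e0 : (D : ℂ) * u 0 = dx * (U * y) * (dη * η) := by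
    simp only [hu, hD, Matrix.cons_val_zero]; push_cast; field_simp
  have e1 : (D : ℂ) * u 1 = dx * U * (dη * η) := by
    simp only [hu, hD, Matrix.cons_val_one, Matrix.cons_val_zero]; push_cast; field_simp
  have hint : IsIntegral ℤ ((D : ℂ) ^ (2 * A ^ 6) * MvPolynomial.aeval u P) := by
    refine homog_int hP D u ?_
    rw [Fin.forall_fin_two, e0, e1]
    exact ⟨(h.integral2 hn hAx.1).mul hi, (h.integral hn hAx.1).mul hi⟩
  -- degree
  have hdeg : Deg ((D : ℂ) ^ (2 * A ^ 6) * MvPolynomial.aeval u P) (Dx * c5 * n * A ^ 4) := by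
    classical
    obtain ⟨E, hE, hE'⟩ := h.pairs hn hDx
    refine ⟨(E ×ˢ Eη).image fun w : (ℂ × ℂ) × ℂ ↦ (D : ℂ) ^ (2 * A ^ 6) * MvPolynomial.aeval
      (![w.1.2 * w.1.1 * (w.2 / dη) / n ^ 12, w.1.2 * (w.2 / dη) / n ^ 12] : Fin 2 → ℂ) P,
      ?_, fun σ ↦ ?_⟩
    · refine Finset.card_image_le.trans ?_
      rw [Finset.card_product]
      have k1 : n.divisors.card ≤ c5 * A ^ 3 := by
        have k2 : (n : ℝ) ^ (1 / 2 : ℝ) ≤ (A : ℝ) ^ 3 := by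
          rw [← Real.sqrt_eq_rpow, Real.sqrt_le_left (by positivity), ← pow_mul]
          exact_mod_cast hnA
        have k3 : (n.divisors.card : ℝ) ≤ c5 * (A : ℝ) ^ 3 :=
          (hC5 n).trans (mul_le_mul hc5 k2 (by positivity) (Nat.cast_nonneg _))
        exact_mod_cast k3
      calc E.card * Eη.card ≤ Dx * (n * (c5 * A ^ 3)) * A :=
            Nat.mul_le_mul (hE.trans (Nat.mul_le_mul_left _
              ((card_tris n).trans (Nat.mul_le_mul_left _ k1)))) hE1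
        _ = _ := by ring
    · refine Finset.mem_image.2 ⟨((σ y, σ U), σ (dη * η)), Finset.mem_product.2 ⟨hE' σ, hE2 σ⟩, ?_⟩
      rw [map_mul σ, map_mul σ, map_pow, map_natCast, map_natCast, map_aeval,
        mul_div_cancel_left₀ _ hdC]
      congr 3
      funext i
      fin_cases i <;> simp [hu]
  -- house
  have hn12 : (n : ℝ) ^ 12 ≤ Real.exp (72 * A) := by
    have : (n : ℝ) ≤ (A : ℝ) ^ 6 := by exact_mod_cast hnA
    calc (n : ℝ) ^ 12 ≤ ((A : ℝ) ^ 6) ^ 12 := by gcongr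
      _ = (A : ℝ) ^ 72 := by ring
      _ ≤ _ := by exact_mod_cast pow_le_exp A 72
  have hdA : (dx : ℝ) * (C3 + 1) ≤ Real.exp A := by
    refine le_trans ?_ (nat_le_exp A)
    exact_mod_cast (by omega : dx * (C3 + 1) ≤ A)
  have hH : (dx : ℝ) * (C3 + 1) * (n : ℝ) ^ 12 * Real.exp A ≤ Real.exp (74 * A) := by
    calc _ ≤ Real.exp A * Real.exp (72 * A) * Real.exp A := by gcongr
      _ = _ := by rw [← Real.exp_add, ← Real.exp_add]; congr 1; ring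
  have hC30 : (0 : ℝ) ≤ C3 := Nat.cast_nonneg _
  have hL2 : ((A ^ 6 : ℕ) : ℝ) + 2 ≤ Real.exp (8 * A) := by
    have k1 : ((A ^ 6 : ℕ) : ℝ) ≤ Real.exp (6 * A) := by exact_mod_cast pow_le_exp A 6
    have k2 : (1 : ℝ) ≤ Real.exp (6 * A) := Real.one_le_exp (by positivity)
    have k3 : (3 : ℝ) ≤ Real.exp (2 * A) := by
      have := Real.add_one_le_exp (2 * (A : ℝ)); linarith
    calc _ ≤ 3 * Real.exp (6 * A) := by linarith
      _ ≤ Real.exp (2 * A) * Real.exp (6 * A) := by gcongr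
      _ = _ := by rw [← Real.exp_add]; congr 1; ring
  have hhouse : ∀ σ : ℂ →+* ℂ, ‖σ ((D : ℂ) ^ (2 * A ^ 6) * MvPolynomial.aeval u P)‖ ≤
      Real.exp ((8 * C + 148) * (A : ℝ) ^ 7) := by
    intro σ
    rw [map_mul, map_pow, map_natCast, map_aeval]
    have k0 := hC3 n y U hn h σ
    have k1 := norm_nonneg (σ U)
    have k2 := norm_nonneg (σ y)
    have k3 : ∀ i, (D : ℂ) * σ (u i) = σ (D * u i) := fun i ↦ by rw [map_mul, map_natCast]
    have k4 : (0 : ℝ) ≤ (n : ℝ) ^ 12 := by positivity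
    refine (homog_norm hP D _ (H := Real.exp (74 * A)) (S := Real.exp (8 * A) ^ (C * A ^ 6))
      ?_ ?_ ?_).trans (le_of_eq ?_)
    · refine le_trans ?_ hH
      rw [Complex.norm_natCast, hD]
      push_cast
      calc (dx : ℝ) * dη * n ^ 12 = dx * 1 * n ^ 12 * dη := by ring
        _ ≤ _ := by gcongr; linarith
    · rw [Fin.forall_fin_two, k3, k3, e0, e1, map_mul σ _ (dη * η), map_mul σ _ (dη * η),
        map_mul σ (dx : ℂ), map_mul σ (dx : ℂ), map_mul σ U, map_natCast]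
      simp only [norm_mul, Complex.norm_natCast]
      have k5 : ‖σ U‖ * ‖σ y‖ ≤ (C3 + 1) * (n : ℝ) ^ 12 := by nlinarith
      have k6 : ‖σ U‖ ≤ (C3 + 1) * (n : ℝ) ^ 12 := by nlinarith [mul_nonneg k1 k2]
      have k7 : (0 : ℝ) ≤ dx := Nat.cast_nonneg _
      constructor
      · refine le_trans ?_ hH
        calc _ ≤ dx * ((C3 + 1) * (n : ℝ) ^ 12) * Real.exp A :=
              mul_le_mul (mul_le_mul_of_nonneg_left k5 k7) (hh σ) (norm_nonneg _) (by positivity)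
          _ = _ := by ring
      · refine le_trans ?_ hH
        calc _ ≤ dx * ((C3 + 1) * (n : ℝ) ^ 12) * Real.exp A :=
              mul_le_mul (mul_le_mul_of_nonneg_left k6 k7) (hh σ) (norm_nonneg _) (by positivity)
          _ = _ := by ring
    · have : ((∑ m ∈ P.support, |P.coeff m| : ℤ) : ℝ) ≤
          (((((A ^ 6 : ℕ) : ℤ) + 2) ^ (C * A ^ 6) : ℤ) : ℝ) := by exact_mod_cast hS
      refine this.trans ?_
      rw [Int.cast_pow, Int.cast_add, Int.cast_natCast, Int.cast_ofNat]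
      gcongr
    · rw [← Real.exp_nat_mul, ← Real.exp_nat_mul, ← Real.exp_add]
      congr 1
      push_cast
      ring
  obtain ⟨d, hd, hdB, hdp⟩ := padic_liouville hint (mul_ne_zero (pow_ne_zero _ hDC) hne) hdeg
    (Real.one_le_exp (by positivity)) hhouse
  have k1 := hdp p ι
  have k2 := norm_natCast_ge p hd
  have k3 : ‖ι ((D : ℂ) ^ (2 * A ^ 6) * MvPolynomial.aeval u P)‖ ≤ ‖ι (MvPolynomial.aeval u P)‖ := by
    rw [map_mul, norm_mul, map_pow, map_natCast, norm_pow]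
    refine mul_le_of_le_one_left (norm_nonneg _) (pow_le_one₀ (norm_nonneg _) ?_)
    exact_mod_cast norm_int_le (p := p) D
  refine le_trans ?_ (k2.trans (k1.trans k3))
  rw [Real.exp_neg]
  refine inv_anti₀ (by exact_mod_cast hd) (hdB.trans (le_of_eq ?_))
  rw [← Real.exp_nat_mul]
  congr 1
  push_cast
  ring

/-- the order of the auxiliary series -/
theorem order {c L : ℕ} {P : MvPolynomial (Fin 2) ℤ}
    (hc : ∀ M : ℕ, PowerSeries.X ^ M ∣ MvPolynomial.aeval ![EZ, DZ] P → M ≤ c * L ^ 4)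
    (h0 : PowerSeries.X ^ ((L + 1) ^ 2 / 4) ∣ MvPolynomial.aeval ![EZ, DZ] P) :
    ∃ (M : ℕ) (G : PowerSeries ℤ), (L + 1) ^ 2 / 4 ≤ M ∧ M ≤ c * L ^ 4 ∧
      MvPolynomial.aeval ![EZ, DZ] P = PowerSeries.X ^ M * G ∧ PowerSeries.coeff 0 G ≠ 0 ∧
      PowerSeries.coeff 0 G = PowerSeries.coeff M (MvPolynomial.aeval ![EZ, DZ] P) := by
  classical
  set F := MvPolynomial.aeval ![EZ, DZ] P
  have hex : ∃ m, PowerSeries.coeff m F ≠ 0 := by
    by_contra h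
    push Not at h
    have := hc (c * L ^ 4 + 1) (PowerSeries.X_pow_dvd_iff.2 fun m _ ↦ h m)
    omega
  have h1 : PowerSeries.X ^ Nat.find hex ∣ F :=
    PowerSeries.X_pow_dvd_iff.2 fun m hm ↦ by simpa using Nat.find_min hex hm
  obtain ⟨G, hG⟩ := h1
  have h2 : PowerSeries.coeff 0 G = PowerSeries.coeff (Nat.find hex) F := by
    have := PowerSeries.coeff_X_pow_mul G (Nat.find hex) 0
    rw [← hG, zero_add] at this
    exact this.symm
  refine ⟨Nat.find hex, G, ?_, hc _ ⟨G, hG⟩, hG, h2 ▸ Nat.find_spec hex, h2⟩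
  by_contra h
  exact Nat.find_spec hex (PowerSeries.X_pow_dvd_iff.1 h0 _ (by omega))

theorem core (p : ℕ) [Fact p.Prime] {x : ℂ} (hx : IsAlgebraic ℚ x) : ∃ C A0 : ℕ,
    ∀ (ι : ℂ →+* ℂ_[p]) (Q : ℂ_[p]) (η : ℂ) (A : ℕ), A0 ≤ A → Q ≠ 0 → ‖Q‖ < 1 → Jp Q = ι x →
      Sm η A → Real.exp (-(C * (A : ℝ) ^ 30)) ≤ ‖ι η - Dp Q‖ := by
  obtain ⟨l, Λ, hl, hb⟩ := fin_bounds
    ((IntPts.finite_hom (K := ℂ_[p]) hx).image fun z ↦ ‖z‖⁻¹)
  obtain ⟨C, hC⟩ := pb_siegel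
  obtain ⟨c, hc⟩ := mult_estimate
  obtain ⟨c7, A1, har⟩ := arith hx C
  obtain ⟨A2, hA2⟩ := exists_nat_gt ((4 * c7 + 66 * C) / l)
  refine ⟨33 * C + Λ * (c + 2) + Λ + c7 + 1, A1 + A2 + c + 2, ?_⟩
  intro ι Q η A hA hQ0 hQ hJ hη
  have hA1 : 1 ≤ A := by omega
  have hA1' : (1 : ℝ) ≤ A := by exact_mod_cast hA1
  have hlA : 4 * c7 + 66 * C < l * A := by
    rw [div_lt_iff₀ hl] at hA2
    have : (A2 : ℝ) ≤ A := by exact_mod_cast (by omega : A2 ≤ A)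
    nlinarith
  have hq0 : 0 < ‖Q‖ := norm_pos_iff.2 hQ0
  obtain ⟨hq1, hq2⟩ := hb ‖Q‖ ⟨ι x, ⟨ι, rfl⟩, by simp only [← hJ, norm_Jp hQ, inv_inv]⟩ hq0 hQ
  have hL : 1 ≤ A ^ 6 := Nat.one_le_pow _ _ hA1
  obtain ⟨P, hP0, hP, hS, hX, hco⟩ := hC (A ^ 6) hL
  obtain ⟨M, G, hM1, hM2, hF, hG0, hG⟩ := order (fun M h ↦ hc (A ^ 6) M P hL hP0 hP h) hX
  set δ := ‖ι η - Dp Q‖ with hδ
  have hδ0 : 0 ≤ δ := norm_nonneg _
  by_contra hcon
  rw [not_le] at hcon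
  push_cast at hcon
  have hC0 : (0 : ℝ) ≤ C := Nat.cast_nonneg _
  have hc0 : (0 : ℝ) ≤ c := Nat.cast_nonneg _
  have hc70 : (0 : ℝ) ≤ c7 := Nat.cast_nonneg _
  have hΛ0 : (0 : ℝ) ≤ Λ := Nat.cast_nonneg _
  have pw : ∀ {i j : ℕ}, i ≤ j → (A : ℝ) ^ i ≤ (A : ℝ) ^ j := fun h ↦ pow_le_pow_right₀ hA1' h
  have hA30 : (1 : ℝ) ≤ (A : ℝ) ^ 30 := one_le_pow₀ hA1'
  have hδq : δ / ‖Q‖ < Real.exp (-(c7 * (A : ℝ) ^ 17)) := by
    rw [div_lt_iff₀ hq0]
    refine hcon.trans_le (le_trans ?_ (mul_le_mul_of_nonneg_left hq1 (Real.exp_pos _).le))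
    rw [← Real.exp_add, Real.exp_le_exp]
    have k1 : c7 * (A : ℝ) ^ 17 ≤ c7 * (A : ℝ) ^ 30 := by gcongr; omega
    have k2 : (Λ : ℝ) ≤ Λ * (A : ℝ) ^ 30 := le_mul_of_one_le_right hΛ0 hA30
    have k3 : 0 ≤ (33 * C + Λ * (c + 2) + 1 : ℝ) * (A : ℝ) ^ 30 := by positivity
    nlinarith
  have hδq1 : δ / ‖Q‖ ≤ 1 :=
    hδq.le.trans (Real.exp_le_one_iff.2 (by simp only [Left.neg_nonpos_iff]; positivity))
  have hMR : (A : ℝ) ^ 12 ≤ 4 * M := by
    have k1 : (A ^ 6 + 1) ^ 2 < 4 * ((A ^ 6 + 1) ^ 2 / 4) + 4 := by omega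
    have k2 : (A ^ 6 + 1) ^ 2 = A ^ 12 + 2 * A ^ 6 + 1 := by ring
    exact_mod_cast (by omega : A ^ 12 ≤ 4 * M)
  have hDp : Dp Q ≠ 0 := by rw [← norm_pos_iff, norm_Dp hQ]; exact hq0
  have step : ∀ n, 1 ≤ n → n ≤ A ^ 6 → ‖psum G (Q ^ n)‖ ≤ δ / ‖Q‖ ^ (1 + A ^ 6 * M) := by
    intro n hn hnA
    have hQn : ‖Q ^ n‖ < 1 := by rw [norm_pow]; exact pow_lt_one₀ hq0.le hQ (by omega)
    have hQn0 : 0 < ‖Q ^ n‖ := norm_pos_iff.2 (pow_ne_zero _ hQ0)
    have hDn : Dp (Q ^ n) ≠ 0 := by rw [← norm_pos_iff, norm_Dp hQn]; exact hQn0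
    have hnp : (n : ℂ_[p]) ≠ 0 := by exact_mod_cast (by omega : n ≠ 0)
    obtain ⟨y, U, hI, hy, hU⟩ := exists_isog_pow hn ι hQ0 hQ hJ
    set u : Fin 2 → ℂ := ![U * y * η / n ^ 12, U * η / n ^ 12] with hu
    have hU' : ι U = (n : ℂ_[p]) ^ 12 * Dp (Q ^ n) / Dp Q := by rw [← hU]; field_simp
    have e0 : ι (u 0) - Ep (Q ^ n) = Ep (Q ^ n) / Dp Q * (ι η - Dp Q) := by
      simp only [hu, Matrix.cons_val_zero, map_div₀, map_mul, map_pow, map_natCast, hU', hy, Jp]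
      field_simp
    have e1 : ι (u 1) - Dp (Q ^ n) = Dp (Q ^ n) / Dp Q * (ι η - Dp Q) := by
      simp only [hu, Matrix.cons_val_one, Matrix.cons_val_zero, map_div₀, map_mul, map_pow,
        map_natCast, hU']
      field_simp
    have hv : ∀ i, ‖![Ep (Q ^ n), Dp (Q ^ n)] i‖ ≤ 1 := by
      rw [Fin.forall_fin_two]
      exact ⟨(norm_Ep hQn).le, (norm_Dp hQn).le.trans hQn.le⟩
    have hd : ∀ i, ‖ι (u i) - ![Ep (Q ^ n), Dp (Q ^ n)] i‖ ≤ δ / ‖Q‖ := by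
      rw [Fin.forall_fin_two]
      simp only [Matrix.cons_val_zero, Matrix.cons_val_one]
      rw [e0, e1, norm_mul, norm_mul, norm_div, norm_div, norm_Ep hQn, norm_Dp hQn, norm_Dp hQ]
      refine ⟨le_of_eq (by ring), ?_⟩
      calc _ ≤ 1 / ‖Q‖ * δ := by gcongr
        _ = _ := by ring
    have hu1 : ∀ i, ‖ι (u i)‖ ≤ 1 := by
      intro i
      have := IsUltrametricDist.norm_add_le_max (ι (u i) - ![Ep (Q ^ n), Dp (Q ^ n)] i)
        (![Ep (Q ^ n), Dp (Q ^ n)] i)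
      rw [sub_add_cancel] at this
      exact this.trans (max_le ((hd i).trans hδq1) (hv i))
    have k1 := (plip (by positivity) hu1 hv hd P).2
    rw [← map_aeval ι u P, ← psum_aeval hQn, hF, psum_X_pow hQn] at k1
    have hG1 : ‖psum G (Q ^ n)‖ ≤ 1 := by
      simpa using norm_psum_le hQn (F := G) (M := 0) (by simp)
    have hn1 : (1 : ℝ) ≤ n := by exact_mod_cast hn
    have hγ : MvPolynomial.aeval u P = 0 := by
      by_contra hne
      have k2 := har A n y U η P (by omega) hn hnA hI hη hP hS hne p ι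
      have k3 := IsUltrametricDist.norm_add_le_max
        (ι (MvPolynomial.aeval u P) - (Q ^ n) ^ M * psum G (Q ^ n)) ((Q ^ n) ^ M * psum G (Q ^ n))
      rw [sub_add_cancel] at k3
      refine absurd (k2.trans k3) (not_le.2 (max_lt ?_ ?_))
      · refine (k1.trans_lt hδq).trans_le (Real.exp_le_exp.2 ?_)
        have : (n : ℝ) ≤ (A : ℝ) ^ 6 := by exact_mod_cast hnA
        have : c7 * n * (A : ℝ) ^ 11 ≤ c7 * (A : ℝ) ^ 6 * (A : ℝ) ^ 11 := by gcongr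
        have : c7 * (A : ℝ) ^ 6 * (A : ℝ) ^ 11 = c7 * (A : ℝ) ^ 17 := by ring
        linarith
      · rw [norm_mul, norm_pow, norm_pow, ← pow_mul]
        calc _ ≤ Real.exp (-l) ^ (n * M) * 1 := by gcongr
          _ = Real.exp (-(l * (n * M))) := by
              rw [mul_one, ← Real.exp_nat_mul]; congr 1; push_cast; ring
          _ < _ := by
              rw [Real.exp_lt_exp, neg_lt_neg_iff]
              have k4 : (0 : ℝ) < n * (A : ℝ) ^ 11 := by positivity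
              have k5 : 4 * c7 * (n * (A : ℝ) ^ 11) < l * A * (n * (A : ℝ) ^ 11) :=
                mul_lt_mul_of_pos_right (by linarith) k4
              have k6 : l * n * (A : ℝ) ^ 12 ≤ l * n * (4 * M) := by gcongr
              nlinarith
    rw [hγ, map_zero, zero_sub, norm_neg, norm_mul, norm_pow, norm_pow, ← pow_mul] at k1
    rw [le_div_iff₀ hq0] at k1
    rw [le_div_iff₀ (by positivity)]
    refine le_trans ?_ k1
    have k7 : ‖Q‖ ^ (A ^ 6 * M) ≤ ‖Q‖ ^ (n * M) :=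
      pow_le_pow_of_le_one hq0.le hQ.le (Nat.mul_le_mul_right _ hnA)
    calc _ = ‖Q‖ ^ (A ^ 6 * M) * ‖psum G (Q ^ n)‖ * ‖Q‖ := by ring
      _ ≤ _ := by gcongr
  have k1 := padic_interp G hQ0 hQ (A ^ 6) (by positivity) step
  have hM3 : (M : ℝ) ≤ c * (A : ℝ) ^ 24 := by
    have : M ≤ c * A ^ 24 := by rw [show A ^ 24 = (A ^ 6) ^ 4 by ring]; exact hM2
    exact_mod_cast this
  have k2 : |((PowerSeries.coeff 0 G : ℤ) : ℝ)| ≤ Real.exp (33 * C * (A : ℝ) ^ 7) := by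
    have m1 := hco M
    rw [← hG] at m1
    have m2 : |((PowerSeries.coeff 0 G : ℤ) : ℝ)| ≤
        (((A : ℝ) ^ 6 + 2) * (M + 2)) ^ (C * A ^ 6) := by exact_mod_cast m1
    have m3 : (A : ℝ) ^ 6 + 2 ≤ Real.exp (8 * A) := by
      have k1 : (A : ℝ) ^ 6 ≤ Real.exp (6 * A) := by exact_mod_cast pow_le_exp A 6
      have k2 : (1 : ℝ) ≤ Real.exp (6 * A) := Real.one_le_exp (by positivity)
      have k3 : (3 : ℝ) ≤ Real.exp (2 * A) := by
        have := Real.add_one_le_exp (2 * (A : ℝ)); linarith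
      calc _ ≤ 3 * Real.exp (6 * A) := by linarith
        _ ≤ Real.exp (2 * A) * Real.exp (6 * A) := by gcongr
        _ = _ := by rw [← Real.exp_add]; congr 1; ring
    have m4 : (M : ℝ) + 2 ≤ Real.exp (25 * A) := by
      have k1 : (A : ℝ) ^ 25 ≤ Real.exp (25 * A) := by exact_mod_cast pow_le_exp A 25
      have k2 : (c : ℝ) + 2 ≤ A := by exact_mod_cast (by omega : c + 2 ≤ A)
      have k3 : (1 : ℝ) ≤ (A : ℝ) ^ 24 := one_le_pow₀ hA1'
      calc _ ≤ (c + 2) * (A : ℝ) ^ 24 := by linarith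
        _ ≤ A * (A : ℝ) ^ 24 := by gcongr
        _ = (A : ℝ) ^ 25 := by ring
        _ ≤ _ := k1
    refine m2.trans ?_
    calc _ ≤ (Real.exp (8 * A) * Real.exp (25 * A)) ^ (C * A ^ 6) := by gcongr
      _ = _ := by
          rw [← Real.exp_add, ← Real.exp_nat_mul]; congr 1; push_cast; ring
  have k3 := (norm_int_ge (p := p) hG0 k2).trans k1
  rw [← Real.exp_neg] at k3
  refine absurd k3 (not_le.2 (max_lt ?_ ?_))
  · rw [div_div, ← pow_add, div_lt_iff₀ (by positivity)]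
    refine hcon.trans_le ?_
    calc _ ≤ Real.exp (-(33 * C * (A : ℝ) ^ 7)) *
          Real.exp (-(Λ : ℝ)) ^ (1 + A ^ 6 * M + (A ^ 6) ^ 2) := by
          rw [← Real.exp_nat_mul, ← Real.exp_add, Real.exp_le_exp]
          push_cast
          have m1 : (A : ℝ) ^ 6 * M ≤ c * (A : ℝ) ^ 30 := by
            calc (A : ℝ) ^ 6 * M ≤ (A : ℝ) ^ 6 * (c * (A : ℝ) ^ 24) := by gcongr
              _ = _ := by ring
          have m2 : ((A : ℝ) ^ 6) ^ 2 ≤ (A : ℝ) ^ 30 := by rw [← pow_mul]; exact pw (by omega)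
          have m3 : (1 + (A : ℝ) ^ 6 * M + ((A : ℝ) ^ 6) ^ 2) * Λ ≤
              (c + 2) * (A : ℝ) ^ 30 * Λ := by gcongr; linarith
          have m4 : 33 * C * (A : ℝ) ^ 7 ≤ 33 * C * (A : ℝ) ^ 30 := by gcongr; omega
          have m5 : 0 ≤ (Λ + c7 + 1 : ℝ) * (A : ℝ) ^ 30 := by positivity
          nlinarith
      _ ≤ _ := by gcongr
  · have m1 : (A : ℝ) ^ 12 ≤ 2 * ((A ^ 6 * (A ^ 6 + 1) / 2 : ℕ) : ℝ) := by
      have n1 : A ^ 6 * (A ^ 6 + 1) < 2 * (A ^ 6 * (A ^ 6 + 1) / 2) + 2 := by omega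
      have n2 : A ^ 6 * (A ^ 6 + 1) = A ^ 12 + A ^ 6 := by ring
      exact_mod_cast (by omega : A ^ 12 ≤ 2 * (A ^ 6 * (A ^ 6 + 1) / 2))
    generalize A ^ 6 * (A ^ 6 + 1) / 2 = T at m1
    calc ‖Q‖ ^ T ≤ Real.exp (-l) ^ T := by gcongr
      _ = Real.exp (-(l * T)) := by rw [← Real.exp_nat_mul]; congr 1; ring
      _ < _ := by
          rw [Real.exp_lt_exp, neg_lt_neg_iff]
          have k4 : (0 : ℝ) < (A : ℝ) ^ 7 := by positivity
          have k5 : 66 * C * (A : ℝ) ^ 7 < l * A * (A : ℝ) ^ 7 :=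
            mul_lt_mul_of_pos_right (by linarith) k4
          have k6 : l * (A : ℝ) ^ 8 ≤ l * (2 * T) := by
            gcongr; exact (pw (by omega)).trans m1
          nlinarith

end PB

theorem padic_period (p : ℕ) [Fact p.Prime] {x : ℂ} (hx : IsAlgebraic ℚ x) : ∃ C k : ℕ,
    ∀ (ι : ℂ →+* ℂ_[p]) (Q : ℂ_[p]) (η : ℂ) (A : ℕ), Q ≠ 0 → ‖Q‖ < 1 → Jp Q = ι x → Sm η A →
      Real.exp (-(C * (A : ℝ) ^ k)) ≤ ‖ι η - Dp Q‖ := by
  obtain ⟨C, A0, h⟩ := PB.core p hx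
  refine ⟨C * (A0 + 1) ^ 30, 30, fun ι Q η A h0 hQ hJ hη ↦ ?_⟩
  have h1 := hη.one_le
  have h2 : A ≤ (A0 + 1) * A := Nat.le_mul_of_pos_left _ (by omega)
  have h3 : A0 ≤ (A0 + 1) * A := le_trans (by omega) (Nat.le_mul_of_pos_right _ h1)
  have e : ((C * (A0 + 1) ^ 30 : ℕ) : ℝ) * (A : ℝ) ^ 30 = C * (((A0 + 1) * A : ℕ) : ℝ) ^ 30 := by
    rw [Nat.cast_mul, Nat.cast_mul, Nat.cast_pow, mul_pow, mul_assoc]
  rw [e]
  exact h ι Q η _ h3 h0 hQ hJ (hη.mono h2)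

end Pool.Agent.Lib.ZP3
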