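import Pool.Agent.Lib.ZP3.Sm2
import Pool.Agent.Lib.ZP3.Tate
import Pool.Agent.Lib.ZP3.Psum
import Pool.Agent.Lib.ZP3.Tate2
import Pool.Agent.Lib.ZP3.PadicPer
import Pool.Agent.Lib.ZP3.CurveP

/-! Block FINA: the finite places, one coordinate at a pole and the other one regular. -/

open UpperHalfPlane Filter Topology Metric
open scoped Real MatrixGroups

namespace Pool.Agent.Lib.ZP3

open Pool.Agent.Lib.MP_0704bf_ag Pool.Agent.Lib.helper6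

namespace FINA

theorem nat_le_one {p : ℕ} [Fact p.Prime] (d : ℕ) : ‖(d : ℂ_[p])‖ ≤ 1 :=
  IsUltrametricDist.norm_natCast_le_one _ d

theorem nat_pos {p : ℕ} [Fact p.Prime] {d : ℕ} (hd : 0 < d) : 0 < ‖(d : ℂ_[p])‖ :=
  norm_pos_iff.2 (by exact_mod_cast hd.ne')

theorem dvd_le {p : ℕ} [Fact p.Prime] {d e : ℕ} (h : d ∣ e) : ‖(e : ℂ_[p])‖ ≤ ‖(d : ℂ_[p])‖ := by
  obtain ⟨c, rfl⟩ := h
  rw [Nat.cast_mul, norm_mul]
  exact mul_le_of_le_one_right (norm_nonneg _) (nat_le_one c)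

theorem unif_period {x : ℂ} (hx : IsAlgebraic ℚ x) {m : ℕ} (hm : 0 < m) : ∃ C k : ℕ,
    ∀ (p : ℕ) [Fact p.Prime], p ∣ m → ∀ (ι : ℂ →+* ℂ_[p]) (Q : ℂ_[p]) (η : ℂ) (A : ℕ), Q ≠ 0 →
      ‖Q‖ < 1 → Jp Q = ι x → Sm η A → Real.exp (-(C * (A : ℝ) ^ k)) ≤ ‖ι η - Dp Q‖ := by
  have key : ∀ p : ℕ, ∃ C k : ℕ, ∀ [Fact p.Prime] (ι : ℂ →+* ℂ_[p]) (Q : ℂ_[p]) (η : ℂ) (A : ℕ),
      Q ≠ 0 → ‖Q‖ < 1 → Jp Q = ι x → Sm η A → Real.exp (-(C * (A : ℝ) ^ k)) ≤ ‖ι η - Dp Q‖ := by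
    intro p
    by_cases hp : p.Prime
    · have : Fact p.Prime := ⟨hp⟩
      obtain ⟨C, k, h⟩ := padic_period p hx
      exact ⟨C, k, fun ι ↦ h ι⟩
    · exact ⟨0, 0, fun {h} ↦ (hp h.out).elim⟩
  choose C k h using key
  refine ⟨∑ p ∈ m.divisors, C p, ∑ p ∈ m.divisors, k p, fun p _ hp ι Q η A h0 h1 h2 h3 ↦
    le_trans (Real.exp_le_exp.2 (neg_le_neg ?_)) (h p ι Q η A h0 h1 h2 h3)⟩
  have hp' : p ∈ m.divisors := Nat.mem_divisors.2 ⟨hp, hm.ne'⟩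
  have := Nat.mul_le_mul (Finset.single_le_sum (f := C) (fun _ _ ↦ Nat.zero_le _) hp')
    (Nat.pow_le_pow_right h3.one_le (Finset.single_le_sum (f := k) (fun _ _ ↦ Nat.zero_le _) hp'))
  exact_mod_cast this

theorem sm_pair {c : ℂ} (hc : IsAlgebraic ℚ c) : ∃ C k : ℕ, ∀ (β : ℂ) (a n : ℕ), Sm β a →
    (n : ℝ) ≤ Real.exp a → Sm (β / n ^ 12) (C * a ^ k) ∧ Sm (β / n ^ 12 * c) (C * a ^ k) := by
  let ι := {q : ℂ × ℕ × ℕ // Sm q.1 q.2.1 ∧ (q.2.2 : ℝ) ≤ Real.exp q.2.1}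
  let a : ι → ℕ := fun s ↦ s.1.2.1
  have ha : ∀ s, 1 ≤ a s := fun s ↦ s.2.1.one_le
  have h1 : SF a fun s ↦ s.1.1 := SF.self fun s ↦ s.2.1
  have h2 : SF a fun s ↦ (s.1.2.2 : ℂ) := SF.self fun s ↦ by
    simpa using sm_int (s.1.2.2 : ℤ) (ha s) (by simpa using s.2.2)
  have h3 := h1.div ha (h2.pow 12)
  obtain ⟨D, ⟨C, k, hD⟩, h⟩ := SF.both ha h3 (h3.mul ha (SF.const hc))
  exact ⟨C, k, fun β a n h1 h2 ↦ ⟨(h ⟨(β, a, n), h1, h2⟩).1.mono (hD _),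
    (h ⟨(β, a, n), h1, h2⟩).2.mono (hD _)⟩⟩

theorem alg_pole {κ : Type} {A B : κ → Polynomial ℂ} {P : ℂ} {i : κ} (h : Nice A B) (hB : AlgK B)
    (hi : (B i).eval P = 0) : IsAlgebraic ℚ P ∧ (A i).eval P ≠ 0 := by
  refine ⟨(hB i).alg_root (fun e ↦ ?_) hi, fun e ↦ ?_⟩
  · have := (h i).2.1
    rw [e] at this
    simp at this
  · obtain ⟨u, v, huv⟩ := (h i).2.2
    have := congrArg (Polynomial.eval P) huv
    simp [e, hi] at this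

theorem Ep_ne {p : ℕ} [Fact p.Prime] {Q : ℂ_[p]} (hQ : ‖Q‖ < 1) : Ep Q ≠ 0 :=
  norm_pos_iff.1 (by rw [norm_Ep hQ]; exact one_pos)

theorem Dp_eq {p : ℕ} [Fact p.Prime] {Q : ℂ_[p]} (hQ : ‖Q‖ < 1) : Dp Q = Ep Q * (Jp Q)⁻¹ := by
  rw [Jp, inv_div, mul_div_cancel₀ _ (Ep_ne hQ)]

theorem norm_Q {p : ℕ} [Fact p.Prime] {Q x : ℂ_[p]} (hQ : ‖Q‖ < 1) (h : Jp Q = x) :
    ‖Q‖ = ‖x‖⁻¹ := by
  rw [← h, norm_Jp hQ, inv_inv]

theorem le_div {p : ℕ} [Fact p.Prime] {d e : ℕ} (he : 0 < e) (h : d ∣ e) {x u : ℝ} (hx : 0 ≤ x)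
    (hu : ‖(d : ℂ_[p])‖ * x ≤ u) : x ≤ u / ‖(e : ℂ_[p])‖ := by
  rw [le_div_iff₀' (nat_pos he)]
  exact (mul_le_mul_of_nonneg_right (dvd_le h) hx).trans hu

theorem size {d0 d n a : ℕ} (ha : 1 ≤ a) (C k : ℕ) (hn : n = C * a ^ k) :
    ((d0 * d ^ n : ℕ) : ℝ) ≤ Real.exp ((d0 + C * d : ℕ) * (a : ℝ) ^ k) := by
  have h : ∀ m : ℕ, (m : ℝ) ≤ Real.exp m := fun m ↦ by linarith [Real.add_one_le_exp (m : ℝ)]
  have h1 : (1 : ℝ) ≤ (a : ℝ) ^ k := one_le_pow₀ (by exact_mod_cast ha)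
  rw [Nat.cast_mul, Nat.cast_pow]
  refine (mul_le_mul (h d0) (pow_le_pow_left₀ (Nat.cast_nonneg _) (h d) n) (by positivity)
    (Real.exp_pos _).le).trans ?_
  rw [← Real.exp_nat_mul, ← Real.exp_add, hn]
  refine Real.exp_le_exp.2 ?_
  push_cast
  nlinarith [Nat.cast_nonneg (α := ℝ) d0]

theorem half_pow (n : ℕ) : (1 / 2 : ℝ) ^ (2 * n) ≤ Real.exp (-n) := by
  rw [pow_mul, Real.exp_neg, ← Real.exp_one_pow, ← inv_pow]
  refine pow_le_pow_left₀ (by norm_num) ?_ n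
  rw [le_inv_comm₀ (by norm_num) (Real.exp_pos _)]
  linarith [Real.exp_one_lt_d9]

end FINA

open FINA

variable {κ : Type} [Fintype κ] [DecidableEq κ] {A B : κ → Polynomial ℂ} {P : ℂ} {i j : κ}

theorem fin_A (h : Nice A B) (hA : AlgK A) (hB : AlgK B) (hi : (B i).eval P = 0)
    (hj : (B j).eval P ≠ 0) : ∃ C k : ℕ, ∀ (t U : ℂ) (a N : ℕ), NPk B t → 0 < N →
      Isog N (xk A B t i) (xk A B t j) U → (N : ℝ) ≤ Real.exp a →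
      Sm (U * (B i).eval t / (B j).eval t) a →
      ∃ d : ℕ, 0 < d ∧ (d : ℝ) ≤ Real.exp (C * (a : ℝ) ^ k) ∧
        ∀ (p : ℕ) [Fact p.Prime] (ι : ℂ →+* ℂ_[p]), ‖(d : ℂ_[p])‖ ≤ ‖ι (t - P)‖ := by
  obtain ⟨hP, hAi⟩ := alg_pole h hB hi
  have hb : IsAlgebraic ℚ (xk A B P j) :=
    ((hA j).alg_eval hP).mul ((hB j).alg_eval hP).inv
  have hc : IsAlgebraic ℚ ((B j).eval P / (A i).eval P) :=
    ((hB j).alg_eval hP).mul ((hA i).alg_eval hP).inv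
  obtain ⟨d1, p1, h1⟩ := pole_near h hA hB hi
  obtain ⟨d2, p2, h2⟩ := plip_div (hA j) (hB j) hP hj
  obtain ⟨d3, p3, h3⟩ := plip_div (hB j) (hA i) hP hAi
  obtain ⟨db, pb, h4⟩ := exists_den hb
  obtain ⟨C1, k1, h5⟩ := sm_pair hc
  obtain ⟨C2, k2, h6⟩ := unif_period hb pb
  have p0 : 0 < d1 * d2 * d3 := by positivity
  set d0 := d1 * d2 * d3 with hd0
  have v1 : d1 ∣ d0 := ⟨d2 * d3, by rw [hd0]; ring⟩
  have v2 : d2 ∣ d0 := ⟨d1 * d3, by rw [hd0]; ring⟩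
  have v3 : d3 ∣ d0 := ⟨d1 * d2, by rw [hd0]; ring⟩
  refine ⟨d0 + 2 * (C1 + C2 * C1 ^ k2) * db, k1 * (k2 + 1), fun t U a N hN N0 hI hNa hβ ↦
    ⟨d0 * db ^ (2 * (C1 + C2 * C1 ^ k2) * a ^ (k1 * (k2 + 1))), by positivity,
      size hβ.one_le _ _ rfl, fun p _ ι ↦ ?_⟩⟩
  rcases le_or_gt ‖(d0 : ℂ_[p])‖ ‖ι (t - P)‖ with hu | hu
  · exact (dvd_le (dvd_mul_right _ _)).trans hu
  have q0 : 0 < ‖(d0 : ℂ_[p])‖ := nat_pos p0
  have hε : ‖ι (t - P)‖ / ‖(d0 : ℂ_[p])‖ < 1 := (div_lt_one q0).2 hu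
  set ε := ‖ι (t - P)‖ / ‖(d0 : ℂ_[p])‖ with hεd
  obtain ⟨a1, a2, a3⟩ := h1 p ι t (hN i) (hu.trans_le (dvd_le v1))
  have a4 : ‖ι (xk A B t i)‖⁻¹ ≤ ε := le_div p0 v1 (by positivity) a3
  have a5 : ‖ι (xk A B t j) - ι (xk A B P j)‖ ≤ ε :=
    le_div p0 v2 (norm_nonneg _) (h2 p ι t (hu.trans_le (dvd_le v2))).2
  have a6 : ‖ι ((B j).eval t / (A i).eval t) - ι ((B j).eval P / (A i).eval P)‖ ≤ ε :=
    le_div p0 v3 (norm_nonneg _) (h3 p ι t (hu.trans_le (dvd_le v3))).2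
  have a7 : 1 < ‖ι (xk A B t j)‖ :=
    not_le.1 fun e ↦ a2.not_ge ((Iso.symm ⟨U, hI⟩).norm_le_one N0 ι e)
  have a8 : 1 < ‖ι (xk A B P j)‖ := by
    refine not_le.1 fun e ↦ a7.not_ge ?_
    rw [← sub_add_cancel (ι (xk A B t j)) (ι (xk A B P j))]
    exact (IsUltrametricDist.norm_add_le_max _ _).trans (max_le (a5.trans hε.le) e)
  obtain ⟨b1, b2⟩ := norm_natCast_le_half (p := p) (d := db) (by
    have := (h4 p ι).1
    nlinarith [norm_nonneg (db : ℂ_[p])])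
  obtain ⟨Q0, c1, c2, c3⟩ := Jp_surj a8
  obtain ⟨Qi, c4, c5, c6⟩ := Jp_surj a2
  obtain ⟨Qj, c7, c8, c9⟩ := Jp_surj a7
  obtain ⟨n, m, e1, -, e2⟩ := isog_tate N0 hI ι c4 c5 c7 c8 c6 c9
  have n0 : 0 < n := Nat.pos_of_mul_pos_right (e1 ▸ N0)
  obtain ⟨s1, s2⟩ := h5 _ a n hβ
    (le_trans (by exact_mod_cast Nat.le_of_dvd N0 ⟨m, e1.symm⟩) hNa)
  have f1 := h6 p b1 ι Q0 _ _ c1 c2 c3 s2
  have f2 := s1.padic_le ι
  set γ := U * (B i).eval t / (B j).eval t / (n : ℂ) ^ 12 with hγ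
  have g1 : Dp Qj = ι γ * ι ((B j).eval t / (A i).eval t) * Ep Qi := by
    have n1 : (n : ℂ_[p]) ≠ 0 := by exact_mod_cast n0.ne'
    have n2 : ι ((B j).eval t) ≠ 0 := (map_ne_zero ι).2 (hN j)
    rw [Dp_eq c5, c6, xk] at e2
    simp only [hγ, map_div₀, map_mul, map_pow, map_natCast, inv_div] at e2 ⊢
    field_simp at e2 ⊢
    linear_combination -e2
  have g2 : ‖ι γ * ι ((B j).eval t / (A i).eval t)‖ ≤ 1 := by
    have := norm_Dp c8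
    rw [g1, norm_mul, norm_Ep c5, mul_one] at this
    exact this.trans_le c8.le
  have g3 : ‖Dp Qj - Dp Q0‖ ≤ ε := by
    refine (norm_psum_sub c8 c2 _).trans ?_
    have x1 : ι (xk A B t j) ≠ 0 := norm_pos_iff.1 (by linarith)
    have x2 : ι (xk A B P j) ≠ 0 := norm_pos_iff.1 (by linarith)
    rw [← Jp_isom c8 c2, c9, c3, inv_sub_inv x1 x2, norm_div, norm_sub_rev, norm_mul]
    exact (div_le_self (norm_nonneg _) (by nlinarith)).trans a5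
  have hε0 : 0 ≤ ε := by positivity
  have hE : 1 ≤ Real.exp (C1 * a ^ k1 : ℕ) := Real.one_le_exp (Nat.cast_nonneg _)
  have g4 : ‖ι (γ * ((B j).eval P / (A i).eval P)) - Dp Q0‖ ≤ Real.exp (C1 * a ^ k1 : ℕ) * ε := by
    have e : ι (γ * ((B j).eval P / (A i).eval P)) - Dp Q0 =
        ι γ * (ι ((B j).eval P / (A i).eval P) - ι ((B j).eval t / (A i).eval t)) +
          (ι γ * ι ((B j).eval t / (A i).eval t) * (1 - Ep Qi) + (Dp Qj - Dp Q0)) := by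
      rw [g1, map_mul]
      ring
    rw [e]
    refine (IsUltrametricDist.norm_add_le_max _ _).trans (max_le ?_
      (((IsUltrametricDist.norm_add_le_max _ _).trans (max_le ?_ g3)).trans
        (le_mul_of_one_le_left hε0 hE)))
    · rw [norm_mul, norm_sub_rev]
      exact mul_le_mul f2 a6 (norm_nonneg _) (Real.exp_pos _).le
    · rw [norm_mul, norm_sub_rev]
      refine (mul_le_of_le_one_left (norm_nonneg _) g2).trans ((norm_Ep_sub c5).trans ?_)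
      rwa [norm_Q c5 c6]
  have g5 : Real.exp (-((C1 + C2 * C1 ^ k2) * a ^ (k1 * (k2 + 1)) : ℕ)) ≤ ε := by
    refine le_of_mul_le_mul_left (le_trans ?_ (f1.trans g4)) (Real.exp_pos _)
    rw [← Real.exp_add]
    refine Real.exp_le_exp.2 ?_
    have y1 : a ^ k1 ≤ a ^ (k1 * (k2 + 1)) := Nat.pow_le_pow_right hβ.one_le (by nlinarith)
    have y2 : a ^ (k1 * k2) ≤ a ^ (k1 * (k2 + 1)) := Nat.pow_le_pow_right hβ.one_le (by nlinarith)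
    have y3 : C1 * a ^ k1 + C2 * (C1 * a ^ k1) ^ k2 ≤
        (C1 + C2 * C1 ^ k2) * a ^ (k1 * (k2 + 1)) := by
      rw [mul_pow, ← pow_mul, add_mul, mul_assoc]
      gcongr
    have y4 := (Nat.cast_le (α := ℝ)).2 y3
    push_cast at y4 ⊢
    linarith
  rw [Nat.cast_mul, Nat.cast_pow, norm_mul, norm_pow, ← le_div_iff₀' q0, mul_assoc]
  exact (pow_le_pow_left₀ (norm_nonneg _) b2 _).trans ((half_pow _).trans g5)

end Pool.Agent.Lib.ZP3
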