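import Pool.Agent.Lib.ZP3.Psum
import Pool.Agent.Lib.ZP3.AxFinal

open UpperHalfPlane Filter Topology Metric Asymptotics Polynomial
open scoped Real MatrixGroups

namespace Pool.Agent.Lib.ZP3

open Pool.Agent.Lib.MP_0704bf_ag Pool.Agent.Lib.helper6

namespace EXC

theorem algP_iff {p : ℂ[X]} :
    AlgP p ↔ p ∈ liftsRing (algebraMap (algebraicClosure ℚ ℂ) ℂ) := by
  rw [← lifts_iff_liftsRing, lifts_iff_coeff_lifts]
  exact forall_congr' fun n => ⟨fun h => ⟨⟨_, mem_algebraicClosure_iff.2 h⟩, rfl⟩,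
    fun ⟨x, hx⟩ => hx ▸ mem_algebraicClosure_iff.1 x.2⟩

theorem C_mem {z : ℂ} (hz : z ∈ algebraicClosure ℚ ℂ) :
    C z ∈ liftsRing (algebraMap (algebraicClosure ℚ ℂ) ℂ) :=
  (lifts_iff_liftsRing _ _).1 (C_mem_lifts _ (⟨z, hz⟩ : algebraicClosure ℚ ℂ))

theorem root_mem {p : ℂ[X]} (hp : AlgP p) (h0 : p ≠ 0) {t : ℂ} (ht : p.eval t = 0) :
    t ∈ algebraicClosure ℚ ℂ := by
  obtain ⟨q, rfl⟩ := algP_iff.1 hp
  have : IsAlgebraic (algebraicClosure ℚ ℂ) t :=
    ⟨q, fun e => h0 (by rw [e, map_zero]), by rwa [coe_mapRingHom, eval_map_algebraMap] at ht⟩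
  have : Algebra.IsAlgebraic ℚ (algebraicClosure ℚ ℂ) := by
    convert algebraicClosure.isAlgebraic ℚ ℂ
    exacts [rfl, Subsingleton.elim _ _]
  exact mem_algebraicClosure_iff.2 (IsAlgebraic.restrictScalars ℚ ‹_›)

theorem eval_mem {p : ℂ[X]} (hp : AlgP p) {t : ℂ} (ht : t ∈ algebraicClosure ℚ ℂ) :
    p.eval t ∈ algebraicClosure ℚ ℂ := by
  rw [eval_eq_sum_range]
  exact sum_mem fun n _ => mul_mem (mem_algebraicClosure_iff.2 (hp n)) (pow_mem ht n)

variable {κ : Type} {A B : κ → ℂ[X]} {P : ℂ} {E : ℕ} {m : κ → ℕ} {r : ℝ} {g : κ → ℂ → ℂ}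

/-- the nome as a function of the local parameter -/
noncomputable def qu (m : κ → ℕ) (g : κ → ℂ → ℂ) (l : κ) (u : ℂ) : ℂ :=
  u ^ m l * Complex.exp (2 * π * Complex.I * g l u)

noncomputable def eu (m : κ → ℕ) (g : κ → ℂ → ℂ) (l : κ) (u : ℂ) : ℂ :=
  cuspFunction 1 ModularForm.E₄ (qu m g l u) ^ 3

theorem an_qu (h : CuspD A B P E m r g) (l : κ) : AnalyticAt ℂ (qu m g l) 0 := by
  have := h.an l 0 (mem_ball_self h.hr)
  unfold qu
  fun_prop

theorem an_eu (h : CuspD A B P E m r g) {l : κ} (hl : 0 < m l) : AnalyticAt ℂ (eu m g l) 0 := by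
  have h1 := ModularFormClass.analyticAt_cuspFunction_zero ModularForm.E₄ (h := 1) one_pos
    one_mem_strictPeriods_SL
  have h2 : qu m g l 0 = 0 := by simp [qu, hl.ne']
  exact (AnalyticAt.comp (by rwa [h2]) (an_qu h l)).pow 3

theorem qq_cf (h : CuspD A B P E m r g) {l : κ} (hl : 0 < m l) {w : ℂ}
    (hw : ‖Complex.exp w‖ < r) : qq 1 (ofComplex (cf m g l w)) = qu m g l (Complex.exp w) := by
  have h1 : 0 < (cf m g l w).im := one_pos.trans_le (((h.inf w hw).2 l).1 hl)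
  rw [qq, ofComplex_apply_of_im_pos h1, Function.Periodic.qParam, qu, ← Complex.exp_nat_mul,
    ← Complex.exp_add]
  congr 1
  have := Complex.two_pi_I_ne_zero
  simp only [cf]
  push_cast
  field_simp

theorem eu_eq (h : CuspD A B P E m r g) {l : κ} (hl : 0 < m l) {w : ℂ}
    (hw : ‖Complex.exp w‖ < r) :
    eu m g l (Complex.exp w) = ModularForm.E₄ (ofComplex (cf m g l w)) ^ 3 := by
  rw [eu, ← qq_cf h hl hw, SlashInvariantFormClass.eq_cuspFunction _ _ one_mem_strictPeriods_SL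
    one_ne_zero]

theorem approx (h : CuspD A B P E m r g) {l : κ} (hl : 0 < m l) {K : ℕ} {𝓔 : ℤ[X]} {c y0 : ℝ}
    (H : ∀ τ : ℍ, y0 ≤ τ.im → jInv τ ≠ 0 ∧
      ‖ModularForm.E₄ τ ^ 3 - aeval (jInv τ)⁻¹ 𝓔‖ ≤ c * ‖qq 1 τ‖ ^ (K + 1)) :
    (fun u => eu m g l u - aeval ((B l).eval (P + u ^ E) / (A l).eval (P + u ^ E)) 𝓔)
      =O[𝓝[≠] 0] fun u => u ^ (K + 1) := by
  have h2 : qu m g l 0 = 0 := by simp [qu, hl.ne']
  have h1 : qu m g l =O[𝓝 0] fun u => u := by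
    simpa [h2] using (an_qu h l).differentiableAt.isBigO_sub
  refine IsBigO.trans (IsBigO.of_bound c ?_) ((h1.pow (K + 1)).mono nhdsWithin_le_nhds)
  have h3 : ∀ᶠ u in 𝓝 (0 : ℂ), ‖qu m g l u‖ < Real.exp (-2 * π * y0) :=
    (an_qu h l).continuousAt.norm.eventually_lt continuousAt_const
      (by simpa [h2] using Real.exp_pos _)
  filter_upwards [nhdsWithin_le_nhds h3, nhdsWithin_le_nhds (ball_mem_nhds (0 : ℂ) h.hr),
    self_mem_nhdsWithin] with u h4 h5 h6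
  obtain ⟨w, rfl⟩ : ∃ w, Complex.exp w = u := ⟨_, Complex.exp_log h6⟩
  rw [mem_ball_zero_iff] at h5
  have h7 : y0 ≤ (ofComplex (cf m g l w)).im := by
    rw [← qq_cf h hl h5, qq, Function.Periodic.norm_qParam, Real.exp_lt_exp, div_one] at h4
    have := Real.pi_pos
    rw [← coe_im]
    nlinarith
  have h8 := (H _ h7).2
  have h9 : jInv (ofComplex (cf m g l w)) = _ := ((h.inf w h5).2 l).2
  rwa [h9, xk, inv_div, ← eu_eq h hl h5, qq_cf h hl h5, ← norm_pow] at h8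

end EXC

open EXC

variable {κ : Type} [Fintype κ] [DecidableEq κ] {A B : κ → Polynomial ℂ} {P : ℂ} {i j : κ}

theorem exc (h : Nice A B) (hA : AlgK A) (hB : AlgK B) (hN : NoMod A B) (hij : i ≠ j)
    (hi : (B i).eval P = 0) (hj : (B j).eval P = 0) :
    ∃ (R : Polynomial ℂ) (K : ℕ) (𝓔 : Polynomial ℤ), AlgP R ∧ R ≠ 0 ∧ R.rootMultiplicity P ≤ K ∧
      (∀ (p : ℕ) [Fact p.Prime] (Q : ℂ_[p]), ‖Q‖ < 1 →
        ‖Ep Q - Polynomial.aeval (Jp Q)⁻¹ 𝓔‖ ≤ ‖Q‖ ^ (K + 1)) ∧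
      ∀ t, (A i).eval t ≠ 0 → (A j).eval t ≠ 0 → R.eval t = ((A i).eval t * (A j).eval t) ^ K *
        ((A i).eval P / (A j).eval P * (A j).eval t *
            Polynomial.aeval ((B i).eval t / (A i).eval t) 𝓔 -
          (A i).eval t * Polynomial.aeval ((B j).eval t / (A j).eval t) 𝓔) := by
  obtain ⟨E, m, r, g, hc⟩ := exists_cuspD h P
  have mi := (hc.pole i).2 hi
  have mj := (hc.pole j).2 hj
  set k0 := (A i).eval P / (A j).eval P with hk0
  have ha : ∀ l, AnalyticAt ℂ (fun u => (A l).eval (P + u ^ E)) 0 := fun l =>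
    (AnalyticOnNhd.eval_polynomial (A l) _ (Set.mem_univ _)).comp (by fun_prop)
  have hne : ∀ l, (B l).eval P = 0 → ∀ᶠ u in 𝓝 (0 : ℂ), (A l).eval (P + u ^ E) ≠ 0 := fun l hl => by
    refine (ha l).continuousAt.eventually_ne ?_
    obtain ⟨a, b, e⟩ := (h l).2.2
    have := congrArg (eval P) e
    simp only [zero_pow hc.hE.ne', add_zero]
    intro h0
    simp [h0, hl] at this
  have hG : AnalyticAt ℂ (fun u => k0 * (A j).eval (P + u ^ E) * eu m g i u -
      (A i).eval (P + u ^ E) * eu m g j u) 0 :=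
    ((analyticAt_const.mul (ha j)).mul (an_eu hc mi)).sub ((ha i).mul (an_eu hc mj))
  obtain ⟨K, G1, g1, g2, g3⟩ := hG.exists_eventuallyEq_pow_smul_nonzero_iff.2 fun h0 => by
    obtain ⟨r', hr', H⟩ := Metric.eventually_nhds_iff_ball.1 (h0.and ((hne i hi).and (hne j hj)))
    refine ax_disc h hN (hc.mono (lt_min hr' hc.hr) (min_le_right _ _)).isChart hij k0
      fun w hw => ?_
    obtain ⟨w1, w2⟩ := lt_min_iff.1 (show ‖Complex.exp w‖ < min r' r from hw)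
    obtain ⟨a1, a2, a3⟩ := H _ (mem_ball_zero_iff.2 w1)
    obtain ⟨b1, b2⟩ := hc.inf w w2
    rw [eu_eq hc mi w2, eu_eq hc mj w2, ← dc_mul_jc, ← dc_mul_jc, (b2 i).2, (b2 j).2, xk, xk] at a1
    have b3 := b1 i
    have b4 := b1 j
    field_simp at a1
    rw [mul_zero, mul_eq_zero, or_iff_right (mul_ne_zero a3 a2)] at a1
    linear_combination -a1
  obtain ⟨𝓔, e1, e2, e3⟩ := exists_trunc EZ K
  obtain ⟨c, y0, H⟩ := e2 _ hasExp_EZ
  set R : ℂ[X] := ∑ k ∈ Finset.range (K + 1), C (𝓔.coeff k : ℂ) *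
    (C k0 * (A j ^ (K + 1) * B i ^ k * A i ^ (K - k)) - A i ^ (K + 1) * B j ^ k * A j ^ (K - k))
    with hR
  have hev : ∀ t, (A i).eval t ≠ 0 → (A j).eval t ≠ 0 → R.eval t =
      ((A i).eval t * (A j).eval t) ^ K * (k0 * (A j).eval t *
        aeval ((B i).eval t / (A i).eval t) 𝓔 -
          (A i).eval t * aeval ((B j).eval t / (A j).eval t) 𝓔) := fun t t1 t2 => by
    rw [aeval_eq_sum_range' (Nat.lt_succ_of_le e1), aeval_eq_sum_range' (Nat.lt_succ_of_le e1),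
      hR, eval_finsetSum, Finset.mul_sum, Finset.mul_sum, ← Finset.sum_sub_distrib,
      Finset.mul_sum]
    refine Finset.sum_congr rfl fun k hk => ?_
    obtain ⟨d, rfl⟩ := Nat.exists_eq_add_of_le (Nat.lt_succ_iff.1 (Finset.mem_range.1 hk))
    simp only [eval_mul, eval_sub, eval_C, eval_pow, zsmul_eq_mul, add_tsub_cancel_left, div_pow]
    field_simp
    ring
  have hP := root_mem (hB i) (fun e => by simpa [e] using (h i).2.1) hi
  have hnd : ¬(X - C P) ^ (K + 1) ∣ R := by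
    rintro ⟨S, hS⟩
    have o1 : (fun u => R.eval (P + u ^ E)) =O[𝓝[≠] 0] fun u : ℂ => u ^ (K + 1) := by
      have s1 : (fun u : ℂ => S.eval (P + u ^ E)) =O[𝓝 0] fun _ => (1 : ℂ) :=
        (by fun_prop : Continuous fun u : ℂ => S.eval (P + u ^ E)).continuousAt.isBigO_one ℂ
      have s2 : (fun u : ℂ => u ^ E) =O[𝓝 0] fun u => u := by
        simpa [hc.hE.ne'] using (differentiableAt_pow (𝕜 := ℂ) (x := (0 : ℂ)) E).isBigO_sub
      simpa [hS] using ((s2.pow (K + 1)).mul s1).mono nhdsWithin_le_nhds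
    have b : ∀ l, (fun u => (A l).eval (P + u ^ E)) =O[𝓝[≠] 0] fun _ => (1 : ℂ) := fun l =>
      ((ha l).continuousAt.isBigO_one ℂ).mono nhdsWithin_le_nhds
    have o2 := ((((b i).mul (b j)).pow K).mul
      (((((b j).const_mul_left k0).mul (approx hc mi H)).sub
        ((b i).mul (approx hc mj H))))).congr_right (g₂ := fun u => u ^ (K + 1)) (by simp)
    have o3 : (fun u => ((A i).eval (P + u ^ E) * (A j).eval (P + u ^ E)) ^ K * G1 u)
        =O[𝓝[≠] 0] fun u => u := by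
      refine ((isBigO_refl (fun u : ℂ => (u ^ K)⁻¹) _).mul (o1.add o2)).congr' ?_ ?_
      · filter_upwards [nhdsWithin_le_nhds (g3.and ((hne i hi).and (hne j hj))),
          self_mem_nhdsWithin] with u ⟨u1, u2, u3⟩ u4
        have u5 : u ^ K ≠ 0 := pow_ne_zero _ u4
        rw [hev _ u2 u3, inv_mul_eq_iff_eq_mul₀ u5]
        rw [sub_zero, smul_eq_mul] at u1
        linear_combination ((A i).eval (P + u ^ E) * (A j).eval (P + u ^ E)) ^ K * u1
      · filter_upwards [self_mem_nhdsWithin] with u u4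
        rw [pow_succ, inv_mul_cancel_left₀ (pow_ne_zero _ u4)]
    have t1 := o3.trans_tendsto (tendsto_nhdsWithin_of_tendsto_nhds tendsto_id)
    have t2 := ((((ha i).mul (ha j)).pow K).mul g1).continuousAt.tendsto.mono_left
      (nhdsWithin_le_nhds (s := {0}ᶜ))
    exact mul_ne_zero (pow_ne_zero _ (mul_ne_zero (hne i hi).self_of_nhds
      (hne j hj).self_of_nhds)) g2 (tendsto_nhds_unique t2 t1)
  have hR0 : R ≠ 0 := fun e => hnd (by rw [e]; exact dvd_zero _)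
  refine ⟨R, K, 𝓔, algP_iff.2 (sum_mem fun k _ => ?_), hR0,
    (rootMultiplicity_le_iff hR0 _ _).2 hnd, e3, hev⟩
  have a := fun l => algP_iff.1 (hA l)
  have b := fun l => algP_iff.1 (hB l)
  exact mul_mem (C_mem (intCast_mem _ _)) (sub_mem
    (mul_mem (C_mem (div_mem (eval_mem (hA i) hP) (eval_mem (hA j) hP)))
      (mul_mem (mul_mem (pow_mem (a j) _) (pow_mem (b i) _)) (pow_mem (a i) _)))
    (mul_mem (mul_mem (pow_mem (a i) _) (pow_mem (b j) _)) (pow_mem (a j) _)))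

end Pool.Agent.Lib.ZP3
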