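import Pool.Agent.Lib.ZP3.Sm2
import Pool.Agent.Lib.ZP3.CurveP
import Pool.Agent.Lib.ZP3.Curve2
import Pool.Agent.Lib.ZP3.Psum
import Pool.Agent.Lib.ZP3.Tate2
import Pool.Agent.Lib.ZP3.Exc

/-! Distance to a common pole of two coordinates, at the finite places. -/

set_option linter.unusedSectionVars false

open UpperHalfPlane Filter Topology Metric
open scoped Real MatrixGroups

namespace Pool.Agent.Lib.ZP3

open Pool.Agent.Lib.MP_0704bf_ag Pool.Agent.Lib.helper6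

namespace FINB

variable {p : ℕ} [Fact p.Prime]

lemma nat_le_one (n : ℕ) : ‖(n : ℂ_[p])‖ ≤ 1 := IsUltrametricDist.norm_natCast_le_one _ n

lemma le_of_dvd {d n : ℕ} (h : d ∣ n) : ‖(n : ℂ_[p])‖ ≤ ‖(d : ℂ_[p])‖ := by
  obtain ⟨k, rfl⟩ := h
  rw [Nat.cast_mul, norm_mul]
  exact mul_le_of_le_one_right (norm_nonneg _) (nat_le_one k)

lemma sub_le_max (x y : ℂ_[p]) : ‖x - y‖ ≤ max ‖x‖ ‖y‖ := by
  rw [sub_eq_add_neg, ← norm_neg y]
  exact IsUltrametricDist.norm_add_le_max _ _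

lemma map_aeval (ι : ℂ →+* ℂ_[p]) (z : ℂ) (q : Polynomial ℤ) :
    ι (Polynomial.aeval z q) = Polynomial.aeval (ι z) q := by
  rw [Polynomial.aeval_def, Polynomial.aeval_def, Polynomial.hom_eval₂]
  congr 1
  exact RingHom.ext_int _ _

lemma Dp_eq {Q : ℂ_[p]} (h0 : Q ≠ 0) (hQ : ‖Q‖ < 1) : Dp Q = Ep Q * (Jp Q)⁻¹ := by
  have h1 : Ep Q ≠ 0 := by
    rw [← norm_ne_zero_iff, norm_Ep hQ]; exact one_ne_zero
  have h2 : Dp Q ≠ 0 := by
    rw [← norm_ne_zero_iff, norm_Dp hQ]; exact norm_ne_zero_iff.2 h0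
  unfold Jp
  field_simp

/-- the generic case: the multiplier is close to its value at the pole -/
lemma close {b k r Ei Ej a : ℂ_[p]} {D u : ℝ} (hD0 : 0 ≤ D) (hD : D ≤ 1) (ha : ‖a‖ ≤ 1)
    (hEi : ‖Ei‖ = 1) (hEj : ‖Ej‖ = 1) (e : b * Ei = a * r * Ej) (h1 : D * ‖r - k‖ ≤ u)
    (h2 : D * ‖k‖ ≤ 1) (h3 : D * ‖Ei - 1‖ ≤ u) (h4 : D * ‖Ej - 1‖ ≤ u) :
    D ^ 2 * ‖b - a * k‖ ≤ u := by
  have hu : 0 ≤ u := le_trans (mul_nonneg hD0 (norm_nonneg _)) h1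
  have e1 : (b - a * k) * Ei = a * ((r - k) * Ej + k * ((Ej - 1) - (Ei - 1))) := by
    linear_combination e
  have e2 : ‖b - a * k‖ ≤ ‖(r - k) * Ej + k * ((Ej - 1) - (Ei - 1))‖ := by
    have := congrArg norm e1
    rw [norm_mul, hEi, mul_one, norm_mul] at this
    rw [this]
    exact mul_le_of_le_one_left (norm_nonneg _) ha
  have e3 := IsUltrametricDist.norm_add_le_max ((r - k) * Ej) (k * ((Ej - 1) - (Ei - 1)))
  rw [norm_mul, hEj, mul_one, norm_mul] at e3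
  have e4 : D * ‖(Ej - 1) - (Ei - 1)‖ ≤ u := by
    have := sub_le_max (Ej - 1) (Ei - 1)
    rcases le_max_iff.1 this with h | h
    · exact (mul_le_mul_of_nonneg_left h hD0).trans h4
    · exact (mul_le_mul_of_nonneg_left h hD0).trans h3
  rcases le_max_iff.1 (e2.trans e3) with h | h
  · calc D ^ 2 * ‖b - a * k‖ ≤ D ^ 2 * ‖r - k‖ := mul_le_mul_of_nonneg_left h (sq_nonneg _)
      _ = D * (D * ‖r - k‖) := by ring
      _ ≤ 1 * u := mul_le_mul hD h1 (mul_nonneg hD0 (norm_nonneg _)) zero_le_one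
      _ = u := one_mul u
  · calc D ^ 2 * ‖b - a * k‖ ≤ D ^ 2 * (‖k‖ * ‖(Ej - 1) - (Ei - 1)‖) :=
          mul_le_mul_of_nonneg_left h (sq_nonneg _)
      _ = (D * ‖k‖) * (D * ‖(Ej - 1) - (Ei - 1)‖) := by ring
      _ ≤ 1 * u := mul_le_mul h2 e4 (mul_nonneg hD0 (norm_nonneg _)) zero_le_one
      _ = u := one_mul u

/-- the exceptional case -/
lemma excep {R k ai aj Ei Ej Fi Fj : ℂ_[p]} {D u qi qj : ℝ} {K : ℕ} (hD0 : 0 ≤ D) (hD : D ≤ 1)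
    (hu : 0 < u) (hqi0 : 0 ≤ qi) (hqj0 : 0 ≤ qj)
    (e : k * aj * Ei = ai * Ej) (eR : R = (ai * aj) ^ K * (k * aj * Fi - ai * Fj))
    (hi : ‖Ei - Fi‖ ≤ qi ^ (K + 1)) (hj : ‖Ej - Fj‖ ≤ qj ^ (K + 1))
    (hqi : D * qi ≤ u) (hqj : D * qj ≤ u) (hk : D * ‖k‖ ≤ 1) (hai : D * ‖ai‖ ≤ 1)
    (haj : D * ‖aj‖ ≤ 1) (hR : D * u ^ K ≤ ‖R‖) : D ^ (3 * K + 4) ≤ u := by
  have e1 : R = (ai * aj) ^ K * (ai * (Ej - Fj) - k * aj * (Ei - Fi)) := by
    rw [eR]; congr 1; linear_combination e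
  have h1 : D ^ (K + 1) * ‖Ei - Fi‖ ≤ u ^ (K + 1) :=
    calc _ ≤ D ^ (K + 1) * qi ^ (K + 1) := mul_le_mul_of_nonneg_left hi (pow_nonneg hD0 _)
      _ = (D * qi) ^ (K + 1) := (mul_pow _ _ _).symm
      _ ≤ _ := pow_le_pow_left₀ (mul_nonneg hD0 hqi0) hqi _
  have h2 : D ^ (K + 1) * ‖Ej - Fj‖ ≤ u ^ (K + 1) :=
    calc _ ≤ D ^ (K + 1) * qj ^ (K + 1) := mul_le_mul_of_nonneg_left hj (pow_nonneg hD0 _)
      _ = (D * qj) ^ (K + 1) := (mul_pow _ _ _).symm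
      _ ≤ _ := pow_le_pow_left₀ (mul_nonneg hD0 hqj0) hqj _
  have hn1 : 0 ≤ D ^ (K + 1) * ‖Ei - Fi‖ := mul_nonneg (pow_nonneg hD0 _) (norm_nonneg _)
  have hn2 : 0 ≤ D ^ (K + 1) * ‖Ej - Fj‖ := mul_nonneg (pow_nonneg hD0 _) (norm_nonneg _)
  have h3 : D ^ (K + 3) * ‖ai * (Ej - Fj) - k * aj * (Ei - Fi)‖ ≤ u ^ (K + 1) := by
    rcases le_max_iff.1 (sub_le_max (ai * (Ej - Fj)) (k * aj * (Ei - Fi))) with h | h
    · calc _ ≤ D ^ (K + 3) * ‖ai * (Ej - Fj)‖ := mul_le_mul_of_nonneg_left h (pow_nonneg hD0 _)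
        _ = (D * (D * ‖ai‖)) * (D ^ (K + 1) * ‖Ej - Fj‖) := by rw [norm_mul]; ring
        _ ≤ 1 * u ^ (K + 1) := mul_le_mul
            (mul_le_one₀ hD (mul_nonneg hD0 (norm_nonneg _)) hai) h2 hn2 zero_le_one
        _ = _ := one_mul _
    · calc _ ≤ D ^ (K + 3) * ‖k * aj * (Ei - Fi)‖ :=
            mul_le_mul_of_nonneg_left h (pow_nonneg hD0 _)
        _ = ((D * ‖k‖) * (D * ‖aj‖)) * (D ^ (K + 1) * ‖Ei - Fi‖) := by
            rw [norm_mul, norm_mul]; ring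
        _ ≤ 1 * u ^ (K + 1) := mul_le_mul
            (mul_le_one₀ hk (mul_nonneg hD0 (norm_nonneg _)) haj) h1 hn1 zero_le_one
        _ = _ := one_mul _
  have h4 : D ^ (3 * K + 3) * ‖R‖ ≤ u ^ (K + 1) :=
    calc _ = ((D * ‖ai‖) * (D * ‖aj‖)) ^ K *
          (D ^ (K + 3) * ‖ai * (Ej - Fj) - k * aj * (Ei - Fi)‖) := by
          rw [e1, norm_mul, norm_pow, norm_mul]; ring
      _ ≤ 1 * u ^ (K + 1) := mul_le_mul
          (pow_le_one₀ (mul_nonneg (mul_nonneg hD0 (norm_nonneg _))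
            (mul_nonneg hD0 (norm_nonneg _)))
            (mul_le_one₀ hai (mul_nonneg hD0 (norm_nonneg _)) haj)) h3
          (mul_nonneg (pow_nonneg hD0 _) (norm_nonneg _)) zero_le_one
      _ = _ := one_mul _
  have h5 : D ^ (3 * K + 4) * u ^ K ≤ u * u ^ K :=
    calc _ = D ^ (3 * K + 3) * (D * u ^ K) := by ring
      _ ≤ D ^ (3 * K + 3) * ‖R‖ := mul_le_mul_of_nonneg_left hR (pow_nonneg hD0 _)
      _ ≤ u ^ (K + 1) := h4
      _ = _ := by ring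
  exact le_of_mul_le_mul_right h5 (pow_pos hu _)

end FINB

open FINB

variable {κ : Type} [Fintype κ] [DecidableEq κ] {A B : κ → Polynomial ℂ} {P : ℂ} {i j : κ}

/-- the local dichotomy near a common pole -/
theorem FINB.loc (h : Nice A B) (hA : AlgK A) (hB : AlgK B) (hN : NoMod A B) (hij : i ≠ j)
    (hi : (B i).eval P = 0) (hj : (B j).eval P = 0) : ∃ d0 : ℕ, 0 < d0 ∧
      ∀ (t U : ℂ) (N : ℕ), NPk B t → 0 < N → Isog N (xk A B t i) (xk A B t j) U →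
      ∀ (p : ℕ) [Fact p.Prime] (ι : ℂ →+* ℂ_[p]), ‖ι (t - P)‖ < ‖(d0 : ℂ_[p])‖ →
        ∃ a ∈ N.divisors,
          U * (B i).eval t / (B j).eval t - (a : ℂ) ^ 12 * ((A i).eval P / (A j).eval P) ≠ 0 ∧
          ‖(d0 : ℂ_[p])‖ * ‖ι (U * (B i).eval t / (B j).eval t -
            (a : ℂ) ^ 12 * ((A i).eval P / (A j).eval P))‖ ≤ ‖ι (t - P)‖ := by
  have hP : IsAlgebraic ℚ P := (hB i).alg_root (h.ne_zero i) hi
  have hAi : (A i).eval P ≠ 0 := h.eval_ne hi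
  have hAj : (A j).eval P ≠ 0 := h.eval_ne hj
  have hk : IsAlgebraic ℚ ((A i).eval P / (A j).eval P) := by
    rw [div_eq_mul_inv]
    exact ((hA i).alg_eval hP).mul ((hA j).alg_eval hP).inv
  obtain ⟨R, K, 𝓔, hR, hR0, hRK, hE, hRt⟩ := exc h hA hB hN hij hi hj
  obtain ⟨d1, p1, h1⟩ := pole_near h hA hB hi
  obtain ⟨d2, p2, h2⟩ := pole_near h hA hB hj
  obtain ⟨d3, p3, h3⟩ := plip_div (hA i) (hA j) hP hAj
  obtain ⟨d4, p4, h4⟩ := exists_den hk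
  obtain ⟨d5, p5, h5⟩ := ploc (hA i) (fun e => hAi (by rw [e, Polynomial.eval_zero])) hP
  obtain ⟨d6, p6, h6⟩ := ploc (hA j) (fun e => hAj (by rw [e, Polynomial.eval_zero])) hP
  obtain ⟨d7, p7, h7⟩ := ploc hR hR0 hP
  set d := d1 * d2 * d3 * d4 * d5 * d6 * d7 with hd
  refine ⟨d ^ (3 * K + 4), by positivity, fun t U N ht hN0 hI p _ ι hu => ?_⟩
  set u := ‖ι (t - P)‖ with hu'
  set D := ‖(d : ℂ_[p])‖ with hD'
  have hD0 : 0 ≤ D := norm_nonneg _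
  have hD : D ≤ 1 := nat_le_one d
  have eD : ‖((d ^ (3 * K + 4) : ℕ) : ℂ_[p])‖ = D ^ (3 * K + 4) := by
    rw [Nat.cast_pow, norm_pow]
  rw [eD] at hu ⊢
  have hu0 : 0 < u := by
    rw [hu', norm_pos_iff, map_ne_zero, sub_ne_zero]
    intro e
    exact ht i (by rw [e]; exact hi)
  have huD : u < D := hu.trans_le (pow_le_of_le_one hD0 hD (by omega))
  have hu1 : u ≤ 1 := huD.le.trans hD
  have l1 : D ≤ ‖(d1 : ℂ_[p])‖ := le_of_dvd ⟨d2 * d3 * d4 * d5 * d6 * d7, by rw [hd]; ring⟩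
  have l2 : D ≤ ‖(d2 : ℂ_[p])‖ := le_of_dvd ⟨d1 * d3 * d4 * d5 * d6 * d7, by rw [hd]; ring⟩
  have l3 : D ≤ ‖(d3 : ℂ_[p])‖ := le_of_dvd ⟨d1 * d2 * d4 * d5 * d6 * d7, by rw [hd]; ring⟩
  have l4 : D ≤ ‖(d4 : ℂ_[p])‖ := le_of_dvd ⟨d1 * d2 * d3 * d5 * d6 * d7, by rw [hd]; ring⟩
  have l5 : D ≤ ‖(d5 : ℂ_[p])‖ := le_of_dvd ⟨d1 * d2 * d3 * d4 * d6 * d7, by rw [hd]; ring⟩
  have l6 : D ≤ ‖(d6 : ℂ_[p])‖ := le_of_dvd ⟨d1 * d2 * d3 * d4 * d5 * d7, by rw [hd]; ring⟩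
  have l7 : D ≤ ‖(d7 : ℂ_[p])‖ := le_of_dvd ⟨d1 * d2 * d3 * d4 * d5 * d6, by rw [hd]; ring⟩
  have w : ∀ {c x y : ℝ}, D ≤ c → 0 ≤ x → c * x ≤ y → D * x ≤ y := fun a b c =>
    (mul_le_mul_of_nonneg_right a b).trans c
  obtain ⟨ai0, xi1, xi2⟩ := h1 p ι t (ht i) (huD.trans_le l1)
  obtain ⟨aj0, xj1, xj2⟩ := h2 p ι t (ht j) (huD.trans_le l2)
  obtain ⟨Qi, Qi0, Qi1, eQi⟩ := Jp_surj xi1
  obtain ⟨Qj, Qj0, Qj1, eQj⟩ := Jp_surj xj1
  rw [← eQi, norm_Jp Qi1, inv_inv] at xi2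
  rw [← eQj, norm_Jp Qj1, inv_inv] at xj2
  have qi := w l1 (norm_nonneg _) xi2
  have qj := w l2 (norm_nonneg _) xj2
  obtain ⟨a, a', haa, -, eU⟩ := isog_tate hN0 hI ι Qi0 Qi1 Qj0 Qj1 eQi eQj
  have ha0 : a ≠ 0 := fun e => by rw [e, zero_mul] at haa; omega
  have ji : (Jp Qi)⁻¹ = ι ((B i).eval t / (A i).eval t) := by
    rw [eQi, ← map_inv₀, xk, inv_div]
  have jj : (Jp Qj)⁻¹ = ι ((B j).eval t / (A j).eval t) := by
    rw [eQj, ← map_inv₀, xk, inv_div]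
  have n1 : ι ((A i).eval t) ≠ 0 := (map_ne_zero ι).2 ai0
  have n2 : ι ((A j).eval t) ≠ 0 := (map_ne_zero ι).2 aj0
  have n3 : ι ((B j).eval t) ≠ 0 := (map_ne_zero ι).2 (ht j)
  have e0 : ι (U * (B i).eval t / (B j).eval t) * Ep Qi =
      (a : ℂ_[p]) ^ 12 * ι ((A i).eval t / (A j).eval t) * Ep Qj := by
    rw [Dp_eq Qi0 Qi1, Dp_eq Qj0 Qj1, ji, jj, map_div₀, map_div₀] at eU
    rw [map_div₀, map_div₀, map_mul]
    field_simp
    field_simp at eU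
    linear_combination eU
  have hk1 := w l4 (norm_nonneg _) (h4 p ι).1
  refine ⟨a, Nat.mem_divisors.2 ⟨⟨a', haa.symm⟩, hN0.ne'⟩, fun e => ?_, ?_⟩
  · have e1 : ι ((A i).eval P / (A j).eval P) * ι ((A j).eval t) * Ep Qi =
        ι ((A i).eval t) * Ep Qj := by
      rw [sub_eq_zero.1 e, map_mul, map_pow, map_natCast, map_div₀ ι ((A i).eval t)] at e0
      have n4 : (a : ℂ_[p]) ≠ 0 := Nat.cast_ne_zero.2 ha0
      field_simp at e0
      linear_combination e0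
    have eR := congrArg ι (hRt t ai0 aj0)
    rw [map_mul, map_pow, map_mul, map_sub, map_mul, map_mul, map_mul, map_aeval, map_aeval,
      ← ji, ← jj] at eR
    have b5 := (h5 p ι t (huD.trans_le l5)).2
    have b6 := (h6 p ι t (huD.trans_le l6)).2
    have b7 := (h7 p ι t (huD.trans_le l7)).1
    have := excep hD0 hD hu0 (norm_nonneg Qi) (norm_nonneg Qj) e1 eR (hE p Qi Qi1) (hE p Qj Qj1)
      qi qj hk1 (w l5 (norm_nonneg _) (b5.trans (pow_le_one₀ hu0.le hu1)))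
      (w l6 (norm_nonneg _) (b6.trans (pow_le_one₀ hu0.le hu1)))
      (le_trans (mul_le_mul l7 (pow_le_pow_of_le_one hu0.le hu1 hRK) (pow_nonneg hu0.le _)
        (norm_nonneg _)) b7)
    linarith
  · rw [map_sub, map_mul, map_pow, map_natCast]
    have := close hD0 hD (by rw [norm_pow]; exact pow_le_one₀ (norm_nonneg _) (nat_le_one a))
      (norm_Ep Qi1) (norm_Ep Qj1) e0 (w l3 (norm_nonneg _) (h3 p ι t (huD.trans_le l3)).2) hk1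
      ((mul_le_mul_of_nonneg_left (norm_Ep_sub Qi1) hD0).trans qi)
      ((mul_le_mul_of_nonneg_left (norm_Ep_sub Qj1) hD0).trans qj)
    exact (mul_le_mul_of_nonneg_right (pow_le_pow_of_le_one hD0 hD (by omega))
      (norm_nonneg _)).trans this

theorem fin_B (h : Nice A B) (hA : AlgK A) (hB : AlgK B) (hN : NoMod A B) (hij : i ≠ j)
    (hi : (B i).eval P = 0) (hj : (B j).eval P = 0) : ∃ C k : ℕ, ∀ (t U : ℂ) (a N : ℕ), NPk B t →
      0 < N → Isog N (xk A B t i) (xk A B t j) U → (N : ℝ) ≤ Real.exp a → N.divisors.card ≤ a →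
      Sm (U * (B i).eval t / (B j).eval t) a →
      ∃ d : ℕ, 0 < d ∧ (d : ℝ) ≤ Real.exp (C * (a : ℝ) ^ k) ∧
        ∀ (p : ℕ) [Fact p.Prime] (ι : ℂ →+* ℂ_[p]), ‖(d : ℂ_[p])‖ ≤ ‖ι (t - P)‖ := by
  have hP : IsAlgebraic ℚ P := (hB i).alg_root (h.ne_zero i) hi
  have hk : IsAlgebraic ℚ ((A i).eval P / (A j).eval P) := by
    rw [div_eq_mul_inv]
    exact ((hA i).alg_eval hP).mul ((hA j).alg_eval hP).inv
  obtain ⟨c, hc⟩ := sm_of_alg hk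
  obtain ⟨d0, p0, h0⟩ := FINB.loc h hA hB hN hij hi hj
  refine ⟨d0 + 288 * (12 + c) ^ 8, 9, fun t U a N ht hN0 hI hNa hda hS => ?_⟩
  have ha : 1 ≤ a := hS.one_le
  set M := (12 + c) * a with hM
  have key : ∀ n ∈ N.divisors, ∃ d : ℕ, 0 < d ∧ (d : ℝ) ≤ Real.exp (288 * (M : ℝ) ^ 8) ∧
      (U * (B i).eval t / (B j).eval t - (n : ℂ) ^ 12 * ((A i).eval P / (A j).eval P) ≠ 0 →
        ∀ (p : ℕ) [Fact p.Prime] (ι : ℂ →+* ℂ_[p]), ‖(d : ℂ_[p])‖ ≤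
          ‖ι (U * (B i).eval t / (B j).eval t -
            (n : ℂ) ^ 12 * ((A i).eval P / (A j).eval P))‖) := by
    intro n hn
    by_cases e : U * (B i).eval t / (B j).eval t -
        (n : ℂ) ^ 12 * ((A i).eval P / (A j).eval P) = 0
    · exact ⟨1, one_pos, by rw [Nat.cast_one]; exact Real.one_le_exp (by positivity),
        fun e' => absurd e e'⟩
    have s1 : Sm ((n : ℤ) : ℂ) a := sm_int n ha (by
      rw [Int.cast_natCast, Nat.abs_cast]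
      exact le_trans (by exact_mod_cast Nat.divisor_le hn) hNa)
    rw [Int.cast_natCast] at s1
    have s2 : Sm ((n : ℂ) ^ 12) M := (s1.pow (by norm_num)).mono (by rw [hM]; nlinarith)
    have s3 := s2.mul (hc.mono (show c ≤ M by rw [hM]; nlinarith))
    have hMa : a ≤ M := by rw [hM]; nlinarith
    have s4 := (hS.mono (show a ≤ 2 * M ^ 2 by nlinarith)).sub s3
    obtain ⟨d, d1, d2, d3⟩ := s4.padic e
    refine ⟨d, d1, d2.trans (le_of_eq ?_), fun _ => d3⟩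
    congr 1; push_cast; ring
  choose! dd hd1 hd2 hd3 using key
  refine ⟨d0 * ∏ n ∈ N.divisors, dd n, Nat.mul_pos p0 (Finset.prod_pos hd1), ?_, fun p _ ι => ?_⟩
  · have ha' : (1 : ℝ) ≤ a := by exact_mod_cast ha
    have b1 : ((∏ n ∈ N.divisors, dd n : ℕ) : ℝ) ≤ Real.exp (a * (288 * (M : ℝ) ^ 8)) := by
      rw [Nat.cast_prod, Real.exp_nat_mul]
      calc _ ≤ ∏ _n ∈ N.divisors, Real.exp (288 * (M : ℝ) ^ 8) :=
            Finset.prod_le_prod (fun n _ => Nat.cast_nonneg _) hd2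
        _ = Real.exp (288 * (M : ℝ) ^ 8) ^ N.divisors.card := Finset.prod_const _
        _ ≤ _ := pow_le_pow_right₀ (Real.one_le_exp (by positivity)) hda
    have b2 : (d0 : ℝ) ≤ Real.exp (d0 * (a : ℝ) ^ 9) := by
      have := Real.add_one_le_exp (d0 * (a : ℝ) ^ 9)
      have h9 : (d0 : ℝ) * 1 ≤ d0 * (a : ℝ) ^ 9 :=
        mul_le_mul_of_nonneg_left (one_le_pow₀ ha') (Nat.cast_nonneg _)
      linarith
    rw [Nat.cast_mul]
    refine (mul_le_mul b2 b1 (Nat.cast_nonneg _) (Real.exp_pos _).le).trans (le_of_eq ?_)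
    rw [← Real.exp_add, hM]
    congr 1; push_cast; ring
  · by_cases hu : ‖ι (t - P)‖ < ‖(d0 : ℂ_[p])‖
    · obtain ⟨n, hn, e1, e2⟩ := h0 t U N ht hN0 hI p ι hu
      refine le_trans ?_ e2
      rw [Nat.cast_mul, norm_mul]
      exact mul_le_mul_of_nonneg_left
        ((le_of_dvd (Finset.dvd_prod_of_mem _ hn)).trans (hd3 n hn e1 p ι)) (norm_nonneg _)
    · exact (le_of_dvd (Dvd.intro _ rfl)).trans (not_lt.1 hu)

end Pool.Agent.Lib.ZP3
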