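import Pool.Agent.Lib.ZP3.Final
import Pool.Agent.Lib.ZP3.Curve2
import Pool.Agent.Lib.ZP3.CurveP
import Pool.Agent.Lib.ZP3.Ent
import Pool.Agent.Lib.ZP3.Sm1
import Pool.Agent.Lib.ZP3.Sm2
import Pool.Agent.Lib.ZP3.Beta
import Pool.Agent.Lib.ZP3.ArchA
import Pool.Agent.Lib.ZP3.FinA
import Pool.Agent.Lib.ZP3.ArchB
import Pool.Agent.Lib.ZP3.FinB
import Pool.Agent.Lib.ZP3.ArchC

/-! Block HT: height bounds for the parameter of a point with a special condition. -/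

set_option linter.unusedSectionVars false

open UpperHalfPlane Filter Topology Metric
open scoped Real MatrixGroups

namespace Pool.Agent.Lib.ZP3

open Pool.Agent.Lib.MP_0704bf_ag Pool.Agent.Lib.helper6

variable {κ : Type} [Fintype κ] [DecidableEq κ] {A B : κ → Polynomial ℂ} {i j : κ}

namespace HT

/-- the family of conjugate curves together with the conjugates of a point -/
def fam (A B : κ → Polynomial ℂ) (P : ℂ) :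
    Set ((κ → Polynomial ℂ) × (κ → Polynomial ℂ) × ℂ) :=
  Set.range fun σ : ℂ →+* ℂ ↦ (fun i ↦ (A i).map σ, fun i ↦ (B i).map σ, σ P)

lemma fam_finite (hA : AlgK A) (hB : AlgK B) {P : ℂ} (hP : IsAlgebraic ℚ P) :
    (fam A B P).Finite := by
  refine (hA.finite.prod (hB.finite.prod (CURVE.conj_finite hP))).subset ?_
  rintro _ ⟨σ, rfl⟩
  exact ⟨⟨σ, rfl⟩, ⟨σ, rfl⟩, ⟨σ, rfl⟩⟩

lemma eval_conj (p : Polynomial ℂ) (σ : ℂ →+* ℂ) (t : ℂ) :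
    (p.map σ).eval (σ t) = σ (p.eval t) := by
  simp

lemma exp_mono {a C k C' k' : ℕ} (ha : 1 ≤ a) (hC : C ≤ C') (hk : k ≤ k') :
    Real.exp (-(C' * (a : ℝ) ^ k')) ≤ Real.exp (-(C * (a : ℝ) ^ k)) :=
  Real.exp_le_exp.2 (neg_le_neg (Fin.pow_mono_aux ha hC hk))

/-- archimedean distance to a pole, for all conjugates -/
lemma arch_pair (h : Nice A B) (hA : AlgK A) (hB : AlgK B) (hN : NoMod A B) (hij : i ≠ j) {P : ℂ}
    (hP : IsAlgebraic ℚ P) (hi : (B i).eval P = 0) :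
    ∃ C k : ℕ, ∀ (t U : ℂ) (a N : ℕ), NPk B t → 0 < N →
      Isog N (xk A B t i) (xk A B t j) U → (N : ℝ) ≤ Real.exp a →
      Sm (U * (B i).eval t / (B j).eval t) a →
      ∀ σ : ℂ →+* ℂ, Real.exp (-(C * (a : ℝ) ^ k)) ≤ ‖σ (t - P)‖ := by
  obtain ⟨C, k, hC⟩ := Fin.unif (fam_finite hA hB hP) (P := fun x C k ↦ ∀ (t U : ℂ) (a N : ℕ),
      NPk x.2.1 t → 0 < N → Isog N (xk x.1 x.2.1 t i) (xk x.1 x.2.1 t j) U →
      (N : ℝ) ≤ Real.exp a → Sm (U * (x.2.1 i).eval t / (x.2.1 j).eval t) a →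
      Real.exp (-(C * (a : ℝ) ^ k)) ≤ ‖t - x.2.2‖)
    (fun x C k C' k' h1 h2 H t U a N g1 g2 g3 g4 g5 ↦
      (exp_mono g5.one_le h1 h2).trans (H t U a N g1 g2 g3 g4 g5)) (by
      rintro _ ⟨σ, rfl⟩
      have hi' : ((B i).map σ).eval (σ P) = 0 := by rw [eval_conj, hi, map_zero]
      by_cases hj : ((B j).map σ).eval (σ P) = 0
      · exact arch_B (h.conj σ) (hA.conj σ) (hB.conj σ) (hN.conj σ) hij hi' hj
      · exact arch_A (h.conj σ) (hA.conj σ) (hB.conj σ) hi' hj)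
  refine ⟨C, k, fun t U a N g1 g2 g3 g4 g5 σ ↦ ?_⟩
  rw [map_sub]
  refine hC _ ⟨σ, rfl⟩ (σ t) (σ U) a N (g1.conj σ) g2 ?_ g4 ?_
  · simp only [xk_conj]
    exact g3.conj g2 σ
  · have := g5.conj σ
    rwa [map_div₀, map_mul, ← eval_conj, ← eval_conj] at this

/-- non-archimedean distance to a pole -/
lemma fin_pair (h : Nice A B) (hA : AlgK A) (hB : AlgK B) (hN : NoMod A B) (hij : i ≠ j) {P : ℂ}
    (hi : (B i).eval P = 0) : ∃ C k : ℕ, ∀ (t U : ℂ) (a N : ℕ), NPk B t →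
      0 < N → Isog N (xk A B t i) (xk A B t j) U → (N : ℝ) ≤ Real.exp a → N.divisors.card ≤ a →
      Sm (U * (B i).eval t / (B j).eval t) a →
      ∃ d : ℕ, 0 < d ∧ (d : ℝ) ≤ Real.exp (C * (a : ℝ) ^ k) ∧
        ∀ (p : ℕ) [Fact p.Prime] (ι : ℂ →+* ℂ_[p]), ‖(d : ℂ_[p])‖ ≤ ‖ι (t - P)‖ := by
  by_cases hj : (B j).eval P = 0
  · exact fin_B h hA hB hN hij hi hj
  · obtain ⟨C, k, hC⟩ := fin_A h hA hB hi hj
    exact ⟨C, k, fun t U a N g1 g2 g3 g4 _ g5 ↦ hC t U a N g1 g2 g3 g4 g5⟩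

/-- archimedean distance to a pole at points with two endomorphisms, for all conjugates -/
lemma arch_cm_all (h : Nice A B) (hA : AlgK A) (hB : AlgK B) (hN : NoMod A B) (hij : i ≠ j)
    {P : ℂ} (hP : IsAlgebraic ℚ P) (hi : (B i).eval P = 0) :
    ∃ C k : ℕ, ∀ (t : ℂ) (a n1 n2 : ℕ), 1 ≤ a → NPk B t →
      ¬ IsSquare n1 → Iso n1 (xk A B t i) (xk A B t i) → ¬ IsSquare n2 →
      Iso n2 (xk A B t j) (xk A B t j) → (n1 : ℝ) ≤ Real.exp a → (n2 : ℝ) ≤ Real.exp a →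
      ∀ σ : ℂ →+* ℂ, Real.exp (-(C * (a : ℝ) ^ k)) ≤ ‖σ (t - P)‖ := by
  obtain ⟨C, k, hC⟩ := Fin.unif (fam_finite hA hB hP) (P := fun x C k ↦ ∀ (t : ℂ) (a n1 n2 : ℕ),
      1 ≤ a → NPk x.2.1 t → ¬ IsSquare n1 → Iso n1 (xk x.1 x.2.1 t i) (xk x.1 x.2.1 t i) →
      ¬ IsSquare n2 → Iso n2 (xk x.1 x.2.1 t j) (xk x.1 x.2.1 t j) → (n1 : ℝ) ≤ Real.exp a →
      (n2 : ℝ) ≤ Real.exp a → Real.exp (-(C * (a : ℝ) ^ k)) ≤ ‖t - x.2.2‖)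
    (fun x C k C' k' h1 h2 H t a n1 n2 g0 g1 g2 g3 g4 g5 g6 g7 ↦
      (exp_mono g0 h1 h2).trans (H t a n1 n2 g0 g1 g2 g3 g4 g5 g6 g7)) (by
      rintro _ ⟨σ, rfl⟩
      have hi' : ((B i).map σ).eval (σ P) = 0 := by rw [eval_conj, hi, map_zero]
      exact arch_cm (h.conj σ) (hA.conj σ) (hB.conj σ) (hN.conj σ) hij hi')
  refine ⟨C, k, fun t a n1 n2 g0 g1 g2 g3 g4 g5 g6 g7 σ ↦ ?_⟩
  have pos : ∀ n : ℕ, ¬ IsSquare n → 0 < n := fun n hn ↦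
    Nat.pos_of_ne_zero fun e ↦ hn (e ▸ IsSquare.zero)
  rw [map_sub]
  refine hC _ ⟨σ, rfl⟩ (σ t) a n1 n2 g0 (g1.conj σ) g2 ?_ g4 ?_ g6 g7
  · simp only [xk_conj]
    exact (iso_conj_iff (pos _ g2) _ _ σ).2 g3
  · simp only [xk_conj]
    exact (iso_conj_iff (pos _ g4) _ _ σ).2 g5

/-- polynomial bounds on positive integers -/
lemma pn_out {f : ℕ → ℕ} (h : HBF.PN (fun s : {a : ℕ // 1 ≤ a} ↦ s.1) fun s ↦ f s.1) :
    ∃ C k : ℕ, ∀ a, 1 ≤ a → f a ≤ C * a ^ k := by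
  obtain ⟨C, k, hC⟩ := h
  exact ⟨C, k, fun a ha ↦ hC ⟨a, ha⟩⟩

lemma pair_le (h : Nice A B) (hA : AlgK A) (hB : AlgK B) (hN : NoMod A B) (hij : i ≠ j)
    (hdeg : (B i).natDegree ≤ (B j).natDegree) :
    ∃ C k : ℕ, ∀ (t : ℂ) (a N : ℕ), NPk B t → IsAlgebraic ℚ t → Deg t a →
      MinIso N (xk A B t i) (xk A B t j) → (N : ℝ) ≤ Real.exp a → N.divisors.card ≤ a →
      (∀ (σ : ℂ →+* ℂ) (l : κ), Real.log (1 + ‖σ (xk A B t l)‖) ≤ Real.exp a) →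
      Sm t (C * a ^ k) := by
  obtain ⟨P, hi⟩ := h.exists_pole i
  have hP : IsAlgebraic ℚ P := (hB i).alg_root (h.ne_zero i) hi
  obtain ⟨C1, k1, h1⟩ := beta_sm h hA hB hdeg
  obtain ⟨C2, k2, h2⟩ := fin_pair h hA hB hN hij hi
  obtain ⟨C3, k3, h3⟩ := arch_pair h hA hB hN hij hP hi
  obtain ⟨C4, h4⟩ := sm_of_close hP
  have one : ∀ s : {a : ℕ // 1 ≤ a}, 1 ≤ s.1 := fun s ↦ s.2
  have p1 : HBF.PN (fun s : {a : ℕ // 1 ≤ a} ↦ s.1) fun s ↦ s.1 + C1 * s.1 ^ k1 :=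
    HBF.PN.self.add one ((HBF.PN.const C1).mul (HBF.PN.self.pow k1))
  obtain ⟨C, k, hC⟩ := pn_out (f := fun a ↦ C4 * (a + C2 * (a + C1 * a ^ k1) ^ k2 +
      C3 * (a + C1 * a ^ k1) ^ k3) ^ 4) ((HBF.PN.const C4).mul
    (((HBF.PN.self.add one ((HBF.PN.const C2).mul (p1.pow k2))).add one
      ((HBF.PN.const C3).mul (p1.pow k3))).pow 4))
  refine ⟨C, k, fun t a N g1 g2 g3 g4 g5 g6 g7 ↦ Sm.mono ?_ (hC a g3.pos)⟩
  obtain ⟨U, hU⟩ := g4.2.1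
  have hs := (h1 t U a N g1 g2 g3 g4 hU g5 fun σ ↦ g7 σ j).1
  generalize C1 * a ^ k1 = b at hs
  have hs' := hs.mono (Nat.le_add_left b a)
  have g5' : (N : ℝ) ≤ Real.exp ((a + b : ℕ) : ℝ) :=
    g5.trans (Real.exp_le_exp.2 (Nat.cast_le.2 (Nat.le_add_right a b)))
  obtain ⟨d, d1, d2, d3⟩ := h2 t U (a + b) N g1 g4.1 hU g5' (g6.trans (Nat.le_add_right a b)) hs'
  have e3 := h3 t U (a + b) N g1 g4.1 hU g5' hs'
  refine h4 t _ d g2 (g3.mono (by omega)) d1 (d2.trans (Real.exp_le_exp.2 ?_)) d3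
    fun σ ↦ (Real.exp_le_exp.2 (neg_le_neg ?_)).trans (e3 σ)
  · exact_mod_cast (by omega : C2 * (a + b) ^ k2 ≤ a + C2 * (a + b) ^ k2 + C3 * (a + b) ^ k3)
  · exact_mod_cast (by omega : C3 * (a + b) ^ k3 ≤ a + C2 * (a + b) ^ k2 + C3 * (a + b) ^ k3)

end HT

theorem height_pair (h : Nice A B) (hA : AlgK A) (hB : AlgK B) (hN : NoMod A B) (hij : i ≠ j) :
    ∃ C k : ℕ, ∀ (t : ℂ) (a N : ℕ), NPk B t → IsAlgebraic ℚ t → Deg t a →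
      MinIso N (xk A B t i) (xk A B t j) → (N : ℝ) ≤ Real.exp a → N.divisors.card ≤ a →
      (∀ (σ : ℂ →+* ℂ) (l : κ), Real.log (1 + ‖σ (xk A B t l)‖) ≤ Real.exp a) →
      Sm t (C * a ^ k) := by
  rcases le_total (B i).natDegree (B j).natDegree with hd | hd
  · exact HT.pair_le h hA hB hN hij hd
  · obtain ⟨C, k, hC⟩ := HT.pair_le h hA hB hN hij.symm hd
    exact ⟨C, k, fun t a N g1 g2 g3 g4 g5 g6 g7 ↦ hC t a N g1 g2 g3 g4.symm g5 g6 g7⟩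

theorem height_cm (h : Nice A B) (hA : AlgK A) (hB : AlgK B) (hN : NoMod A B) (hij : i ≠ j) :
    ∃ C k : ℕ, ∀ (t : ℂ) (a n1 n2 : ℕ), NPk B t → IsAlgebraic ℚ t → Deg t a →
      ¬ IsSquare n1 → Iso n1 (xk A B t i) (xk A B t i) → ¬ IsSquare n2 →
      Iso n2 (xk A B t j) (xk A B t j) → (n1 : ℝ) ≤ Real.exp a → (n2 : ℝ) ≤ Real.exp a →
      Sm t (C * a ^ k) := by
  obtain ⟨P, hi⟩ := h.exists_pole i
  have hP : IsAlgebraic ℚ P := (hB i).alg_root (h.ne_zero i) hi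
  obtain ⟨d, d1, d3⟩ := pole_near h hA hB hi
  obtain ⟨C3, k3, h3⟩ := HT.arch_cm_all h hA hB hN hij hP hi
  obtain ⟨C4, h4⟩ := sm_of_close hP
  have one : ∀ s : {a : ℕ // 1 ≤ a}, 1 ≤ s.1 := fun s ↦ s.2
  obtain ⟨C, k, hC⟩ := HT.pn_out (f := fun a ↦ C4 * (a + d + C3 * a ^ k3) ^ 4)
    ((HBF.PN.const C4).mul (((HBF.PN.self.add one (HBF.PN.const d)).add one
      ((HBF.PN.const C3).mul (HBF.PN.self.pow k3))).pow 4))
  refine ⟨C, k, fun t a n1 n2 g1 g2 g3 g4 g5 g6 g7 g8 g9 ↦ Sm.mono ?_ (hC a g3.pos)⟩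
  have e3 := h3 t a n1 n2 g3.pos g1 g4 g5 g6 g7 g8 g9
  refine h4 t _ d g2 (g3.mono (by omega)) d1 ?_ (fun p _ ι ↦ not_lt.1 fun hlt ↦ ?_)
    fun σ ↦ (Real.exp_le_exp.2 (neg_le_neg ?_)).trans (e3 σ)
  · have e1 : (d : ℝ) ≤ ((a + d + C3 * a ^ k3 : ℕ) : ℝ) := Nat.cast_le.2 (by omega)
    have e2 := Real.add_one_le_exp ((a + d + C3 * a ^ k3 : ℕ) : ℝ)
    linarith
  · exact absurd (TATE.norm_le_one_int (map_isIntegral_int ι (isIntegral_of_end g4 g5)))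
      (not_le.2 (d3 p ι t (g1 i) hlt).2.1)
  · exact_mod_cast (by omega : C3 * a ^ k3 ≤ a + d + C3 * a ^ k3)

end Pool.Agent.Lib.ZP3
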