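import Pool.Agent.Lib.ZP3.IsoEst

/-! Block ELL2: uniform versions of the obstruction cases and of the algebraic model. -/

open UpperHalfPlane Filter Topology Metric
open scoped Real

namespace Pool.Agent.Lib.ZP3

open Pool.Agent.Lib.MP_0704bf_ag Pool.Agent.Lib.helper6

open ObsAux in
theorem obs_cases2 {W : Fin 3 → WD} {β : Fin 3 → ℂ} {K : ℕ} {τ Ω θ : ℂ} {m1 m2 : ℤ}
    (h1 : (W 1).IsLat τ Ω) (h2 : (W 2).IsLat τ Ω) (hτ : 0 < τ.im) (hΩ : Ω ≠ 0) (hθ : θ ≠ 0)
    (hm : IsCoprime m1 m2) (hβ0 : β 0 ≠ 0) (hβ1 : β 1 = θ * m1) (hβ2 : β 2 = θ * m2)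
    (h : Obs W β K) : (|m1| ≤ K ∧ |m2| ≤ K) ∨
      ∃ μ : ℂ, μ ≠ 0 ∧ Few μ (W 0).Λ (W 1).Λ K ∧ Few μ⁻¹ (W 1).Λ (W 0).Λ K ∧
        ((β 0 / θ).im ≠ 0 → μ.im ≠ 0) := by
  obtain ⟨H, hH0, hH, hJ⟩ := h
  rw [hβ1, hβ2] at hH
  obtain ⟨v, hv, hv0⟩ := (Submodule.ne_bot_iff H).1 hH0
  have h21 : ∀ z, z ∈ (W 2).Λ ↔ z ∈ (W 1).Λ := fun z => (h2 z).trans (h1 z).symm
  have hΩ1 : Ω ∈ (W 1).Λ := (h1 _).2 ⟨1, 0, by simp⟩
  obtain ⟨a, b, hab⟩ := id hm
  have hab' : (a : ℂ) * m1 + b * m2 = 1 := by exact_mod_cast hab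
  have ext0 : ∀ w ∈ H, w 1 = 0 → w 2 = 0 → w = 0 := by
    intro w hw k1 k2
    have := hH w hw
    rw [k1, k2, mul_zero, mul_zero, add_zero, mul_eq_zero] at this
    funext i
    fin_cases i
    exacts [this.resolve_left hβ0, k1, k2]
  by_cases hl : ∀ w ∈ H, v 1 * w 2 = v 2 * w 1
  · -- a line
    have line : ∀ i, v i ≠ 0 → ∀ l ∈ (W i).Λ, ∃ n : ℕ, 0 < n ∧ n ≤ K ∧
        ∀ j, (n : ℂ) * (l / v i * v j) ∈ (W j).Λ := by
      intro i hi l hl'
      refine hJ {i} (fun w hw hw0 => ?_) (fun w => ⟨(w i / v i) • v, H.smul_mem _ hv, ?_⟩)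
        ((l / v i) • v) (H.smul_mem _ hv) ?_
      · have hwi : w i = 0 := hw0 i (Finset.mem_singleton_self i)
        have k1 := hH w hw
        have k2 := hH v hv
        have k3 := hl w hw
        have k4 : β 0 * (v 0 * w 1 - v 1 * w 0) = 0 := by
          linear_combination w 1 * k2 - v 1 * k1 - θ * m2 * k3
        have k5 : β 0 * (v 0 * w 2 - v 2 * w 0) = 0 := by
          linear_combination w 2 * k2 - v 2 * k1 + θ * m1 * k3
        rw [mul_eq_zero, sub_eq_zero] at k4 k5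
        replace k4 := k4.resolve_left hβ0
        replace k5 := k5.resolve_left hβ0
        refine ext0 w hw ?_ ?_
        · fin_cases i
          · simp only [Fin.zero_eta] at hi hwi
            rw [hwi, mul_zero] at k4
            exact (mul_eq_zero.1 k4).resolve_left hi
          · exact hwi
          · simp only [Fin.reduceFinMk] at hi hwi
            rw [hwi, mul_zero] at k3
            exact (mul_eq_zero.1 k3.symm).resolve_left hi
        · fin_cases i
          · simp only [Fin.zero_eta] at hi hwi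
            rw [hwi, mul_zero] at k5
            exact (mul_eq_zero.1 k5).resolve_left hi
          · simp only [Fin.mk_one] at hi hwi
            rw [hwi, mul_zero] at k3
            exact (mul_eq_zero.1 k3).resolve_left hi
          · exact hwi
      · intro j hj
        rw [Finset.mem_singleton.1 hj]
        simp [hi]
      · intro j hj
        rw [Finset.mem_singleton.1 hj]
        simpa [hi] using hl'
    by_cases h0 : v 0 = 0
    · left
      have k1 : (m1 : ℂ) * v 1 + m2 * v 2 = 0 := by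
        have := hH v hv
        rw [h0] at this
        exact mul_left_cancel₀ hθ (by linear_combination -this)
      constructor
      · rcases eq_or_ne m1 0 with rfl | hm1
        · simp
        have hm1' : (m1 : ℂ) ≠ 0 := by exact_mod_cast hm1
        have hv2 : v 2 ≠ 0 := fun h3 => hv0 (ext0 v hv (by simpa [h3, hm1'] using k1) h3)
        obtain ⟨n, hn, hK, hn'⟩ := line 2 hv2 Ω ((h21 _).2 hΩ1)
        refine dvd_of_mem h1 hτ hΩ hm1 hm.neg_right hn hK ?_ (hn' 1)
        push_cast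
        field_simp
        linear_combination k1
      · rcases eq_or_ne m2 0 with rfl | hm2
        · simp
        have hm2' : (m2 : ℂ) ≠ 0 := by exact_mod_cast hm2
        have hv1 : v 1 ≠ 0 := fun h3 => hv0 (ext0 v hv h3 (by simpa [h3, hm2'] using k1))
        obtain ⟨n, hn, hK, hn'⟩ := line 1 hv1 Ω hΩ1
        refine dvd_of_mem h2 hτ hΩ hm2 hm.symm.neg_right hn hK ?_ (hn' 2)
        push_cast
        field_simp
        linear_combination k1
    · right
      have e0 : β 0 / θ = m1 * (v 1 / v 0) + m2 * (v 2 / v 0) := by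
        have := hH v hv
        field_simp
        linear_combination this
      obtain ⟨i, hi, hiΛ, him⟩ : ∃ i, v i ≠ 0 ∧ (∀ z, z ∈ (W i).Λ ↔ z ∈ (W 1).Λ) ∧
          ((β 0 / θ).im ≠ 0 → (v i / v 0).im ≠ 0) := by
        by_cases h3 : (v 1 / v 0).im = 0
        · by_cases h4 : (v 2 / v 0).im = 0
          · have h5 : ¬ (β 0 / θ).im ≠ 0 := by
              rw [e0, Complex.add_im, Complex.mul_im, Complex.mul_im, h3, h4]
              simp
            by_cases h6 : v 1 = 0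
            · exact ⟨2, fun h4 => hv0 (ext0 v hv h6 h4), h21, fun h => absurd h h5⟩
            · exact ⟨1, h6, fun _ => Iff.rfl, fun h => absurd h h5⟩
          · exact ⟨2, fun h5 => h4 (by simp [h5]), h21, fun _ => h4⟩
        · exact ⟨1, fun h5 => h3 (by simp [h5]), fun _ => Iff.rfl, fun _ => h3⟩
      refine ⟨v i / v 0, div_ne_zero hi h0, fun l hl' => ?_, fun l hl' => ?_, him⟩
      · obtain ⟨n, hn, hK, hn'⟩ := line 0 h0 l hl'
        refine ⟨n, hn, hK, (hiΛ _).1 ?_⟩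
        convert hn' i using 1
        ring
      · obtain ⟨n, hn, hK, hn'⟩ := line i hi l ((hiΛ _).2 hl')
        refine ⟨n, hn, hK, ?_⟩
        convert hn' 0 using 1
        rw [inv_div]
        ring
  · -- the whole hyperplane
    right
    push Not at hl
    obtain ⟨w, hw, hvw⟩ := hl
    obtain ⟨e, he⟩ : ∃ e, e * (v 1 * w 2 - v 2 * w 1) = 1 :=
      ⟨_, inv_mul_cancel₀ (sub_ne_zero.2 hvw)⟩
    have full : ∀ x y z : ℂ, β 0 * x = θ * m1 * y + θ * m2 * z → ![x, y, z] ∈ H := by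
      intro x y z hxyz
      have k1 := hH w hw
      have k2 := hH v hv
      have : ![x, y, z] = (e * (y * w 2 - z * w 1)) • v + (e * (z * v 1 - y * v 2)) • w := by
        funext i
        fin_cases i
        · refine mul_left_cancel₀ hβ0 ?_
          simp only [Fin.zero_eta, Matrix.cons_val_zero, Pi.add_apply, Pi.smul_apply, smul_eq_mul]
          linear_combination hxyz - e * (y * w 2 - z * w 1) * k2 -
            e * (z * v 1 - y * v 2) * k1 - (θ * m1 * y + θ * m2 * z) * he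
        · simp only [Fin.mk_one, Matrix.cons_val_one, Matrix.cons_val_zero, Pi.add_apply,
            Pi.smul_apply, smul_eq_mul]
          linear_combination (-y) * he
        · simp only [Fin.reduceFinMk, Matrix.cons_val, Pi.add_apply, Pi.smul_apply, smul_eq_mul]
          linear_combination (-z) * he
      rw [this]
      exact H.add_mem (H.smul_mem _ hv) (H.smul_mem _ hw)
    refine ⟨β 0 / θ, div_ne_zero hβ0 hθ, fun l hl' => ?_, fun l hl' => ?_, id⟩
    · by_cases hm2 : m2 = 0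
      · have hm1 : (m1 : ℂ) ≠ 0 := fun h3 => by simp [h3, hm2] at hab'
        obtain ⟨n, hn, hK, hn'⟩ := hJ {0, 2} (fun u hu hu0 => by
            have k1 := hH u hu
            have k2 := hu0 0 (by simp)
            have k3 := hu0 2 (by simp)
            exact ext0 u hu (by simpa [k2, k3, hθ, hm1] using k1) k3)
          (fun u => ⟨![u 0, (β 0 * u 0 - θ * m2 * u 2) / (θ * m1), u 2],
            full _ _ _ (by field_simp; ring), fun j hj => by
              rcases Finset.mem_insert.1 hj with rfl | hj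
              · rfl
              · rw [Finset.mem_singleton.1 hj]; rfl⟩)
          ![l, β 0 * l / (θ * m1), 0] (full _ _ _ (by field_simp; ring)) (fun j hj => by
              rcases Finset.mem_insert.1 hj with rfl | hj
              · exact hl'
              · rw [Finset.mem_singleton.1 hj]; exact (W 2).Λ.zero_mem)
        refine ⟨n, hn, hK, ?_⟩
        convert (W 1).Λ.zsmul_mem (hn' 1) m1 using 1
        simp only [Matrix.cons_val_one, Matrix.cons_val_zero, zsmul_eq_mul]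
        field_simp
      · have hm2' : (m2 : ℂ) ≠ 0 := by exact_mod_cast hm2
        obtain ⟨n, hn, hK, hn'⟩ := hJ {0, 1} (fun u hu hu0 => by
            have k1 := hH u hu
            have k2 := hu0 0 (by simp)
            have k3 := hu0 1 (by simp)
            exact ext0 u hu k3 (by simpa [k2, k3, hθ, hm2'] using k1))
          (fun u => ⟨![u 0, u 1, (β 0 * u 0 - θ * m1 * u 1) / (θ * m2)],
            full _ _ _ (by field_simp; ring), fun j hj => by
              rcases Finset.mem_insert.1 hj with rfl | hj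
              · rfl
              · rw [Finset.mem_singleton.1 hj]; rfl⟩)
          ![l, 0, β 0 * l / (θ * m2)] (full _ _ _ (by field_simp; ring)) (fun j hj => by
              rcases Finset.mem_insert.1 hj with rfl | hj
              · exact hl'
              · rw [Finset.mem_singleton.1 hj]; exact (W 1).Λ.zero_mem)
        refine ⟨n, hn, hK, (h21 _).1 ?_⟩
        convert (W 2).Λ.zsmul_mem (hn' 2) m2 using 1
        simp only [Matrix.cons_val, zsmul_eq_mul]
        field_simp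
    · obtain ⟨n, hn, hK, hn'⟩ := hJ {1, 2}
        (fun u hu hu0 => ext0 u hu (hu0 1 (by simp)) (hu0 2 (by simp)))
        (fun u => ⟨![(θ * m1 * u 1 + θ * m2 * u 2) / β 0, u 1, u 2],
          full _ _ _ (by field_simp), fun j hj => by
            rcases Finset.mem_insert.1 hj with rfl | hj
            · rfl
            · rw [Finset.mem_singleton.1 hj]; rfl⟩)
        ![θ * l / β 0, a * l, b * l]
        (full _ _ _ (by field_simp; linear_combination (-l) * hab')) (fun j hj => by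
            rcases Finset.mem_insert.1 hj with rfl | hj
            · simpa using (W 1).Λ.zsmul_mem hl' a
            · rw [Finset.mem_singleton.1 hj]
              simpa using (W 2).Λ.zsmul_mem ((h21 _).2 hl') b)
      refine ⟨n, hn, hK, ?_⟩
      convert hn' 0 using 1
      simp only [Matrix.cons_val_zero, inv_div]
      ring

open WDE in
/-- the algebraic model with discriminant `(12 d)^6` -/
theorem ell_ar2 : ∃ c : ℕ, 0 < c ∧ ∀ (d : ℕ) (W : WD) (τ : ℍ) (Ω : ℂ) (A : ℕ),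
    0 < d → (d : ℝ) ≤ Real.exp A → W.IsEll τ Ω → W.Y (Ω / 2) = 0 → Ω / 2 ∉ W.Λ →
    Ω ^ 12 * (12 * d) ^ 6 = (2 * π) ^ 12 * ModularForm.discriminant τ → 1 ≤ A →
    AI (d * jInv τ) A → W.Ar (Ω / 2) (c * A ^ 2) := by
  refine ⟨100000, by positivity, fun d W τ Ω A hd hdA hW hY hp hΩ hA hj ↦ ?_⟩
  have hΔ := ModularForm.discriminant_ne_zero τ
  have hπ : (π : ℂ) ≠ 0 := Complex.ofReal_ne_zero.2 Real.pi_ne_zero
  have hd' : (d : ℂ) ≠ 0 := Nat.cast_ne_zero.2 hd.ne'
  have hΩ0 : Ω ≠ 0 := by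
    rintro rfl
    have : (2 * π : ℂ) ^ 12 * ModularForm.discriminant τ ≠ 0 :=
      mul_ne_zero (pow_ne_zero _ (mul_ne_zero two_ne_zero hπ)) hΔ
    exact this (by rw [← hΩ]; simp)
  set y : ℂ := d * jInv τ with hy
  set a : ℂ := W.g2 / 4 with ha
  set b : ℂ := W.g3 / 4 with hb
  set e : ℂ := W.X (Ω / 2) with he
  have hE := ModularForm.discriminant_eq_E₄_cube_sub_E₆_sq τ
  have ha3 : a ^ 3 = 27 * d ^ 5 * y := by
    rw [ha, hW.2.1, hy, jInv]
    field_simp
    linear_combination (-(ModularForm.E₄ τ) ^ 3 / 4096) * hΩ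
  have hb2 : b ^ 2 = 4 * d ^ 5 * y - 6912 * d ^ 6 := by
    have h6 : ModularForm.E₆ τ ^ 2 = ModularForm.E₄ τ ^ 3 - 1728 * ModularForm.discriminant τ := by
      rw [hE]; ring
    rw [hb, hW.2.2, hy, jInv]
    field_simp
    rw [h6]
    linear_combination (-(ModularForm.E₄ τ ^ 3 - 1728 * ModularForm.discriminant τ) / 64) * hΩ
  have he3 : e ^ 3 = a * e + b := by
    have := W.eqn _ hp
    rw [hY] at this
    rw [ha, hb, he]
    linear_combination (-1 / 4) * this
  obtain ⟨hyi, hyd, hyn⟩ := hj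
  have hdi : IsIntegral ℤ (d : ℂ) := isIntegral_natCast d
  have hai : IsIntegral ℤ a := by
    refine IsIntegral.of_pow (n := 3) (by norm_num) ?_
    rw [ha3]
    exact ((isIntegral_natCast 27).mul (hdi.pow 5)).mul hyi
  have hbi : IsIntegral ℤ b := by
    refine IsIntegral.of_pow (n := 2) (by norm_num) ?_
    rw [hb2]
    exact (((isIntegral_natCast 4).mul (hdi.pow 5)).mul hyi).sub
      ((isIntegral_natCast 6912).mul (hdi.pow 6))
  have had : Deg a (A * 3) :=
    (hyd.map (fun x ↦ 27 * d ^ 5 * x) (fun σ ↦ by simp [map_ofNat])).root (by norm_num) ha3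
  have hbd : Deg b (A * 2) :=
    (hyd.map (fun x ↦ 4 * d ^ 5 * x - 6912 * d ^ 6) (fun σ ↦ by simp [map_ofNat])).root
      (by norm_num) hb2
  have hd1 : (1 : ℝ) ≤ d := by exact_mod_cast hd
  have hA' : (1 : ℝ) ≤ A := by exact_mod_cast hA
  have hd6 : (1 : ℝ) ≤ (d : ℝ) ^ 6 := one_le_pow₀ hd1
  have hd5 : (d : ℝ) ^ 5 ≤ (d : ℝ) ^ 6 := pow_le_pow_right₀ hd1 (by norm_num)
  have hd50 : (0 : ℝ) ≤ (d : ℝ) ^ 5 := by positivity
  have hE1 : 1 ≤ Real.exp A := Real.one_le_exp (by positivity)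
  set M : ℝ := (d : ℝ) ^ 6 * Real.exp A with hM
  have hM1 : 1 ≤ M := by nlinarith
  have hM5 (σ : ℂ →+* ℂ) : (d : ℝ) ^ 5 * ‖σ y‖ ≤ M := by
    rw [hM]
    exact mul_le_mul hd5 (hyn σ) (norm_nonneg _) (by positivity)
  have hM6 : (d : ℝ) ^ 6 ≤ M := by nlinarith
  have han (σ : ℂ →+* ℂ) : ‖σ a‖ ≤ 27 * M := by
    refine le_of_pow_le (n := 3) (by norm_num) (by linarith) ?_
    rw [← norm_pow, ← map_pow, ha3]
    simp only [map_mul, map_pow, map_natCast, map_ofNat, norm_mul, norm_pow, Complex.norm_ofNat,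
      Complex.norm_natCast]
    linarith [hM5 σ]
  have hbn (σ : ℂ →+* ℂ) : ‖σ b‖ ≤ 6916 * M := by
    refine le_of_pow_le (n := 2) (by norm_num) (by linarith) ?_
    rw [← norm_pow, ← map_pow, hb2, map_sub]
    refine (norm_sub_le _ _).trans ?_
    simp only [map_mul, map_pow, map_natCast, map_ofNat, norm_mul, norm_pow, Complex.norm_ofNat,
      Complex.norm_natCast]
    linarith [hM5 σ]
  have hfin : 30000 * M ≤ Real.exp ((100000 * A ^ 2 : ℕ) : ℝ) := by
    have h1 : (30000 : ℝ) ≤ Real.exp 30000 := by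
      linarith [Real.add_one_le_exp (30000 : ℝ)]
    have h3 : (d : ℝ) ^ 6 ≤ Real.exp (6 * A) := by
      have := pow_le_pow_left₀ (by positivity) hdA 6
      rwa [← Real.exp_nat_mul] at this
    calc 30000 * M = 30000 * (d : ℝ) ^ 6 * Real.exp A := by rw [hM]; ring
      _ ≤ Real.exp 30000 * Real.exp (6 * A) * Real.exp A := by gcongr
      _ ≤ _ := by
        rw [← Real.exp_add, ← Real.exp_add]
        apply Real.exp_le_exp.2
        push_cast
        have h2 : (A : ℝ) ≤ A ^ 2 := by nlinarith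
        nlinarith
  have hA2 : A ≤ A ^ 2 := by nlinarith
  refine ⟨⟨cubic_integral hai hbi he3, (cubic_deg had hbd he3).mono (by nlinarith), fun σ ↦ ?_⟩,
    ?_, ?_⟩
  · have h1 := congrArg σ he3
    rw [map_pow, map_add, map_mul] at h1
    have h2 := cubic_norm h1
    linarith [han σ, hbn σ]
  · rw [hY]
    simpa using AI_int 0 (A := 100000 * A ^ 2) (by nlinarith) (by simp)
  · have e2 : W.g2 / 2 = 2 * a := by rw [ha]; ring
    rw [e2]
    refine ⟨(isIntegral_natCast 2).mul hai,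
      (had.map (fun x ↦ 2 * x) (fun σ ↦ by simp [map_ofNat])).mono (by nlinarith), fun σ ↦ ?_⟩
    rw [map_mul, map_ofNat, norm_mul, Complex.norm_ofNat]
    linarith [han σ]

open IE in
/-- a period lattice with controlled size for a given invariant -/
theorem model2 : ∃ c : ℕ, 0 < c ∧ ∀ (d : ℕ) (x : ℂ) (a : ℕ), 0 < d → (d : ℝ) ≤ Real.exp a →
    1 ≤ a → AI (d * x) a → ∃ (τ : ℍ) (Ω : ℂ) (W : WD), jInv τ = x ∧ Ω ≠ 0 ∧
      Ω ^ 12 * (12 * d) ^ 6 = (2 * π) ^ 12 * ModularForm.discriminant τ ∧ W.IsLat τ Ω ∧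
      ‖(τ : ℂ)‖ ≤ c * a ∧ 1 ≤ 2 * τ.im ∧ W.Ar (Ω / 2) (c * a ^ 2) ∧
      ∀ m n : ℤ, (m ≠ 0 ∨ n ≠ 0) → |m| ≤ 1 → |n| ≤ 1 →
        W.Size (Ω / 2) (Ω * (m + n * τ)) (c * a ^ 2) := by
  obtain ⟨C, hC1, hC⟩ := fd_bounds
  obtain ⟨c1, hc1, hs⟩ := exists_ell_size 2
  obtain ⟨c2, hc2, har⟩ := ell_ar2
  obtain ⟨c3, hc3⟩ := exists_le_exp ((2 * π) ^ 12 * C)
  obtain ⟨c4, hc4⟩ : ∃ c4 : ℕ, ∀ d a : ℕ, 1 ≤ a → (d : ℝ) ≤ Real.exp a →
      C * (12 * d) ^ 6 ≤ Real.exp (c4 * a) := by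
    obtain ⟨c5, hc5⟩ := exists_le_exp (C * 12 ^ 6)
    refine ⟨c5 + 6, fun d a ha hd ↦ ?_⟩
    have h3 : (d : ℝ) ^ 6 ≤ Real.exp (6 * a) := by
      have := pow_le_pow_left₀ (by positivity) hd 6
      rwa [← Real.exp_nat_mul] at this
    calc C * (12 * d) ^ 6 = C * 12 ^ 6 * (d : ℝ) ^ 6 := by ring
      _ ≤ Real.exp (c5 * a) * Real.exp (6 * a) :=
        mul_le_mul (hc5 a ha) h3 (by positivity) (by positivity)
      _ = _ := by rw [← Real.exp_add]; push_cast; ring_nf
  set c0 : ℕ := ⌈3 * C⌉₊ + c3 + c4 + 3 with hc0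
  refine ⟨c1 * c0 ^ 2 + c2 + c0, by positivity, fun d x a hd hda ha hx ↦ ?_⟩
  obtain ⟨τ, hτ, hj⟩ := j_surj x
  obtain ⟨h1, h2, h3, -⟩ := hC τ hτ
  have hxn : ‖x‖ ≤ Real.exp a := by simpa using norm_le_of_AI hd hx (RingHom.id ℂ)
  rw [hj] at h1 h2
  have ha1 : (1 : ℝ) ≤ a := by exact_mod_cast ha
  have hd' : (12 * d : ℂ) ^ 6 ≠ 0 := by
    have : (d : ℂ) ≠ 0 := by exact_mod_cast hd.ne'
    exact pow_ne_zero _ (mul_ne_zero (by norm_num) this)
  obtain ⟨Ω, hΩ⟩ := IsAlgClosed.exists_pow_nat_eq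
    ((2 * π : ℂ) ^ 12 * ModularForm.discriminant τ / (12 * d) ^ 6) (n := 12) (by norm_num)
  have hΩ' : Ω ^ 12 * (12 * d) ^ 6 = (2 * π) ^ 12 * ModularForm.discriminant τ := by
    rw [hΩ, div_mul_cancel₀ _ hd']
  have hΔ := ModularForm.discriminant_ne_zero τ
  have hπ : (2 * π : ℂ) ≠ 0 := by
    have : (π : ℂ) ≠ 0 := by exact_mod_cast Real.pi_ne_zero
    exact mul_ne_zero (by norm_num) this
  have hΩ0 : Ω ≠ 0 := by
    rintro rfl
    have : (2 * π : ℂ) ^ 12 * ModularForm.discriminant τ ≠ 0 := mul_ne_zero (pow_ne_zero _ hπ) hΔ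
    apply this; rw [← hΩ']; simp
  have him : 1 ≤ 2 * τ.im := by
    have := ModularGroup.three_le_four_mul_im_sq_of_mem_fd hτ
    nlinarith [τ.im_pos]
  have hre : |τ.re| ≤ 1 / 2 := hτ.2
  obtain ⟨W, hW, hY, hΛ, hsz⟩ := hs τ Ω hΩ0 (by linarith) him
  have hlog := log_le ha (norm_nonneg x) hxn
  have hceil := Nat.le_ceil (3 * C)
  have him2 : τ.im ≤ (⌈3 * C⌉₊ : ℝ) * a := by
    calc τ.im ≤ C * (1 + Real.log (1 + ‖x‖)) := h1
      _ ≤ C * (3 * a) := by gcongr
      _ = 3 * C * a := by ring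
      _ ≤ _ := by gcongr
  have hc0' : (c0 : ℝ) = ⌈3 * C⌉₊ + c3 + c4 + 3 := by rw [hc0]; push_cast; ring
  have hn : ‖Ω‖ ^ 12 * (12 * d) ^ 6 = (2 * π) ^ 12 * ‖ModularForm.discriminant τ‖ := by
    have := congrArg norm hΩ'
    simpa [norm_mul, norm_pow, abs_of_pos Real.pi_pos] using this
  have hd1 : (1 : ℝ) ≤ (12 * d) ^ 6 := by
    have : (1 : ℝ) ≤ d := by exact_mod_cast hd
    exact one_le_pow₀ (by linarith)
  have hp1 : (1 : ℝ) ≤ (2 * π) ^ 12 := one_le_pow₀ (by linarith [Real.pi_gt_three])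
  have hA : ((c0 * a : ℕ) : ℝ) = c0 * a := by push_cast; ring
  have hup : ‖Ω‖ ≤ Real.exp ((c0 * a : ℕ) : ℝ) := by
    have e1 : ‖Ω‖ ^ 12 ≤ Real.exp (c3 * a) := by
      calc ‖Ω‖ ^ 12 ≤ ‖Ω‖ ^ 12 * (12 * d) ^ 6 := le_mul_of_one_le_right (by positivity) hd1
        _ = _ := hn
        _ ≤ (2 * π) ^ 12 * C := by gcongr
        _ ≤ _ := hc3 a ha
    have e2 : Real.exp (c3 * a) ≤ Real.exp ((c0 * a : ℕ) : ℝ) ^ 12 := by
      rw [← Real.exp_nat_mul, hA, hc0']
      apply Real.exp_le_exp.2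
      have : (0 : ℝ) ≤ ⌈3 * C⌉₊ := by positivity
      have : (0 : ℝ) ≤ c3 := by positivity
      have : (0 : ℝ) ≤ c4 := by positivity
      push_cast
      nlinarith
    exact le_of_pow_le_pow_left₀ (by norm_num) (by positivity) (e1.trans e2)
  have hlow : Real.exp (-((c0 * a : ℕ) : ℝ)) ≤ ‖Ω‖ := by
    have e0 := one_add_le ha hxn
    have e1 : 1 ≤ ‖Ω‖ ^ 12 * Real.exp ((c4 + 2) * a) := by
      calc (1 : ℝ) ≤ C * (‖ModularForm.discriminant τ‖ * (1 + ‖x‖)) := h2
        _ ≤ C * (((2 * π) ^ 12 * ‖ModularForm.discriminant τ‖) * Real.exp (2 * a)) := by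
          gcongr
          exact le_mul_of_one_le_left (norm_nonneg _) hp1
        _ = ‖Ω‖ ^ 12 * ((C * (12 * d) ^ 6) * Real.exp (2 * a)) := by rw [← hn]; ring
        _ ≤ ‖Ω‖ ^ 12 * (Real.exp (c4 * a) * Real.exp (2 * a)) := by
          gcongr; exact hc4 d a ha hda
        _ = _ := by rw [← Real.exp_add]; ring_nf
    have e2 : Real.exp (-((c0 * a : ℕ) : ℝ)) ^ 12 * Real.exp ((c4 + 2) * a) ≤ 1 := by
      rw [← Real.exp_nat_mul, ← Real.exp_add, hA, hc0']
      apply Real.exp_le_one_iff.2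
      have : (0 : ℝ) ≤ ⌈3 * C⌉₊ := by positivity
      have : (0 : ℝ) ≤ c3 := by positivity
      have : (0 : ℝ) ≤ c4 := by positivity
      push_cast
      nlinarith
    have e3 : Real.exp (-((c0 * a : ℕ) : ℝ)) ^ 12 ≤ ‖Ω‖ ^ 12 :=
      le_of_mul_le_mul_right (e2.trans e1) (Real.exp_pos _)
    exact le_of_pow_le_pow_left₀ (by norm_num) (by positivity) e3
  have hc0pos : 1 ≤ c0 := by omega
  have hA1 : 1 ≤ c0 * a := Nat.mul_pos hc0pos ha
  refine ⟨τ, Ω, W, hj, hΩ0, hΩ', hW.1, ?_, him, ?_, fun m n hmn hm hn' ↦ ?_⟩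
  · have e1 : ‖(τ : ℂ)‖ ≤ |τ.re| + |τ.im| := Complex.norm_le_abs_re_add_abs_im _
    rw [abs_of_pos τ.im_pos] at e1
    have : (0 : ℝ) ≤ c1 * c0 ^ 2 + c2 := by positivity
    have : (0 : ℝ) ≤ c3 := by positivity
    have : (0 : ℝ) ≤ c4 := by positivity
    push_cast
    rw [hc0'] at *
    nlinarith
  · exact Ar_mono (har d W τ Ω a hd hda hW hY hΛ hΩ' ha (hj ▸ hx)) (Nat.mul_le_mul_right _ (by omega))
  · have hA' : (1 : ℤ) ≤ ((c0 * a : ℕ) : ℤ) := by exact_mod_cast hA1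
    refine (hsz (c0 * a) m n hA1 ?_ hlow hup hmn (hm.trans hA') (hn'.trans hA')).mono ?_
    · rw [hA, hc0']
      have : (0 : ℝ) ≤ c3 := by positivity
      have : (0 : ℝ) ≤ c4 := by positivity
      nlinarith
    · rw [mul_pow, ← mul_assoc]
      exact Nat.mul_le_mul_right _ (by omega)

end Pool.Agent.Lib.ZP3
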