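import Pool.Agent.Lib.ZP3.IsoEst2A
import Pool.Agent.Lib.ZP3.Ell2

/-! Block IE2: the isogeny estimate for small algebraic numbers. -/

namespace Pool.Agent.Lib.ZP3

theorem isogeny_estimate2 : ∃ C k : ℕ, ∀ (x y : ℂ) (N a : ℕ), Sm x a → Sm y a → MinIso N x y →
    (N : ℝ) ≤ Real.exp a → N ≤ C * a ^ k := IE2.of_model model2

end Pool.Agent.Lib.ZP3
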