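import Pool.Agent.Lib.ZP3.Defs

/-! Charts on a rational curve and functional independence of the logarithms. The facts about
`j` and about local lifting enter as the hypothesis `CH.Facts`. -/

open UpperHalfPlane Filter Topology Metric
open scoped Real

namespace Pool.Agent.Lib.ZP3

open Pool.Agent.Lib.MP_0704bf_ag

namespace CH

/-- the inputs from the other blocks -/
structure Facts : Prop where
  lift : ∀ (g : ℂ → ℂ) (z0 : ℂ), AnalyticAt ℂ g z0 → (¬ ∀ᶠ z in 𝓝 z0, g z = g z0) →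
    ∃ e : ℕ, 0 < e ∧ (deriv g z0 ≠ 0 → e = 1) ∧ ∀ (h : ℂ → ℂ) (E : ℕ), AnalyticAt ℂ h 0 →
      h 0 = g z0 → 0 < E → e ∣ E →
      ∃ τ : ℂ → ℂ, AnalyticAt ℂ τ 0 ∧ τ 0 = z0 ∧ ∀ᶠ u in 𝓝 0, g (τ u) = h (u ^ E)
  surj : ∀ x : ℂ, ∃ τ : ℍ, τ ∈ ModularGroup.fd ∧ jInv τ = x
  inj : ∀ τ τ' : ℍ, jInv τ = jInv τ' → Rel 1 τ τ'
  an : ∀ z : ℂ, 0 < z.im → AnalyticAt ℂ jc z
  nc : ∀ z : ℂ, 0 < z.im → ¬ ∀ᶠ w in 𝓝 z, jc w = jc z
  cusp : ∃ (h : ℂ → ℂ) (r : ℝ), 0 < r ∧ AnalyticAt ℂ h 0 ∧ h 0 = 0 ∧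
    deriv h 0 ≠ 0 ∧ ∀ z : ℂ, 0 < z.im → ‖Complex.exp (2 * π * Complex.I * z)‖ < r →
      h (Complex.exp (2 * π * Complex.I * z)) * jc z = 1

variable {A B : Fin 3 → Polynomial ℂ}

theorem analyticAt_eval (p : Polynomial ℂ) (t0 v : ℂ) :
    AnalyticAt ℂ (fun v ↦ p.eval (t0 + v)) v :=
  ((p.differentiable.comp (by fun_prop : Differentiable ℂ fun v : ℂ ↦ t0 + v)).analyticAt v :)

theorem ev_ne (p : Polynomial ℂ) {t0 : ℂ} (h : p.eval t0 ≠ 0) {E : ℕ} (hE : 0 < E) :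
    ∀ᶠ u in 𝓝 (0 : ℂ), p.eval (t0 + u ^ E) ≠ 0 := by
  have hc : ContinuousAt (fun u : ℂ ↦ p.eval (t0 + u ^ E)) 0 :=
    (p.continuous.comp (by fun_prop : Continuous fun u : ℂ ↦ t0 + u ^ E)).continuousAt
  exact hc.eventually_ne (by simpa [hE.ne'] using h)

/-- lifting one finite coordinate -/
theorem lift_coord (F : Facts) (i : Fin 3) {t0 : ℂ} (ht : (B i).eval t0 ≠ 0) :
    ∃ e : ℕ, 0 < e ∧ ∀ E : ℕ, 0 < E → e ∣ E → ∃ f : ℂ → ℂ, ∀ᶠ u in 𝓝 (0 : ℂ),
      AnalyticAt ℂ f u ∧ 0 < (f u).im ∧ jc (f u) = xv A B i (t0 + u ^ E) := by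
  obtain ⟨τ, -, hτ⟩ := F.surj (xv A B i t0)
  obtain ⟨e, he, -, hl⟩ := F.lift jc τ (F.an _ τ.im_pos) (F.nc _ τ.im_pos)
  refine ⟨e, he, fun E hE hd ↦ ?_⟩
  obtain ⟨f, h1, h2, h3⟩ := hl (fun v ↦ xv A B i (t0 + v)) E
    ((analyticAt_eval _ t0 0).div (analyticAt_eval _ t0 0) (by simpa using ht))
    (by simp [jc, hτ]) hE hd
  have h4 : ∀ᶠ u in 𝓝 (0 : ℂ), 0 < (f u).im := by
    have : ContinuousAt (fun u ↦ (f u).im) 0 :=
      Complex.continuous_im.continuousAt.comp h1.continuousAt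
    exact this.eventually (lt_mem_nhds (by simp only [h2]; exact τ.im_pos))
  exact ⟨f, (h1.eventually_analyticAt.and (h4.and h3))⟩

theorem chart_reg (F : Facts) {t0 : ℂ} (ht : NP B t0) :
    ∃ (E : ℕ) (r : ℝ) (f : Fin 3 → ℂ → ℂ),
    0 < E ∧ 0 < r ∧ (∀ i, AnalyticOnNhd ℂ (f i) (ball 0 r)) ∧ ∀ u ∈ ball (0 : ℂ) r,
      NP B (t0 + u ^ E) ∧ ∀ i, 0 < (f i u).im ∧ jc (f i u) = xv A B i (t0 + u ^ E) := by
  choose e he hl using fun i ↦ lift_coord (A := A) F i (ht i)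
  have hE : 0 < ∏ i, e i := Finset.prod_pos fun i _ ↦ he i
  choose f hf using fun i ↦ hl i _ hE (Finset.dvd_prod_of_mem e (Finset.mem_univ i))
  obtain ⟨r, hr, h⟩ := Metric.eventually_nhds_iff_ball.1
    ((eventually_all.2 hf).and (eventually_all.2 fun i ↦ ev_ne (B i) (ht i) hE))
  exact ⟨_, r, f, hE, hr, fun i u hu ↦ ((h u hu).1 i).1,
    fun u hu ↦ ⟨(h u hu).2, fun i ↦ ((h u hu).1 i).2⟩⟩

theorem ne_of_coprime {p q : Polynomial ℂ} (h : IsCoprime p q) {z : ℂ} (hz : q.eval z = 0) :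
    p.eval z ≠ 0 := by
  obtain ⟨a, b, hab⟩ := h
  intro hp
  have := congrArg (Polynomial.eval z) hab
  simp [hp, hz] at this

/-- lifting the coordinate that has a pole -/
theorem lift_cusp (F : Facts) (h : Adm A B) {P : ℂ} {k : Fin 3} (hP : (B k).eval P = 0) :
    ∃ e : ℕ, 0 < e ∧ ∀ E : ℕ, 0 < E → e ∣ E → ∃ (m : ℕ) (g : ℂ → ℂ), 0 < m ∧ ∀ᶠ u in 𝓝 (0 : ℂ),
      AnalyticAt ℂ g u ∧ ∀ w : ℂ, Complex.exp w = u → (B k).eval (P + u ^ E) ≠ 0 ∧
        1 ≤ (m / (2 * π * Complex.I) * w + g u).im ∧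
        jc (m / (2 * π * Complex.I) * w + g u) = xv A B k (P + u ^ E) := by
  obtain ⟨hh, r, hr, a1, a2, a3, a4⟩ := F.cusp
  have hA : (A k).eval P ≠ 0 := ne_of_coprime (h.1 k).2.2 hP
  obtain ⟨e, he, -, hl⟩ := F.lift hh 0 a1 (fun hc ↦ a3 (by
    have : hh =ᶠ[𝓝 0] fun _ ↦ hh 0 := hc
    rw [this.deriv_eq]; simp))
  refine ⟨e, he, fun E hE hd ↦ ?_⟩
  obtain ⟨q, h1, h2, h3⟩ := hl (fun v ↦ (B k).eval (P + v) / (A k).eval (P + v)) E
    ((analyticAt_eval _ P 0).div (analyticAt_eval _ P 0) (by simpa using hA))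
    (by simp [hP, a2]) hE hd
  have hnz : ¬ ∀ᶠ u in 𝓝 (0 : ℂ), q u = 0 := by
    intro hq
    have h5 : ∀ᶠ u in 𝓝 (0 : ℂ), ((B k).comp (Polynomial.C P + Polynomial.X ^ E)).eval u = 0 := by
      filter_upwards [hq, h3, ev_ne (A k) hA hE] with u b1 b2 b3
      rw [b1, a2] at b2
      simpa [Polynomial.eval_comp, b3] using b2.symm
    have h6 : (B k).comp (Polynomial.C P + Polynomial.X ^ E) = 0 :=
      Polynomial.eq_zero_of_infinite_isRoot _ (infinite_of_mem_nhds (0 : ℂ) h5)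
    have h7 := congrArg Polynomial.natDegree h6
    rw [Polynomial.natDegree_comp, add_comm, Polynomial.natDegree_X_pow_add_C] at h7
    have := (h.1 k).2.1
    simp only [Polynomial.natDegree_zero, mul_eq_zero] at h7
    omega
  obtain ⟨m, q1, b1, b2, b3⟩ := h1.exists_eventuallyEq_pow_smul_nonzero_iff.2 hnz
  have hm : 0 < m := by
    rcases Nat.eq_zero_or_pos m with rfl | hm
    · have := b3.self_of_nhds
      simp only [pow_zero, one_smul, h2] at this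
      exact absurd this.symm b2
    · exact hm
  have hI : (2 * π * Complex.I : ℂ) ≠ 0 := Complex.two_pi_I_ne_zero
  let g : ℂ → ℂ := fun u ↦
    (Complex.log (q1 u / q1 0) + Complex.log (q1 0)) / (2 * π * Complex.I)
  have hg : AnalyticAt ℂ g 0 := by
    have : AnalyticAt ℂ (fun u ↦ Complex.log (q1 u / q1 0)) 0 :=
      (b1.div_const (c := q1 0)).clog (by simp [div_self b2])
    exact (this.add analyticAt_const).div_const
  have hq1 : ∀ᶠ u in 𝓝 (0 : ℂ), q1 u ≠ 0 := b1.continuousAt.eventually_ne b2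
  have hsm : ∀ᶠ u in 𝓝 (0 : ℂ), ‖q u‖ < min r (Real.exp (-(2 * π))) :=
    h1.continuousAt.norm.eventually (gt_mem_nhds (by
      simp only [h2, norm_zero]; exact lt_min hr (Real.exp_pos _)))
  refine ⟨m, g, hm, ?_⟩
  filter_upwards [hg.eventually_analyticAt, hq1, hsm, b3, h3] with u c1 c2 c3 c4 c5
  refine ⟨c1, fun w hw ↦ ?_⟩
  have e1 : Complex.exp (2 * π * Complex.I * (m / (2 * π * Complex.I) * w + g u)) = q u := by
    have : 2 * π * Complex.I * (m / (2 * π * Complex.I) * w + g u) =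
        m * w + (Complex.log (q1 u / q1 0) + Complex.log (q1 0)) := by
      simp only [g]; field_simp
    rw [this, Complex.exp_add, Complex.exp_add, Complex.exp_log (div_ne_zero c2 b2),
      Complex.exp_log b2, Complex.exp_nat_mul, hw, c4, div_mul_cancel₀ _ b2]
    simp
  set z := m / (2 * π * Complex.I) * w + g u with hz
  have e2 : 1 ≤ z.im := by
    have h5 := (lt_min_iff.1 c3).2
    rw [← e1, Complex.norm_exp, Real.exp_lt_exp] at h5
    have h6 : (2 * π * Complex.I * z).re = -(2 * π * z.im) := by simp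
    rw [h6] at h5
    have := Real.pi_pos
    nlinarith
  have e3 := a4 z (by linarith) (by rw [e1]; exact (lt_min_iff.1 c3).1)
  rw [e1, c5] at e3
  have e4 : (B k).eval (P + u ^ E) ≠ 0 := fun h0 ↦ by simp [h0] at e3
  have e5 : (A k).eval (P + u ^ E) ≠ 0 := fun h0 ↦ by simp [h0] at e3
  refine ⟨e4, e2, ?_⟩
  rw [xv, eq_div_iff e4]
  field_simp at e3
  linear_combination e3

theorem chart_cusp (F : Facts) (h : Adm A B) {P : ℂ} {k : Fin 3} (hP : (B k).eval P = 0) :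
    ∃ (E m : ℕ) (r : ℝ) (g : Fin 3 → ℂ → ℂ), 0 < E ∧ 0 < m ∧ 0 < r ∧
      (∀ i, AnalyticOnNhd ℂ (g i) (ball 0 r)) ∧
      (∀ u ∈ ball (0 : ℂ) r, ∀ i, i ≠ k → 0 < (g i u).im ∧ jc (g i u) = xv A B i (P + u ^ E)) ∧
      ∀ w : ℂ, ‖Complex.exp w‖ < r → NP B (P + Complex.exp w ^ E) ∧
        1 ≤ (m / (2 * π * Complex.I) * w + g k (Complex.exp w)).im ∧
        jc (m / (2 * π * Complex.I) * w + g k (Complex.exp w)) =
          xv A B k (P + Complex.exp w ^ E) := by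
  classical
  have hB : ∀ i, i ≠ k → (B i).eval P ≠ 0 := fun i hi ↦ ne_of_coprime (h.2 i k hi) hP
  have hex : ∀ i, ∃ e : ℕ, 0 < e ∧ ∀ E : ℕ, 0 < E → e ∣ E → ∃ f : ℂ → ℂ, i ≠ k →
      ∀ᶠ u in 𝓝 (0 : ℂ), (AnalyticAt ℂ f u ∧ 0 < (f u).im ∧ jc (f u) = xv A B i (P + u ^ E)) ∧
        (B i).eval (P + u ^ E) ≠ 0 := by
    intro i
    by_cases hi : i = k
    · exact ⟨1, one_pos, fun E _ _ ↦ ⟨0, fun h ↦ absurd hi h⟩⟩
    · obtain ⟨e, he, hl⟩ := lift_coord (A := A) F i (hB i hi)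
      refine ⟨e, he, fun E hE hd ↦ ?_⟩
      obtain ⟨f, hf⟩ := hl E hE hd
      exact ⟨f, fun _ ↦ hf.and (ev_ne _ (hB i hi) hE)⟩
  choose e he hl using hex
  obtain ⟨e0, he0, hl0⟩ := lift_cusp F h hP
  have hE : 0 < e0 * ∏ i, e i := Nat.mul_pos he0 (Finset.prod_pos fun i _ ↦ he i)
  choose f hf using fun i ↦ hl i _ hE
    (Dvd.dvd.mul_left (Finset.dvd_prod_of_mem e (Finset.mem_univ i)) e0)
  obtain ⟨m, g, hm, hg⟩ := hl0 _ hE (Dvd.intro _ rfl)
  have hf' : ∀ i, ∀ᶠ u in 𝓝 (0 : ℂ), i ≠ k → (AnalyticAt ℂ (f i) u ∧ 0 < (f i u).im ∧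
      jc (f i u) = xv A B i (P + u ^ (e0 * ∏ i, e i))) ∧
        (B i).eval (P + u ^ (e0 * ∏ i, e i)) ≠ 0 := by
    intro i
    by_cases hi : i = k
    · exact Eventually.of_forall fun _ h ↦ absurd hi h
    · exact (hf i hi).mono fun u hu _ ↦ hu
  obtain ⟨r, hr, hb⟩ := Metric.eventually_nhds_iff_ball.1 ((eventually_all.2 hf').and hg)
  refine ⟨_, m, r, Function.update f k g, hE, hm, hr, fun i u hu ↦ ?_, fun u hu i hi ↦ ?_,
    fun w hw ↦ ?_⟩
  · by_cases hi : i = k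
    · subst hi; rw [Function.update_self]; exact (hb u hu).2.1
    · rw [Function.update_of_ne hi]; exact ((hb u hu).1 i hi).1.1
  · rw [Function.update_of_ne hi]; exact ((hb u hu).1 i hi).1.2
  · have hu := hb (Complex.exp w) (by simpa using hw)
    obtain ⟨c1, c2, c3⟩ := hu.2.2 w rfl
    rw [Function.update_self]
    refine ⟨fun i ↦ ?_, c2, c3⟩
    by_cases hi : i = k
    · subst hi; exact c1
    · exact (hu.1 i hi).2

/-! ### functional independence -/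

theorem zero_of_uncountable {U : Set ℂ} (hc : IsPreconnected U) {G : ℂ → ℂ}
    (hG : AnalyticOnNhd ℂ G U) {s : Set ℂ} (hs : ¬ s.Countable) (hsU : s ⊆ U)
    (h0 : ∀ z ∈ s, G z = 0) : ∀ z ∈ U, G z = 0 := by
  have : ∃ x ∈ s, ∃ᶠ z in 𝓝[≠] x, z ∈ s := by
    by_contra hne
    push Not at hne
    obtain ⟨t, -, ht, hst⟩ := TopologicalSpace.countable_cover_nhdsWithin
      (f := fun x ↦ ({x} : Set ℂ)) (s := s) fun x hx ↦ by
        have := hne x hx
        rw [eventually_nhdsWithin_iff] at this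
        rw [mem_nhdsWithin_iff_eventually]
        filter_upwards [this] with z hz hzs
        by_contra hzx
        exact hz hzx hzs
    exact hs (ht.mono (by simpa using hst))
  obtain ⟨x, hx, hfr⟩ := this
  exact hG.eqOn_zero_of_preconnected_of_frequently_eq_zero hc (hsU hx)
    (hfr.mono fun z hz ↦ h0 z hz)

theorem not_countable_of_nhds {V : Set ℂ} {z : ℂ} (h : V ∈ 𝓝 z) : ¬ V.Countable := by
  intro hc
  obtain ⟨y, hy1, hy2⟩ := (hc.dense_compl ℂ).inter_nhds_nonempty h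
  exact hy1 hy2

/-- substitution of fractional linear maps in a polynomial -/
theorem exists_mob (S : Finset (Fin 3)) {c : MvPolynomial (Fin 3) ℂ} (hc : c ≠ 0)
    (hS : c ∈ MvPolynomial.supported ℂ (S : Set (Fin 3))) (γ : Fin 3 → ℤ × ℤ × ℤ × ℤ)
    (hγ : ∀ i, (γ i).1 * (γ i).2.2.2 - (γ i).2.1 * (γ i).2.2.1 = 1) :
    ∃ c' : MvPolynomial (Fin 3) ℂ, c' ≠ 0 ∧ c' ∈ MvPolynomial.supported ℂ (S : Set (Fin 3)) ∧
      ∀ T τ : Fin 3 → ℂ, (∀ i, Mob (γ i).1 (γ i).2.1 (γ i).2.2.1 (γ i).2.2.2 (T i) (τ i)) →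
        MvPolynomial.eval τ c = 0 → MvPolynomial.eval T c' = 0 := by
  classical
  let D := c.totalDegree
  let c' : MvPolynomial (Fin 3) ℂ := ∑ m ∈ c.support, MvPolynomial.C (c.coeff m) * ∏ i ∈ S,
    ((MvPolynomial.C ((γ i).1 : ℂ) * MvPolynomial.X i + MvPolynomial.C ((γ i).2.1 : ℂ)) ^ m i *
      (MvPolynomial.C ((γ i).2.2.1 : ℂ) * MvPolynomial.X i + MvPolynomial.C ((γ i).2.2.2 : ℂ)) ^
        (D - m i))
  have key : ∀ T τ : Fin 3 → ℂ,
      (∀ i, Mob (γ i).1 (γ i).2.1 (γ i).2.2.1 (γ i).2.2.2 (T i) (τ i)) →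
      MvPolynomial.eval T c' =
        (∏ i ∈ S, (((γ i).2.2.1 : ℂ) * T i + (γ i).2.2.2) ^ D) * MvPolynomial.eval τ c := by
    intro T τ hm
    rw [MvPolynomial.eval_eq' τ c, Finset.mul_sum]
    simp only [c', map_sum, map_mul, map_prod, map_pow, map_add, MvPolynomial.eval_C,
      MvPolynomial.eval_X]
    refine Finset.sum_congr rfl fun m hm' ↦ ?_
    have h1 : ∏ i, τ i ^ m i = ∏ i ∈ S, τ i ^ m i := by
      refine (Finset.prod_subset (Finset.subset_univ S) fun i _ hi ↦ ?_).symm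
      have : m i = 0 := by
        by_contra hne
        exact hi (MvPolynomial.mem_supported.1 hS (Finset.mem_coe.2
          ((MvPolynomial.mem_vars_iff_mem_support i).2 ⟨m, hm', by simpa using hne⟩)))
      simp [this]
    rw [h1, mul_left_comm, ← Finset.prod_mul_distrib]
    congr 1
    refine Finset.prod_congr rfl fun i _ ↦ ?_
    have h2 : m i ≤ D := (MvPolynomial.monomial_le_degreeOf i hm').trans
      (MvPolynomial.degreeOf_le_totalDegree c i)
    have h3 : τ i * (((γ i).2.2.1 : ℂ) * T i + (γ i).2.2.2) = (γ i).1 * T i + (γ i).2.1 := hm i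
    obtain ⟨n, hn⟩ := Nat.exists_eq_add_of_le h2
    rw [← h3, hn, Nat.add_sub_cancel_left, mul_pow, pow_add]
    ring
  refine ⟨c', fun h0 ↦ hc ?_, ?_, fun T τ hm h0 ↦ by rw [key T τ hm, h0, mul_zero]⟩
  · have hγ' : ∀ i, ((γ i).1 : ℂ) * (γ i).2.2.2 - (γ i).2.1 * (γ i).2.2.1 = 1 := fun i ↦ by
      exact_mod_cast hγ i
    refine MvPolynomial.funext_set (fun i ↦ {z : ℂ | ((γ i).1 : ℂ) - (γ i).2.2.1 * z ≠ 0})
      (fun i ↦ ?_) fun τ hτ ↦ ?_
    · refine Set.infinite_of_finite_compl (Set.Subsingleton.finite fun x hx y hy ↦ ?_)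
      simp only [ne_eq, Set.mem_compl_iff, Set.mem_ofPred_eq, not_not] at hx hy
      have h1 := hγ' i
      have h2 : ((γ i).2.2.1 : ℂ) * (x - y) = 0 := by linear_combination hy - hx
      rcases mul_eq_zero.1 h2 with h3 | h3
      · rw [h3] at hx h1
        have h4 : ((γ i).1 : ℂ) = 0 := by simpa using hx
        rw [h4] at h1
        simp at h1
      · exact sub_eq_zero.1 h3
    · have hτ' : ∀ i, ((γ i).1 : ℂ) - (γ i).2.2.1 * τ i ≠ 0 := fun i ↦ hτ i (Set.mem_univ i)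
      let T : Fin 3 → ℂ := fun i ↦
        ((γ i).2.2.2 * τ i - (γ i).2.1) / (((γ i).1 : ℂ) - (γ i).2.2.1 * τ i)
      have h1 : ∀ i, ((γ i).2.2.1 : ℂ) * T i + (γ i).2.2.2 =
          1 / (((γ i).1 : ℂ) - (γ i).2.2.1 * τ i) := fun i ↦ by
        have := hτ' i
        simp only [T]
        field_simp
        linear_combination hγ' i
      have h2 := key T τ fun i ↦ by
        have := hτ' i
        have h3 : T i * (((γ i).1 : ℂ) - (γ i).2.2.1 * τ i) = (γ i).2.2.2 * τ i - (γ i).2.1 :=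
          div_mul_cancel₀ _ this
        unfold Mob
        rw [h1, mul_one_div, div_eq_iff this]
        linear_combination (-τ i) * hγ' i - ((γ i).1 : ℂ) * h3
      rw [h0, map_zero] at h2
      rw [map_zero]
      refine (mul_eq_zero.1 h2.symm).resolve_left (Finset.prod_ne_zero_iff.2 fun i _ ↦ ?_)
      rw [h1]
      exact pow_ne_zero _ (one_div_ne_zero (hτ' i))
  · refine Subalgebra.sum_mem _ fun m _ ↦ Subalgebra.mul_mem _ (Subalgebra.algebraMap_mem _ _)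
      (Subalgebra.prod_mem _ fun i hi ↦ ?_)
    have hX : (MvPolynomial.X i : MvPolynomial (Fin 3) ℂ) ∈
        MvPolynomial.supported ℂ (S : Set (Fin 3)) := MvPolynomial.X_mem_supported.2 hi
    exact Subalgebra.mul_mem _
      (Subalgebra.pow_mem _ (Subalgebra.add_mem _
        (Subalgebra.mul_mem _ (Subalgebra.algebraMap_mem _ _) hX) (Subalgebra.algebraMap_mem _ _)) _)
      (Subalgebra.pow_mem _ (Subalgebra.add_mem _
        (Subalgebra.mul_mem _ (Subalgebra.algebraMap_mem _ _) hX) (Subalgebra.algebraMap_mem _ _)) _)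

/-- some lifts of the coordinates at `t` are killed by `c` -/
def Zc (A B : Fin 3 → Polynomial ℂ) (c : MvPolynomial (Fin 3) ℂ) (t : ℂ) : Prop :=
  ∃ τ : Fin 3 → ℂ, (∀ i, 0 < (τ i).im ∧ jc (τ i) = xv A B i t) ∧ MvPolynomial.eval τ c = 0

/-- a relation in the variables `S` holds near `t0` -/
def Good (A B : Fin 3 → Polynomial ℂ) (S : Finset (Fin 3)) (t0 : ℂ) : Prop :=
  ∃ c : MvPolynomial (Fin 3) ℂ, c ≠ 0 ∧ c ∈ MvPolynomial.supported ℂ (S : Set (Fin 3)) ∧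
    ∀ᶠ t in 𝓝 t0, Zc A B c t

theorem analytic_eval {U : Set ℂ} {f : Fin 3 → ℂ → ℂ} (hf : ∀ i, AnalyticOnNhd ℂ (f i) U)
    (c : MvPolynomial (Fin 3) ℂ) :
    AnalyticOnNhd ℂ (fun s ↦ MvPolynomial.eval (fun i ↦ f i s) c) U := by
  induction c using MvPolynomial.induction_on with
  | C a => simpa using analyticOnNhd_const
  | add p q hp hq => simp only [map_add]; exact hp.add hq
  | mul_X p i hp => simpa using hp.mul (hf i)

theorem transfer (F : Facts) {S : Finset (Fin 3)} {U : Set ℂ} (hU : IsOpen U)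
    (hc : IsPreconnected U) {φ : ℂ → ℂ} {f : Fin 3 → ℂ → ℂ} (hφ : ContinuousOn φ U)
    (hf : ∀ i, AnalyticOnNhd ℂ (f i) U)
    (hj : ∀ s ∈ U, ∀ i, 0 < (f i s).im ∧ jc (f i s) = xv A B i (φ s)) {s0 : ℂ} (hs0 : s0 ∈ U)
    (hg : Good A B S (φ s0)) :
    ∃ c' : MvPolynomial (Fin 3) ℂ, c' ≠ 0 ∧ c' ∈ MvPolynomial.supported ℂ (S : Set (Fin 3)) ∧
      ∀ s ∈ U, MvPolynomial.eval (fun i ↦ f i s) c' = 0 := by
  obtain ⟨c, hc0, hcS, hZ⟩ := hg
  have h1 : ∀ᶠ s in 𝓝 s0, s ∈ U ∧ Zc A B c (φ s) :=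
    (hU.eventually_mem hs0).and ((hφ.continuousAt (hU.mem_nhds hs0)).eventually hZ)
  let V : (Fin 3 → ℤ × ℤ × ℤ × ℤ) → Set ℂ := fun γ ↦ {s | s ∈ U ∧
    (∀ i, (γ i).1 * (γ i).2.2.2 - (γ i).2.1 * (γ i).2.2.1 = 1) ∧ ∃ τ : Fin 3 → ℂ,
      (∀ i, Mob (γ i).1 (γ i).2.1 (γ i).2.2.1 (γ i).2.2.2 (f i s) (τ i)) ∧
        MvPolynomial.eval τ c = 0}
  have h2 : ∃ γ, ¬ (V γ).Countable := by
    by_contra hne
    push Not at hne
    refine not_countable_of_nhds h1 ((Set.countable_iUnion hne).mono ?_)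
    rintro s ⟨hs, τ, hτ, h0⟩
    have : ∀ i, ∃ g : ℤ × ℤ × ℤ × ℤ, g.1 * g.2.2.2 - g.2.1 * g.2.2.1 = 1 ∧
        Mob g.1 g.2.1 g.2.2.1 g.2.2.2 (f i s) (τ i) := by
      intro i
      obtain ⟨a, b, c, d, e1, e2⟩ := F.inj (ofComplex (f i s)) (ofComplex (τ i))
        ((hj s hs i).2.trans (hτ i).2.symm)
      rw [ofComplex_apply_of_im_pos (hj s hs i).1, ofComplex_apply_of_im_pos (hτ i).1] at e2
      exact ⟨(a, b, c, d), by simpa using e1, e2⟩
    choose γ hγ using this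
    exact Set.mem_iUnion.2 ⟨γ, hs, fun i ↦ (hγ i).1, τ, fun i ↦ (hγ i).2, h0⟩
  obtain ⟨γ, hγ⟩ := h2
  obtain ⟨s1, hs1⟩ : (V γ).Nonempty :=
    Set.nonempty_iff_ne_empty.2 fun h ↦ hγ (h ▸ Set.countable_empty)
  obtain ⟨c', a1, a2, a3⟩ := exists_mob S hc0 hcS γ hs1.2.1
  refine ⟨c', a1, a2, zero_of_uncountable hc (analytic_eval hf c') hγ (fun s hs ↦ hs.1) ?_⟩
  rintro s ⟨-, -, τ, b1, b2⟩
  exact a3 _ τ b1 b2

theorem start {S : Finset (Fin 3)} {U : Set ℂ} (hU : IsOpen U) (hc : IsPreconnected U)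
    {φ : ℂ → ℂ} {f : Fin 3 → ℂ → ℂ} (hφ : AnalyticOnNhd ℂ φ U)
    (hnc : ∃ s ∈ U, ∃ s' ∈ U, φ s ≠ φ s')
    (hj : ∀ s ∈ U, NP B (φ s) ∧ ∀ i, 0 < (f i s).im ∧ jc (f i s) = xv A B i (φ s))
    {c : MvPolynomial (Fin 3) ℂ} (hc0 : c ≠ 0)
    (hcS : c ∈ MvPolynomial.supported ℂ (S : Set (Fin 3)))
    (h0 : ∀ s ∈ U, MvPolynomial.eval (fun i ↦ f i s) c = 0) : ∃ t, NP B t ∧ Good A B S t := by
  obtain ⟨s, hs, s', hs', hne⟩ := hnc
  rcases hφ.is_constant_or_isOpen hc with ⟨w, hw⟩ | ho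
  · exact absurd ((hw s hs).trans (hw s' hs').symm) hne
  · refine ⟨φ s, (hj s hs).1, c, hc0, hcS, ?_⟩
    filter_upwards [(ho U subset_rfl hU).mem_nhds (Set.mem_image_of_mem φ hs)] with t ht
    obtain ⟨y, hy, rfl⟩ := ht
    exact ⟨fun i ↦ f i y, (hj y hy).2, h0 y hy⟩

theorem spread (F : Facts) (h : Adm A B) {S : Finset (Fin 3)} {t1 : ℂ} (h1 : NP B t1)
    (hg : Good A B S t1) {t : ℂ} (ht : NP B t) : Good A B S t := by
  have hB0 : ∀ i, B i ≠ 0 := fun i h0 ↦ by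
    have := (h.1 i).2.1
    simp [h0] at this
  have hfin : {t : ℂ | NP B t}ᶜ.Finite := by
    refine (Set.finite_iUnion fun i ↦ Polynomial.finite_setOfPred_isRoot (hB0 i)).subset fun z hz ↦ ?_
    simp only [NP, Set.mem_compl_iff, Set.mem_ofPred_eq, not_forall, not_not] at hz
    obtain ⟨i, hi⟩ := hz
    exact Set.mem_iUnion.2 ⟨i, hi⟩
  have hpc : IsPreconnected {t : ℂ | NP B t} := by
    have := (hfin.countable.isConnected_compl_of_one_lt_rank (by simp)).isPreconnected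
    rwa [compl_compl] at this
  have hop : IsOpen {t : ℂ | Good A B S t} := by
    rw [isOpen_iff_mem_nhds]
    rintro x ⟨c, a1, a2, a3⟩
    filter_upwards [a3.eventually_nhds] with y hy
    exact ⟨c, a1, a2, hy⟩
  refine hpc.subset_of_closure_inter_subset hop ⟨t1, h1, hg⟩ ?_ ht
  rintro t0 ⟨hcl, ht0⟩
  obtain ⟨E, r, f, hE, hr, hf, hj⟩ := chart_reg (A := A) F ht0
  have hroot : ∀ y ∈ ball t0 (r ^ E), ∃ u ∈ ball (0 : ℂ) r, t0 + u ^ E = y := by
    intro y hy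
    obtain ⟨u, hu⟩ := IsAlgClosed.exists_pow_nat_eq (y - t0) hE
    refine ⟨u, ?_, by rw [hu]; ring⟩
    rw [mem_ball, dist_eq_norm, ← hu, norm_pow] at hy
    simpa using lt_of_pow_lt_pow_left₀ E hr.le hy
  obtain ⟨y, hy1, hy2⟩ := mem_closure_iff_nhds.1 hcl _ (ball_mem_nhds t0 (pow_pos hr E))
  obtain ⟨u, hu, rfl⟩ := hroot y hy1
  obtain ⟨c', a1, a2, a3⟩ := transfer (φ := fun u ↦ t0 + u ^ E) F isOpen_ball
    (convex_ball 0 r).isPreconnected (by fun_prop) hf (fun s hs ↦ (hj s hs).2) hu hy2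
  refine ⟨c', a1, a2, ?_⟩
  filter_upwards [ball_mem_nhds t0 (pow_pos hr E)] with y hy
  obtain ⟨u, hu, rfl⟩ := hroot y hy
  exact ⟨fun i ↦ f i u, (hj u hu).2, a3 u hu⟩

theorem eval_update (c : MvPolynomial (Fin 3) ℂ) (k : Fin 3) (y : Fin 3 → ℂ) :
    ∃ p : Polynomial ℂ, ∀ T, p.eval T = MvPolynomial.eval (Function.update y k T) c := by
  induction c using MvPolynomial.induction_on with
  | C a => exact ⟨Polynomial.C a, fun T ↦ by simp⟩
  | add p q hp hq =>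
    obtain ⟨p', hp⟩ := hp
    obtain ⟨q', hq⟩ := hq
    exact ⟨p' + q', fun T ↦ by simp [hp, hq]⟩
  | mul_X p i hp =>
    obtain ⟨p', hp⟩ := hp
    by_cases hi : i = k
    · subst hi
      exact ⟨p' * Polynomial.X, fun T ↦ by simp [hp]⟩
    · exact ⟨p' * Polynomial.C (y i), fun T ↦ by simp [hp, hi]⟩

theorem exists_special {S : Finset (Fin 3)} {k : Fin 3} {c : MvPolynomial (Fin 3) ℂ} (hc : c ≠ 0)
    (hS : c ∈ MvPolynomial.supported ℂ ((insert k S : Finset (Fin 3)) : Set (Fin 3))) :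
    ∃ (T0 : ℂ) (c' : MvPolynomial (Fin 3) ℂ), c' ≠ 0 ∧
      c' ∈ MvPolynomial.supported ℂ (S : Set (Fin 3)) ∧
      ∀ y : Fin 3 → ℂ, MvPolynomial.eval y c' = MvPolynomial.eval (Function.update y k T0) c := by
  let sub : ℂ → MvPolynomial (Fin 3) ℂ →ₐ[ℂ] MvPolynomial (Fin 3) ℂ := fun T0 ↦
    MvPolynomial.aeval (Function.update MvPolynomial.X k (MvPolynomial.C T0))
  have hev : ∀ (T0 : ℂ) (y : Fin 3 → ℂ) (p : MvPolynomial (Fin 3) ℂ),
      MvPolynomial.eval y (sub T0 p) = MvPolynomial.eval (Function.update y k T0) p := by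
    intro T0 y p
    induction p using MvPolynomial.induction_on with
    | C a => simp [sub]
    | add p q hp hq => simp only [map_add, hp, hq]
    | mul_X p i hp =>
      simp only [map_mul, hp]
      by_cases hi : i = k
      · subst hi; simp [sub]
      · simp [sub, hi]
  have hex : ∃ T0, sub T0 c ≠ 0 := by
    by_contra hne
    push Not at hne
    refine hc (MvPolynomial.funext fun y ↦ ?_)
    have := hev (y k) y c
    rw [hne, Function.update_eq_self] at this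
    exact this.symm
  obtain ⟨T0, hT0⟩ := hex
  refine ⟨T0, sub T0 c, hT0, ?_, fun y ↦ hev T0 y c⟩
  have : MvPolynomial.supported ℂ ((insert k S : Finset (Fin 3)) : Set (Fin 3)) ≤
      (MvPolynomial.supported ℂ (S : Set (Fin 3))).comap (sub T0) := by
    rw [MvPolynomial.supported_eq_adjoin_X, Algebra.adjoin_le_iff]
    rintro _ ⟨i, hi, rfl⟩
    simp only [SetLike.mem_coe, Subalgebra.mem_comap]
    by_cases hik : i = k
    · subst hik
      simp only [sub, MvPolynomial.aeval_X, Function.update_self]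
      exact Subalgebra.algebraMap_mem _ _
    · simp only [sub, MvPolynomial.aeval_X, Function.update_of_ne hik]
      exact MvPolynomial.X_mem_supported.2 (by simpa [hik] using hi)
  exact this hS

theorem descend (F : Facts) (h : Adm A B) {S : Finset (Fin 3)} {k : Fin 3} {t1 : ℂ}
    (h1 : NP B t1) (hg : Good A B (insert k S) t1) : ∃ t, NP B t ∧ Good A B S t := by
  obtain ⟨P, hP⟩ := IsAlgClosed.exists_root (B k)
    (Polynomial.natDegree_pos_iff_degree_pos.1 (h.1 k).2.1).ne'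
  obtain ⟨E, m, r, g, hE, hm, hr, hg1, hg2, hg3⟩ := chart_cusp F h hP
  let W : Set ℂ := {w | w.re < Real.log r}
  have hW : ∀ w ∈ W, ‖Complex.exp w‖ < r := fun w hw ↦ by
    rw [Complex.norm_exp]
    exact (Real.lt_log_iff_exp_lt hr).1 hw
  have hWo : IsOpen W := isOpen_lt Complex.continuous_re continuous_const
  have hWc : IsPreconnected W := (convex_halfSpace_re_lt _).isPreconnected
  let f : Fin 3 → ℂ → ℂ := fun i w ↦
    (if i = k then m / (2 * π * Complex.I) * w else 0) + g i (Complex.exp w)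
  have hf : ∀ i, AnalyticOnNhd ℂ (f i) W := fun i w hw ↦ by
    refine AnalyticAt.add ?_ ((hg1 i _ (by simpa using hW w hw)).comp analyticAt_cexp)
    split_ifs
    · fun_prop
    · exact analyticAt_const
  have hj : ∀ w ∈ W, NP B (P + Complex.exp w ^ E) ∧ ∀ i, 0 < (f i w).im ∧
      jc (f i w) = xv A B i (P + Complex.exp w ^ E) := fun w hw ↦ by
    obtain ⟨a1, a2, a3⟩ := hg3 w (hW w hw)
    refine ⟨a1, fun i ↦ ?_⟩
    by_cases hi : i = k
    · subst hi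
      simp only [f, if_true]
      exact ⟨by linarith, a3⟩
    · simp only [f, if_neg hi, zero_add]
      exact hg2 _ (by simpa using hW w hw) i hi
  have hφ : AnalyticOnNhd ℂ (fun w ↦ P + Complex.exp w ^ E) W := fun w _ ↦ by fun_prop
  have hw0 : ((Real.log r - 1 : ℝ) : ℂ) ∈ W := by simp [W]
  have hw1 : ((Real.log r - 2 : ℝ) : ℂ) ∈ W := by simp [W]
  obtain ⟨c', a1, a2, a3⟩ := transfer F hWo hWc hφ.continuousOn hf (fun s hs ↦ (hj s hs).2) hw0
    (spread F h h1 hg (hj _ hw0).1)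
  obtain ⟨T0, c'', b1, b2, b3⟩ := exists_special a1 a2
  refine start hWo hWc hφ ⟨_, hw0, _, hw1, fun he ↦ ?_⟩ hj b1 b2 fun w hw ↦ ?_
  · have h2 := congrArg norm (add_left_cancel he)
    simp only [norm_pow, Complex.norm_exp, Complex.ofReal_re] at h2
    have h3 := Real.exp_injective ((pow_left_inj₀ (Real.exp_pos _).le (Real.exp_pos _).le
      hE.ne').1 h2)
    linarith
  · rw [b3]
    obtain ⟨p, hp⟩ := eval_update c' k fun i ↦ f i w
    have hp0 : p = 0 := by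
      refine Polynomial.eq_zero_of_infinite_isRoot p (Set.infinite_of_injective_forall_mem
        (f := fun n : ℕ ↦ f k w + m * n) (fun n n' hn ↦ ?_) fun n ↦ ?_)
      · have hm' : (m : ℂ) ≠ 0 := by exact_mod_cast hm.ne'
        exact_mod_cast mul_left_cancel₀ hm' (add_left_cancel hn)
      · have hwn : w + n * (2 * π * Complex.I) ∈ W := by simpa [W] using hw
        have h2 := a3 _ hwn
        have h3 : (fun i ↦ f i (w + n * (2 * π * Complex.I))) =
            Function.update (fun i ↦ f i w) k (f k w + m * n) := by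
          funext i
          have he : Complex.exp (w + n * (2 * π * Complex.I)) = Complex.exp w := by
            rw [Complex.exp_add, Complex.exp_nat_mul_two_pi_mul_I, mul_one]
          by_cases hi : i = k
          · subst hi
            simp only [f, if_true, he, Function.update_self]
            have := Complex.two_pi_I_ne_zero
            field_simp
            ring
          · simp only [f, if_neg hi, he, Function.update_of_ne hi]
        rw [h3] at h2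
        show p.eval _ = 0
        rw [hp, h2]
    rw [← hp, hp0, Polynomial.eval_zero]

theorem not_good (F : Facts) (h : Adm A B) (S : Finset (Fin 3)) :
    ¬ ∃ t, NP B t ∧ Good A B S t := by
  induction S using Finset.induction_on with
  | empty =>
    rintro ⟨t, -, c, a1, a2, a3⟩
    obtain ⟨τ, -, h0⟩ := a3.self_of_nhds
    rw [Finset.coe_empty, MvPolynomial.supported_empty, Algebra.mem_bot] at a2
    obtain ⟨a, rfl⟩ := a2
    have : a = 0 := by simpa using h0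
    exact a1 (by simp [this])
  | insert k S _ ih =>
    rintro ⟨t, h1, h2⟩
    exact ih (descend F h h1 h2)

theorem ax_log (F : Facts) (h : Adm A B) {U : Set ℂ} (hU : IsOpen U) (hc : IsPreconnected U)
    {φ : ℂ → ℂ} {f : Fin 3 → ℂ → ℂ} (hφ : AnalyticOnNhd ℂ φ U)
    (hnc : ∃ s ∈ U, ∃ s' ∈ U, φ s ≠ φ s')
    (hj : ∀ s ∈ U, NP B (φ s) ∧ ∀ i, 0 < (f i s).im ∧ jc (f i s) = xv A B i (φ s))
    (c : MvPolynomial (Fin 3) ℂ) (h0 : ∀ s ∈ U, MvPolynomial.eval (fun i ↦ f i s) c = 0) :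
    c = 0 := by
  by_contra hc0
  exact not_good F h Finset.univ (start hU hc hφ hnc hj hc0 (by simp) h0)

end CH

end Pool.Agent.Lib.ZP3
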