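import Pool.Agent.Lib.ZP3.Chart2
import Pool.Agent.Lib.ZP3.Curve2
import Pool.Agent.Lib.ZP3.ChartCore

open UpperHalfPlane Filter Topology Metric
open scoped Real MatrixGroups

namespace Pool.Agent.Lib.ZP3

open Pool.Agent.Lib.MP_0704bf_ag Pool.Agent.Lib.helper6

set_option linter.unusedSectionVars false

section AXS
variable {κ : Type} [Fintype κ] [DecidableEq κ] {A B : κ → Polynomial ℂ} {Z : Set (ℂ × (κ → ℂ))}
  {U U' : Set ℂ} {φ φ' : ℂ → ℂ} {f f' : κ → ℂ → ℂ}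

instance AXS.countable_SL : Countable SL(2, ℤ) :=
  inferInstanceAs (Countable {A : Fin 2 → Fin 2 → ℤ // Matrix.det (Matrix.of A) = 1})

theorem IsChart.actC (h : IsChart A B U φ f) (γ : κ → SL(2, ℤ)) :
    IsChart A B U φ (act γ f) := by
  obtain ⟨h1, h2, h3, h4, h5, h6⟩ := h
  exact ⟨h1, h2, h3, h4, fun i s hs ↦ (analyticAt_mb (γ i) ((h6 s hs).2 i).1).comp (h5 i s hs),
    fun s hs ↦ ⟨(h6 s hs).1, fun i ↦ ⟨mb_im_pos _ ((h6 s hs).2 i).1,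
      (jc_mb _ ((h6 s hs).2 i).1).trans ((h6 s hs).2 i).2⟩⟩⟩

theorem AXS.isOpen_image (h : IsChart A B U φ f) : IsOpen (φ '' U) := by
  obtain ⟨s, hs, s', hs', hne⟩ := h.2.2.2.1
  rcases h.2.2.1.is_constant_or_isOpen h.2.1 with ⟨w, hw⟩ | ho
  · exact absurd ((hw s hs).trans (hw s' hs').symm) hne
  · exact ho U subset_rfl h.1

theorem IsChart.not_countable (h : IsChart A B U φ f) : ¬ (φ '' U).Countable := by
  obtain ⟨s, hs, -⟩ := h.2.2.2.1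
  exact CH.not_countable_of_nhds ((AXS.isOpen_image h).mem_nhds ⟨s, hs, rfl⟩)

theorem AXS.exists_uncountable {S : Set ℂ} (hS : ¬ S.Countable) {p : (κ → SL(2, ℤ)) → ℂ → Prop}
    (h : ∀ s ∈ S, ∃ γ, p γ s) : ∃ γ, ¬ {s | s ∈ S ∧ p γ s}.Countable := by
  by_contra hc
  push Not at hc
  exact hS ((Set.countable_iUnion hc).mono fun s hs ↦
    Set.mem_iUnion.2 ((h s hs).imp fun _ h ↦ And.intro hs h))

/-- two charts over the same map differ by a constant group element -/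
theorem IsChart.exists_act (h : IsChart A B U φ f) (h' : IsChart A B U φ f') :
    ∃ γ : κ → SL(2, ℤ), ∀ s ∈ U, ∀ i, f' i s = act γ f i s := by
  obtain ⟨γ, hγ⟩ := AXS.exists_uncountable (S := U) (p := fun γ s ↦ ∀ i, f' i s = act γ f i s)
    (fun hc ↦ h.not_countable (hc.image φ)) fun s hs ↦ by
      have h1 := (h.2.2.2.2.2 s hs).2
      have h2 := (h'.2.2.2.2.2 s hs).2
      choose γ hγ using fun i ↦ exists_mb (h1 i).1 (h2 i).1 ((h1 i).2.trans (h2 i).2.symm)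
      exact ⟨γ, hγ⟩
  exact ⟨γ, fun s hs i ↦ sub_eq_zero.1 (CH.zero_of_uncountable h.2.1
    ((h'.2.2.2.2.1 i).sub ((h.actC γ).2.2.2.2.1 i)) hγ (fun _ h ↦ h.1)
    (fun _ h ↦ sub_eq_zero.2 (h.2 i)) s hs)⟩

/-- zero sets of analytic functions are rigid -/
theorem rigid_of_analytic {ι : Type} (G : ι → ℂ × (κ → ℂ) → ℂ)
    (hG : ∀ k, AnalyticOnNhd ℂ (G k) {q | ∀ i, 0 < (q.2 i).im}) :
    Rigid A B {q | ∀ k, G k q = 0} := fun _ φ f h hc s hs k ↦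
  CH.zero_of_uncountable (G := fun s ↦ G k (φ s, fun i ↦ f i s)) h.2.1
    (fun s hs ↦ (hG k _ fun i ↦ ((h.2.2.2.2.2 s hs).2 i).1).comp_of_eq
      ((h.2.2.1 s hs).prod (AnalyticAt.pi fun i ↦ h.2.2.2.2.1 i s hs)) rfl) hc (fun _ h ↦ h.1)
    (fun _ h ↦ h.2 k) s hs

theorem AXS.pick (hZ : Rigid A B Z) (h : IsChart A B U φ f) {S : Set ℂ} (hS : ¬ S.Countable)
    (hU : S ⊆ U) (H : ∀ s ∈ S, ∃ τ : κ → ℂ, (∀ i, 0 < (τ i).im ∧ jc (τ i) = xk A B (φ s) i) ∧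
      (φ s, τ) ∈ Z) : ∃ γ, Zin Z U φ (act γ f) := by
  obtain ⟨γ, hγ⟩ := AXS.exists_uncountable hS
    (p := fun γ s ↦ (φ s, fun i ↦ act γ f i s) ∈ Z) fun s hs ↦ by
      obtain ⟨τ, h2, h3⟩ := H s hs
      have h1 := (h.2.2.2.2.2 s (hU hs)).2
      choose γ hγ using fun i ↦ exists_mb (h1 i).1 (h2 i).1 ((h1 i).2.trans (h2 i).2.symm)
      exact ⟨γ, by rwa [show τ = fun i ↦ act γ f i s from funext hγ] at h3⟩
  exact ⟨γ, hZ _ _ _ (h.actC γ) fun hc ↦ hγ (hc.mono fun s hs ↦ And.intro (hU hs.1) hs.2)⟩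

theorem spread (hZ : Rigid A B Z) (h : IsChart A B U φ f) (hz : Zin Z U φ f)
    (h' : IsChart A B U' φ' f') : ∃ γ, Zin Z U' φ' (act γ f') := by
  set Y : Set ℂ := {t | ∃ τ : κ → ℂ, (∀ i, 0 < (τ i).im ∧ jc (τ i) = xk A B t i) ∧ (t, τ) ∈ Z}
  obtain ⟨s, hs, -⟩ := h.2.2.2.1
  have hfin := npk_cofinite (B := B) fun i h0 ↦ (h.2.2.2.2.2 s hs).1 i (by simp [h0])
  have hpc : IsPreconnected {t : ℂ | NPk B t} := by
    have := (hfin.countable.isConnected_compl_of_one_lt_rank (by simp)).isPreconnected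
    simpa [Set.compl_ofPred] using this
  have hY : {t : ℂ | NPk B t} ⊆ interior Y := by
    refine hpc.subset_of_closure_inter_subset isOpen_interior ⟨φ s, (h.2.2.2.2.2 s hs).1,
      interior_maximal ?_ (AXS.isOpen_image h) ⟨s, hs, rfl⟩⟩ ?_
    · rintro _ ⟨y, hy, rfl⟩
      exact ⟨_, (h.2.2.2.2.2 y hy).2, hz y hy⟩
    rintro t0 ⟨hcl, ht0⟩
    obtain ⟨E, r, g, hE, hr, hg⟩ := exists_reg (A := A) ht0
    have h0 : t0 ∈ (fun u ↦ t0 + u ^ E) '' ball (0 : ℂ) r := ⟨0, mem_ball_self hr, by simp [hE.ne']⟩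
    obtain ⟨_, ⟨u, hu, rfl⟩, hu'⟩ := mem_closure_iff.1 hcl _ (AXS.isOpen_image hg) h0
    obtain ⟨γ, hγ⟩ := AXS.pick hZ hg (S := ball 0 r ∩ (fun u ↦ t0 + u ^ E) ⁻¹' interior Y)
      (CH.not_countable_of_nhds ((isOpen_ball.inter (isOpen_interior.preimage
        (by fun_prop))).mem_nhds ⟨hu, hu'⟩)) Set.inter_subset_left
      fun s hs ↦ interior_subset (s := Y) hs.2
    refine interior_maximal ?_ (AXS.isOpen_image hg) h0
    rintro _ ⟨y, hy, rfl⟩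
    exact ⟨_, ((hg.actC γ).2.2.2.2.2 y hy).2, hγ y hy⟩
  exact AXS.pick hZ h' (fun hc ↦ h'.not_countable (hc.image φ')) subset_rfl
    fun s hs ↦ interior_subset (s := Y) (hY (h'.2.2.2.2.2 s hs).1)

theorem mon_cusp (h : Nice A B) (hZ : Rigid A B Z) (h0 : IsChart A B U φ f) (hz : Zin Z U φ f)
    (i : κ) : ∃ (δ : κ → SL(2, ℤ)) (m : κ → ℕ), 0 < m i ∧
      (fun l ↦ δ l * ModularGroup.T ^ m l * (δ l)⁻¹) ∈ Mon A B Z := by
  obtain ⟨P, hP⟩ := h.exists_pole i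
  obtain ⟨E, m, r, g, hc⟩ := exists_cuspD h P
  obtain ⟨δ, hδ⟩ := spread hZ h0 hz hc.isChart
  refine ⟨δ, m, (hc.pole i).2 hP, _, _, _, hc.isChart.actC δ, hδ, fun w hw ↦ ?_⟩
  have h1 : Complex.exp (w + 2 * π * Complex.I) = Complex.exp w := by
    rw [Complex.exp_add, Complex.exp_two_pi_mul_I, mul_one]
  have h2 := hδ (w + 2 * π * Complex.I) (by simpa only [Set.mem_ofPred_eq, h1] using hw)
  simp only [h1] at h2
  convert h2 using 3 with l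
  have h3 := ((hc.isChart.2.2.2.2.2 w hw).2 l).1
  simp only [act]
  rw [← mb_mul _ _ h3, inv_mul_cancel_right, mb_mul _ _ h3, mb_T_pow, cf, cf, h1]
  congr 1
  have := Complex.two_pi_I_ne_zero
  field_simp
  ring

end AXS

end Pool.Agent.Lib.ZP3
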