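import Pool.Agent.Lib.ZP3.Ent
import Pool.Agent.Lib.ZP3.Hecke2
import Pool.Agent.Lib.ZP3.AxSpread
import Pool.Agent.Lib.MP_0704bf_ag.Main

/-! Special subvarieties and special conditions. -/

open UpperHalfPlane Filter Topology Metric
open scoped Real MatrixGroups

namespace Pool.Agent.Lib.ZP3

open Pool.Agent.Lib.MP_0704bf_ag Pool.Agent.Lib.helper6

namespace SPEC

variable {n : ℕ}

lemma isCM_I : IsCM UpperHalfPlane.I := ⟨1, 0, 1, one_ne_zero, by simp⟩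

/-- the modular divisor given by an integral matrix -/
lemma exists_T {i j : Fin n} (hij : i ≠ j) {a b c d : ℤ} (hd : 0 < a * d - b * c) :
    ∃ T, IsSpecial T ∧ T ≠ Set.univ ∧ ∀ (x : Fin n → ℂ) (τ τ' : ℍ), jInv τ = x i → jInv τ' = x j →
      Mob a b c d τ τ' → x ∈ T := by
  have hq : (0 : ℚ) < (!![(a : ℚ), b; c, d]).det := by
    rw [Matrix.det_fin_two_of]
    exact_mod_cast hd
  let G : GL (Fin 2) ℚ := .mkOfDetNeZero _ hq.ne'
  refine ⟨_, ⟨n, fun l ↦ some (if l = j then i else l), fun l ↦ if l = j then G else 1,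
    fun _ ↦ UpperHalfPlane.I, fun l ↦ ?_, fun _ ↦ isCM_I, rfl⟩, fun h ↦ ?_,
    fun x τ τ' h h' hm ↦ ?_⟩
  · dsimp only
    split_ifs
    · exact hq
    · simp
  · refine not_countable_complex ((Set.countable_iUnion fun N : ℕ ↦
      (iso_finite_fiber N.succ_pos 0).countable).mono fun y _ ↦ ?_)
    obtain ⟨z, hz⟩ := (Set.eq_univ_iff_forall.1 h) (Function.update 0 j y)
    have h1 := (hz i).2 i (by simp [hij])
    have h2 := (hz j).2 i (by simp)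
    obtain ⟨N, hN, h3⟩ := iso_of_rat (z i) G hq
    simp only [if_neg hij, map_one, one_smul, Function.update_of_ne hij, Pi.zero_apply,
      Function.update_self, if_true] at h1 h2
    exact Set.mem_iUnion.2 ⟨N - 1, by
      rwa [Nat.succ_eq_add_one, Nat.sub_add_cancel hN, Set.mem_ofPred_eq, h1, h2]⟩
  · choose z _ hz using fun l ↦ j_surj (x l)
    refine ⟨Function.update z i τ, fun l ↦ ⟨fun k ↦ by simp at k, fun k hk ↦ ?_⟩⟩
    obtain rfl := Option.some.inj hk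
    by_cases e : l = j
    · have hp : 0 < (Matrix.GeneralLinearGroup.map (Rat.castHom ℝ) G).det.val := by
        have : (0 : ℝ) < a * d - b * c := by exact_mod_cast hd
        simpa [G, Matrix.det_fin_two] using this
      simp only [e, if_true, Function.update_self, ← h']
      congr 1
      ext1
      rw [coe_smul_of_det_pos hp, eq_div_iff (denom_ne_zero _ _)]
      simpa [num, denom, G, Mob] using hm
    · by_cases e' : l = i
      · simp [e', hij, h]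
      · simp [e, e', hz]

end SPEC

section SPEC
variable {n : ℕ}

theorem special_two {T : Set (Fin n → ℂ)} (hT : IsSpecial T) (hd : dimOf T + 2 ≤ n)
    {x : Fin n → ℂ} (hx : x ∈ T) (K : Set (Fin n))
    (h1 : ∀ i ∈ K, ∀ m, ¬ IsSquare m → ¬ Iso m (x i) (x i))
    (h2 : ∀ i ∈ K, ∀ j ∈ K, i ≠ j → ∀ m, 0 < m → ¬ Iso m (x i) (x j)) :
    ∃ (i1 j1 i2 j2 : Fin n) (n1 n2 : ℕ), j1 ∉ K ∧ j2 ∉ K ∧ Two (Sum.inl i1) j1 (Sum.inl i2) j2 ∧
      Cnd x (Sum.inl i1) j1 n1 ∧ Cnd x (Sum.inl i2) j2 n2 := by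
  classical
  obtain ⟨r, cl, g, w, hg, hw, rfl⟩ := hT
  obtain ⟨z, hz⟩ := hx
  have hc : ((Finset.univ.image cl).erase none).card + 2 ≤ n := by
    have := (add_le_add_left (card_le_dimOf cl
      (fun i ↦ Matrix.GeneralLinearGroup.map (Rat.castHom ℝ) (g i)) fun i ↦ jInv (w i)) 2).trans hd
    exact_mod_cast this
  have : ∀ k, (∃ j, cl j = some k) → ∃ i, cl i = some k ∧ ∀ j ∈ K, cl j = some k → i ∈ K := by
    rintro k ⟨j, hj⟩
    by_cases e : ∃ i ∈ K, cl i = some k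
    · obtain ⟨i, a, b⟩ := e
      exact ⟨i, b, fun _ _ _ ↦ a⟩
    · exact ⟨j, hj, fun i a b ↦ (e ⟨i, a, b⟩).elim⟩
  choose ρ r1 r2 using this
  let R : Finset (Fin n) := Finset.univ.filter fun l ↦ ∃ k h, ρ k h = l
  have hR : ∀ l, l ∈ R ↔ ∃ k h, ρ k h = l := by simp [R]
  have hcard : R.card ≤ ((Finset.univ.image cl).erase none).card := by
    refine Finset.card_le_card_of_injOn cl (fun l hl ↦ ?_) fun l hl l' hl' e ↦ ?_
    · obtain ⟨k, h, rfl⟩ := (hR l).1 hl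
      simpa [r1] using h
    · obtain ⟨k, h, rfl⟩ := (hR l).1 hl
      obtain ⟨k', h', rfl⟩ := (hR l').1 hl'
      rw [r1, r1] at e
      obtain rfl := Option.some.inj e
      rfl
  have key : ∀ j, j ∉ R → ∃ i m, j ∉ K ∧ (i = j ∨ i ∈ R) ∧ Cnd x (Sum.inl i) j m := fun j hj ↦ by
    cases e : cl j with
    | none =>
      obtain ⟨m, a, b⟩ := cm_cnd (hw j)
      rw [← (hz j).1 e] at b
      exact ⟨j, m, fun k ↦ h1 j k m a b, .inl rfl,
        Nat.pos_of_ne_zero fun k ↦ a (k ▸ IsSquare.zero), b, fun _ ↦ a⟩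
    | some k =>
      have hi : ρ k ⟨j, e⟩ ≠ j := fun k' ↦ hj ((hR j).2 ⟨k, _, k'⟩)
      obtain ⟨N, hN, a⟩ := iso_of_rat (z k) _ (hg (ρ k ⟨j, e⟩))
      obtain ⟨N', hN', b⟩ := iso_of_rat (z k) _ (hg j)
      rw [← (hz _).2 k (r1 k _)] at a
      rw [← (hz j).2 k e] at b
      exact ⟨_, _, fun h ↦ h2 _ (r2 k _ j h e) j h hi _ (mul_pos hN hN') (a.symm.trans b),
        .inr ((hR _).2 ⟨k, _, rfl⟩), mul_pos hN hN', a.symm.trans b,
        fun h ↦ (hi (Sum.inl.inj h)).elim⟩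
  obtain ⟨j1, a1, j2, a2, hne⟩ := Finset.one_lt_card.1 (show 1 < Rᶜ.card by
    rw [Finset.card_compl, Fintype.card_fin]
    omega)
  rw [Finset.mem_compl] at a1 a2
  obtain ⟨i1, n1, b1, c1, d1⟩ := key j1 a1
  obtain ⟨i2, n2, b2, c2, d2⟩ := key j2 a2
  refine ⟨i1, j1, i2, j2, n1, n2, b1, b2, ⟨hne, fun h ↦ ?_, fun h ↦ ?_⟩, d1, d2⟩
  · obtain rfl := Sum.inl.inj h
    exact c1.elim (fun k ↦ hne k.symm) a2
  · obtain rfl := Sum.inl.inj h
    exact c2.elim hne a1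

theorem special_of_iso {A B : Fin n → Polynomial ℂ} {i j : Fin n} (hij : i ≠ j) {N : ℕ}
    (hN : 0 < N) (h : ∀ t, NPk B t → Iso N (xk A B t i) (xk A B t j)) :
    ∃ T, IsSpecial T ∧ T ≠ Set.univ ∧ ∀ t, NPk B t → xk A B t ∈ T := by
  by_cases h0 : ∃ t, NPk B t
  swap
  · obtain ⟨T, h1, h2, -⟩ := SPEC.exists_T hij (a := 1) (b := 0) (c := 0) (d := 1) (by simp)
    exact ⟨T, h1, h2, fun t ht ↦ (h0 ⟨t, ht⟩).elim⟩
  obtain ⟨t0, h0⟩ := h0
  obtain ⟨E, r, f, -, -, hc⟩ := exists_reg (A := A) h0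
  obtain ⟨⟨a, b, c, d⟩, hg⟩ : ∃ g : ℤ × ℤ × ℤ × ℤ, ¬ {s | s ∈ ball (0 : ℂ) r ∧
      g.1 * g.2.2.2 - g.2.1 * g.2.2.1 = N ∧
        Mob g.1 g.2.1 g.2.2.1 g.2.2.2 (f i s) (f j s)}.Countable := by
    by_contra! k
    refine hc.not_countable (((Set.countable_iUnion k).mono fun s hs ↦ ?_).image _)
    obtain ⟨k1, k2⟩ := hc.2.2.2.2.2 s hs
    obtain ⟨a, b, c, d, k3⟩ := (iso_iff_rel (k2 i).1 (k2 j).1).1 (by
      rw [(k2 i).2, (k2 j).2]
      exact h _ k1)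
    exact Set.mem_iUnion.2 ⟨(a, b, c, d), hs, k3⟩
  have hd : a * d - b * c = N := by
    by_contra k
    exact hg (Set.countable_empty.mono fun s hs ↦ k hs.2.1)
  have hZ := rigid_of_analytic (A := A) (B := B)
    (fun (_ : Unit) q ↦ q.2 j * (c * q.2 i + d) - (a * q.2 i + b)) fun _ q _ ↦ by
      have k : ∀ l, AnalyticAt ℂ (fun q : ℂ × (Fin n → ℂ) ↦ q.2 l) q := fun l ↦
        ((ContinuousLinearMap.proj l).comp (ContinuousLinearMap.snd ℂ ℂ (Fin n → ℂ))).analyticAt q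
      exact ((k j).mul ((analyticAt_const.mul (k i)).add analyticAt_const)).sub
        ((analyticAt_const.mul (k i)).add analyticAt_const)
  have hz := hZ _ _ _ hc fun k ↦ hg (k.mono fun s hs ↦
    And.intro hs.1 fun _ ↦ sub_eq_zero.2 hs.2.2)
  obtain ⟨T, h1, h2, h3⟩ := SPEC.exists_T hij (a := a) (b := b) (c := c) (d := d)
    (hd ▸ by exact_mod_cast hN)
  refine ⟨T, h1, h2, fun t ht ↦ ?_⟩
  obtain ⟨E', r', f', hE, hr, hc'⟩ := exists_reg (A := A) ht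
  obtain ⟨γ, hγ⟩ := spread hZ hc hz hc'
  have k := ((hc'.actC γ).2.2.2.2.2 0 (mem_ball_self hr)).2
  simp only [zero_pow hE.ne', add_zero] at k
  refine h3 _ ⟨_, (k i).1⟩ ⟨_, (k j).1⟩ ((jc_coe _).symm.trans (k i).2)
    ((jc_coe _).symm.trans (k j).2) (sub_eq_zero.1 (hγ 0 (mem_ball_self hr) ()))

theorem special_of_cm (i : Fin n) {c : ℂ} {N : ℕ} (hN : ¬ IsSquare N) (h : Iso N c c) :
    ∃ T, IsSpecial T ∧ T ≠ Set.univ ∧ ∀ x : Fin n → ℂ, x i = c → x ∈ T := by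
  obtain ⟨τ, -, rfl⟩ := j_surj c
  refine ⟨_, ⟨n, fun l ↦ if l = i then none else some l, fun _ ↦ 1, fun _ ↦ τ, fun _ ↦ by simp,
    fun _ ↦ isCM_of_end hN h, rfl⟩, fun k ↦ ?_, fun x hx ↦ ?_⟩
  · obtain ⟨z, hz⟩ := (Set.eq_univ_iff_forall.1 k) fun _ ↦ jInv τ + 1
    simpa using (hz i).1 (by simp)
  · choose z _ hz using fun l ↦ j_surj (x l)
    refine ⟨z, fun l ↦ ?_⟩
    by_cases e : l = i
    · simp [e, hx]
    · simp [e, hz]

end SPEC

end Pool.Agent.Lib.ZP3
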