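import Pool.Agent.Lib.ZP3.Tiny0
import Pool.Agent.Lib.ZP3.An

/-! Block TINY: special points of a pair of functions in a very small disc. -/

open Filter Topology Metric
open scoped Real

namespace Pool.Agent.Lib.ZP3

namespace Tiny

lemma lip {f : ℂ → ℂ} {M : ℝ} (hf : AnalyticOnNhd ℂ f (closedBall 0 10))
    (hM : ∀ s, ‖s‖ ≤ 10 → ‖f s‖ ≤ M) {s t : ℂ} (hs : ‖s‖ ≤ 1) (ht : ‖t‖ ≤ 1) :
    ‖f s - f t‖ ≤ M * ‖s - t‖ := by
  have hsub : ∀ x : ℂ, ‖x‖ ≤ 1 → closedBall x 1 ⊆ closedBall (0 : ℂ) 10 := fun x hx =>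
    closedBall_subset_closedBall' (by rw [dist_zero_right]; linarith)
  refine (convex_closedBall (0 : ℂ) 1).norm_image_sub_le_of_norm_deriv_le (𝕜 := ℂ)
    (fun x hx => (hf x (hsub x (mem_closedBall_zero_iff.1 hx)
      (mem_closedBall_self zero_le_one))).differentiableAt) (fun x hx => ?_)
    (mem_closedBall_zero_iff.2 ht) (mem_closedBall_zero_iff.2 hs)
  have hx' := hsub x (mem_closedBall_zero_iff.1 hx)
  have h1 : DiffContOnCl ℂ f (ball x 1) := by
    refine DifferentiableOn.diffContOnCl ?_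
    rw [closure_ball x one_ne_zero]
    exact (hf.mono hx').differentiableOn
  simpa using Complex.norm_deriv_le_of_forall_mem_sphere_norm_le one_pos h1
    fun w hw => hM w (mem_closedBall_zero_iff.1 (hx' (sphere_subset_closedBall hw)))

/-- the bilinear relation attached to a matrix -/
noncomputable def rel {κ : Type} (i j : κ) (g : ℤ × ℤ × ℤ × ℤ) : MvPolynomial κ ℤ :=
  MvPolynomial.X j * (MvPolynomial.C g.2.2.1 * MvPolynomial.X i + MvPolynomial.C g.2.2.2) -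
    (MvPolynomial.C g.1 * MvPolynomial.X i + MvPolynomial.C g.2.1)

lemma rel_deg {κ : Type} (i j : κ) (g : ℤ × ℤ × ℤ × ℤ) : (rel i j g).totalDegree ≤ 2 := by
  have h : ∀ x y : ℤ, (MvPolynomial.C x * MvPolynomial.X i + MvPolynomial.C y :
      MvPolynomial κ ℤ).totalDegree ≤ 1 := fun x y =>
    (MvPolynomial.totalDegree_add _ _).trans (max_le
      ((MvPolynomial.totalDegree_mul _ _).trans
        (by rw [MvPolynomial.totalDegree_C, MvPolynomial.totalDegree_X]))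
      (by rw [MvPolynomial.totalDegree_C]; exact zero_le_one))
  refine (MvPolynomial.totalDegree_sub _ _).trans (max_le
    ((MvPolynomial.totalDegree_mul _ _).trans ?_) ((h _ _).trans one_le_two))
  have := h g.2.2.1 g.2.2.2
  rw [MvPolynomial.totalDegree_X]
  omega

lemma rel_ne {κ : Type} {i j : κ} (hij : i ≠ j) {g : ℤ × ℤ × ℤ × ℤ}
    (hg : g.1 * g.2.2.2 - g.2.1 * g.2.2.1 ≠ 0) : rel i j g ≠ 0 := by
  classical
  intro h
  have key : ∀ x y : ℤ, y * (g.2.2.1 * x + g.2.2.2) - (g.1 * x + g.2.1) = 0 := by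
    intro x y
    have := congrArg (MvPolynomial.eval fun k => if k = i then x else y) h
    simpa [rel, hij.symm] using this
  have h1 := key 0 0
  have h2 := key 1 0
  have h3 : g.2.1 = 0 := by linarith
  have h4 : g.1 = 0 := by linarith
  exact hg (by rw [h3, h4]; ring)

end Tiny

open Tiny in
/-- special points of a pair of functions in a very small disc -/
theorem tiny_disc (Cn : ℕ → ℕ) {ε : ℝ} (hε : 0 < ε) : ∃ C : ℝ, ∀ {κ : Type} (M : ℝ)
    (f : κ → ℂ → ℂ) (i j : κ) (n : ℕ) (z : ℂ) (S : Finset ℂ), i ≠ j → 2 ≤ M →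
    (∀ i, AnalyticOnNhd ℂ (f i) (closedBall 0 10)) →
    (∀ i s, ‖s‖ ≤ 10 → ‖f i s‖ ≤ M ∧ 1 ≤ M * (f i s).im) → NDeg f Cn M → 0 < n → (n : ℝ) ≤ M →
    (∀ s ∈ S, ‖s‖ ≤ 1 ∧ ‖s - z‖ ≤ (M ^ 102)⁻¹ ∧ Rel n (f i s) (f j s)) →
    (S.card : ℝ) ≤ C * M ^ ε := by
  classical
  obtain ⟨C, hC⟩ := tiny hε
  refine ⟨(Cn 2 + 1) * |C|, fun {κ} M f i j n z S hij hM hf hb hnd hn hnM hS => ?_⟩
  have hM0 : 0 < M := by linarith
  rcases S.eq_empty_or_nonempty with rfl | ⟨s0, hs0⟩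
  · simp only [Finset.card_empty, Nat.cast_zero]
    positivity
  have hex : ∀ s ∈ S, ∃ g : ℤ × ℤ × ℤ × ℤ, g.1 * g.2.2.2 - g.2.1 * g.2.2.1 = n ∧
      Mob g.1 g.2.1 g.2.2.1 g.2.2.2 (f i s) (f j s) := fun s hs => by
    obtain ⟨a, b, c, d, h1, h2⟩ := (hS s hs).2.2
    exact ⟨(a, b, c, d), h1, h2⟩
  choose! G hG1 hG2 using hex
  have hnear : ∀ k, ∀ s ∈ S, ‖f k s - f k s0‖ ≤ (M ^ 100)⁻¹ := by
    intro k s hs
    refine (lip (hf k) (fun w hw => (hb k w hw).1) (hS s hs).1 (hS s0 hs0).1).trans ?_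
    have h1 : ‖s - s0‖ ≤ (M ^ 102)⁻¹ + (M ^ 102)⁻¹ := by
      have e : s - s0 = (s - z) - (s0 - z) := by ring
      rw [e]
      exact (norm_sub_le _ _).trans (add_le_add (hS s hs).2.1 (hS s0 hs0).2.1)
    refine (mul_le_mul_of_nonneg_left h1 hM0.le).trans ?_
    have e : M * ((M ^ 102)⁻¹ + (M ^ 102)⁻¹) = (M ^ 100)⁻¹ * (2 / M) := by
      field_simp
      ring
    rw [e]
    exact mul_le_of_le_one_right (by positivity) ((div_le_one hM0).2 hM)
  have h1 := hC M n (f i s0) (f j s0) (S.image G) hM hn hnM fun g hg => by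
    obtain ⟨s, hs, rfl⟩ := Finset.mem_image.1 hg
    have h10 : ‖s‖ ≤ 10 := by linarith [(hS s hs).1]
    exact ⟨hG1 s hs, f i s, f j s, (hb i s h10).1, (hb j s h10).1, (hb i s h10).2, (hb j s h10).2,
      hnear i s hs, hnear j s hs, hG2 s hs⟩
  have h2 : S.card ≤ (Cn 2 + 1) * (S.image G).card := by
    refine Finset.card_le_mul_card_image _ _ fun g hg => ?_
    obtain ⟨s, hs, rfl⟩ := Finset.mem_image.1 hg
    refine zero_count hf hnd (rel_ne hij (g := G s) (by rw [hG1 s hs]; omega)) (rel_deg i j _) _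
      fun t ht => ?_
    obtain ⟨ht, hts⟩ := Finset.mem_filter.1 ht
    refine ⟨by linarith [(hS t ht).1], ?_⟩
    have h3 : f j t * ((G t).2.2.1 * f i t + (G t).2.2.2) = (G t).1 * f i t + (G t).2.1 :=
      hG2 t ht
    rw [← hts]
    simpa [rel, sub_eq_zero] using h3
  calc (S.card : ℝ) ≤ (Cn 2 + 1) * ((S.image G).card : ℝ) := by exact_mod_cast h2
    _ ≤ (Cn 2 + 1) * (|C| * M ^ ε) := by
      gcongr
      exact h1.trans (mul_le_mul_of_nonneg_right (le_abs_self C) (by positivity))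
    _ = (Cn 2 + 1) * |C| * M ^ ε := by ring

end Pool.Agent.Lib.ZP3
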