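import Pool.Agent.Lib.ZP3.Final
import Pool.Agent.Lib.ZP3.Height2
import Pool.Agent.Lib.ZP3.Beta
import Pool.Agent.Lib.ZP3.IsoEst2
import Pool.Agent.Lib.ZP3.Endo
import Pool.Agent.Lib.ZP3.Count2
import Pool.Agent.Lib.ZP3.Spec
import Pool.Agent.Lib.ZP3.Curve2
import Pool.Agent.Lib.ZP3.Sm1
import Pool.Agent.Lib.ZP3.Sm2
import Pool.Agent.Lib.ZP3.Ent
import Pool.Agent.Lib.ZP3.Tiny
import Pool.Agent.Lib.MP_0704bf_ag.Main

open UpperHalfPlane Filter Topology Metric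
open scoped Real

namespace Pool.Agent.Lib.ZP3

open Pool.Agent.Lib.MP_0704bf_ag Pool.Agent.Lib.helper6

namespace Fin2

variable {κ : Type} [Fintype κ] [DecidableEq κ] {A B : κ → Polynomial ℂ}

/-- a condition of minimal degree -/
def MinC (x : κ → ℂ) (s : κ ⊕ ℂ) (j : κ) (n : ℕ) : Prop :=
  (s = Sum.inl j ∧ MinEnd n (x j)) ∨ (s ≠ Sum.inl j ∧ MinIso n (sv x s) (x j))

omit [Fintype κ] [DecidableEq κ] in
lemma exists_minC {x : κ → ℂ} {s : κ ⊕ ℂ} {j : κ} {n : ℕ} (h : Cnd x s j n) :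
    ∃ m, MinC x s j m := by
  by_cases hs : s = Sum.inl j
  · subst hs
    obtain ⟨m, hm⟩ := exists_minEnd (h.2.2 rfl) h.2.1
    exact ⟨m, Or.inl ⟨rfl, hm⟩⟩
  · obtain ⟨m, hm⟩ := Fin.exists_minIso ⟨n, h.1, h.2.1⟩
    exact ⟨m, Or.inr ⟨hs, hm⟩⟩

omit [Fintype κ] [DecidableEq κ] in
lemma MinC.cnd {x : κ → ℂ} {s : κ ⊕ ℂ} {j : κ} {n : ℕ} (h : MinC x s j n) : Cnd x s j n := by
  rcases h with ⟨rfl, h⟩ | ⟨hs, h⟩
  · refine ⟨Nat.pos_of_ne_zero ?_, h.2.1, fun _ ↦ h.1⟩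
    rintro rfl
    exact h.1 IsSquare.zero
  · exact ⟨h.1, h.2.1, fun e ↦ absurd e hs⟩

lemma height_one (h : Nice A B) (hA : AlgK A) (hB : AlgK B) (hN : NoMod A B) {s : κ ⊕ ℂ} {j : κ}
    (hs : s ≠ Sum.inl j) (hc : ∀ c, s = Sum.inr c → IsAlgebraic ℚ c) :
    ∃ C k : ℕ, ∀ (t : ℂ) (a n : ℕ), NPk B t → IsAlgebraic ℚ t → Deg t a →
      MinC (xk A B t) s j n → (n : ℝ) ≤ Real.exp a → n.divisors.card ≤ a →
      (∀ (σ : ℂ →+* ℂ) (l : κ), Real.log (1 + ‖σ (xk A B t l)‖) ≤ Real.exp a) →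
      Sm t (C * a ^ k) := by
  rcases s with i | c
  · obtain ⟨C, k, H⟩ := height_pair h hA hB hN (i := i) (j := j) fun e ↦ hs (by rw [e])
    refine ⟨C, k, fun t a n h1 h2 h3 h4 h5 h6 h7 ↦ H t a n h1 h2 h3 ?_ h5 h6 h7⟩
    exact (h4.resolve_left fun e ↦ hs e.1).2
  · obtain ⟨C, k, H⟩ := height_const h hA hB (hc c rfl) j
    refine ⟨C, k, fun t a n h1 h2 h3 h4 h5 _ h7 ↦ H t a n h1 h2 h3 ?_ h5 fun σ ↦ h7 σ j⟩
    exact (h4.resolve_left fun e ↦ hs e.1).2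

lemma height_two (h : Nice A B) (hA : AlgK A) (hB : AlgK B) (hN : NoMod A B) {s1 s2 : κ ⊕ ℂ}
    {j1 j2 : κ} (hj : j1 ≠ j2) (hc : ∀ c, s1 = Sum.inr c ∨ s2 = Sum.inr c → IsAlgebraic ℚ c) :
    ∃ C k : ℕ, ∀ (t : ℂ) (a n1 n2 : ℕ), NPk B t → IsAlgebraic ℚ t → Deg t a →
      MinC (xk A B t) s1 j1 n1 → MinC (xk A B t) s2 j2 n2 → (n1 : ℝ) ≤ Real.exp a →
      (n2 : ℝ) ≤ Real.exp a → n1.divisors.card ≤ a → n2.divisors.card ≤ a →
      (∀ (σ : ℂ →+* ℂ) (l : κ), Real.log (1 + ‖σ (xk A B t l)‖) ≤ Real.exp a) →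
      Sm t (C * a ^ k) := by
  by_cases h1 : s1 = Sum.inl j1
  · by_cases h2 : s2 = Sum.inl j2
    · obtain ⟨C, k, H⟩ := height_cm h hA hB hN hj
      subst h1 h2
      exact ⟨C, k, fun t a n1 n2 g1 g2 g3 g4 g5 g6 g7 _ _ _ ↦ H t a n1 n2 g1 g2 g3
        (g4.cnd.2.2 rfl) g4.cnd.2.1 (g5.cnd.2.2 rfl) g5.cnd.2.1 g6 g7⟩
    · obtain ⟨C, k, H⟩ := height_one h hA hB hN h2 fun c e ↦ hc c (Or.inr e)
      exact ⟨C, k, fun t a n1 n2 g1 g2 g3 _ g5 _ g7 _ g9 g10 ↦ H t a n2 g1 g2 g3 g5 g7 g9 g10⟩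
  · obtain ⟨C, k, H⟩ := height_one h hA hB hN h1 fun c e ↦ hc c (Or.inl e)
    exact ⟨C, k, fun t a n1 n2 g1 g2 g3 g4 _ g6 _ g8 _ g10 ↦ H t a n1 g1 g2 g3 g4 g6 g8 g10⟩

lemma exp_cast_mono {a a' : ℕ} (h : a ≤ a') : Real.exp a ≤ Real.exp a' :=
  Real.exp_le_exp.mpr (by exact_mod_cast h)

lemma height_boot (h : Nice A B) (hA : AlgK A) (hB : AlgK B) (hN : NoMod A B) {s1 s2 : κ ⊕ ℂ}
    {j1 j2 : κ} (hj : j1 ≠ j2) (hc : ∀ c, s1 = Sum.inr c ∨ s2 = Sum.inr c → IsAlgebraic ℚ c) :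
    ∃ C k : ℕ, ∀ (t : ℂ) (a n1 n2 : ℕ), 1 ≤ a → NPk B t → IsAlgebraic ℚ t → Deg t a →
      MinC (xk A B t) s1 j1 n1 → MinC (xk A B t) s2 j2 n2 → (n1 : ℝ) ≤ Real.exp a →
      (n2 : ℝ) ≤ Real.exp a → n1.divisors.card ≤ a → n2.divisors.card ≤ a →
      Sm t (C * a ^ k) := by
  classical
  obtain ⟨C, k, H⟩ := height_two h hA hB hN hj hc
  obtain ⟨C1, H1⟩ := sm_xk hA hB
  obtain ⟨C2, H2⟩ := boot_log (C1 * C ^ 4 + 1) (k * 4)
  refine ⟨C * (C2 + 2) ^ k, (k * 4 + 1) * k, fun t a n1 n2 ha g1 g2 g3 g4 g5 g6 g7 g8 g9 ↦ ?_⟩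
  obtain ⟨a0, ha0⟩ := sm_of_alg g2
  let V : Set ℝ := Set.range fun p : (ℂ →+* ℂ) × κ ↦ Real.log (1 + ‖p.1 (xk A B t p.2)‖)
  have hV : V.Finite := by
    choose E _ hE using fun l ↦ (H1 t a0 l ha0).deg
    refine ((Finset.univ.biUnion E).finite_toSet.image fun z ↦ Real.log (1 + ‖z‖)).subset ?_
    rintro _ ⟨⟨σ, l⟩, rfl⟩
    exact ⟨_, by simpa using ⟨l, hE l σ⟩, rfl⟩
  obtain ⟨H0, ⟨⟨σ0, i0⟩, hH0⟩, hH⟩ := hV.exists_maximalFor id V ⟨_, ⟨(RingHom.id ℂ, j1), rfl⟩⟩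
  have hle : ∀ (σ : ℂ →+* ℂ) i, Real.log (1 + ‖σ (xk A B t i)‖) ≤ H0 := by
    intro σ i
    by_contra hlt
    push Not at hlt
    exact absurd (hH ⟨(σ, i), rfl⟩ hlt.le) (not_le.mpr hlt)
  have hH1 : 0 ≤ H0 := by
    rw [← hH0]
    exact Real.log_nonneg (by linarith [norm_nonneg (σ0 (xk A B t i0))])
  set a' := a + ⌈Real.log (1 + H0)⌉₊ with ha'
  have hlog : 0 ≤ Real.log (1 + H0) := Real.log_nonneg (by linarith)
  have h1 : (a' : ℝ) ≤ a + Real.log (1 + H0) + 1 := by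
    rw [ha']
    push_cast
    linarith [Nat.ceil_lt_add_one hlog]
  have h2 : H0 ≤ Real.exp a' := by
    have : Real.log (1 + H0) ≤ a' := by
      rw [ha']
      push_cast
      linarith [Nat.le_ceil (Real.log (1 + H0)), (Nat.cast_nonneg a : (0 : ℝ) ≤ a)]
    have := Real.exp_le_exp.mpr this
    rw [Real.exp_log (by linarith)] at this
    linarith
  have haa : a ≤ a' := Nat.le_add_right _ _
  have h3 := H t a' n1 n2 g1 g2 (g3.mono haa) g4 g5 (g6.trans (exp_cast_mono haa))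
    (g7.trans (exp_cast_mono haa)) (g8.trans haa) (g9.trans haa) fun σ l ↦ (hle σ l).trans h2
  have h4 := ((H1 t _ i0 h3).conj σ0).norm_le
  have ha1 : (1 : ℝ) ≤ a' := by exact_mod_cast ha.trans haa
  have h5 : H0 ≤ (C1 * C ^ 4 + 1 : ℕ) * (a' : ℝ) ^ (k * 4) := by
    simp only at hH0
    rw [← hH0, Real.log_le_iff_le_exp (by positivity)]
    have e1 : (1 : ℝ) ≤ (a' : ℝ) ^ (k * 4) := one_le_pow₀ ha1
    have e2 : ((C1 * (C * a' ^ k) ^ 4 : ℕ) : ℝ) = C1 * C ^ 4 * (a' : ℝ) ^ (k * 4) := by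
      push_cast
      rw [mul_pow, ← pow_mul, mul_assoc]
    rw [e2] at h4
    push_cast
    rw [add_mul, one_mul, Real.exp_add]
    have e3 : (1 : ℝ) ≤ Real.exp (C1 * C ^ 4 * (a' : ℝ) ^ (k * 4)) :=
      Real.one_le_exp (by positivity)
    have e4 := Real.add_one_le_exp ((a' : ℝ) ^ (k * 4))
    nlinarith
  have h6 := H2 H0 a hH1 ha (h5.trans (mul_le_mul_of_nonneg_left
    (pow_le_pow_left₀ (by positivity) h1 _) (by positivity)))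
  have h7 : a' ≤ (C2 + 2) * a ^ (k * 4 + 1) := by
    have e0 : (1 : ℝ) ≤ a := by exact_mod_cast ha
    have e1 : Real.log (1 + H0) ≤ H0 := by
      linarith [Real.log_le_sub_one_of_pos (show 0 < 1 + H0 by linarith)]
    have e2 : (a : ℝ) ^ (k * 4) ≤ (a : ℝ) ^ (k * 4 + 1) := pow_le_pow_right₀ e0 (by omega)
    have e3 : (a : ℝ) ≤ (a : ℝ) ^ (k * 4 + 1) := le_self_pow₀ e0 (by omega)
    have e4 : (C2 : ℝ) * (a : ℝ) ^ (k * 4) ≤ C2 * (a : ℝ) ^ (k * 4 + 1) := by gcongr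
    have : (a' : ℝ) ≤ (C2 + 2) * (a : ℝ) ^ (k * 4 + 1) := by linarith
    exact_mod_cast this
  refine h3.mono ?_
  calc C * a' ^ k ≤ C * ((C2 + 2) * a ^ (k * 4 + 1)) ^ k := by gcongr
    _ = _ := by rw [mul_pow, ← pow_mul, mul_assoc]

lemma degree_le (hA : AlgK A) (hB : AlgK B) (s : κ ⊕ ℂ) (j : κ)
    (hc : ∀ c, s = Sum.inr c → IsAlgebraic ℚ c) : ∃ C k : ℕ, ∀ (t : ℂ) (a n : ℕ), Sm t a →
      MinC (xk A B t) s j n → (n : ℝ) ≤ Real.exp a → n ≤ C * a ^ k := by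
  obtain ⟨C1, H1⟩ := sm_xk hA hB
  obtain ⟨C2, k2, H2⟩ := isogeny_estimate2
  obtain ⟨C3, k3, H3⟩ := endo_estimate
  obtain ⟨C4, H4⟩ : ∃ C4 : ℕ, ∀ (t : ℂ) (a : ℕ), Sm t a → Sm (sv (xk A B t) s) (C4 * a ^ 4) := by
    rcases s with i | c
    · exact ⟨C1, fun t a h ↦ H1 t a i h⟩
    · obtain ⟨a0, h0⟩ := sm_of_alg (hc c rfl)
      exact ⟨a0, fun t a h ↦ h0.mono (Nat.le_mul_of_pos_right _ (pow_pos h.one_le 4))⟩
  set c := C1 + C4 + 1 with hc'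
  refine ⟨(C2 + C3) * c ^ (k2 + k3), 4 * (k2 + k3), fun t a n h1 h2 h3 ↦ ?_⟩
  have ha := h1.one_le
  have e0 : a ≤ c * a ^ 4 :=
    (Nat.le_self_pow (by norm_num) a).trans (Nat.le_mul_of_pos_left _ (by omega))
  have e1 : Sm (xk A B t j) (c * a ^ 4) :=
    (H1 t a j h1).mono (Nat.mul_le_mul_right _ (by omega))
  have e2 : Sm (sv (xk A B t) s) (c * a ^ 4) :=
    (H4 t a h1).mono (Nat.mul_le_mul_right _ (by omega))
  have e3 := h3.trans (exp_cast_mono e0)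
  have e4 : 0 < c * a ^ 4 := lt_of_lt_of_le ha e0
  have e5 : (C2 + C3) * c ^ (k2 + k3) * a ^ (4 * (k2 + k3)) =
      (C2 + C3) * (c * a ^ 4) ^ (k2 + k3) := by rw [mul_pow, ← pow_mul, mul_assoc]
  rw [e5]
  rcases h2 with ⟨-, h2⟩ | ⟨-, h2⟩
  · exact (H3 _ n _ e1 h2 e3).trans
      (Nat.mul_le_mul (by omega) (Nat.pow_le_pow_right e4 (by omega)))
  · exact (H2 _ _ n _ e2 e1 h2 e3).trans
      (Nat.mul_le_mul (by omega) (Nat.pow_le_pow_right e4 (by omega)))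

omit [Fintype κ] [DecidableEq κ] in
lemma src_finite {s : κ ⊕ ℂ} (hc : ∀ c, s = Sum.inr c → IsAlgebraic ℚ c) :
    (Set.range fun σ : ℂ →+* ℂ ↦ s.map id σ).Finite := by
  rcases s with i | c
  · exact (Set.finite_singleton (Sum.inl i)).subset (by rintro _ ⟨σ, rfl⟩; rfl)
  · obtain ⟨D, -, E, -, hE⟩ := deg_of_alg (hc c rfl)
    exact (E.finite_toSet.image Sum.inr).subset (by rintro _ ⟨σ, rfl⟩; exact ⟨_, hE σ, rfl⟩)

omit [Fintype κ] [DecidableEq κ] in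
lemma two_conj {s1 s2 : κ ⊕ ℂ} {j1 j2 : κ} (h : Two s1 j1 s2 j2) (σ : ℂ →+* ℂ) :
    Two (s1.map id σ) j1 (s2.map id σ) j2 := by
  refine ⟨h.1, fun e ↦ h.2.1 ?_, fun e ↦ h.2.2 ?_⟩
  · rcases s1 with i | c <;> simp_all
  · rcases s2 with i | c <;> simp_all

/-- the number of conjugates of a special point is small -/
lemma deg_le (h : Nice A B) (hA : AlgK A) (hB : AlgK B) (hN : NoMod A B) {s1 s2 : κ ⊕ ℂ}
    {j1 j2 : κ} (h2 : Two s1 j1 s2 j2)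
    (hc : ∀ c, s1 = Sum.inr c ∨ s2 = Sum.inr c → IsAlgebraic ℚ c) {ε : ℝ} (hε : 0 < ε) :
    ∃ C : ℝ, ∀ (t : ℂ) (M : ℝ) (n1 n2 : ℕ), 2 ≤ M → (n1 : ℝ) ≤ M → (n2 : ℝ) ≤ M → NPk B t →
      IsAlgebraic ℚ t → Cnd (xk A B t) s1 j1 n1 → Cnd (xk A B t) s2 j2 n2 →
      ∃ D : ℕ, Deg t D ∧ (D : ℝ) ≤ C * M ^ ε := by
  classical
  let fam : Set (((κ → Polynomial ℂ) × (κ → Polynomial ℂ)) × (κ ⊕ ℂ) × (κ ⊕ ℂ)) :=
    Set.range fun σ : ℂ →+* ℂ ↦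
      ((fun i ↦ (A i).map σ, fun i ↦ (B i).map σ), s1.map id σ, s2.map id σ)
  have hfam : fam.Finite := by
    refine ((hA.finite.prod hB.finite).prod ((src_finite fun c e ↦ hc c (Or.inl e)).prod
      (src_finite fun c e ↦ hc c (Or.inr e)))).subset ?_
    rintro _ ⟨σ, rfl⟩
    exact ⟨⟨⟨σ, rfl⟩, ⟨σ, rfl⟩⟩, ⟨σ, rfl⟩, ⟨σ, rfl⟩⟩
  obtain ⟨C, -, hC⟩ := Fin.unif hfam (P := fun q C _ ↦ ∀ (M : ℝ) (n1 n2 : ℕ)
      (S : Finset ℂ), 2 ≤ M → (n1 : ℝ) ≤ M → (n2 : ℝ) ≤ M →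
      (∀ t ∈ S, NPk q.1.2 t ∧ Cnd (xk q.1.1 q.1.2 t) q.2.1 j1 n1 ∧
        Cnd (xk q.1.1 q.1.2 t) q.2.2 j2 n2) → (S.card : ℝ) ≤ C * M ^ ε)
    (fun q C k C' k' h1 _ H M n1 n2 S g1 g2 g3 g4 ↦
      (H M n1 n2 S g1 g2 g3 g4).trans (mul_le_mul_of_nonneg_right (by exact_mod_cast h1)
        (by positivity)))
    (by
      rintro _ ⟨σ, rfl⟩
      obtain ⟨C, hC⟩ := count2 (h.conj σ) (hN.conj σ) (two_conj h2 σ) hε
      exact ⟨⌈C⌉₊, 0, fun M n1 n2 S g1 g2 g3 g4 ↦ (hC M n1 n2 S g1 g2 g3 g4).trans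
        (mul_le_mul_of_nonneg_right (Nat.le_ceil C) (by positivity))⟩)
  set F := hfam.toFinset with hF
  refine ⟨F.card * C, fun t M n1 n2 hM h1 h1' hNP ht i1 i2 ↦ ?_⟩
  obtain ⟨D0, -, E, -, hE⟩ := deg_of_alg ht
  let S : (((κ → Polynomial ℂ) × (κ → Polynomial ℂ)) × (κ ⊕ ℂ) × (κ ⊕ ℂ)) → Finset ℂ :=
    fun q ↦ E.filter fun t ↦ NPk q.1.2 t ∧ Cnd (xk q.1.1 q.1.2 t) q.2.1 j1 n1 ∧
      Cnd (xk q.1.1 q.1.2 t) q.2.2 j2 n2
  have hmem : ∀ σ : ℂ →+* ℂ, σ t ∈ F.biUnion S := by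
    intro σ
    rw [Finset.mem_biUnion]
    refine ⟨((fun i ↦ (A i).map σ, fun i ↦ (B i).map σ), s1.map id σ, s2.map id σ), by
      rw [hF, Set.Finite.mem_toFinset]; exact ⟨σ, rfl⟩, ?_⟩
    rw [Finset.mem_filter]
    have e : xk (fun i ↦ (A i).map σ) (fun i ↦ (B i).map σ) (σ t) = fun i ↦ σ (xk A B t i) :=
      funext fun i ↦ xk_conj σ t i
    refine ⟨hE σ, hNP.conj σ, ?_, ?_⟩
    · simp only [e]
      exact i1.conj σ
    · simp only [e]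
      exact i2.conj σ
  refine ⟨(F.biUnion S).card, ⟨_, le_rfl, hmem⟩, ?_⟩
  calc ((F.biUnion S).card : ℝ) ≤ ∑ q ∈ F, ((S q).card : ℝ) := by
        exact_mod_cast Finset.card_biUnion_le
    _ ≤ ∑ q ∈ F, C * M ^ ε := Finset.sum_le_sum fun q hq ↦
        hC q (by rwa [hF, Set.Finite.mem_toFinset] at hq) M n1 n2 _ hM h1 h1'
          fun s hs ↦ (Finset.mem_filter.mp hs).2
    _ = F.card * C * M ^ ε := by rw [Finset.sum_const, nsmul_eq_mul, mul_assoc]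

end Fin2

open Fin2 in
theorem finite_two {κ : Type} [Fintype κ] [DecidableEq κ] {A B : κ → Polynomial ℂ} (h : Nice A B)
    (hA : AlgK A) (hB : AlgK B) (hN : NoMod A B) {s1 s2 : κ ⊕ ℂ} {j1 j2 : κ}
    (h2 : Two s1 j1 s2 j2) (hs : ∀ c, s1 = Sum.inr c ∨ s2 = Sum.inr c → IsAlgebraic ℚ c) :
    {t | NPk B t ∧ ∃ n1 n2, Cnd (xk A B t) s1 j1 n1 ∧ Cnd (xk A B t) s2 j2 n2}.Finite := by
  obtain ⟨C1, k1, H1⟩ := height_boot h hA hB hN h2.1 hs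
  obtain ⟨C2, k2, H2⟩ := degree_le hA hB s1 j1 fun c e ↦ hs c (Or.inl e)
  obtain ⟨C3, k3, H3⟩ := degree_le hA hB s2 j2 fun c e ↦ hs c (Or.inr e)
  set k : ℕ := (k1 + 1) * (k2 + k3) with hk
  set C4 : ℕ := (C2 + C3) * (C1 + 1) ^ (k2 + k3) with hC4
  have hε : (0 : ℝ) < 1 / (2 * k + 2) := by positivity
  obtain ⟨C5, H5⟩ := deg_le h hA hB hN h2 hs hε
  obtain ⟨C6, H6⟩ := divisor_bound hε
  set C7 : ℝ := |C5| + 2 * |C6| + (2 * k + 2) + 1 with hC7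
  set K : ℝ := C4 * C7 ^ k with hK
  obtain ⟨N0, hN0⟩ := exists_nat_ge (4 * (K + 1) ^ 2)
  refine ((Set.finite_Icc 0 N0).biUnion fun n _ ↦ cnd_finite h hN s1 j1 n).subset ?_
  rintro t ⟨hNP, m1, m2, c1, c2⟩
  have ht := cnd_algebraic h hN hA hB (fun c e ↦ hs c (Or.inl e)) hNP c1
  obtain ⟨n1, g1⟩ := exists_minC c1
  obtain ⟨n2, g2⟩ := exists_minC c2
  set M : ℝ := n1 + n2 with hM
  have p1 : (1 : ℝ) ≤ n1 := by exact_mod_cast g1.cnd.1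
  have p2 : (1 : ℝ) ≤ n2 := by exact_mod_cast g2.cnd.1
  have hM0 : 0 < M := by linarith
  have hM1 : 1 ≤ M := by linarith
  obtain ⟨D, hD, hDM⟩ := H5 t M n1 n2 (by linarith) (by linarith) (by linarith) hNP ht g1.cnd
    g2.cnd
  set a : ℕ := D + n1.divisors.card + n2.divisors.card + ⌈Real.log M⌉₊ with ha
  have hlog : 0 ≤ Real.log M := Real.log_nonneg hM1
  have hMa : M ≤ Real.exp a := by
    have : Real.log M ≤ a := by
      rw [ha]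
      push_cast
      have := Nat.le_ceil (Real.log M)
      have : (0 : ℝ) ≤ (D : ℝ) + n1.divisors.card + n2.divisors.card := by positivity
      linarith
    have := Real.exp_le_exp.mpr this
    rwa [Real.exp_log hM0] at this
  have ha1 : 1 ≤ a := by
    have : 0 < n1.divisors.card := Finset.card_pos.mpr ⟨1, Nat.one_mem_divisors.mpr g1.cnd.1.ne'⟩
    omega
  have hX : (1 : ℝ) ≤ M ^ (1 / (2 * k + 2) : ℝ) := Real.one_le_rpow hM1 hε.le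
  have haM : (a : ℝ) ≤ C7 * M ^ (1 / (2 * k + 2) : ℝ) := by
    have e : ∀ n : ℕ, (n : ℝ) ≤ M → (n.divisors.card : ℝ) ≤ |C6| * M ^ (1 / (2 * k + 2) : ℝ) :=
      fun n hn ↦ (H6 n).trans ((mul_le_mul_of_nonneg_right (le_abs_self _) (by positivity)).trans
        (mul_le_mul_of_nonneg_left (Real.rpow_le_rpow (by positivity) hn hε.le) (abs_nonneg _)))
    have e1 := e n1 (by linarith)
    have e2 := e n2 (by linarith)
    have e3 := hDM.trans (mul_le_mul_of_nonneg_right (le_abs_self C5) (by positivity))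
    have e4 := Real.log_le_rpow_div hM0.le hε
    rw [div_div_eq_mul_div, div_one] at e4
    have e5 := Nat.ceil_lt_add_one hlog
    rw [ha, hC7]
    push_cast
    nlinarith
  have hsm := (H1 t a n1 n2 ha1 hNP ht (hD.mono (by omega)) g1 g2 (by linarith) (by linarith)
    (by omega) (by omega)).mono (show C1 * a ^ k1 ≤ (C1 + 1) * a ^ (k1 + 1) from
      Nat.mul_le_mul (by omega) (Nat.pow_le_pow_right ha1 (by omega)))
  have e0 : a ≤ (C1 + 1) * a ^ (k1 + 1) :=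
    (Nat.le_self_pow (by omega) a).trans (Nat.le_mul_of_pos_left _ (by omega))
  have e1 : 0 < (C1 + 1) * a ^ (k1 + 1) := lt_of_lt_of_le ha1 e0
  have e2 : C4 * a ^ k = (C2 + C3) * ((C1 + 1) * a ^ (k1 + 1)) ^ (k2 + k3) := by
    rw [hC4, hk, mul_pow, ← pow_mul, mul_assoc]
  have q1 : n1 ≤ C4 * a ^ k := by
    rw [e2]
    exact (H2 t _ n1 hsm g1 (le_trans (by linarith) (hMa.trans (exp_cast_mono e0)))).trans
      (Nat.mul_le_mul (by omega) (Nat.pow_le_pow_right e1 (by omega)))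
  have q2 : n2 ≤ C4 * a ^ k := by
    rw [e2]
    exact (H3 t _ n2 hsm g2 (le_trans (by linarith) (hMa.trans (exp_cast_mono e0)))).trans
      (Nat.mul_le_mul (by omega) (Nat.pow_le_pow_right e1 (by omega)))
  have hC70 : 0 ≤ C7 := by positivity
  have h4 : (a : ℝ) ^ k ≤ C7 ^ k * √M := by
    calc (a : ℝ) ^ k ≤ (C7 * M ^ (1 / (2 * k + 2) : ℝ)) ^ k :=
          pow_le_pow_left₀ (by positivity) haM k
      _ = C7 ^ k * M ^ ((1 / (2 * k + 2) : ℝ) * k) := by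
          rw [mul_pow, Real.rpow_mul hM0.le, Real.rpow_natCast]
      _ ≤ C7 ^ k * √M := by
          rw [Real.sqrt_eq_rpow]
          refine mul_le_mul_of_nonneg_left (Real.rpow_le_rpow_of_exponent_le hM1 ?_)
            (by positivity)
          rw [div_mul_eq_mul_div, div_le_div_iff₀ (by positivity) (by positivity)]
          nlinarith [(Nat.cast_nonneg k : (0 : ℝ) ≤ k)]
  have h5 : M ≤ 2 * (K * √M) := by
    have e : K * √M = C4 * (C7 ^ k * √M) := by rw [hK]; ring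
    have r1 : (n1 : ℝ) ≤ C4 * (a : ℝ) ^ k := by exact_mod_cast q1
    have r2 : (n2 : ℝ) ≤ C4 * (a : ℝ) ^ k := by exact_mod_cast q2
    have r3 := mul_le_mul_of_nonneg_left h4 (Nat.cast_nonneg (α := ℝ) C4)
    rw [e]
    linarith
  have hsq : √M * √M = M := Real.mul_self_sqrt hM0.le
  have hs0 : 0 < √M := Real.sqrt_pos.mpr hM0
  have h6 : √M ≤ 2 * K := by
    by_contra hlt
    push Not at hlt
    nlinarith
  have hK0 : 0 ≤ K := by positivity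
  have h7 : M ≤ N0 := by nlinarith
  simp only [Set.mem_iUnion]
  refine ⟨n1, ⟨Nat.zero_le _, ?_⟩, hNP, g1.cnd⟩
  have : (n1 : ℝ) ≤ N0 := by linarith
  exact_mod_cast this

theorem main2 (n : ℕ) (x : Fin n → RatFunc ℂ)
    (halg : ∀ i k, IsAlgebraic ℚ ((x i).num.coeff k) ∧ IsAlgebraic ℚ ((x i).denom.coeff k))
    (hgen : ∀ T, IsSpecial T → T ≠ Set.univ → ∃ t : ℂ, (∀ i, (x i).denom.eval t ≠ 0) ∧
      (fun i ↦ (x i).eval (RingHom.id ℂ) t) ∉ T) :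
    {t : ℂ | (∀ i, (x i).denom.eval t ≠ 0) ∧ ∃ T, IsSpecial T ∧ dimOf T + 2 ≤ n ∧
      (fun i ↦ (x i).eval (RingHom.id ℂ) t) ∈ T}.Finite := by
  classical
  set A : Fin n → Polynomial ℂ := fun i ↦ (x i).num with hA
  set B : Fin n → Polynomial ℂ := fun i ↦ (x i).denom with hB
  have hx : ∀ t, (fun i ↦ (x i).eval (RingHom.id ℂ) t) = xk A B t := by
    intro t
    funext i
    simp [xk, RatFunc.eval, hA, hB]
  simp only [hx] at hgen ⊢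
  let K : Set (Fin n) := {i | (A i).natDegree = 0 ∧ (B i).natDegree = 0}
  have hK : ∀ i ∈ K, ∀ t, xk A B t i = (A i).coeff 0 / (B i).coeff 0 := by
    intro i hi t
    rw [xk, Polynomial.eq_C_of_natDegree_eq_zero hi.1, Polynomial.eq_C_of_natDegree_eq_zero hi.2]
    simp
  have hiso : ∀ i j, i ≠ j → ∀ m, 0 < m → ¬ ∀ t, NPk B t → Iso m (xk A B t i) (xk A B t j) := by
    intro i j hij m hm H
    obtain ⟨T, h1, h2, h3⟩ := special_of_iso hij hm H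
    obtain ⟨t, h4, h5⟩ := hgen T h1 h2
    exact h5 (h3 t h4)
  let κ := {i : Fin n // i ∉ K}
  obtain ⟨t0, A', B', -, hnice, halg', hmod, -, hval⟩ := normalize2 (κ := κ) (fun i ↦ A i.1)
    (fun i ↦ B i.1) (fun i ↦ RatFunc.isCoprime_num_denom (x i.1)) (fun i ↦ by
      have := i.2
      simp only [K, Set.mem_setOf_eq] at this
      omega) (fun i ↦ RatFunc.denom_ne_zero (x i.1))
  obtain ⟨hA', hB'⟩ := halg' (fun i k ↦ (halg i.1 k).1) (fun i k ↦ (halg i.1 k).2)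
  have hN' := hmod fun i j hij m hm ↦ by
    by_contra hcon
    push Not at hcon
    exact hiso i.1 j.1 (fun e ↦ hij (Subtype.ext e)) m hm fun t ht ↦ hcon t fun l ↦ ht l.1
  let src : Fin n → κ ⊕ ℂ := fun i ↦
    if h : i ∈ K then Sum.inr ((A i).coeff 0 / (B i).coeff 0) else Sum.inl ⟨i, h⟩
  have hsrc : ∀ i (j : κ), src i = Sum.inl j → i = j.1 := by
    intro i j e
    by_cases h : i ∈ K
    · simp [src, h] at e
    · simp only [src, h, dite_false, Sum.inl.injEq] at e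
      rw [← e]
  have hsalg : ∀ i c, src i = Sum.inr c → IsAlgebraic ℚ c := by
    intro i c e
    by_cases h : i ∈ K
    · simp only [src, h, dite_true, Sum.inr.injEq] at e
      rw [← e, div_eq_mul_inv]
      exact (halg i 0).1.mul (halg i 0).2.inv
    · simp [src, h] at e
  let F : Fin n × κ × Fin n × κ → Set ℂ := fun q ↦ {s | Two (src q.1) q.2.1 (src q.2.2.1) q.2.2.2 ∧
    NPk B' s ∧ ∃ n1 n2, Cnd (xk A' B' s) (src q.1) q.2.1 n1 ∧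
      Cnd (xk A' B' s) (src q.2.2.1) q.2.2.2 n2}
  have hF : ∀ q, (F q).Finite := by
    intro q
    by_cases h : Two (src q.1) q.2.1 (src q.2.2.1) q.2.2.2
    · exact (finite_two hnice hA' hB' hN' h fun c e ↦ e.elim (hsalg _ c) (hsalg _ c)).subset
        fun s hs ↦ hs.2
    · exact Set.finite_empty.subset fun s hs ↦ h hs.1
  refine (((Set.finite_iUnion hF).image fun s ↦ t0 + s⁻¹).insert t0).subset ?_
  rintro t ⟨hNP, T, hT, hd, hxT⟩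
  by_cases ht : t = t0
  · exact Or.inl ht
  right
  obtain ⟨h1, h2⟩ := hval t ht
  obtain ⟨i1, j1, i2, j2, n1, n2, k1, k2, htwo, c1, c2⟩ := special_two hT hd hxT K
    (fun i hi m hm H ↦ by
      obtain ⟨T', g1, g2, g3⟩ := special_of_cm i hm H
      obtain ⟨t', -, g5⟩ := hgen T' g1 g2
      exact g5 (g3 _ (by rw [hK i hi, hK i hi])))
    (fun i hi j hj hij m hm H ↦ hiso i j hij m hm fun t' _ ↦ by
      rwa [hK i hi, hK j hj, ← hK i hi t, ← hK j hj t])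
  have hsv : ∀ i, sv (xk A' B' (t - t0)⁻¹) (src i) = xk A B t i := by
    intro i
    by_cases h : i ∈ K
    · simp only [src, h, dite_true, sv, Sum.elim_inr, id, hK i h]
    · simp only [src, h, dite_false, sv, Sum.elim_inl]
      exact h2 ⟨i, h⟩
  have hc : ∀ i j m (hj : j ∉ K), Cnd (xk A B t) (Sum.inl i) j m →
      Cnd (xk A' B' (t - t0)⁻¹) (src i) ⟨j, hj⟩ m := by
    intro i j m hj c
    refine ⟨c.1, ?_, fun e ↦ c.2.2 (by rw [hsrc i _ e])⟩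
    rw [hsv, h2 ⟨j, hj⟩]
    exact c.2.1
  refine ⟨(t - t0)⁻¹, Set.mem_iUnion.mpr ⟨(i1, ⟨j1, k1⟩, i2, ⟨j2, k2⟩),
    ⟨fun e ↦ htwo.1 (congrArg Subtype.val e), fun e ↦ htwo.2.1 (congrArg Sum.inl (hsrc _ _ e)),
      fun e ↦ htwo.2.2 (congrArg Sum.inl (hsrc _ _ e))⟩, h1.mp fun l ↦ hNP l.1, n1, n2, hc _ _ _ k1 c1,
    hc _ _ _ k2 c2⟩, by simp⟩

end Pool.Agent.Lib.ZP3
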