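import Pool.Agent.Lib.ZP3.Defs2

/-! Block AXD, first part: cones over sets of points, linear vector fields. -/

open MvPolynomial
open scoped MatrixGroups

namespace Pool.Agent.Lib.ZP3

namespace AXD

variable {κ : Type}

/-- the linear forms attached to a family of matrices -/
noncomputable def lf (M : κ → M2) (v : κ × Fin 2) : MvPolynomial (κ × Fin 2) ℂ :=
  ∑ b, C (M v.1 v.2 b) * X (v.1, b)

/-- action of a family of matrices on points -/
noncomputable def ap (M : κ → M2) (p : κ × Fin 2 → ℂ) (v : κ × Fin 2) : ℂ :=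
  ∑ b, M v.1 v.2 b * p (v.1, b)

/-- the linear vector field of a family of matrices -/
noncomputable def dv (M : κ → M2) :
    Derivation ℂ (MvPolynomial (κ × Fin 2) ℂ) (MvPolynomial (κ × Fin 2) ℂ) :=
  mkDerivation ℂ (lf M)

lemma subst_X (M : κ → M2) (v : κ × Fin 2) : subst M (X v) = lf M v := by
  simp [subst, lf]

lemma subst_C (M : κ → M2) (a : ℂ) : subst M (C a) = C a := by
  simp [subst]

lemma dv_X (M : κ → M2) (v : κ × Fin 2) : dv M (X v) = lf M v := mkDerivation_X _ _ _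

lemma dv_C (M : κ → M2) (a : ℂ) : dv M (C a) = 0 := derivation_C _ _

lemma dv_mul (M : κ → M2) (a b : MvPolynomial (κ × Fin 2) ℂ) :
    dv M (a * b) = a * dv M b + b * dv M a := by
  rw [Derivation.leibniz]; rfl

lemma eval_lf (M : κ → M2) (p : κ × Fin 2 → ℂ) (v : κ × Fin 2) : eval p (lf M v) = ap M p v := by
  simp [lf, ap]

lemma eval_subst (M : κ → M2) (p : κ × Fin 2 → ℂ) (c : MvPolynomial (κ × Fin 2) ℂ) :
    eval p (subst M c) = eval (ap M p) c := by
  induction c using MvPolynomial.induction_on with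
  | C a => simp
  | add a b ha hb => simp [ha, hb]
  | mul_X a v ha => simp [ha, subst_X, eval_lf]

lemma ap_mul (M N : κ → M2) (p : κ × Fin 2 → ℂ) : ap (M * N) p = ap M (ap N p) := by
  funext v
  simp [ap, Matrix.mul_apply, Fin.sum_univ_two]
  ring

lemma ap_lin (M : κ → M2) (z : ℂ) (p : κ × Fin 2 → ℂ) :
    ap (1 + z • M) p = fun v ↦ p v + ap M p v * z := by
  funext ⟨i, a⟩
  fin_cases a <;> simp [ap, Fin.sum_univ_two] <;> ring

lemma subst_lf (M N : κ → M2) (v : κ × Fin 2) : subst M (lf N v) = lf (N * M) v := by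
  simp only [lf, Fin.sum_univ_two, map_add, map_mul, subst_C, subst_X, Pi.mul_apply,
    Matrix.mul_apply]
  ring

lemma dv_lf (M N : κ → M2) (v : κ × Fin 2) : dv M (lf N v) = lf (N * M) v := by
  simp only [lf, Fin.sum_univ_two, map_add, map_mul, dv_mul, dv_C, dv_X, Pi.mul_apply,
    Matrix.mul_apply]
  ring

lemma dv_add (M N : κ → M2) : dv (M + N) = dv M + dv N := by
  refine derivation_ext fun v ↦ ?_
  simp only [Derivation.add_apply, dv_X, lf, Fin.sum_univ_two, Pi.add_apply, Matrix.add_apply,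
    map_add]
  ring

lemma dv_smul (a : ℂ) (M : κ → M2) : dv (a • M) = a • dv M := by
  refine derivation_ext fun v ↦ ?_
  simp only [Derivation.smul_apply, dv_X, lf, Fin.sum_univ_two, Pi.smul_apply, Matrix.smul_apply,
    smul_eq_mul, map_mul, smul_eq_C_mul]
  ring

lemma dv_zero : dv (0 : κ → M2) = 0 := by
  refine derivation_ext fun v ↦ ?_
  simp [dv_X, lf]

lemma dv_br (M N : κ → M2) : dv (M * N - N * M) = ⁅dv N, dv M⁆ := by
  refine derivation_ext fun v ↦ ?_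
  rw [Derivation.commutator_apply, dv_X, dv_X, dv_X, dv_lf, dv_lf]
  simp only [lf, Fin.sum_univ_two, Pi.sub_apply, Matrix.sub_apply, map_sub]
  ring

lemma subst_dv {M A B : κ → M2} (h : A * M = M * B) (c : MvPolynomial (κ × Fin 2) ℂ) :
    subst M (dv A c) = dv B (subst M c) := by
  induction c using MvPolynomial.induction_on with
  | C a => simp
  | add a b ha hb => simp [ha, hb]
  | mul_X a v ha =>
    simp only [dv_mul, map_add, map_mul, ha, subst_X, dv_X, subst_lf, dv_lf, h]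

/-- restriction of a polynomial to a line -/
noncomputable def ln (p q : κ × Fin 2 → ℂ) : MvPolynomial (κ × Fin 2) ℂ →ₐ[ℂ] Polynomial ℂ :=
  aeval fun v ↦ Polynomial.C (p v) + Polynomial.C (q v) * Polynomial.X

lemma ln_X (p q : κ × Fin 2 → ℂ) (v : κ × Fin 2) :
    ln p q (X v) = Polynomial.C (p v) + Polynomial.C (q v) * Polynomial.X := by
  simp [ln]

lemma ln_C (p q : κ × Fin 2 → ℂ) (a : ℂ) : ln p q (C a) = Polynomial.C a := by
  simp [ln]

lemma eval_ln (p q : κ × Fin 2 → ℂ) (z : ℂ) (c : MvPolynomial (κ × Fin 2) ℂ) :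
    (ln p q c).eval z = eval (fun v ↦ p v + q v * z) c := by
  induction c using MvPolynomial.induction_on with
  | C a => simp
  | add a b ha hb => simp [ha, hb]
  | mul_X a v ha => simp [ha, ln_X]

lemma ln_lf (M : κ → M2) (p q : κ × Fin 2 → ℂ) (v : κ × Fin 2) :
    ln p q (lf M v) = Polynomial.C (ap M p v) + Polynomial.C (ap M q v) * Polynomial.X := by
  simp only [lf, ap, Fin.sum_univ_two, map_add, map_mul, ln_C, ln_X]
  ring

lemma deriv_ln {M : κ → M2} (h : M * M = 0) (p : κ × Fin 2 → ℂ)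
    (c : MvPolynomial (κ × Fin 2) ℂ) :
    Polynomial.derivative (ln p (ap M p) c) = ln p (ap M p) (dv M c) := by
  have h0 : ∀ v, ap M (ap M p) v = 0 := fun v ↦ by
    rw [← ap_mul, h]
    simp [ap]
  induction c using MvPolynomial.induction_on with
  | C a => simp
  | add a b ha hb => simp [ha, hb]
  | mul_X a v ha =>
    simp only [dv_mul, map_add, map_mul, Polynomial.derivative_mul, ha, dv_X, ln_lf, ln_X, h0,
      Polynomial.derivative_C, Polynomial.derivative_X, map_zero]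
    ring

/-- points of the cone -/
def cpt (τ l : κ → ℂ) : κ × Fin 2 → ℂ := fun v ↦ l v.1 * ![τ v.1, 1] v.2

lemma cone_iff {T : Set (κ → ℂ)} {c : MvPolynomial (κ × Fin 2) ℂ} :
    c ∈ cone T ↔ ∀ τ ∈ T, ∀ l : κ → ℂ, eval (cpt τ l) c = 0 := Iff.rfl

/-- the cone as an ideal -/
def coneI (T : Set (κ → ℂ)) : Ideal (MvPolynomial (κ × Fin 2) ℂ) where
  carrier := cone T
  add_mem' := fun {a b} ha hb τ hτ l ↦ by rw [map_add, ha τ hτ l, hb τ hτ l, add_zero]
  zero_mem' := fun τ _ l ↦ map_zero _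
  smul_mem' := fun a b hb τ hτ l ↦ by rw [smul_eq_mul, map_mul, hb τ hτ l, mul_zero]

/-- the common zeros of the polynomials of the cone -/
def Zs (T : Set (κ → ℂ)) : Set (κ × Fin 2 → ℂ) := {p | ∀ c ∈ cone T, eval p c = 0}

lemma pt_mem {T : Set (κ → ℂ)} {τ : κ → ℂ} (h : τ ∈ T) (l : κ → ℂ) : cpt τ l ∈ Zs T :=
  fun _ hc ↦ hc τ h l

lemma mem_cone {T : Set (κ → ℂ)} {c : MvPolynomial (κ × Fin 2) ℂ} :
    c ∈ cone T ↔ ∀ p ∈ Zs T, eval p c = 0 :=
  ⟨fun h _ hp ↦ hp c h, fun h _ hτ l ↦ h _ (pt_mem hτ l)⟩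

lemma ap_mem {T : Set (κ → ℂ)} {γ : κ → SL(2, ℤ)} (h : γ ∈ Stab (cone T)) {p : κ × Fin 2 → ℂ}
    (hp : p ∈ Zs T) : ap (fun i ↦ cm (γ i)) p ∈ Zs T := fun c hc ↦ by
  rw [← eval_subst]
  exact hp _ ((h c).1 hc)

/-- the Lie algebra of the cone -/
def lie (T : Set (κ → ℂ)) : Submodule ℂ (κ → M2) where
  carrier := {M | (∀ i, (M i).trace = 0) ∧ ∀ c ∈ cone T, dv M c ∈ cone T}
  add_mem' := fun {M N} hM hN ↦ ⟨fun i ↦ by simp [hM.1 i, hN.1 i], fun c hc ↦ by
    rw [dv_add]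
    exact (coneI T).add_mem (hM.2 c hc) (hN.2 c hc)⟩
  zero_mem' := ⟨fun i ↦ by simp, fun c _ ↦ by
    rw [dv_zero]
    exact (coneI T).zero_mem⟩
  smul_mem' := fun a M hM ↦ ⟨fun i ↦ by simp [hM.1 i], fun c hc ↦ by
    rw [dv_smul, Derivation.smul_apply, smul_eq_C_mul]
    exact (coneI T).mul_mem_left _ (hM.2 c hc)⟩

lemma lie_br {T : Set (κ → ℂ)} {M N : κ → M2} (hM : M ∈ lie T) (hN : N ∈ lie T) :
    M * N - N * M ∈ lie T := by
  refine ⟨fun i ↦ ?_, fun c hc ↦ ?_⟩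
  · simp [Matrix.trace_mul_comm (M i) (N i)]
  · rw [dv_br, Derivation.commutator_apply]
    exact (coneI T).sub_mem (hN.2 _ (hM.2 c hc)) (hM.2 _ (hN.2 c hc))

lemma cm_mul (γ γ' : SL(2, ℤ)) : cm (γ * γ') = cm γ * cm γ' := by
  ext a b
  simp [cm, Matrix.mul_apply]

lemma cm_one : cm 1 = 1 := by
  ext a b
  fin_cases a <;> fin_cases b <;> simp [cm]

lemma cm_mul_inv (γ : SL(2, ℤ)) : cm γ * cm γ⁻¹ = 1 := by rw [← cm_mul, mul_inv_cancel, cm_one]

lemma cm_inv_mul (γ : SL(2, ℤ)) : cm γ⁻¹ * cm γ = 1 := by rw [← cm_mul, inv_mul_cancel, cm_one]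

lemma det_cm (γ : SL(2, ℤ)) : (cm γ).det = 1 := by
  have := γ.det_coe
  rw [Matrix.det_fin_two] at this ⊢
  simp only [cm, Matrix.map_apply]
  exact_mod_cast this

lemma lie_conj {T : Set (κ → ℂ)} {γ : κ → SL(2, ℤ)} (h : γ ∈ Stab (cone T)) {M : κ → M2}
    (hM : M ∈ lie T) : (fun i ↦ cm (γ i) * M i * cm (γ i)⁻¹) ∈ lie T := by
  refine ⟨fun i ↦ ?_, fun c hc ↦ ?_⟩
  · rw [Matrix.trace_mul_cycle, cm_inv_mul, one_mul, hM.1 i]
  · refine (h _).2 ?_
    rw [subst_dv (B := M)]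
    · exact hM.2 _ ((h c).1 hc)
    · funext i
      simp only [Pi.mul_apply]
      rw [mul_assoc, cm_inv_mul, mul_one]

/-- unipotent elements of the stabiliser give elements of the Lie algebra -/
lemma lie_of_unip {T : Set (κ → ℂ)} {γ : κ → SL(2, ℤ)} (h : γ ∈ Stab (cone T)) {M : κ → M2}
    (hM : M * M = 0) (ht : ∀ i, (M i).trace = 0) (e : (fun i ↦ cm (γ i)) = 1 + M) :
    M ∈ lie T := by
  refine ⟨ht, fun c hc ↦ mem_cone.2 fun p hp ↦ ?_⟩
  have hk : ∀ k : ℕ, ap (1 + (k : ℂ) • M) p ∈ Zs T := by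
    intro k
    induction k with
    | zero =>
      rw [ap_lin]
      simpa using hp
    | succ k ih =>
      have := ap_mem h ih
      rw [← ap_mul, e] at this
      have e2 : (1 + M) * (1 + (k : ℂ) • M) = 1 + ((k + 1 : ℕ) : ℂ) • M := by
        rw [add_mul, mul_add, mul_add, mul_smul_comm _ M M, hM]
        push_cast
        rw [add_smul]
        simp
        abel
      rwa [e2] at this
  have h0 : ln p (ap M p) c = 0 := by
    refine Polynomial.eq_zero_of_infinite_isRoot _ ?_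
    refine (Set.infinite_range_of_injective (Nat.cast_injective (R := ℂ))).mono ?_
    rintro _ ⟨k, rfl⟩
    have := hk k c hc
    rw [ap_lin, ← eval_ln] at this
    exact this
  have h1 := deriv_ln hM p c
  rw [h0, Polynomial.derivative_zero] at h1
  have h2 := eval_ln p (ap M p) 0 (dv M c)
  rw [← h1] at h2
  simpa using h2.symm

/-- nilpotent elements of the Lie algebra preserve the zero set -/
lemma unip_of_lie {T : Set (κ → ℂ)} {M : κ → M2} (h : M ∈ lie T) (hM : M * M = 0)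
    {p : κ × Fin 2 → ℂ} (hp : p ∈ Zs T) : (fun v ↦ p v + ap M p v) ∈ Zs T := by
  have hn : ∀ n : ℕ, ∀ c ∈ cone T, (ln p (ap M p) c).coeff n = 0 := by
    intro n
    induction n with
    | zero =>
      intro c hc
      rw [Polynomial.coeff_zero_eq_eval_zero, eval_ln]
      simpa using hp c hc
    | succ n ih =>
      intro c hc
      have := ih _ (h.2 c hc)
      rw [← deriv_ln hM, Polynomial.coeff_derivative] at this
      exact (mul_eq_zero.1 this).resolve_right (by exact_mod_cast Nat.succ_ne_zero n)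
  intro c hc
  have h0 : ln p (ap M p) c = 0 := Polynomial.ext fun n ↦ by rw [hn n c hc]; simp
  have := eval_ln p (ap M p) 1 c
  rw [h0] at this
  simpa using this.symm

lemma full_case [Fintype κ] {T : Set (κ → ℂ)} (hT : T.Nonempty)
    (h : ∀ M : κ → M2, (∀ i, (M i).trace = 0) → M ∈ lie T) : ∀ c ∈ cone T, c = 0 := by
  obtain ⟨τ, hτ⟩ := hT
  intro c hc
  have h1 : ∀ q : κ × Fin 2 → ℂ, (∀ i, q (i, 1) ≠ 0) → eval q c = 0 := by
    intro q hq
    have := unip_of_lie (h (fun i ↦ !![0, q (i, 0) / q (i, 1) - τ i; 0, 0]) (fun i ↦ by simp))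
      (by
        funext i
        ext a b
        fin_cases a <;> fin_cases b <;> simp [Matrix.mul_apply])
      (pt_mem hτ fun i ↦ q (i, 1)) c hc
    rw [← this]
    congr 2
    funext ⟨i, a⟩
    have := hq i
    fin_cases a
    · simp [cpt, ap]
      field_simp
      ring
    · simp [cpt, ap]
  have h2 : c * ∏ i, X (i, (1 : Fin 2)) = 0 := by
    refine MvPolynomial.funext fun q ↦ ?_
    rw [map_mul, map_zero, map_prod]
    by_cases hq : ∀ i, q (i, 1) ≠ 0
    · rw [h1 q hq, zero_mul]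
    · push Not at hq
      obtain ⟨i, hi⟩ := hq
      rw [Finset.prod_eq_zero (Finset.mem_univ i) (by simpa using hi), mul_zero]
  exact (mul_eq_zero.1 h2).resolve_right (Finset.prod_ne_zero_iff.2 fun i _ ↦ X_ne_zero _)

lemma den_ne (γ : SL(2, ℤ)) {z : ℂ} (hz : 0 < z.im) : (γ 1 0 : ℂ) * z + γ 1 1 ≠ 0 := by
  intro h
  have h1 := congrArg Complex.im h
  simp only [Complex.add_im, Complex.mul_im, Complex.intCast_re, Complex.intCast_im, zero_mul,
    add_zero, Complex.zero_im, mul_eq_zero, Int.cast_eq_zero] at h1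
  have h2 : γ 1 0 = 0 := h1.resolve_right hz.ne'
  rw [h2] at h
  have h3 : γ 1 1 = 0 := by simpa using h
  have := γ.det_coe
  rw [Matrix.det_fin_two, h2, h3] at this
  simp at this

lemma ap_pt (γ : κ → SL(2, ℤ)) {τ : κ → ℂ} (hτ : ∀ i, 0 < (τ i).im) (l : κ → ℂ) :
    ap (fun i ↦ cm (γ i)) (cpt τ l) =
      cpt (fun i ↦ mb (γ i) (τ i)) fun i ↦ l i * ((γ i 1 0 : ℂ) * τ i + γ i 1 1) := by
  funext ⟨i, a⟩
  have := den_ne (γ i) (hτ i)
  fin_cases a
  · simp [ap, cpt, cm, mb]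
    rw [mul_assoc, mul_div_cancel₀ _ this]
    ring
  · simp [ap, cpt, cm]
    ring

end AXD

open AXD

variable {κ : Type} [Fintype κ] [DecidableEq κ]

omit [Fintype κ] [DecidableEq κ] in
theorem cone_act {T : Set (κ → ℂ)} (hT : ∀ τ ∈ T, ∀ i, 0 < (τ i).im) (γ : κ → SL(2, ℤ))
    (c : MvPolynomial (κ × Fin 2) ℂ) :
    c ∈ cone ((fun τ i ↦ mb (γ i) (τ i)) '' T) ↔ subst (fun i ↦ cm (γ i)) c ∈ cone T := by
  constructor
  · intro h
    refine cone_iff.2 fun τ hτ l ↦ ?_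
    rw [eval_subst, ap_pt γ (hT τ hτ)]
    exact cone_iff.1 h _ (Set.mem_image_of_mem _ hτ) _
  · intro h
    refine cone_iff.2 ?_
    rintro _ ⟨τ, hτ, rfl⟩ l
    have := cone_iff.1 h τ hτ fun i ↦ l i / ((γ i 1 0 : ℂ) * τ i + γ i 1 1)
    rw [eval_subst, ap_pt γ (hT τ hτ)] at this
    simp only [div_mul_cancel₀ _ (den_ne _ (hT τ hτ _))] at this
    exact this

omit [DecidableEq κ] in
theorem cone_ne {T : Set (κ → ℂ)} {c : MvPolynomial κ ℂ} (hc : c ≠ 0)
    (h : ∀ τ ∈ T, MvPolynomial.eval τ c = 0) : ∃ c' ∈ cone T, c' ≠ 0 := by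
  have key : ∀ τ l : κ → ℂ, eval (cpt τ l) (∑ α ∈ c.support, C (c.coeff α) *
      ∏ i, X (i, (0 : Fin 2)) ^ α i * X (i, (1 : Fin 2)) ^ (c.totalDegree - α i)) =
      (∏ i, l i ^ c.totalDegree) * eval τ c := by
    intro τ l
    rw [eval_eq' τ c, Finset.mul_sum, map_sum]
    refine Finset.sum_congr rfl fun α hα ↦ ?_
    rw [map_mul, eval_C, map_prod, mul_left_comm, ← Finset.prod_mul_distrib]
    congr 1
    refine Finset.prod_congr rfl fun i _ ↦ ?_
    have hi : α i ≤ c.totalDegree := (monomial_le_degreeOf i hα).trans (degreeOf_le_totalDegree _ _)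
    obtain ⟨k, hk⟩ := Nat.exists_eq_add_of_le hi
    simp only [map_mul, map_pow, eval_X, cpt, hk, Nat.add_sub_cancel_left]
    simp
    ring
  refine ⟨_, fun τ hτ l ↦ (key τ l).trans (by rw [h τ hτ, mul_zero]), fun h0 ↦ hc ?_⟩
  refine MvPolynomial.funext fun τ ↦ ?_
  have := key τ 1
  rw [h0] at this
  simpa using this.symm

omit [DecidableEq κ] in
theorem exists_max_cone (𝒯 : Set (Set (κ → ℂ))) {T0 : Set (κ → ℂ)} (h : T0 ∈ 𝒯) :
    ∃ T ∈ 𝒯, cone T0 ⊆ cone T ∧ ∀ T' ∈ 𝒯, cone T ⊆ cone T' → cone T' = cone T := by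
  obtain ⟨_, ⟨T, ⟨hT, hT0⟩, rfl⟩, hmax⟩ := set_has_maximal_iff_noetherian.2
    (inferInstance : IsNoetherian (MvPolynomial (κ × Fin 2) ℂ) (MvPolynomial (κ × Fin 2) ℂ))
    (coneI '' {T ∈ 𝒯 | cone T0 ⊆ cone T}) ⟨_, T0, ⟨h, subset_rfl⟩, rfl⟩
  refine ⟨T, hT, hT0, fun T' hT' hs ↦ ?_⟩
  have h1 : coneI T ≤ coneI T' := hs
  have h2 : coneI T = coneI T' :=
    eq_of_le_of_not_lt h1 (hmax _ ⟨T', ⟨hT', hT0.trans hs⟩, rfl⟩)
  exact (congrArg (fun I : Ideal (MvPolynomial (κ × Fin 2) ℂ) ↦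
    (I : Set (MvPolynomial (κ × Fin 2) ℂ))) h2).symm

end Pool.Agent.Lib.ZP3
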