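import Pool.Agent.Lib.ZP3.Sm2
import Pool.Agent.Lib.ZP3.Gshl

/-! Block ARCHB, part 1: the abstract estimate near a common pole. -/

open UpperHalfPlane Filter Topology Metric
open scoped Real MatrixGroups

namespace Pool.Agent.Lib.ZP3.ARCHB

open Pool.Agent.Lib.MP_0704bf_ag Pool.Agent.Lib.helper6 HBF

variable {ι : Type} {a : ι → ℕ} {u : ι → ℂ}

/-- bounded multiple of the norm of `u` -/
def Sml (a : ι → ℕ) (u f : ι → ℂ) : Prop := ∃ G : ι → ℝ, EB a G ∧ ∀ s, ‖f s‖ ≤ G s * ‖u s‖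

theorem Sml.of_le {f : ι → ℂ} (K : ℝ) (h : ∀ s, ‖f s‖ ≤ K * ‖u s‖) : Sml a u f :=
  ⟨fun _ ↦ K, EB.const K, h⟩

theorem Sml.pow (h1 : ∀ s, ‖u s‖ ≤ 1) {n : ℕ} (hn : 0 < n) : Sml a u fun s ↦ u s ^ n :=
  Sml.of_le 1 fun s ↦ by
    rw [norm_pow, one_mul]
    exact pow_le_of_le_one (norm_nonneg _) (h1 s) hn.ne'

theorem Sml.mul (ha : ∀ s, 1 ≤ a s) {f g : ι → ℂ} (h : Sml a u f) (hg : BD a g) :
    Sml a u fun s ↦ f s * g s := by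
  obtain ⟨G, hG, h⟩ := h
  refine ⟨fun s ↦ G s * ‖g s‖, hG.mul ha hg fun _ ↦ norm_nonneg _, fun s ↦ ?_⟩
  rw [norm_mul]
  have := mul_le_mul_of_nonneg_right (h s) (norm_nonneg (g s))
  linarith

theorem Sml.add (ha : ∀ s, 1 ≤ a s) {f g : ι → ℂ} (h : Sml a u f) (h' : Sml a u g) :
    Sml a u fun s ↦ f s + g s := by
  obtain ⟨G, hG, h⟩ := h
  obtain ⟨G', hG', h'⟩ := h'
  refine ⟨fun s ↦ G s + G' s, hG.add ha hG', fun s ↦ ?_⟩
  have := norm_add_le (f s) (g s)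
  linarith [h s, h' s]

theorem Sml.sub (ha : ∀ s, 1 ≤ a s) {f g : ι → ℂ} (h : Sml a u f) (h' : Sml a u g) :
    Sml a u fun s ↦ f s - g s := by
  obtain ⟨G, hG, h⟩ := h
  obtain ⟨G', hG', h'⟩ := h'
  refine ⟨fun s ↦ G s + G' s, hG.add ha hG', fun s ↦ ?_⟩
  have := norm_sub_le (f s) (g s)
  linarith [h s, h' s]

theorem Sml.congr {f g : ι → ℂ} (h : Sml a u f) (e : ∀ s, g s = f s) : Sml a u g := by
  obtain ⟨G, hG, h⟩ := h
  exact ⟨G, hG, fun s ↦ by rw [e]; exact h s⟩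

theorem Sml.bd (h1 : ∀ s, ‖u s‖ ≤ 1) {f : ι → ℂ} (h : Sml a u f) : BD a f := by
  obtain ⟨G, hG, h⟩ := h
  obtain ⟨G', hG', h2⟩ := hG.nonneg
  refine hG'.mono fun s ↦ (h s).trans ?_
  have := mul_le_mul (h2 s).2 (h1 s) (norm_nonneg _) (by linarith [(h2 s).1])
  linarith

theorem Sml.lb (ha : ∀ s, 1 ≤ a s) {f : ι → ℂ} (h : Sml a u f) (hf : LB a fun s ↦ ‖f s‖) :
    LB a fun s ↦ ‖u s‖ := by
  obtain ⟨G, hG, h⟩ := h
  exact LB.of_le_mul ha hf hG (fun _ ↦ norm_nonneg _) h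

theorem bd_of_le {f : ι → ℂ} (K : ℝ) (h : ∀ s, ‖f s‖ ≤ K) : BD a f := (EB.const K).mono h

theorem eb_comp {f : ι → ℝ} (h : EB a f) {ι' : Type} (e : ι' → ι) :
    EB (fun s ↦ a (e s)) fun s ↦ f (e s) := by
  obtain ⟨D, ⟨C, k, hD⟩, h⟩ := h
  exact ⟨fun s ↦ D (e s), ⟨C, k, fun s ↦ hD _⟩, fun s ↦ h _⟩

theorem norm_int_inv_le (c : ℤ) : ‖((c : ℂ))⁻¹‖ ≤ 1 := by
  rcases eq_or_ne c 0 with h | h
  · simp [h]
  · rw [norm_inv, Complex.norm_intCast]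
    refine inv_le_one_of_one_le₀ ?_
    exact_mod_cast Int.one_le_abs h

/-- the data of a family of isogenous points near a common pole -/
structure Data (ι : Type) (mi mj e e' : ℕ) (l ρ0 γ0 : ℂ) (K : ℝ) where
  a : ι → ℕ
  u : ι → ℂ
  ρ : ι → ℂ
  γ : ι → ℂ
  lam : ι → ℂ
  fi : ι → ℂ
  fj : ι → ℂ
  p : ι → ℤ
  c : ι → ℤ
  d : ι → ℤ
  N : ι → ℕ
  ha : ∀ s, 1 ≤ a s
  hu0 : ∀ s, u s ≠ 0
  hu1 : ∀ s, ‖u s‖ ≤ 1
  hρ : ∀ s, ‖ρ s - ρ0‖ ≤ K * ‖u s‖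
  hρ' : ∀ s, ‖ρ s - ρ0‖ ≤ ‖ρ0‖ / 2
  hγ : ∀ s, ‖γ s - γ0‖ ≤ K * ‖u s‖
  hγ' : ∀ s, ‖γ s - γ0‖ ≤ ‖γ0‖ / 2
  hR : ∀ s, ‖u s ^ e * ρ s‖ ≤ 1 / 2
  hlam : ∀ s, lam s = (p s - c s * fj s) * (1 + u s ^ e * ρ s)
  sf : SF a lam
  ep : EB a fun s ↦ |(p s : ℝ)|
  ec : EB a fun s ↦ |(c s : ℝ)|
  ed : EB a fun s ↦ |(d s : ℝ)|
  eN : EB a fun s ↦ |((N s : ℤ) : ℝ)|
  hN : ∀ s, 0 < N s
  hdet : ∀ s, (p s - c s * fj s) * (c s * fi s + d s) = N s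
  him : ∀ s, 1 ≤ (fj s).im
  hg : ∀ s, mi * fj s - mj * fi s = l + u s ^ e' * γ s

variable {mi mj e e' : ℕ} {l ρ0 γ0 : ℂ} {K : ℝ}

/-- restriction of a family -/
def Data.comp (D : Data ι mi mj e e' l ρ0 γ0 K) {ι' : Type} (f : ι' → ι) :
    Data ι' mi mj e e' l ρ0 γ0 K where
  a s := D.a (f s)
  u s := D.u (f s)
  ρ s := D.ρ (f s)
  γ s := D.γ (f s)
  lam s := D.lam (f s)
  fi s := D.fi (f s)
  fj s := D.fj (f s)
  p s := D.p (f s)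
  c s := D.c (f s)
  d s := D.d (f s)
  N s := D.N (f s)
  ha _ := D.ha _
  hu0 _ := D.hu0 _
  hu1 _ := D.hu1 _
  hρ _ := D.hρ _
  hρ' _ := D.hρ' _
  hγ _ := D.hγ _
  hγ' _ := D.hγ' _
  hR _ := D.hR _
  hlam _ := D.hlam _
  sf := D.sf.comp f
  ep := eb_comp D.ep f
  ec := eb_comp D.ec f
  ed := eb_comp D.ed f
  eN := eb_comp D.eN f
  hN _ := D.hN _
  hdet _ := D.hdet _
  him _ := D.him _
  hg _ := D.hg _

theorem near_lb {x x0 : ℂ} (h : ‖x - x0‖ ≤ ‖x0‖ / 2) : ‖x0‖ / 2 ≤ ‖x‖ := by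
  have := norm_sub_norm_le x0 x
  rw [norm_sub_rev] at this
  linarith

theorem near_ub {x x0 : ℂ} (h : ‖x - x0‖ ≤ ‖x0‖ / 2) : ‖x‖ ≤ 2 * ‖x0‖ := by
  have := norm_sub_norm_le x x0
  linarith [norm_nonneg x0]

namespace Data

variable (D : Data ι mi mj e e' l ρ0 γ0 K)

theorem R_lb (s : ι) : 1 / 2 ≤ ‖1 + D.u s ^ e * D.ρ s‖ := by
  have h := D.hR s
  have := norm_sub_le (1 + D.u s ^ e * D.ρ s) (D.u s ^ e * D.ρ s)
  rw [add_sub_cancel_right, norm_one] at this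
  linarith

theorem R_ne (s : ι) : 1 + D.u s ^ e * D.ρ s ≠ 0 := by
  intro h
  have := D.R_lb s
  rw [h, norm_zero] at this
  linarith

theorem N_ne (s : ι) : (D.N s : ℂ) ≠ 0 := by exact_mod_cast (D.hN s).ne'

theorem al_ne (s : ι) : D.p s - D.c s * D.fj s ≠ 0 := by
  intro h
  have := D.hdet s
  rw [h, zero_mul] at this
  exact D.N_ne s this.symm

theorem lam_ne (s : ι) : D.lam s ≠ 0 := by
  rw [D.hlam]
  exact mul_ne_zero (D.al_ne s) (D.R_ne s)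

theorem bd_Rinv : BD D.a fun s ↦ (1 + D.u s ^ e * D.ρ s)⁻¹ :=
  bd_of_le 2 fun s ↦ by
    rw [norm_inv]
    have := inv_anti₀ (by norm_num) (D.R_lb s)
    simpa using this

theorem bd_ρ : BD D.a D.ρ := bd_of_le _ fun s ↦ near_ub (D.hρ' s)

theorem bd_γ : BD D.a D.γ := bd_of_le _ fun s ↦ near_ub (D.hγ' s)

theorem bd_cinv : BD D.a fun s ↦ ((D.c s : ℂ))⁻¹ := bd_of_le 1 fun _ ↦ norm_int_inv_le _

theorem sf_N : SF D.a fun s ↦ (D.N s : ℂ) := by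
  simpa using SF.int D.ha D.eN

theorem sml_x (he : 0 < e) : Sml D.a D.u fun s ↦ D.u s ^ e * D.ρ s :=
  (Sml.pow D.hu1 he).mul D.ha D.bd_ρ

theorem case_zero (he : 0 < e) (hρ0 : ρ0 ≠ 0) (hc : ∀ s, D.c s = 0) :
    LB D.a fun s ↦ ‖D.u s‖ := by
  have hp := SF.int D.ha D.ep
  have e1 : ∀ s, D.lam s - D.p s = D.u s ^ e * D.ρ s * D.p s := by
    intro s
    rw [D.hlam, hc]
    push_cast
    ring
  refine (((D.sml_x he).mul D.ha hp.bd).congr e1).lb D.ha ((D.sf.sub D.ha hp).lb fun s ↦ ?_)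
  rw [e1]
  have h1 : D.ρ s ≠ 0 := by
    intro h
    have := near_lb (D.hρ' s)
    rw [h, norm_zero] at this
    linarith [norm_pos_iff.2 hρ0]
  have h2 : (D.p s : ℂ) ≠ 0 := by
    have := D.al_ne s
    rw [hc] at this
    simpa using this
  exact mul_ne_zero (mul_ne_zero (pow_ne_zero _ (D.hu0 s)) h1) h2

theorem case_real (he : 0 < e) (hc : ∀ s, D.c s ≠ 0) (hr : ∀ s, (D.lam s).im = 0) :
    LB D.a fun s ↦ ‖D.u s‖ := by
  have e1 : ∀ s, D.lam s - (D.p s - D.c s * D.fj s) =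
      D.u s ^ e * D.ρ s * (D.lam s * (1 + D.u s ^ e * D.ρ s)⁻¹) := by
    intro s
    have := D.R_ne s
    rw [D.hlam]
    field_simp
    ring
  refine (((D.sml_x he).mul D.ha (D.sf.bd.mul D.ha D.bd_Rinv)).congr e1).lb D.ha
    ((LB.const one_pos).mono fun s ↦ le_trans ?_ (Complex.abs_im_le_norm _))
  have h1 : (D.lam s - (D.p s - D.c s * D.fj s)).im = D.c s * (D.fj s).im := by
    simp [hr s]
  have h2 : (1 : ℝ) ≤ |(D.c s : ℝ)| := by exact_mod_cast Int.one_le_abs (hc s)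
  have h3 := D.him s
  rw [h1, abs_mul, abs_of_nonneg (by linarith : 0 ≤ (D.fj s).im)]
  nlinarith

/-- the algebraic approximation of the logarithm -/
noncomputable def θ (s : ι) : ℂ :=
  (mi * (D.p s - D.lam s) - mj * (D.N s / D.lam s - D.d s)) / D.c s

noncomputable def η (s : ι) : ℂ := (mi * D.lam s - mj * (D.N s / D.lam s)) / D.c s

noncomputable def δ (s : ι) : ℂ :=
  D.u s ^ e * D.ρ s * (mi * D.lam s * (1 + D.u s ^ e * D.ρ s)⁻¹ * (D.c s : ℂ)⁻¹)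

theorem sf_θ : SF D.a D.θ :=
  SF.div D.ha (SF.sub D.ha
    (SF.mul D.ha (SF.const (isAlgebraic_natCast mi)) (SF.sub D.ha (SF.int D.ha D.ep) D.sf))
    (SF.mul D.ha (SF.const (isAlgebraic_natCast mj))
      (SF.sub D.ha (SF.div D.ha D.sf_N D.sf) (SF.int D.ha D.ed)))) (SF.int D.ha D.ec)

theorem sf_η : SF D.a D.η :=
  SF.div D.ha (SF.sub D.ha (SF.mul D.ha (SF.const (isAlgebraic_natCast mi)) D.sf)
    (SF.mul D.ha (SF.const (isAlgebraic_natCast mj)) (SF.div D.ha D.sf_N D.sf)))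
    (SF.int D.ha D.ec)

theorem sml_δ (he : 0 < e) : Sml D.a D.u D.δ :=
  (D.sml_x he).mul D.ha
    ((((BD.const (mi : ℂ)).mul D.ha D.sf.bd).mul D.ha D.bd_Rinv).mul D.ha D.bd_cinv)

theorem key (s : ι) (hc : D.c s ≠ 0) :
    l + D.u s ^ e' * D.γ s - D.θ s = D.u s ^ e * D.ρ s * (D.η s - D.δ s) := by
  have h1 := D.R_ne s
  have h2 := D.al_ne s
  have h3 : (D.c s : ℂ) ≠ 0 := by exact_mod_cast hc
  rw [← D.hg, θ, η, δ, ← D.hdet, D.hlam]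
  generalize D.u s ^ e * D.ρ s = x at *
  have h4 : (D.p s : ℂ) = (D.p s - D.c s * D.fj s) + D.c s * D.fj s := by ring
  generalize (D.p s : ℂ) - D.c s * D.fj s = α at *
  rw [h4]
  field_simp
  ring

theorem case_ne (he : 0 < e) (he' : 0 < e')
    (hl : IsAlgebraic ℚ (Complex.exp (2 * π * Complex.I * l))) (hc : ∀ s, D.c s ≠ 0)
    (hθ : ∀ s, D.θ s ≠ l) : LB D.a fun s ↦ ‖D.u s‖ := by
  obtain ⟨C, k, hm⟩ := log_measure hl
  have h1 : LB D.a fun s ↦ ‖l - D.θ s‖ :=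
    SF.measure (F := fun θ ↦ ‖l - θ‖) (G := fun θ ↦ θ ≠ l) hm D.sf_θ hθ
  have h2 := ((D.sml_x he).mul D.ha (D.sf_η.bd.sub D.ha ((D.sml_δ he).bd D.hu1))).sub D.ha
    ((Sml.pow D.hu1 he').mul D.ha D.bd_γ)
  refine (h2.congr fun s ↦ ?_).lb D.ha h1
  rw [← D.key s (hc s)]
  ring

theorem η_ne (hi : 0 < mi) (s : ι) (hc : D.c s ≠ 0) (hr : (D.lam s).im ≠ 0) : D.η s ≠ 0 := by
  have h3 : (D.c s : ℂ) ≠ 0 := by exact_mod_cast hc
  refine div_ne_zero (fun h ↦ hr ?_) h3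
  have h1 := congrArg Complex.im h
  have hn : 0 < Complex.normSq (D.lam s) := Complex.normSq_pos.2 (D.lam_ne s)
  have h2 : (mi * D.lam s - mj * (D.N s / D.lam s)).im =
      (D.lam s).im * (mi + mj * D.N s / Complex.normSq (D.lam s)) := by
    simp [Complex.div_im]
    ring
  rw [h2, Complex.zero_im] at h1
  have h4 : (0 : ℝ) < mi + mj * D.N s / Complex.normSq (D.lam s) := by
    have : (0 : ℝ) < mi := by exact_mod_cast hi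
    positivity
  exact (mul_eq_zero.1 h1).resolve_right h4.ne'

theorem case_eq (hi : 0 < mi) (he : 0 < e) (hρ0 : ρ0 ≠ 0) (hγ0 : γ0 ≠ 0)
    (aρ : IsAlgebraic ℚ ρ0) (aγ : IsAlgebraic ℚ (2 * π * Complex.I * γ0))
    (hc : ∀ s, D.c s ≠ 0) (hr : ∀ s, (D.lam s).im ≠ 0) (hθ : ∀ s, D.θ s = l) :
    LB D.a fun s ↦ ‖D.u s‖ := by
  have k : ∀ s, D.u s ^ e' * D.γ s = D.u s ^ e * (D.ρ s * (D.η s - D.δ s)) := by
    intro s
    have := D.key s (hc s)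
    rw [hθ] at this
    linear_combination this
  have hη := fun s ↦ D.η_ne hi s (hc s) (hr s)
  have lη := D.sf_η.lb hη
  have bδ := (D.sml_δ he).bd D.hu1
  rcases lt_trichotomy e' e with h | h | h
  · have h1 := (Sml.pow (a := D.a) D.hu1 (show 0 < e - e' by omega)).mul D.ha
      (D.bd_ρ.mul D.ha (D.sf_η.bd.sub D.ha bδ))
    refine (h1.congr (g := D.γ) fun s ↦ ?_).lb D.ha
      ((LB.const (half_pos (norm_pos_iff.2 hγ0))).mono fun s ↦ near_lb (D.hγ' s))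
    apply mul_left_cancel₀ (pow_ne_zero e' (D.hu0 s))
    rw [k, ← mul_assoc, ← mul_assoc, ← pow_add, show e' + (e - e') = e by omega, mul_assoc]
  · subst h
    have k' : ∀ s, D.γ s = D.ρ s * (D.η s - D.δ s) := fun s ↦
      mul_left_cancel₀ (pow_ne_zero e' (D.hu0 s)) (k s)
    obtain ⟨C, n, hm⟩ := hl_measure
    have s1 : SF D.a fun s ↦ ρ0 * D.η s := SF.mul D.ha (SF.const aρ) D.sf_η
    have n1 : ∀ s, ρ0 * D.η s ≠ 0 := fun s ↦ mul_ne_zero hρ0 (hη s)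
    have h1 : LB D.a fun s ↦ ‖2 * π * Complex.I - 2 * π * Complex.I * γ0 / (ρ0 * D.η s)‖ :=
      SF.measure (F := fun θ ↦ ‖2 * π * Complex.I - θ‖) (G := fun _ ↦ True)
        (fun θ A _ h ↦ hm θ A h) (SF.div D.ha (SF.const aγ) s1) fun _ ↦ trivial
    have h2 := h1.mul D.ha (s1.lb n1)
    have h3 := ((((D.sml_δ he).mul D.ha D.bd_ρ).add D.ha (Sml.of_le K D.hγ)).sub D.ha
      ((Sml.of_le K D.hρ).mul D.ha D.sf_η.bd)).mul D.ha (BD.const (2 * π * Complex.I))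
    refine h3.lb D.ha (h2.mono fun s ↦ le_of_eq ?_)
    rw [← norm_mul]
    congr 1
    have := hη s
    rw [k']
    field_simp
    ring
  · have h1 := ((Sml.pow (a := D.a) D.hu1 (show 0 < e' - e by omega)).mul D.ha D.bd_γ).add D.ha
      ((D.sml_δ he).mul D.ha D.bd_ρ)
    have h2 : LB D.a fun s ↦ ‖D.ρ s‖ :=
      (LB.const (half_pos (norm_pos_iff.2 hρ0))).mono fun s ↦ near_lb (D.hρ' s)
    refine (h1.congr (g := fun s ↦ D.ρ s * D.η s) fun s ↦ ?_).lb D.ha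
      ((h2.mul D.ha lη).mono fun s ↦ (norm_mul _ _).ge)
    apply mul_left_cancel₀ (pow_ne_zero e (D.hu0 s))
    rw [mul_add, ← mul_assoc (D.u s ^ e) (D.u s ^ (e' - e)), ← pow_add,
      show e + (e' - e) = e' by omega, k]
    ring

theorem lb (hi : 0 < mi) (he : 0 < e) (he' : 0 < e') (hρ0 : ρ0 ≠ 0) (hγ0 : γ0 ≠ 0)
    (aρ : IsAlgebraic ℚ ρ0) (aγ : IsAlgebraic ℚ (2 * π * Complex.I * γ0))
    (hl : IsAlgebraic ℚ (Complex.exp (2 * π * Complex.I * l))) : LB D.a fun s ↦ ‖D.u s‖ := by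
  refine LB.split D.ha (fun s ↦ D.c s = 0)
    ((D.comp Subtype.val).case_zero he hρ0 fun s ↦ s.2) ?_
  set D1 := D.comp (Subtype.val : {s // ¬ D.c s = 0} → ι) with hD1
  have c1 : ∀ s, D1.c s ≠ 0 := fun s ↦ s.2
  change LB D1.a fun s ↦ ‖D1.u s‖
  refine LB.split D1.ha (fun s ↦ (D1.lam s).im = 0)
    ((D1.comp Subtype.val).case_real he (fun s ↦ c1 s.1) fun s ↦ s.2) ?_
  set D2 := D1.comp (Subtype.val : {s // ¬ (D1.lam s).im = 0} → _) with hD2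
  have c2 : ∀ s, D2.c s ≠ 0 := fun s ↦ c1 s.1
  have r2 : ∀ s, (D2.lam s).im ≠ 0 := fun s ↦ s.2
  change LB D2.a fun s ↦ ‖D2.u s‖
  exact LB.split D2.ha (fun s ↦ D2.θ s = l)
    ((D2.comp Subtype.val).case_eq hi he hρ0 hγ0 aρ aγ (fun s ↦ c2 s.1) (fun s ↦ r2 s.1)
      fun s ↦ s.2)
    ((D2.comp Subtype.val).case_ne he he' hl (fun s ↦ c2 s.1) fun s ↦ s.2)

end Data

end Pool.Agent.Lib.ZP3.ARCHB
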