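import Pool.Agent.Lib.ZP3.Defs

/-! Size, integrality and conjugation of words of derivations (block BAR, first file). -/

namespace Pool.Agent.Lib.ZP3.Bar

open MvPolynomial

/-- `f` has degree at most `d` and weighted length at most `B` -/
inductive Bd (M : ℝ) : ℕ → ℝ → R → Prop
  | const (c : ℂ) : Bd M 0 ‖c‖ (C c)
  | mulX {d B f} (v : Var) : Bd M d B f → Bd M (d + 1) (B * M) (f * X v)
  | add {d B B' f g} : Bd M d B f → Bd M d B' g → Bd M d (B + B') (f + g)
  | mono {d d' B B' f} : Bd M d B f → d ≤ d' → B ≤ B' → Bd M d' B' f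

variable {M : ℝ} {d : ℕ} {B : ℝ} {f : R}

lemma Bd.nonneg (hM : 1 ≤ M) (h : Bd M d B f) : 0 ≤ B := by
  induction h with
  | const c => exact norm_nonneg c
  | mulX v _ ih => positivity
  | add _ _ ih ih' => positivity
  | mono _ _ h ih => exact ih.trans h

lemma Bd.eval_le (hM : 1 ≤ M) (h : Bd M d B f) {x : Var → ℂ} (hx : ∀ v, ‖x v‖ ≤ M) :
    ‖eval x f‖ ≤ B := by
  induction h with
  | const c => simp
  | mulX v h ih =>
    rw [map_mul, eval_X, norm_mul]
    exact mul_le_mul ih (hx v) (norm_nonneg _) (h.nonneg hM)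
  | add _ _ ih ih' => rw [map_add]; exact (norm_add_le _ _).trans (add_le_add ih ih')
  | mono _ _ h ih => exact ih.trans h

lemma Bd.zero (d : ℕ) : Bd M d 0 0 := by
  simpa using (Bd.const (M := M) 0).mono d.zero_le le_rfl

lemma Bd.smul (h : Bd M d B f) (c : ℂ) : Bd M d (‖c‖ * B) (c • f) := by
  induction h with
  | const a => rw [← norm_mul, smul_eq_C_mul, ← map_mul]; exact Bd.const _
  | mulX v _ ih => simpa only [mul_assoc, smul_mul_assoc] using ih.mulX v
  | add _ _ ih ih' => simpa only [mul_add, smul_add] using ih.add ih'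
  | mono _ h1 h2 ih => exact ih.mono h1 (mul_le_mul_of_nonneg_left h2 (norm_nonneg c))

lemma Bd.sum {ι : Type} (s : Finset ι) {g : ι → R} {b : ι → ℝ} (h : ∀ i ∈ s, Bd M d (b i) (g i)) :
    Bd M d (∑ i ∈ s, b i) (∑ i ∈ s, g i) := by
  classical
  induction s using Finset.induction_on with
  | empty => exact Bd.zero d
  | insert i s hi ih =>
    rw [Finset.sum_insert hi, Finset.sum_insert hi]
    exact (h i (by simp)).add (ih fun j hj => h j (by simp [hj]))

lemma Bd.mul_pow (h : Bd M d B f) (v : Var) (n : ℕ) :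
    Bd M (d + n) (B * M ^ n) (f * X v ^ n) := by
  induction n with
  | zero => simpa using h
  | succ n ih => simpa only [pow_succ, mul_assoc, add_assoc] using ih.mulX v

lemma der0_inl (G v : Fin 3 → ℂ) (i : Fin 3) :
    der0 G v (X (.inl i)) = C (v i) * X (.inr i) := by simp [der0]

lemma der0_inr (G v : Fin 3 → ℂ) (i : Fin 3) :
    der0 G v (X (.inr i)) = C (v i) * (6 * X (.inl i) ^ 2 - C (G i)) := by simp [der0]

lemma der0_C (G v : Fin 3 → ℂ) (c : ℂ) : der0 G v (C c) = 0 := derivation_C _ _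

lemma der0_mul (G v : Fin 3 → ℂ) (f g : R) :
    der0 G v (f * g) = der0 G v f * g + f * der0 G v g := by
  rw [Derivation.leibniz, smul_eq_mul, smul_eq_mul]; ring

lemma Bd.der (hM : 1 ≤ M) {G v : Fin 3 → ℂ} (hG : ∀ i, ‖G i‖ ≤ M) (hv : ∀ i, ‖v i‖ ≤ M)
    (h : Bd M d B f) : Bd M (d + 1) (7 * M ^ 2 * d * B) (der0 G v f) := by
  induction h with
  | const c => simpa [der0_C] using Bd.zero 1
  | @mulX d B f w h ih =>
    have hB := h.nonneg hM
    have h1 : Bd M (d + 1 + 1) (7 * M ^ 2 * (B * M)) (f * der0 G v (X w)) := by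
      rcases w with i | i
      · have := (h.mulX (.inr i)).smul (v i)
        rw [der0_inl, show f * (C (v i) * X (.inr i)) = v i • (f * X (.inr i)) by
          rw [smul_eq_C_mul]; ring]
        refine this.mono (by omega) (mul_le_mul_of_nonneg_right ?_ (by positivity))
        nlinarith [hv i]
      · have h1 := ((h.mulX (.inl i)).mulX (.inl i)).smul (6 * v i)
        have h2 := (h.smul (-(v i * G i))).mono (show d ≤ d + 1 + 1 by omega) le_rfl
        rw [der0_inr, show f * (C (v i) * (6 * X (.inl i) ^ 2 - C (G i))) =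
          (6 * v i) • (f * X (.inl i) * X (.inl i)) + (-(v i * G i)) • f by
            simp only [smul_eq_C_mul, map_mul, map_neg, map_ofNat]; ring]
        refine (h1.add h2).mono le_rfl ?_
        have e1 : ‖6 * v i‖ ≤ 6 * M := by simpa using hv i
        have e2 : ‖-(v i * G i)‖ ≤ M * M := by
          rw [norm_neg, norm_mul]; exact mul_le_mul (hv i) (hG i) (norm_nonneg _) (by positivity)
        have e3 : M * M * B ≤ M * M * (B * M) :=
          mul_le_mul_of_nonneg_left (le_mul_of_one_le_right hB hM) (by positivity)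
        have e4 := mul_le_mul_of_nonneg_right e1 (show 0 ≤ B * M * M by positivity)
        have e5 := mul_le_mul_of_nonneg_right e2 hB
        nlinarith
    rw [der0_mul]
    exact ((ih.mulX w).add h1).mono le_rfl (le_of_eq (by push_cast; ring))
  | add _ _ ih ih' => simpa only [mul_add, map_add] using ih.add ih'
  | mono h h1 h2 ih =>
    refine ih.mono (by omega) ?_
    have := h.nonneg hM
    gcongr

/-- the derivation as a linear endomorphism -/
noncomputable def DE (G v : Fin 3 → ℂ) : Module.End ℂ R := (der0 G v).toLinearMap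

lemma DE_pow (G v : Fin 3 → ℂ) (k : ℕ) (f : R) : (DE G v ^ k) f = (der0 G v)^[k] f :=
  Module.End.pow_apply _ _ _

lemma DE_succ (G v : Fin 3 → ℂ) (k : ℕ) (f : R) :
    (DE G v ^ (k + 1)) f = der0 G v ((DE G v ^ k) f) := by rw [pow_succ']; rfl

lemma Bd.iter (hM : 1 ≤ M) {G v : Fin 3 → ℂ} (hG : ∀ i, ‖G i‖ ≤ M) (hv : ∀ i, ‖v i‖ ≤ M)
    (h : Bd M d B f) {K : ℝ} (k : ℕ) (hK : 7 * M ^ 2 * (d + k : ℕ) ≤ K) :
    Bd M (d + k) (K ^ k * B) ((DE G v ^ k) f) := by
  induction k with
  | zero => simpa using h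
  | succ k ih =>
    have h1 : 7 * M ^ 2 * (d + k : ℕ) ≤ K := le_trans (by gcongr; omega) hK
    rw [DE_succ]
    refine ((ih h1).der hM hG hv).mono le_rfl ?_
    rw [pow_succ' K, mul_assoc K]
    exact mul_le_mul_of_nonneg_right h1 ((ih h1).nonneg hM)

lemma Bd.tele (hM : 1 ≤ M) {G u u' e : Fin 3 → ℂ} {ε : ℂ} (hG : ∀ i, ‖G i‖ ≤ M)
    (hu : ∀ i, ‖u i‖ ≤ M) (hu' : ∀ i, ‖u' i‖ ≤ M) (he : ∀ i, ‖e i‖ ≤ M)
    (hD : DE G u = DE G u' + ε • DE G e) (h : Bd M d B f) {K : ℝ} (k : ℕ)
    (hK : 7 * M ^ 2 * (d + k : ℕ) ≤ K) :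
    Bd M (d + k) (‖ε‖ * k * (K ^ k * B)) ((DE G u ^ k) f - (DE G u' ^ k) f) := by
  induction k with
  | zero => simpa using Bd.zero d
  | succ k ih =>
    have h1 : 7 * M ^ 2 * (d + k : ℕ) ≤ K := le_trans (by gcongr; omega) hK
    have h2 := h.iter hM hG hu' k h1
    have e1 : (DE G u ^ (k + 1)) f - (DE G u' ^ (k + 1)) f =
        der0 G u ((DE G u ^ k) f - (DE G u' ^ k) f) + ε • der0 G e ((DE G u' ^ k) f) := by
      have : der0 G u ((DE G u' ^ k) f) = _ := LinearMap.congr_fun hD ((DE G u' ^ k) f)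
      rw [DE_succ, DE_succ, map_sub, this]
      change _ = _ - (der0 G u' _ + ε • der0 G e _) + _
      abel
    rw [e1]
    refine (((ih h1).der hM hG hu).add ((h2.der hM hG he).smul ε)).mono le_rfl ?_
    have h3 := h2.nonneg hM
    calc _ = ‖ε‖ * (k + 1) * (7 * M ^ 2 * (d + k : ℕ) * (K ^ k * B)) := by ring
      _ ≤ ‖ε‖ * (k + 1) * (K * (K ^ k * B)) := by gcongr
      _ = _ := by push_cast; ring

lemma tri {D P Q : Module.End ℂ R} {c1 c2 : ℂ} (hD : D = c1 • P + c2 • Q) (hc : Commute P Q)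
    (x : Var → ℂ) {n1 n : ℕ} {θ : ℝ}
    (h : ∀ k b, k < n1 → k + b < n → ‖eval x ((P ^ k) ((Q ^ b) f))‖ ≤ θ) (a : ℕ) :
    ∀ k b, a + k < n1 → a + k + b < n →
      ‖eval x ((D ^ a) ((P ^ k) ((Q ^ b) f)))‖ ≤ (‖c1‖ + ‖c2‖) ^ a * θ := by
  induction a with
  | zero => simpa using h
  | succ a ih =>
    intro k b h1 h2
    have e : D ((P ^ k) ((Q ^ b) f)) =
        c1 • (P ^ (k + 1)) ((Q ^ b) f) + c2 • (P ^ k) ((Q ^ (b + 1)) f) := by
      rw [hD, pow_succ' P, pow_succ' Q, Module.End.mul_apply, Module.End.mul_apply,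
        ← Module.End.mul_apply (P ^ k) Q, (hc.pow_left k).eq]
      rfl
    rw [pow_succ, Module.End.mul_apply, e, map_add, map_smul, map_smul, map_add, smul_eval,
      smul_eval]
    refine (norm_add_le _ _).trans ?_
    rw [norm_mul, norm_mul]
    have h3 := mul_le_mul_of_nonneg_left (ih (k + 1) b (by omega) (by omega)) (norm_nonneg c1)
    have h4 := mul_le_mul_of_nonneg_left (ih k (b + 1) (by omega) (by omega)) (norm_nonneg c2)
    calc _ ≤ _ := add_le_add h3 h4
      _ = _ := by ring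

lemma map_der0 (σ : ℂ →+* ℂ) (G v : Fin 3 → ℂ) (f : R) :
    map σ (der0 G v f) = der0 (fun i => σ (G i)) (fun i => σ (v i)) (map σ f) := by
  induction f using MvPolynomial.induction_on with
  | C a => simp
  | add p q hp hq => simp only [map_add, hp, hq]
  | mul_X p w hp =>
    rw [der0_mul, map_add, map_mul, map_mul, map_mul, der0_mul, hp, map_X]
    rcases w with i | i
    · simp [der0_inl]
    · simp [der0_inr, map_ofNat]

lemma map_DE (σ : ℂ →+* ℂ) (G v : Fin 3 → ℂ) (k : ℕ) (f : R) :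
    map σ ((DE G v ^ k) f) = (DE (fun i => σ (G i)) (fun i => σ (v i)) ^ k) (map σ f) := by
  induction k with
  | zero => rfl
  | succ k ih => rw [DE_succ, DE_succ, map_der0, ih]

/-- polynomials with integral coefficients -/
noncomputable def IP : Subring R :=
  Subring.closure (C '' {z : ℂ | IsIntegral ℤ z} ∪ Set.range X)

lemma C_mem {z : ℂ} (h : IsIntegral ℤ z) : C z ∈ IP := Subring.subset_closure (.inl ⟨z, h, rfl⟩)

lemma X_mem (v : Var) : X v ∈ IP := Subring.subset_closure (.inr ⟨v, rfl⟩)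

lemma DE_mem {G v : Fin 3 → ℂ} (hG : ∀ i, IsIntegral ℤ (G i)) (hv : ∀ i, IsIntegral ℤ (v i))
    (k : ℕ) (h : f ∈ IP) : (DE G v ^ k) f ∈ IP := by
  induction k with
  | zero => exact h
  | succ k ih =>
    rw [DE_succ]
    generalize (DE G v ^ k) f = g at ih
    induction ih using Subring.closure_induction with
    | mem x hx =>
      rcases hx with ⟨z, -, rfl⟩ | ⟨i | i, rfl⟩
      · rw [der0_C]; exact zero_mem _
      · rw [der0_inl]; exact mul_mem (C_mem (hv i)) (X_mem _)
      · rw [der0_inr]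
        exact mul_mem (C_mem (hv i)) (sub_mem (mul_mem (ofNat_mem _ 6) (pow_mem (X_mem _) 2))
          (C_mem (hG i)))
    | zero => rw [map_zero]; exact zero_mem _
    | one => rw [Derivation.map_one_eq_zero]; exact zero_mem _
    | add x y _ _ hx hy => rw [map_add]; exact add_mem hx hy
    | neg x _ hx => rw [map_neg]; exact neg_mem hx
    | mul x y hx hy hx' hy' => rw [der0_mul]; exact add_mem (mul_mem hx' hy) (mul_mem hx hy')

lemma eval_int {x : Var → ℂ} (hx : ∀ v, IsIntegral ℤ (x v)) (h : f ∈ IP) :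
    IsIntegral ℤ (eval x f) := by
  induction h using Subring.closure_induction with
  | mem y hy =>
    rcases hy with ⟨z, hz, rfl⟩ | ⟨i, rfl⟩
    · rwa [eval_C]
    · rw [eval_X]; exact hx i
  | zero => rw [map_zero]; exact isIntegral_zero
  | one => rw [map_one]; exact isIntegral_one
  | add x y _ _ hx hy => rw [map_add]; exact hx.add hy
  | neg x _ hx => rw [map_neg]; exact hx.neg
  | mul x y _ _ hx hy => rw [map_mul]; exact hx.mul hy

end Pool.Agent.Lib.ZP3.Bar
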