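import Pool.Agent.Lib.ZP3.BakerSg
import Pool.Agent.Lib.ZP3.WdLem
import Pool.Agent.Lib.ZP3.BakerAn

/-! Baker's method for a linear form in three periods (block BAR, third file). -/

namespace Pool.Agent.Lib.ZP3

open MvPolynomial

namespace Bar

lemma DE_lin (G v v' : Fin 3 → ℂ) (c c' : ℂ) :
    DE G (c • v + c' • v') = c • DE G v + c' • DE G v' := LinearMap.ext fun f => by
  change der0 G _ f = c • der0 G v f + c' • der0 G v' f
  rw [der0_add, der0_smul, der0_smul]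

lemma DE_comm (G v v' : Fin 3 → ℂ) : Commute (DE G v) (DE G v') :=
  LinearMap.ext fun f => der0_comm G v v' f

lemma final (a : ℕ) (ha : 4096 ≤ a) {ε : ℝ} (hε : ε ≤ Real.exp (a - (a : ℝ) ^ 149)) :
    Real.exp (a ^ 50) * (Real.exp (a ^ 50) * Real.exp (a ^ 51) *
      (Real.exp (a ^ 50) ^ 2 / Real.exp (a ^ 52 / 2) +
        ε * Real.exp (a ^ 50) ^ 2 * Real.exp (a ^ 148)) + ε * Real.exp (a ^ 50) ^ 2) *
      (Real.exp (a ^ 50) ^ 2) ^ a < 1 := by
  have hx : (4096 : ℝ) ≤ a := by exact_mod_cast ha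
  have hp : ∀ n : ℕ, 4096 * (a : ℝ) ^ n ≤ a ^ (n + 1) := fun n => by
    rw [pow_succ']; gcongr
  have hm : ∀ m n : ℕ, m ≤ n → (a : ℝ) ^ m ≤ a ^ n := fun m n h =>
    pow_le_pow_right₀ (by linarith) h
  have h1 := hp 50
  have h2 := hp 51
  have h3 := hp 148
  have h4 := hm 52 148 (by norm_num)
  have h5 := hm 1 50 (by norm_num)
  norm_num at h1 h2 h3 h5
  have e : Real.exp (-2) < 1 / 3 := by
    rw [Real.exp_neg, inv_eq_one_div]
    exact one_div_lt_one_div_of_lt (by norm_num) (by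
      have := Real.add_one_lt_exp (x := 2) (by norm_num); linarith)
  have e0 : (Real.exp (a ^ 50) ^ 2) ^ a = Real.exp (2 * a ^ 51) := by
    rw [← pow_mul, ← Real.exp_nat_mul]; congr 1; push_cast; ring
  have e1 : Real.exp (a ^ 50) ^ 2 = Real.exp (2 * a ^ 50) := by
    rw [← Real.exp_nat_mul]; norm_num
  calc _ ≤ Real.exp (a ^ 50) * (Real.exp (a ^ 50) * Real.exp (a ^ 51) *
      (Real.exp (a ^ 50) ^ 2 / Real.exp (a ^ 52 / 2) + Real.exp (a - (a : ℝ) ^ 149) *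
        Real.exp (a ^ 50) ^ 2 * Real.exp (a ^ 148)) + Real.exp (a - (a : ℝ) ^ 149) *
        Real.exp (a ^ 50) ^ 2) * (Real.exp (a ^ 50) ^ 2) ^ a := by gcongr
    _ = Real.exp (4 * a ^ 50 + 3 * a ^ 51 - a ^ 52 / 2) +
        Real.exp (4 * a ^ 50 + 3 * a ^ 51 + a - a ^ 149 + a ^ 148) +
        Real.exp (3 * a ^ 50 + 2 * a ^ 51 + a - a ^ 149) := by
      rw [e0, e1]
      simp only [← Real.exp_sub, ← Real.exp_add, mul_add, add_mul]
      congr 1
      congr 1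
      all_goals congr 1; ring
    _ ≤ Real.exp (-2) + Real.exp (-2) + Real.exp (-2) := by gcongr <;> linarith
    _ < 1 := by linarith

theorem baker_core (zero_lemma : ∀ (W : Fin 3 → WD) (β : Fin 3 → ℂ) (_ : β 0 ≠ 0)
    (p : Fin 3 → ℂ) (_ : Reg W p) (F : MvPolynomial (Fin 3) ℂ) (_ : F ≠ 0) (L T : ℕ) (_ : 1 ≤ L)
    (_ : ∀ i, F.degreeOf i ≤ L) (_ : 50000 * L ^ 3 < T ^ 2) (_ : 50000 * L < T)
    (_ : ∀ a b : ℕ, a + b ≤ 3 * T → ev W p ((der W ![β 1, β 0, 0])^[a]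
      ((der W ![β 2, 0, β 0])^[b] (MvPolynomial.rename Sum.inl F))) = 0),
    Obs W β (50000 * L ^ 2)) : ∃ k A0 : ℕ, ∀ (A : ℕ) (W : Fin 3 → WD) (β p u : Fin 3 → ℂ), A0 ≤ A → β 0 ≠ 0 →
    (∀ i, (W i).Size (p i) (u i) A) → (∀ i, (W i).Ar (p i) A) → (∀ i, AI (β i) A) →
    ‖β 0 * u 0 - β 1 * u 1 - β 2 * u 2‖ ≤ Real.exp (-(A : ℝ) ^ k) → Obs W β (A ^ k) := by
  obtain ⟨c, hc⟩ := extrapolate
  refine ⟨12 * 149, c + 2, fun A W β p u hA hβ hS hAr hb hsm => ?_⟩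
  obtain ⟨a, ha⟩ : ∃ a, a = A ^ 12 := ⟨_, rfl⟩
  have hA2 : 2 ≤ A := by omega
  have hpow : ∀ n, 2 ^ n * A ^ (12 - n) ≤ A ^ n * A ^ (12 - n) := fun n => by gcongr
  have n1 : 4096 ≤ a := by simpa [ha] using hpow 12
  have n2 : 2048 * A ≤ a := by simpa [ha, ← pow_succ] using hpow 11
  have n3 : 2 * c * A ^ 3 ≤ a := by
    calc 2 * c * A ^ 3 ≤ A * A * A ^ 3 := by gcongr; omega
      _ = A ^ 5 := by ring
      _ ≤ a := ha ▸ Nat.pow_le_pow_right (by omega) (by norm_num)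
  have n4 : A ≤ A ^ 3 := Nat.le_self_pow (by norm_num) A
  have n5 : A * A ≤ a := by rw [← pow_two, ha]; exact Nat.pow_le_pow_right (by omega) (by norm_num)
  have hm : ∀ m n : ℕ, m ≤ n → a ^ m ≤ a ^ n := fun m n h => Nat.pow_le_pow_right (by omega) h
  have hp : ∀ n : ℕ, 4096 * a ^ n ≤ a ^ (n + 1) := fun n => by rw [pow_succ']; gcongr
  have s1 := hm 46 48 (by norm_num)
  have s2 := hm 32 48 (by norm_num)
  have s3 := hm 6 48 (by norm_num)
  have s4 : 1 ≤ a ^ 6 := Nat.one_le_pow _ _ (by omega)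
  have s5 : 4096 * a ^ 48 ≤ a ^ 49 := hp 48
  have hAe : ∀ m : ℕ, (A : ℝ) ^ m ≤ Real.exp (m * A) := fun m => by
    rw [Real.exp_nat_mul]; gcongr; linarith [Real.add_one_le_exp (A : ℝ)]
  have hA0 : (2 : ℝ) ≤ A := by exact_mod_cast hA2
  have hn2 : (2048 : ℝ) * A ≤ a := by exact_mod_cast n2
  set M := Real.exp (3 * A) with hMdef
  set K := Real.exp a with hKdef
  set E0 := Real.exp ((a : ℝ) ^ 50) with hE0def
  have hM1 : 1 ≤ M := Real.one_le_exp (by positivity)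
  have hK1 : 1 ≤ K := Real.one_le_exp (by positivity)
  have hE1 : 1 ≤ E0 := Real.one_le_exp (by positivity)
  have hM : Real.exp A ≤ M := Real.exp_le_exp.2 (by linarith)
  have hK : ∀ j : ℕ, j ≤ a ^ 49 → 7 * M ^ 2 * j ≤ K := fun j hj => by
    have h1 : (j : ℝ) ≤ A ^ 588 := by
      rw [ha, ← pow_mul] at hj; exact_mod_cast hj
    have h2 : (7 : ℝ) ≤ A ^ 3 := le_trans (by norm_num) (pow_le_pow_left₀ (by norm_num) hA0 3)
    calc _ ≤ Real.exp ((3 : ℕ) * A) * M ^ 2 * Real.exp ((588 : ℕ) * A) := by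
          gcongr
          exacts [h2.trans (hAe 3), h1.trans (hAe 588)]
      _ = Real.exp (597 * A) := by
          rw [hMdef, ← Real.exp_nat_mul, ← Real.exp_add, ← Real.exp_add]; congr 1; push_cast; ring
      _ ≤ K := Real.exp_le_exp.2 (by linarith)
  have hM2 : M ≤ M ^ 2 := le_self_pow₀ hM1 (by norm_num)
  have hK' : ∀ j : ℕ, j ≤ a ^ 49 → (j : ℝ) ≤ K := fun j hj =>
    (le_mul_of_one_le_left (by positivity) (by linarith)).trans (hK j hj)
  have hKE : ∀ j : ℕ, j ≤ a ^ 49 → K ^ j ≤ E0 := fun j hj => by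
    rw [hKdef, ← Real.exp_nat_mul, hE0def, pow_succ]
    gcongr
    exact_mod_cast hj
  have hML : M ^ (3 * a ^ 32) ≤ K ^ a ^ 32 := by
    rw [pow_mul]
    gcongr
    rw [hMdef, ← Real.exp_nat_mul]
    exact Real.exp_le_exp.2 (by push_cast; linarith)
  let v : I12 → ℂ := Sum.elim (pt W p) (Sum.elim (fun i => (W i).g2 / 2) β)
  have hv : ∀ i, AI (v i) A := by
    rintro ((i | i) | i | i)
    exacts [(hAr i).1, (hAr i).2.1, (hAr i).2.2, hb i]
  have hvM : ∀ (σ : ℂ →+* ℂ) i, ‖σ (v i)‖ ≤ M := fun σ i => ((hv i).2.2 σ).trans hM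
  obtain ⟨F, hF0, hFd, hFs, hFb, hFi, hFσ, hFv⟩ := siegel hv (a ^ 32) (a ^ 46)
    (a ^ 46 + (3 * (300 * a ^ 48) + 1)) (E0 := E0) hM1 hM hK1 (hK _ (by omega)) (by
      refine le_trans ?_ (hKE (a ^ 46 + (a ^ 46 + (3 * (300 * a ^ 48) + 1)) + a ^ 32) (by omega))
      rw [pow_add K _ (a ^ 32)]
      gcongr) (by
      rw [← ha]
      calc _ ≤ 4 * (a * (a ^ 46 * (902 * a ^ 48))) := by gcongr; omega
        _ = 3608 * a ^ 95 := by ring
        _ ≤ a ^ 96 := le_trans (by omega) (hp 95)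
        _ = (a ^ 32) ^ 3 := by ring
        _ ≤ _ := by gcongr; omega)
  have h7 : 7 * ((a ^ 32 : ℕ) + 1 : ℝ) ^ 6 ≤ K ^ 7 := by
    rw [pow_succ' K]
    gcongr
    · exact_mod_cast hK' 7 (by omega)
    · exact_mod_cast hK' (a ^ 32 + 1) (by omega)
  set f : R := rename Sum.inl F with hf
  replace hFb : Bd M (3 * a ^ 32) (K ^ (7 + a ^ 32) * E0) f := hFb.mono le_rfl (by
    rw [pow_add, mul_right_comm (K ^ 7)]; gcongr)
  have hE2 : ∀ j : ℕ, j + 7 + a ^ 32 ≤ a ^ 49 → K ^ j * (K ^ (7 + a ^ 32) * E0) ≤ E0 ^ 2 :=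
    fun j hj => by
      rw [← mul_assoc, ← pow_add, pow_two]
      gcongr
      exact hKE _ (by omega)
  have hu : ∀ i, u i ≠ 0 ∧ ‖u i‖ ≤ A * Real.exp A ∧ ‖(u i)⁻¹‖ ≤ Real.exp A := fun i => by
    obtain ⟨ρ, h1, h2, h3, -, h4, h5, h6, -⟩ := hS i
    refine ⟨h5, h6.trans (by gcongr), ?_⟩
    rw [norm_inv, ← inv_inv (Real.exp A), ← Real.exp_neg]
    exact inv_anti₀ (Real.exp_pos _) (h1.trans (h3 _ h4 h5))
  have hreg : Reg W p := fun i hi => by
    obtain ⟨ρ, h1, -, -, h2, -⟩ := hS i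
    have := h2 _ hi
    rw [sub_self, norm_zero] at this
    linarith [Real.exp_pos (-(A : ℝ))]
  have he1 : 1 ≤ Real.exp A := Real.one_le_exp (by positivity)
  have he2 : (A + 1) * Real.exp A * Real.exp A ≤ M := by
    rw [hMdef, show 3 * (A : ℝ) = A + A + A by ring, Real.exp_add, Real.exp_add]
    gcongr
    exact Real.add_one_le_exp _
  have he3 : A * Real.exp A ≤ A * Real.exp A * Real.exp A :=
    le_mul_of_one_le_right (by positivity) he1
  have he4 : 1 ≤ Real.exp A * Real.exp A := one_le_mul_of_one_le_of_one_le he1 he1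
  have he5 : 0 ≤ A * Real.exp A * Real.exp A := by positivity
  have hβe : ∀ i, ‖β i‖ ≤ Real.exp A := fun i => (hb i).2.2 (RingHom.id ℂ)
  set ε := (β 0 * u 0 - β 1 * u 1 - β 2 * u 2) / β 0 with hε
  have hε1 : ‖ε‖ ≤ Real.exp (a - (a : ℝ) ^ 149) := by
    have h1 := liouville (hb 0).1 hβ (hb 0).2.1 he1 (hb 0).2.2
    rw [hε, norm_div, div_le_iff₀ (norm_pos_iff.2 hβ)]
    rw [pow_mul, ← Nat.cast_pow, ← ha] at hsm
    calc _ ≤ Real.exp (-(a : ℝ) ^ 149) * (‖β 0‖ * Real.exp A ^ A) :=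
          hsm.trans (le_mul_of_one_le_right (by positivity) h1)
      _ ≤ Real.exp (-(a : ℝ) ^ 149) * (‖β 0‖ * Real.exp a) := by
          rw [← Real.exp_nat_mul]; gcongr; exact_mod_cast n5
      _ = _ := by rw [sub_eq_neg_add, Real.exp_add]; ring
  have hε2 : ‖ε‖ ≤ 1 := hε1.trans (Real.exp_le_one_iff.2 (sub_nonpos.2
    (le_self_pow₀ (by exact_mod_cast (by omega : 1 ≤ a)) (by norm_num))))
  let G : Fin 3 → ℂ := fun i => (W i).g2 / 2
  let w1 : Fin 3 → ℂ := ![β 1, β 0, 0]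
  let w2 : Fin 3 → ℂ := ![β 2, 0, β 0]
  let u' : Fin 3 → ℂ := ![u 0 - ε, u 1, u 2]
  have hw2 : ∀ i, ‖w2 i‖ ≤ Real.exp A := fun i => by
    fin_cases i
    exacts [hβe 2, by simpa [w2] using he1.trans' zero_le_one, hβe 0]
  have huM : ∀ i, ‖u i‖ ≤ M := fun i => by nlinarith [(hu i).2.1]
  have hu'M : ∀ i, ‖u' i‖ ≤ M := fun i => by
    fin_cases i
    exacts [(norm_sub_le _ _).trans (by nlinarith [(hu 0).2.1]), huM 1, huM 2]
  have d1 : DE G u = DE G u' + ε • DE G ![1, 0, 0] := by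
    rw [← one_smul ℂ (DE G u'), ← DE_lin]
    congr 1; ext i; fin_cases i <;> simp [u']
  have d2 : DE G u' = (u 1 / β 0) • DE G w1 + (u 2 / β 0) • DE G w2 := by
    rw [← DE_lin]
    congr 1; ext i; fin_cases i <;> simp [u', w1, w2, hε, hβ]
    field_simp; ring
  have d3 : DE G w1 = (β 0 * (u 1)⁻¹) • DE G u' + (-(u 2 * (u 1)⁻¹)) • DE G w2 := by
    have := (hu 1).1
    rw [← DE_lin]
    congr 1; ext i; fin_cases i <;> simp [u', w1, w2, hε] <;> field_simp <;> ring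
  have hGM : ∀ i, ‖G i‖ ≤ M := fun i => hvM (RingHom.id ℂ) (.inr (.inl i))
  have hpM : ∀ i, ‖pt W p i‖ ≤ M := fun i => hvM (RingHom.id ℂ) (.inl i)
  have tel : ∀ k b : ℕ, k + b ≤ 1000 * a ^ 48 →
      ‖eval (pt W p) ((DE G u ^ k) ((DE G w2 ^ b) f)) -
        eval (pt W p) ((DE G u' ^ k) ((DE G w2 ^ b) f))‖ ≤ ‖ε‖ * E0 ^ 2 := fun k b h => by
    rw [← map_sub]
    refine (Bd.eval_le hM1 (Bd.tele hM1 hGM huM hu'M (fun i => by
      fin_cases i <;> simp [hM1, zero_le_one.trans hM1]) d1 (hFb.iter hM1 hGM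
      (fun i => (hw2 i).trans hM) b (hK _ (by omega))) k (hK _ (by omega))) hpM).trans ?_
    rw [mul_assoc]
    gcongr
    refine le_trans ?_ (hE2 (1 + k + b) (by omega))
    rw [pow_add K (1 + k), pow_add K 1, pow_one, mul_assoc, mul_assoc]
    gcongr
    exact hK' k (by omega)
  have hz : ∀ k b : ℕ, k < a ^ 46 → b < 3 * (300 * a ^ 48) + 1 →
      ‖eval (pt W p) ((DE G u ^ k) ((DE G w2 ^ b) f))‖ ≤ ‖ε‖ * E0 ^ 2 := fun k b h1 h2 => by
    have h3 := tri d2 (DE_comm _ _ _) (pt W p) (f := f) (θ := 0) (n1 := a ^ 46)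
      (n := a ^ 46 + (3 * (300 * a ^ 48) + 1))
      (fun k b h1 h2 => (norm_eq_zero.2 (hFv k h1 b (by omega))).le) k 0 b h1 (by omega)
    rw [mul_zero, norm_le_zero_iff] at h3
    have h4 := tel k b (by omega)
    rwa [show eval (pt W p) ((DE G u' ^ k) ((DE G w2 ^ b) f)) = 0 from h3, sub_zero] at h4
  have hx := hc A (a ^ 32) (a ^ 46) (3 * (300 * a ^ 48) + 1) (a ^ 6) W p u w2 F (E0 ^ 2)
    (‖ε‖ * E0 ^ 2) (by omega) s4 hS hw2 hFd (hFs.trans (by
      rw [pow_two]; gcongr; exact h7.trans (hKE 7 (by omega)))) (by positivity)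
    (fun k b h1 h2 => by rw [der, der, ← DE_pow, ← DE_pow]; exact hz k b h1 h2)
  have hθ : ∀ k b : ℕ, k < 3 * (300 * a ^ 48) + 1 → k + b < 3 * (300 * a ^ 48) + 1 →
      ‖eval (pt W p) ((DE G u' ^ k) ((DE G w2 ^ b) f))‖ ≤ E0 * Real.exp (a ^ 51) *
        (E0 ^ 2 / Real.exp (a ^ 52 / 2) + ‖ε‖ * E0 ^ 2 * Real.exp (a ^ 148)) + ‖ε‖ * E0 ^ 2 := by
    intro k b _ h2
    have h3 := hx k b (by omega)
    rw [der, der, ← DE_pow, ← DE_pow] at h3
    refine (norm_le_norm_add_norm_sub' _ _).trans (add_le_add (h3.trans ?_)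
      (by rw [norm_sub_rev]; exact tel k b (by omega)))
    have hf : ∀ j : ℕ, j ≤ a ^ 49 → (j.factorial : ℝ) ≤ K ^ j := fun j hj =>
      le_trans (by exact_mod_cast j.factorial_le_pow) (pow_le_pow_left₀ (by positivity) (hK' j hj) j)
    gcongr
    · refine le_trans ?_ (hKE (k + b) (by omega))
      rw [pow_add]
      gcongr
      exacts [hf k (by omega), hf b (by omega)]
    · have : c * (A * (k + b + 1) + a ^ 32 * A ^ 3 * (a ^ 6) ^ 3) ≤ a ^ 51 := by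
        calc _ ≤ c * (A ^ 3 * a ^ 50 + a ^ 32 * A ^ 3 * (a ^ 6) ^ 3) := by
              gcongr
              exact le_trans (by omega) (hm 49 50 (by norm_num))
          _ = 2 * c * A ^ 3 * a ^ 50 := by ring
          _ ≤ a * a ^ 50 := by gcongr
          _ = _ := by ring
      exact_mod_cast this
    · have h2 : Real.exp (1 / 2) ≤ 2 := by
        have := Real.exp_one_lt_d9
        have e : Real.exp (1 / 2) * Real.exp (1 / 2) = Real.exp 1 := by
          rw [← Real.exp_add]; norm_num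
        nlinarith [Real.exp_pos (1 / 2)]
      calc _ = Real.exp (1 / 2) ^ (a ^ 6 * a ^ 46) := by
            rw [← Real.exp_nat_mul]; congr 1; push_cast; ring
        _ ≤ _ := by gcongr
    · have : c * A * (a ^ 46 + (3 * (300 * a ^ 48) + 1) + a ^ 6 + 1) ^ 3 ≤ a ^ 148 := by
        calc _ ≤ a * (a ^ 49) ^ 3 := by
              gcongr
              · nlinarith
              · omega
          _ = _ := by ring
      exact_mod_cast this
  obtain ⟨H, h1, h2, h3⟩ := zero_lemma W β hβ p hreg F hF0 (a ^ 32) (300 * a ^ 48)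
    (Nat.one_le_pow _ _ (by omega)) hFd (by
      have : 0 < a ^ 96 := by positivity
      rw [show (a ^ 32) ^ 3 = a ^ 96 by ring, show (300 * a ^ 48) ^ 2 = 90000 * a ^ 96 by ring]
      omega) (by
      have : 4096 * a ^ 47 ≤ a ^ 48 := hp 47
      have := hm 32 47 (by norm_num)
      have : 0 < a ^ 32 := by positivity
      omega) fun i b hib => by
    rw [der, der, ← DE_pow, ← DE_pow]
    by_contra h0
    have h1 := Gm_liou hv hFi hFσ (a := i) (b := b) h0 (one_le_pow₀ hE1 (n := 2)) fun σ =>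
      (Gm_bd hM1 (hvM σ) hFb i b (hK _ (by omega))).trans (hE2 _ (by omega))
    have h2 := tri d3 (DE_comm _ _ _) (pt W p) hθ i 0 b (by omega) (by omega)
    have h3 : (‖β 0 * (u 1)⁻¹‖ + ‖-(u 2 * (u 1)⁻¹)‖) ^ i ≤ E0 := by
      refine le_trans (pow_le_pow_left₀ (by positivity) ?_ i) (hKE i (by omega))
      have e1 := mul_le_mul (hβe 0) (hu 1).2.2 (norm_nonneg _) (by positivity)
      have e2 := mul_le_mul (hu 2).2.1 (hu 1).2.2 (norm_nonneg _) (by positivity)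
      have e3 := hK 1 (by omega)
      rw [norm_neg, norm_mul, norm_mul]
      push_cast at e3
      nlinarith
    rw [← ha] at h1
    refine absurd (final a n1 hε1) (not_lt.2 (h1.trans ?_))
    gcongr
    exact h2.trans (by gcongr)
  refine ⟨H, h1, h2, fun J h4 h5 g hg h6 => ?_⟩
  obtain ⟨n, h7, h8, h9⟩ := h3 J h4 h5 g hg h6
  refine ⟨n, h7, h8.trans ?_, h9⟩
  rw [pow_mul, ← ha, show (a ^ 32) ^ 2 = a ^ 64 by ring]
  have : 4096 * a ^ 64 ≤ a ^ 65 := hp 64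
  have : 4096 * a ^ 65 ≤ a ^ 66 := hp 65
  have := hm 66 149 (by norm_num)
  omega

end Bar

end Pool.Agent.Lib.ZP3
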