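import Pool.Agent.Lib.ZP3.BakerBd
import Pool.Agent.Lib.ZP3.Arith

/-! The auxiliary polynomial (block BAR, second file). -/

namespace Pool.Agent.Lib.ZP3.Bar

open MvPolynomial

/-- index set of the twelve algebraic numbers -/
abbrev I12 := Var ⊕ (Fin 3 ⊕ Fin 3)

/-- the algebraic values of the construction -/
noncomputable def Gm (e : I12 → ℂ) (a b : ℕ) (f : R) : ℂ :=
  eval (fun v => e (.inl v))
    ((DE (fun i => e (.inr (.inl i))) ![e (.inr (.inr 1)), e (.inr (.inr 0)), 0] ^ a)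
      ((DE (fun i => e (.inr (.inl i))) ![e (.inr (.inr 2)), 0, e (.inr (.inr 0))] ^ b) f))

lemma Gm_conj (σ : ℂ →+* ℂ) (e : I12 → ℂ) (a b : ℕ) (f : R) :
    σ (Gm e a b f) = Gm (fun i => σ (e i)) a b (map σ f) := by
  have h : ∀ (x : Var → ℂ) (g : R), σ (eval x g) = eval (fun v => σ (x v)) (map σ g) :=
    fun x g => by rw [eval_map, ← coe_eval₂Hom, eval, map_eval₂Hom, RingHom.comp_id]
  have h1 : ∀ x y z : ℂ, (fun i => σ (![x, y, z] i)) = ![σ x, σ y, σ z] := fun x y z => by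
    ext i; fin_cases i <;> rfl
  rw [Gm, Gm, h, map_DE, map_DE, h1, h1, map_zero]

lemma Gm_bd {M B K : ℝ} {d : ℕ} {f : R} (hM : 1 ≤ M) {e : I12 → ℂ} (he : ∀ i, ‖e i‖ ≤ M)
    (h : Bd M d B f) (a b : ℕ) (hK : 7 * M ^ 2 * (d + b + a : ℕ) ≤ K) :
    ‖Gm e a b f‖ ≤ K ^ (a + b) * B := by
  have h0 : ‖(0 : ℂ)‖ ≤ M := by rw [norm_zero]; positivity
  rw [pow_add, mul_assoc]
  refine Bd.eval_le hM (Bd.iter hM (fun _ => he _) (fun i => ?_) (h.iter hM (fun _ => he _)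
    (fun i => ?_) b (le_trans ?_ hK)) a hK) fun _ => he _
  · fin_cases i
    exacts [he _, he _, h0]
  · fin_cases i
    exacts [he _, h0, he _]
  · exact mul_le_mul_of_nonneg_left (Nat.cast_le.2 (by omega)) (by positivity)

lemma Gm_liou {v : I12 → ℂ} {A : ℕ} (hv : ∀ i, AI (v i) A) {f : R} (hf : f ∈ IP)
    (hσ : ∀ σ : ℂ →+* ℂ, map σ f = f) {a b : ℕ} (h0 : Gm v a b f ≠ 0) {B : ℝ} (hB : 1 ≤ B)
    (hb : ∀ σ : ℂ →+* ℂ, ‖Gm (fun i => σ (v i)) a b f‖ ≤ B) :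
    1 ≤ ‖Gm v a b f‖ * B ^ A ^ 12 := by
  classical
  obtain ⟨E, hE, hE'⟩ := deg_joint fun i => (hv i).2.1
  refine liouville ?_ h0 ⟨E.image fun e => Gm e a b f, Finset.card_image_le.trans
    (by simpa using hE), fun σ => ?_⟩ hB fun σ => by rw [Gm_conj, hσ]; exact hb σ
  · refine eval_int (fun _ => (hv _).1) (DE_mem (fun _ => (hv _).1) (fun i => ?_) _
      (DE_mem (fun _ => (hv _).1) (fun i => ?_) _ hf))
    · fin_cases i
      exacts [(hv _).1, (hv _).1, isIntegral_zero]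
    · fin_cases i
      exacts [(hv _).1, isIntegral_zero, (hv _).1]
  · rw [Gm_conj, hσ]
    exact Finset.mem_image_of_mem _ (hE' σ)

lemma siegel {v : I12 → ℂ} {A : ℕ} (hv : ∀ i, AI (v i) A) (L T0 T2 : ℕ) {M K E0 : ℝ}
    (hM1 : 1 ≤ M) (hM : Real.exp A ≤ M) (hK1 : 1 ≤ K)
    (hK : 7 * M ^ 2 * (3 * L + T2 + T0 : ℕ) ≤ K) (hE : K ^ (T0 + T2) * M ^ (3 * L) ≤ E0)
    (hc : 4 * (A ^ 12 * (T0 * T2)) ≤ (L + 1) ^ 3) :
    ∃ F : MvPolynomial (Fin 3) ℂ, F ≠ 0 ∧ (∀ i, F.degreeOf i ≤ L) ∧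
      ∑ m ∈ F.support, ‖F.coeff m‖ ≤ 7 * (L + 1) ^ 6 * E0 ∧
      Bd M (3 * L) (7 * (L + 1) ^ 6 * E0 * M ^ (3 * L)) (rename Sum.inl F) ∧
      rename Sum.inl F ∈ IP ∧ (∀ σ : ℂ →+* ℂ, map σ (rename Sum.inl F : R) = rename Sum.inl F) ∧
      ∀ a < T0, ∀ b < T2, Gm v a b (rename Sum.inl F) = 0 := by
  classical
  obtain ⟨E, hE1, hE2⟩ := deg_joint fun i => (hv i).2.1
  let E' := E.filter fun e => ∀ i, ‖e i‖ ≤ M
  let mon : (Fin 3 → Fin (L + 1)) → R := fun l =>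
    C 1 * X (.inl 0) ^ (l 0 : ℕ) * X (.inl 1) ^ (l 1 : ℕ) * X (.inl 2) ^ (l 2 : ℕ)
  have hmon : ∀ l, Bd M (3 * L) (M ^ (3 * L)) (mon l) := fun l => by
    have h0 := (l 0).2
    have h1 := (l 1).2
    have h2 := (l 2).2
    refine ((((Bd.const 1).mul_pow _ _).mul_pow _ _).mul_pow _ _).mono (by omega) ?_
    rw [norm_one, one_mul, ← pow_add, ← pow_add]
    exact pow_le_pow_right₀ hM1 (by omega)
  have hE0 : 1 ≤ E0 := le_trans (one_le_mul_of_one_le_of_one_le (one_le_pow₀ hK1)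
    (one_le_pow₀ hM1)) hE
  have hcard : Fintype.card (Fin 3 → Fin (L + 1)) = (L + 1) ^ 3 := by simp
  obtain ⟨q, hq0, hq1, hq2⟩ := pigeon (r := E' × Fin T0 × Fin T2)
    (fun r l => Gm r.1 r.2.1 r.2.2 (mon l)) hE0 one_pos le_rfl (fun r l => by
      have h1 := r.2.1.2
      have h2 := r.2.2.2
      refine (Gm_bd hM1 (Finset.mem_filter.1 r.1.2).2 (hmon l) _ _
        (le_trans (by gcongr) hK)).trans (le_trans ?_ hE)
      gcongr) (by rw [hcard]; positivity) (by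
      rw [hcard]
      refine le_trans ?_ hc
      simp only [Fintype.card_prod, Fintype.card_coe, Fintype.card_fin]
      gcongr
      exact (Finset.card_filter_le _ _).trans (by simpa using hE1))
  let ι : (Fin 3 → Fin (L + 1)) → Fin 3 →₀ ℕ := fun l =>
    Finsupp.equivFunOnFinite.symm fun i => (l i : ℕ)
  have hι : Function.Injective ι := fun l l' h => funext fun i =>
    Fin.ext (congrFun (Finsupp.equivFunOnFinite.symm.injective h) i)
  let F : MvPolynomial (Fin 3) ℂ := ∑ l, monomial (ι l) (q l : ℂ)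
  have hco : ∀ l, F.coeff (ι l) = q l := fun l => by
    simp only [F, coeff_sum, coeff_monomial, hι.eq_iff]
    simp
  have hsup : F.support ⊆ Finset.univ.image ι := fun m hm => by
    obtain ⟨l, -, hl⟩ := Finset.mem_biUnion.1 (support_sum hm)
    rw [Finset.mem_singleton.1 (support_monomial_subset hl)]
    exact Finset.mem_image_of_mem _ (Finset.mem_univ l)
  have hF : (rename Sum.inl F : R) = ∑ l, (q l : ℂ) • mon l := by
    rw [map_sum]
    refine Finset.sum_congr rfl fun l _ => ?_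
    rw [monomial_eq, Finsupp.prod_fintype _ _ (by simp), Fin.prod_univ_three, smul_eq_C_mul]
    simp [mon, ι]
  have hsum : ∑ l, ‖(q l : ℂ)‖ ≤ 7 * (L + 1) ^ 6 * E0 := by
    refine (Finset.sum_le_card_nsmul _ _ _ fun l _ => (Complex.norm_intCast _).trans_le
      (hq1 l)).trans (le_of_eq ?_)
    rw [Finset.card_univ, hcard, nsmul_eq_mul]; push_cast; ring
  have hIP : (rename Sum.inl F : R) ∈ IP := by
    rw [hF]
    refine sum_mem fun l _ => ?_
    rw [smul_eq_C_mul]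
    exact mul_mem (C_mem (isIntegral_intCast _)) (mul_mem (mul_mem (mul_mem
      (C_mem isIntegral_one) (pow_mem (X_mem _) _)) (pow_mem (X_mem _) _)) (pow_mem (X_mem _) _))
  have hσ : ∀ σ : ℂ →+* ℂ, map σ (rename Sum.inl F : R) = rename Sum.inl F := fun σ => by
    rw [hF, map_sum]
    refine Finset.sum_congr rfl fun l _ => ?_
    simp [smul_eq_C_mul, mon]
  refine ⟨F, fun h => hq0 (funext fun l => ?_), fun i => degreeOf_le_iff.2 fun m hm => ?_, ?_, ?_,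
    hIP, hσ, fun a ha b hb => ?_⟩
  · have := hco l
    rw [h, coeff_zero] at this
    exact_mod_cast this.symm
  · obtain ⟨l, -, rfl⟩ := Finset.mem_image.1 (hsup hm)
    exact Nat.lt_succ_iff.1 (l i).2
  · refine (Finset.sum_le_sum_of_subset_of_nonneg hsup fun _ _ _ => norm_nonneg _).trans ?_
    rw [Finset.sum_image fun _ _ _ _ h => hι h]
    simpa only [hco] using hsum
  · rw [hF]
    refine (Bd.sum _ fun l _ => (hmon l).smul _).mono le_rfl ?_
    rw [← Finset.sum_mul]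
    gcongr
  · have key : ∀ σ : ℂ →+* ℂ, ‖Gm (fun i => σ (v i)) a b (rename Sum.inl F)‖ < 1 := fun σ => by
      have := hq2 ⟨⟨_, Finset.mem_filter.2 ⟨hE2 σ, fun i => ((hv i).2.2 σ).trans hM⟩⟩,
        ⟨a, ha⟩, ⟨b, hb⟩⟩
      simpa only [hF, Gm, map_sum, map_smul, smul_eval] using this
    by_contra h0
    have := Gm_liou hv hIP hσ h0 le_rfl fun σ => (key σ).le
    rw [one_pow, mul_one] at this
    exact absurd (key (RingHom.id ℂ)) (not_lt.2 this)

end Pool.Agent.Lib.ZP3.Bar
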