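import Pool.Agent.Lib.ZP3.ChartCore
import Pool.Agent.Lib.ZP3.An
import Pool.Agent.Lib.ZP3.JBasic
import Pool.Agent.Lib.ZP3.JEst

/-! Block CH: charts and functional independence. -/

open UpperHalfPlane Filter Topology Metric
open scoped Real

namespace Pool.Agent.Lib.ZP3

open Pool.Agent.Lib.MP_0704bf_ag

theorem CH.facts : CH.Facts :=
  ⟨fun _ _ hg hnc ↦ lift hg hnc, j_surj, fun _ _ h ↦ j_inj h, fun _ hz ↦ analyticAt_jc hz,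
    fun _ hz ↦ jc_nonconst hz, exists_cusp_fun⟩

variable {A B : Fin 3 → Polynomial ℂ}

theorem chart_reg (h : Adm A B) {t0 : ℂ} (ht : NP B t0) : ∃ (E : ℕ) (r : ℝ) (f : Fin 3 → ℂ → ℂ),
    0 < E ∧ 0 < r ∧ (∀ i, AnalyticOnNhd ℂ (f i) (ball 0 r)) ∧ ∀ u ∈ ball (0 : ℂ) r,
      NP B (t0 + u ^ E) ∧ ∀ i, 0 < (f i u).im ∧ jc (f i u) = xv A B i (t0 + u ^ E) :=
  (fun _ ↦ CH.chart_reg CH.facts ht) h

theorem chart_cusp (h : Adm A B) {P : ℂ} {k : Fin 3} (hP : (B k).eval P = 0) :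
    ∃ (E m : ℕ) (r : ℝ) (g : Fin 3 → ℂ → ℂ), 0 < E ∧ 0 < m ∧ 0 < r ∧
      (∀ i, AnalyticOnNhd ℂ (g i) (ball 0 r)) ∧
      (∀ u ∈ ball (0 : ℂ) r, ∀ i, i ≠ k → 0 < (g i u).im ∧ jc (g i u) = xv A B i (P + u ^ E)) ∧
      ∀ w : ℂ, ‖Complex.exp w‖ < r → NP B (P + Complex.exp w ^ E) ∧
        1 ≤ (m / (2 * π * Complex.I) * w + g k (Complex.exp w)).im ∧
        jc (m / (2 * π * Complex.I) * w + g k (Complex.exp w)) =
          xv A B k (P + Complex.exp w ^ E) :=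
  CH.chart_cusp CH.facts h hP

/-- functional independence (Ax-Schanuel for logarithms, by monodromy at the cusps) -/
theorem ax_log (h : Adm A B) {U : Set ℂ} (hU : IsOpen U) (hc : IsPreconnected U) {φ : ℂ → ℂ}
    {f : Fin 3 → ℂ → ℂ} (hφ : AnalyticOnNhd ℂ φ U) (hnc : ∃ s ∈ U, ∃ s' ∈ U, φ s ≠ φ s')
    (hf : ∀ i, AnalyticOnNhd ℂ (f i) U)
    (hj : ∀ s ∈ U, NP B (φ s) ∧ ∀ i, 0 < (f i s).im ∧ jc (f i s) = xv A B i (φ s))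
    (c : MvPolynomial (Fin 3) ℂ) (h0 : ∀ s ∈ U, MvPolynomial.eval (fun i ↦ f i s) c = 0) :
    c = 0 :=
  (fun _ ↦ CH.ax_log CH.facts h hU hc hφ hnc hj c h0) hf

end Pool.Agent.Lib.ZP3
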