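import Pool.Agent.Lib.ZP3.Arith

/-! Reduction of monomials and relations between coordinates (block RED). -/

open Finset

namespace Pool.Agent.Lib.ZP3

/-- every set of `m + 1` of the eight coordinates satisfies a relation of degree `≤ e` on `S` -/
def Hyp (y : ℂ → Fin 8 → ℤ) (S : Finset ℂ) (m e : ℕ) : Prop :=
  ∀ I : Finset (Fin 8), I.card = m + 1 → ∃ Q : MvPolynomial (Fin 8) ℤ, Q ≠ 0 ∧ Q.vars ⊆ I ∧
    Q.totalDegree ≤ e ∧ ∀ s ∈ S, MvPolynomial.eval (y s) Q = 0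

namespace Red

/-- the weight of an exponent -/
def wt (e : ℕ) (α : Fin 8 →₀ ℕ) : ℕ := ∑ i : Fin 8, (e + 1) ^ (i : ℕ) * α i

theorem wt_add (e : ℕ) (α β : Fin 8 →₀ ℕ) : wt e (α + β) = wt e α + wt e β := by
  simp [wt, mul_add, Finset.sum_add_distrib]

theorem wt_inj {e : ℕ} {α β : Fin 8 →₀ ℕ} (hα : ∀ i, α i ≤ e) (hβ : ∀ i, β i ≤ e)
    (h : wt e α = wt e β) : α = β := by
  have h1 : finFunctionFinEquiv (fun i : Fin 8 ↦ (⟨α i, Nat.lt_succ_of_le (hα i)⟩ : Fin (e + 1))) =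
      finFunctionFinEquiv (fun i : Fin 8 ↦ (⟨β i, Nat.lt_succ_of_le (hβ i)⟩ : Fin (e + 1))) := by
    apply Fin.ext
    rw [finFunctionFinEquiv_apply, finFunctionFinEquiv_apply]
    simpa [wt, mul_comm] using h
  have h2 := finFunctionFinEquiv.injective h1
  ext i
  have := congrFun h2 i
  simpa using this

theorem sum_le_wt (e : ℕ) (α : Fin 8 →₀ ℕ) : ∑ i, α i ≤ wt e α := by
  refine Finset.sum_le_sum fun i _ ↦ ?_
  exact Nat.le_mul_of_pos_left _ (by positivity)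

theorem wt_le (e : ℕ) (α : Fin 8 →₀ ℕ) : wt e α ≤ (e + 1) ^ 7 * ∑ i, α i := by
  rw [Finset.mul_sum]
  refine Finset.sum_le_sum fun i _ ↦ Nat.mul_le_mul_right _ ?_
  exact Nat.pow_le_pow_right (by omega) (by omega)

theorem card_Iic_le {ι : Type} [Fintype ι] [DecidableEq ι] (f : ι →₀ ℕ) :
    (Finset.Iic f).card = ∏ i, (f i + 1) := by
  rw [Finsupp.card_Iic]
  simp only [Nat.card_Iic]
  refine Finset.prod_subset (Finset.subset_univ _) fun i _ hi ↦ ?_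
  simp only [Finsupp.mem_support_iff, not_not] at hi
  simp [hi]

/-- the box with sides `W` on `J` and `e` elsewhere -/
noncomputable def box (J : Finset (Fin 8)) (W e : ℕ) : Fin 8 →₀ ℕ :=
  Finsupp.equivFunOnFinite.symm fun i ↦ if i ∈ J then W else e

theorem box_apply (J : Finset (Fin 8)) (W e : ℕ) (i : Fin 8) :
    box J W e i = if i ∈ J then W else e := by simp [box]

theorem card_box (J : Finset (Fin 8)) (W e : ℕ) :
    (Finset.Iic (box J W e)).card = (W + 1) ^ J.card * (e + 1) ^ (8 - J.card) := by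
  rw [card_Iic_le]
  simp only [box_apply]
  rw [← Finset.prod_mul_prod_compl J]
  congr 1
  · rw [Finset.prod_congr rfl (g := fun _ ↦ W + 1) fun i hi ↦ by simp [hi]]
    simp
  · rw [Finset.prod_congr rfl (g := fun _ ↦ e + 1) fun i hi ↦ by
      simp only [Finset.mem_compl] at hi; simp [hi]]
    simp [Finset.card_compl]

/-- standard exponents of weight at most `W` -/
noncomputable def std (m e W : ℕ) : Finset (Fin 8 →₀ ℕ) :=
  (Finset.Iic (box Finset.univ W 0)).filter fun β ↦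
    wt e β ≤ W ∧ (Finset.univ.filter fun i ↦ e ≤ β i).card ≤ m

theorem mem_std {m e W : ℕ} {β : Fin 8 →₀ ℕ} :
    β ∈ std m e W ↔ wt e β ≤ W ∧ (Finset.univ.filter fun i ↦ e ≤ β i).card ≤ m := by
  simp only [std, Finset.mem_filter, Finset.mem_Iic, and_iff_right_iff_imp]
  rintro ⟨h, -⟩
  intro i
  rw [box_apply]
  simp only [Finset.mem_univ, if_true]
  exact (Finset.single_le_sum (f := fun i ↦ β i) (fun _ _ ↦ Nat.zero_le _)
    (Finset.mem_univ i)).trans ((sum_le_wt e β).trans h)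

theorem card_std (m e W : ℕ) : (std m e W).card ≤ 2 ^ 8 * ((W + 1) ^ m * (e + 1) ^ 8) := by
  classical
  have hsub : std m e W ⊆ ((Finset.univ : Finset (Finset (Fin 8))).filter
      fun J ↦ J.card ≤ m).biUnion fun J ↦ Finset.Iic (box J W e) := by
    intro β hβ
    have hβ' := mem_std.1 hβ
    simp only [Finset.mem_biUnion, Finset.mem_filter, Finset.mem_univ, true_and, Finset.mem_Iic]
    refine ⟨_, hβ'.2, fun i ↦ ?_⟩
    rw [box_apply]
    split_ifs with h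
    · exact (Finset.single_le_sum (f := fun i ↦ β i) (fun _ _ ↦ Nat.zero_le _)
        (Finset.mem_univ i)).trans ((sum_le_wt e β).trans hβ'.1)
    · simp only [Finset.mem_filter, Finset.mem_univ, true_and, not_le] at h
      exact h.le
  refine (Finset.card_le_card hsub).trans ?_
  refine (Finset.card_biUnion_le_card_mul _ _ ((W + 1) ^ m * (e + 1) ^ 8) ?_).trans ?_
  · intro J hJ
    simp only [Finset.mem_filter, Finset.mem_univ, true_and] at hJ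
    rw [card_box]
    exact Nat.mul_le_mul (Nat.pow_le_pow_right (by omega) hJ)
      (Nat.pow_le_pow_right (by omega) (by omega))
  · refine Nat.mul_le_mul_right _ ?_
    refine (Finset.card_filter_le _ _).trans ?_
    simp

theorem prod_pow_add (y : Fin 8 → ℂ) (α β : Fin 8 →₀ ℕ) :
    ∏ i, y i ^ (α + β) i = (∏ i, y i ^ α i) * ∏ i, y i ^ β i := by
  simp [pow_add, Finset.prod_mul_distrib]

theorem reduce_aux (m e W : ℕ) (𝒜 : Subring (ℂ → ℂ)) (D : Set ℂ) (S : Finset ℂ)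
    (y : ℂ → Fin 8 → ℂ) (K : ℝ) (hK : 1 ≤ K)
    (h : ∀ I : Finset (Fin 8), I.card = m + 1 → ∃ (l : Fin 8 →₀ ℕ) (T : Finset (Fin 8 →₀ ℕ))
      (ρ : (Fin 8 →₀ ℕ) → ℂ → ℂ), l.support ⊆ I ∧ (∀ i, l i ≤ e) ∧
      (∀ α ∈ T, ρ α ∈ 𝒜 ∧ wt e α < wt e l) ∧
      (∀ s ∈ D, ∑ α ∈ T, ‖ρ α s‖ ≤ K) ∧
      ∀ s ∈ S, ∏ i, y s i ^ l i = ∑ α ∈ T, ρ α s * ∏ i, y s i ^ α i) :
    ∀ (w : ℕ) (γ : Fin 8 →₀ ℕ), wt e γ = w → w ≤ W →
      ∃ a : (Fin 8 →₀ ℕ) → ℂ → ℂ, (∀ β, a β ∈ 𝒜) ∧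
        (∀ s ∈ D, ∑ β ∈ std m e W, ‖a β s‖ ≤ K ^ w) ∧
        ∀ s ∈ S, ∏ i, y s i ^ γ i = ∑ β ∈ std m e W, a β s * ∏ i, y s i ^ β i := by
  classical
  intro w
  induction w using Nat.strong_induction_on with
  | _ w ih =>
  intro γ hγ hW
  by_cases hs : (Finset.univ.filter fun i ↦ e ≤ γ i).card ≤ m
  · have hmem : γ ∈ std m e W := mem_std.2 ⟨hγ ▸ hW, hs⟩
    refine ⟨fun β ↦ if β = γ then 1 else 0, fun β ↦ ?_, fun s _ ↦ ?_, fun s _ ↦ ?_⟩
    · dsimp only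
      split_ifs
      · exact 𝒜.one_mem
      · exact 𝒜.zero_mem
    · rw [Finset.sum_eq_single γ]
      · simpa using one_le_pow₀ hK
      · intro β _ hβ; simp [hβ]
      · intro h'; exact absurd hmem h'
    · rw [Finset.sum_eq_single γ]
      · simp
      · intro β _ hβ; simp [hβ]
      · intro h'; exact absurd hmem h'
  · obtain ⟨I, hI, hIc⟩ := Finset.exists_subset_card_eq (s := Finset.univ.filter fun i ↦ e ≤ γ i)
      (n := m + 1) (by omega)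
    obtain ⟨l, T, ρ, hl, hle, hT, hD, hS⟩ := h I hIc
    have hlγ : l ≤ γ := by
      intro i
      by_cases hi : l i = 0
      · simp [hi]
      · have := hI (hl (Finsupp.mem_support_iff.2 hi))
        simp only [Finset.mem_filter, Finset.mem_univ, true_and] at this
        exact (hle i).trans this
    obtain ⟨γ', rfl⟩ := exists_add_of_le hlγ
    have hlt : ∀ α ∈ T, wt e (α + γ') < w := by
      intro α hα
      rw [← hγ, wt_add, wt_add]
      have := (hT α hα).2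
      omega
    have hex : ∀ α : Fin 8 →₀ ℕ, ∃ a : (Fin 8 →₀ ℕ) → ℂ → ℂ, α ∈ T → ((∀ β, a β ∈ 𝒜) ∧
        (∀ s ∈ D, ∑ β ∈ std m e W, ‖a β s‖ ≤ K ^ (wt e (α + γ'))) ∧
        ∀ s ∈ S, ∏ i, y s i ^ (α + γ') i = ∑ β ∈ std m e W, a β s * ∏ i, y s i ^ β i) := by
      intro α
      by_cases hα : α ∈ T
      · obtain ⟨a, ha⟩ := ih _ (hlt α hα) (α + γ') rfl ((hlt α hα).le.trans hW)
        exact ⟨a, fun _ ↦ ha⟩
      · exact ⟨0, fun h' ↦ absurd h' hα⟩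
    choose a ha using hex
    refine ⟨fun β ↦ ∑ α ∈ T, ρ α * a α β, fun β ↦ ?_, fun s hs ↦ ?_, fun s hs ↦ ?_⟩
    · exact 𝒜.sum_mem fun α hα ↦ 𝒜.mul_mem (hT α hα).1 ((ha α hα).1 β)
    · have hK0 : 0 < K := by linarith
      have h1 : ∑ β ∈ std m e W, ‖(∑ α ∈ T, ρ α * a α β) s‖ ≤
          ∑ α ∈ T, ‖ρ α s‖ * K ^ (wt e (α + γ')) := by
        calc ∑ β ∈ std m e W, ‖(∑ α ∈ T, ρ α * a α β) s‖
            ≤ ∑ β ∈ std m e W, ∑ α ∈ T, ‖ρ α s‖ * ‖a α β s‖ := by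
              refine Finset.sum_le_sum fun β _ ↦ ?_
              rw [Finset.sum_apply]
              refine (norm_sum_le _ _).trans (Finset.sum_le_sum fun α _ ↦ ?_)
              simp
          _ = ∑ α ∈ T, ‖ρ α s‖ * ∑ β ∈ std m e W, ‖a α β s‖ := by
              rw [Finset.sum_comm]; simp [Finset.mul_sum]
          _ ≤ _ := Finset.sum_le_sum fun α hα ↦
              mul_le_mul_of_nonneg_left ((ha α hα).2.1 s hs) (norm_nonneg _)
      refine h1.trans (le_of_mul_le_mul_left ?_ hK0)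
      calc K * ∑ α ∈ T, ‖ρ α s‖ * K ^ (wt e (α + γ'))
          = ∑ α ∈ T, ‖ρ α s‖ * K ^ (wt e (α + γ') + 1) := by
            rw [Finset.mul_sum]; refine Finset.sum_congr rfl fun α _ ↦ by ring
        _ ≤ ∑ α ∈ T, ‖ρ α s‖ * K ^ w := Finset.sum_le_sum fun α hα ↦
            mul_le_mul_of_nonneg_left (pow_le_pow_right₀ hK (hlt α hα)) (norm_nonneg _)
        _ = (∑ α ∈ T, ‖ρ α s‖) * K ^ w := by rw [Finset.sum_mul]
        _ ≤ K * K ^ w := mul_le_mul_of_nonneg_right (hD s hs) (by positivity)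
    · rw [prod_pow_add, hS s hs, Finset.sum_mul]
      simp only [Finset.sum_apply, Pi.mul_apply, Finset.sum_mul]
      rw [Finset.sum_comm]
      refine Finset.sum_congr rfl fun α hα ↦ ?_
      rw [mul_assoc, ← prod_pow_add, (ha α hα).2.2 s hs, Finset.mul_sum]
      refine Finset.sum_congr rfl fun β _ ↦ by ring

end Red

open Red

/-- the weight `∑ (e+1)^i α i` has a strict maximum on exponents bounded by `e` -/
theorem exists_lead (e : ℕ) (T : Finset (Fin 8 →₀ ℕ)) (hT : T.Nonempty)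
    (he : ∀ α ∈ T, ∀ i, α i ≤ e) : ∃ l ∈ T, ∀ α ∈ T, α ≠ l →
      ∑ i : Fin 8, (e + 1) ^ (i : ℕ) * α i < ∑ i : Fin 8, (e + 1) ^ (i : ℕ) * l i := by
  obtain ⟨l, hl, hmax⟩ := Finset.exists_max_image T (wt e) hT
  refine ⟨l, hl, fun α hα hne ↦ ?_⟩
  exact lt_of_le_of_ne (hmax α hα) fun h ↦ hne (wt_inj (he α hα) (he l hl) h)

/-- reduction of monomials to standard monomials; the coefficients live in a subring `𝒜` of
functions and are bounded on `D` -/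
theorem reduce (m e : ℕ) : ∃ c : ℕ, 0 < c ∧ ∀ (𝒜 : Subring (ℂ → ℂ)) (D : Set ℂ) (S : Finset ℂ)
    (y : ℂ → Fin 8 → ℂ) (K : ℝ), 1 ≤ K →
    (∀ I : Finset (Fin 8), I.card = m + 1 → ∃ (l : Fin 8 →₀ ℕ) (T : Finset (Fin 8 →₀ ℕ))
      (ρ : (Fin 8 →₀ ℕ) → ℂ → ℂ), l.support ⊆ I ∧ (∀ i, l i ≤ e) ∧
      (∀ α ∈ T, ρ α ∈ 𝒜 ∧
        ∑ i : Fin 8, (e + 1) ^ (i : ℕ) * α i < ∑ i : Fin 8, (e + 1) ^ (i : ℕ) * l i) ∧
      (∀ s ∈ D, ∑ α ∈ T, ‖ρ α s‖ ≤ K) ∧
      ∀ s ∈ S, ∏ i, y s i ^ l i = ∑ α ∈ T, ρ α s * ∏ i, y s i ^ α i) →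
    ∀ n : ℕ, ∃ (Bs : Finset (Fin 8 →₀ ℕ)), Bs.card ≤ c * (n + 1) ^ m ∧
      (∀ β ∈ Bs, ∑ i, β i ≤ c * n) ∧ ∀ γ : Fin 8 →₀ ℕ, ∑ i, γ i ≤ n →
        ∃ a : (Fin 8 →₀ ℕ) → ℂ → ℂ, (∀ β, a β ∈ 𝒜) ∧
          (∀ s ∈ D, ∑ β ∈ Bs, ‖a β s‖ ≤ K ^ (c * n)) ∧
          ∀ s ∈ S, ∏ i, y s i ^ γ i = ∑ β ∈ Bs, a β s * ∏ i, y s i ^ β i := by
  refine ⟨2 ^ 8 * (((e + 1) ^ 7) ^ m * (e + 1) ^ 8), by positivity, ?_⟩
  intro 𝒜 D S y K hK h n
  have hc : (e + 1) ^ 7 ≤ 2 ^ 8 * (((e + 1) ^ 7) ^ m * (e + 1) ^ 8) := by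
    calc (e + 1) ^ 7 ≤ (e + 1) ^ 8 := Nat.pow_le_pow_right (by omega) (by omega)
      _ ≤ ((e + 1) ^ 7) ^ m * (e + 1) ^ 8 := Nat.le_mul_of_pos_left _ (by positivity)
      _ ≤ _ := Nat.le_mul_of_pos_left _ (by positivity)
  have hW : (e + 1) ^ 7 * n ≤ 2 ^ 8 * (((e + 1) ^ 7) ^ m * (e + 1) ^ 8) * n :=
    Nat.mul_le_mul_right _ hc
  refine ⟨std m e ((e + 1) ^ 7 * n), ?_, fun β hβ ↦ ?_, fun γ hγ ↦ ?_⟩
  · refine (card_std _ _ _).trans ?_
    have h1 : (e + 1) ^ 7 * n + 1 ≤ (e + 1) ^ 7 * (n + 1) := by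
      have : 0 < (e + 1) ^ 7 := by positivity
      nlinarith
    calc 2 ^ 8 * (((e + 1) ^ 7 * n + 1) ^ m * (e + 1) ^ 8)
        ≤ 2 ^ 8 * (((e + 1) ^ 7 * (n + 1)) ^ m * (e + 1) ^ 8) := by gcongr
      _ = _ := by rw [mul_pow]; ring
  · exact (sum_le_wt e β).trans ((mem_std.1 hβ).1.trans hW)
  · have h1 : wt e γ ≤ (e + 1) ^ 7 * n := (wt_le e γ).trans (Nat.mul_le_mul_left _ hγ)
    obtain ⟨a, ha1, ha2, ha3⟩ := reduce_aux m e ((e + 1) ^ 7 * n) 𝒜 D S y K hK h _ γ rfl h1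
    exact ⟨a, ha1, fun s hs ↦ (ha2 s hs).trans (pow_le_pow_right₀ hK (h1.trans hW)), ha3⟩

namespace Red

theorem small_set (Bs : Finset (Fin 8 →₀ ℕ)) (y : ℂ → Fin 8 → ℂ) (S : Finset ℂ) :
    ∃ S0 : Finset ℂ, S0 ⊆ S ∧ S0.card ≤ Bs.card ∧ ∀ a : (Fin 8 →₀ ℕ) → ℂ,
      (∀ s ∈ S0, ∑ β ∈ Bs, a β * ∏ i, y s i ^ β i = 0) →
      ∀ s ∈ S, ∑ β ∈ Bs, a β * ∏ i, y s i ^ β i = 0 := by
  classical
  set u : ℂ → Bs → ℂ := fun s β ↦ ∏ i, y s i ^ β.1 i with hu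
  obtain ⟨t, ht, hcard, hspan, -⟩ :=
    Submodule.exists_finset_span_eq_linearIndepOn ℂ (u '' (S : Set ℂ))
  obtain ⟨S0, hS0, hinj, himg⟩ := Finset.exists_subset_injOn_image_eq_of_surjOn (f := u)
    (S : Set ℂ) t ht
  refine ⟨S0, by exact_mod_cast hS0, ?_, fun a ha s hs ↦ ?_⟩
  · rw [← Finset.card_image_of_injOn hinj, himg, hcard]
    refine (Submodule.finrank_le _).trans ?_
    simp
  · let φ : (Bs → ℂ) →ₗ[ℂ] ℂ := ∑ β : Bs, a β.1 • LinearMap.proj β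
    have hφ : ∀ s, φ (u s) = ∑ β ∈ Bs, a β * ∏ i, y s i ^ β i := by
      intro s
      simp only [φ, LinearMap.sum_apply, LinearMap.smul_apply, LinearMap.proj_apply, smul_eq_mul,
        hu]
      exact Finset.sum_coe_sort Bs fun β ↦ a β * ∏ i, y s i ^ β i
    have hker : Submodule.span ℂ (t : Set (Bs → ℂ)) ≤ LinearMap.ker φ := by
      rw [Submodule.span_le]
      intro v hv
      rw [← himg] at hv
      obtain ⟨s', hs', rfl⟩ := Finset.mem_image.1 (Finset.mem_coe.1 hv)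
      simp only [SetLike.mem_coe, LinearMap.mem_ker]
      rw [hφ, ha s' hs']
    rw [← hφ]
    apply hker
    rw [hspan]
    exact Submodule.subset_span ⟨s, hs, rfl⟩

theorem cast_eval (y : Fin 8 → ℤ) (q : MvPolynomial (Fin 8) ℤ) :
    ((MvPolynomial.eval y q : ℤ) : ℂ) =
      ∑ γ ∈ q.support, ((q.coeff γ : ℤ) : ℂ) * ∏ i, (y i : ℂ) ^ γ i := by
  rw [MvPolynomial.eval_eq']
  push_cast
  rfl

theorem sum_le_totalDegree {q : MvPolynomial (Fin 8) ℤ} {γ : Fin 8 →₀ ℕ} (h : γ ∈ q.support) :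
    ∑ i, γ i ≤ q.totalDegree := by
  have := MvPolynomial.le_totalDegree h
  rwa [Finsupp.sum_fintype _ _ (fun _ ↦ rfl)] at this

/-- polynomials of degree at most `n` vanishing on a small subset vanish on `S` -/
theorem span_lemma (m e : ℕ) : ∃ c : ℕ, 0 < c ∧ ∀ (y : ℂ → Fin 8 → ℤ) (S : Finset ℂ),
    Hyp y S m e → ∀ n : ℕ, ∃ S0 : Finset ℂ, S0 ⊆ S ∧ S0.card ≤ c * (n + 1) ^ m ∧
      ∀ q : MvPolynomial (Fin 8) ℤ, q.totalDegree ≤ n →
        (∀ s ∈ S0, MvPolynomial.eval (y s) q = 0) → ∀ s ∈ S, MvPolynomial.eval (y s) q = 0 := by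
  classical
  obtain ⟨c, hc, hred⟩ := reduce m e
  refine ⟨c, hc, fun y S hH n ↦ ?_⟩
  obtain ⟨Bs, hcard, -, hB⟩ := hred (Pi.constRingHom ℂ ℂ).range ∅ S (fun s i ↦ (y s i : ℂ)) 1
    le_rfl (by
      intro I hI
      obtain ⟨Q, hQ0, hQv, hQd, hQS⟩ := hH I hI
      have hle : ∀ α ∈ Q.support, ∀ i, α i ≤ e := fun α hα i ↦
        (Finset.single_le_sum (f := fun i ↦ α i) (fun _ _ ↦ Nat.zero_le _)
          (Finset.mem_univ i)).trans ((sum_le_totalDegree hα).trans hQd)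
      obtain ⟨l, hl, hmax⟩ := exists_lead e Q.support (MvPolynomial.support_nonempty.2 hQ0) hle
      have hl0 : ((Q.coeff l : ℤ) : ℂ) ≠ 0 := by
        exact_mod_cast MvPolynomial.mem_support_iff.1 hl
      refine ⟨l, Q.support.erase l, fun α _ ↦ -((Q.coeff α : ℤ) : ℂ) / ((Q.coeff l : ℤ) : ℂ), ?_, hle l hl,
        fun α hα ↦ ⟨⟨_, rfl⟩, hmax α (Finset.mem_of_mem_erase hα) (Finset.ne_of_mem_erase hα)⟩,
        fun s hs ↦ absurd hs (Set.notMem_empty s), fun s hs ↦ ?_⟩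
      · intro i hi
        exact hQv ((MvPolynomial.mem_vars_iff_mem_support i).2 ⟨l, hl, hi⟩)
      · have h1 := cast_eval (y s) Q
        rw [hQS s hs, ← Finset.add_sum_erase _ _ hl] at h1
        have h2 : ∑ α ∈ Q.support.erase l, -((Q.coeff α : ℤ) : ℂ) / ((Q.coeff l : ℤ) : ℂ) *
            ∏ i, (y s i : ℂ) ^ α i = -(∑ α ∈ Q.support.erase l, ((Q.coeff α : ℤ) : ℂ) *
              ∏ i, (y s i : ℂ) ^ α i) / ((Q.coeff l : ℤ) : ℂ) := by
          rw [← Finset.sum_neg_distrib, Finset.sum_div]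
          refine Finset.sum_congr rfl fun α _ ↦ by ring
        rw [h2, eq_div_iff hl0]
        push_cast at h1
        linear_combination -h1) n
  obtain ⟨S0, hS0, hc0, hS⟩ := small_set Bs (fun s i ↦ (y s i : ℂ)) S
  refine ⟨S0, hS0, hc0.trans hcard, fun q hq h0 ↦ ?_⟩
  have hex : ∀ γ : Fin 8 →₀ ℕ, ∃ a : (Fin 8 →₀ ℕ) → ℂ, γ ∈ q.support →
      ∀ s ∈ S, ∏ i, (y s i : ℂ) ^ γ i = ∑ β ∈ Bs, a β * ∏ i, (y s i : ℂ) ^ β i := by
    intro γ
    by_cases hγ : γ ∈ q.support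
    · obtain ⟨a, ha, -, ha'⟩ := hB γ ((sum_le_totalDegree hγ).trans hq)
      choose a0 ha0 using ha
      refine ⟨a0, fun _ s hs ↦ ?_⟩
      rw [ha' s hs]
      refine Finset.sum_congr rfl fun β _ ↦ ?_
      rw [← ha0 β]
      rfl
    · exact ⟨0, fun h ↦ absurd h hγ⟩
  choose a ha using hex
  have key : ∀ s ∈ S, ((MvPolynomial.eval (y s) q : ℤ) : ℂ) =
      ∑ β ∈ Bs, (∑ γ ∈ q.support, ((q.coeff γ : ℤ) : ℂ) * a γ β) * ∏ i, (y s i : ℂ) ^ β i := by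
    intro s hs
    rw [cast_eval]
    simp only [Finset.sum_mul]
    rw [Finset.sum_comm]
    refine Finset.sum_congr rfl fun γ hγ ↦ ?_
    rw [ha γ hγ s hs, Finset.mul_sum]
    refine Finset.sum_congr rfl fun β _ ↦ by ring
  intro s hs
  have := hS _ (fun s hs ↦ by rw [← key s (hS0 hs), h0 s hs]; simp) s hs
  rw [← key s hs] at this
  exact_mod_cast this

/-- the cleared monomial -/
def mon {A : Type*} [CommRing A] (k : ℕ) (y : Fin 8 → A) (t : A)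
    (x : (Fin 8 →₀ ℕ) × (Fin 3 →₀ ℕ)) : A :=
  (∏ i, y i ^ x.1 i) * (t ^ x.2 0 * ((y 0 * t + y 1) ^ x.2 1 * (y 2 * t + y 3) ^ (k - x.2 1)) *
    ((y 4 * t + y 5) ^ x.2 2 * (y 6 * t + y 7) ^ (k - x.2 2)))

theorem map_mon {A A' : Type*} [CommRing A] [CommRing A'] (φ : A →+* A') (k : ℕ) (y : Fin 8 → A)
    (t : A) (x : (Fin 8 →₀ ℕ) × (Fin 3 →₀ ℕ)) :
    φ (mon k y t x) = mon k (fun i ↦ φ (y i)) (φ t) x := by
  simp [mon]

theorem deg_lin (i j : Fin 8) (t : ℤ) :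
    (MvPolynomial.X i * MvPolynomial.C t + MvPolynomial.X j :
      MvPolynomial (Fin 8) ℤ).totalDegree ≤ 1 := by
  refine (MvPolynomial.totalDegree_add _ _).trans (max_le ?_ ?_)
  · refine (MvPolynomial.totalDegree_mul _ _).trans ?_
    rw [MvPolynomial.totalDegree_C, MvPolynomial.totalDegree_X]
  · simp

theorem deg_pair {k b : ℕ} (hb : b ≤ k) {p q : MvPolynomial (Fin 8) ℤ} (hp : p.totalDegree ≤ 1)
    (hq : q.totalDegree ≤ 1) : (p ^ b * q ^ (k - b)).totalDegree ≤ k := by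
  refine (MvPolynomial.totalDegree_mul _ _).trans ?_
  have h1 := (MvPolynomial.totalDegree_pow p b).trans (Nat.mul_le_mul_left _ hp)
  have h2 := (MvPolynomial.totalDegree_pow q (k - b)).trans (Nat.mul_le_mul_left _ hq)
  omega

theorem totalDegree_mon {k : ℕ} (t : ℤ) {x : (Fin 8 →₀ ℕ) × (Fin 3 →₀ ℕ)} (h1 : ∀ i, x.1 i ≤ k)
    (h2 : ∀ i, x.2 i ≤ k) :
    (mon k (fun i ↦ (MvPolynomial.X i : MvPolynomial (Fin 8) ℤ))
      (MvPolynomial.C t) x).totalDegree ≤ 10 * k := by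
  unfold mon
  beta_reduce
  refine (MvPolynomial.totalDegree_mul _ _).trans ?_
  have a1 : (∏ i, (MvPolynomial.X i : MvPolynomial (Fin 8) ℤ) ^ x.1 i).totalDegree ≤ 8 * k := by
    refine (MvPolynomial.totalDegree_finsetProd _ _).trans ?_
    refine (Finset.sum_le_card_nsmul _ _ k fun i _ ↦ ?_).trans (by simp)
    simpa using h1 i
  have a2 := deg_pair (h2 1) (deg_lin 0 1 t) (deg_lin 2 3 t)
  have a3 := deg_pair (h2 2) (deg_lin 4 5 t) (deg_lin 6 7 t)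
  have a4 : ((MvPolynomial.C t : MvPolynomial (Fin 8) ℤ) ^ x.2 0).totalDegree ≤ 0 := by
    rw [← map_pow, MvPolynomial.totalDegree_C]
  have a5 := (MvPolynomial.totalDegree_mul _ _).trans (add_le_add a4 a2)
  have a6 := (MvPolynomial.totalDegree_mul _ _).trans (add_le_add a5 a3)
  omega

theorem natDegree_mon {k : ℕ} (y : Fin 8 → ℂ) {x : (Fin 8 →₀ ℕ) × (Fin 3 →₀ ℕ)}
    (h2 : ∀ i, x.2 i ≤ k) :
    (mon k (fun i ↦ Polynomial.C (y i)) Polynomial.X x).natDegree ≤ 3 * k := by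
  unfold mon
  beta_reduce
  have hl : ∀ a b : ℂ, (Polynomial.C a * Polynomial.X + Polynomial.C b).natDegree ≤ 1 :=
    fun a b ↦ Polynomial.natDegree_linear_le
  have hp : ∀ (a b c d : ℂ) (n : ℕ), n ≤ k → ((Polynomial.C a * Polynomial.X + Polynomial.C b) ^ n *
      (Polynomial.C c * Polynomial.X + Polynomial.C d) ^ (k - n)).natDegree ≤ k := by
    intro a b c d n hn
    refine Polynomial.natDegree_mul_le.trans ?_
    have h1 := (Polynomial.natDegree_pow_le (p := Polynomial.C a * Polynomial.X + Polynomial.C b)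
      (n := n)).trans (Nat.mul_le_mul_left _ (hl a b))
    have h2 := (Polynomial.natDegree_pow_le (p := Polynomial.C c * Polynomial.X + Polynomial.C d)
      (n := k - n)).trans (Nat.mul_le_mul_left _ (hl c d))
    omega
  have a1 : (∏ i, (Polynomial.C (y i)) ^ x.1 i).natDegree ≤ 0 := by
    simp only [← map_pow, ← map_prod, Polynomial.natDegree_C, le_refl]
  have a2 : ((Polynomial.X : Polynomial ℂ) ^ x.2 0).natDegree ≤ k := by simpa using h2 0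
  have a3 := Polynomial.natDegree_mul_le.trans (add_le_add a2 (hp (y 0) (y 1) (y 2) (y 3) _ (h2 1)))
  have a4 := Polynomial.natDegree_mul_le.trans (add_le_add a3 (hp (y 4) (y 5) (y 6) (y 7) _ (h2 2)))
  have a5 := Polynomial.natDegree_mul_le.trans (add_le_add a1 a4)
  omega

theorem norm_mon {k : ℕ} {y : Fin 8 → ℂ} {t : ℂ} {x : (Fin 8 →₀ ℕ) × (Fin 3 →₀ ℕ)} {M : ℝ}
    (hM : 1 ≤ M) (hy : ∀ i, ‖y i‖ ≤ M) (ht : ‖t‖ ≤ 3 * k) (h1 : ∀ i, x.1 i ≤ k)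
    (h2 : ∀ i, x.2 i ≤ k) : ‖mon k y t x‖ ≤ ((3 * k + 1) * M) ^ (11 * k) := by
  set B : ℝ := (3 * k + 1) * M with hB
  have hk : (0 : ℝ) ≤ k := Nat.cast_nonneg k
  have hMB : M ≤ B := by rw [hB]; nlinarith
  have hB1 : 1 ≤ B := hM.trans hMB
  have htB : ‖t‖ ≤ B := by rw [hB]; nlinarith
  have hl : ∀ i j, ‖y i * t + y j‖ ≤ B := by
    intro i j
    refine (norm_add_le _ _).trans ?_
    rw [norm_mul]
    have := mul_le_mul (hy i) ht (norm_nonneg _) (by linarith)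
    have := hy j
    rw [hB]; nlinarith
  have hp : ∀ (i j i' j' : Fin 8) (n : ℕ), n ≤ k →
      ‖(y i * t + y j) ^ n * (y i' * t + y j') ^ (k - n)‖ ≤ B ^ k := by
    intro i j i' j' n hn
    rw [norm_mul, norm_pow, norm_pow]
    calc _ ≤ B ^ n * B ^ (k - n) := by gcongr <;> apply hl
      _ = B ^ k := by rw [← pow_add]; congr 1; omega
  have a1 : ‖∏ i, y i ^ x.1 i‖ ≤ B ^ (8 * k) := by
    rw [norm_prod]
    calc ∏ i, ‖y i ^ x.1 i‖ ≤ ∏ _i : Fin 8, B ^ k := by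
          refine Finset.prod_le_prod (fun _ _ ↦ norm_nonneg _) fun i _ ↦ ?_
          rw [norm_pow]
          exact (pow_le_pow_left₀ (norm_nonneg _) ((hy i).trans hMB) _).trans
            (pow_le_pow_right₀ hB1 (h1 i))
      _ = B ^ (8 * k) := by simp [← pow_mul, mul_comm]
  have a2 : ‖t ^ x.2 0‖ ≤ B ^ k := by
    rw [norm_pow]
    exact (pow_le_pow_left₀ (norm_nonneg _) htB _).trans (pow_le_pow_right₀ hB1 (h2 0))
  unfold mon
  rw [norm_mul, norm_mul, norm_mul]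
  calc _ ≤ B ^ (8 * k) * (B ^ k * B ^ k * B ^ k) := by
        gcongr
        · exact hp _ _ _ _ _ (h2 1)
        · exact hp _ _ _ _ _ (h2 2)
    _ = B ^ (11 * k) := by ring

theorem mon_mob {k : ℕ} {y : Fin 8 → ℂ} {T : Fin 3 → ℂ} {x : (Fin 8 →₀ ℕ) × (Fin 3 →₀ ℕ)}
    (h1 : T 1 * (y 2 * T 0 + y 3) = y 0 * T 0 + y 1)
    (h2 : T 2 * (y 6 * T 0 + y 7) = y 4 * T 0 + y 5) (hx : ∀ i, x.2 i ≤ k) :
    mon k y (T 0) x = (y 2 * T 0 + y 3) ^ k * (y 6 * T 0 + y 7) ^ k *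
      ((∏ i, T i ^ x.2 i) * ∏ i, y i ^ x.1 i) := by
  obtain ⟨a, ha⟩ := exists_add_of_le (hx 1)
  obtain ⟨b, hb⟩ := exists_add_of_le (hx 2)
  have e1 : (y 2 * T 0 + y 3) ^ k = (y 2 * T 0 + y 3) ^ x.2 1 * (y 2 * T 0 + y 3) ^ (k - x.2 1) := by
    rw [← pow_add]; congr 1; omega
  have e2 : (y 6 * T 0 + y 7) ^ k = (y 6 * T 0 + y 7) ^ x.2 2 * (y 6 * T 0 + y 7) ^ (k - x.2 2) := by
    rw [← pow_add]; congr 1; omega
  unfold mon
  rw [e1, e2, ← h1, ← h2, Fin.prod_univ_three, mul_pow, mul_pow]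
  ring

theorem coeff_sum_mon (Box : Finset ((Fin 8 →₀ ℕ) × (Fin 3 →₀ ℕ)))
    (P : (Fin 8 →₀ ℕ) × (Fin 3 →₀ ℕ) → ℤ) (hP : ∀ x, x ∉ Box → P x = 0) (α : Fin 8 →₀ ℕ)
    (β : Fin 3 →₀ ℕ) :
    ((∑ x ∈ Box, MvPolynomial.monomial x.1 (MvPolynomial.monomial x.2 (P x)) :
      MvPolynomial (Fin 8) (MvPolynomial (Fin 3) ℤ)).coeff α).coeff β = P (α, β) := by
  classical
  rw [MvPolynomial.coeff_sum, MvPolynomial.coeff_sum, Finset.sum_eq_single (α, β)]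
  · simp
  · rintro ⟨a, b⟩ _ hne
    simp only [MvPolynomial.coeff_monomial]
    split_ifs with h
    · rw [MvPolynomial.coeff_monomial, if_neg]
      rintro rfl
      exact hne (by rw [h])
    · simp
  · intro h
    simp [hP _ h]

theorem pow_two_le {M : ℝ} (hM : 2 ≤ M) (n : ℕ) : (n : ℝ) ≤ M ^ n := by
  have h1 : (n : ℝ) ≤ 2 ^ n := by exact_mod_cast (Nat.lt_two_pow_self (n := n)).le
  exact h1.trans (pow_le_pow_left₀ (by norm_num) hM n)

end Red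

/-- relations between `m` coordinates and the three functions; here `Hyp` has index `m + 1` -/
theorem relations (m e : ℕ) : ∃ e' κ : ℕ, ∀ (M : ℝ) (y : ℂ → Fin 8 → ℤ) (T : ℂ → Fin 3 → ℂ)
    (S : Finset ℂ), 2 ≤ M → (∀ s ∈ S, ∀ i, |(y s i : ℝ)| ≤ M) →
    (∀ s ∈ S, Mob (y s 0) (y s 1) (y s 2) (y s 3) (T s 0) (T s 1) ∧
      Mob (y s 4) (y s 5) (y s 6) (y s 7) (T s 0) (T s 2) ∧
      (y s 2 : ℂ) * T s 0 + y s 3 ≠ 0 ∧ (y s 6 : ℂ) * T s 0 + y s 7 ≠ 0) →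
    Hyp y S (m + 1) e → ∀ I : Finset (Fin 8), I.card = m →
    ∃ F : MvPolynomial (Fin 8) (MvPolynomial (Fin 3) ℤ), F ≠ 0 ∧ F.vars ⊆ I ∧
      F.totalDegree ≤ e' ∧ (∀ α, (F.coeff α).totalDegree ≤ e' ∧
        ∀ β, |(((F.coeff α).coeff β : ℤ) : ℝ)| ≤ M ^ κ) ∧
      ∀ s ∈ S, MvPolynomial.eval₂ (MvPolynomial.aeval (T s)).toRingHom
        (fun i ↦ (y s i : ℂ)) F = 0 := by
  classical
  obtain ⟨c, hc, hspan⟩ := span_lemma (m + 1) e
  set k : ℕ := 12 * c * 10 ^ (m + 1) with hk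
  refine ⟨8 * k, 7 * (k + 1) ^ (m + 3) + (3 * k + 1 + 1) * (11 * k), ?_⟩
  intro M y T S hM hy hT hH I hI
  obtain ⟨S0, hS0, hcard, hvan⟩ := hspan y S hH (10 * k)
  set f3 : Fin 3 →₀ ℕ := Finsupp.equivFunOnFinite.symm fun _ ↦ k with hf3
  set Box : Finset ((Fin 8 →₀ ℕ) × (Fin 3 →₀ ℕ)) := Finset.Iic (box I k 0) ×ˢ Finset.Iic f3
    with hBox
  have hBc : Box.card = (k + 1) ^ (m + 3) := by
    rw [hBox, Finset.card_product, card_box, card_Iic_le, hI]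
    simp [hf3, pow_add]
  have hmem : ∀ x ∈ Box, (∀ i, x.1 i ≤ k) ∧ (∀ i, x.2 i ≤ k) ∧ x.1.support ⊆ I := by
    intro x hx
    rw [hBox, Finset.mem_product, Finset.mem_Iic, Finset.mem_Iic] at hx
    refine ⟨fun i ↦ (hx.1 i).trans ?_, fun i ↦ (hx.2 i).trans (by simp [hf3]), fun i hi ↦ ?_⟩
    · rw [box_apply]; split_ifs <;> omega
    · have := hx.1 i
      rw [box_apply] at this
      by_contra hn
      rw [if_neg hn] at this
      exact Finsupp.mem_support_iff.1 hi (by omega)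
  have hM1 : (1 : ℝ) ≤ M := by linarith
  have hk0 : (0 : ℝ) ≤ k := Nat.cast_nonneg k
  obtain ⟨p, hp0, hpb, hpz⟩ := pigeon (n := Box) (r := Fin (3 * k + 1) × S0)
    (fun r x ↦ mon k (fun i ↦ (y r.2.1 i : ℂ)) ((r.1.1 : ℤ) : ℂ) x.1)
    (K := ((3 * k + 1) * M) ^ (11 * k)) (ε := 1)
    (one_le_pow₀ (by nlinarith)) one_pos le_rfl
    (by
      rintro ⟨t, s⟩ x
      refine norm_mon hM1 (fun i ↦ ?_) ?_ (hmem x.1 x.2).1 (hmem x.1 x.2).2.1
      · simpa using hy s.1 (hS0 s.2) i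
      · have : (t.1 : ℝ) ≤ 3 * k := by exact_mod_cast Nat.lt_succ_iff.1 t.2
        simpa using this)
    (by rw [Fintype.card_coe, hBc]; positivity)
    (by
      rw [Fintype.card_coe, hBc, Fintype.card_prod, Fintype.card_fin, Fintype.card_coe]
      calc 4 * ((3 * k + 1) * S0.card) ≤ 4 * ((3 * (k + 1)) * (c * (10 * (k + 1)) ^ (m + 1))) := by
            gcongr
            · omega
            · refine hcard.trans ?_
              gcongr
              omega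
        _ = k * ((k + 1) * (k + 1) ^ (m + 1)) := by rw [mul_pow, hk]; ring
        _ ≤ (k + 1) * ((k + 1) * (k + 1) ^ (m + 1)) := by gcongr; omega
        _ = _ := by ring)
  set P : (Fin 8 →₀ ℕ) × (Fin 3 →₀ ℕ) → ℤ := fun x ↦ if h : x ∈ Box then p ⟨x, h⟩ else 0 with hP
  have hP0 : ∀ x, x ∉ Box → P x = 0 := fun x hx ↦ by simp [hP, hx]
  have hPp : ∀ x : Box, P x.1 = p x := fun x ↦ by simp [hP, x.2]
  have hco := coeff_sum_mon Box P hP0
  set F : MvPolynomial (Fin 8) (MvPolynomial (Fin 3) ℤ) :=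
    ∑ x ∈ Box, MvPolynomial.monomial x.1 (MvPolynomial.monomial x.2 (P x)) with hF
  have hsupp : ∀ α β, β ∈ (F.coeff α).support → (α, β) ∈ Box := by
    intro α β h
    by_contra hn
    rw [MvPolynomial.mem_support_iff, hco, hP0 _ hn] at h
    exact h rfl
  have hsupp' : ∀ α ∈ F.support, ∃ β, (α, β) ∈ Box := by
    intro α h
    obtain ⟨β, hβ⟩ := MvPolynomial.support_nonempty.2 (MvPolynomial.mem_support_iff.1 h)
    exact ⟨β, hsupp α β hβ⟩
  refine ⟨F, ?_, ?_, ?_, fun α ↦ ⟨?_, fun β ↦ ?_⟩, fun s hs ↦ ?_⟩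
  · intro h0
    apply hp0
    ext x
    rw [← hPp, ← hco x.1.1 x.1.2, h0]
    simp
  · intro i hi
    obtain ⟨d, hd, hid⟩ := (MvPolynomial.mem_vars_iff_mem_support i).1 hi
    obtain ⟨β, hβ⟩ := hsupp' d hd
    exact (hmem _ hβ).2.2 hid
  · refine Finset.sup_le fun α hα ↦ ?_
    obtain ⟨β, hβ⟩ := hsupp' α hα
    rw [Finsupp.sum_fintype _ _ (fun _ ↦ rfl)]
    exact (Finset.sum_le_card_nsmul _ _ k fun i _ ↦ (hmem _ hβ).1 i).trans (by simp)
  · refine Finset.sup_le fun β hβ ↦ ?_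
    rw [Finsupp.sum_fintype _ _ (fun _ ↦ rfl)]
    refine (Finset.sum_le_card_nsmul _ _ k fun i _ ↦ (hmem _ (hsupp α β hβ)).2.1 i).trans ?_
    simp only [Finset.card_univ, Fintype.card_fin, smul_eq_mul]
    omega
  · rw [hco]
    by_cases hx : (α, β) ∈ Box
    · rw [hPp ⟨_, hx⟩]
      refine (hpb _).trans ?_
      rw [Fintype.card_coe, hBc, div_one, pow_add M, pow_mul M (3 * k + 1 + 1)]
      have h1 := pow_two_le hM (7 * (k + 1) ^ (m + 3))
      have h2 := pow_two_le hM (3 * k + 1)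
      push_cast at h1 h2 ⊢
      have h3 : (3 * k + 1) * M ≤ M ^ (3 * k + 1 + 1) := by
        rw [pow_succ M (3 * k + 1)]
        gcongr
      gcongr
    · rw [hP0 _ hx]
      simp only [Int.cast_zero, abs_zero]
      positivity
  · have hint : ∀ t : Fin (3 * k + 1), ∑ x ∈ Box, (P x : ℂ) *
        mon k (fun i ↦ (y s i : ℂ)) ((t.1 : ℤ) : ℂ) x = 0 := by
      intro t
      set q : MvPolynomial (Fin 8) ℤ := ∑ x ∈ Box, MvPolynomial.C (P x) *
        mon k (fun i ↦ MvPolynomial.X i) (MvPolynomial.C (t.1 : ℤ)) x with hq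
      have hev : ∀ s, ((MvPolynomial.eval (y s) q : ℤ) : ℂ) = ∑ x ∈ Box, (P x : ℂ) *
          mon k (fun i ↦ (y s i : ℂ)) ((t.1 : ℤ) : ℂ) x := by
        intro s
        rw [hq, map_sum, Int.cast_sum]
        refine Finset.sum_congr rfl fun x _ ↦ ?_
        rw [map_mul, map_mon, Int.cast_mul]
        simp only [MvPolynomial.eval_C, MvPolynomial.eval_X]
        congr 1
        exact map_mon (Int.castRingHom ℂ) k _ _ x
      have hdeg : q.totalDegree ≤ 10 * k := by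
        refine MvPolynomial.totalDegree_finsetSum_le fun x hx ↦ ?_
        refine (MvPolynomial.totalDegree_mul _ _).trans ?_
        rw [MvPolynomial.totalDegree_C, zero_add]
        exact totalDegree_mon _ (hmem x hx).1 (hmem x hx).2.1
      rw [← hev, hvan q hdeg ?_ s hs, Int.cast_zero]
      intro s' hs'
      have h1 := hpz (t, ⟨s', hs'⟩)
      simp only [← hPp] at h1
      rw [Finset.sum_coe_sort Box (fun x ↦ (P x : ℂ) *
        mon k (fun i ↦ (y s' i : ℂ)) ((t.1 : ℤ) : ℂ) x), ← hev, Complex.norm_intCast] at h1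
      have h2 : |MvPolynomial.eval (y s') q| < 1 := by exact_mod_cast h1
      exact Int.abs_lt_one_iff.1 h2
    set G : Polynomial ℂ := ∑ x ∈ Box, Polynomial.C (P x : ℂ) *
      mon k (fun i ↦ Polynomial.C (y s i : ℂ)) Polynomial.X x with hG
    have hGev : ∀ t : ℂ, G.eval t = ∑ x ∈ Box, (P x : ℂ) * mon k (fun i ↦ (y s i : ℂ)) t x := by
      intro t
      rw [hG, ← Polynomial.coe_evalRingHom, map_sum]
      refine Finset.sum_congr rfl fun x _ ↦ ?_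
      rw [map_mul, map_mon]
      simp
    have hG0 : G = 0 := by
      refine Polynomial.eq_zero_of_natDegree_lt_card_of_eval_eq_zero G
        (f := fun t : Fin (3 * k + 1) ↦ ((t.1 : ℤ) : ℂ)) ?_ (fun t ↦ by rw [hGev, hint]) ?_
      · intro a b hab
        apply Fin.ext
        simpa using hab
      · rw [Fintype.card_fin, Nat.lt_succ_iff]
        refine Polynomial.natDegree_sum_le_of_forall_le _ _ fun x hx ↦ ?_
        exact (Polynomial.natDegree_C_mul_le _ _).trans (natDegree_mon _ (hmem x hx).2.1)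
    have h1 := hGev (T s 0)
    obtain ⟨m1, m2, d1, d2⟩ := hT s hs
    rw [hG0, Polynomial.eval_zero, Finset.sum_congr rfl fun x hx ↦ by
      rw [mon_mob (y := fun i ↦ (y s i : ℂ)) (T := T s) m1 m2 (hmem x hx).2.1]] at h1
    have h2 : MvPolynomial.eval₂ (MvPolynomial.aeval (T s)).toRingHom (fun i ↦ (y s i : ℂ)) F =
        ∑ x ∈ Box, (P x : ℂ) * ((∏ i, T s i ^ x.2 i) * ∏ i, (y s i : ℂ) ^ x.1 i) := by
      rw [hF, MvPolynomial.eval₂_sum]
      refine Finset.sum_congr rfl fun x _ ↦ ?_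
      rw [MvPolynomial.eval₂_monomial, Finsupp.prod_fintype _ _ (fun _ ↦ by simp)]
      simp only [AlgHom.toRingHom_eq_coe, RingHom.coe_coe, MvPolynomial.aeval_monomial]
      rw [Finsupp.prod_fintype _ _ (fun _ ↦ by simp), mul_assoc]
      simp
    rw [h2]
    refine (mul_eq_zero.1 (?_ : (((y s 2 : ℂ) * T s 0 + y s 3) ^ k *
      ((y s 6 : ℂ) * T s 0 + y s 7) ^ k) * _ = 0)).resolve_left
      (mul_ne_zero (pow_ne_zero _ d1) (pow_ne_zero _ d2))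
    rw [h1, Finset.mul_sum]
    refine Finset.sum_congr rfl fun x _ ↦ by ring

end Pool.Agent.Lib.ZP3
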