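import Pool.Agent.Lib.ZP3.CoreA
import Pool.Agent.Lib.ZP3.An
import Pool.Agent.Lib.ZP3.JBasic
import Pool.Agent.Lib.ZP3.Tiny
import Pool.Agent.Lib.ZP3.Reduce

/-! Block CORE: the determinant method on one chart. -/

open Filter Topology Metric

namespace Pool.Agent.Lib.ZP3

namespace CoreAux

theorem succ_le_pow {M : ℝ} (hM : 2 ≤ M) (n : ℕ) : (n : ℝ) + 1 ≤ M ^ n := by
  have h1 : n + 1 ≤ 2 ^ n := Nat.lt_two_pow_self
  have h2 : (n : ℝ) + 1 ≤ 2 ^ n := by exact_mod_cast h1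
  exact h2.trans (by gcongr)

theorem card_support_le {σ A : Type} [Fintype σ] [CommSemiring A] (c : MvPolynomial σ A) {e : ℕ}
    (he : c.totalDegree ≤ e) : c.support.card ≤ (e + 1) ^ Fintype.card σ := by
  classical
  have hsub : c.support ⊆ Finset.univ.finsupp fun _ ↦ Finset.range (e + 1) := by
    intro d hd
    refine Finset.mem_finsupp_iff.2 ⟨Finset.subset_univ _, fun i _ ↦ ?_⟩
    have h1 := MvPolynomial.monomial_le_degreeOf i hd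
    have h2 := MvPolynomial.degreeOf_le_totalDegree c i
    rw [Finset.mem_range]
    omega
  have := Finset.card_le_card hsub
  rw [Finset.card_finsupp] at this
  simpa using this

theorem norm_prod_le {σ : Type} [Fintype σ] {x : σ → ℂ} {M : ℝ} (hM : 1 ≤ M) (hx : ∀ i, ‖x i‖ ≤ M)
    (β : σ →₀ ℕ) {n : ℕ} (hn : ∑ i, β i ≤ n) : ‖∏ i, x i ^ β i‖ ≤ M ^ n := by
  rw [norm_prod]
  calc ∏ i, ‖x i ^ β i‖ ≤ ∏ i, M ^ β i := by
        refine Finset.prod_le_prod (fun _ _ ↦ norm_nonneg _) fun i _ ↦ ?_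
        rw [norm_pow]
        gcongr
        exact hx i
    _ = M ^ ∑ i, β i := Finset.prod_pow_eq_pow_sum _ _ _
    _ ≤ M ^ n := pow_le_pow_right₀ hM hn

theorem val_bound {x : Fin 3 → ℂ} {M B : ℝ} (hM : 2 ≤ M) (hx : ∀ i, ‖x i‖ ≤ M)
    (c : MvPolynomial (Fin 3) ℤ) {e : ℕ} (he : c.totalDegree ≤ e)
    (hB : ∀ β, |((c.coeff β : ℤ) : ℝ)| ≤ B) :
    ‖MvPolynomial.aeval x c‖ ≤ M ^ (4 * e) * B := by
  have hB0 : 0 ≤ B := (abs_nonneg _).trans (hB 0)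
  rw [MvPolynomial.aeval_def, MvPolynomial.eval₂_eq']
  refine (norm_sum_le _ _).trans ?_
  have h1 : ∀ d ∈ c.support, ‖algebraMap ℤ ℂ (c.coeff d) * ∏ i, x i ^ d i‖ ≤ B * M ^ e := by
    intro d hd
    rw [norm_mul]
    have h2 : ∑ i, d i ≤ e := by
      have := MvPolynomial.le_totalDegree hd
      rw [Finsupp.sum_fintype _ _ (by simp)] at this
      omega
    have h3 := norm_prod_le (by linarith) hx d h2
    have h4 : ‖algebraMap ℤ ℂ (c.coeff d)‖ ≤ B := by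
      simpa [Complex.norm_intCast] using hB d
    gcongr
  have h5 := Finset.sum_le_card_nsmul _ _ _ h1
  rw [nsmul_eq_mul] at h5
  have h6 : (c.support.card : ℝ) ≤ (M ^ e) ^ 3 := by
    have h7 : (c.support.card : ℝ) ≤ ((e : ℝ) + 1) ^ 3 := by
      exact_mod_cast (by simpa using card_support_le c he)
    exact h7.trans (by gcongr; exact succ_le_pow hM e)
  calc _ ≤ _ := h5
    _ ≤ (M ^ e) ^ 3 * (B * M ^ e) := by gcongr
    _ = _ := by ring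

/-- one small piece: standard monomials give a new integral relation -/
theorem piece (m c κ : ℕ) (hc : 0 < c) {η : ℝ} (hη : 0 < η) : ∃ d : ℕ, ∀ (M δ : ℝ) (s0 : ℂ)
    (S : Finset ℂ) (y : ℂ → Fin 8 → ℤ), 2 ≤ M → 0 < δ → (∀ s ∈ S, ∀ i, |(y s i : ℝ)| ≤ M ^ 7) →
    (∀ s ∈ S, ‖s - s0‖ ≤ δ * M ^ (-η) / 4) →
    (∀ n : ℕ, ∃ (Bs : Finset (Fin 8 →₀ ℕ)), Bs.card ≤ c * (n + 1) ^ m ∧
      (∀ β ∈ Bs, ∑ i, β i ≤ c * n) ∧ ∀ γ : Fin 8 →₀ ℕ, ∑ i, γ i ≤ n →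
        ∃ a : (Fin 8 →₀ ℕ) → ℂ → ℂ, (∀ β, DifferentiableOn ℂ (a β) (ball s0 δ)) ∧
          (∀ s ∈ ball s0 δ, ∑ β ∈ Bs, ‖a β s‖ ≤ (M ^ κ) ^ (c * n)) ∧
          ∀ s ∈ S, ∏ i, (y s i : ℂ) ^ γ i = ∑ β ∈ Bs, a β s * ∏ i, (y s i : ℂ) ^ β i) →
    Hyp y S (m + 1) d := by
  classical
  obtain ⟨a, ha⟩ : ∃ a : ℕ, a = 8 + 56 * c + 8 * κ * c := ⟨_, rfl⟩
  obtain ⟨q, hq1, hq⟩ : ∃ q : ℕ, 0 < q ∧ (9 * a : ℝ) ≤ η * q := by
    refine ⟨⌈9 * a / η⌉₊ + 1, by omega, ?_⟩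
    have := Nat.le_ceil (9 * a / η)
    rw [div_le_iff₀ hη] at this
    push_cast
    nlinarith
  obtain ⟨D, hD⟩ : ∃ D : ℕ, D = 4 * c * 9 ^ m * q := ⟨_, rfl⟩
  have hD1 : 0 < D := by rw [hD]; positivity
  refine ⟨8 * D, fun M δ s0 S y hM hδ hy hS hred I hI ↦ ?_⟩
  have hM1 : 1 ≤ M := by linarith
  have hM0 : 0 < M := by linarith
  obtain ⟨Bs, hB1, hB2, hB3⟩ := hred (8 * D)
  set T : Finset (Fin 8 →₀ ℕ) := I.finsupp fun _ ↦ Finset.range D with hT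
  have hTc : T.card = D ^ (m + 2) := by
    rw [hT, Finset.card_finsupp]
    simp [hI]
  have hTsup : ∀ γ ∈ T, γ.support ⊆ I := fun γ hγ ↦ (Finset.mem_finsupp_iff.1 hγ).1
  have hTdeg : ∀ γ ∈ T, ∑ i, γ i ≤ 8 * D := by
    intro γ hγ
    have h1 : ∀ i ∈ (Finset.univ : Finset (Fin 8)), γ i ≤ D := by
      intro i _
      by_cases hi : i ∈ I
      · exact (Finset.mem_range.1 ((Finset.mem_finsupp_iff.1 hγ).2 i hi)).le
      · have : i ∉ γ.support := fun h ↦ hi (hTsup γ hγ h)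
        rw [Finsupp.notMem_support_iff.1 this]
        omega
    simpa using Finset.sum_le_card_nsmul _ _ _ h1
  have hex : ∀ γ : Fin 8 →₀ ℕ, ∃ a : (Fin 8 →₀ ℕ) → ℂ → ℂ, γ ∈ T →
      (∀ β, DifferentiableOn ℂ (a β) (ball s0 δ)) ∧
      (∀ s ∈ ball s0 δ, ∑ β ∈ Bs, ‖a β s‖ ≤ (M ^ κ) ^ (c * (8 * D))) ∧
      ∀ s ∈ S, ∏ i, (y s i : ℂ) ^ γ i = ∑ β ∈ Bs, a β s * ∏ i, (y s i : ℂ) ^ β i := by
    intro γ
    by_cases hγ : γ ∈ T
    · obtain ⟨a, h⟩ := hB3 γ (hTdeg γ hγ)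
      exact ⟨a, fun _ ↦ h⟩
    · exact ⟨0, fun h ↦ absurd h hγ⟩
  choose A hA using hex
  have hm8 : m + 2 ≤ 8 := by
    have := Finset.card_le_univ I
    rw [hI, Fintype.card_fin] at this
    omega
  have hpow : ∀ k : ℕ, k ≤ a → M ^ (k * D) ≤ M ^ (a * D) := fun k hk ↦
    pow_le_pow_right₀ hM1 (Nat.mul_le_mul_right _ hk)
  have hlam0 : 0 < M ^ (-η) := Real.rpow_pos_of_pos hM0 _
  have hlam1 : M ^ (-η) ≤ 1 := Real.rpow_le_one_of_one_le_of_nonpos hM1 (by linarith)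
  have hcore := piece_core T Bs (q * D) (by positivity)
    (Finset.card_pos.1 (by rw [hTc]; positivity)) (E := M ^ (a * D)) (δ := δ)
    (u0 := M ^ (-η) / 2) ?_ ?_ ?_ hδ (by positivity) (by linarith) ?_ s0 S y ?_ ?_ A ?_
    (fun γ hγ ↦ (hA γ hγ).2.2)
  · obtain ⟨p, hp0, hp⟩ := hcore
    have hcoef : ∀ γ : T, (∑ γ' : T, MvPolynomial.monomial (γ' : Fin 8 →₀ ℕ) (p γ')).coeff γ =
        p γ := by
      intro γ
      rw [MvPolynomial.coeff_sum, Finset.sum_eq_single γ]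
      · simp
      · intro γ' _ hne
        rw [MvPolynomial.coeff_monomial, if_neg fun h ↦ hne (Subtype.ext h)]
      · simp
    have hsupp : ∀ d ∈ (∑ γ' : T, MvPolynomial.monomial (γ' : Fin 8 →₀ ℕ) (p γ')).support,
        d ∈ T := by
      intro d hd
      by_contra hn
      refine MvPolynomial.mem_support_iff.1 hd ?_
      rw [MvPolynomial.coeff_sum]
      refine Finset.sum_eq_zero fun γ' _ ↦ ?_
      rw [MvPolynomial.coeff_monomial, if_neg]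
      intro h
      exact hn (h ▸ γ'.2)
    refine ⟨∑ γ' : T, MvPolynomial.monomial (γ' : Fin 8 →₀ ℕ) (p γ'), ?_, ?_, ?_, ?_⟩
    · intro h0
      refine hp0 (funext fun γ ↦ ?_)
      rw [← hcoef γ, h0]
      simp
    · intro i hi
      obtain ⟨d, hd, hi⟩ := (MvPolynomial.mem_vars_iff_mem_support i).1 hi
      exact hTsup d (hsupp d hd) hi
    · refine Finset.sup_le fun d hd ↦ ?_
      rw [Finsupp.sum_fintype _ _ (by simp)]
      exact hTdeg d (hsupp d hd)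
    · intro s hs
      rw [map_sum, ← hp s hs]
      refine Finset.sum_congr rfl fun γ _ ↦ ?_
      rw [MvPolynomial.eval_monomial, Finsupp.prod_fintype _ _ (by simp)]
  · rw [hTc]
    have h1 : (8 * D + 1) ^ m ≤ (9 * D) ^ m := Nat.pow_le_pow_left (by omega) _
    calc 4 * (Bs.card * (q * D)) ≤ 4 * (c * (9 * D) ^ m * (q * D)) := by
          gcongr
          exact hB1.trans (by gcongr)
      _ = (4 * c * 9 ^ m * q) * D ^ (m + 1) := by ring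
      _ = _ := by rw [← hD]; ring
  · have h1 : 8 ≤ a * D := by nlinarith [Nat.zero_le (56 * c + 8 * κ * c)]
    calc (64 : ℝ) ≤ 2 ^ 8 := by norm_num
      _ ≤ M ^ 8 := by gcongr
      _ ≤ _ := pow_le_pow_right₀ hM1 h1
  · rw [hTc]
    push_cast
    have h1 : (D : ℝ) ≤ M ^ D := by linarith [succ_le_pow hM D]
    calc (D : ℝ) ^ (m + 2) ≤ (M ^ D) ^ (m + 2) := by gcongr
      _ ≤ (M ^ D) ^ 8 := pow_le_pow_right₀ (one_le_pow₀ hM1) hm8
      _ = M ^ (8 * D) := by ring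
      _ ≤ _ := hpow 8 (by omega)
  · have h1 : (M ^ (-η)) ^ q * M ^ (9 * a) ≤ 1 := by
      rw [← Real.rpow_natCast, ← Real.rpow_natCast, ← Real.rpow_mul hM0.le,
        ← Real.rpow_add hM0]
      refine Real.rpow_le_one_of_one_le_of_nonpos hM1 ?_
      push_cast
      linarith
    calc (M ^ (-η) / 2) ^ (q * D) * (M ^ (a * D)) ^ 9
        ≤ (M ^ (-η)) ^ (q * D) * (M ^ (a * D)) ^ 9 := by gcongr; linarith
      _ = ((M ^ (-η)) ^ q * M ^ (9 * a)) ^ D := by ring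
      _ ≤ 1 := pow_le_one₀ (by positivity) h1
  · intro s hs
    calc ‖s - s0‖ * (2 / δ) ≤ δ * M ^ (-η) / 4 * (2 / δ) := by gcongr; exact hS s hs
      _ = _ := by field_simp; ring
  · intro s hs β hβ
    have h1 := norm_prod_le (x := fun i ↦ (y s i : ℂ)) (M := M ^ 7) (one_le_pow₀ hM1)
      (fun i ↦ by simpa [Complex.norm_intCast] using hy s hs i) β (hB2 β hβ)
    calc _ ≤ _ := h1
      _ = M ^ (56 * c * D) := by ring
      _ ≤ _ := hpow _ (by omega)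
  · intro γ hγ β hβ
    refine ⟨(hA γ hγ).1 β, fun s hs ↦ ?_⟩
    calc ‖A γ β s‖ ≤ ∑ β ∈ Bs, ‖A γ β s‖ :=
          Finset.single_le_sum (f := fun β ↦ ‖A γ β s‖) (fun _ _ ↦ norm_nonneg _) hβ
      _ ≤ _ := (hA γ hγ).2.1 s hs
      _ = M ^ (8 * κ * c * D) := by ring
      _ ≤ _ := hpow _ (by omega)

/-- standing hypotheses on the chart -/
def Amb (Cn : ℕ → ℕ) (M : ℝ) (f : Fin 3 → ℂ → ℂ) (n1 : ℕ) : Prop :=
  2 ≤ M ∧ (∀ i, AnalyticOnNhd ℂ (f i) (closedBall 0 10)) ∧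
    (∀ i s, ‖s‖ ≤ 10 → ‖f i s‖ ≤ M ∧ 1 ≤ M * (f i s).im) ∧ NDeg f Cn M ∧ 0 < n1 ∧ (n1 : ℝ) ≤ M

/-- standing hypotheses on a special point -/
def Pt (M : ℝ) (f : Fin 3 → ℂ → ℂ) (n1 : ℕ) (y : ℂ → Fin 8 → ℤ) (s : ℂ) : Prop :=
  ‖s‖ ≤ 1 ∧ Rel n1 (f 0 s) (f 1 s) ∧ (∀ i, |(y s i : ℝ)| ≤ M ^ 7) ∧
    Mob (y s 0) (y s 1) (y s 2) (y s 3) (f 0 s) (f 1 s) ∧
    Mob (y s 4) (y s 5) (y s 6) (y s 7) (f 0 s) (f 2 s) ∧
    (y s 2 : ℂ) * f 0 s + y s 3 ≠ 0 ∧ (y s 6 : ℂ) * f 0 s + y s 7 ≠ 0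

/-- the statement proved by induction on `m` -/
def Bnd (Cn : ℕ → ℕ) (m : ℕ) : Prop :=
  ∀ (e : ℕ) (ε : ℝ), 0 < ε → ∃ C : ℝ, ∀ (M : ℝ) (f : Fin 3 → ℂ → ℂ) (n1 : ℕ) (y : ℂ → Fin 8 → ℤ)
    (S : Finset ℂ), Amb Cn M f n1 → (∀ s ∈ S, Pt M f n1 y s) → Hyp y S (m + 1) e →
    (S.card : ℝ) ≤ C * M ^ ε

theorem val_analytic {f : Fin 3 → ℂ → ℂ} (hf : ∀ i, AnalyticOnNhd ℂ (f i) (closedBall 0 10))
    (c : MvPolynomial (Fin 3) ℤ) :
    AnalyticOnNhd ℂ (fun s ↦ MvPolynomial.aeval (fun i ↦ f i s) c) (closedBall 0 10) :=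
  fun s hs ↦ AnalyticAt.aeval_mvPolynomial (f := fun s i ↦ f i s) (fun i ↦ hf i s hs) c

theorem cover_val {Cn : ℕ → ℕ} {M : ℝ} {f : Fin 3 → ℂ → ℂ} {n1 : ℕ} (h : Amb Cn M f n1) {e : ℕ}
    {c : MvPolynomial (Fin 3) ℤ} (hc : c ≠ 0) (he : c.totalDegree ≤ e) {δ : ℝ}
    (hδ : 1 ≤ M ^ 104 * δ) (hδ1 : δ ≤ 1) : ∃ Z : Finset ℂ, Z.card ≤ Cn e + 1 ∧
      ∀ s, ‖s‖ ≤ 2 → (∀ z ∈ Z, δ < ‖s - z‖) →
        1 ≤ M ^ (Cn e + 111 * (Cn e + 2)) * ‖MvPolynomial.aeval (fun i ↦ f i s) c‖ := by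
  obtain ⟨hM, hf, -, hnd, -⟩ := h
  have hM0 : 0 < M := by linarith
  have hδ0 : 0 < δ := by
    by_contra hn
    have : M ^ 104 * δ ≤ 0 := mul_nonpos_of_nonneg_of_nonpos (by positivity) (not_lt.1 hn)
    linarith
  obtain ⟨s0, hs0, h1, h2⟩ := hnd e c hc he
  obtain ⟨Z, hZ, hcov⟩ := cover (val_analytic hf c) hs0 h2 hδ0 hδ1
  refine ⟨Z, hZ, fun s hs hfar ↦ ?_⟩
  have h3 := hcov s hs hfar
  have h4 : 1 ≤ M ^ 111 * (δ / 100) := by
    have h5 : (2 : ℝ) ^ 7 ≤ M ^ 7 := by gcongr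
    calc (1 : ℝ) ≤ 2 ^ 7 / 100 * 1 := by norm_num
      _ ≤ M ^ 7 / 100 * (M ^ 104 * δ) := by gcongr
      _ = _ := by ring
  calc (1 : ℝ) ≤ (M ^ Cn e * ‖MvPolynomial.aeval (fun i ↦ f i s0) c‖) *
        (M ^ 111 * (δ / 100)) ^ (Cn e + 2) := one_le_mul_of_one_le_of_one_le h1 (one_le_pow₀ h4)
    _ = M ^ (Cn e + 111 * (Cn e + 2)) *
        (‖MvPolynomial.aeval (fun i ↦ f i s0) c‖ * (δ / 100) ^ (Cn e + 2)) := by
        rw [mul_pow, ← pow_mul, pow_add M (Cn e)]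
        ring
    _ ≤ _ := by gcongr

/-- functions holomorphic on a set -/
def holo (D : Set ℂ) : Subring (ℂ → ℂ) where
  carrier := {h | DifferentiableOn ℂ h D}
  mul_mem' ha hb := DifferentiableOn.mul ha hb
  one_mem' := differentiableOn_const 1
  add_mem' ha hb := DifferentiableOn.add ha hb
  zero_mem' := differentiableOn_const 0
  neg_mem' ha := DifferentiableOn.neg ha

/-- solving a relation for its leading monomial -/
theorem solve_lead {M : ℝ} {f : Fin 3 → ℂ → ℂ} (hM : 2 ≤ M)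
    (hf : ∀ i, AnalyticOnNhd ℂ (f i) (closedBall 0 10)) (hb : ∀ i s, ‖s‖ ≤ 10 → ‖f i s‖ ≤ M)
    {e κ k : ℕ} (F : MvPolynomial (Fin 8) (MvPolynomial (Fin 3) ℤ)) (hF : F.totalDegree ≤ e)
    (hco : ∀ α, (F.coeff α).totalDegree ≤ e ∧
      ∀ β, |(((F.coeff α).coeff β : ℤ) : ℝ)| ≤ (M ^ 7) ^ κ)
    {l : Fin 8 →₀ ℕ} (hl : l ∈ F.support) (D : Set ℂ) (hD : ∀ s ∈ D, ‖s‖ ≤ 10 ∧
      1 ≤ M ^ k * ‖MvPolynomial.aeval (fun i ↦ f i s) (F.coeff l)‖) :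
    ∃ ρ : (Fin 8 →₀ ℕ) → ℂ → ℂ, (∀ α, ρ α ∈ holo D) ∧
      (∀ s ∈ D, ∑ α ∈ F.support.erase l, ‖ρ α s‖ ≤ M ^ (12 * e + 7 * κ + k)) ∧
      ∀ s ∈ D, ∀ y : Fin 8 → ℂ,
        MvPolynomial.eval₂ (MvPolynomial.aeval fun i ↦ f i s).toRingHom y F = 0 →
        ∏ i, y i ^ l i = ∑ α ∈ F.support.erase l, ρ α s * ∏ i, y i ^ α i := by
  classical
  have hM0 : 0 < M := by linarith
  have hne : ∀ s ∈ D, MvPolynomial.aeval (fun i ↦ f i s) (F.coeff l) ≠ 0 := by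
    intro s hs h0
    have := (hD s hs).2
    rw [h0] at this
    norm_num at this
  have hdiff : ∀ c : MvPolynomial (Fin 3) ℤ,
      DifferentiableOn ℂ (fun s ↦ MvPolynomial.aeval (fun i ↦ f i s) c) D := fun c s hs ↦
    (val_analytic hf c s (by simpa using (hD s hs).1)).differentiableAt.differentiableWithinAt
  refine ⟨fun α s ↦ -MvPolynomial.aeval (fun i ↦ f i s) (F.coeff α) /
    MvPolynomial.aeval (fun i ↦ f i s) (F.coeff l), fun α ↦ ?_, fun s hs ↦ ?_, fun s hs y hy ↦ ?_⟩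
  · exact (hdiff _).neg.div (hdiff _) hne
  · have h1 : ∀ α ∈ F.support.erase l, ‖-MvPolynomial.aeval (fun i ↦ f i s) (F.coeff α) /
        MvPolynomial.aeval (fun i ↦ f i s) (F.coeff l)‖ ≤ M ^ (4 * e) * (M ^ 7) ^ κ * M ^ k := by
      intro α _
      have h2 := val_bound hM (fun i ↦ hb i s (hD s hs).1) _ (hco α).1 (hco α).2
      rw [norm_div, norm_neg, div_le_iff₀ (norm_pos_iff.2 (hne s hs))]
      calc _ ≤ M ^ (4 * e) * (M ^ 7) ^ κ * 1 := by rw [mul_one]; exact h2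
        _ ≤ M ^ (4 * e) * (M ^ 7) ^ κ *
            (M ^ k * ‖MvPolynomial.aeval (fun i ↦ f i s) (F.coeff l)‖) := by
            gcongr
            exact (hD s hs).2
        _ = _ := by ring
    have h3 := Finset.sum_le_card_nsmul _ _ _ h1
    rw [nsmul_eq_mul] at h3
    have h4 : ((F.support.erase l).card : ℝ) ≤ (M ^ e) ^ 8 := by
      have h5 : (F.support.erase l).card ≤ (e + 1) ^ 8 :=
        Finset.card_erase_le.trans (by simpa using card_support_le F hF)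
      have h6 : ((F.support.erase l).card : ℝ) ≤ ((e : ℝ) + 1) ^ 8 := by exact_mod_cast h5
      exact h6.trans (by gcongr; exact succ_le_pow hM e)
    calc _ ≤ _ := h3
      _ ≤ (M ^ e) ^ 8 * (M ^ (4 * e) * (M ^ 7) ^ κ * M ^ k) := by gcongr
      _ = _ := by ring
  · rw [MvPolynomial.eval₂_eq', ← Finset.add_sum_erase _ _ hl] at hy
    have h0 := hne s hs
    have h7 : ∑ α ∈ F.support.erase l, -MvPolynomial.aeval (fun i ↦ f i s) (F.coeff α) /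
        MvPolynomial.aeval (fun i ↦ f i s) (F.coeff l) * ∏ i, y i ^ α i =
        -(∑ α ∈ F.support.erase l, MvPolynomial.aeval (fun i ↦ f i s) (F.coeff α) *
          ∏ i, y i ^ α i) / MvPolynomial.aeval (fun i ↦ f i s) (F.coeff l) := by
      rw [← Finset.sum_neg_distrib, Finset.sum_div]
      refine Finset.sum_congr rfl fun α _ ↦ by ring
    rw [h7, eq_div_iff h0]
    have h8 : MvPolynomial.aeval (fun i ↦ f i s) (F.coeff l) * ∏ i, y i ^ l i +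
        ∑ α ∈ F.support.erase l, MvPolynomial.aeval (fun i ↦ f i s) (F.coeff α) *
          ∏ i, y i ^ α i = 0 := hy
    linear_combination h8

theorem two_le_pow7 {M : ℝ} (hM : 2 ≤ M) : 2 ≤ M ^ 7 :=
  hM.trans (le_self_pow₀ (by linarith) (by norm_num))

theorem bnd_zero (Cn : ℕ → ℕ) : Bnd Cn 0 := by
  intro e ε hε
  obtain ⟨e', κ, hrel⟩ := relations 0 e
  refine ⟨Cn e' + 1, fun M f n1 y S hA hS hyp ↦ ?_⟩
  obtain ⟨F, hF0, hFv, -, hco, hF⟩ := hrel (M ^ 7) y (fun s i ↦ f i s) S (two_le_pow7 hA.1)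
    (fun s hs ↦ (hS s hs).2.2.1) (fun s hs ↦ (hS s hs).2.2.2) hyp ∅ rfl
  have hC : F = MvPolynomial.C (F.coeff 0) := by
    refine MvPolynomial.totalDegree_eq_zero_iff_eq_C.1 ?_
    rw [MvPolynomial.totalDegree_eq_zero_iff]
    intro d hd i
    by_contra hi
    have : i ∈ F.vars := (MvPolynomial.mem_vars_iff_mem_support i).2
      ⟨d, hd, Finsupp.mem_support_iff.2 hi⟩
    simpa using hFv this
  have hc0 : F.coeff 0 ≠ 0 := fun h ↦ hF0 (by rw [hC, h, map_zero])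
  have h1 := zero_count hA.2.1 hA.2.2.2.1 hc0 (hco 0).1 S fun s hs ↦
    ⟨(hS s hs).1.trans (by norm_num), by
      have := hF s hs
      rw [hC, MvPolynomial.eval₂_C] at this
      exact this⟩
  have h2 : (S.card : ℝ) ≤ Cn e' + 1 := by exact_mod_cast h1
  have h3 : 1 ≤ M ^ ε := Real.one_le_rpow (by linarith [hA.1]) hε.le
  calc _ ≤ ((Cn e' : ℝ) + 1) * 1 := by rw [mul_one]; exact h2
    _ ≤ _ := by gcongr

theorem bnd_succ (Cn : ℕ → ℕ) (m : ℕ) (ih : Bnd Cn m) : Bnd Cn (m + 1) := by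
  classical
  intro e ε hε
  obtain ⟨η, hη0, hη1, hηε⟩ : ∃ η : ℝ, 0 < η ∧ η ≤ 1 ∧ η ≤ ε / 8 :=
    ⟨min 1 (ε / 8), lt_min one_pos (by positivity), min_le_left _ _, min_le_right _ _⟩
  obtain ⟨Ks, hK1, hK2⟩ : ∃ Ks : ℕ, 103 ≤ η * Ks ∧ η * Ks ≤ 104 := by
    refine ⟨⌈103 / η⌉₊, ?_, ?_⟩
    · have := Nat.le_ceil (103 / η)
      rw [div_le_iff₀ hη0] at this
      linarith
    · have := (Nat.ceil_lt_add_one (show 0 ≤ 103 / η by positivity)).le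
      calc η * (⌈103 / η⌉₊ : ℝ) ≤ η * (103 / η + 1) := by gcongr
        _ = 103 + η := by field_simp
        _ ≤ 104 := by linarith
  obtain ⟨e', κ, hrel⟩ := relations (m + 1) e
  obtain ⟨c, hc, hred⟩ := reduce m e'
  obtain ⟨d, hpiece⟩ := piece m c (12 * e' + 7 * κ + (Cn e' + 111 * (Cn e' + 2))) hc hη0
  obtain ⟨C1, hC1⟩ := ih d (ε / 2) (by positivity)
  obtain ⟨C2, hC2⟩ := tiny_disc Cn hε
  refine ⟨(256 * (Cn e' + 1) : ℕ) * (Ks * (34 ^ 2 * max C1 0) + max C2 0),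
    fun M f n1 y S hA hS hyp ↦ ?_⟩
  have hM := hA.1
  have hM1 : 1 ≤ M := by linarith
  have hM0 : 0 < M := by linarith
  have hFex := hrel (M ^ 7) y (fun s i ↦ f i s) S (two_le_pow7 hM)
    (fun s hs ↦ (hS s hs).2.2.1) (fun s hs ↦ (hS s hs).2.2.2) hyp
  choose! F hF0 hFv hFd hco hF using hFex
  have hlex : ∀ I : Finset (Fin 8), I.card = m + 1 → ∃ l ∈ (F I).support, (∀ i, l i ≤ e') ∧
      ∀ α ∈ (F I).support, α ≠ l →
        ∑ i : Fin 8, (e' + 1) ^ (i : ℕ) * α i < ∑ i : Fin 8, (e' + 1) ^ (i : ℕ) * l i := by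
    intro I hI
    have hb : ∀ α ∈ (F I).support, ∀ i, α i ≤ e' := fun α hα i ↦
      (MvPolynomial.monomial_le_degreeOf i hα).trans
        ((MvPolynomial.degreeOf_le_totalDegree _ i).trans (hFd I hI))
    obtain ⟨l, hl, h⟩ := exists_lead e' (F I).support
      (MvPolynomial.support_nonempty.2 (hF0 I hI)) hb
    exact ⟨l, hl, hb l hl, h⟩
  choose! l hl hle hlead using hlex
  set lam : ℝ := M ^ (-η) with hlam
  have hlam0 : 0 < lam := Real.rpow_pos_of_pos hM0 _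
  have hlam1 : lam ≤ 1 := Real.rpow_le_one_of_one_le_of_nonpos hM1 (by linarith)
  have hpw : ∀ k : ℕ, lam ^ k = M ^ (-(η * k)) := by
    intro k
    rw [hlam, ← Real.rpow_natCast, ← Real.rpow_mul hM0.le]
    congr 1
    ring
  have hbig : ∀ k, k ≤ Ks → 1 ≤ M ^ 104 * lam ^ k := by
    intro k hk
    rw [hpw, ← Real.rpow_natCast, ← Real.rpow_add hM0]
    refine Real.one_le_rpow hM1 ?_
    have : η * k ≤ η * Ks := by gcongr
    push_cast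
    linarith
  have hsmall : 2 * lam ^ Ks ≤ (M ^ 102)⁻¹ := by
    have h1 : M ^ 103 * lam ^ Ks ≤ 1 := by
      rw [hpw, ← Real.rpow_natCast, ← Real.rpow_add hM0]
      refine Real.rpow_le_one_of_one_le_of_nonpos hM1 ?_
      push_cast
      linarith
    rw [← one_div, le_div_iff₀ (by positivity)]
    calc 2 * lam ^ Ks * M ^ 102 ≤ M * lam ^ Ks * M ^ 102 := by gcongr
      _ = M ^ 103 * lam ^ Ks := by ring
      _ ≤ 1 := h1
  have hZex : ∀ (k : ℕ) (I : Finset (Fin 8)), ∃ Z : Finset ℂ, Z.card ≤ Cn e' + 1 ∧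
      (k ≤ Ks → I.card = m + 1 → ∀ s, ‖s‖ ≤ 2 → (∀ z ∈ Z, lam ^ k < ‖s - z‖) →
        1 ≤ M ^ (Cn e' + 111 * (Cn e' + 2)) *
          ‖MvPolynomial.aeval (fun i ↦ f i s) ((F I).coeff (l I))‖) := by
    intro k I
    by_cases h : k ≤ Ks ∧ I.card = m + 1
    · obtain ⟨Z, h1, h2⟩ := cover_val hA (MvPolynomial.mem_support_iff.1 (hl I h.2))
        (hco I h.2 _).1 (hbig k h.1) (pow_le_one₀ hlam0.le hlam1)
      exact ⟨Z, h1, fun _ _ ↦ h2⟩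
    · exact ⟨∅, by simp, fun h1 h2 ↦ absurd ⟨h1, h2⟩ h⟩
  choose Z hZc hZ using hZex
  have hmain := scales S (fun k ↦ Finset.univ.biUnion (Z k)) (lam := lam)
    (Q1 := max C1 0 * M ^ (ε / 2)) (Q2 := max C2 0 * M ^ ε) (W := 256 * (Cn e' + 1)) (Ks := Ks)
    hlam0 (by omega) ?_ (fun s hs ↦ (hS s hs).1) ?_ ?_
  · refine hmain.trans ?_
    have h1 : 1 ≤ M ^ (2 * η) := Real.one_le_rpow hM1 (by positivity)
    have h2 : 32 / lam ^ 2 = 32 * M ^ (2 * η) := by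
      rw [hpw, Real.rpow_neg hM0.le, div_inv_eq_mul]
      congr 2
      push_cast
      ring
    have h3 : (M ^ (2 * η)) ^ 2 * M ^ (ε / 2) ≤ M ^ ε := by
      rw [← Real.rpow_natCast, ← Real.rpow_mul hM0.le, ← Real.rpow_add hM0]
      refine Real.rpow_le_rpow_of_exponent_le hM1 ?_
      push_cast
      linarith
    have h4 : (32 / lam ^ 2 + 2) ^ 2 * (max C1 0 * M ^ (ε / 2)) ≤ 34 ^ 2 * max C1 0 * M ^ ε := by
      calc (32 / lam ^ 2 + 2) ^ 2 * (max C1 0 * M ^ (ε / 2))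
          ≤ (34 * M ^ (2 * η)) ^ 2 * (max C1 0 * M ^ (ε / 2)) := by
            gcongr
            rw [h2]
            linarith
        _ = 34 ^ 2 * max C1 0 * ((M ^ (2 * η)) ^ 2 * M ^ (ε / 2)) := by ring
        _ ≤ _ := by gcongr
    calc _ ≤ ((256 * (Cn e' + 1) : ℕ) : ℝ) *
          (Ks * (34 ^ 2 * max C1 0 * M ^ ε) + max C2 0 * M ^ ε) := by gcongr
      _ = _ := by ring
  · intro k
    refine Finset.card_biUnion_le.trans ?_
    simpa using Finset.sum_le_card_nsmul Finset.univ (fun I ↦ (Z k I).card) _ fun I _ ↦ hZc k I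
  · intro k hk S' hS' hfar hdiam
    rcases S'.eq_empty_or_nonempty with rfl | ⟨s0, hs0⟩
    · simp only [Finset.card_empty, Nat.cast_zero]
      positivity
    have hδ0 : 0 < lam ^ k := by positivity
    have hδ1 : lam ^ k ≤ 1 := pow_le_one₀ hlam0.le hlam1
    have hnear : ∀ s ∈ S', ‖s - s0‖ ≤ lam ^ k * lam / 4 := fun s hs ↦ by
      have := hdiam s hs s0 hs0
      rw [pow_succ] at this
      exact this.le
    have hin : ∀ s ∈ S', s ∈ ball s0 (lam ^ k) := fun s hs ↦ by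
      rw [mem_ball, dist_eq_norm]
      have := hnear s hs
      nlinarith
    have hyp' : Hyp y S' (m + 1) d := by
      refine hpiece M (lam ^ k) s0 S' y hM hδ0 (fun s hs ↦ (hS s (hS' hs)).2.2.1) hnear ?_
      refine hred (holo (ball s0 (lam ^ k))) (ball s0 (lam ^ k)) S' (fun s i ↦ (y s i : ℂ)) _
        (one_le_pow₀ hM1) fun I hI ↦ ?_
      obtain ⟨ρ, h1, h2, h3⟩ := solve_lead (k := Cn e' + 111 * (Cn e' + 2)) hM hA.2.1
        (fun i s hs ↦ (hA.2.2.1 i s hs).1) (F I) (hFd I hI) (hco I hI) (hl I hI)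
        (ball s0 (lam ^ k)) (by
          intro s hs
          rw [mem_ball, dist_eq_norm] at hs
          have h4 : ‖s‖ ≤ 2 := by
            have h5 := norm_add_le (s - s0) s0
            rw [sub_add_cancel] at h5
            linarith [(hS s0 (hS' hs0)).1]
          refine ⟨by linarith, hZ k I hk hI s h4 fun z hz ↦ ?_⟩
          have h6 := hfar s0 hs0 z (Finset.mem_biUnion.2 ⟨I, Finset.mem_univ _, hz⟩)
          have h7 := norm_sub_le (s - z) (s - s0)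
          rw [show s - z - (s - s0) = s0 - z by ring] at h7
          linarith)
      refine ⟨l I, (F I).support.erase (l I), ρ, ?_, hle I hI, fun α hα ↦ ⟨h1 α, ?_⟩, h2,
        fun s hs ↦ h3 s (hin s hs) _ (hF I hI s (hS' hs))⟩
      · exact fun i hi ↦ hFv I hI ((MvPolynomial.mem_vars_iff_mem_support i).2 ⟨_, hl I hI, hi⟩)
      · exact hlead I hI α (Finset.mem_of_mem_erase hα) (Finset.ne_of_mem_erase hα)
    refine (hC1 M f n1 y S' hA (fun s hs ↦ hS s (hS' hs)) hyp').trans ?_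
    gcongr
    exact le_max_left _ _
  · intro z S' hS' hz
    refine (hC2 M f 0 1 n1 z S' (by decide) hM hA.2.1 hA.2.2.1 hA.2.2.2.1 hA.2.2.2.2.1
      hA.2.2.2.2.2 fun s hs ↦ ⟨(hS s (hS' hs)).1, (hz s hs).trans hsmall,
        (hS s (hS' hs)).2.1⟩).trans ?_
    gcongr
    exact le_max_left _ _

theorem bnd_all (Cn : ℕ → ℕ) (m : ℕ) : Bnd Cn m := by
  induction m with
  | zero => exact bnd_zero Cn
  | succ m ih => exact bnd_succ Cn m ih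

theorem rel_data {τ τ' : ℂ} {n : ℕ} {M : ℝ} (hM : 2 ≤ M) (h : Rel n τ τ') (h0 : 0 < n)
    (hn : (n : ℝ) ≤ M) (h1 : ‖τ‖ ≤ M ∧ 1 ≤ M * τ.im) (h2 : ‖τ'‖ ≤ M ∧ 1 ≤ M * τ'.im) :
    ∃ a b c d : ℤ, Mob a b c d τ τ' ∧ (c : ℂ) * τ + d ≠ 0 ∧ |(a : ℝ)| ≤ M ^ 7 ∧
      |(b : ℝ)| ≤ M ^ 7 ∧ |(c : ℝ)| ≤ M ^ 7 ∧ |(d : ℝ)| ≤ M ^ 7 := by
  obtain ⟨a, b, c, d, hdet, hm⟩ := h
  obtain ⟨e1, e2, e3, e4⟩ := mob_entries hm hdet h0 (by linarith) h1.1 h2.1 h1.2 h2.2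
  have hb : 3 * n * M ^ 4 ≤ M ^ 7 := by
    have h3 : 3 ≤ M ^ 2 := by nlinarith
    calc 3 * n * M ^ 4 ≤ M ^ 2 * M * M ^ 4 := by gcongr
      _ = _ := by ring
  refine ⟨a, b, c, d, hm, fun hz ↦ ?_, e1.trans hb, e2.trans hb, e3.trans hb, e4.trans hb⟩
  have him : τ.im ≠ 0 := fun h ↦ by
    have := h1.2
    rw [h] at this
    norm_num at this
  have hc : c = 0 := by
    have := congrArg Complex.im hz
    simpa [him] using this
  have hd : d = 0 := by simpa [hc] using hz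
  rw [hc, hd] at hdet
  simp only [mul_zero, sub_zero] at hdet
  omega

end CoreAux

open CoreAux in
theorem count_core (Cn : ℕ → ℕ) {ε : ℝ} (hε : 0 < ε) : ∃ C : ℝ, ∀ (M : ℝ) (f : Fin 3 → ℂ → ℂ)
    (n1 n2 : ℕ) (S : Finset ℂ), 2 ≤ M → (∀ i, AnalyticOnNhd ℂ (f i) (closedBall 0 10)) →
    (∀ i s, ‖s‖ ≤ 10 → ‖f i s‖ ≤ M ∧ 1 ≤ M * (f i s).im) → NDeg f Cn M →
    0 < n1 → (n1 : ℝ) ≤ M → 0 < n2 → (n2 : ℝ) ≤ M →
    (∀ s ∈ S, ‖s‖ ≤ 1 ∧ Rel n1 (f 0 s) (f 1 s) ∧ Rel n2 (f 0 s) (f 2 s)) →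
    (S.card : ℝ) ≤ C * M ^ ε := by
  obtain ⟨C, hC⟩ := bnd_all Cn 7 0 ε hε
  refine ⟨C, fun M f n1 n2 S hM hf hb hnd h1 h1' h2 h2' hS ↦ ?_⟩
  have hex : ∀ s, ∃ v : Fin 8 → ℤ, s ∈ S → Pt M f n1 (fun _ ↦ v) s := by
    intro s
    by_cases hs : s ∈ S
    · obtain ⟨hs1, r1, r2⟩ := hS s hs
      have hs10 : ‖s‖ ≤ 10 := by linarith
      obtain ⟨a, b, c, d, m1, z1, ba, bb, bc, bd⟩ :=
        rel_data hM r1 h1 h1' (hb 0 s hs10) (hb 1 s hs10)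
      obtain ⟨a', b', c', d', m2, z2, ba', bb', bc', bd'⟩ :=
        rel_data hM r2 h2 h2' (hb 0 s hs10) (hb 2 s hs10)
      refine ⟨![a, b, c, d, a', b', c', d'], fun _ ↦ ⟨hs1, r1, fun i ↦ ?_, m1, m2, z1, z2⟩⟩
      fin_cases i
      exacts [ba, bb, bc, bd, ba', bb', bc', bd']
    · exact ⟨0, fun h ↦ absurd h hs⟩
  choose y hy using hex
  refine hC M f n1 y S ⟨hM, hf, hb, hnd, h1, h1'⟩ hy fun I hI ↦ ?_
  have := Finset.card_le_univ I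
  rw [hI, Fintype.card_fin] at this
  omega

end Pool.Agent.Lib.ZP3
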