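import Pool.Agent.Lib.ZP3.Core2A
import Pool.Agent.Lib.ZP3.Tiny2
import Pool.Agent.Lib.ZP3.Ent
import Pool.Agent.Lib.ZP3.Reduce2

/-! Block CORE2: the determinant method on one chart, complex coefficients. -/

open Filter Topology Metric

namespace Pool.Agent.Lib.ZP3

namespace Core2

open CoreAux

variable {κ : Type} [Fintype κ] [DecidableEq κ] (s1 s2 : κ ⊕ ℂ) (j1 j2 : κ)

/-- standing hypotheses on the chart -/
def Amb (Cn : ℕ → ℕ) (M : ℝ) (f : κ → ℂ → ℂ) (n1 : ℕ) : Prop :=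
  2 ≤ M ∧ (∀ i, AnalyticOnNhd ℂ (f i) (closedBall 0 10)) ∧
    (∀ i s, ‖s‖ ≤ 10 → ‖f i s‖ ≤ M ∧ 1 ≤ M * (f i s).im) ∧ NDegC f Cn ∧ 0 < n1 ∧ (n1 : ℝ) ≤ M ∧
    (∀ c, s1 = Sum.inr c → ‖c‖ ≤ M ∧ 1 ≤ M * c.im) ∧ (s1 = Sum.inl j1 → ¬ IsSquare n1)

/-- standing hypotheses on a special point -/
def Pt (M : ℝ) (f : κ → ℂ → ℂ) (n1 : ℕ) (y : ℂ → Fin 8 → ℤ) (s : ℂ) : Prop :=
  ‖s‖ ≤ 1 ∧ Rel n1 (sv (fun i ↦ f i s) s1) (f j1 s) ∧ (∀ i, |(y s i : ℝ)| ≤ M ^ 15) ∧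
    Rels (y s) (fun i ↦ f i s) s1 j1 s2 j2

/-- the statement proved by induction on `m` -/
def Bnd (Cn : ℕ → ℕ) (m : ℕ) : Prop :=
  ∀ (e : ℕ) (ε : ℝ), 0 < ε → ∃ C : ℝ, ∀ (M : ℝ) (f : κ → ℂ → ℂ) (n1 : ℕ) (y : ℂ → Fin 8 → ℤ)
    (S : Finset ℂ), Amb s1 j1 Cn M f n1 → (∀ s ∈ S, Pt s1 s2 j1 j2 M f n1 y s) →
    Hyp y S (m + 1) e → (S.card : ℝ) ≤ C * M ^ ε

variable {s1 s2 j1 j2}

theorem bnd_zero (h2 : Two s1 j1 s2 j2) (Cn : ℕ → ℕ) : Bnd s1 s2 j1 j2 Cn 0 := by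
  intro e ε hε
  obtain ⟨e', hrel⟩ := relations2 h2 0 e
  refine ⟨Cn e' + 1, fun M f n1 y S hA hS hyp ↦ ?_⟩
  obtain ⟨F, hF0, hFv, -, hco, hF⟩ := hrel y (fun s i ↦ f i s) S
    (fun s hs ↦ (hS s hs).2.2.2) hyp ∅ rfl
  have hC : F = MvPolynomial.C (F.coeff 0) := by
    refine MvPolynomial.totalDegree_eq_zero_iff_eq_C.1 ?_
    rw [MvPolynomial.totalDegree_eq_zero_iff]
    intro d hd i
    by_contra hi
    have : i ∈ F.vars := (MvPolynomial.mem_vars_iff_mem_support i).2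
      ⟨d, hd, Finsupp.mem_support_iff.2 hi⟩
    simpa using hFv this
  have hc0 : F.coeff 0 ≠ 0 := fun h ↦ hF0 (by rw [hC, h, map_zero])
  have h1 := zero_countC hA.2.1 hA.2.2.2.1 hc0 (hco 0) S fun s hs ↦
    ⟨(hS s hs).1.trans (by norm_num), by
      have := hF s hs
      rw [hC, MvPolynomial.eval₂_C] at this
      exact this⟩
  have h2 : (S.card : ℝ) ≤ Cn e' + 1 := by exact_mod_cast h1
  have h3 : 1 ≤ M ^ ε := Real.one_le_rpow (by linarith [hA.1]) hε.le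
  calc _ ≤ ((Cn e' : ℝ) + 1) * 1 := by rw [mul_one]; exact h2
    _ ≤ _ := by gcongr

theorem bnd_succ (htwo : Two s1 j1 s2 j2) (Cn : ℕ → ℕ) (m : ℕ) (ih : Bnd s1 s2 j1 j2 Cn m) :
    Bnd s1 s2 j1 j2 Cn (m + 1) := by
  classical
  intro e ε hε
  obtain ⟨η, hη0, hη1, hηε⟩ : ∃ η : ℝ, 0 < η ∧ η ≤ 1 ∧ η ≤ ε / 8 :=
    ⟨min 1 (ε / 8), lt_min one_pos (by positivity), min_le_left _ _, min_le_right _ _⟩
  obtain ⟨Ks, hK1, hK2⟩ : ∃ Ks : ℕ, 103 ≤ η * Ks ∧ η * Ks ≤ 104 := by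
    refine ⟨⌈103 / η⌉₊, ?_, ?_⟩
    · have := Nat.le_ceil (103 / η)
      rw [div_le_iff₀ hη0] at this
      linarith
    · have := (Nat.ceil_lt_add_one (show 0 ≤ 103 / η by positivity)).le
      calc η * (⌈103 / η⌉₊ : ℝ) ≤ η * (103 / η + 1) := by gcongr
        _ = 103 + η := by field_simp
        _ ≤ 104 := by linarith
  obtain ⟨e', hrel⟩ := relations2 htwo (m + 1) e
  obtain ⟨c, hc, hred⟩ := reduce2 m e'
  choose d w hpiece using fun k : ℕ ↦ piece2 m c k hc hη0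
  obtain ⟨c0, hc0⟩ : ∃ c0, c0 = 8 * e' + Cn e' + 111 * (Cn e' + 2) := ⟨_, rfl⟩
  obtain ⟨ks, hks⟩ : ∃ ks : ℕ → ℕ, ∀ g, ks (g + 1) = ks g + c0 + 15 * e' + w (ks g + c0) :=
    ⟨fun g ↦ Nat.rec 0 (fun _ x ↦ x + c0 + 15 * e' + w (x + c0)) g, fun _ ↦ rfl⟩
  have hksm : Monotone ks := monotone_nat_of_le_succ fun g ↦ by rw [hks]; omega
  choose C1' hC1' using fun g ↦ ih (d (ks g + c0)) (ε / 2) (by positivity)
  obtain ⟨C1, hC1g⟩ : ∃ C1 : ℝ, ∀ g ≤ 256 * (e' + 1) ^ 8, C1' g ≤ C1 :=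
    ⟨∑ g ∈ Finset.range (256 * (e' + 1) ^ 8 + 1), |C1' g|, fun g hg ↦ (le_abs_self _).trans
      (Finset.single_le_sum (f := fun g ↦ |C1' g|) (fun _ _ ↦ abs_nonneg _)
        (Finset.mem_range.2 (by omega)))⟩
  obtain ⟨C2, hC2⟩ := tiny_disc2 Cn hε
  refine ⟨(256 * (Cn e' + 1) : ℕ) * (Ks * (34 ^ 2 * max C1 0) + max C2 0),
    fun M f n1 y S hA hS hyp ↦ ?_⟩
  have hM := hA.1
  have hM1 : 1 ≤ M := by linarith
  have hM0 : 0 < M := by linarith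
  have hFex := hrel y (fun s i ↦ f i s) S (fun s hs ↦ (hS s hs).2.2.2) hyp
  choose! F hF0 hFv hFd hco hF using hFex
  obtain ⟨φ, hφ⟩ : ∃ φ : Finset (Fin 8) → (Fin 8 →₀ ℕ) → ℂ → ℂ, ∀ I α s,
      MvPolynomial.eval (fun i ↦ f i s) ((F I).coeff α) = φ I α s := ⟨_, fun _ _ _ ↦ rfl⟩
  have hφa : ∀ I α, AnalyticOnNhd ℂ (φ I α) (closedBall 0 10) := fun I α ↦ by
    simpa only [hφ] using ev_analytic hA.2.1 ((F I).coeff α)
  have hpex : ∀ I : Finset (Fin 8), I.card = m + 1 → ∀ α ∈ (F I).support, ∃ s0 : ℂ, ‖s0‖ ≤ 2 ∧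
      φ I α s0 ≠ 0 ∧ ∀ s : ℂ, ‖s‖ ≤ 10 → ‖φ I α s‖ ≤ 2 ^ Cn e' * ‖φ I α s0‖ := fun I hI α hα ↦ by
    simpa only [hφ] using hA.2.2.2.1 e' _ (MvPolynomial.mem_support_iff.1 hα) (hco I hI α)
  choose! p hp1 hp2 hp3 using hpex
  have hmex : ∀ I : Finset (Fin 8), I.card = m + 1 → ∃ a ∈ (F I).support, ∀ α ∈ (F I).support,
      ‖φ I α (p I α)‖ ≤ ‖φ I a (p I a)‖ := fun I hI ↦
    Finset.exists_max_image _ _ (MvPolynomial.support_nonempty.2 (hF0 I hI))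
  choose! am ham hmax using hmex
  have hN : ∀ I : Finset (Fin 8), I.card = m + 1 → 0 < ‖φ I (am I) (p I (am I))‖ := fun I hI ↦
    norm_pos_iff.2 (hp2 I hI _ (ham I hI))
  obtain ⟨g, hg, hgap⟩ := gap ((Finset.univ.filter fun I : Finset (Fin 8) ↦ I.card = m + 1).sigma
      fun I ↦ (F I).support) (fun x ↦ ‖φ x.1 x.2 (p x.1 x.2)‖ / ‖φ x.1 (am x.1) (p x.1 (am x.1))‖)
    (b := fun g ↦ (M ^ ks g)⁻¹) fun a b hab ↦
      inv_anti₀ (by positivity) (pow_le_pow_right₀ hM1 (hksm hab))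
  have hgG : g ≤ 256 * (e' + 1) ^ 8 := by
    refine hg.trans ?_
    rw [Finset.card_sigma]
    refine (Finset.sum_le_card_nsmul _ _ ((e' + 1) ^ 8) fun I hI ↦ ?_).trans ?_
    · simpa using card_support_le (F I) (hFd I (Finset.mem_filter.1 hI).2)
    · rw [smul_eq_mul]
      gcongr
      simpa using Finset.card_le_univ (Finset.univ.filter fun I : Finset (Fin 8) ↦ I.card = m + 1)
  obtain ⟨T, hT⟩ : ∃ T : Finset (Fin 8) → Finset (Fin 8 →₀ ℕ), ∀ I α, α ∈ T I ↔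
      α ∈ (F I).support ∧ (M ^ ks g)⁻¹ ≤ ‖φ I α (p I α)‖ / ‖φ I (am I) (p I (am I))‖ :=
    ⟨fun I ↦ (F I).support.filter fun α ↦
      (M ^ ks g)⁻¹ ≤ ‖φ I α (p I α)‖ / ‖φ I (am I) (p I (am I))‖, fun _ _ ↦ Finset.mem_filter⟩
  have hTs : ∀ I, T I ⊆ (F I).support := fun I α hα ↦ ((hT I α).1 hα).1
  have hlex : ∀ I : Finset (Fin 8), I.card = m + 1 → ∃ l ∈ T I, (∀ i, l i ≤ e') ∧
      ∀ α ∈ T I, α ≠ l →
        ∑ i : Fin 8, (e' + 1) ^ (i : ℕ) * α i < ∑ i : Fin 8, (e' + 1) ^ (i : ℕ) * l i := by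
    intro I hI
    have hb : ∀ α ∈ T I, ∀ i, α i ≤ e' := fun α hα i ↦
      (MvPolynomial.monomial_le_degreeOf i (hTs I hα)).trans
        ((MvPolynomial.degreeOf_le_totalDegree _ i).trans (hFd I hI))
    obtain ⟨l, hl, h⟩ := exists_lead e' (T I) ⟨am I, (hT I _).2 ⟨ham I hI, by
      rw [div_self (hN I hI).ne']
      exact inv_le_one_of_one_le₀ (one_le_pow₀ hM1)⟩⟩ hb
    exact ⟨l, hl, hb l hl, h⟩
  choose! l hl hle hlead using hlex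
  set lam : ℝ := M ^ (-η) with hlam
  have hlam0 : 0 < lam := Real.rpow_pos_of_pos hM0 _
  have hlam1 : lam ≤ 1 := Real.rpow_le_one_of_one_le_of_nonpos hM1 (by linarith)
  have hpw : ∀ k : ℕ, lam ^ k = M ^ (-(η * k)) := by
    intro k
    rw [hlam, ← Real.rpow_natCast, ← Real.rpow_mul hM0.le]
    congr 1
    ring
  have hbig : ∀ k, k ≤ Ks → 1 ≤ M ^ 104 * lam ^ k := by
    intro k hk
    rw [hpw, ← Real.rpow_natCast, ← Real.rpow_add hM0]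
    refine Real.one_le_rpow hM1 ?_
    have : η * k ≤ η * Ks := by gcongr
    push_cast
    linarith
  have hsmall : 2 * lam ^ Ks ≤ (M ^ 102)⁻¹ := by
    have h1 : M ^ 103 * lam ^ Ks ≤ 1 := by
      rw [hpw, ← Real.rpow_natCast, ← Real.rpow_add hM0]
      refine Real.rpow_le_one_of_one_le_of_nonpos hM1 ?_
      push_cast
      linarith
    rw [← one_div, le_div_iff₀ (by positivity)]
    calc 2 * lam ^ Ks * M ^ 102 ≤ M * lam ^ Ks * M ^ 102 := by gcongr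
      _ = M ^ 103 * lam ^ Ks := by ring
      _ ≤ 1 := h1
  have hZex : ∀ (k : ℕ) (I : Finset (Fin 8)), ∃ Z : Finset ℂ, Z.card ≤ Cn e' + 1 ∧
      (k ≤ Ks → I.card = m + 1 → ∀ s, ‖s‖ ≤ 2 → (∀ z ∈ Z, lam ^ k < ‖s - z‖) →
        ‖φ I (am I) (p I (am I))‖ ≤ M ^ (ks g + 111 * (Cn e' + 2)) * ‖φ I (l I) s‖) := by
    intro k I
    by_cases h : k ≤ Ks ∧ I.card = m + 1
    · obtain ⟨h3, h4⟩ := (hT I _).1 (hl I h.2)
      obtain ⟨Z, h1, h2⟩ := cover_val2 (hφa I (l I)) (hp1 I h.2 _ h3) (hp3 I h.2 _ h3) hM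
        (hbig k h.1) (pow_le_one₀ hlam0.le hlam1)
      refine ⟨Z, h1, fun _ _ s hs hz ↦ ?_⟩
      rw [le_div_iff₀ (hN I h.2), inv_mul_le_iff₀ (by positivity)] at h4
      calc _ ≤ _ := h4
        _ ≤ M ^ ks g * (M ^ (111 * (Cn e' + 2)) * ‖φ I (l I) s‖) := by gcongr; exact h2 s hs hz
        _ = _ := by ring
    · exact ⟨∅, by simp, fun h1 h2 ↦ absurd ⟨h1, h2⟩ h⟩
  choose Z hZc hZ using hZex
  have hmain := scales S (fun k ↦ Finset.univ.biUnion (Z k)) (lam := lam)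
    (Q1 := max C1 0 * M ^ (ε / 2)) (Q2 := max C2 0 * M ^ ε) (W := 256 * (Cn e' + 1)) (Ks := Ks)
    hlam0 (by omega) ?_ (fun s hs ↦ (hS s hs).1) ?_ ?_
  · refine hmain.trans ?_
    have h1 : 1 ≤ M ^ (2 * η) := Real.one_le_rpow hM1 (by positivity)
    have h2 : 32 / lam ^ 2 = 32 * M ^ (2 * η) := by
      rw [hpw, Real.rpow_neg hM0.le, div_inv_eq_mul]
      congr 2
      push_cast
      ring
    have h3 : (M ^ (2 * η)) ^ 2 * M ^ (ε / 2) ≤ M ^ ε := by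
      rw [← Real.rpow_natCast, ← Real.rpow_mul hM0.le, ← Real.rpow_add hM0]
      refine Real.rpow_le_rpow_of_exponent_le hM1 ?_
      push_cast
      linarith
    have h4 : (32 / lam ^ 2 + 2) ^ 2 * (max C1 0 * M ^ (ε / 2)) ≤ 34 ^ 2 * max C1 0 * M ^ ε := by
      calc (32 / lam ^ 2 + 2) ^ 2 * (max C1 0 * M ^ (ε / 2))
          ≤ (34 * M ^ (2 * η)) ^ 2 * (max C1 0 * M ^ (ε / 2)) := by
            gcongr
            rw [h2]
            linarith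
        _ = 34 ^ 2 * max C1 0 * ((M ^ (2 * η)) ^ 2 * M ^ (ε / 2)) := by ring
        _ ≤ _ := by gcongr
    calc _ ≤ ((256 * (Cn e' + 1) : ℕ) : ℝ) *
          (Ks * (34 ^ 2 * max C1 0 * M ^ ε) + max C2 0 * M ^ ε) := by gcongr
      _ = _ := by ring
  · intro k
    refine Finset.card_biUnion_le.trans ?_
    simpa using Finset.sum_le_card_nsmul Finset.univ (fun I ↦ (Z k I).card) _ fun I _ ↦ hZc k I
  · intro k hk S' hS' hfar hdiam
    rcases S'.eq_empty_or_nonempty with rfl | ⟨s0, hs0⟩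
    · simp only [Finset.card_empty, Nat.cast_zero]
      positivity
    have hδ0 : 0 < lam ^ k := by positivity
    have hδ1 : lam ^ k ≤ 1 := pow_le_one₀ hlam0.le hlam1
    have hnear : ∀ s ∈ S', ‖s - s0‖ ≤ lam ^ k * lam / 4 := fun s hs ↦ by
      have := hdiam s hs s0 hs0
      rw [pow_succ] at this
      exact this.le
    have hin : ∀ s ∈ S', s ∈ ball s0 (lam ^ k) := fun s hs ↦ by
      rw [mem_ball, dist_eq_norm]
      have := hnear s hs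
      nlinarith
    have hyb : ∀ s ∈ S', ∀ i, ‖(y s i : ℂ)‖ ≤ M ^ 15 := fun s hs i ↦ by
      simpa [Complex.norm_intCast] using (hS s (hS' hs)).2.2.1 i
    have hball : ∀ s ∈ ball s0 (lam ^ k), ‖s‖ ≤ 2 := by
      intro s hs
      rw [mem_ball, dist_eq_norm] at hs
      have h5 := norm_add_le (s - s0) s0
      rw [sub_add_cancel] at h5
      linarith [(hS s0 (hS' hs0)).1]
    have hyp' : Hyp y S' (m + 1) (d (ks g + c0)) := by
      refine hpiece (ks g + c0) M (lam ^ k) ((M ^ ks (g + 1))⁻¹ * M ^ (ks g + c0 + 15 * e')) s0 S'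
        y hM hδ0 (by positivity) (le_of_eq ?_) (fun s hs ↦ (hS s (hS' hs)).2.2.1) hnear ?_
      · rw [mul_assoc, ← pow_add, ← hks, inv_mul_cancel₀ (by positivity)]
      refine hred (holo (ball s0 (lam ^ k))) (ball s0 (lam ^ k)) S' (fun s i ↦ (y s i : ℂ)) _ _ _
        (one_le_pow₀ hM1) (by positivity) (one_le_pow₀ hM1) (fun s hs ↦ ⟨hin s hs, hyb s hs⟩)
        fun I hI ↦ ?_
      have hup : ∀ α ∈ (F I).support, ∀ s ∈ ball s0 (lam ^ k),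
          ‖φ I α s‖ ≤ M ^ Cn e' * ‖φ I α (p I α)‖ := fun α hα s hs ↦
        (hp3 I hI α hα s (by linarith [hball s hs])).trans (by gcongr)
      obtain ⟨ρ, h1, h2, h3⟩ := solve_lead2 (k := ks g + 111 * (Cn e' + 2)) (C := Cn e')
        (ω := (M ^ ks (g + 1))⁻¹) hM (hN I hI) (by positivity) hA.2.1 (F I) (hFd I hI) (hTs I)
        (hl I hI) (ball s0 (lam ^ k)) (by
          intro s hs
          have h4 := hball s hs
          rw [mem_ball, dist_eq_norm] at hs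
          rw [hφ]
          refine ⟨by linarith, hZ k I hk hI s h4 fun z hz ↦ ?_⟩
          have h6 := hfar s0 hs0 z (Finset.mem_biUnion.2 ⟨I, Finset.mem_univ _, hz⟩)
          have h7 := norm_sub_le (s - z) (s - s0)
          rw [show s - z - (s - s0) = s0 - z by ring] at h7
          linarith)
        (fun α hα s hs ↦ by
          rw [hφ]
          refine (hup α (hTs I hα) s hs).trans ?_
          gcongr
          exact hmax I hI α (hTs I hα))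
        (fun α hα hn s hs ↦ by
          rw [hφ, mul_assoc]
          refine (hup α hα s hs).trans ?_
          have h8 := hgap ⟨I, α⟩ (Finset.mem_sigma.2 ⟨by simpa using hI, hα⟩)
            (not_le.1 fun h ↦ hn ((hT I α).2 ⟨hα, h⟩))
          rw [div_lt_iff₀' (hN I hI)] at h8
          gcongr)
      have he : 8 * e' + Cn e' + (ks g + 111 * (Cn e' + 2)) = ks g + c0 := by omega
      rw [he] at h2 h3
      refine ⟨l I, (T I).erase (l I), ρ, ?_, hle I hI, fun α hα ↦ ⟨h1 α, ?_⟩, h2,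
        fun s hs ↦ h3 s (hin s hs) _ (hyb s hs) (hF I hI s (hS' hs))⟩
      · exact fun i hi ↦ hFv I hI
          ((MvPolynomial.mem_vars_iff_mem_support i).2 ⟨_, hTs I (hl I hI), hi⟩)
      · exact hlead I hI α (Finset.mem_of_mem_erase hα) (Finset.ne_of_mem_erase hα)
    refine (hC1' g M f n1 y S' hA (fun s hs ↦ hS s (hS' hs)) hyp').trans ?_
    gcongr
    exact (hC1g g hgG).trans (le_max_left _ _)
  · intro z S' hS' hz
    refine (hC2 M f s1 j1 n1 z S' hA.2.2.2.2.2.2.2 hM hA.2.1 hA.2.2.1 hA.2.2.2.2.2.2.1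
      hA.2.2.2.1 hA.2.2.2.2.1 hA.2.2.2.2.2.1 fun s hs ↦ ⟨(hS s (hS' hs)).1, (hz s hs).trans hsmall,
        (hS s (hS' hs)).2.1⟩).trans ?_
    gcongr
    exact le_max_left _ _

theorem bnd_all (h2 : Two s1 j1 s2 j2) (Cn : ℕ → ℕ) (m : ℕ) : Bnd s1 s2 j1 j2 Cn m := by
  induction m with
  | zero => exact bnd_zero h2 Cn
  | succ m ih => exact bnd_succ h2 Cn m ih

end Core2

open Core2 in
theorem count_core2 {κ : Type} [Fintype κ] [DecidableEq κ] {s1 s2 : κ ⊕ ℂ} {j1 j2 : κ}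
    (h2 : Two s1 j1 s2 j2) (Cn : ℕ → ℕ) {ε : ℝ} (hε : 0 < ε) : ∃ C : ℝ, ∀ (M : ℝ)
    (f : κ → ℂ → ℂ) (n1 n2 : ℕ) (S : Finset ℂ), 2 ≤ M →
    (∀ i, AnalyticOnNhd ℂ (f i) (closedBall 0 10)) →
    (∀ i u, ‖u‖ ≤ 10 → ‖f i u‖ ≤ M ∧ 1 ≤ M * (f i u).im) →
    (∀ c, s1 = Sum.inr c ∨ s2 = Sum.inr c → ‖c‖ ≤ M ∧ 1 ≤ M * c.im) → NDegC f Cn →
    0 < n1 → (n1 : ℝ) ≤ M → 0 < n2 → (n2 : ℝ) ≤ M →
    (s1 = Sum.inl j1 → ¬ IsSquare n1) → (s2 = Sum.inl j2 → ¬ IsSquare n2) →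
    (∀ u ∈ S, ‖u‖ ≤ 1 ∧ Rel n1 (sv (fun i ↦ f i u) s1) (f j1 u) ∧
      Rel n2 (sv (fun i ↦ f i u) s2) (f j2 u)) → (S.card : ℝ) ≤ C * M ^ ε := by
  obtain ⟨C, hC⟩ := bnd_all h2 Cn 7 0 ε hε
  refine ⟨C, fun M f n1 n2 S hM hf hb hc hnd h1 h1' h3 h3' q1 q2 hS ↦ ?_⟩
  have hex : ∀ s, ∃ v : Fin 8 → ℤ, s ∈ S → Core2.Pt s1 s2 j1 j2 M f n1 (fun _ ↦ v) s := by
    intro s
    by_cases hs : s ∈ S
    · obtain ⟨hs1, r1, r2⟩ := hS s hs
      have hs10 : ‖s‖ ≤ 10 := by linarith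
      have hsv : ∀ t, t = s1 ∨ t = s2 →
          ‖sv (fun i ↦ f i s) t‖ ≤ M ∧ 1 ≤ M * (sv (fun i ↦ f i s) t).im := by
        rintro (i | c) ht
        · exact hb i s hs10
        · exact hc c (ht.imp Eq.symm Eq.symm)
      obtain ⟨v, hv, hv'⟩ := exists_rels (T := fun i ↦ f i s) (B := M) (by linarith) (by
        intro z hz
        have : ‖z‖ ≤ M ∧ 1 ≤ M * z.im := by
          rcases hz with rfl | rfl | rfl | rfl
          exacts [hsv _ (Or.inl rfl), hb _ s hs10, hsv _ (Or.inr rfl), hb _ s hs10]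
        exact ⟨(Complex.abs_re_le_norm z).trans this.1, this.2⟩) h1 h1' h3 h3' q1 q2 r1 r2
      refine ⟨v, fun _ ↦ ⟨hs1, r1, fun i ↦ (hv' i).trans ?_, hv⟩⟩
      have h6 : (2 : ℝ) ^ 6 ≤ M ^ 6 := by gcongr
      calc 48 * M ^ 5 * M ^ 4 ≤ M ^ 6 * M ^ 5 * M ^ 4 := by gcongr; linarith
        _ = _ := by ring
    · exact ⟨0, fun h ↦ absurd h hs⟩
  choose y hy using hex
  refine hC M f n1 y S ⟨hM, hf, hb, hnd, h1, h1', fun c h ↦ hc c (Or.inl h), q1⟩ hy fun I hI ↦ ?_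
  have := Finset.card_le_univ I
  rw [hI, Fintype.card_fin] at this
  omega

end Pool.Agent.Lib.ZP3
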