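import Pool.Agent.Lib.ZP3.Core
import Pool.Agent.Lib.ZP3.Defs2

/-! Block CORE2, first part: the pigeonhole step with an error term. -/

open Filter Topology Metric

namespace Pool.Agent.Lib.ZP3

namespace Core2

open CoreAux

/-- the pigeonhole step -/
theorem piece_core2 (T Bs : Finset (Fin 8 →₀ ℕ)) (J : ℕ) (hJ : 0 < J) (hT : T.Nonempty)
    (hcard : 4 * (Bs.card * J) ≤ T.card) {E δ u0 : ℝ} (hE : 64 ≤ E) (hTE : (T.card : ℝ) ≤ E)
    (hδ : 0 < δ) (hu0 : 0 ≤ u0) (hu1 : u0 ≤ 1 / 2) (hu : u0 ^ J * E ^ 9 ≤ 1) (s0 : ℂ)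
    (S : Finset ℂ) (y : ℂ → Fin 8 → ℤ) (hS : ∀ s ∈ S, ‖s - s0‖ * (2 / δ) ≤ u0)
    (hy : ∀ s ∈ S, ∀ β ∈ Bs, ‖∏ i, (y s i : ℂ) ^ β i‖ ≤ E)
    (a : (Fin 8 →₀ ℕ) → (Fin 8 →₀ ℕ) → ℂ → ℂ)
    (ha : ∀ γ ∈ T, ∀ β ∈ Bs, DifferentiableOn ℂ (a γ β) (ball s0 δ) ∧
      ∀ s ∈ ball s0 δ, ‖a γ β s‖ ≤ E)
    {θ : ℝ} (hθ : θ * E ^ 7 ≤ 1) (hid : ∀ γ ∈ T, ∀ s ∈ S,
      ‖∏ i, (y s i : ℂ) ^ γ i - ∑ β ∈ Bs, a γ β s * ∏ i, (y s i : ℂ) ^ β i‖ ≤ θ) :
    ∃ p : T → ℤ, p ≠ 0 ∧ ∀ s ∈ S, ∑ γ : T, p γ * ∏ i, y s i ^ (γ : Fin 8 →₀ ℕ) i = 0 := by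
  classical
  have hE0 : 0 < E := by linarith
  have hex : ∀ (γ : T) (β : Bs), ∃ t : ℕ → ℂ, (∀ j, ‖t j‖ ≤ E) ∧ ∀ s ∈ ball s0 δ,
      ‖a γ β s - ∑ j ∈ Finset.range J, t j * ((s - s0) * (2 / δ : ℝ)) ^ j‖ ≤
        E * ‖(s - s0) * (2 / δ : ℝ)‖ ^ J := fun γ β ↦
    taylor s0 hδ J _ (ha γ γ.2 β β.2).1 (ha γ γ.2 β β.2).2
  choose t ht hr using hex
  have hε : (0 : ℝ) < 1 / (4 * E ^ 2) := by positivity
  have hε1 : 1 / (4 * E ^ 2) ≤ (1 : ℝ) := by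
    rw [div_le_one (by positivity)]; nlinarith
  obtain ⟨p, hp0, hp, hsmall⟩ := pigeon (n := T) (r := Bs × Fin J)
    (fun i γ ↦ t γ i.1 i.2) (K := E) (by linarith) hε hε1 (fun i γ ↦ ht _ _ _)
    (by simpa using hT.card_pos) (by simpa using hcard)
  refine ⟨p, hp0, fun s hs ↦ ?_⟩
  have hBE : (Bs.card : ℝ) ≤ E := by
    have : Bs.card ≤ T.card := by nlinarith
    exact (Nat.cast_le.2 this).trans hTE
  have hP : ∀ γ, |(p γ : ℝ)| ≤ 28 * E ^ 4 := by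
    intro γ
    refine (hp γ).trans ?_
    rw [Fintype.card_coe]
    calc 7 * (T.card : ℝ) * E / (1 / (4 * E ^ 2)) = 28 * T.card * E ^ 3 := by field_simp; ring
      _ ≤ 28 * E * E ^ 3 := by gcongr
      _ = _ := by ring
  set u : ℂ := (s - s0) * (2 / δ : ℝ) with hudef
  have hun : ‖u‖ ≤ u0 := by
    rw [hudef, norm_mul, Complex.norm_real, Real.norm_of_nonneg (by positivity)]
    exact hS s hs
  have hsb : s ∈ ball s0 δ := by
    rw [mem_ball, dist_eq_norm]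
    have := (hS s hs).trans hu1
    rw [mul_div_assoc', div_le_iff₀ hδ] at this
    linarith
  have hβ : ∀ β : Bs, ‖∑ γ : T, (p γ : ℂ) * a γ β s‖ ≤ 1 / (2 * E ^ 2) + 28 / (64 * E ^ 2) := by
    intro β
    have e : ∑ γ : T, (p γ : ℂ) * a γ β s =
        ∑ j : Fin J, (∑ γ : T, (p γ : ℂ) * t γ β j) * u ^ (j : ℕ) +
        ∑ γ : T, (p γ : ℂ) * (a γ β s - ∑ j ∈ Finset.range J, t γ β j * u ^ j) := by
      simp only [Finset.sum_mul, mul_sub, Finset.sum_sub_distrib, Finset.sum_range,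
        Finset.mul_sum, mul_assoc]
      rw [Finset.sum_comm]
      ring
    rw [e]
    refine (norm_add_le _ _).trans (add_le_add ?_ ?_)
    · refine (norm_sum_le _ _).trans ?_
      calc ∑ j : Fin J, ‖(∑ γ : T, (p γ : ℂ) * t γ β j) * u ^ (j : ℕ)‖
          ≤ ∑ j : Fin J, 1 / (4 * E ^ 2) * (1 / 2) ^ (j : ℕ) := by
            refine Finset.sum_le_sum fun j _ ↦ ?_
            rw [norm_mul, norm_pow]
            have := (hsmall (β, j)).le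
            gcongr
            exact hun.trans hu1
        _ = 1 / (4 * E ^ 2) * ∑ j ∈ Finset.range J, (1 / 2 : ℝ) ^ j := by
            rw [Finset.sum_range, Finset.mul_sum]
        _ ≤ 1 / (4 * E ^ 2) * 2 := by
            gcongr
            exact sum_geometric_two_le J
        _ = _ := by field_simp; ring
    · refine (norm_sum_le _ _).trans ?_
      calc ∑ γ : T, ‖(p γ : ℂ) * (a γ β s - ∑ j ∈ Finset.range J, t γ β j * u ^ j)‖
          ≤ ∑ _γ : T, 28 * E ^ 4 * (E * u0 ^ J) := by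
            refine Finset.sum_le_sum fun γ _ ↦ ?_
            rw [norm_mul, Complex.norm_intCast]
            have h1 := hr γ β s hsb
            have h2 : E * ‖u‖ ^ J ≤ E * u0 ^ J := by gcongr
            have h3 := hP γ
            gcongr
            exact h1.trans h2
        _ = T.card * (28 * E ^ 4 * (E * u0 ^ J)) := by simp
        _ ≤ E * (28 * E ^ 4 * (E * u0 ^ J)) := by gcongr
        _ = 28 * (u0 ^ J * E ^ 9) / (E * E ^ 2) := by field_simp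
        _ ≤ 28 * 1 / (64 * E ^ 2) := by gcongr
        _ = _ := by ring
  have hmain : ‖((∑ γ : T, p γ * ∏ i, y s i ^ (γ : Fin 8 →₀ ℕ) i : ℤ) : ℂ)‖ < 1 := by
    have e : ((∑ γ : T, p γ * ∏ i, y s i ^ (γ : Fin 8 →₀ ℕ) i : ℤ) : ℂ) =
        ∑ β : Bs, (∑ γ : T, (p γ : ℂ) * a γ β s) * ∏ i, (y s i : ℂ) ^ (β : Fin 8 →₀ ℕ) i +
        ∑ γ : T, (p γ : ℂ) * (∏ i, (y s i : ℂ) ^ (γ : Fin 8 →₀ ℕ) i -
          ∑ β ∈ Bs, a γ β s * ∏ i, (y s i : ℂ) ^ β i) := by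
      push_cast
      simp only [Finset.sum_mul]
      rw [Finset.sum_comm, ← Finset.sum_add_distrib]
      refine Finset.sum_congr rfl fun γ _ ↦ ?_
      rw [← Finset.sum_coe_sort Bs, mul_sub, Finset.mul_sum]
      simp only [mul_assoc]
      ring
    rw [e]
    have b1 : ‖∑ β : Bs, (∑ γ : T, (p γ : ℂ) * a γ β s) *
        ∏ i, (y s i : ℂ) ^ (β : Fin 8 →₀ ℕ) i‖ ≤ 60 / 64 := by
      refine (norm_sum_le _ _).trans ?_
      calc ∑ β : Bs, ‖(∑ γ : T, (p γ : ℂ) * a γ β s) * ∏ i, (y s i : ℂ) ^ (β : Fin 8 →₀ ℕ) i‖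
          ≤ ∑ _β : Bs, (1 / (2 * E ^ 2) + 28 / (64 * E ^ 2)) * E := by
            refine Finset.sum_le_sum fun β _ ↦ ?_
            rw [norm_mul]
            have h1 := hβ β
            have h2 := hy s hs β β.2
            gcongr
        _ = Bs.card * ((1 / (2 * E ^ 2) + 28 / (64 * E ^ 2)) * E) := by simp
        _ ≤ E * ((1 / (2 * E ^ 2) + 28 / (64 * E ^ 2)) * E) := by gcongr
        _ = 60 / 64 := by field_simp; ring
    obtain ⟨γ₀, hγ₀⟩ := hT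
    have hθ0 : 0 ≤ θ := (norm_nonneg _).trans (hid γ₀ hγ₀ s hs)
    have b2 : ‖∑ γ : T, (p γ : ℂ) * (∏ i, (y s i : ℂ) ^ (γ : Fin 8 →₀ ℕ) i -
          ∑ β ∈ Bs, a γ β s * ∏ i, (y s i : ℂ) ^ β i)‖ ≤ 28 / 64 ^ 2 := by
      refine (norm_sum_le _ _).trans ?_
      calc _ ≤ ∑ _γ : T, 28 * E ^ 4 * θ := by
            refine Finset.sum_le_sum fun γ _ ↦ ?_
            rw [norm_mul, Complex.norm_intCast]
            have h1 := hid γ γ.2 s hs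
            have h3 := hP γ
            gcongr
        _ = T.card * (28 * E ^ 4 * θ) := by simp
        _ ≤ E * (28 * E ^ 4 * θ) := by gcongr
        _ = 28 * (θ * E ^ 7) / E ^ 2 := by field_simp
        _ ≤ 28 * 1 / 64 ^ 2 := by gcongr
        _ = _ := by ring
    refine (norm_add_le _ _).trans_lt ?_
    linarith
  rw [Complex.norm_intCast] at hmain
  have : |∑ γ : T, p γ * ∏ i, y s i ^ (γ : Fin 8 →₀ ℕ) i| < 1 := by exact_mod_cast hmain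
  exact Int.abs_lt_one_iff.1 this

/-- one small piece: standard monomials give a new integral relation -/
theorem piece2 (m c κ : ℕ) (hc : 0 < c) {η : ℝ} (hη : 0 < η) : ∃ d w : ℕ, ∀ (M δ θ : ℝ) (s0 : ℂ)
    (S : Finset ℂ) (y : ℂ → Fin 8 → ℤ), 2 ≤ M → 0 < δ → 0 ≤ θ → θ * M ^ w ≤ 1 →
    (∀ s ∈ S, ∀ i, |(y s i : ℝ)| ≤ M ^ 15) →
    (∀ s ∈ S, ‖s - s0‖ ≤ δ * M ^ (-η) / 4) →
    (∀ n : ℕ, ∃ (Bs : Finset (Fin 8 →₀ ℕ)), Bs.card ≤ c * (n + 1) ^ m ∧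
      (∀ β ∈ Bs, ∑ i, β i ≤ c * n) ∧ ∀ γ : Fin 8 →₀ ℕ, ∑ i, γ i ≤ n →
        ∃ a : (Fin 8 →₀ ℕ) → ℂ → ℂ, (∀ β, DifferentiableOn ℂ (a β) (ball s0 δ)) ∧
          (∀ s ∈ ball s0 δ, ∑ β ∈ Bs, ‖a β s‖ ≤ (M ^ κ) ^ (c * n)) ∧
          ∀ s ∈ S, ‖∏ i, (y s i : ℂ) ^ γ i - ∑ β ∈ Bs, a β s * ∏ i, (y s i : ℂ) ^ β i‖ ≤
            θ * (2 * M ^ κ * M ^ 15) ^ (c * n)) →
    Hyp y S (m + 1) d := by
  classical
  obtain ⟨a, ha⟩ : ∃ a : ℕ, a = 8 + 120 * c + 8 * κ * c := ⟨_, rfl⟩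
  obtain ⟨q, hq1, hq⟩ : ∃ q : ℕ, 0 < q ∧ (9 * a : ℝ) ≤ η * q := by
    refine ⟨⌈9 * a / η⌉₊ + 1, by omega, ?_⟩
    have := Nat.le_ceil (9 * a / η)
    rw [div_le_iff₀ hη] at this
    push_cast
    nlinarith
  obtain ⟨D, hD⟩ : ∃ D : ℕ, D = 4 * c * 9 ^ m * q := ⟨_, rfl⟩
  have hD1 : 0 < D := by rw [hD]; positivity
  refine ⟨8 * D, (κ + 16) * (c * (8 * D)) + a * D * 7,
    fun M δ θ s0 S y hM hδ hθ0 hθ hy hS hred I hI ↦ ?_⟩
  have hM1 : 1 ≤ M := by linarith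
  have hM0 : 0 < M := by linarith
  obtain ⟨Bs, hB1, hB2, hB3⟩ := hred (8 * D)
  set T : Finset (Fin 8 →₀ ℕ) := I.finsupp fun _ ↦ Finset.range D with hT
  have hTc : T.card = D ^ (m + 2) := by
    rw [hT, Finset.card_finsupp]
    simp [hI]
  have hTsup : ∀ γ ∈ T, γ.support ⊆ I := fun γ hγ ↦ (Finset.mem_finsupp_iff.1 hγ).1
  have hTdeg : ∀ γ ∈ T, ∑ i, γ i ≤ 8 * D := by
    intro γ hγ
    have h1 : ∀ i ∈ (Finset.univ : Finset (Fin 8)), γ i ≤ D := by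
      intro i _
      by_cases hi : i ∈ I
      · exact (Finset.mem_range.1 ((Finset.mem_finsupp_iff.1 hγ).2 i hi)).le
      · have : i ∉ γ.support := fun h ↦ hi (hTsup γ hγ h)
        rw [Finsupp.notMem_support_iff.1 this]
        omega
    simpa using Finset.sum_le_card_nsmul _ _ _ h1
  have hex : ∀ γ : Fin 8 →₀ ℕ, ∃ a : (Fin 8 →₀ ℕ) → ℂ → ℂ, γ ∈ T →
      (∀ β, DifferentiableOn ℂ (a β) (ball s0 δ)) ∧
      (∀ s ∈ ball s0 δ, ∑ β ∈ Bs, ‖a β s‖ ≤ (M ^ κ) ^ (c * (8 * D))) ∧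
      ∀ s ∈ S, ‖∏ i, (y s i : ℂ) ^ γ i - ∑ β ∈ Bs, a β s * ∏ i, (y s i : ℂ) ^ β i‖ ≤
        θ * (2 * M ^ κ * M ^ 15) ^ (c * (8 * D)) := by
    intro γ
    by_cases hγ : γ ∈ T
    · obtain ⟨a, h⟩ := hB3 γ (hTdeg γ hγ)
      exact ⟨a, fun _ ↦ h⟩
    · exact ⟨0, fun h ↦ absurd h hγ⟩
  choose A hA using hex
  have hm8 : m + 2 ≤ 8 := by
    have := Finset.card_le_univ I
    rw [hI, Fintype.card_fin] at this
    omega
  have hpow : ∀ k : ℕ, k ≤ a → M ^ (k * D) ≤ M ^ (a * D) := fun k hk ↦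
    pow_le_pow_right₀ hM1 (Nat.mul_le_mul_right _ hk)
  have hlam0 : 0 < M ^ (-η) := Real.rpow_pos_of_pos hM0 _
  have hlam1 : M ^ (-η) ≤ 1 := Real.rpow_le_one_of_one_le_of_nonpos hM1 (by linarith)
  have hcore := piece_core2 T Bs (q * D) (by positivity)
    (Finset.card_pos.1 (by rw [hTc]; positivity)) (E := M ^ (a * D)) (δ := δ)
    (u0 := M ^ (-η) / 2) ?_ ?_ ?_ hδ (by positivity) (by linarith) ?_ s0 S y ?_ ?_ A ?_ ?_
    (fun γ hγ ↦ (hA γ hγ).2.2)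
  · obtain ⟨p, hp0, hp⟩ := hcore
    have hcoef : ∀ γ : T, (∑ γ' : T, MvPolynomial.monomial (γ' : Fin 8 →₀ ℕ) (p γ')).coeff γ =
        p γ := by
      intro γ
      rw [MvPolynomial.coeff_sum, Finset.sum_eq_single γ]
      · simp
      · intro γ' _ hne
        rw [MvPolynomial.coeff_monomial, if_neg fun h ↦ hne (Subtype.ext h)]
      · simp
    have hsupp : ∀ d ∈ (∑ γ' : T, MvPolynomial.monomial (γ' : Fin 8 →₀ ℕ) (p γ')).support,
        d ∈ T := by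
      intro d hd
      by_contra hn
      refine MvPolynomial.mem_support_iff.1 hd ?_
      rw [MvPolynomial.coeff_sum]
      refine Finset.sum_eq_zero fun γ' _ ↦ ?_
      rw [MvPolynomial.coeff_monomial, if_neg]
      intro h
      exact hn (h ▸ γ'.2)
    refine ⟨∑ γ' : T, MvPolynomial.monomial (γ' : Fin 8 →₀ ℕ) (p γ'), ?_, ?_, ?_, ?_⟩
    · intro h0
      refine hp0 (funext fun γ ↦ ?_)
      rw [← hcoef γ, h0]
      simp
    · intro i hi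
      obtain ⟨d, hd, hi⟩ := (MvPolynomial.mem_vars_iff_mem_support i).1 hi
      exact hTsup d (hsupp d hd) hi
    · refine Finset.sup_le fun d hd ↦ ?_
      rw [Finsupp.sum_fintype _ _ (by simp)]
      exact hTdeg d (hsupp d hd)
    · intro s hs
      rw [map_sum, ← hp s hs]
      refine Finset.sum_congr rfl fun γ _ ↦ ?_
      rw [MvPolynomial.eval_monomial, Finsupp.prod_fintype _ _ (by simp)]
  · rw [hTc]
    have h1 : (8 * D + 1) ^ m ≤ (9 * D) ^ m := Nat.pow_le_pow_left (by omega) _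
    calc 4 * (Bs.card * (q * D)) ≤ 4 * (c * (9 * D) ^ m * (q * D)) := by
          gcongr
          exact hB1.trans (by gcongr)
      _ = (4 * c * 9 ^ m * q) * D ^ (m + 1) := by ring
      _ = _ := by rw [← hD]; ring
  · have h1 : 8 ≤ a * D := by nlinarith [Nat.zero_le (120 * c + 8 * κ * c)]
    calc (64 : ℝ) ≤ 2 ^ 8 := by norm_num
      _ ≤ M ^ 8 := by gcongr
      _ ≤ _ := pow_le_pow_right₀ hM1 h1
  · rw [hTc]
    push_cast
    have h1 : (D : ℝ) ≤ M ^ D := by linarith [succ_le_pow hM D]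
    calc (D : ℝ) ^ (m + 2) ≤ (M ^ D) ^ (m + 2) := by gcongr
      _ ≤ (M ^ D) ^ 8 := pow_le_pow_right₀ (one_le_pow₀ hM1) hm8
      _ = M ^ (8 * D) := by ring
      _ ≤ _ := hpow 8 (by omega)
  · have h1 : (M ^ (-η)) ^ q * M ^ (9 * a) ≤ 1 := by
      rw [← Real.rpow_natCast, ← Real.rpow_natCast, ← Real.rpow_mul hM0.le,
        ← Real.rpow_add hM0]
      refine Real.rpow_le_one_of_one_le_of_nonpos hM1 ?_
      push_cast
      linarith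
    calc (M ^ (-η) / 2) ^ (q * D) * (M ^ (a * D)) ^ 9
        ≤ (M ^ (-η)) ^ (q * D) * (M ^ (a * D)) ^ 9 := by gcongr; linarith
      _ = ((M ^ (-η)) ^ q * M ^ (9 * a)) ^ D := by ring
      _ ≤ 1 := pow_le_one₀ (by positivity) h1
  · intro s hs
    calc ‖s - s0‖ * (2 / δ) ≤ δ * M ^ (-η) / 4 * (2 / δ) := by gcongr; exact hS s hs
      _ = _ := by field_simp; ring
  · intro s hs β hβ
    have h1 := norm_prod_le (x := fun i ↦ (y s i : ℂ)) (M := M ^ 15) (one_le_pow₀ hM1)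
      (fun i ↦ by simpa [Complex.norm_intCast] using hy s hs i) β (hB2 β hβ)
    calc _ ≤ _ := h1
      _ = M ^ (120 * c * D) := by ring
      _ ≤ _ := hpow _ (by omega)
  · intro γ hγ β hβ
    refine ⟨(hA γ hγ).1 β, fun s hs ↦ ?_⟩
    calc ‖A γ β s‖ ≤ ∑ β ∈ Bs, ‖A γ β s‖ :=
          Finset.single_le_sum (f := fun β ↦ ‖A γ β s‖) (fun _ _ ↦ norm_nonneg _) hβ
      _ ≤ _ := (hA γ hγ).2.1 s hs
      _ = M ^ (8 * κ * c * D) := by ring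
      _ ≤ _ := hpow _ (by omega)
  · calc θ * (2 * M ^ κ * M ^ 15) ^ (c * (8 * D)) * (M ^ (a * D)) ^ 7
        ≤ θ * (M * M ^ κ * M ^ 15) ^ (c * (8 * D)) * (M ^ (a * D)) ^ 7 := by gcongr
      _ = θ * M ^ ((κ + 16) * (c * (8 * D)) + a * D * 7) := by
          rw [show M * M ^ κ * M ^ 15 = M ^ (κ + 16) by ring, ← pow_mul, ← pow_mul, mul_assoc,
            ← pow_add]
      _ ≤ 1 := hθ

/-- among many disjoint intervals one contains no value -/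
theorem gap {ι : Type} [Nonempty ι] (R : Finset ι) (r : ι → ℝ) {b : ℕ → ℝ} (hb : Antitone b) :
    ∃ g ≤ R.card, ∀ x ∈ R, r x < b g → r x < b (g + 1) := by
  by_contra h
  push Not at h
  choose! x hx h1 h2 using h
  obtain ⟨g, hg, g', hg', hne, he⟩ := Finset.exists_ne_map_eq_of_card_lt_of_maps_to
    (s := Finset.range (R.card + 1)) (t := R) (by simp) (f := x)
    fun g hg ↦ hx g (Nat.lt_succ_iff.1 (Finset.mem_range.1 hg))
  rw [Finset.mem_range, Nat.lt_succ_iff] at hg hg'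
  rcases lt_or_gt_of_ne hne with hlt | hlt
  · have := hb (show g + 1 ≤ g' by omega)
    linarith [h1 g' hg', h2 g hg, congrArg r he]
  · have := hb (show g' + 1 ≤ g by omega)
    linarith [h1 g hg, h2 g' hg', congrArg r he]

theorem ev_analytic {κ : Type} {f : κ → ℂ → ℂ}
    (hf : ∀ i, AnalyticOnNhd ℂ (f i) (closedBall 0 10)) (c : MvPolynomial κ ℂ) :
    AnalyticOnNhd ℂ (fun s ↦ MvPolynomial.eval (fun i ↦ f i s) c) (closedBall 0 10) :=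
  AnalyticOnNhd.aeval_mvPolynomial (f := fun s i ↦ f i s) hf c

theorem card_le_pow {A : Type} [CommSemiring A] {M : ℝ} (hM : 2 ≤ M) {e : ℕ}
    (F : MvPolynomial (Fin 8) A) (hF : F.totalDegree ≤ e) {T : Finset (Fin 8 →₀ ℕ)}
    (hT : T ⊆ F.support) : (T.card : ℝ) ≤ M ^ (8 * e) := by
  have h5 : T.card ≤ (e + 1) ^ 8 :=
    (Finset.card_le_card hT).trans (by simpa using card_support_le F hF)
  have h6 : (T.card : ℝ) ≤ ((e : ℝ) + 1) ^ 8 := by exact_mod_cast h5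
  rw [mul_comm, pow_mul]
  exact h6.trans (by gcongr; exact succ_le_pow hM e)

/-- solving a relation for a leading monomial, up to small terms -/
theorem solve_lead2 {κ : Type} {M N ω : ℝ} {f : κ → ℂ → ℂ} (hM : 2 ≤ M) (hN : 0 < N) (hω : 0 ≤ ω)
    (hf : ∀ i, AnalyticOnNhd ℂ (f i) (closedBall 0 10)) {e C k : ℕ}
    (F : MvPolynomial (Fin 8) (MvPolynomial κ ℂ)) (hF : F.totalDegree ≤ e)
    {T : Finset (Fin 8 →₀ ℕ)} (hT : T ⊆ F.support) {l : Fin 8 →₀ ℕ} (hl : l ∈ T) (D : Set ℂ)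
    (hD : ∀ s ∈ D, ‖s‖ ≤ 10 ∧ N ≤ M ^ k * ‖MvPolynomial.eval (fun i ↦ f i s) (F.coeff l)‖)
    (h1 : ∀ α ∈ T, ∀ s ∈ D, ‖MvPolynomial.eval (fun i ↦ f i s) (F.coeff α)‖ ≤ M ^ C * N)
    (h2 : ∀ α ∈ F.support, α ∉ T → ∀ s ∈ D,
      ‖MvPolynomial.eval (fun i ↦ f i s) (F.coeff α)‖ ≤ M ^ C * N * ω) :
    ∃ ρ : (Fin 8 →₀ ℕ) → ℂ → ℂ, (∀ α, ρ α ∈ holo D) ∧
      (∀ s ∈ D, ∑ α ∈ T.erase l, ‖ρ α s‖ ≤ M ^ (8 * e + C + k)) ∧
      ∀ s ∈ D, ∀ y : Fin 8 → ℂ, (∀ i, ‖y i‖ ≤ M ^ 15) →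
        MvPolynomial.eval₂ (MvPolynomial.eval fun i ↦ f i s) y F = 0 →
        ‖∏ i, y i ^ l i - ∑ α ∈ T.erase l, ρ α s * ∏ i, y i ^ α i‖ ≤
          ω * M ^ (8 * e + C + k + 15 * e) := by
  classical
  have hM0 : 0 < M := by linarith
  obtain ⟨φ, hφ⟩ : ∃ φ : (Fin 8 →₀ ℕ) → ℂ → ℂ,
      φ = fun α s ↦ MvPolynomial.eval (fun i ↦ f i s) (F.coeff α) := ⟨_, rfl⟩
  have hφ' : ∀ α s, MvPolynomial.eval (fun i ↦ f i s) (F.coeff α) = φ α s := fun _ _ ↦ by rw [hφ]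
  simp only [hφ'] at hD h1 h2
  have hne : ∀ s ∈ D, φ l s ≠ 0 := by
    intro s hs h0
    have := (hD s hs).2
    rw [h0, norm_zero, mul_zero] at this
    linarith
  have hdiff : ∀ α, DifferentiableOn ℂ (φ α) D := fun α s hs ↦ by
    rw [hφ]
    exact (ev_analytic hf _ s (by simpa using (hD s hs).1)).differentiableAt.differentiableWithinAt
  have hq : ∀ α, ∀ s ∈ D, ∀ x, 0 ≤ x → ‖φ α s‖ ≤ M ^ C * N * x →
      ‖-φ α s / φ l s‖ ≤ M ^ C * M ^ k * x := by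
    intro α s hs x hx h
    rw [norm_div, norm_neg, div_le_iff₀ (norm_pos_iff.2 (hne s hs))]
    calc _ ≤ _ := h
      _ ≤ M ^ C * (M ^ k * ‖φ l s‖) * x := by gcongr; exact (hD s hs).2
      _ = _ := by ring
  refine ⟨fun α s ↦ -φ α s / φ l s, fun α ↦ (hdiff _).neg.div (hdiff _) hne, fun s hs ↦ ?_,
    fun s hs y hyb hy ↦ ?_⟩
  · have h3 := Finset.sum_le_card_nsmul (T.erase l) (fun α ↦ ‖-φ α s / φ l s‖) _ fun α hα ↦
      hq α s hs 1 zero_le_one (by rw [mul_one]; exact h1 α (Finset.mem_of_mem_erase hα) s hs)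
    rw [nsmul_eq_mul] at h3
    have h4 := card_le_pow hM F hF ((Finset.erase_subset l T).trans hT)
    calc _ ≤ _ := h3
      _ ≤ M ^ (8 * e) * (M ^ C * M ^ k * 1) := by gcongr
      _ = _ := by ring
  · rw [MvPolynomial.eval₂_eq', ← Finset.sum_sdiff hT, ← Finset.add_sum_erase _ _ hl] at hy
    simp only [hφ'] at hy
    have h0 := hne s hs
    have h7 : ∏ i, y i ^ l i - ∑ α ∈ T.erase l, -φ α s / φ l s * ∏ i, y i ^ α i =
        ∑ α ∈ F.support \ T, -φ α s / φ l s * ∏ i, y i ^ α i := by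
      have h8 : ∀ U : Finset (Fin 8 →₀ ℕ), ∑ α ∈ U, -φ α s / φ l s * ∏ i, y i ^ α i =
          -(∑ α ∈ U, φ α s * ∏ i, y i ^ α i) / φ l s := by
        intro U
        rw [← Finset.sum_neg_distrib, Finset.sum_div]
        refine Finset.sum_congr rfl fun α _ ↦ by ring
      rw [h8, h8]
      field_simp
      linear_combination hy
    rw [h7]
    refine (norm_sum_le _ _).trans ?_
    have h3 := Finset.sum_le_card_nsmul (F.support \ T)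
      (fun α ↦ ‖-φ α s / φ l s * ∏ i, y i ^ α i‖) (M ^ C * M ^ k * ω * (M ^ 15) ^ e)
      fun α hα ↦ by
        obtain ⟨ha1, ha2⟩ := Finset.mem_sdiff.1 hα
        have h9 : ∑ i, α i ≤ e := by
          have := MvPolynomial.le_totalDegree ha1
          rw [Finsupp.sum_fintype _ _ (by simp)] at this
          omega
        have h10 := norm_prod_le (one_le_pow₀ (by linarith)) hyb α h9
        have h11 := hq α s hs ω hω (h2 α ha1 ha2 s hs)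
        rw [norm_mul]
        gcongr
    rw [nsmul_eq_mul] at h3
    have h4 := card_le_pow hM F hF (Finset.sdiff_subset (t := T))
    calc _ ≤ _ := h3
      _ ≤ M ^ (8 * e) * (M ^ C * M ^ k * ω * (M ^ 15) ^ e) := by gcongr
      _ = _ := by ring

/-- lower bound away from few points -/
theorem cover_val2 {g : ℂ → ℂ} (hg : AnalyticOnNhd ℂ g (closedBall 0 10)) {s0 : ℂ}
    (hs0 : ‖s0‖ ≤ 2) {C : ℕ} (hC : ∀ s, ‖s‖ ≤ 10 → ‖g s‖ ≤ 2 ^ C * ‖g s0‖) {M δ : ℝ} (hM : 2 ≤ M)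
    (hδ : 1 ≤ M ^ 104 * δ) (hδ1 : δ ≤ 1) : ∃ Z : Finset ℂ, Z.card ≤ C + 1 ∧
      ∀ s, ‖s‖ ≤ 2 → (∀ z ∈ Z, δ < ‖s - z‖) → ‖g s0‖ ≤ M ^ (111 * (C + 2)) * ‖g s‖ := by
  have hM0 : 0 < M := by linarith
  have hδ0 : 0 < δ := by
    by_contra hn
    have : M ^ 104 * δ ≤ 0 := mul_nonpos_of_nonneg_of_nonpos (by positivity) (not_lt.1 hn)
    linarith
  obtain ⟨Z, hZ, hcov⟩ := cover hg hs0 hC hδ0 hδ1
  refine ⟨Z, hZ, fun s hs hfar ↦ ?_⟩
  have h3 := hcov s hs hfar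
  have h4 : 1 ≤ M ^ 111 * (δ / 100) := by
    have h5 : (2 : ℝ) ^ 7 ≤ M ^ 7 := by gcongr
    calc (1 : ℝ) ≤ 2 ^ 7 / 100 * 1 := by norm_num
      _ ≤ M ^ 7 / 100 * (M ^ 104 * δ) := by gcongr
      _ = _ := by ring
  calc ‖g s0‖ ≤ ‖g s0‖ * (M ^ 111 * (δ / 100)) ^ (C + 2) :=
        le_mul_of_one_le_right (norm_nonneg _) (one_le_pow₀ h4)
    _ = M ^ (111 * (C + 2)) * (‖g s0‖ * (δ / 100) ^ (C + 2)) := by
        rw [mul_pow, ← pow_mul]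
        ring
    _ ≤ _ := by gcongr

end Core2

end Pool.Agent.Lib.ZP3
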