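import Pool.Agent.Lib.ZP3.Arith

/-! Block CORE, first part: Taylor data, scales and the pigeonhole step. -/

open Filter Topology Metric

namespace Pool.Agent.Lib.ZP3

namespace CoreAux

/-- normalised Taylor expansion with explicit remainder -/
theorem taylor (s0 : ℂ) {δ B : ℝ} (hδ : 0 < δ) (J : ℕ) : ∀ h : ℂ → ℂ,
    DifferentiableOn ℂ h (ball s0 δ) → (∀ s ∈ ball s0 δ, ‖h s‖ ≤ B) →
    ∃ t : ℕ → ℂ, (∀ j, ‖t j‖ ≤ B) ∧ ∀ s ∈ ball s0 δ,
      ‖h s - ∑ j ∈ Finset.range J, t j * ((s - s0) * (2 / δ : ℝ)) ^ j‖ ≤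
        B * ‖(s - s0) * (2 / δ : ℝ)‖ ^ J := by
  induction J with
  | zero =>
    intro h _ hB
    have hB0 : 0 ≤ B := (norm_nonneg _).trans (hB s0 (mem_ball_self hδ))
    exact ⟨fun _ ↦ 0, fun _ ↦ by simpa using hB0, fun s hs ↦ by simpa using hB s hs⟩
  | succ J ih =>
    intro h hd hB
    have hB0 : 0 ≤ B := (norm_nonneg _).trans (hB s0 (mem_ball_self hδ))
    have hmaps : Set.MapsTo h (ball s0 δ) (closedBall (h s0) (2 * B)) := by
      intro s hs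
      rw [mem_closedBall, dist_eq_norm]
      have := norm_sub_le (h s) (h s0)
      linarith [hB s hs, hB s0 (mem_ball_self hδ)]
    have hd' : DifferentiableOn ℂ (fun s ↦ ((δ / 2 : ℝ) : ℂ) * dslope h s0 s) (ball s0 δ) :=
      ((Complex.differentiableOn_dslope (ball_mem_nhds s0 hδ)).2 hd).const_mul _
    have hB' : ∀ s ∈ ball s0 δ, ‖((δ / 2 : ℝ) : ℂ) * dslope h s0 s‖ ≤ B := by
      intro s hs
      have := Complex.norm_dslope_le_div_of_mapsTo_ball hd hmaps hs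
      rw [norm_mul, Complex.norm_real, Real.norm_of_nonneg (by positivity)]
      calc δ / 2 * ‖dslope h s0 s‖ ≤ δ / 2 * (2 * B / δ) := by gcongr
        _ = B := by field_simp
    obtain ⟨t, ht, hr⟩ := ih _ hd' hB'
    refine ⟨fun j ↦ Nat.casesOn j (h s0) t, fun j ↦ ?_, fun s hs ↦ ?_⟩
    · cases j with
      | zero => exact hB s0 (mem_ball_self hδ)
      | succ j => exact ht j
    · have key : h s - h s0 = ((s - s0) * (2 / δ : ℝ)) * (((δ / 2 : ℝ) : ℂ) * dslope h s0 s) := by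
        have := sub_smul_dslope h s0 s
        rw [smul_eq_mul] at this
        rw [← this]
        have hδ' : (δ : ℂ) ≠ 0 := by exact_mod_cast hδ.ne'
        push_cast
        field_simp
      rw [Finset.sum_range_succ']
      have e : h s - (∑ j ∈ Finset.range J, t j * ((s - s0) * (2 / δ : ℝ)) ^ (j + 1) +
          h s0 * ((s - s0) * (2 / δ : ℝ)) ^ 0) = ((s - s0) * (2 / δ : ℝ)) *
          (((δ / 2 : ℝ) : ℂ) * dslope h s0 s -
            ∑ j ∈ Finset.range J, t j * ((s - s0) * (2 / δ : ℝ)) ^ j) := by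
        rw [mul_sub, ← key, Finset.mul_sum]
        simp only [pow_zero, mul_one]
        have : ∀ j ∈ Finset.range J, t j * ((s - s0) * (2 / δ : ℝ)) ^ (j + 1) =
            ((s - s0) * (2 / δ : ℝ)) * (t j * ((s - s0) * (2 / δ : ℝ)) ^ j) := by
          intro j _; ring
        rw [Finset.sum_congr rfl this]
        ring
      show ‖h s - (∑ j ∈ Finset.range J, t j * ((s - s0) * (2 / δ : ℝ)) ^ (j + 1) +
          h s0 * ((s - s0) * (2 / δ : ℝ)) ^ 0)‖ ≤ _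
      rw [e, norm_mul, pow_succ]
      have := hr s hs
      calc _ ≤ ‖(s - s0) * (2 / δ : ℝ)‖ * (B * ‖(s - s0) * (2 / δ : ℝ)‖ ^ J) := by gcongr
        _ = _ := by ring

/-- a set covered by few discs -/
theorem card_le_of_cover (S Z : Finset ℂ) {R Q : ℝ} {W : ℕ} (hW : Z.card ≤ W)
    (hS : ∀ s ∈ S, ∃ z ∈ Z, ‖s - z‖ ≤ R)
    (hQ : ∀ z, ∀ S' ⊆ S, (∀ s ∈ S', ‖s - z‖ ≤ R) → (S'.card : ℝ) ≤ Q) :
    (S.card : ℝ) ≤ W * Q := by
  classical
  have hQ0 : 0 ≤ Q := by simpa using hQ 0 ∅ (Finset.empty_subset _) (by simp)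
  have hsub : S ⊆ Z.biUnion fun z ↦ S.filter fun s ↦ ‖s - z‖ ≤ R := by
    intro s hs
    obtain ⟨z, hz, h⟩ := hS s hs
    exact Finset.mem_biUnion.2 ⟨z, hz, Finset.mem_filter.2 ⟨hs, h⟩⟩
  have h1 : (S.card : ℝ) ≤ ∑ z ∈ Z, ((S.filter fun s ↦ ‖s - z‖ ≤ R).card : ℝ) := by
    exact_mod_cast (Finset.card_le_card hsub).trans Finset.card_biUnion_le
  have h2 : ∑ z ∈ Z, ((S.filter fun s ↦ ‖s - z‖ ≤ R).card : ℝ) ≤ Z.card • Q :=
    Finset.sum_le_card_nsmul _ _ _ fun z _ ↦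
      hQ z _ (Finset.filter_subset _ _) fun s hs ↦ (Finset.mem_filter.1 hs).2
  rw [nsmul_eq_mul] at h2
  have h3 : (Z.card : ℝ) * Q ≤ W * Q := by gcongr
  linarith

theorem split_pred (S : Finset ℂ) (P : ℂ → Prop) : ∃ A B : Finset ℂ, A ⊆ S ∧ B ⊆ S ∧
    (∀ s ∈ A, P s) ∧ (∀ s ∈ B, ¬ P s) ∧ S.card = A.card + B.card := by
  classical
  exact ⟨S.filter P, S.filter fun s ↦ ¬ P s, Finset.filter_subset _ _, Finset.filter_subset _ _,
    fun s hs ↦ (Finset.mem_filter.1 hs).2, fun s hs ↦ (Finset.mem_filter.1 hs).2,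
    (Finset.card_filter_add_card_filter_not (s := S) P).symm⟩

/-- descent through the scales `lam ^ k` -/
theorem scales (S : Finset ℂ) (Z : ℕ → Finset ℂ) {lam Q1 Q2 : ℝ} {W Ks : ℕ} (hl : 0 < lam)
    (hW1 : 1 ≤ W) (hW : ∀ k, (Z k).card ≤ W) (hS : ∀ s ∈ S, ‖s‖ ≤ 1)
    (h1 : ∀ k, k ≤ Ks → ∀ S' ⊆ S, (∀ s ∈ S', ∀ z ∈ Z k, 2 * lam ^ k < ‖s - z‖) →
      (∀ s ∈ S', ∀ s' ∈ S', ‖s - s'‖ < lam ^ (k + 1) / 4) → (S'.card : ℝ) ≤ Q1)
    (h2 : ∀ z, ∀ S' ⊆ S, (∀ s ∈ S', ‖s - z‖ ≤ 2 * lam ^ Ks) → (S'.card : ℝ) ≤ Q2) :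
    (S.card : ℝ) ≤ W * (Ks * ((32 / lam ^ 2 + 2) ^ 2 * Q1) + Q2) := by
  classical
  have key : ∀ j k, k + j = Ks → ∀ Z' : Finset ℂ, Z'.card ≤ W → ∀ S' ⊆ S,
      (∀ s ∈ S', ∃ z ∈ Z', ‖s - z‖ ≤ 2 * lam ^ k) →
      (S'.card : ℝ) ≤ W * (j * ((32 / lam ^ 2 + 2) ^ 2 * Q1) + Q2) := by
    intro j
    induction j with
    | zero =>
      intro k hk Z' hZ' S' hS' hc
      obtain rfl : k = Ks := by omega
      have := card_le_of_cover S' Z' hZ' hc fun z S'' h h' ↦ h2 z S'' (h.trans hS') h'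
      simpa using this
    | succ j ih =>
      intro k hk Z' hZ' S' hS' hc
      obtain ⟨Sn, Sf, hn1, hf1, hn2, hf2, hsum⟩ := split_pred S'
        fun s ↦ ∃ z ∈ Z (k + 1), ‖s - z‖ ≤ 2 * lam ^ (k + 1)
      have hnear := ih (k + 1) (by omega) (Z (k + 1)) (hW _) Sn (hn1.trans hS') hn2
      have hfar : (Sf.card : ℝ) ≤ W * ((32 / lam ^ 2 + 2) ^ 2 * Q1) := by
        refine card_le_of_cover _ Z' hZ' (fun s hs ↦ hc s (hf1 hs)) ?_
        intro z S'' h h'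
        have := grid S'' z (R := 2 * lam ^ k) (r := lam ^ (k + 1 + 1) / 4) (Q := Q1)
          (by positivity) (by positivity) h' ?_
        · convert this using 4
          field_simp
          ring
        · intro S3 h3 hd
          refine h1 (k + 1) (by omega) S3 (h3.trans (h.trans (hf1.trans hS'))) ?_ hd
          intro s hs z hz
          have := hf2 s (h (h3 hs))
          push Not at this
          exact this z hz
      have hsum' : (S'.card : ℝ) = Sn.card + Sf.card := by exact_mod_cast hsum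
      rw [hsum']
      push_cast
      linarith
  exact key Ks 0 (by simp) {0} (by simpa using hW1) S subset_rfl fun s hs ↦
    ⟨0, by simp, by have := hS s hs; simp; linarith⟩

/-- the pigeonhole step -/
theorem piece_core (T Bs : Finset (Fin 8 →₀ ℕ)) (J : ℕ) (hJ : 0 < J) (hT : T.Nonempty)
    (hcard : 4 * (Bs.card * J) ≤ T.card) {E δ u0 : ℝ} (hE : 64 ≤ E) (hTE : (T.card : ℝ) ≤ E)
    (hδ : 0 < δ) (hu0 : 0 ≤ u0) (hu1 : u0 ≤ 1 / 2) (hu : u0 ^ J * E ^ 9 ≤ 1) (s0 : ℂ)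
    (S : Finset ℂ) (y : ℂ → Fin 8 → ℤ) (hS : ∀ s ∈ S, ‖s - s0‖ * (2 / δ) ≤ u0)
    (hy : ∀ s ∈ S, ∀ β ∈ Bs, ‖∏ i, (y s i : ℂ) ^ β i‖ ≤ E)
    (a : (Fin 8 →₀ ℕ) → (Fin 8 →₀ ℕ) → ℂ → ℂ)
    (ha : ∀ γ ∈ T, ∀ β ∈ Bs, DifferentiableOn ℂ (a γ β) (ball s0 δ) ∧
      ∀ s ∈ ball s0 δ, ‖a γ β s‖ ≤ E)
    (hid : ∀ γ ∈ T, ∀ s ∈ S,
      ∏ i, (y s i : ℂ) ^ γ i = ∑ β ∈ Bs, a γ β s * ∏ i, (y s i : ℂ) ^ β i) :
    ∃ p : T → ℤ, p ≠ 0 ∧ ∀ s ∈ S, ∑ γ : T, p γ * ∏ i, y s i ^ (γ : Fin 8 →₀ ℕ) i = 0 := by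
  classical
  have hE0 : 0 < E := by linarith
  have hex : ∀ (γ : T) (β : Bs), ∃ t : ℕ → ℂ, (∀ j, ‖t j‖ ≤ E) ∧ ∀ s ∈ ball s0 δ,
      ‖a γ β s - ∑ j ∈ Finset.range J, t j * ((s - s0) * (2 / δ : ℝ)) ^ j‖ ≤
        E * ‖(s - s0) * (2 / δ : ℝ)‖ ^ J := fun γ β ↦
    taylor s0 hδ J _ (ha γ γ.2 β β.2).1 (ha γ γ.2 β β.2).2
  choose t ht hr using hex
  have hε : (0 : ℝ) < 1 / (4 * E ^ 2) := by positivity
  have hε1 : 1 / (4 * E ^ 2) ≤ (1 : ℝ) := by
    rw [div_le_one (by positivity)]; nlinarith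
  obtain ⟨p, hp0, hp, hsmall⟩ := pigeon (n := T) (r := Bs × Fin J)
    (fun i γ ↦ t γ i.1 i.2) (K := E) (by linarith) hε hε1 (fun i γ ↦ ht _ _ _)
    (by simpa using hT.card_pos) (by simpa using hcard)
  refine ⟨p, hp0, fun s hs ↦ ?_⟩
  have hBE : (Bs.card : ℝ) ≤ E := by
    have : Bs.card ≤ T.card := by nlinarith
    exact (Nat.cast_le.2 this).trans hTE
  have hP : ∀ γ, |(p γ : ℝ)| ≤ 28 * E ^ 4 := by
    intro γ
    refine (hp γ).trans ?_
    rw [Fintype.card_coe]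
    calc 7 * (T.card : ℝ) * E / (1 / (4 * E ^ 2)) = 28 * T.card * E ^ 3 := by field_simp; ring
      _ ≤ 28 * E * E ^ 3 := by gcongr
      _ = _ := by ring
  set u : ℂ := (s - s0) * (2 / δ : ℝ) with hudef
  have hun : ‖u‖ ≤ u0 := by
    rw [hudef, norm_mul, Complex.norm_real, Real.norm_of_nonneg (by positivity)]
    exact hS s hs
  have hsb : s ∈ ball s0 δ := by
    rw [mem_ball, dist_eq_norm]
    have := (hS s hs).trans hu1
    rw [mul_div_assoc', div_le_iff₀ hδ] at this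
    linarith
  have hβ : ∀ β : Bs, ‖∑ γ : T, (p γ : ℂ) * a γ β s‖ ≤ 1 / (2 * E ^ 2) + 28 / (64 * E ^ 2) := by
    intro β
    have e : ∑ γ : T, (p γ : ℂ) * a γ β s =
        ∑ j : Fin J, (∑ γ : T, (p γ : ℂ) * t γ β j) * u ^ (j : ℕ) +
        ∑ γ : T, (p γ : ℂ) * (a γ β s - ∑ j ∈ Finset.range J, t γ β j * u ^ j) := by
      simp only [Finset.sum_mul, mul_sub, Finset.sum_sub_distrib, Finset.sum_range,
        Finset.mul_sum, mul_assoc]
      rw [Finset.sum_comm]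
      ring
    rw [e]
    refine (norm_add_le _ _).trans (add_le_add ?_ ?_)
    · refine (norm_sum_le _ _).trans ?_
      calc ∑ j : Fin J, ‖(∑ γ : T, (p γ : ℂ) * t γ β j) * u ^ (j : ℕ)‖
          ≤ ∑ j : Fin J, 1 / (4 * E ^ 2) * (1 / 2) ^ (j : ℕ) := by
            refine Finset.sum_le_sum fun j _ ↦ ?_
            rw [norm_mul, norm_pow]
            have := (hsmall (β, j)).le
            gcongr
            exact hun.trans hu1
        _ = 1 / (4 * E ^ 2) * ∑ j ∈ Finset.range J, (1 / 2 : ℝ) ^ j := by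
            rw [Finset.sum_range, Finset.mul_sum]
        _ ≤ 1 / (4 * E ^ 2) * 2 := by
            gcongr
            exact sum_geometric_two_le J
        _ = _ := by field_simp; ring
    · refine (norm_sum_le _ _).trans ?_
      calc ∑ γ : T, ‖(p γ : ℂ) * (a γ β s - ∑ j ∈ Finset.range J, t γ β j * u ^ j)‖
          ≤ ∑ _γ : T, 28 * E ^ 4 * (E * u0 ^ J) := by
            refine Finset.sum_le_sum fun γ _ ↦ ?_
            rw [norm_mul, Complex.norm_intCast]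
            have h1 := hr γ β s hsb
            have h2 : E * ‖u‖ ^ J ≤ E * u0 ^ J := by gcongr
            have h3 := hP γ
            gcongr
            exact h1.trans h2
        _ = T.card * (28 * E ^ 4 * (E * u0 ^ J)) := by simp
        _ ≤ E * (28 * E ^ 4 * (E * u0 ^ J)) := by gcongr
        _ = 28 * (u0 ^ J * E ^ 9) / (E * E ^ 2) := by field_simp
        _ ≤ 28 * 1 / (64 * E ^ 2) := by gcongr
        _ = _ := by ring
  have hmain : ‖((∑ γ : T, p γ * ∏ i, y s i ^ (γ : Fin 8 →₀ ℕ) i : ℤ) : ℂ)‖ < 1 := by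
    have e : ((∑ γ : T, p γ * ∏ i, y s i ^ (γ : Fin 8 →₀ ℕ) i : ℤ) : ℂ) =
        ∑ β : Bs, (∑ γ : T, (p γ : ℂ) * a γ β s) * ∏ i, (y s i : ℂ) ^ (β : Fin 8 →₀ ℕ) i := by
      push_cast
      simp only [Finset.sum_mul]
      rw [Finset.sum_comm]
      refine Finset.sum_congr rfl fun γ _ ↦ ?_
      rw [hid γ γ.2 s hs, ← Finset.sum_coe_sort Bs, Finset.mul_sum]
      simp only [mul_assoc]
    rw [e]
    refine (norm_sum_le _ _).trans_lt ?_
    calc ∑ β : Bs, ‖(∑ γ : T, (p γ : ℂ) * a γ β s) * ∏ i, (y s i : ℂ) ^ (β : Fin 8 →₀ ℕ) i‖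
        ≤ ∑ _β : Bs, (1 / (2 * E ^ 2) + 28 / (64 * E ^ 2)) * E := by
          refine Finset.sum_le_sum fun β _ ↦ ?_
          rw [norm_mul]
          have h1 := hβ β
          have h2 := hy s hs β β.2
          gcongr
      _ = Bs.card * ((1 / (2 * E ^ 2) + 28 / (64 * E ^ 2)) * E) := by simp
      _ ≤ E * ((1 / (2 * E ^ 2) + 28 / (64 * E ^ 2)) * E) := by gcongr
      _ = 60 / 64 := by field_simp; ring
      _ < 1 := by norm_num
  rw [Complex.norm_intCast] at hmain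
  have : |∑ γ : T, p γ * ∏ i, y s i ^ (γ : Fin 8 →₀ ℕ) i| < 1 := by exact_mod_cast hmain
  exact Int.abs_lt_one_iff.1 this

end CoreAux

end Pool.Agent.Lib.ZP3
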