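import Pool.Agent.Lib.ZP3.Defs

open UpperHalfPlane Filter Topology Metric Polynomial
open scoped Real

namespace Pool.Agent.Lib.ZP3

namespace CURVE

/-- the field of algebraic numbers -/
noncomputable abbrev K : IntermediateField ℚ ℂ := algebraicClosure ℚ ℂ

instance : IsAlgClosed K := (algebraicClosure.isAlgClosure ℚ ℂ).isAlgClosed

lemma alg_iff (p : ℂ[X]) : (∀ n, IsAlgebraic ℚ (p.coeff n)) ↔ p ∈ lifts (algebraMap K ℂ) := by
  rw [lifts_iff_coeff_lifts]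
  refine forall_congr' fun n => ?_
  rw [← mem_algebraicClosure_iff]
  constructor
  · intro h; exact ⟨⟨_, h⟩, rfl⟩
  · rintro ⟨x, hx⟩; rw [← hx]; exact x.2

lemma alg_K (x : K) : IsAlgebraic ℚ (x : ℂ) := mem_algebraicClosure_iff.1 x.2

lemma alg_root {p : ℂ[X]} (hp : p ∈ lifts (algebraMap K ℂ)) (h0 : p ≠ 0) {t : ℂ}
    (ht : p.eval t = 0) : IsAlgebraic ℚ t := by
  obtain ⟨q, rfl⟩ := (mem_lifts _).1 hp
  have h1 : IsAlgebraic K t := ⟨q, by rintro rfl; simp at h0, by rwa [aeval_def, ← eval_map]⟩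
  have : Algebra.IsAlgebraic ℚ K :=
    ⟨fun x => (isAlgebraic_algebraMap_iff (algebraMap K ℂ).injective).1 (alg_K x)⟩
  exact h1.restrictScalars ℚ

lemma den {z : ℂ} (hz : IsAlgebraic ℚ z) : ∃ d : ℕ, 0 < d ∧ IsIntegral ℤ (d * z) := by
  obtain ⟨y, hy, h⟩ := ((IsFractionRing.isAlgebraic_iff ℤ ℚ ℂ).2 hz).exists_integral_multiple
  refine ⟨y.natAbs, Int.natAbs_pos.2 hy, ?_⟩
  rw [zsmul_eq_mul] at h
  rcases Int.natAbs_eq y with e | e
  · have : ((y.natAbs : ℕ) : ℂ) = (y : ℂ) := by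
      conv_rhs => rw [e]
      rw [Int.cast_natCast]
    rwa [this]
  · have : ((y.natAbs : ℕ) : ℂ) = -(y : ℂ) := by
      conv_rhs => rw [e]
      rw [Int.cast_neg, Int.cast_natCast, neg_neg]
    rw [this, neg_mul]
    exact h.neg

lemma conj_finite {z : ℂ} (hz : IsAlgebraic ℚ z) : (Set.range fun σ : ℂ →+* ℂ => σ z).Finite := by
  obtain ⟨p, hp, h⟩ := hz
  refine (p.rootSet_finite ℂ).subset ?_
  rintro _ ⟨σ, rfl⟩
  rw [mem_rootSet]
  refine ⟨hp, ?_⟩
  have := aeval_algHom_apply σ.toRatAlgHom z p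
  rw [h, map_zero] at this
  exact this

lemma map_finite {p : ℂ[X]} (hp : ∀ n, IsAlgebraic ℚ (p.coeff n)) :
    (Set.range fun σ : ℂ →+* ℂ => p.map σ).Finite := by
  have h1 := Set.Finite.pi' (fun n : Fin (p.natDegree + 1) => conj_finite (hp n))
  refine (h1.image fun c => ∑ n : Fin (p.natDegree + 1), monomial (n : ℕ) (c n)).subset ?_
  rintro _ ⟨σ, rfl⟩
  refine ⟨fun n => σ (p.coeff n), fun n => ⟨σ, rfl⟩, ?_⟩
  simp only
  conv_rhs => rw [p.as_sum_range, Polynomial.map_sum]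
  rw [Finset.sum_range]
  simp

lemma upper (p : ℂ[X]) {n : ℕ} (hn : p.natDegree ≤ n) :
    ∃ C : ℝ, 0 ≤ C ∧ ∀ z : ℂ, ‖p.eval z‖ ≤ C * (1 + ‖z‖) ^ n := by
  refine ⟨∑ i ∈ Finset.range (n + 1), ‖p.coeff i‖, by positivity, fun z => ?_⟩
  rw [eval_eq_sum_range' (Nat.lt_succ_of_le hn), Finset.sum_mul]
  refine (norm_sum_le _ _).trans (Finset.sum_le_sum fun i hi => ?_)
  rw [norm_mul, norm_pow]
  refine mul_le_mul_of_nonneg_left ?_ (norm_nonneg _)
  have h1 : ‖z‖ ^ i ≤ (1 + ‖z‖) ^ i := pow_le_pow_left₀ (norm_nonneg _) (by linarith) i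
  exact h1.trans (pow_le_pow_right₀ (by linarith [norm_nonneg z])
    (Nat.lt_succ_iff.1 (Finset.mem_range.1 hi)))

lemma prod_lower (s : Multiset ℂ) : ∃ R : ℝ, ∀ z : ℂ, R ≤ ‖z‖ →
    ((1 + ‖z‖) / 3) ^ s.card ≤ ‖((s.map fun a => X - C a).prod).eval z‖ := by
  induction s using Multiset.induction_on with
  | empty => exact ⟨0, fun z _ => by simp⟩
  | cons a s ih =>
    obtain ⟨R, hR⟩ := ih
    refine ⟨max R (2 * ‖a‖ + 1), fun z hz => ?_⟩
    have h1 := hR z ((le_max_left _ _).trans hz)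
    have h2 : 2 * ‖a‖ + 1 ≤ ‖z‖ := (le_max_right _ _).trans hz
    have h3 : (1 + ‖z‖) / 3 ≤ ‖z - a‖ := by
      have := norm_sub_norm_le z a
      linarith [norm_nonneg a]
    rw [Multiset.map_cons, Multiset.prod_cons, eval_mul, norm_mul, Multiset.card_cons, pow_succ']
    simp only [eval_sub, eval_X, eval_C]
    exact mul_le_mul h3 h1 (by positivity) (norm_nonneg _)

lemma lower {a b : ℂ[X]} (hb : b ≠ 0) (hc : IsCoprime a b) :
    ∃ C : ℝ, 0 ≤ C ∧ ∀ z : ℂ, (1 + ‖z‖) ^ b.natDegree ≤ C * (‖a.eval z‖ + ‖b.eval z‖) := by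
  obtain ⟨R, hR⟩ := prod_lower b.roots
  have hl : 0 < ‖b.leadingCoeff‖ := norm_pos_iff.2 (leadingCoeff_ne_zero.2 hb)
  have hpos : ∀ z : ℂ, 0 < ‖a.eval z‖ + ‖b.eval z‖ := by
    intro z
    rcases aeval_ne_zero_of_isCoprime hc z with h | h
    · rw [coe_aeval_eq_eval] at h
      linarith [norm_pos_iff.2 h, norm_nonneg (b.eval z)]
    · rw [coe_aeval_eq_eval] at h
      linarith [norm_pos_iff.2 h, norm_nonneg (a.eval z)]
  have hcont : Continuous fun z : ℂ => (1 + ‖z‖) ^ b.natDegree / (‖a.eval z‖ + ‖b.eval z‖) :=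
    Continuous.div (by fun_prop) (by fun_prop) fun z => (hpos z).ne'
  obtain ⟨C1, hC1⟩ := (isCompact_closedBall (0 : ℂ) R).bddAbove_image hcont.continuousOn
  refine ⟨max (max C1 0) (3 ^ b.natDegree / ‖b.leadingCoeff‖),
    (le_max_right _ _).trans (le_max_left _ _), fun z => ?_⟩
  rcases le_total ‖z‖ R with h | h
  · have := hC1 ⟨z, by simpa using h, rfl⟩
    rw [div_le_iff₀ (hpos z)] at this
    exact this.trans (mul_le_mul_of_nonneg_right
      ((le_max_left _ _).trans (le_max_left _ _)) (hpos z).le)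
  · have h1 := hR z h
    rw [IsAlgClosed.card_roots_eq_natDegree, div_pow, div_le_iff₀ (by positivity)] at h1
    have h2 : ‖b.eval z‖ =
        ‖b.leadingCoeff‖ * ‖((b.roots.map fun a => X - C a).prod).eval z‖ := by
      conv_lhs => rw [← C_leadingCoeff_mul_prod_multiset_X_sub_C
        (IsAlgClosed.card_roots_eq_natDegree (p := b))]
      rw [eval_mul, eval_C, norm_mul]
    have h3 : (1 + ‖z‖) ^ b.natDegree ≤ 3 ^ b.natDegree / ‖b.leadingCoeff‖ * ‖b.eval z‖ := by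
      rw [h2]
      refine h1.trans (le_of_eq ?_)
      field_simp
    refine h3.trans (mul_le_mul (le_max_right _ _) (by linarith [norm_nonneg (a.eval z)])
      (norm_nonneg _) ((le_max_right _ _).trans (le_max_left _ _)))

lemma intdiv {d0 : ℕ} (hd0 : 0 < d0) : ∀ (n : ℕ) (p q : K[X]), q ≠ 0 → q.natDegree = n →
    p.natDegree ≤ n → ∃ d : ℕ, 0 < d ∧ ∀ t : ℂ, aeval t q ≠ 0 →
      (∀ P : ℂ, aeval P q = 0 → IsIntegral ℤ ((d0 : ℂ) / (t - P))) →
      IsIntegral ℤ (d * (aeval t p / aeval t q)) := by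
  intro n
  induction n with
  | zero =>
    intro p q _ hq hp
    rw [eq_C_of_natDegree_eq_zero hq, eq_C_of_natDegree_le_zero hp]
    obtain ⟨d, hd, h⟩ := den (alg_K (p.coeff 0 / q.coeff 0))
    refine ⟨d, hd, fun t _ _ => ?_⟩
    simpa using h
  | succ n ih =>
    intro p q hq0 hq hp
    obtain ⟨P, hP⟩ := IsAlgClosed.exists_root q (by
      rw [degree_eq_natDegree hq0, hq]; exact_mod_cast Nat.succ_ne_zero n)
    set q1 := q /ₘ (X - C P)
    set p1 := p /ₘ (X - C P)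
    have e1 : (X - C P) * q1 = q := mul_divByMonic_eq_iff_isRoot.2 hP
    have e2 : C (p.eval P) + (X - C P) * p1 = p := by
      rw [← modByMonic_X_sub_C_eq_C_eval]; exact modByMonic_add_div _ _
    have hq1 : q1 ≠ 0 := by rintro h; rw [h, mul_zero] at e1; exact hq0 e1.symm
    have hd1 : q1.natDegree = n := by
      rw [natDegree_divByMonic _ (monic_X_sub_C P), hq, natDegree_X_sub_C]; rfl
    have hd2 : p1.natDegree ≤ n := by
      rw [natDegree_divByMonic _ (monic_X_sub_C P), natDegree_X_sub_C]; omega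
    obtain ⟨d1, hd1p, h1⟩ := ih p1 q1 hq1 hd1 hd2
    obtain ⟨d2, hd2p, h2⟩ := ih (C (p.eval P)) q1 hq1 hd1 (by simp)
    refine ⟨d0 * d1 * d2, by positivity, fun t ht hI => ?_⟩
    have f1 : aeval t q = (t - (P : ℂ)) * aeval t q1 := by rw [← e1]; simp
    have f2 : aeval t p = aeval t (C (p.eval P)) + (t - (P : ℂ)) * aeval t p1 := by
      conv_lhs => rw [← e2]
      simp
    rw [f1] at ht
    have ht1 := left_ne_zero_of_mul ht
    have ht2 := right_ne_zero_of_mul ht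
    have hI1 : ∀ P' : ℂ, aeval P' q1 = 0 → IsIntegral ℤ ((d0 : ℂ) / (t - P')) := by
      intro P' h
      apply hI
      rw [← e1, map_mul, h, mul_zero]
    have g1 := h1 t ht2 hI1
    have g2 := h2 t ht2 hI1
    have g3 := hI (P : ℂ) (by rw [← e1]; simp)
    have e : ((d0 * d1 * d2 : ℕ) : ℂ) * (aeval t p / aeval t q) =
        ((d0 * d2 : ℕ) : ℂ) * (d1 * (aeval t p1 / aeval t q1)) +
          (d1 : ℂ) * ((d0 / (t - P)) * (d2 * (aeval t (C (p.eval P)) / aeval t q1))) := by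
      rw [f1, f2]
      push_cast
      field_simp
      ring
    rw [e]
    exact ((isIntegral_natCast _).mul g1).add ((isIntegral_natCast _).mul (g3.mul g2))

/-- homogenised value of an integral polynomial in two variables -/
lemma exists_Xi {Φ : Polynomial (Polynomial ℤ)} (hΦ : Φ.Monic) (a b a' b' : ℂ[X]) :
    ∃ (Ξ : ℂ[X]) (M n : ℕ),
      (∀ t : ℂ, b.eval t ≠ 0 → b'.eval t ≠ 0 →
        ev2 Φ (a.eval t / b.eval t) (a'.eval t / b'.eval t) = 0 → Ξ.eval t = 0) ∧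
      (∀ P : ℂ, b.eval P ≠ 0 → b'.eval P = 0 → Ξ.eval P = b.eval P ^ M * a'.eval P ^ n) ∧
      ∀ S : Subsemiring ℂ[X], (∀ m : ℤ, C (m : ℂ) ∈ S) → a ∈ S → b ∈ S → a' ∈ S → b' ∈ S →
        Ξ ∈ S := by
  set n := Φ.natDegree
  obtain ⟨M, hM⟩ : ∃ M : ℕ, ∀ k ∈ Finset.range (n + 1), (Φ.coeff k).natDegree ≤ M :=
    ⟨_, fun k hk => Finset.le_sup (f := fun k => (Φ.coeff k).natDegree) hk⟩
  let H : ℕ → ℂ[X] := fun k => ∑ l ∈ Finset.range (M + 1),
    C (((Φ.coeff k).coeff l : ℤ) : ℂ) * a ^ l * b ^ (M - l)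
  have hH : ∀ k ∈ Finset.range (n + 1), ∀ t : ℂ, b.eval t ≠ 0 →
      (H k).eval t = b.eval t ^ M * aeval (a.eval t / b.eval t) (Φ.coeff k) := by
    intro k hk t ht
    rw [aeval_eq_sum_range' (Nat.lt_succ_of_le (hM k hk)), Finset.mul_sum, eval_finsetSum]
    refine Finset.sum_congr rfl fun l hl => ?_
    have hl' : l ≤ M := Nat.lt_succ_iff.1 (Finset.mem_range.1 hl)
    obtain ⟨m, rfl⟩ := Nat.exists_eq_add_of_le hl'
    simp only [eval_mul, eval_C, eval_pow, Nat.add_sub_cancel_left, zsmul_eq_mul, div_pow]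
    field_simp
    ring
  refine ⟨∑ k ∈ Finset.range (n + 1), H k * a' ^ k * b' ^ (n - k), M, n, ?_, ?_, ?_⟩
  · intro t ht ht' h0
    have hdeg : (Φ.map (aeval (a.eval t / b.eval t) : ℤ[X] →ₐ[ℤ] ℂ).toRingHom).natDegree < n + 1 :=
      Nat.lt_succ_of_le natDegree_map_le
    rw [ev2, eval_eq_sum_range' hdeg] at h0
    have : (∑ k ∈ Finset.range (n + 1), H k * a' ^ k * b' ^ (n - k)).eval t =
        b.eval t ^ M * b'.eval t ^ n * ∑ k ∈ Finset.range (n + 1),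
          (Φ.map (aeval (a.eval t / b.eval t) : ℤ[X] →ₐ[ℤ] ℂ).toRingHom).coeff k *
            (a'.eval t / b'.eval t) ^ k := by
      rw [eval_finsetSum, Finset.mul_sum]
      refine Finset.sum_congr rfl fun k hk => ?_
      have hk' : k ≤ n := Nat.lt_succ_iff.1 (Finset.mem_range.1 hk)
      rw [eval_mul, eval_mul, hH k hk t ht, coeff_map]
      obtain ⟨m, hm⟩ := Nat.exists_eq_add_of_le hk'
      rw [hm]
      simp only [eval_pow, Nat.add_sub_cancel_left, div_pow, AlgHom.toRingHom_eq_coe,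
        RingHom.coe_coe]
      field_simp
      ring
    rw [this, h0, mul_zero]
  · intro P hP hP'
    rw [eval_finsetSum, Finset.sum_range_succ, Finset.sum_eq_zero, zero_add, eval_mul, eval_mul,
      hH n (Finset.self_mem_range_succ n) P hP]
    · have : Φ.coeff n = 1 := hΦ.coeff_natDegree
      simp [this]
    · intro k hk
      have : n - k ≠ 0 := by have := Finset.mem_range.1 hk; omega
      simp [hP', this]
  · intro S hS ha hb ha' hb'
    refine S.sum_mem fun k _ => S.mul_mem (S.mul_mem ?_ (S.pow_mem ha' _)) (S.pow_mem hb' _)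
    exact S.sum_mem fun l _ => S.mul_mem (S.mul_mem (hS _) (S.pow_mem ha _)) (S.pow_mem hb _)

lemma exists_Xi' {A B : Fin 3 → ℂ[X]} (h : Adm A B) {i j : Fin 3} (hij : i ≠ j)
    {Φ : Polynomial (Polynomial ℤ)} (hΦ : Φ.Monic) : ∃ Ξ : ℂ[X], Ξ ≠ 0 ∧
      (∀ t, NP B t → ev2 Φ (xv A B i t) (xv A B j t) = 0 → Ξ.eval t = 0) ∧
      (Alg A → Alg B → Ξ ∈ lifts (algebraMap K ℂ)) := by
  obtain ⟨Ξ, M, n, h1, h2, h3⟩ := exists_Xi hΦ (A i) (B i) (A j) (B j)
  refine ⟨Ξ, ?_, fun t ht h0 => h1 t (ht i) (ht j) h0, fun hA hB => ?_⟩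
  · obtain ⟨P, hP⟩ := IsAlgClosed.exists_root (B j) (natDegree_pos_iff_degree_pos.1 (h.1 j).2.1).ne'
    have hP0 : (B j).eval P = 0 := hP
    have e1 : (B i).eval P ≠ 0 := by
      simpa [hP0] using aeval_ne_zero_of_isCoprime (h.2 i j hij) P
    have e2 : (A j).eval P ≠ 0 := by
      simpa [hP0] using aeval_ne_zero_of_isCoprime (h.1 j).2.2 P
    rintro rfl
    have := h2 P e1 hP0
    rw [eval_zero] at this
    exact mul_ne_zero (pow_ne_zero _ e1) (pow_ne_zero _ e2) this.symm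
  · refine h3 _ (fun m => ?_) ((alg_iff _).1 (hA i)) ((alg_iff _).1 (hB i))
      ((alg_iff _).1 (hA j)) ((alg_iff _).1 (hB j))
    exact ⟨C (m : K), by simp⟩

lemma eval_reflect (p : ℂ[X]) (t0 : ℂ) {n : ℕ} (hn : p.natDegree ≤ n) {s : ℂ} (hs : s ≠ 0) :
    (reflect n (taylor t0 p)).eval s⁻¹ * s ^ n = p.eval (s + t0) := by
  let _ := invertibleOfNonzero hs
  have := eval₂_reflect_mul_pow (RingHom.id ℂ) s n (taylor t0 p) (by rwa [natDegree_taylor])
  rw [invOf_eq_inv, eval₂_id, eval₂_id, taylor_eval] at this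
  exact this

lemma eval_reflect_zero (p : ℂ[X]) (t0 : ℂ) (n : ℕ) :
    (reflect n (taylor t0 p)).eval 0 = (taylor t0 p).coeff n := by
  rw [← coeff_zero_eq_eval_zero, coeff_reflect, revAt_zero]

lemma reflect_ne {p : ℂ[X]} (hp : p ≠ 0) (t0 : ℂ) :
    (reflect p.natDegree (taylor t0 p)).eval 0 ≠ 0 := by
  rw [eval_reflect_zero, coeff_taylor_natDegree]
  exact leadingCoeff_ne_zero.2 hp

lemma coprime_reflect {p q : ℂ[X]} (h : IsCoprime p q) (t0 : ℂ) {m n : ℕ} (hm : p.natDegree ≤ m)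
    (hn : q.natDegree ≤ n) (h0 : (reflect m (taylor t0 p)).eval 0 ≠ 0 ∨
      (reflect n (taylor t0 q)).eval 0 ≠ 0) :
    IsCoprime (reflect m (taylor t0 p)) (reflect n (taylor t0 q)) := by
  rw [isCoprime_iff_aeval_ne_zero_of_isAlgClosed ℂ ℂ]
  intro s
  simp only [coe_aeval_eq_eval]
  rcases eq_or_ne s 0 with rfl | hs
  · exact h0
  have h1 := eval_reflect p t0 hm (inv_ne_zero hs)
  have h2 := eval_reflect q t0 hn (inv_ne_zero hs)
  rw [inv_inv] at h1 h2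
  have h3 := aeval_ne_zero_of_isCoprime h (s⁻¹ + t0)
  simp only [coe_aeval_eq_eval] at h3
  rw [← h1, ← h2] at h3
  exact h3.imp left_ne_zero_of_mul left_ne_zero_of_mul

end CURVE

open CURVE

variable {A B : Fin 3 → Polynomial ℂ}

theorem Adm.conj (h : Adm A B) (σ : ℂ →+* ℂ) :
    Adm (fun i ↦ (A i).map σ) (fun i ↦ (B i).map σ) := by
  refine ⟨fun i => ?_, fun i j hij => (h.2 i j hij).map (mapRingHom σ)⟩
  simp only [natDegree_map_eq_of_injective σ.injective]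
  exact ⟨(h.1 i).1, (h.1 i).2.1, (h.1 i).2.2.map (mapRingHom σ)⟩

theorem Alg.conj (h : Alg A) (σ : ℂ →+* ℂ) : Alg (fun i ↦ (A i).map σ) := by
  intro i n
  rw [coeff_map]
  exact (h i n).algHom σ.toRatAlgHom

theorem xv_conj (σ : ℂ →+* ℂ) (i : Fin 3) (t : ℂ) :
    xv (fun i ↦ (A i).map σ) (fun i ↦ (B i).map σ) i (σ t) = σ (xv A B i t) := by
  simp only [xv, eval_map, eval₂_at_apply, map_div₀]

theorem NP.conj {t : ℂ} (h : NP B t) (σ : ℂ →+* ℂ) : NP (fun i ↦ (B i).map σ) (σ t) := by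
  intro i
  simp only [eval_map, eval₂_at_apply]
  exact (map_ne_zero σ).2 (h i)

theorem Alg.finite (h : Alg A) :
    (Set.range fun σ : ℂ →+* ℂ ↦ fun i ↦ (A i).map σ).Finite := by
  refine (Set.Finite.pi' fun i => map_finite (h i)).subset ?_
  rintro _ ⟨σ, rfl⟩ i
  exact ⟨σ, rfl⟩

/-- two-sided bound, uniform over all conjugates -/
theorem two_sided (h : Adm A B) (hA : Alg A) (hB : Alg B) : ∃ C : ℝ, 1 ≤ C ∧
    ∀ (σ : ℂ →+* ℂ) (i : Fin 3) (z : ℂ),
      (1 + ‖z‖) ^ (B i).natDegree ≤ C * (‖((A i).map σ).eval z‖ + ‖((B i).map σ).eval z‖) ∧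
      ‖((A i).map σ).eval z‖ + ‖((B i).map σ).eval z‖ ≤ C * (1 + ‖z‖) ^ (B i).natDegree := by
  have key : ∀ p : ℂ[X] × ℂ[X], ∃ C : ℝ, p.2 ≠ 0 → IsCoprime p.1 p.2 →
      p.1.natDegree ≤ p.2.natDegree → ∀ z : ℂ,
        (1 + ‖z‖) ^ p.2.natDegree ≤ C * (‖p.1.eval z‖ + ‖p.2.eval z‖) ∧
        ‖p.1.eval z‖ + ‖p.2.eval z‖ ≤ C * (1 + ‖z‖) ^ p.2.natDegree := by
    rintro ⟨a, b⟩
    by_cases hh : b ≠ 0 ∧ IsCoprime a b ∧ a.natDegree ≤ b.natDegree
    · obtain ⟨C1, h1, h1'⟩ := lower hh.1 hh.2.1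
      obtain ⟨C2, h2, h2'⟩ := upper a hh.2.2
      obtain ⟨C3, h3, h3'⟩ := upper b le_rfl
      refine ⟨C1 + C2 + C3, fun _ _ _ z => ⟨(h1' z).trans ?_, ?_⟩⟩
      · exact mul_le_mul_of_nonneg_right (by linarith) (by positivity)
      · have := h2' z
        have := h3' z
        have : 0 ≤ C1 * (1 + ‖z‖) ^ b.natDegree := by positivity
        simp only
        linarith
    · exact ⟨0, fun a1 a2 a3 => (hh ⟨a1, a2, a3⟩).elim⟩
  choose Cf hCf using key
  have hfin : (⋃ i : Fin 3, (Set.range fun σ : ℂ →+* ℂ => (A i).map σ) ×ˢ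
      (Set.range fun σ : ℂ →+* ℂ => (B i).map σ)).Finite :=
    Set.finite_iUnion fun i => (map_finite (hA i)).prod (map_finite (hB i))
  obtain ⟨C0, hC0⟩ := (hfin.image Cf).bddAbove
  refine ⟨max C0 1, le_max_right _ _, fun σ i z => ?_⟩
  have hle : Cf ((A i).map σ, (B i).map σ) ≤ max C0 1 :=
    (hC0 ⟨_, Set.mem_iUnion.2 ⟨i, ⟨σ, rfl⟩, ⟨σ, rfl⟩⟩, rfl⟩).trans (le_max_left _ _)
  have h' := (h.conj σ).1 i
  have := hCf ((A i).map σ, (B i).map σ) (ne_zero_of_natDegree_gt h'.2.1) h'.2.2 h'.1 z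
  simp only [natDegree_map_eq_of_injective σ.injective] at this
  exact ⟨this.1.trans (mul_le_mul_of_nonneg_right hle (by positivity)),
    this.2.trans (mul_le_mul_of_nonneg_right hle (by positivity))⟩

/-- quotients of polynomials at almost integral points -/
theorem integral_div {p q : Polynomial ℂ} (hp : ∀ n, IsAlgebraic ℚ (p.coeff n))
    (hq : ∀ n, IsAlgebraic ℚ (q.coeff n)) (hq0 : q ≠ 0) (hpq : p.natDegree ≤ q.natDegree) {d0 : ℕ}
    (hd0 : 0 < d0) : ∃ d : ℕ, 0 < d ∧ ∀ t : ℂ, q.eval t ≠ 0 →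
      (∀ P, q.eval P = 0 → IsIntegral ℤ ((d0 : ℂ) / (t - P))) →
      IsIntegral ℤ (d * (p.eval t / q.eval t)) := by
  obtain ⟨p', rfl⟩ := (mem_lifts _).1 ((alg_iff _).1 hp)
  obtain ⟨q', rfl⟩ := (mem_lifts _).1 ((alg_iff _).1 hq)
  simp only [natDegree_map_eq_of_injective (algebraMap K ℂ).injective] at hpq
  simp only [eval_map_algebraMap]
  exact intdiv hd0 _ p' q' (by rintro rfl; simp at hq0) rfl hpq

/-- the substitution `t = t0 + 1 / s` -/
theorem normalize (A B : Fin 3 → Polynomial ℂ) (hc : ∀ i, IsCoprime (A i) (B i))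
    (hn : ∀ i, 0 < (A i).natDegree ∨ 0 < (B i).natDegree)
    (hB : ∀ i j, i ≠ j → IsCoprime (B i) (B j))
    (hinf : ∀ i j, i ≠ j → (A i).natDegree ≤ (B i).natDegree ∨ (A j).natDegree ≤ (B j).natDegree)
    (hB0 : ∀ i, B i ≠ 0) :
    ∃ (t0 : ℂ) (A' B' : Fin 3 → Polynomial ℂ), Adm A' B' ∧ (Alg A → Alg B → Alg A' ∧ Alg B') ∧
      ∀ t, t ≠ t0 → NP B t → NP B' (t - t0)⁻¹ ∧ ∀ i, xv A' B' i (t - t0)⁻¹ = xv A B i t := by
  obtain ⟨m, hm⟩ : ∃ m : ℕ, ∀ i, (B i).eval (m : ℂ) ≠ 0 := by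
    have hfin : (⋃ i : Fin 3, {x : ℂ | (B i).IsRoot x}).Finite :=
      Set.finite_iUnion fun i => finite_setOfPred_isRoot (hB0 i)
    obtain ⟨x, ⟨m, rfl⟩, hx⟩ := (Set.infinite_range_of_injective
      (Nat.cast_injective (R := ℂ))).exists_notMem_finite hfin
    exact ⟨m, fun i hi => hx (Set.mem_iUnion.2 ⟨i, hi⟩)⟩
  let n : Fin 3 → ℕ := fun i => max (A i).natDegree (B i).natDegree
  have hnA : ∀ i, (A i).natDegree ≤ n i := fun i => le_max_left _ _
  have hnB : ∀ i, (B i).natDegree ≤ n i := fun i => le_max_right _ _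
  have hle : ∀ (p : ℂ[X]) (k : ℕ), p.natDegree ≤ k →
      (reflect k (taylor (m : ℂ) p)).natDegree ≤ k := fun p k hk =>
    natDegree_reflect_le.trans (max_le le_rfl (by rwa [natDegree_taylor]))
  have hdB : ∀ i, (reflect (n i) (taylor (m : ℂ) (B i))).natDegree = n i := by
    intro i
    refine le_antisymm (hle _ _ (hnB i)) (le_natDegree_of_ne_zero ?_)
    rw [coeff_reflect, revAt_le le_rfl, Nat.sub_self, taylor_coeff_zero]
    exact hm i
  have hz : ∀ i, (A i).natDegree ≤ (B i).natDegree →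
      (reflect (n i) (taylor (m : ℂ) (B i))).eval 0 ≠ 0 := by
    intro i hi
    have : n i = (B i).natDegree := max_eq_right hi
    rw [this]
    exact reflect_ne (hB0 i) _
  have halg : ∀ (p : ℂ[X]) (k : ℕ), (∀ l, IsAlgebraic ℚ (p.coeff l)) →
      ∀ l, IsAlgebraic ℚ ((reflect k (taylor (m : ℂ) p)).coeff l) := by
    intro p k hp l
    rw [coeff_reflect]
    obtain ⟨p', rfl⟩ := (mem_lifts _).1 ((alg_iff _).1 hp)
    exact (alg_iff _).2 ⟨taylor (m : K) p', by simp⟩ _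
  refine ⟨m, fun i => reflect (n i) (taylor (m : ℂ) (A i)),
    fun i => reflect (n i) (taylor (m : ℂ) (B i)), ⟨fun i => ⟨?_, ?_, ?_⟩, fun i j hij => ?_⟩,
    fun h1 h2 => ⟨fun i => halg _ _ (h1 i), fun i => halg _ _ (h2 i)⟩, fun t ht hNP => ?_⟩
  · rw [hdB]; exact hle _ _ (hnA i)
  · rw [hdB]; exact lt_max_iff.2 (hn i)
  · refine coprime_reflect (hc i) _ (hnA i) (hnB i) ?_
    rcases le_or_gt (A i).natDegree (B i).natDegree with h | h
    · exact Or.inr (hz i h)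
    · left
      have : n i = (A i).natDegree := max_eq_left h.le
      rw [this]
      exact reflect_ne (ne_zero_of_natDegree_gt h) _
  · exact coprime_reflect (hB i j hij) _ (hnB i) (hnB j) ((hinf i j hij).imp (hz i) (hz j))
  · have hs : t - m ≠ 0 := sub_ne_zero.2 ht
    have h1 := fun i => eval_reflect (A i) m (hnA i) hs
    have h2 := fun i => eval_reflect (B i) m (hnB i) hs
    simp only [sub_add_cancel] at h1 h2
    refine ⟨fun i => ?_, fun i => ?_⟩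
    · have := hNP i
      rw [← h2 i] at this
      exact left_ne_zero_of_mul this
    · simp only [xv]
      rw [← h1 i, ← h2 i, mul_div_mul_right _ _ (pow_ne_zero _ hs)]

end Pool.Agent.Lib.ZP3
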