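import Pool.Agent.Lib.ZP3.An

/-! Block NDC: nondegeneracy of the cusp charts, uniformly in the depth. -/

open Filter Topology Metric Finset
open scoped Real

namespace Pool.Agent.Lib.ZP3

namespace NDC

theorem coef_zero {n : ℕ} (c : Fin n → ℂ) {S : Set ℂ} (hS : S.Infinite)
    (h : ∀ z ∈ S, ∑ k, c k * z ^ (k : ℕ) = 0) : c = 0 := by
  set P : Polynomial ℂ := ∑ k : Fin n, Polynomial.monomial (k : ℕ) (c k) with hP
  have h0 : P = 0 := by
    refine Polynomial.eq_zero_of_infinite_isRoot P (hS.mono fun z hz ↦ ?_)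
    simp only [Set.mem_ofPred_eq, Polynomial.IsRoot, hP, Polynomial.eval_finsetSum,
      Polynomial.eval_monomial]
    exact h z hz
  funext k
  have h1 : P.coeff k = c k := by
    rw [hP, Polynomial.finsetSum_coeff, Finset.sum_eq_single k]
    · simp
    · intro k' _ hk'
      rw [Polynomial.coeff_monomial, if_neg fun e ↦ hk' (Fin.ext e)]
    · simp
  rw [← h1, h0]; simp

theorem ball_infinite : (closedBall (0 : ℂ) 2).Infinite :=
  infinite_of_mem_nhds (0 : ℂ) (closedBall_mem_nhds _ (by norm_num))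

theorem poly_FD (n : ℕ) : ∃ C : ℝ, 0 < C ∧ ∀ c : Fin n → ℂ, ∃ s : ℂ, ‖s‖ ≤ 2 ∧
    ‖c‖ ≤ C * ‖∑ k, c k * s ^ (k : ℕ)‖ := by
  let Θ : (Fin n → ℂ) →ₗ[ℂ] (ℂ → ℂ) :=
    { toFun := fun c s ↦ ∑ k, c k * s ^ (k : ℕ)
      map_add' := fun a b ↦ by funext s; simp [add_mul, sum_add_distrib]
      map_smul' := fun a b ↦ by funext s; simp [mul_sum, mul_assoc] }
  obtain ⟨C, hC, h⟩ := AN.FD Θ (fun c ↦ Continuous.continuousOn (by
      show Continuous fun s : ℂ ↦ ∑ k, c k * s ^ (k : ℕ)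
      fun_prop))
    (fun c hc ↦ coef_zero c ball_infinite fun z hz ↦ hc z (mem_closedBall_zero_iff.1 hz))
  refine ⟨C, hC, fun c ↦ ?_⟩
  obtain ⟨s, h1, h2, -⟩ := h c
  exact ⟨s, h1, h2⟩

/-- exponential polynomials -/
noncomputable def EP {J n : ℕ} (b : Fin J → Fin n → ℂ) (s : ℂ) : ℂ :=
  ∑ j, (∑ k, b j k * s ^ (k : ℕ)) * Complex.exp s ^ (j : ℕ)

theorem EP_inj {J n : ℕ} (b : Fin J → Fin n → ℂ) (h : ∀ s : ℂ, ‖s‖ ≤ 2 → EP b s = 0) : b = 0 := by
  have han : AnalyticOnNhd ℂ (EP b) Set.univ := by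
    refine Complex.analyticOnNhd_univ_iff_differentiable.2 ?_
    unfold EP
    fun_prop
  have h0 : ∀ s, EP b s = 0 := fun s ↦
    han.eqOn_zero_of_preconnected_of_eventuallyEq_zero isPreconnected_univ (Set.mem_univ 0)
      (by filter_upwards [closedBall_mem_nhds (0 : ℂ) (by norm_num : (0 : ℝ) < 2)] with z hz
          exact h z (mem_closedBall_zero_iff.1 hz)) (Set.mem_univ s)
  have h1 : ∀ s : ℂ, (fun k ↦ ∑ j, b j k * Complex.exp s ^ (j : ℕ)) = 0 := by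
    intro s
    have hinj : Function.Injective fun m : ℕ ↦ s + m * (2 * π * Complex.I) := by
      intro a b hab
      have h2 : (2 * π * Complex.I : ℂ) ≠ 0 := Complex.two_pi_I_ne_zero
      have := mul_right_cancel₀ h2 (add_left_cancel hab)
      exact_mod_cast this
    refine coef_zero _ (Set.infinite_range_of_injective hinj) ?_
    rintro z ⟨m, rfl⟩
    have h2 := h0 (s + m * (2 * π * Complex.I))
    unfold EP at h2
    rw [Complex.exp_add, Complex.exp_nat_mul_two_pi_mul_I, mul_one] at h2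
    rw [← h2]
    simp only [sum_mul]
    rw [sum_comm]
    refine sum_congr rfl fun j _ ↦ sum_congr rfl fun k _ ↦ by ring
  funext j k
  have h2 : (fun j ↦ b j k) = 0 := by
    refine coef_zero _ (S := {0}ᶜ) (Set.finite_singleton 0).infinite_compl fun z hz ↦ ?_
    have := congrFun (h1 (Complex.log z)) k
    rwa [Complex.exp_log hz] at this
  exact congrFun h2 j

theorem EP_FD (J n : ℕ) : ∃ C : ℝ, 0 < C ∧ ∀ b : Fin J → Fin n → ℂ, ∃ s0 : ℂ, ‖s0‖ ≤ 2 ∧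
    ‖b‖ ≤ C * ‖EP b s0‖ ∧ ∀ s : ℂ, ‖s‖ ≤ 10 → ‖EP b s‖ ≤ C * ‖b‖ := by
  let Θ : (Fin J → Fin n → ℂ) →ₗ[ℂ] (ℂ → ℂ) :=
    { toFun := fun b ↦ EP b
      map_add' := fun a b ↦ by funext s; simp [EP, add_mul, sum_add_distrib]
      map_smul' := fun a b ↦ by funext s; simp [EP, mul_sum, sum_mul, mul_assoc] }
  exact AN.FD Θ (fun b ↦ Continuous.continuousOn (by
      show Continuous (EP b)
      unfold EP
      fun_prop)) EP_inj

theorem shift {n : ℕ} (c : Fin n → ℂ) (w : ℂ) : ∃ t : Fin n → ℂ, ∀ s : ℂ,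
    ∑ k, c k * (w + s) ^ (k : ℕ) = ∑ k, t k * s ^ (k : ℕ) := by
  refine ⟨fun m ↦ ∑ k, c k * (w ^ ((k : ℕ) - m) * ((k : ℕ).choose m : ℂ)), fun s ↦ ?_⟩
  simp only [sum_mul]
  rw [sum_comm]
  refine sum_congr rfl fun k _ ↦ ?_
  rw [add_comm, add_pow, mul_sum,
    Fin.sum_univ_eq_sum_range
      (fun m ↦ c k * (w ^ ((k : ℕ) - m) * ((k : ℕ).choose m : ℂ)) * s ^ m) n]
  refine (sum_congr rfl fun m _ ↦ by ring).trans (sum_subset ?_ ?_)
  · exact range_subset_range.2 k.2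
  · intro m _ hm
    rw [mem_range, not_lt] at hm
    rw [Nat.choose_eq_zero_of_lt hm]; simp

theorem norm_poly_le {n : ℕ} (t : Fin n → ℂ) (z : ℂ) {B : ℝ} (hB : 1 ≤ B) (hz : ‖z‖ ≤ B) :
    ‖∑ k, t k * z ^ (k : ℕ)‖ ≤ n * (‖t‖ * B ^ n) := by
  refine (norm_sum_le _ _).trans ?_
  refine (sum_le_card_nsmul _ _ (‖t‖ * B ^ n) fun k _ ↦ ?_).trans (by simp)
  rw [norm_mul, norm_pow]
  refine mul_le_mul (norm_le_pi_norm t k) ?_ (by positivity) (norm_nonneg _)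
  exact (pow_le_pow_left₀ (norm_nonneg _) hz _).trans (pow_le_pow_right₀ hB k.2.le)

theorem taylor {γ : ℂ → ℂ} {r : ℝ} (hr : 0 < r) (hγ : AnalyticOnNhd ℂ γ (ball 0 r)) :
    ∃ α : ℕ → ℂ, (∀ u ∈ ball (0 : ℂ) r, HasSum (fun j ↦ α j * u ^ j) (γ u)) ∧
      ∀ J : ℕ, ∃ K : ℝ, 0 ≤ K ∧ ∀ u : ℂ, ‖u‖ ≤ r / 2 →
        ‖γ u - ∑ j ∈ range J, α j * u ^ j‖ ≤ K * ‖u‖ ^ J := by
  set α : ℕ → ℂ := fun j ↦ (j.factorial : ℂ)⁻¹ * iteratedDeriv j γ 0 with hα
  have h1 : ∀ u ∈ ball (0 : ℂ) r, HasSum (fun j ↦ α j * u ^ j) (γ u) := by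
    intro u hu
    have := Complex.hasSum_taylorSeries_on_ball hγ.differentiableOn hu
    have e : (fun j ↦ α j * u ^ j) =
        fun j : ℕ ↦ (j.factorial : ℂ)⁻¹ • (u - 0) ^ j • iteratedDeriv j γ 0 := by
      funext j
      simp only [hα, sub_zero, smul_eq_mul]; ring
    rwa [e]
  refine ⟨α, h1, fun J ↦ ?_⟩
  set ρ : ℝ := r / 2 with hρ
  have hρ0 : 0 < ρ := by positivity
  have h2 : Summable fun j ↦ ‖α j‖ * ρ ^ j := by
    have := (h1 (ρ : ℂ) (by
      rw [mem_ball_zero_iff, Complex.norm_real, Real.norm_eq_abs, abs_of_pos hρ0]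
      linarith)).summable.norm
    simpa [norm_mul, norm_pow, abs_of_pos hρ0] using this
  have h3 : Summable fun j ↦ ‖α (j + J)‖ * ρ ^ (j + J) := (summable_nat_add_iff J).2 h2
  refine ⟨(∑' j, ‖α (j + J)‖ * ρ ^ (j + J)) / ρ ^ J,
    div_nonneg (tsum_nonneg fun j ↦ by positivity) (by positivity), fun u hu ↦ ?_⟩
  have h4 := (hasSum_nat_add_iff' J).2 (h1 u (by rw [mem_ball_zero_iff]; linarith))
  rw [← h4.tsum_eq]
  have h5 := (h3.hasSum.div_const (ρ ^ J)).mul_right (‖u‖ ^ J)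
  refine tsum_of_norm_bounded h5 fun j ↦ ?_
  rw [norm_mul, norm_pow, pow_add, pow_add, mul_div_assoc, mul_div_assoc,
    div_self (by positivity), mul_one, mul_assoc]
  gcongr

variable {I : Type} [Fintype I] {n : ℕ}

/-- the family of functions -/
noncomputable def FF (γ : I → Fin n → ℂ → ℂ) (v : I → ℂ) (w : ℂ) : ℂ :=
  ∑ i, v i * ∑ k, γ i k (Complex.exp w) * w ^ (k : ℕ)

def St (γ : I → Fin n → ℂ → ℂ) (w0 : ℂ) (M : ℝ) (N : ℕ) : Prop :=
  ∀ v : I → ℂ, ∃ s0 : ℂ, ‖s0‖ ≤ 2 ∧ ‖v‖ ≤ M ^ N * ‖FF γ v (w0 + s0)‖ ∧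
    ∀ s : ℂ, ‖s‖ ≤ 10 → ‖FF γ v (w0 + s)‖ ≤ 2 ^ N * ‖FF γ v (w0 + s0)‖

theorem St.mono {γ : I → Fin n → ℂ → ℂ} {w0 : ℂ} {M : ℝ} {N N' : ℕ} (h : St γ w0 M N)
    (hM : 1 ≤ M) (hN : N ≤ N') : St γ w0 M N' := by
  intro v
  obtain ⟨s0, h1, h2, h3⟩ := h v
  refine ⟨s0, h1, h2.trans ?_, fun s hs ↦ (h3 s hs).trans ?_⟩
  · gcongr
  · gcongr; norm_num

theorem analyticAt_FF {γ : I → Fin n → ℂ → ℂ} {r : ℝ}
    (hγ : ∀ i k, AnalyticOnNhd ℂ (γ i k) (ball 0 r)) (v : I → ℂ) {w : ℂ}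
    (hw : ‖Complex.exp w‖ < r) : AnalyticAt ℂ (FF γ v) w := by
  unfold FF
  refine Finset.analyticAt_fun_sum _ fun i _ ↦ analyticAt_const.mul
    (Finset.analyticAt_fun_sum _ fun k _ ↦ AnalyticAt.mul ?_ (analyticAt_id.pow _))
  exact (hγ i k _ (mem_ball_zero_iff.2 hw)).comp analyticAt_cexp

theorem small {γ : I → Fin n → ℂ → ℂ} {r : ℝ} (hr : 0 < r)
    (hγ : ∀ i k, AnalyticOnNhd ℂ (γ i k) (ball 0 r))
    (hind : ∀ v : I → ℂ, (∀ w : ℂ, ‖Complex.exp w‖ < r → FF γ v w = 0) → v = 0)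
    {w0 : ℂ} (hw : w0.re + 10 < Real.log r) {M : ℝ} (hM : 2 ≤ M) : ∃ N, St γ w0 M N := by
  have hlt : ∀ w : ℂ, ‖Complex.exp w‖ < r ↔ w.re < Real.log r := fun w ↦ by
    rw [Complex.norm_exp, Real.lt_log_iff_exp_lt hr]
  have hs : ∀ s : ℂ, ‖s‖ ≤ 10 → ‖Complex.exp (w0 + s)‖ < r := fun s hs ↦ by
    rw [hlt, Complex.add_re]
    linarith [Complex.re_le_norm s]
  let Θ : (I → ℂ) →ₗ[ℂ] (ℂ → ℂ) :=
    { toFun := fun v s ↦ FF γ v (w0 + s)
      map_add' := fun a b ↦ by funext s; simp [FF, add_mul, sum_add_distrib]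
      map_smul' := fun a b ↦ by funext s; simp [FF, mul_sum, mul_assoc] }
  obtain ⟨C, hC, h⟩ := AN.FD Θ
    (fun v s hs' ↦ (((analyticAt_FF hγ v (hs s (mem_closedBall_zero_iff.1 hs'))).continuousAt).comp
      (f := fun s ↦ w0 + s) (by fun_prop)).continuousWithinAt)
    (fun v hv ↦ hind v fun w hw' ↦ by
      have han : AnalyticOnNhd ℂ (FF γ v) {w : ℂ | w.re < Real.log r} :=
        fun w hw ↦ analyticAt_FF hγ v ((hlt w).2 hw)
      refine han.eqOn_zero_of_preconnected_of_eventuallyEq_zero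
        (convex_halfSpace_re_lt _).isPreconnected (z₀ := w0)
        (by simp only [Set.mem_ofPred_eq]; linarith) ?_ ((hlt w).1 hw')
      filter_upwards [closedBall_mem_nhds w0 (by norm_num : (0 : ℝ) < 2)] with z hz
      have := hv (z - w0) (by rwa [mem_closedBall, dist_eq_norm] at hz)
      simpa [Θ] using this)
  obtain ⟨N, hN⟩ := pow_unbounded_of_one_lt (max C (C * C)) (by norm_num : (1 : ℝ) < 2)
  refine ⟨N, fun v ↦ ?_⟩
  obtain ⟨s0, a1, a2, a3⟩ := h v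
  refine ⟨s0, a1, a2.trans ?_, fun s hs ↦ (a3 s hs).trans ?_⟩
  · refine mul_le_mul_of_nonneg_right ?_ (norm_nonneg _)
    exact ((le_max_left _ _).trans hN.le).trans (pow_le_pow_left₀ (by norm_num) hM _)
  · calc C * ‖v‖ ≤ C * (C * ‖Θ v s0‖) := by gcongr
      _ ≤ _ := by
        rw [← mul_assoc]
        exact mul_le_mul_of_nonneg_right ((le_max_right _ _).trans hN.le) (norm_nonneg _)

theorem exists_trunc {γ : I → Fin n → ℂ → ℂ} {r : ℝ}
    (hind : ∀ v : I → ℂ, (∀ w : ℂ, ‖Complex.exp w‖ < r → FF γ v w = 0) → v = 0)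
    (α : I → Fin n → ℕ → ℂ)
    (hα : ∀ i k, ∀ u ∈ ball (0 : ℂ) r, HasSum (fun j ↦ α i k j * u ^ j) (γ i k u)) :
    ∃ (J : ℕ) (C : ℝ), 0 ≤ C ∧ ∀ v : I → ℂ,
      ‖v‖ ≤ C * ‖(fun (j : Fin J) (k : Fin n) ↦ ∑ i, v i * α i k j)‖ := by
  let T : ∀ J : ℕ, (I → ℂ) →ₗ[ℂ] (Fin J → Fin n → ℂ) := fun J ↦
    { toFun := fun v j k ↦ ∑ i, v i * α i k j
      map_add' := fun a b ↦ by funext j k; simp [add_mul, sum_add_distrib]
      map_smul' := fun a b ↦ by funext j k; simp [mul_sum, mul_assoc] }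
  obtain ⟨K, ⟨J, rfl⟩, hmin⟩ := (wellFounded_lt (α := Submodule ℂ (I → ℂ))).has_min
    (Set.range fun J ↦ LinearMap.ker (T J)) ⟨_, 0, rfl⟩
  have hker : LinearMap.ker (T J) = ⊥ := by
    refine LinearMap.ker_eq_bot'.2 fun v hv ↦ hind v fun w hw ↦ ?_
    have h1 : ∀ (j : ℕ) (k : Fin n), ∑ i, v i * α i k j = 0 := by
      intro j k
      have hle : LinearMap.ker (T (J + j + 1)) ≤ LinearMap.ker (T J) := by
        intro x hx
        rw [LinearMap.mem_ker] at hx ⊢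
        funext j' k'
        exact congrFun (congrFun hx ⟨j', by omega⟩) k'
      have heq := (eq_or_lt_of_le hle).resolve_right (hmin _ ⟨J + j + 1, rfl⟩)
      have hv' : v ∈ LinearMap.ker (T (J + j + 1)) := by rw [heq]; exact hv
      exact congrFun (congrFun hv' ⟨j, by omega⟩) k
    have h2 : ∀ k, ∑ i, v i * γ i k (Complex.exp w) = 0 := by
      intro k
      have h3 := hasSum_sum (s := univ) fun i _ ↦
        (hα i k _ (mem_ball_zero_iff.2 hw)).mul_left (v i)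
      have h4 : (fun j ↦ ∑ i, v i * (α i k j * Complex.exp w ^ j)) = fun _ ↦ 0 := by
        funext j
        simp only [← mul_assoc, ← sum_mul, h1 j k, zero_mul]
      rw [h4] at h3
      exact h3.unique hasSum_zero
    unfold FF
    simp only [mul_sum, ← mul_assoc]
    rw [sum_comm]
    refine sum_eq_zero fun k _ ↦ ?_
    rw [← sum_mul, h2, zero_mul]
  obtain ⟨K, -, hK⟩ := (T J).exists_antilipschitzWith hker
  refine ⟨J, K, K.2, fun v ↦ ?_⟩
  have : ‖v‖ ≤ K * ‖T J v‖ := by simpa using hK.le_mul_dist v 0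
  exact this

theorem large {γ : I → Fin n → ℂ → ℂ} {r : ℝ} (hr : 0 < r)
    (hγ : ∀ i k, AnalyticOnNhd ℂ (γ i k) (ball 0 r))
    (hind : ∀ v : I → ℂ, (∀ w : ℂ, ‖Complex.exp w‖ < r → FF γ v w = 0) → v = 0)
    (A : ℝ) (hA : 1 ≤ A) :
    ∃ k0 N : ℕ, ∀ k : ℕ, k0 ≤ k → ∀ w0 : ℂ, ‖Complex.exp w0‖ = r * Real.exp (-11 - k) →
      ‖w0‖ + 10 ≤ A * (k + 1) → St γ w0 (Real.exp (k + 1)) N := by
  choose α hα1 hα2 using fun i k ↦ taylor hr (hγ i k)
  obtain ⟨J, C2, hC2, hT⟩ := exists_trunc hind α hα1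
  choose K hK0 hK using fun i k ↦ hα2 i k J
  obtain ⟨C1, hC1, hEP⟩ := EP_FD J n
  obtain ⟨C3, hC3, hP⟩ := poly_FD n
  set K0 : ℝ := ∑ i, ∑ k, K i k with hK0def
  have hK00 : 0 ≤ K0 := sum_nonneg fun i _ ↦ sum_nonneg fun k _ ↦ hK0 i k
  set C4 : ℝ := C2 * (C3 * (n * A ^ n)) with hC4
  have hC40 : 0 ≤ C4 := by positivity
  set C5 : ℝ := K0 * A ^ n * Real.exp 10 ^ J * C4 with hC5
  have hC50 : 0 ≤ C5 := by positivity
  have hlim : Tendsto (fun k : ℕ ↦ ((k : ℝ) + 1) ^ (2 * n) * Real.exp (-((k : ℝ) + 1))) atTop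
      (𝓝 0) := (Real.tendsto_pow_mul_exp_neg_atTop_nhds_zero (2 * n)).comp
      (tendsto_atTop_add_const_right _ 1 tendsto_natCast_atTop_atTop)
  have hlim2 := hlim.const_mul (r * (2 * C1 * C5 + 1))
  rw [mul_zero] at hlim2
  obtain ⟨k0, hk0⟩ := eventually_atTop.1 (hlim2.eventually_le_const one_pos)
  obtain ⟨N1, hN1⟩ := pow_unbounded_of_one_lt
    (max (2 * C1 * C1 + 1) (2 * C1 * C4 * (r⁻¹ * Real.exp 11) ^ J)) (by norm_num : (1 : ℝ) < 2)
  refine ⟨k0, N1 + n + J, fun k hk w0 hu hw v ↦ ?_⟩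
  set x : ℝ := (k : ℝ) + 1 with hx
  have hx1 : 1 ≤ x := by rw [hx]; linarith [(Nat.cast_nonneg k : (0 : ℝ) ≤ k)]
  set u : ℝ := ‖Complex.exp w0‖ with hudef
  have hu0 : 0 < u := norm_pos_iff.2 (Complex.exp_ne_zero _)
  have hule : u ≤ r * Real.exp (-x) := by
    rw [hu]; gcongr; rw [hx]; linarith
  have hk1 := hk0 k hk
  have hxn : 1 ≤ x ^ (2 * n) := one_le_pow₀ hx1
  have hε : 2 * C1 * (C5 * x ^ (2 * n) * u) + u ≤ 1 := by
    calc _ ≤ 2 * C1 * (C5 * x ^ (2 * n) * (r * Real.exp (-x))) + x ^ (2 * n) * (r * Real.exp (-x)) := by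
          gcongr
          exact hule.trans (le_mul_of_one_le_left (by positivity) hxn)
      _ = r * (2 * C1 * C5 + 1) * (x ^ (2 * n) * Real.exp (-x)) := by ring
      _ ≤ 1 := hk1
  have hεn : 0 ≤ 2 * C1 * (C5 * x ^ (2 * n) * u) := by positivity
  have hu1 : u ≤ 1 := by linarith
  set a : Fin J → Fin n → ℂ := fun j k ↦ ∑ i, v i * α i k j with ha
  choose t ht using fun j ↦ shift (a j) w0
  set b : Fin J → Fin n → ℂ := fun j k ↦ Complex.exp w0 ^ (j : ℕ) * t j k with hb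
  have hAx : 1 ≤ A * x := one_le_mul_of_one_le_of_one_le hA hx1
  -- lower bound for b
  have hlow : u ^ J * ‖v‖ ≤ C4 * x ^ n * u * ‖b‖ := by
    have h1 : ∀ j : Fin J, u ^ J * ‖a j‖ ≤ C3 * (n * A ^ n) * x ^ n * u * ‖b‖ := by
      intro j
      obtain ⟨s1, hs1, h2⟩ := hP (a j)
      have h3 := ht j (s1 - w0)
      rw [add_sub_cancel] at h3
      rw [h3] at h2
      have h4 := norm_poly_le (t j) (s1 - w0) hAx
        ((norm_sub_le _ _).trans (by linarith))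
      have h5 : u ^ (j : ℕ) * ‖t j‖ ≤ ‖b‖ := by
        refine le_trans (le_of_eq ?_) (norm_le_pi_norm b j)
        have : b j = Complex.exp w0 ^ (j : ℕ) • t j := by funext k; simp [hb]
        rw [this, norm_smul, norm_pow]
      have h6 : u ^ J ≤ u * u ^ (j : ℕ) := by
        rw [← pow_succ']
        exact pow_le_pow_of_le_one hu0.le hu1 j.2
      calc u ^ J * ‖a j‖ ≤ (u * u ^ (j : ℕ)) * (C3 * (n * (‖t j‖ * (A * x) ^ n))) := by
            gcongr
            exact h2.trans (by gcongr)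
        _ = C3 * (n * A ^ n) * x ^ n * u * (u ^ (j : ℕ) * ‖t j‖) := by rw [mul_pow]; ring
        _ ≤ _ := by gcongr
    have h2 : ‖a‖ ≤ C3 * (n * A ^ n) * x ^ n * u * ‖b‖ / u ^ J := by
      refine (pi_norm_le_iff_of_nonneg (by positivity)).2 fun j ↦ ?_
      rw [le_div_iff₀ (by positivity), mul_comm]
      exact h1 j
    rw [le_div_iff₀ (by positivity)] at h2
    calc u ^ J * ‖v‖ ≤ u ^ J * (C2 * ‖a‖) := by gcongr; exact hT v
      _ = C2 * (‖a‖ * u ^ J) := by ring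
      _ ≤ C2 * (C3 * (n * A ^ n) * x ^ n * u * ‖b‖) := by gcongr
      _ = _ := by rw [hC4]; ring
  -- the remainder
  have hrem : ∀ s : ℂ, ‖s‖ ≤ 10 →
      ‖FF γ v (w0 + s) - EP b s‖ ≤ C5 * x ^ (2 * n) * u * ‖b‖ := by
    intro s hs
    have e1 : FF γ v (w0 + s) - EP b s = ∑ i, ∑ k, v i * ((γ i k (Complex.exp (w0 + s)) -
        ∑ j ∈ range J, α i k j * Complex.exp (w0 + s) ^ j) * (w0 + s) ^ (k : ℕ)) := by
      have e2 : EP b s = ∑ i, ∑ k, v i * ((∑ j ∈ range J, α i k j * Complex.exp (w0 + s) ^ j) *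
          (w0 + s) ^ (k : ℕ)) := by
        have e3 : ∀ j : Fin J, (∑ k, b j k * s ^ (k : ℕ)) * Complex.exp s ^ (j : ℕ)
            = ∑ i, ∑ k : Fin n, v i * (α i k j * Complex.exp (w0 + s) ^ (j : ℕ) *
              (w0 + s) ^ (k : ℕ)) := by
          intro j
          have e4 : ∑ k, b j k * s ^ (k : ℕ) =
              Complex.exp w0 ^ (j : ℕ) * ∑ k, a j k * (w0 + s) ^ (k : ℕ) := by
            rw [ht j s, mul_sum]
            exact sum_congr rfl fun k _ ↦ by simp only [hb]; ring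
          rw [e4, sum_comm, mul_sum, sum_mul]
          refine sum_congr rfl fun k _ ↦ ?_
          simp only [ha, sum_mul, mul_sum]
          refine sum_congr rfl fun i _ ↦ ?_
          rw [Complex.exp_add, mul_pow]; ring
        unfold EP
        simp only [e3]
        rw [sum_comm]
        refine sum_congr rfl fun i _ ↦ ?_
        rw [sum_comm]
        refine sum_congr rfl fun k _ ↦ ?_
        rw [← mul_sum, ← sum_mul, Fin.sum_univ_eq_sum_range
          (fun j ↦ α i k j * Complex.exp (w0 + s) ^ j) J]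
      rw [e2]
      unfold FF
      rw [← sum_sub_distrib]
      refine sum_congr rfl fun i _ ↦ ?_
      rw [mul_sum, ← sum_sub_distrib]
      exact sum_congr rfl fun k _ ↦ by ring
    have hes : ‖Complex.exp s‖ ≤ Real.exp 10 := by
      rw [Complex.norm_exp]
      exact Real.exp_le_exp.2 ((Complex.re_le_norm s).trans hs)
    have hU : ‖Complex.exp (w0 + s)‖ ≤ u * Real.exp 10 := by
      rw [Complex.exp_add, norm_mul]; gcongr
    have hU2 : ‖Complex.exp (w0 + s)‖ ≤ r / 2 := by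
      refine hU.trans ?_
      rw [hu, mul_assoc, ← Real.exp_add]
      have h1 : Real.exp (-11 - k + 10) ≤ Real.exp (-1) :=
        Real.exp_le_exp.2 (by linarith [(Nat.cast_nonneg k : (0 : ℝ) ≤ k)])
      have h2 : Real.exp (-1) ≤ 1 / 2 := Real.exp_neg_one_lt_half.le
      nlinarith
    have hws : ‖w0 + s‖ ≤ A * x := (norm_add_le _ _).trans (by linarith)
    rw [e1]
    calc _ ≤ ∑ i, ∑ k, K i k * (‖v‖ * ((u * Real.exp 10) ^ J * (A * x) ^ n)) := by
          refine (norm_sum_le _ _).trans (sum_le_sum fun i _ ↦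
            (norm_sum_le _ _).trans (sum_le_sum fun k _ ↦ ?_))
          rw [norm_mul, norm_mul, norm_pow]
          have h1 := hK i k _ hU2
          have h2 : ‖w0 + s‖ ^ (k : ℕ) ≤ (A * x) ^ n :=
            (pow_le_pow_left₀ (norm_nonneg _) hws _).trans (pow_le_pow_right₀ hAx k.2.le)
          have h3 := hK0 i k
          calc _ ≤ ‖v‖ * (K i k * (u * Real.exp 10) ^ J * (A * x) ^ n) := by
                gcongr
                · exact norm_le_pi_norm v i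
                · exact h1.trans (by gcongr)
            _ = _ := by ring
      _ = K0 * A ^ n * Real.exp 10 ^ J * x ^ n * (u ^ J * ‖v‖) := by
          simp only [← sum_mul]
          rw [mul_pow, mul_pow]; ring
      _ ≤ K0 * A ^ n * Real.exp 10 ^ J * x ^ n * (C4 * x ^ n * u * ‖b‖) := by gcongr
      _ = _ := by rw [hC5]; ring
  obtain ⟨s0, a1, a2, a3⟩ := hEP b
  set ε : ℝ := C5 * x ^ (2 * n) * u with hεdef
  have hb0 := norm_nonneg b
  have hF0 := norm_nonneg (FF γ v (w0 + s0))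
  have hεb : 2 * C1 * (ε * ‖b‖) ≤ ‖b‖ := by
    rw [← mul_assoc]; exact mul_le_of_le_one_left hb0 (by linarith)
  have hb1 : ‖b‖ ≤ 2 * C1 * ‖FF γ v (w0 + s0)‖ := by
    have h1 := hrem s0 (by linarith)
    have h2 : ‖EP b s0‖ ≤ ‖FF γ v (w0 + s0)‖ + ε * ‖b‖ := by
      have := norm_sub_norm_le (EP b s0) (FF γ v (w0 + s0))
      rw [norm_sub_rev] at this
      linarith
    have h3 := mul_le_mul_of_nonneg_left h2 hC1.le
    linarith
  have hex : 2 ≤ Real.exp x := by linarith [Real.add_one_le_exp x]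
  refine ⟨s0, a1, ?_, fun s hs ↦ ?_⟩
  · have h1 : u ^ J * ‖v‖ ≤ C4 * Real.exp x ^ n * (2 * C1 * ‖FF γ v (w0 + s0)‖) := by
      refine hlow.trans ?_
      have : x ≤ Real.exp x := by linarith [Real.add_one_le_exp x]
      calc C4 * x ^ n * u * ‖b‖ ≤ C4 * Real.exp x ^ n * 1 * (2 * C1 * ‖FF γ v (w0 + s0)‖) := by
            gcongr
        _ = _ := by ring
    have h2 : 1 ≤ u * (r⁻¹ * Real.exp 11 * Real.exp x) := by
      rw [hu, show r * Real.exp (-11 - k) * (r⁻¹ * Real.exp 11 * Real.exp x)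
        = Real.exp (-11 - k) * Real.exp 11 * Real.exp x by field_simp,
        ← Real.exp_add, ← Real.exp_add]
      exact Real.one_le_exp (by rw [hx]; linarith)
    have h3 : 1 ≤ u ^ J * (r⁻¹ * Real.exp 11 * Real.exp x) ^ J := by
      rw [← mul_pow]; exact one_le_pow₀ h2
    have h4 : 2 * C1 * C4 * (r⁻¹ * Real.exp 11) ^ J ≤ Real.exp x ^ N1 :=
      ((le_max_right _ _).trans hN1.le).trans (pow_le_pow_left₀ (by norm_num) hex _)
    calc ‖v‖ ≤ (u ^ J * (r⁻¹ * Real.exp 11 * Real.exp x) ^ J) * ‖v‖ :=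
          le_mul_of_one_le_left (norm_nonneg _) h3
      _ = (r⁻¹ * Real.exp 11 * Real.exp x) ^ J * (u ^ J * ‖v‖) := by ring
      _ ≤ (r⁻¹ * Real.exp 11 * Real.exp x) ^ J *
          (C4 * Real.exp x ^ n * (2 * C1 * ‖FF γ v (w0 + s0)‖)) := by gcongr
      _ = (2 * C1 * C4 * (r⁻¹ * Real.exp 11) ^ J) * Real.exp x ^ n * Real.exp x ^ J *
          ‖FF γ v (w0 + s0)‖ := by rw [mul_pow]; ring
      _ ≤ Real.exp x ^ N1 * Real.exp x ^ n * Real.exp x ^ J * ‖FF γ v (w0 + s0)‖ := by gcongr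
      _ = _ := by rw [pow_add, pow_add]
  · have h1 := hrem s hs
    have h2 := a3 s hs
    have h3 : ‖FF γ v (w0 + s)‖ ≤ C1 * ‖b‖ + ε * ‖b‖ := by
      have := norm_sub_norm_le (FF γ v (w0 + s)) (EP b s)
      linarith
    have h4 : ε * ‖b‖ ≤ ‖FF γ v (w0 + s0)‖ :=
      le_of_mul_le_mul_left (hεb.trans hb1) (by positivity)
    have h5 := mul_le_mul_of_nonneg_left hb1 hC1.le
    have h6 : 2 * C1 * C1 + 1 ≤ (2 : ℝ) ^ (N1 + n + J) :=
      ((le_max_left _ _).trans hN1.le).trans (pow_le_pow_right₀ (by norm_num) (by omega))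
    calc _ ≤ (2 * C1 * C1 + 1) * ‖FF γ v (w0 + s0)‖ := by linarith
      _ ≤ _ := by gcongr

theorem all {γ : I → Fin n → ℂ → ℂ} {r : ℝ} (hr : 0 < r)
    (hγ : ∀ i k, AnalyticOnNhd ℂ (γ i k) (ball 0 r))
    (hind : ∀ v : I → ℂ, (∀ w : ℂ, ‖Complex.exp w‖ < r → FF γ v w = 0) → v = 0) :
    ∃ N : ℕ, ∀ (k : ℕ) (l : ℤ), |l| ≤ 4 →
      St γ ((Real.log r - 11 - k : ℝ) + l * Complex.I) (Real.exp (k + 1)) N := by
  have hex : ∀ k : ℕ, 2 ≤ Real.exp (k + 1) := fun k ↦ by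
    linarith [Real.add_one_le_exp ((k : ℝ) + 1), (Nat.cast_nonneg k : (0 : ℝ) ≤ k)]
  obtain ⟨k0, N0, h0⟩ := large hr hγ hind (|Real.log r| + 25) (by linarith [abs_nonneg (Real.log r)])
  choose N1 h1 using fun p : ℕ × ℤ ↦ small hr hγ hind
    (w0 := (Real.log r - 11 - p.1 : ℝ) + p.2 * Complex.I)
    (by simp; linarith [(Nat.cast_nonneg p.1 : (0 : ℝ) ≤ p.1)]) (hex p.1)
  refine ⟨max N0 ((range k0 ×ˢ Icc (-4 : ℤ) 4).sup N1), fun k l hl ↦ ?_⟩
  rcases le_or_gt k0 k with hk | hk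
  · refine (h0 k hk _ ?_ ?_).mono (by linarith [hex k]) (le_max_left _ _)
    · rw [Complex.norm_exp]
      simp only [Complex.add_re, Complex.ofReal_re, Complex.mul_re, Complex.intCast_re,
        Complex.I_re, mul_zero, Complex.intCast_im, Complex.I_im, mul_one, sub_self, add_zero]
      rw [show Real.log r - 11 - k = Real.log r + (-11 - k) by ring, Real.exp_add, Real.exp_log hr]
    · have a1 := norm_add_le ((Real.log r - 11 - k : ℝ) : ℂ) (l * Complex.I)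
      rw [norm_mul, Complex.norm_I, mul_one, Complex.norm_intCast, Complex.norm_real,
        Real.norm_eq_abs] at a1
      have a2 : |(l : ℝ)| ≤ 4 := by exact_mod_cast hl
      have a3 : (0 : ℝ) ≤ k := Nat.cast_nonneg k
      have a4 : |Real.log r - 11 - k| ≤ |Real.log r| + 11 + k := by
        rw [abs_le]
        constructor <;> linarith [le_abs_self (Real.log r), neg_abs_le (Real.log r)]
      nlinarith [abs_nonneg (Real.log r)]
  · refine (h1 (k, l)).mono (by linarith [hex k]) (le_trans ?_ (le_max_right _ _))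
    refine le_sup (f := N1) ?_
    rw [mem_product, mem_range, mem_Icc]
    exact ⟨hk, abs_le.1 hl⟩

/-- functions analytic on a disc -/
def anRing (r : ℝ) : Subring (ℂ → ℂ) where
  carrier := {f | AnalyticOnNhd ℂ f (ball 0 r)}
  mul_mem' := fun ha hb ↦ ha.mul hb
  one_mem' := analyticOnNhd_const
  add_mem' := fun ha hb ↦ ha.add hb
  zero_mem' := analyticOnNhd_const
  neg_mem' := fun ha ↦ ha.neg

theorem decomp {κ : Type} [Fintype κ] (g : κ → ℂ → ℂ) (m : κ → ℂ) {r : ℝ}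
    (hg : ∀ i, AnalyticOnNhd ℂ (g i) (ball 0 r)) (e : ℕ) (d : κ →₀ ℕ) (hd : ∑ i, d i ≤ e) :
    ∃ γ : Fin (e + 1) → ℂ → ℂ, (∀ k, AnalyticOnNhd ℂ (γ k) (ball 0 r)) ∧ ∀ w u : ℂ,
      ∏ i, (m i * w + g i u) ^ d i = ∑ k, γ k u * w ^ (k : ℕ) := by
  let Q : Polynomial (anRing r) := ∏ i,
    (Polynomial.C (⟨fun _ ↦ m i, analyticOnNhd_const⟩ : anRing r) * Polynomial.X +
      Polynomial.C (⟨g i, hg i⟩ : anRing r)) ^ d i
  have hQ : Q.natDegree < e + 1 := by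
    refine Nat.lt_succ_of_le ((Polynomial.natDegree_prod_le _ _).trans (le_trans ?_ hd))
    refine sum_le_sum fun i _ ↦ Polynomial.natDegree_pow_le.trans ?_
    exact (Nat.mul_le_mul_left (d i) Polynomial.natDegree_linear_le).trans (by simp)
  refine ⟨fun k ↦ (Q.coeff k).1, fun k ↦ (Q.coeff k).2, fun w u ↦ ?_⟩
  let φ : anRing r →+* ℂ := (Pi.evalRingHom (fun _ : ℂ ↦ ℂ) u).comp (anRing r).subtype
  have h1 := Polynomial.eval₂_eq_sum_range' φ hQ w
  rw [Fin.sum_univ_eq_sum_range (fun k ↦ (Q.coeff k).1 u * w ^ k) (e + 1)]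
  refine Eq.trans ?_ h1
  simp [Q, Polynomial.eval₂_finsetProd, Polynomial.eval₂_pow, φ]

end NDC

theorem nd_cusp {κ : Type} [Fintype κ] (g : κ → ℂ → ℂ) (m : κ → ℂ) {r : ℝ} (hr : 0 < r)
    (hg : ∀ i, AnalyticOnNhd ℂ (g i) (ball 0 r))
    (hind : ∀ c : MvPolynomial κ ℂ, (∀ w : ℂ, ‖Complex.exp w‖ < r →
      MvPolynomial.eval (fun i ↦ m i * w + g i (Complex.exp w)) c = 0) → c = 0) :
    ∃ Cn : ℕ → ℕ, ∀ (k : ℕ) (l : ℤ), |l| ≤ 4 →
      NDeg (fun i s ↦ m i * ((Real.log r - 11 - k : ℝ) + l * Complex.I + s) +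
        g i (Complex.exp ((Real.log r - 11 - k : ℝ) + l * Complex.I + s))) Cn
        (Real.exp (k + 1)) := by
  classical
  have key : ∀ e : ℕ, ∃ N : ℕ, ∀ (k : ℕ) (l : ℤ), |l| ≤ 4 → ∀ c : MvPolynomial κ ℤ, c ≠ 0 →
      c.totalDegree ≤ e → ∃ s0 : ℂ, ‖s0‖ ≤ 2 ∧ 1 ≤ Real.exp (k + 1) ^ N *
        ‖MvPolynomial.aeval (fun i ↦ m i * ((Real.log r - 11 - k : ℝ) + l * Complex.I + s0) +
          g i (Complex.exp ((Real.log r - 11 - k : ℝ) + l * Complex.I + s0))) c‖ ∧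
        ∀ s : ℂ, ‖s‖ ≤ 10 →
          ‖MvPolynomial.aeval (fun i ↦ m i * ((Real.log r - 11 - k : ℝ) + l * Complex.I + s) +
            g i (Complex.exp ((Real.log r - 11 - k : ℝ) + l * Complex.I + s))) c‖ ≤ 2 ^ N *
          ‖MvPolynomial.aeval (fun i ↦ m i * ((Real.log r - 11 - k : ℝ) + l * Complex.I + s0) +
            g i (Complex.exp ((Real.log r - 11 - k : ℝ) + l * Complex.I + s0))) c‖ := by
    intro e
    let I : Finset (κ →₀ ℕ) := (Finsupp.finite_of_degree_le (σ := κ) e).toFinset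
    have hI : ∀ d : I, ∑ i, d.1 i ≤ e := fun d ↦ by
      have := d.2
      simp only [I, Set.Finite.mem_toFinset, Set.mem_ofPred_eq] at this
      rwa [Finsupp.degree_eq_sum] at this
    choose γ hγ1 hγ2 using fun d : I ↦ NDC.decomp g m hg e d.1 (hI d)
    have hF : ∀ (v : I → ℂ) (w : ℂ), NDC.FF γ v w =
        ∑ d : I, v d * ∏ i, (m i * w + g i (Complex.exp w)) ^ d.1 i := fun v w ↦ by
      unfold NDC.FF
      simp only [hγ2]
    obtain ⟨N, hN⟩ := NDC.all hr hγ1 fun v hv ↦ by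
      have h1 := hind (∑ d : I, MvPolynomial.monomial d.1 (v d)) fun w hw ↦ by
        rw [← hv w hw, hF, map_sum]
        refine sum_congr rfl fun d _ ↦ ?_
        rw [MvPolynomial.eval_monomial, Finsupp.prod_fintype _ _ (by simp)]
      funext d
      have h2 := congrArg (MvPolynomial.coeff d.1) h1
      rw [MvPolynomial.coeff_sum, Finset.sum_eq_single d] at h2
      · simpa using h2
      · intro d' _ hd'
        rw [MvPolynomial.coeff_monomial, if_neg fun e ↦ hd' (Subtype.ext e)]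
      · simp
    refine ⟨N, fun k l hl c hc he ↦ ?_⟩
    let v : I → ℂ := fun d ↦ (c.coeff d.1 : ℤ)
    have hsup : c.support ⊆ I := fun d hd ↦ by
      simp only [I, Set.Finite.mem_toFinset, Set.mem_ofPred_eq]
      exact (MvPolynomial.le_totalDegree hd).trans he
    have hv : ∀ w : ℂ, NDC.FF γ v w =
        MvPolynomial.aeval (fun i ↦ m i * w + g i (Complex.exp w)) c := fun w ↦ by
      rw [hF, MvPolynomial.aeval_def, MvPolynomial.eval₂_eq', sum_coe_sort I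
        (fun d ↦ ((c.coeff d : ℤ) : ℂ) * ∏ i, (m i * w + g i (Complex.exp w)) ^ d i)]
      refine (sum_subset hsup fun d _ hd ↦ ?_).symm
      rw [MvPolynomial.notMem_support_iff.1 hd]; simp
    obtain ⟨s0, a1, a2, a3⟩ := hN k l hl v
    simp only [hv] at a2 a3
    obtain ⟨d, hd⟩ := MvPolynomial.support_nonempty.2 hc
    have b1 : 1 ≤ ‖v‖ := by
      refine le_trans ?_ (norm_le_pi_norm v ⟨d, hsup hd⟩)
      simp only [v, Complex.norm_intCast]
      exact_mod_cast Int.one_le_abs (MvPolynomial.mem_support_iff.1 hd)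
    exact ⟨s0, a1, b1.trans a2, a3⟩
  choose Cn hCn using key
  exact ⟨Cn, fun k l hl e c hc he ↦ hCn e k l hl c hc he⟩

end Pool.Agent.Lib.ZP3
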