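import Pool.Agent.Lib.ZP3.CountCore
import Pool.Agent.Lib.ZP3.NdCusp
import Pool.Agent.Lib.ZP3.Chart
import Pool.Agent.Lib.ZP3.CurveA
import Pool.Agent.Lib.ZP3.Tiny
import Pool.Agent.Lib.ZP3.Core

/-! Block CNT: counting special points on a rational curve. -/

open UpperHalfPlane Filter Topology Metric
open scoped Real

namespace Pool.Agent.Lib.ZP3

open Pool.Agent.Lib.MP_0704bf_ag

theorem CNT.facts : CNT.Facts where
  nd_cusp g m _ hr hg hind := nd_cusp g m hr hg hind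
  lift _ _ _ _ h _ _ hx hy := h.lift hx hy
  symm _ _ _ h := h.symm
  trans _ _ _ _ _ h h' := h.trans h'
  chart_reg _ _ h _ ht := chart_reg h ht
  chart_cusp _ _ h _ _ hP := chart_cusp h hP
  ax_log _ _ h _ hU hc _ _ hφ hnc hf hj c h0 := ax_log h hU hc hφ hnc hf hj c h0
  normalize A B h := by
    obtain ⟨t0, A', B', h1, -, h2⟩ := normalize A B (fun i ↦ (h.1 i).2.2)
      (fun i ↦ Or.inr (h.1 i).2.1) h.2 (fun i _ _ ↦ Or.inl (h.1 i).1)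
      fun i h0 ↦ by simpa [h0] using (h.1 i).2.1
    exact ⟨t0, A', B', h1, h2⟩
  tiny_disc Cn _ hε := by
    obtain ⟨C, hC⟩ := tiny_disc Cn hε
    exact ⟨C, fun M f ↦ hC M f⟩
  count_core Cn _ hε := count_core Cn hε

theorem count {A B : Fin 3 → Polynomial ℂ} (h : Adm A B) {ε : ℝ} (hε : 0 < ε) :
    ∃ C : ℝ, ∀ (M : ℝ) (n1 n2 : ℕ) (S : Finset ℂ), 2 ≤ M → 0 < n1 → (n1 : ℝ) ≤ M → 0 < n2 →
      (n2 : ℝ) ≤ M → (∀ t ∈ S, NP B t ∧ Iso n1 (xv A B 0 t) (xv A B 1 t) ∧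
        Iso n2 (xv A B 0 t) (xv A B 2 t)) → (S.card : ℝ) ≤ C * M ^ ε :=
  CNT.count CNT.facts h hε

end Pool.Agent.Lib.ZP3
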