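import Pool.Agent.Lib.ZP3.DeepA
import Pool.Agent.Lib.ZP3.AxFinal

/-! Block DEEP: special points very close to the centre of a chart. -/

open UpperHalfPlane Filter Topology Metric
open scoped Real MatrixGroups

namespace Pool.Agent.Lib.ZP3

section DEEP
variable {κ : Type} [Fintype κ] [DecidableEq κ] {A B : κ → Polynomial ℂ}
  {P : ℂ} {E : ℕ} {m : κ → ℕ} {r : ℝ} {g : κ → ℂ → ℂ}

theorem deep_fin (h : Nice A B) (hN : NoMod A B) (hc : CuspD A B P E m r g) {s : κ ⊕ ℂ} {j : κ}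
    (hs : ∀ z, s = Sum.inr z → 0 < z.im) (hj : m j = 0) (hi : ∀ i, s = Sum.inl i → m i = 0)
    {ε : ℝ} (hε : 0 < ε) : ∃ (c : ℕ) (C : ℝ), ∀ (M : ℝ) (n : ℕ) (S : Finset ℂ), 2 ≤ M → 0 < n →
      (n : ℝ) ≤ M → (s = Sum.inl j → ¬ IsSquare n) →
      (∀ w ∈ S, w.re ≤ -(c * Real.log M) ∧ |w.im| ≤ π ∧
        Rel n (sv (fun i ↦ cf m g i w) s) (cf m g j w)) → (S.card : ℝ) ≤ C * M ^ ε :=
  Deep.deep_fin (fun _ _ _ h1 ↦ ax_indep h hN h1) hc hs hj hi hε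

theorem deep (h : Nice A B) (hN : NoMod A B) (hc : CuspD A B P E m r g) {s : κ ⊕ ℂ} {j : κ}
    (hs : ∀ z, s = Sum.inr z → 0 < z.im) (hj : 0 < m j ∨ ∃ i, s = Sum.inl i ∧ 0 < m i) :
    ∃ c C : ℕ, ∀ (M : ℝ) (n : ℕ) (S : Finset ℂ), 2 ≤ M → 0 < n →
      (n : ℝ) ≤ M → (s = Sum.inl j → ¬ IsSquare n) →
      (∀ w ∈ S, w.re ≤ -(c * M ^ 2) ∧ |w.im| ≤ π ∧
        Rel n (sv (fun i ↦ cf m g i w) s) (cf m g j w)) → S.card ≤ C :=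
  Deep.deep (fun _ _ _ h1 ↦ ax_indep h hN h1) hc hs hj

end DEEP

end Pool.Agent.Lib.ZP3
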