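import Pool.Agent.Lib.ZP3.Defs2

/-! Block ELIM: elimination of one variable from two fractional linear relations, with integer
coefficients of polynomial size. -/

namespace Pool.Agent.Lib.ZP3

namespace Elim

open Finset

/-- integer valued functions that are bounded by a power of the size of `y` -/
def PB {Ω : Type} (y : Ω → Fin 8 → ℤ) : Subring (Ω → ℤ) where
  carrier := {b | ∃ k : ℕ, ∀ (ω : Ω) (M : ℝ), 2 ≤ M → (∀ i, |(y ω i : ℝ)| ≤ M) →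
    |(b ω : ℝ)| ≤ M ^ k}
  mul_mem' := by
    rintro a b ⟨k, hk⟩ ⟨l, hl⟩
    refine ⟨k + l, fun ω M hM hy ↦ ?_⟩
    rw [Pi.mul_apply, Int.cast_mul, abs_mul, pow_add]
    exact mul_le_mul (hk ω M hM hy) (hl ω M hM hy) (abs_nonneg _) (by positivity)
  one_mem' := ⟨0, fun ω M _ _ ↦ by simp⟩
  add_mem' := by
    rintro a b ⟨k, hk⟩ ⟨l, hl⟩
    refine ⟨k + l + 1, fun ω M hM hy ↦ ?_⟩
    rw [Pi.add_apply, Int.cast_add]
    have h1 : M ^ k ≤ M ^ (k + l) := pow_le_pow_right₀ (by linarith) (by omega)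
    have h2 : M ^ l ≤ M ^ (k + l) := pow_le_pow_right₀ (by linarith) (by omega)
    have h3 : 0 ≤ M ^ (k + l) := by positivity
    have := abs_add_le (a ω : ℝ) (b ω)
    rw [pow_succ]
    nlinarith [hk ω M hM hy, hl ω M hM hy]
  zero_mem' := ⟨0, fun ω M _ _ ↦ by simp⟩
  neg_mem' := by
    rintro a ⟨k, hk⟩
    exact ⟨k, fun ω M hM hy ↦ by simpa using hk ω M hM hy⟩

variable {Ω : Type} {y : Ω → Fin 8 → ℤ}

/-- the coordinates of `y` -/
def yc (y : Ω → Fin 8 → ℤ) (i : Fin 8) : PB y :=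
  ⟨fun ω ↦ y ω i, 1, fun ω M _ h ↦ by simpa using h i⟩

lemma unif {ι : Type} [Fintype ι] (b : ι → PB y) : ∃ k : ℕ, ∀ (i : ι) (ω : Ω) (M : ℝ), 2 ≤ M →
    (∀ i, |(y ω i : ℝ)| ≤ M) → |((b i).1 ω : ℝ)| ≤ M ^ k := by
  have h : ∀ i, ∃ k : ℕ, ∀ (ω : Ω) (M : ℝ), 2 ≤ M → (∀ i, |(y ω i : ℝ)| ≤ M) →
      |((b i).1 ω : ℝ)| ≤ M ^ k := fun i ↦ (b i).2
  choose k hk using h
  refine ⟨∑ i, k i, fun i ω M hM hy ↦ (hk i ω M hM hy).trans ?_⟩
  exact pow_le_pow_right₀ (by linarith)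
    (single_le_sum (f := k) (fun _ _ ↦ Nat.zero_le _) (mem_univ i))

lemma smul_ap {R : Type} [CommRing R] (b : PB y) (f : Ω → R) (ω : Ω) :
    (b • f) ω = (b.1 ω : R) * f ω := by
  rw [Subring.smul_def, Pi.smul_apply', zsmul_eq_mul]

lemma siegel {α β : Type} [Fintype α] [Fintype β] (A : Matrix α β ℤ)
    (hn : Fintype.card α < Fintype.card β) (hm : 0 < Fintype.card α) {H : ℝ} (hH : 1 ≤ H)
    (hA : ∀ i j, |(A i j : ℝ)| ≤ H) : ∃ t : β → ℤ, t ≠ 0 ∧ A.mulVec t = 0 ∧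
      ∀ j, |(t j : ℝ)| ≤ (Fintype.card β * H) ^ Fintype.card α := by
  let _ : SeminormedAddCommGroup (Matrix α β ℤ) := Matrix.seminormedAddCommGroup
  obtain ⟨t, h0, h1, h2⟩ := Int.Matrix.exists_ne_zero_int_vec_norm_le A hn hm
  refine ⟨t, h0, h1, fun j ↦ ?_⟩
  have hA' : ‖A‖ ≤ H := (Matrix.norm_le_iff (by linarith)).2 fun i j ↦ by
    rw [Int.norm_eq_abs]; exact hA i j
  have hn' : (Fintype.card α : ℝ) + 1 ≤ Fintype.card β := by exact_mod_cast hn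
  have hm' : (0 : ℝ) ≤ Fintype.card α := Nat.cast_nonneg _
  have h3 : ‖t j‖ ≤ ‖t‖ := norm_le_pi_norm t j
  rw [Int.norm_eq_abs] at h3
  refine h3.trans (h2.trans ?_)
  have hb : (1 : ℝ) ≤ Fintype.card β * H := one_le_mul_of_one_le_of_one_le (by linarith) hH
  calc ((Fintype.card β : ℝ) * max 1 ‖A‖) ^
        ((Fintype.card α : ℝ) / (Fintype.card β - Fintype.card α))
      ≤ ((Fintype.card β : ℝ) * H) ^
        ((Fintype.card α : ℝ) / (Fintype.card β - Fintype.card α)) := by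
        refine Real.rpow_le_rpow (by positivity) ?_ (div_nonneg hm' (by linarith))
        exact mul_le_mul_of_nonneg_left (max_le hH hA') (Nat.cast_nonneg _)
    _ ≤ ((Fintype.card β : ℝ) * H) ^ (Fintype.card α : ℝ) :=
        Real.rpow_le_rpow_of_exponent_le hb (div_le_self hm' (by linarith))
    _ = _ := Real.rpow_natCast _ _

variable {κ : Type} [Fintype κ] [DecidableEq κ]

/-- monomials in the numbers `T l` -/
noncomputable def mono (T : Ω → κ → ℂ) (δ : κ → ℕ) : Ω → ℂ := fun ω ↦ ∏ l, T ω l ^ δ l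

/-- combinations of monomials with bounded exponents -/
noncomputable def W (y : Ω → Fin 8 → ℤ) (T : Ω → κ → ℂ) (d : κ → ℕ) : Submodule (PB y) (Ω → ℂ) :=
  Submodule.span (PB y) (mono T '' {δ | δ ≤ d})

variable {T : Ω → κ → ℂ}

omit [DecidableEq κ] in
lemma mono_add (δ δ' : κ → ℕ) : mono T (δ + δ') = mono T δ * mono T δ' := by
  funext ω
  simp only [mono, Pi.add_apply, pow_add, Pi.mul_apply, prod_mul_distrib]

omit [DecidableEq κ] in
lemma mono_mem {δ d : κ → ℕ} (h : δ ≤ d) : mono T δ ∈ W y T d :=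
  Submodule.subset_span ⟨δ, h, rfl⟩

omit [DecidableEq κ] in
lemma W_mono {d d' : κ → ℕ} (h : d ≤ d') {f : Ω → ℂ} (hf : f ∈ W y T d) : f ∈ W y T d' :=
  Submodule.span_mono (Set.image_mono fun _ hδ ↦ le_trans hδ h) hf

omit [DecidableEq κ] in
lemma W_mul {d d' : κ → ℕ} {f g : Ω → ℂ} (hf : f ∈ W y T d) (hg : g ∈ W y T d') :
    f * g ∈ W y T (d + d') := by
  have h := Submodule.mul_mem_mul hf hg
  rw [W, W, Submodule.span_mul_span] at h
  refine Submodule.span_mono ?_ h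
  rintro _ ⟨_, ⟨δ, hδ, rfl⟩, _, ⟨δ', hδ', rfl⟩, rfl⟩
  exact ⟨δ + δ', add_le_add (α := κ → ℕ) hδ hδ', mono_add δ δ'⟩

omit [DecidableEq κ] in
lemma one_mem (d : κ → ℕ) : (1 : Ω → ℂ) ∈ W y T d := by
  have : mono T 0 = 1 := by
    funext ω
    simp [mono]
  rw [← this]
  exact mono_mem fun l ↦ Nat.zero_le _

omit [DecidableEq κ] in
lemma W_pow {d : κ → ℕ} {f : Ω → ℂ} (hf : f ∈ W y T d) (n : ℕ) : f ^ n ∈ W y T (n • d) := by
  induction n with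
  | zero => rw [pow_zero]; exact one_mem _
  | succ n ih => rw [pow_succ, succ_nsmul]; exact W_mul ih hf

omit [DecidableEq κ] in
lemma W_prod {ι : Type} (s : Finset ι) {d : ι → κ → ℕ} {f : ι → Ω → ℂ}
    (hf : ∀ i ∈ s, f i ∈ W y T (d i)) : ∏ i ∈ s, f i ∈ W y T (∑ i ∈ s, d i) := by
  classical
  induction s using Finset.induction_on with
  | empty => rw [prod_empty]; exact one_mem _
  | insert a s ha ih =>
    rw [prod_insert ha, sum_insert ha]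
    exact W_mul (hf a (mem_insert_self a s)) (ih fun i hi ↦ hf i (mem_insert_of_mem hi))

lemma mono_single (l : κ) (n : ℕ) : mono T (Pi.single l n) = (fun ω ↦ T ω l) ^ n := by
  funext ω
  rw [mono, prod_eq_single l]
  · simp
  · intro b _ hb
    rw [Pi.single_eq_of_ne hb, pow_zero]
  · intro h
    exact absurd (mem_univ l) h

lemma lin_mem (l : κ) (a b : PB y) :
    a • (fun ω ↦ T ω l) + b • (1 : Ω → ℂ) ∈ W y T (Pi.single l 1) := by
  refine add_mem (Submodule.smul_mem _ _ ?_) (Submodule.smul_mem _ _ (one_mem _))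
  have := mono_mem (y := y) (T := T) (le_refl (Pi.single l 1 : κ → ℕ))
  rwa [mono_single, pow_one] at this

omit [Fintype κ] [DecidableEq κ] in
lemma red_self {j : κ} {a b c d : PB y}
    (h : ∀ ω, Mob (a.1 ω) (b.1 ω) (c.1 ω) (d.1 ω) (T ω j) (T ω j)) (n : ℕ) :
    ∃ u v : PB y, c ^ n • (fun ω ↦ T ω j) ^ n = v • (fun ω ↦ T ω j) + u • (1 : Ω → ℂ) := by
  induction n with
  | zero => exact ⟨1, 0, by simp⟩
  | succ n ih =>
    obtain ⟨u, v, e⟩ := ih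
    refine ⟨v * b, u * c + v * (a - d), ?_⟩
    funext ω
    have e1 := congrFun e ω
    have e2 := h ω
    unfold Mob at e2
    simp only [smul_ap, Pi.add_apply, Pi.pow_apply, Pi.one_apply, SubmonoidClass.coe_pow,
      Subring.coe_add, Subring.coe_mul, AddSubgroupClass.coe_sub, Pi.mul_apply, Pi.sub_apply,
      Int.cast_add, Int.cast_mul, Int.cast_sub, Int.cast_pow] at e1 ⊢
    rw [pow_succ, pow_succ]
    linear_combination (c.1 ω : ℂ) * T ω j * e1 + (v.1 ω : ℂ) * e2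

/-- one relation lowers the exponent of `T j` -/
lemma red {i j : κ} {a b c d : PB y}
    (h : ∀ ω, Mob (a.1 ω) (b.1 ω) (c.1 ω) (d.1 ω) (T ω i) (T ω j))
    (h1 : ∀ ω, (c.1 ω : ℂ) * T ω i + d.1 ω ≠ 0) (h2 : i = j → ∀ ω, c.1 ω ≠ 0) :
    ∃ D : Ω → ℂ, (∀ ω, D ω ≠ 0) ∧ ∀ N n, n ≤ N → D ^ N * (fun ω ↦ T ω j) ^ n ∈
      W y T (fun l ↦ if l = j then 1 else if l = i then N else 0) := by
  by_cases hij : i = j
  · subst hij
    refine ⟨c • 1, fun ω ↦ ?_, fun N n hn ↦ ?_⟩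
    · rw [smul_ap, Pi.one_apply, mul_one]
      exact_mod_cast h2 rfl ω
    · obtain ⟨u, v, e⟩ := red_self h n
      obtain ⟨r, rfl⟩ := Nat.exists_eq_add_of_le hn
      have e2 : (c • (1 : Ω → ℂ)) ^ (n + r) * (fun ω ↦ T ω i) ^ n =
          c ^ r • (c ^ n • (fun ω ↦ T ω i) ^ n) := by
        rw [smul_pow, one_pow, smul_mul_assoc, one_mul, smul_smul, ← pow_add, add_comm]
      rw [e2, e]
      refine Submodule.smul_mem _ _ (W_mono ?_ (lin_mem i v u))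
      intro l
      by_cases hl : l = i
      · subst hl; simp
      · simp [hl]
  · refine ⟨c • (fun ω ↦ T ω i) + d • 1, fun ω ↦ ?_, fun N n hn ↦ ?_⟩
    · simpa only [Pi.add_apply, smul_ap, Pi.one_apply, mul_one] using h1 ω
    · obtain ⟨r, rfl⟩ := Nat.exists_eq_add_of_le hn
      have e1 : (c • (fun ω ↦ T ω i) + d • (1 : Ω → ℂ)) * (fun ω ↦ T ω j) =
          a • (fun ω ↦ T ω i) + b • (1 : Ω → ℂ) := by
        funext ω
        have e2 := h ω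
        unfold Mob at e2
        simp only [Pi.mul_apply, Pi.add_apply, smul_ap, Pi.one_apply, mul_one]
        linear_combination e2
      have e2 : (c • (fun ω ↦ T ω i) + d • (1 : Ω → ℂ)) ^ (n + r) * (fun ω ↦ T ω j) ^ n =
          (a • (fun ω ↦ T ω i) + b • (1 : Ω → ℂ)) ^ n *
            (c • (fun ω ↦ T ω i) + d • (1 : Ω → ℂ)) ^ r := by
        rw [← e1, mul_pow, pow_add]
        ring
      rw [e2]
      refine W_mono ?_ (W_mul (W_pow (lin_mem i a b) n) (W_pow (lin_mem i c d) r))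
      intro l
      by_cases hl : l = i
      · subst hl; simp [hij]
      · simp [hl]

/-- the exponent bounds after the reduction -/
def cap (j1 j2 : κ) (N : ℕ) : κ → ℕ := fun l ↦ if l = j1 ∨ l = j2 then 1 else 3 * N

lemma red_two {i1 i2 j1 j2 : κ} (h12 : j1 ≠ j2) (h1 : i1 ≠ j2) (h2 : i2 ≠ j1) {D1 D2 : Ω → ℂ}
    {N : ℕ}
    (hD1 : ∀ n, n ≤ N → D1 * (fun ω ↦ T ω j1) ^ n ∈
      W y T (fun l ↦ if l = j1 then 1 else if l = i1 then N else 0))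
    (hD2 : ∀ n, n ≤ N → D2 * (fun ω ↦ T ω j2) ^ n ∈
      W y T (fun l ↦ if l = j2 then 1 else if l = i2 then N else 0))
    {f : Ω → ℂ} (hf : f ∈ W y T fun _ ↦ N) : D1 * D2 * f ∈ W y T (cap j1 j2 N) := by
  induction hf using Submodule.span_induction with
  | zero => rw [mul_zero]; exact zero_mem _
  | add f g _ _ hf hg => rw [mul_add]; exact add_mem hf hg
  | smul c f _ hf => rw [mul_smul_comm]; exact Submodule.smul_mem _ _ hf
  | mem f hf =>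
    obtain ⟨δ, hδ, rfl⟩ := hf
    have hδ' : ∀ l, δ l ≤ N := hδ
    have e : δ = Pi.single j1 (δ j1) + Pi.single j2 (δ j2) +
        fun l ↦ if l = j1 ∨ l = j2 then 0 else δ l := by
      funext l
      by_cases a1 : l = j1
      · subst a1; simp [h12]
      · by_cases a2 : l = j2
        · subst a2; simp [a1]
        · simp [a1, a2]
    have e2 : D1 * D2 * mono T δ = (D1 * (fun ω ↦ T ω j1) ^ δ j1) * (D2 * (fun ω ↦ T ω j2) ^ δ j2) *
        mono T fun l ↦ if l = j1 ∨ l = j2 then 0 else δ l := by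
      conv_lhs => rw [e]
      rw [mono_add, mono_add, mono_single, mono_single]
      ring
    rw [e2]
    refine W_mono ?_ (W_mul (W_mul (hD1 _ (hδ' j1)) (hD2 _ (hδ' j2))) (mono_mem le_rfl))
    intro l
    have := hδ' l
    simp only [Pi.add_apply, cap]
    by_cases a1 : l = j1
    · subst a1; simp [h12, h2.symm]
    · by_cases a2 : l = j2
      · subst a2; simp [a1, h1.symm]
      · simp only [a1, a2, if_false, or_self]
        split_ifs <;> omega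

lemma W_coef {d : κ → ℕ} {f : Ω → ℂ} (hf : f ∈ W y T d) :
    ∃ c : (∀ l, Fin (d l + 1)) → PB y, ∑ δ, c δ • mono T (fun l ↦ δ l) = f := by
  rw [← Submodule.mem_span_range_iff_exists_fun]
  refine Submodule.span_mono ?_ hf
  rintro _ ⟨δ, hδ, rfl⟩
  exact ⟨fun l ↦ ⟨δ l, Nat.lt_succ_of_le (hδ l)⟩, rfl⟩

lemma card_cap {j1 j2 : κ} (h12 : j1 ≠ j2) (N : ℕ) :
    Fintype.card (∀ l, Fin (cap j1 j2 N l + 1)) = 4 * (3 * N + 1) ^ (Fintype.card κ - 2) := by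
  rw [Fintype.card_pi]
  simp only [Fintype.card_fin]
  rw [← prod_sdiff (subset_univ {j1, j2}), prod_pair h12]
  have e : ∏ l ∈ univ \ {j1, j2}, (cap j1 j2 N l + 1) = ∏ _l ∈ univ \ {j1, j2}, (3 * N + 1) := by
    refine prod_congr rfl fun l hl ↦ ?_
    simp only [mem_sdiff, mem_univ, mem_insert, mem_singleton, true_and] at hl
    rw [cap, if_neg hl]
  rw [e, prod_const, card_univ_sdiff, card_pair h12]
  simp [cap, mul_comm]

/-- polynomial valued functions with coefficients of polynomial size -/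
noncomputable def V (y : Ω → Fin 8 → ℤ) (k0 : κ) : Submodule (PB y) (Ω → MvPolynomial κ ℂ) :=
  Submodule.span (PB y) {F | ∃ Ψ : MvPolynomial κ ℂ, k0 ∉ Ψ.vars ∧ F = fun _ ↦ Ψ}

omit [Fintype κ] in
lemma V_mul {k0 : κ} {F G : Ω → MvPolynomial κ ℂ} (hF : F ∈ V y k0) (hG : G ∈ V y k0) :
    F * G ∈ V y k0 := by
  have h := Submodule.mul_mem_mul hF hG
  rw [V, Submodule.span_mul_span] at h
  refine Submodule.span_mono ?_ h
  rintro _ ⟨_, ⟨Ψ, hΨ, rfl⟩, _, ⟨Ψ', hΨ', rfl⟩, rfl⟩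
  refine ⟨Ψ * Ψ', fun h ↦ ?_, rfl⟩
  rcases mem_union.1 (MvPolynomial.vars_mul Ψ Ψ' h) with h | h
  · exact hΨ h
  · exact hΨ' h

omit [Fintype κ] [DecidableEq κ] in
lemma V_C (k0 : κ) (c : ℂ) : (fun _ ↦ MvPolynomial.C c) ∈ V y k0 :=
  Submodule.subset_span ⟨_, by simp, rfl⟩

omit [Fintype κ] [DecidableEq κ] in
lemma V_X {k0 l : κ} (h : l ≠ k0) : (fun _ ↦ MvPolynomial.X l) ∈ V y k0 :=
  Submodule.subset_span ⟨_, by simp [h.symm], rfl⟩

omit [Fintype κ] [DecidableEq κ] in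
lemma V_lin (k0 : κ) {F : Ω → MvPolynomial κ ℂ} (hF : F ∈ V y k0) (a b : PB y) (c : ℂ) :
    a • F + b • (fun _ : Ω ↦ (MvPolynomial.C c : MvPolynomial κ ℂ)) ∈ V y k0 :=
  add_mem (Submodule.smul_mem _ _ hF) (Submodule.smul_mem _ _ (V_C k0 c))

omit [Fintype κ] [DecidableEq κ] in
lemma pack {k0 : κ} {F : Ω → MvPolynomial κ ℂ} (hF : F ∈ V y k0) :
    ∃ (n k : ℕ) (Ψ : Fin n → MvPolynomial κ ℂ), (∀ i, k0 ∉ (Ψ i).vars) ∧
      ∀ (ω : Ω) (M : ℝ), 2 ≤ M → (∀ i, |(y ω i : ℝ)| ≤ M) →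
        ∃ a : Fin n → ℤ, (∀ i, |(a i : ℝ)| ≤ M ^ k) ∧ ∑ i, a i • Ψ i = F ω := by
  obtain ⟨n, c, g, e⟩ := Submodule.mem_span_set'.1 hF
  have hg : ∀ i, ∃ Ψ : MvPolynomial κ ℂ, k0 ∉ Ψ.vars ∧ (g i).1 = fun _ ↦ Ψ := fun i ↦ (g i).2
  choose Ψ h1 h2 using hg
  obtain ⟨k, hk⟩ := unif c
  refine ⟨n, k, Ψ, h1, fun ω M hM hy ↦ ⟨fun i ↦ (c i).1 ω, fun i ↦ hk i ω M hM hy, ?_⟩⟩
  rw [← e, Finset.sum_apply]
  refine sum_congr rfl fun i _ ↦ ?_
  rw [smul_ap, h2, zsmul_eq_mul]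

/-- the exponent vector attached to a function on the indices other than `k0` -/
noncomputable def ex (k0 : κ) {e : ℕ} (α : {l // l ≠ k0} → Fin e) : κ →₀ ℕ :=
  Finsupp.equivFunOnFinite.symm fun l ↦ if h : l = k0 then 0 else α ⟨l, h⟩

lemma ex_apply (k0 : κ) {e : ℕ} (α : {l // l ≠ k0} → Fin e) (l : κ) :
    ex k0 α l = if h : l = k0 then 0 else (α ⟨l, h⟩ : ℕ) := rfl

lemma ex_inj (k0 : κ) (e : ℕ) : Function.Injective (ex k0 (e := e)) := by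
  intro α β h
  funext l
  have := DFunLike.congr_fun h l.1
  rw [ex_apply, ex_apply, dif_neg l.2, dif_neg l.2] at this
  exact Fin.ext this

lemma exists_elim {i1 i2 j1 j2 : κ} (h12 : j1 ≠ j2) (h1 : i1 ≠ j2) (h2 : i2 ≠ j1)
    (hR : ∀ ω, Rels (y ω) (T ω) (Sum.inl i1) j1 (Sum.inl i2) j2) (μ : κ → ℕ) (k0 : κ) :
    ∃ F ∈ V y k0, ∀ ω, F ω ≠ 0 ∧
      MvPolynomial.eval (fun l ↦ (μ k0 : ℂ) * T ω l - μ l * T ω k0) (F ω) = 0 := by
  obtain ⟨D1, hD1, hW1⟩ := red (y := y) (T := T) (i := i1) (j := j1) (a := yc y 0) (b := yc y 1)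
    (c := yc y 2) (d := yc y 3) (fun ω ↦ (hR ω).1) (fun ω ↦ (hR ω).2.2.1)
    (fun h ω ↦ (hR ω).2.2.2.2.1 (by rw [h]))
  obtain ⟨D2, hD2, hW2⟩ := red (y := y) (T := T) (i := i2) (j := j2) (a := yc y 4) (b := yc y 5)
    (c := yc y 6) (d := yc y 7) (fun ω ↦ (hR ω).2.1) (fun ω ↦ (hR ω).2.2.2.1)
    (fun h ω ↦ (hR ω).2.2.2.2.2 (by rw [h]))
  obtain ⟨r, hr⟩ : ∃ r, Fintype.card κ = r + 2 :=
    Nat.exists_eq_add_of_le' (Fintype.one_lt_card_iff.2 ⟨j1, j2, h12⟩)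
  set e : ℕ := 4 * (3 * (r + 2)) ^ r with he
  set N : ℕ := (r + 2) * e with hN
  set G : κ → Ω → ℂ := fun l ω ↦ (μ k0 : ℂ) * T ω l - μ l * T ω k0 with hG
  have hT : ∀ l, (fun ω ↦ T ω l) ∈ W y T fun _ ↦ 1 := fun l ↦ by
    have := mono_mem (y := y) (T := T) (δ := Pi.single l 1) (d := fun _ ↦ 1) (fun l' ↦ by
      by_cases h : l' = l
      · subst h; simp
      · simp [h])
    rwa [mono_single, pow_one] at this
  have hGW : ∀ l, G l ∈ W y T fun _ ↦ 1 := fun l ↦ by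
    have e1 : G l = μ k0 • (fun ω ↦ T ω l) - μ l • (fun ω ↦ T ω k0) := by
      funext ω
      simp [hG]
    rw [e1]
    exact sub_mem (nsmul_mem (hT l) _) (nsmul_mem (hT k0) _)
  have hmon : ∀ α : {l // l ≠ k0} → Fin (e + 1), ∃ c : (∀ l, Fin (cap j1 j2 N l + 1)) → PB y,
      ∑ δ, c δ • mono T (fun l ↦ δ l) = D1 ^ N * D2 ^ N * ∏ l, G l ^ ex k0 α l := by
    intro α
    refine W_coef (red_two h12 h1 h2 (hW1 N) (hW2 N) ?_)
    refine W_mono ?_ (W_prod univ fun l _ ↦ W_pow (hGW l) (ex k0 α l))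
    intro l
    rw [Finset.sum_apply]
    refine (sum_le_card_nsmul _ _ e fun l' _ ↦ ?_).trans (by simp [hr, hN])
    rw [ex_apply]
    split_ifs with h
    · simp
    · simpa using Nat.le_of_lt_succ (α ⟨l', h⟩).2
  choose c hc using hmon
  obtain ⟨k, hk⟩ := unif (fun p : ({l // l ≠ k0} → Fin (e + 1)) × (∀ l, Fin (cap j1 j2 N l + 1)) ↦
    c p.1 p.2)
  have hcard : Fintype.card (∀ l, Fin (cap j1 j2 N l + 1)) <
      Fintype.card ({l // l ≠ k0} → Fin (e + 1)) := by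
    rw [card_cap h12, Fintype.card_fun, Fintype.card_fin, Fintype.card_subtype_compl,
      Fintype.card_subtype_eq, hr]
    have a1 : 3 * N + 1 ≤ 3 * (r + 2) * (e + 1) := by rw [hN]; nlinarith
    calc 4 * (3 * N + 1) ^ (r + 2 - 2) ≤ 4 * (3 * (r + 2) * (e + 1)) ^ r :=
          Nat.mul_le_mul_left _ (Nat.pow_le_pow_left a1 _)
      _ = e * (e + 1) ^ r := by rw [mul_pow, ← mul_assoc]
      _ < (e + 1) * (e + 1) ^ r := Nat.mul_lt_mul_of_pos_right (Nat.lt_succ_self e) (by positivity)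
      _ = (e + 1) ^ (r + 2 - 1) := by rw [show r + 2 - 1 = r + 1 from rfl, pow_succ']
  have hsol : ∀ ω, ∃ t : ({l // l ≠ k0} → Fin (e + 1)) → ℤ, t ≠ 0 ∧
      (∀ δ, ∑ α, (c α δ).1 ω * t α = 0) ∧ ∀ M : ℝ, 2 ≤ M → (∀ i, |(y ω i : ℝ)| ≤ M) →
        ∀ α, |(t α : ℝ)| ≤ M ^ ((Fintype.card ({l // l ≠ k0} → Fin (e + 1)) + k) *
          Fintype.card (∀ l, Fin (cap j1 j2 N l + 1))) := by
    intro ω
    set M0 : ℝ := max 2 (univ.sup' univ_nonempty fun i ↦ |(y ω i : ℝ)|) with hM0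
    have b1 : 2 ≤ M0 := le_max_left _ _
    have b2 : ∀ i, |(y ω i : ℝ)| ≤ M0 := fun i ↦
      (le_sup' (fun i ↦ |(y ω i : ℝ)|) (mem_univ i)).trans (le_max_right _ _)
    obtain ⟨t, t0, t1, t2⟩ := siegel (Matrix.of fun δ α ↦ (c α δ).1 ω) hcard Fintype.card_pos
      (H := M0 ^ k) (one_le_pow₀ (by linarith)) fun δ α ↦ hk (α, δ) ω M0 b1 b2
    refine ⟨t, t0, fun δ ↦ congrFun t1 δ, fun M hM hy α ↦ (t2 α).trans ?_⟩
    have b3 : M0 ≤ M := max_le hM (sup'_le _ _ fun i _ ↦ hy i)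
    rw [pow_mul, pow_add]
    refine pow_le_pow_left₀ (by positivity) (mul_le_mul ?_
      (pow_le_pow_left₀ (by linarith) b3 _) (by positivity) (by positivity)) _
    refine le_trans ?_ (pow_le_pow_left₀ (by norm_num) hM _)
    exact_mod_cast Nat.lt_two_pow_self.le
  choose t t0 t1 t2 using hsol
  let tb : ({l // l ≠ k0} → Fin (e + 1)) → PB y := fun α ↦
    ⟨fun ω ↦ t ω α, _, fun ω M hM hy ↦ t2 ω M hM hy α⟩
  refine ⟨∑ α, tb α • fun _ ↦ MvPolynomial.monomial (ex k0 α) (1 : ℂ), ?_, fun ω ↦ ?_⟩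
  · refine Submodule.sum_mem _ fun α _ ↦ Submodule.smul_mem _ _ (Submodule.subset_span ⟨_, ?_, rfl⟩)
    rw [MvPolynomial.vars_monomial one_ne_zero, Finsupp.mem_support_iff, ex_apply, dif_pos rfl]
    simp
  · have eF : (∑ α, tb α • fun _ : Ω ↦ MvPolynomial.monomial (ex k0 α) (1 : ℂ)) ω =
        ∑ α, MvPolynomial.monomial (ex k0 α) (t ω α : ℂ) := by
      rw [Finset.sum_apply]
      refine sum_congr rfl fun α _ ↦ ?_
      rw [smul_ap, ← map_intCast (MvPolynomial.C : ℂ →+* MvPolynomial κ ℂ),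
        MvPolynomial.C_mul_monomial, mul_one]
    rw [eF]
    constructor
    · intro h0
      refine t0 ω (funext fun α ↦ ?_)
      have := congrArg (MvPolynomial.coeff (ex k0 α)) h0
      rw [MvPolynomial.coeff_sum, sum_eq_single α, MvPolynomial.coeff_monomial, if_pos rfl,
        MvPolynomial.coeff_zero] at this
      · exact_mod_cast this
      · intro β _ hβ
        rw [MvPolynomial.coeff_monomial, if_neg fun h ↦ hβ (ex_inj k0 _ h)]
      · intro h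
        exact absurd (mem_univ α) h
    · have hne : D1 ω ^ N * D2 ω ^ N ≠ 0 := mul_ne_zero (pow_ne_zero _ (hD1 ω)) (pow_ne_zero _ (hD2 ω))
      refine (mul_eq_zero.1 ?_).resolve_left hne
      rw [map_sum, mul_sum]
      have e1 : ∀ α : {l // l ≠ k0} → Fin (e + 1), D1 ω ^ N * D2 ω ^ N *
          MvPolynomial.eval (fun l ↦ (μ k0 : ℂ) * T ω l - μ l * T ω k0)
            (MvPolynomial.monomial (ex k0 α) (t ω α : ℂ)) =
          ∑ δ, (((c α δ).1 ω * t ω α : ℤ) : ℂ) * mono T (fun l ↦ δ l) ω := by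
        intro α
        have e2 := congrFun (hc α) ω
        simp only [Finset.sum_apply, smul_ap, Pi.mul_apply, Pi.pow_apply, Finset.prod_apply] at e2
        rw [MvPolynomial.eval_monomial, Finsupp.prod_fintype _ _ fun l ↦ pow_zero _, mul_left_comm]
        change (t ω α : ℂ) * (D1 ω ^ N * D2 ω ^ N * ∏ l, G l ω ^ ex k0 α l) = _
        rw [← e2, mul_sum]
        refine sum_congr rfl fun δ _ ↦ ?_
        push_cast
        ring
      rw [sum_congr rfl fun α _ ↦ e1 α, sum_comm]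
      refine sum_eq_zero fun δ _ ↦ ?_
      rw [← sum_mul, ← Int.cast_sum, t1 ω δ, Int.cast_zero, zero_mul]

omit [Fintype κ] in
lemma exists_elimB {c : ℂ} {s2 : κ ⊕ ℂ} {j1 j2 : κ} (h12 : j1 ≠ j2) (h2 : s2 ≠ Sum.inl j1)
    (hR : ∀ ω, Rels (y ω) (T ω) (Sum.inr c) j1 s2 j2) (μ : κ → ℕ) (hk : 0 < μ j1) :
    ∃ F ∈ V y j1, ∀ ω, F ω ≠ 0 ∧
      MvPolynomial.eval (fun l ↦ (μ j1 : ℂ) * T ω l - μ l * T ω j1) (F ω) = 0 := by
  set D : Ω → MvPolynomial κ ℂ :=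
    yc y 2 • (fun _ : Ω ↦ (MvPolynomial.C c : MvPolynomial κ ℂ)) +
      yc y 3 • (fun _ : Ω ↦ (MvPolynomial.C 1 : MvPolynomial κ ℂ)) with hD
  set N : Ω → MvPolynomial κ ℂ :=
    yc y 0 • (fun _ : Ω ↦ (MvPolynomial.C c : MvPolynomial κ ℂ)) +
      yc y 1 • (fun _ : Ω ↦ (MvPolynomial.C 1 : MvPolynomial κ ℂ)) with hN
  have hDV : D ∈ V y j1 := V_lin j1 (V_C j1 c) _ _ _
  have hNV : N ∈ V y j1 := V_lin j1 (V_C j1 c) _ _ _
  set E : Ω → MvPolynomial κ ℂ := μ j1 • D with hE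
  have hEV : E ∈ V y j1 := nsmul_mem hDV _
  set H : κ ⊕ ℂ → Ω → MvPolynomial κ ℂ := Sum.elim
    (fun l ↦ D * (fun _ ↦ MvPolynomial.X l) + μ l • N) (fun z ↦ E * fun _ ↦ MvPolynomial.C z)
    with hH
  have hHV : ∀ s, s ≠ Sum.inl j1 → H s ∈ V y j1 := by
    rintro (l | z) hs
    · exact add_mem (V_mul hDV (V_X fun h ↦ hs (by rw [h]))) (nsmul_mem hNV _)
    · exact V_mul hEV (V_C j1 z)
  set F : Ω → MvPolynomial κ ℂ := H (Sum.inl j2) * (yc y 6 • H s2 + yc y 7 • E) -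
    E * (yc y 4 • H s2 + yc y 5 • E) with hF
  have hj2 : (Sum.inl j2 : κ ⊕ ℂ) ≠ Sum.inl j1 := fun h ↦ h12 (Sum.inl_injective h).symm
  have hFV : F ∈ V y j1 :=
    sub_mem (V_mul (hHV _ hj2) (add_mem (Submodule.smul_mem _ _ (hHV _ h2))
      (Submodule.smul_mem _ _ hEV))) (V_mul hEV (add_mem (Submodule.smul_mem _ _ (hHV _ h2))
      (Submodule.smul_mem _ _ hEV)))
  refine ⟨F, hFV, fun ω ↦ ?_⟩
  obtain ⟨r1, r2, d1, d2, -, d4⟩ := hR ω
  have r1' : T ω j1 * ((y ω 2 : ℂ) * c + y ω 3) = y ω 0 * c + y ω 1 := r1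
  have d1' : (y ω 2 : ℂ) * c + y ω 3 ≠ 0 := d1
  unfold Mob at r2
  have key : ∀ T' : κ → ℂ, T' j1 = T ω j1 →
      MvPolynomial.eval (fun l ↦ (μ j1 : ℂ) * T' l - μ l * T' j1) (F ω) =
        ((μ j1 : ℂ) * ((y ω 2 : ℂ) * c + y ω 3)) ^ 2 *
          (T' j2 * ((y ω 6 : ℂ) * sv T' s2 + y ω 7) - (y ω 4 * sv T' s2 + y ω 5)) := by
    intro T' hT'
    set ev := MvPolynomial.eval (fun l ↦ (μ j1 : ℂ) * T' l - μ l * T' j1) with hev
    have eD : ev (D ω) = (y ω 2 : ℂ) * c + y ω 3 := by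
      simp [hD, hev, smul_ap, yc]
    have eN : ev (N ω) = (y ω 0 : ℂ) * c + y ω 1 := by
      simp [hN, hev, smul_ap, yc]
    have eE : ev (E ω) = μ j1 * ((y ω 2 : ℂ) * c + y ω 3) := by
      rw [hE, Pi.smul_apply, map_nsmul, eD, nsmul_eq_mul]
    have eH : ∀ s, ev (H s ω) = μ j1 * ((y ω 2 : ℂ) * c + y ω 3) * sv T' s := by
      rintro (l | z)
      · simp only [hH, Sum.elim_inl, Pi.add_apply, Pi.mul_apply, map_add, map_mul,
          Pi.natCast_apply, map_natCast, eD, eN, nsmul_eq_mul, sv]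
        rw [hev, MvPolynomial.eval_X, ← r1', hT']
        ring
      · simp only [hH, Sum.elim_inr, Pi.mul_apply, map_mul, eE, sv, id]
        rw [hev, MvPolynomial.eval_C]
    simp only [hF, Pi.sub_apply, Pi.mul_apply, Pi.add_apply, smul_ap, map_sub, map_mul, map_add,
      eH, eE, map_intCast, yc]
    simp only [sv, Sum.elim_inl]
    ring
  have hμ : ((μ j1 : ℂ) * ((y ω 2 : ℂ) * c + y ω 3)) ^ 2 ≠ 0 :=
    pow_ne_zero _ (mul_ne_zero (by exact_mod_cast hk.ne') d1')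
  constructor
  · intro h0
    have key' : ∀ x : ℂ, x * ((y ω 6 : ℂ) * sv (Function.update (T ω) j2 x) s2 + y ω 7) -
        (y ω 4 * sv (Function.update (T ω) j2 x) s2 + y ω 5) = 0 := by
      intro x
      have := key (Function.update (T ω) j2 x) (Function.update_of_ne h12 _ _)
      rw [h0, map_zero, Function.update_self] at this
      exact (mul_eq_zero.1 this.symm).resolve_left hμ
    by_cases hs : s2 = Sum.inl j2
    · have e : ∀ x : ℂ, sv (Function.update (T ω) j2 x) s2 = x := fun x ↦ by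
        rw [hs]; simp [sv]
      have a0 := key' 0
      have a1 := key' 1
      have a2 := key' (-1)
      rw [e] at a0 a1 a2
      have : (y ω 6 : ℂ) = 0 := by linear_combination (a1 + a2 - 2 * a0) / 2
      exact d4 hs (by exact_mod_cast this)
    · have e : ∀ x : ℂ, sv (Function.update (T ω) j2 x) s2 = sv (T ω) s2 := fun x ↦ by
        rcases s2 with l | z
        · have : l ≠ j2 := fun h ↦ hs (by rw [h])
          simp [sv, this]
        · rfl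
      have a0 := key' 0
      have a1 := key' 1
      rw [e] at a0 a1
      exact d2 (by linear_combination a1 - a0)
  · rw [key (T ω) rfl, r2, sub_self, mul_zero]

end Elim

section ELIM
variable {κ : Type} [Fintype κ] [DecidableEq κ] {j1 j2 : κ}

theorem elimA {i1 i2 : κ} (h2 : Two (Sum.inl i1) j1 (Sum.inl i2) j2) (μ : κ → ℕ) {k0 : κ}
    (hk : 0 < μ k0) : ∃ (n k : ℕ) (Ψ : Fin n → MvPolynomial κ ℂ), (∀ i, k0 ∉ (Ψ i).vars) ∧
    ∀ (M : ℝ) (y : Fin 8 → ℤ) (T : κ → ℂ), 2 ≤ M → (∀ i, |(y i : ℝ)| ≤ M) →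
      Rels y T (Sum.inl i1) j1 (Sum.inl i2) j2 →
      ∃ a : Fin n → ℤ, (∀ i, |(a i : ℝ)| ≤ M ^ k) ∧ ∑ i, a i • Ψ i ≠ 0 ∧
        MvPolynomial.eval (fun l ↦ (μ k0 : ℂ) * T l - μ l * T k0) (∑ i, a i • Ψ i) = 0 := by
  have _ := hk
  obtain ⟨F, hF, h⟩ := Elim.exists_elim
    (Ω := {p : (Fin 8 → ℤ) × (κ → ℂ) // Rels p.1 p.2 (Sum.inl i1) j1 (Sum.inl i2) j2})
    (y := fun ω ↦ ω.1.1) (T := fun ω ↦ ω.1.2) h2.1 (fun h ↦ h2.2.1 (by rw [h]))
    (fun h ↦ h2.2.2 (by rw [h])) (fun ω ↦ ω.2) μ k0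
  obtain ⟨n, k, Ψ, h1, h3⟩ := Elim.pack hF
  refine ⟨n, k, Ψ, h1, fun M y T hM hy hR ↦ ?_⟩
  obtain ⟨a, ha, e⟩ := h3 ⟨(y, T), hR⟩ M hM hy
  exact ⟨a, ha, by rw [e]; exact h ⟨(y, T), hR⟩⟩

omit [Fintype κ] in
theorem elimB {c : ℂ} {s2 : κ ⊕ ℂ} (h2 : Two (Sum.inr c) j1 s2 j2) (μ : κ → ℕ) (hk : 0 < μ j1) :
    ∃ (n k : ℕ) (Ψ : Fin n → MvPolynomial κ ℂ), (∀ i, j1 ∉ (Ψ i).vars) ∧
    ∀ (M : ℝ) (y : Fin 8 → ℤ) (T : κ → ℂ), 2 ≤ M → (∀ i, |(y i : ℝ)| ≤ M) →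
      Rels y T (Sum.inr c) j1 s2 j2 →
      ∃ a : Fin n → ℤ, (∀ i, |(a i : ℝ)| ≤ M ^ k) ∧ ∑ i, a i • Ψ i ≠ 0 ∧
        MvPolynomial.eval (fun l ↦ (μ j1 : ℂ) * T l - μ l * T j1) (∑ i, a i • Ψ i) = 0 := by
  obtain ⟨F, hF, h⟩ := Elim.exists_elimB
    (Ω := {p : (Fin 8 → ℤ) × (κ → ℂ) // Rels p.1 p.2 (Sum.inr c) j1 s2 j2})
    (y := fun ω ↦ ω.1.1) (T := fun ω ↦ ω.1.2) h2.1 h2.2.2 (fun ω ↦ ω.2) μ hk
  obtain ⟨n, k, Ψ, h1, h3⟩ := Elim.pack hF
  refine ⟨n, k, Ψ, h1, fun M y T hM hy hR ↦ ?_⟩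
  obtain ⟨a, ha, e⟩ := h3 ⟨(y, T), hR⟩ M hM hy
  exact ⟨a, ha, by rw [e]; exact h ⟨(y, T), hR⟩⟩

end ELIM

end Pool.Agent.Lib.ZP3
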