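import Mathlib

/-! Block WIN: the logarithms of the values of integer combinations of bounded height, and of the
moduli of the zeros of integer combinations of analytic functions, lie in boundedly many short
windows. -/

open Filter Topology Metric

namespace Pool.Agent.Lib.ZP3

namespace WIN

/-- a set of reals without `n + 1` separated points is covered by `n` windows -/
theorem cover_of_sep (V : Set ℝ) {δ : ℝ} (hδ : 0 ≤ δ) (n : ℕ)
    (h : ∀ W : Finset ℝ, (∀ x ∈ W, x ∈ V) → (∀ x ∈ W, ∀ y ∈ W, x ≠ y → δ < |x - y|) →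
      W.card ≤ n) :
    ∃ W : Finset ℝ, W.card ≤ n ∧ ∀ v ∈ V, ∃ ρ ∈ W, |v - ρ| ≤ δ := by
  classical
  let P : ℕ → Prop := fun k ↦ ∃ W : Finset ℝ, (∀ x ∈ W, x ∈ V) ∧
    (∀ x ∈ W, ∀ y ∈ W, x ≠ y → δ < |x - y|) ∧ W.card = k
  have h0 : P 0 := ⟨∅, by simp, by simp, rfl⟩
  obtain ⟨W, hV, hs, hc⟩ : P (Nat.findGreatest P n) := Nat.findGreatest_spec (Nat.zero_le n) h0
  refine ⟨W, h W hV hs, fun v hv ↦ ?_⟩
  by_contra hcon
  push Not at hcon
  have hvW : v ∉ W := fun hm ↦ by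
    have := hcon v hm
    simp at this
    linarith
  have hV' : ∀ x ∈ insert v W, x ∈ V := by
    intro x hx
    rcases Finset.mem_insert.mp hx with rfl | hx
    · exact hv
    · exact hV x hx
  have hs' : ∀ x ∈ insert v W, ∀ y ∈ insert v W, x ≠ y → δ < |x - y| := by
    intro x hx y hy hxy
    rcases Finset.mem_insert.mp hx with rfl | hx'
    · rcases Finset.mem_insert.mp hy with rfl | hy'
      · exact absurd rfl hxy
      · exact hcon y hy'
    · rcases Finset.mem_insert.mp hy with rfl | hy'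
      · rw [abs_sub_comm]; exact hcon x hx'
      · exact hs x hx' y hy' hxy
  have hcard : (insert v W).card = Nat.findGreatest P n + 1 := by
    rw [Finset.card_insert_of_notMem hvW, hc]
  have hle := h _ hV' hs'
  exact Nat.findGreatest_is_greatest (P := P) (n := n) (k := Nat.findGreatest P n + 1)
    (Nat.lt_succ_self _) (hcard ▸ hle) ⟨_, hV', hs', hcard⟩

attribute [local instance] Matrix.seminormedAddCommGroup in
/-- `n + 1` integer vectors of height `H` in `ℤ ^ n` satisfy a small integer relation -/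
theorem small_rel {n : ℕ} (hn : 0 < n) {H : ℝ} (hH : 1 ≤ H) (a : Fin (n + 1) → Fin n → ℤ)
    (ha : ∀ j i, |(a j i : ℝ)| ≤ H) : ∃ t : Fin (n + 1) → ℤ, t ≠ 0 ∧
      (∀ i, ∑ j, a j i * t j = 0) ∧ ∀ j, |(t j : ℝ)| ≤ ((n + 1) * H) ^ n := by
  let Am : Matrix (Fin n) (Fin (n + 1)) ℤ := fun i j ↦ a j i
  obtain ⟨t, ht0, htA, htn⟩ := Int.Matrix.exists_ne_zero_int_vec_norm_le Am (by simp) (by simpa)
  refine ⟨t, ht0, fun i ↦ congrFun htA i, fun j ↦ ?_⟩
  have hAn : ‖Am‖ ≤ H := by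
    rw [Matrix.norm_le_iff (by positivity)]
    intro i j
    rw [Int.norm_eq_abs]
    exact ha j i
  have hmax : max 1 ‖Am‖ ≤ H := max_le hH hAn
  have h1 : ‖t j‖ ≤ ‖t‖ := norm_le_pi_norm t j
  simp only [Fintype.card_fin, Nat.cast_add, Nat.cast_one, add_sub_cancel_left, div_one,
    Real.rpow_natCast] at htn
  rw [Int.norm_eq_abs] at h1
  refine h1.trans (htn.trans ?_)
  gcongr

/-- the form window with a constant depending only on the number of variables -/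
theorem form_window' (n : ℕ) : ∃ C : ℕ, ∀ (T : Fin n → ℂ) (H : ℝ), 2 ≤ H → ∃ W : Finset ℝ,
    W.card ≤ C ∧ ∀ a : Fin n → ℤ, (∀ i, |(a i : ℝ)| ≤ H) → ∑ i, (a i : ℂ) * T i ≠ 0 →
      ∃ ρ ∈ W, |Real.log ‖∑ i, (a i : ℂ) * T i‖ - ρ| ≤ C * Real.log H := by
  classical
  rcases Nat.eq_zero_or_pos n with rfl | hn
  · exact ⟨0, fun T H _ ↦ ⟨∅, by simp, fun a _ h ↦ by simp at h⟩⟩
  refine ⟨(n + 1) * (n + 1) + n, fun T H hH ↦ ?_⟩
  have hH1 : (1 : ℝ) ≤ H := by linarith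
  have hlH : 0 ≤ Real.log H := Real.log_nonneg hH1
  set K : ℝ := (n + 1) * ((n + 1) * H) ^ n with hK
  have hn1 : (1 : ℝ) ≤ n + 1 := by have : (0 : ℝ) ≤ n := by positivity
                                   linarith
  have hK1 : 1 ≤ K := one_le_mul_of_one_le_of_one_le hn1
    (one_le_pow₀ (one_le_mul_of_one_le_of_one_le hn1 hH1))
  have hlog : Real.log K ≤ (((n + 1) * (n + 1) + n : ℕ) : ℝ) * Real.log H := by
    have e1 : (n + 1 : ℝ) ≤ H ^ (n + 1) := by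
      have h2 : ((n + 1 : ℕ) : ℝ) ≤ 2 ^ (n + 1) := by
        exact_mod_cast (Nat.lt_two_pow_self (n := n + 1)).le
      push_cast at h2
      exact h2.trans (by gcongr)
    have e2 : K ≤ H ^ ((n + 1) * (n + 1) + n) := by
      calc K = (n + 1) ^ (n + 1) * H ^ n := by rw [hK, mul_pow]; ring
        _ ≤ (H ^ (n + 1)) ^ (n + 1) * H ^ n := by gcongr
        _ = _ := by rw [← pow_mul, ← pow_add]
    calc Real.log K ≤ Real.log (H ^ ((n + 1) * (n + 1) + n)) :=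
          Real.log_le_log (by linarith) e2
      _ = _ := by rw [Real.log_pow]
  let V : Set ℝ := {v | ∃ a : Fin n → ℤ, (∀ i, |(a i : ℝ)| ≤ H) ∧ ∑ i, (a i : ℂ) * T i ≠ 0 ∧
    v = Real.log ‖∑ i, (a i : ℂ) * T i‖}
  obtain ⟨W, hW, hc⟩ := cover_of_sep V (Real.log_nonneg hK1) n (by
    intro W hV hs
    by_contra hcon
    push Not at hcon
    obtain ⟨W', hW', hcard⟩ := Finset.exists_subset_card_eq (s := W) (n := n + 1) hcon
    let e : Fin (n + 1) ≃ W' := (Finset.equivFinOfCardEq hcard).symm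
    have hv : ∀ j, (e j : ℝ) ∈ V := fun j ↦ hV _ (hW' (e j).2)
    choose a ha hne hlg using hv
    obtain ⟨t, ht0, hrel, htb⟩ := small_rel hn hH1 a ha
    set z : Fin (n + 1) → ℂ := fun j ↦ ∑ i, (a j i : ℂ) * T i with hz
    have hsum : ∑ j, (t j : ℂ) * z j = 0 := by
      simp only [hz, Finset.mul_sum]
      rw [Finset.sum_comm]
      refine Finset.sum_eq_zero fun i _ ↦ ?_
      have := congrArg (fun x : ℤ ↦ (x : ℂ) * T i) (hrel i)
      simp only [Int.cast_sum, Int.cast_mul, Int.cast_zero, zero_mul, Finset.sum_mul] at this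
      rw [← this]
      exact Finset.sum_congr rfl fun j _ ↦ by ring
    have hS : (Finset.univ.filter fun j ↦ t j ≠ 0).Nonempty := by
      obtain ⟨j, hj⟩ := Function.ne_iff.mp ht0
      exact ⟨j, by simpa using hj⟩
    obtain ⟨j0, hj0, hmax⟩ := Finset.exists_max_image _ (fun j ↦ ‖z j‖) hS
    have hj0' : t j0 ≠ 0 := by simpa using hj0
    have hz0 : 0 < ‖z j0‖ := norm_pos_iff.mpr (hne j0)
    have hsmall : ∀ j, j ≠ j0 → ‖(t j : ℂ) * z j‖ ≤ ‖z j0‖ / (n + 1) := by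
      intro j hj
      by_cases htj : t j = 0
      · simp only [htj, Int.cast_zero, zero_mul, norm_zero]; positivity
      have hle : ‖z j‖ ≤ ‖z j0‖ := hmax j (by simpa using htj)
      have hzj : 0 < ‖z j‖ := norm_pos_iff.mpr (hne j)
      have hsep := hs (e j0) (hW' (e j0).2) (e j) (hW' (e j).2)
        (fun hh ↦ hj (e.injective (Subtype.ext hh)).symm)
      rw [hlg j0, hlg j] at hsep
      have hl : Real.log ‖z j‖ ≤ Real.log ‖z j0‖ := Real.log_le_log hzj hle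
      rw [abs_of_nonneg (by simpa [hz] using sub_nonneg.mpr hl)] at hsep
      have hKz : K * ‖z j‖ ≤ ‖z j0‖ := by
        rw [← Real.log_le_log_iff (by positivity) hz0, Real.log_mul (by linarith) hzj.ne']
        simp only [hz]
        linarith
      rw [norm_mul, Complex.norm_intCast, le_div_iff₀ (by linarith)]
      calc |(t j : ℝ)| * ‖z j‖ * (n + 1) ≤ ((n + 1) * H) ^ n * ‖z j‖ * (n + 1) := by
            gcongr; exact htb j
        _ = K * ‖z j‖ := by rw [hK]; ring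
        _ ≤ _ := hKz
    rw [← Finset.add_sum_erase _ _ (Finset.mem_univ j0)] at hsum
    have e1 : ‖(t j0 : ℂ) * z j0‖ = ‖∑ j ∈ Finset.univ.erase j0, (t j : ℂ) * z j‖ := by
      rw [eq_neg_of_add_eq_zero_left hsum, norm_neg]
    have e2 : ‖∑ j ∈ Finset.univ.erase j0, (t j : ℂ) * z j‖ ≤ n * (‖z j0‖ / (n + 1)) := by
      refine (norm_sum_le _ _).trans ?_
      refine (Finset.sum_le_card_nsmul _ _ (‖z j0‖ / (n + 1)) fun j hj ↦
        hsmall j (Finset.ne_of_mem_erase hj)).trans ?_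
      simp
    have e3 : ‖z j0‖ ≤ ‖(t j0 : ℂ) * z j0‖ := by
      rw [norm_mul, Complex.norm_intCast]
      have : (1 : ℝ) ≤ |(t j0 : ℝ)| := by
        rw [← Int.cast_abs]; exact_mod_cast Int.one_le_abs hj0'
      nlinarith
    have e4 : n * (‖z j0‖ / (n + 1)) < ‖z j0‖ := by
      rw [← mul_div_assoc, div_lt_iff₀ (by linarith)]
      nlinarith
    linarith)
  refine ⟨W, hW.trans (by omega), fun a ha hne ↦ ?_⟩
  obtain ⟨ρ, hρ, hb⟩ := hc _ ⟨a, ha, hne, rfl⟩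
  exact ⟨ρ, hρ, hb.trans hlog⟩

/-- reduction of one germ against a system of germs with distinct orders -/
theorem step (E : Finset ℕ) (h : ℕ → ℂ → ℂ) (hh : ∀ e, AnalyticAt ℂ (h e) 0 ∧ h e 0 ≠ 0) (N : ℕ)
    (hN : ∀ e ∈ E, e < N) (k : ℕ) : ∀ (m : ℕ) (ψ : ℂ → ℂ), AnalyticAt ℂ ψ 0 → N ≤ m + k →
      ∃ c : ℕ → ℂ, (∀ᶠ u in 𝓝 (0 : ℂ), u ^ m * ψ u = ∑ e ∈ E, c e * (u ^ e * h e u)) ∨
        ∃ (e' : ℕ) (h' : ℂ → ℂ), e' ∉ E ∧ AnalyticAt ℂ h' 0 ∧ h' 0 ≠ 0 ∧
          ∀ᶠ u in 𝓝 (0 : ℂ), u ^ m * ψ u = ∑ e ∈ E, c e * (u ^ e * h e u) + u ^ e' * h' u := by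
  classical
  induction k with
  | zero =>
    intro m ψ hψ hm
    refine ⟨0, ?_⟩
    by_cases h0 : ∀ᶠ u in 𝓝 (0 : ℂ), ψ u = 0
    · left
      filter_upwards [h0] with u hu
      simp [hu]
    · right
      obtain ⟨j, g, hg, hg0, he⟩ := hψ.exists_eventuallyEq_pow_smul_nonzero_iff.mpr h0
      refine ⟨m + j, g, fun hmem ↦ ?_, hg, hg0, ?_⟩
      · have := hN _ hmem
        omega
      · filter_upwards [he] with u hu
        simp [hu, pow_add, mul_assoc]
  | succ k ih =>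
    intro m ψ hψ hm
    by_cases hc : m ∉ E ∧ ψ 0 ≠ 0
    · exact ⟨0, Or.inr ⟨m, ψ, hc.1, hψ, hc.2, by simp⟩⟩
    set l : ℂ := ψ 0 / h m 0 with hl
    set ψ2 : ℂ → ℂ := fun u ↦ ψ u - l * h m u with hψ2
    have a2 : AnalyticAt ℂ ψ2 0 := hψ.sub (analyticAt_const.mul (hh m).1)
    have z2 : ψ2 0 = 0 := by
      simp only [hψ2, hl]
      rw [div_mul_cancel₀ _ (hh m).2, sub_self]
    have a1 : AnalyticAt ℂ (dslope ψ2 0) 0 := by
      obtain ⟨p, hp⟩ := a2
      exact ⟨_, hp.has_fpower_series_dslope_fslope⟩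
    have e1 : ∀ u, ψ u = l * h m u + u * dslope ψ2 0 u := by
      intro u
      have := sub_smul_dslope ψ2 0 u
      rw [z2, sub_zero, sub_zero, smul_eq_mul] at this
      rw [this]
      simp [hψ2]
    have e2 : ∀ u : ℂ, ∑ e ∈ E, (if e = m then l else 0) * (u ^ e * h e u) =
        l * (u ^ m * h m u) := by
      intro u
      by_cases hmE : m ∈ E
      · simp [ite_mul, hmE]
      · have : ψ 0 = 0 := by
          by_contra hne
          exact hc ⟨hmE, hne⟩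
        simp [hl, this]
    obtain ⟨c, hc'⟩ := ih (m + 1) _ a1 (by omega)
    have e3 : ∀ u : ℂ, ∑ e ∈ E, (c e + if e = m then l else 0) * (u ^ e * h e u) =
        ∑ e ∈ E, c e * (u ^ e * h e u) + l * (u ^ m * h m u) := by
      intro u
      rw [← e2, ← Finset.sum_add_distrib]
      exact Finset.sum_congr rfl fun e _ ↦ by ring
    refine ⟨fun e ↦ c e + if e = m then l else 0, ?_⟩
    rcases hc' with hc' | ⟨e', h', he', ha', h0', hc'⟩
    · left
      filter_upwards [hc'] with u hu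
      rw [e3, ← hu, e1 u]
      ring
    · right
      refine ⟨e', h', he', ha', h0', ?_⟩
      filter_upwards [hc'] with u hu
      rw [e3, e1 u]
      linear_combination hu

/-- finitely many analytic germs are combinations of germs with distinct orders -/
theorem basis (n : ℕ) : ∀ φ : Fin n → ℂ → ℂ, (∀ i, AnalyticAt ℂ (φ i) 0) →
    ∃ (E : Finset ℕ) (h : ℕ → ℂ → ℂ) (c : ℕ → Fin n → ℂ),
      (∀ e, AnalyticAt ℂ (h e) 0 ∧ h e 0 ≠ 0) ∧
      ∀ i, ∀ᶠ u in 𝓝 (0 : ℂ), φ i u = ∑ e ∈ E, c e i * (u ^ e * h e u) := by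
  classical
  induction n with
  | zero =>
    intro φ _
    exact ⟨∅, fun _ _ ↦ 1, fun _ _ ↦ 0, fun _ ↦ ⟨analyticAt_const, one_ne_zero⟩,
      fun i ↦ i.elim0⟩
  | succ n ih =>
    intro φ hφ
    obtain ⟨E, h, c, hh, hc⟩ := ih (fun i ↦ φ i.succ) fun i ↦ hφ i.succ
    obtain ⟨d, hd⟩ := step E h hh (E.sup id + 1)
      (fun e he ↦ Nat.lt_succ_of_le (Finset.le_sup (f := id) he)) (E.sup id + 1) 0 (φ 0) (hφ 0)
      (by omega)
    rcases hd with hd | ⟨e', h', he', ha', h0', hd⟩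
    · refine ⟨E, h, fun e ↦ Fin.cons (d e) (c e), hh, fun i ↦ ?_⟩
      refine Fin.cases ?_ (fun i ↦ ?_) i
      · filter_upwards [hd] with u hu
        simpa using hu
      · simpa using hc i
    · refine ⟨insert e' E, Function.update h e' h',
        fun e ↦ if e = e' then Fin.cons 1 0 else Fin.cons (d e) (c e), fun e ↦ ?_, fun i ↦ ?_⟩
      · by_cases hee : e = e'
        · subst hee
          simpa using ⟨ha', h0'⟩
        · simpa [Function.update_of_ne hee] using hh e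
      · have hne : ∀ e ∈ E, e ≠ e' := fun e he hee ↦ he' (hee ▸ he)
        refine Fin.cases ?_ (fun i ↦ ?_) i
        · filter_upwards [hd] with u hu
          simp only [pow_zero, one_mul] at hu
          rw [Finset.sum_insert he', hu, add_comm (∑ e ∈ E, d e * (u ^ e * h e u))]
          symm
          rw [add_comm, add_comm (u ^ e' * h' u)]
          symm
          congr 1
          · exact Finset.sum_congr rfl fun e he ↦ by
              simp [hne e he]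
          · simp
        · filter_upwards [hc i] with u hu
          rw [Finset.sum_insert he', hu]
          simp only [if_true, Fin.cons_succ, Pi.zero_apply, zero_mul, zero_add]
          exact Finset.sum_congr rfl fun e he ↦ by
            simp [hne e he]

/-- in a vanishing sum with a nonzero term two terms are comparable -/
theorem two_terms {E : Finset ℕ} (t : ℕ → ℂ) (hs : ∑ e ∈ E, t e = 0) (hne : ∃ e ∈ E, t e ≠ 0) :
    ∃ e0 ∈ E, ∃ e1 ∈ E, e0 ≠ e1 ∧ t e0 ≠ 0 ∧ t e1 ≠ 0 ∧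
      |Real.log ‖t e0‖ - Real.log ‖t e1‖| ≤ E.card := by
  classical
  obtain ⟨e, he, hte⟩ := hne
  obtain ⟨e0, he0, hmax⟩ := Finset.exists_max_image E (fun e ↦ ‖t e‖) ⟨e, he⟩
  have h0 : 0 < ‖t e0‖ := (norm_pos_iff.mpr hte).trans_le (hmax e he)
  have hc : (1 : ℝ) ≤ E.card := by exact_mod_cast Finset.card_pos.mpr ⟨e, he⟩
  obtain ⟨e1, he1, hb⟩ : ∃ e1 ∈ E.erase e0, ‖t e0‖ / E.card ≤ ‖t e1‖ := by
    by_contra hcon
    push Not at hcon
    rw [← Finset.add_sum_erase _ _ he0] at hs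
    have e1 : ‖t e0‖ = ‖∑ j ∈ E.erase e0, t j‖ := by
      rw [eq_neg_of_add_eq_zero_left hs, norm_neg]
    have e2 : ‖∑ j ∈ E.erase e0, t j‖ ≤ (E.card - 1) * (‖t e0‖ / E.card) := by
      refine (norm_sum_le _ _).trans ?_
      refine (Finset.sum_le_card_nsmul _ _ (‖t e0‖ / E.card) fun j hj ↦ (hcon j hj).le).trans ?_
      rw [Finset.card_erase_of_mem he0, nsmul_eq_mul,
        Nat.cast_sub (Finset.card_pos.mpr ⟨e, he⟩), Nat.cast_one]
    have e3 : (E.card - 1) * (‖t e0‖ / E.card) < ‖t e0‖ := by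
      rw [← mul_div_assoc, div_lt_iff₀ (by linarith)]
      nlinarith
    linarith
  have h1 : 0 < ‖t e1‖ := lt_of_lt_of_le (by positivity) hb
  have hm1 := Finset.mem_of_mem_erase he1
  refine ⟨e0, he0, e1, hm1, (Finset.ne_of_mem_erase he1).symm, norm_pos_iff.mp h0,
    norm_pos_iff.mp h1, ?_⟩
  have l1 : Real.log ‖t e1‖ ≤ Real.log ‖t e0‖ := Real.log_le_log h1 (hmax e1 hm1)
  have l2 : Real.log (‖t e0‖ / E.card) ≤ Real.log ‖t e1‖ := Real.log_le_log (by positivity) hb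
  rw [Real.log_div h0.ne' (by linarith)] at l2
  have l3 : Real.log E.card ≤ E.card := (Real.log_le_sub_one_of_pos (by linarith)).trans
    (by linarith)
  rw [abs_of_nonneg (by linarith)]
  linarith

end WIN

theorem form_window {n : ℕ} (T : Fin n → ℂ) : ∃ C : ℕ, ∀ H : ℝ, 2 ≤ H → ∃ W : Finset ℝ,
    W.card ≤ C ∧ ∀ a : Fin n → ℤ, (∀ i, |(a i : ℝ)| ≤ H) → ∑ i, (a i : ℂ) * T i ≠ 0 →
      ∃ ρ ∈ W, |Real.log ‖∑ i, (a i : ℂ) * T i‖ - ρ| ≤ C * Real.log H := by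
  obtain ⟨C, hC⟩ := WIN.form_window' n
  exact ⟨C, hC T⟩

theorem window {n : ℕ} (φ : Fin n → ℂ → ℂ) {r : ℝ} (hr : 0 < r)
    (hφ : ∀ i, AnalyticOnNhd ℂ (φ i) (ball 0 r)) : ∃ C : ℕ, ∀ H : ℝ, 2 ≤ H → ∃ W : Finset ℝ,
    W.card ≤ C ∧ ∀ (a : Fin n → ℤ) (u : ℂ), (∀ i, |(a i : ℝ)| ≤ H) →
      (∃ v ∈ ball (0 : ℂ) r, ∑ i, (a i : ℂ) * φ i v ≠ 0) → u ≠ 0 → ‖u‖ ≤ r / 2 →
      ∑ i, (a i : ℂ) * φ i u = 0 → ∃ ρ ∈ W, |Real.log ‖u‖ - ρ| ≤ C * Real.log H := by
  classical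
  obtain ⟨C0, hC0⟩ := WIN.form_window' n
  obtain ⟨E, h, c, hh, hc⟩ := WIN.basis n φ fun i ↦ hφ i 0 (mem_ball_self hr)
  have hlog : ∀ e, ∀ᶠ u in 𝓝 (0 : ℂ), h e u ≠ 0 ∧
      |Real.log ‖h e u‖| ≤ |Real.log ‖h e 0‖| + 1 := by
    intro e
    have c1 : ContinuousAt (h e) 0 := (hh e).1.continuousAt
    have c2 : ContinuousAt (fun u ↦ |Real.log ‖h e u‖|) 0 :=
      (c1.norm.log (norm_ne_zero_iff.mpr (hh e).2)).abs
    filter_upwards [c1.eventually_ne (hh e).2,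
      c2.eventually (gt_mem_nhds (lt_add_one |Real.log ‖h e 0‖|))] with u h1 h2
    exact ⟨h1, h2.le⟩
  have hall : ∀ᶠ u in 𝓝 (0 : ℂ), (∀ i, φ i u = ∑ e ∈ E, c e i * (u ^ e * h e u)) ∧
      ∀ e ∈ E, h e u ≠ 0 ∧ |Real.log ‖h e u‖| ≤ |Real.log ‖h e 0‖| + 1 :=
    (eventually_all.mpr hc).and ((eventually_all_finset E).mpr fun e _ ↦ hlog e)
  obtain ⟨r1, hr1, hb⟩ := Metric.eventually_nhds_iff.mp hall
  set B : ℝ := ∑ e ∈ E, (|Real.log ‖h e 0‖| + 1) with hB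
  have hBe : ∀ e ∈ E, |Real.log ‖h e 0‖| + 1 ≤ B := fun e he ↦
    Finset.single_le_sum (f := fun e ↦ |Real.log ‖h e 0‖| + 1) (fun _ _ ↦ by positivity) he
  have hB0 : 0 ≤ B := Finset.sum_nonneg fun _ _ ↦ by positivity
  obtain ⟨D, hD⟩ := exists_nat_ge (E.card + 2 * B + |Real.log (r / 2) - Real.log r1|)
  refine ⟨1 + E.card * E.card * ((E.card * C0) * (E.card * C0)) + 2 * C0 + 2 * D,
    fun H hH ↦ ?_⟩
  have hlH : 1 / 2 ≤ Real.log H := by
    have := Real.log_le_log (by norm_num) hH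
    linarith [Real.log_two_gt_d9]
  choose W hW hWc using fun e ↦ hC0 (c e) H hH
  set W' : Finset ℝ := E.biUnion W with hW'
  have hW'c : W'.card ≤ E.card * C0 := Finset.card_biUnion_le_card_mul _ _ _ fun e _ ↦ hW e
  have hbig : ∀ x : ℝ, x ≤ D + 2 * C0 * Real.log H → x ≤
      ((1 + E.card * E.card * ((E.card * C0) * (E.card * C0)) + 2 * C0 + 2 * D : ℕ) : ℝ) *
        Real.log H := by
    intro x hx
    push_cast
    have h1 : (0 : ℝ) ≤ (1 + E.card * E.card * ((E.card * C0) * (E.card * C0))) * Real.log H := by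
      have : 0 ≤ Real.log H := by linarith
      positivity
    have h2 : (D : ℝ) ≤ 2 * D * Real.log H := by
      have : (0 : ℝ) ≤ D := by positivity
      nlinarith
    linarith
  refine ⟨insert (Real.log r1) (((E ×ˢ E) ×ˢ (W' ×ˢ W')).image
    fun q ↦ (q.2.2 - q.2.1) / ((q.1.1 : ℝ) - q.1.2)), ?_, ?_⟩
  · refine (Finset.card_insert_le _ _).trans ?_
    have h1 := Finset.card_image_le (s := (E ×ˢ E) ×ˢ (W' ×ˢ W'))
      (f := fun q ↦ (q.2.2 - q.2.1) / ((q.1.1 : ℝ) - q.1.2))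
    simp only [Finset.card_product] at h1
    have h2 : E.card * E.card * (W'.card * W'.card) ≤
        E.card * E.card * ((E.card * C0) * (E.card * C0)) := by gcongr
    omega
  intro a u ha ⟨v, hv, hv0⟩ hu0 hur hz
  have hun : 0 < ‖u‖ := norm_pos_iff.mpr hu0
  have hC0l : 0 ≤ 2 * (C0 : ℝ) * Real.log H := by
    have : 0 ≤ Real.log H := by linarith
    positivity
  by_cases hu1 : r1 ≤ ‖u‖
  · refine ⟨Real.log r1, Finset.mem_insert_self _ _, hbig _ ?_⟩
    have l1 : Real.log r1 ≤ Real.log ‖u‖ := Real.log_le_log hr1 hu1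
    have l2 : Real.log ‖u‖ ≤ Real.log (r / 2) := Real.log_le_log hun hur
    have l3 := le_abs_self (Real.log (r / 2) - Real.log r1)
    have l4 : (0 : ℝ) ≤ E.card := by positivity
    rw [abs_of_nonneg (by linarith)]
    linarith
  push Not at hu1
  have hexp : ∀ w : ℂ, ‖w‖ < r1 → ∑ i, (a i : ℂ) * φ i w =
      ∑ e ∈ E, (∑ i, (a i : ℂ) * c e i) * (w ^ e * h e w) := by
    intro w hw
    have := (hb (y := w) (by simpa using hw)).1
    simp only [this, Finset.mul_sum, Finset.sum_mul]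
    rw [Finset.sum_comm]
    exact Finset.sum_congr rfl fun e _ ↦ Finset.sum_congr rfl fun i _ ↦ by ring
  have hu2 := (hb (y := u) (by simpa using hu1)).2
  have hT : ∃ e ∈ E, ∑ i, (a i : ℂ) * c e i ≠ 0 := by
    by_contra hcon
    push Not at hcon
    have an : AnalyticOnNhd ℂ (fun w ↦ ∑ i, (a i : ℂ) * φ i w) (ball 0 r) := fun w hw ↦
      Finset.analyticAt_fun_sum _ fun i _ ↦ analyticAt_const.mul (hφ i w hw)
    have ev : (fun w ↦ ∑ i, (a i : ℂ) * φ i w) =ᶠ[𝓝 0] 0 := by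
      filter_upwards [ball_mem_nhds (0 : ℂ) hr1] with w hw
      rw [hexp w (by simpa using hw)]
      exact Finset.sum_eq_zero fun e he ↦ by rw [hcon e he, zero_mul]
    exact hv0 (an.eqOn_zero_of_preconnected_of_eventuallyEq_zero
      (convex_ball _ _).isPreconnected (mem_ball_self hr) ev hv)
  obtain ⟨e0, he0, e1, he1, hne, h0, h1, hcmp⟩ := WIN.two_terms (E := E)
    (fun e ↦ (∑ i, (a i : ℂ) * c e i) * (u ^ e * h e u)) (by rw [← hexp u hu1, hz]) (by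
      obtain ⟨e, he, hTe⟩ := hT
      exact ⟨e, he, mul_ne_zero hTe (mul_ne_zero (pow_ne_zero _ hu0) (hu2 e he).1)⟩)
  have lg : ∀ e ∈ E, (∑ i, (a i : ℂ) * c e i) ≠ 0 →
      Real.log ‖(∑ i, (a i : ℂ) * c e i) * (u ^ e * h e u)‖ =
        Real.log ‖∑ i, (a i : ℂ) * c e i‖ + (e * Real.log ‖u‖ + Real.log ‖h e u‖) := by
    intro e he hTe
    have n1 : ‖h e u‖ ≠ 0 := norm_ne_zero_iff.mpr (hu2 e he).1
    rw [norm_mul, norm_mul, norm_pow, Real.log_mul (norm_ne_zero_iff.mpr hTe)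
      (mul_ne_zero (pow_ne_zero _ hun.ne') n1), Real.log_mul (pow_ne_zero _ hun.ne') n1,
      Real.log_pow]
  have T0 := left_ne_zero_of_mul h0
  have T1 := left_ne_zero_of_mul h1
  obtain ⟨ρ0, hρ0, b0⟩ := hWc e0 a ha T0
  obtain ⟨ρ1, hρ1, b1⟩ := hWc e1 a ha T1
  rw [lg e0 he0 T0, lg e1 he1 T1] at hcmp
  refine ⟨(ρ1 - ρ0) / ((e0 : ℝ) - e1), Finset.mem_insert_of_mem (Finset.mem_image.mpr
    ⟨((e0, e1), (ρ0, ρ1)), ?_, rfl⟩), hbig _ ?_⟩
  · simp only [Finset.mem_product, hW', Finset.mem_biUnion]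
    exact ⟨⟨he0, he1⟩, ⟨e0, he0, hρ0⟩, e1, he1, hρ1⟩
  have hd : (1 : ℝ) ≤ |(e0 : ℝ) - e1| := by
    have : (1 : ℤ) ≤ |(e0 : ℤ) - e1| := Int.one_le_abs (sub_ne_zero.mpr (by exact_mod_cast hne))
    exact_mod_cast this
  have hd0 : (e0 : ℝ) - e1 ≠ 0 := fun hh0 ↦ by rw [hh0] at hd; norm_num at hd
  have e5 : Real.log ‖u‖ - (ρ1 - ρ0) / ((e0 : ℝ) - e1) =
      (((e0 : ℝ) - e1) * Real.log ‖u‖ - (ρ1 - ρ0)) / ((e0 : ℝ) - e1) := by
    field_simp
  have g0 := ((hu2 e0 he0).2).trans (hBe e0 he0)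
  have g1 := ((hu2 e1 he1).2).trans (hBe e1 he1)
  have key : |((e0 : ℝ) - e1) * Real.log ‖u‖ - (ρ1 - ρ0)| ≤ D + 2 * C0 * Real.log H := by
    have l3 := abs_nonneg (Real.log (r / 2) - Real.log r1)
    rw [abs_le] at hcmp b0 b1 g0 g1 ⊢
    constructor <;> linarith [hcmp.1, hcmp.2, b0.1, b0.2, b1.1, b1.2, g0.1, g0.2, g1.1, g1.2]
  rw [e5, abs_div]
  exact (div_le_self (abs_nonneg _) hd).trans key

end Pool.Agent.Lib.ZP3
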