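import Pool.Agent.Lib.ZP3.Ent
import Pool.Agent.Lib.ZP3.Chart2
import Pool.Agent.Lib.ZP3.AxFinal
import Pool.Agent.Lib.ZP3.Elim
import Pool.Agent.Lib.ZP3.Window

/-! Block MID: points with two relations at intermediate depth lie in boundedly many windows. -/

open UpperHalfPlane Filter Topology Metric
open scoped Real MatrixGroups

namespace Pool.Agent.Lib.ZP3

namespace MID

variable {κ : Type} [Fintype κ] [DecidableEq κ] {A B : κ → Polynomial ℂ}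
  {P : ℂ} {E : ℕ} {m : κ → ℕ} {r : ℝ} {g : κ → ℂ → ℂ}

omit [Fintype κ] [DecidableEq κ] in
theorem analytic_eval {F : κ → ℂ → ℂ} {U : Set ℂ} (hF : ∀ l, AnalyticOnNhd ℂ (F l) U)
    (c : MvPolynomial κ ℂ) : AnalyticOnNhd ℂ (fun u ↦ MvPolynomial.eval (fun l ↦ F l u) c) U := by
  induction c using MvPolynomial.induction_on with
  | C a => simpa using analyticOnNhd_const
  | add p q hp hq =>
    simp only [map_add]
    exact hp.add hq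
  | mul_X p l hp =>
    simp only [map_mul, MvPolynomial.eval_X]
    exact hp.mul (hF l)

omit [Fintype κ] [DecidableEq κ] in
theorem eval_sum {n : ℕ} (a : Fin n → ℤ) (Ψ : Fin n → MvPolynomial κ ℂ) (x : κ → ℂ) :
    MvPolynomial.eval x (∑ i, a i • Ψ i) = ∑ i, (a i : ℂ) * MvPolynomial.eval x (Ψ i) := by
  simp [map_sum, zsmul_eq_mul]

omit [Fintype κ] [DecidableEq κ] in
theorem cf_comb (k0 l : κ) (w : ℂ) : (m k0 : ℂ) * cf m g l w - m l * cf m g k0 w =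
    m k0 * g l (Complex.exp w) - m l * g k0 (Complex.exp w) := by
  unfold cf
  ring

theorem nonvanish (h : Nice A B) (hN : NoMod A B) (hc : CuspD A B P E m r g) {k0 : κ}
    (hk : 0 < m k0) {n : ℕ} {Ψ : Fin n → MvPolynomial κ ℂ} (hΨ : ∀ i, k0 ∉ (Ψ i).vars)
    {a : Fin n → ℤ} (ha : ∑ i, a i • Ψ i ≠ 0) : ∃ v ∈ ball (0 : ℂ) r, ∑ i, (a i : ℂ) *
      MvPolynomial.eval (fun l ↦ (m k0 : ℂ) * g l v - m l * g k0 v) (Ψ i) ≠ 0 := by
  by_contra hc'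
  push Not at hc'
  apply ha
  have hev : ∀ (T : κ → ℂ) (c : MvPolynomial κ ℂ), MvPolynomial.eval T (MvPolynomial.aeval
      (fun l ↦ (MvPolynomial.C (m k0 : ℂ) * MvPolynomial.X l -
        MvPolynomial.C (m l : ℂ) * MvPolynomial.X k0 : MvPolynomial κ ℂ)) c) =
      MvPolynomial.eval (fun l ↦ (m k0 : ℂ) * T l - m l * T k0) c := by
    intro T c
    induction c using MvPolynomial.induction_on with
    | C a => simp
    | add p q hp hq => simp only [map_add, hp, hq]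
    | mul_X p l hp => simp only [map_mul, hp]; simp
  have h0 := ax_indep h hN hc.isChart (MvPolynomial.aeval
      (fun l ↦ (MvPolynomial.C (m k0 : ℂ) * MvPolynomial.X l -
        MvPolynomial.C (m l : ℂ) * MvPolynomial.X k0 : MvPolynomial κ ℂ)) (∑ i, a i • Ψ i))
    fun w hw ↦ by
      rw [hev, eval_sum]
      simp only [cf_comb]
      exact hc' _ (mem_ball_zero_iff.2 hw)
  have hm : (m k0 : ℂ) ≠ 0 := Nat.cast_ne_zero.2 hk.ne'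
  refine MvPolynomial.funext fun x ↦ ?_
  have h1 := hev (Function.update (fun l ↦ x l / m k0) k0 0) (∑ i, a i • Ψ i)
  rw [h0, eval_sum, map_zero] at h1
  rw [eval_sum, map_zero, h1]
  refine Finset.sum_congr rfl fun i _ ↦ congrArg _ ?_
  refine MvPolynomial.eval₂Hom_congr' rfl (fun l hl _ ↦ ?_) rfl
  have hl' : l ≠ k0 := fun e ↦ hΨ i (e ▸ hl)
  rw [Function.update_self, Function.update_of_ne hl']
  field_simp
  ring

theorem log_bound {K : ℝ} (hK : 1 ≤ K) : ∃ c : ℕ, ∀ M : ℝ, 2 ≤ M →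
    Real.log (48 * M ^ 5 * K ^ 4) ≤ c * Real.log M := by
  obtain ⟨c, hc⟩ := pow_unbounded_of_one_lt (48 * K ^ 4) (one_lt_two (α := ℝ))
  refine ⟨c + 5, fun M hM ↦ ?_⟩
  rw [← Real.log_pow]
  refine Real.log_le_log (by positivity) ?_
  have : (2 : ℝ) ^ c ≤ M ^ c := pow_le_pow_left₀ (by norm_num) hM c
  rw [pow_add]
  have h5 : 0 ≤ M ^ 5 := by positivity
  nlinarith

theorem aux (h : Nice A B) (hN : NoMod A B) (hc : CuspD A B P E m r g) {s1 s2 : κ ⊕ ℂ}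
    {j1 j2 : κ} (hs : ∀ z, s1 = Sum.inr z ∨ s2 = Sum.inr z → 0 < z.im) {k0 : κ} (hk : 0 < m k0)
    (hel : ∃ (n k : ℕ) (Ψ : Fin n → MvPolynomial κ ℂ), (∀ i, k0 ∉ (Ψ i).vars) ∧
      ∀ (M : ℝ) (y : Fin 8 → ℤ) (T : κ → ℂ), 2 ≤ M → (∀ i, |(y i : ℝ)| ≤ M) →
      Rels y T s1 j1 s2 j2 →
      ∃ a : Fin n → ℤ, (∀ i, |(a i : ℝ)| ≤ M ^ k) ∧ ∑ i, a i • Ψ i ≠ 0 ∧
        MvPolynomial.eval (fun l ↦ (m k0 : ℂ) * T l - m l * T k0) (∑ i, a i • Ψ i) = 0) :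
    ∃ C : ℕ, ∀ M : ℝ, 2 ≤ M → ∃ W : Finset ℝ, W.card ≤ C ∧ ∀ (w : ℂ) (n1 n2 : ℕ),
      ‖Complex.exp w‖ ≤ r / 2 → |w.im| ≤ π → 0 < n1 → (n1 : ℝ) ≤ M → 0 < n2 → (n2 : ℝ) ≤ M →
      (s1 = Sum.inl j1 → ¬ IsSquare n1) → (s2 = Sum.inl j2 → ¬ IsSquare n2) →
      Rel n1 (sv (fun i ↦ cf m g i w) s1) (cf m g j1 w) →
      Rel n2 (sv (fun i ↦ cf m g i w) s2) (cf m g j2 w) →
      ∃ ρ ∈ W, |w.re - ρ| ≤ C * Real.log M := by
  obtain ⟨n, k, Ψ, hΨ, hel⟩ := hel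
  obtain ⟨K0, hK0, hb⟩ := hc.bounds
  have hcst : ∀ s : κ ⊕ ℂ, (∀ z, s = Sum.inr z → 0 < z.im) → ∃ K : ℝ, K0 ≤ K ∧ ∀ w : ℂ,
      ‖Complex.exp w‖ ≤ r / 2 → |w.im| ≤ 15 → |(sv (fun i ↦ cf m g i w) s).re| ≤ K ∧
        1 ≤ K * (sv (fun i ↦ cf m g i w) s).im := by
    rintro (i | z) hz
    · exact ⟨K0, le_rfl, fun w h1 h2 ↦ ⟨(hb w h1 h2 i).1, (hb w h1 h2 i).2.1⟩⟩
    · have hz := hz z rfl
      refine ⟨max K0 (max |z.re| z.im⁻¹), le_max_left _ _, fun w _ _ ↦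
        ⟨le_max_of_le_right (le_max_left _ _), ?_⟩⟩
      rw [← inv_mul_cancel₀ hz.ne']
      exact mul_le_mul_of_nonneg_right (le_max_of_le_right (le_max_right _ _)) hz.le
  obtain ⟨K1, hK1, b1⟩ := hcst s1 fun z e ↦ hs z (Or.inl e)
  obtain ⟨K2, hK2, b2⟩ := hcst s2 fun z e ↦ hs z (Or.inr e)
  have mono : ∀ {K K' : ℝ} {z : ℂ}, K0 ≤ K → K ≤ K' → |z.re| ≤ K ∧ 1 ≤ K * z.im →
      |z.re| ≤ K' ∧ 1 ≤ K' * z.im := fun {K K' z} h0 h1 h2 ↦ by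
    have : 0 < z.im := pos_of_mul_pos_right (b := z.im) (lt_of_lt_of_le one_pos h2.2) (by linarith)
    exact ⟨h2.1.trans h1, h2.2.trans (mul_le_mul_of_nonneg_right h1 this.le)⟩
  set K := max K1 K2
  have hK : 1 ≤ K := hK0.trans (hK1.trans (le_max_left _ _))
  obtain ⟨c, hlog⟩ := log_bound hK
  obtain ⟨C, hC⟩ := window (fun i v ↦ MvPolynomial.eval
    (fun l ↦ (m k0 : ℂ) * g l v - m l * g k0 v) (Ψ i)) hc.hr fun i ↦
      analytic_eval (F := fun l v ↦ (m k0 : ℂ) * g l v - m l * g k0 v)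
        (fun l ↦ (analyticOnNhd_const.mul (hc.an l)).sub (analyticOnNhd_const.mul (hc.an k0))) _
  refine ⟨C * ((k + 1) * c + 1), fun M hM ↦ ?_⟩
  have hH : 2 ≤ 48 * M ^ 5 * K ^ 4 := by
    have h1 : 1 ≤ M ^ 5 := one_le_pow₀ (by linarith)
    have h2 : 1 ≤ K ^ 4 := one_le_pow₀ hK
    nlinarith
  set H := 48 * M ^ 5 * K ^ 4
  have hH1 : 1 ≤ H := by linarith
  obtain ⟨W, hW, hwin⟩ := hC (H ^ (k + 1)) (hH.trans (le_self_pow₀ hH1 (Nat.succ_ne_zero k)))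
  refine ⟨W, hW.trans (Nat.le_mul_of_pos_right _ (Nat.succ_pos _)),
    fun w n1 n2 hw hi p1 p2 p3 p4 q1 q2 r1 r2 ↦ ?_⟩
  have hi' : |w.im| ≤ 15 := hi.trans (by linarith [Real.pi_le_four])
  obtain ⟨y, hy, hyb⟩ := exists_rels (T := fun i ↦ cf m g i w) hK (by
    intro z hz
    simp only [Set.mem_insert_iff, Set.mem_singleton_iff] at hz
    rcases hz with rfl | rfl | rfl | rfl
    · exact mono hK1 (le_max_left _ _) (b1 w hw hi')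
    · exact mono le_rfl (hK1.trans (le_max_left _ _)) ⟨(hb w hw hi' _).1, (hb w hw hi' _).2.1⟩
    · exact mono hK2 (le_max_right _ _) (b2 w hw hi')
    · exact mono le_rfl (hK1.trans (le_max_left _ _)) ⟨(hb w hw hi' _).1, (hb w hw hi' _).2.1⟩)
    p1 p2 p3 p4 q1 q2 r1 r2
  obtain ⟨a, ha, ha0, hz⟩ := hel H y _ hH hyb hy
  obtain ⟨ρ, hρ, hle⟩ := hwin a (Complex.exp w)
    (fun i ↦ (ha i).trans (pow_le_pow_right₀ hH1 (Nat.le_succ k)))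
    (nonvanish h hN hc hk hΨ ha0) (Complex.exp_ne_zero w) hw (by
      rw [eval_sum] at hz
      simpa only [cf_comb] using hz)
  refine ⟨ρ, hρ, ?_⟩
  rw [Complex.norm_exp, Real.log_exp, Real.log_pow] at hle
  refine hle.trans ?_
  have h1 := hlog M hM
  have h2 : 0 ≤ Real.log M := Real.log_nonneg (by linarith)
  push_cast
  rw [mul_assoc]
  refine mul_le_mul_of_nonneg_left ?_ (Nat.cast_nonneg _)
  have h3 : ((k : ℝ) + 1) * Real.log H ≤ (k + 1) * (c * Real.log M) :=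
    mul_le_mul_of_nonneg_left h1 (by positivity)
  nlinarith

end MID

variable {κ : Type} [Fintype κ] [DecidableEq κ] {A B : κ → Polynomial ℂ}
  {P : ℂ} {E : ℕ} {m : κ → ℕ} {r : ℝ} {g : κ → ℂ → ℂ}

theorem mid (h : Nice A B) (hN : NoMod A B) (hc : CuspD A B P E m r g) {s1 s2 : κ ⊕ ℂ}
    {j1 j2 : κ} (h2 : Two s1 j1 s2 j2) (hs : ∀ z, s1 = Sum.inr z ∨ s2 = Sum.inr z → 0 < z.im)
    (h1 : 0 < m j1 ∨ ∃ i, s1 = Sum.inl i ∧ 0 < m i)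
    (h1' : 0 < m j2 ∨ ∃ i, s2 = Sum.inl i ∧ 0 < m i) :
    ∃ C : ℕ, ∀ M : ℝ, 2 ≤ M → ∃ W : Finset ℝ, W.card ≤ C ∧ ∀ (w : ℂ) (n1 n2 : ℕ),
      ‖Complex.exp w‖ ≤ r / 2 → |w.im| ≤ π → 0 < n1 → (n1 : ℝ) ≤ M → 0 < n2 → (n2 : ℝ) ≤ M →
      (s1 = Sum.inl j1 → ¬ IsSquare n1) → (s2 = Sum.inl j2 → ¬ IsSquare n2) →
      Rel n1 (sv (fun i ↦ cf m g i w) s1) (cf m g j1 w) →
      Rel n2 (sv (fun i ↦ cf m g i w) s2) (cf m g j2 w) →
      ∃ ρ ∈ W, |w.re - ρ| ≤ C * Real.log M := by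
  rcases s1 with i1 | c1
  · rcases s2 with i2 | c2
    · obtain ⟨k0, hk⟩ : ∃ k0, 0 < m k0 := by
        rcases h1 with h1 | ⟨i, -, h1⟩ <;> exact ⟨_, h1⟩
      exact MID.aux h hN hc hs hk (elimA h2 m hk)
    · have hk : 0 < m j2 := by
        rcases h1' with h1' | ⟨i, e, -⟩
        · exact h1'
        · cases e
      obtain ⟨C, hC⟩ := MID.aux h hN hc (fun z hz ↦ hs z hz.symm) hk
        (elimB ⟨h2.1.symm, h2.2.2, h2.2.1⟩ m hk)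
      refine ⟨C, fun M hM ↦ ?_⟩
      obtain ⟨W, hW, hw⟩ := hC M hM
      exact ⟨W, hW, fun w n1 n2 a1 a2 p1 p2 p3 p4 q1 q2 r1 r2 ↦
        hw w n2 n1 a1 a2 p3 p4 p1 p2 q2 q1 r2 r1⟩
  · have hk : 0 < m j1 := by
      rcases h1 with h1 | ⟨i, e, -⟩
      · exact h1
      · cases e
    exact MID.aux h hN hc hs hk (elimB h2 m hk)

end Pool.Agent.Lib.ZP3
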