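import Pool.Agent.Lib.ZP3.Chart2
import Pool.Agent.Lib.ZP3.Nd2
import Pool.Agent.Lib.ZP3.AxFinal
import Pool.Agent.Lib.ZP3.Core2
import Pool.Agent.Lib.ZP3.Deep
import Pool.Agent.Lib.ZP3.Mid
import Pool.Agent.Lib.ZP3.CountCore

/-! Counting in one chart at a point of the curve. -/

open UpperHalfPlane Filter Topology Metric
open scoped Real MatrixGroups

namespace Pool.Agent.Lib.ZP3

variable {κ : Type} [Fintype κ] [DecidableEq κ] {A B : κ → Polynomial ℂ}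
  {P : ℂ} {E : ℕ} {m : κ → ℕ} {r : ℝ} {g : κ → ℂ → ℂ} {s1 s2 : κ ⊕ ℂ} {j1 j2 : κ} {ε : ℝ}

namespace CUSP

open CNT

omit [Fintype κ] [DecidableEq κ] in
theorem exists_const {s : κ ⊕ ℂ} (hs : ∀ z, s = Sum.inr z → 0 < z.im) :
    ∃ K : ℝ, 0 ≤ K ∧ ∀ z, s = Sum.inr z → ‖z‖ ≤ K ∧ 1 ≤ K * z.im := by
  cases s with
  | inl i => exact ⟨0, le_rfl, fun z hz ↦ by simp at hz⟩
  | inr c =>
    have := hs c rfl
    refine ⟨‖c‖ + c.im⁻¹, by positivity, fun z hz ↦ ?_⟩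
    obtain rfl : c = z := Sum.inr.inj hz
    refine ⟨le_add_of_nonneg_right (by positivity), ?_⟩
    rw [add_mul, inv_mul_cancel₀ this.ne']
    exact le_add_of_nonneg_left (by positivity)

/-- one logarithmic chart -/
theorem chart (h : Nice A B) (hN : NoMod A B) (hc : CuspD A B P E m r g) (h2 : Two s1 j1 s2 j2)
    (hs : ∀ z, s1 = Sum.inr z ∨ s2 = Sum.inr z → 0 < z.im) (hε : 0 < ε) :
    ∃ K C : ℝ, 1 ≤ K ∧ 0 ≤ C ∧ ∀ (M : ℝ) (n1 n2 k : ℕ) (l : ℤ) (S : Finset ℂ), 2 ≤ M →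
      K * (k + 1) ≤ M → |l| ≤ 4 → 0 < n1 → (n1 : ℝ) ≤ M → 0 < n2 → (n2 : ℝ) ≤ M →
      (s1 = Sum.inl j1 → ¬ IsSquare n1) → (s2 = Sum.inl j2 → ¬ IsSquare n2) →
      (∀ w ∈ S, ‖w - ctr r k l‖ ≤ 1 ∧ Rel n1 (sv (fun i ↦ cf m g i w) s1) (cf m g j1 w) ∧
        Rel n2 (sv (fun i ↦ cf m g i w) s2) (cf m g j2 w)) → (S.card : ℝ) ≤ C * M ^ ε := by
  have hr := hc.hr
  obtain ⟨Cn, hCn⟩ := nd_cuspC g (fun i ↦ m i / (2 * π * Complex.I)) hr hc.an
    fun c h0 ↦ ax_indep h hN hc.isChart c h0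
  obtain ⟨K, hK, hb⟩ := hc.bounds
  obtain ⟨K1, k1, hK1⟩ := exists_const fun z hz ↦ hs z (Or.inl hz)
  obtain ⟨K2, k2, hK2⟩ := exists_const fun z hz ↦ hs z (Or.inr hz)
  obtain ⟨C, hC⟩ := count_core2 h2 Cn hε
  have hL := abs_nonneg (Real.log r)
  refine ⟨K * (|Real.log r| + 22) + K1 + K2, |C|, by nlinarith, abs_nonneg _,
    fun M n1 n2 k l S hM hKM hl d1 d1' d2 d2' q1 q2 hS ↦ ?_⟩
  have k0 : (0 : ℝ) ≤ k := Nat.cast_nonneg k
  have a1 : K * (|Real.log r| + 22) * (k + 1) + K1 + K2 ≤ M := by nlinarith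
  have a2 : K ≤ K * (|Real.log r| + 22) * (k + 1) := by
    rw [mul_assoc]
    exact le_mul_of_one_le_right (by linarith) (by nlinarith)
  refine le_trans ?_ (mul_le_mul_of_nonneg_right (le_abs_self C) (by positivity))
  refine card_le_of_param S (fun s ↦ ctr r k l + s) (fun s ↦ ‖s‖ ≤ 1)
    (fun w hw ↦ ⟨w - ctr r k l, (hS w hw).1, by ring⟩) fun S' hS' ↦ ?_
  refine hC M (fun i s ↦ cf m g i (ctr r k l + s)) n1 n2 S' hM (fun i s hs ↦ ?_) (fun i s hs ↦ ?_)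
    (fun c hc ↦ ?_) (hCn k l hl) d1 d1' d2 d2' q1 q2 fun s hs ↦
      ⟨(hS' s hs).1, (hS _ (hS' s hs).2).2⟩
  · exact (hc.isChart.2.2.2.2.1 i _ ((norm_exp_ctr hr k l
      (mem_closedBall_zero_iff.1 hs)).trans_lt (by linarith))).fun_comp
      (f := fun s ↦ ctr r k l + s) (analyticAt_const.add analyticAt_id)
  · have b1 := (Complex.abs_re_le_norm s).trans hs
    have b2 := (Complex.abs_im_le_norm s).trans hs
    have b3 : |(l : ℝ)| ≤ 4 := by exact_mod_cast hl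
    obtain ⟨-, c1, -, c2⟩ := hb (ctr r k l + s) (norm_exp_ctr hr k l hs) (by
      have : (ctr r k l + s).im = l + s.im := by simp [ctr]
      rw [this]
      exact (abs_add_le _ _).trans (by linarith)) i
    have b4 : |(ctr r k l + s).re| ≤ |Real.log r| + 21 + k := by
      have : (ctr r k l + s).re = Real.log r - 11 - k + s.re := by simp [ctr]
      rw [this, abs_le] at *
      constructor <;> linarith [le_abs_self (Real.log r), neg_abs_le (Real.log r)]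
    have b5 : 0 ≤ (cf m g i (ctr r k l + s)).im := by
      by_contra h0
      nlinarith
    refine ⟨c2.trans (le_trans ?_ (by linarith : K * (|Real.log r| + 22) * (k + 1) ≤ M)),
      c1.trans (mul_le_mul_of_nonneg_right (by linarith) b5)⟩
    rw [mul_assoc]
    exact mul_le_mul_of_nonneg_left (by nlinarith) (by linarith)
  · have b0 := (hs c hc).le
    rcases hc with hc | hc
    · exact ⟨by linarith [(hK1 c hc).1],
        (hK1 c hc).2.trans (mul_le_mul_of_nonneg_right (by linarith) b0)⟩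
    · exact ⟨by linarith [(hK2 c hc).1],
        (hK2 c hc).2.trans (mul_le_mul_of_nonneg_right (by linarith) b0)⟩

/-- points in a bounded number of windows -/
theorem windows (h : Nice A B) (hN : NoMod A B) (hc : CuspD A B P E m r g) (h2 : Two s1 j1 s2 j2)
    (hs : ∀ z, s1 = Sum.inr z ∨ s2 = Sum.inr z → 0 < z.im) (hε : 0 < ε) {a : ℝ} (ha : 0 ≤ a) :
    ∃ C : ℝ, ∀ (M : ℝ) (n1 n2 : ℕ) (W : Finset ℝ) (S : Finset ℂ), 2 ≤ M → (W.card : ℝ) ≤ a →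
      0 < n1 → (n1 : ℝ) ≤ M → 0 < n2 → (n2 : ℝ) ≤ M →
      (s1 = Sum.inl j1 → ¬ IsSquare n1) → (s2 = Sum.inl j2 → ¬ IsSquare n2) →
      (∀ w ∈ S, (-(a * M ^ 2) ≤ w.re ∧ ∃ ρ ∈ W, |w.re - ρ| ≤ a * Real.log M) ∧
        w.re ≤ Real.log r - 11 ∧ |w.im| ≤ π ∧ Rel n1 (sv (fun i ↦ cf m g i w) s1) (cf m g j1 w) ∧
        Rel n2 (sv (fun i ↦ cf m g i w) s2) (cf m g j2 w)) → (S.card : ℝ) ≤ C * M ^ ε := by
  obtain ⟨K, C, hK, hC, h1⟩ := chart h hN hc h2 hs (ε := ε / 4) (by positivity)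
  have hL := abs_nonneg (Real.log r)
  set K' := K * (|Real.log r| + a + 1) with hK'
  have k1 : 1 ≤ K' := by nlinarith
  refine ⟨a * (2 * a / (ε / 2) + 2) * 9 * (C * K' ^ (ε / 4)),
    fun M n1 n2 W S hM hW d1 d1' d2 d2' q1 q2 hS ↦ ?_⟩
  have m1 : M ≤ M ^ 2 := by nlinarith
  have m2 : M ^ 2 ≤ K' * M ^ 2 := le_mul_of_one_le_left (by positivity) k1
  have l0 : 0 ≤ Real.log M := Real.log_nonneg (by linarith)
  have e1 : (K' * M ^ 2) ^ (ε / 4) = K' ^ (ε / 4) * M ^ (ε / 2) := by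
    rw [Real.mul_rpow (by positivity) (by positivity), ← Real.rpow_natCast M 2,
      ← Real.rpow_mul (by linarith)]
    congr 2
    push_cast
    ring
  have e2 : M ^ ε = M ^ (ε / 2) * M ^ (ε / 2) := by
    rw [← Real.rpow_add (by linarith), add_halves]
  set k0 : ℝ → ℕ := fun ρ ↦ ⌊Real.log r - 11 - ρ - a * Real.log M + 1 / 2⌋₊ with hk0
  have s1 := card_le_of_cover S (W ×ˢ Finset.range ⌈2 * (a * Real.log M) + 1⌉₊ ×ˢ
    Finset.Icc (-4 : ℤ) 4) (fun q w ↦ ((k0 q.1 + q.2.1 : ℕ) : ℝ) ≤ |Real.log r| + a * M ^ 2 ∧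
      ‖w - ctr r (k0 q.1 + q.2.1) q.2.2‖ ≤ 1) (Q := C * (K' * M ^ 2) ^ (ε / 4)) (fun w hw ↦ by
      obtain ⟨⟨b1, ρ, b2, b3⟩, b4, b5, -⟩ := hS w hw
      rw [abs_le] at b3 b5
      have c1 := Nat.floor_le (a := Real.log r - 11 - w.re + 1 / 2) (by linarith)
      have c2 := Nat.lt_floor_add_one (Real.log r - 11 - w.re + 1 / 2)
      have c3 : k0 ρ ≤ ⌊Real.log r - 11 - w.re + 1 / 2⌋₊ := Nat.floor_mono (by linarith)
      have c4 := Nat.lt_floor_add_one (Real.log r - 11 - ρ - a * Real.log M + 1 / 2)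
      have c5 := abs_sub_round w.im
      obtain ⟨i, hi⟩ := Nat.exists_eq_add_of_le c3
      rw [hi] at c1 c2
      refine ⟨(ρ, i, round w.im), Finset.mem_product.2 ⟨b2, Finset.mem_product.2
        ⟨Finset.mem_range.2 (Nat.lt_ceil.2 ?_), Finset.mem_Icc.2 (abs_le.1 ?_)⟩⟩, ?_, ?_⟩
      · push_cast at c1
        linarith
      · have h1 : |((round w.im : ℤ) : ℝ)| < 5 := by
          have := Real.pi_lt_four
          rw [abs_le] at c5
          rw [abs_lt]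
          constructor <;> linarith
        have h2 : |round w.im| < 5 := by exact_mod_cast h1
        exact Int.le_of_lt_add_one h2
      · linarith [le_abs_self (Real.log r)]
      · refine (Complex.norm_le_abs_re_add_abs_im _).trans ?_
        have h1 : (w - ctr r (k0 ρ + i) (round w.im)).re =
            w.re - (Real.log r - 11 - (k0 ρ + i : ℕ)) := by simp [ctr]
        have h2 : (w - ctr r (k0 ρ + i) (round w.im)).im = w.im - round w.im := by simp [ctr]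
        have h3 : |w.re - (Real.log r - 11 - (k0 ρ + i : ℕ))| ≤ 1 / 2 :=
          abs_le.2 ⟨by linarith, by linarith⟩
        rw [h1, h2]
        linarith)
    fun q hq S' hS' ↦ by
      rcases S'.eq_empty_or_nonempty with rfl | ⟨w0, hw0⟩
      · simp only [Finset.card_empty, Nat.cast_zero]
        positivity
      refine h1 _ n1 n2 (k0 q.1 + q.2.1) q.2.2 S' (by linarith) ?_ (abs_le.2 (Finset.mem_Icc.1
        (Finset.mem_product.1 (Finset.mem_product.1 hq).2).2)) d1 (by linarith) d2 (by linarith)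
        q1 q2 fun w hw ↦ ⟨(hS' w hw).2.2, (hS w (hS' w hw).1).2.2.2⟩
      rw [hK', mul_assoc]
      exact mul_le_mul_of_nonneg_left (by nlinarith [(hS' w0 hw0).2.1]) (by linarith)
  have t1 : (Finset.Icc (-4 : ℤ) 4).card = 9 := by simp
  have t2 := (Nat.ceil_lt_add_one (a := 2 * (a * Real.log M) + 1) (by positivity)).le
  have t3 := Real.log_le_rpow_div (x := M) (ε := ε / 2) (by linarith) (by positivity)
  have t4 : 1 ≤ M ^ (ε / 2) := Real.one_le_rpow (by linarith) (by positivity)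
  have t5 : (⌈2 * (a * Real.log M) + 1⌉₊ : ℝ) ≤ (2 * a / (ε / 2) + 2) * M ^ (ε / 2) := by
    have : 2 * a / (ε / 2) * M ^ (ε / 2) = 2 * (a * (M ^ (ε / 2) / (ε / 2))) := by ring
    nlinarith [mul_le_mul_of_nonneg_left t3 ha]
  rw [Finset.card_product, Finset.card_product, Finset.card_range, t1, e1] at s1
  push_cast at s1
  calc _ ≤ a * ((2 * a / (ε / 2) + 2) * M ^ (ε / 2) * 9) * (C * (K' ^ (ε / 4) * M ^ (ε / 2))) :=
        s1.trans (by gcongr)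
    _ = _ := by
        rw [e2]
        ring

theorem split (S : Finset ℂ) (p : ℂ → Prop) [DecidablePred p] {x y z : ℝ}
    (h1 : ((S.filter p).card : ℝ) ≤ x * z) (h2 : ((S.filter fun w ↦ ¬ p w).card : ℝ) ≤ y * z) :
    (S.card : ℝ) ≤ (x + y) * z := by
  rw [← Finset.card_filter_add_card_filter_not (s := S) p, Nat.cast_add, add_mul]
  exact add_le_add h1 h2

/-- the points above a logarithmic depth -/
theorem shallow (h : Nice A B) (hN : NoMod A B) (hc : CuspD A B P E m r g) (h2 : Two s1 j1 s2 j2)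
    (hs : ∀ z, s1 = Sum.inr z ∨ s2 = Sum.inr z → 0 < z.im) (hε : 0 < ε) (c : ℕ) :
    ∃ C : ℝ, ∀ (M : ℝ) (n1 n2 : ℕ) (S : Finset ℂ), 2 ≤ M →
      0 < n1 → (n1 : ℝ) ≤ M → 0 < n2 → (n2 : ℝ) ≤ M →
      (s1 = Sum.inl j1 → ¬ IsSquare n1) → (s2 = Sum.inl j2 → ¬ IsSquare n2) →
      (∀ w ∈ S, w.re ≤ Real.log r - 11 ∧ |w.im| ≤ π ∧
        Rel n1 (sv (fun i ↦ cf m g i w) s1) (cf m g j1 w) ∧
        Rel n2 (sv (fun i ↦ cf m g i w) s2) (cf m g j2 w)) →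
      ((S.filter fun w ↦ ¬ w.re ≤ -(c * Real.log M)).card : ℝ) ≤ C * M ^ ε := by
  have hL := abs_nonneg (Real.log r)
  have c0 : (0 : ℝ) ≤ c := Nat.cast_nonneg c
  obtain ⟨C, hC⟩ := windows h hN hc h2 hs hε (a := c + 2 * |Real.log r| + 1) (by positivity)
  refine ⟨C, fun M n1 n2 S hM d1 d1' d2 d2' q1 q2 hS ↦ hC M n1 n2 {0} _ hM (by simp; positivity)
    d1 d1' d2 d2' q1 q2 fun w hw ↦ ?_⟩
  obtain ⟨b1, b2⟩ := Finset.mem_filter.1 hw
  have l1 : 1 / 2 ≤ Real.log M := by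
    linarith [Real.log_two_gt_d9, Real.log_le_log two_pos hM]
  have l2 : Real.log M ≤ M ^ 2 := by nlinarith [Real.log_le_self (show 0 ≤ M by linarith)]
  have b3 := (hS w b1).1
  refine ⟨⟨by nlinarith, 0, Finset.mem_singleton_self 0, ?_⟩, hS w b1⟩
  rw [sub_zero, abs_le]
  constructor <;> nlinarith [le_abs_self (Real.log r)]

end CUSP

open CUSP in
theorem count_cusp (h : Nice A B) (hN : NoMod A B) (hc : CuspD A B P E m r g) {s1 s2 : κ ⊕ ℂ}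
    {j1 j2 : κ} (h2 : Two s1 j1 s2 j2) (hs : ∀ z, s1 = Sum.inr z ∨ s2 = Sum.inr z → 0 < z.im)
    {ε : ℝ} (hε : 0 < ε) : ∃ C : ℝ, ∀ (M : ℝ) (n1 n2 : ℕ) (S : Finset ℂ), 2 ≤ M →
      0 < n1 → (n1 : ℝ) ≤ M → 0 < n2 → (n2 : ℝ) ≤ M →
      (s1 = Sum.inl j1 → ¬ IsSquare n1) → (s2 = Sum.inl j2 → ¬ IsSquare n2) →
      (∀ w ∈ S, w.re ≤ Real.log r - 11 ∧ |w.im| ≤ π ∧
        Rel n1 (sv (fun i ↦ cf m g i w) s1) (cf m g j1 w) ∧
        Rel n2 (sv (fun i ↦ cf m g i w) s2) (cf m g j2 w)) → (S.card : ℝ) ≤ C * M ^ ε := by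
  by_cases h1 : 0 < m j1 ∨ ∃ i, s1 = Sum.inl i ∧ 0 < m i
  swap
  · simp only [not_or, not_exists, not_and, not_lt, nonpos_iff_eq_zero] at h1
    obtain ⟨c, C, hC⟩ := deep_fin h hN hc (fun z hz ↦ hs z (Or.inl hz)) h1.1 h1.2 hε
    obtain ⟨C', hC'⟩ := shallow h hN hc h2 hs hε c
    exact ⟨C + C', fun M n1 n2 S hM d1 d1' d2 d2' q1 q2 hS ↦ split S _ (hC M n1 _ hM d1 d1' q1
      fun w hw ↦ have b := Finset.mem_filter.1 hw
        ⟨b.2, (hS w b.1).2.1, (hS w b.1).2.2.1⟩) (hC' M n1 n2 S hM d1 d1' d2 d2' q1 q2 hS)⟩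
  by_cases h1' : 0 < m j2 ∨ ∃ i, s2 = Sum.inl i ∧ 0 < m i
  swap
  · simp only [not_or, not_exists, not_and, not_lt, nonpos_iff_eq_zero] at h1'
    obtain ⟨c, C, hC⟩ := deep_fin h hN hc (fun z hz ↦ hs z (Or.inr hz)) h1'.1 h1'.2 hε
    obtain ⟨C', hC'⟩ := shallow h hN hc h2 hs hε c
    exact ⟨C + C', fun M n1 n2 S hM d1 d1' d2 d2' q1 q2 hS ↦ split S _ (hC M n2 _ hM d2 d2' q2
      fun w hw ↦ have b := Finset.mem_filter.1 hw
        ⟨b.2, (hS w b.1).2.1, (hS w b.1).2.2.2⟩) (hC' M n1 n2 S hM d1 d1' d2 d2' q1 q2 hS)⟩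
  obtain ⟨c, C, hC⟩ := deep h hN hc (fun z hz ↦ hs z (Or.inl hz)) h1
  obtain ⟨a, ha⟩ := mid h hN hc h2 hs h1 h1'
  obtain ⟨C', hC'⟩ := windows h hN hc h2 hs hε (a := a + c) (by positivity)
  refine ⟨C + C', fun M n1 n2 S hM d1 d1' d2 d2' q1 q2 hS ↦ ?_⟩
  obtain ⟨W, hW, hw⟩ := ha M hM
  have c0 : (0 : ℝ) ≤ c := Nat.cast_nonneg c
  have a0 : (0 : ℝ) ≤ a := Nat.cast_nonneg a
  refine split S (fun w ↦ w.re ≤ -(c * M ^ 2)) ((Nat.cast_le.2 (hC M n1 _ hM d1 d1' q1 fun w hw ↦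
    have b := Finset.mem_filter.1 hw
    ⟨b.2, (hS w b.1).2.1, (hS w b.1).2.2.1⟩)).trans (le_mul_of_one_le_right (Nat.cast_nonneg C)
    (Real.one_le_rpow (by linarith) hε.le))) (hC' M n1 n2 W _ hM
    ((Nat.cast_le.2 hW).trans (by linarith)) d1 d1' d2 d2' q1 q2 fun w hw' ↦ ?_)
  obtain ⟨b1, b2⟩ := Finset.mem_filter.1 hw'
  obtain ⟨b3, b4, b5, b6⟩ := hS w b1
  obtain ⟨ρ, b7, b8⟩ := hw w n1 n2 (by
    have := CNT.norm_exp_ctr hc.hr 0 0 (s := 0) (by simp)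
    refine le_trans ?_ this
    rw [Complex.norm_exp, Complex.norm_exp, Real.exp_le_exp]
    simpa [CNT.ctr] using b3) b4 d1 d1' d2 d2' q1 q2 b5 b6
  exact ⟨⟨by nlinarith [sq_nonneg M], ρ, b7, b8.trans (mul_le_mul_of_nonneg_right (by linarith)
    (Real.log_nonneg (by linarith)))⟩, b3, b4, b5, b6⟩

end Pool.Agent.Lib.ZP3
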