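import Pool.Agent.Lib.ZP3.Ent
import Pool.Agent.Lib.ZP3.Nd2
import Pool.Agent.Lib.ZP3.Chart2
import Pool.Agent.Lib.ZP3.Tiny2

/-! Block DEEP: special points very close to the centre of a chart, assuming independence. -/

open UpperHalfPlane Filter Topology Metric
open scoped Real MatrixGroups

namespace Pool.Agent.Lib.ZP3

namespace Deep

/-- all charts are algebraically independent -/
def Ind {κ : Type} (A B : κ → Polynomial ℂ) : Prop :=
  ∀ (U : Set ℂ) (φ : ℂ → ℂ) (f : κ → ℂ → ℂ), IsChart A B U φ f → ∀ c : MvPolynomial κ ℂ,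
    (∀ s ∈ U, MvPolynomial.eval (fun i ↦ f i s) c = 0) → c = 0

lemma exp_inj {w w' : ℂ} (h : Complex.exp w = Complex.exp w') (hi : |w.im - w'.im| < 2 * π) :
    w = w' := by
  obtain ⟨n, hn⟩ := Complex.exp_eq_exp_iff_exists_int.1 h
  have h1 : w.im - w'.im = n * (2 * π) := by
    rw [hn]
    simp
  have hp : 0 < 2 * π := by positivity
  rw [h1, abs_mul, abs_of_pos hp, mul_lt_iff_lt_one_left hp] at hi
  have h2 : n = 0 := Int.abs_lt_one_iff.1 (by exact_mod_cast hi)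
  rw [hn, h2]
  simp

lemma card_le_two (S : Finset ℂ) {a : ℂ} (ha : a ≠ 0) (hS : ∀ w ∈ S, |w.im| ≤ π) :
    S.card ≤ 2 * (S.image fun w ↦ a * Complex.exp w).card := by
  classical
  have key : ∀ (p : ℂ → Prop) [DecidablePred p], (∀ w w', |w.im| ≤ π → |w'.im| ≤ π → p w → p w' →
      |w.im - w'.im| ≤ π) → (S.filter p).card ≤ (S.image fun w ↦ a * Complex.exp w).card := by
    intro p _ hp
    refine Finset.card_le_card_of_injOn (fun w ↦ a * Complex.exp w) (fun w hw ↦ ?_)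
      fun w hw w' hw' e ↦ ?_
    · exact Finset.mem_coe.2 (Finset.mem_image_of_mem _ (Finset.mem_filter.1 hw).1)
    · rw [Finset.mem_coe, Finset.mem_filter] at hw hw'
      refine exp_inj (mul_left_cancel₀ ha e) ?_
      linarith [hp w w' (hS w hw.1) (hS w' hw'.1) hw.2 hw'.2, Real.pi_pos]
  rw [← Finset.card_filter_add_card_filter_not (s := S) (fun w ↦ w.im ≤ 0), two_mul]
  refine add_le_add (key _ fun w w' h1 h2 h3 h4 ↦ ?_) (key _ fun w w' h1 h2 h3 h4 ↦ ?_) <;>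
    rw [abs_le] at h1 h2 ⊢ <;> constructor <;> linarith [h1.1, h1.2, h2.1, h2.2]

lemma an_scale {G : ℂ → ℂ} {r : ℝ} (hr : 0 < r) (h : AnalyticOnNhd ℂ G (ball 0 r)) :
    AnalyticOnNhd ℂ (fun s ↦ G (r / 20 * s)) (closedBall 0 10) := by
  intro s hs
  refine AnalyticAt.comp (g := G) (h _ ?_) (by fun_prop)
  rw [mem_closedBall_zero_iff] at hs
  rw [mem_ball_zero_iff, norm_mul, norm_div, Complex.norm_real, Real.norm_of_nonneg hr.le]
  simp only [Complex.norm_ofNat]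
  nlinarith

lemma norm_scale {r : ℝ} (hr : 0 < r) (u : ℂ) : ‖(20 / r : ℂ) * u‖ = 20 / r * ‖u‖ := by
  rw [norm_mul, norm_div, Complex.norm_real, Real.norm_of_nonneg hr.le]
  simp

lemma scale_scale {r : ℝ} (hr : 0 < r) (u : ℂ) : (r / 20 : ℂ) * (20 / r * u) = u := by
  have : (r : ℂ) ≠ 0 := by exact_mod_cast hr.ne'
  field_simp

variable {κ : Type} [Fintype κ] [DecidableEq κ] {A B : κ → Polynomial ℂ}
  {P : ℂ} {E : ℕ} {m : κ → ℕ} {r : ℝ} {g : κ → ℂ → ℂ}

/-- independence in the rescaled variable -/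
lemma indep (h : Ind A B) (hc : CuspD A B P E m r g) {ι : Type}
    (q : ι → MvPolynomial κ ℂ) (hq : Function.Injective (MvPolynomial.aeval (R := ℂ) q))
    (F : ι → ℂ → ℂ) (hF : ∀ l w, MvPolynomial.eval (fun i ↦ cf m g i w) (q l) = F l (Complex.exp w))
    (c : MvPolynomial ι ℂ)
    (h0 : ∀ s : ℂ, ‖s‖ ≤ 2 → MvPolynomial.eval (fun l ↦ F l (r / 20 * s)) c = 0) : c = 0 := by
  have hr := hc.hr
  refine hq ((h _ _ _ (hc.mono (r' := r / 10) (by linarith) (by linarith)).isChart _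
    fun w hw ↦ ?_).trans (map_zero _).symm)
  have h1 := h0 (20 / r * Complex.exp w) (by
    rw [norm_scale hr, div_mul_eq_mul_div, div_le_iff₀ hr]
    have : ‖Complex.exp w‖ < r / 10 := hw
    linarith)
  rw [← h1, MvPolynomial.aeval_eq_bind₁, MvPolynomial.eval, MvPolynomial.eval₂Hom_bind₁]
  simp only [scale_scale hr, ← hF]
  rfl

/-- integral relations between two coordinates that are both high in the cusp -/
lemma both {τ τ' : ℂ} {n : ℕ} {M K x : ℝ} {p q : ℕ} (h : Rel n τ τ') (hn : 0 < n)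
    (hnM : (n : ℝ) ≤ M) (hM : 2 ≤ M) (h1 : M ≤ τ.im) (h2 : M ≤ τ'.im) (h3 : |τ.im - p * x| ≤ K)
    (h4 : |τ'.im - q * x| ≤ K) (hx : 2 * M * K < x) :
    (τ = τ' → IsSquare n) ∧ ∃ b d : ℤ, d ≠ 0 ∧ |(d : ℝ)| ≤ M ∧ p * τ' - q * τ = p * b / d := by
  obtain ⟨a, b, c, d, hd, hm⟩ := h
  have hc : c = 0 := by
    have h5 := mob_c hm hd (by linarith)
    by_contra h0
    have h6 : (1 : ℝ) ≤ (c : ℝ) ^ 2 := by exact_mod_cast (one_le_sq_iff_one_le_abs c).2 (Int.one_le_abs h0)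
    have h7 : M * M ≤ τ.im * τ'.im := mul_le_mul h1 h2 (by linarith) (by linarith)
    nlinarith
  refine ⟨fun e ↦ ?_, b, d, ?_⟩
  · subst e
    by_contra hs
    exact mob_c_ne hm hd hs (by linarith) hc
  subst hc
  rw [mul_zero, sub_zero] at hd
  have ha0 : a ≠ 0 := by rintro rfl; omega
  have hd0 : d ≠ 0 := by rintro rfl; omega
  have hab : (|a| * |d| : ℤ) = n := by rw [← abs_mul, hd, abs_of_nonneg (by positivity)]
  have ha1 := Int.one_le_abs ha0
  have hd1 := Int.one_le_abs hd0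
  have ha2 : |(a : ℝ)| ≤ M := le_trans (by exact_mod_cast (by nlinarith : |a| ≤ n)) hnM
  have hd2 : |(d : ℝ)| ≤ M := le_trans (by exact_mod_cast (by nlinarith : |d| ≤ n)) hnM
  refine ⟨hd0, hd2, ?_⟩
  simp only [Mob, Int.cast_zero, zero_mul, zero_add] at hm
  have him : τ'.im * d = a * τ.im := by simpa using congrArg Complex.im hm
  have hK : 0 ≤ K := (abs_nonneg _).trans h3
  have e : d * q - a * p = 0 := by
    by_contra h0
    have h5 : (1 : ℝ) ≤ |(d : ℝ) * q - a * p| := by exact_mod_cast Int.one_le_abs h0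
    have h6 : ((d : ℝ) * q - a * p) * x = a * (τ.im - p * x) - d * (τ'.im - q * x) := by
      linear_combination him
    have h7 : |((d : ℝ) * q - a * p) * x| ≤ M * K + M * K := by
      rw [h6]
      refine (abs_sub _ _).trans ?_
      rw [abs_mul, abs_mul]
      gcongr
    have hx0 : 0 < x := lt_of_le_of_lt (by positivity) hx
    rw [abs_mul, abs_of_pos hx0] at h7
    nlinarith
  have e' : (d : ℂ) * q - a * p = 0 := by exact_mod_cast e
  have : (d : ℂ) ≠ 0 := by exact_mod_cast hd0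
  rw [eq_div_iff this]
  linear_combination p * hm - τ * e'

/-- rational numbers with small denominators repel each other -/
lemma gap {p : ℕ} {b d b' d' : ℤ} {M : ℝ} (hd : d ≠ 0) (hd' : d' ≠ 0) (h1 : |(d : ℝ)| ≤ M)
    (h2 : |(d' : ℝ)| ≤ M) (h : M ^ 2 * ‖(p * b / d - p * b' / d' : ℂ)‖ < 1) :
    (p * b / d : ℂ) = p * b' / d' := by
  have e1 : (d : ℂ) ≠ 0 := by exact_mod_cast hd
  have e2 : (d' : ℂ) ≠ 0 := by exact_mod_cast hd'
  have e : ((p * b * d' - p * b' * d : ℤ) : ℂ) = d * d' * (p * b / d - p * b' / d') := by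
    push_cast
    field_simp
  have h3 : |((p * b * d' - p * b' * d : ℤ) : ℝ)| < 1 := by
    rw [← Complex.norm_intCast, e, norm_mul, norm_mul, Complex.norm_intCast, Complex.norm_intCast]
    refine lt_of_le_of_lt ?_ h
    rw [sq]
    have := (abs_nonneg _).trans h1
    gcongr
  have h4 : p * b * d' - p * b' * d = 0 := Int.abs_lt_one_iff.1 (by exact_mod_cast h3)
  rw [h4, Int.cast_zero] at e
  exact sub_eq_zero.1 ((mul_eq_zero.1 e.symm).resolve_left (mul_ne_zero e1 e2))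

/-- the number of points of a level set of `m i * g j - m j * g i` -/
lemma level (h : Ind A B) (hc : CuspD A B P E m r g) {i j : κ} (hij : i ≠ j)
    (hi : 0 < m i) : ∃ C : ℕ, ∀ (v : ℂ) (S : Finset ℂ),
      (∀ w ∈ S, ‖Complex.exp w‖ ≤ r / 10 ∧ |w.im| ≤ π ∧
        m i * g j (Complex.exp w) - m j * g i (Complex.exp w) = v) → S.card ≤ C := by
  have hr := hc.hr
  have ha : ∀ _ : Unit, AnalyticOnNhd ℂ (fun s ↦ (fun u ↦ m i * g j u - m j * g i u) (r / 20 * s))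
      (closedBall (0 : ℂ) 10) := fun _ ↦ an_scale hr
    ((analyticOnNhd_const.mul (hc.an j)).sub (analyticOnNhd_const.mul (hc.an i)))
  have hm : (m i : ℂ) ≠ 0 := by exact_mod_cast hi.ne'
  obtain ⟨Cn, hCn⟩ := nd_compactC ha (indep h hc (ι := Unit)
    (fun _ ↦ MvPolynomial.C (m i : ℂ) * MvPolynomial.X j - MvPolynomial.C (m j : ℂ) * MvPolynomial.X i)
    (by
      refine Function.LeftInverse.injective (g := MvPolynomial.aeval (R := ℂ) fun l ↦
        if l = j then MvPolynomial.C (m i : ℂ)⁻¹ * MvPolynomial.X () else 0) fun c ↦ ?_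
      rw [← AlgHom.comp_apply, MvPolynomial.comp_aeval]
      simp only [map_sub, map_mul, MvPolynomial.aeval_X, MvPolynomial.aeval_C, if_true, if_neg hij,
        mul_zero, sub_zero, MvPolynomial.algebraMap_eq]
      rw [← mul_assoc, ← map_mul, mul_inv_cancel₀ hm, map_one, one_mul]
      exact MvPolynomial.aeval_X_left_apply c)
    (fun _ u ↦ m i * g j u - m j * g i u) fun _ w ↦ by
      simp only [map_sub, map_mul, MvPolynomial.eval_C, MvPolynomial.eval_X, cf]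
      ring)
  refine ⟨2 * (Cn 1 + 1), fun v S hS ↦ ?_⟩
  refine (card_le_two S (a := 20 / r) (div_ne_zero (by norm_num) (by exact_mod_cast hr.ne'))
    fun w hw ↦ (hS w hw).2.1).trans (Nat.mul_le_mul_left 2 ?_)
  refine zero_countC ha hCn (c := MvPolynomial.X () - MvPolynomial.C v) ?_ ?_ _ fun u hu ↦ ?_
  · intro e
    have := congrArg (MvPolynomial.eval fun _ ↦ v + 1) e
    simp at this
  · refine (MvPolynomial.totalDegree_sub _ _).trans (max_le (MvPolynomial.totalDegree_X _).le ?_)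
    rw [MvPolynomial.totalDegree_C]
    exact zero_le_one
  · obtain ⟨w, hw, rfl⟩ := Finset.mem_image.1 hu
    obtain ⟨w1, -, w3⟩ := hS w hw
    refine ⟨?_, ?_⟩
    · rw [norm_scale hr, div_mul_eq_mul_div, div_le_iff₀ hr]
      linarith
    · simp only [map_sub, MvPolynomial.eval_C, MvPolynomial.eval_X, scale_scale hr, w3, sub_self]

end Deep

open Deep CH2

section DEEP
variable {κ : Type} [Fintype κ] [DecidableEq κ] {A B : κ → Polynomial ℂ}
  {P : ℂ} {E : ℕ} {m : κ → ℕ} {r : ℝ} {g : κ → ℂ → ℂ}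

theorem Deep.deep_fin (h : Ind A B) (hc : CuspD A B P E m r g) {s : κ ⊕ ℂ} {j : κ}
    (hs : ∀ z, s = Sum.inr z → 0 < z.im) (hj : m j = 0) (hi : ∀ i, s = Sum.inl i → m i = 0)
    {ε : ℝ} (hε : 0 < ε) : ∃ (c : ℕ) (C : ℝ), ∀ (M : ℝ) (n : ℕ) (S : Finset ℂ), 2 ≤ M → 0 < n →
      (n : ℝ) ≤ M → (s = Sum.inl j → ¬ IsSquare n) →
      (∀ w ∈ S, w.re ≤ -(c * Real.log M) ∧ |w.im| ≤ π ∧
        Rel n (sv (fun i ↦ cf m g i w) s) (cf m g j w)) → (S.card : ℝ) ≤ C * M ^ ε := by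
  have hr := hc.hr
  obtain ⟨s', rfl⟩ : ∃ s' : {l // m l = 0} ⊕ ℂ, s = s'.map Subtype.val id := by
    cases s with
    | inl i => exact ⟨Sum.inl ⟨i, hi i rfl⟩, rfl⟩
    | inr z => exact ⟨Sum.inr z, rfl⟩
  set F : {l // m l = 0} → ℂ → ℂ := fun l u ↦ g l (r / 20 * u) with hF
  have hFa : ∀ l, AnalyticOnNhd ℂ (F l) (closedBall 0 10) := fun l ↦ an_scale hr (hc.an l)
  obtain ⟨Cn, hCn⟩ := nd_compactC hFa (indep h hc (ι := {l // m l = 0}) (fun l ↦ MvPolynomial.X l.1)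
    (by
      have := MvPolynomial.rename_injective (R := ℂ) (Subtype.val : {l // m l = 0} → κ)
        Subtype.val_injective
      rwa [MvPolynomial.rename_eq_aeval] at this)
    (fun l ↦ g l) fun l w ↦ by rw [MvPolynomial.eval_X, cf_zero l.2])
  obtain ⟨C, hC⟩ := tiny_disc2 Cn hε
  have hb : ∀ l, ∃ K : ℝ, ∀ u, ‖u‖ ≤ 10 → ‖F l u‖ ≤ K ∧ 1 ≤ K * (F l u).im := by
    intro l
    have hcont := (hFa l).continuousOn
    obtain ⟨K1, h1⟩ := (isCompact_closedBall _ _).exists_bound_of_continuousOn hcont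
    obtain ⟨c, c1, c2⟩ := (isCompact_closedBall (0 : ℂ) 10).exists_forall_le'
      (Complex.continuous_im.comp_continuousOn hcont) fun u hu ↦ (hc.fin _ (by
        rw [mem_closedBall_zero_iff] at hu
        rw [mem_ball_zero_iff, norm_mul, norm_div, Complex.norm_real, Real.norm_of_nonneg hr.le]
        simp only [Complex.norm_ofNat]
        nlinarith) l l.2).1
    refine ⟨max K1 c⁻¹, fun u hu ↦ ⟨le_max_of_le_left (h1 u (mem_closedBall_zero_iff.2 hu)), ?_⟩⟩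
    exact (inv_mul_cancel₀ c1.ne').ge.trans (mul_le_mul (le_max_right _ _)
      (c2 u (mem_closedBall_zero_iff.2 hu)) c1.le (le_max_of_le_right (inv_pos.2 c1).le))
  choose K1 hK1 using hb
  obtain ⟨K2, hK2⟩ : ∃ K : ℝ, ∀ z, s' = Sum.inr z → ‖z‖ ≤ K ∧ 1 ≤ K * z.im := by
    cases s' with
    | inl i => exact ⟨0, fun z hz ↦ by cases hz⟩
    | inr z =>
      have hz := hs z rfl
      refine ⟨max ‖z‖ z.im⁻¹, fun z' hz' ↦ ?_⟩
      cases hz'
      exact ⟨le_max_left _ _, (inv_mul_cancel₀ hz.ne').ge.trans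
        (mul_le_mul_of_nonneg_right (le_max_right _ _) hz.le)⟩
  obtain ⟨K3, hK3⟩ := Finite.exists_le K1
  obtain ⟨K, k1, k2, k3⟩ : ∃ K : ℝ, 1 ≤ K ∧ K2 ≤ K ∧ K3 ≤ K :=
    ⟨max 1 (max K2 K3), le_max_left _ _, le_max_of_le_right (le_max_left _ _),
      le_max_of_le_right (le_max_right _ _)⟩
  obtain ⟨c0, hc0⟩ := pow_unbounded_of_one_lt (20 / r * K ^ 102) (one_lt_two (α := ℝ))
  refine ⟨c0 + 102, 2 * C * K ^ ε, fun M n S hM hn hnM hsq hS ↦ ?_⟩
  have hKM : ∀ {x : ℝ}, x ≤ K → x ≤ K * M := fun hx ↦ by nlinarith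
  have mono : ∀ {x y : ℝ}, x ≤ K → 1 ≤ x * y → 0 < y → 1 ≤ K * M * y := fun hx h1 h2 ↦
    h1.trans (mul_le_mul_of_nonneg_right (hKM hx) h2.le)
  have pos : ∀ {x y z : ℝ}, 0 ≤ z → z ≤ x → 1 ≤ x * y → 0 < y := fun h0 h1 h2 ↦
    pos_of_mul_pos_right (one_pos.trans_le h2) (h0.trans h1)
  have h1 := hC (K * M) F s' ⟨j, hj⟩ n 0 (S.image fun w ↦ (20 / r : ℂ) * Complex.exp w)
    (fun e ↦ hsq (by rw [e]; rfl)) (by nlinarith) hFa
    (fun l u hu ↦ ⟨hKM ((hK1 l u hu).1.trans ((hK3 l).trans k3)), mono ((hK3 l).trans k3)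
      (hK1 l u hu).2 (pos (norm_nonneg _) (hK1 l u hu).1 (hK1 l u hu).2)⟩)
    (fun z hz ↦ ⟨hKM ((hK2 z hz).1.trans k2), mono k2 (hK2 z hz).2
      (pos (norm_nonneg _) (hK2 z hz).1 (hK2 z hz).2)⟩) hCn hn (by nlinarith) (by
      intro u hu
      obtain ⟨w, hw, rfl⟩ := Finset.mem_image.1 hu
      obtain ⟨w1, -, w3⟩ := hS w hw
      have h2 : ‖(20 / r : ℂ) * Complex.exp w‖ ≤ ((K * M) ^ 102)⁻¹ := by
        rw [norm_scale hr, Complex.norm_exp]
        have h3 : Real.exp w.re ≤ (M ^ (c0 + 102))⁻¹ := by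
          refine (Real.exp_le_exp.2 w1).trans_eq ?_
          rw [Real.exp_neg, Real.exp_nat_mul, Real.exp_log (by linarith)]
        have h4 : (2 : ℝ) ^ c0 ≤ M ^ c0 := by gcongr
        have hM0 : 0 < M := by linarith
        calc _ ≤ 20 / r * (M ^ (c0 + 102))⁻¹ := by gcongr
          _ = 20 / r * K ^ 102 / M ^ c0 * ((K * M) ^ 102)⁻¹ := by
              rw [pow_add, mul_pow]
              field_simp
          _ ≤ 1 * ((K * M) ^ 102)⁻¹ := by
              gcongr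
              rw [div_le_one (by positivity)]
              linarith
          _ = _ := one_mul _
      refine ⟨h2.trans (inv_le_one_of_one_le₀ (one_le_pow₀ (by nlinarith))), by rwa [sub_zero], ?_⟩
      simp only [hF, scale_scale hr]
      rw [cf_zero hj] at w3
      cases s' with
      | inl i => simpa only [sv, Sum.map_inl, Sum.elim_inl, cf_zero i.2] using w3
      | inr z => exact w3)
  have h2 : (S.card : ℝ) ≤ 2 * (S.image fun w ↦ (20 / r : ℂ) * Complex.exp w).card := by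
    have := card_le_two S (a := 20 / r) (div_ne_zero (by norm_num) (by exact_mod_cast hr.ne'))
      fun w hw ↦ (hS w hw).2.1
    generalize (S.image fun w ↦ (20 / r : ℂ) * Complex.exp w).card = x at this
    exact_mod_cast this
  rw [Real.mul_rpow (by linarith) (by linarith)] at h1
  linarith

theorem Deep.deep (h : Ind A B) (hc : CuspD A B P E m r g) {s : κ ⊕ ℂ} {j : κ}
    (hs : ∀ z, s = Sum.inr z → 0 < z.im) (hj : 0 < m j ∨ ∃ i, s = Sum.inl i ∧ 0 < m i) :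
    ∃ c C : ℕ, ∀ (M : ℝ) (n : ℕ) (S : Finset ℂ), 2 ≤ M → 0 < n →
      (n : ℝ) ≤ M → (s = Sum.inl j → ¬ IsSquare n) →
      (∀ w ∈ S, w.re ≤ -(c * M ^ 2) ∧ |w.im| ≤ π ∧
        Rel n (sv (fun i ↦ cf m g i w) s) (cf m g j w)) → S.card ≤ C := by
  have hr := hc.hr
  obtain ⟨K1, -, hK1⟩ := hc.bounds
  obtain ⟨K2, hK2⟩ : ∃ K : ℝ, ∀ z, s = Sum.inr z → max z.im z.im⁻¹ ≤ K := by
    cases s with
    | inl i => exact ⟨0, fun z hz ↦ by cases hz⟩
    | inr z => exact ⟨_, fun z' hz' ↦ by cases hz'; exact le_rfl⟩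
  obtain ⟨K, k1, k2, k3⟩ : ∃ K : ℝ, 1 ≤ K ∧ K1 ≤ K ∧ K2 ≤ K :=
    ⟨max 1 (max K1 K2), le_max_left _ _, le_max_of_le_right (le_max_left _ _),
      le_max_of_le_right (le_max_right _ _)⟩
  have hsmall : ∀ (c M : ℝ) (w : ℂ), w.re ≤ -(c * M ^ 2) → c * M ^ 2 * ‖Complex.exp w‖ < 1 := by
    intro c M w hw
    have h1 := Real.add_one_le_exp (c * M ^ 2)
    have h2 : Real.exp (c * M ^ 2) * Real.exp w.re ≤ 1 := by
      rw [← Real.exp_add, Real.exp_le_one_iff]
      linarith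
    rw [Complex.norm_exp]
    nlinarith [Real.exp_pos w.re]
  have hball : ∀ (c M ρ : ℝ) (w : ℂ), 2 ≤ M → 0 < ρ → ρ⁻¹ ≤ c → w.re ≤ -(c * M ^ 2) →
      ‖Complex.exp w‖ < ρ := by
    intro c M ρ w hM hρ h1 hw
    have h2 := hsmall c M w hw
    have h3 : ρ⁻¹ * 1 * ‖Complex.exp w‖ ≤ c * M ^ 2 * ‖Complex.exp w‖ := by
      have := (inv_pos.2 hρ).le.trans h1
      gcongr
      nlinarith
    rw [mul_one, inv_mul_eq_div] at h3
    exact (div_lt_one hρ).1 (h3.trans_lt h2)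
  have key : ∀ (c M : ℝ) (w : ℂ), 2 ≤ M → (r / 2)⁻¹ ≤ c → 24 * K ≤ c → w.re ≤ -(c * M ^ 2) →
      |w.im| ≤ π → 3 * K * M ^ 2 ≤ -w.re / (2 * π) ∧ ∀ l,
        |(cf m g l w).im - m l * (-w.re / (2 * π))| ≤ K ∧ 0 < (cf m g l w).im ∧
        (0 < m l → K * M < (cf m g l w).im) ∧
        (m l = 0 → max (cf m g l w).im (cf m g l w).im⁻¹ ≤ K) := by
    intro c M w hM c1 c2 hw hw'
    have hx : 3 * K * M ^ 2 ≤ -w.re / (2 * π) := by
      rw [le_div_iff₀ (by positivity)]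
      have h1 : 3 * K * M ^ 2 * (2 * π) ≤ 3 * K * M ^ 2 * 8 := by
        gcongr
        linarith [Real.pi_le_four]
      nlinarith [sq_nonneg M]
    refine ⟨hx, fun l ↦ ?_⟩
    obtain ⟨-, h1, h2, -⟩ := hK1 w (hball c M _ w hM (by linarith) c1 hw).le
      (by linarith [Real.pi_le_four]) l
    have h3 : |(cf m g l w).im - m l * (-w.re / (2 * π))| ≤ K := by
      refine le_trans (le_of_eq ?_) (h2.trans k2)
      congr 1
      ring
    have h4 : 0 < (cf m g l w).im :=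
      pos_of_mul_pos_right (one_pos.trans_le h1) ((abs_nonneg _).trans h2)
    refine ⟨h3, h4, fun h0 ↦ ?_, fun h0 ↦ max_le ?_ ?_⟩
    · have h5 : (1 : ℝ) ≤ m l := by exact_mod_cast h0
      have h6 : K * 1 * 1 ≤ K * M * M := by gcongr <;> linarith
      have h7 : K * M * 1 ≤ K * M * M := by gcongr; linarith
      nlinarith [(abs_le.1 h3).1]
    · rw [h0, Nat.cast_zero, zero_mul, sub_zero] at h3
      exact (abs_le.1 h3).2
    · rw [inv_le_iff_one_le_mul₀ h4]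
      exact h1.trans (mul_le_mul_of_nonneg_right k2 h4.le)
  have one : ∀ {n : ℕ} {τ τ' : ℂ} {M : ℝ}, Rel n τ τ' → 0 < n → (n : ℝ) ≤ M → 0 < τ.im →
      max τ.im τ.im⁻¹ ≤ K → ¬ K * M < τ'.im := by
    intro n τ τ' M h1 h2 h3 h4 h5
    refine not_lt.2 ((h1.im_le h2 h4).trans ?_)
    rw [mul_comm K]
    exact mul_le_mul h3 h5 (le_max_of_le_left h4.le) ((Nat.cast_nonneg _).trans h3)
  have hKM : ∀ {M x : ℝ}, 2 ≤ M → K * M < x → M ≤ x := fun h1 h2 ↦ by nlinarith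
  have hKM' : ∀ {M x : ℝ}, 2 ≤ M → 3 * K * M ^ 2 ≤ x → 2 * M * K < x := fun {M x} h1 h2 ↦ by
    have : 0 < K * M := by positivity
    nlinarith
  by_cases hb : ∃ i, s = Sum.inl i ∧ i ≠ j ∧ 0 < m i ∧ 0 < m j
  · obtain ⟨i, rfl, hij, hi, hj⟩ := hb
    obtain ⟨C, hC⟩ := level h hc hij hi
    set G : ℂ → ℂ := fun u ↦ m i * g j u - m j * g i u with hG
    have ha : AnalyticAt ℂ G 0 :=
      ((analyticOnNhd_const.mul (hc.an j)).sub (analyticOnNhd_const.mul (hc.an i))) 0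
        (mem_ball_self hr)
    obtain ⟨L, hL0, hL⟩ := ha.differentiableAt.isBigO_sub.exists_pos
    obtain ⟨δ, hδ, hL⟩ := Metric.eventually_nhds_iff.1 hL.bound
    obtain ⟨c, hc'⟩ := exists_nat_ge (max (max (r / 10)⁻¹ (24 * K)) (max δ⁻¹ (2 * L)))
    simp only [max_le_iff] at hc'
    obtain ⟨⟨c1, c2⟩, c3, c4⟩ := hc'
    have c1' : (r / 2)⁻¹ ≤ c := le_trans (by gcongr; norm_num) c1
    refine ⟨c, C, fun M n S hM hn hnM hsq hS ↦ ?_⟩
    have h1 : ∀ w ∈ S, (∃ b d : ℤ, d ≠ 0 ∧ |(d : ℝ)| ≤ M ∧ G (Complex.exp w) = m i * b / d) ∧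
        2 * M ^ 2 * ‖G (Complex.exp w) - G 0‖ < 1 := by
      intro w hw
      obtain ⟨w1, w2, w3⟩ := hS w hw
      obtain ⟨x1, x2⟩ := key c M w hM c1' c2 w1 w2
      refine ⟨?_, ?_⟩
      · obtain ⟨-, b, d, d1, d2, d3⟩ := both w3 hn hnM hM (hKM hM ((x2 i).2.2.1 hi))
          (hKM hM ((x2 j).2.2.1 hj)) (x2 i).1 (x2 j).1 (hKM' hM x1)
        refine ⟨b, d, d1, d2, Eq.trans ?_ d3⟩
        simp only [hG, sv, Sum.elim_inl, cf]
        ring
      · have h2 := hL (y := Complex.exp w) (by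
          rw [dist_zero_right]
          exact hball c M δ w hM hδ c3 w1)
        rw [sub_zero] at h2
        refine lt_of_le_of_lt ?_ (hsmall c M w w1)
        calc _ ≤ 2 * M ^ 2 * (L * ‖Complex.exp w‖) := by gcongr
          _ = 2 * L * M ^ 2 * ‖Complex.exp w‖ := by ring
          _ ≤ _ := by gcongr
    rcases S.eq_empty_or_nonempty with rfl | ⟨w0, hw0⟩
    · simp
    refine hC (G (Complex.exp w0)) S fun w hw ↦
      ⟨(hball c M _ w hM (by linarith) c1 (hS w hw).1).le, (hS w hw).2.1, ?_⟩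
    obtain ⟨⟨b, d, d1, d2, d3⟩, d4⟩ := h1 w hw
    obtain ⟨⟨b', d', d1', d2', d3'⟩, d4'⟩ := h1 w0 hw0
    change G (Complex.exp w) = _
    have h2 := norm_sub_le_norm_sub_add_norm_sub (G (Complex.exp w)) (G 0) (G (Complex.exp w0))
    rw [norm_sub_rev (G 0)] at h2
    rw [d3, d3']
    refine gap d1 d1' d2 d2' ?_
    rw [← d3, ← d3']
    nlinarith [mul_le_mul_of_nonneg_left h2 (sq_nonneg M)]
  · obtain ⟨c, hc'⟩ := exists_nat_ge (max (r / 2)⁻¹ (24 * K))
    rw [max_le_iff] at hc'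
    refine ⟨c, 0, fun M n S hM hn hnM hsq hS ↦ ?_⟩
    rw [Nat.le_zero, Finset.card_eq_zero, Finset.eq_empty_iff_forall_notMem]
    intro w hw
    obtain ⟨w1, w2, w3⟩ := hS w hw
    obtain ⟨x1, x2⟩ := key c M w hM hc'.1 hc'.2 w1 w2
    cases s with
    | inr z =>
      rcases hj with hj | ⟨i, e, -⟩
      · exact one w3 hn hnM (hs z rfl) ((hK2 z rfl).trans k3) ((x2 j).2.2.1 hj)
      · cases e
    | inl i =>
      rcases (m i).eq_zero_or_pos with hi | hi
      · rcases hj with hj | ⟨i', e, hi'⟩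
        · exact one w3 hn hnM (x2 i).2.1 ((x2 i).2.2.2 hi) ((x2 j).2.2.1 hj)
        · cases e
          omega
      rcases (m j).eq_zero_or_pos with hj' | hj'
      · exact one w3.symm hn hnM (x2 j).2.1 ((x2 j).2.2.2 hj') ((x2 i).2.2.1 hi)
      have hij : i = j := by
        by_contra hij
        exact hb ⟨i, rfl, hij, hi, hj'⟩
      subst hij
      exact hsq rfl ((both w3 hn hnM hM (hKM hM ((x2 i).2.2.1 hi))
        (hKM hM ((x2 i).2.2.1 hi)) (x2 i).1 (x2 i).1 (hKM' hM x1)).1 rfl)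

end DEEP

end Pool.Agent.Lib.ZP3
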