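import Pool.Agent.Lib.helper6.ModPoly

/-! Shared definitions for the triple-isogeny Zilber-Pink project (problem MP_0704bf_ag). -/

open UpperHalfPlane Filter Topology Metric
open scoped Real

namespace Pool.Agent.Lib.ZP3

open Pool.Agent.Lib.MP_0704bf_ag

/-! ### isogenies -/

/-- `τ' = (a τ + b) / (c τ + d)` -/
def Mob (a b c d : ℤ) (τ τ' : ℂ) : Prop := τ' * (c * τ + d) = a * τ + b

/-- an isogeny of degree `N` from the curve with invariant `x` to the curve with invariant `y`;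
`U` is the twelfth power of its multiplier for models with equal discriminant -/
def Isog (N : ℕ) (x y U : ℂ) : Prop :=
  ∃ (τ τ' : ℍ) (a b c d : ℤ), a * d - b * c = N ∧ jInv τ = x ∧ jInv τ' = y ∧
    Mob a b c d τ τ' ∧
    U * ModularForm.discriminant τ = (a - c * τ') ^ 12 * ModularForm.discriminant τ'

def Iso (N : ℕ) (x y : ℂ) : Prop := ∃ U, Isog N x y U

def MinIso (N : ℕ) (x y : ℂ) : Prop := 0 < N ∧ Iso N x y ∧ ∀ n, 0 < n → Iso n x y → N ≤ n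

/-- `j` as a function of a complex variable -/
noncomputable def jc (z : ℂ) : ℂ := jInv (ofComplex z)

/-- the invariant `(Im τ)^6 |Δ(τ)|` -/
noncomputable def del (τ : ℍ) : ℝ := τ.im ^ 6 * ‖ModularForm.discriminant τ‖

/-- the point `(a τ + b) / d` -/
noncomputable def tr (g : ℕ × ℕ × ℕ) (τ : ℍ) : ℍ :=
  ofComplex (((g.1 : ℂ) * τ + g.2.1) / g.2.2)

/-- triples `(a, b, d)` with `a d = N`, `b < d` -/
def tris (N : ℕ) : Finset (ℕ × ℕ × ℕ) :=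
  (Finset.range (N + 1) ×ˢ Finset.range (N + 1) ×ˢ Finset.range (N + 1)).filter
    fun g ↦ g.1 * g.2.2 = N ∧ g.2.1 < g.2.2

/-- value of an integral polynomial in two variables -/
noncomputable def ev2 {K : Type*} [CommRing K] (Φ : Polynomial (Polynomial ℤ)) (x y : K) : K :=
  (Φ.map (Polynomial.aeval x).toRingHom).eval y

/-! ### conjugates -/

/-- `z` has at most `D` conjugates -/
def Deg (z : ℂ) (D : ℕ) : Prop := ∃ E : Finset ℂ, E.card ≤ D ∧ ∀ σ : ℂ →+* ℂ, σ z ∈ E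

/-- algebraic integer of degree at most `A` and house at most `exp A` -/
def AI (z : ℂ) (A : ℕ) : Prop :=
  IsIntegral ℤ z ∧ Deg z A ∧ ∀ σ : ℂ →+* ℂ, ‖σ z‖ ≤ Real.exp A

/-! ### one-dimensional groups -/

/-- Weierstrass data: a possibly degenerate Weierstrass function with its period group -/
structure WD where
  Λ : AddSubgroup ℂ
  X : ℂ → ℂ
  Y : ℂ → ℂ
  g2 : ℂ
  g3 : ℂ
  sep : ∃ ρ : ℝ, 0 < ρ ∧ ∀ l ∈ Λ, l ≠ 0 → ρ ≤ ‖l‖
  dX : ∀ z, z ∉ Λ → HasDerivAt X (Y z) z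
  dY : ∀ z, z ∉ Λ → HasDerivAt Y (6 * X z ^ 2 - g2 / 2) z
  eqn : ∀ z, z ∉ Λ → Y z ^ 2 = 4 * X z ^ 3 - g2 * X z - g3
  perX : ∀ l ∈ Λ, ∀ z, X (z + l) = X z
  perY : ∀ l ∈ Λ, ∀ z, Y (z + l) = Y z
  even : ∀ z, X (-z) = X z
  odd : ∀ z, Y (-z) = -Y z
  pole : Tendsto (fun z ↦ ‖X z‖) (𝓝[≠] 0) atTop

/-- analytic size of a group with base point `p` and period `u` -/
def WD.Size (W : WD) (p u : ℂ) (A : ℕ) : Prop :=
  ∃ ρ : ℝ, Real.exp (-A) ≤ ρ ∧ ρ ≤ Real.exp A ∧ (∀ l ∈ W.Λ, l ≠ 0 → ρ ≤ ‖l‖) ∧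
    (∀ l ∈ W.Λ, ρ ≤ 2 * ‖p - l‖) ∧ u ∈ W.Λ ∧ u ≠ 0 ∧ ‖u‖ ≤ A * ρ ∧
    ∀ (z : ℂ) (r : ℝ), 0 < r → r ≤ ρ → (∀ l ∈ W.Λ, r ≤ ‖z - l‖) → ‖W.X z‖ * r ^ 2 ≤ Real.exp A

/-- arithmetic size of a group with base point `p` -/
def WD.Ar (W : WD) (p : ℂ) (A : ℕ) : Prop :=
  AI (W.X p) A ∧ AI (W.Y p) A ∧ AI (W.g2 / 2) A

/-- the lattice of `W` is `Ω (ℤ + ℤ τ)` -/
def WD.IsLat (W : WD) (τ Ω : ℂ) : Prop := ∀ z, z ∈ W.Λ ↔ ∃ m n : ℤ, z = Ω * (m + n * τ)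

/-- `W` is the Weierstrass function of the lattice `Ω (ℤ + ℤ τ)` -/
def WD.IsEll (W : WD) (τ : ℍ) (Ω : ℂ) : Prop :=
  W.IsLat τ Ω ∧ W.g2 = 4 * (π : ℂ) ^ 4 / 3 * ModularForm.E₄ τ / Ω ^ 4 ∧
    W.g3 = 8 * (π : ℂ) ^ 6 / 27 * ModularForm.E₆ τ / Ω ^ 6

/-- variables `X_i = inl i`, `Y_i = inr i` -/
abbrev Var := Fin 3 ⊕ Fin 3

abbrev R := MvPolynomial Var ℂ

/-- the invariant derivation in direction `v` (raw form, `G i = g2 / 2`) -/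
noncomputable def der0 (G v : Fin 3 → ℂ) : Derivation ℂ R R :=
  MvPolynomial.mkDerivation ℂ (Sum.elim
    (fun i ↦ MvPolynomial.C (v i) * MvPolynomial.X (Sum.inr i))
    (fun i ↦ MvPolynomial.C (v i) * (6 * MvPolynomial.X (Sum.inl i) ^ 2 - MvPolynomial.C (G i))))

noncomputable def der (W : Fin 3 → WD) (v : Fin 3 → ℂ) : Derivation ℂ R R :=
  der0 (fun i ↦ (W i).g2 / 2) v

/-- coordinates of the point `z` -/
def pt (W : Fin 3 → WD) (z : Fin 3 → ℂ) : Var → ℂ :=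
  Sum.elim (fun i ↦ (W i).X (z i)) (fun i ↦ (W i).Y (z i))

/-- evaluation at the point `z` -/
noncomputable def ev (W : Fin 3 → WD) (z : Fin 3 → ℂ) : R →+* ℂ := MvPolynomial.eval (pt W z)

/-- the equation of the `i`-th cubic -/
noncomputable def cub (W : Fin 3 → WD) (i : Fin 3) : R :=
  MvPolynomial.X (Sum.inr i) ^ 2 - (4 * MvPolynomial.X (Sum.inl i) ^ 3 -
    MvPolynomial.C (W i).g2 * MvPolynomial.X (Sum.inl i) - MvPolynomial.C (W i).g3)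

/-- no coordinate is a pole -/
def Reg (W : Fin 3 → WD) (z : Fin 3 → ℂ) : Prop := ∀ i, z i ∉ (W i).Λ

/-- polynomials of weight at most `d` in each group of variables -/
noncomputable def Md (d : ℕ) : Submodule ℂ R :=
  MvPolynomial.restrictSupport ℂ {m | ∀ i, 2 * m (Sum.inl i) + 3 * m (Sum.inr i) ≤ d}

/-- apply the derivations in directions `b i` along a word, first letter first -/
noncomputable def word (W : Fin 3 → WD) (b : Fin 3 → Fin 3 → ℂ) (l : List (Fin 3)) (f : R) : R :=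
  l.foldl (fun f i ↦ der W (b i) f) f

/-- vanishing at `z` to weighted order `n` -/
def Van (W : Fin 3 → WD) (b : Fin 3 → Fin 3 → ℂ) (w : Fin 3 → ℕ) (z : Fin 3 → ℂ) (n : ℕ)
    (f : R) : Prop :=
  ∀ l : List (Fin 3), (l.map w).sum < n → ev W z (word W b l f) = 0

/-- an algebraic subgroup of degree at most `K` inside the hyperplane defined by `β` -/
def Obs (W : Fin 3 → WD) (β : Fin 3 → ℂ) (K : ℕ) : Prop :=
  ∃ H : Submodule ℂ (Fin 3 → ℂ), H ≠ ⊥ ∧ (∀ v ∈ H, β 0 * v 0 = β 1 * v 1 + β 2 * v 2) ∧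
    ∀ J : Finset (Fin 3), (∀ v ∈ H, (∀ j ∈ J, v j = 0) → v = 0) →
      (∀ w : Fin 3 → ℂ, ∃ v ∈ H, ∀ j ∈ J, v j = w j) →
      ∀ g ∈ H, (∀ j ∈ J, g j ∈ (W j).Λ) →
        ∃ n : ℕ, 0 < n ∧ n ≤ K ∧ ∀ i, (n : ℂ) * g i ∈ (W i).Λ

/-- `μ Λ` is contained in `Λ'` up to torsion of order at most `K` -/
def Few (μ : ℂ) (Λ Λ' : AddSubgroup ℂ) (K : ℕ) : Prop :=
  ∀ l ∈ Λ, ∃ n : ℕ, 0 < n ∧ n ≤ K ∧ (n : ℂ) * μ * l ∈ Λ'

/-! ### rational curves -/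

/-- the coordinate functions `x_i = A_i / B_i` -/
noncomputable def xv (A B : Fin 3 → Polynomial ℂ) (i : Fin 3) (t : ℂ) : ℂ :=
  (A i).eval t / (B i).eval t

/-- lowest terms, all poles finite, nonconstant, poles pairwise disjoint -/
def Adm (A B : Fin 3 → Polynomial ℂ) : Prop :=
  (∀ i, (A i).natDegree ≤ (B i).natDegree ∧ 0 < (B i).natDegree ∧ IsCoprime (A i) (B i)) ∧
    ∀ i j, i ≠ j → IsCoprime (B i) (B j)

/-- algebraic coefficients -/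
def Alg (A : Fin 3 → Polynomial ℂ) : Prop := ∀ i n, IsAlgebraic ℚ ((A i).coeff n)

/-- `t` is not a pole -/
def NP (B : Fin 3 → Polynomial ℂ) (t : ℂ) : Prop := ∀ i, (B i).eval t ≠ 0

/-! ### counting -/

/-- nondegeneracy of a chart -/
def NDeg {κ : Type} (f : κ → ℂ → ℂ) (Cn : ℕ → ℕ) (M : ℝ) : Prop :=
  ∀ (e : ℕ) (c : MvPolynomial κ ℤ), c ≠ 0 → c.totalDegree ≤ e →
    ∃ s0 : ℂ, ‖s0‖ ≤ 2 ∧ 1 ≤ M ^ Cn e * ‖MvPolynomial.aeval (fun i ↦ f i s0) c‖ ∧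
      ∀ s : ℂ, ‖s‖ ≤ 10 → ‖MvPolynomial.aeval (fun i ↦ f i s) c‖ ≤
        2 ^ Cn e * ‖MvPolynomial.aeval (fun i ↦ f i s0) c‖

/-- `τ'` is the image of `τ` under an integral matrix of determinant `n` -/
def Rel (n : ℕ) (τ τ' : ℂ) : Prop := ∃ a b c d : ℤ, a * d - b * c = n ∧ Mob a b c d τ τ'

end Pool.Agent.Lib.ZP3
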