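import Pool.Agent.Lib.ZP3.Height
import Pool.Agent.Lib.ZP3.IsoEst
import Pool.Agent.Lib.ZP3.IntPts
import Pool.Agent.Lib.ZP3.Count
import Pool.Agent.Lib.ZP3.Curve
import Pool.Agent.Lib.ZP3.Hecke
import Pool.Agent.Lib.ZP3.JBasic
import Pool.Agent.Lib.ZP3.Arith

open UpperHalfPlane Filter Topology Metric
open scoped Real

namespace Pool.Agent.Lib.ZP3

open Pool.Agent.Lib.MP_0704bf_ag Pool.Agent.Lib.helper6

namespace Fin

lemma exists_minIso {x y : ℂ} (h : ∃ n, 0 < n ∧ Iso n x y) : ∃ n, MinIso n x y := by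
  classical
  refine ⟨Nat.find h, (Nat.find_spec h).1, (Nat.find_spec h).2, fun n h1 h2 ↦ ?_⟩
  exact Nat.find_min' h ⟨h1, h2⟩

/-- uniform constants over a finite family -/
lemma unif {α : Type*} {s : Set α} (hs : s.Finite) {P : α → ℕ → ℕ → Prop}
    (hmono : ∀ a C k C' k', C ≤ C' → k ≤ k' → P a C k → P a C' k')
    (h : ∀ a ∈ s, ∃ C k, P a C k) : ∃ C k, ∀ a ∈ s, P a C k := by
  induction s, hs using Set.Finite.induction_on with
  | empty => exact ⟨0, 0, by simp⟩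
  | @insert a s _ _ ih =>
    obtain ⟨C, k, h1⟩ := h a (Set.mem_insert _ _)
    obtain ⟨C', k', h2⟩ := ih fun b hb ↦ h b (Set.mem_insert_of_mem _ hb)
    refine ⟨max C C', max k k', ?_⟩
    rintro b (rfl | hb)
    · exact hmono _ _ _ _ _ (le_max_left _ _) (le_max_left _ _) h1
    · exact hmono _ _ _ _ _ (le_max_right _ _) (le_max_right _ _) (h2 b hb)

lemma pow_mono_aux {a C k C' k' : ℕ} (ha : 1 ≤ a) (hC : C ≤ C') (hk : k ≤ k') :
    (C : ℝ) * (a : ℝ) ^ k ≤ C' * (a : ℝ) ^ k' := by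
  have h1 : (1 : ℝ) ≤ a := by exact_mod_cast ha
  have h2 : (C : ℝ) ≤ C' := by exact_mod_cast hC
  exact mul_le_mul h2 (pow_le_pow_right₀ h1 hk) (by positivity) (by positivity)

/-- the family of conjugate curves -/
def fam (A B : Fin 3 → Polynomial ℂ) : Set ((Fin 3 → Polynomial ℂ) × (Fin 3 → Polynomial ℂ)) :=
  Set.range fun σ : ℂ →+* ℂ ↦ (fun i ↦ (A i).map σ, fun i ↦ (B i).map σ)

lemma fam_finite {A B : Fin 3 → Polynomial ℂ} (hA : Alg A) (hB : Alg B) : (fam A B).Finite := by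
  refine (hA.finite.prod hB.finite).subset ?_
  rintro _ ⟨σ, rfl⟩
  exact ⟨⟨σ, rfl⟩, ⟨σ, rfl⟩⟩

lemma int_conj {B : Fin 3 → Polynomial ℂ} {t : ℂ} {d0 : ℕ}
    (h : ∀ i P, (B i).eval P = 0 → IsIntegral ℤ ((d0 : ℂ) / (t - P))) (hB : ∀ i, B i ≠ 0)
    (σ : ℂ →+* ℂ) (i : Fin 3) (P : ℂ) (hP : ((B i).map σ).eval P = 0) :
    IsIntegral ℤ ((d0 : ℂ) / (σ t - P)) := by
  have h1 : ((B i).map σ).roots = (B i).roots.map σ :=
    (IsAlgClosed.splits (B i)).roots_map σ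
  have h2 : P ∈ ((B i).map σ).roots := by
    rw [Polynomial.mem_roots (Polynomial.map_ne_zero (hB i))]
    exact hP
  rw [h1, Multiset.mem_map] at h2
  obtain ⟨Q, hQ, rfl⟩ := h2
  have h3 := (h i Q ((Polynomial.mem_roots (hB i)).mp hQ)).map σ.toIntAlgHom
  simpa using h3

/-- height bound for all conjugates -/
lemma height_all {A B : Fin 3 → Polynomial ℂ} (h : Adm A B) (hA : Alg A) (hB : Alg B) {d0 : ℕ}
    (hd0 : 0 < d0) : ∃ C k : ℕ, ∀ (t : ℂ) (a : ℕ), 1 ≤ a → NP B t →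
      (∀ i P, (B i).eval P = 0 → IsIntegral ℤ ((d0 : ℂ) / (t - P))) → Deg t a →
      (∀ i j, ∃ n, MinIso n (xv A B i t) (xv A B j t) ∧ (n : ℝ) ≤ Real.exp a) →
      ∀ (σ : ℂ →+* ℂ) i, Real.log (1 + ‖σ (xv A B i t)‖) ≤ C * (a : ℝ) ^ k := by
  classical
  obtain ⟨C, k, hC⟩ := unif (fam_finite hA hB) (P := fun AB C k ↦ ∀ (t : ℂ) (a : ℕ), 1 ≤ a →
      NP AB.2 t → (∀ i P, (AB.2 i).eval P = 0 → IsIntegral ℤ ((d0 : ℂ) / (t - P))) → Deg t a →
      (∀ i j, ∃ n, MinIso n (xv AB.1 AB.2 i t) (xv AB.1 AB.2 j t) ∧ (n : ℝ) ≤ Real.exp a) →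
      (∀ (σ : ℂ →+* ℂ) i, Real.log (1 + ‖σ (xv AB.1 AB.2 i t)‖) ≤ Real.exp a) →
      ∀ i, Real.log (1 + ‖xv AB.1 AB.2 i t‖) ≤ C * (a : ℝ) ^ k)
    (fun AB C k C' k' h1 h2 H t a ha g1 g2 g3 g4 g5 i ↦
      (H t a ha g1 g2 g3 g4 g5 i).trans (pow_mono_aux ha h1 h2))
    (by
      rintro _ ⟨σ, rfl⟩
      exact height_bound (h.conj σ) (hA.conj σ) (hB.conj σ) hd0)
  obtain ⟨C', hC'⟩ := boot_log C k
  refine ⟨C', k, fun t a ha hNP hint hdeg hiso ↦ ?_⟩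
  have hB0 : ∀ i, B i ≠ 0 := fun i h0 ↦ hNP i (by simp [h0])
  -- the finite set of values
  let V : Set ℝ := Set.range fun p : (ℂ →+* ℂ) × Fin 3 ↦ Real.log (1 + ‖p.1 (xv A B p.2 t)‖)
  have hV : V.Finite := by
    obtain ⟨E, -, hE⟩ := hdeg
    refine ((((fam_finite hA hB).prod E.finite_toSet).prod
      (Set.finite_univ (α := Fin 3))).image
      (fun q ↦ Real.log (1 + ‖xv q.1.1.1 q.1.1.2 q.2 q.1.2‖))).subset ?_
    rintro _ ⟨⟨σ, i⟩, rfl⟩
    exact ⟨(((fun i ↦ (A i).map σ, fun i ↦ (B i).map σ), σ t), i),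
      ⟨⟨⟨σ, rfl⟩, hE σ⟩, trivial⟩, by simp only [xv_conj]⟩
  obtain ⟨H, ⟨⟨σ0, i0⟩, hH0⟩, hH⟩ := hV.exists_maximalFor id V ⟨_, ⟨(RingHom.id ℂ, 0), rfl⟩⟩
  have hle : ∀ (σ : ℂ →+* ℂ) i, Real.log (1 + ‖σ (xv A B i t)‖) ≤ H := by
    intro σ i
    by_contra hlt
    push Not at hlt
    exact absurd (hH ⟨(σ, i), rfl⟩ hlt.le) (not_le.mpr hlt)
  have hH1 : 0 ≤ H := by
    rw [← hH0]
    exact Real.log_nonneg (by linarith [norm_nonneg (σ0 (xv A B i0 t))])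
  suffices H ≤ C' * (a : ℝ) ^ k from fun σ i ↦ (hle σ i).trans this
  refine hC' H a hH1 ha ?_
  set a' := a + ⌈Real.log (1 + H)⌉₊ with ha'
  have hlog : 0 ≤ Real.log (1 + H) := Real.log_nonneg (by linarith)
  have h1 : (a' : ℝ) ≤ a + Real.log (1 + H) + 1 := by
    rw [ha']
    push_cast
    linarith [Nat.ceil_lt_add_one hlog]
  have h2 : H ≤ Real.exp a' := by
    have : Real.log (1 + H) ≤ a' := by
      rw [ha']
      push_cast
      linarith [Nat.le_ceil (Real.log (1 + H)), (Nat.cast_nonneg a : (0 : ℝ) ≤ a)]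
    have := Real.exp_le_exp.mpr this
    rw [Real.exp_log (by linarith)] at this
    linarith
  have haa : a ≤ a' := Nat.le_add_right _ _
  have h3 := hC _ ⟨σ0, rfl⟩ (σ0 t) a' (ha.trans haa) (hNP.conj σ0) (int_conj hint hB0 σ0)
    ((hdeg.conj σ0).mono haa) (fun i j ↦ by
      obtain ⟨n, hn, hn'⟩ := hiso i j
      refine ⟨n, ?_, hn'.trans (Real.exp_le_exp.mpr (by exact_mod_cast haa))⟩
      simp only [xv_conj]
      exact hn.conj σ0) (fun σ i ↦ by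
      simp only [xv_conj]
      exact (hle (σ.comp σ0) i).trans h2) i0
  simp only [xv_conj] at h3
  simp only at hH0
  rw [hH0] at h3
  refine h3.trans (mul_le_mul_of_nonneg_left (pow_le_pow_left₀ (by positivity) h1 k)
    (by positivity))

/-- the isogeny degrees are polynomially bounded by the degree of the point -/
lemma iso_le {A B : Fin 3 → Polynomial ℂ} (h : Adm A B) (hA : Alg A) (hB : Alg B) {d0 : ℕ}
    (hd0 : 0 < d0) : ∃ C k : ℕ, ∀ (t : ℂ) (D : ℕ) (n : Fin 3 → Fin 3 → ℕ), 1 ≤ D → NP B t →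
      (∀ i P, (B i).eval P = 0 → IsIntegral ℤ ((d0 : ℂ) / (t - P))) → Deg t D →
      (∀ i j, MinIso (n i j) (xv A B i t) (xv A B j t)) → ∀ i j, (n i j : ℝ) ≤ C * (D : ℝ) ^ k := by
  classical
  obtain ⟨C1, k1, h1⟩ := height_all h hA hB hd0
  have hB0 : ∀ i, B i ≠ 0 := fun i h0 ↦ by
    have := (h.1 i).2.1
    simp [h0] at this
  choose d hd hd' using fun i ↦ integral_div (hA i) (hB i) (hB0 i) (h.1 i).1 hd0
  choose cA hcA hcA' using fun i ↦ deg_eval (hA i)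
  choose cB hcB hcB' using fun i ↦ deg_eval (hB i)
  set dd := ∏ i, d i with hdd
  have hdd0 : 0 < dd := Finset.prod_pos fun i _ ↦ hd i
  obtain ⟨C2, k2, h2⟩ := isogeny_estimate dd hdd0
  set c := ∑ i, cA i * cB i + dd + C1 + 1 with hc
  obtain ⟨C3, h3⟩ := boot_log (C2 * c ^ k2) ((k1 + 2) * k2)
  refine ⟨C3, (k1 + 2) * k2, fun t D n hD hNP hint hdeg hmin ↦ ?_⟩
  obtain ⟨⟨i0, j0⟩, -, hmax⟩ := Finset.exists_max_image (Finset.univ : Finset (Fin 3 × Fin 3))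
    (fun p ↦ n p.1 p.2) Finset.univ_nonempty
  set N := n i0 j0 with hN
  suffices (N : ℝ) ≤ C3 * (D : ℝ) ^ ((k1 + 2) * k2) from fun i j ↦
    le_trans (by exact_mod_cast hmax (i, j) (Finset.mem_univ _)) this
  refine h3 N D (by positivity) hD ?_
  set a := D + ⌈Real.log (1 + N)⌉₊ with ha
  have hlog : 0 ≤ Real.log (1 + N) := Real.log_nonneg (by linarith [Nat.cast_nonneg (α := ℝ) N])
  have ha1 : (a : ℝ) ≤ D + Real.log (1 + N) + 1 := by
    rw [ha]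
    push_cast
    linarith [Nat.ceil_lt_add_one hlog]
  have ha2 : (N : ℝ) ≤ Real.exp a := by
    have : Real.log (1 + N) ≤ a := by
      rw [ha]
      push_cast
      linarith [Nat.le_ceil (Real.log (1 + N)), (Nat.cast_nonneg D : (0 : ℝ) ≤ D)]
    have := Real.exp_le_exp.mpr this
    rw [Real.exp_log (by positivity)] at this
    linarith
  have hDa : D ≤ a := Nat.le_add_right _ _
  have ha0 : 1 ≤ a := hD.trans hDa
  have hH := h1 t a ha0 hNP hint (hdeg.mono hDa) fun i j ↦ ⟨n i j, hmin i j,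
    le_trans (by exact_mod_cast hmax (i, j) (Finset.mem_univ _)) ha2⟩
  set a1 := c * a ^ (k1 + 2) with ha1'
  have hpow : ∀ m, m ≤ k1 + 2 → a ^ m ≤ a ^ (k1 + 2) := fun m hm ↦ Nat.pow_le_pow_right ha0 hm
  have hc1 : 1 ≤ c := by omega
  have haa1 : a ≤ a1 := by
    have := hpow 1 (by omega)
    rw [pow_one] at this
    nlinarith
  have hAI : ∀ i, AI (dd * xv A B i t) a1 := by
    intro i
    refine ⟨?_, ?_, fun σ ↦ ?_⟩
    · obtain ⟨e, he⟩ : d i ∣ dd := Finset.dvd_prod_of_mem _ (Finset.mem_univ i)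
      have := (hd' i t (hNP i) (hint i)).nsmul e
      convert this using 1
      rw [he, xv]
      simp only [nsmul_eq_mul]
      push_cast
      ring
    · have h4 := ((hcA' i t a (hdeg.mono hDa)).mul (hcB' i t a (hdeg.mono hDa)).inv)
      have h5 := (deg_int dd).mul h4
      have e : ((dd : ℤ) : ℂ) * ((A i).eval t * ((B i).eval t)⁻¹) = dd * xv A B i t := by
        simp [xv, div_eq_mul_inv]
      rw [e] at h5
      refine h5.mono ?_
      have h6 : cA i * cB i ≤ c := by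
        have := Finset.single_le_sum (f := fun i ↦ cA i * cB i) (fun _ _ ↦ Nat.zero_le _)
          (Finset.mem_univ i)
        omega
      calc 1 * (cA i * a * (cB i * a)) = (cA i * cB i) * a ^ 2 := by ring
        _ ≤ c * a ^ (k1 + 2) := Nat.mul_le_mul h6 (hpow 2 (by omega))
    · have h4 := Real.exp_le_exp.mpr (hH σ i)
      rw [Real.exp_log (by positivity)] at h4
      rw [map_mul, map_natCast, norm_mul, Complex.norm_natCast]
      have h5 : (dd : ℝ) ≤ Real.exp dd := by linarith [Real.add_one_le_exp (dd : ℝ)]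
      calc (dd : ℝ) * ‖σ (xv A B i t)‖ ≤ Real.exp dd * Real.exp (C1 * (a : ℝ) ^ k1) :=
            mul_le_mul h5 (by linarith) (norm_nonneg _) (by positivity)
        _ = Real.exp (dd + C1 * (a : ℝ) ^ k1) := by rw [Real.exp_add]
        _ ≤ Real.exp a1 := by
          refine Real.exp_le_exp.mpr ?_
          have h6 : dd + C1 * a ^ k1 ≤ a1 := by
            have h7 := hpow k1 (by omega)
            have h8 := hpow 0 (by omega)
            rw [pow_zero] at h8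
            have h9 : dd + C1 ≤ c := by omega
            calc dd + C1 * a ^ k1 ≤ dd * a ^ (k1 + 2) + C1 * a ^ (k1 + 2) :=
                  Nat.add_le_add (by nlinarith) (Nat.mul_le_mul_left _ h7)
              _ = (dd + C1) * a ^ (k1 + 2) := by ring
              _ ≤ a1 := Nat.mul_le_mul_right _ h9
          exact_mod_cast h6
  have h4 := h2 _ _ N a1 (ha0.trans haa1) (hAI i0) (hAI j0) (hmin i0 j0)
    (ha2.trans (Real.exp_le_exp.mpr (by exact_mod_cast haa1)))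
  have h5 : (N : ℝ) ≤ (C2 * c ^ k2 : ℕ) * (a : ℝ) ^ ((k1 + 2) * k2) := by
    have : C2 * a1 ^ k2 = (C2 * c ^ k2) * a ^ ((k1 + 2) * k2) := by
      rw [ha1', mul_pow, ← pow_mul, mul_assoc]
    rw [this] at h4
    exact_mod_cast h4
  exact h5.trans (mul_le_mul_of_nonneg_left (pow_le_pow_left₀ (by positivity) ha1 _)
    (by positivity))

/-- the number of conjugates of a special point is small -/
lemma deg_le {A B : Fin 3 → Polynomial ℂ} (h : Adm A B) (hA : Alg A) (hB : Alg B) {ε : ℝ}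
    (hε : 0 < ε) : ∃ C : ℝ, ∀ (t : ℂ) (M : ℝ) (n1 n2 : ℕ), 2 ≤ M → 0 < n1 → (n1 : ℝ) ≤ M →
      0 < n2 → (n2 : ℝ) ≤ M → NP B t → Iso n1 (xv A B 0 t) (xv A B 1 t) →
      Iso n2 (xv A B 0 t) (xv A B 2 t) → ∃ D : ℕ, 1 ≤ D ∧ Deg t D ∧ (D : ℝ) ≤ C * M ^ ε := by
  classical
  obtain ⟨C, -, hC⟩ := unif (fam_finite hA hB) (P := fun AB C _ ↦ ∀ (M : ℝ) (n1 n2 : ℕ)
      (S : Finset ℂ), 2 ≤ M → 0 < n1 → (n1 : ℝ) ≤ M → 0 < n2 → (n2 : ℝ) ≤ M →
      (∀ t ∈ S, NP AB.2 t ∧ Iso n1 (xv AB.1 AB.2 0 t) (xv AB.1 AB.2 1 t) ∧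
        Iso n2 (xv AB.1 AB.2 0 t) (xv AB.1 AB.2 2 t)) → (S.card : ℝ) ≤ C * M ^ ε)
    (fun AB C k C' k' h1 _ H M n1 n2 S g1 g2 g3 g4 g5 g6 ↦
      (H M n1 n2 S g1 g2 g3 g4 g5 g6).trans (mul_le_mul_of_nonneg_right (by exact_mod_cast h1)
        (by positivity)))
    (by
      rintro _ ⟨σ, rfl⟩
      obtain ⟨C, hC⟩ := count (h.conj σ) hε
      exact ⟨⌈C⌉₊, 0, fun M n1 n2 S g1 g2 g3 g4 g5 g6 ↦ (hC M n1 n2 S g1 g2 g3 g4 g5 g6).trans
        (mul_le_mul_of_nonneg_right (Nat.le_ceil C) (by positivity))⟩)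
  set F := (fam_finite hA hB).toFinset with hF
  refine ⟨F.card * C, fun t M n1 n2 hM h1 h1' h2 h2' hNP i1 i2 ↦ ?_⟩
  obtain ⟨D0, -, E, -, hE⟩ := deg_of_alg (iso_algebraic h hA hB (i := 0) (j := 1) (by decide) h1
    hNP i1)
  let S : (Fin 3 → Polynomial ℂ) × (Fin 3 → Polynomial ℂ) → Finset ℂ := fun AB ↦
    E.filter fun s ↦ NP AB.2 s ∧ Iso n1 (xv AB.1 AB.2 0 s) (xv AB.1 AB.2 1 s) ∧
      Iso n2 (xv AB.1 AB.2 0 s) (xv AB.1 AB.2 2 s)
  have hmem : ∀ σ : ℂ →+* ℂ, σ t ∈ F.biUnion S := by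
    intro σ
    rw [Finset.mem_biUnion]
    refine ⟨(fun i ↦ (A i).map σ, fun i ↦ (B i).map σ), by
      rw [hF, Set.Finite.mem_toFinset]; exact ⟨σ, rfl⟩, ?_⟩
    rw [Finset.mem_filter]
    refine ⟨hE σ, hNP.conj σ, ?_, ?_⟩
    · simp only [xv_conj]
      exact (iso_conj_iff h1 _ _ σ).mpr i1
    · simp only [xv_conj]
      exact (iso_conj_iff h2 _ _ σ).mpr i2
  refine ⟨(F.biUnion S).card, Finset.card_pos.mpr ⟨_, hmem (RingHom.id ℂ)⟩,
    ⟨_, le_rfl, hmem⟩, ?_⟩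
  calc ((F.biUnion S).card : ℝ) ≤ ∑ AB ∈ F, ((S AB).card : ℝ) := by
        exact_mod_cast Finset.card_biUnion_le
    _ ≤ ∑ AB ∈ F, C * M ^ ε := Finset.sum_le_sum fun AB hAB ↦
        hC AB (by rwa [hF, Set.Finite.mem_toFinset] at hAB) M n1 n2 _ hM h1 h1' h2 h2'
          fun s hs ↦ (Finset.mem_filter.mp hs).2
    _ = F.card * C * M ^ ε := by rw [Finset.sum_const, nsmul_eq_mul, mul_assoc]

end Fin

theorem finite_adm {A B : Fin 3 → Polynomial ℂ} (h : Adm A B) (hA : Alg A) (hB : Alg B) :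
    {t : ℂ | NP B t ∧ ∀ i j, ∃ n, 0 < n ∧ Iso n (xv A B i t) (xv A B j t)}.Finite := by
  obtain ⟨d0, Z, hd0, hZ, hint⟩ := integral_points h hA hB
  obtain ⟨C1, k, h1⟩ := Fin.iso_le h hA hB hd0
  have hε : (0 : ℝ) < 1 / (2 * k + 2) := by positivity
  obtain ⟨C2, h2⟩ := Fin.deg_le h hA hB hε
  set K : ℝ := C1 * |C2| ^ k with hK
  obtain ⟨N0, hN0⟩ := exists_nat_ge (4 * (K + 1) ^ 2)
  refine (hZ.union ((Set.finite_Icc 1 N0).biUnion fun n hn ↦
    iso_finite h (i := 0) (j := 1) (by decide) (n := n) hn.1)).subset ?_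
  rintro t ⟨hNP, hiso⟩
  by_cases htZ : t ∈ Z
  · exact Or.inl htZ
  right
  choose n hn using fun i j ↦ Fin.exists_minIso (hiso i j)
  set M : ℝ := n 0 1 + n 0 2 with hM
  have p1 : (1 : ℝ) ≤ n 0 1 := by exact_mod_cast (hn 0 1).1
  have p2 : (1 : ℝ) ≤ n 0 2 := by exact_mod_cast (hn 0 2).1
  obtain ⟨D, hD1, hD, hDM⟩ := h2 t M (n 0 1) (n 0 2) (by linarith) (hn 0 1).1 (by linarith)
    (hn 0 2).1 (by linarith) hNP (hn 0 1).2.1 (hn 0 2).2.1
  have h3 := h1 t D n hD1 hNP (hint t htZ hNP hiso) hD hn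
  have hM0 : 0 < M := by linarith
  have hM1 : 1 ≤ M := by linarith
  have h4 : (D : ℝ) ^ k ≤ |C2| ^ k * √M := by
    calc (D : ℝ) ^ k ≤ (|C2| * M ^ (1 / (2 * k + 2) : ℝ)) ^ k :=
          pow_le_pow_left₀ (by positivity) (hDM.trans (mul_le_mul_of_nonneg_right (le_abs_self _)
            (by positivity))) k
      _ = |C2| ^ k * M ^ ((1 / (2 * k + 2) : ℝ) * k) := by
          rw [mul_pow, Real.rpow_mul hM0.le, Real.rpow_natCast]
      _ ≤ |C2| ^ k * √M := by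
          rw [Real.sqrt_eq_rpow]
          refine mul_le_mul_of_nonneg_left (Real.rpow_le_rpow_of_exponent_le hM1 ?_)
            (by positivity)
          rw [div_mul_eq_mul_div, div_le_div_iff₀ (by positivity) (by positivity)]
          nlinarith [(Nat.cast_nonneg k : (0 : ℝ) ≤ k)]
  have h5 : M ≤ 2 * (K * √M) := by
    have e : K * √M = C1 * (|C2| ^ k * √M) := by rw [hK]; ring
    have g1 := (h3 0 1).trans (mul_le_mul_of_nonneg_left h4 (Nat.cast_nonneg C1))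
    have g2 := (h3 0 2).trans (mul_le_mul_of_nonneg_left h4 (Nat.cast_nonneg C1))
    rw [e]
    linarith
  have hs : √M * √M = M := Real.mul_self_sqrt hM0.le
  have hs0 : 0 < √M := Real.sqrt_pos.mpr hM0
  have h6 : √M ≤ 2 * K := by
    by_contra hlt
    push Not at hlt
    nlinarith
  have hK0 : 0 ≤ K := by positivity
  have h7 : M ≤ N0 := by nlinarith
  simp only [Set.mem_iUnion]
  refine ⟨n 0 1, ⟨(hn 0 1).1, ?_⟩, hNP, (hn 0 1).2.1⟩
  have : (n 0 1 : ℝ) ≤ N0 := by linarith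
  exact_mod_cast this

theorem main (x : Fin 3 → RatFunc ℂ)
    (halg : ∀ i n, IsAlgebraic ℚ ((x i).num.coeff n) ∧ IsAlgebraic ℚ ((x i).denom.coeff n))
    (hnc : ∀ i c, x i ≠ RatFunc.C c)
    (hfin : ∀ i j, i ≠ j → ∀ P : ℂ, (x i).denom.eval P ≠ 0 ∨ (x j).denom.eval P ≠ 0)
    (hinf : ∀ i j, i ≠ j → (x i).intDegree ≤ 0 ∨ (x j).intDegree ≤ 0) :
    {t : ℂ | (∀ i, (x i).denom.eval t ≠ 0) ∧ ∃ (τ : ℍ) (g : Fin 3 → GL (Fin 2) ℚ), ∀ i,
      0 < (g i).val.det ∧ (x i).eval (RingHom.id ℂ) t =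
        jInv (Matrix.GeneralLinearGroup.map (Rat.castHom ℝ) (g i) • τ)}.Finite := by
  obtain ⟨t0, A', B', hadm, halg', hval⟩ := normalize (fun i ↦ (x i).num) (fun i ↦ (x i).denom)
    (fun i ↦ RatFunc.isCoprime_num_denom (x i)) (fun i ↦ by
      by_contra hcon
      push Not at hcon
      have h1 := Polynomial.eq_C_of_natDegree_le_zero hcon.1
      have h2 := Polynomial.eq_C_of_natDegree_le_zero hcon.2
      refine hnc i ((x i).num.coeff 0 / (x i).denom.coeff 0) ?_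
      conv_lhs => rw [← RatFunc.num_div_denom (x i), h1, h2]
      simp)
    (fun i j hij ↦ by
      rw [Polynomial.isCoprime_iff_aeval_ne_zero_of_isAlgClosed ℂ ℂ]
      simpa using hfin i j hij)
    (fun i j hij ↦ by
      have := hinf i j hij
      simp only [RatFunc.intDegree] at this
      omega)
    (fun i ↦ RatFunc.denom_ne_zero (x i))
  obtain ⟨hA', hB'⟩ := halg' (fun i n ↦ (halg i n).1) (fun i n ↦ (halg i n).2)
  refine (((finite_adm hadm hA' hB').image fun s ↦ t0 + s⁻¹).insert t0).subset ?_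
  rintro t ⟨hNP, τ, g, hg⟩
  by_cases ht : t = t0
  · exact Or.inl ht
  right
  obtain ⟨h1, h2⟩ := hval t ht hNP
  refine ⟨(t - t0)⁻¹, ⟨h1, fun i j ↦ ?_⟩, by simp⟩
  have hx : ∀ i, xv (fun i ↦ (x i).num) (fun i ↦ (x i).denom) i t =
      jInv (Matrix.GeneralLinearGroup.map (Rat.castHom ℝ) (g i) • τ) := by
    intro i
    rw [← (hg i).2]
    simp [xv, RatFunc.eval]
  rw [h2, h2, hx, hx]
  obtain ⟨N, hN, hI⟩ := iso_of_rat τ (g i) (hg i).1
  obtain ⟨N', hN', hI'⟩ := iso_of_rat τ (g j) (hg j).1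
  exact ⟨N * N', Nat.mul_pos hN hN', hI.symm.trans hI'⟩

end Pool.Agent.Lib.ZP3
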