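import Pool.Agent.Lib.ZP3.Defs2

/-! Auxiliary lemmas for the measures of logarithms. -/

open Finset
open scoped Real

namespace Pool.Agent.Lib.ZP3.GSHL

/-- sum of the absolute values of the coefficients -/
noncomputable def l1 (P : MvPolynomial (Fin 2) ℤ) : ℤ := ∑ m ∈ P.support, |P.coeff m|

lemma l1_eq (P : MvPolynomial (Fin 2) ℤ) {s : Finset (Fin 2 →₀ ℕ)} (hs : P.support ⊆ s) :
    l1 P = ∑ m ∈ s, |P.coeff m| := by
  refine Finset.sum_subset hs fun m _ hm ↦ ?_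
  rw [MvPolynomial.notMem_support_iff.1 hm, abs_zero]

lemma l1_add (P Q : MvPolynomial (Fin 2) ℤ) : l1 (P + Q) ≤ l1 P + l1 Q := by
  classical
  rw [l1_eq (P + Q) MvPolynomial.support_add, l1_eq P (s := P.support ∪ Q.support) subset_union_left,
    l1_eq Q (s := P.support ∪ Q.support) subset_union_right, ← Finset.sum_add_distrib]
  refine Finset.sum_le_sum fun m _ ↦ ?_
  rw [MvPolynomial.coeff_add]
  exact abs_add_le _ _

lemma l1_monomial (e : Fin 2 →₀ ℕ) (c : ℤ) : l1 (MvPolynomial.monomial e c) = |c| := by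
  classical
  rw [l1_eq _ MvPolynomial.support_monomial_subset]
  simp

lemma l1_sum {ι : Type} (s : Finset ι) (P : ι → MvPolynomial (Fin 2) ℤ) :
    l1 (∑ i ∈ s, P i) ≤ ∑ i ∈ s, l1 (P i) := by
  classical
  induction s using Finset.induction_on with
  | empty => simp [l1]
  | insert i s hi ih =>
    rw [Finset.sum_insert hi, Finset.sum_insert hi]
    exact (l1_add _ _).trans (by linarith)

/-- a sum of monomials with natural coefficients -/
noncomputable def ms (k : ℕ) (e0 e1 c : ℕ → ℕ) : MvPolynomial (Fin 2) ℤ :=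
  ∑ j ∈ range (k + 1),
    MvPolynomial.monomial (Finsupp.single 0 (e0 j) + Finsupp.single 1 (e1 j)) (c j : ℤ)

lemma ms_deg {k D : ℕ} {e0 e1 : ℕ → ℕ} (c : ℕ → ℕ) (h : ∀ j ≤ k, e0 j + e1 j ≤ D) :
    (ms k e0 e1 c).totalDegree ≤ D := by
  refine MvPolynomial.totalDegree_finsetSum_le fun j hj ↦ ?_
  refine (MvPolynomial.totalDegree_monomial_le _ _).trans ?_
  rw [Finsupp.sum_add_index' (by simp) (by simp)]
  simpa using h j (Nat.lt_succ_iff.1 (mem_range.1 hj))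

lemma ms_l1 (k : ℕ) (e0 e1 c : ℕ → ℕ) :
    ((l1 (ms k e0 e1 c) : ℤ) : ℝ) ≤ ((∑ j ∈ range (k + 1), c j : ℕ) : ℝ) := by
  have h := l1_sum (range (k + 1)) fun j ↦
    MvPolynomial.monomial (Finsupp.single (0 : Fin 2) (e0 j) + Finsupp.single 1 (e1 j)) (c j : ℤ)
  simp only [l1_monomial, Nat.abs_cast] at h
  have h2 : l1 (ms k e0 e1 c) ≤ ((∑ j ∈ range (k + 1), c j : ℕ) : ℤ) := by
    push_cast
    exact h
  exact_mod_cast h2

lemma ms_aeval (k : ℕ) (e0 e1 c : ℕ → ℕ) (θ α : ℂ) :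
    MvPolynomial.aeval ![θ, α] (ms k e0 e1 c) =
      ∑ j ∈ range (k + 1), (c j : ℂ) * θ ^ e0 j * α ^ e1 j := by
  rw [ms, map_sum]
  refine Finset.sum_congr rfl fun j _ ↦ ?_
  rw [MvPolynomial.aeval_monomial, Finsupp.prod_add_index' (by simp) (by simp [pow_add])]
  simp [mul_assoc]

/-- vanishing power sums with distinct nodes -/
lemma vander {ι : Type} (s : Finset ι) (ω : ι → ℂ) (hω : Set.InjOn ω s) (p : ι → ℂ)
    (h : ∀ k < s.card, ∑ i ∈ s, p i * ω i ^ k = 0) : ∀ i ∈ s, p i = 0 := by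
  classical
  intro i0 hi0
  set Q : Polynomial ℂ := ∏ i ∈ s.erase i0, (Polynomial.X - Polynomial.C (ω i)) with hQ
  have hd : Q.natDegree < s.card := by
    have : Q.natDegree = (s.erase i0).card := by
      rw [hQ, Polynomial.natDegree_prod_of_monic _ _ fun i _ ↦ Polynomial.monic_X_sub_C _]
      simp
    rw [this, Finset.card_erase_of_mem hi0]
    have := Finset.card_pos.2 ⟨i0, hi0⟩
    omega
  have h1 : ∑ i ∈ s, p i * Q.eval (ω i) = 0 := by
    have : ∀ i ∈ s, p i * Q.eval (ω i) = ∑ k ∈ range s.card, Q.coeff k * (p i * ω i ^ k) := by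
      intro i _
      rw [Polynomial.eval_eq_sum_range' hd, Finset.mul_sum]
      exact Finset.sum_congr rfl fun k _ ↦ by ring
    rw [Finset.sum_congr rfl this, Finset.sum_comm]
    refine Finset.sum_eq_zero fun k hk ↦ ?_
    rw [← Finset.mul_sum, h k (mem_range.1 hk), mul_zero]
  rw [Finset.sum_eq_single_of_mem i0 hi0] at h1
  · refine (mul_eq_zero.1 h1).resolve_right ?_
    rw [hQ, Polynomial.eval_prod]
    refine Finset.prod_ne_zero_iff.2 fun i hi ↦ ?_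
    have hi' := Finset.mem_erase.1 hi
    simp only [Polynomial.eval_sub, Polynomial.eval_X, Polynomial.eval_C]
    exact sub_ne_zero.2 fun e ↦ hi'.1 (hω hi'.2 hi0 e.symm)
  · intro i hi hne
    rw [hQ, Polynomial.eval_prod, Finset.prod_eq_zero (Finset.mem_erase.2 ⟨hne, hi⟩), mul_zero]
    simp

lemma nat_le_exp (A : ℕ) : (A : ℝ) ≤ Real.exp A := by
  have := Real.add_one_le_exp (A : ℝ)
  linarith

lemma pow_le_exp (A n : ℕ) : (A : ℝ) ^ n ≤ Real.exp (n * A) := by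
  rw [Real.exp_nat_mul]
  exact pow_le_pow_left₀ (Nat.cast_nonneg _) (nat_le_exp A) n

/-- the final rescaling -/
lemma rescale {A K n : ℕ} (hA : 1 ≤ A) :
    Real.exp (-(((1 + K) ^ n : ℕ) * (A : ℝ) ^ n)) ≤ Real.exp (-((A + K : ℕ) : ℝ) ^ n) := by
  refine Real.exp_le_exp.2 (neg_le_neg ?_)
  have h : (A + K) ^ n ≤ (1 + K) ^ n * A ^ n := by
    rw [← mul_pow]
    refine Nat.pow_le_pow_left ?_ n
    nlinarith
  exact_mod_cast h

lemma cmp {A c : ℝ} (hA : 1 ≤ A) (hc : c ≤ A) {n m : ℕ} (hn : n + 1 ≤ m) : c * A ^ n ≤ A ^ m := by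
  calc c * A ^ n ≤ A * A ^ n := by gcongr
    _ = A ^ (n + 1) := by ring
    _ ≤ A ^ m := pow_le_pow_right₀ hA hn

lemma two_cmp {A : ℝ} (hA : 2 ≤ A) {x y : ℝ} {n : ℕ} (hx : x ≤ A ^ n) (hy : y ≤ A ^ n) :
    x + y ≤ A ^ (n + 1) := by
  have : 2 * A ^ n ≤ A ^ (n + 1) := cmp (by linarith) hA le_rfl
  linarith

/-- the basic error estimate -/
lemma err {A : ℕ} (hA : 100 ≤ A) {x : ℂ} {δ : ℝ} (hδ : δ < Real.exp (-(A : ℝ) ^ 60))
    (hx : ‖x‖ ≤ 7 * (A : ℝ) ^ 17 * δ) : ‖Complex.exp x - 1‖ ≤ Real.exp (-(A : ℝ) ^ 59) := by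
  have hA' : (100 : ℝ) ≤ A := by exact_mod_cast hA
  have h1 : (1 : ℝ) ≤ A := by linarith
  have e1 : 14 * (A : ℝ) ^ 17 ≤ Real.exp (18 * A) := by
    have := pow_le_exp A 18
    push_cast at this
    exact (cmp h1 (by linarith) le_rfl).trans this
  have e2 : 18 * (A : ℝ) ≤ (A : ℝ) ^ 59 := by
    have := cmp (c := 18) (n := 1) (m := 59) h1 (by linarith) (by norm_num)
    simpa using this
  have e3 : 2 * ‖x‖ ≤ Real.exp (-(A : ℝ) ^ 59) := by
    have hp : (0 : ℝ) ≤ 14 * (A : ℝ) ^ 17 := by positivity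
    calc 2 * ‖x‖ ≤ 14 * (A : ℝ) ^ 17 * δ := by linarith
      _ ≤ 14 * (A : ℝ) ^ 17 * Real.exp (-(A : ℝ) ^ 60) := by gcongr
      _ ≤ Real.exp (18 * A) * Real.exp (-(A : ℝ) ^ 60) := by gcongr
      _ = Real.exp (18 * A - (A : ℝ) ^ 60) := by rw [← Real.exp_add]; ring_nf
      _ ≤ _ := by
        refine Real.exp_le_exp.2 ?_
        have := two_cmp (by linarith) e2 (le_refl ((A : ℝ) ^ 59))
        norm_num at this
        linarith
  have e4 : Real.exp (-(A : ℝ) ^ 59) ≤ 1 := Real.exp_le_one_iff.2 (by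
    have : (0 : ℝ) ≤ (A : ℝ) ^ 59 := by positivity
    linarith)
  exact (Complex.norm_exp_sub_one_le (by linarith [norm_nonneg x])).trans e3

lemma err2 {A : ℕ} (hA : 100 ≤ A) {X Y : ℝ} (hY0 : 0 ≤ Y) (hX : X ≤ Real.exp (50 * (A : ℝ) ^ 25))
    (hY : Y ≤ Real.exp (-(A : ℝ) ^ 59)) : X * Y ≤ Real.exp (-(A : ℝ) ^ 40) := by
  have hA' : (100 : ℝ) ≤ A := by exact_mod_cast hA
  have h1 : (1 : ℝ) ≤ A := by linarith
  calc X * Y ≤ Real.exp (50 * (A : ℝ) ^ 25) * Real.exp (-(A : ℝ) ^ 59) := by gcongr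
    _ = Real.exp (50 * (A : ℝ) ^ 25 - (A : ℝ) ^ 59) := by rw [← Real.exp_add]; ring_nf
    _ ≤ _ := by
      refine Real.exp_le_exp.2 ?_
      have e1 : 50 * (A : ℝ) ^ 25 ≤ (A : ℝ) ^ 58 := cmp h1 (by linarith) (by norm_num)
      have e2 : (A : ℝ) ^ 40 ≤ (A : ℝ) ^ 58 := pow_le_pow_right₀ h1 (by norm_num)
      have := two_cmp (by linarith) e1 e2
      norm_num at this
      linarith

lemma norm_nu : 1 ≤ ‖(2 * π * Complex.I : ℂ)‖ ∧ ‖(2 * π * Complex.I : ℂ)‖ ≤ 7 := by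
  have h : ‖(2 * π * Complex.I : ℂ)‖ = 2 * π := by
    simp [abs_of_pos Real.pi_pos]
  rw [h]
  constructor
  · linarith [Real.pi_gt_three]
  · linarith [Real.pi_lt_d2]

lemma mul_lt17 {A b s : ℕ} (hb : b < A ^ 12) (hs : s < A ^ 5) : b * s ≤ A ^ 17 := by
  calc b * s ≤ A ^ 12 * A ^ 5 := Nat.mul_le_mul hb.le hs.le
    _ = A ^ 17 := by ring

lemma add_pow_le {A a b : ℕ} (hA : 2 ≤ A) (ha : a < A ^ 12) (hb : b < A ^ 12) (k : ℕ) :
    (((a + b) ^ k : ℕ) : ℝ) ≤ Real.exp (13 * A * k) := by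
  have h1 : a + b ≤ A ^ 13 := by
    calc a + b ≤ 2 * A ^ 12 := by omega
      _ ≤ A * A ^ 12 := Nat.mul_le_mul_right _ hA
      _ = A ^ 13 := by ring
  have h2 : (((a + b) ^ k : ℕ) : ℝ) ≤ (A : ℝ) ^ (13 * k) := by
    have : (a + b) ^ k ≤ A ^ (13 * k) := by
      rw [pow_mul]
      exact Nat.pow_le_pow_left h1 k
    exact_mod_cast this
  refine h2.trans ((pow_le_exp A _).trans (le_of_eq ?_))
  push_cast
  ring_nf

/-- derivatives of `z ^ a exp (w z)` -/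
lemma deriv_hl (a k : ℕ) (w z : ℂ) :
    iteratedDeriv k (fun z ↦ z ^ a * Complex.exp (w * z)) z =
      (∑ j ∈ range (k + 1), (k.choose j : ℂ) * (a.descFactorial j * z ^ (a - j)) * w ^ (k - j)) *
        Complex.exp (w * z) := by
  rw [iteratedDeriv_fun_mul (by fun_prop) (by fun_prop), Finset.sum_mul]
  refine Finset.sum_congr rfl fun j _ ↦ ?_
  rw [iteratedDeriv_pow, iteratedDeriv_cexp_const_mul]
  ring

end Pool.Agent.Lib.ZP3.GSHL
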