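import Pool.Agent.Lib.ZP3.HeckeA
import Pool.Agent.Lib.ZP3.Arith

/-! Integral expansions and the modular polynomials over the integers. -/

open UpperHalfPlane Filter Topology ModularForm PowerSeries
open scoped Real MatrixGroups Manifold

namespace Pool.Agent.Lib.ZP3.Hk

open Pool.Agent.Lib.MP_0704bf_ag Pool.Agent.Lib.helper6

/-- fixed by all conjugations -/
def Fix (P : ℂ⟦X⟧) : Prop := ∀ σ : ℂ →+* ℂ, PowerSeries.map σ P = P

lemma map_dil (σ : ℂ →+* ℂ) (z : ℂ) (k : ℕ) (P : ℂ⟦X⟧) :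
    PowerSeries.map σ (dil z k P) = dil (σ z) k (PowerSeries.map σ P) := by
  ext m
  simp only [dil, coeff_map, coeff_mk]
  split_ifs <;> simp

lemma fix_sigS (k : ℕ) : Fix (sigS k) := by
  intro σ
  ext m
  simp [sigS]

lemma fix_delS : Fix delS := by
  intro σ
  have h : PowerSeries.map σ twS = twS := by
    ext m
    simp only [twS, coeff_map, coeff_mk, map_natCast]
  simp only [delS, map_sub, map_add, map_mul, map_pow, h, fix_sigS 3 σ, fix_sigS 5 σ, map_ofNat]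

lemma Fix.of_mul {P U E : ℂ⟦X⟧} (hU : Fix U) (hU0 : U ≠ 0) (hE : Fix E) (h : P * U = E) :
    Fix P := by
  intro σ
  apply mul_right_cancel₀ hU0
  have := congrArg (PowerSeries.map σ) h
  rw [map_mul, hU σ, hE σ] at this
  rw [this, h]

lemma delS_ne : delS ≠ 0 := by
  intro h
  have h1 := hasExp_disc UpperHalfPlane.I
  rw [h] at h1
  simp only [map_zero, zero_mul] at h1
  exact discriminant_ne_zero _ (h1.unique hasSum_zero)

lemma fix_X : Fix X := fun σ ↦ map_X σ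

lemma exists_J : ∃ J : ℂ⟦X⟧, IntS J ∧ Fix J ∧ coeff 0 J = 1 ∧ HasExp 1 (qq 1 * jInv) J := by
  obtain ⟨J, h1, h2, h3⟩ := exists_jS
  refine ⟨J, h1, ?_, h2, h3⟩
  have h4 := hasExp_mf E₄
  rw [qE4] at h4
  have h5 := h3.mul hasExp_disc
  have e : (qq 1 * jInv) * discriminant = qq 1 * ⇑E₄ ^ 3 := by
    funext τ
    have := discriminant_ne_zero τ
    simp only [Pi.mul_apply, jInv, Pi.pow_apply]
    field_simp
  rw [e] at h5
  refine Fix.of_mul fix_delS delS_ne (fun σ ↦ ?_) (h5.unique one_pos ((hasExp_qq 1).mul (h4.pow 3)))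
  simp only [map_mul, map_pow, map_add, map_one, map_X, fix_sigS 3 σ, map_ofNat]

lemma exists_V : ∃ V : ℂ⟦X⟧, IntS V ∧ Fix V ∧ HasExp 1 (fun τ ↦ qq 1 τ / discriminant τ) V := by
  obtain ⟨U, hU, hU0, hUe⟩ := exists_unitS
  have hb : IsBoundedAtImInfty (fun τ ↦ qq 1 τ / discriminant τ) := by
    have := (hUe.tendsto one_pos).inv₀ (by rw [hU0]; exact one_ne_zero)
    simp only [inv_div] at this
    exact this.isBigO_one ℝ
  have h12 : MDiff (discriminant : ℍ → ℂ) := ModularFormClass.holo CuspForm.discriminant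
  have hT : ∀ τ : ℍ, discriminant ((1 : ℝ) +ᵥ τ) = discriminant τ := by
    intro τ
    have := disc_mob (τ := τ) (τ' := (1 : ℝ) +ᵥ τ) (a := 1) (b := 1) (c := 0) (d := 1) (by norm_num)
      (by simp [Mob, add_comm])
    simpa using this
  have hV := hasExp_qExpansion one_pos (f := fun τ ↦ qq 1 τ / discriminant τ)
    (periodic_of_T fun τ ↦ by simp only [qq_vadd, hT]) ((mdiff_qq 1).div h12 discriminant_ne_zero) hb
  have e1 : (fun τ ↦ qq 1 τ / discriminant τ) * (fun τ ↦ discriminant τ / qq 1 τ) = 1 := by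
    funext τ
    have := qq_ne_zero 1 τ
    have := discriminant_ne_zero τ
    simp only [Pi.mul_apply, Pi.one_apply]
    field_simp
  have e2 : (fun τ ↦ qq 1 τ / discriminant τ) * discriminant = qq 1 := by
    funext τ
    have := discriminant_ne_zero τ
    simp only [Pi.mul_apply]
    field_simp
  have h1 := hV.mul hUe
  have h2 := hV.mul hasExp_disc
  rw [e1] at h1
  rw [e2] at h2
  exact ⟨_, IntS.of_mul_eq hU hU0 intS_one (h1.unique one_pos (hasExp_one 1)),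
    Fix.of_mul fix_delS delS_ne fix_X (h2.unique one_pos (hasExp_qq 1)), hV⟩

lemma hasExp_sum {h : ℝ} {ι : Type*} (s : Finset ι) {f : ι → ℍ → ℂ} {P : ι → ℂ⟦X⟧}
    (H : ∀ i ∈ s, HasExp h (f i) (P i)) : HasExp h (∑ i ∈ s, f i) (∑ i ∈ s, P i) := by
  classical
  induction s using Finset.induction_on with
  | empty => simpa using hasExp_zero h
  | insert i s hi ih =>
    rw [Finset.sum_insert hi, Finset.sum_insert hi]
    exact (H i (by simp)).add (ih fun j hj ↦ H j (by simp [hj]))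

lemma hasExp_prod {h : ℝ} {ι : Type*} (s : Finset ι) {f : ι → ℍ → ℂ} {P : ι → ℂ⟦X⟧}
    (H : ∀ i ∈ s, HasExp h (f i) (P i)) : HasExp h (∏ i ∈ s, f i) (∏ i ∈ s, P i) := by
  classical
  induction s using Finset.induction_on with
  | empty => simpa using hasExp_one h
  | insert i s hi ih =>
    rw [Finset.prod_insert hi, Finset.prod_insert hi]
    exact (H i (by simp)).mul (ih fun j hj ↦ H j (by simp [hj]))

lemma hasExp_level {N : ℕ} (hN : 0 < N) {f : ℍ → ℂ} {P : ℂ⟦X⟧} (h : HasExp 1 f P) :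
    HasExp N f (dil 1 N P) := h.comp (h' := N) id 1 hN (qq_one_eq hN)

/-- an invariant function with a rational integral expansion is an integer polynomial in `j` -/
lemma polyZ {N : ℕ} (hN : 0 < N) (M : ℕ) {φ : ℍ → ℂ} (hφ : Inv φ) {P : ℂ⟦X⟧}
    (hP : HasExp N (qq N ^ (N * M) * φ) P) (hI : IntS P) (hF : Fix P) :
    ∃ p : Polynomial ℤ, p.natDegree ≤ M ∧ ∀ τ, φ τ = Polynomial.aeval (jInv τ) p := by
  have hN' : (0 : ℝ) < N := by exact_mod_cast hN
  obtain ⟨p, hp1, hp2, -, hp4⟩ := hφ.poly_level hN M hP hI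
  obtain ⟨J, -, hJF, -, hJe⟩ := exists_J
  let H : Polynomial ℂ → ℂ⟦X⟧ := fun r ↦
    ∑ i ∈ Finset.range (M + 1), C (r.coeff i) * (X ^ (N * (M - i)) * dil 1 N J ^ i)
  have hH : ∀ r : Polynomial ℂ, r.natDegree ≤ M →
      HasExp N (qq N ^ (N * M) * fun τ ↦ r.eval (jInv τ)) (H r) := by
    intro r hr
    have h1 := hasExp_sum (Finset.range (M + 1)) (fun i _ ↦ (hasExp_const N (r.coeff i)).mul
      (((hasExp_qq N).pow (N * (M - i))).mul ((hasExp_level hN hJe).pow i)))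
    convert h1 using 1
    funext τ
    simp only [Pi.mul_apply, Pi.pow_apply, Finset.sum_apply]
    rw [Polynomial.eval_eq_sum_range' (Nat.lt_succ_of_le hr), Finset.mul_sum]
    refine Finset.sum_congr rfl fun i hi ↦ ?_
    obtain ⟨k, rfl⟩ : ∃ k, M = k + i := ⟨M - i, by have := Finset.mem_range.mp hi; omega⟩
    rw [qq_one_eq hN τ, Nat.add_sub_cancel]
    ring
  have hPH : P = H p := by
    refine hP.unique hN' ?_
    rw [show φ = fun τ ↦ p.eval (jInv τ) from funext hp4]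
    exact hH p hp2
  have hfix : ∀ σ : ℂ →+* ℂ, p.map σ = p := by
    intro σ
    have h1 : H (p.map σ) = H p := by
      rw [← hPH, ← hF σ, hPH]
      simp only [H, map_sum, map_mul, map_pow, map_C, map_X, map_dil, map_one, hJF σ,
        Polynomial.coeff_map]
    have h2 := hH (p.map σ) (Polynomial.natDegree_map_le.trans hp2)
    rw [h1] at h2
    refine Polynomial.eq_of_infinite_eval_eq _ _ (range_jInv_infinite.mono ?_)
    rintro _ ⟨τ, rfl⟩
    have h3 := (h2 τ).unique (hH p hp2 τ)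
    simp only [Pi.mul_apply, Pi.pow_apply] at h3
    exact mul_left_cancel₀ (pow_ne_zero _ (qq_ne_zero _ τ)) h3
  have hl : p ∈ Polynomial.lifts (algebraMap ℤ ℂ) := by
    rw [Polynomial.lifts_iff_coeff_lifts]
    intro n
    obtain ⟨z, hz⟩ := exists_int_of_fixed (hp1 n) fun σ ↦ by
      rw [← Polynomial.coeff_map, hfix σ]
    exact ⟨z, hz.symm⟩
  obtain ⟨r, hr1, hr2⟩ := Polynomial.exists_natDegree_eq_of_mem_lifts hl
  refine ⟨r, hr2.trans_le hp2, fun τ ↦ ?_⟩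
  rw [hp4, ← hr1, Polynomial.eval_map_algebraMap]

/-- the root of unity attached to a triple -/
noncomputable def zt (N : ℕ) (g : ℕ × ℕ × ℕ) : ℂ :=
  Complex.exp (2 * π * Complex.I / N) ^ (g.1 * g.2.1)

lemma zt_pow {N : ℕ} (hN : 0 < N) (g : ℕ × ℕ × ℕ) : zt N g ^ N = 1 := by
  rw [zt, ← pow_mul, mul_comm _ N, pow_mul, (Complex.isPrimitiveRoot_exp N hN.ne').pow_eq_one,
    one_pow]

lemma zt_int {N : ℕ} (hN : 0 < N) (g : ℕ × ℕ × ℕ) : IsIntegral ℤ (zt N g) :=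
  IsIntegral.of_pow hN (zt_pow hN g ▸ isIntegral_one)

lemma qq_tr {N : ℕ} (hN : 0 < N) {g : ℕ × ℕ × ℕ} (hg : g ∈ tris N) (τ : ℍ) :
    qq 1 (tr g τ) = zt N g * qq N τ ^ (g.1 ^ 2) := by
  obtain ⟨ha, hd⟩ := pos_of_mem hN hg
  have h1 : (N : ℂ) = g.1 * g.2.2 := by exact_mod_cast ((mem_tris hN).mp hg).1.symm
  have ha0 : (g.1 : ℂ) ≠ 0 := by exact_mod_cast ha.ne'
  have hd0 : (g.2.2 : ℂ) ≠ 0 := by exact_mod_cast hd.ne'
  simp only [qq, Function.Periodic.qParam, zt, coe_tr ha hd, ← Complex.exp_nat_mul,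
    ← Complex.exp_add]
  congr 1
  push_cast
  rw [h1]
  field_simp
  ring

lemma prod_conj {N : ℕ} (hN : 0 < N) {M : Type*} [CommMonoid M] (F : ℕ → ℂ → M) (σ : ℂ →+* ℂ) :
    ∏ g ∈ tris N, F g.1 (σ (zt N g)) = ∏ g ∈ tris N, F g.1 (zt N g) := by
  have : NeZero N := ⟨hN.ne'⟩
  have hζ := Complex.isPrimitiveRoot_exp N hN.ne'
  obtain ⟨s, -, hs, hσ⟩ := hζ.isPrimitiveRoot_iff.mp (hζ.map_of_injective σ.injective)
  let w : ℕ × ℕ × ℕ → ℕ × ℕ × ℕ := fun g ↦ (g.1, s * g.2.1 % g.2.2, g.2.2)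
  have hw : ∀ g ∈ tris N, w g ∈ tris N := fun g hg ↦
    (mem_tris hN).mpr ⟨((mem_tris hN).mp hg).1, Nat.mod_lt _ (pos_of_mem hN hg).2⟩
  have hinj : (tris N : Set (ℕ × ℕ × ℕ)).InjOn w := by
    rintro ⟨a, b, d⟩ h1 ⟨a', b', d'⟩ h2 he
    simp only [w, Prod.mk.injEq] at he
    obtain ⟨rfl, h3, rfl⟩ := he
    obtain ⟨h4, h5⟩ := (mem_tris hN).mp h1
    obtain ⟨-, h6⟩ := (mem_tris hN).mp h2
    have h7 : Nat.Coprime d s := (Nat.Coprime.coprime_dvd_right ⟨a, by rw [← h4]; ring⟩ hs).symm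
    have h8 := Nat.ModEq.cancel_left_of_coprime h7 h3
    rw [Nat.ModEq.eq_of_lt_of_lt h8 h5 h6]
  refine Finset.prod_nbij w hw hinj
    (Finset.surjOn_of_injOn_of_card_le w hw hinj le_rfl) fun g hg ↦ ?_
  congr 1
  have h1 := ((mem_tris hN).mp hg).1
  have h2 : s * (g.1 * g.2.1) = N * (s * g.2.1 / g.2.2) + g.1 * (s * g.2.1 % g.2.2) := by
    rw [← h1, mul_assoc, ← mul_add, Nat.div_add_mod]
    ring
  rw [zt, zt, map_pow, ← hσ, ← pow_mul, h2, pow_add, pow_mul, hζ.pow_eq_one, one_pow, one_mul]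

lemma coeff_prod {A ι : Type*} [CommRing A] (s : Finset ι) (f : ι → A) {k : ℕ} (hk : k ≤ s.card) :
    (∏ i ∈ s, (Polynomial.X - Polynomial.C (f i))).coeff k =
      ∑ t ∈ s.powersetCard (s.card - k), ∏ i ∈ t, (-f i) := by
  rw [← Finset.prod_X_add_C_coeff s _ hk]
  simp only [map_neg, sub_eq_add_neg]

lemma master {N : ℕ} (hN : 0 < N) (G : ℂ → ℂ → ℂ) (m : ℕ) (Ser : ℕ → ℂ → ℂ⟦X⟧)
    (h1 : ∀ g ∈ tris N, HasExp N (qq N ^ (N * m) * fun τ ↦ G (jInv (tr g τ)) (Ug g τ))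
      (Ser g.1 (zt N g)))
    (h2 : ∀ g ∈ tris N, IntS (Ser g.1 (zt N g)))
    (h3 : ∀ (σ : ℂ →+* ℂ) a z, PowerSeries.map σ (Ser a z) = Ser a (σ z)) :
    ∃ Φ : Polynomial (Polynomial ℤ), Φ.Monic ∧ Φ.natDegree = (tris N).card ∧
      (∀ k, (Φ.coeff k).natDegree ≤ m * ((tris N).card - k)) ∧
      ∀ τ : ℍ, Φ.map (Polynomial.aeval (jInv τ)).toRingHom =
        ∏ g ∈ tris N, (Polynomial.X - Polynomial.C (G (jInv (tr g τ)) (Ug g τ))) := by
  set n := (tris N).card with hn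
  let Ψ : ℍ → Polynomial ℂ := fun τ ↦
    ∏ g ∈ tris N, (Polynomial.X - Polynomial.C (G (jInv (tr g τ)) (Ug g τ)))
  have key : ∀ k, ∃ p : Polynomial ℤ, k ≤ n → p.natDegree ≤ m * (n - k) ∧
      ∀ τ, (Ψ τ).coeff k = Polynomial.aeval (jInv τ) p := by
    intro k
    by_cases hk : k ≤ n
    swap
    · exact ⟨0, fun h ↦ absurd h hk⟩
    have hinv : Inv fun τ ↦ (Ψ τ).coeff k := fun γ τ ↦ by
      simp only [Ψ]
      rw [prod_inv hN (fun y U ↦ Polynomial.X - Polynomial.C (G y U)) γ τ]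
    let P := (∏ g ∈ tris N, (Polynomial.X - Polynomial.C (Ser g.1 (zt N g)))).coeff k
    have hP : P = ∑ t ∈ (tris N).powersetCard (n - k), ∏ g ∈ t, -Ser g.1 (zt N g) :=
      coeff_prod _ _ hk
    have hE : HasExp N (qq N ^ (N * (m * (n - k))) * fun τ ↦ (Ψ τ).coeff k) P := by
      rw [hP]
      convert hasExp_sum _ (fun t ht ↦ hasExp_prod t fun g hg ↦
        (h1 g ((Finset.mem_powersetCard.mp ht).1 hg)).neg) using 1
      funext τ
      simp only [Ψ, Pi.mul_apply, Pi.pow_apply, Finset.sum_apply, Finset.prod_apply, Pi.neg_apply]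
      rw [coeff_prod _ _ hk, Finset.mul_sum]
      refine Finset.sum_congr rfl fun t ht ↦ ?_
      simp only [← mul_neg, Finset.prod_mul_distrib, Finset.prod_const,
        (Finset.mem_powersetCard.mp ht).2, ← pow_mul, mul_assoc]
    have hI : IntS P := by
      rw [hP, intS_iff]
      exact sum_mem fun t ht ↦ prod_mem fun g hg ↦
        neg_mem (intS_iff.mp (h2 g ((Finset.mem_powersetCard.mp ht).1 hg)))
    have hF : Fix P := by
      intro σ
      simp only [P]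
      rw [← Polynomial.coeff_map, Polynomial.map_prod]
      simp only [Polynomial.map_sub, Polynomial.map_X, Polynomial.map_C, h3]
      rw [prod_conj hN (fun a z ↦ Polynomial.X - Polynomial.C (Ser a z)) σ]
    obtain ⟨p, hp1, hp2⟩ := polyZ hN _ hinv hE hI hF
    exact ⟨p, fun _ ↦ ⟨hp1, hp2⟩⟩
  choose p hp using key
  have hdeg : (∑ k ∈ Finset.range n, Polynomial.C (p k) * Polynomial.X ^ k).degree <
      (n : WithBot ℕ) := by
    refine (Polynomial.degree_sum_le _ _).trans_lt ?_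
    rw [Finset.sup_lt_iff (WithBot.bot_lt_coe _)]
    intro k hk
    exact (Polynomial.degree_C_mul_X_pow_le _ _).trans_lt
      (by exact_mod_cast Finset.mem_range.mp hk)
  refine ⟨Polynomial.X ^ n + ∑ k ∈ Finset.range n, Polynomial.C (p k) * Polynomial.X ^ k,
    Polynomial.monic_X_pow_add hdeg, ?_, fun k ↦ ?_, fun τ ↦ ?_⟩
  · rw [Polynomial.natDegree_add_eq_left_of_degree_lt (by rwa [Polynomial.degree_X_pow]),
      Polynomial.natDegree_X_pow]
  · simp only [Polynomial.coeff_add, Polynomial.coeff_X_pow, Polynomial.finsetSum_coeff,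
      Polynomial.coeff_C_mul_X_pow, Finset.sum_ite_eq, Finset.mem_range]
    split_ifs with c1 c2 c2
    · omega
    · simp
    · simpa using (hp k c2.le).1
    · simp
  · have hm : (Ψ τ).Monic := Polynomial.monic_prod_of_monic _ _ fun f _ ↦ Polynomial.monic_X_sub_C _
    have hd : (Ψ τ).natDegree = n := by
      rw [Polynomial.natDegree_prod_of_monic _ _ fun f _ ↦ Polynomial.monic_X_sub_C _]
      simp [hn]
    change _ = Ψ τ
    rw [hm.as_sum, hd]
    simp only [Polynomial.map_add, Polynomial.map_pow, Polynomial.map_X, Polynomial.map_sum,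
      Polynomial.map_mul, Polynomial.map_C]
    congr 1
    refine Finset.sum_congr rfl fun k hk ↦ ?_
    rw [(hp k (Finset.mem_range.mp hk).le).2 τ]
    rfl

lemma hasExp_U {N : ℕ} (hN : 0 < N) {V : ℂ⟦X⟧}
    (hV : HasExp 1 (fun τ ↦ qq 1 τ / discriminant τ) V) {g : ℕ × ℕ × ℕ} (hg : g ∈ tris N) :
    HasExp N (qq N ^ N * Ug g) (C ((g.1 : ℂ) ^ 12) * (dil (zt N g) (g.1 ^ 2) delS * dil 1 N V)) := by
  have h1 := hasExp_disc.comp (h' := N) (tr g) (zt N g) (pow_pos (pos_of_mem hN hg).1 2)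
    (qq_tr hN hg)
  convert (hasExp_const N ((g.1 : ℂ) ^ 12)).mul (h1.mul (hasExp_level hN hV)) using 1
  funext τ
  simp only [Pi.mul_apply, Pi.pow_apply, Ug, Function.comp_apply, qq_one_eq hN τ]
  ring

/-- the polynomial of the multipliers -/
lemma poly_U {N : ℕ} (hN : 0 < N) : ∃ Φ : Polynomial (Polynomial ℤ), Φ.Monic ∧
    Φ.natDegree = (tris N).card ∧ (∀ k, (Φ.coeff k).natDegree ≤ (tris N).card - k) ∧
    ∀ τ : ℍ, Φ.map (Polynomial.aeval (jInv τ)).toRingHom =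
      ∏ g ∈ tris N, (Polynomial.X - Polynomial.C (Ug g τ)) := by
  obtain ⟨V, hV1, hV2, hV3⟩ := exists_V
  obtain ⟨Φ, h1, h2, h3, h4⟩ := master hN (fun _ U ↦ U) 1
    (fun a z ↦ C ((a : ℂ) ^ 12) * (dil z (a ^ 2) delS * dil 1 N V))
    (fun g hg ↦ by rw [mul_one]; exact hasExp_U hN hV3 hg)
    (fun g _ ↦ (intS_C ((isIntegral_natCast _).pow _)).mul
      ((intS_delS.dil (zt_int hN g) _).mul (hV1.dil isIntegral_one _)))
    (fun σ a z ↦ by
      simp only [map_mul, map_dil, map_pow, map_natCast, map_one, fix_delS σ, hV2 σ])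
  exact ⟨Φ, h1, h2, by simpa using h3, h4⟩

/-- the polynomial of the combinations `j + W U` -/
lemma poly_W {N : ℕ} (hN : 0 < N) (W : ℕ) : ∃ Φ : Polynomial (Polynomial ℤ), Φ.Monic ∧
    ∀ τ : ℍ, Φ.map (Polynomial.aeval (jInv τ)).toRingHom =
      ∏ g ∈ tris N, (Polynomial.X - Polynomial.C (jInv (tr g τ) + W * Ug g τ)) := by
  obtain ⟨V, hV1, hV2, hV3⟩ := exists_V
  obtain ⟨J, hJ1, hJ2, -, hJ3⟩ := exists_J
  obtain ⟨Φ, h1, -, -, h4⟩ := master hN (fun y U ↦ y + W * U) N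
    (fun a z ↦ X ^ (N * N - a ^ 2) * (C (z ^ (N - 1)) * dil z (a ^ 2) J) +
      C (W : ℂ) * (X ^ (N * N - N) * (C ((a : ℂ) ^ 12) * (dil z (a ^ 2) delS * dil 1 N V))))
    (fun g hg ↦ by
      have k1 := hJ3.comp (h' := N) (tr g) (zt N g) (pow_pos (pos_of_mem hN hg).1 2) (qq_tr hN hg)
      convert (((hasExp_qq N).pow (N * N - g.1 ^ 2)).mul
        ((hasExp_const N (zt N g ^ (N - 1))).mul k1)).add ((hasExp_const N (W : ℂ)).mul
          (((hasExp_qq N).pow (N * N - N)).mul (hasExp_U hN hV3 hg))) using 1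
      funext τ
      simp only [Pi.mul_apply, Pi.pow_apply, Pi.add_apply, Function.comp_apply, qq_tr hN hg]
      have k2 : g.1 ≤ N := ((mem_tris hN).mp hg).1 ▸ Nat.le_mul_of_pos_right _ (pos_of_mem hN hg).2
      have k3 : qq N τ ^ (N * N) = qq N τ ^ (N * N - g.1 ^ 2) * qq N τ ^ (g.1 ^ 2) := by
        rw [← pow_add, Nat.sub_add_cancel (by nlinarith)]
      have k4 : qq N τ ^ (N * N) = qq N τ ^ (N * N - N) * qq N τ ^ N := by
        rw [← pow_add, Nat.sub_add_cancel (by nlinarith)]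
      have k5 : zt N g ^ (N - 1) * zt N g = 1 := by
        rw [← pow_succ, Nat.sub_add_cancel hN, zt_pow hN]
      linear_combination jInv (tr g τ) * k3 + W * Ug g τ * k4 -
        qq N τ ^ (N * N - g.1 ^ 2) * qq N τ ^ (g.1 ^ 2) * jInv (tr g τ) * k5)
    (fun g _ ↦ ((intS_X.pow _).mul ((intS_C ((zt_int hN g).pow _)).mul
      (hJ1.dil (zt_int hN g) _))).add ((intS_C (isIntegral_natCast _)).mul ((intS_X.pow _).mul
        ((intS_C ((isIntegral_natCast _).pow _)).mul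
          ((intS_delS.dil (zt_int hN g) _).mul (hV1.dil isIntegral_one _))))))
    (fun σ a z ↦ by
      simp only [map_add, map_mul, map_C, map_X, map_dil, map_pow, map_natCast, map_one,
        fix_delS σ, hV2 σ, hJ2 σ])
  exact ⟨Φ, h1, h4⟩

end Pool.Agent.Lib.ZP3.Hk

namespace Pool.Agent.Lib.ZP3

open Pool.Agent.Lib.MP_0704bf_ag Pool.Agent.Lib.helper6

theorem exists_Jc : ∃ Jc : ℕ → ℤ, Jc 0 = 1 ∧
    HasExp 1 (qq 1 * jInv) (PowerSeries.mk fun n ↦ (Jc n : ℂ)) := by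
  obtain ⟨J, h1, h2, h3, h4⟩ := Hk.exists_J
  choose Jc hJc using fun n ↦ exists_int_of_fixed (h1 n) fun σ ↦ by
    rw [← PowerSeries.coeff_map, h2 σ]
  refine ⟨Jc, ?_, ?_⟩
  · have := hJc 0
    rw [h3] at this
    exact_mod_cast this.symm
  · convert h4 using 1
    ext n
    rw [PowerSeries.coeff_mk, hJc]

theorem ev2_map {K L : Type*} [CommRing K] [CommRing L] (σ : K →+* L)
    (Φ : Polynomial (Polynomial ℤ)) (x y : K) : σ (ev2 Φ x y) = ev2 Φ (σ x) (σ y) := by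
  have h : σ.comp (Polynomial.aeval x).toRingHom = (Polynomial.aeval (σ x)).toRingHom :=
    Polynomial.ringHom_ext' (RingHom.ext_int _ _) (by simp)
  rw [ev2, ev2, Polynomial.eval_map, Polynomial.eval_map, Polynomial.hom_eval₂, h]

theorem Hk.ev2_eq_zero {Φ : Polynomial (Polynomial ℤ)} {x y : ℂ} {ι : Type*} {s : Finset ι}
    {f : ι → ℂ} (h : Φ.map (Polynomial.aeval x).toRingHom =
      ∏ g ∈ s, (Polynomial.X - Polynomial.C (f g))) : ev2 Φ x y = 0 ↔ ∃ g ∈ s, y = f g := by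
  simp only [ev2, h, Polynomial.eval_prod, Finset.prod_eq_zero_iff, Polynomial.eval_sub,
    Polynomial.eval_X, Polynomial.eval_C, sub_eq_zero]

end Pool.Agent.Lib.ZP3
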