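import Pool.Agent.Lib.ZP3.ObsCore
import Pool.Agent.Lib.ZP3.Arith
import Pool.Agent.Lib.ZP3.WdEx
import Pool.Agent.Lib.ZP3.Baker

/-! Block OBS: the lower bound for a linear form in two periods. -/

open UpperHalfPlane Filter Topology Metric
open scoped Real

namespace Pool.Agent.Lib.ZP3

open Pool.Agent.Lib.MP_0704bf_ag Pool.Agent.Lib.helper6

open ObsAux in
/-- lower bound for `|2 π i α - d ω|`, `ω` a period of a fixed elliptic curve -/
theorem period_bound (τ : ℍ) (Ω : ℂ) (d : ℕ) (hd : 0 < d) (hj : IsIntegral ℤ (d * jInv τ))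
    (hΩ : Ω ^ 12 * (12 * d) ^ 6 = (2 * π) ^ 12 * ModularForm.discriminant τ) :
    ∃ C k : ℕ, ∀ (A : ℕ) (α : ℂ) (m n : ℤ), 1 ≤ A → AI α A → (m ≠ 0 ∨ n ≠ 0) →
      |(m : ℝ)| ≤ Real.exp A → |(n : ℝ)| ≤ Real.exp A →
      Real.exp (-(C * (A : ℝ) ^ k)) ≤ ‖α * (2 * π * Complex.I) - Ω * (m + n * τ)‖ := by
  have hΩ0 : Ω ≠ 0 := by
    rintro rfl
    have h1 := ModularForm.discriminant_ne_zero τ
    simp [h1, Real.pi_ne_zero] at hΩ
  have hτ : 0 < τ.im := τ.im_pos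
  obtain ⟨k, A0, hb⟩ := baker
  obtain ⟨W0, p0, a0, h0, hs0, ha0⟩ := exists_gm
  obtain ⟨c, -, hc⟩ := exists_ell_size (|τ.re| + 1 / τ.im)
  obtain ⟨W, hE, hY, hL, hs⟩ := hc τ Ω hΩ0 (le_add_of_nonneg_right (by positivity)) (by
    rw [add_mul, one_div_mul_cancel hτ.ne']
    exact le_add_of_nonneg_left (by positivity))
  obtain ⟨c', -, hc'⟩ := ell_ar d hd
  obtain ⟨a1, ha1⟩ := exists_AI_of_isIntegral hj
  have hAr := hc' W τ Ω (a1 + 1) hE hY hL hΩ (by omega) (ai_mono ha1 (by omega))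
  obtain ⟨a2, ha2⟩ := exists_nat_ge (τ.im + |Real.log ‖Ω‖|)
  have hn : 0 < ‖Ω‖ := norm_pos_iff.2 hΩ0
  refine period_core hb (a := a0 + c' * (a1 + 1) ^ 2 + a2 + 1) (c := c) (τ := τ) hτ hΩ0 h0
    (by omega) (size_mono hs0 (by omega)) (ar_mono ha0 (by omega)) hE.1 (ar_mono hAr (by omega))
    fun A m n hA hmn hm hn' => ?_
  have h1 : (a2 : ℝ) ≤ A := by exact_mod_cast (by omega : a2 ≤ A)
  have h2 := abs_le.1 (le_refl |Real.log ‖Ω‖|)
  refine hs A m n (by omega) (by linarith [abs_nonneg (Real.log ‖Ω‖)]) ?_ ?_ hmn hm hn'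
  · rw [← Real.exp_log hn]
    exact Real.exp_le_exp.2 (by linarith [h2.1])
  · rw [← Real.exp_log hn]
    exact Real.exp_le_exp.2 (by linarith [h2.2])

end Pool.Agent.Lib.ZP3
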