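import Pool.Agent.Lib.ZP3.HeightIso
import Pool.Agent.Lib.ZP3.Chart
import Pool.Agent.Lib.ZP3.Obs

/-! Block HB: the archimedean size of a special point is bounded by a linear form in periods. -/

open UpperHalfPlane Filter Topology Metric
open scoped Real

namespace Pool.Agent.Lib.ZP3

open Pool.Agent.Lib.MP_0704bf_ag Pool.Agent.Lib.helper6

namespace HBF

variable {ι : Type} {a : ι → ℕ} {A B : Fin 3 → Polynomial ℂ} {d0 : ℕ} {t : ι → ℂ}

theorem norm_eval_eq (p : Polynomial ℂ) (z : ℂ) :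
    ‖p.eval z‖ = ‖p.leadingCoeff‖ * (p.roots.map fun P ↦ ‖z - P‖).prod := by
  conv_lhs => rw [(IsAlgClosed.splits p).eq_prod_roots]
  rw [Polynomial.eval_mul, Polynomial.eval_C, norm_mul, Polynomial.eval_multiset_prod,
    Multiset.map_map]
  congr 1
  induction p.roots using Multiset.induction_on with
  | empty => simp
  | cons x m ih =>
    simp only [Multiset.map_cons, Multiset.prod_cons, norm_mul, ih]
    simp

theorem exists_near_root (z w : ℂ) {n : ℕ} (hn : 0 < n) :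
    ∃ α : ℂ, α ^ n = w ∧ ‖z - α‖ ^ n ≤ ‖z ^ n - w‖ := by
  set p : Polynomial ℂ := Polynomial.X ^ n - Polynomial.C w with hp
  have hm : p.Monic := Polynomial.monic_X_pow_sub_C w hn.ne'
  have hcard : p.roots.card = n := by
    rw [← (IsAlgClosed.splits p).natDegree_eq_card_roots, hp, Polynomial.natDegree_X_pow_sub_C]
  have hne : p.roots.toFinset.Nonempty := by
    rw [Multiset.toFinset_nonempty]
    intro h0
    rw [h0] at hcard
    simp at hcard
    omega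
  obtain ⟨α, hα, hmin⟩ := Finset.exists_min_image _ (fun x ↦ ‖z - x‖) hne
  refine ⟨α, ?_, ?_⟩
  · have := (Polynomial.mem_roots hm.ne_zero).1 (Multiset.mem_toFinset.1 hα)
    simpa [hp, sub_eq_zero] using this
  · have h1 := norm_eval_eq p z
    rw [hm.leadingCoeff, norm_one, one_mul] at h1
    have h2 : p.eval z = z ^ n - w := by simp [hp]
    rw [← h2, h1]
    have h3 : ‖z - α‖ ^ n = (p.roots.map fun _ ↦ ‖z - α‖).prod := by
      rw [Multiset.map_const', Multiset.prod_replicate, hcard]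
    rw [h3]
    exact Multiset.prod_map_le_prod_map₀ _ _ (fun _ _ ↦ norm_nonneg _)
      fun x hx ↦ hmin x (Multiset.mem_toFinset.2 hx)

/-- the lower bound for linear forms in periods, for families -/
theorem period_fam (ha : ∀ s, 1 ≤ a s) (τ : ℍ) (Ω : ℂ) (d : ℕ) (hd : 0 < d)
    (hj : IsIntegral ℤ (d * jInv τ))
    (hΩ : Ω ^ 12 * (12 * d) ^ 6 = (2 * π) ^ 12 * ModularForm.discriminant τ) {α : ι → ℂ}
    {m n : ι → ℤ} (hα : AN a α) (h0 : ∀ s, m s ≠ 0 ∨ n s ≠ 0) (hm : EB a fun s ↦ |(m s : ℝ)|)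
    (hn : EB a fun s ↦ |(n s : ℝ)|) :
    LB a fun s ↦ ‖α s * (2 * π * Complex.I) - Ω * (m s + n s * τ)‖ := by
  obtain ⟨C, k, hC⟩ := period_bound τ Ω d hd hj hΩ
  obtain ⟨e, D, he, hD, h1⟩ := hα.exists_AI ha
  obtain ⟨D1, hD1, hm'⟩ := (EB.const (e : ℝ)).mul ha hm fun _ ↦ abs_nonneg _
  obtain ⟨D2, hD2, hn'⟩ := (EB.const (e : ℝ)).mul ha hn fun _ ↦ abs_nonneg _
  have hS : PN a fun s ↦ D s + D1 s + D2 s + 1 :=
    ((hD.add ha hD1).add ha hD2).add ha (PN.const 1)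
  have he' : (e : ℤ) ≠ 0 := by exact_mod_cast he.ne'
  have h2 : LB a fun s ↦ ‖(e * α s) * (2 * π * Complex.I) -
      Ω * (((e * m s : ℤ) : ℂ) + ((e * n s : ℤ) : ℂ) * τ)‖ := by
    refine ⟨_, (PN.const C).mul (hS.pow k), fun s ↦ ?_⟩
    have := hC (D s + D1 s + D2 s + 1) (e * α s) (e * m s) (e * n s) (by omega)
      ((h1 s).mono (by omega)) ((h0 s).imp (mul_ne_zero he') (mul_ne_zero he'))
      (by
        push_cast
        rw [abs_mul, Nat.abs_cast]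
        refine (hm' s).trans (Real.exp_le_exp.2 ?_)
        exact_mod_cast (by omega : D1 s ≤ D s + D1 s + D2 s + 1))
      (by
        push_cast
        rw [abs_mul, Nat.abs_cast]
        refine (hn' s).trans (Real.exp_le_exp.2 ?_)
        exact_mod_cast (by omega : D2 s ≤ D s + D1 s + D2 s + 1))
    rw [Nat.cast_mul, Nat.cast_pow]
    exact this
  refine h2.of_le_mul ha (EB.const (e : ℝ)) (fun _ ↦ norm_nonneg _) fun s ↦ le_of_eq ?_
  rw [← Complex.norm_natCast e, ← norm_mul]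
  congr 1
  push_cast
  ring

/-- local data at a pole `P` of `x_l`, seen from another coordinate `x_i` -/
theorem local_data (h : Adm A B) {i l : Fin 3} (hil : i ≠ l) {P : ℂ} (hP : (B l).eval P = 0) :
    ∃ (E : ℕ) (r K : ℝ) (g : ℂ → ℂ), 0 < E ∧ 0 < r ∧ 0 < (g 0).im ∧ jc (g 0) = xv A B i P ∧
      ∀ u : ℂ, ‖u‖ < r → ‖u‖ ≤ 1 ∧ (g 0).im / 2 ≤ (g u).im ∧ ‖g u‖ ≤ ‖g 0‖ + 1 ∧
        jc (g u) = xv A B i (P + u ^ E) ∧ ‖g u - g 0‖ ≤ K * ‖u‖ ∧
        ‖ModularForm.eta (g u) ^ 24 - ModularForm.eta (g 0) ^ 24‖ ≤ K * ‖u‖ ∧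
        (A l).eval (P + u ^ E) ≠ 0 ∧
        ‖(B i).eval (P + u ^ E) / (A l).eval (P + u ^ E) - (B i).eval P / (A l).eval P‖ ≤
          K * ‖u‖ ∧
        ‖(B l).eval (P + u ^ E) / (A l).eval (P + u ^ E)‖ ≤ K * ‖u‖ := by
  obtain ⟨E, m, r, g, hE, -, hr, hg, h1, -⟩ := chart_cusp h hP
  have h0 := h1 0 (mem_ball_self hr) i hil
  have hz : P + (0 : ℂ) ^ E = P := by rw [zero_pow hE.ne', add_zero]
  have hA0 : (A l).eval P ≠ 0 := eval_ne_zero_of_coprime (h.1 l).2.2 hP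
  have hgd : DifferentiableAt ℂ (g i) 0 := (hg i 0 (mem_ball_self hr)).differentiableAt
  have hev : ∀ p : Polynomial ℂ, DifferentiableAt ℂ (fun u : ℂ ↦ p.eval (P + u ^ E)) 0 :=
    fun p ↦ p.differentiableAt.comp (0 : ℂ) (f := fun u : ℂ ↦ P + u ^ E) (by fun_prop)
  have hA0' : (A l).eval (P + (0 : ℂ) ^ E) ≠ 0 := by rwa [hz]
  obtain ⟨K1, hK1⟩ := lip_of_differentiableAt hgd
  obtain ⟨K2, hK2⟩ := lip_of_differentiableAt (φ := fun u ↦ ModularForm.eta (g i u) ^ 24)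
    (((ModularForm.differentiableAt_eta_of_mem_upperHalfPlaneSet h0.1).comp 0 hgd).pow 24)
  obtain ⟨K3, hK3⟩ := lip_of_differentiableAt
    (φ := fun u ↦ (B i).eval (P + u ^ E) / (A l).eval (P + u ^ E)) ((hev _).div (hev _) hA0')
  obtain ⟨K4, hK4⟩ := lip_of_differentiableAt
    (φ := fun u ↦ (B l).eval (P + u ^ E) / (A l).eval (P + u ^ E)) ((hev _).div (hev _) hA0')
  have e1 : ∀ᶠ u in 𝓝 (0 : ℂ), u ∈ ball (0 : ℂ) r := ball_mem_nhds _ hr
  have e2 : ∀ᶠ u in 𝓝 (0 : ℂ), u ∈ ball (0 : ℂ) 1 := ball_mem_nhds _ one_pos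
  have e3 : ∀ᶠ u in 𝓝 (0 : ℂ), (g i 0).im / 2 < (g i u).im :=
    (Complex.continuous_im.continuousAt.comp hgd.continuousAt).eventually
      (lt_mem_nhds (by have := h0.1; simp only [Function.comp]; linarith))
  have e4 : ∀ᶠ u in 𝓝 (0 : ℂ), ‖g i u‖ < ‖g i 0‖ + 1 :=
    hgd.continuousAt.norm.eventually (gt_mem_nhds (by linarith))
  have e5 : ∀ᶠ u in 𝓝 (0 : ℂ), (A l).eval (P + u ^ E) ≠ 0 :=
    (hev _).continuousAt.eventually_ne hA0'
  obtain ⟨r1, hr1, hall⟩ := Metric.eventually_nhds_iff.1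
    (e1.and (e2.and (e3.and (e4.and (e5.and (hK1.and (hK2.and (hK3.and hK4))))))))
  refine ⟨E, r1, |K1| + |K2| + |K3| + |K4|, g i, hE, hr1, h0.1, by rw [h0.2, hz], fun u hu ↦ ?_⟩
  obtain ⟨f1, f2, f3, f4, f5, f6, f7, f8, f9⟩ := hall (y := u) (by simpa using hu)
  have a1 := abs_nonneg K1
  have a2 := abs_nonneg K2
  have a3 := abs_nonneg K3
  have a4 := abs_nonneg K4
  have key : ∀ K : ℝ, |K| ≤ |K1| + |K2| + |K3| + |K4| →
      K * ‖u‖ ≤ (|K1| + |K2| + |K3| + |K4|) * ‖u‖ := fun K hK ↦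
    mul_le_mul_of_nonneg_right ((le_abs_self K).trans hK) (norm_nonneg _)
  rw [hz] at f8 f9
  rw [hP, zero_div, sub_zero] at f9
  exact ⟨(mem_ball_zero_iff.1 f2).le, f3.le, f4.le, (h1 u f1 i hil).2,
    f6.trans (key _ (by linarith)), f7.trans (key _ (by linarith)), f5,
    f8.trans (key _ (by linarith)), f9.trans (key _ (by linarith))⟩

/-- equal degrees: a linear form in periods -/
theorem case_le (h : Adm A B) (hA : Alg A) (hB : Alg B) (hd0 : 0 < d0) {i l : Fin 3} (hil : i ≠ l)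
    (hdeg : (B l).natDegree ≤ (B i).natDegree) {P : ℂ} (hP : (B l).eval P = 0) :
    ∃ r0 : ℝ, 0 < r0 ∧ ∀ (ι : Type) (t : ι → ℂ) (a : ι → ℕ), Fam A B d0 t a →
      (∀ s, ‖t s - P‖ < r0) → LB a fun s ↦ ‖t s - P‖ := by
  obtain ⟨E, r, K, g, hE, hr, hg0, hj0, hloc⟩ := local_data h hil hP
  refine ⟨r ^ E, by positivity, fun ι t a F hr0 ↦ ?_⟩
  have ha := F.one
  have hPa := alg_root (hB l) (B_ne_zero h l) hP
  -- the fixed elliptic curve
  set τb : ℍ := ⟨g 0, hg0⟩ with hτb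
  have hjb : jInv τb = xv A B i P := by rw [← hj0, jc, ofComplex_apply_of_im_pos hg0]
  obtain ⟨d, A0, hd, hAI⟩ := exists_AI (alg_div (alg_eval (hA i) hPa) (alg_eval (hB i) hPa))
  have hdC : (12 * d : ℂ) ^ 6 ≠ 0 := by
    have : (d : ℂ) ≠ 0 := by exact_mod_cast hd.ne'
    exact pow_ne_zero _ (mul_ne_zero (by norm_num) this)
  obtain ⟨Ω, hΩ⟩ := IsAlgClosed.exists_pow_nat_eq
    ((2 * π) ^ 12 * ModularForm.discriminant τb / (12 * d : ℂ) ^ 6) (by norm_num : 0 < 12)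
  have hΩ' : Ω ^ 12 * (12 * d) ^ 6 = (2 * π) ^ 12 * ModularForm.discriminant τb := by
    rw [hΩ, div_mul_cancel₀ _ hdC]
  -- the local parameter
  choose u hu using fun s ↦ IsAlgClosed.exists_pow_nat_eq (t s - P) hE
  have hur : ∀ s, ‖u s‖ < r := fun s ↦
    lt_of_pow_lt_pow_left₀ E hr.le (by rw [← norm_pow, hu]; exact hr0 s)
  have htu : ∀ s, P + u s ^ E = t s := fun s ↦ by rw [hu]; ring
  choose f1 f2 f3 f4 f5 f6 f7 f8 f9 using fun s ↦ hloc (u s) (hur s)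
  simp only [htu] at f4 f7 f8 f9
  have hε : ∀ s, 0 ≤ ‖u s‖ ∧ ‖u s‖ ≤ 1 := fun s ↦ ⟨norm_nonneg _, f1 s⟩
  have him : ∀ s, 0 < (g (u s)).im := fun s ↦ by linarith [f2 s]
  set τi : ι → ℍ := fun s ↦ ⟨g (u s), him s⟩ with hτi
  have hji : ∀ s, jInv (τi s) = xv A B i (t s) := fun s ↦ by
    rw [← f4, jc, ofComplex_apply_of_im_pos (him s)]
  choose τl hfd hjl using fun s ↦ j_surj (xv A B l (t s))
  -- the isogeny
  obtain ⟨n, U, hU, hi, hd', G, hG, hb⟩ := F.exists_isog h hA hB hd0 l i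
  choose a' b' c' d' hdet hmob hid using fun s ↦ (hU s).2.2.lift (hjl s) (hji s)
  set β : ι → ℂ := fun s ↦ U s * ((B l).eval (t s) / (B i).eval (t s)) with hβ
  have hβan : AN a β := by
    obtain ⟨G', hG', h1⟩ := hG.nonneg
    refine ⟨hi.mul (F.ib_div h hB hd0 (hB l) i hdeg),
      hd'.mul ((F.db.eval (hB l)).div (F.db.eval (hB i))), G', hG', fun s σ ↦ ?_⟩
    have h2 := hb s σ
    have h3 : (1 + ‖σ (t s)‖) ^ (B l).natDegree ≤ (1 + ‖σ (t s)‖) ^ (B i).natDegree :=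
      pow_le_pow_right₀ (by linarith [norm_nonneg (σ (t s))]) hdeg
    have h4 : G s * (1 + ‖σ (t s)‖) ^ (B l).natDegree ≤
        G' s * (1 + ‖σ (t s)‖) ^ (B i).natDegree :=
      mul_le_mul (h1 s).2 h3 (by positivity) (by linarith [(h1 s).1])
    exact le_of_mul_le_mul_right (h2.trans h4) (by positivity)
  -- size of the matrix entries
  obtain ⟨C, hC1, hC⟩ := fd_bounds
  have hent : (EB a fun s ↦ |(a' s : ℝ)|) ∧ EB a fun s ↦ |(c' s : ℝ)| := by
    set M : ι → ℝ := fun s ↦ C * (1 + Real.exp (a s)) + (‖g 0‖ + 2 / (g 0).im + 2) with hM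
    have hMe : EB a M := ((EB.const C).mul ha ((EB.const 1).add ha EB.exp_self)
      fun _ ↦ by positivity).add ha (EB.const _)
    have hM0 : ∀ s, 0 ≤ M s := fun s ↦ by simp only [hM]; positivity
    have h3 : EB a fun s ↦ 3 * Real.exp (a s) * M s ^ 4 :=
      ((EB.const 3).mul ha EB.exp_self fun _ ↦ by positivity).mul ha (hMe.pow hM0 4)
        fun s ↦ pow_nonneg (hM0 s) 4
    have h4 : ∀ s, |(a' s : ℝ)| ≤ 3 * n s * M s ^ 4 ∧ |(c' s : ℝ)| ≤ 3 * n s * M s ^ 4 := by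
      intro s
      have p1 : 0 ≤ C * (1 + Real.exp (a s)) := by positivity
      have p2 : 0 < 2 / (g 0).im := by positivity
      have p3 := norm_nonneg (g 0)
      have p4 : 1 / 2 ≤ (τl s).im := by
        have := ModularGroup.three_le_four_mul_im_sq_of_mem_fd (hfd s)
        have h5 := (τl s).im_pos
        nlinarith
      have p5 : (τl s).im ≤ C * (1 + Real.exp (a s)) := by
        refine (hC _ (hfd s)).1.trans ?_
        have := F.ht s (RingHom.id ℂ) l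
        rw [hjl]
        simp only [RingHom.id_apply] at this
        gcongr
      have p6 : ‖(τl s : ℂ)‖ ≤ 1 / 2 + (τl s).im := by
        have h5 := Complex.norm_le_abs_re_add_abs_im (τl s : ℂ)
        have h6 : |(τl s).re| ≤ 1 / 2 := (hfd s).2
        rw [coe_re, coe_im, abs_of_pos (τl s).im_pos] at h5
        linarith
      have := mob_entries (B := M s) (hmob s) (hdet s) (hU s).1 (by simp only [hM]; linarith)
        (by simp only [hM]; linarith) (by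
          have := f3 s
          simp only [hM, hτi]
          linarith)
        (by
          rw [coe_im]
          have : 2 ≤ M s := by simp only [hM]; linarith
          nlinarith)
        (by
          have h5 : 2 / (g 0).im ≤ M s := by simp only [hM]; linarith
          have h6 : 2 / (g 0).im * ((g 0).im / 2) = 1 := by field_simp
          rw [← h6]
          exact mul_le_mul h5 (f2 s) (by positivity) (hM0 s))
      exact ⟨this.1, this.2.2.1⟩
    have h5 : ∀ s, 3 * n s * M s ^ 4 ≤ 3 * Real.exp (a s) * M s ^ 4 := fun s ↦ by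
      have := (hU s).2.1
      have := pow_nonneg (hM0 s) 4
      gcongr
    exact ⟨h3.mono fun s ↦ (h4 s).1.trans (h5 s), h3.mono fun s ↦ (h4 s).2.trans (h5 s)⟩
  have hba : BD a fun s ↦ (a' s : ℂ) := by simpa [BD] using hent.1
  have hbc : BD a fun s ↦ (c' s : ℂ) := by simpa [BD] using hent.2
  -- the approximate identity
  set κ : ℂ := (B i).eval P / (A l).eval P with hκ
  have hκa : IsAlgebraic ℚ κ := alg_div (alg_eval (hB i) hPa) (alg_eval (hA l) hPa)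
  have hE4 : Cl a (fun s ↦ ‖u s‖) (fun s ↦ ModularForm.E₄ (τl s) ^ 3) fun _ ↦ 1 := by
    refine Cl.of_le (C * K) fun s ↦ ?_
    have h1 := (hC _ (hfd s)).2.2.2
    rw [hjl] at h1
    have h2 : ‖xv A B l (t s)‖ * ‖(B l).eval (t s) / (A l).eval (t s)‖ = 1 := by
      have := f7 s
      have := F.np s l
      rw [← norm_mul, xv]
      field_simp
      simp
    have h3 := norm_nonneg (ModularForm.E₄ (τl s) ^ 3 - 1)
    calc ‖ModularForm.E₄ (τl s) ^ 3 - 1‖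
        = ‖ModularForm.E₄ (τl s) ^ 3 - 1‖ * ‖xv A B l (t s)‖ *
          ‖(B l).eval (t s) / (A l).eval (t s)‖ := by rw [mul_assoc, h2, mul_one]
      _ ≤ C * (K * ‖u s‖) :=
          mul_le_mul (by nlinarith) (f9 s) (norm_nonneg _) (by linarith)
      _ = _ := by ring
  have hR : Cl a (fun s ↦ ‖u s‖)
      (fun s ↦ β s * ((B i).eval (t s) / (A l).eval (t s)) * ModularForm.E₄ (τl s) ^ 3)
      fun s ↦ β s * κ * 1 :=
    ((Cl.refl β).mul ha hε (Cl.of_le K f8) hβan.hs.bd (BD.const _)).mul ha hε hE4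
      (hβan.hs.bd.mul ha (BD.const _)) (BD.const _)
  have hbd : BD a fun s ↦ (a' s : ℂ) - c' s * g 0 := hba.sub ha (hbc.mul ha (BD.const _))
  have hL : Cl a (fun s ↦ ‖u s‖)
      (fun s ↦ ((a' s : ℂ) - c' s * g (u s)) ^ 12 * ModularForm.eta (g (u s)) ^ 24)
      fun s ↦ ((a' s : ℂ) - c' s * g 0) ^ 12 * ModularForm.eta (g 0) ^ 24 :=
    (((Cl.refl _).sub ha ((Cl.refl _).mul ha hε (Cl.of_le K f5) hbc (BD.const _))).pow ha hε
      hbd 12).mul ha hε (Cl.of_le K f6) (hbd.pow 12) (BD.const _)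
  have hLR : (fun s ↦ ((a' s : ℂ) - c' s * g (u s)) ^ 12 * ModularForm.eta (g (u s)) ^ 24) =
      fun s ↦ β s * ((B i).eval (t s) / (A l).eval (t s)) * ModularForm.E₄ (τl s) ^ 3 := by
    funext s
    have h1 : U s * ModularForm.discriminant (τl s) =
        ((a' s : ℂ) - c' s * g (u s)) ^ 12 * ModularForm.eta (g (u s)) ^ 24 := hid s
    have h2 := hjl s
    have h3 := ModularForm.discriminant_ne_zero (τl s)
    have h4 := f7 s
    have h5 := F.np s l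
    have h6 := F.np s i
    rw [jInv, xv, div_eq_div_iff h3 h5] at h2
    rw [← h1]
    simp only [hβ]
    field_simp
    linear_combination (-U s) * h2
  rw [hLR] at hL
  have hZ := (hL.symm.trans ha hR).mul ha hε (Cl.refl fun _ ↦ ((12 * d : ℂ) ^ 6)⁻¹)
    ((hβan.hs.bd.mul ha (BD.const _)).mul ha (BD.const _)) (BD.const _)
  -- the nearest twelfth root
  have h2pi : (2 * π * Complex.I : ℂ) ≠ 0 := Complex.two_pi_I_ne_zero
  set z : ι → ℂ := fun s ↦ Ω * ((a' s : ℂ) - c' s * g 0) / (2 * π * Complex.I) with hz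
  have hz12 : ∀ s, z s ^ 12 = ((a' s : ℂ) - c' s * g 0) ^ 12 * ModularForm.eta (g 0) ^ 24 *
      ((12 * d : ℂ) ^ 6)⁻¹ := by
    intro s
    have h1 : ModularForm.discriminant τb = ModularForm.eta (g 0) ^ 24 := rfl
    have h2 : (2 * π * Complex.I : ℂ) ^ 12 = (2 * π) ^ 12 := by
      rw [mul_pow, show (12 : ℕ) = 4 * 3 by norm_num, pow_mul Complex.I, Complex.I_pow_four]
      simp
    have h3 : (2 * π : ℂ) ^ 12 ≠ 0 := by rw [← h2]; exact pow_ne_zero _ h2pi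
    simp only [hz]
    rw [div_pow, mul_pow, hΩ, h1, h2]
    field_simp
  choose α hα hnear using fun s ↦
    exists_near_root (z s) (β s * κ * 1 * ((12 * d : ℂ) ^ 6)⁻¹) (by norm_num : 0 < 12)
  have hca : IsAlgebraic ℚ ((12 * d : ℂ) ^ 6)⁻¹ := by
    have : IsAlgebraic ℚ (((12 * d) ^ 6 : ℕ) : ℂ) := isAlgebraic_natCast _
    push_cast at this
    exact this.inv
  have hαan : AN a α := AN.root (by norm_num : 0 < 12)
    (((hβan.mul ha (AN.const hκa)).mul ha (AN.const isAlgebraic_one)).mul ha (AN.const hca)) hα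
  have hper := period_fam ha τb Ω d hd (by rw [hjb]; exact hAI.1) hΩ' (m := a')
    (n := fun s ↦ -c' s) hαan
    (fun s ↦ by
      by_contra hcon
      push Not at hcon
      have h1 := hdet s
      have h2 := (hU s).1
      rw [hcon.1, neg_eq_zero.1 hcon.2] at h1
      omega)
    hent.1 (by simpa using hent.2)
  have hlb : LB a fun s ↦ ‖z s - α s‖ := by
    refine hper.of_le_mul ha (EB.const ‖(2 * π * Complex.I : ℂ)‖) (fun _ ↦ norm_nonneg _)
      fun s ↦ le_of_eq ?_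
    rw [← norm_mul, norm_sub_rev]
    congr 1
    have h1 : (τb : ℂ) = g 0 := rfl
    simp only [hz, h1]
    push_cast
    field_simp
    ring
  obtain ⟨G1, hG1, hZ⟩ := hZ
  have hu' : LB a fun s ↦ ‖u s‖ :=
    (hlb.pow 12).of_le_mul ha hG1 (fun _ ↦ norm_nonneg _) fun s ↦ by
      refine (hnear s).trans ?_
      rw [hz12]
      exact hZ s
  exact (hu'.pow E).mono fun s ↦ by rw [← norm_pow, hu]

theorem Fam.lb_pole (F : Fam A B d0 t a) (h : Adm A B) (hA : Alg A) (hB : Alg B) (hd0 : 0 < d0)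
    {l : Fin 3} {P : ℂ} (hP : (B l).eval P = 0) : LB a fun s ↦ ‖t s - P‖ := by
  obtain ⟨i, hil⟩ := exists_ne l
  rcases lt_or_ge (B i).natDegree (B l).natDegree with h1 | h1
  · exact F.case_lt h hA hB hd0 h1 hP
  · obtain ⟨r0, hr0, h2⟩ := case_le h hA hB hd0 hil h1 hP
    exact LB.of_small F.one hr0 (h2 _ _ _ (F.restrict _) fun s ↦ s.2)

theorem Fam.eb_xv (F : Fam A B d0 t a) (h : Adm A B) (hA : Alg A) (hB : Alg B) (hd0 : 0 < d0)
    (l : Fin 3) : EB a fun s ↦ 1 + ‖xv A B l (t s)‖ := by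
  have ha := F.one
  have h1 : ∀ P ∈ (B l).roots, LB a fun s ↦ ‖t s - P‖ / (1 + ‖t s‖) := by
    intro P hP
    have h2 := F.lb_pole h hA hB hd0 (Polynomial.isRoot_of_mem_roots hP)
    refine LB.of_inv ((((EB.const (1 + ‖P‖)).mul ha h2.inv
      fun _ ↦ by positivity).add ha (EB.const 1)).mono fun s ↦ ?_)
      fun s ↦ div_pos (h2.pos s) (by positivity)
    have h3 := h2.pos s
    have h4 : ‖t s‖ ≤ ‖t s - P‖ + ‖P‖ := by simpa using norm_add_le (t s - P) P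
    rw [inv_div, div_le_iff₀ h3, add_mul, mul_assoc, inv_mul_cancel₀ h3.ne']
    linarith
  have h2 := (LB.const (norm_pos_iff.2
    (Polynomial.leadingCoeff_ne_zero.2 (B_ne_zero h l)))).mul ha (LB.prod ha _ _ h1)
  obtain ⟨C, hC1, hC⟩ := two_sided h hA hB
  refine (((EB.const C).mul ha h2.inv fun s ↦ (inv_pos.2 (h2.pos s)).le)).mono fun s ↦ ?_
  have h3 := (hC (RingHom.id ℂ) l (t s)).2
  simp only [Polynomial.map_id] at h3
  rw [← one_add_norm_div (F.np s l)] at h3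
  have h4 : ‖(B l).leadingCoeff‖ * ((B l).roots.map fun P ↦ ‖t s - P‖ / (1 + ‖t s‖)).prod =
      ‖(B l).eval (t s)‖ / (1 + ‖t s‖) ^ (B l).natDegree := by
    rw [norm_eval_eq, Multiset.prod_map_div, Multiset.map_const', Multiset.prod_replicate,
      ← (IsAlgClosed.splits (B l)).natDegree_eq_card_roots, mul_div_assoc]
  have h5 : 0 < ‖(B l).eval (t s)‖ := norm_pos_iff.2 (F.np s l)
  rw [h4, inv_div, ← mul_div_assoc, le_div_iff₀ h5]
  exact h3

end HBF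

open HBF in
theorem height_bound {A B : Fin 3 → Polynomial ℂ} (h : Adm A B) (hA : Alg A) (hB : Alg B) {d0 : ℕ}
    (hd0 : 0 < d0) : ∃ C k : ℕ, ∀ (t : ℂ) (a : ℕ), 1 ≤ a → NP B t →
      (∀ i P, (B i).eval P = 0 → IsIntegral ℤ ((d0 : ℂ) / (t - P))) → Deg t a →
      (∀ i j, ∃ n, MinIso n (xv A B i t) (xv A B j t) ∧ (n : ℝ) ≤ Real.exp a) →
      (∀ (σ : ℂ →+* ℂ) i, Real.log (1 + ‖σ (xv A B i t)‖) ≤ Real.exp a) →
      ∀ i, Real.log (1 + ‖xv A B i t‖) ≤ C * (a : ℝ) ^ k := by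
  let ι := {p : ℂ × ℕ // 1 ≤ p.2 ∧ NP B p.1 ∧
    (∀ i P, (B i).eval P = 0 → IsIntegral ℤ ((d0 : ℂ) / (p.1 - P))) ∧ Deg p.1 p.2 ∧
    (∀ i j, ∃ n, MinIso n (xv A B i p.1) (xv A B j p.1) ∧ (n : ℝ) ≤ Real.exp p.2) ∧
    ∀ (σ : ℂ →+* ℂ) i, Real.log (1 + ‖σ (xv A B i p.1)‖) ≤ Real.exp p.2}
  have F : Fam A B d0 (fun s : ι ↦ s.1.1) fun s ↦ s.1.2 :=
    ⟨fun s ↦ s.2.1, fun s ↦ s.2.2.1, fun s ↦ s.2.2.2.1, fun s ↦ s.2.2.2.2.1,
      fun s ↦ s.2.2.2.2.2.1, fun s ↦ s.2.2.2.2.2.2⟩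
  obtain ⟨D, ⟨C, k, hD⟩, hle⟩ := ((F.eb_xv h hA hB hd0 0).add F.one
    (F.eb_xv h hA hB hd0 1)).add F.one (F.eb_xv h hA hB hd0 2)
  refine ⟨C, k, fun t a h1 h2 h3 h4 h5 h6 i ↦ ?_⟩
  have h7 := hle ⟨(t, a), h1, h2, h3, h4, h5, h6⟩
  have h8 : (D ⟨(t, a), h1, h2, h3, h4, h5, h6⟩ : ℝ) ≤ C * (a : ℝ) ^ k := by
    exact_mod_cast hD ⟨(t, a), h1, h2, h3, h4, h5, h6⟩
  refine le_trans ?_ h8
  rw [Real.log_le_iff_le_exp (by positivity)]
  refine le_trans ?_ h7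
  have n0 := norm_nonneg (xv A B 0 t)
  have n1 := norm_nonneg (xv A B 1 t)
  have n2 := norm_nonneg (xv A B 2 t)
  fin_cases i <;> simp only [Fin.zero_eta, Fin.mk_one, Fin.reduceFinMk, Fin.isValue] <;> linarith

end Pool.Agent.Lib.ZP3
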