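import Pool.Agent.Lib.ZP3.Arith

/-! Block HB, part 1: families of numbers with bounds of the shape `exp (C a ^ k)`. -/

open UpperHalfPlane Filter Topology Metric
open scoped Real

namespace Pool.Agent.Lib.ZP3.HBF

open Pool.Agent.Lib.MP_0704bf_ag Pool.Agent.Lib.helper6

variable {ι : Type} {a : ι → ℕ}

/-- polynomially bounded family of natural numbers -/
def PN (a : ι → ℕ) (D : ι → ℕ) : Prop := ∃ C k : ℕ, ∀ s, D s ≤ C * a s ^ k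

theorem PN.const (c : ℕ) : PN a fun _ ↦ c := ⟨c, 0, fun s ↦ by simp⟩

theorem PN.self : PN a a := ⟨1, 1, fun s ↦ by simp⟩

theorem PN.mono {D D' : ι → ℕ} (h : PN a D) (h' : ∀ s, D' s ≤ D s) : PN a D' := by
  obtain ⟨C, k, hC⟩ := h
  exact ⟨C, k, fun s ↦ (h' s).trans (hC s)⟩

theorem PN.add (ha : ∀ s, 1 ≤ a s) {D D' : ι → ℕ} (h : PN a D) (h' : PN a D') :
    PN a fun s ↦ D s + D' s := by
  obtain ⟨C, k, hC⟩ := h
  obtain ⟨C', k', hC'⟩ := h'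
  refine ⟨C + C', k + k', fun s ↦ ?_⟩
  have h1 : a s ^ k ≤ a s ^ (k + k') := Nat.pow_le_pow_right (ha s) (by omega)
  have h2 : a s ^ k' ≤ a s ^ (k + k') := Nat.pow_le_pow_right (ha s) (by omega)
  calc D s + D' s ≤ C * a s ^ k + C' * a s ^ k' := add_le_add (hC s) (hC' s)
    _ ≤ C * a s ^ (k + k') + C' * a s ^ (k + k') :=
        add_le_add (Nat.mul_le_mul_left _ h1) (Nat.mul_le_mul_left _ h2)
    _ = _ := by ring

theorem PN.mul {D D' : ι → ℕ} (h : PN a D) (h' : PN a D') : PN a fun s ↦ D s * D' s := by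
  obtain ⟨C, k, hC⟩ := h
  obtain ⟨C', k', hC'⟩ := h'
  refine ⟨C * C', k + k', fun s ↦ ?_⟩
  calc D s * D' s ≤ (C * a s ^ k) * (C' * a s ^ k') := Nat.mul_le_mul (hC s) (hC' s)
    _ = _ := by ring

theorem PN.pow {D : ι → ℕ} (h : PN a D) (n : ℕ) : PN a fun s ↦ D s ^ n := by
  induction n with
  | zero => simpa using PN.const 1
  | succ n ih => simpa [pow_succ] using ih.mul h

/-- bounded above by `exp (C a ^ k)` -/
def EB (a : ι → ℕ) (f : ι → ℝ) : Prop := ∃ D : ι → ℕ, PN a D ∧ ∀ s, f s ≤ Real.exp (D s)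

theorem EB.mono {f g : ι → ℝ} (h : EB a f) (h' : ∀ s, g s ≤ f s) : EB a g := by
  obtain ⟨D, hD, hf⟩ := h
  exact ⟨D, hD, fun s ↦ (h' s).trans (hf s)⟩

theorem EB.const (c : ℝ) : EB a fun _ ↦ c := by
  obtain ⟨n, hn⟩ := exists_nat_ge c
  refine ⟨fun _ ↦ n, PN.const n, fun s ↦ ?_⟩
  have := Real.add_one_le_exp (n : ℝ)
  linarith

theorem EB.exp_self : EB a fun s ↦ Real.exp (a s) := ⟨a, PN.self, fun _ ↦ le_rfl⟩

theorem EB.add (ha : ∀ s, 1 ≤ a s) {f g : ι → ℝ} (h : EB a f) (h' : EB a g) :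
    EB a fun s ↦ f s + g s := by
  obtain ⟨D, hD, hf⟩ := h
  obtain ⟨D', hD', hg⟩ := h'
  refine ⟨fun s ↦ D s + D' s + 1, (hD.add ha hD').add ha (PN.const 1), fun s ↦ ?_⟩
  have h1 : Real.exp (D s) ≤ Real.exp (D s + D' s) :=
    Real.exp_le_exp.2 (by have := Nat.cast_nonneg (α := ℝ) (D' s); linarith)
  have h2 : Real.exp (D' s) ≤ Real.exp (D s + D' s) :=
    Real.exp_le_exp.2 (by have := Nat.cast_nonneg (α := ℝ) (D s); linarith)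
  have h3 : (2 : ℝ) ≤ Real.exp 1 := by have := Real.add_one_le_exp (1 : ℝ); linarith
  have h4 := Real.exp_pos ((D s : ℝ) + D' s)
  push_cast
  rw [Real.exp_add]
  nlinarith [hf s, hg s]

theorem EB.mul (ha : ∀ s, 1 ≤ a s) {f g : ι → ℝ} (h : EB a f) (h' : EB a g) (h0 : ∀ s, 0 ≤ g s) :
    EB a fun s ↦ f s * g s := by
  obtain ⟨D, hD, hf⟩ := h
  obtain ⟨D', hD', hg⟩ := h'
  refine ⟨fun s ↦ D s + D' s, hD.add ha hD', fun s ↦ ?_⟩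
  push_cast
  rw [Real.exp_add]
  exact mul_le_mul (hf s) (hg s) (h0 s) (Real.exp_pos _).le

theorem EB.pow {f : ι → ℝ} (h : EB a f) (h0 : ∀ s, 0 ≤ f s) (n : ℕ) :
    EB a fun s ↦ f s ^ n := by
  obtain ⟨D, hD, hf⟩ := h
  refine ⟨fun s ↦ n * D s, (PN.const n).mul hD, fun s ↦ ?_⟩
  push_cast
  rw [Real.exp_nat_mul]
  exact pow_le_pow_left₀ (h0 s) (hf s) n

theorem EB.nonneg {f : ι → ℝ} (h : EB a f) :
    ∃ g : ι → ℝ, EB a g ∧ ∀ s, 1 ≤ g s ∧ f s ≤ g s := by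
  obtain ⟨D, hD, hf⟩ := h
  exact ⟨fun s ↦ Real.exp (D s), ⟨D, hD, fun _ ↦ le_rfl⟩,
    fun s ↦ ⟨Real.one_le_exp (Nat.cast_nonneg _), hf s⟩⟩

/-- bounded below by `exp (-C a ^ k)` -/
def LB (a : ι → ℕ) (f : ι → ℝ) : Prop := ∃ D : ι → ℕ, PN a D ∧ ∀ s, Real.exp (-(D s : ℝ)) ≤ f s

theorem LB.mono {f g : ι → ℝ} (h : LB a f) (h' : ∀ s, f s ≤ g s) : LB a g := by
  obtain ⟨D, hD, hf⟩ := h
  exact ⟨D, hD, fun s ↦ (hf s).trans (h' s)⟩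

theorem LB.pos {f : ι → ℝ} (h : LB a f) (s : ι) : 0 < f s := by
  obtain ⟨D, -, hf⟩ := h
  exact (Real.exp_pos _).trans_le (hf s)

theorem LB.inv {f : ι → ℝ} (h : LB a f) : EB a fun s ↦ (f s)⁻¹ := by
  obtain ⟨D, hD, hf⟩ := h
  refine ⟨D, hD, fun s ↦ ?_⟩
  have := inv_anti₀ (Real.exp_pos _) (hf s)
  rwa [Real.exp_neg, inv_inv] at this

theorem LB.of_inv {f : ι → ℝ} (h : EB a fun s ↦ (f s)⁻¹) (h0 : ∀ s, 0 < f s) : LB a f := by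
  obtain ⟨D, hD, hf⟩ := h
  refine ⟨D, hD, fun s ↦ ?_⟩
  have := inv_anti₀ (inv_pos.2 (h0 s)) (hf s)
  rwa [inv_inv, ← Real.exp_neg] at this

theorem LB.const {c : ℝ} (hc : 0 < c) : LB a fun _ ↦ c :=
  LB.of_inv (EB.const _) fun _ ↦ hc

theorem LB.mul (ha : ∀ s, 1 ≤ a s) {f g : ι → ℝ} (h : LB a f) (h' : LB a g) :
    LB a fun s ↦ f s * g s :=
  LB.of_inv (by
    simp only [mul_inv]
    exact h.inv.mul ha h'.inv fun s ↦ (inv_pos.2 (h'.pos s)).le)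
    fun s ↦ mul_pos (h.pos s) (h'.pos s)

theorem LB.pow {f : ι → ℝ} (h : LB a f) (n : ℕ) : LB a fun s ↦ f s ^ n :=
  LB.of_inv (by
    simp only [← inv_pow]
    exact h.inv.pow (fun s ↦ (inv_pos.2 (h.pos s)).le) n) fun s ↦ pow_pos (h.pos s) n

theorem LB.of_pow {f : ι → ℝ} {n : ℕ} (hn : 0 < n) (h : LB a fun s ↦ f s ^ n)
    (h0 : ∀ s, 0 ≤ f s) : LB a f := by
  obtain ⟨D, hD, hf⟩ := h
  refine ⟨D, hD, fun s ↦ ?_⟩
  rcases le_total 1 (f s) with h1 | h1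
  · exact (Real.exp_le_one_iff.2 (by simp)).trans h1
  · exact (hf s).trans (pow_le_of_le_one (h0 s) h1 hn.ne')

/-- cancel an upper bounded factor -/
theorem LB.of_le_mul (ha : ∀ s, 1 ≤ a s) {f g ε : ι → ℝ} (h : LB a f) (hg : EB a g)
    (h0 : ∀ s, 0 ≤ ε s) (hle : ∀ s, f s ≤ g s * ε s) : LB a ε := by
  obtain ⟨g', hg', h1⟩ := hg.nonneg
  have h2 : LB a fun s ↦ (g' s)⁻¹ :=
    LB.of_inv (by simpa using hg') fun s ↦ inv_pos.2 (by linarith [(h1 s).1])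
  refine (h.mul ha h2).mono fun s ↦ ?_
  have hp : 0 < g' s := by linarith [(h1 s).1]
  rw [← div_eq_mul_inv, div_le_iff₀ hp]
  calc f s ≤ g s * ε s := hle s
    _ ≤ g' s * ε s := mul_le_mul_of_nonneg_right (h1 s).2 (h0 s)
    _ = _ := mul_comm _ _

theorem LB.of_small (ha : ∀ s, 1 ≤ a s) {f : ι → ℝ} {r : ℝ} (hr : 0 < r)
    (h : LB (fun s : {s // f s < r} ↦ a s.1) fun s ↦ f s.1) : LB a f := by
  obtain ⟨D, ⟨C, k, hC⟩, hf⟩ := h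
  obtain ⟨D', hD', hr'⟩ := LB.const (a := a) hr
  refine ⟨fun s ↦ C * a s ^ k + D' s, ((PN.const C).mul (PN.self.pow k)).add ha hD', fun s ↦ ?_⟩
  by_cases hs : f s < r
  · refine le_trans (Real.exp_le_exp.2 ?_) (hf ⟨s, hs⟩)
    have := hC ⟨s, hs⟩
    have h2 : (D ⟨s, hs⟩ : ℝ) ≤ ((C * a s ^ k + D' s : ℕ) : ℝ) := by
      exact_mod_cast this.trans (Nat.le_add_right _ _)
    linarith
  · refine le_trans (Real.exp_le_exp.2 ?_) ((hr' s).trans (not_lt.1 hs))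
    have h2 : (D' s : ℝ) ≤ ((C * a s ^ k + D' s : ℕ) : ℝ) := by
      exact_mod_cast Nat.le_add_left _ _
    linarith

theorem LB.prod (ha : ∀ s, 1 ≤ a s) {κ : Type} (m : Multiset κ) (f : κ → ι → ℝ)
    (h : ∀ x ∈ m, LB a (f x)) : LB a fun s ↦ (m.map fun x ↦ f x s).prod := by
  induction m using Multiset.induction_on with
  | empty => simpa using LB.const one_pos
  | cons x m ih =>
    simp only [Multiset.map_cons, Multiset.prod_cons]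
    exact (h x (Multiset.mem_cons_self _ _)).mul ha
      (ih fun y hy ↦ h y (Multiset.mem_cons_of_mem hy))

/-! ### closeness modulo a small quantity -/

/-- bounded norm -/
def BD (a : ι → ℕ) (f : ι → ℂ) : Prop := EB a fun s ↦ ‖f s‖

theorem BD.const (c : ℂ) : BD a fun _ ↦ c := EB.const _

theorem BD.mul (ha : ∀ s, 1 ≤ a s) {f g : ι → ℂ} (h : BD a f) (h' : BD a g) :
    BD a fun s ↦ f s * g s := by
  simp only [BD, norm_mul]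
  exact EB.mul ha h h' fun _ ↦ norm_nonneg _

theorem BD.sub (ha : ∀ s, 1 ≤ a s) {f g : ι → ℂ} (h : BD a f) (h' : BD a g) :
    BD a fun s ↦ f s - g s :=
  (EB.add ha h h').mono fun _ ↦ norm_sub_le _ _

theorem BD.pow {f : ι → ℂ} (h : BD a f) (n : ℕ) : BD a fun s ↦ f s ^ n := by
  simp only [BD, norm_pow]
  exact EB.pow h (fun _ ↦ norm_nonneg _) n

/-- `f` and `g` agree up to a bounded multiple of `ε` -/
def Cl (a : ι → ℕ) (ε : ι → ℝ) (f g : ι → ℂ) : Prop :=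
  ∃ G : ι → ℝ, EB a G ∧ ∀ s, ‖f s - g s‖ ≤ G s * ε s

variable {ε : ι → ℝ}

theorem Cl.refl (f : ι → ℂ) : Cl a ε f f := ⟨fun _ ↦ 0, EB.const 0, fun s ↦ by simp⟩

theorem Cl.symm {f g : ι → ℂ} (h : Cl a ε f g) : Cl a ε g f := by
  obtain ⟨G, hG, h⟩ := h
  exact ⟨G, hG, fun s ↦ by rw [norm_sub_rev]; exact h s⟩

theorem Cl.trans (ha : ∀ s, 1 ≤ a s) {f g k : ι → ℂ} (h : Cl a ε f g) (h' : Cl a ε g k) :
    Cl a ε f k := by
  obtain ⟨G, hG, h⟩ := h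
  obtain ⟨G', hG', h'⟩ := h'
  refine ⟨fun s ↦ G s + G' s, hG.add ha hG', fun s ↦ ?_⟩
  have := norm_sub_le_norm_sub_add_norm_sub (f s) (g s) (k s)
  linarith [h s, h' s]

theorem Cl.bd (ha : ∀ s, 1 ≤ a s) (hε : ∀ s, 0 ≤ ε s ∧ ε s ≤ 1) {f g : ι → ℂ} (h : Cl a ε f g)
    (hg : BD a g) : BD a f := by
  obtain ⟨G, hG, h⟩ := h
  obtain ⟨G', hG', h1⟩ := hG.nonneg
  refine (EB.add ha hG' hg).mono fun s ↦ ?_
  have h2 : ‖f s‖ ≤ ‖f s - g s‖ + ‖g s‖ := by simpa using norm_add_le (f s - g s) (g s)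
  have h3 : G s * ε s ≤ G' s * 1 :=
    mul_le_mul (h1 s).2 (hε s).2 (hε s).1 (by linarith [(h1 s).1])
  linarith [h s]

theorem Cl.sub (ha : ∀ s, 1 ≤ a s) {f g f' g' : ι → ℂ} (h : Cl a ε f f') (h' : Cl a ε g g') :
    Cl a ε (fun s ↦ f s - g s) fun s ↦ f' s - g' s := by
  obtain ⟨G, hG, h⟩ := h
  obtain ⟨G', hG', h'⟩ := h'
  refine ⟨fun s ↦ G s + G' s, hG.add ha hG', fun s ↦ ?_⟩
  have : f s - g s - (f' s - g' s) = (f s - f' s) - (g s - g' s) := by ring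
  rw [this]
  have := norm_sub_le (f s - f' s) (g s - g' s)
  linarith [h s, h' s]

theorem Cl.mul (ha : ∀ s, 1 ≤ a s) (hε : ∀ s, 0 ≤ ε s ∧ ε s ≤ 1) {f g f' g' : ι → ℂ}
    (h : Cl a ε f f') (h' : Cl a ε g g') (hf : BD a f') (hg : BD a g') :
    Cl a ε (fun s ↦ f s * g s) fun s ↦ f' s * g' s := by
  have hg1 := h'.bd ha hε hg
  obtain ⟨G, hG, h⟩ := h
  obtain ⟨G', hG', h'⟩ := h'
  refine ⟨fun s ↦ G s * ‖g s‖ + G' s * ‖f' s‖,
    (hG.mul ha hg1 fun _ ↦ norm_nonneg _).add ha (hG'.mul ha hf fun _ ↦ norm_nonneg _),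
    fun s ↦ ?_⟩
  have e : f s * g s - f' s * g' s = (f s - f' s) * g s + (g s - g' s) * f' s := by ring
  rw [e]
  have h1 := norm_add_le ((f s - f' s) * g s) ((g s - g' s) * f' s)
  rw [norm_mul, norm_mul] at h1
  have h2 := mul_le_mul_of_nonneg_right (h s) (norm_nonneg (g s))
  have h3 := mul_le_mul_of_nonneg_right (h' s) (norm_nonneg (f' s))
  linarith

theorem Cl.pow (ha : ∀ s, 1 ≤ a s) (hε : ∀ s, 0 ≤ ε s ∧ ε s ≤ 1) {f f' : ι → ℂ}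
    (h : Cl a ε f f') (hf : BD a f') (n : ℕ) : Cl a ε (fun s ↦ f s ^ n) fun s ↦ f' s ^ n := by
  induction n with
  | zero => simpa using Cl.refl _
  | succ n ih => simpa [pow_succ] using ih.mul ha hε h (hf.pow n) hf

theorem Cl.of_le {f g : ι → ℂ} (K : ℝ) (h : ∀ s, ‖f s - g s‖ ≤ K * ε s) : Cl a ε f g :=
  ⟨fun _ ↦ K, EB.const K, h⟩

theorem lip_of_differentiableAt {φ : ℂ → ℂ} (h : DifferentiableAt ℂ φ 0) :
    ∃ K : ℝ, ∀ᶠ u in 𝓝 (0 : ℂ), ‖φ u - φ 0‖ ≤ K * ‖u‖ := by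
  obtain ⟨K, hK⟩ := h.isBigO_sub.bound
  exact ⟨K, by simpa using hK⟩

/-! ### families of algebraic numbers -/

/-- integral after clearing a fixed denominator -/
def IB (z : ι → ℂ) : Prop := ∃ d : ℕ, 0 < d ∧ ∀ s, IsIntegral ℤ (d * z s)

/-- polynomially bounded degree -/
def DB (a : ι → ℕ) (z : ι → ℂ) : Prop := ∃ D : ι → ℕ, PN a D ∧ ∀ s, Deg (z s) (D s)

/-- bounded house -/
def HS (a : ι → ℕ) (z : ι → ℂ) : Prop :=
  ∃ G : ι → ℝ, EB a G ∧ ∀ s (σ : ℂ →+* ℂ), ‖σ (z s)‖ ≤ G s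

theorem IB.mul {y z : ι → ℂ} (h : IB y) (h' : IB z) : IB fun s ↦ y s * z s := by
  obtain ⟨d, hd, h⟩ := h
  obtain ⟨d', hd', h'⟩ := h'
  refine ⟨d * d', Nat.mul_pos hd hd', fun s ↦ ?_⟩
  have e : ((d * d' : ℕ) : ℂ) * (y s * z s) = d * y s * (d' * z s) := by
    push_cast
    ring
  rw [e]
  exact (h s).mul (h' s)

theorem IB.const {c : ℂ} (hc : IsAlgebraic ℚ c) : IB fun _ : ι ↦ c := by
  obtain ⟨d, A, hd, h⟩ := exists_AI hc
  exact ⟨d, hd, fun _ ↦ h.1⟩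

theorem IB.root {y z : ι → ℂ} {n : ℕ} (hn : 0 < n) (h : IB y) (e : ∀ s, z s ^ n = y s) :
    IB z := by
  obtain ⟨d, hd, h⟩ := h
  refine ⟨d, hd, fun s ↦ IsIntegral.of_pow hn ?_⟩
  obtain ⟨m, rfl⟩ : ∃ m, n = m + 1 := ⟨n - 1, by omega⟩
  have h1 : IsIntegral ℤ ((d : ℂ) ^ m) := by
    have : IsIntegral ℤ (d : ℂ) := by exact_mod_cast isIntegral_algebraMap (x := (d : ℤ))
    exact this.pow m
  have e' : ((d : ℂ) * z s) ^ (m + 1) = d ^ m * (d * y s) := by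
    rw [mul_pow, e]
    ring
  rw [e']
  exact h1.mul (h s)

theorem DB.mul {y z : ι → ℂ} (h : DB a y) (h' : DB a z) : DB a fun s ↦ y s * z s := by
  obtain ⟨D, hD, h⟩ := h
  obtain ⟨D', hD', h'⟩ := h'
  exact ⟨_, hD.mul hD', fun s ↦ (h s).mul (h' s)⟩

theorem DB.inv {y : ι → ℂ} (h : DB a y) : DB a fun s ↦ (y s)⁻¹ := by
  obtain ⟨D, hD, h⟩ := h
  exact ⟨_, hD, fun s ↦ (h s).inv⟩

theorem DB.div {y z : ι → ℂ} (h : DB a y) (h' : DB a z) : DB a fun s ↦ y s / z s := by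
  simpa only [div_eq_mul_inv] using h.mul h'.inv

theorem DB.const {c : ℂ} (hc : IsAlgebraic ℚ c) : DB a fun _ ↦ c := by
  obtain ⟨D, -, h⟩ := deg_of_alg hc
  exact ⟨_, PN.const D, fun _ ↦ h⟩

theorem DB.root {y z : ι → ℂ} {n : ℕ} (hn : 0 < n) (h : DB a y) (e : ∀ s, z s ^ n = y s) :
    DB a z := by
  obtain ⟨D, hD, h⟩ := h
  exact ⟨_, hD.mul (PN.const n), fun s ↦ (h s).root hn (e s)⟩

theorem DB.eval {t : ι → ℂ} (h : DB a t) {p : Polynomial ℂ}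
    (hp : ∀ n, IsAlgebraic ℚ (p.coeff n)) : DB a fun s ↦ p.eval (t s) := by
  obtain ⟨D, hD, h⟩ := h
  obtain ⟨c, -, hc⟩ := deg_eval hp
  exact ⟨_, (PN.const c).mul hD, fun s ↦ hc _ _ (h s)⟩

theorem HS.mul (ha : ∀ s, 1 ≤ a s) {y z : ι → ℂ} (h : HS a y) (h' : HS a z) :
    HS a fun s ↦ y s * z s := by
  obtain ⟨G, hG, h⟩ := h
  obtain ⟨G', hG', h'⟩ := h'
  have h0 : ∀ s, 0 ≤ G' s := fun s ↦ (norm_nonneg _).trans (h' s (RingHom.id ℂ))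
  refine ⟨_, hG.mul ha hG' h0, fun s σ ↦ ?_⟩
  rw [map_mul, norm_mul]
  exact mul_le_mul (h s σ) (h' s σ) (norm_nonneg _) ((norm_nonneg _).trans (h s σ))

theorem exists_house {c : ℂ} (hc : IsAlgebraic ℚ c) : ∃ K : ℝ, ∀ σ : ℂ →+* ℂ, ‖σ c‖ ≤ K := by
  obtain ⟨D, -, E, -, hE⟩ := deg_of_alg hc
  exact ⟨∑ z ∈ E, ‖z‖, fun σ ↦
    Finset.single_le_sum (f := fun z : ℂ ↦ ‖z‖) (fun _ _ ↦ norm_nonneg _) (hE σ)⟩

theorem HS.const {c : ℂ} (hc : IsAlgebraic ℚ c) : HS a fun _ ↦ c := by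
  obtain ⟨K, hK⟩ := exists_house hc
  exact ⟨_, EB.const K, fun _ ↦ hK⟩

theorem HS.root {y z : ι → ℂ} {n : ℕ} (hn : 0 < n) (h : HS a y) (e : ∀ s, z s ^ n = y s) :
    HS a z := by
  obtain ⟨G, hG, h⟩ := h
  obtain ⟨G', hG', h1⟩ := hG.nonneg
  refine ⟨G', hG', fun s σ ↦ ?_⟩
  rcases le_total ‖σ (z s)‖ 1 with h2 | h2
  · exact h2.trans (h1 s).1
  · have h3 := h s σ
    rw [← e, map_pow, norm_pow] at h3
    exact ((le_self_pow₀ h2 hn.ne').trans h3).trans (h1 s).2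

theorem HS.bd {z : ι → ℂ} (h : HS a z) : BD a z := by
  obtain ⟨G, hG, h⟩ := h
  exact hG.mono fun s ↦ h s (RingHom.id ℂ)

/-- a family of algebraic numbers of controlled size -/
structure AN (a : ι → ℕ) (z : ι → ℂ) : Prop where
  ib : IB z
  db : DB a z
  hs : HS a z

theorem AN.mul (ha : ∀ s, 1 ≤ a s) {y z : ι → ℂ} (h : AN a y) (h' : AN a z) :
    AN a fun s ↦ y s * z s := ⟨h.ib.mul h'.ib, h.db.mul h'.db, h.hs.mul ha h'.hs⟩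

theorem AN.const {c : ℂ} (hc : IsAlgebraic ℚ c) : AN a fun _ ↦ c :=
  ⟨IB.const hc, DB.const hc, HS.const hc⟩

theorem AN.root {y z : ι → ℂ} {n : ℕ} (hn : 0 < n) (h : AN a y) (e : ∀ s, z s ^ n = y s) :
    AN a z := ⟨h.ib.root hn e, h.db.root hn e, h.hs.root hn e⟩

theorem AN.exists_AI (ha : ∀ s, 1 ≤ a s) {z : ι → ℂ} (h : AN a z) :
    ∃ (d : ℕ) (D : ι → ℕ), 0 < d ∧ PN a D ∧ ∀ s, AI (d * z s) (D s) := by
  obtain ⟨d, hd, hi⟩ := h.ib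
  have hd' : IsAlgebraic ℚ (d : ℂ) := isAlgebraic_natCast d
  obtain ⟨D, hD, h1⟩ := (DB.const (a := a) hd').mul h.db
  obtain ⟨G, ⟨D', hD', h2⟩, h3⟩ := (HS.const (a := a) hd').mul ha h.hs
  refine ⟨d, fun s ↦ D s + D' s, hd, hD.add ha hD', fun s ↦
    ⟨hi s, (h1 s).mono (Nat.le_add_right _ _), fun σ ↦ ?_⟩⟩
  refine ((h3 s σ).trans (h2 s)).trans (Real.exp_le_exp.2 ?_)
  exact_mod_cast Nat.le_add_left _ _

/-- Liouville's inequality for families -/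
theorem AN.lb (ha : ∀ s, 1 ≤ a s) {z : ι → ℂ} (h : AN a z) (h0 : ∀ s, z s ≠ 0) :
    LB a fun s ↦ ‖z s‖ := by
  obtain ⟨d, D, hd, hD, h1⟩ := h.exists_AI ha
  have hd' : (d : ℂ) ≠ 0 := by exact_mod_cast hd.ne'
  have h2 : EB a fun s ↦ (d : ℝ) * Real.exp (D s) ^ D s := by
    refine (EB.const _).mul ha ⟨_, hD.mul hD, fun s ↦ ?_⟩ fun s ↦ by positivity
    push_cast
    rw [Real.exp_nat_mul]
  refine LB.of_le_mul ha (LB.const one_pos) h2 (fun _ ↦ norm_nonneg _) fun s ↦ ?_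
  have := liouville (h1 s).1 (mul_ne_zero hd' (h0 s)) (h1 s).2.1
    (Real.one_le_exp (Nat.cast_nonneg _)) (h1 s).2.2
  rw [norm_mul, Complex.norm_natCast] at this
  linarith

end Pool.Agent.Lib.ZP3.HBF
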