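import Pool.Agent.Lib.ZP3.IsoEst
import Pool.Agent.Lib.ZP3.Defs2

/-! Block IE2, main part: the isogeny estimate with a varying denominator. -/

open UpperHalfPlane Filter Topology Metric
open scoped Real

namespace Pool.Agent.Lib.ZP3

open Pool.Agent.Lib.MP_0704bf_ag Pool.Agent.Lib.helper6 IE

namespace IE2

theorem lam_AI : ∃ c : ℕ, ∀ (d N : ℕ) (x y U l : ℂ) (a : ℕ), 0 < d → (d : ℝ) ≤ Real.exp a →
    1 ≤ a → AI (d * x) a → AI (d * y) a → MinIso N x y → (N : ℝ) ≤ Real.exp a → Isog N x y U →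
    l ^ 12 = U → AI (d * l) (c * a ^ 2) := by
  obtain ⟨c1, hc1⟩ := house
  refine ⟨433 + c1, fun d N x y U l a hd hda ha hx hy hm hN hU hl ↦ ⟨?_, ?_, fun σ ↦ ?_⟩⟩
  · have h1 := hU.integral hm.1 hx.1
    have h2 : IsIntegral ℤ ((d : ℂ) ^ 11 * (d * U)) :=
      ((isIntegral_algebraMap (R := ℤ) (x := (d : ℤ))).pow 11 |>.mul h1 : _)
    refine IsIntegral.of_pow (n := 12) (by norm_num) ?_
    convert h2 using 1
    rw [mul_pow, hl]; ring
  · have h1 := (hm.deg hU (deg_of_AI hd hx) (deg_of_AI hd hy)).root (by norm_num) hl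
    have h2 := (deg_int d).mul h1
    push_cast at h2
    refine h2.mono ?_
    nlinarith
  · have h1 := hc1 N _ _ _ a ha (hU.conj hm.1 σ) (norm_le_of_AI hd hx σ) (norm_le_of_AI hd hy σ) hN
    rw [← hl, map_pow, norm_pow] at h1
    have ha1 : (1 : ℝ) ≤ a := by exact_mod_cast ha
    have h2 : ‖σ l‖ ≤ Real.exp (c1 * a) := by
      refine le_of_pow_le_pow_left₀ (n := 12) (by norm_num) (by positivity) (h1.trans ?_)
      exact le_self_pow₀ (Real.one_le_exp (by positivity)) (by norm_num)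
    rw [map_mul, map_natCast, norm_mul, Complex.norm_natCast]
    calc (d : ℝ) * ‖σ l‖ ≤ Real.exp a * Real.exp (c1 * a) := by gcongr
      _ = Real.exp (a + c1 * a) := by rw [← Real.exp_add]
      _ ≤ _ := by
        apply Real.exp_le_exp.2
        push_cast
        have : (0 : ℝ) ≤ c1 := by positivity
        have : (a : ℝ) ≤ a ^ 2 := by nlinarith
        nlinarith

theorem common {x : ℂ} {a d e : ℕ} (he : (e : ℝ) ≤ Real.exp a) (hx : AI (d * x) a) :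
    AI ((d * e : ℕ) * x) (2 * a) := by
  have e1 : ((d * e : ℕ) : ℂ) * x = e * (d * x) := by push_cast; ring
  rw [e1]
  refine ⟨(isIntegral_algebraMap (R := ℤ) (x := (e : ℤ))).mul hx.1,
    ((deg_nat e).mul hx.2.1).mono (by omega), fun σ ↦ ?_⟩
  rw [map_mul, map_natCast, norm_mul, Complex.norm_natCast, Nat.cast_mul, Nat.cast_ofNat, two_mul,
    Real.exp_add]
  exact mul_le_mul he (hx.2.2 σ) (norm_nonneg _) (by positivity)

/-- the statement of `model2` -/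
def Model : Prop := ∃ c : ℕ, 0 < c ∧ ∀ (d : ℕ) (x : ℂ) (a : ℕ), 0 < d → (d : ℝ) ≤ Real.exp a →
    1 ≤ a → AI (d * x) a → ∃ (τ : ℍ) (Ω : ℂ) (W : WD), jInv τ = x ∧ Ω ≠ 0 ∧
      Ω ^ 12 * (12 * d) ^ 6 = (2 * π) ^ 12 * ModularForm.discriminant τ ∧ W.IsLat τ Ω ∧
      ‖(τ : ℂ)‖ ≤ c * a ∧ 1 ≤ 2 * τ.im ∧ W.Ar (Ω / 2) (c * a ^ 2) ∧
      ∀ m n : ℤ, (m ≠ 0 ∨ n ≠ 0) → |m| ≤ 1 → |n| ≤ 1 →
        W.Size (Ω / 2) (Ω * (m + n * τ)) (c * a ^ 2)

theorem core (hM : Model) : ∃ C k : ℕ, ∀ (d : ℕ) (x y : ℂ) (N a : ℕ), 0 < d →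
    (d : ℝ) ≤ Real.exp a → 1 ≤ a → AI (d * x) a → AI (d * y) a → MinIso N x y →
    (N : ℝ) ≤ Real.exp a → N ≤ C * a ^ k := by
  obtain ⟨c1, hc1, hmod⟩ := hM
  obtain ⟨c2, hlam⟩ := lam_AI
  obtain ⟨k, A0, hrow⟩ := row
  obtain ⟨c3, hc3⟩ := exists_le_exp (6 * (2 * c1) ^ 4)
  set c : ℕ := c1 + c2 + c3 + A0 + 6 with hc
  refine ⟨8 * c ^ (8 * k), 16 * k, fun d x y N a hd hda ha hx hy hm hN ↦ ?_⟩
  obtain ⟨τ, Ω, W, hj, hΩ, hΩe, hlat, hτ, him, har, hsz⟩ := hmod d x a hd hda ha hx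
  obtain ⟨τ', Ω', W', hj', hΩ', hΩe', hlat', hτ', him', har', hsz'⟩ := hmod d y a hd hda ha hy
  obtain ⟨U, hU⟩ := hm.2.1
  obtain ⟨p, q, r, s, hdet, hM, hUe⟩ := hU.lift hj hj'
  have ha1 : (1 : ℝ) ≤ a := by exact_mod_cast ha
  have hc11 : (1 : ℝ) ≤ c1 := by exact_mod_cast hc1
  have hB : (1 : ℝ) ≤ 2 * c1 * a := by nlinarith
  have hB2 : (2 : ℝ) ≤ 2 * c1 * a := by nlinarith
  have hc1a : (0 : ℝ) ≤ c1 * a := by positivity
  obtain ⟨b1, b2, b3, b4⟩ := mob_entries (B := 2 * c1 * a) hM hdet hm.1 hB (by linarith)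
    (by linarith) (him.trans (mul_le_mul_of_nonneg_right hB2 τ.im_pos.le))
    (him'.trans (mul_le_mul_of_nonneg_right hB2 τ'.im_pos.le))
  set l : ℂ := (p - r * τ') * Ω' / Ω with hl
  have hΔ := ModularForm.discriminant_ne_zero τ
  have hd' : (12 * d : ℂ) ^ 6 ≠ 0 := by
    have : (d : ℂ) ≠ 0 := by exact_mod_cast hd.ne'
    exact pow_ne_zero _ (mul_ne_zero (by norm_num) this)
  have hπ : (2 * π : ℂ) ^ 12 ≠ 0 := by
    have : (π : ℂ) ≠ 0 := by exact_mod_cast Real.pi_ne_zero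
    exact pow_ne_zero _ (mul_ne_zero (by norm_num) this)
  have hl12 : l ^ 12 = U := by
    rw [hl, div_pow, div_eq_iff (pow_ne_zero _ hΩ), mul_pow]
    apply mul_right_cancel₀ hd'
    rw [mul_assoc, hΩe', mul_assoc, hΩe]
    linear_combination (-(2 * π : ℂ) ^ 12) * hUe
  have hN0 : (0 : ℤ) < N := by exact_mod_cast hm.1
  have hl0 : l ≠ 0 := by
    have s1 := mob_normSq hM
    rw [hdet] at s1
    refine div_ne_zero (mul_ne_zero (fun h ↦ ?_) hΩ') hΩ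
    rw [h] at s1
    have h1 : (0 : ℝ) < ((N : ℤ) : ℝ) := by exact_mod_cast hN0
    have h2 : 0 < (τ' : ℂ).im := τ'.im_pos
    have := mul_pos h1 h2
    simp at s1 this
    rcases s1 with s1 | s1
    · exact hm.1.ne' s1
    · exact τ'.im_pos.ne' s1
  set A : ℕ := c * a ^ 2 with hA
  have ha2 : 1 ≤ a ^ 2 := Nat.one_le_pow _ _ ha
  have m1 : c1 * a ^ 2 ≤ A := Nat.mul_le_mul_right _ (by omega)
  have m2 : c2 * a ^ 2 ≤ A := Nat.mul_le_mul_right _ (by omega)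
  have m3 : A0 ≤ A := le_trans (by omega) (Nat.le_mul_of_pos_right c ha2)
  have m4 : 1 ≤ A := le_trans (by omega) (Nat.le_mul_of_pos_right c ha2)
  have hAI := (hlam d N x y U l a hd hda ha hx hy hm hN hU hl12).mono m2
  have hint : ∀ t : ℤ, |(t : ℝ)| ≤ 6 * N * (2 * c1 * a) ^ 4 → AI ((d * t : ℤ) : ℂ) A := by
    intro t ht
    refine int_AI _ m4 ?_
    have h5 : (a : ℝ) ≤ Real.exp a := by linarith [Real.add_one_le_exp (a : ℝ)]
    push_cast
    rw [abs_mul, abs_of_nonneg (Nat.cast_nonneg d)]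
    calc (d : ℝ) * |(t : ℝ)| ≤ d * (6 * N * (2 * c1 * a) ^ 4) := by gcongr
      _ ≤ Real.exp a * (6 * Real.exp a * (2 * c1 * Real.exp a) ^ 4) := by gcongr
      _ = (6 * (2 * c1) ^ 4) * Real.exp a ^ 6 := by ring
      _ ≤ Real.exp (c3 * a) * Real.exp a ^ 6 := by gcongr; exact hc3 a ha
      _ = Real.exp ((c3 + 6) * a) := by
        rw [← Real.exp_nat_mul, ← Real.exp_add]; push_cast; ring_nf
      _ ≤ _ := by
        apply Real.exp_le_exp.2
        rw [hA, hc]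
        push_cast
        have : (0 : ℝ) ≤ c2 := by positivity
        have : (0 : ℝ) ≤ c3 := by positivity
        have : (0 : ℝ) ≤ A0 := by positivity
        have : (a : ℝ) ≤ a ^ 2 := by nlinarith
        nlinarith
  have hpos : (0 : ℝ) ≤ 3 * N * (2 * c1 * a) ^ 4 := by positivity
  have key : ∀ (m n t t' : ℤ), (m ≠ 0 ∨ n ≠ 0) → |m| ≤ 1 → |n| ≤ 1 →
      |(t : ℝ)| ≤ 6 * N * (2 * c1 * a) ^ 4 → |(t' : ℝ)| ≤ 6 * N * (2 * c1 * a) ^ 4 →
      (t ≠ 0 ∨ t' ≠ 0) → (p - r * τ' : ℂ) * (m + n * τ) = t + t' * τ' →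
      (∃ g p q : ℤ, t = g * p ∧ t' = g * q ∧ |p| ≤ (A ^ k : ℕ) ∧ |q| ≤ (A ^ k : ℕ)) ∨
        N ≤ (A ^ k) ^ 8 := by
    intro m n t t' hmn hm1 hn1 ht ht' htt e
    have := hrow A d W W' τ' (Ω / 2) (Ω * (m + n * τ)) Ω' l t t' m3 hd hl0 hΩ' hlat'
      ((hsz m n hmn hm1 hn1).mono m1) (Ar_mono har m1)
      ((hsz' 1 0 (by simp) (by simp) (by simp)).mono m1)
      ((hsz' 0 1 (by simp) (by simp) (by simp)).mono m1) (Ar_mono har' m1) hAI (hint t ht)
      (hint t' ht') htt (by rw [hl, ← e]; field_simp)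
    rcases this with h | ⟨μ, hμ, f1, f2⟩
    · exact Or.inl h
    · exact Or.inr (mult_case hlat hlat' hΩ hΩ' hμ f1 f2 (by rw [hj, hj']; exact hm))
  have hM' := hM
  unfold Mob at hM'
  have k1 := key 1 0 p (-r) (by simp) (by simp) (by simp) (by linarith)
    (by push_cast; rw [abs_neg]; linarith)
    (by by_contra h; push Not at h; obtain ⟨h1, h2⟩ := h
        rw [h1, neg_eq_zero.1 h2] at hdet; omega)
    (by push_cast; ring)
  have k2 := key 0 1 (-q) s (by simp) (by simp) (by simp)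
    (by push_cast; rw [abs_neg]; linarith) (by linarith)
    (by by_contra h; push Not at h; obtain ⟨h1, h2⟩ := h
        rw [h2, neg_eq_zero.1 h1] at hdet; omega)
    (by push_cast; linear_combination (-1 : ℂ) * hM')
  have k3 := key 1 1 (p - q) (s - r) (by simp) (by simp) (by simp)
    (by push_cast; linarith [abs_sub (p : ℝ) q]) (by push_cast; linarith [abs_sub (s : ℝ) r])
    (by by_contra h; push Not at h; obtain ⟨h1, h2⟩ := h
        rw [sub_eq_zero.1 h1, sub_eq_zero.1 h2] at hdet; omega)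
    (by push_cast; linear_combination (-1 : ℂ) * hM')
  have hK : 1 ≤ A ^ k := Nat.one_le_pow _ _ m4
  have fin : N ≤ 8 * (A ^ k) ^ 8 := by
    rcases k1 with ⟨g1, p1, q1, e1, e1', u1, v1⟩ | k1
    swap; · omega
    rcases k2 with ⟨g2, p2, q2, e2, e2', u2, v2⟩ | k2
    swap; · omega
    rcases k3 with ⟨g3, p3, q3, e3, e3', u3, v3⟩ | k3
    swap; · omega
    have hco : IsCoprime g1 g2 := by
      rw [Int.isCoprime_iff_gcd_eq_one]
      have w1 : ((Int.gcd g1 g2 : ℕ) : ℤ) ∣ g1 := Int.gcd_dvd_left _ _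
      have w2 : ((Int.gcd g1 g2 : ℕ) : ℤ) ∣ g2 := Int.gcd_dvd_right _ _
      have := prim (by rw [hj, hj']; exact hm) hdet hM (g := (Int.gcd g1 g2 : ℕ))
        (e1 ▸ w1.mul_right _) ((dvd_neg).1 (e2 ▸ w2.mul_right _))
        ((dvd_neg).1 (e1' ▸ w1.mul_right _)) (e2' ▸ w2.mul_right _)
      rcases Int.isUnit_iff.1 this with h | h <;> omega
    have := small_case (K := A ^ k) (g3 := g3) (p3 := p3) (q3 := q3) hm.1
      (by rw [← e1, ← e1', ← e2, ← e2', ← hdet]; ring) hco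
      (by rw [← e1, ← e2, ← e3]; ring) (by rw [← e1', ← e2', ← e3']; ring) u1 v1 u2 v2 u3 v3
    refine this.trans (Nat.mul_le_mul_left _ (Nat.pow_le_pow_right hK (by norm_num)))
  refine fin.trans (le_of_eq ?_)
  rw [hA]; ring_nf

theorem of_model (hM : Model) : ∃ C k : ℕ, ∀ (x y : ℂ) (N a : ℕ), Sm x a → Sm y a →
    MinIso N x y → (N : ℝ) ≤ Real.exp a → N ≤ C * a ^ k := by
  obtain ⟨C, k, h⟩ := core hM
  refine ⟨C * 2 ^ k, k, fun x y N a ⟨d, hd, hda, hx⟩ ⟨e, he, hea, hy⟩ hm hN ↦ ?_⟩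
  have ha : 1 ≤ a := hx.2.1.pos
  rw [mul_assoc, ← mul_pow]
  refine h (d * e) x y N (2 * a) (Nat.mul_pos hd he) ?_ (by omega) (common hea hx)
    (mul_comm e d ▸ common hda hy) hm (hN.trans (Real.exp_le_exp.2 ?_))
  · push_cast
    rw [two_mul, Real.exp_add]
    exact mul_le_mul hda hea (by positivity) (by positivity)
  · push_cast
    linarith [Nat.cast_nonneg (α := ℝ) a]

end IE2

end Pool.Agent.Lib.ZP3
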