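import Pool.Agent.Lib.ZP3.Defs

/-! Block JB, first part: facts on `j`, Moebius relations and isogenies that do not need the
injectivity of `j`. -/

open UpperHalfPlane Filter Topology Metric
open scoped Real MatrixGroups Manifold

namespace Pool.Agent.Lib.ZP3

open Pool.Agent.Lib.MP_0704bf_ag Pool.Agent.Lib.helper6

theorem Mob.comp {τ τ' τ'' : ℂ} {a b c d a' b' c' d' : ℤ} (h : Mob a b c d τ τ')
    (h' : Mob a' b' c' d' τ' τ'') :
    Mob (a' * a + b' * c) (a' * b + b' * d) (c' * a + d' * c) (c' * b + d' * d) τ τ'' := by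
  unfold Mob at *
  push_cast
  linear_combination (c * τ + d) * h' + (a' - c' * τ'') * h

theorem Mob.comp_mult {τ' τ'' : ℂ} (a c : ℤ) {a' b' c' d' : ℤ}
    (h' : Mob a' b' c' d' τ' τ'') :
    (((a' * a + b' * c : ℤ) : ℂ) - ((c' * a + d' * c : ℤ) : ℂ) * τ'') =
      (a - c * τ') * (a' - c' * τ'') := by
  unfold Mob at *
  push_cast
  linear_combination (-c : ℂ) * h'

theorem Mob.symm {τ τ' : ℂ} {a b c d : ℤ} (h : Mob a b c d τ τ') :
    Mob d (-b) (-c) a τ' τ := by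
  unfold Mob at *
  push_cast
  linear_combination -h

theorem Mob.sub {τ τ' : ℂ} {a b c d a' b' c' d' : ℤ} (h : Mob a b c d τ τ')
    (h' : Mob a' b' c' d' τ τ') : Mob (a - a') (b - b') (c - c') (d - d') τ τ' := by
  unfold Mob at *
  push_cast
  linear_combination h - h'

theorem Mob.mul_den {τ τ' : ℂ} {a b c d : ℤ} (h : Mob a b c d τ τ') :
    ((a : ℂ) - c * τ') * (c * τ + d) = (a * d - b * c : ℤ) := by
  unfold Mob at *
  push_cast
  linear_combination (-c : ℂ) * h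

theorem Mob.mul_tau {τ τ' : ℂ} {a b c d : ℤ} (h : Mob a b c d τ τ') :
    ((a : ℂ) - c * τ') * τ = d * τ' - b := by
  unfold Mob at *
  linear_combination -h

theorem Rel.symm {n : ℕ} {τ τ' : ℂ} (h : Rel n τ τ') : Rel n τ' τ := by
  obtain ⟨a, b, c, d, hd, hm⟩ := h
  exact ⟨d, -b, -c, a, by linear_combination hd, hm.symm⟩

theorem Rel.trans {n n' : ℕ} {τ τ' τ'' : ℂ} (h : Rel n τ τ') (h' : Rel n' τ' τ'') :
    Rel (n * n') τ τ'' := by
  obtain ⟨a, b, c, d, hd, hm⟩ := h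
  obtain ⟨a', b', c', d', hd', hm'⟩ := h'
  refine ⟨_, _, _, _, ?_, hm.comp hm'⟩
  push_cast
  rw [← hd, ← hd']
  ring

theorem mob_normSq {τ τ' : ℂ} {a b c d : ℤ} (hm : Mob a b c d τ τ') :
    ‖a - c * τ'‖ ^ 2 * τ.im = (a * d - b * c : ℤ) * τ'.im := by
  have h := hm.mul_tau
  have h1 := congrArg Complex.re h
  have h2 := congrArg Complex.im h
  rw [← Complex.normSq_eq_norm_sq, Complex.normSq_apply]
  simp only [Complex.mul_re, Complex.mul_im, Complex.sub_re, Complex.sub_im, Complex.intCast_re,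
    Complex.intCast_im, zero_mul, sub_zero, add_zero, zero_sub] at h1 h2 ⊢
  push_cast
  linear_combination (a - c * τ'.re) * h2 + (c * τ'.im) * h1

theorem JB.exists_sl {τ τ' : ℍ} {a b c d : ℤ} (h : a * d - b * c = 1)
    (hm : Mob a b c d τ τ') : ∃ γ : SL(2, ℤ), γ • τ = τ' ∧
      denom (γ : GL (Fin 2) ℝ) τ = c * τ + d := by
  let γ : SL(2, ℤ) := ⟨!![a, b; c, d], by rw [Matrix.det_fin_two_of]; exact h⟩
  have hden : denom (γ : GL (Fin 2) ℝ) τ = c * τ + d := by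
    rw [ModularGroup.denom_apply]
    simp [γ]
  refine ⟨γ, ?_, hden⟩
  have h0 : (c : ℂ) * τ + d ≠ 0 := hden ▸ denom_ne_zero _ τ
  ext
  rw [coe_specialLinearGroup_apply]
  have e00 : γ 0 0 = a := rfl
  have e01 : γ 0 1 = b := rfl
  have e10 : γ 1 0 = c := rfl
  have e11 : γ 1 1 = d := rfl
  rw [e00, e01, e10, e11]
  simp only [algebraMap_int_eq, eq_intCast, Complex.ofReal_intCast]
  rw [div_eq_iff h0]
  unfold Mob at hm
  exact hm.symm

theorem j_of_rel {τ τ' : ℍ} (h : Rel 1 τ τ') : jInv τ = jInv τ' := by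
  obtain ⟨a, b, c, d, hd, hm⟩ := h
  obtain ⟨γ, hγ, -⟩ := JB.exists_sl (by exact_mod_cast hd) hm
  rw [← hγ, jInv_smul]

theorem disc_mob {τ τ' : ℍ} {a b c d : ℤ} (h : a * d - b * c = 1) (hm : Mob a b c d τ τ') :
    ((a : ℂ) - c * τ') ^ 12 * ModularForm.discriminant τ' = ModularForm.discriminant τ := by
  obtain ⟨γ, hγ, hden⟩ := JB.exists_sl h hm
  have hγ' : (γ : GL (Fin 2) ℝ) ∈ 𝒮ℒ := ⟨γ, rfl⟩
  have h12 := SlashInvariantForm.slash_action_eqn'' CuspForm.discriminant hγ' τ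
  rw [CuspForm.coe_discriminant, ← ModularGroup.sl_moeb, hγ, hden] at h12
  have h1 := hm.mul_den
  rw [h] at h1
  rw [h12, ← mul_assoc]
  have : ((a : ℂ) - c * τ') ^ 12 * (c * τ + d) ^ (12 : ℤ) = 1 := by
    rw [zpow_ofNat, ← mul_pow, h1]
    simp
  rw [this, one_mul]

theorem iso_of_rel {N : ℕ} {τ τ' : ℍ} (h : Rel N τ τ') : Iso N (jInv τ) (jInv τ') := by
  obtain ⟨a, b, c, d, hd, hm⟩ := h
  refine ⟨(a - c * τ') ^ 12 * ModularForm.discriminant τ' / ModularForm.discriminant τ,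
    τ, τ', a, b, c, d, hd, rfl, rfl, hm, ?_⟩
  rw [div_mul_cancel₀ _ (ModularForm.discriminant_ne_zero τ)]

theorem Iso.symm {N : ℕ} {x y : ℂ} (h : Iso N x y) : Iso N y x := by
  obtain ⟨U, τ, τ', a, b, c, d, hd, rfl, rfl, hm, -⟩ := h
  exact iso_of_rel (Rel.symm ⟨a, b, c, d, hd, hm⟩)

theorem iso_of_rat (τ : ℍ) (g : GL (Fin 2) ℚ) (hg : 0 < g.val.det) : ∃ N : ℕ, 0 < N ∧
    Iso N (jInv τ) (jInv (Matrix.GeneralLinearGroup.map (Rat.castHom ℝ) g • τ)) := by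
  obtain ⟨N, hN, g', A, hA, hg', hf⟩ := mem_SN_of_rat g hg
  refine ⟨N, hN, ?_⟩
  rw [congrFun hf τ]
  refine iso_of_rel ⟨A 0 0, A 0 1, A 1 0, A 1 1, by rw [← hA, Matrix.det_fin_two], ?_⟩
  have hpos : 0 < g'.det.val := by
    rw [det_of_val hg', hA]
    exact_mod_cast hN
  have h0 := denom_ne_zero g' τ
  unfold Mob
  rw [coe_smul_of_det_pos hpos]
  have e1 : denom g' τ = A 1 0 * τ + A 1 1 := by simp [denom, hg']
  have e2 : num g' τ = A 0 0 * τ + A 0 1 := by simp [num, hg']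
  rw [← e1, ← e2, div_mul_cancel₀ _ h0]

theorem mob_entries {τ τ' : ℂ} {a b c d : ℤ} {n : ℕ} {B : ℝ} (hm : Mob a b c d τ τ')
    (hn : a * d - b * c = n) (h0 : 0 < n) (hB : 1 ≤ B) (h1 : ‖τ‖ ≤ B) (h2 : ‖τ'‖ ≤ B)
    (h3 : 1 ≤ B * τ.im) (h4 : 1 ≤ B * τ'.im) :
    |(a : ℝ)| ≤ 3 * n * B ^ 4 ∧ |(b : ℝ)| ≤ 3 * n * B ^ 4 ∧ |(c : ℝ)| ≤ 3 * n * B ^ 4 ∧
      |(d : ℝ)| ≤ 3 * n * B ^ 4 := by
  have hn1 : (1 : ℝ) ≤ n := by exact_mod_cast h0
  have hB0 : 0 < B := by linarith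
  have hi' : 0 < τ'.im := by
    by_contra hc
    push Not at hc
    nlinarith
  have hi'B : τ'.im ≤ B := (le_abs_self _).trans ((Complex.abs_im_le_norm τ').trans h2)
  have hs := mob_normSq hm
  rw [hn] at hs
  push_cast at hs
  set L := ‖(a : ℂ) - c * τ'‖ with hL
  have hL0 : 0 ≤ L := norm_nonneg _
  have hL1 : L ≤ n * B := by
    have e1 : L ^ 2 ≤ L ^ 2 * (B * τ.im) := le_mul_of_one_le_right (by positivity) h3
    have e2 : L ^ 2 * (B * τ.im) = B * (n * τ'.im) := by rw [← hs]; ring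
    have e3 : B * (n * τ'.im) ≤ B * (n * B) := by gcongr
    have e4 : B * (n * B) ≤ (n * B) ^ 2 := by
      have : (n : ℝ) ≤ n * n := le_mul_of_one_le_left (by positivity) hn1
      nlinarith [sq_nonneg B]
    exact abs_le_of_sq_le_sq' (by linarith) (by positivity) |>.2
  have hB2 : B ≤ B ^ 2 := by nlinarith
  have hB3 : B ^ 2 ≤ B ^ 3 := by nlinarith
  have hB4 : B ^ 3 ≤ B ^ 4 := by nlinarith
  have hc : |(c : ℝ)| ≤ n * B ^ 2 := by
    have e1 := Complex.abs_im_le_norm ((a : ℂ) - c * τ')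
    simp only [Complex.sub_im, Complex.intCast_im, Complex.mul_im, Complex.intCast_re, zero_mul,
      add_zero, zero_sub, abs_neg, abs_mul, abs_of_pos hi'] at e1
    have e2 : |(c : ℝ)| ≤ |(c : ℝ)| * (B * τ'.im) :=
      le_mul_of_one_le_right (abs_nonneg _) h4
    have e3 : |(c : ℝ)| * (B * τ'.im) ≤ B * (n * B) := by
      calc _ = B * (|(c : ℝ)| * τ'.im) := by ring
        _ ≤ _ := mul_le_mul_of_nonneg_left (e1.trans hL1) hB0.le
    nlinarith
  have ha : |(a : ℝ)| ≤ n * B + n * B ^ 2 * B := by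
    have e : (a : ℂ) = (a - c * τ') + c * τ' := by ring
    have e1 : ‖(a : ℂ)‖ ≤ L + ‖(c : ℂ)‖ * ‖τ'‖ := by
      rw [← norm_mul]
      conv_lhs => rw [e]
      exact norm_add_le _ _
    rw [Complex.norm_intCast, Complex.norm_intCast] at e1
    refine e1.trans ?_
    gcongr
  have hLt : ‖(d : ℂ) * τ' - b‖ ≤ n * B * B := by
    rw [← hm.mul_tau, norm_mul]
    gcongr
  have hd : |(d : ℝ)| ≤ n * B ^ 3 := by
    have e1 := Complex.abs_im_le_norm ((d : ℂ) * τ' - b)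
    simp only [Complex.sub_im, Complex.intCast_im, Complex.mul_im, Complex.intCast_re, zero_mul,
      add_zero, sub_zero, abs_mul, abs_of_pos hi'] at e1
    have e2 : |(d : ℝ)| ≤ |(d : ℝ)| * (B * τ'.im) :=
      le_mul_of_one_le_right (abs_nonneg _) h4
    have e3 : |(d : ℝ)| * (B * τ'.im) ≤ B * (n * B * B) := by
      calc _ = B * (|(d : ℝ)| * τ'.im) := by ring
        _ ≤ _ := mul_le_mul_of_nonneg_left (e1.trans hLt) hB0.le
    nlinarith
  have hb : |(b : ℝ)| ≤ n * B ^ 3 * B + n * B * B := by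
    have e : (b : ℂ) = d * τ' - (d * τ' - b) := by ring
    have e1 : ‖(b : ℂ)‖ ≤ ‖(d : ℂ)‖ * ‖τ'‖ + ‖(d : ℂ) * τ' - b‖ := by
      rw [← norm_mul]
      conv_lhs => rw [e]
      exact norm_sub_le _ _
    rw [Complex.norm_intCast, Complex.norm_intCast] at e1
    refine e1.trans ?_
    gcongr
  have k1 : (n : ℝ) * B ≤ n * B ^ 4 := by gcongr; linarith
  have k2 : (n : ℝ) * B ^ 2 ≤ n * B ^ 4 := by gcongr; linarith
  have k3 : (n : ℝ) * B ^ 3 ≤ n * B ^ 4 := by gcongr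
  have k4 : (0 : ℝ) ≤ n * B ^ 4 := by positivity
  refine ⟨by nlinarith, by nlinarith, by nlinarith, by nlinarith⟩

theorem analyticAt_jc {z : ℂ} (hz : 0 < z.im) : AnalyticAt ℂ jc z := by
  have h := UpperHalfPlane.mdifferentiable_iff.mp mdiff_jInv
  exact h.analyticAt ((isOpen_lt continuous_const Complex.continuous_im).mem_nhds hz)

theorem jc_coe (τ : ℍ) : jc τ = jInv τ := by
  simp [jc]

theorem jc_nonconst {z : ℂ} (hz : 0 < z.im) : ¬ ∀ᶠ w in 𝓝 z, jc w = jc z := by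
  intro h
  have h1 : AnalyticOnNhd ℂ jc {w : ℂ | 0 < w.im} := fun w hw ↦ analyticAt_jc hw
  have h2 : AnalyticOnNhd ℂ (fun _ : ℂ ↦ jc z) {w : ℂ | 0 < w.im} := analyticOnNhd_const
  have h3 := h1.eqOn_of_preconnected_of_eventuallyEq h2
    (convex_halfSpace_im_gt 0).isPreconnected hz h
  refine range_jInv_infinite ((Set.finite_singleton (jc z)).subset ?_)
  rintro _ ⟨τ, rfl⟩
  rw [← jc_coe]
  exact h3 τ.im_pos

theorem j_surj (x : ℂ) : ∃ τ : ℍ, τ ∈ ModularGroup.fd ∧ jInv τ = x := by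
  suffices h : ∃ τ : ℍ, jInv τ = x by
    obtain ⟨τ, hτ⟩ := h
    obtain ⟨γ, hγ⟩ := ModularGroup.exists_smul_mem_fd τ
    exact ⟨γ • τ, hγ, by rw [jInv_smul, hτ]⟩
  by_contra hc
  push Not at hc
  have hne : ∀ τ, jInv τ - x ≠ 0 := fun τ ↦ sub_ne_zero.mpr (hc τ)
  let φ : ℍ → ℂ := fun τ ↦ 1 / (jInv τ - x)
  have hinv : Inv φ := fun γ τ ↦ by simp only [φ, jInv_smul]
  have hmd : MDiff φ := mdifferentiable_const.div (mdiff_jInv.sub mdifferentiable_const) hne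
  obtain ⟨J, -, hJ0, hJe⟩ := exists_jS
  have h1 := hJe.tendsto one_pos
  rw [hJ0] at h1
  have hq : Tendsto (qq 1) atImInfty (𝓝 0) := qParam_tendsto_atImInfty one_pos
  have h2 : Tendsto φ atImInfty (𝓝 0) := by
    have h3 := hq.div (h1.sub (hq.mul_const x)) (by simp)
    rw [zero_div] at h3
    refine h3.congr fun τ ↦ ?_
    have := qq_ne_zero 1 τ
    have := hne τ
    simp only [φ, Pi.div_apply, Pi.mul_apply]
    rw [← mul_sub]
    field_simp
  have hb : IsBoundedAtImInfty φ := h2.isBigO_one ℝ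
  have hE := hasExp_qExpansion one_pos (f := φ) (periodic_of_T hinv.vadd) hmd hb
  have h4 := tendsto_nhds_unique (hE.tendsto one_pos) h2
  have h5 := hinv.const hE I
  rw [h4] at h5
  exact one_div_ne_zero (hne I) h5

end Pool.Agent.Lib.ZP3
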