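import Pool.Agent.Lib.ZP3.Wronsk

/-! Wronskians of the family `z ^ i * F k z`. -/

open Filter Topology Metric

namespace Pool.Agent.Lib.ZP3

namespace MULT

section General
variable {ι : Type} [Fintype ι] [DecidableEq ι] {r : ℕ}

/-- the Wronskian of a family indexed by a finite type -/
noncomputable def Wr (e : Fin r ≃ ι) (g : ι → ℂ → ℂ) (z : ℂ) : ℂ :=
  (Matrix.of fun i j : Fin r ↦ iteratedDeriv i (g (e j)) z).det

theorem Wr_lin (e : Fin r ≃ ι) (f g : ι → ℂ → ℂ) (ρ : Matrix ι ι ℂ) {z : ℂ}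
    (hf : ∀ j, AnalyticAt ℂ (f j) z) (h : ∀ j, ∀ᶠ w in 𝓝 z, g j w = ∑ k, f k w * ρ k j) :
    Wr e g z = Wr e f z * ρ.det := by
  have := wronskian_lin (fun j ↦ f (e j)) (fun j ↦ g (e j)) (ρ.submatrix e e) (z := z)
    (fun j ↦ hf _) (fun j ↦ by
      filter_upwards [h (e j)] with w hw
      rw [hw, ← e.sum_comp]
      rfl)
  rw [Matrix.det_submatrix_equiv_self] at this
  exact this

omit [Fintype ι] [DecidableEq ι] in
theorem Wr_congr (e : Fin r ≃ ι) {f g : ι → ℂ → ℂ} {z : ℂ} (h : ∀ j, f j =ᶠ[𝓝 z] g j) :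
    Wr e f z = Wr e g z := by
  unfold Wr
  congr 1
  ext i j
  exact (h (e j)).iteratedDeriv_eq i

omit [Fintype ι] [DecidableEq ι] in
theorem Wr_comp (e : Fin r ≃ ι) (f : ι → ℂ → ℂ) {φ : ℂ → ℂ} {z : ℂ} (hφ : AnalyticAt ℂ φ z)
    (hf : ∀ j, AnalyticAt ℂ (f j) (φ z)) :
    Wr e (fun j w ↦ f j (φ w)) z = deriv φ z ^ (r * (r - 1) / 2) * Wr e f (φ z) :=
  wronskian_comp (fun j ↦ f (e j)) hφ fun _ ↦ hf _

omit [Fintype ι] [DecidableEq ι] in
theorem Wr_analytic (e : Fin r ≃ ι) {f : ι → ℂ → ℂ} {z : ℂ} (hf : ∀ j, AnalyticAt ℂ (f j) z) :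
    AnalyticAt ℂ (Wr e f) z := by
  have h : Wr e f = fun w ↦ ∑ σ : Equiv.Perm (Fin r), ((Equiv.Perm.sign σ : ℤ) : ℂ) *
      ∏ i, iteratedDeriv (σ i) (f (e i)) w := by
    funext w
    rw [Wr, Matrix.det_apply']
    rfl
  rw [h]
  refine Finset.analyticAt_fun_sum _ fun σ _ ↦ analyticAt_const.mul ?_
  refine Finset.analyticAt_fun_prod _ fun i _ ↦ ?_
  rw [iteratedDeriv_eq_iterate]
  exact (hf _).iterated_deriv _

omit [DecidableEq ι] in
theorem norm_Wr_le (e : Fin r ≃ ι) {f : ι → ℂ → ℂ} {z : ℂ} (b : ι → ℝ)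
    (hf : ∀ j, DiffContOnCl ℂ (f j) (ball z 1)) (hb : ∀ j, ∀ w ∈ sphere z 1, ‖f j w‖ ≤ b j) :
    ‖Wr e f z‖ ≤ (r.factorial : ℝ) ^ (r + 1) * ∏ j, b j := by
  have hb0 : ∀ j, 0 ≤ b j := fun j ↦ (norm_nonneg _).trans (hb j (z + 1) (by simp))
  have h1 : ∀ (i : Fin r) (j : ι), ‖iteratedDeriv i (f j) z‖ ≤ r.factorial * b j := by
    intro i j
    have := Complex.norm_iteratedDeriv_le_of_forall_mem_sphere_norm_le (i : ℕ) one_pos (hf j) (hb j)
    rw [one_pow, div_one] at this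
    refine this.trans (mul_le_mul_of_nonneg_right ?_ (hb0 j))
    exact_mod_cast Nat.factorial_le i.2.le
  rw [Wr, Matrix.det_apply']
  refine (norm_sum_le _ _).trans ?_
  have h2 : ∀ σ : Equiv.Perm (Fin r), ‖((Equiv.Perm.sign σ : ℤ) : ℂ) *
      ∏ i, (Matrix.of fun i j : Fin r ↦ iteratedDeriv i (f (e j)) z) (σ i) i‖ ≤
      (r.factorial : ℝ) ^ r * ∏ j, b j := by
    intro σ
    have hs : ‖((Equiv.Perm.sign σ : ℤ) : ℂ)‖ = 1 := by
      rcases Int.units_eq_one_or (Equiv.Perm.sign σ) with h | h <;> simp [h]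
    rw [norm_mul, hs, one_mul, norm_prod]
    refine (Finset.prod_le_prod (fun i _ ↦ norm_nonneg _) fun i _ ↦ h1 (σ i) (e i)).trans ?_
    rw [Finset.prod_mul_distrib, e.prod_comp b]
    simp
  refine (Finset.sum_le_sum fun σ _ ↦ h2 σ).trans ?_
  rw [Finset.sum_const, Finset.card_univ, Fintype.card_perm, Fintype.card_fin, nsmul_eq_mul,
    pow_succ]
  exact le_of_eq (by ring)

omit [DecidableEq ι] in
theorem poly_per (d : ι → ℕ) (a : ι → ℂ) (z : ℂ) (h : ∀ n : ℕ, ∑ j, a j * (z + n) ^ d j = 0)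
    (i : ℕ) : ∑ j, (if d j = i then a j else 0) = 0 := by
  have hp : (∑ j, Polynomial.monomial (d j) (a j) : Polynomial ℂ) = 0 := by
    refine Polynomial.eq_zero_of_infinite_isRoot _ ?_
    refine Set.infinite_of_injective_forall_mem (f := fun n : ℕ ↦ z + n) (fun m n hmn ↦ ?_)
      fun n ↦ ?_
    · simpa using hmn
    · simpa [Polynomial.eval_finsetSum] using h n
  have := congrArg (fun p ↦ Polynomial.coeff p i) hp
  simpa [Polynomial.coeff_monomial] using this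

end General

/-- the index set -/
abbrev Ix (K : Finset ℕ) : Type := (k : K) × Fin (12 * k + 1)

/-- the family -/
noncomputable def fam (K : Finset ℕ) (F : ℕ → ℂ → ℂ) (a : ℂ) (j : Ix K) (z : ℂ) : ℂ :=
  (z + a) ^ (j.2 : ℕ) * F j.1 z

variable {K : Finset ℕ} {F : ℕ → ℂ → ℂ} {r : ℕ}

theorem fam_analytic {z : ℂ} (hF : ∀ k, AnalyticAt ℂ (F k) z) (a : ℂ) (j : Ix K) :
    AnalyticAt ℂ (fam K F a j) z :=
  ((analyticAt_id.add analyticAt_const).pow _).mul (hF _)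

theorem Wr_shift (e : Fin r ≃ Ix K) {z : ℂ} (hF : ∀ k, AnalyticAt ℂ (F k) z) (a : ℂ) :
    Wr e (fam K F a) z = Wr e (fam K F 0) z := by
  let ρ : Matrix (Ix K) (Ix K) ℂ := Matrix.of fun j' j ↦
    if j'.1 = j.1 then a ^ ((j.2 : ℕ) - j'.2) * ((j.2 : ℕ).choose j'.2 : ℂ) else 0
  have hdet : ρ.det = 1 := by
    have ht : ρ.BlockTriangular fun j ↦ (j.2 : ℕ) := by
      intro j' j h
      simp only [ρ, Matrix.of_apply]
      split_ifs
      · rw [Nat.choose_eq_zero_of_lt h]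
        simp
      · rfl
    rw [ht.det]
    refine Finset.prod_eq_one fun i _ ↦ ?_
    have : ρ.toSquareBlock (fun j ↦ (j.2 : ℕ)) i = 1 := by
      ext ⟨⟨k', l⟩, h'⟩ ⟨⟨k, m⟩, h⟩
      simp only at h h'
      simp only [Matrix.toSquareBlock_def, Matrix.of_apply, ρ, Matrix.one_apply, Subtype.mk.injEq]
      by_cases hk : k' = k
      · subst hk
        have : l = m := Fin.ext (h'.trans h.symm)
        subst this
        simp
      · rw [if_neg hk, if_neg]
        intro h2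
        exact hk (congrArg Sigma.fst h2)
    rw [this, Matrix.det_one]
  rw [Wr_lin e (fam K F 0) (fam K F a) ρ (fam_analytic hF 0), hdet, mul_one]
  rintro ⟨k, i⟩
  refine Eventually.of_forall fun w ↦ ?_
  rw [Fintype.sum_sigma, Finset.sum_eq_single k]
  · simp only [fam, ρ, Matrix.of_apply, if_true, add_zero]
    rw [add_pow, Fin.sum_univ_eq_sum_range
      (fun l ↦ w ^ l * F k w * (a ^ ((i : ℕ) - l) * ((i : ℕ).choose l : ℂ))), Finset.sum_mul]
    refine Eq.trans ?_ (Finset.sum_subset (Finset.range_subset_range.2 i.2) fun l _ hl ↦ ?_)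
    · exact Finset.sum_congr rfl fun l _ ↦ by ring
    · rw [Nat.choose_eq_zero_of_lt (by simpa using hl)]
      simp
  · intro k' _ hk
    simp [ρ, hk]
  · simp

theorem ev_im {z : ℂ} (hz : 0 < z.im) : ∀ᶠ w in 𝓝 z, 0 < w.im :=
  (isOpen_lt continuous_const Complex.continuous_im).mem_nhds hz

theorem Wr_T (e : Fin r ≃ Ix K) (hF : ∀ k z, 0 < z.im → AnalyticAt ℂ (F k) z)
    (hT : ∀ k z, 0 < z.im → F k (z + 1) = F k z) {z : ℂ} (hz : 0 < z.im) :
    Wr e (fam K F 0) (z + 1) = Wr e (fam K F 0) z := by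
  have h1 := Wr_comp e (fam K F 0) (φ := fun w ↦ w + 1) (z := z)
    (analyticAt_id.add analyticAt_const) (fam_analytic (fun k ↦ hF k _ (by simpa using hz)) 0)
  rw [deriv_add_const, deriv_id'', one_pow, one_mul] at h1
  rw [← h1, ← Wr_shift e (fun k ↦ hF k z hz) 1]
  refine Wr_congr e fun j ↦ ?_
  filter_upwards [ev_im hz] with w hw
  simp [fam, hT _ w hw]

theorem im_S {z : ℂ} (hz : 0 < z.im) : 0 < ((-z)⁻¹).im := by
  have : z ≠ 0 := by
    rintro rfl
    simp at hz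
  have h2 := Complex.normSq_pos.2 this
  simp only [Complex.inv_im, Complex.neg_im, neg_neg, Complex.normSq_neg]
  positivity

theorem Wr_S (e : Fin r ≃ Ix K) (hF : ∀ k z, 0 < z.im → AnalyticAt ℂ (F k) z)
    (hS : ∀ k z, 0 < z.im → F k (-z)⁻¹ = z ^ (12 * k) * F k z) {z : ℂ} (hz : 0 < z.im) :
    Wr e (fam K F 0) (-z)⁻¹ ^ 2 = z ^ (2 * (r * (r - 1))) * Wr e (fam K F 0) z ^ 2 := by
  have hz0 : z ≠ 0 := by
    rintro rfl
    simp at hz
  have hφ : AnalyticAt ℂ (fun w : ℂ ↦ (-w)⁻¹) z := analyticAt_id.neg.inv (neg_ne_zero.2 hz0)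
  have h1 := Wr_comp e (fam K F 0) hφ (fam_analytic (fun k ↦ hF k _ (im_S hz)) 0)
  have hd : deriv (fun w : ℂ ↦ (-w)⁻¹) z = (z ^ 2)⁻¹ := by
    simp
  let σ : Equiv.Perm (Ix K) := Equiv.sigmaCongrRight fun _ ↦ Fin.revPerm
  let ρ : Matrix (Ix K) (Ix K) ℂ :=
    Matrix.of fun j' j ↦ (-1) ^ (j.2 : ℕ) * (1 : Matrix (Ix K) (Ix K) ℂ).submatrix id σ j' j
  have hdet : ρ.det ^ 2 = 1 := by
    simp only [ρ]
    rw [Matrix.det_mul_row, Matrix.det_permute', Matrix.det_one, mul_one, mul_pow,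
      ← Finset.prod_pow]
    have hs : ((Equiv.Perm.sign σ : ℤ) : ℂ) ^ 2 = 1 := by
      rcases Int.units_eq_one_or (Equiv.Perm.sign σ) with h | h <;> simp [h]
    rw [hs, mul_one]
    refine Finset.prod_eq_one fun j _ ↦ ?_
    rw [← pow_mul, mul_comm, pow_mul]
    simp
  have h2 := Wr_lin e (fam K F 0) (fun j w ↦ fam K F 0 j (-w)⁻¹) ρ
    (fam_analytic (fun k ↦ hF k z hz) 0) (by
      rintro ⟨k, i⟩
      filter_upwards [ev_im hz] with w hw
      have hw0 : w ≠ 0 := by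
        rintro rfl
        simp at hw
      rw [Finset.sum_eq_single (σ ⟨k, i⟩)]
      · have hi : (i : ℕ) ≤ 12 * k := Nat.lt_succ_iff.1 i.2
        have hv : ((Fin.rev i : Fin (12 * k + 1)) : ℕ) = 12 * k - i := by
          rw [Fin.val_rev]
          omega
        have e1 : ρ (σ ⟨k, i⟩) ⟨k, i⟩ = (-1) ^ (i : ℕ) := by
          change (-1) ^ (i : ℕ) * (1 : Matrix (Ix K) (Ix K) ℂ) (σ ⟨k, i⟩) (σ ⟨k, i⟩) = _
          rw [Matrix.one_apply_eq, mul_one]
        have e2 : fam K F 0 (σ ⟨k, i⟩) w = w ^ (12 * (k : ℕ) - (i : ℕ)) * F k w := by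
          rw [← hv]
          change (w + 0) ^ _ * _ = _
          rw [add_zero]
          rfl
        rw [e1, e2]
        simp only [fam, add_zero, hS _ w hw]
        rw [pow_sub₀ _ hw0 hi, inv_pow, neg_pow w]
        have : ((-1 : ℂ) ^ (i : ℕ)) * (-1) ^ (i : ℕ) = 1 := by
          rw [← mul_pow]
          simp
        field_simp
        rw [sq, this, one_mul]
      · intro j _ hj
        have e1 : ρ j ⟨k, i⟩ = 0 := by
          change (-1) ^ (i : ℕ) * (1 : Matrix (Ix K) (Ix K) ℂ) j (σ ⟨k, i⟩) = _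
          rw [Matrix.one_apply_ne hj, mul_zero]
        rw [e1, mul_zero]
      · simp)
  rw [h2, hd] at h1
  have h3 : (Wr e (fam K F 0) z) ^ 2 =
      ((z ^ 2)⁻¹ ^ (r * (r - 1) / 2) * Wr e (fam K F 0) (-z)⁻¹) ^ 2 := by
    rw [← h1, mul_pow, hdet, mul_one]
  have h4 : r * (r - 1) = 2 * (r * (r - 1) / 2) :=
    (Nat.mul_div_cancel' (Nat.even_mul_pred_self r).two_dvd).symm
  rw [h3]
  generalize r * (r - 1) / 2 = s at h4
  rw [h4, mul_pow, ← mul_assoc, inv_pow, inv_pow, ← pow_mul, ← pow_mul,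
    show 2 * (s * 2) = 2 * (2 * s) by ring, mul_inv_cancel₀ (pow_ne_zero _ hz0), one_mul]

theorem fam_indep (hT : ∀ k z, 0 < z.im → F k (z + 1) = F k z)
    (hS : ∀ k z, 0 < z.im → F k (-z)⁻¹ = z ^ (12 * k) * F k z)
    (hne : ∀ k ∈ K, ∃ z, 0 < z.im ∧ F k z ≠ 0) (c : Ix K → ℂ)
    (hc : ∀ z, 0 < z.im → ∑ j, c j * fam K F 0 j z = 0) : c = 0 := by
  have hTn : ∀ k z, 0 < z.im → ∀ n : ℕ, F k (z + n) = F k z := by
    intro k z hz n
    induction n with
    | zero => simp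
    | succ n ih =>
      rw [Nat.cast_succ, ← add_assoc, hT _ _ (by simpa using hz), ih]
  have h1 : ∀ z, 0 < z.im → ∀ i : ℕ, ∑ j : Ix K, (if (j.2 : ℕ) = i then c j * F j.1 z else 0) = 0 := by
    intro z hz i
    refine poly_per (fun j : Ix K ↦ (j.2 : ℕ)) (fun j ↦ c j * F j.1 z) z (fun n ↦ ?_) i
    refine Eq.trans (Finset.sum_congr rfl fun j _ ↦ ?_) (hc (z + n) (by simpa using hz))
    simp only [fam, add_zero, hTn _ z hz]
    ring
  funext ⟨k, i⟩
  obtain ⟨z, hz, hz0⟩ := hne k k.2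
  have h2 := poly_per (fun j : Ix K ↦ 12 * (j.1 : ℕ))
    (fun j ↦ if (j.2 : ℕ) = i then c j * F j.1 z else 0) z (fun n ↦ by
      have hzn : 0 < (z + n).im := by simpa using hz
      refine Eq.trans (Finset.sum_congr rfl fun j _ ↦ ?_) (h1 _ (im_S hzn) i)
      split_ifs
      · rw [hS _ _ hzn, hTn _ z hz]
        ring
      · simp) (12 * k)
  rw [Finset.sum_eq_single (⟨k, i⟩ : Ix K)] at h2
  · simpa [hz0] using h2
  · rintro ⟨k', l⟩ _ hj
    simp only
    split_ifs with h3 h4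
    · have : k' = k := Subtype.ext (by omega)
      subst this
      exact absurd (congrArg _ (Fin.ext h4)) hj
    · rfl
    · rfl
  · simp

theorem Wr_ne (e : Fin r ≃ Ix K) (hF : ∀ k z, 0 < z.im → AnalyticAt ℂ (F k) z)
    (hT : ∀ k z, 0 < z.im → F k (z + 1) = F k z)
    (hS : ∀ k z, 0 < z.im → F k (-z)⁻¹ = z ^ (12 * k) * F k z)
    (hne : ∀ k ∈ K, ∃ z, 0 < z.im ∧ F k z ≠ 0) : ∃ z, 0 < z.im ∧ Wr e (fam K F 0) z ≠ 0 := by
  refine wronskian_ne_zero (fun j ↦ fam K F 0 (e j)) (U := {z | 0 < z.im})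
    (isOpen_lt continuous_const Complex.continuous_im) (convex_halfSpace_im_gt 0).isPreconnected
    ⟨Complex.I, by simp⟩ (fun j z hz ↦ fam_analytic (fun k ↦ hF k z hz) 0 _) fun c hc ↦ ?_
  have := fam_indep hT hS hne (fun j ↦ c (e.symm j)) fun z hz ↦ by
    rw [← e.sum_comp]
    simpa using hc z hz
  funext j
  simpa using congrFun this (e j)

theorem Wr_bound (e : Fin r ≃ Ix K) {k0 : ℕ} (hk0 : k0 ∈ K)
    (hF : ∀ k z, 0 < z.im → AnalyticAt ℂ (F k) z) {C ε : ℝ} {z : ℂ} (hz : 1 < z.im)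
    (hb : ∀ k ∈ K, ∀ w ∈ sphere z 1, ‖F k w‖ ≤ C) (hC : 1 ≤ C)
    (hs : ∀ w ∈ sphere z 1, ‖∑ k ∈ K, F k w‖ ≤ ε) :
    ‖Wr e (fam K F 0) z‖ ≤ (r.factorial : ℝ) ^ (r + 1) * C ^ r * ε := by
  have hz0 : 0 < z.im := one_pos.trans hz
  have him : ∀ w ∈ closedBall z 1, 0 < w.im := by
    intro w hw
    have h1 := Complex.abs_im_le_norm (w - z)
    have h2 : ‖w - z‖ ≤ 1 := by simpa [dist_eq_norm] using hw
    have h3 := neg_le_of_abs_le (h1.trans h2)
    rw [Complex.sub_im] at h3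
    linarith
  let j0 : Ix K := ⟨⟨k0, hk0⟩, 0⟩
  let g : Ix K → ℂ → ℂ := fun j w ↦ if j = j0 then ∑ k ∈ K, F k w else fam K F (-z) j w
  let ρ : Matrix (Ix K) (Ix K) ℂ := (1 : Matrix (Ix K) (Ix K) ℂ).updateCol j0
    fun k ↦ ∑ i : Ix K, (if (i.2 : ℕ) = 0 then (1 : ℂ) else 0) • (1 : Matrix (Ix K) (Ix K) ℂ) k i
  have hdet : ρ.det = 1 := by
    simp only [ρ]
    rw [Matrix.det_updateCol_sum]
    simp [j0]
  have h1 : Wr e g z = Wr e (fam K F 0) z := by
    rw [Wr_lin e (fam K F (-z)) g ρ (fam_analytic (fun k ↦ hF k z hz0) _), hdet, mul_one,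
      Wr_shift e (fun k ↦ hF k z hz0)]
    intro j
    refine Eventually.of_forall fun w ↦ ?_
    by_cases hj : j = j0
    · subst hj
      simp only [g, ρ, if_true, Matrix.updateCol_self, Matrix.one_apply, smul_eq_mul, mul_ite,
        mul_one, mul_zero, Finset.sum_ite_eq, Finset.mem_univ]
      rw [Fintype.sum_sigma, ← Finset.sum_coe_sort]
      refine Finset.sum_congr rfl fun k _ ↦ ?_
      rw [Finset.sum_eq_single 0]
      · simp [fam]
      · intro l _ hl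
        rw [if_neg]
        exact fun h ↦ hl (Fin.ext h)
      · simp
    · simp [g, ρ, hj, Matrix.one_apply]
  have hg : ∀ j, DiffContOnCl ℂ (g j) (ball z 1) := by
    intro j
    refine DifferentiableOn.diffContOnCl fun w hw ↦ ?_
    have hw' := him w (closure_ball_subset_closedBall hw)
    refine (AnalyticAt.differentiableAt ?_).differentiableWithinAt
    by_cases hj : j = j0
    · simp only [g, hj, if_true]
      exact Finset.analyticAt_fun_sum _ fun k _ ↦ hF k w hw'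
    · simp only [g, hj, if_false]
      exact fam_analytic (fun k ↦ hF k w hw') _ _
  have hε : 0 ≤ ε := (norm_nonneg _).trans (hs (z + 1) (by simp))
  have h2 := norm_Wr_le e (fun j ↦ if j = j0 then C * ε else C) hg (fun j w hw ↦ by
    by_cases hj : j = j0
    · simp only [g, hj, if_true]
      exact (hs w hw).trans (le_mul_of_one_le_left hε hC)
    · simp only [g, hj, if_false, fam, norm_mul, norm_pow]
      have : ‖w + -z‖ = 1 := by simpa [dist_eq_norm, sub_eq_add_neg] using hw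
      rw [this, one_pow, one_mul]
      exact hb _ j.1.2 w hw)
  rw [h1] at h2
  refine h2.trans (le_of_eq ?_)
  have h3 : ∀ j : Ix K, (if j = j0 then C * ε else C) = C * (if j = j0 then ε else 1) := by
    intro j
    split_ifs <;> simp
  simp only [h3]
  rw [Finset.prod_mul_distrib, Finset.prod_ite_eq', Finset.prod_const, Finset.card_univ,
    ← Fintype.card_congr e, Fintype.card_fin]
  simp [mul_assoc]

end MULT

end Pool.Agent.Lib.ZP3
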