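import Mathlib

/-! Germs of analytic functions with algebraic Taylor coefficients. -/

open Filter Topology Metric Asymptotics

namespace Pool.Agent.Lib.ZP3.TAY

/-- analytic at `0`, the first `K` Taylor coefficients are algebraic -/
def AP : ℕ → (ℂ → ℂ) → Prop
  | 0, φ => AnalyticAt ℂ φ 0
  | K + 1, φ => ∃ c ψ, IsAlgebraic ℚ c ∧ AP K ψ ∧ φ =ᶠ[𝓝 0] fun u ↦ c + u * ψ u

variable {K : ℕ} {φ ψ : ℂ → ℂ}

theorem AP.an (h : AP K φ) : AnalyticAt ℂ φ 0 := by
  induction K generalizing φ with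
  | zero => exact h
  | succ K ih =>
    obtain ⟨c, ψ, -, h1, h2⟩ := h
    exact (analyticAt_const.add (analyticAt_id.mul (ih h1))).congr h2.symm

theorem AP.congr (h : AP K φ) (e : φ =ᶠ[𝓝 0] ψ) : AP K ψ := by
  cases K with
  | zero => exact AnalyticAt.congr h e
  | succ K =>
    obtain ⟨c, χ, h0, h1, h2⟩ := h
    exact ⟨c, χ, h0, h1, e.symm.trans h2⟩

theorem AP.mono (h : AP (K + 1) φ) : AP K φ := by
  induction K generalizing φ with
  | zero => exact h.an
  | succ K ih =>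
    obtain ⟨c, χ, h0, h1, h2⟩ := h
    exact ⟨c, χ, h0, ih h1, h2⟩

theorem AP.val (h : AP (K + 1) φ) : IsAlgebraic ℚ (φ 0) := by
  obtain ⟨c, χ, h0, -, h2⟩ := h
  rw [h2.eq_of_nhds]
  simpa using h0

theorem ap_const {c : ℂ} (h : IsAlgebraic ℚ c) : AP K fun _ ↦ c := by
  induction K generalizing c with
  | zero => exact analyticAt_const
  | succ K ih => exact ⟨c, fun _ ↦ 0, h, ih isAlgebraic_zero, by simp⟩

theorem ap_id : AP K fun u ↦ u := by
  cases K with
  | zero => exact analyticAt_id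
  | succ K => exact ⟨0, fun _ ↦ 1, isAlgebraic_zero, ap_const isAlgebraic_one, by simp⟩

theorem AP.add (h : AP K φ) (h' : AP K ψ) : AP K fun u ↦ φ u + ψ u := by
  induction K generalizing φ ψ with
  | zero => exact AnalyticAt.add h h'
  | succ K ih =>
    obtain ⟨c, χ, h0, h1, h2⟩ := h
    obtain ⟨d, ω, k0, k1, k2⟩ := h'
    refine ⟨c + d, _, h0.add k0, ih h1 k1, ?_⟩
    filter_upwards [h2, k2] with u e1 e2
    rw [e1, e2]
    ring

theorem AP.mul (h : AP K φ) (h' : AP K ψ) : AP K fun u ↦ φ u * ψ u := by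
  induction K generalizing φ ψ with
  | zero => exact AnalyticAt.mul h h'
  | succ K ih =>
    have := h'.mono
    obtain ⟨c, χ, h0, h1, h2⟩ := h
    obtain ⟨d, ω, k0, k1, k2⟩ := h'
    refine ⟨c * d, _, h0.mul k0, (ih h1 this).add (ih (ap_const h0) k1), ?_⟩
    filter_upwards [h2, k2] with u e1 e2
    rw [e1, e2]
    ring

theorem AP.sub (h : AP K φ) (h' : AP K ψ) : AP K fun u ↦ φ u - ψ u := by
  simpa [sub_eq_add_neg] using h.add ((ap_const isAlgebraic_one.neg).mul h')

theorem AP.pow (h : AP K φ) (n : ℕ) : AP K fun u ↦ φ u ^ n := by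
  induction n with
  | zero => simpa using ap_const isAlgebraic_one
  | succ n ih => simpa [pow_succ] using ih.mul h

theorem AP.inv (h : AP K φ) (h0 : φ 0 ≠ 0) : AP K fun u ↦ (φ u)⁻¹ := by
  induction K with
  | zero => exact AnalyticAt.inv h h0
  | succ K ih =>
    have h3 := ih h.mono
    have h4 := h.an.continuousAt.eventually_ne h0
    obtain ⟨c, χ, h0', h1, h2⟩ := h
    have hc : c ≠ 0 := by simpa [h2.eq_of_nhds] using h0
    refine ⟨c⁻¹, _, h0'.inv, ((ap_const h0'.inv.neg).mul h1).mul h3, ?_⟩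
    filter_upwards [h2, h4] with u e1 e2
    have : χ u * u = φ u - c := by rw [e1]; ring
    field_simp
    linear_combination this

theorem AP.sum {ι : Type*} {s : Finset ι} {f : ι → ℂ → ℂ} (h : ∀ i ∈ s, AP K (f i)) :
    AP K fun u ↦ ∑ i ∈ s, f i u := by
  classical
  induction s using Finset.induction_on with
  | empty => simpa using ap_const isAlgebraic_zero
  | insert a s ha ih =>
    simp only [Finset.sum_insert ha]
    exact (h a (Finset.mem_insert_self _ _)).add (ih fun i hi ↦ h i (Finset.mem_insert_of_mem hi))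

theorem AP.eval (h : AP K φ) {p : Polynomial ℂ} (hp : ∀ n, IsAlgebraic ℚ (p.coeff n)) :
    AP K fun u ↦ p.eval (φ u) := by
  simp only [Polynomial.eval_eq_sum_range]
  exact AP.sum fun i _ ↦ (ap_const (hp i)).mul (h.pow i)

theorem AP.aeval (h : AP K φ) (p : Polynomial ℤ) : AP K fun u ↦ Polynomial.aeval (φ u) p := by
  simp only [Polynomial.aeval_eq_sum_range, zsmul_eq_mul]
  exact AP.sum fun i _ ↦ (ap_const (isAlgebraic_intCast _)).mul (h.pow i)

theorem AP.div1 (h : AP (K + 1) φ) (hψ : AnalyticAt ℂ ψ 0) (e : φ =ᶠ[𝓝 0] fun u ↦ u * ψ u) :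
    AP K ψ := by
  obtain ⟨c, χ, -, h1, h2⟩ := h
  have h3 := e.symm.trans h2
  have hc : c = 0 := by simpa using h3.eq_of_nhds.symm
  refine h1.congr ((h1.an.continuousAt.eventuallyEq_nhds_iff_eventuallyEq_nhdsNE
    hψ.continuousAt).1 ?_)
  filter_upwards [h3.filter_mono nhdsWithin_le_nhds, self_mem_nhdsWithin] with u e1 e2
  rw [hc, zero_add] at e1
  exact (mul_left_cancel₀ e2 e1).symm

theorem AP.div {m : ℕ} (h : AP (K + m) φ) (hψ : AnalyticAt ℂ ψ 0)
    (e : φ =ᶠ[𝓝 0] fun u ↦ u ^ m * ψ u) : AP K ψ := by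
  induction m generalizing φ with
  | zero => exact h.congr (by simpa using e)
  | succ m ih =>
    refine ih (φ := fun u ↦ u ^ m * ψ u) (AP.div1 h ((analyticAt_id.pow m).mul hψ) ?_) .rfl
    simpa only [pow_succ', mul_assoc] using e

theorem an_dslope {a : ℂ} (h : AnalyticAt ℂ φ a) : AnalyticAt ℂ (dslope φ a) a := by
  obtain ⟨p, hp⟩ := h
  exact ⟨_, hp.has_fpower_series_dslope_fslope⟩

theorem ap_small (h : AnalyticAt ℂ φ 0) (hO : φ =O[𝓝[≠] 0] fun u : ℂ ↦ u ^ K) : AP K φ := by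
  induction K generalizing φ with
  | zero => exact h
  | succ K ih =>
    have h0 : φ 0 = 0 := by
      refine tendsto_nhds_unique (h.continuousAt.tendsto.mono_left nhdsWithin_le_nhds)
        (hO.trans_tendsto (Tendsto.mono_left ?_ nhdsWithin_le_nhds))
      exact Continuous.tendsto' (by fun_prop) _ _ (by simp)
    have e (u : ℂ) : φ u = u * dslope φ 0 u := by
      simpa [h0] using (sub_smul_dslope φ 0 u).symm
    refine ⟨0, dslope φ 0, isAlgebraic_zero, ih (an_dslope h) ?_, .of_forall fun u ↦ by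
      simpa using e u⟩
    refine (hO.mul (isBigO_refl (fun u : ℂ ↦ u⁻¹) _)).congr' ?_ ?_
    · filter_upwards [self_mem_nhdsWithin] with u hu
      rw [e u, mul_comm u, mul_inv_cancel_right₀ hu]
    · filter_upwards [self_mem_nhdsWithin] with u hu
      rw [pow_succ, mul_inv_cancel_right₀ hu]

theorem AP.approx (h : AP K ψ) (hφ : AnalyticAt ℂ φ 0)
    (hO : (fun u ↦ φ u - ψ u) =O[𝓝[≠] 0] fun u : ℂ ↦ u ^ K) : AP K φ := by
  simpa using (ap_small (hφ.sub h.an) hO).add h

theorem factor {f : ℂ → ℂ} {r : ℝ} (hr : 0 < r) (hf : AnalyticOnNhd ℂ f (ball 0 r)) (h0 : f 0 = 0)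
    (hne : ¬ ∀ u ∈ ball (0 : ℂ) r, f u = 0) : ∃ (e : ℕ) (g : ℂ → ℂ), 0 < e ∧
      AnalyticOnNhd ℂ g (ball 0 r) ∧ g 0 ≠ 0 ∧ ∀ u ∈ ball (0 : ℂ) r, f u = u ^ e * g u := by
  classical
  obtain ⟨e, g, hg, hg0, he⟩ := (hf 0 (mem_ball_self hr)).exists_eventuallyEq_pow_smul_nonzero_iff.2
    fun h ↦ hne (hf.eqOn_zero_of_preconnected_of_eventuallyEq_zero
      (convex_ball 0 r).isPreconnected (mem_ball_self hr) h)
  simp only [sub_zero, smul_eq_mul] at he
  have he0 : e ≠ 0 := by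
    rintro rfl
    exact hg0 (by simpa [h0] using he.self_of_nhds.symm)
  refine ⟨e, fun u ↦ if u = 0 then g 0 else f u / u ^ e, Nat.pos_of_ne_zero he0, fun u hu ↦ ?_,
    by simpa using hg0, fun u _ ↦ ?_⟩
  · by_cases h : u = 0
    · subst h
      refine hg.congr ?_
      filter_upwards [he] with u hu
      split_ifs with h
      · rw [h]
      · rw [hu, mul_div_cancel_left₀ _ (pow_ne_zero _ h)]
    · refine ((hf u hu).div (analyticAt_id.pow e) (pow_ne_zero _ h)).congr ?_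
      filter_upwards [eventually_ne_nhds h] with v hv
      simp [hv]
  · by_cases h : u = 0
    · simp [h, h0, he0]
    · simp only [if_neg h, mul_div_cancel₀ _ (pow_ne_zero _ h)]

end Pool.Agent.Lib.ZP3.TAY
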