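import Pool.Agent.Lib.ZP3.WdLem

/-! Block TR: translated generators. -/

open UpperHalfPlane Filter Topology Metric
open scoped Real

namespace Pool.Agent.Lib.ZP3

open Pool.Agent.Lib.MP_0704bf_ag

namespace TR

open MvPolynomial

/-- three blocks of variables: `g`, `η`, `g + η` -/
abbrev A := MvPolynomial (Fin 3 × Var) ℂ

/-- the embedding of the `k`-th block -/
noncomputable def emb (k : Fin 3) : R →ₐ[ℂ] A := rename fun x ↦ (k, x)

/-- the derivation with direction `c k` on the `k`-th block -/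
noncomputable def D (W : Fin 3 → WD) (c : Fin 3 → Fin 3 → ℂ) : Derivation ℂ A A :=
  mkDerivation ℂ fun x ↦ emb x.1 (der W (c x.1) (X x.2))

theorem D_emb (W : Fin 3 → WD) (c : Fin 3 → Fin 3 → ℂ) (k : Fin 3) (f : R) :
    D W c (emb k f) = emb k (der W (c k) f) := by
  induction f using MvPolynomial.induction_on with
  | C a => simp [emb]
  | add p q hp hq => simp only [map_add, hp, hq]
  | mul_X p x hp =>
    have h1 : emb k (X x) = X (k, x) := by simp [emb]
    have h2 : D W c (X (k, x)) = emb k (der W (c k) (X x)) := by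
      simp only [D, mkDerivation_X]
    rw [map_mul, Derivation.leibniz, Derivation.leibniz, hp, h1, h2]
    simp only [smul_eq_mul, map_add, map_mul, h1]

theorem der_zero (W : Fin 3 → WD) (f : R) : der W 0 f = 0 := by
  have : der W 0 = 0 := by
    apply derivation_ext
    rintro (i | i) <;> simp [der, der0, mkDerivation_X]
  rw [this]; rfl

/-- evaluation at three points -/
noncomputable def ev3 (W : Fin 3 → WD) (z : Fin 3 → Fin 3 → ℂ) : A →+* ℂ :=
  eval fun x ↦ pt W (z x.1) x.2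

theorem ev3_emb (W : Fin 3 → WD) (z : Fin 3 → Fin 3 → ℂ) (k : Fin 3) (f : R) :
    ev3 W z (emb k f) = ev W (z k) f := by
  simp only [ev3, emb, ev, eval_rename]
  rfl

theorem hasDerivAt_pt (W : Fin 3 → WD) {z v : Fin 3 → ℂ} (hz : Reg W z) (x : Var) :
    HasDerivAt (fun s : ℂ ↦ pt W (z + s • v) x) (ev W z (der W v (X x))) 0 := by
  have hl : ∀ i, HasDerivAt (fun s : ℂ ↦ z i + s * v i) (v i) 0 := fun i ↦ by
    simpa using ((hasDerivAt_id (0 : ℂ)).mul_const (v i)).const_add (z i)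
  rcases x with i | i
  · have h1 : HasDerivAt (W i).X ((W i).Y (z i)) (z i + 0 * v i) := by
      simpa using (W i).dX _ (hz i)
    have h2 := h1.comp (0 : ℂ) (hl i)
    have e : ev W z (der W v (X (Sum.inl i))) = (W i).Y (z i) * v i := by
      simp [ev, der, der0, mkDerivation_X, pt, mul_comm]
    rw [e]
    exact h2
  · have h1 : HasDerivAt (W i).Y (6 * (W i).X (z i) ^ 2 - (W i).g2 / 2) (z i + 0 * v i) := by
      simpa using (W i).dY _ (hz i)
    have h2 := h1.comp (0 : ℂ) (hl i)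
    have e : ev W z (der W v (X (Sum.inr i))) = (6 * (W i).X (z i) ^ 2 - (W i).g2 / 2) * v i := by
      simp [ev, der, der0, mkDerivation_X, pt, mul_comm]
    rw [e]
    exact h2

theorem hasDerivAt_ev3 (W : Fin 3 → WD) {z : Fin 3 → Fin 3 → ℂ} (hz : ∀ k, Reg W (z k))
    (c : Fin 3 → Fin 3 → ℂ) (a : A) :
    HasDerivAt (fun s : ℂ ↦ ev3 W (z + s • c) a) (ev3 W z (D W c a)) 0 := by
  induction a using MvPolynomial.induction_on with
  | C a => simpa [ev3] using hasDerivAt_const (0 : ℂ) a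
  | add p q hp hq => simp only [map_add]; exact hp.add hq
  | mul_X p x hp =>
    have h2 : D W c (X x) = emb x.1 (der W (c x.1) (X x.2)) := by
      simp only [D, mkDerivation_X]
    have h3 : HasDerivAt (fun s : ℂ ↦ ev3 W (z + s • c) (X x)) (ev3 W z (D W c (X x))) 0 := by
      rw [h2, ev3_emb]
      simpa [ev3] using hasDerivAt_pt W (v := c x.1) (hz x.1) x.2
    have h4 := hp.mul h3
    simp only [map_mul, Derivation.leibniz, smul_eq_mul, map_add]
    refine HasDerivAt.congr_deriv h4 ?_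
    simp only [zero_smul, add_zero]
    ring

/-- elements vanishing on all regular triples -/
def InK (W : Fin 3 → WD) (a : A) : Prop :=
  ∀ g η : Fin 3 → ℂ, Reg W g → Reg W η → Reg W (g + η) → ev3 W ![g, η, g + η] a = 0

theorem InK.D {W : Fin 3 → WD} {a : A} (ha : InK W a) {c : Fin 3 → Fin 3 → ℂ}
    (hc : c 2 = c 0 + c 1) : InK W (D W c a) := by
  intro g η hg hη hgη
  have hz : ∀ k, Reg W ((![g, η, g + η] : Fin 3 → Fin 3 → ℂ) k) := by
    intro k; fin_cases k <;> simpa
  have h1 := hasDerivAt_ev3 W hz c a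
  have hev : ∀ z v : Fin 3 → ℂ, Reg W z → ∀ᶠ s : ℂ in 𝓝 0, Reg W (z + s • v) := by
    intro z v hz
    have hcont : Continuous fun s : ℂ ↦ z + s • v := by fun_prop
    have := (isOpen_reg W).preimage hcont
    exact this.mem_nhds (by simpa using hz)
  have h2 : (fun s : ℂ ↦ ev3 W (![g, η, g + η] + s • c) a) =ᶠ[𝓝 0] fun _ ↦ 0 := by
    filter_upwards [hev g (c 0) hg, hev η (c 1) hη, hev (g + η) (c 2) hgη] with s h0 h1 h2
    have e : g + s • c 0 + (η + s • c 1) = g + η + s • c 2 := by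
      rw [hc, smul_add]; abel
    have := ha _ _ h0 h1 (e ▸ h2)
    rw [← this]
    congr 2
    funext k
    fin_cases k
    · simp
    · simp
    · simp [e]
  exact h1.unique ((hasDerivAt_const (0 : ℂ) (0 : ℂ)).congr_of_eventuallyEq h2)

/-- words of derivations on `A` -/
noncomputable def Wd (W : Fin 3 → WD) (cs : List (Fin 3 → Fin 3 → ℂ)) (a : A) : A :=
  cs.foldl (fun a c ↦ D W c a) a

/-- words of derivations on `R` -/
noncomputable def wd (W : Fin 3 → WD) (l : List (Fin 3 → ℂ)) (f : R) : R :=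
  l.foldl (fun f v ↦ der W v f) f

theorem Wd_concat (W : Fin 3 → WD) (cs : List (Fin 3 → Fin 3 → ℂ)) (c : Fin 3 → Fin 3 → ℂ)
    (a : A) : Wd W (cs ++ [c]) a = D W c (Wd W cs a) := by
  simp [Wd, List.foldl_append]

theorem Wd_append (W : Fin 3 → WD) (cs cs' : List (Fin 3 → Fin 3 → ℂ)) (a : A) :
    Wd W (cs ++ cs') a = Wd W cs' (Wd W cs a) := by
  simp [Wd, List.foldl_append]

theorem wd_concat (W : Fin 3 → WD) (l : List (Fin 3 → ℂ)) (v : Fin 3 → ℂ) (f : R) :
    wd W (l ++ [v]) f = der W v (wd W l f) := by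
  simp [wd, List.foldl_append]

theorem Wd_sub (W : Fin 3 → WD) (cs : List (Fin 3 → Fin 3 → ℂ)) (a b : A) :
    Wd W cs (a - b) = Wd W cs a - Wd W cs b := by
  induction cs using List.reverseRecOn with
  | nil => simp [Wd]
  | append_singleton cs c ih => simp only [Wd_concat, ih, map_sub]

theorem InK.Wd {W : Fin 3 → WD} {a : A} (ha : InK W a) {cs : List (Fin 3 → Fin 3 → ℂ)}
    (hc : ∀ c ∈ cs, c 2 = c 0 + c 1) : InK W (Wd W cs a) := by
  induction cs using List.reverseRecOn with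
  | nil => simpa [TR.Wd] using ha
  | append_singleton cs c ih =>
    rw [Wd_concat]
    exact (ih fun c' h ↦ hc c' (by simp [h])).D (hc c (by simp))

/-- the ideal generated by the words of length `< n` -/
noncomputable def J (W : Fin 3 → WD) (V : Set (Fin 3 → ℂ)) (f : R) (n : ℕ) : Ideal A :=
  Ideal.span {a | ∃ m : List (Fin 3 → ℂ), (∀ v ∈ m, v ∈ V) ∧ m.length < n ∧ a = emb 2 (wd W m f)}

theorem J_mono (W : Fin 3 → WD) (V : Set (Fin 3 → ℂ)) (f : R) {n n' : ℕ} (h : n ≤ n') :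
    J W V f n ≤ J W V f n' :=
  Ideal.span_mono fun _ ⟨m, h1, h2, h3⟩ ↦ ⟨m, h1, h2.trans_le h, h3⟩

theorem D_mem_J {W : Fin 3 → WD} {V : Set (Fin 3 → ℂ)} {f : R} {n : ℕ} {a : A}
    (ha : a ∈ J W V f n) {c : Fin 3 → Fin 3 → ℂ} (hc : c 2 ∈ V) : D W c a ∈ J W V f (n + 1) := by
  induction ha using Submodule.span_induction with
  | mem x hx =>
    obtain ⟨m, h1, h2, rfl⟩ := hx
    rw [D_emb, ← wd_concat]
    refine Ideal.subset_span ⟨m ++ [c 2], ?_, by simpa using h2, rfl⟩
    intro v hv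
    rcases List.mem_append.1 hv with h | h
    · exact h1 v h
    · rw [List.mem_singleton.1 h]; exact hc
  | zero => simp
  | add x y _ _ hx hy => rw [map_add]; exact Ideal.add_mem _ hx hy
  | smul r x hx' hx =>
    rw [smul_eq_mul, Derivation.leibniz, smul_eq_mul, smul_eq_mul]
    exact Ideal.add_mem _ (Ideal.mul_mem_left _ _ hx)
      (Ideal.mul_mem_right _ _ (J_mono W V f (Nat.le_succ n) hx'))

theorem Wd_mul (W : Fin 3 → WD) (V : Set (Fin 3 → ℂ)) (f : R) (Q : A)
    (cs : List (Fin 3 → Fin 3 → ℂ)) (hc : ∀ c ∈ cs, c 2 ∈ V) :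
    Wd W cs (emb 2 f * Q) - emb 2 (wd W (cs.map fun c ↦ c 2) f) * Q ∈ J W V f cs.length := by
  induction cs using List.reverseRecOn with
  | nil => simp [Wd, wd]
  | append_singleton cs c ih =>
    have h1 := D_mem_J (ih fun c' h ↦ hc c' (by simp [h])) (hc c (by simp))
    have h2 : emb 2 (wd W (cs.map fun c ↦ c 2) f) ∈ J W V f (cs.length + 1) := by
      refine Ideal.subset_span ⟨_, ?_, by simp, rfl⟩
      intro v hv
      obtain ⟨c', h, rfl⟩ := List.mem_map.1 hv
      exact hc c' (by simp [h])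
    have h3 := Ideal.add_mem _ h1 (Ideal.mul_mem_right (D W c Q) _ h2)
    rw [Wd_concat, List.map_append, List.map_singleton, wd_concat, List.length_append,
      List.length_singleton]
    convert h3 using 1
    rw [map_sub, Derivation.leibniz, D_emb, smul_eq_mul, smul_eq_mul]
    ring

theorem ev3_J {W : Fin 3 → WD} {V : Set (Fin 3 → ℂ)} {f : R} {n : ℕ} {z : Fin 3 → Fin 3 → ℂ}
    (h : ∀ m : List (Fin 3 → ℂ), (∀ v ∈ m, v ∈ V) → m.length < n → ev W (z 2) (wd W m f) = 0)
    {a : A} (ha : a ∈ J W V f n) : ev3 W z a = 0 := by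
  have : J W V f n ≤ RingHom.ker (ev3 W z) := by
    refine Ideal.span_le.2 ?_
    rintro _ ⟨m, h1, h2, rfl⟩
    simp only [SetLike.mem_coe, RingHom.mem_ker, ev3_emb]
    exact h m h1 h2
  exact this ha

/-- polynomials of weight at most `d i` in the `i`-th group of variables -/
noncomputable def Mv (d : Fin 3 → ℕ) : Submodule ℂ R :=
  restrictSupport ℂ {m | ∀ i, 2 * m (Sum.inl i) + 3 * m (Sum.inr i) ≤ d i}

theorem Mv_mono {d d' : Fin 3 → ℕ} (h : d ≤ d') : Mv d ≤ Mv d' :=
  restrictSupport_mono ℂ fun _ hm i ↦ (hm i).trans (h i)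

theorem Mv_mul {d d' : Fin 3 → ℕ} {f g : R} (hf : f ∈ Mv d) (hg : g ∈ Mv d') :
    f * g ∈ Mv (d + d') := by
  have h := Submodule.mul_mem_mul hf hg
  rw [Mv, Mv, ← restrictSupport_add] at h
  refine restrictSupport_mono ℂ ?_ h
  rintro _ ⟨m, hm, m', hm', rfl⟩ i
  have h1 := hm i
  have h2 := hm' i
  simp only [Finsupp.coe_add, Pi.add_apply]
  omega

theorem one_mem_Mv (d : Fin 3 → ℕ) : (1 : R) ∈ Mv d := by
  have : (1 : R) = monomial 0 1 := rfl
  rw [this, Mv, monomial_mem_restrictSupport]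
  left; intro i; simp

theorem X_mem_Mv (i : Fin 3) : (X (Sum.inl i) : R) ∈ Mv (Pi.single i 2) := by
  rw [X, Mv, monomial_mem_restrictSupport]
  left; intro j
  by_cases h : j = i
  · subst h; simp
  · simp [h]

theorem Y_mem_Mv (i : Fin 3) : (X (Sum.inr i) : R) ∈ Mv (Pi.single i 3) := by
  rw [X, Mv, monomial_mem_restrictSupport]
  left; intro j
  by_cases h : j = i
  · subst h; simp
  · simp [h]

/-- the span of the products `a(g) b(η)` with `a ∈ S` -/
noncomputable def N (S : Submodule ℂ R) : Submodule ℂ A :=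
  Submodule.span ℂ {x | ∃ a ∈ S, ∃ b : R, x = emb 0 a * emb 1 b}

theorem N_mono {S S' : Submodule ℂ R} (h : S ≤ S') : N S ≤ N S' :=
  Submodule.span_mono fun _ ⟨a, ha, b, e⟩ ↦ ⟨a, h ha, b, e⟩

theorem N_mul {d d' : Fin 3 → ℕ} {x y : A} (hx : x ∈ N (Mv d)) (hy : y ∈ N (Mv d')) :
    x * y ∈ N (Mv (d + d')) := by
  have h := Submodule.mul_mem_mul hx hy
  rw [N, N, Submodule.span_mul_span] at h
  refine Submodule.span_mono ?_ h
  rintro _ ⟨_, ⟨a, ha, b, rfl⟩, _, ⟨a', ha', b', rfl⟩, rfl⟩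
  refine ⟨a * a', Mv_mul ha ha', b * b', ?_⟩
  simp only [map_mul]; ring

theorem emb0_mem {S : Submodule ℂ R} {a : R} (ha : a ∈ S) : emb 0 a ∈ N S :=
  Submodule.subset_span ⟨a, ha, 1, by simp⟩

theorem emb1_mem (d : Fin 3 → ℕ) (b : R) : emb 1 b ∈ N (Mv d) :=
  Submodule.subset_span ⟨1, one_mem_Mv d, b, by simp⟩

theorem N_pow {d : Fin 3 → ℕ} {x : A} (hx : x ∈ N (Mv d)) (k : ℕ) : x ^ k ∈ N (Mv (k • d)) := by
  induction k with
  | zero => simpa using emb1_mem 0 1
  | succ k ih => rw [pow_succ, succ_nsmul]; exact N_mul ih hx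

theorem D_mem_N (W : Fin 3 → WD) {S : Submodule ℂ R} {c : Fin 3 → Fin 3 → ℂ}
    (hS : ∀ a ∈ S, der W (c 0) a ∈ S) {x : A} (hx : x ∈ N S) : D W c x ∈ N S := by
  induction hx using Submodule.span_induction with
  | mem x hx =>
    obtain ⟨a, ha, b, rfl⟩ := hx
    rw [Derivation.leibniz, D_emb, D_emb, smul_eq_mul, smul_eq_mul, mul_comm (emb 1 b)]
    exact Submodule.add_mem _ (Submodule.subset_span ⟨a, ha, _, rfl⟩)
      (Submodule.subset_span ⟨_, hS a ha, b, rfl⟩)
  | zero => simp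
  | add x y _ _ hx hy => rw [map_add]; exact Submodule.add_mem _ hx hy
  | smul r x _ hx => rw [Derivation.map_smul]; exact Submodule.smul_mem _ _ hx

theorem Wd_mem_N (W : Fin 3 → WD) {S : Submodule ℂ R} {cs : List (Fin 3 → Fin 3 → ℂ)}
    (hS : ∀ c ∈ cs, ∀ a ∈ S, der W (c 0) a ∈ S) {x : A} (hx : x ∈ N S) : Wd W cs x ∈ N S := by
  induction cs using List.reverseRecOn with
  | nil => simpa [Wd] using hx
  | append_singleton cs c ih =>
    rw [Wd_concat]
    exact D_mem_N W (hS c (by simp)) (ih fun c' h ↦ hS c' (by simp [h]))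

/-- specialise the second block at `η` -/
noncomputable def sp (W : Fin 3 → WD) (η : Fin 3 → ℂ) : A →ₐ[ℂ] R :=
  aeval fun x ↦ if x.1 = 0 then X x.2 else C (pt W η x.2)

theorem sp_emb0 (W : Fin 3 → WD) (η : Fin 3 → ℂ) (a : R) : sp W η (emb 0 a) = a := by
  have : (sp W η).comp (emb 0) = AlgHom.id ℂ R := by
    apply algHom_ext; intro x; simp [sp, emb]
  exact AlgHom.congr_fun this a

theorem sp_emb1 (W : Fin 3 → WD) (η : Fin 3 → ℂ) (b : R) :
    sp W η (emb 1 b) = C (ev W η b) := by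
  induction b using MvPolynomial.induction_on with
  | C a => simp [sp, emb, ev]
  | add p q hp hq => simp only [map_add, hp, hq]
  | mul_X p x hp =>
    rw [map_mul, map_mul, hp, map_mul, map_mul]
    simp [sp, emb, ev]

theorem sp_mem (W : Fin 3 → WD) (η : Fin 3 → ℂ) {S : Submodule ℂ R} {x : A} (hx : x ∈ N S) :
    sp W η x ∈ S := by
  induction hx using Submodule.span_induction with
  | mem x hx =>
    obtain ⟨a, ha, b, rfl⟩ := hx
    rw [map_mul, sp_emb0, sp_emb1, mul_comm, ← smul_eq_C_mul]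
    exact S.smul_mem _ ha
  | zero => simp
  | add x y _ _ hx hy => rw [map_add]; exact Submodule.add_mem _ hx hy
  | smul r x _ hx => rw [map_smul]; exact Submodule.smul_mem _ _ hx

theorem sp_D (W : Fin 3 → WD) (η : Fin 3 → ℂ) {c : Fin 3 → Fin 3 → ℂ} (hc : c 1 = 0) {x : A}
    (hx : x ∈ N ⊤) : sp W η (D W c x) = der W (c 0) (sp W η x) := by
  induction hx using Submodule.span_induction with
  | mem x hx =>
    obtain ⟨a, -, b, rfl⟩ := hx
    rw [Derivation.leibniz, D_emb, D_emb, hc, der_zero]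
    simp only [smul_eq_mul, map_zero, mul_zero, zero_add, map_mul, sp_emb0, sp_emb1,
      Derivation.leibniz, derivation_C]
  | zero => simp
  | add x y _ _ hx hy => simp only [map_add, hx, hy]
  | smul r x _ hx => simp only [Derivation.map_smul, map_smul, hx]

theorem ev_sp (W : Fin 3 → WD) (g η ζ : Fin 3 → ℂ) {x : A} (hx : x ∈ N ⊤) :
    ev W g (sp W η x) = ev3 W ![g, η, ζ] x := by
  induction hx using Submodule.span_induction with
  | mem x hx =>
    obtain ⟨a, -, b, rfl⟩ := hx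
    simp only [map_mul, sp_emb0, sp_emb1, ev3_emb]
    simp [ev]
  | zero => simp
  | add x y _ _ hx hy => simp only [map_add, hx, hy]
  | smul r x _ hx =>
    rw [map_smul, smul_eq_C_mul, smul_eq_C_mul, map_mul, map_mul, hx]
    simp [ev, ev3]

theorem sp_Wd (W : Fin 3 → WD) (η : Fin 3 → ℂ) (l : List (Fin 3 → ℂ)) {x : A} (hx : x ∈ N ⊤) :
    sp W η (Wd W (l.map fun v ↦ ![v, 0, v]) x) = wd W l (sp W η x) := by
  induction l using List.reverseRecOn with
  | nil => simp [Wd, wd]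
  | append_singleton l v ih =>
    rw [List.map_append, List.map_singleton, Wd_concat, wd_concat,
      sp_D W η (by simp) (Wd_mem_N W (fun _ _ _ _ ↦ Submodule.mem_top) hx), ih]
    simp

/-- denominator in the addition formula -/
noncomputable def den (i : Fin 3) : A :=
  (emb 0 (X (Sum.inl i)) - emb 1 (X (Sum.inl i))) ^ 2

/-- numerator in the addition formula -/
noncomputable def num (i : Fin 3) : A :=
  (1 / 4 : ℂ) • (emb 0 (X (Sum.inr i)) - emb 1 (X (Sum.inr i))) ^ 2 -
    (emb 0 (X (Sum.inl i)) + emb 1 (X (Sum.inl i))) * den i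

theorem den_mem4 (i : Fin 3) : den i ∈ N (Mv (2 • Pi.single i 2)) :=
  N_pow (Submodule.sub_mem _ (emb0_mem (X_mem_Mv i)) (emb1_mem _ _)) 2

theorem den_mem (i : Fin 3) : den i ∈ N (Mv (Pi.single i 6)) := by
  refine N_mono (Mv_mono fun j ↦ ?_) (den_mem4 i)
  by_cases h : j = i
  · subst h; simp
  · simp [h]

theorem num_mem (i : Fin 3) : num i ∈ N (Mv (Pi.single i 6)) := by
  refine Submodule.sub_mem _ (Submodule.smul_mem _ _ ?_) ?_
  · refine N_mono (Mv_mono fun j ↦ ?_)
      (N_pow (Submodule.sub_mem _ (emb0_mem (Y_mem_Mv i)) (emb1_mem _ _)) 2)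
    by_cases h : j = i
    · subst h; simp
    · simp [h]
  · refine N_mono (Mv_mono fun j ↦ ?_)
      (N_mul (Submodule.add_mem _ (emb0_mem (X_mem_Mv i)) (emb1_mem _ _)) (den_mem4 i))
    by_cases h : j = i
    · subst h; simp
    · simp [h]

/-- the translated polynomial with denominators cleared -/
noncomputable def sharp (F : MvPolynomial (Fin 3) ℂ) (L : ℕ) : A :=
  ∑ m ∈ F.support, F.coeff m • ∏ i, (num i ^ m i * den i ^ (L - m i))

theorem sharp_mem {F : MvPolynomial (Fin 3) ℂ} {L : ℕ} (hF : ∀ i, F.degreeOf i ≤ L) :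
    sharp F L ∈ N (Md (6 * L)) := by
  refine Submodule.sum_mem _ fun m hm ↦ Submodule.smul_mem _ _ ?_
  have h : ∀ i, num i ^ m i * den i ^ (L - m i) ∈ N (Mv (L • Pi.single i 6)) := by
    intro i
    have h1 := N_mul (N_pow (num_mem i) (m i)) (N_pow (den_mem i) (L - m i))
    rwa [← add_nsmul, Nat.add_sub_cancel' ((monomial_le_degreeOf i hm).trans (hF i))] at h1
  rw [Fin.prod_univ_three]
  refine N_mono (S' := Mv fun _ ↦ 6 * L) (Mv_mono fun j ↦ ?_) (N_mul (N_mul (h 0) (h 1)) (h 2))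
  fin_cases j <;> simp [mul_comm]

theorem ev3_den (W : Fin 3 → WD) (g η ζ : Fin 3 → ℂ) (i : Fin 3) :
    ev3 W ![g, η, ζ] (den i) = ((W i).X (g i) - (W i).X (η i)) ^ 2 := by
  simp only [den, map_pow, map_sub, ev3_emb]
  simp [ev, pt]

theorem ev3_num (W : Fin 3 → WD) {g η : Fin 3 → ℂ} (hg : Reg W g) (hη : Reg W η)
    (h : Reg W (g + η)) (i : Fin 3) :
    ev3 W ![g, η, g + η] (num i) =
      (W i).X ((g + η) i) * ev3 W ![g, η, g + η] (den i) := by
  rw [num, map_sub, map_mul, ev3_den, smul_eq_C_mul, map_mul, Pi.add_apply,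
    (W i).add (hg i) (hη i) (h i)]
  simp only [map_pow, map_sub, map_add, ev3_emb]
  simp [ev, ev3, pt]
  ring

theorem sharp_inK (W : Fin 3 → WD) {F : MvPolynomial (Fin 3) ℂ} {L : ℕ}
    (hF : ∀ i, F.degreeOf i ≤ L) :
    InK W (emb 2 (rename Sum.inl F) * ∏ i, den i ^ L - sharp F L) := by
  intro g η hg hη h
  rw [map_sub, map_mul, ev3_emb, sub_eq_zero, sharp, map_sum, ev, eval_rename, eval_eq',
    Finset.sum_mul]
  refine Finset.sum_congr rfl fun m hm ↦ ?_
  rw [smul_eq_C_mul, map_mul, mul_assoc, map_prod, map_prod, ← Finset.prod_mul_distrib]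
  congr 1
  · simp [ev3]
  refine Finset.prod_congr rfl fun i _ ↦ ?_
  rw [map_mul, map_pow, map_pow, map_pow, ev3_num W hg hη h, mul_pow, mul_assoc, ← pow_add,
    Nat.add_sub_cancel' ((monomial_le_degreeOf i hm).trans (hF i))]
  simp [pt]

end TR

open TR in
/-- for `F` of degree `≤ L` in each `X_i`, every base point `η` and word of directions `l` there is
a polynomial `G l η` of weight `≤ 6 L` representing
`∂_η^l [F(g + η) ∏ (X_i(g_i) - X_i(η_i))^(2 L)]` as a function of `g` -/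
theorem translated (W : Fin 3 → WD) (F : MvPolynomial (Fin 3) ℂ) (L : ℕ)
    (hF : ∀ i, F.degreeOf i ≤ L) :
    ∃ G : List (Fin 3 → ℂ) → (Fin 3 → ℂ) → R, (∀ l η, G l η ∈ Md (6 * L)) ∧
      ∀ (V : Set (Fin 3 → ℂ)) (g η : Fin 3 → ℂ), Reg W g → Reg W η → Reg W (g + η) →
        (∀ (l l' : List (Fin 3 → ℂ)), (∀ v ∈ l, v ∈ V) → (∀ v ∈ l', v ∈ V) →
          (∀ m : List (Fin 3 → ℂ), (∀ v ∈ m, v ∈ V) → m.length ≤ l.length + l'.length →
            ev W (g + η) (m.foldl (fun f v ↦ der W v f) (MvPolynomial.rename Sum.inl F)) = 0) →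
          ev W g (l'.foldl (fun f v ↦ der W v f) (G l η)) = 0) ∧
        (∀ n : ℕ, (∀ i, (W i).X (g i) ≠ (W i).X (η i)) →
          (∀ l : List (Fin 3 → ℂ), (∀ v ∈ l, v ∈ V) → l.length ≤ n → ev W g (G l η) = 0) →
          ∀ m : List (Fin 3 → ℂ), (∀ v ∈ m, v ∈ V) → m.length ≤ n →
            ev W (g + η) (m.foldl (fun f v ↦ der W v f) (MvPolynomial.rename Sum.inl F)) = 0) := by
  have hmem : ∀ l : List (Fin 3 → ℂ),
      Wd W (l.map fun v ↦ ![0, v, v]) (sharp F L) ∈ N (Md (6 * L)) := by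
    intro l
    refine Wd_mem_N W ?_ (sharp_mem hF)
    intro c hc a _
    obtain ⟨v, -, rfl⟩ := List.mem_map.1 hc
    simp [der_zero]
  refine ⟨fun l η ↦ sp W η (Wd W (l.map fun v ↦ ![0, v, v]) (sharp F L)),
    fun l η ↦ sp_mem W η (hmem l), fun V g η hg hη h ↦ ?_⟩
  -- the key formula
  have key : ∀ l l' : List (Fin 3 → ℂ), (∀ v ∈ l, v ∈ V) → (∀ v ∈ l', v ∈ V) →
      (∀ m : List (Fin 3 → ℂ), (∀ v ∈ m, v ∈ V) → m.length < l.length + l'.length →
        ev W (g + η) (wd W m (MvPolynomial.rename Sum.inl F)) = 0) →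
      ev W g (wd W l' (sp W η (Wd W (l.map fun v ↦ ![0, v, v]) (sharp F L)))) =
        ev W (g + η) (wd W (l ++ l') (MvPolynomial.rename Sum.inl F)) *
          ∏ i, (((W i).X (g i) - (W i).X (η i)) ^ 2) ^ L := by
    intro l l' hl hl' hm
    have h0 : Wd W (l.map fun v ↦ ![0, v, v]) (sharp F L) ∈ N ⊤ := N_mono le_top (hmem l)
    rw [← sp_Wd W η l' h0, ev_sp W g η (g + η)
      (Wd_mem_N W (fun _ _ _ _ ↦ Submodule.mem_top) h0), ← Wd_append]
    set cs : List (Fin 3 → Fin 3 → ℂ) :=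
      (l.map fun v ↦ ![0, v, v]) ++ l'.map fun v ↦ ![v, 0, v] with hcs
    have hc1 : ∀ c ∈ cs, c 2 = c 0 + c 1 := by
      intro c hc
      rcases List.mem_append.1 hc with hc | hc <;> obtain ⟨v, -, rfl⟩ := List.mem_map.1 hc <;> simp
    have hc2 : ∀ c ∈ cs, c 2 ∈ V := by
      intro c hc
      rcases List.mem_append.1 hc with hc | hc <;> obtain ⟨v, hv, rfl⟩ := List.mem_map.1 hc
      · simpa using hl v hv
      · simpa using hl' v hv
    have hc3 : (cs.map fun c ↦ c 2) = l ++ l' := by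
      simp [hcs, Function.comp_def]
    have hc4 : cs.length = l.length + l'.length := by simp [hcs]
    have h1 := (sharp_inK W hF).Wd hc1 g η hg hη h
    have h2 := Wd_mul W V (MvPolynomial.rename Sum.inl F) (∏ i, den i ^ L) cs hc2
    rw [hc3, hc4] at h2
    have h3 := ev3_J (z := ![g, η, g + η]) hm h2
    rw [Wd_sub, map_sub, sub_eq_zero] at h1
    rw [map_sub, sub_eq_zero, h1, map_mul, ev3_emb, map_prod] at h3
    rw [h3]
    simp only [map_pow, ev3_den]
    rfl
  refine ⟨fun l l' hl hl' hm ↦ ?_, fun n hne hG ↦ ?_⟩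
  · have h1 := key l l' hl hl' fun m h1 h2 ↦ hm m h1 h2.le
    have h2 : ev W (g + η) (wd W (l ++ l') (MvPolynomial.rename Sum.inl F)) = 0 := by
      refine hm _ ?_ (by simp)
      intro v hv
      rcases List.mem_append.1 hv with hv | hv
      exacts [hl v hv, hl' v hv]
    rw [h2, zero_mul] at h1
    exact h1
  · have main : ∀ k : ℕ, ∀ m : List (Fin 3 → ℂ), (∀ v ∈ m, v ∈ V) → m.length < k → m.length ≤ n →
        ev W (g + η) (wd W m (MvPolynomial.rename Sum.inl F)) = 0 := by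
      intro k
      induction k with
      | zero => intro m _ h; omega
      | succ k ih =>
        intro m hm h1 h2
        have h3 := key m [] hm (by simp) fun m' h4 h5 ↦
          ih m' h4 (by simp at h5; omega) (by simp at h5; omega)
        have h4 := hG m hm h2
        rw [List.append_nil] at h3
        have h5 : ∏ i, (((W i).X (g i) - (W i).X (η i)) ^ 2) ^ L ≠ 0 :=
          Finset.prod_ne_zero_iff.2 fun i _ ↦
            pow_ne_zero _ (pow_ne_zero _ (sub_ne_zero.2 (hne i)))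
        exact (mul_eq_zero.1 (h3.symm.trans h4)).resolve_right h5
    intro m hm h1
    exact main _ m hm (Nat.lt_succ_self _) h1

end Pool.Agent.Lib.ZP3
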