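import Pool.Agent.Lib.ZP3.WdExA

/-! Size bounds for the Weierstrass function, and the multiplicative group. -/

open UpperHalfPlane Filter Topology Metric PeriodPair
open scoped Real

namespace Pool.Agent.Lib.ZP3

open Pool.Agent.Lib.MP_0704bf_ag

namespace WDE

theorem strip_const {B : ℝ} (hB : 0 < B) : ∃ ρ : ℝ, 0 < ρ ∧ ρ ≤ 1 ∧ ∀ τ : ℍ, |τ.re| ≤ B →
    1 ≤ B * τ.im → ∀ v : Fin 2 → ℤ, ρ * ‖v‖ ≤ ‖v 0 * (τ : ℂ) + v 1‖ := by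
  have hB' : 0 < B⁻¹ := inv_pos.2 hB
  refine ⟨min 1 (EisensteinSeries.r ⟨⟨B, B⁻¹⟩, hB'⟩), lt_min one_pos (EisensteinSeries.r_pos _),
    min_le_left _ _, fun τ h1 h2 v ↦ ?_⟩
  by_cases hv : v = 0
  · simp [hv]
  have hz : τ ∈ verticalStrip B B⁻¹ := by
    refine ⟨h1, ?_⟩
    rw [inv_le_iff_one_le_mul₀' hB]
    exact h2
  have h3 := EisensteinSeries.r_lower_bound_on_verticalStrip τ hB' hz
  refine le_trans ?_ (EisensteinSeries.r_mul_max_le τ hv)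
  exact mul_le_mul_of_nonneg_right ((min_le_right _ _).trans h3) (norm_nonneg _)

theorem one_le_norm {v : Fin 2 → ℤ} (hv : v ≠ 0) : 1 ≤ ‖v‖ := by
  obtain ⟨i, hi⟩ := Function.ne_iff.1 hv
  refine le_trans ?_ (norm_le_pi_norm v i)
  rw [Int.norm_eq_abs]
  exact_mod_cast Int.one_le_abs hi

theorem reduce_mod (τ : ℍ) {Ω : ℂ} (hΩ : Ω ≠ 0) (z : ℂ) :
    ∃ m n : ℤ, ‖z - Ω * (m + n * τ)‖ ≤ ‖Ω‖ * (1 + ‖(τ : ℂ)‖) := by
  set w := z / Ω with hw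
  set y : ℝ := w.im / τ.im with hy
  set x : ℝ := w.re - y * τ.re with hx
  have hτ := τ.im_pos
  have e : w = x + y * τ := by
    apply Complex.ext
    · simp [hx]
    · simp [hy]
      field_simp
  refine ⟨⌊x⌋, ⌊y⌋, ?_⟩
  have e2 : z - Ω * ((⌊x⌋ : ℤ) + (⌊y⌋ : ℤ) * τ) =
      Ω * ((Int.fract x : ℝ) + (Int.fract y : ℝ) * τ) := by
    have : z = Ω * w := by rw [hw]; field_simp
    rw [this, e, Int.fract, Int.fract]
    push_cast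
    ring
  rw [e2, norm_mul]
  refine mul_le_mul_of_nonneg_left ((norm_add_le _ _).trans ?_) (norm_nonneg _)
  rw [norm_mul, Complex.norm_real, Complex.norm_real, Real.norm_eq_abs, Real.norm_eq_abs,
    abs_of_nonneg (Int.fract_nonneg _), abs_of_nonneg (Int.fract_nonneg _)]
  have h1 := (Int.fract_lt_one x).le
  have h2 := (Int.fract_lt_one y).le
  have h3 := norm_nonneg (τ : ℂ)
  nlinarith

theorem term_bound {z l : ℂ} {r ρ R t : ℝ} (hr : 0 < r) (hrρ : r ≤ ρ) (hρR : ρ ≤ R) (hz : ‖z‖ < R)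
    (ht : 1 ≤ t) (hl : ρ * t ≤ ‖l‖) (hzl : r ≤ ‖z - l‖) :
    ‖1 / (z - l) ^ 2 - 1 / l ^ 2‖ * r ^ 2 ≤ 16 * (R / ρ) ^ 3 * t ^ (-3 : ℝ) := by
  have hρ : 0 < ρ := hr.trans_le hrρ
  have hR : 0 < R := hρ.trans_le hρR
  have ht0 : 0 < t := by linarith
  have hl0 : 0 < ‖l‖ := (mul_pos hρ ht0).trans_le hl
  have e3 (s : ℝ) (hs : 0 < s) : s ^ (-3 : ℝ) = (s ^ 3)⁻¹ := by
    rw [Real.rpow_neg hs.le]
    norm_cast
  have key : 16 * (R / ρ) ^ 3 * t ^ (-3 : ℝ) = 16 * (R / (ρ * t)) ^ 3 := by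
    rw [e3 t ht0]
    field_simp
  have hq : R / ‖l‖ ≤ R / (ρ * t) := div_le_div_of_nonneg_left hR.le (mul_pos hρ ht0) hl
  have hq3 : (R / ‖l‖) ^ 3 ≤ (R / (ρ * t)) ^ 3 := pow_le_pow_left₀ (by positivity) hq 3
  rw [key]
  refine le_trans ?_ (mul_le_mul_of_nonneg_left hq3 (by norm_num))
  by_cases h : 2 * R ≤ ‖l‖
  · have h1 := weierstrassP_bound R hR z hz l h
    rw [e3 _ hl0] at h1
    have h2 : r ^ 2 ≤ R ^ 2 := pow_le_pow_left₀ hr.le (hrρ.trans hρR) 2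
    calc _ ≤ 10 * R * (‖l‖ ^ 3)⁻¹ * R ^ 2 := by gcongr
      _ = 10 * (R / ‖l‖) ^ 3 := by field_simp
      _ ≤ _ := by gcongr; norm_num
  · push Not at h
    have hrl : r ≤ ‖l‖ := by nlinarith
    have h1 : ‖1 / (z - l) ^ 2‖ * r ^ 2 ≤ 1 := by
      rw [norm_div, norm_one, norm_pow, one_div, inv_mul_le_iff₀ (pow_pos (hr.trans_le hzl) 2),
        mul_one]
      exact pow_le_pow_left₀ hr.le hzl 2
    have h2 : ‖1 / l ^ 2‖ * r ^ 2 ≤ 1 := by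
      rw [norm_div, norm_one, norm_pow, one_div, inv_mul_le_iff₀ (pow_pos hl0 2), mul_one]
      exact pow_le_pow_left₀ hr.le hrl 2
    have h3 : 1 / 2 ≤ R / ‖l‖ := by
      rw [le_div_iff₀ hl0]
      linarith
    have h4 : (1 / 2) ^ 3 ≤ (R / ‖l‖) ^ 3 := pow_le_pow_left₀ (by norm_num) h3 3
    have h5 := norm_sub_le (1 / (z - l) ^ 2) (1 / l ^ 2)
    have h6 : 0 ≤ r ^ 2 := by positivity
    nlinarith

/-- the sum of the inverse cubes of the norms -/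
noncomputable def S3 : ℝ := ∑' v : Fin 2 → ℤ, ‖v‖ ^ (-3 : ℝ)

theorem S3_nonneg : 0 ≤ S3 := tsum_nonneg fun _ ↦ by positivity

theorem wp_bound (τ : ℍ) {Ω : ℂ} (hΩ : Ω ≠ 0) {ρ : ℝ} (hρ1 : ρ ≤ 1)
    (hρ : ∀ v : Fin 2 → ℤ, ρ * ‖v‖ ≤ ‖v 0 * (τ : ℂ) + v 1‖) (z : ℂ) {r : ℝ} (hr : 0 < r)
    (hrρ : r ≤ ρ * ‖Ω‖) (hz : ∀ l ∈ (pp τ hΩ).lattice, r ≤ ‖z - l‖) :
    ‖℘[pp τ hΩ] z‖ * r ^ 2 ≤ 1 + 16 * ((2 + ‖(τ : ℂ)‖) / ρ) ^ 3 * S3 := by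
  classical
  obtain ⟨m, n, hmn⟩ := reduce_mod τ hΩ z
  have hl0 : Ω * (m + n * τ) ∈ (pp τ hΩ).lattice := (mem_pp τ hΩ _).2 ⟨m, n, rfl⟩
  set z0 := z - Ω * (m + n * τ) with hz0
  have hΩ0 : 0 < ‖Ω‖ := norm_pos_iff.2 hΩ
  have hρ0 : 0 < ρ := by
    by_contra h
    push Not at h
    nlinarith
  have hτ0 := norm_nonneg (τ : ℂ)
  have e1 : ℘[pp τ hΩ] z = ℘[pp τ hΩ] z0 :=
    ((pp τ hΩ).weierstrassP_sub_coe z ⟨_, hl0⟩).symm
  have hz' : ∀ l ∈ (pp τ hΩ).lattice, r ≤ ‖z0 - l‖ := by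
    intro l hl
    have := hz _ (add_mem hl0 hl)
    rwa [← sub_sub] at this
  set R := ‖Ω‖ * (2 + ‖(τ : ℂ)‖) with hR
  have hzR : ‖z0‖ < R := by nlinarith
  have hρR : ρ * ‖Ω‖ ≤ R := by nlinarith
  have hq : R / (ρ * ‖Ω‖) = (2 + ‖(τ : ℂ)‖) / ρ := by rw [hR]; field_simp
  have hs := ((latEquiv τ hΩ).hasSum_iff.2 ((pp τ hΩ).hasSum_weierstrassP z0)).mul_right
    ((r : ℂ) ^ 2)
  have hg : HasSum (fun v : Fin 2 → ℤ ↦ (if v = 0 then (1 : ℝ) else 0) +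
      16 * ((2 + ‖(τ : ℂ)‖) / ρ) ^ 3 * ‖v‖ ^ (-3 : ℝ))
      (1 + 16 * ((2 + ‖(τ : ℂ)‖) / ρ) ^ 3 * S3) :=
    (hasSum_ite_eq 0 1).add
      ((EisensteinSeries.summable_one_div_norm_rpow (k := 3) (by norm_num)).hasSum.mul_left _)
  have hn (w : ℂ) : ‖w * (r : ℂ) ^ 2‖ = ‖w‖ * r ^ 2 := by
    rw [norm_mul, norm_pow, Complex.norm_real, Real.norm_eq_abs, sq_abs]
  rw [e1, ← hn]
  refine hs.norm_le_of_bounded hg fun v ↦ ?_
  rw [hn]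
  simp only [Function.comp]
  by_cases hv : v = 0
  · have h0 : (latEquiv τ hΩ v : ℂ) = 0 := by rw [latEquiv_apply, hv]; simp
    have h1 := hz' 0 (zero_mem _)
    rw [sub_zero] at h1
    rw [h0, if_pos hv, hv]
    have h2 : ‖1 / (z0 - 0) ^ 2 - 1 / (0 : ℂ) ^ 2‖ * r ^ 2 ≤ 1 := by
      simp only [sub_zero, ne_eq, OfNat.ofNat_ne_zero, not_false_eq_true, zero_pow, div_zero,
        one_div, norm_inv, norm_pow]
      rw [inv_mul_le_iff₀ (pow_pos (hr.trans_le h1) 2), mul_one]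
      exact pow_le_pow_left₀ hr.le h1 2
    have h3 : 0 ≤ 16 * ((2 + ‖(τ : ℂ)‖) / ρ) ^ 3 * ‖(0 : Fin 2 → ℤ)‖ ^ (-3 : ℝ) := by positivity
    linarith
  · rw [if_neg hv, zero_add, ← hq]
    refine term_bound hr hrρ hρR hzR (one_le_norm hv) ?_ (hz' _ (latEquiv τ hΩ v).2)
    rw [latEquiv_apply, norm_mul]
    have := hρ v
    nlinarith

theorem le_exp_sq {K : ℝ} {A c : ℕ} (hA : 1 ≤ A) (hc : K + 3 ≤ c) :
    K * (A : ℝ) ^ 3 ≤ Real.exp ((c * A ^ 2 : ℕ) : ℝ) := by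
  have hA' : (1 : ℝ) ≤ A := by exact_mod_cast hA
  by_cases hK : K ≤ 0
  · exact (mul_nonpos_of_nonpos_of_nonneg hK (by positivity)).trans (Real.exp_pos _).le
  push Not at hK
  have h1 : K ≤ Real.exp K := by linarith [Real.add_one_le_exp K]
  have h2 : (A : ℝ) ≤ Real.exp A := by linarith [Real.add_one_le_exp (A : ℝ)]
  calc K * (A : ℝ) ^ 3 ≤ Real.exp K * Real.exp A ^ 3 := by gcongr
    _ = Real.exp (K + 3 * A) := by rw [Real.exp_add, ← Real.exp_nat_mul]; norm_num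
    _ ≤ _ := by
      apply Real.exp_le_exp.2
      push_cast
      have h3 : (A : ℝ) ≤ A ^ 2 := by nlinarith
      nlinarith

end WDE

open WDE in
/-- the same with uniform size bounds in a vertical strip -/
theorem exists_ell_size (B : ℝ) : ∃ c : ℕ, 0 < c ∧ ∀ (τ : ℍ) (Ω : ℂ), Ω ≠ 0 → |τ.re| ≤ B →
    1 ≤ B * τ.im → ∃ W : WD, W.IsEll τ Ω ∧ W.Y (Ω / 2) = 0 ∧ Ω / 2 ∉ W.Λ ∧
      ∀ (A : ℕ) (m n : ℤ), 1 ≤ A → τ.im ≤ A → Real.exp (-A) ≤ ‖Ω‖ → ‖Ω‖ ≤ Real.exp A →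
        (m ≠ 0 ∨ n ≠ 0) → |m| ≤ A → |n| ≤ A →
        W.Size (Ω / 2) (Ω * (m + n * τ)) (c * A ^ 2) := by
  by_cases hB : B ≤ 0
  · refine ⟨1, one_pos, fun τ Ω _ _ h ↦ ?_⟩
    have := τ.im_pos
    nlinarith
  push Not at hB
  obtain ⟨ρ, hρ0, hρ1, hρ⟩ := strip_const hB
  set K : ℝ := 1 + 16 * ((3 + B) / ρ) ^ 3 * S3 with hK
  have hS := S3_nonneg
  have hK1 : 1 ≤ K := by
    have : 0 ≤ 16 * ((3 + B) / ρ) ^ 3 * S3 := by positivity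
    linarith
  obtain ⟨c, hc⟩ := exists_nat_ge (K + 3 + (B + 2) / ρ + ρ⁻¹)
  have hp1 : 0 < (B + 2) / ρ := by positivity
  have hp2 : 0 < ρ⁻¹ := by positivity
  have hc0 : 0 < c := by
    have : (0 : ℝ) < c := by linarith
    exact_mod_cast this
  refine ⟨c, hc0, fun τ Ω hΩ h1 h2 ↦ ⟨wdOf (pp τ hΩ), isEll_pp τ hΩ, Y_half τ hΩ,
    half_notMem τ hΩ, fun A m n hA him hlo hhi hmn hm hn ↦ ?_⟩⟩
  have hA' : (1 : ℝ) ≤ A := by exact_mod_cast hA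
  have hA2 : (A : ℝ) ≤ A ^ 2 := by nlinarith
  have hΩ0 : 0 < ‖Ω‖ := norm_pos_iff.2 hΩ
  have hτ : ‖(τ : ℂ)‖ ≤ (B + 1) * A := by
    have := Complex.norm_le_abs_re_add_abs_im (τ : ℂ)
    rw [coe_re, coe_im, abs_of_pos τ.im_pos] at this
    nlinarith
  have hsep : ∀ a b : ℤ, (a ≠ 0 ∨ b ≠ 0) → ρ * ‖Ω‖ ≤ ‖Ω * (a + b * τ)‖ := by
    intro a b hab
    have hv : (![b, a] : Fin 2 → ℤ) ≠ 0 := by
      intro h
      have h0 := congrFun h 0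
      have h1 := congrFun h 1
      simp at h0 h1
      tauto
    have h3 := hρ τ h1 h2 ![b, a]
    have h4 := one_le_norm hv
    simp only [Matrix.cons_val_zero, Matrix.cons_val_one] at h3
    rw [norm_mul, add_comm (a : ℂ)]
    nlinarith [mul_le_mul_of_nonneg_left h4 hρ0.le]
  have hpos : 0 < ρ * ‖Ω‖ := by positivity
  refine ⟨ρ * ‖Ω‖, ?_, ?_, ?_, ?_, (mem_pp τ hΩ _).2 ⟨m, n, rfl⟩, ?_, ?_, ?_⟩
  · have h3 : Real.exp (-ρ⁻¹) ≤ ρ := by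
      rw [Real.exp_neg, inv_le_comm₀ (Real.exp_pos _) hρ0]
      linarith [Real.add_one_le_exp ρ⁻¹]
    calc _ ≤ Real.exp (-ρ⁻¹) * Real.exp (-A) := by
          rw [← Real.exp_add]
          apply Real.exp_le_exp.2
          push_cast
          nlinarith
      _ ≤ _ := by gcongr
  · calc ρ * ‖Ω‖ ≤ 1 * Real.exp A := by gcongr
      _ ≤ _ := by
          rw [one_mul]
          apply Real.exp_le_exp.2
          push_cast
          nlinarith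
  · intro l hl h0
    obtain ⟨a, b, rfl⟩ := (mem_pp τ hΩ _).1 hl
    refine hsep a b ?_
    by_contra h
    push Not at h
    simp [h.1, h.2] at h0
  · intro l hl
    obtain ⟨a, b, rfl⟩ := (mem_pp τ hΩ _).1 hl
    have h3 := hsep (1 - 2 * a) (-2 * b) (Or.inl (by omega))
    have e : Ω * (((1 - 2 * a : ℤ) : ℂ) + ((-2 * b : ℤ) : ℂ) * τ) =
        2 * (Ω / 2 - Ω * (a + b * τ)) := by push_cast; ring
    rwa [e, norm_mul, Complex.norm_ofNat] at h3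
  · exact norm_pos_iff.1 (hpos.trans_le (hsep m n hmn))
  · have hm' : ‖(m : ℂ)‖ ≤ A := by rw [Complex.norm_intCast]; exact_mod_cast hm
    have hn' : ‖(n : ℂ)‖ ≤ A := by rw [Complex.norm_intCast]; exact_mod_cast hn
    have h3 : ‖(m : ℂ) + n * τ‖ ≤ (B + 2) * A ^ 2 := by
      refine (norm_add_le _ _).trans ?_
      rw [norm_mul]
      have : ‖(n : ℂ)‖ * ‖(τ : ℂ)‖ ≤ A * ((B + 1) * A) := by gcongr
      nlinarith
    have h4 : B + 2 ≤ c * ρ := by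
      rw [← div_le_iff₀ hρ0]
      linarith
    rw [norm_mul]
    push_cast
    calc ‖Ω‖ * ‖(m : ℂ) + n * τ‖ ≤ ‖Ω‖ * (c * ρ * A ^ 2) := by
          refine mul_le_mul_of_nonneg_left (h3.trans ?_) hΩ0.le
          gcongr
      _ = _ := by ring
  · intro z r hr hrρ hz
    refine (wp_bound τ hΩ hρ1 (hρ τ h1 h2) z hr hrρ hz).trans
      (le_trans ?_ (le_exp_sq (K := K) hA (by linarith)))
    have h3 : (2 + ‖(τ : ℂ)‖) / ρ ≤ (3 + B) / ρ * A := by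
      rw [div_mul_eq_mul_div]
      gcongr
      nlinarith
    have h4 : ((2 + ‖(τ : ℂ)‖) / ρ) ^ 3 ≤ ((3 + B) / ρ * A) ^ 3 :=
      pow_le_pow_left₀ (by positivity) h3 3
    have h5 : (1 : ℝ) ≤ (A : ℝ) ^ 3 := one_le_pow₀ hA'
    rw [mul_pow] at h4
    rw [hK]
    nlinarith [mul_le_mul_of_nonneg_right h4 hS]

end Pool.Agent.Lib.ZP3
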