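import Mathlib

/-! Block WR: Wronskians of analytic functions. -/

open Filter Topology Metric Matrix

namespace Pool.Agent.Lib.ZP3

namespace WR

theorem an_iter {f : ℂ → ℂ} {z : ℂ} (h : AnalyticAt ℂ f z) (n : ℕ) :
    AnalyticAt ℂ (iteratedDeriv n f) z := by
  rw [iteratedDeriv_eq_iterate]
  exact h.iterated_deriv n

theorem an_det {n : Type} [Fintype n] [DecidableEq n] {A : ℂ → Matrix n n ℂ} {z : ℂ}
    (h : ∀ i j, AnalyticAt ℂ (fun w ↦ A w i j) z) : AnalyticAt ℂ (fun w ↦ (A w).det) z := by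
  simp only [Matrix.det_apply']
  exact Finset.analyticAt_fun_sum _ fun σ _ ↦
    analyticAt_const.mul (Finset.analyticAt_fun_prod _ fun i _ ↦ h _ _)

/-- If the big determinant vanishes, a solution of the first rows also solves the last row. -/
theorem rows {r : ℕ} (A : Matrix (Fin (r + 1)) (Fin (r + 1)) ℂ) (h : A.det = 0)
    (h' : (A.submatrix Fin.castSucc Fin.castSucc).det ≠ 0) {c : Fin r → ℂ}
    (hc : A.submatrix Fin.castSucc Fin.castSucc *ᵥ c = fun i ↦ A i.castSucc (Fin.last r))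
    (i : Fin (r + 1)) : ∑ j, c j * A i j.castSucc = A i (Fin.last r) := by
  obtain ⟨v, hv, e⟩ := Matrix.exists_mulVec_eq_zero_iff.2 h
  have e1 : ∀ i, ∑ j : Fin r, A i j.castSucc * v j.castSucc + A i (Fin.last r) * v (Fin.last r)
      = 0 := fun i ↦ by
    simpa [mulVec, dotProduct, Fin.sum_univ_castSucc] using congrFun e i
  have e2 : (fun j : Fin r ↦ v j.castSucc) + v (Fin.last r) • c = 0 := by
    refine Matrix.eq_zero_of_mulVec_eq_zero h' (funext fun i ↦ ?_)
    rw [mulVec_add, mulVec_smul, hc]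
    simpa [mulVec, dotProduct, mul_comm] using e1 i.castSucc
  have e3 : ∀ j : Fin r, v j.castSucc = -(v (Fin.last r) * c j) := fun j ↦
    eq_neg_of_add_eq_zero_left (congrFun e2 j)
  have e4 : v (Fin.last r) ≠ 0 := fun h0 ↦ hv (funext fun j ↦ by
    induction j using Fin.lastCases with
    | last => exact h0
    | cast j => simp [e3, h0])
  apply mul_left_cancel₀ e4
  have := e1 i
  simp only [e3] at this
  rw [Finset.mul_sum, ← sub_eq_zero, ← neg_eq_zero, ← this, neg_sub, sub_eq_neg_add,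
    ← Finset.sum_neg_distrib, mul_comm (v _)]
  congr 1
  exact Finset.sum_congr rfl fun j _ ↦ by ring

/-- Coefficients of the higher chain rule. -/
noncomputable def co (φ : ℂ → ℂ) : ℕ → ℕ → ℂ → ℂ
  | 0, 0 => fun _ ↦ 1
  | 0, _ + 1 => fun _ ↦ 0
  | i + 1, 0 => deriv (co φ i 0)
  | i + 1, k + 1 => fun w ↦ deriv (co φ i (k + 1)) w + co φ i k w * deriv φ w

theorem co_an {φ : ℂ → ℂ} {z : ℂ} (hφ : AnalyticAt ℂ φ z) (i k : ℕ) :
    AnalyticAt ℂ (co φ i k) z := by
  induction i generalizing k with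
  | zero => cases k <;> exact analyticAt_const
  | succ i ih =>
    cases k with
    | zero => exact (ih 0).deriv
    | succ k => exact (ih _).deriv.add ((ih k).mul hφ.deriv)

theorem co_lt (φ : ℂ → ℂ) {i k : ℕ} (h : i < k) : co φ i k = fun _ ↦ 0 := by
  induction i generalizing k with
  | zero => obtain ⟨k, rfl⟩ := Nat.exists_eq_succ_of_ne_zero h.ne'; rfl
  | succ i ih =>
    obtain ⟨k, rfl⟩ := Nat.exists_eq_succ_of_ne_zero (Nat.ne_zero_of_lt h)
    simp [co, ih (show i < k + 1 by omega), ih (show i < k by omega)]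

theorem co_self (φ : ℂ → ℂ) (i : ℕ) : co φ i i = fun w ↦ deriv φ w ^ i := by
  induction i with
  | zero => simp [co]
  | succ i ih => simp [co, ih, co_lt φ (Nat.lt_succ_self i), pow_succ]

theorem chain {f φ : ℂ → ℂ} {z : ℂ} (hφ : AnalyticAt ℂ φ z) (hf : AnalyticAt ℂ f (φ z)) (i : ℕ) :
    iteratedDeriv i (fun w ↦ f (φ w)) =ᶠ[𝓝 z]
      fun w ↦ ∑ k ∈ Finset.range (i + 1), co φ i k w * iteratedDeriv k f (φ w) := by
  induction i with
  | zero => simp [co]
  | succ i ih =>
    rw [iteratedDeriv_succ]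
    refine ih.deriv.trans ?_
    filter_upwards [hφ.eventually_analyticAt,
      hφ.continuousAt.eventually hf.eventually_analyticAt] with w h1 h2
    have h3 : HasDerivAt (fun w ↦ ∑ k ∈ Finset.range (i + 1),
        co φ i k w * iteratedDeriv k f (φ w)) (∑ k ∈ Finset.range (i + 1),
        (deriv (co φ i k) w * iteratedDeriv k f (φ w) +
          co φ i k w * (iteratedDeriv (k + 1) f (φ w) * deriv φ w))) w :=
      HasDerivAt.fun_sum fun k _ ↦ (co_an h1 i k).differentiableAt.hasDerivAt.fun_mul (by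
        rw [iteratedDeriv_succ]
        exact (an_iter h2 k).differentiableAt.hasDerivAt.comp w h1.differentiableAt.hasDerivAt)
    rw [h3.deriv, Finset.sum_add_distrib, Finset.sum_range_succ' _ (i + 1), Finset.sum_range_succ']
    simp only [co, add_mul, Finset.sum_add_distrib]
    rw [Finset.sum_range_succ (fun k ↦ deriv (co φ i (k + 1)) w * _), co_lt φ (Nat.lt_succ_self i)]
    simp only [deriv_const, zero_mul, add_zero, mul_assoc, mul_comm (deriv φ w)]
    ring

end WR

open WR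

theorem wronskian_ne_zero {r : ℕ} (f : Fin r → ℂ → ℂ) {U : Set ℂ} (hU : IsOpen U)
    (hc : IsPreconnected U) (hne : U.Nonempty) (hf : ∀ j, AnalyticOnNhd ℂ (f j) U)
    (hind : ∀ c : Fin r → ℂ, (∀ z ∈ U, ∑ j, c j * f j z = 0) → c = 0) :
    ∃ z ∈ U, (Matrix.of fun i j : Fin r ↦ iteratedDeriv i (f j) z).det ≠ 0 := by
  induction r with
  | zero => exact ⟨_, hne.some_mem, by simp⟩
  | succ r ih =>
    obtain ⟨z₀, hz₀, h0⟩ := ih (fun j ↦ f j.castSucc) (fun j ↦ hf _) fun c h ↦ by
      have := hind (Fin.snoc c 0) fun z hz ↦ by simpa [Fin.sum_univ_castSucc] using h z hz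
      exact funext fun j ↦ by simpa using congrFun this j.castSucc
    by_contra hcon
    push Not at hcon
    set M : ℂ → Matrix (Fin r) (Fin r) ℂ :=
      fun z ↦ Matrix.of fun i j ↦ iteratedDeriv i (f j.castSucc) z with hM
    have hMa : ∀ z ∈ U, AnalyticAt ℂ (fun w ↦ (M w).det) z := fun z hz ↦
      an_det fun i j ↦ an_iter (hf _ z hz) i
    obtain ⟨ε, hε, hB⟩ := Metric.eventually_nhds_iff_ball.1
      (((hMa z₀ hz₀).continuousAt.eventually_ne h0).and (hU.mem_nhds hz₀))
    set c : ℂ → Fin r → ℂ := fun z ↦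
      (M z).det⁻¹ • cramer (M z) fun i ↦ iteratedDeriv i (f (Fin.last r)) z with hcd
    have hca : ∀ z ∈ ball z₀ ε, ∀ j, AnalyticAt ℂ (fun w ↦ c w j) z := fun z hz j ↦ by
      refine ((hMa z (hB z hz).2).inv (hB z hz).1).mul (an_det fun a b ↦ ?_)
      simp only [updateCol_apply]
      split_ifs
      exacts [an_iter (hf _ z (hB z hz).2) a, an_iter (hf _ z (hB z hz).2) a]
    have h1 : ∀ z ∈ ball z₀ ε, ∀ i ≤ r, ∑ j, c z j * iteratedDeriv i (f j.castSucc) z =
        iteratedDeriv i (f (Fin.last r)) z := fun z hz i hi ↦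
      rows _ (hcon z (hB z hz).2) (hB z hz).1 (c := c z) (by
        change M z *ᵥ c z = _
        rw [hcd, mulVec_smul, mulVec_cramer, smul_smul, inv_mul_cancel₀ (hB z hz).1, one_smul]
        rfl) ⟨i, Nat.lt_succ_of_le hi⟩
    have h2 : ∀ z ∈ ball z₀ ε, (fun j ↦ deriv (fun w ↦ c w j) z) = 0 := fun z hz ↦ by
      refine Matrix.eq_zero_of_mulVec_eq_zero (hB z hz).1 (funext fun i ↦ ?_)
      have h3 : HasDerivAt (fun w ↦ ∑ j, c w j * iteratedDeriv i (f j.castSucc) w)
          (∑ j, (deriv (fun w ↦ c w j) z * iteratedDeriv i (f j.castSucc) z +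
            c z j * iteratedDeriv (i + 1) (f j.castSucc) z)) z :=
        HasDerivAt.fun_sum fun j _ ↦ (hca z hz j).differentiableAt.hasDerivAt.fun_mul (by
          rw [iteratedDeriv_succ]
          exact (an_iter (hf _ z (hB z hz).2) i).differentiableAt.hasDerivAt)
      have h4 : (fun w ↦ ∑ j, c w j * iteratedDeriv i (f j.castSucc) w) =ᶠ[𝓝 z]
          iteratedDeriv i (f (Fin.last r)) := by
        filter_upwards [isOpen_ball.mem_nhds hz] with w hw using h1 w hw i i.2.le
      have h5 := h3.deriv.symm.trans h4.deriv_eq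
      rw [Finset.sum_add_distrib, h1 z hz _ i.2, iteratedDeriv_succ, add_eq_right] at h5
      simpa [hM, mulVec, dotProduct, mul_comm] using h5
    have h3 : ∀ z ∈ ball z₀ ε, ∀ j, c z j = c z₀ j := fun z hz j ↦
      isOpen_ball.is_const_of_deriv_eq_zero (convex_ball z₀ ε).isPreconnected
        (fun w hw ↦ (hca w hw j).differentiableAt.differentiableWithinAt)
        (fun w hw ↦ congrFun (h2 w hw) j) hz (mem_ball_self hε)
    have h4 : AnalyticOnNhd ℂ (fun z ↦ ∑ j, (Fin.snoc (c z₀) (-1) : Fin (r + 1) → ℂ) j * f j z) U :=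
      fun z hz ↦ Finset.analyticAt_fun_sum _ fun j _ ↦ analyticAt_const.mul (hf j z hz)
    have h5 := hind _ (h4.eqOn_zero_of_preconnected_of_eventuallyEq_zero hc hz₀ (by
      filter_upwards [ball_mem_nhds z₀ hε] with z hz
      have := h1 z hz 0 r.zero_le
      simp only [h3 z hz, iteratedDeriv_zero] at this
      simp [Fin.sum_univ_castSucc, this]))
    simpa using congrFun h5 (Fin.last r)

theorem wronskian_comp {r : ℕ} (f : Fin r → ℂ → ℂ) {φ : ℂ → ℂ} {z : ℂ} (hφ : AnalyticAt ℂ φ z)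
    (hf : ∀ j, AnalyticAt ℂ (f j) (φ z)) :
    (Matrix.of fun i j : Fin r ↦ iteratedDeriv i (fun w ↦ f j (φ w)) z).det =
      deriv φ z ^ (r * (r - 1) / 2) *
        (Matrix.of fun i j : Fin r ↦ iteratedDeriv i (f j) (φ z)).det := by
  have h1 : (Matrix.of fun i j : Fin r ↦ iteratedDeriv i (fun w ↦ f j (φ w)) z) =
      (Matrix.of fun i k : Fin r ↦ co φ i k z) *
        Matrix.of fun i j : Fin r ↦ iteratedDeriv i (f j) (φ z) := by
    ext i j
    simp only [mul_apply, of_apply]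
    rw [(chain hφ (hf j) i).eq_of_nhds,
      ← Finset.sum_range fun k ↦ co φ i k z * iteratedDeriv k (f j) (φ z)]
    refine Finset.sum_subset (Finset.range_subset_range.2 i.2) fun k _ hk ↦ ?_
    rw [co_lt φ (by simpa using hk), zero_mul]
  rw [h1, det_mul, det_of_isLowerTriangular _ fun i k h ↦ by
    rw [of_apply, co_lt φ (show (i : ℕ) < k from h)]]
  simp only [of_apply, co_self]
  rw [Finset.prod_pow_eq_pow_sum, ← Finset.sum_range fun i ↦ i, Finset.sum_range_id]

theorem wronskian_lin {r : ℕ} (f g : Fin r → ℂ → ℂ) (ρ : Matrix (Fin r) (Fin r) ℂ) {z : ℂ}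
    (hf : ∀ j, AnalyticAt ℂ (f j) z) (h : ∀ j, ∀ᶠ w in 𝓝 z, g j w = ∑ k, f k w * ρ k j) :
    (Matrix.of fun i j : Fin r ↦ iteratedDeriv i (g j) z).det =
      (Matrix.of fun i j : Fin r ↦ iteratedDeriv i (f j) z).det * ρ.det := by
  rw [← det_mul]
  congr 1
  ext i j
  simp only [mul_apply, of_apply]
  rw [Filter.EventuallyEq.iteratedDeriv_eq i (h j), iteratedDeriv_fun_sum
    (f := fun k w ↦ f k w * ρ k j) fun k _ ↦ ((hf k).mul analyticAt_const).contDiffAt]
  exact Finset.sum_congr rfl fun k _ ↦ iteratedDeriv_mul_const_field _ _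

end Pool.Agent.Lib.ZP3
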