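import Pool.Agent.Lib.ZP3.ZVan
import Pool.Agent.Lib.ZP3.WdLem
import Pool.Agent.Lib.ZP3.Dens

/-! Block ZC: counting isolated zeros with multiplicities. -/

open UpperHalfPlane Filter Topology Metric
open scoped Real

namespace Pool.Agent.Lib.ZP3

open Pool.Agent.Lib.MP_0704bf_ag Pool.Agent.Lib.helper6

namespace ZC

open MvPolynomial

theorem card_le {ι κ : Type} [Fintype ι] [Fintype κ] (F : Submodule ℂ R) (u : ι → R) (v : κ → R)
    (hu : ∀ c : ι → ℂ, ∑ i, c i • u i ∈ F → ∀ i, c i = 0)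
    (hv : ∀ f, f ∈ Submodule.span ℂ (Set.range v) ⊔ F) : Fintype.card ι ≤ Fintype.card κ := by
  classical
  have h1 : LinearIndependent ℂ (F.mkQ ∘ u) := by
    rw [Fintype.linearIndependent_iff]
    intro c hc
    refine hu c ?_
    rw [← Submodule.Quotient.mk_eq_zero, ← Submodule.mkQ_apply, map_sum]
    simpa using hc
  have h2 : Submodule.span ℂ ((Finset.univ.image (F.mkQ ∘ v) : Finset (R ⧸ F)) : Set (R ⧸ F)) =
      ⊤ := by
    rw [eq_top_iff]
    intro q _
    obtain ⟨f, rfl⟩ := F.mkQ_surjective q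
    obtain ⟨a, ha, c, hc, rfl⟩ := Submodule.mem_sup.1 (hv f)
    have hc0 : F.mkQ c = 0 := by simpa using hc
    rw [map_add, hc0, add_zero, Finset.coe_image, Finset.coe_univ, Set.image_univ, Set.range_comp,
      ← Submodule.map_span]
    exact Submodule.mem_map_of_mem ha
  have h3 := linearIndependent_le_span_finset _ h1 _ h2
  rw [Cardinal.mk_fintype, Nat.cast_le] at h3
  exact h3.trans (Finset.card_image_le.trans (by simp))

/-- the reduced monomials -/
noncomputable def mon (D : ℕ) (p : (Fin 3 → Fin (D + 1)) × (Fin 3 → Fin 2)) : R :=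
  monomial (Finsupp.equivFunOnFinite.symm
    (Sum.elim (fun i ↦ (p.1 i : ℕ)) (fun i ↦ (p.2 i : ℕ)))) 1

theorem monomial_red (W : Fin 3 → WD) (F : Submodule ℂ R) (hF : ∀ i f, f * cub W i ∈ F) (D : ℕ)
    (N : ℕ) : ∀ m : Var →₀ ℕ, ∑ i, m (Sum.inr i) = N →
      (∀ i, 2 * m (Sum.inl i) + 3 * m (Sum.inr i) ≤ D) →
      (monomial m 1 : R) ∈ Submodule.span ℂ (Set.range (mon D)) ⊔ F := by
  induction N using Nat.strong_induction_on with
  | _ N ih =>
  intro m hN hm
  by_cases h : ∀ i, m (Sum.inr i) < 2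
  · refine Submodule.mem_sup_left (Submodule.subset_span
      ⟨(fun i ↦ ⟨m (Sum.inl i), by have := hm i; omega⟩, fun i ↦ ⟨m (Sum.inr i), h i⟩), ?_⟩)
    unfold mon
    congr 2
    ext v
    cases v <;> simp
  · push Not at h
    obtain ⟨i, hi⟩ := h
    set m' : Var →₀ ℕ := m - Finsupp.single (Sum.inr i) 2 with hm'
    have hmm : m = m' + Finsupp.single (Sum.inr i) 2 := by
      rw [hm', tsub_add_cancel_of_le]
      exact Finsupp.single_le_iff.2 hi
    have hl : ∀ j, m' (Sum.inl j) = m (Sum.inl j) := fun j ↦ by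
      rw [hmm]; simp
    have hr : ∀ j, m (Sum.inr j) = m' (Sum.inr j) + if i = j then 2 else 0 := fun j ↦ by
      conv_lhs => rw [hmm]
      simp [Finsupp.single_apply]
    have hsum : ∑ j, m' (Sum.inr j) < N := by
      rw [← hN]
      simp only [hr, Finset.sum_add_distrib]
      simp
    have key : ∀ a : ℕ, a ≤ 3 → (monomial (m' + Finsupp.single (Sum.inl i) a) 1 : R) ∈
        Submodule.span ℂ (Set.range (mon D)) ⊔ F := by
      intro a ha
      refine ih _ hsum _ (by simp) fun j ↦ ?_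
      have h1 := hm j
      rw [hr j, ← hl j] at h1
      simp only [Finsupp.add_apply, Finsupp.single_apply, Sum.inl.injEq, reduceCtorEq, if_false]
      split_ifs at h1 ⊢ <;> omega
    have e : (monomial m 1 : R) = monomial m' 1 * cub W i +
        ((4 : ℂ) • monomial (m' + Finsupp.single (Sum.inl i) 3) 1 -
          (W i).g2 • monomial (m' + Finsupp.single (Sum.inl i) 1) 1 -
          (W i).g3 • monomial (m' + Finsupp.single (Sum.inl i) 0) 1) := by
      have e1 : ∀ (v : Var) (a : ℕ), (monomial (m' + Finsupp.single v a) 1 : R) =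
          monomial m' 1 * X v ^ a := fun v a ↦ by
        rw [X_pow_eq_monomial, monomial_mul, mul_one]
      rw [hmm, e1, e1, e1, e1]
      simp only [cub, smul_eq_C_mul, map_ofNat]
      ring
    rw [e]
    refine Submodule.add_mem _ (Submodule.mem_sup_right (hF _ _)) ?_
    exact Submodule.sub_mem _ (Submodule.sub_mem _ (Submodule.smul_mem _ _ (key 3 le_rfl))
      (Submodule.smul_mem _ _ (key 1 (by norm_num)))) (Submodule.smul_mem _ _ (key 0 (by norm_num)))

theorem Md_red (W : Fin 3 → WD) (F : Submodule ℂ R) (hF : ∀ i f, f * cub W i ∈ F) (D : ℕ) :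
    Md D ≤ Submodule.span ℂ (Set.range (mon D)) ⊔ F := by
  intro f hf
  rw [Md, mem_restrictSupport_iff] at hf
  rw [f.as_sum]
  refine Submodule.sum_mem _ fun m hm ↦ ?_
  have : (monomial m (coeff m f) : R) = coeff m f • monomial m 1 := by
    rw [smul_monomial, smul_eq_mul, mul_one]
  rw [this]
  exact Submodule.smul_mem _ _ (monomial_red W F hF D _ m rfl (hf (Finset.mem_coe.2 hm)))

theorem exists_Md (f : R) : ∃ c, f ∈ Md c := by
  refine ⟨5 * f.totalDegree, ?_⟩
  rw [Md, mem_restrictSupport_iff]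
  intro m hm i
  have h1 := (monomial_le_degreeOf (Sum.inl i) (Finset.mem_coe.1 hm)).trans
    (degreeOf_le_totalDegree f _)
  have h2 := (monomial_le_degreeOf (Sum.inr i) (Finset.mem_coe.1 hm)).trans
    (degreeOf_le_totalDegree f _)
  omega

/-- an ideal containing a monic polynomial in each variable has finite codimension -/
theorem exists_cover (P : Ideal R)
    (hP : ∀ v, ∃ p : Polynomial ℂ, p.Monic ∧ Polynomial.aeval (X v : R) p ∈ P) :
    ∃ c, ∀ f : R, ∃ m ∈ Md c, f - m ∈ P := by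
  have hint : Algebra.IsIntegral ℂ (R ⧸ P) := by
    constructor
    intro q
    obtain ⟨f, rfl⟩ := Ideal.Quotient.mk_surjective q
    induction f using MvPolynomial.induction_on with
    | C a => exact isIntegral_algebraMap (x := a)
    | add p q hp hq => rw [map_add]; exact hp.add hq
    | mul_X p v hp =>
      rw [map_mul]
      refine hp.mul ?_
      obtain ⟨p, hp, hp'⟩ := hP v
      refine ⟨p, hp, ?_⟩
      rw [← Polynomial.aeval_def, ← Ideal.Quotient.mkₐ_eq_mk ℂ, Polynomial.aeval_algHom_apply,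
        Ideal.Quotient.mkₐ_eq_mk, Ideal.Quotient.eq_zero_iff_mem]
      exact hp'
  have hfin : Module.Finite ℂ (R ⧸ P) := Algebra.IsIntegral.finite
  obtain ⟨T, hT⟩ := hfin.fg_top
  choose g hg using fun q : R ⧸ P ↦ Ideal.Quotient.mk_surjective (I := P) q
  choose c hc using exists_Md
  refine ⟨T.sup fun q ↦ c (g q), fun f ↦ ?_⟩
  have hle : (⊤ : Submodule ℂ (R ⧸ P)) ≤
      (Md (T.sup fun q ↦ c (g q))).map (Ideal.Quotient.mkₐ ℂ P).toLinearMap := by
    rw [← hT, Submodule.span_le]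
    intro q hq
    exact ⟨g q, Md_mono (Finset.le_sup (f := fun q ↦ c (g q)) hq) (hc _), hg q⟩
  obtain ⟨m, hm, hm'⟩ := hle (Submodule.mem_top (x := Ideal.Quotient.mk P f))
  exact ⟨m, hm, Ideal.Quotient.eq.1 hm'.symm⟩

theorem limit {A C d : ℕ} (h : ∀ n : ℕ, A * n ^ 3 ≤ 8 * (C + 3 * n * d) ^ 3) :
    A ≤ 8 * (3 * d) ^ 3 := by
  by_contra hA
  push Not at hA
  set K := 8 * C ^ 3 + 72 * C ^ 2 * d + 216 * C * d ^ 2 with hK
  have h1 := h (K + 1)
  set n := K + 1 with hn
  have hn1 : 1 ≤ n := by omega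
  have h2 : (8 * (3 * d) ^ 3 + 1) * n ^ 3 ≤ A * n ^ 3 := Nat.mul_le_mul_right _ hA
  have h3 : 8 * (C + 3 * n * d) ^ 3 =
      8 * C ^ 3 + 72 * C ^ 2 * d * n + 216 * C * d ^ 2 * n ^ 2 + 8 * (3 * d) ^ 3 * n ^ 3 := by ring
  have h4 : 8 * C ^ 3 ≤ 8 * C ^ 3 * n ^ 2 := Nat.le_mul_of_pos_right _ (by positivity)
  have h5 : 72 * C ^ 2 * d * n ≤ 72 * C ^ 2 * d * n ^ 2 :=
    Nat.mul_le_mul_left _ (by nlinarith)
  have h6 : n ^ 3 = K * n ^ 2 + n ^ 2 := by rw [hn]; ring
  have h7 : K * n ^ 2 = 8 * C ^ 3 * n ^ 2 + 72 * C ^ 2 * d * n ^ 2 + 216 * C * d ^ 2 * n ^ 2 := by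
    rw [hK]; ring
  have h8 : 0 < n ^ 2 := by positivity
  nlinarith

variable {W : Fin 3 → WD} {b : Fin 3 → Fin 3 → ℂ} {w : Fin 3 → ℕ}

theorem ev_X (z : Fin 3 → ℂ) (v : Var) : ev W z (X v) = pt W z v := by simp [ev]

theorem ev_C (z : Fin 3 → ℂ) (a : ℂ) : ev W z (C a) = a := by simp [ev]

theorem exists_sep (S : Finset (Fin 3 → ℂ)) (hS : ∀ z ∈ S, Reg W z)
    (hdist : ∀ z ∈ S, ∀ z' ∈ S, z ≠ z' → ∃ i, z i - z' i ∉ (W i).Λ) :
    ∀ z ∈ S, ∃ e : R, ev W z e = 1 ∧ ∀ z' ∈ S, z' ≠ z → ev W z' e = 0 := by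
  classical
  intro z hz
  have h1 : ∀ z' ∈ S, z' ≠ z → ∃ p : R, ev W z p = 1 ∧ ev W z' p = 0 := by
    intro z' hz' hne
    have : ∃ v, pt W z v ≠ pt W z' v := by
      by_contra hc
      push Not at hc
      obtain ⟨i, hi⟩ := hdist z hz z' hz' hne.symm
      exact hi ((W i).inj (hS z hz i) (hS z' hz' i) (hc (Sum.inl i)) (hc (Sum.inr i)))
    obtain ⟨v, hv⟩ := this
    refine ⟨C (pt W z v - pt W z' v)⁻¹ * (X v - C (pt W z' v)), ?_, ?_⟩
    · rw [map_mul, map_sub, ev_C, ev_C, ev_X, inv_mul_cancel₀ (sub_ne_zero.2 hv)]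
    · rw [map_mul, map_sub, ev_C, ev_C, ev_X, sub_self, mul_zero]
  choose! p hp using h1
  refine ⟨∏ z' ∈ S.erase z, p z', ?_, fun z' hz' hne ↦ ?_⟩
  · rw [map_prod]
    exact Finset.prod_eq_one fun z' hz' ↦
      (hp z' (Finset.mem_of_mem_erase hz') (Finset.ne_of_mem_erase hz')).1
  · rw [map_prod]
    exact Finset.prod_eq_zero (Finset.mem_erase.2 ⟨hne, hz'⟩) (hp z' hz' hne).2

/-- polynomials vanishing to order `n` at every point of `S` -/
def FS (W : Fin 3 → WD) (b : Fin 3 → Fin 3 → ℂ) (w : Fin 3 → ℕ) (S : Finset (Fin 3 → ℂ))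
    (n : ℕ) : Submodule ℂ R where
  carrier := {f | ∀ z ∈ S, Van W b w z n f}
  add_mem' hf hg z hz := van_add (hf z hz) (hg z hz)
  zero_mem' z _ l _ := by rw [word_zero, map_zero]
  smul_mem' c _ hf z hz := van_smul c (hf z hz)

theorem FS_mul (hw : ∀ i, 0 < w i) {S : Finset (Fin 3 → ℂ)} {n n' : ℕ} {f g : R}
    (hf : f ∈ FS W b w S n) (hg : g ∈ FS W b w S n') : f * g ∈ FS W b w S (n + n') :=
  fun z hz ↦ Van.mul hw (hf z hz) (hg z hz)

theorem FS_zero {S : Finset (Fin 3 → ℂ)} (f : R) : f ∈ FS W b w S 0 := fun _ _ ↦ van_zero f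

theorem FS_mul_left (hw : ∀ i, 0 < w i) {S : Finset (Fin 3 → ℂ)} {n : ℕ} (f : R) {g : R}
    (hg : g ∈ FS W b w S n) : f * g ∈ FS W b w S n := by
  simpa using FS_mul hw (FS_zero f) hg

theorem FS_cub {S : Finset (Fin 3 → ℂ)} (hS : ∀ z ∈ S, Reg W z) (n : ℕ) (i : Fin 3) :
    cub W i ∈ FS W b w S n := by
  intro z hz l _
  cases l with
  | nil => exact ev_cub (hS z hz) i
  | cons j l => rw [word_cons, der_cub, word_zero, map_zero]

theorem iso_pt {z : Fin 3 → ℂ} (hz : Reg W z) (G : Set R) (hG : ∀ g ∈ G, ev W z g = 0)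
    (hiso : ∀ᶠ z' in 𝓝 z, (∀ g ∈ G, ev W z' g = 0) → z' = z) :
    ∃ (s : R) (k : ℕ), ev W z s ≠ 0 ∧
      ∀ f ∈ (RingHom.ker (ev W z)) ^ k, s * f ∈ Ideal.span (G ∪ Set.range (cub W)) := by
  refine isolated _ (x := pt W z) ?_ ?_
  · intro f hf
    have : Ideal.span (G ∪ Set.range (cub W)) ≤ RingHom.ker (ev W z) := by
      rw [Ideal.span_le]
      rintro g (hg | ⟨i, rfl⟩)
      · exact hG g hg
      · exact ev_cub hz i
    exact this hf
  · obtain ⟨ε, hε, hball⟩ := Metric.eventually_nhds_iff.1 hiso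
    choose δ hδ hδ' using fun i ↦ (W i).locsurj (hz i) hε
    have hδ0 : 0 < min (δ 0) (min (δ 1) (δ 2)) := lt_min (hδ 0) (lt_min (hδ 1) (hδ 2))
    have hδi : ∀ i, min (δ 0) (min (δ 1) (δ 2)) ≤ δ i := fun i ↦ by
      fin_cases i
      · exact min_le_left _ _
      · exact (min_le_right _ _).trans (min_le_left _ _)
      · exact (min_le_right _ _).trans (min_le_right _ _)
    refine Metric.eventually_nhds_iff.2 ⟨_, hδ0, fun x hx hI ↦ ?_⟩
    have hx' : ∀ v, ‖x v - pt W z v‖ < min (δ 0) (min (δ 1) (δ 2)) := fun v ↦ by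
      rw [← dist_eq_norm]
      exact (dist_le_pi_dist x (pt W z) v).trans_lt hx
    have hc : ∀ i, x (Sum.inr i) ^ 2 =
        4 * x (Sum.inl i) ^ 3 - (W i).g2 * x (Sum.inl i) - (W i).g3 := fun i ↦ by
      have := hI (cub W i) (Ideal.subset_span (Or.inr ⟨i, rfl⟩))
      simp only [cub, map_sub, map_mul, map_pow, eval_X, eval_C, map_ofNat] at this
      exact sub_eq_zero.1 this
    choose z' h1 h2 h3 h4 using fun i ↦ hδ' i _ _ (hc i) ((hx' (Sum.inl i)).trans_le (hδi i))
      ((hx' (Sum.inr i)).trans_le (hδi i))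
    have hpt : pt W z' = x := by
      funext v
      cases v with
      | inl i => exact h3 i
      | inr i => exact h4 i
    have hzz : z' = z := by
      refine hball ((dist_pi_lt_iff hε).2 fun i ↦ by rw [dist_eq_norm]; exact h1 i) fun g hg ↦ ?_
      rw [ev, hpt]
      exact hI g (Ideal.subset_span (Or.inl hg))
    rw [← hpt, hzz]

theorem upper (hw : ∀ i, 0 < w i) {w0 d : ℕ} (hw0 : 0 < w0)
    (S : Finset (Fin 3 → ℂ)) (hS : ∀ z ∈ S, Reg W z)
    (hdist : ∀ z ∈ S, ∀ z' ∈ S, z ≠ z' → ∃ i, z i - z' i ∉ (W i).Λ)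
    (G : Set R) (hG : ∀ g ∈ G, g ∈ Md d) (hvan : ∀ g ∈ G, ∀ z ∈ S, Van W b w z w0 g)
    (hiso : ∀ z ∈ S, ∀ᶠ z' in 𝓝 z, (∀ g ∈ G, ev W z' g = 0) → z' = z) :
    ∃ c, ∀ (n : ℕ) (f : R), f ∈ Md (c + n * d) ⊔ FS W b w S (n * w0) := by
  classical
  have h1 : ∀ z ∈ S, ∃ (s : R) (k : ℕ), ev W z s ≠ 0 ∧
      ∀ f ∈ (RingHom.ker (ev W z)) ^ k, s * f ∈ Ideal.span (G ∪ Set.range (cub W)) :=
    fun z hz ↦ iso_pt (hS z hz) G (fun g hg ↦ van_ev (hvan g hg z hz) hw0) (hiso z hz)
  choose! s k hs hsk using h1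
  choose! e he he' using exists_sep S hS hdist
  obtain ⟨c, hc⟩ := exists_cover (S.inf fun z ↦ (RingHom.ker (ev W z)) ^ k z) (by
    intro v
    refine ⟨∏ z ∈ S, (Polynomial.X - Polynomial.C (pt W z v)) ^ k z,
      Polynomial.monic_prod_of_monic _ _ fun z _ ↦ (Polynomial.monic_X_sub_C _).pow _, ?_⟩
    rw [Submodule.mem_finsetInf]
    intro z hz
    rw [map_prod]
    refine Ideal.prod_mem _ hz ?_
    rw [map_pow]
    refine Ideal.pow_mem_pow ?_ _
    rw [RingHom.mem_ker]
    simp [ev])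
  set t : R := ∑ z ∈ S, C (ev W z (s z))⁻¹ * e z * s z with ht
  have ht1 : ∀ z ∈ S, ev W z (1 - t) = 0 := by
    intro z hz
    rw [map_sub, map_one, ht, map_sum, Finset.sum_eq_single z]
    · rw [map_mul, map_mul, ev_C, he z hz, mul_one, inv_mul_cancel₀ (hs z hz), sub_self]
    · intro z' hz' hne
      rw [map_mul, map_mul, he' z' hz' z hz hne.symm, mul_zero, zero_mul]
    · intro h
      exact absurd hz h
  have ht2 : ∀ f ∈ S.inf fun z ↦ (RingHom.ker (ev W z)) ^ k z,
      t * f ∈ Ideal.span (G ∪ Set.range (cub W)) := by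
    intro f hf
    rw [ht, Finset.sum_mul]
    refine Ideal.sum_mem _ fun z hz ↦ ?_
    rw [mul_assoc]
    exact Ideal.mul_mem_left _ _ (hsk z hz f (Submodule.mem_finsetInf.1 hf z hz))
  have ht3 : ∀ K, (1 - t) ^ K ∈ FS W b w S K := by
    intro K z hz
    simpa using Van.pow hw (van_one hw (ht1 z hz)) K
  refine ⟨c, fun n ↦ ?_⟩
  induction n with
  | zero => exact fun f ↦ Submodule.mem_sup_right (by simpa using FS_zero f)
  | succ n ih =>
    have hI : ∀ x ∈ Ideal.span (G ∪ Set.range (cub W)), ∀ r : R,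
        r * x ∈ Md (c + (n + 1) * d) ⊔ FS W b w S ((n + 1) * w0) := by
      intro x hx
      induction hx using Submodule.span_induction with
      | mem x hx =>
        intro r
        rcases hx with hx | ⟨i, rfl⟩
        · obtain ⟨m, hm, φ, hφ, rfl⟩ := Submodule.mem_sup.1 (ih r)
          rw [add_mul m]
          refine Submodule.add_mem_sup ?_ ?_
          · rw [add_mul, one_mul, ← add_assoc]
            exact Md_mul hm (hG x hx)
          · rw [add_mul, one_mul]
            exact FS_mul hw hφ (hvan x hx)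
        · exact Submodule.mem_sup_right (FS_mul_left hw r (FS_cub hS _ i))
      | zero => intro r; simp
      | add x y _ _ hx hy => intro r; rw [mul_add]; exact Submodule.add_mem _ (hx r) (hy r)
      | smul a x _ hx => intro r; rw [smul_eq_mul, ← mul_assoc]; exact hx _
    intro f
    obtain ⟨m, hm, hp⟩ := hc f
    obtain ⟨q, hq⟩ := one_sub_dvd_one_sub_pow (1 - t) ((n + 1) * w0)
    have hf : f = m + ((f - m) * (1 - t) ^ ((n + 1) * w0) + q * (t * (f - m))) := by
      linear_combination (f - m) * hq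
    rw [hf]
    refine Submodule.add_mem _ (Submodule.mem_sup_left (Md_mono (Nat.le_add_right _ _) hm))
      (Submodule.add_mem _ (Submodule.mem_sup_right (FS_mul_left hw _ (ht3 _)))
        (hI _ (ht2 _ hp) q))

/-- local coordinates dual to the directions `b i` -/
theorem exists_coord (hb : LinearIndependent ℂ b) {z : Fin 3 → ℂ} (hz : Reg W z) :
    ∃ u : Fin 3 → R, (∀ j, ev W z (u j) = 0) ∧
      ∀ i j, ev W z (der W (b i) (u j)) = if i = j then 1 else 0 := by
  have h1 : ∀ i, ∃ t : R, ev W z t = 0 ∧ ∀ v, ev W z (der W v t) = v i := by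
    intro i
    rcases (W i).nonsing (hz i) with h | h
    · refine ⟨((W i).Y (z i))⁻¹ • (X (Sum.inl i) - C ((W i).X (z i))), ?_, fun v ↦ ?_⟩
      · simp [ev, pt, smul_eval]
      · rw [Derivation.map_smul, map_sub, derivation_C, sub_zero, der, der0, mkDerivation_X]
        simp only [Sum.elim_inl, smul_eq_C_mul, map_mul, ev_C, ev_X, pt, Sum.elim_inr]
        field_simp
    · refine ⟨(6 * (W i).X (z i) ^ 2 - (W i).g2 / 2)⁻¹ • (X (Sum.inr i) - C ((W i).Y (z i))), ?_,
        fun v ↦ ?_⟩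
      · simp [ev, pt, smul_eval]
      · rw [Derivation.map_smul, map_sub, derivation_C, sub_zero, der, der0, mkDerivation_X]
        simp only [Sum.elim_inl, smul_eq_C_mul, map_mul, ev_C, ev_X, pt, Sum.elim_inr, map_sub,
          map_pow, map_ofNat]
        rw [mul_comm, mul_assoc, mul_inv_cancel₀ h, mul_one]
  choose t ht ht' using h1
  have hB : IsUnit (Matrix.of b) := Matrix.linearIndependent_rows_iff_isUnit.1 hb
  obtain ⟨M, hM⟩ := hB.exists_right_inv
  refine ⟨fun j ↦ ∑ k, M k j • t k, fun j ↦ ?_, fun i j ↦ ?_⟩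
  · simp only [smul_eq_C_mul, map_sum, map_mul, ht, mul_zero, Finset.sum_const_zero]
  · have := congrFun (congrFun hM i) j
    rw [Matrix.mul_apply, Matrix.one_apply] at this
    rw [← this, map_sum, map_sum]
    refine Finset.sum_congr rfl fun k _ ↦ ?_
    rw [Derivation.map_smul, smul_eq_C_mul, map_mul, ev_C, ht', mul_comm, Matrix.of_apply]

/-- the coefficient produced by a word -/
def coef : List (Fin 3) → (Fin 3 → ℕ) → ℕ
  | [], α => if α = 0 then 1 else 0
  | i :: l, α => α i * coef l (Function.update α i (α i - 1))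

theorem coef_ne_zero (l : List (Fin 3)) : ∀ α : Fin 3 → ℕ,
    coef l α ≠ 0 ↔ ∀ j, l.count j = α j := by
  induction l with
  | nil =>
    intro α
    simp only [coef, List.count_nil, ne_eq, ite_eq_right_iff, one_ne_zero, imp_false, not_not]
    exact ⟨fun h j ↦ by simp [h], fun h ↦ funext fun j ↦ (h j).symm⟩
  | cons i l ih =>
    intro α
    rw [coef, mul_ne_zero_iff, ih]
    constructor
    · rintro ⟨h1, h2⟩ j
      have := h2 j
      by_cases hj : j = i
      · subst hj
        rw [Function.update_self] at this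
        rw [List.count_cons_self]
        omega
      · rw [Function.update_of_ne hj] at this
        rw [List.count_cons_of_ne (Ne.symm hj), this]
    · intro h
      have hi := h i
      rw [List.count_cons_self] at hi
      refine ⟨by omega, fun j ↦ ?_⟩
      by_cases hj : j = i
      · subst hj
        rw [Function.update_self]
        omega
      · rw [Function.update_of_ne hj, ← h j, List.count_cons_of_ne (Ne.symm hj)]

theorem wev_mono {z : Fin 3 → ℂ} {u : Fin 3 → R} (hu : ∀ j, ev W z (u j) = 0)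
    (hu' : ∀ i j, ev W z (der W (b i) (u j)) = if i = j then 1 else 0) (l : List (Fin 3)) :
    ∀ (α : Fin 3 → ℕ) (h : R), l.length ≤ ∑ j, α j →
      ev W z (word W b l (h * ∏ j, u j ^ α j)) = coef l α * ev W z h := by
  have hw : ∀ i : Fin 3, 0 < (fun _ ↦ 1 : Fin 3 → ℕ) i := fun _ ↦ Nat.one_pos
  induction l with
  | nil =>
    intro α h _
    rw [word_nil, map_mul, map_prod, coef]
    split_ifs with h0
    · simp [h0]
    · obtain ⟨j, hj⟩ := Function.ne_iff.1 h0
      rw [Finset.prod_eq_zero (Finset.mem_univ j) (by rw [map_pow, hu]; exact zero_pow hj)]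
      simp
  | cons i l ih =>
    intro α h hl
    have hC : ∀ T : Finset (Fin 3), i ∉ T →
        Van W b (fun _ ↦ 1) z (∑ j ∈ T, α j) (h * ∏ j ∈ T, u j ^ α j) ∧
        Van W b (fun _ ↦ 1) z (∑ j ∈ T, α j) (der W (b i) (h * ∏ j ∈ T, u j ^ α j)) := by
      intro T
      induction T using Finset.induction_on with
      | empty => exact fun _ ↦ ⟨van_zero _, van_zero _⟩
      | insert j T hj ihT =>
        intro hi
        rw [Finset.mem_insert, not_or] at hi
        obtain ⟨h1, h2⟩ := ihT hi.2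
        have h3 : Van W b (fun _ ↦ 1) z (α j) (u j ^ α j) := by
          simpa using Van.pow hw (van_one hw (hu j)) (α j)
        have h4 : Van W b (fun _ ↦ 1) z (α j) (der W (b i) (u j ^ α j)) := by
          rw [Derivation.leibniz_pow, smul_eq_mul]
          rcases Nat.eq_zero_or_pos (α j) with h0 | h0
          · rw [h0]
            exact van_zero _
          · rw [← Nat.cast_smul_eq_nsmul ℂ]
            refine van_smul _ ?_
            have h5 := Van.mul (b := b) hw (Van.pow hw (van_one hw (hu j)) (α j - 1))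
              (van_one hw (f := der W (b i) (u j)) (by rw [hu', if_neg hi.1]))
            exact van_mono (by omega) h5
        rw [Finset.sum_insert hj, Finset.prod_insert hj, mul_left_comm]
        refine ⟨Van.mul hw h3 h1, ?_⟩
        rw [Derivation.leibniz, smul_eq_mul, smul_eq_mul]
        exact van_add (Van.mul hw h3 h2) (van_mono (by omega) (Van.mul hw h1 h4))
    obtain ⟨-, h2⟩ := hC (Finset.univ.erase i) (Finset.notMem_erase _ _)
    have hsum : ∑ j, α j = α i + ∑ j ∈ Finset.univ.erase i, α j :=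
      (Finset.add_sum_erase _ _ (Finset.mem_univ i)).symm
    have hsum' : ∑ j, Function.update α i (α i - 1) j =
        (α i - 1) + ∑ j ∈ Finset.univ.erase i, α j := by
      rw [Finset.sum_update_of_mem (Finset.mem_univ i), Finset.sdiff_singleton_eq_erase]
    have hprod' : ∏ j, u j ^ Function.update α i (α i - 1) j =
        u i ^ (α i - 1) * ∏ j ∈ Finset.univ.erase i, u j ^ α j := by
      rw [← Finset.mul_prod_erase _ _ (Finset.mem_univ i), Function.update_self]
      congr 1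
      exact Finset.prod_congr rfl fun j hj ↦ by
        rw [Function.update_of_ne (Finset.ne_of_mem_erase hj)]
    have h3 : Van W b (fun _ ↦ 1) z (α i) (u i ^ α i) := by
      simpa using Van.pow hw (van_one hw (hu i)) (α i)
    have e : der W (b i) (h * ∏ j, u j ^ α j) =
        u i ^ α i * der W (b i) (h * ∏ j ∈ Finset.univ.erase i, u j ^ α j) +
          (α i : ℂ) • ((h * der W (b i) (u i)) * ∏ j, u j ^ Function.update α i (α i - 1) j) := by
      rw [hprod', ← Finset.mul_prod_erase _ _ (Finset.mem_univ i), mul_left_comm,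
        Derivation.leibniz, Derivation.leibniz_pow, Nat.cast_smul_eq_nsmul]
      simp only [smul_eq_mul, nsmul_eq_mul]
      ring
    rw [List.length_cons] at hl
    rw [word_cons, e, ← wev_apply, map_add, map_smul, wev_apply, wev_apply,
      Van.mul hw h3 h2 l (by simp; omega), zero_add, coef, smul_eq_mul, Nat.cast_mul]
    rcases Nat.eq_zero_or_pos (α i) with h0 | h0
    · simp [h0]
    · rw [ih (Function.update α i (α i - 1)) _ (by omega), map_mul, hu', if_pos rfl, mul_one,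
        mul_assoc]

theorem lower (hb : LinearIndependent ℂ b) (hw : ∀ i, 0 < w i)
    (S : Finset (Fin 3 → ℂ)) (hS : ∀ z ∈ S, Reg W z)
    (hdist : ∀ z ∈ S, ∀ z' ∈ S, z ≠ z' → ∃ i, z i - z' i ∉ (W i).Λ) (N : ℕ) (E : Fin 3 → ℕ)
    (hE : ∀ α : Fin 3 → ℕ, (∀ i, α i < E i) → ∑ i, w i * α i < N) :
    ∃ U : S × ((i : Fin 3) → Fin (E i)) → R,
      ∀ c : S × ((i : Fin 3) → Fin (E i)) → ℂ, ∑ p, c p • U p ∈ FS W b w S N → ∀ p, c p = 0 := by
  classical
  choose! e he he' using exists_sep S hS hdist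
  choose! u hu hu' using fun z (hz : z ∈ S) ↦ exists_coord hb (hS z hz)
  refine ⟨fun p ↦ e p.1 ^ N * ∏ j, u p.1 j ^ (p.2 j : ℕ), fun c hc ↦ ?_⟩
  by_contra hne
  push Not at hne
  obtain ⟨p0, hp0, hmin⟩ := Finset.exists_min_image (Finset.univ.filter fun p ↦ c p ≠ 0)
    (fun p ↦ ∑ j, (p.2 j : ℕ)) (by
      obtain ⟨p, hp⟩ := hne
      exact ⟨p, by simpa using hp⟩)
  rw [Finset.mem_filter] at hp0
  obtain ⟨⟨z, hz⟩, α⟩ := p0
  set l : List (Fin 3) := List.replicate (α 0) 0 ++ List.replicate (α 1) 1 ++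
    List.replicate (α 2) 2 with hl
  have hcount : ∀ j, l.count j = α j := by
    intro j
    fin_cases j <;> simp [hl, List.count_replicate]
  have hlen : l.length = ∑ j, (α j : ℕ) := by simp [hl, Fin.sum_univ_three, add_assoc]
  have hwt : (l.map w).sum < N := by
    have := hE (fun j ↦ α j) fun j ↦ (α j).2
    simp only [Fin.sum_univ_three] at this
    simp only [hl, List.map_append, List.map_replicate, List.sum_append, List.sum_replicate,
      smul_eq_mul]
    linarith
  have h0 := hc z hz l hwt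
  rw [← wev_apply, map_sum, Finset.sum_eq_single (⟨z, hz⟩, α)] at h0
  · rw [map_smul, wev_apply, wev_mono (hu z hz) (hu' z hz) l _ _ hlen.le, map_pow, he z hz,
      one_pow, mul_one, smul_eq_mul, mul_eq_zero, Nat.cast_eq_zero] at h0
    rcases h0 with h0 | h0
    · exact hp0.2 h0
    · exact (coef_ne_zero l _).2 hcount h0
  · rintro ⟨⟨z', hz'⟩, α'⟩ - hne'
    rw [map_smul, smul_eq_mul, mul_eq_zero, or_iff_not_imp_left]
    intro hc'
    rw [wev_apply]
    by_cases hzz : z' = z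
    · subst hzz
      have h1 := hmin (⟨z', hz'⟩, α') (by simpa using hc')
      rw [wev_mono (hu z' hz) (hu' z' hz) l _ _ (hlen.le.trans h1), mul_eq_zero]
      left
      rw [Nat.cast_eq_zero]
      by_contra h2
      refine hne' (Prod.ext rfl (funext fun j ↦ Fin.ext ?_))
      exact ((coef_ne_zero l _).1 h2 j).symm.trans (hcount j)
    · have h1 : Van W b w z N (e z' ^ N) := by
        simpa using Van.pow hw (van_one hw (he' z' hz' z hz (Ne.symm hzz))) N
      exact Van.mul hw h1 (van_zero _) l (by simpa using hwt)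
  · simp

end ZC

theorem zcount (W : Fin 3 → WD) (b : Fin 3 → Fin 3 → ℂ) (hb : LinearIndependent ℂ b)
    (w e : Fin 3 → ℕ) (w0 d : ℕ) (hw : ∀ i, 0 < w i) (hwe : ∀ i, w i * e i ≤ w0)
    (S : Finset (Fin 3 → ℂ)) (hS : ∀ z ∈ S, Reg W z)
    (hdist : ∀ z ∈ S, ∀ z' ∈ S, z ≠ z' → ∃ i, z i - z' i ∉ (W i).Λ)
    (G : Set R) (hG : ∀ g ∈ G, g ∈ Md d) (hvan : ∀ g ∈ G, ∀ z ∈ S, Van W b w z w0 g)
    (hiso : ∀ z ∈ S, ∀ᶠ z' in 𝓝 z, (∀ g ∈ G, ev W z' g = 0) → z' = z) :
    S.card * (e 0 * e 1 * e 2) ≤ 8 * (3 * d) ^ 3 := by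
  classical
  rcases Nat.eq_zero_or_pos (e 0) with h0 | h0
  · simp [h0]
  have hw0 : 0 < w0 := (Nat.mul_pos (hw 0) h0).trans_le (hwe 0)
  obtain ⟨c, hc⟩ := ZC.upper hw hw0 S hS hdist G hG hvan hiso
  refine ZC.limit (C := c + 1) fun n ↦ ?_
  obtain ⟨U, hU⟩ := ZC.lower hb hw S hS hdist (3 * n * w0) (fun i ↦ n * e i) (by
    intro α hα
    have h1 : ∀ i, w i * α i < n * w0 := fun i ↦
      calc w i * α i < w i * (n * e i) := Nat.mul_lt_mul_of_pos_left (hα i) (hw i)
        _ = n * (w i * e i) := by ring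
        _ ≤ n * w0 := Nat.mul_le_mul_left _ (hwe i)
    rw [Fin.sum_univ_three]
    linarith [h1 0, h1 1, h1 2])
  have h := ZC.card_le _ U (ZC.mon (c + 3 * n * d)) hU fun f ↦
    (sup_le (ZC.Md_red W _ (fun i f ↦ ZC.FS_mul_left hw f (ZC.FS_cub hS _ i)) _) le_sup_right :
      _ ≤ _) (hc (3 * n) f)
  simp only [Fintype.card_prod, Fintype.card_coe, Fintype.card_pi, Fintype.card_fin,
    Fin.prod_univ_three] at h
  calc _ = S.card * (n * e 0 * (n * e 1) * (n * e 2)) := by ring
    _ ≤ _ := h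
    _ = _ := by ring

end Pool.Agent.Lib.ZP3
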