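import Pool.Agent.Lib.ZP3.Defs

/-! Block ZC, first file: vanishing orders are multiplicative, weights are additive. -/

open UpperHalfPlane Filter Topology Metric
open scoped Real

namespace Pool.Agent.Lib.ZP3

open Pool.Agent.Lib.MP_0704bf_ag Pool.Agent.Lib.helper6

namespace ZC

variable {W : Fin 3 → WD} {b : Fin 3 → Fin 3 → ℂ} {w : Fin 3 → ℕ} {z : Fin 3 → ℂ}

theorem word_nil (f : R) : word W b [] f = f := rfl

theorem word_cons (i : Fin 3) (l : List (Fin 3)) (f : R) :
    word W b (i :: l) f = word W b l (der W (b i) f) := rfl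

theorem word_add (l : List (Fin 3)) (f g : R) :
    word W b l (f + g) = word W b l f + word W b l g := by
  induction l generalizing f g with
  | nil => rfl
  | cons i l ih => rw [word_cons, word_cons, word_cons, map_add, ih]

theorem word_smul (l : List (Fin 3)) (c : ℂ) (f : R) :
    word W b l (c • f) = c • word W b l f := by
  induction l generalizing f with
  | nil => rfl
  | cons i l ih => rw [word_cons, word_cons, Derivation.map_smul, ih]

theorem word_zero (l : List (Fin 3)) : word W b l 0 = 0 := by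
  simpa using word_smul (W := W) (b := b) l 0 0

/-- the linear functional `f ↦ (word l f)(z)` -/
noncomputable def wev (W : Fin 3 → WD) (b : Fin 3 → Fin 3 → ℂ) (z : Fin 3 → ℂ)
    (l : List (Fin 3)) : R →ₗ[ℂ] ℂ where
  toFun f := ev W z (word W b l f)
  map_add' f g := by rw [word_add, map_add]
  map_smul' c f := by
    rw [word_smul]
    simp [ev, MvPolynomial.smul_eval]

theorem wev_apply (l : List (Fin 3)) (f : R) : wev W b z l f = ev W z (word W b l f) := rfl

theorem van_zero (f : R) : Van W b w z 0 f := fun _ h ↦ absurd h (Nat.not_lt_zero _)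

theorem van_mono {n n' : ℕ} {f : R} (h : n' ≤ n) (hf : Van W b w z n f) : Van W b w z n' f :=
  fun l hl ↦ hf l (lt_of_lt_of_le hl h)

theorem van_der {n : ℕ} {f : R} (hf : Van W b w z n f) (i : Fin 3) :
    Van W b w z (n - w i) (der W (b i) f) := by
  intro l hl
  have := hf (i :: l) (by simp only [List.map_cons, List.sum_cons]; omega)
  exact this

theorem van_ev {n : ℕ} {f : R} (hf : Van W b w z n f) (hn : 0 < n) : ev W z f = 0 :=
  hf [] (by simpa using hn)

theorem van_add {n : ℕ} {f g : R} (hf : Van W b w z n f) (hg : Van W b w z n g) :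
    Van W b w z n (f + g) := by
  intro l hl
  rw [word_add, map_add, hf l hl, hg l hl, add_zero]

theorem van_smul {n : ℕ} {f : R} (c : ℂ) (hf : Van W b w z n f) :
    Van W b w z n (c • f) := by
  intro l hl
  have := (wev W b z l).map_smul c f
  rw [wev_apply, wev_apply, hf l hl] at this
  simpa using this

theorem van_one (hw : ∀ i, 0 < w i) {f : R} (hf : ev W z f = 0) : Van W b w z 1 f := by
  intro l hl
  cases l with
  | nil => exact hf
  | cons i l =>
    have := hw i
    simp only [List.map_cons, List.sum_cons] at hl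
    omega

theorem mul_aux (l : List (Fin 3)) : ∀ (n n' : ℕ) (f g : R), Van W b w z n f → Van W b w z n' g →
    (l.map w).sum < n + n' → ev W z (word W b l (f * g)) = 0 := by
  induction l with
  | nil =>
    intro n n' f g hf hg hl
    rw [word_nil, map_mul]
    rcases Nat.eq_zero_or_pos n with h | h
    · have h' : 0 < n' := by simp at hl; omega
      rw [van_ev hg h', mul_zero]
    · rw [van_ev hf h, zero_mul]
  | cons i l ih =>
    intro n n' f g hf hg hl
    simp only [List.map_cons, List.sum_cons] at hl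
    rw [word_cons, Derivation.leibniz, word_add, map_add, smul_eq_mul, smul_eq_mul,
      ih n (n' - w i) f _ hf (van_der hg i) (by omega),
      ih n' (n - w i) g _ hg (van_der hf i) (by omega), add_zero]

end ZC

theorem Van.mul {W : Fin 3 → WD} {b : Fin 3 → Fin 3 → ℂ} {w : Fin 3 → ℕ} {z : Fin 3 → ℂ}
    {n n' : ℕ} {f g : R} (hw : ∀ i, 0 < w i) (hf : Van W b w z n f) (hg : Van W b w z n' g) :
    Van W b w z (n + n') (f * g) :=
  fun l hl ↦ (fun _ ↦ ZC.mul_aux l n n' f g hf hg hl) hw

theorem Van.pow {W : Fin 3 → WD} {b : Fin 3 → Fin 3 → ℂ} {w : Fin 3 → ℕ} {z : Fin 3 → ℂ}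
    {n : ℕ} {f : R} (hw : ∀ i, 0 < w i) (hf : Van W b w z n f) (k : ℕ) :
    Van W b w z (k * n) (f ^ k) := by
  induction k with
  | zero => simpa using ZC.van_zero _
  | succ k ih =>
    rw [pow_succ, Nat.succ_mul]
    exact Van.mul hw ih hf

theorem Md_mono {d d' : ℕ} (h : d ≤ d') : Md d ≤ Md d' :=
  MvPolynomial.restrictSupport_mono ℂ fun _ hm i ↦ (hm i).trans h

theorem Md_mul {d d' : ℕ} {f g : R} (hf : f ∈ Md d) (hg : g ∈ Md d') : f * g ∈ Md (d + d') := by
  classical
  rw [Md, MvPolynomial.mem_restrictSupport_iff] at hf hg ⊢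
  intro m hm
  have h := MvPolynomial.support_mul f g (Finset.mem_coe.1 hm)
  obtain ⟨a, ha, c, hc, rfl⟩ := Finset.mem_add.1 h
  intro i
  have h1 := hf (Finset.mem_coe.2 ha) i
  have h2 := hg (Finset.mem_coe.2 hc) i
  simp only [Finsupp.add_apply]
  omega

end Pool.Agent.Lib.ZP3
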