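import Pool.Agent.Lib.ZP3.WdLem
import Pool.Agent.Lib.ZP3.Dens
import Pool.Agent.Lib.ZP3.ZCount
import Pool.Agent.Lib.ZP3.Transl

open Filter Topology Metric

namespace Pool.Agent.Lib.ZP3.Zero

/-- apply the derivations along a list of directions -/
noncomputable def wd (W : Fin 3 → WD) (m : List (Fin 3 → ℂ)) (f : R) : R :=
  m.foldl (fun f v ↦ der W v f) f

variable {W : Fin 3 → WD}

@[simp] lemma wd_nil (f : R) : wd W [] f = f := rfl

@[simp] lemma wd_cons (v : Fin 3 → ℂ) (m : List (Fin 3 → ℂ)) (f : R) :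
    wd W (v :: m) f = wd W m (der W v f) := rfl

lemma der_add (v v' : Fin 3 → ℂ) (f : R) : der W (v + v') f = der W v f + der W v' f :=
  der0_add _ _ _ _

lemma der_smul (v : Fin 3 → ℂ) (c : ℂ) (f : R) : der W (c • v) f = c • der W v f :=
  der0_smul _ _ _ _

lemma der_comm (v v' : Fin 3 → ℂ) (f : R) : der W v (der W v' f) = der W v' (der W v f) :=
  der0_comm _ _ _ _

lemma wd_add (m : List (Fin 3 → ℂ)) (f g : R) : wd W m (f + g) = wd W m f + wd W m g := by
  induction m generalizing f g with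
  | nil => rfl
  | cons v m ih => simp [ih]

lemma wd_smul (m : List (Fin 3 → ℂ)) (c : ℂ) (f : R) : wd W m (c • f) = c • wd W m f := by
  induction m generalizing f with
  | nil => rfl
  | cons v m ih => simp [ih]

lemma wd_der (m : List (Fin 3 → ℂ)) (v : Fin 3 → ℂ) (f : R) :
    wd W m (der W v f) = der W v (wd W m f) := by
  induction m generalizing f with
  | nil => rfl
  | cons u m ih => rw [wd_cons, wd_cons, der_comm, ih]

lemma ev_smul (z : Fin 3 → ℂ) (c : ℂ) (f : R) : ev W z (c • f) = c * ev W z f := by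
  simp [ev, MvPolynomial.smul_eq_C_mul]

/-- the hyperplane -/
def hyp (β : Fin 3 → ℂ) : Submodule ℂ (Fin 3 → ℂ) where
  carrier := {v | β 0 * v 0 = β 1 * v 1 + β 2 * v 2}
  add_mem' := by
    intro a b ha hb
    simp only [Set.mem_setOf_eq, Pi.add_apply] at *
    linear_combination ha + hb
  zero_mem' := by simp
  smul_mem' := by
    intro c a ha
    simp only [Set.mem_setOf_eq, Pi.smul_apply, smul_eq_mul] at *
    linear_combination c * ha

lemma mem_hyp {β v : Fin 3 → ℂ} : v ∈ hyp β ↔ β 0 * v 0 = β 1 * v 1 + β 2 * v 2 := Iff.rfl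

lemma words_vanish {β p : Fin 3 → ℂ} (hβ : β 0 ≠ 0) {f : R} {n : ℕ}
    (hv : ∀ a b : ℕ, a + b ≤ n → ev W p ((der W ![β 1, β 0, 0])^[a]
      ((der W ![β 2, 0, β 0])^[b] f)) = 0) (m : List (Fin 3 → ℂ)) (hm : ∀ v ∈ m, v ∈ hyp β)
    (hn : m.length ≤ n) : ev W p (wd W m f) = 0 := by
  suffices ∀ a b : ℕ, a + b + m.length ≤ n → ev W p (wd W m ((der W ![β 1, β 0, 0])^[a]
      ((der W ![β 2, 0, β 0])^[b] f))) = 0 by simpa using this 0 0 (by simpa using hn)
  clear hn
  induction m with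
  | nil => exact fun a b h ↦ hv a b (by simpa using h)
  | cons v m ih =>
    intro a b h
    have ih' := ih fun u hu ↦ hm u (List.mem_cons_of_mem _ hu)
    have hv' := mem_hyp.mp (hm v List.mem_cons_self)
    have e : v = (v 1 / β 0) • ![β 1, β 0, 0] + (v 2 / β 0) • ![β 2, 0, β 0] := by
      ext i
      fin_cases i
      · simp
        field_simp
        linear_combination hv'
      · simp
        field_simp
      · simp
        field_simp
    have hc : Function.Commute (der W ![β 2, 0, β 0]) (der W ![β 1, β 0, 0]) :=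
      fun g ↦ der_comm _ _ g
    rw [List.length_cons] at h
    rw [wd_cons, e, der_add, der_smul, der_smul, wd_add, wd_smul, wd_smul, map_add, ev_smul,
      ev_smul, ← Function.iterate_succ_apply' (der W ![β 1, β 0, 0]), ih' _ _ (by omega),
      (hc.iterate_right a).eq, ← Function.iterate_succ_apply' (der W ![β 2, 0, β 0]),
      ih' _ _ (by omega)]
    simp

/-- regular points of the zero set of an ideal -/
def VV (W : Fin 3 → WD) (P : Ideal R) : Set (Fin 3 → ℂ) :=
  {η | Reg W η ∧ ∀ f ∈ P, ev W η f = 0}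

/-- directions stabilising an ideal -/
def stab (W : Fin 3 → WD) (P : Ideal R) : Submodule ℂ (Fin 3 → ℂ) where
  carrier := {v | ∀ f ∈ P, der W v f ∈ P}
  add_mem' := by
    intro a b ha hb f hf
    rw [der_add]
    exact add_mem (ha f hf) (hb f hf)
  zero_mem' := by
    intro f _
    have := der_smul (W := W) 0 0 f
    rw [zero_smul, zero_smul] at this
    rw [this]
    exact zero_mem _
  smul_mem' := by
    intro c a ha f hf
    rw [der_smul, MvPolynomial.smul_eq_C_mul]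
    exact P.mul_mem_left _ (ha f hf)

lemma countable_line {η : Fin 3 → ℂ} (hη : Reg W η) (h a : Fin 3 → ℂ)
    (ha : ∀ i, h i = 0 → a i = 0) : {s : ℂ | ¬ Reg W (η + a + s • h)}.Countable := by
  have : {s : ℂ | ¬ Reg W (η + a + s • h)} = ⋃ i, {s : ℂ | η i + a i + s * h i ∈ (W i).Λ} := by
    ext s
    simp [Reg]
  rw [this]
  refine Set.countable_iUnion fun i ↦ ?_
  by_cases hi : h i = 0
  · have := hη i
    simp [hi, ha i hi, this]
  · refine ((W i).countable.preimage_of_injOn (f := fun s : ℂ ↦ η i + a i + s * h i) ?_)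
    intro s _ s' _ hs
    exact mul_right_cancel₀ hi (add_left_cancel hs)

lemma reg_eventually {X : Type*} [TopologicalSpace X] {g : X → Fin 3 → ℂ} {x : X}
    (hg : ContinuousAt g x) (h : Reg W (g x)) : ∀ᶠ y in 𝓝 x, Reg W (g y) :=
  hg.eventually ((isOpen_reg W).mem_nhds h)

/-- invariance under the stabiliser -/
lemma VV.add {P : Ideal R} {η h : Fin 3 → ℂ} (hη : η ∈ VV W P) (hh : h ∈ stab W P)
    (hr : Reg W (η + h)) : η + h ∈ VV W P := by
  refine ⟨hr, fun f hf ↦ ?_⟩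
  set U : Set ℂ := {s : ℂ | ¬ Reg W (η + 0 + s • h)}ᶜ with hU
  have hU' : ∀ s, s ∈ U ↔ Reg W (η + s • h) := fun s ↦ by simp [hU]
  have hconn : IsPreconnected U :=
    ((countable_line hη.1 h 0 (by simp)).isConnected_compl_of_one_lt_rank
      (by simp)).isPreconnected
  have han : ∀ f : R, AnalyticOnNhd ℂ (fun s : ℂ ↦ ev W (η + s • h) f) U := by
    intro f s hs
    exact (analyticAt_ev ((hU' s).mp hs) f).comp (f := fun s : ℂ ↦ η + s • h)
      (analyticAt_const.add (analyticAt_id.smul analyticAt_const))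
  have h0 : (0 : ℂ) ∈ U := by simpa [hU'] using hη.1
  have hev : ∀ᶠ s in 𝓝 (0 : ℂ), Reg W (η + s • h) :=
    reg_eventually (g := fun s : ℂ ↦ η + s • h) (by fun_prop) (by simpa using hη.1)
  have hit : ∀ n : ℕ, iteratedDeriv n (fun s : ℂ ↦ ev W (η + s • h) f) =ᶠ[𝓝 0]
      fun s : ℂ ↦ ev W (η + s • h) ((der W h)^[n] f) := by
    intro n
    induction n with
    | zero => simp
    | succ n ih =>
      rw [iteratedDeriv_succ]
      refine ih.deriv.trans ?_
      filter_upwards [hev] with s hs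
      rw [(hasDerivAt_ev hs _).deriv, Function.iterate_succ_apply']
  have hmem : ∀ n : ℕ, (der W h)^[n] f ∈ P := by
    intro n
    induction n with
    | zero => exact hf
    | succ n ih => rw [Function.iterate_succ_apply']; exact hh _ ih
  have htop : analyticOrderAt (fun s : ℂ ↦ ev W (η + s • h) f) 0 = ⊤ := by
    refine ENat.eq_top_iff_forall_ge.mpr fun n ↦ ?_
    rw [natCast_le_analyticOrderAt_iff_iteratedDeriv_eq_zero (han f 0 h0)]
    intro i _
    rw [(hit i).eq_of_nhds]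
    simpa using hη.2 _ (hmem i)
  have := (han f).eqOn_zero_of_preconnected_of_eventuallyEq_zero hconn h0
    (analyticOrderAt_eq_top.mp htop) ((hU' 1).mpr (by simpa using hr))
  simpa using this

/-- classical neighbourhoods are Zariski dense -/
lemma VV.dense {P : Ideal R} (hP : P.IsPrime) (hc : ∀ i, cub W i ∈ P) {η : Fin 3 → ℂ}
    (hη : η ∈ VV W P) {f : R} (hf : f ∉ P) :
    ∃ᶠ η' in 𝓝 η, η' ∈ VV W P ∧ ev W η' f ≠ 0 := by
  rw [Metric.nhds_basis_ball.frequently_iff]
  intro ε hε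
  choose δ hδ hδ' using fun i ↦ (W i).locsurj (hη.1 i) hε
  obtain ⟨i0, -, hi0⟩ := Finset.exists_min_image Finset.univ δ Finset.univ_nonempty
  obtain ⟨x, hx1, hx2, hx3⟩ := dens P hP (x := pt W η) hη.2 hf (hδ i0)
  have hco : ∀ k, ‖x k - pt W η k‖ < δ i0 := fun k ↦ (norm_le_pi_norm (x - pt W η) k).trans_lt hx1
  have hex := fun i ↦ hδ' i (x (Sum.inl i)) (x (Sum.inr i)) (by
      have := hx2 _ (hc i)
      simp only [cub, map_sub, map_pow, map_mul, MvPolynomial.eval_X, MvPolynomial.eval_C,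
        map_ofNat] at this
      linear_combination this)
    ((hco (Sum.inl i)).trans_le (hi0 i (Finset.mem_univ i)))
    ((hco (Sum.inr i)).trans_le (hi0 i (Finset.mem_univ i)))
  choose z hz1 hz2 hz3 hz4 using hex
  have hpt : pt W z = x := by
    ext k
    rcases k with i | i
    · exact hz3 i
    · exact hz4 i
  refine ⟨z, ?_, ⟨hz2, fun g hg ↦ ?_⟩, ?_⟩
  · rw [mem_ball, dist_eq_norm, pi_norm_lt_iff hε]
    exact hz1
  · rw [ev, hpt]
    exact hx2 g hg
  · rwa [ev, hpt]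

lemma stab_ne_top {P : Ideal R} {p : Fin 3 → ℂ} (hp : p ∈ VV W P) {F : MvPolynomial (Fin 3) ℂ}
    (hF : F ≠ 0) (hFP : MvPolynomial.rename Sum.inl F ∈ P) : stab W P ≠ ⊤ := by
  intro htop
  refine hF (MvPolynomial.funext_set (fun i ↦ (W i).X '' {z | z ∉ (W i).Λ})
    (fun i ↦ (W i).infinite_X) fun x hx ↦ ?_)
  choose z hz hz' using fun i ↦ hx i (Set.mem_univ i)
  have h1 : p + (z - p) ∈ VV W P := VV.add hp (htop ▸ Submodule.mem_top) (by rw [add_sub_cancel]; exact hz)
  have h2 := h1.2 _ hFP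
  rw [add_sub_cancel, ev, MvPolynomial.eval_rename] at h2
  rw [map_zero, ← h2]
  congr 2
  ext i
  exact (hz' i).symm

lemma tangent {C : Set (Fin 3 → ℂ)} (h : ∃ᶠ c in 𝓝 (0 : Fin 3 → ℂ), c ∈ C ∧ c ≠ 0) :
    ∃ c : Fin 3 → ℂ, c ≠ 0 ∧ ∀ (φ : (Fin 3 → ℂ) → ℂ) (L : (Fin 3 → ℂ) →L[ℂ] ℂ),
      HasFDerivAt φ L 0 → φ 0 = 0 → (∀ c' ∈ C, φ c' = 0) → L c = 0 := by
  have hacc : AccPt (0 : Fin 3 → ℂ) (𝓟 C) := by
    rw [accPt_iff_frequently]
    exact h.mono fun c hc ↦ ⟨hc.2, hc.1⟩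
  obtain ⟨c, hc1, hc2⟩ := tangentConeAt_nonempty_of_properSpace (𝕜 := ℂ) hacc
  refine ⟨c, hc2, fun φ L hL h0 hφ ↦ ?_⟩
  have h1 : HasFDerivWithinAt φ (0 : (Fin 3 → ℂ) →L[ℂ] ℂ) C 0 :=
    (hasFDerivWithinAt_const (0 : ℂ) 0 C).congr hφ h0
  exact hL.hasFDerivWithinAt.unique_on h1 hc1

/-- a coordinate set on which a subspace projects bijectively -/
lemma exists_valid (H : Submodule ℂ (Fin 3 → ℂ)) : ∃ J : Finset (Fin 3),
    (∀ v ∈ H, (∀ j ∈ J, v j = 0) → v = 0) ∧ ∀ w : Fin 3 → ℂ, ∃ v ∈ H, ∀ j ∈ J, v j = w j := by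
  classical
  obtain ⟨J, hJ, hmax⟩ := Finset.exists_max_image
    (Finset.univ.filter fun J : Finset (Fin 3) ↦ ∀ w : Fin 3 → ℂ, ∃ v ∈ H, ∀ j ∈ J, v j = w j)
    Finset.card ⟨∅, by simpa using ⟨0, zero_mem H⟩⟩
  rw [Finset.mem_filter] at hJ
  refine ⟨J, fun v hv h0 ↦ ?_, hJ.2⟩
  by_contra hne
  obtain ⟨i, hi⟩ := Function.ne_iff.mp hne
  have hi' : v i ≠ 0 := hi
  have hiJ : i ∉ J := fun h ↦ hi' (h0 i h)
  have := hmax (insert i J) (by
    rw [Finset.mem_filter]
    refine ⟨Finset.mem_univ _, fun w ↦ ?_⟩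
    obtain ⟨u, hu, hu'⟩ := hJ.2 w
    refine ⟨u + ((w i - u i) / v i) • v, add_mem hu (H.smul_mem _ hv), fun j hj ↦ ?_⟩
    rcases Finset.mem_insert.mp hj with rfl | hj
    · simp only [Pi.add_apply, Pi.smul_apply, smul_eq_mul]
      field_simp
      ring
    · simp [h0 j hj, hu' j hj])
  rw [Finset.card_insert_of_notMem hiJ] at this
  omega

lemma exists_basis {H : Submodule ℂ (Fin 3 → ℂ)} {J : Finset (Fin 3)}
    (h : ∀ w : Fin 3 → ℂ, ∃ v ∈ H, ∀ j ∈ J, v j = w j) : ∃ b : Fin 3 → Fin 3 → ℂ,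
      LinearIndependent ℂ b ∧ (∀ i ∈ J, b i ∈ H) ∧ ∀ i, i ∉ J → ∀ j ∈ J, b i j = 0 := by
  classical
  choose v hv hv' using h
  refine ⟨fun i ↦ if i ∈ J then v (Pi.single i 1) else Pi.single i 1, ?_, fun i hi ↦ by
    simp [hi, hv], fun i hi j hj ↦ ?_⟩
  · rw [Fintype.linearIndependent_iff]
    intro c hc
    have h1 : ∀ j ∈ J, c j = 0 := by
      intro j hj
      have := congrFun hc j
      rw [Finset.sum_apply, Finset.sum_eq_single j] at this
      · simpa [hj, hv' _ j hj] using this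
      · intro i _ hij
        by_cases hi : i ∈ J
        · simp [hi, hv' _ j hj, Pi.single_eq_of_ne hij.symm]
        · simp [hi, Pi.single_eq_of_ne hij.symm]
      · simp
    intro j
    by_cases hj : j ∈ J
    · exact h1 j hj
    · have := congrFun hc j
      rw [Finset.sum_apply, Finset.sum_eq_single j] at this
      · simpa [hj] using this
      · intro i _ hij
        by_cases hi : i ∈ J
        · simp [h1 i hi]
        · simp [hi, Pi.single_eq_of_ne hij.symm]
      · simp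
  · have : j ≠ i := fun e ↦ hi (e ▸ hj)
    simp [hi, Pi.single_eq_of_ne this]

end Pool.Agent.Lib.ZP3.Zero
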